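import Pool.Agent.YM.YMA.Keys

set_option linter.unusedVariables false
set_option maxRecDepth 100000

open YMEng

namespace YMA

def p10_0_0 : Cov := [(12, 0, 0, [(0, [0], [0, 1]), (2, [1], [2, 3, 4])]),
  (12, 0, 0, [(0, [0], [0, 2]), (2, [1], [1, 3, 4])]),
  (12, 0, 0, [(0, [0], [0, 3]), (2, [1], [1, 2, 4])])]

def p10_0_1 : Cov := [(12, 0, 0, [(0, [0], [0, 4]), (2, [1], [1, 2, 3])]),
  (12, 0, 0, [(0, [0], [1, 2]), (2, [1], [0, 3, 4])]),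
  (12, 0, 0, [(0, [0], [1, 3]), (2, [1], [0, 2, 4])])]

def p10_0_2 : Cov := [(12, 0, 0, [(0, [0], [1, 4]), (2, [1], [0, 2, 3])]),
  (12, 0, 0, [(0, [0], [2, 3]), (2, [1], [0, 1, 4])]),
  (12, 0, 0, [(0, [0], [2, 4]), (2, [1], [0, 1, 3])])]

def p10_0_3 : Cov := [(12, 0, 0, [(0, [0], [3, 4]), (2, [1], [0, 1, 2])]),
  (-12, 0, 0, [(0, [1], [0, 1]), (2, [0], [2, 3, 4])]),
  (-12, 0, 0, [(0, [1], [0, 2]), (2, [0], [1, 3, 4])])]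

def p10_0_4 : Cov := [(-12, 0, 0, [(0, [1], [0, 3]), (2, [0], [1, 2, 4])]),
  (-12, 0, 0, [(0, [1], [0, 4]), (2, [0], [1, 2, 3])]),
  (-12, 0, 0, [(0, [1], [1, 2]), (2, [0], [0, 3, 4])])]

def p10_0_5 : Cov := [(-12, 0, 0, [(0, [1], [1, 3]), (2, [0], [0, 2, 4])]),
  (-12, 0, 0, [(0, [1], [1, 4]), (2, [0], [0, 2, 3])]),
  (-12, 0, 0, [(0, [1], [2, 3]), (2, [0], [0, 1, 4])])]

def p10_0_6 : Cov := [(-12, 0, 0, [(0, [1], [2, 4]), (2, [0], [0, 1, 3])]),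
  (-12, 0, 0, [(0, [1], [3, 4]), (2, [0], [0, 1, 2])])]

def c10_0 : Cov := p10_0_0 ++ (p10_0_1 ++ (p10_0_2 ++ (p10_0_3 ++ (p10_0_4 ++ (p10_0_5 ++ (p10_0_6))))))

def p10_1_0 : Cov := [(4, 0, 1, [(0, [0], [0, 5]), (0, [1], [1, 2]), (1, [], [3, 4]), (3, [], [5])]),
  (4, 0, 1, [(0, [0], [0, 5]), (0, [1], [1, 3]), (1, [], [2, 4]), (3, [], [5])]),
  (4, 0, 1, [(0, [0], [0, 5]), (0, [1], [1, 4]), (1, [], [2, 3]), (3, [], [5])])]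

def p10_1_1 : Cov := [(4, 0, 1, [(0, [0], [0, 5]), (0, [1], [2, 3]), (1, [], [1, 4]), (3, [], [5])]),
  (4, 0, 1, [(0, [0], [0, 5]), (0, [1], [2, 4]), (1, [], [1, 3]), (3, [], [5])]),
  (4, 0, 1, [(0, [0], [0, 5]), (0, [1], [3, 4]), (1, [], [1, 2]), (3, [], [5])])]

def p10_1_2 : Cov := [(-4, 0, 1, [(0, [0], [0, 1]), (0, [1], [2, 5]), (1, [], [3, 4]), (3, [], [5])]),
  (-4, 0, 1, [(0, [0], [0, 1]), (0, [1], [3, 5]), (1, [], [2, 4]), (3, [], [5])]),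
  (-4, 0, 1, [(0, [0], [0, 1]), (0, [1], [4, 5]), (1, [], [2, 3]), (3, [], [5])])]

def p10_1_3 : Cov := [(-4, 0, 1, [(0, [0], [0, 2]), (0, [1], [1, 5]), (1, [], [3, 4]), (3, [], [5])]),
  (-4, 0, 1, [(0, [0], [0, 2]), (0, [1], [3, 5]), (1, [], [1, 4]), (3, [], [5])]),
  (-4, 0, 1, [(0, [0], [0, 2]), (0, [1], [4, 5]), (1, [], [1, 3]), (3, [], [5])])]

def p10_1_4 : Cov := [(-4, 0, 1, [(0, [0], [0, 3]), (0, [1], [1, 5]), (1, [], [2, 4]), (3, [], [5])]),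
  (-4, 0, 1, [(0, [0], [0, 3]), (0, [1], [2, 5]), (1, [], [1, 4]), (3, [], [5])]),
  (-4, 0, 1, [(0, [0], [0, 3]), (0, [1], [4, 5]), (1, [], [1, 2]), (3, [], [5])])]

def p10_1_5 : Cov := [(-4, 0, 1, [(0, [0], [0, 4]), (0, [1], [1, 5]), (1, [], [2, 3]), (3, [], [5])]),
  (-4, 0, 1, [(0, [0], [0, 4]), (0, [1], [2, 5]), (1, [], [1, 3]), (3, [], [5])]),
  (-4, 0, 1, [(0, [0], [0, 4]), (0, [1], [3, 5]), (1, [], [1, 2]), (3, [], [5])])]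

def p10_1_6 : Cov := [(4, 0, 1, [(0, [0], [1, 5]), (0, [1], [0, 2]), (1, [], [3, 4]), (3, [], [5])]),
  (4, 0, 1, [(0, [0], [1, 5]), (0, [1], [0, 3]), (1, [], [2, 4]), (3, [], [5])]),
  (4, 0, 1, [(0, [0], [1, 5]), (0, [1], [0, 4]), (1, [], [2, 3]), (3, [], [5])])]

def p10_1_7 : Cov := [(4, 0, 1, [(0, [0], [1, 5]), (0, [1], [2, 3]), (1, [], [0, 4]), (3, [], [5])]),
  (4, 0, 1, [(0, [0], [1, 5]), (0, [1], [2, 4]), (1, [], [0, 3]), (3, [], [5])]),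
  (4, 0, 1, [(0, [0], [1, 5]), (0, [1], [3, 4]), (1, [], [0, 2]), (3, [], [5])])]

def p10_1_8 : Cov := [(-4, 0, 1, [(0, [0], [1, 2]), (0, [1], [0, 5]), (1, [], [3, 4]), (3, [], [5])]),
  (-4, 0, 1, [(0, [0], [1, 2]), (0, [1], [3, 5]), (1, [], [0, 4]), (3, [], [5])]),
  (-4, 0, 1, [(0, [0], [1, 2]), (0, [1], [4, 5]), (1, [], [0, 3]), (3, [], [5])])]

def p10_1_9 : Cov := [(-4, 0, 1, [(0, [0], [1, 3]), (0, [1], [0, 5]), (1, [], [2, 4]), (3, [], [5])]),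
  (-4, 0, 1, [(0, [0], [1, 3]), (0, [1], [2, 5]), (1, [], [0, 4]), (3, [], [5])]),
  (-4, 0, 1, [(0, [0], [1, 3]), (0, [1], [4, 5]), (1, [], [0, 2]), (3, [], [5])])]

def p10_1_10 : Cov := [(-4, 0, 1, [(0, [0], [1, 4]), (0, [1], [0, 5]), (1, [], [2, 3]), (3, [], [5])]),
  (-4, 0, 1, [(0, [0], [1, 4]), (0, [1], [2, 5]), (1, [], [0, 3]), (3, [], [5])]),
  (-4, 0, 1, [(0, [0], [1, 4]), (0, [1], [3, 5]), (1, [], [0, 2]), (3, [], [5])])]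

def p10_1_11 : Cov := [(4, 0, 1, [(0, [0], [2, 5]), (0, [1], [0, 1]), (1, [], [3, 4]), (3, [], [5])]),
  (4, 0, 1, [(0, [0], [2, 5]), (0, [1], [0, 3]), (1, [], [1, 4]), (3, [], [5])]),
  (4, 0, 1, [(0, [0], [2, 5]), (0, [1], [0, 4]), (1, [], [1, 3]), (3, [], [5])])]

def p10_1_12 : Cov := [(4, 0, 1, [(0, [0], [2, 5]), (0, [1], [1, 3]), (1, [], [0, 4]), (3, [], [5])]),
  (4, 0, 1, [(0, [0], [2, 5]), (0, [1], [1, 4]), (1, [], [0, 3]), (3, [], [5])]),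
  (4, 0, 1, [(0, [0], [2, 5]), (0, [1], [3, 4]), (1, [], [0, 1]), (3, [], [5])])]

def p10_1_13 : Cov := [(-4, 0, 1, [(0, [0], [2, 3]), (0, [1], [0, 5]), (1, [], [1, 4]), (3, [], [5])]),
  (-4, 0, 1, [(0, [0], [2, 3]), (0, [1], [1, 5]), (1, [], [0, 4]), (3, [], [5])]),
  (-4, 0, 1, [(0, [0], [2, 3]), (0, [1], [4, 5]), (1, [], [0, 1]), (3, [], [5])])]

def p10_1_14 : Cov := [(-4, 0, 1, [(0, [0], [2, 4]), (0, [1], [0, 5]), (1, [], [1, 3]), (3, [], [5])]),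
  (-4, 0, 1, [(0, [0], [2, 4]), (0, [1], [1, 5]), (1, [], [0, 3]), (3, [], [5])]),
  (-4, 0, 1, [(0, [0], [2, 4]), (0, [1], [3, 5]), (1, [], [0, 1]), (3, [], [5])])]

def p10_1_15 : Cov := [(4, 0, 1, [(0, [0], [3, 5]), (0, [1], [0, 1]), (1, [], [2, 4]), (3, [], [5])]),
  (4, 0, 1, [(0, [0], [3, 5]), (0, [1], [0, 2]), (1, [], [1, 4]), (3, [], [5])]),
  (4, 0, 1, [(0, [0], [3, 5]), (0, [1], [0, 4]), (1, [], [1, 2]), (3, [], [5])])]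

def p10_1_16 : Cov := [(4, 0, 1, [(0, [0], [3, 5]), (0, [1], [1, 2]), (1, [], [0, 4]), (3, [], [5])]),
  (4, 0, 1, [(0, [0], [3, 5]), (0, [1], [1, 4]), (1, [], [0, 2]), (3, [], [5])]),
  (4, 0, 1, [(0, [0], [3, 5]), (0, [1], [2, 4]), (1, [], [0, 1]), (3, [], [5])])]

def p10_1_17 : Cov := [(-4, 0, 1, [(0, [0], [3, 4]), (0, [1], [0, 5]), (1, [], [1, 2]), (3, [], [5])]),
  (-4, 0, 1, [(0, [0], [3, 4]), (0, [1], [1, 5]), (1, [], [0, 2]), (3, [], [5])]),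
  (-4, 0, 1, [(0, [0], [3, 4]), (0, [1], [2, 5]), (1, [], [0, 1]), (3, [], [5])])]

def p10_1_18 : Cov := [(4, 0, 1, [(0, [0], [4, 5]), (0, [1], [0, 1]), (1, [], [2, 3]), (3, [], [5])]),
  (4, 0, 1, [(0, [0], [4, 5]), (0, [1], [0, 2]), (1, [], [1, 3]), (3, [], [5])]),
  (4, 0, 1, [(0, [0], [4, 5]), (0, [1], [0, 3]), (1, [], [1, 2]), (3, [], [5])])]

def p10_1_19 : Cov := [(4, 0, 1, [(0, [0], [4, 5]), (0, [1], [1, 2]), (1, [], [0, 3]), (3, [], [5])]),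
  (4, 0, 1, [(0, [0], [4, 5]), (0, [1], [1, 3]), (1, [], [0, 2]), (3, [], [5])]),
  (4, 0, 1, [(0, [0], [4, 5]), (0, [1], [2, 3]), (1, [], [0, 1]), (3, [], [5])])]

def c10_1 : Cov := p10_1_0 ++ (p10_1_1 ++ (p10_1_2 ++ (p10_1_3 ++ (p10_1_4 ++ (p10_1_5 ++ (p10_1_6 ++ (p10_1_7 ++ (p10_1_8 ++ (p10_1_9 ++ (p10_1_10 ++ (p10_1_11 ++ (p10_1_12 ++ (p10_1_13 ++ (p10_1_14 ++ (p10_1_15 ++ (p10_1_16 ++ (p10_1_17 ++ (p10_1_18 ++ (p10_1_19)))))))))))))))))))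

def p10_2_0 : Cov := [(2, 0, 1, [(0, [0], [0, 5]), (0, [1], [1, 2]), (1, [], [3, 5]), (3, [], [4])]),
  (2, 0, 1, [(0, [0], [0, 5]), (0, [1], [1, 2]), (1, [], [4, 5]), (3, [], [3])]),
  (2, 0, 1, [(0, [0], [0, 5]), (0, [1], [1, 3]), (1, [], [2, 5]), (3, [], [4])])]

def p10_2_1 : Cov := [(2, 0, 1, [(0, [0], [0, 5]), (0, [1], [1, 3]), (1, [], [4, 5]), (3, [], [2])]),
  (2, 0, 1, [(0, [0], [0, 5]), (0, [1], [1, 4]), (1, [], [2, 5]), (3, [], [3])]),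
  (2, 0, 1, [(0, [0], [0, 5]), (0, [1], [1, 4]), (1, [], [3, 5]), (3, [], [2])])]

def p10_2_2 : Cov := [(2, 0, 1, [(0, [0], [0, 5]), (0, [1], [2, 3]), (1, [], [1, 5]), (3, [], [4])]),
  (2, 0, 1, [(0, [0], [0, 5]), (0, [1], [2, 3]), (1, [], [4, 5]), (3, [], [1])]),
  (2, 0, 1, [(0, [0], [0, 5]), (0, [1], [2, 4]), (1, [], [1, 5]), (3, [], [3])])]

def p10_2_3 : Cov := [(2, 0, 1, [(0, [0], [0, 5]), (0, [1], [2, 4]), (1, [], [3, 5]), (3, [], [1])]),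
  (2, 0, 1, [(0, [0], [0, 5]), (0, [1], [3, 4]), (1, [], [1, 5]), (3, [], [2])]),
  (2, 0, 1, [(0, [0], [0, 5]), (0, [1], [3, 4]), (1, [], [2, 5]), (3, [], [1])])]

def p10_2_4 : Cov := [(-2, 0, 1, [(0, [0], [0, 1]), (0, [1], [2, 5]), (1, [], [3, 5]), (3, [], [4])]),
  (-2, 0, 1, [(0, [0], [0, 1]), (0, [1], [2, 5]), (1, [], [4, 5]), (3, [], [3])]),
  (-2, 0, 1, [(0, [0], [0, 1]), (0, [1], [3, 5]), (1, [], [2, 5]), (3, [], [4])])]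

def p10_2_5 : Cov := [(-2, 0, 1, [(0, [0], [0, 1]), (0, [1], [3, 5]), (1, [], [4, 5]), (3, [], [2])]),
  (-2, 0, 1, [(0, [0], [0, 1]), (0, [1], [4, 5]), (1, [], [2, 5]), (3, [], [3])]),
  (-2, 0, 1, [(0, [0], [0, 1]), (0, [1], [4, 5]), (1, [], [3, 5]), (3, [], [2])])]

def p10_2_6 : Cov := [(-2, 0, 1, [(0, [0], [0, 2]), (0, [1], [1, 5]), (1, [], [3, 5]), (3, [], [4])]),
  (-2, 0, 1, [(0, [0], [0, 2]), (0, [1], [1, 5]), (1, [], [4, 5]), (3, [], [3])]),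
  (-2, 0, 1, [(0, [0], [0, 2]), (0, [1], [3, 5]), (1, [], [1, 5]), (3, [], [4])])]

def p10_2_7 : Cov := [(-2, 0, 1, [(0, [0], [0, 2]), (0, [1], [3, 5]), (1, [], [4, 5]), (3, [], [1])]),
  (-2, 0, 1, [(0, [0], [0, 2]), (0, [1], [4, 5]), (1, [], [1, 5]), (3, [], [3])]),
  (-2, 0, 1, [(0, [0], [0, 2]), (0, [1], [4, 5]), (1, [], [3, 5]), (3, [], [1])])]

def p10_2_8 : Cov := [(-2, 0, 1, [(0, [0], [0, 3]), (0, [1], [1, 5]), (1, [], [2, 5]), (3, [], [4])]),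
  (-2, 0, 1, [(0, [0], [0, 3]), (0, [1], [1, 5]), (1, [], [4, 5]), (3, [], [2])]),
  (-2, 0, 1, [(0, [0], [0, 3]), (0, [1], [2, 5]), (1, [], [1, 5]), (3, [], [4])])]

def p10_2_9 : Cov := [(-2, 0, 1, [(0, [0], [0, 3]), (0, [1], [2, 5]), (1, [], [4, 5]), (3, [], [1])]),
  (-2, 0, 1, [(0, [0], [0, 3]), (0, [1], [4, 5]), (1, [], [1, 5]), (3, [], [2])]),
  (-2, 0, 1, [(0, [0], [0, 3]), (0, [1], [4, 5]), (1, [], [2, 5]), (3, [], [1])])]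

def p10_2_10 : Cov := [(-2, 0, 1, [(0, [0], [0, 4]), (0, [1], [1, 5]), (1, [], [2, 5]), (3, [], [3])]),
  (-2, 0, 1, [(0, [0], [0, 4]), (0, [1], [1, 5]), (1, [], [3, 5]), (3, [], [2])]),
  (-2, 0, 1, [(0, [0], [0, 4]), (0, [1], [2, 5]), (1, [], [1, 5]), (3, [], [3])])]

def p10_2_11 : Cov := [(-2, 0, 1, [(0, [0], [0, 4]), (0, [1], [2, 5]), (1, [], [3, 5]), (3, [], [1])]),
  (-2, 0, 1, [(0, [0], [0, 4]), (0, [1], [3, 5]), (1, [], [1, 5]), (3, [], [2])]),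
  (-2, 0, 1, [(0, [0], [0, 4]), (0, [1], [3, 5]), (1, [], [2, 5]), (3, [], [1])])]

def p10_2_12 : Cov := [(2, 0, 1, [(0, [0], [1, 5]), (0, [1], [0, 2]), (1, [], [3, 5]), (3, [], [4])]),
  (2, 0, 1, [(0, [0], [1, 5]), (0, [1], [0, 2]), (1, [], [4, 5]), (3, [], [3])]),
  (2, 0, 1, [(0, [0], [1, 5]), (0, [1], [0, 3]), (1, [], [2, 5]), (3, [], [4])])]

def p10_2_13 : Cov := [(2, 0, 1, [(0, [0], [1, 5]), (0, [1], [0, 3]), (1, [], [4, 5]), (3, [], [2])]),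
  (2, 0, 1, [(0, [0], [1, 5]), (0, [1], [0, 4]), (1, [], [2, 5]), (3, [], [3])]),
  (2, 0, 1, [(0, [0], [1, 5]), (0, [1], [0, 4]), (1, [], [3, 5]), (3, [], [2])])]

def p10_2_14 : Cov := [(2, 0, 1, [(0, [0], [1, 5]), (0, [1], [2, 3]), (1, [], [0, 5]), (3, [], [4])]),
  (2, 0, 1, [(0, [0], [1, 5]), (0, [1], [2, 3]), (1, [], [4, 5]), (3, [], [0])]),
  (2, 0, 1, [(0, [0], [1, 5]), (0, [1], [2, 4]), (1, [], [0, 5]), (3, [], [3])])]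

def p10_2_15 : Cov := [(2, 0, 1, [(0, [0], [1, 5]), (0, [1], [2, 4]), (1, [], [3, 5]), (3, [], [0])]),
  (2, 0, 1, [(0, [0], [1, 5]), (0, [1], [3, 4]), (1, [], [0, 5]), (3, [], [2])]),
  (2, 0, 1, [(0, [0], [1, 5]), (0, [1], [3, 4]), (1, [], [2, 5]), (3, [], [0])])]

def p10_2_16 : Cov := [(-2, 0, 1, [(0, [0], [1, 2]), (0, [1], [0, 5]), (1, [], [3, 5]), (3, [], [4])]),
  (-2, 0, 1, [(0, [0], [1, 2]), (0, [1], [0, 5]), (1, [], [4, 5]), (3, [], [3])]),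
  (-2, 0, 1, [(0, [0], [1, 2]), (0, [1], [3, 5]), (1, [], [0, 5]), (3, [], [4])])]

def p10_2_17 : Cov := [(-2, 0, 1, [(0, [0], [1, 2]), (0, [1], [3, 5]), (1, [], [4, 5]), (3, [], [0])]),
  (-2, 0, 1, [(0, [0], [1, 2]), (0, [1], [4, 5]), (1, [], [0, 5]), (3, [], [3])]),
  (-2, 0, 1, [(0, [0], [1, 2]), (0, [1], [4, 5]), (1, [], [3, 5]), (3, [], [0])])]

def p10_2_18 : Cov := [(-2, 0, 1, [(0, [0], [1, 3]), (0, [1], [0, 5]), (1, [], [2, 5]), (3, [], [4])]),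
  (-2, 0, 1, [(0, [0], [1, 3]), (0, [1], [0, 5]), (1, [], [4, 5]), (3, [], [2])]),
  (-2, 0, 1, [(0, [0], [1, 3]), (0, [1], [2, 5]), (1, [], [0, 5]), (3, [], [4])])]

def p10_2_19 : Cov := [(-2, 0, 1, [(0, [0], [1, 3]), (0, [1], [2, 5]), (1, [], [4, 5]), (3, [], [0])]),
  (-2, 0, 1, [(0, [0], [1, 3]), (0, [1], [4, 5]), (1, [], [0, 5]), (3, [], [2])]),
  (-2, 0, 1, [(0, [0], [1, 3]), (0, [1], [4, 5]), (1, [], [2, 5]), (3, [], [0])])]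

def p10_2_20 : Cov := [(-2, 0, 1, [(0, [0], [1, 4]), (0, [1], [0, 5]), (1, [], [2, 5]), (3, [], [3])]),
  (-2, 0, 1, [(0, [0], [1, 4]), (0, [1], [0, 5]), (1, [], [3, 5]), (3, [], [2])]),
  (-2, 0, 1, [(0, [0], [1, 4]), (0, [1], [2, 5]), (1, [], [0, 5]), (3, [], [3])])]

def p10_2_21 : Cov := [(-2, 0, 1, [(0, [0], [1, 4]), (0, [1], [2, 5]), (1, [], [3, 5]), (3, [], [0])]),
  (-2, 0, 1, [(0, [0], [1, 4]), (0, [1], [3, 5]), (1, [], [0, 5]), (3, [], [2])]),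
  (-2, 0, 1, [(0, [0], [1, 4]), (0, [1], [3, 5]), (1, [], [2, 5]), (3, [], [0])])]

def p10_2_22 : Cov := [(2, 0, 1, [(0, [0], [2, 5]), (0, [1], [0, 1]), (1, [], [3, 5]), (3, [], [4])]),
  (2, 0, 1, [(0, [0], [2, 5]), (0, [1], [0, 1]), (1, [], [4, 5]), (3, [], [3])]),
  (2, 0, 1, [(0, [0], [2, 5]), (0, [1], [0, 3]), (1, [], [1, 5]), (3, [], [4])])]

def p10_2_23 : Cov := [(2, 0, 1, [(0, [0], [2, 5]), (0, [1], [0, 3]), (1, [], [4, 5]), (3, [], [1])]),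
  (2, 0, 1, [(0, [0], [2, 5]), (0, [1], [0, 4]), (1, [], [1, 5]), (3, [], [3])]),
  (2, 0, 1, [(0, [0], [2, 5]), (0, [1], [0, 4]), (1, [], [3, 5]), (3, [], [1])])]

def p10_2_24 : Cov := [(2, 0, 1, [(0, [0], [2, 5]), (0, [1], [1, 3]), (1, [], [0, 5]), (3, [], [4])]),
  (2, 0, 1, [(0, [0], [2, 5]), (0, [1], [1, 3]), (1, [], [4, 5]), (3, [], [0])]),
  (2, 0, 1, [(0, [0], [2, 5]), (0, [1], [1, 4]), (1, [], [0, 5]), (3, [], [3])])]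

def p10_2_25 : Cov := [(2, 0, 1, [(0, [0], [2, 5]), (0, [1], [1, 4]), (1, [], [3, 5]), (3, [], [0])]),
  (2, 0, 1, [(0, [0], [2, 5]), (0, [1], [3, 4]), (1, [], [0, 5]), (3, [], [1])]),
  (2, 0, 1, [(0, [0], [2, 5]), (0, [1], [3, 4]), (1, [], [1, 5]), (3, [], [0])])]

def p10_2_26 : Cov := [(-2, 0, 1, [(0, [0], [2, 3]), (0, [1], [0, 5]), (1, [], [1, 5]), (3, [], [4])]),
  (-2, 0, 1, [(0, [0], [2, 3]), (0, [1], [0, 5]), (1, [], [4, 5]), (3, [], [1])]),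
  (-2, 0, 1, [(0, [0], [2, 3]), (0, [1], [1, 5]), (1, [], [0, 5]), (3, [], [4])])]

def p10_2_27 : Cov := [(-2, 0, 1, [(0, [0], [2, 3]), (0, [1], [1, 5]), (1, [], [4, 5]), (3, [], [0])]),
  (-2, 0, 1, [(0, [0], [2, 3]), (0, [1], [4, 5]), (1, [], [0, 5]), (3, [], [1])]),
  (-2, 0, 1, [(0, [0], [2, 3]), (0, [1], [4, 5]), (1, [], [1, 5]), (3, [], [0])])]

def p10_2_28 : Cov := [(-2, 0, 1, [(0, [0], [2, 4]), (0, [1], [0, 5]), (1, [], [1, 5]), (3, [], [3])]),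
  (-2, 0, 1, [(0, [0], [2, 4]), (0, [1], [0, 5]), (1, [], [3, 5]), (3, [], [1])]),
  (-2, 0, 1, [(0, [0], [2, 4]), (0, [1], [1, 5]), (1, [], [0, 5]), (3, [], [3])])]

def p10_2_29 : Cov := [(-2, 0, 1, [(0, [0], [2, 4]), (0, [1], [1, 5]), (1, [], [3, 5]), (3, [], [0])]),
  (-2, 0, 1, [(0, [0], [2, 4]), (0, [1], [3, 5]), (1, [], [0, 5]), (3, [], [1])]),
  (-2, 0, 1, [(0, [0], [2, 4]), (0, [1], [3, 5]), (1, [], [1, 5]), (3, [], [0])])]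

def p10_2_30 : Cov := [(2, 0, 1, [(0, [0], [3, 5]), (0, [1], [0, 1]), (1, [], [2, 5]), (3, [], [4])]),
  (2, 0, 1, [(0, [0], [3, 5]), (0, [1], [0, 1]), (1, [], [4, 5]), (3, [], [2])]),
  (2, 0, 1, [(0, [0], [3, 5]), (0, [1], [0, 2]), (1, [], [1, 5]), (3, [], [4])])]

def p10_2_31 : Cov := [(2, 0, 1, [(0, [0], [3, 5]), (0, [1], [0, 2]), (1, [], [4, 5]), (3, [], [1])]),
  (2, 0, 1, [(0, [0], [3, 5]), (0, [1], [0, 4]), (1, [], [1, 5]), (3, [], [2])]),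
  (2, 0, 1, [(0, [0], [3, 5]), (0, [1], [0, 4]), (1, [], [2, 5]), (3, [], [1])])]

def p10_2_32 : Cov := [(2, 0, 1, [(0, [0], [3, 5]), (0, [1], [1, 2]), (1, [], [0, 5]), (3, [], [4])]),
  (2, 0, 1, [(0, [0], [3, 5]), (0, [1], [1, 2]), (1, [], [4, 5]), (3, [], [0])]),
  (2, 0, 1, [(0, [0], [3, 5]), (0, [1], [1, 4]), (1, [], [0, 5]), (3, [], [2])])]

def p10_2_33 : Cov := [(2, 0, 1, [(0, [0], [3, 5]), (0, [1], [1, 4]), (1, [], [2, 5]), (3, [], [0])]),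
  (2, 0, 1, [(0, [0], [3, 5]), (0, [1], [2, 4]), (1, [], [0, 5]), (3, [], [1])]),
  (2, 0, 1, [(0, [0], [3, 5]), (0, [1], [2, 4]), (1, [], [1, 5]), (3, [], [0])])]

def p10_2_34 : Cov := [(-2, 0, 1, [(0, [0], [3, 4]), (0, [1], [0, 5]), (1, [], [1, 5]), (3, [], [2])]),
  (-2, 0, 1, [(0, [0], [3, 4]), (0, [1], [0, 5]), (1, [], [2, 5]), (3, [], [1])]),
  (-2, 0, 1, [(0, [0], [3, 4]), (0, [1], [1, 5]), (1, [], [0, 5]), (3, [], [2])])]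

def p10_2_35 : Cov := [(-2, 0, 1, [(0, [0], [3, 4]), (0, [1], [1, 5]), (1, [], [2, 5]), (3, [], [0])]),
  (-2, 0, 1, [(0, [0], [3, 4]), (0, [1], [2, 5]), (1, [], [0, 5]), (3, [], [1])]),
  (-2, 0, 1, [(0, [0], [3, 4]), (0, [1], [2, 5]), (1, [], [1, 5]), (3, [], [0])])]

def p10_2_36 : Cov := [(2, 0, 1, [(0, [0], [4, 5]), (0, [1], [0, 1]), (1, [], [2, 5]), (3, [], [3])]),
  (2, 0, 1, [(0, [0], [4, 5]), (0, [1], [0, 1]), (1, [], [3, 5]), (3, [], [2])]),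
  (2, 0, 1, [(0, [0], [4, 5]), (0, [1], [0, 2]), (1, [], [1, 5]), (3, [], [3])])]

def p10_2_37 : Cov := [(2, 0, 1, [(0, [0], [4, 5]), (0, [1], [0, 2]), (1, [], [3, 5]), (3, [], [1])]),
  (2, 0, 1, [(0, [0], [4, 5]), (0, [1], [0, 3]), (1, [], [1, 5]), (3, [], [2])]),
  (2, 0, 1, [(0, [0], [4, 5]), (0, [1], [0, 3]), (1, [], [2, 5]), (3, [], [1])])]

def p10_2_38 : Cov := [(2, 0, 1, [(0, [0], [4, 5]), (0, [1], [1, 2]), (1, [], [0, 5]), (3, [], [3])]),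
  (2, 0, 1, [(0, [0], [4, 5]), (0, [1], [1, 2]), (1, [], [3, 5]), (3, [], [0])]),
  (2, 0, 1, [(0, [0], [4, 5]), (0, [1], [1, 3]), (1, [], [0, 5]), (3, [], [2])])]

def p10_2_39 : Cov := [(2, 0, 1, [(0, [0], [4, 5]), (0, [1], [1, 3]), (1, [], [2, 5]), (3, [], [0])]),
  (2, 0, 1, [(0, [0], [4, 5]), (0, [1], [2, 3]), (1, [], [0, 5]), (3, [], [1])]),
  (2, 0, 1, [(0, [0], [4, 5]), (0, [1], [2, 3]), (1, [], [1, 5]), (3, [], [0])])]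

def c10_2 : Cov := p10_2_0 ++ (p10_2_1 ++ (p10_2_2 ++ (p10_2_3 ++ (p10_2_4 ++ (p10_2_5 ++ (p10_2_6 ++ (p10_2_7 ++ (p10_2_8 ++ (p10_2_9 ++ (p10_2_10 ++ (p10_2_11 ++ (p10_2_12 ++ (p10_2_13 ++ (p10_2_14 ++ (p10_2_15 ++ (p10_2_16 ++ (p10_2_17 ++ (p10_2_18 ++ (p10_2_19 ++ (p10_2_20 ++ (p10_2_21 ++ (p10_2_22 ++ (p10_2_23 ++ (p10_2_24 ++ (p10_2_25 ++ (p10_2_26 ++ (p10_2_27 ++ (p10_2_28 ++ (p10_2_29 ++ (p10_2_30 ++ (p10_2_31 ++ (p10_2_32 ++ (p10_2_33 ++ (p10_2_34 ++ (p10_2_35 ++ (p10_2_36 ++ (p10_2_37 ++ (p10_2_38 ++ (p10_2_39)))))))))))))))))))))))))))))))))))))))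

end YMA
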