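import Pool.Agent.YM.YMA.Keys

set_option linter.unusedVariables false
set_option maxRecDepth 100000

open YMEng

namespace YMA

def p14_0_0 : Cov := [(4, 0, 0, [(0, [0], [0, 1]), (2, [1], [2, 3, 4])]),
  (-4, 0, 0, [(0, [0], [0, 4]), (2, [1], [1, 2, 3])]),
  (-4, 0, 0, [(0, [0], [1, 3]), (2, [1], [0, 2, 4])]),
  (4, 0, 0, [(0, [0], [3, 4]), (2, [1], [0, 1, 2])]),
  (-4, 0, 0, [(0, [1], [0, 1]), (2, [0], [2, 3, 4])]),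
  (4, 0, 0, [(0, [1], [0, 4]), (2, [0], [1, 2, 3])]),
  (4, 0, 0, [(0, [1], [1, 3]), (2, [0], [0, 2, 4])]),
  (-4, 0, 0, [(0, [1], [3, 4]), (2, [0], [0, 1, 2])])]

def c14_0 : Cov := p14_0_0

def p14_1_0 : Cov := [(4, 0, 1, [(0, [0], [0, 1]), (0, [1], [2, 3]), (1, [], [4, 5]), (3, [], [5])]),
  (4, 0, 1, [(0, [0], [0, 1]), (0, [1], [2, 4]), (1, [], [3, 5]), (3, [], [5])]),
  (4, 0, 1, [(0, [0], [0, 2]), (0, [1], [1, 3]), (1, [], [4, 5]), (3, [], [5])]),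
  (-4, 0, 1, [(0, [0], [0, 2]), (0, [1], [3, 4]), (1, [], [1, 5]), (3, [], [5])]),
  (-4, 0, 1, [(0, [0], [0, 4]), (0, [1], [1, 2]), (1, [], [3, 5]), (3, [], [5])]),
  (-4, 0, 1, [(0, [0], [0, 4]), (0, [1], [2, 3]), (1, [], [1, 5]), (3, [], [5])]),
  (4, 0, 1, [(0, [0], [1, 2]), (0, [1], [0, 4]), (1, [], [3, 5]), (3, [], [5])]),
  (-4, 0, 1, [(0, [0], [1, 2]), (0, [1], [3, 4]), (1, [], [0, 5]), (3, [], [5])])]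

def p14_1_1 : Cov := [(-4, 0, 1, [(0, [0], [1, 3]), (0, [1], [0, 2]), (1, [], [4, 5]), (3, [], [5])]),
  (-4, 0, 1, [(0, [0], [1, 3]), (0, [1], [2, 4]), (1, [], [0, 5]), (3, [], [5])]),
  (-4, 0, 1, [(0, [0], [2, 3]), (0, [1], [0, 1]), (1, [], [4, 5]), (3, [], [5])]),
  (4, 0, 1, [(0, [0], [2, 3]), (0, [1], [0, 4]), (1, [], [1, 5]), (3, [], [5])]),
  (-4, 0, 1, [(0, [0], [2, 4]), (0, [1], [0, 1]), (1, [], [3, 5]), (3, [], [5])]),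
  (4, 0, 1, [(0, [0], [2, 4]), (0, [1], [1, 3]), (1, [], [0, 5]), (3, [], [5])]),
  (4, 0, 1, [(0, [0], [3, 4]), (0, [1], [0, 2]), (1, [], [1, 5]), (3, [], [5])]),
  (4, 0, 1, [(0, [0], [3, 4]), (0, [1], [1, 2]), (1, [], [0, 5]), (3, [], [5])])]

def c14_1 : Cov := p14_1_0 ++ (p14_1_1)

def p14_2_0 : Cov := [(4, 0, 0, [(0, [0], [0, 1]), (0, [1], [2, 3]), (3, [], [4])]),
  (4, 0, 0, [(0, [0], [0, 1]), (0, [1], [2, 4]), (3, [], [3])]),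
  (4, 0, 0, [(0, [0], [0, 2]), (0, [1], [1, 3]), (3, [], [4])]),
  (-4, 0, 0, [(0, [0], [0, 2]), (0, [1], [3, 4]), (3, [], [1])]),
  (-4, 0, 0, [(0, [0], [0, 4]), (0, [1], [1, 2]), (3, [], [3])]),
  (-4, 0, 0, [(0, [0], [0, 4]), (0, [1], [2, 3]), (3, [], [1])]),
  (4, 0, 0, [(0, [0], [1, 2]), (0, [1], [0, 4]), (3, [], [3])]),
  (-4, 0, 0, [(0, [0], [1, 2]), (0, [1], [3, 4]), (3, [], [0])])]

def p14_2_1 : Cov := [(-4, 0, 0, [(0, [0], [1, 3]), (0, [1], [0, 2]), (3, [], [4])]),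
  (-4, 0, 0, [(0, [0], [1, 3]), (0, [1], [2, 4]), (3, [], [0])]),
  (-4, 0, 0, [(0, [0], [2, 3]), (0, [1], [0, 1]), (3, [], [4])]),
  (4, 0, 0, [(0, [0], [2, 3]), (0, [1], [0, 4]), (3, [], [1])]),
  (-4, 0, 0, [(0, [0], [2, 4]), (0, [1], [0, 1]), (3, [], [3])]),
  (4, 0, 0, [(0, [0], [2, 4]), (0, [1], [1, 3]), (3, [], [0])]),
  (4, 0, 0, [(0, [0], [3, 4]), (0, [1], [0, 2]), (3, [], [1])]),
  (4, 0, 0, [(0, [0], [3, 4]), (0, [1], [1, 2]), (3, [], [0])])]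

def c14_2 : Cov := p14_2_0 ++ (p14_2_1)

def p14_3_0 : Cov := [(4, 0, 1, [(0, [0], [0, 5]), (0, [1], [1, 2]), (1, [], [3, 4]), (3, [], [5])]),
  (-4, 0, 1, [(0, [0], [0, 5]), (0, [1], [2, 4]), (1, [], [1, 3]), (3, [], [5])]),
  (-4, 0, 1, [(0, [0], [0, 1]), (0, [1], [2, 5]), (1, [], [3, 4]), (3, [], [5])]),
  (-4, 0, 1, [(0, [0], [0, 2]), (0, [1], [1, 5]), (1, [], [3, 4]), (3, [], [5])]),
  (4, 0, 1, [(0, [0], [0, 2]), (0, [1], [4, 5]), (1, [], [1, 3]), (3, [], [5])]),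
  (4, 0, 1, [(0, [0], [0, 4]), (0, [1], [2, 5]), (1, [], [1, 3]), (3, [], [5])]),
  (4, 0, 1, [(0, [0], [1, 5]), (0, [1], [0, 2]), (1, [], [3, 4]), (3, [], [5])]),
  (-4, 0, 1, [(0, [0], [1, 5]), (0, [1], [2, 3]), (1, [], [0, 4]), (3, [], [5])])]

def p14_3_1 : Cov := [(-4, 0, 1, [(0, [0], [1, 2]), (0, [1], [0, 5]), (1, [], [3, 4]), (3, [], [5])]),
  (4, 0, 1, [(0, [0], [1, 2]), (0, [1], [3, 5]), (1, [], [0, 4]), (3, [], [5])]),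
  (4, 0, 1, [(0, [0], [1, 3]), (0, [1], [2, 5]), (1, [], [0, 4]), (3, [], [5])]),
  (4, 0, 1, [(0, [0], [2, 5]), (0, [1], [0, 1]), (1, [], [3, 4]), (3, [], [5])]),
  (-4, 0, 1, [(0, [0], [2, 5]), (0, [1], [0, 4]), (1, [], [1, 3]), (3, [], [5])]),
  (-4, 0, 1, [(0, [0], [2, 5]), (0, [1], [1, 3]), (1, [], [0, 4]), (3, [], [5])]),
  (4, 0, 1, [(0, [0], [2, 5]), (0, [1], [3, 4]), (1, [], [0, 1]), (3, [], [5])]),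
  (4, 0, 1, [(0, [0], [2, 3]), (0, [1], [1, 5]), (1, [], [0, 4]), (3, [], [5])])]

def p14_3_2 : Cov := [(-4, 0, 1, [(0, [0], [2, 3]), (0, [1], [4, 5]), (1, [], [0, 1]), (3, [], [5])]),
  (4, 0, 1, [(0, [0], [2, 4]), (0, [1], [0, 5]), (1, [], [1, 3]), (3, [], [5])]),
  (-4, 0, 1, [(0, [0], [2, 4]), (0, [1], [3, 5]), (1, [], [0, 1]), (3, [], [5])]),
  (-4, 0, 1, [(0, [0], [3, 5]), (0, [1], [1, 2]), (1, [], [0, 4]), (3, [], [5])]),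
  (4, 0, 1, [(0, [0], [3, 5]), (0, [1], [2, 4]), (1, [], [0, 1]), (3, [], [5])]),
  (-4, 0, 1, [(0, [0], [3, 4]), (0, [1], [2, 5]), (1, [], [0, 1]), (3, [], [5])]),
  (-4, 0, 1, [(0, [0], [4, 5]), (0, [1], [0, 2]), (1, [], [1, 3]), (3, [], [5])]),
  (4, 0, 1, [(0, [0], [4, 5]), (0, [1], [2, 3]), (1, [], [0, 1]), (3, [], [5])])]

def c14_3 : Cov := p14_3_0 ++ (p14_3_1 ++ (p14_3_2))

def p14_4_0 : Cov := [(-4, 0, 1, [(0, [0], [0, 5]), (0, [1], [1, 3]), (1, [], [2, 4]), (3, [], [5])]),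
  (4, 0, 1, [(0, [0], [0, 5]), (0, [1], [3, 4]), (1, [], [1, 2]), (3, [], [5])]),
  (-4, 0, 1, [(0, [0], [0, 1]), (0, [1], [2, 5]), (1, [], [3, 4]), (3, [], [5])]),
  (-4, 0, 1, [(0, [0], [0, 1]), (0, [1], [3, 5]), (1, [], [2, 4]), (3, [], [5])]),
  (-4, 0, 1, [(0, [0], [0, 1]), (0, [1], [4, 5]), (1, [], [2, 3]), (3, [], [5])]),
  (4, 0, 1, [(0, [0], [0, 4]), (0, [1], [1, 5]), (1, [], [2, 3]), (3, [], [5])]),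
  (4, 0, 1, [(0, [0], [0, 4]), (0, [1], [2, 5]), (1, [], [1, 3]), (3, [], [5])]),
  (4, 0, 1, [(0, [0], [0, 4]), (0, [1], [3, 5]), (1, [], [1, 2]), (3, [], [5])])]

def p14_4_1 : Cov := [(-4, 0, 1, [(0, [0], [1, 5]), (0, [1], [0, 4]), (1, [], [2, 3]), (3, [], [5])]),
  (4, 0, 1, [(0, [0], [1, 5]), (0, [1], [3, 4]), (1, [], [0, 2]), (3, [], [5])]),
  (4, 0, 1, [(0, [0], [1, 3]), (0, [1], [0, 5]), (1, [], [2, 4]), (3, [], [5])]),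
  (4, 0, 1, [(0, [0], [1, 3]), (0, [1], [2, 5]), (1, [], [0, 4]), (3, [], [5])]),
  (4, 0, 1, [(0, [0], [1, 3]), (0, [1], [4, 5]), (1, [], [0, 2]), (3, [], [5])]),
  (4, 0, 1, [(0, [0], [2, 5]), (0, [1], [0, 1]), (1, [], [3, 4]), (3, [], [5])]),
  (-4, 0, 1, [(0, [0], [2, 5]), (0, [1], [0, 4]), (1, [], [1, 3]), (3, [], [5])]),
  (-4, 0, 1, [(0, [0], [2, 5]), (0, [1], [1, 3]), (1, [], [0, 4]), (3, [], [5])])]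

def p14_4_2 : Cov := [(4, 0, 1, [(0, [0], [2, 5]), (0, [1], [3, 4]), (1, [], [0, 1]), (3, [], [5])]),
  (4, 0, 1, [(0, [0], [3, 5]), (0, [1], [0, 1]), (1, [], [2, 4]), (3, [], [5])]),
  (-4, 0, 1, [(0, [0], [3, 5]), (0, [1], [0, 4]), (1, [], [1, 2]), (3, [], [5])]),
  (-4, 0, 1, [(0, [0], [3, 4]), (0, [1], [0, 5]), (1, [], [1, 2]), (3, [], [5])]),
  (-4, 0, 1, [(0, [0], [3, 4]), (0, [1], [1, 5]), (1, [], [0, 2]), (3, [], [5])]),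
  (-4, 0, 1, [(0, [0], [3, 4]), (0, [1], [2, 5]), (1, [], [0, 1]), (3, [], [5])]),
  (4, 0, 1, [(0, [0], [4, 5]), (0, [1], [0, 1]), (1, [], [2, 3]), (3, [], [5])]),
  (-4, 0, 1, [(0, [0], [4, 5]), (0, [1], [1, 3]), (1, [], [0, 2]), (3, [], [5])])]

def c14_4 : Cov := p14_4_0 ++ (p14_4_1 ++ (p14_4_2))

def p14_5_0 : Cov := [(2, 0, 1, [(0, [0], [0, 5]), (0, [1], [1, 5]), (1, [], [2, 3]), (3, [], [4])]),
  (-2, 0, 1, [(0, [0], [0, 5]), (0, [1], [1, 5]), (1, [], [2, 4]), (3, [], [3])]),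
  (2, 0, 1, [(0, [0], [0, 5]), (0, [1], [2, 5]), (1, [], [1, 3]), (3, [], [4])]),
  (-2, 0, 1, [(0, [0], [0, 5]), (0, [1], [2, 5]), (1, [], [3, 4]), (3, [], [1])]),
  (4, 0, 1, [(0, [0], [0, 5]), (0, [1], [3, 5]), (1, [], [1, 2]), (3, [], [4])]),
  (-4, 0, 1, [(0, [0], [0, 5]), (0, [1], [3, 5]), (1, [], [2, 4]), (3, [], [1])]),
  (2, 0, 1, [(0, [0], [0, 5]), (0, [1], [4, 5]), (1, [], [1, 2]), (3, [], [3])]),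
  (-2, 0, 1, [(0, [0], [0, 5]), (0, [1], [4, 5]), (1, [], [2, 3]), (3, [], [1])])]

def p14_5_1 : Cov := [(-2, 0, 1, [(0, [0], [1, 5]), (0, [1], [0, 5]), (1, [], [2, 3]), (3, [], [4])]),
  (2, 0, 1, [(0, [0], [1, 5]), (0, [1], [0, 5]), (1, [], [2, 4]), (3, [], [3])]),
  (2, 0, 1, [(0, [0], [1, 5]), (0, [1], [2, 5]), (1, [], [0, 4]), (3, [], [3])]),
  (-2, 0, 1, [(0, [0], [1, 5]), (0, [1], [2, 5]), (1, [], [3, 4]), (3, [], [0])]),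
  (2, 0, 1, [(0, [0], [1, 5]), (0, [1], [3, 5]), (1, [], [0, 2]), (3, [], [4])]),
  (-2, 0, 1, [(0, [0], [1, 5]), (0, [1], [3, 5]), (1, [], [2, 4]), (3, [], [0])]),
  (4, 0, 1, [(0, [0], [1, 5]), (0, [1], [4, 5]), (1, [], [0, 2]), (3, [], [3])]),
  (-4, 0, 1, [(0, [0], [1, 5]), (0, [1], [4, 5]), (1, [], [2, 3]), (3, [], [0])])]

def p14_5_2 : Cov := [(-2, 0, 1, [(0, [0], [2, 5]), (0, [1], [0, 5]), (1, [], [1, 3]), (3, [], [4])]),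
  (2, 0, 1, [(0, [0], [2, 5]), (0, [1], [0, 5]), (1, [], [3, 4]), (3, [], [1])]),
  (-2, 0, 1, [(0, [0], [2, 5]), (0, [1], [1, 5]), (1, [], [0, 4]), (3, [], [3])]),
  (2, 0, 1, [(0, [0], [2, 5]), (0, [1], [1, 5]), (1, [], [3, 4]), (3, [], [0])]),
  (2, 0, 1, [(0, [0], [2, 5]), (0, [1], [3, 5]), (1, [], [0, 1]), (3, [], [4])]),
  (-2, 0, 1, [(0, [0], [2, 5]), (0, [1], [3, 5]), (1, [], [0, 4]), (3, [], [1])]),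
  (2, 0, 1, [(0, [0], [2, 5]), (0, [1], [4, 5]), (1, [], [0, 1]), (3, [], [3])]),
  (-2, 0, 1, [(0, [0], [2, 5]), (0, [1], [4, 5]), (1, [], [1, 3]), (3, [], [0])])]

def p14_5_3 : Cov := [(-4, 0, 1, [(0, [0], [3, 5]), (0, [1], [0, 5]), (1, [], [1, 2]), (3, [], [4])]),
  (4, 0, 1, [(0, [0], [3, 5]), (0, [1], [0, 5]), (1, [], [2, 4]), (3, [], [1])]),
  (-2, 0, 1, [(0, [0], [3, 5]), (0, [1], [1, 5]), (1, [], [0, 2]), (3, [], [4])]),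
  (2, 0, 1, [(0, [0], [3, 5]), (0, [1], [1, 5]), (1, [], [2, 4]), (3, [], [0])]),
  (-2, 0, 1, [(0, [0], [3, 5]), (0, [1], [2, 5]), (1, [], [0, 1]), (3, [], [4])]),
  (2, 0, 1, [(0, [0], [3, 5]), (0, [1], [2, 5]), (1, [], [0, 4]), (3, [], [1])]),
  (2, 0, 1, [(0, [0], [3, 5]), (0, [1], [4, 5]), (1, [], [0, 2]), (3, [], [1])]),
  (-2, 0, 1, [(0, [0], [3, 5]), (0, [1], [4, 5]), (1, [], [1, 2]), (3, [], [0])])]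

def p14_5_4 : Cov := [(-2, 0, 1, [(0, [0], [4, 5]), (0, [1], [0, 5]), (1, [], [1, 2]), (3, [], [3])]),
  (2, 0, 1, [(0, [0], [4, 5]), (0, [1], [0, 5]), (1, [], [2, 3]), (3, [], [1])]),
  (-4, 0, 1, [(0, [0], [4, 5]), (0, [1], [1, 5]), (1, [], [0, 2]), (3, [], [3])]),
  (4, 0, 1, [(0, [0], [4, 5]), (0, [1], [1, 5]), (1, [], [2, 3]), (3, [], [0])]),
  (-2, 0, 1, [(0, [0], [4, 5]), (0, [1], [2, 5]), (1, [], [0, 1]), (3, [], [3])]),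
  (2, 0, 1, [(0, [0], [4, 5]), (0, [1], [2, 5]), (1, [], [1, 3]), (3, [], [0])]),
  (-2, 0, 1, [(0, [0], [4, 5]), (0, [1], [3, 5]), (1, [], [0, 2]), (3, [], [1])]),
  (2, 0, 1, [(0, [0], [4, 5]), (0, [1], [3, 5]), (1, [], [1, 2]), (3, [], [0])])]

def c14_5 : Cov := p14_5_0 ++ (p14_5_1 ++ (p14_5_2 ++ (p14_5_3 ++ (p14_5_4))))

def p14_6_0 : Cov := [(2, 0, 1, [(0, [0], [0, 5]), (0, [1], [1, 2]), (1, [], [3, 5]), (3, [], [4])]),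
  (2, 0, 1, [(0, [0], [0, 5]), (0, [1], [1, 2]), (1, [], [4, 5]), (3, [], [3])]),
  (-2, 0, 1, [(0, [0], [0, 5]), (0, [1], [2, 4]), (1, [], [1, 5]), (3, [], [3])]),
  (-2, 0, 1, [(0, [0], [0, 5]), (0, [1], [2, 4]), (1, [], [3, 5]), (3, [], [1])]),
  (-2, 0, 1, [(0, [0], [0, 1]), (0, [1], [2, 5]), (1, [], [3, 5]), (3, [], [4])]),
  (-2, 0, 1, [(0, [0], [0, 1]), (0, [1], [2, 5]), (1, [], [4, 5]), (3, [], [3])]),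
  (-2, 0, 1, [(0, [0], [0, 2]), (0, [1], [1, 5]), (1, [], [3, 5]), (3, [], [4])]),
  (-2, 0, 1, [(0, [0], [0, 2]), (0, [1], [1, 5]), (1, [], [4, 5]), (3, [], [3])])]

def p14_6_1 : Cov := [(2, 0, 1, [(0, [0], [0, 2]), (0, [1], [4, 5]), (1, [], [1, 5]), (3, [], [3])]),
  (2, 0, 1, [(0, [0], [0, 2]), (0, [1], [4, 5]), (1, [], [3, 5]), (3, [], [1])]),
  (2, 0, 1, [(0, [0], [0, 4]), (0, [1], [2, 5]), (1, [], [1, 5]), (3, [], [3])]),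
  (2, 0, 1, [(0, [0], [0, 4]), (0, [1], [2, 5]), (1, [], [3, 5]), (3, [], [1])]),
  (2, 0, 1, [(0, [0], [1, 5]), (0, [1], [0, 2]), (1, [], [3, 5]), (3, [], [4])]),
  (2, 0, 1, [(0, [0], [1, 5]), (0, [1], [0, 2]), (1, [], [4, 5]), (3, [], [3])]),
  (-2, 0, 1, [(0, [0], [1, 5]), (0, [1], [2, 3]), (1, [], [0, 5]), (3, [], [4])]),
  (-2, 0, 1, [(0, [0], [1, 5]), (0, [1], [2, 3]), (1, [], [4, 5]), (3, [], [0])])]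

def p14_6_2 : Cov := [(-2, 0, 1, [(0, [0], [1, 2]), (0, [1], [0, 5]), (1, [], [3, 5]), (3, [], [4])]),
  (-2, 0, 1, [(0, [0], [1, 2]), (0, [1], [0, 5]), (1, [], [4, 5]), (3, [], [3])]),
  (2, 0, 1, [(0, [0], [1, 2]), (0, [1], [3, 5]), (1, [], [0, 5]), (3, [], [4])]),
  (2, 0, 1, [(0, [0], [1, 2]), (0, [1], [3, 5]), (1, [], [4, 5]), (3, [], [0])]),
  (2, 0, 1, [(0, [0], [1, 3]), (0, [1], [2, 5]), (1, [], [0, 5]), (3, [], [4])]),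
  (2, 0, 1, [(0, [0], [1, 3]), (0, [1], [2, 5]), (1, [], [4, 5]), (3, [], [0])]),
  (2, 0, 1, [(0, [0], [2, 5]), (0, [1], [0, 1]), (1, [], [3, 5]), (3, [], [4])]),
  (2, 0, 1, [(0, [0], [2, 5]), (0, [1], [0, 1]), (1, [], [4, 5]), (3, [], [3])])]

def p14_6_3 : Cov := [(-2, 0, 1, [(0, [0], [2, 5]), (0, [1], [0, 4]), (1, [], [1, 5]), (3, [], [3])]),
  (-2, 0, 1, [(0, [0], [2, 5]), (0, [1], [0, 4]), (1, [], [3, 5]), (3, [], [1])]),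
  (-2, 0, 1, [(0, [0], [2, 5]), (0, [1], [1, 3]), (1, [], [0, 5]), (3, [], [4])]),
  (-2, 0, 1, [(0, [0], [2, 5]), (0, [1], [1, 3]), (1, [], [4, 5]), (3, [], [0])]),
  (2, 0, 1, [(0, [0], [2, 5]), (0, [1], [3, 4]), (1, [], [0, 5]), (3, [], [1])]),
  (2, 0, 1, [(0, [0], [2, 5]), (0, [1], [3, 4]), (1, [], [1, 5]), (3, [], [0])]),
  (2, 0, 1, [(0, [0], [2, 3]), (0, [1], [1, 5]), (1, [], [0, 5]), (3, [], [4])]),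
  (2, 0, 1, [(0, [0], [2, 3]), (0, [1], [1, 5]), (1, [], [4, 5]), (3, [], [0])])]

def p14_6_4 : Cov := [(-2, 0, 1, [(0, [0], [2, 3]), (0, [1], [4, 5]), (1, [], [0, 5]), (3, [], [1])]),
  (-2, 0, 1, [(0, [0], [2, 3]), (0, [1], [4, 5]), (1, [], [1, 5]), (3, [], [0])]),
  (2, 0, 1, [(0, [0], [2, 4]), (0, [1], [0, 5]), (1, [], [1, 5]), (3, [], [3])]),
  (2, 0, 1, [(0, [0], [2, 4]), (0, [1], [0, 5]), (1, [], [3, 5]), (3, [], [1])]),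
  (-2, 0, 1, [(0, [0], [2, 4]), (0, [1], [3, 5]), (1, [], [0, 5]), (3, [], [1])]),
  (-2, 0, 1, [(0, [0], [2, 4]), (0, [1], [3, 5]), (1, [], [1, 5]), (3, [], [0])]),
  (-2, 0, 1, [(0, [0], [3, 5]), (0, [1], [1, 2]), (1, [], [0, 5]), (3, [], [4])]),
  (-2, 0, 1, [(0, [0], [3, 5]), (0, [1], [1, 2]), (1, [], [4, 5]), (3, [], [0])])]

def p14_6_5 : Cov := [(2, 0, 1, [(0, [0], [3, 5]), (0, [1], [2, 4]), (1, [], [0, 5]), (3, [], [1])]),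
  (2, 0, 1, [(0, [0], [3, 5]), (0, [1], [2, 4]), (1, [], [1, 5]), (3, [], [0])]),
  (-2, 0, 1, [(0, [0], [3, 4]), (0, [1], [2, 5]), (1, [], [0, 5]), (3, [], [1])]),
  (-2, 0, 1, [(0, [0], [3, 4]), (0, [1], [2, 5]), (1, [], [1, 5]), (3, [], [0])]),
  (-2, 0, 1, [(0, [0], [4, 5]), (0, [1], [0, 2]), (1, [], [1, 5]), (3, [], [3])]),
  (-2, 0, 1, [(0, [0], [4, 5]), (0, [1], [0, 2]), (1, [], [3, 5]), (3, [], [1])]),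
  (2, 0, 1, [(0, [0], [4, 5]), (0, [1], [2, 3]), (1, [], [0, 5]), (3, [], [1])]),
  (2, 0, 1, [(0, [0], [4, 5]), (0, [1], [2, 3]), (1, [], [1, 5]), (3, [], [0])])]

def c14_6 : Cov := p14_6_0 ++ (p14_6_1 ++ (p14_6_2 ++ (p14_6_3 ++ (p14_6_4 ++ (p14_6_5)))))

def p14_7_0 : Cov := [(-2, 0, 1, [(0, [0], [0, 5]), (0, [1], [1, 3]), (1, [], [2, 5]), (3, [], [4])]),
  (-2, 0, 1, [(0, [0], [0, 5]), (0, [1], [1, 3]), (1, [], [4, 5]), (3, [], [2])]),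
  (2, 0, 1, [(0, [0], [0, 5]), (0, [1], [3, 4]), (1, [], [1, 5]), (3, [], [2])]),
  (2, 0, 1, [(0, [0], [0, 5]), (0, [1], [3, 4]), (1, [], [2, 5]), (3, [], [1])]),
  (-2, 0, 1, [(0, [0], [0, 1]), (0, [1], [2, 5]), (1, [], [3, 5]), (3, [], [4])]),
  (-2, 0, 1, [(0, [0], [0, 1]), (0, [1], [2, 5]), (1, [], [4, 5]), (3, [], [3])]),
  (-2, 0, 1, [(0, [0], [0, 1]), (0, [1], [3, 5]), (1, [], [2, 5]), (3, [], [4])]),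
  (-2, 0, 1, [(0, [0], [0, 1]), (0, [1], [3, 5]), (1, [], [4, 5]), (3, [], [2])])]

def p14_7_1 : Cov := [(-2, 0, 1, [(0, [0], [0, 1]), (0, [1], [4, 5]), (1, [], [2, 5]), (3, [], [3])]),
  (-2, 0, 1, [(0, [0], [0, 1]), (0, [1], [4, 5]), (1, [], [3, 5]), (3, [], [2])]),
  (2, 0, 1, [(0, [0], [0, 4]), (0, [1], [1, 5]), (1, [], [2, 5]), (3, [], [3])]),
  (2, 0, 1, [(0, [0], [0, 4]), (0, [1], [1, 5]), (1, [], [3, 5]), (3, [], [2])]),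
  (2, 0, 1, [(0, [0], [0, 4]), (0, [1], [2, 5]), (1, [], [1, 5]), (3, [], [3])]),
  (2, 0, 1, [(0, [0], [0, 4]), (0, [1], [2, 5]), (1, [], [3, 5]), (3, [], [1])]),
  (2, 0, 1, [(0, [0], [0, 4]), (0, [1], [3, 5]), (1, [], [1, 5]), (3, [], [2])]),
  (2, 0, 1, [(0, [0], [0, 4]), (0, [1], [3, 5]), (1, [], [2, 5]), (3, [], [1])])]

def p14_7_2 : Cov := [(-2, 0, 1, [(0, [0], [1, 5]), (0, [1], [0, 4]), (1, [], [2, 5]), (3, [], [3])]),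
  (-2, 0, 1, [(0, [0], [1, 5]), (0, [1], [0, 4]), (1, [], [3, 5]), (3, [], [2])]),
  (2, 0, 1, [(0, [0], [1, 5]), (0, [1], [3, 4]), (1, [], [0, 5]), (3, [], [2])]),
  (2, 0, 1, [(0, [0], [1, 5]), (0, [1], [3, 4]), (1, [], [2, 5]), (3, [], [0])]),
  (2, 0, 1, [(0, [0], [1, 3]), (0, [1], [0, 5]), (1, [], [2, 5]), (3, [], [4])]),
  (2, 0, 1, [(0, [0], [1, 3]), (0, [1], [0, 5]), (1, [], [4, 5]), (3, [], [2])]),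
  (2, 0, 1, [(0, [0], [1, 3]), (0, [1], [2, 5]), (1, [], [0, 5]), (3, [], [4])]),
  (2, 0, 1, [(0, [0], [1, 3]), (0, [1], [2, 5]), (1, [], [4, 5]), (3, [], [0])])]

def p14_7_3 : Cov := [(2, 0, 1, [(0, [0], [1, 3]), (0, [1], [4, 5]), (1, [], [0, 5]), (3, [], [2])]),
  (2, 0, 1, [(0, [0], [1, 3]), (0, [1], [4, 5]), (1, [], [2, 5]), (3, [], [0])]),
  (2, 0, 1, [(0, [0], [2, 5]), (0, [1], [0, 1]), (1, [], [3, 5]), (3, [], [4])]),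
  (2, 0, 1, [(0, [0], [2, 5]), (0, [1], [0, 1]), (1, [], [4, 5]), (3, [], [3])]),
  (-2, 0, 1, [(0, [0], [2, 5]), (0, [1], [0, 4]), (1, [], [1, 5]), (3, [], [3])]),
  (-2, 0, 1, [(0, [0], [2, 5]), (0, [1], [0, 4]), (1, [], [3, 5]), (3, [], [1])]),
  (-2, 0, 1, [(0, [0], [2, 5]), (0, [1], [1, 3]), (1, [], [0, 5]), (3, [], [4])]),
  (-2, 0, 1, [(0, [0], [2, 5]), (0, [1], [1, 3]), (1, [], [4, 5]), (3, [], [0])])]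

def p14_7_4 : Cov := [(2, 0, 1, [(0, [0], [2, 5]), (0, [1], [3, 4]), (1, [], [0, 5]), (3, [], [1])]),
  (2, 0, 1, [(0, [0], [2, 5]), (0, [1], [3, 4]), (1, [], [1, 5]), (3, [], [0])]),
  (2, 0, 1, [(0, [0], [3, 5]), (0, [1], [0, 1]), (1, [], [2, 5]), (3, [], [4])]),
  (2, 0, 1, [(0, [0], [3, 5]), (0, [1], [0, 1]), (1, [], [4, 5]), (3, [], [2])]),
  (-2, 0, 1, [(0, [0], [3, 5]), (0, [1], [0, 4]), (1, [], [1, 5]), (3, [], [2])]),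
  (-2, 0, 1, [(0, [0], [3, 5]), (0, [1], [0, 4]), (1, [], [2, 5]), (3, [], [1])]),
  (-2, 0, 1, [(0, [0], [3, 4]), (0, [1], [0, 5]), (1, [], [1, 5]), (3, [], [2])]),
  (-2, 0, 1, [(0, [0], [3, 4]), (0, [1], [0, 5]), (1, [], [2, 5]), (3, [], [1])])]

def p14_7_5 : Cov := [(-2, 0, 1, [(0, [0], [3, 4]), (0, [1], [1, 5]), (1, [], [0, 5]), (3, [], [2])]),
  (-2, 0, 1, [(0, [0], [3, 4]), (0, [1], [1, 5]), (1, [], [2, 5]), (3, [], [0])]),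
  (-2, 0, 1, [(0, [0], [3, 4]), (0, [1], [2, 5]), (1, [], [0, 5]), (3, [], [1])]),
  (-2, 0, 1, [(0, [0], [3, 4]), (0, [1], [2, 5]), (1, [], [1, 5]), (3, [], [0])]),
  (2, 0, 1, [(0, [0], [4, 5]), (0, [1], [0, 1]), (1, [], [2, 5]), (3, [], [3])]),
  (2, 0, 1, [(0, [0], [4, 5]), (0, [1], [0, 1]), (1, [], [3, 5]), (3, [], [2])]),
  (-2, 0, 1, [(0, [0], [4, 5]), (0, [1], [1, 3]), (1, [], [0, 5]), (3, [], [2])]),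
  (-2, 0, 1, [(0, [0], [4, 5]), (0, [1], [1, 3]), (1, [], [2, 5]), (3, [], [0])])]

def c14_7 : Cov := p14_7_0 ++ (p14_7_1 ++ (p14_7_2 ++ (p14_7_3 ++ (p14_7_4 ++ (p14_7_5)))))

def p14_8_0 : Cov := [(2, 0, 1, [(0, [0], [0, 5]), (0, [1], [1, 2]), (1, [], [3, 5]), (3, [], [4])]),
  (2, 0, 1, [(0, [0], [0, 5]), (0, [1], [1, 3]), (1, [], [2, 5]), (3, [], [4])]),
  (2, 0, 1, [(0, [0], [0, 5]), (0, [1], [2, 3]), (1, [], [1, 5]), (3, [], [4])]),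
  (-2, 0, 1, [(0, [0], [0, 5]), (0, [1], [2, 3]), (1, [], [4, 5]), (3, [], [1])]),
  (-2, 0, 1, [(0, [0], [0, 5]), (0, [1], [2, 4]), (1, [], [3, 5]), (3, [], [1])]),
  (-2, 0, 1, [(0, [0], [0, 5]), (0, [1], [3, 4]), (1, [], [2, 5]), (3, [], [1])]),
  (2, 0, 1, [(0, [0], [0, 1]), (0, [1], [3, 5]), (1, [], [2, 5]), (3, [], [4])]),
  (2, 0, 1, [(0, [0], [0, 1]), (0, [1], [4, 5]), (1, [], [2, 5]), (3, [], [3])])]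

def p14_8_1 : Cov := [(-2, 0, 1, [(0, [0], [0, 2]), (0, [1], [1, 5]), (1, [], [4, 5]), (3, [], [3])]),
  (2, 0, 1, [(0, [0], [0, 2]), (0, [1], [3, 5]), (1, [], [1, 5]), (3, [], [4])]),
  (-2, 0, 1, [(0, [0], [0, 2]), (0, [1], [3, 5]), (1, [], [4, 5]), (3, [], [1])]),
  (2, 0, 1, [(0, [0], [0, 2]), (0, [1], [4, 5]), (1, [], [1, 5]), (3, [], [3])]),
  (-2, 0, 1, [(0, [0], [0, 4]), (0, [1], [1, 5]), (1, [], [2, 5]), (3, [], [3])]),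
  (-2, 0, 1, [(0, [0], [0, 4]), (0, [1], [3, 5]), (1, [], [2, 5]), (3, [], [1])]),
  (2, 0, 1, [(0, [0], [1, 5]), (0, [1], [0, 2]), (1, [], [4, 5]), (3, [], [3])]),
  (2, 0, 1, [(0, [0], [1, 5]), (0, [1], [0, 4]), (1, [], [2, 5]), (3, [], [3])])]

def p14_8_2 : Cov := [(-2, 0, 1, [(0, [0], [1, 5]), (0, [1], [2, 3]), (1, [], [4, 5]), (3, [], [0])]),
  (2, 0, 1, [(0, [0], [1, 5]), (0, [1], [2, 4]), (1, [], [0, 5]), (3, [], [3])]),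
  (-2, 0, 1, [(0, [0], [1, 5]), (0, [1], [2, 4]), (1, [], [3, 5]), (3, [], [0])]),
  (-2, 0, 1, [(0, [0], [1, 5]), (0, [1], [3, 4]), (1, [], [2, 5]), (3, [], [0])]),
  (-2, 0, 1, [(0, [0], [1, 2]), (0, [1], [0, 5]), (1, [], [3, 5]), (3, [], [4])]),
  (2, 0, 1, [(0, [0], [1, 2]), (0, [1], [3, 5]), (1, [], [0, 5]), (3, [], [4])]),
  (2, 0, 1, [(0, [0], [1, 2]), (0, [1], [4, 5]), (1, [], [0, 5]), (3, [], [3])]),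
  (-2, 0, 1, [(0, [0], [1, 2]), (0, [1], [4, 5]), (1, [], [3, 5]), (3, [], [0])])]

def p14_8_3 : Cov := [(-2, 0, 1, [(0, [0], [1, 3]), (0, [1], [0, 5]), (1, [], [2, 5]), (3, [], [4])]),
  (-2, 0, 1, [(0, [0], [1, 3]), (0, [1], [4, 5]), (1, [], [2, 5]), (3, [], [0])]),
  (-2, 0, 1, [(0, [0], [2, 3]), (0, [1], [0, 5]), (1, [], [1, 5]), (3, [], [4])]),
  (2, 0, 1, [(0, [0], [2, 3]), (0, [1], [0, 5]), (1, [], [4, 5]), (3, [], [1])]),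
  (2, 0, 1, [(0, [0], [2, 3]), (0, [1], [1, 5]), (1, [], [4, 5]), (3, [], [0])]),
  (-2, 0, 1, [(0, [0], [2, 3]), (0, [1], [4, 5]), (1, [], [1, 5]), (3, [], [0])]),
  (2, 0, 1, [(0, [0], [2, 4]), (0, [1], [0, 5]), (1, [], [3, 5]), (3, [], [1])]),
  (-2, 0, 1, [(0, [0], [2, 4]), (0, [1], [1, 5]), (1, [], [0, 5]), (3, [], [3])])]

def p14_8_4 : Cov := [(2, 0, 1, [(0, [0], [2, 4]), (0, [1], [1, 5]), (1, [], [3, 5]), (3, [], [0])]),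
  (-2, 0, 1, [(0, [0], [2, 4]), (0, [1], [3, 5]), (1, [], [0, 5]), (3, [], [1])]),
  (-2, 0, 1, [(0, [0], [3, 5]), (0, [1], [0, 1]), (1, [], [2, 5]), (3, [], [4])]),
  (-2, 0, 1, [(0, [0], [3, 5]), (0, [1], [0, 2]), (1, [], [1, 5]), (3, [], [4])]),
  (2, 0, 1, [(0, [0], [3, 5]), (0, [1], [0, 2]), (1, [], [4, 5]), (3, [], [1])]),
  (2, 0, 1, [(0, [0], [3, 5]), (0, [1], [0, 4]), (1, [], [2, 5]), (3, [], [1])]),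
  (-2, 0, 1, [(0, [0], [3, 5]), (0, [1], [1, 2]), (1, [], [0, 5]), (3, [], [4])]),
  (2, 0, 1, [(0, [0], [3, 5]), (0, [1], [2, 4]), (1, [], [0, 5]), (3, [], [1])])]

def p14_8_5 : Cov := [(2, 0, 1, [(0, [0], [3, 4]), (0, [1], [0, 5]), (1, [], [2, 5]), (3, [], [1])]),
  (2, 0, 1, [(0, [0], [3, 4]), (0, [1], [1, 5]), (1, [], [2, 5]), (3, [], [0])]),
  (-2, 0, 1, [(0, [0], [4, 5]), (0, [1], [0, 1]), (1, [], [2, 5]), (3, [], [3])]),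
  (-2, 0, 1, [(0, [0], [4, 5]), (0, [1], [0, 2]), (1, [], [1, 5]), (3, [], [3])]),
  (-2, 0, 1, [(0, [0], [4, 5]), (0, [1], [1, 2]), (1, [], [0, 5]), (3, [], [3])]),
  (2, 0, 1, [(0, [0], [4, 5]), (0, [1], [1, 2]), (1, [], [3, 5]), (3, [], [0])]),
  (2, 0, 1, [(0, [0], [4, 5]), (0, [1], [1, 3]), (1, [], [2, 5]), (3, [], [0])]),
  (2, 0, 1, [(0, [0], [4, 5]), (0, [1], [2, 3]), (1, [], [1, 5]), (3, [], [0])])]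

def c14_8 : Cov := p14_8_0 ++ (p14_8_1 ++ (p14_8_2 ++ (p14_8_3 ++ (p14_8_4 ++ (p14_8_5)))))

end YMA
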