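import Pool.Agent.YM.YMA.Keys

set_option linter.unusedVariables false
set_option maxRecDepth 100000

open YMEng

namespace YMA

def p2_0_0 : Cov := [(12, 1, 0, [(0, [0], [0, 1]), (2, [0], [2, 3, 4])]),
  (12, 1, 0, [(0, [0], [0, 2]), (2, [0], [1, 3, 4])]),
  (12, 1, 0, [(0, [0], [0, 3]), (2, [0], [1, 2, 4])]),
  (12, 1, 0, [(0, [0], [0, 4]), (2, [0], [1, 2, 3])]),
  (12, 1, 0, [(0, [0], [1, 2]), (2, [0], [0, 3, 4])]),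
  (12, 1, 0, [(0, [0], [1, 3]), (2, [0], [0, 2, 4])])]

def p2_0_1 : Cov := [(12, 1, 0, [(0, [0], [1, 4]), (2, [0], [0, 2, 3])]),
  (12, 1, 0, [(0, [0], [2, 3]), (2, [0], [0, 1, 4])]),
  (12, 1, 0, [(0, [0], [2, 4]), (2, [0], [0, 1, 3])]),
  (12, 1, 0, [(0, [0], [3, 4]), (2, [0], [0, 1, 2])])]

def c2_0 : Cov := p2_0_0 ++ (p2_0_1)

def p2_1_0 : Cov := [(8, 1, 1, [(0, [0], [0, 1]), (0, [0], [2, 3]), (1, [], [4, 5]), (3, [], [5])]),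
  (8, 1, 1, [(0, [0], [0, 1]), (0, [0], [2, 4]), (1, [], [3, 5]), (3, [], [5])]),
  (8, 1, 1, [(0, [0], [0, 1]), (0, [0], [3, 4]), (1, [], [2, 5]), (3, [], [5])]),
  (8, 1, 1, [(0, [0], [0, 2]), (0, [0], [1, 3]), (1, [], [4, 5]), (3, [], [5])]),
  (8, 1, 1, [(0, [0], [0, 2]), (0, [0], [1, 4]), (1, [], [3, 5]), (3, [], [5])]),
  (8, 1, 1, [(0, [0], [0, 2]), (0, [0], [3, 4]), (1, [], [1, 5]), (3, [], [5])])]

def p2_1_1 : Cov := [(8, 1, 1, [(0, [0], [0, 3]), (0, [0], [1, 2]), (1, [], [4, 5]), (3, [], [5])]),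
  (8, 1, 1, [(0, [0], [0, 3]), (0, [0], [1, 4]), (1, [], [2, 5]), (3, [], [5])]),
  (8, 1, 1, [(0, [0], [0, 3]), (0, [0], [2, 4]), (1, [], [1, 5]), (3, [], [5])]),
  (8, 1, 1, [(0, [0], [0, 4]), (0, [0], [1, 2]), (1, [], [3, 5]), (3, [], [5])]),
  (8, 1, 1, [(0, [0], [0, 4]), (0, [0], [1, 3]), (1, [], [2, 5]), (3, [], [5])]),
  (8, 1, 1, [(0, [0], [0, 4]), (0, [0], [2, 3]), (1, [], [1, 5]), (3, [], [5])])]

def p2_1_2 : Cov := [(8, 1, 1, [(0, [0], [1, 2]), (0, [0], [3, 4]), (1, [], [0, 5]), (3, [], [5])]),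
  (8, 1, 1, [(0, [0], [1, 3]), (0, [0], [2, 4]), (1, [], [0, 5]), (3, [], [5])]),
  (8, 1, 1, [(0, [0], [1, 4]), (0, [0], [2, 3]), (1, [], [0, 5]), (3, [], [5])])]

def c2_1 : Cov := p2_1_0 ++ (p2_1_1 ++ (p2_1_2))

def p2_2_0 : Cov := [(8, 1, 0, [(0, [0], [0, 1]), (0, [0], [2, 3]), (3, [], [4])]),
  (8, 1, 0, [(0, [0], [0, 1]), (0, [0], [2, 4]), (3, [], [3])]),
  (8, 1, 0, [(0, [0], [0, 1]), (0, [0], [3, 4]), (3, [], [2])]),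
  (8, 1, 0, [(0, [0], [0, 2]), (0, [0], [1, 3]), (3, [], [4])]),
  (8, 1, 0, [(0, [0], [0, 2]), (0, [0], [1, 4]), (3, [], [3])]),
  (8, 1, 0, [(0, [0], [0, 2]), (0, [0], [3, 4]), (3, [], [1])])]

def p2_2_1 : Cov := [(8, 1, 0, [(0, [0], [0, 3]), (0, [0], [1, 2]), (3, [], [4])]),
  (8, 1, 0, [(0, [0], [0, 3]), (0, [0], [1, 4]), (3, [], [2])]),
  (8, 1, 0, [(0, [0], [0, 3]), (0, [0], [2, 4]), (3, [], [1])]),
  (8, 1, 0, [(0, [0], [0, 4]), (0, [0], [1, 2]), (3, [], [3])]),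
  (8, 1, 0, [(0, [0], [0, 4]), (0, [0], [1, 3]), (3, [], [2])]),
  (8, 1, 0, [(0, [0], [0, 4]), (0, [0], [2, 3]), (3, [], [1])])]

def p2_2_2 : Cov := [(8, 1, 0, [(0, [0], [1, 2]), (0, [0], [3, 4]), (3, [], [0])]),
  (8, 1, 0, [(0, [0], [1, 3]), (0, [0], [2, 4]), (3, [], [0])]),
  (8, 1, 0, [(0, [0], [1, 4]), (0, [0], [2, 3]), (3, [], [0])])]

def c2_2 : Cov := p2_2_0 ++ (p2_2_1 ++ (p2_2_2))

def p2_3_0 : Cov := [(4, 1, 1, [(0, [0], [0, 5]), (0, [0], [1, 5]), (1, [], [2, 3]), (3, [], [4])]),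
  (4, 1, 1, [(0, [0], [0, 5]), (0, [0], [1, 5]), (1, [], [2, 4]), (3, [], [3])]),
  (4, 1, 1, [(0, [0], [0, 5]), (0, [0], [1, 5]), (1, [], [3, 4]), (3, [], [2])]),
  (4, 1, 1, [(0, [0], [0, 5]), (0, [0], [2, 5]), (1, [], [1, 3]), (3, [], [4])]),
  (4, 1, 1, [(0, [0], [0, 5]), (0, [0], [2, 5]), (1, [], [1, 4]), (3, [], [3])]),
  (4, 1, 1, [(0, [0], [0, 5]), (0, [0], [2, 5]), (1, [], [3, 4]), (3, [], [1])])]

def p2_3_1 : Cov := [(4, 1, 1, [(0, [0], [0, 5]), (0, [0], [3, 5]), (1, [], [1, 2]), (3, [], [4])]),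
  (4, 1, 1, [(0, [0], [0, 5]), (0, [0], [3, 5]), (1, [], [1, 4]), (3, [], [2])]),
  (4, 1, 1, [(0, [0], [0, 5]), (0, [0], [3, 5]), (1, [], [2, 4]), (3, [], [1])]),
  (4, 1, 1, [(0, [0], [0, 5]), (0, [0], [4, 5]), (1, [], [1, 2]), (3, [], [3])]),
  (4, 1, 1, [(0, [0], [0, 5]), (0, [0], [4, 5]), (1, [], [1, 3]), (3, [], [2])]),
  (4, 1, 1, [(0, [0], [0, 5]), (0, [0], [4, 5]), (1, [], [2, 3]), (3, [], [1])])]

def p2_3_2 : Cov := [(4, 1, 1, [(0, [0], [1, 5]), (0, [0], [2, 5]), (1, [], [0, 3]), (3, [], [4])]),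
  (4, 1, 1, [(0, [0], [1, 5]), (0, [0], [2, 5]), (1, [], [0, 4]), (3, [], [3])]),
  (4, 1, 1, [(0, [0], [1, 5]), (0, [0], [2, 5]), (1, [], [3, 4]), (3, [], [0])]),
  (4, 1, 1, [(0, [0], [1, 5]), (0, [0], [3, 5]), (1, [], [0, 2]), (3, [], [4])]),
  (4, 1, 1, [(0, [0], [1, 5]), (0, [0], [3, 5]), (1, [], [0, 4]), (3, [], [2])]),
  (4, 1, 1, [(0, [0], [1, 5]), (0, [0], [3, 5]), (1, [], [2, 4]), (3, [], [0])])]

def p2_3_3 : Cov := [(4, 1, 1, [(0, [0], [1, 5]), (0, [0], [4, 5]), (1, [], [0, 2]), (3, [], [3])]),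
  (4, 1, 1, [(0, [0], [1, 5]), (0, [0], [4, 5]), (1, [], [0, 3]), (3, [], [2])]),
  (4, 1, 1, [(0, [0], [1, 5]), (0, [0], [4, 5]), (1, [], [2, 3]), (3, [], [0])]),
  (4, 1, 1, [(0, [0], [2, 5]), (0, [0], [3, 5]), (1, [], [0, 1]), (3, [], [4])]),
  (4, 1, 1, [(0, [0], [2, 5]), (0, [0], [3, 5]), (1, [], [0, 4]), (3, [], [1])]),
  (4, 1, 1, [(0, [0], [2, 5]), (0, [0], [3, 5]), (1, [], [1, 4]), (3, [], [0])])]

def p2_3_4 : Cov := [(4, 1, 1, [(0, [0], [2, 5]), (0, [0], [4, 5]), (1, [], [0, 1]), (3, [], [3])]),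
  (4, 1, 1, [(0, [0], [2, 5]), (0, [0], [4, 5]), (1, [], [0, 3]), (3, [], [1])]),
  (4, 1, 1, [(0, [0], [2, 5]), (0, [0], [4, 5]), (1, [], [1, 3]), (3, [], [0])]),
  (4, 1, 1, [(0, [0], [3, 5]), (0, [0], [4, 5]), (1, [], [0, 1]), (3, [], [2])]),
  (4, 1, 1, [(0, [0], [3, 5]), (0, [0], [4, 5]), (1, [], [0, 2]), (3, [], [1])]),
  (4, 1, 1, [(0, [0], [3, 5]), (0, [0], [4, 5]), (1, [], [1, 2]), (3, [], [0])])]

def c2_3 : Cov := p2_3_0 ++ (p2_3_1 ++ (p2_3_2 ++ (p2_3_3 ++ (p2_3_4))))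

def p2_4_0 : Cov := [(4, 1, 1, [(0, [0], [0, 5]), (0, [0], [1, 2]), (1, [], [3, 4]), (3, [], [5])]),
  (4, 1, 1, [(0, [0], [0, 5]), (0, [0], [1, 3]), (1, [], [2, 4]), (3, [], [5])]),
  (4, 1, 1, [(0, [0], [0, 5]), (0, [0], [1, 4]), (1, [], [2, 3]), (3, [], [5])]),
  (4, 1, 1, [(0, [0], [0, 5]), (0, [0], [2, 3]), (1, [], [1, 4]), (3, [], [5])]),
  (4, 1, 1, [(0, [0], [0, 5]), (0, [0], [2, 4]), (1, [], [1, 3]), (3, [], [5])]),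
  (4, 1, 1, [(0, [0], [0, 5]), (0, [0], [3, 4]), (1, [], [1, 2]), (3, [], [5])])]

def p2_4_1 : Cov := [(4, 1, 1, [(0, [0], [0, 1]), (0, [0], [2, 5]), (1, [], [3, 4]), (3, [], [5])]),
  (4, 1, 1, [(0, [0], [0, 1]), (0, [0], [3, 5]), (1, [], [2, 4]), (3, [], [5])]),
  (4, 1, 1, [(0, [0], [0, 1]), (0, [0], [4, 5]), (1, [], [2, 3]), (3, [], [5])]),
  (4, 1, 1, [(0, [0], [0, 2]), (0, [0], [1, 5]), (1, [], [3, 4]), (3, [], [5])]),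
  (4, 1, 1, [(0, [0], [0, 2]), (0, [0], [3, 5]), (1, [], [1, 4]), (3, [], [5])]),
  (4, 1, 1, [(0, [0], [0, 2]), (0, [0], [4, 5]), (1, [], [1, 3]), (3, [], [5])])]

def p2_4_2 : Cov := [(4, 1, 1, [(0, [0], [0, 3]), (0, [0], [1, 5]), (1, [], [2, 4]), (3, [], [5])]),
  (4, 1, 1, [(0, [0], [0, 3]), (0, [0], [2, 5]), (1, [], [1, 4]), (3, [], [5])]),
  (4, 1, 1, [(0, [0], [0, 3]), (0, [0], [4, 5]), (1, [], [1, 2]), (3, [], [5])]),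
  (4, 1, 1, [(0, [0], [0, 4]), (0, [0], [1, 5]), (1, [], [2, 3]), (3, [], [5])]),
  (4, 1, 1, [(0, [0], [0, 4]), (0, [0], [2, 5]), (1, [], [1, 3]), (3, [], [5])]),
  (4, 1, 1, [(0, [0], [0, 4]), (0, [0], [3, 5]), (1, [], [1, 2]), (3, [], [5])])]

def p2_4_3 : Cov := [(4, 1, 1, [(0, [0], [1, 5]), (0, [0], [2, 3]), (1, [], [0, 4]), (3, [], [5])]),
  (4, 1, 1, [(0, [0], [1, 5]), (0, [0], [2, 4]), (1, [], [0, 3]), (3, [], [5])]),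
  (4, 1, 1, [(0, [0], [1, 5]), (0, [0], [3, 4]), (1, [], [0, 2]), (3, [], [5])]),
  (4, 1, 1, [(0, [0], [1, 2]), (0, [0], [3, 5]), (1, [], [0, 4]), (3, [], [5])]),
  (4, 1, 1, [(0, [0], [1, 2]), (0, [0], [4, 5]), (1, [], [0, 3]), (3, [], [5])]),
  (4, 1, 1, [(0, [0], [1, 3]), (0, [0], [2, 5]), (1, [], [0, 4]), (3, [], [5])])]

def p2_4_4 : Cov := [(4, 1, 1, [(0, [0], [1, 3]), (0, [0], [4, 5]), (1, [], [0, 2]), (3, [], [5])]),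
  (4, 1, 1, [(0, [0], [1, 4]), (0, [0], [2, 5]), (1, [], [0, 3]), (3, [], [5])]),
  (4, 1, 1, [(0, [0], [1, 4]), (0, [0], [3, 5]), (1, [], [0, 2]), (3, [], [5])]),
  (4, 1, 1, [(0, [0], [2, 5]), (0, [0], [3, 4]), (1, [], [0, 1]), (3, [], [5])]),
  (4, 1, 1, [(0, [0], [2, 3]), (0, [0], [4, 5]), (1, [], [0, 1]), (3, [], [5])]),
  (4, 1, 1, [(0, [0], [2, 4]), (0, [0], [3, 5]), (1, [], [0, 1]), (3, [], [5])])]

def c2_4 : Cov := p2_4_0 ++ (p2_4_1 ++ (p2_4_2 ++ (p2_4_3 ++ (p2_4_4))))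

def p2_5_0 : Cov := [(2, 1, 1, [(0, [0], [0, 5]), (0, [0], [1, 2]), (1, [], [3, 5]), (3, [], [4])]),
  (2, 1, 1, [(0, [0], [0, 5]), (0, [0], [1, 2]), (1, [], [4, 5]), (3, [], [3])]),
  (2, 1, 1, [(0, [0], [0, 5]), (0, [0], [1, 3]), (1, [], [2, 5]), (3, [], [4])]),
  (2, 1, 1, [(0, [0], [0, 5]), (0, [0], [1, 3]), (1, [], [4, 5]), (3, [], [2])]),
  (2, 1, 1, [(0, [0], [0, 5]), (0, [0], [1, 4]), (1, [], [2, 5]), (3, [], [3])]),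
  (2, 1, 1, [(0, [0], [0, 5]), (0, [0], [1, 4]), (1, [], [3, 5]), (3, [], [2])])]

def p2_5_1 : Cov := [(2, 1, 1, [(0, [0], [0, 5]), (0, [0], [2, 3]), (1, [], [1, 5]), (3, [], [4])]),
  (2, 1, 1, [(0, [0], [0, 5]), (0, [0], [2, 3]), (1, [], [4, 5]), (3, [], [1])]),
  (2, 1, 1, [(0, [0], [0, 5]), (0, [0], [2, 4]), (1, [], [1, 5]), (3, [], [3])]),
  (2, 1, 1, [(0, [0], [0, 5]), (0, [0], [2, 4]), (1, [], [3, 5]), (3, [], [1])]),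
  (2, 1, 1, [(0, [0], [0, 5]), (0, [0], [3, 4]), (1, [], [1, 5]), (3, [], [2])]),
  (2, 1, 1, [(0, [0], [0, 5]), (0, [0], [3, 4]), (1, [], [2, 5]), (3, [], [1])])]

def p2_5_2 : Cov := [(2, 1, 1, [(0, [0], [0, 1]), (0, [0], [2, 5]), (1, [], [3, 5]), (3, [], [4])]),
  (2, 1, 1, [(0, [0], [0, 1]), (0, [0], [2, 5]), (1, [], [4, 5]), (3, [], [3])]),
  (2, 1, 1, [(0, [0], [0, 1]), (0, [0], [3, 5]), (1, [], [2, 5]), (3, [], [4])]),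
  (2, 1, 1, [(0, [0], [0, 1]), (0, [0], [3, 5]), (1, [], [4, 5]), (3, [], [2])]),
  (2, 1, 1, [(0, [0], [0, 1]), (0, [0], [4, 5]), (1, [], [2, 5]), (3, [], [3])]),
  (2, 1, 1, [(0, [0], [0, 1]), (0, [0], [4, 5]), (1, [], [3, 5]), (3, [], [2])])]

def p2_5_3 : Cov := [(2, 1, 1, [(0, [0], [0, 2]), (0, [0], [1, 5]), (1, [], [3, 5]), (3, [], [4])]),
  (2, 1, 1, [(0, [0], [0, 2]), (0, [0], [1, 5]), (1, [], [4, 5]), (3, [], [3])]),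
  (2, 1, 1, [(0, [0], [0, 2]), (0, [0], [3, 5]), (1, [], [1, 5]), (3, [], [4])]),
  (2, 1, 1, [(0, [0], [0, 2]), (0, [0], [3, 5]), (1, [], [4, 5]), (3, [], [1])]),
  (2, 1, 1, [(0, [0], [0, 2]), (0, [0], [4, 5]), (1, [], [1, 5]), (3, [], [3])]),
  (2, 1, 1, [(0, [0], [0, 2]), (0, [0], [4, 5]), (1, [], [3, 5]), (3, [], [1])])]

def p2_5_4 : Cov := [(2, 1, 1, [(0, [0], [0, 3]), (0, [0], [1, 5]), (1, [], [2, 5]), (3, [], [4])]),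
  (2, 1, 1, [(0, [0], [0, 3]), (0, [0], [1, 5]), (1, [], [4, 5]), (3, [], [2])]),
  (2, 1, 1, [(0, [0], [0, 3]), (0, [0], [2, 5]), (1, [], [1, 5]), (3, [], [4])]),
  (2, 1, 1, [(0, [0], [0, 3]), (0, [0], [2, 5]), (1, [], [4, 5]), (3, [], [1])]),
  (2, 1, 1, [(0, [0], [0, 3]), (0, [0], [4, 5]), (1, [], [1, 5]), (3, [], [2])]),
  (2, 1, 1, [(0, [0], [0, 3]), (0, [0], [4, 5]), (1, [], [2, 5]), (3, [], [1])])]

def p2_5_5 : Cov := [(2, 1, 1, [(0, [0], [0, 4]), (0, [0], [1, 5]), (1, [], [2, 5]), (3, [], [3])]),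
  (2, 1, 1, [(0, [0], [0, 4]), (0, [0], [1, 5]), (1, [], [3, 5]), (3, [], [2])]),
  (2, 1, 1, [(0, [0], [0, 4]), (0, [0], [2, 5]), (1, [], [1, 5]), (3, [], [3])]),
  (2, 1, 1, [(0, [0], [0, 4]), (0, [0], [2, 5]), (1, [], [3, 5]), (3, [], [1])]),
  (2, 1, 1, [(0, [0], [0, 4]), (0, [0], [3, 5]), (1, [], [1, 5]), (3, [], [2])]),
  (2, 1, 1, [(0, [0], [0, 4]), (0, [0], [3, 5]), (1, [], [2, 5]), (3, [], [1])])]

def p2_5_6 : Cov := [(2, 1, 1, [(0, [0], [1, 5]), (0, [0], [2, 3]), (1, [], [0, 5]), (3, [], [4])]),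
  (2, 1, 1, [(0, [0], [1, 5]), (0, [0], [2, 3]), (1, [], [4, 5]), (3, [], [0])]),
  (2, 1, 1, [(0, [0], [1, 5]), (0, [0], [2, 4]), (1, [], [0, 5]), (3, [], [3])]),
  (2, 1, 1, [(0, [0], [1, 5]), (0, [0], [2, 4]), (1, [], [3, 5]), (3, [], [0])]),
  (2, 1, 1, [(0, [0], [1, 5]), (0, [0], [3, 4]), (1, [], [0, 5]), (3, [], [2])]),
  (2, 1, 1, [(0, [0], [1, 5]), (0, [0], [3, 4]), (1, [], [2, 5]), (3, [], [0])])]

def p2_5_7 : Cov := [(2, 1, 1, [(0, [0], [1, 2]), (0, [0], [3, 5]), (1, [], [0, 5]), (3, [], [4])]),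
  (2, 1, 1, [(0, [0], [1, 2]), (0, [0], [3, 5]), (1, [], [4, 5]), (3, [], [0])]),
  (2, 1, 1, [(0, [0], [1, 2]), (0, [0], [4, 5]), (1, [], [0, 5]), (3, [], [3])]),
  (2, 1, 1, [(0, [0], [1, 2]), (0, [0], [4, 5]), (1, [], [3, 5]), (3, [], [0])]),
  (2, 1, 1, [(0, [0], [1, 3]), (0, [0], [2, 5]), (1, [], [0, 5]), (3, [], [4])]),
  (2, 1, 1, [(0, [0], [1, 3]), (0, [0], [2, 5]), (1, [], [4, 5]), (3, [], [0])])]

def p2_5_8 : Cov := [(2, 1, 1, [(0, [0], [1, 3]), (0, [0], [4, 5]), (1, [], [0, 5]), (3, [], [2])]),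
  (2, 1, 1, [(0, [0], [1, 3]), (0, [0], [4, 5]), (1, [], [2, 5]), (3, [], [0])]),
  (2, 1, 1, [(0, [0], [1, 4]), (0, [0], [2, 5]), (1, [], [0, 5]), (3, [], [3])]),
  (2, 1, 1, [(0, [0], [1, 4]), (0, [0], [2, 5]), (1, [], [3, 5]), (3, [], [0])]),
  (2, 1, 1, [(0, [0], [1, 4]), (0, [0], [3, 5]), (1, [], [0, 5]), (3, [], [2])]),
  (2, 1, 1, [(0, [0], [1, 4]), (0, [0], [3, 5]), (1, [], [2, 5]), (3, [], [0])])]

def p2_5_9 : Cov := [(2, 1, 1, [(0, [0], [2, 5]), (0, [0], [3, 4]), (1, [], [0, 5]), (3, [], [1])]),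
  (2, 1, 1, [(0, [0], [2, 5]), (0, [0], [3, 4]), (1, [], [1, 5]), (3, [], [0])]),
  (2, 1, 1, [(0, [0], [2, 3]), (0, [0], [4, 5]), (1, [], [0, 5]), (3, [], [1])]),
  (2, 1, 1, [(0, [0], [2, 3]), (0, [0], [4, 5]), (1, [], [1, 5]), (3, [], [0])]),
  (2, 1, 1, [(0, [0], [2, 4]), (0, [0], [3, 5]), (1, [], [0, 5]), (3, [], [1])]),
  (2, 1, 1, [(0, [0], [2, 4]), (0, [0], [3, 5]), (1, [], [1, 5]), (3, [], [0])])]

def c2_5 : Cov := p2_5_0 ++ (p2_5_1 ++ (p2_5_2 ++ (p2_5_3 ++ (p2_5_4 ++ (p2_5_5 ++ (p2_5_6 ++ (p2_5_7 ++ (p2_5_8 ++ (p2_5_9)))))))))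

end YMA
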