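import Pool.Agent.YM.YMA.Keys

set_option linter.unusedVariables false
set_option maxRecDepth 100000

open YMEng

namespace YMA

def p7_0_0 : Cov := [(2, 0, 1, [(0, [0], [0, 5]), (1, [], [1, 2]), (1, [], [3, 4]), (3, [], [5])]),
  (2, 0, 1, [(0, [0], [0, 5]), (1, [], [1, 3]), (1, [], [2, 4]), (3, [], [5])]),
  (2, 0, 1, [(0, [0], [0, 5]), (1, [], [1, 4]), (1, [], [2, 3]), (3, [], [5])]),
  (-2, 0, 1, [(0, [0], [4, 5]), (1, [], [0, 1]), (1, [], [2, 3]), (3, [], [5])]),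
  (-2, 0, 1, [(0, [0], [4, 5]), (1, [], [0, 2]), (1, [], [1, 3]), (3, [], [5])]),
  (-2, 0, 1, [(0, [0], [4, 5]), (1, [], [0, 3]), (1, [], [1, 2]), (3, [], [5])])]

def c7_0 : Cov := p7_0_0

def p7_1_0 : Cov := [(6, 0, 0, [(2, [0], [0, 1, 2]), (1, [], [3, 4])]),
  (6, 0, 0, [(2, [0], [0, 1, 3]), (1, [], [2, 4])]),
  (6, 0, 0, [(2, [0], [0, 2, 3]), (1, [], [1, 4])]),
  (-6, 0, 0, [(2, [0], [1, 2, 4]), (1, [], [0, 3])]),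
  (-6, 0, 0, [(2, [0], [1, 3, 4]), (1, [], [0, 2])]),
  (-6, 0, 0, [(2, [0], [2, 3, 4]), (1, [], [0, 1])])]

def c7_1 : Cov := p7_1_0

def p7_2_0 : Cov := [(4, 1, 1, [(0, [1], [0, 5]), (0, [1], [1, 5]), (0, [0], [2, 3]), (3, [], [4])]),
  (4, 1, 1, [(0, [1], [0, 5]), (0, [1], [2, 5]), (0, [0], [1, 3]), (3, [], [4])]),
  (4, 1, 1, [(0, [1], [0, 5]), (0, [1], [3, 5]), (0, [0], [1, 2]), (3, [], [4])]),
  (4, 1, 1, [(0, [1], [1, 5]), (0, [1], [2, 5]), (0, [0], [0, 3]), (3, [], [4])]),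
  (-4, 1, 1, [(0, [1], [1, 5]), (0, [1], [2, 5]), (0, [0], [3, 4]), (3, [], [0])]),
  (4, 1, 1, [(0, [1], [1, 5]), (0, [1], [3, 5]), (0, [0], [0, 2]), (3, [], [4])]),
  (-4, 1, 1, [(0, [1], [1, 5]), (0, [1], [3, 5]), (0, [0], [2, 4]), (3, [], [0])]),
  (-4, 1, 1, [(0, [1], [1, 5]), (0, [1], [4, 5]), (0, [0], [2, 3]), (3, [], [0])]),
  (4, 1, 1, [(0, [1], [2, 5]), (0, [1], [3, 5]), (0, [0], [0, 1]), (3, [], [4])]),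
  (-4, 1, 1, [(0, [1], [2, 5]), (0, [1], [3, 5]), (0, [0], [1, 4]), (3, [], [0])]),
  (-4, 1, 1, [(0, [1], [2, 5]), (0, [1], [4, 5]), (0, [0], [1, 3]), (3, [], [0])]),
  (-4, 1, 1, [(0, [1], [3, 5]), (0, [1], [4, 5]), (0, [0], [1, 2]), (3, [], [0])])]

def c7_2 : Cov := p7_2_0

def p7_3_0 : Cov := [(-4, 1, 1, [(0, [1], [0, 5]), (0, [1], [1, 2]), (0, [0], [3, 4]), (3, [], [5])]),
  (-4, 1, 1, [(0, [1], [0, 5]), (0, [1], [1, 3]), (0, [0], [2, 4]), (3, [], [5])]),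
  (-4, 1, 1, [(0, [1], [0, 5]), (0, [1], [1, 4]), (0, [0], [2, 3]), (3, [], [5])]),
  (-4, 1, 1, [(0, [1], [0, 5]), (0, [1], [2, 3]), (0, [0], [1, 4]), (3, [], [5])]),
  (-4, 1, 1, [(0, [1], [0, 5]), (0, [1], [2, 4]), (0, [0], [1, 3]), (3, [], [5])]),
  (-4, 1, 1, [(0, [1], [0, 5]), (0, [1], [3, 4]), (0, [0], [1, 2]), (3, [], [5])]),
  (4, 1, 1, [(0, [1], [0, 1]), (0, [1], [4, 5]), (0, [0], [2, 3]), (3, [], [5])]),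
  (4, 1, 1, [(0, [1], [0, 2]), (0, [1], [4, 5]), (0, [0], [1, 3]), (3, [], [5])]),
  (4, 1, 1, [(0, [1], [0, 3]), (0, [1], [4, 5]), (0, [0], [1, 2]), (3, [], [5])]),
  (4, 1, 1, [(0, [1], [1, 2]), (0, [1], [4, 5]), (0, [0], [0, 3]), (3, [], [5])]),
  (4, 1, 1, [(0, [1], [1, 3]), (0, [1], [4, 5]), (0, [0], [0, 2]), (3, [], [5])]),
  (4, 1, 1, [(0, [1], [2, 3]), (0, [1], [4, 5]), (0, [0], [0, 1]), (3, [], [5])])]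

def c7_3 : Cov := p7_3_0

def p7_4_0 : Cov := [(4, 0, 1, [(0, [0], [0, 1]), (1, [], [2, 3]), (1, [], [4, 5]), (3, [], [5])]),
  (4, 0, 1, [(0, [0], [0, 2]), (1, [], [1, 3]), (1, [], [4, 5]), (3, [], [5])]),
  (4, 0, 1, [(0, [0], [0, 3]), (1, [], [1, 2]), (1, [], [4, 5]), (3, [], [5])]),
  (-4, 0, 1, [(0, [0], [1, 2]), (1, [], [0, 5]), (1, [], [3, 4]), (3, [], [5])]),
  (4, 0, 1, [(0, [0], [1, 2]), (1, [], [0, 3]), (1, [], [4, 5]), (3, [], [5])]),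
  (-4, 0, 1, [(0, [0], [1, 3]), (1, [], [0, 5]), (1, [], [2, 4]), (3, [], [5])]),
  (4, 0, 1, [(0, [0], [1, 3]), (1, [], [0, 2]), (1, [], [4, 5]), (3, [], [5])]),
  (-4, 0, 1, [(0, [0], [1, 4]), (1, [], [0, 5]), (1, [], [2, 3]), (3, [], [5])]),
  (-4, 0, 1, [(0, [0], [2, 3]), (1, [], [0, 5]), (1, [], [1, 4]), (3, [], [5])]),
  (4, 0, 1, [(0, [0], [2, 3]), (1, [], [0, 1]), (1, [], [4, 5]), (3, [], [5])]),
  (-4, 0, 1, [(0, [0], [2, 4]), (1, [], [0, 5]), (1, [], [1, 3]), (3, [], [5])]),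
  (-4, 0, 1, [(0, [0], [3, 4]), (1, [], [0, 5]), (1, [], [1, 2]), (3, [], [5])])]

def c7_4 : Cov := p7_4_0

def p7_5_0 : Cov := [(4, 0, 0, [(0, [0], [0, 1]), (1, [], [2, 3]), (3, [], [4])]),
  (4, 0, 0, [(0, [0], [0, 2]), (1, [], [1, 3]), (3, [], [4])]),
  (4, 0, 0, [(0, [0], [0, 3]), (1, [], [1, 2]), (3, [], [4])]),
  (4, 0, 0, [(0, [0], [1, 2]), (1, [], [0, 3]), (3, [], [4])]),
  (-4, 0, 0, [(0, [0], [1, 2]), (1, [], [3, 4]), (3, [], [0])]),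
  (4, 0, 0, [(0, [0], [1, 3]), (1, [], [0, 2]), (3, [], [4])]),
  (-4, 0, 0, [(0, [0], [1, 3]), (1, [], [2, 4]), (3, [], [0])]),
  (-4, 0, 0, [(0, [0], [1, 4]), (1, [], [2, 3]), (3, [], [0])]),
  (4, 0, 0, [(0, [0], [2, 3]), (1, [], [0, 1]), (3, [], [4])]),
  (-4, 0, 0, [(0, [0], [2, 3]), (1, [], [1, 4]), (3, [], [0])]),
  (-4, 0, 0, [(0, [0], [2, 4]), (1, [], [1, 3]), (3, [], [0])]),
  (-4, 0, 0, [(0, [0], [3, 4]), (1, [], [1, 2]), (3, [], [0])])]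

def c7_5 : Cov := p7_5_0

def p7_6_0 : Cov := [(2, 1, 1, [(0, [1], [0, 5]), (0, [1], [1, 5]), (0, [0], [2, 4]), (3, [], [3])]),
  (2, 1, 1, [(0, [1], [0, 5]), (0, [1], [1, 5]), (0, [0], [3, 4]), (3, [], [2])]),
  (2, 1, 1, [(0, [1], [0, 5]), (0, [1], [2, 5]), (0, [0], [1, 4]), (3, [], [3])]),
  (2, 1, 1, [(0, [1], [0, 5]), (0, [1], [2, 5]), (0, [0], [3, 4]), (3, [], [1])]),
  (2, 1, 1, [(0, [1], [0, 5]), (0, [1], [3, 5]), (0, [0], [1, 4]), (3, [], [2])]),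
  (2, 1, 1, [(0, [1], [0, 5]), (0, [1], [3, 5]), (0, [0], [2, 4]), (3, [], [1])]),
  (-2, 1, 1, [(0, [1], [1, 5]), (0, [1], [2, 5]), (0, [0], [0, 3]), (3, [], [4])]),
  (2, 1, 1, [(0, [1], [1, 5]), (0, [1], [2, 5]), (0, [0], [3, 4]), (3, [], [0])]),
  (-2, 1, 1, [(0, [1], [1, 5]), (0, [1], [3, 5]), (0, [0], [0, 2]), (3, [], [4])]),
  (2, 1, 1, [(0, [1], [1, 5]), (0, [1], [3, 5]), (0, [0], [2, 4]), (3, [], [0])]),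
  (-2, 1, 1, [(0, [1], [1, 5]), (0, [1], [4, 5]), (0, [0], [0, 2]), (3, [], [3])]),
  (-2, 1, 1, [(0, [1], [1, 5]), (0, [1], [4, 5]), (0, [0], [0, 3]), (3, [], [2])]),
  (-2, 1, 1, [(0, [1], [2, 5]), (0, [1], [3, 5]), (0, [0], [0, 1]), (3, [], [4])]),
  (2, 1, 1, [(0, [1], [2, 5]), (0, [1], [3, 5]), (0, [0], [1, 4]), (3, [], [0])]),
  (-2, 1, 1, [(0, [1], [2, 5]), (0, [1], [4, 5]), (0, [0], [0, 1]), (3, [], [3])]),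
  (-2, 1, 1, [(0, [1], [2, 5]), (0, [1], [4, 5]), (0, [0], [0, 3]), (3, [], [1])])]

def p7_6_1 : Cov := [(-2, 1, 1, [(0, [1], [3, 5]), (0, [1], [4, 5]), (0, [0], [0, 1]), (3, [], [2])]),
  (-2, 1, 1, [(0, [1], [3, 5]), (0, [1], [4, 5]), (0, [0], [0, 2]), (3, [], [1])])]

def c7_6 : Cov := p7_6_0 ++ (p7_6_1)

def p7_7_0 : Cov := [(2, 1, 1, [(0, [1], [0, 5]), (0, [1], [1, 2]), (0, [0], [3, 4]), (3, [], [5])]),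
  (2, 1, 1, [(0, [1], [0, 5]), (0, [1], [1, 3]), (0, [0], [2, 4]), (3, [], [5])]),
  (2, 1, 1, [(0, [1], [0, 5]), (0, [1], [2, 3]), (0, [0], [1, 4]), (3, [], [5])]),
  (2, 1, 1, [(0, [1], [0, 1]), (0, [1], [2, 5]), (0, [0], [3, 4]), (3, [], [5])]),
  (2, 1, 1, [(0, [1], [0, 1]), (0, [1], [3, 5]), (0, [0], [2, 4]), (3, [], [5])]),
  (2, 1, 1, [(0, [1], [0, 2]), (0, [1], [1, 5]), (0, [0], [3, 4]), (3, [], [5])]),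
  (2, 1, 1, [(0, [1], [0, 2]), (0, [1], [3, 5]), (0, [0], [1, 4]), (3, [], [5])]),
  (2, 1, 1, [(0, [1], [0, 3]), (0, [1], [1, 5]), (0, [0], [2, 4]), (3, [], [5])]),
  (2, 1, 1, [(0, [1], [0, 3]), (0, [1], [2, 5]), (0, [0], [1, 4]), (3, [], [5])]),
  (-2, 1, 1, [(0, [1], [1, 5]), (0, [1], [2, 4]), (0, [0], [0, 3]), (3, [], [5])]),
  (-2, 1, 1, [(0, [1], [1, 5]), (0, [1], [3, 4]), (0, [0], [0, 2]), (3, [], [5])]),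
  (-2, 1, 1, [(0, [1], [1, 2]), (0, [1], [4, 5]), (0, [0], [0, 3]), (3, [], [5])]),
  (-2, 1, 1, [(0, [1], [1, 3]), (0, [1], [4, 5]), (0, [0], [0, 2]), (3, [], [5])]),
  (-2, 1, 1, [(0, [1], [1, 4]), (0, [1], [2, 5]), (0, [0], [0, 3]), (3, [], [5])]),
  (-2, 1, 1, [(0, [1], [1, 4]), (0, [1], [3, 5]), (0, [0], [0, 2]), (3, [], [5])]),
  (-2, 1, 1, [(0, [1], [2, 5]), (0, [1], [3, 4]), (0, [0], [0, 1]), (3, [], [5])])]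

def p7_7_1 : Cov := [(-2, 1, 1, [(0, [1], [2, 3]), (0, [1], [4, 5]), (0, [0], [0, 1]), (3, [], [5])]),
  (-2, 1, 1, [(0, [1], [2, 4]), (0, [1], [3, 5]), (0, [0], [0, 1]), (3, [], [5])])]

def c7_7 : Cov := p7_7_0 ++ (p7_7_1)

def p7_8_0 : Cov := [(2, 0, 1, [(0, [0], [0, 1]), (1, [], [2, 5]), (1, [], [3, 4]), (3, [], [5])]),
  (2, 0, 1, [(0, [0], [0, 1]), (1, [], [2, 4]), (1, [], [3, 5]), (3, [], [5])]),
  (2, 0, 1, [(0, [0], [0, 2]), (1, [], [1, 5]), (1, [], [3, 4]), (3, [], [5])]),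
  (2, 0, 1, [(0, [0], [0, 2]), (1, [], [1, 4]), (1, [], [3, 5]), (3, [], [5])]),
  (2, 0, 1, [(0, [0], [0, 3]), (1, [], [1, 5]), (1, [], [2, 4]), (3, [], [5])]),
  (2, 0, 1, [(0, [0], [0, 3]), (1, [], [1, 4]), (1, [], [2, 5]), (3, [], [5])]),
  (2, 0, 1, [(0, [0], [1, 2]), (1, [], [0, 5]), (1, [], [3, 4]), (3, [], [5])]),
  (-2, 0, 1, [(0, [0], [1, 2]), (1, [], [0, 3]), (1, [], [4, 5]), (3, [], [5])]),
  (2, 0, 1, [(0, [0], [1, 3]), (1, [], [0, 5]), (1, [], [2, 4]), (3, [], [5])]),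
  (-2, 0, 1, [(0, [0], [1, 3]), (1, [], [0, 2]), (1, [], [4, 5]), (3, [], [5])]),
  (-2, 0, 1, [(0, [0], [1, 4]), (1, [], [0, 2]), (1, [], [3, 5]), (3, [], [5])]),
  (-2, 0, 1, [(0, [0], [1, 4]), (1, [], [0, 3]), (1, [], [2, 5]), (3, [], [5])]),
  (2, 0, 1, [(0, [0], [2, 3]), (1, [], [0, 5]), (1, [], [1, 4]), (3, [], [5])]),
  (-2, 0, 1, [(0, [0], [2, 3]), (1, [], [0, 1]), (1, [], [4, 5]), (3, [], [5])]),
  (-2, 0, 1, [(0, [0], [2, 4]), (1, [], [0, 1]), (1, [], [3, 5]), (3, [], [5])]),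
  (-2, 0, 1, [(0, [0], [2, 4]), (1, [], [0, 3]), (1, [], [1, 5]), (3, [], [5])])]

def p7_8_1 : Cov := [(-2, 0, 1, [(0, [0], [3, 4]), (1, [], [0, 1]), (1, [], [2, 5]), (3, [], [5])]),
  (-2, 0, 1, [(0, [0], [3, 4]), (1, [], [0, 2]), (1, [], [1, 5]), (3, [], [5])])]

def c7_8 : Cov := p7_8_0 ++ (p7_8_1)

def p7_9_0 : Cov := [(2, 0, 0, [(0, [0], [0, 1]), (1, [], [2, 4]), (3, [], [3])]),
  (2, 0, 0, [(0, [0], [0, 1]), (1, [], [3, 4]), (3, [], [2])]),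
  (2, 0, 0, [(0, [0], [0, 2]), (1, [], [1, 4]), (3, [], [3])]),
  (2, 0, 0, [(0, [0], [0, 2]), (1, [], [3, 4]), (3, [], [1])]),
  (2, 0, 0, [(0, [0], [0, 3]), (1, [], [1, 4]), (3, [], [2])]),
  (2, 0, 0, [(0, [0], [0, 3]), (1, [], [2, 4]), (3, [], [1])]),
  (-2, 0, 0, [(0, [0], [1, 2]), (1, [], [0, 3]), (3, [], [4])]),
  (2, 0, 0, [(0, [0], [1, 2]), (1, [], [3, 4]), (3, [], [0])]),
  (-2, 0, 0, [(0, [0], [1, 3]), (1, [], [0, 2]), (3, [], [4])]),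
  (2, 0, 0, [(0, [0], [1, 3]), (1, [], [2, 4]), (3, [], [0])]),
  (-2, 0, 0, [(0, [0], [1, 4]), (1, [], [0, 2]), (3, [], [3])]),
  (-2, 0, 0, [(0, [0], [1, 4]), (1, [], [0, 3]), (3, [], [2])]),
  (-2, 0, 0, [(0, [0], [2, 3]), (1, [], [0, 1]), (3, [], [4])]),
  (2, 0, 0, [(0, [0], [2, 3]), (1, [], [1, 4]), (3, [], [0])]),
  (-2, 0, 0, [(0, [0], [2, 4]), (1, [], [0, 1]), (3, [], [3])]),
  (-2, 0, 0, [(0, [0], [2, 4]), (1, [], [0, 3]), (3, [], [1])])]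

def p7_9_1 : Cov := [(-2, 0, 0, [(0, [0], [3, 4]), (1, [], [0, 1]), (3, [], [2])]),
  (-2, 0, 0, [(0, [0], [3, 4]), (1, [], [0, 2]), (3, [], [1])])]

def c7_9 : Cov := p7_9_0 ++ (p7_9_1)

def p7_10_0 : Cov := [(2, 1, 1, [(0, [1], [0, 5]), (0, [1], [1, 2]), (0, [0], [3, 5]), (3, [], [4])]),
  (2, 1, 1, [(0, [1], [0, 5]), (0, [1], [1, 3]), (0, [0], [2, 5]), (3, [], [4])]),
  (2, 1, 1, [(0, [1], [0, 5]), (0, [1], [2, 3]), (0, [0], [1, 5]), (3, [], [4])]),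
  (2, 1, 1, [(0, [1], [0, 1]), (0, [1], [2, 5]), (0, [0], [3, 5]), (3, [], [4])]),
  (2, 1, 1, [(0, [1], [0, 1]), (0, [1], [3, 5]), (0, [0], [2, 5]), (3, [], [4])]),
  (2, 1, 1, [(0, [1], [0, 2]), (0, [1], [1, 5]), (0, [0], [3, 5]), (3, [], [4])]),
  (2, 1, 1, [(0, [1], [0, 2]), (0, [1], [3, 5]), (0, [0], [1, 5]), (3, [], [4])]),
  (2, 1, 1, [(0, [1], [0, 3]), (0, [1], [1, 5]), (0, [0], [2, 5]), (3, [], [4])]),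
  (2, 1, 1, [(0, [1], [0, 3]), (0, [1], [2, 5]), (0, [0], [1, 5]), (3, [], [4])]),
  (2, 1, 1, [(0, [1], [1, 5]), (0, [1], [2, 3]), (0, [0], [0, 5]), (3, [], [4])]),
  (-2, 1, 1, [(0, [1], [1, 5]), (0, [1], [2, 3]), (0, [0], [4, 5]), (3, [], [0])]),
  (-2, 1, 1, [(0, [1], [1, 5]), (0, [1], [2, 4]), (0, [0], [3, 5]), (3, [], [0])]),
  (-2, 1, 1, [(0, [1], [1, 5]), (0, [1], [3, 4]), (0, [0], [2, 5]), (3, [], [0])]),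
  (2, 1, 1, [(0, [1], [1, 2]), (0, [1], [3, 5]), (0, [0], [0, 5]), (3, [], [4])]),
  (-2, 1, 1, [(0, [1], [1, 2]), (0, [1], [3, 5]), (0, [0], [4, 5]), (3, [], [0])]),
  (-2, 1, 1, [(0, [1], [1, 2]), (0, [1], [4, 5]), (0, [0], [3, 5]), (3, [], [0])])]

def p7_10_1 : Cov := [(2, 1, 1, [(0, [1], [1, 3]), (0, [1], [2, 5]), (0, [0], [0, 5]), (3, [], [4])]),
  (-2, 1, 1, [(0, [1], [1, 3]), (0, [1], [2, 5]), (0, [0], [4, 5]), (3, [], [0])]),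
  (-2, 1, 1, [(0, [1], [1, 3]), (0, [1], [4, 5]), (0, [0], [2, 5]), (3, [], [0])]),
  (-2, 1, 1, [(0, [1], [1, 4]), (0, [1], [2, 5]), (0, [0], [3, 5]), (3, [], [0])]),
  (-2, 1, 1, [(0, [1], [1, 4]), (0, [1], [3, 5]), (0, [0], [2, 5]), (3, [], [0])]),
  (-2, 1, 1, [(0, [1], [2, 5]), (0, [1], [3, 4]), (0, [0], [1, 5]), (3, [], [0])]),
  (-2, 1, 1, [(0, [1], [2, 3]), (0, [1], [4, 5]), (0, [0], [1, 5]), (3, [], [0])]),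
  (-2, 1, 1, [(0, [1], [2, 4]), (0, [1], [3, 5]), (0, [0], [1, 5]), (3, [], [0])])]

def c7_10 : Cov := p7_10_0 ++ (p7_10_1)

def p7_11_0 : Cov := [(2, 1, 1, [(0, [1], [0, 5]), (0, [1], [1, 2]), (0, [0], [4, 5]), (3, [], [3])]),
  (2, 1, 1, [(0, [1], [0, 5]), (0, [1], [1, 3]), (0, [0], [4, 5]), (3, [], [2])]),
  (2, 1, 1, [(0, [1], [0, 5]), (0, [1], [2, 3]), (0, [0], [4, 5]), (3, [], [1])]),
  (2, 1, 1, [(0, [1], [0, 1]), (0, [1], [2, 5]), (0, [0], [4, 5]), (3, [], [3])]),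
  (2, 1, 1, [(0, [1], [0, 1]), (0, [1], [3, 5]), (0, [0], [4, 5]), (3, [], [2])]),
  (2, 1, 1, [(0, [1], [0, 2]), (0, [1], [1, 5]), (0, [0], [4, 5]), (3, [], [3])]),
  (2, 1, 1, [(0, [1], [0, 2]), (0, [1], [3, 5]), (0, [0], [4, 5]), (3, [], [1])]),
  (2, 1, 1, [(0, [1], [0, 3]), (0, [1], [1, 5]), (0, [0], [4, 5]), (3, [], [2])]),
  (2, 1, 1, [(0, [1], [0, 3]), (0, [1], [2, 5]), (0, [0], [4, 5]), (3, [], [1])]),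
  (-2, 1, 1, [(0, [1], [1, 5]), (0, [1], [2, 3]), (0, [0], [0, 5]), (3, [], [4])]),
  (2, 1, 1, [(0, [1], [1, 5]), (0, [1], [2, 3]), (0, [0], [4, 5]), (3, [], [0])]),
  (-2, 1, 1, [(0, [1], [1, 5]), (0, [1], [2, 4]), (0, [0], [0, 5]), (3, [], [3])]),
  (-2, 1, 1, [(0, [1], [1, 5]), (0, [1], [3, 4]), (0, [0], [0, 5]), (3, [], [2])]),
  (-2, 1, 1, [(0, [1], [1, 2]), (0, [1], [3, 5]), (0, [0], [0, 5]), (3, [], [4])]),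
  (2, 1, 1, [(0, [1], [1, 2]), (0, [1], [3, 5]), (0, [0], [4, 5]), (3, [], [0])]),
  (-2, 1, 1, [(0, [1], [1, 2]), (0, [1], [4, 5]), (0, [0], [0, 5]), (3, [], [3])])]

def p7_11_1 : Cov := [(-2, 1, 1, [(0, [1], [1, 3]), (0, [1], [2, 5]), (0, [0], [0, 5]), (3, [], [4])]),
  (2, 1, 1, [(0, [1], [1, 3]), (0, [1], [2, 5]), (0, [0], [4, 5]), (3, [], [0])]),
  (-2, 1, 1, [(0, [1], [1, 3]), (0, [1], [4, 5]), (0, [0], [0, 5]), (3, [], [2])]),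
  (-2, 1, 1, [(0, [1], [1, 4]), (0, [1], [2, 5]), (0, [0], [0, 5]), (3, [], [3])]),
  (-2, 1, 1, [(0, [1], [1, 4]), (0, [1], [3, 5]), (0, [0], [0, 5]), (3, [], [2])]),
  (-2, 1, 1, [(0, [1], [2, 5]), (0, [1], [3, 4]), (0, [0], [0, 5]), (3, [], [1])]),
  (-2, 1, 1, [(0, [1], [2, 3]), (0, [1], [4, 5]), (0, [0], [0, 5]), (3, [], [1])]),
  (-2, 1, 1, [(0, [1], [2, 4]), (0, [1], [3, 5]), (0, [0], [0, 5]), (3, [], [1])])]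

def c7_11 : Cov := p7_11_0 ++ (p7_11_1)

def p7_12_0 : Cov := [(-2, 1, 1, [(0, [1], [0, 5]), (0, [1], [1, 2]), (0, [0], [3, 5]), (3, [], [4])]),
  (-2, 1, 1, [(0, [1], [0, 5]), (0, [1], [1, 2]), (0, [0], [4, 5]), (3, [], [3])]),
  (-2, 1, 1, [(0, [1], [0, 5]), (0, [1], [1, 3]), (0, [0], [2, 5]), (3, [], [4])]),
  (-2, 1, 1, [(0, [1], [0, 5]), (0, [1], [1, 3]), (0, [0], [4, 5]), (3, [], [2])]),
  (-2, 1, 1, [(0, [1], [0, 5]), (0, [1], [1, 4]), (0, [0], [2, 5]), (3, [], [3])]),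
  (-2, 1, 1, [(0, [1], [0, 5]), (0, [1], [1, 4]), (0, [0], [3, 5]), (3, [], [2])]),
  (-2, 1, 1, [(0, [1], [0, 5]), (0, [1], [2, 3]), (0, [0], [1, 5]), (3, [], [4])]),
  (-2, 1, 1, [(0, [1], [0, 5]), (0, [1], [2, 3]), (0, [0], [4, 5]), (3, [], [1])]),
  (-2, 1, 1, [(0, [1], [0, 5]), (0, [1], [2, 4]), (0, [0], [1, 5]), (3, [], [3])]),
  (-2, 1, 1, [(0, [1], [0, 5]), (0, [1], [2, 4]), (0, [0], [3, 5]), (3, [], [1])]),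
  (-2, 1, 1, [(0, [1], [0, 5]), (0, [1], [3, 4]), (0, [0], [1, 5]), (3, [], [2])]),
  (-2, 1, 1, [(0, [1], [0, 5]), (0, [1], [3, 4]), (0, [0], [2, 5]), (3, [], [1])]),
  (2, 1, 1, [(0, [1], [0, 1]), (0, [1], [4, 5]), (0, [0], [2, 5]), (3, [], [3])]),
  (2, 1, 1, [(0, [1], [0, 1]), (0, [1], [4, 5]), (0, [0], [3, 5]), (3, [], [2])]),
  (2, 1, 1, [(0, [1], [0, 2]), (0, [1], [4, 5]), (0, [0], [1, 5]), (3, [], [3])]),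
  (2, 1, 1, [(0, [1], [0, 2]), (0, [1], [4, 5]), (0, [0], [3, 5]), (3, [], [1])])]

def p7_12_1 : Cov := [(2, 1, 1, [(0, [1], [0, 3]), (0, [1], [4, 5]), (0, [0], [1, 5]), (3, [], [2])]),
  (2, 1, 1, [(0, [1], [0, 3]), (0, [1], [4, 5]), (0, [0], [2, 5]), (3, [], [1])]),
  (2, 1, 1, [(0, [1], [1, 2]), (0, [1], [4, 5]), (0, [0], [0, 5]), (3, [], [3])]),
  (2, 1, 1, [(0, [1], [1, 2]), (0, [1], [4, 5]), (0, [0], [3, 5]), (3, [], [0])]),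
  (2, 1, 1, [(0, [1], [1, 3]), (0, [1], [4, 5]), (0, [0], [0, 5]), (3, [], [2])]),
  (2, 1, 1, [(0, [1], [1, 3]), (0, [1], [4, 5]), (0, [0], [2, 5]), (3, [], [0])]),
  (2, 1, 1, [(0, [1], [2, 3]), (0, [1], [4, 5]), (0, [0], [0, 5]), (3, [], [1])]),
  (2, 1, 1, [(0, [1], [2, 3]), (0, [1], [4, 5]), (0, [0], [1, 5]), (3, [], [0])])]

def c7_12 : Cov := p7_12_0 ++ (p7_12_1)

def p7_13_0 : Cov := [(2, 0, 1, [(0, [0], [0, 5]), (1, [], [1, 5]), (1, [], [2, 3]), (3, [], [4])]),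
  (2, 0, 1, [(0, [0], [0, 5]), (1, [], [1, 2]), (1, [], [3, 5]), (3, [], [4])]),
  (2, 0, 1, [(0, [0], [0, 5]), (1, [], [1, 3]), (1, [], [2, 5]), (3, [], [4])]),
  (2, 0, 1, [(0, [0], [1, 5]), (1, [], [0, 5]), (1, [], [2, 3]), (3, [], [4])]),
  (2, 0, 1, [(0, [0], [1, 5]), (1, [], [0, 2]), (1, [], [3, 5]), (3, [], [4])]),
  (2, 0, 1, [(0, [0], [1, 5]), (1, [], [0, 3]), (1, [], [2, 5]), (3, [], [4])]),
  (-2, 0, 1, [(0, [0], [1, 5]), (1, [], [2, 5]), (1, [], [3, 4]), (3, [], [0])]),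
  (-2, 0, 1, [(0, [0], [1, 5]), (1, [], [2, 3]), (1, [], [4, 5]), (3, [], [0])]),
  (-2, 0, 1, [(0, [0], [1, 5]), (1, [], [2, 4]), (1, [], [3, 5]), (3, [], [0])]),
  (2, 0, 1, [(0, [0], [2, 5]), (1, [], [0, 5]), (1, [], [1, 3]), (3, [], [4])]),
  (2, 0, 1, [(0, [0], [2, 5]), (1, [], [0, 1]), (1, [], [3, 5]), (3, [], [4])]),
  (2, 0, 1, [(0, [0], [2, 5]), (1, [], [0, 3]), (1, [], [1, 5]), (3, [], [4])]),
  (-2, 0, 1, [(0, [0], [2, 5]), (1, [], [1, 5]), (1, [], [3, 4]), (3, [], [0])]),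
  (-2, 0, 1, [(0, [0], [2, 5]), (1, [], [1, 3]), (1, [], [4, 5]), (3, [], [0])]),
  (-2, 0, 1, [(0, [0], [2, 5]), (1, [], [1, 4]), (1, [], [3, 5]), (3, [], [0])]),
  (2, 0, 1, [(0, [0], [3, 5]), (1, [], [0, 5]), (1, [], [1, 2]), (3, [], [4])])]

def p7_13_1 : Cov := [(2, 0, 1, [(0, [0], [3, 5]), (1, [], [0, 1]), (1, [], [2, 5]), (3, [], [4])]),
  (2, 0, 1, [(0, [0], [3, 5]), (1, [], [0, 2]), (1, [], [1, 5]), (3, [], [4])]),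
  (-2, 0, 1, [(0, [0], [3, 5]), (1, [], [1, 5]), (1, [], [2, 4]), (3, [], [0])]),
  (-2, 0, 1, [(0, [0], [3, 5]), (1, [], [1, 2]), (1, [], [4, 5]), (3, [], [0])]),
  (-2, 0, 1, [(0, [0], [3, 5]), (1, [], [1, 4]), (1, [], [2, 5]), (3, [], [0])]),
  (-2, 0, 1, [(0, [0], [4, 5]), (1, [], [1, 5]), (1, [], [2, 3]), (3, [], [0])]),
  (-2, 0, 1, [(0, [0], [4, 5]), (1, [], [1, 2]), (1, [], [3, 5]), (3, [], [0])]),
  (-2, 0, 1, [(0, [0], [4, 5]), (1, [], [1, 3]), (1, [], [2, 5]), (3, [], [0])])]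

def c7_13 : Cov := p7_13_0 ++ (p7_13_1)

def p7_14_0 : Cov := [(2, 0, 1, [(0, [0], [0, 5]), (1, [], [1, 2]), (1, [], [4, 5]), (3, [], [3])]),
  (2, 0, 1, [(0, [0], [0, 5]), (1, [], [1, 3]), (1, [], [4, 5]), (3, [], [2])]),
  (2, 0, 1, [(0, [0], [0, 5]), (1, [], [2, 3]), (1, [], [4, 5]), (3, [], [1])]),
  (-2, 0, 1, [(0, [0], [1, 5]), (1, [], [0, 5]), (1, [], [2, 3]), (3, [], [4])]),
  (-2, 0, 1, [(0, [0], [1, 5]), (1, [], [0, 5]), (1, [], [2, 4]), (3, [], [3])]),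
  (-2, 0, 1, [(0, [0], [1, 5]), (1, [], [0, 5]), (1, [], [3, 4]), (3, [], [2])]),
  (2, 0, 1, [(0, [0], [1, 5]), (1, [], [0, 2]), (1, [], [4, 5]), (3, [], [3])]),
  (2, 0, 1, [(0, [0], [1, 5]), (1, [], [0, 3]), (1, [], [4, 5]), (3, [], [2])]),
  (2, 0, 1, [(0, [0], [1, 5]), (1, [], [2, 3]), (1, [], [4, 5]), (3, [], [0])]),
  (-2, 0, 1, [(0, [0], [2, 5]), (1, [], [0, 5]), (1, [], [1, 3]), (3, [], [4])]),
  (-2, 0, 1, [(0, [0], [2, 5]), (1, [], [0, 5]), (1, [], [1, 4]), (3, [], [3])]),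
  (-2, 0, 1, [(0, [0], [2, 5]), (1, [], [0, 5]), (1, [], [3, 4]), (3, [], [1])]),
  (2, 0, 1, [(0, [0], [2, 5]), (1, [], [0, 1]), (1, [], [4, 5]), (3, [], [3])]),
  (2, 0, 1, [(0, [0], [2, 5]), (1, [], [0, 3]), (1, [], [4, 5]), (3, [], [1])]),
  (2, 0, 1, [(0, [0], [2, 5]), (1, [], [1, 3]), (1, [], [4, 5]), (3, [], [0])]),
  (-2, 0, 1, [(0, [0], [3, 5]), (1, [], [0, 5]), (1, [], [1, 2]), (3, [], [4])])]

def p7_14_1 : Cov := [(-2, 0, 1, [(0, [0], [3, 5]), (1, [], [0, 5]), (1, [], [1, 4]), (3, [], [2])]),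
  (-2, 0, 1, [(0, [0], [3, 5]), (1, [], [0, 5]), (1, [], [2, 4]), (3, [], [1])]),
  (2, 0, 1, [(0, [0], [3, 5]), (1, [], [0, 1]), (1, [], [4, 5]), (3, [], [2])]),
  (2, 0, 1, [(0, [0], [3, 5]), (1, [], [0, 2]), (1, [], [4, 5]), (3, [], [1])]),
  (2, 0, 1, [(0, [0], [3, 5]), (1, [], [1, 2]), (1, [], [4, 5]), (3, [], [0])]),
  (-2, 0, 1, [(0, [0], [4, 5]), (1, [], [0, 5]), (1, [], [1, 2]), (3, [], [3])]),
  (-2, 0, 1, [(0, [0], [4, 5]), (1, [], [0, 5]), (1, [], [1, 3]), (3, [], [2])]),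
  (-2, 0, 1, [(0, [0], [4, 5]), (1, [], [0, 5]), (1, [], [2, 3]), (3, [], [1])])]

def c7_14 : Cov := p7_14_0 ++ (p7_14_1)

def p7_15_0 : Cov := [(-2, 0, 1, [(0, [0], [0, 5]), (1, [], [1, 5]), (1, [], [2, 3]), (3, [], [4])]),
  (-2, 0, 1, [(0, [0], [0, 5]), (1, [], [1, 5]), (1, [], [2, 4]), (3, [], [3])]),
  (-2, 0, 1, [(0, [0], [0, 5]), (1, [], [1, 5]), (1, [], [3, 4]), (3, [], [2])]),
  (-2, 0, 1, [(0, [0], [0, 5]), (1, [], [1, 2]), (1, [], [3, 5]), (3, [], [4])]),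
  (-2, 0, 1, [(0, [0], [0, 5]), (1, [], [1, 2]), (1, [], [4, 5]), (3, [], [3])]),
  (-2, 0, 1, [(0, [0], [0, 5]), (1, [], [1, 3]), (1, [], [2, 5]), (3, [], [4])]),
  (-2, 0, 1, [(0, [0], [0, 5]), (1, [], [1, 3]), (1, [], [4, 5]), (3, [], [2])]),
  (-2, 0, 1, [(0, [0], [0, 5]), (1, [], [1, 4]), (1, [], [2, 5]), (3, [], [3])]),
  (-2, 0, 1, [(0, [0], [0, 5]), (1, [], [1, 4]), (1, [], [3, 5]), (3, [], [2])]),
  (-2, 0, 1, [(0, [0], [0, 5]), (1, [], [2, 5]), (1, [], [3, 4]), (3, [], [1])]),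
  (-2, 0, 1, [(0, [0], [0, 5]), (1, [], [2, 3]), (1, [], [4, 5]), (3, [], [1])]),
  (-2, 0, 1, [(0, [0], [0, 5]), (1, [], [2, 4]), (1, [], [3, 5]), (3, [], [1])]),
  (2, 0, 1, [(0, [0], [4, 5]), (1, [], [0, 5]), (1, [], [1, 2]), (3, [], [3])]),
  (2, 0, 1, [(0, [0], [4, 5]), (1, [], [0, 5]), (1, [], [1, 3]), (3, [], [2])]),
  (2, 0, 1, [(0, [0], [4, 5]), (1, [], [0, 5]), (1, [], [2, 3]), (3, [], [1])]),
  (2, 0, 1, [(0, [0], [4, 5]), (1, [], [0, 1]), (1, [], [2, 5]), (3, [], [3])])]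

def p7_15_1 : Cov := [(2, 0, 1, [(0, [0], [4, 5]), (1, [], [0, 1]), (1, [], [3, 5]), (3, [], [2])]),
  (2, 0, 1, [(0, [0], [4, 5]), (1, [], [0, 2]), (1, [], [1, 5]), (3, [], [3])]),
  (2, 0, 1, [(0, [0], [4, 5]), (1, [], [0, 2]), (1, [], [3, 5]), (3, [], [1])]),
  (2, 0, 1, [(0, [0], [4, 5]), (1, [], [0, 3]), (1, [], [1, 5]), (3, [], [2])]),
  (2, 0, 1, [(0, [0], [4, 5]), (1, [], [0, 3]), (1, [], [2, 5]), (3, [], [1])]),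
  (2, 0, 1, [(0, [0], [4, 5]), (1, [], [1, 5]), (1, [], [2, 3]), (3, [], [0])]),
  (2, 0, 1, [(0, [0], [4, 5]), (1, [], [1, 2]), (1, [], [3, 5]), (3, [], [0])]),
  (2, 0, 1, [(0, [0], [4, 5]), (1, [], [1, 3]), (1, [], [2, 5]), (3, [], [0])])]

def c7_15 : Cov := p7_15_0 ++ (p7_15_1)

end YMA
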