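import Pool.Agent.YM.YMA.Keys

set_option linter.unusedVariables false
set_option maxRecDepth 100000

open YMEng

namespace YMA

def p9_0_0 : Cov := [(2, 1, 1, [(0, [1], [0, 5]), (0, [1], [1, 5]), (0, [0], [2, 3]), (3, [], [4])]),
  (-2, 1, 1, [(0, [1], [0, 5]), (0, [1], [1, 5]), (0, [0], [2, 4]), (3, [], [3])]),
  (2, 1, 1, [(0, [1], [0, 5]), (0, [1], [2, 5]), (0, [0], [1, 3]), (3, [], [4])]),
  (-2, 1, 1, [(0, [1], [0, 5]), (0, [1], [2, 5]), (0, [0], [1, 4]), (3, [], [3])]),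
  (-2, 1, 1, [(0, [1], [1, 5]), (0, [1], [3, 5]), (0, [0], [0, 2]), (3, [], [4])]),
  (2, 1, 1, [(0, [1], [1, 5]), (0, [1], [3, 5]), (0, [0], [2, 4]), (3, [], [0])]),
  (2, 1, 1, [(0, [1], [1, 5]), (0, [1], [4, 5]), (0, [0], [0, 2]), (3, [], [3])]),
  (-2, 1, 1, [(0, [1], [1, 5]), (0, [1], [4, 5]), (0, [0], [2, 3]), (3, [], [0])]),
  (-2, 1, 1, [(0, [1], [2, 5]), (0, [1], [3, 5]), (0, [0], [0, 1]), (3, [], [4])]),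
  (2, 1, 1, [(0, [1], [2, 5]), (0, [1], [3, 5]), (0, [0], [1, 4]), (3, [], [0])]),
  (2, 1, 1, [(0, [1], [2, 5]), (0, [1], [4, 5]), (0, [0], [0, 1]), (3, [], [3])]),
  (-2, 1, 1, [(0, [1], [2, 5]), (0, [1], [4, 5]), (0, [0], [1, 3]), (3, [], [0])])]

def c9_0 : Cov := p9_0_0

def p9_1_0 : Cov := [(1, 1, 1, [(0, [1], [0, 5]), (0, [1], [1, 3]), (0, [0], [2, 4]), (3, [], [5])]),
  (-1, 1, 1, [(0, [1], [0, 5]), (0, [1], [1, 4]), (0, [0], [2, 3]), (3, [], [5])]),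
  (1, 1, 1, [(0, [1], [0, 5]), (0, [1], [2, 3]), (0, [0], [1, 4]), (3, [], [5])]),
  (-1, 1, 1, [(0, [1], [0, 5]), (0, [1], [2, 4]), (0, [0], [1, 3]), (3, [], [5])]),
  (-1, 1, 1, [(0, [1], [0, 1]), (0, [1], [3, 5]), (0, [0], [2, 4]), (3, [], [5])]),
  (1, 1, 1, [(0, [1], [0, 1]), (0, [1], [4, 5]), (0, [0], [2, 3]), (3, [], [5])]),
  (-1, 1, 1, [(0, [1], [0, 2]), (0, [1], [3, 5]), (0, [0], [1, 4]), (3, [], [5])]),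
  (1, 1, 1, [(0, [1], [0, 2]), (0, [1], [4, 5]), (0, [0], [1, 3]), (3, [], [5])]),
  (-1, 1, 1, [(0, [1], [1, 3]), (0, [1], [4, 5]), (0, [0], [0, 2]), (3, [], [5])]),
  (1, 1, 1, [(0, [1], [1, 4]), (0, [1], [3, 5]), (0, [0], [0, 2]), (3, [], [5])]),
  (-1, 1, 1, [(0, [1], [2, 3]), (0, [1], [4, 5]), (0, [0], [0, 1]), (3, [], [5])]),
  (1, 1, 1, [(0, [1], [2, 4]), (0, [1], [3, 5]), (0, [0], [0, 1]), (3, [], [5])])]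

def c9_1 : Cov := p9_1_0

def p9_2_0 : Cov := [(2, 0, 1, [(0, [0], [0, 1]), (1, [], [2, 3]), (1, [], [4, 5]), (3, [], [5])]),
  (-2, 0, 1, [(0, [0], [0, 1]), (1, [], [2, 4]), (1, [], [3, 5]), (3, [], [5])]),
  (2, 0, 1, [(0, [0], [0, 2]), (1, [], [1, 3]), (1, [], [4, 5]), (3, [], [5])]),
  (-2, 0, 1, [(0, [0], [0, 2]), (1, [], [1, 4]), (1, [], [3, 5]), (3, [], [5])]),
  (2, 0, 1, [(0, [0], [1, 3]), (1, [], [0, 5]), (1, [], [2, 4]), (3, [], [5])]),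
  (-2, 0, 1, [(0, [0], [1, 3]), (1, [], [0, 2]), (1, [], [4, 5]), (3, [], [5])]),
  (-2, 0, 1, [(0, [0], [1, 4]), (1, [], [0, 5]), (1, [], [2, 3]), (3, [], [5])]),
  (2, 0, 1, [(0, [0], [1, 4]), (1, [], [0, 2]), (1, [], [3, 5]), (3, [], [5])]),
  (2, 0, 1, [(0, [0], [2, 3]), (1, [], [0, 5]), (1, [], [1, 4]), (3, [], [5])]),
  (-2, 0, 1, [(0, [0], [2, 3]), (1, [], [0, 1]), (1, [], [4, 5]), (3, [], [5])]),
  (-2, 0, 1, [(0, [0], [2, 4]), (1, [], [0, 5]), (1, [], [1, 3]), (3, [], [5])]),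
  (2, 0, 1, [(0, [0], [2, 4]), (1, [], [0, 1]), (1, [], [3, 5]), (3, [], [5])])]

def c9_2 : Cov := p9_2_0

def p9_3_0 : Cov := [(2, 0, 0, [(0, [0], [0, 1]), (1, [], [2, 3]), (3, [], [4])]),
  (-2, 0, 0, [(0, [0], [0, 1]), (1, [], [2, 4]), (3, [], [3])]),
  (2, 0, 0, [(0, [0], [0, 2]), (1, [], [1, 3]), (3, [], [4])]),
  (-2, 0, 0, [(0, [0], [0, 2]), (1, [], [1, 4]), (3, [], [3])]),
  (-2, 0, 0, [(0, [0], [1, 3]), (1, [], [0, 2]), (3, [], [4])]),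
  (2, 0, 0, [(0, [0], [1, 3]), (1, [], [2, 4]), (3, [], [0])]),
  (2, 0, 0, [(0, [0], [1, 4]), (1, [], [0, 2]), (3, [], [3])]),
  (-2, 0, 0, [(0, [0], [1, 4]), (1, [], [2, 3]), (3, [], [0])]),
  (-2, 0, 0, [(0, [0], [2, 3]), (1, [], [0, 1]), (3, [], [4])]),
  (2, 0, 0, [(0, [0], [2, 3]), (1, [], [1, 4]), (3, [], [0])]),
  (2, 0, 0, [(0, [0], [2, 4]), (1, [], [0, 1]), (3, [], [3])]),
  (-2, 0, 0, [(0, [0], [2, 4]), (1, [], [1, 3]), (3, [], [0])])]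

def c9_3 : Cov := p9_3_0

def p9_4_0 : Cov := [(2, 1, 1, [(0, [1], [0, 5]), (0, [1], [1, 2]), (0, [0], [3, 5]), (3, [], [4])]),
  (-2, 1, 1, [(0, [1], [0, 5]), (0, [1], [1, 2]), (0, [0], [4, 5]), (3, [], [3])]),
  (2, 1, 1, [(0, [1], [0, 1]), (0, [1], [2, 5]), (0, [0], [3, 5]), (3, [], [4])]),
  (-2, 1, 1, [(0, [1], [0, 1]), (0, [1], [2, 5]), (0, [0], [4, 5]), (3, [], [3])]),
  (2, 1, 1, [(0, [1], [0, 2]), (0, [1], [1, 5]), (0, [0], [3, 5]), (3, [], [4])]),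
  (-2, 1, 1, [(0, [1], [0, 2]), (0, [1], [1, 5]), (0, [0], [4, 5]), (3, [], [3])]),
  (-2, 1, 1, [(0, [1], [1, 5]), (0, [1], [2, 3]), (0, [0], [0, 5]), (3, [], [4])]),
  (2, 1, 1, [(0, [1], [1, 5]), (0, [1], [2, 3]), (0, [0], [4, 5]), (3, [], [0])]),
  (2, 1, 1, [(0, [1], [1, 5]), (0, [1], [2, 4]), (0, [0], [0, 5]), (3, [], [3])]),
  (-2, 1, 1, [(0, [1], [1, 5]), (0, [1], [2, 4]), (0, [0], [3, 5]), (3, [], [0])]),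
  (-2, 1, 1, [(0, [1], [1, 2]), (0, [1], [3, 5]), (0, [0], [0, 5]), (3, [], [4])]),
  (2, 1, 1, [(0, [1], [1, 2]), (0, [1], [3, 5]), (0, [0], [4, 5]), (3, [], [0])]),
  (2, 1, 1, [(0, [1], [1, 2]), (0, [1], [4, 5]), (0, [0], [0, 5]), (3, [], [3])]),
  (-2, 1, 1, [(0, [1], [1, 2]), (0, [1], [4, 5]), (0, [0], [3, 5]), (3, [], [0])]),
  (-2, 1, 1, [(0, [1], [1, 3]), (0, [1], [2, 5]), (0, [0], [0, 5]), (3, [], [4])]),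
  (2, 1, 1, [(0, [1], [1, 3]), (0, [1], [2, 5]), (0, [0], [4, 5]), (3, [], [0])]),
  (2, 1, 1, [(0, [1], [1, 4]), (0, [1], [2, 5]), (0, [0], [0, 5]), (3, [], [3])]),
  (-2, 1, 1, [(0, [1], [1, 4]), (0, [1], [2, 5]), (0, [0], [3, 5]), (3, [], [0])])]

def c9_4 : Cov := p9_4_0

def p9_5_0 : Cov := [(-2, 1, 1, [(0, [1], [0, 5]), (0, [1], [1, 2]), (0, [0], [3, 5]), (3, [], [4])]),
  (2, 1, 1, [(0, [1], [0, 5]), (0, [1], [1, 2]), (0, [0], [4, 5]), (3, [], [3])]),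
  (-2, 1, 1, [(0, [1], [0, 5]), (0, [1], [1, 3]), (0, [0], [2, 5]), (3, [], [4])]),
  (2, 1, 1, [(0, [1], [0, 5]), (0, [1], [1, 4]), (0, [0], [2, 5]), (3, [], [3])]),
  (-2, 1, 1, [(0, [1], [0, 5]), (0, [1], [2, 3]), (0, [0], [1, 5]), (3, [], [4])]),
  (2, 1, 1, [(0, [1], [0, 5]), (0, [1], [2, 4]), (0, [0], [1, 5]), (3, [], [3])]),
  (2, 1, 1, [(0, [1], [0, 1]), (0, [1], [3, 5]), (0, [0], [2, 5]), (3, [], [4])]),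
  (-2, 1, 1, [(0, [1], [0, 1]), (0, [1], [4, 5]), (0, [0], [2, 5]), (3, [], [3])]),
  (2, 1, 1, [(0, [1], [0, 2]), (0, [1], [3, 5]), (0, [0], [1, 5]), (3, [], [4])]),
  (-2, 1, 1, [(0, [1], [0, 2]), (0, [1], [4, 5]), (0, [0], [1, 5]), (3, [], [3])]),
  (2, 1, 1, [(0, [1], [1, 2]), (0, [1], [3, 5]), (0, [0], [0, 5]), (3, [], [4])]),
  (-2, 1, 1, [(0, [1], [1, 2]), (0, [1], [3, 5]), (0, [0], [4, 5]), (3, [], [0])]),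
  (-2, 1, 1, [(0, [1], [1, 2]), (0, [1], [4, 5]), (0, [0], [0, 5]), (3, [], [3])]),
  (2, 1, 1, [(0, [1], [1, 2]), (0, [1], [4, 5]), (0, [0], [3, 5]), (3, [], [0])]),
  (2, 1, 1, [(0, [1], [1, 3]), (0, [1], [4, 5]), (0, [0], [2, 5]), (3, [], [0])]),
  (-2, 1, 1, [(0, [1], [1, 4]), (0, [1], [3, 5]), (0, [0], [2, 5]), (3, [], [0])]),
  (2, 1, 1, [(0, [1], [2, 3]), (0, [1], [4, 5]), (0, [0], [1, 5]), (3, [], [0])]),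
  (-2, 1, 1, [(0, [1], [2, 4]), (0, [1], [3, 5]), (0, [0], [1, 5]), (3, [], [0])])]

def c9_5 : Cov := p9_5_0

def p9_6_0 : Cov := [(2, 1, 1, [(0, [1], [0, 5]), (0, [1], [1, 2]), (0, [0], [3, 5]), (3, [], [4])]),
  (-2, 1, 1, [(0, [1], [0, 5]), (0, [1], [1, 2]), (0, [0], [4, 5]), (3, [], [3])]),
  (-2, 1, 1, [(0, [1], [0, 5]), (0, [1], [1, 3]), (0, [0], [4, 5]), (3, [], [2])]),
  (2, 1, 1, [(0, [1], [0, 5]), (0, [1], [1, 4]), (0, [0], [3, 5]), (3, [], [2])]),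
  (-2, 1, 1, [(0, [1], [0, 5]), (0, [1], [2, 3]), (0, [0], [4, 5]), (3, [], [1])]),
  (2, 1, 1, [(0, [1], [0, 5]), (0, [1], [2, 4]), (0, [0], [3, 5]), (3, [], [1])]),
  (2, 1, 1, [(0, [1], [0, 1]), (0, [1], [3, 5]), (0, [0], [4, 5]), (3, [], [2])]),
  (-2, 1, 1, [(0, [1], [0, 1]), (0, [1], [4, 5]), (0, [0], [3, 5]), (3, [], [2])]),
  (2, 1, 1, [(0, [1], [0, 2]), (0, [1], [3, 5]), (0, [0], [4, 5]), (3, [], [1])]),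
  (-2, 1, 1, [(0, [1], [0, 2]), (0, [1], [4, 5]), (0, [0], [3, 5]), (3, [], [1])]),
  (-2, 1, 1, [(0, [1], [1, 2]), (0, [1], [3, 5]), (0, [0], [0, 5]), (3, [], [4])]),
  (2, 1, 1, [(0, [1], [1, 2]), (0, [1], [3, 5]), (0, [0], [4, 5]), (3, [], [0])]),
  (2, 1, 1, [(0, [1], [1, 2]), (0, [1], [4, 5]), (0, [0], [0, 5]), (3, [], [3])]),
  (-2, 1, 1, [(0, [1], [1, 2]), (0, [1], [4, 5]), (0, [0], [3, 5]), (3, [], [0])]),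
  (2, 1, 1, [(0, [1], [1, 3]), (0, [1], [4, 5]), (0, [0], [0, 5]), (3, [], [2])]),
  (-2, 1, 1, [(0, [1], [1, 4]), (0, [1], [3, 5]), (0, [0], [0, 5]), (3, [], [2])]),
  (2, 1, 1, [(0, [1], [2, 3]), (0, [1], [4, 5]), (0, [0], [0, 5]), (3, [], [1])]),
  (-2, 1, 1, [(0, [1], [2, 4]), (0, [1], [3, 5]), (0, [0], [0, 5]), (3, [], [1])])]

def c9_6 : Cov := p9_6_0

def p9_7_0 : Cov := [(2, 0, 1, [(0, [0], [0, 5]), (1, [], [1, 2]), (1, [], [3, 5]), (3, [], [4])]),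
  (-2, 0, 1, [(0, [0], [0, 5]), (1, [], [1, 2]), (1, [], [4, 5]), (3, [], [3])]),
  (-2, 0, 1, [(0, [0], [1, 5]), (1, [], [0, 5]), (1, [], [2, 3]), (3, [], [4])]),
  (2, 0, 1, [(0, [0], [1, 5]), (1, [], [0, 5]), (1, [], [2, 4]), (3, [], [3])]),
  (2, 0, 1, [(0, [0], [1, 5]), (1, [], [0, 2]), (1, [], [3, 5]), (3, [], [4])]),
  (-2, 0, 1, [(0, [0], [1, 5]), (1, [], [0, 2]), (1, [], [4, 5]), (3, [], [3])]),
  (2, 0, 1, [(0, [0], [1, 5]), (1, [], [2, 3]), (1, [], [4, 5]), (3, [], [0])]),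
  (-2, 0, 1, [(0, [0], [1, 5]), (1, [], [2, 4]), (1, [], [3, 5]), (3, [], [0])]),
  (-2, 0, 1, [(0, [0], [2, 5]), (1, [], [0, 5]), (1, [], [1, 3]), (3, [], [4])]),
  (2, 0, 1, [(0, [0], [2, 5]), (1, [], [0, 5]), (1, [], [1, 4]), (3, [], [3])]),
  (2, 0, 1, [(0, [0], [2, 5]), (1, [], [0, 1]), (1, [], [3, 5]), (3, [], [4])]),
  (-2, 0, 1, [(0, [0], [2, 5]), (1, [], [0, 1]), (1, [], [4, 5]), (3, [], [3])]),
  (2, 0, 1, [(0, [0], [2, 5]), (1, [], [1, 3]), (1, [], [4, 5]), (3, [], [0])]),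
  (-2, 0, 1, [(0, [0], [2, 5]), (1, [], [1, 4]), (1, [], [3, 5]), (3, [], [0])]),
  (-2, 0, 1, [(0, [0], [3, 5]), (1, [], [0, 5]), (1, [], [1, 2]), (3, [], [4])]),
  (2, 0, 1, [(0, [0], [3, 5]), (1, [], [1, 2]), (1, [], [4, 5]), (3, [], [0])]),
  (2, 0, 1, [(0, [0], [4, 5]), (1, [], [0, 5]), (1, [], [1, 2]), (3, [], [3])]),
  (-2, 0, 1, [(0, [0], [4, 5]), (1, [], [1, 2]), (1, [], [3, 5]), (3, [], [0])])]

def c9_7 : Cov := p9_7_0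

def p9_8_0 : Cov := [(-2, 0, 1, [(0, [0], [0, 5]), (1, [], [1, 5]), (1, [], [2, 3]), (3, [], [4])]),
  (2, 0, 1, [(0, [0], [0, 5]), (1, [], [1, 5]), (1, [], [2, 4]), (3, [], [3])]),
  (-2, 0, 1, [(0, [0], [0, 5]), (1, [], [1, 2]), (1, [], [3, 5]), (3, [], [4])]),
  (2, 0, 1, [(0, [0], [0, 5]), (1, [], [1, 2]), (1, [], [4, 5]), (3, [], [3])]),
  (-2, 0, 1, [(0, [0], [0, 5]), (1, [], [1, 3]), (1, [], [2, 5]), (3, [], [4])]),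
  (2, 0, 1, [(0, [0], [0, 5]), (1, [], [1, 4]), (1, [], [2, 5]), (3, [], [3])]),
  (2, 0, 1, [(0, [0], [3, 5]), (1, [], [0, 5]), (1, [], [1, 2]), (3, [], [4])]),
  (2, 0, 1, [(0, [0], [3, 5]), (1, [], [0, 1]), (1, [], [2, 5]), (3, [], [4])]),
  (2, 0, 1, [(0, [0], [3, 5]), (1, [], [0, 2]), (1, [], [1, 5]), (3, [], [4])]),
  (-2, 0, 1, [(0, [0], [3, 5]), (1, [], [1, 5]), (1, [], [2, 4]), (3, [], [0])]),
  (-2, 0, 1, [(0, [0], [3, 5]), (1, [], [1, 2]), (1, [], [4, 5]), (3, [], [0])]),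
  (-2, 0, 1, [(0, [0], [3, 5]), (1, [], [1, 4]), (1, [], [2, 5]), (3, [], [0])]),
  (-2, 0, 1, [(0, [0], [4, 5]), (1, [], [0, 5]), (1, [], [1, 2]), (3, [], [3])]),
  (-2, 0, 1, [(0, [0], [4, 5]), (1, [], [0, 1]), (1, [], [2, 5]), (3, [], [3])]),
  (-2, 0, 1, [(0, [0], [4, 5]), (1, [], [0, 2]), (1, [], [1, 5]), (3, [], [3])]),
  (2, 0, 1, [(0, [0], [4, 5]), (1, [], [1, 5]), (1, [], [2, 3]), (3, [], [0])]),
  (2, 0, 1, [(0, [0], [4, 5]), (1, [], [1, 2]), (1, [], [3, 5]), (3, [], [0])]),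
  (2, 0, 1, [(0, [0], [4, 5]), (1, [], [1, 3]), (1, [], [2, 5]), (3, [], [0])])]

def c9_8 : Cov := p9_8_0

def p9_9_0 : Cov := [(2, 0, 1, [(0, [0], [0, 5]), (1, [], [1, 2]), (1, [], [3, 5]), (3, [], [4])]),
  (-2, 0, 1, [(0, [0], [0, 5]), (1, [], [1, 2]), (1, [], [4, 5]), (3, [], [3])]),
  (-2, 0, 1, [(0, [0], [0, 5]), (1, [], [1, 3]), (1, [], [4, 5]), (3, [], [2])]),
  (2, 0, 1, [(0, [0], [0, 5]), (1, [], [1, 4]), (1, [], [3, 5]), (3, [], [2])]),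
  (-2, 0, 1, [(0, [0], [0, 5]), (1, [], [2, 3]), (1, [], [4, 5]), (3, [], [1])]),
  (2, 0, 1, [(0, [0], [0, 5]), (1, [], [2, 4]), (1, [], [3, 5]), (3, [], [1])]),
  (-2, 0, 1, [(0, [0], [3, 5]), (1, [], [0, 5]), (1, [], [1, 2]), (3, [], [4])]),
  (-2, 0, 1, [(0, [0], [3, 5]), (1, [], [0, 5]), (1, [], [1, 4]), (3, [], [2])]),
  (-2, 0, 1, [(0, [0], [3, 5]), (1, [], [0, 5]), (1, [], [2, 4]), (3, [], [1])]),
  (2, 0, 1, [(0, [0], [3, 5]), (1, [], [0, 1]), (1, [], [4, 5]), (3, [], [2])]),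
  (2, 0, 1, [(0, [0], [3, 5]), (1, [], [0, 2]), (1, [], [4, 5]), (3, [], [1])]),
  (2, 0, 1, [(0, [0], [3, 5]), (1, [], [1, 2]), (1, [], [4, 5]), (3, [], [0])]),
  (2, 0, 1, [(0, [0], [4, 5]), (1, [], [0, 5]), (1, [], [1, 2]), (3, [], [3])]),
  (2, 0, 1, [(0, [0], [4, 5]), (1, [], [0, 5]), (1, [], [1, 3]), (3, [], [2])]),
  (2, 0, 1, [(0, [0], [4, 5]), (1, [], [0, 5]), (1, [], [2, 3]), (3, [], [1])]),
  (-2, 0, 1, [(0, [0], [4, 5]), (1, [], [0, 1]), (1, [], [3, 5]), (3, [], [2])]),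
  (-2, 0, 1, [(0, [0], [4, 5]), (1, [], [0, 2]), (1, [], [3, 5]), (3, [], [1])]),
  (-2, 0, 1, [(0, [0], [4, 5]), (1, [], [1, 2]), (1, [], [3, 5]), (3, [], [0])])]

def c9_9 : Cov := p9_9_0

end YMA
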