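import Pool.Agent.YM.YMA.Keys

set_option linter.unusedVariables false
set_option maxRecDepth 100000

open YMEng

namespace YMA

def p6_0_0 : Cov := [(2, 1, 2, [(0, [1], [3, 4]), (0, [1], [3, 4]), (0, [0], [0, 1]), (3, [], [2])]),
  (-2, 1, 2, [(0, [1], [3, 4]), (0, [1], [3, 4]), (0, [0], [1, 2]), (3, [], [0])])]

def c6_0 : Cov := p6_0_0

def p6_1_0 : Cov := [(1, 1, 2, [(0, [1], [3, 4]), (0, [1], [0, 3]), (0, [0], [1, 2]), (3, [], [4])]),
  (-1, 1, 2, [(0, [1], [3, 4]), (0, [1], [2, 3]), (0, [0], [0, 1]), (3, [], [4])])]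

def c6_1 : Cov := p6_1_0

def p6_2_0 : Cov := [(2, 1, 2, [(0, [1], [3, 4]), (0, [1], [0, 1]), (0, [0], [2, 3]), (3, [], [4])]),
  (-2, 1, 2, [(0, [1], [3, 4]), (0, [1], [1, 2]), (0, [0], [0, 3]), (3, [], [4])])]

def c6_2 : Cov := p6_2_0

def p6_3_0 : Cov := [(2, 1, 2, [(0, [1], [0, 3]), (0, [1], [1, 4]), (0, [0], [3, 4]), (3, [], [2])]),
  (-2, 1, 2, [(0, [1], [1, 3]), (0, [1], [2, 4]), (0, [0], [3, 4]), (3, [], [0])])]

def c6_3 : Cov := p6_3_0

def p6_4_0 : Cov := [(2, 1, 2, [(0, [1], [0, 3]), (0, [1], [1, 3]), (0, [0], [2, 4]), (3, [], [4])]),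
  (-2, 1, 2, [(0, [1], [1, 3]), (0, [1], [2, 3]), (0, [0], [0, 4]), (3, [], [4])])]

def c6_4 : Cov := p6_4_0

def p6_5_0 : Cov := [(1, 1, 2, [(0, [1], [0, 3]), (0, [1], [1, 2]), (0, [0], [3, 4]), (3, [], [4])]),
  (-1, 1, 2, [(0, [1], [0, 1]), (0, [1], [2, 3]), (0, [0], [3, 4]), (3, [], [4])])]

def c6_5 : Cov := p6_5_0

def p6_6_0 : Cov := [(2, 0, 2, [(0, [0], [3, 4]), (1, [], [3, 4]), (1, [], [0, 1]), (3, [], [2])]),
  (-2, 0, 2, [(0, [0], [3, 4]), (1, [], [3, 4]), (1, [], [1, 2]), (3, [], [0])])]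

def c6_6 : Cov := p6_6_0

def p6_7_0 : Cov := [(2, 0, 2, [(0, [0], [3, 4]), (1, [], [0, 3]), (1, [], [1, 4]), (3, [], [2])]),
  (-2, 0, 2, [(0, [0], [3, 4]), (1, [], [1, 3]), (1, [], [2, 4]), (3, [], [0])])]

def c6_7 : Cov := p6_7_0

def p6_8_0 : Cov := [(1, 0, 2, [(0, [0], [3, 4]), (1, [], [0, 3]), (1, [], [1, 2]), (3, [], [4])]),
  (-1, 0, 2, [(0, [0], [3, 4]), (1, [], [0, 1]), (1, [], [2, 3]), (3, [], [4])])]

def c6_8 : Cov := p6_8_0

def p6_9_0 : Cov := [(1, 0, 2, [(0, [0], [0, 3]), (1, [], [3, 4]), (1, [], [1, 2]), (3, [], [4])]),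
  (-1, 0, 2, [(0, [0], [2, 3]), (1, [], [3, 4]), (1, [], [0, 1]), (3, [], [4])])]

def c6_9 : Cov := p6_9_0

def p6_10_0 : Cov := [(1, 0, 2, [(0, [0], [0, 3]), (1, [], [1, 4]), (1, [], [2, 4]), (3, [], [3])]),
  (-1, 0, 2, [(0, [0], [2, 3]), (1, [], [0, 4]), (1, [], [1, 4]), (3, [], [3])])]

def c6_10 : Cov := p6_10_0

def p6_11_0 : Cov := [(1, 0, 1, [(0, [0], [0, 3]), (1, [], [1, 2]), (3, [], [3])]),
  (-1, 0, 1, [(0, [0], [2, 3]), (1, [], [0, 1]), (3, [], [3])])]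

def c6_11 : Cov := p6_11_0

def p6_12_0 : Cov := [(2, 0, 2, [(0, [0], [0, 1]), (1, [], [3, 4]), (1, [], [3, 4]), (3, [], [2])]),
  (-2, 0, 2, [(0, [0], [1, 2]), (1, [], [3, 4]), (1, [], [3, 4]), (3, [], [0])])]

def c6_12 : Cov := p6_12_0

def p6_13_0 : Cov := [(2, 0, 2, [(0, [0], [0, 1]), (1, [], [3, 4]), (1, [], [2, 3]), (3, [], [4])]),
  (-2, 0, 2, [(0, [0], [1, 2]), (1, [], [3, 4]), (1, [], [0, 3]), (3, [], [4])])]

def c6_13 : Cov := p6_13_0

def p6_14_0 : Cov := [(2, 0, 1, [(0, [0], [0, 1]), (1, [], [2, 3]), (3, [], [3])]),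
  (-2, 0, 1, [(0, [0], [1, 2]), (1, [], [0, 3]), (3, [], [3])])]

def c6_14 : Cov := p6_14_0

def p6_15_0 : Cov := [(2, 0, 0, [(0, [0], [0, 1]), (3, [], [2])]),
  (-2, 0, 0, [(0, [0], [1, 2]), (3, [], [0])])]

def c6_15 : Cov := p6_15_0

def p6_16_0 : Cov := [(2, 0, 1, [(2, [0], [0, 1, 3]), (1, [], [2, 3])]),
  (-2, 0, 1, [(2, [0], [1, 2, 3]), (1, [], [0, 3])])]

def c6_16 : Cov := p6_16_0

def p6_17_0 : Cov := [(1, 1, 2, [(0, [1], [3, 4]), (0, [1], [0, 3]), (0, [0], [1, 4]), (3, [], [2])]),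
  (1, 1, 2, [(0, [1], [3, 4]), (0, [1], [1, 3]), (0, [0], [0, 4]), (3, [], [2])]),
  (-1, 1, 2, [(0, [1], [3, 4]), (0, [1], [1, 3]), (0, [0], [2, 4]), (3, [], [0])]),
  (-1, 1, 2, [(0, [1], [3, 4]), (0, [1], [2, 3]), (0, [0], [1, 4]), (3, [], [0])])]

def c6_17 : Cov := p6_17_0

def p6_18_0 : Cov := [(1, 1, 2, [(0, [1], [3, 4]), (0, [1], [0, 3]), (0, [0], [2, 4]), (3, [], [1])]),
  (-1, 1, 2, [(0, [1], [3, 4]), (0, [1], [1, 3]), (0, [0], [0, 4]), (3, [], [2])]),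
  (1, 1, 2, [(0, [1], [3, 4]), (0, [1], [1, 3]), (0, [0], [2, 4]), (3, [], [0])]),
  (-1, 1, 2, [(0, [1], [3, 4]), (0, [1], [2, 3]), (0, [0], [0, 4]), (3, [], [1])])]

def c6_18 : Cov := p6_18_0

def p6_19_0 : Cov := [(1, 1, 2, [(0, [1], [0, 3]), (0, [1], [1, 4]), (0, [0], [2, 3]), (3, [], [4])]),
  (1, 1, 2, [(0, [1], [0, 3]), (0, [1], [1, 4]), (0, [0], [2, 4]), (3, [], [3])]),
  (-1, 1, 2, [(0, [1], [1, 3]), (0, [1], [2, 4]), (0, [0], [0, 3]), (3, [], [4])]),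
  (-1, 1, 2, [(0, [1], [1, 3]), (0, [1], [2, 4]), (0, [0], [0, 4]), (3, [], [3])])]

def c6_19 : Cov := p6_19_0

def p6_20_0 : Cov := [(-1, 1, 2, [(0, [1], [0, 3]), (0, [1], [1, 4]), (0, [0], [2, 4]), (3, [], [3])]),
  (1, 1, 2, [(0, [1], [0, 3]), (0, [1], [2, 4]), (0, [0], [1, 3]), (3, [], [4])]),
  (-1, 1, 2, [(0, [1], [0, 3]), (0, [1], [2, 4]), (0, [0], [1, 4]), (3, [], [3])]),
  (1, 1, 2, [(0, [1], [1, 3]), (0, [1], [2, 4]), (0, [0], [0, 3]), (3, [], [4])])]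

def c6_20 : Cov := p6_20_0

def p6_21_0 : Cov := [(1, 0, 2, [(0, [0], [0, 3]), (1, [], [3, 4]), (1, [], [1, 4]), (3, [], [2])]),
  (1, 0, 2, [(0, [0], [1, 3]), (1, [], [3, 4]), (1, [], [0, 4]), (3, [], [2])]),
  (-1, 0, 2, [(0, [0], [1, 3]), (1, [], [3, 4]), (1, [], [2, 4]), (3, [], [0])]),
  (-1, 0, 2, [(0, [0], [2, 3]), (1, [], [3, 4]), (1, [], [1, 4]), (3, [], [0])])]

def c6_21 : Cov := p6_21_0

def p6_22_0 : Cov := [(1, 0, 2, [(0, [0], [0, 3]), (1, [], [3, 4]), (1, [], [2, 4]), (3, [], [1])]),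
  (-1, 0, 2, [(0, [0], [1, 3]), (1, [], [3, 4]), (1, [], [0, 4]), (3, [], [2])]),
  (1, 0, 2, [(0, [0], [1, 3]), (1, [], [3, 4]), (1, [], [2, 4]), (3, [], [0])]),
  (-1, 0, 2, [(0, [0], [2, 3]), (1, [], [3, 4]), (1, [], [0, 4]), (3, [], [1])])]

def c6_22 : Cov := p6_22_0

def p6_23_0 : Cov := [(1, 0, 2, [(0, [0], [0, 3]), (1, [], [1, 3]), (1, [], [2, 4]), (3, [], [4])]),
  (1, 0, 2, [(0, [0], [1, 3]), (1, [], [0, 3]), (1, [], [2, 4]), (3, [], [4])]),
  (-1, 0, 2, [(0, [0], [1, 3]), (1, [], [0, 4]), (1, [], [2, 3]), (3, [], [4])]),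
  (-1, 0, 2, [(0, [0], [2, 3]), (1, [], [0, 4]), (1, [], [1, 3]), (3, [], [4])])]

def c6_23 : Cov := p6_23_0

def p6_24_0 : Cov := [(1, 0, 2, [(0, [0], [0, 3]), (1, [], [1, 4]), (1, [], [2, 3]), (3, [], [4])]),
  (-1, 0, 2, [(0, [0], [1, 3]), (1, [], [0, 3]), (1, [], [2, 4]), (3, [], [4])]),
  (1, 0, 2, [(0, [0], [1, 3]), (1, [], [0, 4]), (1, [], [2, 3]), (3, [], [4])]),
  (-1, 0, 2, [(0, [0], [2, 3]), (1, [], [0, 3]), (1, [], [1, 4]), (3, [], [4])])]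

def c6_24 : Cov := p6_24_0

def p6_25_0 : Cov := [(1, 0, 1, [(0, [0], [0, 3]), (1, [], [1, 3]), (3, [], [2])]),
  (1, 0, 1, [(0, [0], [1, 3]), (1, [], [0, 3]), (3, [], [2])]),
  (-1, 0, 1, [(0, [0], [1, 3]), (1, [], [2, 3]), (3, [], [0])]),
  (-1, 0, 1, [(0, [0], [2, 3]), (1, [], [1, 3]), (3, [], [0])])]

def c6_25 : Cov := p6_25_0

def p6_26_0 : Cov := [(1, 0, 1, [(0, [0], [0, 3]), (1, [], [2, 3]), (3, [], [1])]),
  (-1, 0, 1, [(0, [0], [1, 3]), (1, [], [0, 3]), (3, [], [2])]),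
  (1, 0, 1, [(0, [0], [1, 3]), (1, [], [2, 3]), (3, [], [0])]),
  (-1, 0, 1, [(0, [0], [2, 3]), (1, [], [0, 3]), (3, [], [1])])]

def c6_26 : Cov := p6_26_0

theorem t6_0_0_0 : chkF keys 1 3 p6_0_0 c6_0
  [(278, 513, 513, 105972786, 106041411), (62, 258, 33, 52495941, 33645891), (62, 258, 33, 52495686, 2188611), (278, 513, 513, 105972516, 105914691)]
  [(62, -8), (278, 8)] = true := by
  decide +kernel

theorem t6_0_1_0 : chkF keys 1 3 p6_0_0 c6_1
  [(63, 513, 513, 104924451, 103088451), (62, 513, 513, 88147506, 40177731), (62, 513, 513, 88146726, 6627651), (63, 513, 513, 104923941, 100999491)]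
  [(62, -4), (63, 4)] = true := by
  decide +kernel

theorem t6_0_2_0 : chkF keys 1 3 p6_0_0 c6_2
  [(209, 258, 33, 52495956, 34628931), (208, 258, 33, 52495956, 34628931), (208, 258, 33, 52495446, 1205571), (209, 258, 33, 52495686, 2188611)]
  [(208, -8), (209, 8)] = true := by
  decide +kernel

theorem t6_0_3_0 : chkF keys 1 3 p6_0_0 c6_3
  [(279, 513, 513, 105972786, 106041411), (64, 258, 33, 70321701, 33968451), (64, 258, 33, 54592806, 2449731), (279, 513, 513, 105972516, 105914691)]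
  [(64, -8), (279, 8)] = true := by
  decide +kernel

theorem t6_0_4_0 : chkF keys 1 3 p6_0_0 c6_4
  [(204, 33, 258, 50677281, 37970181), (63, 513, 513, 88147506, 40177731), (63, 513, 513, 88146486, 6623811), (204, 33, 258, 50676246, 4416021)]
  [(63, -8), (204, 8)] = true := by
  decide +kernel

theorem t6_0_5_0 : chkF keys 1 3 p6_0_0 c6_5
  [(64, 513, 513, 104924451, 103088451), (209, 258, 33, 102826836, 101721411), (209, 258, 33, 102827331, 102827331), (64, 513, 513, 104923941, 100999491)]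
  [(64, 4), (209, -4)] = true := by
  decide +kernel

theorem t6_0_6_0 : chkF keys 1 3 p6_0_0 c6_6
  [(280, 1, 1, 105972786, 106041411), (8, 16, 16, 17122851, 37945701), (8, 16, 16, 17122086, 4399461), (280, 1, 1, 105972516, 105914691)]
  [(8, -8), (280, 8)] = true := by
  decide +kernel

theorem t6_0_7_0 : chkF keys 1 3 p6_0_0 c6_7
  [(93, 1, 1, 103875666, 101863491), (29, 1, 1, 37815126, 1386051), (29, 1, 1, 69273171, 34997571), (93, 1, 1, 103875876, 102781251)]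
  [(29, -8), (93, 8)] = true := by
  decide +kernel

theorem t6_0_8_0 : chkF keys 1 3 p6_0_0 c6_8
  [(29, 1, 1, 105972516, 105914691), (8, 16, 16, 52774416, 37971216), (8, 16, 16, 52773126, 4416801), (29, 1, 1, 105972771, 106037571)]
  [(8, -4), (29, 4)] = true := by
  decide +kernel

theorem t6_0_9_0 : chkF keys 1 3 p6_0_0 c6_9
  [(79, 1, 1, 52495956, 34628931), (8, 16, 16, 103105296, 105063696), (8, 16, 16, 103104771, 105055521), (79, 1, 1, 52495446, 1205571)]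
  [(8, -4), (79, 4)] = true := by
  decide +kernel

theorem t6_0_10_0 : chkF keys 1 3 p6_0_0 c6_10
  [(28, 1, 1, 39912261, 83961411), (95, 1, 1, 39912531, 85067331), (95, 1, 1, 39912756, 85988931), (28, 1, 1, 39912771, 86050371)]
  [(28, 4), (95, -4)] = true := by
  decide +kernel

theorem t6_0_11_0 : chkF keys 1 3 p6_0_0 c6_11
  [(46, 16, 16, 2372865, 2372865), (69, 1, 1, 5308995, 5308995), (69, 1, 1, 5309490, 5378115), (46, 16, 16, 2371845, 275745)]
  [(46, 4), (69, -4)] = true := by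
  decide +kernel

theorem t6_0_12_0 : chkF keys 1 3 p6_0_0 c6_12
  [(90, 1, 1, 52495461, 16934211), (91, 1, 1, 52495446, 1205571), (91, 1, 1, 52495956, 34628931), (90, 1, 1, 52495956, 34628931)]
  [(90, 8), (91, -8)] = true := by
  decide +kernel

theorem t6_0_13_0 : chkF keys 1 3 p6_0_0 c6_13
  [(9, 1, 1, 52495956, 34628931), (28, 1, 1, 52495956, 34628931), (28, 1, 1, 52495446, 1205571), (9, 1, 1, 52495686, 2188611)]
  [(9, 8), (28, -8)] = true := by
  decide +kernel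

theorem t6_0_14_0 : chkF keys 1 3 p6_0_0 c6_14
  [(70, 1, 1, 5308995, 5308995), (46, 16, 16, 5517840, 5517840), (46, 16, 16, 5517330, 5517330), (70, 1, 1, 5309490, 5378115)]
  [(46, -8), (70, 8)] = true := by
  decide +kernel

theorem t6_0_15_0 : chkF keys 1 3 p6_0_0 c6_15
  [(66, 1, 1, 66610, 135235), (61, 1, 1, 66595, 131395), (61, 1, 1, 66340, 8515), (66, 1, 1, 66340, 8515)]
  [(61, -8), (66, 8)] = true := by
  decide +kernel

theorem t6_0_16_0 : chkF keys 1 3 p6_0_0 c6_16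
  [(7, 16, 16, 2372880, 2372880), (281, 1, 1, 5309475, 5374275), (281, 1, 1, 5309220, 5251395), (7, 16, 16, 2371845, 275745)]
  [(7, 8), (281, -8)] = true := by
  decide +kernel

theorem t6_0_17_0 : chkF keys 1 3 p6_0_0 c6_17
  [(282, 513, 513, 105972786, 106041411), (282, 513, 513, 105972771, 106037571), (208, 513, 513, 88147491, 40173891), (63, 258, 33, 52495686, 2188611), (63, 258, 33, 52495941, 33645891), (208, 513, 513, 88146726, 6627651), (282, 513, 513, 105972516, 105914691), (282, 513, 513, 105972276, 105910851)]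
  [(63, -4), (208, -4), (282, 8)] = true := by
  decide +kernel

theorem t6_0_18_0 : chkF keys 1 3 p6_0_0 c6_18
  [(208, 513, 513, 88147506, 40177731), (282, 513, 513, 105972771, 106037571), (208, 513, 513, 88147491, 40173891), (63, 258, 33, 52495716, 18900291), (63, 258, 33, 52495461, 16934211), (208, 513, 513, 88146726, 6627651), (282, 513, 513, 105972516, 105914691), (208, 513, 513, 88146486, 6623811)]
  [(63, -4), (208, 8), (282, -4)] = true := by
  decide +kernel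

theorem t6_0_19_0 : chkF keys 1 3 p6_0_0 c6_19
  [(64, 513, 513, 88147491, 40173891), (64, 513, 513, 72418866, 39194691), (204, 288, 288, 52774416, 37971216), (208, 258, 33, 87098916, 39866691), (208, 258, 33, 102827091, 101844291), (204, 288, 288, 37044246, 4412946), (64, 513, 513, 88146486, 6623811), (64, 513, 513, 72418086, 5644611)]
  [(64, 8), (204, -4), (208, -4)] = true := by
  decide +kernel

theorem t6_0_20_0 : chkF keys 1 3 p6_0_0 c6_20
  [(64, 513, 513, 72418866, 39194691), (204, 288, 288, 52774401, 37971201), (208, 258, 33, 87098946, 39931971), (204, 288, 288, 52774416, 37971216), (204, 288, 288, 37044246, 4412946), (208, 258, 33, 102827331, 102827331), (204, 288, 288, 37044486, 4412961), (64, 513, 513, 88146486, 6623811)]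
  [(64, -4), (204, 8), (208, -4)] = true := by
  decide +kernel

theorem t6_0_21_0 : chkF keys 1 3 p6_0_0 c6_21
  [(94, 1, 1, 52495461, 16934211), (94, 1, 1, 52495446, 1205571), (28, 1, 1, 37815126, 1386051), (92, 1, 1, 36766806, 1201731), (92, 1, 1, 36767316, 34625091), (28, 1, 1, 37815891, 34932291), (94, 1, 1, 52495956, 34628931), (94, 1, 1, 52495716, 18900291)]
  [(28, -4), (92, -4), (94, 8)] = true := by
  decide +kernel

theorem t6_0_22_0 : chkF keys 1 3 p6_0_0 c6_22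
  [(28, 1, 1, 37815141, 17114691), (94, 1, 1, 52495446, 1205571), (28, 1, 1, 37815126, 1386051), (92, 1, 1, 36766821, 16930371), (92, 1, 1, 36767076, 18896451), (28, 1, 1, 37815891, 34932291), (94, 1, 1, 52495956, 34628931), (28, 1, 1, 37815651, 19203651)]
  [(28, 8), (92, -4), (94, -4)] = true := by
  decide +kernel

theorem t6_0_23_0 : chkF keys 1 3 p6_0_0 c6_23
  [(72, 16, 16, 103105296, 105063696), (72, 16, 16, 103105281, 105063681), (79, 1, 1, 55641666, 38887491), (29, 1, 1, 55641666, 38887491), (29, 1, 1, 55640646, 5333571), (79, 1, 1, 102827331, 102827331), (72, 16, 16, 103104771, 105055521), (72, 16, 16, 103104531, 105055506)]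
  [(29, -4), (72, 8), (79, -4)] = true := by
  decide +kernel

theorem t6_0_24_0 : chkF keys 1 3 p6_0_0 c6_24
  [(79, 1, 1, 55641636, 38822211), (72, 16, 16, 103105281, 105063681), (79, 1, 1, 55641666, 38887491), (29, 1, 1, 55641636, 38822211), (29, 1, 1, 55641126, 5398851), (79, 1, 1, 102827331, 102827331), (72, 16, 16, 103104771, 105055521), (79, 1, 1, 102827091, 101844291)]
  [(29, -4), (72, -4), (79, 8)] = true := by
  decide +kernel

theorem t6_0_25_0 : chkF keys 1 3 p6_0_0 c6_25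
  [(74, 16, 16, 2442000, 4400400), (74, 16, 16, 2441985, 4400385), (46, 16, 16, 275730, 2371605), (67, 1, 1, 3212325, 151875), (67, 1, 1, 3212580, 2117955), (46, 16, 16, 274965, 274965), (74, 16, 16, 2441475, 4392225), (74, 16, 16, 2441235, 4392210)]
  [(46, -4), (67, -4), (74, 8)] = true := by
  decide +kernel

theorem t6_0_26_0 : chkF keys 1 3 p6_0_0 c6_26
  [(46, 16, 16, 275745, 2371845), (74, 16, 16, 2441985, 4400385), (46, 16, 16, 275730, 2371605), (67, 1, 1, 3212370, 1200195), (67, 1, 1, 3211860, 1069635), (46, 16, 16, 274965, 274965), (74, 16, 16, 2441475, 4392225), (46, 16, 16, 274725, 274725)]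
  [(46, 8), (67, -4), (74, -4)] = true := by
  decide +kernel

theorem t6_1_1_0 : chkF keys 1 3 p6_1_0 c6_1
  [(63, 528, 528, 105193731, 105186081), (210, 513, 513, 104990001, 103093251), (210, 513, 513, 104988981, 100996131), (63, 528, 528, 105194256, 105194256)]
  [(63, 2), (210, -2)] = true := by
  decide +kernel

theorem t6_1_2_0 : chkF keys 1 3 p6_1_0 c6_2
  [(211, 258, 33, 106038321, 106042371), (36, 513, 513, 102958401, 102843651), (36, 513, 513, 102957396, 101729571), (211, 258, 33, 106037556, 105911331)]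
  [(36, -4), (211, 4)] = true := by
  decide +kernel

theorem t6_1_3_0 : chkF keys 1 3 p6_1_0 c6_3
  [(212, 258, 33, 103941441, 102847491), (283, 513, 513, 105972786, 106041411), (283, 513, 513, 105972291, 105972291), (212, 258, 33, 56754501, 83977251)]
  [(212, 4), (283, -4)] = true := by
  decide +kernel

theorem t6_1_4_0 : chkF keys 1 3 p6_1_0 c6_4
  [(210, 258, 33, 103941201, 101864451), (205, 33, 258, 50741781, 67330581), (205, 33, 258, 50742561, 69427461), (210, 258, 33, 103940436, 101733411)]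
  [(205, -4), (210, 4)] = true := by
  decide +kernel

theorem t6_1_5_0 : chkF keys 1 3 p6_1_0 c6_5
  [(36, 258, 33, 102958401, 102843651), (212, 258, 33, 88213041, 40178691), (212, 258, 33, 88211766, 6624291), (36, 258, 33, 102957396, 101729571)]
  [(36, 2), (212, -2)] = true := by
  decide +kernel

theorem t6_1_6_0 : chkF keys 1 3 p6_1_0 c6_6
  [(26, 16, 16, 17191716, 70263141), (284, 1, 1, 105972786, 106041411), (284, 1, 1, 105972291, 105972291), (26, 16, 16, 17191971, 70386021)]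
  [(26, 4), (284, -4)] = true := by
  decide +kernel

theorem t6_1_7_0 : chkF keys 1 3 p6_1_0 c6_7
  [(82, 1, 1, 103941441, 102847491), (98, 1, 1, 104924466, 103092291), (98, 1, 1, 104923731, 102040131), (82, 1, 1, 56754501, 83977251)]
  [(82, 4), (98, -4)] = true := by
  decide +kernel

theorem t6_1_8_0 : chkF keys 1 3 p6_1_0 c6_8
  [(26, 16, 16, 52842756, 70280481), (82, 1, 1, 88213041, 40178691), (82, 1, 1, 88211766, 6624291), (26, 16, 16, 52843536, 70411536)]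
  [(26, 2), (82, -2)] = true := by
  decide +kernel

theorem t6_1_9_0 : chkF keys 1 3 p6_1_0 c6_9
  [(18, 1, 1, 103089201, 104994051), (81, 1, 1, 106038321, 106042371), (81, 1, 1, 106037556, 105911331), (18, 1, 1, 103088451, 104924451)]
  [(18, 2), (81, -2)] = true := by
  decide +kernel

theorem t6_1_10_0 : chkF keys 1 3 p6_1_0 c6_10
  [(101, 1, 1, 72418146, 22421571), (80, 1, 1, 56755281, 85091331), (80, 1, 1, 56754516, 84960291), (101, 1, 1, 72417846, 5640771)]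
  [(80, -2), (101, 2)] = true := by
  decide +kernel

theorem t6_1_11_0 : chkF keys 1 3 p6_1_0 c6_11
  [(45, 1, 1, 5379120, 5379120), (47, 1, 1, 5379120, 5379120), (47, 1, 1, 5378100, 5248050), (45, 1, 1, 5378115, 5309490)]
  [(45, 2), (47, -2)] = true := by
  decide +kernel

theorem t6_1_12_0 : chkF keys 1 3 p6_1_0 c6_12
  [(17, 1, 1, 70583841, 38162691), (91, 16, 16, 52711686, 3433761), (91, 16, 16, 52712976, 36988176), (17, 1, 1, 70582566, 4608291)]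
  [(17, 4), (91, -4)] = true := by
  decide +kernel

theorem t6_1_13_0 : chkF keys 1 3 p6_1_0 c6_13
  [(99, 1, 1, 104923986, 102047811), (28, 16, 16, 52842756, 70280481), (28, 16, 16, 52843536, 70411536), (99, 1, 1, 104923731, 102040131)]
  [(28, -4), (99, 4)] = true := by
  decide +kernel

theorem t6_1_14_0 : chkF keys 1 3 p6_1_0 c6_14
  [(86, 16, 16, 3490050, 4411425), (46, 1, 1, 5379120, 5379120), (46, 1, 1, 5378115, 5309490), (86, 16, 16, 3490305, 4411905)]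
  [(46, -4), (86, 4)] = true := by
  decide +kernel

theorem t6_1_15_0 : chkF keys 1 3 p6_1_0 c6_15
  [(34, 1, 1, 197665, 147715), (61, 16, 16, 205060, 17185), (61, 16, 16, 205840, 148240), (34, 1, 1, 196900, 16675)]
  [(34, 4), (61, -4)] = true := by
  decide +kernel

theorem t6_1_16_0 : chkF keys 1 3 p6_1_0 c6_16
  [(285, 1, 1, 5309490, 5378115), (24, 16, 16, 2441475, 4392225), (24, 16, 16, 2442000, 4400400), (285, 1, 1, 5308980, 5247555)]
  [(24, -4), (285, 4)] = true := by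
  decide +kernel

theorem t6_1_17_0 : chkF keys 1 3 p6_1_0 c6_17
  [(210, 258, 33, 87164481, 39932931), (211, 513, 513, 54658641, 34956291), (286, 513, 513, 105972786, 106041411), (286, 513, 513, 105972546, 105979971), (286, 513, 513, 105972291, 105972291), (286, 513, 513, 105972276, 105910851), (211, 513, 513, 54657366, 1401891), (210, 258, 33, 87163206, 6378531)]
  [(210, 2), (211, 2), (286, -4)] = true := by
  decide +kernel

theorem t6_1_18_0 : chkF keys 1 3 p6_1_0 c6_18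
  [(210, 258, 33, 87164001, 23221251), (211, 513, 513, 54658641, 34956291), (286, 513, 513, 105972786, 106041411), (211, 513, 513, 54658401, 19227651), (211, 513, 513, 54657381, 17130531), (286, 513, 513, 105972276, 105910851), (211, 513, 513, 54657366, 1401891), (210, 258, 33, 87163236, 23090211)]
  [(210, 2), (211, -4), (286, 2)] = true := by
  decide +kernel

theorem t6_1_19_0 : chkF keys 1 3 p6_1_0 c6_19
  [(211, 258, 33, 103941201, 101864451), (205, 288, 288, 37109781, 67327506), (212, 513, 513, 87164001, 23221251), (212, 513, 513, 55707201, 38888451), (212, 513, 513, 87163206, 6378531), (212, 513, 513, 55705956, 22045731), (205, 288, 288, 52839696, 69428496), (211, 258, 33, 56754516, 84960291)]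
  [(205, 2), (211, 2), (212, -4)] = true := by
  decide +kernel

theorem t6_1_20_0 : chkF keys 1 3 p6_1_0 c6_20
  [(205, 288, 288, 37109781, 67327506), (211, 258, 33, 103941441, 102847491), (205, 288, 288, 37110021, 67327521), (212, 513, 513, 87164001, 23221251), (212, 513, 513, 55705956, 22045731), (205, 288, 288, 52839681, 69428481), (211, 258, 33, 56754501, 83977251), (205, 288, 288, 52839696, 69428496)]
  [(205, -4), (211, 2), (212, 2)] = true := by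
  decide +kernel

theorem t6_1_21_0 : chkF keys 1 3 p6_1_0 c6_21
  [(96, 1, 1, 70321746, 35016771), (80, 1, 1, 55707201, 38888451), (100, 1, 1, 70321746, 35016771), (100, 1, 1, 70321506, 19288131), (100, 1, 1, 70320741, 17191491), (100, 1, 1, 70320726, 1462851), (80, 1, 1, 55705926, 5334051), (96, 1, 1, 70320726, 1462851)]
  [(80, 2), (96, 2), (100, -4)] = true := by
  decide +kernel

theorem t6_1_22_0 : chkF keys 1 3 p6_1_0 c6_22
  [(96, 1, 1, 70321506, 19288131), (80, 1, 1, 55707201, 38888451), (100, 1, 1, 70321746, 35016771), (80, 1, 1, 55706721, 22176771), (80, 1, 1, 55705956, 22045731), (100, 1, 1, 70320726, 1462851), (80, 1, 1, 55705926, 5334051), (96, 1, 1, 70320741, 17191491)]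
  [(80, -4), (96, 2), (100, 2)] = true := by
  decide +kernel

theorem t6_1_23_0 : chkF keys 1 3 p6_1_0 c6_23
  [(97, 1, 1, 72418146, 22421571), (81, 1, 1, 103941441, 102847491), (73, 16, 16, 52838661, 67331361), (73, 16, 16, 52838421, 67331346), (73, 16, 16, 52839696, 69428496), (73, 16, 16, 52839681, 69428481), (81, 1, 1, 103940421, 100750371), (97, 1, 1, 72417891, 22413891)]
  [(73, -4), (81, 2), (97, 2)] = true := by
  decide +kernel

theorem t6_1_24_0 : chkF keys 1 3 p6_1_0 c6_24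
  [(97, 1, 1, 72418866, 39194691), (81, 1, 1, 103941441, 102847491), (73, 16, 16, 52838661, 67331361), (81, 1, 1, 103941201, 101864451), (81, 1, 1, 103940436, 101733411), (73, 16, 16, 52839681, 69428481), (81, 1, 1, 103940421, 100750371), (97, 1, 1, 72417846, 5640771)]
  [(73, 2), (81, -4), (97, 2)] = true := by
  decide +kernel

theorem t6_1_25_0 : chkF keys 1 3 p6_1_0 c6_25
  [(48, 1, 1, 3282240, 2184240), (47, 1, 1, 3282240, 2184240), (77, 16, 16, 2310405, 214305), (77, 16, 16, 2310165, 214290), (77, 16, 16, 2311440, 2311440), (77, 16, 16, 2311425, 2311425), (47, 1, 1, 3280965, 87090), (48, 1, 1, 3280965, 87090)]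
  [(47, 2), (48, 2), (77, -4)] = true := by
  decide +kernel

theorem t6_1_26_0 : chkF keys 1 3 p6_1_0 c6_26
  [(48, 1, 1, 3282000, 1201200), (47, 1, 1, 3282240, 2184240), (77, 16, 16, 2310405, 214305), (47, 1, 1, 3282000, 1201200), (47, 1, 1, 3280980, 1070130), (77, 16, 16, 2311425, 2311425), (47, 1, 1, 3280965, 87090), (48, 1, 1, 3280980, 1070130)]
  [(47, -4), (48, 2), (77, 2)] = true := by
  decide +kernel

theorem t6_2_2_0 : chkF keys 1 3 p6_2_0 c6_2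
  [(214, 528, 528, 102961236, 101729586), (287, 513, 513, 105972771, 106037571), (287, 513, 513, 105972516, 105914691), (214, 528, 528, 102962496, 102843696)]
  [(214, 8), (287, -8)] = true := by
  decide +kernel

theorem t6_2_3_0 : chkF keys 1 3 p6_2_0 c6_3
  [(288, 513, 513, 105972786, 106041411), (289, 513, 513, 105972771, 106037571), (289, 513, 513, 90243876, 90186051), (288, 513, 513, 105972516, 105914691)]
  [(288, 8), (289, -8)] = true := by
  decide +kernel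

theorem t6_2_4_0 : chkF keys 1 3 p6_2_0 c6_4
  [(205, 18, 18, 100881441, 103956741), (290, 513, 513, 105972771, 106037571), (290, 513, 513, 105972516, 105914691), (205, 18, 18, 100880916, 103825941)]
  [(205, 8), (290, -8)] = true := by
  decide +kernel

theorem t6_2_5_0 : chkF keys 1 3 p6_2_0 c6_5
  [(291, 513, 513, 105972786, 106041411), (37, 33, 258, 50733396, 68182821), (37, 33, 258, 50734401, 69296901), (291, 513, 513, 105972276, 105910851)]
  [(37, -4), (291, 4)] = true := by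
  decide +kernel

theorem t6_2_6_0 : chkF keys 1 3 p6_2_0 c6_6
  [(88, 1, 1, 88286736, 40190736), (192, 1, 1, 88147491, 40173891), (192, 1, 1, 88146726, 6627651), (88, 1, 1, 88285446, 6636321)]
  [(88, 8), (192, -8)] = true := by
  decide +kernel

theorem t6_2_7_0 : chkF keys 1 3 p6_2_0 c6_7
  [(150, 1, 1, 73606416, 86393616), (105, 1, 1, 105002241, 103101441), (105, 1, 1, 73543941, 84292641), (150, 1, 1, 73605381, 84296481)]
  [(105, -8), (150, 8)] = true := by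
  decide +kernel

theorem t6_2_8_0 : chkF keys 1 3 p6_2_0 c6_8
  [(117, 16, 16, 17117796, 20984421), (27, 1, 1, 106112016, 106054416), (27, 1, 1, 106111236, 105923361), (117, 16, 16, 17118306, 21114981)]
  [(27, -4), (117, 4)] = true := by
  decide +kernel

theorem t6_2_9_0 : chkF keys 1 3 p6_2_0 c6_9
  [(139, 16, 16, 68559696, 68559696), (84, 16, 16, 51781716, 68182866), (84, 16, 16, 51782976, 69296976), (139, 16, 16, 68558931, 68551506)]
  [(84, -4), (139, 4)] = true := by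
  decide +kernel

theorem t6_2_10_0 : chkF keys 1 3 p6_2_0 c6_10
  [(149, 1, 1, 72558096, 39207696), (101, 16, 16, 68493366, 4592466), (101, 16, 16, 68494176, 21373776), (149, 1, 1, 72556566, 5653266)]
  [(101, -4), (149, 4)] = true := by
  decide +kernel

theorem t6_2_11_0 : chkF keys 1 3 p6_2_0 c6_11
  [(54, 1, 1, 5308980, 5247555), (45, 16, 16, 2425155, 4261155), (45, 16, 16, 2425905, 4330755), (54, 1, 1, 5309490, 5378115)]
  [(45, -4), (54, 4)] = true := by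
  decide +kernel

theorem t6_2_12_0 : chkF keys 1 3 p6_2_0 c6_12
  [(190, 1, 1, 88147506, 40177731), (185, 16, 16, 70648101, 67522851), (185, 16, 16, 70649121, 69619971), (190, 1, 1, 88146726, 6627651)]
  [(185, -8), (190, 8)] = true := by
  decide +kernel

theorem t6_2_13_0 : chkF keys 1 3 p6_2_0 c6_13
  [(174, 16, 16, 88473906, 73732131), (130, 16, 16, 70656261, 67523361), (130, 16, 16, 70657281, 69620481), (174, 16, 16, 88474401, 73736451)]
  [(130, -8), (174, 8)] = true := by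
  decide +kernel

theorem t6_2_14_0 : chkF keys 1 3 p6_2_0 c6_14
  [(138, 16, 16, 4522290, 4526115), (58, 1, 1, 3490320, 4411920), (58, 1, 1, 3489810, 4411410), (138, 16, 16, 4522785, 4530435)]
  [(58, -8), (138, 8)] = true := by
  decide +kernel

theorem t6_2_15_0 : chkF keys 1 3 p6_2_0 c6_15
  [(142, 1, 1, 66610, 135235), (56, 16, 16, 135220, 5170), (56, 16, 16, 136240, 136240), (142, 1, 1, 66340, 8515)]
  [(56, -8), (142, 8)] = true := by
  decide +kernel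

theorem t6_2_16_0 : chkF keys 1 3 p6_2_0 c6_16
  [(32, 1, 1, 3211860, 1069635), (292, 1, 1, 5309475, 5374275), (292, 1, 1, 5309220, 5251395), (32, 1, 1, 3212610, 2183235)]
  [(32, 8), (292, -8)] = true := by
  decide +kernel

theorem t6_2_17_0 : chkF keys 1 3 p6_2_0 c6_17
  [(293, 513, 513, 105972786, 106041411), (293, 513, 513, 105972771, 106037571), (213, 528, 528, 37949526, 1394226), (294, 513, 513, 105972771, 106037571), (294, 513, 513, 105972516, 105914691), (213, 528, 528, 37951056, 34948656), (293, 513, 513, 105972516, 105914691), (293, 513, 513, 105972276, 105910851)]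
  [(213, -4), (293, 8), (294, -4)] = true := by
  decide +kernel

theorem t6_2_18_0 : chkF keys 1 3 p6_2_0 c6_18
  [(213, 528, 528, 37949541, 17122866), (293, 513, 513, 105972771, 106037571), (213, 528, 528, 37949526, 1394226), (294, 513, 513, 105972786, 106041411), (294, 513, 513, 105972276, 105910851), (213, 528, 528, 37951056, 34948656), (293, 513, 513, 105972516, 105914691), (213, 528, 528, 37950816, 19220016)]
  [(213, 8), (293, -4), (294, -4)] = true := by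
  decide +kernel

theorem t6_2_19_0 : chkF keys 1 3 p6_2_0 c6_19
  [(215, 528, 528, 86184006, 6374706), (215, 528, 528, 38998116, 22038066), (295, 513, 513, 105972771, 106037571), (291, 18, 18, 51794436, 70279761), (291, 18, 18, 20337666, 70406241), (295, 513, 513, 90243876, 90186051), (215, 528, 528, 86185056, 23217456), (215, 528, 528, 38999616, 38880816)]
  [(215, 8), (291, -4), (295, -4)] = true := by
  decide +kernel

theorem t6_2_20_0 : chkF keys 1 3 p6_2_0 c6_20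
  [(215, 528, 528, 38998116, 22038066), (295, 513, 513, 105972786, 106041411), (291, 18, 18, 51794496, 70345296), (295, 513, 513, 105972771, 106037571), (295, 513, 513, 90243876, 90186051), (291, 18, 18, 20336706, 70340706), (295, 513, 513, 90243636, 90182211), (215, 528, 528, 86185056, 23217456)]
  [(215, -4), (291, -4), (295, 8)] = true := by
  decide +kernel

theorem t6_2_21_0 : chkF keys 1 3 p6_2_0 c6_21
  [(148, 1, 1, 72558096, 39207696), (148, 1, 1, 72558081, 39207681), (191, 1, 1, 88147491, 40173891), (113, 1, 1, 73544961, 86389761), (113, 1, 1, 73543941, 84292641), (191, 1, 1, 88146726, 6627651), (148, 1, 1, 72556806, 5653281), (148, 1, 1, 72556566, 5653266)]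
  [(113, -4), (148, 8), (191, -4)] = true := by
  decide +kernel

theorem t6_2_22_0 : chkF keys 1 3 p6_2_0 c6_22
  [(191, 1, 1, 88147506, 40177731), (148, 1, 1, 72558081, 39207681), (191, 1, 1, 88147491, 40173891), (113, 1, 1, 73544976, 86389776), (113, 1, 1, 73543701, 84292626), (191, 1, 1, 88146726, 6627651), (148, 1, 1, 72556806, 5653281), (191, 1, 1, 88146486, 6623811)]
  [(113, -4), (148, -4), (191, 8)] = true := by
  decide +kernel

theorem t6_2_23_0 : chkF keys 1 3 p6_2_0 c6_23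
  [(140, 16, 16, 70582626, 21385251), (140, 16, 16, 70582566, 4608291), (121, 16, 16, 101982981, 100934481), (131, 16, 16, 67445091, 21365541), (131, 16, 16, 67445601, 21373701), (121, 16, 16, 101983491, 103023441), (140, 16, 16, 70583841, 38162691), (140, 16, 16, 70582881, 21385731)]
  [(121, -4), (131, -4), (140, 8)] = true := by
  decide +kernel

theorem t6_2_24_0 : chkF keys 1 3 p6_2_0 c6_24
  [(121, 16, 16, 101983056, 101983056), (140, 16, 16, 70582566, 4608291), (121, 16, 16, 101982981, 100934481), (131, 16, 16, 67445046, 4592421), (131, 16, 16, 67446321, 38146821), (121, 16, 16, 101983491, 103023441), (140, 16, 16, 70583841, 38162691), (121, 16, 16, 101982291, 101974866)]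
  [(121, 8), (131, -4), (140, -4)] = true := by
  decide +kernel

theorem t6_2_25_0 : chkF keys 1 3 p6_2_0 c6_25
  [(143, 1, 1, 5309490, 5378115), (143, 1, 1, 5309475, 5374275), (55, 1, 1, 3211845, 86595), (53, 1, 1, 2441985, 4400385), (53, 1, 1, 2441475, 4392225), (55, 1, 1, 3212610, 2183235), (143, 1, 1, 5309220, 5251395), (143, 1, 1, 5308980, 5247555)]
  [(53, -4), (55, -4), (143, 8)] = true := by
  decide +kernel

theorem t6_2_26_0 : chkF keys 1 3 p6_2_0 c6_26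
  [(55, 1, 1, 3211860, 1069635), (143, 1, 1, 5309475, 5374275), (55, 1, 1, 3211845, 86595), (53, 1, 1, 2442000, 4400400), (53, 1, 1, 2441235, 4392210), (55, 1, 1, 3212610, 2183235), (143, 1, 1, 5309220, 5251395), (55, 1, 1, 3212370, 1200195)]
  [(53, -4), (55, 8), (143, -4)] = true := by
  decide +kernel

theorem t6_3_3_0 : chkF keys 1 3 p6_3_0 c6_3
  [(296, 513, 513, 106107936, 106053936), (217, 513, 513, 73598241, 86393091), (217, 513, 513, 104870181, 101003556), (296, 513, 513, 106107396, 105923121)]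
  [(217, -8), (296, 8)] = true := by
  decide +kernel

theorem t6_3_4_0 : chkF keys 1 3 p6_3_0 c6_4
  [(297, 513, 513, 106107936, 106053936), (212, 18, 18, 84107796, 56640021), (212, 18, 18, 84292626, 73543701), (297, 513, 513, 106107396, 105923121)]
  [(212, -8), (297, 8)] = true := by
  decide +kernel

theorem t6_3_5_0 : chkF keys 1 3 p6_3_0 c6_5
  [(291, 288, 288, 16922196, 34616421), (288, 33, 258, 67522866, 70651941), (288, 33, 258, 67523361, 70656261), (291, 288, 288, 16983126, 1196901)]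
  [(288, -4), (291, 4)] = true := by
  decide +kernel

theorem t6_3_6_0 : chkF keys 1 3 p6_3_0 c6_6
  [(298, 1, 1, 106107936, 106053936), (23, 16, 16, 70321701, 33968451), (23, 16, 16, 70260006, 2511156), (298, 1, 1, 106107396, 105923121)]
  [(23, -8), (298, 8)] = true := by
  decide +kernel

theorem t6_3_7_0 : chkF keys 1 3 p6_3_0 c6_7
  [(200, 1, 1, 104990001, 103093251), (141, 16, 16, 16921686, 1193061), (141, 16, 16, 1254996, 34620246), (200, 1, 1, 104989461, 101000211)]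
  [(141, -8), (200, 8)] = true := by
  decide +kernel

theorem t6_3_8_0 : chkF keys 1 3 p6_3_0 c6_8
  [(109, 16, 16, 16922196, 34616421), (104, 16, 16, 16983141, 16925541), (104, 16, 16, 16983636, 34620261), (109, 16, 16, 16983126, 1196901)]
  [(104, -4), (109, 4)] = true := by
  decide +kernel

theorem t6_3_9_0 : chkF keys 1 3 p6_3_0 c6_9
  [(137, 1, 1, 105915411, 106038036), (104, 16, 16, 67314021, 17187621), (104, 16, 16, 67315281, 35013381), (137, 1, 1, 106038036, 105915411)]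
  [(104, -4), (137, 4)] = true := by
  decide +kernel

theorem t6_3_10_0 : chkF keys 1 3 p6_3_0 c6_10
  [(173, 1, 1, 73536816, 86381616), (194, 16, 16, 85139526, 6374226), (194, 16, 16, 85140576, 23216976), (173, 1, 1, 73474101, 84284226)]
  [(173, 4), (194, -4)] = true := by
  decide +kernel

theorem t6_3_11_0 : chkF keys 1 3 p6_3_0 c6_11
  [(57, 1, 1, 5317380, 5251905), (122, 1, 1, 5375025, 5379075), (122, 1, 1, 5374740, 5252115), (57, 1, 1, 5379075, 5375025)]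
  [(57, 4), (122, -4)] = true := by
  decide +kernel

theorem t6_3_12_0 : chkF keys 1 3 p6_3_0 c6_12
  [(299, 1, 1, 106107936, 106053936), (22, 1, 1, 70329606, 2511681), (22, 1, 1, 70391301, 33969201), (299, 1, 1, 106107396, 105923121)]
  [(22, -8), (299, 8)] = true := by
  decide +kernel

theorem t6_3_13_0 : chkF keys 1 3 p6_3_0 c6_13
  [(169, 1, 1, 88282656, 40190256), (173, 1, 1, 88155651, 40174401), (173, 1, 1, 88216326, 6628401), (169, 1, 1, 88281606, 6636081)]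
  [(169, 8), (173, -8)] = true := by
  decide +kernel

theorem t6_3_14_0 : chkF keys 1 3 p6_3_0 c6_14
  [(171, 1, 1, 5444640, 5390640), (57, 1, 1, 3282240, 2184240), (57, 1, 1, 3219525, 86850), (171, 1, 1, 5444100, 5259825)]
  [(57, -8), (171, 8)] = true := by
  decide +kernel

theorem t6_3_15_0 : chkF keys 1 3 p6_3_0 c6_15
  [(179, 1, 1, 201760, 147760), (35, 1, 1, 74500, 9025), (35, 1, 1, 136195, 132145), (179, 1, 1, 201220, 16945)]
  [(35, -8), (179, 8)] = true := by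
  decide +kernel

theorem t6_3_16_0 : chkF keys 1 3 p6_3_0 c6_16
  [(153, 16, 16, 4261170, 2428995), (163, 16, 16, 3212325, 151875), (163, 16, 16, 3151140, 2117940), (153, 16, 16, 4260645, 336195)]
  [(153, 8), (163, -8)] = true := by
  decide +kernel

theorem t6_3_17_0 : chkF keys 1 3 p6_3_0 c6_17
  [(300, 513, 513, 106107936, 106053936), (300, 513, 513, 105985026, 106049601), (215, 33, 258, 17187621, 67314021), (212, 33, 258, 17187381, 67310181), (212, 33, 258, 17065266, 52695141), (215, 33, 258, 17065251, 52691301), (300, 513, 513, 106107396, 105923121), (300, 513, 513, 105984036, 105918786)]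
  [(212, -4), (215, -4), (300, 8)] = true := by
  decide +kernel

theorem t6_3_18_0 : chkF keys 1 3 p6_3_0 c6_18
  [(215, 33, 258, 17064786, 51650661), (300, 513, 513, 105985026, 106049601), (215, 33, 258, 17187621, 67314021), (212, 33, 258, 17064531, 51642981), (212, 33, 258, 17187666, 68362341), (215, 33, 258, 17065251, 52691301), (300, 513, 513, 106107396, 105923121), (215, 33, 258, 17187411, 68354661)]
  [(212, -4), (215, 8), (300, -4)] = true := by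
  decide +kernel

theorem t6_3_19_0 : chkF keys 1 3 p6_3_0 c6_19
  [(291, 288, 288, 100806996, 101725221), (291, 288, 288, 6496581, 83968806), (301, 513, 513, 105985026, 106049601), (289, 18, 18, 34890501, 50603601), (289, 33, 258, 50746401, 70410501), (301, 513, 513, 90378756, 90194481), (291, 288, 288, 100808001, 102839301), (291, 288, 288, 6497361, 85082886)]
  [(289, -4), (291, 8), (301, -4)] = true := by
  decide +kernel

theorem t6_3_20_0 : chkF keys 1 3 p6_3_0 c6_20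
  [(291, 288, 288, 6496581, 83968806), (301, 513, 513, 106107936, 106053936), (289, 18, 18, 35013456, 68363856), (301, 513, 513, 105985026, 106049601), (301, 513, 513, 90378756, 90194481), (289, 33, 258, 50684481, 54616581), (301, 513, 513, 90255396, 90190146), (291, 288, 288, 100808001, 102839301)]
  [(289, -4), (291, -4), (301, 8)] = true := by
  decide +kernel

theorem t6_3_21_0 : chkF keys 1 3 p6_3_0 c6_21
  [(199, 1, 1, 73409811, 86377236), (199, 1, 1, 73532721, 86381571), (173, 16, 16, 70321446, 2511171), (115, 16, 16, 67252566, 1455141), (115, 16, 16, 67315281, 35013381), (173, 16, 16, 70260261, 33968436), (199, 1, 1, 73408821, 84284196), (199, 1, 1, 73532181, 84288531)]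
  [(115, -4), (173, -4), (199, 8)] = true := by
  decide +kernel

theorem t6_3_22_0 : chkF keys 1 3 p6_3_0 c6_22
  [(173, 16, 16, 70260066, 19288116), (199, 1, 1, 73532721, 86381571), (173, 16, 16, 70321446, 2511171), (115, 16, 16, 67314021, 17187621), (115, 16, 16, 67253601, 19280901), (173, 16, 16, 70260261, 33968436), (199, 1, 1, 73408821, 84284196), (173, 16, 16, 70320741, 17191491)]
  [(115, -4), (173, 8), (199, -4)] = true := by
  decide +kernel

theorem t6_3_23_0 : chkF keys 1 3 p6_3_0 c6_23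
  [(176, 1, 1, 90313776, 90313776), (176, 1, 1, 90252291, 90309441), (137, 1, 1, 72484401, 39195651), (109, 16, 16, 100868421, 100746021), (109, 16, 16, 100808001, 102839301), (137, 1, 1, 72360246, 5640996), (176, 1, 1, 90313476, 90186801), (176, 1, 1, 90251316, 90182466)]
  [(109, -4), (137, -4), (176, 8)] = true := by
  decide +kernel

theorem t6_3_24_0 : chkF keys 1 3 p6_3_0 c6_24
  [(137, 1, 1, 72361491, 39191316), (176, 1, 1, 90252291, 90309441), (137, 1, 1, 72484401, 39195651), (109, 16, 16, 100806996, 101725221), (109, 16, 16, 100869201, 101860101), (137, 1, 1, 72360246, 5640996), (176, 1, 1, 90313476, 90186801), (137, 1, 1, 72483606, 5645331)]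
  [(109, -4), (137, 8), (176, -4)] = true := by
  decide +kernel

theorem t6_3_25_0 : chkF keys 1 3 p6_3_0 c6_25
  [(182, 1, 1, 5379120, 5379120), (182, 1, 1, 5317635, 5374785), (57, 16, 16, 148245, 205845), (52, 16, 16, 213285, 213285), (52, 16, 16, 275745, 2371845), (57, 16, 16, 271635, 2360085), (182, 1, 1, 5378820, 5252145), (182, 1, 1, 5316660, 5247810)]
  [(52, -4), (57, -4), (182, 8)] = true := by
  decide +kernel

theorem t6_3_26_0 : chkF keys 1 3 p6_3_0 c6_26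
  [(57, 16, 16, 271185, 1319685), (182, 1, 1, 5317635, 5374785), (57, 16, 16, 148245, 205845), (52, 16, 16, 274770, 1323045), (52, 16, 16, 213585, 1262085), (57, 16, 16, 271635, 2360085), (182, 1, 1, 5378820, 5252145), (57, 16, 16, 147795, 1246245)]
  [(52, -4), (57, 8), (182, -4)] = true := by
  decide +kernel

theorem t6_4_4_0 : chkF keys 1 3 p6_4_0 c6_4
  [(286, 528, 528, 38879331, 22218306), (213, 513, 513, 54920481, 69558531), (213, 513, 513, 54919461, 67461411), (286, 528, 528, 38880816, 38999616)]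
  [(213, -8), (286, 8)] = true := by
  decide +kernel

theorem t6_4_5_0 : chkF keys 1 3 p6_4_0 c6_5
  [(294, 288, 288, 52514886, 3237186), (207, 258, 33, 56951841, 88236291), (207, 258, 33, 56951316, 88105491), (294, 288, 288, 52516416, 36791616)]
  [(207, -4), (294, 4)] = true := by
  decide +kernel

theorem t6_4_6_0 : chkF keys 1 3 p6_4_0 c6_6
  [(75, 1, 1, 88278561, 40190211), (26, 16, 16, 16994886, 3228261), (26, 16, 16, 16995906, 36782181), (75, 1, 1, 88277526, 6636051)]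
  [(26, -8), (75, 8)] = true := by
  decide +kernel

theorem t6_4_7_0 : chkF keys 1 3 p6_4_0 c6_7
  [(146, 1, 1, 87426081, 73552131), (82, 1, 1, 104137746, 105009171), (82, 1, 1, 56951316, 88105491), (146, 1, 1, 87425556, 73421331)]
  [(82, -8), (146, 8)] = true := by
  decide +kernel

theorem t6_4_8_0 : chkF keys 1 3 p6_4_0 c6_8
  [(114, 16, 16, 36786246, 3233346), (76, 1, 1, 88278561, 40190211), (76, 1, 1, 88277526, 6636051), (114, 16, 16, 36787776, 36787776)]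
  [(76, -4), (114, 4)] = true := by
  decide +kernel

theorem t6_4_9_0 : chkF keys 1 3 p6_4_0 c6_9
  [(107, 16, 16, 102846531, 103875906), (73, 1, 1, 55968801, 72507651), (73, 1, 1, 55968276, 72376851), (107, 16, 16, 102847296, 103884096)]
  [(73, -4), (107, 4)] = true := by
  decide +kernel

theorem t6_4_10_0 : chkF keys 1 3 p6_4_0 c6_10
  [(113, 16, 16, 69292131, 20317506), (100, 16, 16, 69292131, 20317506), (100, 16, 16, 69293616, 37098816), (113, 16, 16, 69292896, 20325696)]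
  [(100, -4), (113, 4)] = true := by
  decide +kernel

theorem t6_4_11_0 : chkF keys 1 3 p6_4_0 c6_11
  [(53, 16, 16, 5320740, 5255490), (77, 1, 1, 5440545, 5390595), (77, 1, 1, 5440020, 5259795), (53, 16, 16, 5321760, 5386560)]
  [(53, 4), (77, -4)] = true := by
  decide +kernel

theorem t6_4_12_0 : chkF keys 1 3 p6_4_0 c6_12
  [(186, 1, 1, 70653216, 69620016), (17, 1, 1, 70648341, 67523091), (17, 1, 1, 70649106, 69619731), (186, 1, 1, 70652421, 67523121)]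
  [(17, -8), (186, 8)] = true := by
  decide +kernel

theorem t6_4_13_0 : chkF keys 1 3 p6_4_0 c6_13
  [(106, 16, 16, 104943666, 104140866), (99, 16, 16, 104943651, 104137026), (99, 16, 16, 104944416, 104145216), (106, 16, 16, 104944416, 104145216)]
  [(99, -8), (106, 8)] = true := by
  decide +kernel

theorem t6_4_14_0 : chkF keys 1 3 p6_4_0 c6_14
  [(108, 16, 16, 4280370, 3477570), (86, 1, 1, 3474465, 4346115), (86, 1, 1, 3473700, 4215075), (108, 16, 16, 4281120, 3481920)]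
  [(86, -8), (108, 8)] = true := by
  decide +kernel

theorem t6_4_15_0 : chkF keys 1 3 p6_4_0 c6_15
  [(133, 1, 1, 267040, 270640), (34, 1, 1, 262675, 262675), (34, 1, 1, 262930, 270355), (133, 1, 1, 266755, 262705)]
  [(34, -8), (133, 8)] = true := by
  decide +kernel

theorem t6_4_16_0 : chkF keys 1 3 p6_4_0 c6_16
  [(160, 16, 16, 4280370, 3477570), (302, 1, 1, 5509890, 5513265), (302, 1, 1, 5509635, 5505585), (160, 16, 16, 4281120, 3481920)]
  [(160, 8), (302, -8)] = true := by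
  decide +kernel

theorem t6_4_17_0 : chkF keys 1 3 p6_4_0 c6_17
  [(303, 513, 513, 106173216, 106176816), (303, 513, 513, 106173186, 106176561), (210, 258, 33, 87426066, 73551891), (211, 513, 513, 54920466, 69558291), (211, 513, 513, 54919701, 67461651), (210, 258, 33, 87425556, 73421331), (303, 513, 513, 106172931, 106168881), (303, 513, 513, 106172451, 106168626)]
  [(210, -4), (211, -4), (303, 8)] = true := by
  decide +kernel

theorem t6_4_18_0 : chkF keys 1 3 p6_4_0 c6_18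
  [(210, 258, 33, 87426081, 73552131), (303, 513, 513, 106173186, 106176561), (210, 258, 33, 87426066, 73551891), (211, 513, 513, 54920481, 69558531), (211, 513, 513, 54919461, 67461411), (210, 258, 33, 87425556, 73421331), (303, 513, 513, 106172931, 106168881), (210, 258, 33, 87425316, 73421091)]
  [(210, 8), (211, -4), (303, -4)] = true := by
  decide +kernel

theorem t6_4_19_0 : chkF keys 1 3 p6_4_0 c6_19
  [(211, 288, 288, 101859411, 101909586), (211, 288, 288, 23216181, 84087906), (293, 288, 288, 70340706, 20336706), (215, 258, 33, 104137746, 105009171), (215, 258, 33, 56951316, 88105491), (293, 288, 288, 54612576, 20275776), (211, 288, 288, 101860656, 102962256), (211, 288, 288, 23216976, 85140576)]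
  [(211, 8), (215, -4), (293, -4)] = true := by
  decide +kernel

theorem t6_4_20_0 : chkF keys 1 3 p6_4_0 c6_20
  [(211, 288, 288, 23216181, 84087906), (293, 288, 288, 70340646, 3559746), (215, 258, 33, 104137761, 105009411), (293, 288, 288, 70340706, 20336706), (293, 288, 288, 54612576, 20275776), (215, 258, 33, 56951076, 88105251), (293, 288, 288, 54613536, 37052736), (211, 288, 288, 101860656, 102962256)]
  [(211, -4), (215, -4), (293, 8)] = true := by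
  decide +kernel

theorem t6_4_21_0 : chkF keys 1 3 p6_4_0 c6_21
  [(147, 1, 1, 55968786, 72507411), (147, 1, 1, 55968801, 72507651), (96, 1, 1, 70649121, 69619971), (80, 1, 1, 55968786, 72507411), (80, 1, 1, 55968276, 72376851), (96, 1, 1, 70648101, 67522851), (147, 1, 1, 55968036, 72376611), (147, 1, 1, 55968276, 72376851)]
  [(80, -4), (96, -4), (147, 8)] = true := by
  decide +kernel

theorem t6_4_22_0 : chkF keys 1 3 p6_4_0 c6_22
  [(96, 1, 1, 70649106, 69619731), (147, 1, 1, 55968801, 72507651), (96, 1, 1, 70649121, 69619971), (80, 1, 1, 55968801, 72507651), (80, 1, 1, 55968036, 72376611), (96, 1, 1, 70648101, 67522851), (147, 1, 1, 55968036, 72376611), (96, 1, 1, 70648341, 67523091)]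
  [(80, -4), (96, 8), (147, -4)] = true := by
  decide +kernel

theorem t6_4_23_0 : chkF keys 1 3 p6_4_0 c6_23
  [(112, 16, 16, 70340706, 20336706), (112, 16, 16, 70340646, 3559746), (85, 1, 1, 56951841, 88236291), (81, 16, 16, 101859381, 100865106), (81, 16, 16, 101860656, 102962256), (85, 1, 1, 56951076, 88105251), (112, 16, 16, 70342176, 37114176), (112, 16, 16, 70341216, 20337216)]
  [(81, -4), (85, -4), (112, 8)] = true := by
  decide +kernel

theorem t6_4_24_0 : chkF keys 1 3 p6_4_0 c6_24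
  [(85, 1, 1, 56951826, 88236051), (112, 16, 16, 70340646, 3559746), (85, 1, 1, 56951841, 88236291), (81, 16, 16, 101859411, 101909586), (81, 16, 16, 101860176, 101917776), (85, 1, 1, 56951076, 88105251), (112, 16, 16, 70342176, 37114176), (85, 1, 1, 56951316, 88105491)]
  [(81, -4), (85, 8), (112, -4)] = true := by
  decide +kernel

theorem t6_4_25_0 : chkF keys 1 3 p6_4_0 c6_25
  [(135, 1, 1, 4396290, 2441265), (135, 1, 1, 4396320, 2441520), (48, 1, 1, 3478530, 4345905), (47, 1, 1, 3478530, 4345905), (47, 1, 1, 3478020, 4215345), (48, 1, 1, 3478020, 4215345), (135, 1, 1, 4395045, 344370), (135, 1, 1, 4395525, 344625)]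
  [(47, -4), (48, -4), (135, 8)] = true := by
  decide +kernel

theorem t6_4_26_0 : chkF keys 1 3 p6_4_0 c6_26
  [(48, 1, 1, 3478560, 4346160), (135, 1, 1, 4396320, 2441520), (48, 1, 1, 3478530, 4345905), (47, 1, 1, 3478560, 4346160), (47, 1, 1, 3477540, 4215090), (48, 1, 1, 3478020, 4215345), (135, 1, 1, 4395045, 344370), (48, 1, 1, 3477540, 4215090)]
  [(47, -4), (48, 8), (135, -4)] = true := by
  decide +kernel

theorem t6_5_5_0 : chkF keys 1 3 p6_5_0 c6_5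
  [(304, 513, 513, 106173216, 106176816), (289, 528, 528, 52495716, 18900291), (289, 528, 528, 52495461, 16934211), (304, 513, 513, 106172466, 106172466)]
  [(289, -2), (304, 2)] = true := by
  decide +kernel

theorem t6_5_6_0 : chkF keys 1 3 p6_5_0 c6_6
  [(27, 16, 16, 16983636, 34620261), (88, 1, 1, 88482051, 73728801), (88, 1, 1, 88482576, 73736976), (27, 16, 16, 16983126, 1196901)]
  [(27, 4), (88, -4)] = true := by
  decide +kernel

theorem t6_5_7_0 : chkF keys 1 3 p6_5_0 c6_7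
  [(117, 1, 1, 73740546, 88485921), (150, 1, 1, 73736451, 88474401), (150, 1, 1, 73736976, 88482576), (117, 1, 1, 105198081, 105198081)]
  [(117, 4), (150, -4)] = true := by
  decide +kernel

theorem t6_5_8_0 : chkF keys 1 3 p6_5_0 c6_8
  [(192, 16, 16, 52495686, 2188611), (105, 16, 16, 16921701, 16921701), (105, 16, 16, 16921956, 18887781), (192, 16, 16, 52495956, 34628931)]
  [(105, -2), (192, 2)] = true := by
  decide +kernel

theorem t6_5_9_0 : chkF keys 1 3 p6_5_0 c6_9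
  [(23, 1, 1, 103089201, 104994051), (121, 1, 1, 106176531, 106169106), (121, 1, 1, 106177296, 106177296), (23, 1, 1, 103088451, 104924451)]
  [(23, 2), (121, -2)] = true := by
  decide +kernel

theorem t6_5_10_0 : chkF keys 1 3 p6_5_0 c6_10
  [(193, 16, 16, 87098946, 39931971), (191, 16, 16, 87097926, 6378051), (191, 16, 16, 87098946, 39931971), (193, 16, 16, 87097956, 23089731)]
  [(191, -2), (193, 2)] = true := by
  decide +kernel

theorem t6_5_11_0 : chkF keys 1 3 p6_5_0 c6_11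
  [(51, 1, 1, 3490050, 4411425), (55, 16, 16, 5309490, 5378115), (55, 16, 16, 5308980, 5247555), (51, 1, 1, 3490320, 4411920)]
  [(51, 2), (55, -2)] = true := by
  decide +kernel

theorem t6_5_12_0 : chkF keys 1 3 p6_5_0 c6_12
  [(22, 1, 1, 70583841, 38162691), (190, 1, 1, 88474401, 73736451), (190, 1, 1, 88473906, 73732131), (22, 1, 1, 70582566, 4608291)]
  [(22, 4), (190, -4)] = true := by
  decide +kernel

theorem t6_5_13_0 : chkF keys 1 3 p6_5_0 c6_13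
  [(173, 1, 1, 88474401, 73736451), (174, 1, 1, 88474401, 73736451), (174, 1, 1, 88473906, 73732131), (173, 1, 1, 88473891, 73728291)]
  [(173, 4), (174, -4)] = true := by
  decide +kernel

theorem t6_5_14_0 : chkF keys 1 3 p6_5_0 c6_14
  [(57, 1, 1, 3489810, 4411410), (138, 1, 1, 4522785, 4530435), (138, 1, 1, 4522290, 4526115), (57, 1, 1, 3490320, 4411920)]
  [(57, 4), (138, -4)] = true := by
  decide +kernel

theorem t6_5_15_0 : chkF keys 1 3 p6_5_0 c6_15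
  [(35, 1, 1, 197665, 147715), (142, 1, 1, 262945, 270595), (142, 1, 1, 262450, 266275), (35, 1, 1, 196900, 16675)]
  [(35, 4), (142, -4)] = true := by
  decide +kernel

theorem t6_5_16_0 : chkF keys 1 3 p6_5_0 c6_16
  [(167, 16, 16, 4261170, 2428995), (33, 16, 16, 3212610, 2183235), (33, 16, 16, 3211860, 1069635), (167, 16, 16, 4260405, 332355)]
  [(33, -4), (167, 4)] = true := by
  decide +kernel

theorem t6_5_17_0 : chkF keys 1 3 p6_5_0 c6_17
  [(290, 513, 513, 72757506, 72757281), (215, 18, 18, 33899286, 4400661), (293, 513, 513, 106169121, 106176771), (293, 513, 513, 106168881, 106172931), (293, 513, 513, 106168626, 106172451), (293, 513, 513, 106168611, 106168611), (215, 18, 18, 33900051, 37946901), (290, 513, 513, 72757761, 72757761)]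
  [(215, 2), (290, 2), (293, -4)] = true := by
  decide +kernel

theorem t6_5_18_0 : chkF keys 1 3 p6_5_0 c6_18
  [(290, 513, 513, 72757266, 72757266), (215, 18, 18, 33899286, 4400661), (293, 513, 513, 106169121, 106176771), (215, 18, 18, 33898806, 4396581), (215, 18, 18, 33900081, 37950981), (293, 513, 513, 106168611, 106168611), (215, 18, 18, 33900051, 37946901), (290, 513, 513, 72757776, 72757776)]
  [(215, -4), (290, 2), (293, 2)] = true := by
  decide +kernel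

theorem t6_5_19_0 : chkF keys 1 3 p6_5_0 c6_19
  [(287, 528, 528, 102826836, 101721411), (295, 528, 528, 39912276, 84944451), (217, 528, 528, 86049891, 23201091), (217, 528, 528, 38864451, 38864451), (217, 528, 528, 86049606, 6366531), (217, 528, 528, 38863716, 22029891), (295, 528, 528, 102827091, 101844291), (287, 528, 528, 39912531, 85067331)]
  [(217, -4), (287, 2), (295, 2)] = true := by
  decide +kernel

theorem t6_5_20_0 : chkF keys 1 3 p6_5_0 c6_20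
  [(295, 528, 528, 39912276, 84944451), (287, 528, 528, 102827316, 102765891), (295, 528, 528, 39912756, 85988931), (217, 528, 528, 86049891, 23201091), (217, 528, 528, 38863716, 22029891), (295, 528, 528, 102827061, 100799811), (287, 528, 528, 39912501, 84022851), (295, 528, 528, 102827091, 101844291)]
  [(217, 2), (287, 2), (295, -4)] = true := by
  decide +kernel

theorem t6_5_21_0 : chkF keys 1 3 p6_5_0 c6_21
  [(115, 1, 1, 72757506, 72757281), (149, 1, 1, 73728801, 88482051), (148, 1, 1, 72753411, 72745761), (148, 1, 1, 72753171, 72745746), (148, 1, 1, 72753936, 72753936), (148, 1, 1, 72753921, 72753921), (149, 1, 1, 73728291, 88473891), (115, 1, 1, 72757761, 72757761)]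
  [(115, 2), (148, -4), (149, 2)] = true := by
  decide +kernel

theorem t6_5_22_0 : chkF keys 1 3 p6_5_0 c6_22
  [(115, 1, 1, 72757266, 72757266), (149, 1, 1, 73728801, 88482051), (148, 1, 1, 72753411, 72745761), (149, 1, 1, 73728561, 88478211), (149, 1, 1, 73728306, 88477731), (148, 1, 1, 72753921, 72753921), (149, 1, 1, 73728291, 88473891), (115, 1, 1, 72757776, 72757776)]
  [(115, 2), (148, 2), (149, -4)] = true := by
  decide +kernel

theorem t6_5_23_0 : chkF keys 1 3 p6_5_0 c6_23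
  [(141, 1, 1, 72757506, 72757281), (139, 1, 1, 72753411, 72745761), (140, 1, 1, 73728801, 88482051), (140, 1, 1, 73728561, 88478211), (140, 1, 1, 73728306, 88477731), (140, 1, 1, 73728291, 88473891), (139, 1, 1, 72753921, 72753921), (141, 1, 1, 72757761, 72757761)]
  [(139, 2), (140, -4), (141, 2)] = true := by
  decide +kernel

theorem t6_5_24_0 : chkF keys 1 3 p6_5_0 c6_24
  [(141, 1, 1, 72757266, 72757266), (139, 1, 1, 72753411, 72745761), (140, 1, 1, 73728801, 88482051), (139, 1, 1, 72753171, 72745746), (139, 1, 1, 72753936, 72753936), (140, 1, 1, 73728291, 88473891), (139, 1, 1, 72753921, 72753921), (141, 1, 1, 72757776, 72757776)]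
  [(139, -4), (140, 2), (141, 2)] = true := by
  decide +kernel

theorem t6_5_25_0 : chkF keys 1 3 p6_5_0 c6_25
  [(52, 1, 1, 2441475, 4392225), (54, 1, 1, 2441475, 4392225), (143, 1, 1, 5505825, 5513475), (143, 1, 1, 5505585, 5509635), (143, 1, 1, 5505330, 5509155), (143, 1, 1, 5505315, 5505315), (54, 1, 1, 2441985, 4400385), (52, 1, 1, 2441985, 4400385)]
  [(52, 2), (54, 2), (143, -4)] = true := by
  decide +kernel

theorem t6_5_26_0 : chkF keys 1 3 p6_5_0 c6_26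
  [(52, 1, 1, 2441235, 4392210), (54, 1, 1, 2441475, 4392225), (143, 1, 1, 5505825, 5513475), (54, 1, 1, 2441235, 4392210), (54, 1, 1, 2442000, 4400400), (143, 1, 1, 5505315, 5505315), (54, 1, 1, 2441985, 4400385), (52, 1, 1, 2442000, 4400400)]
  [(52, 2), (54, -4), (143, 2)] = true := by
  decide +kernel

theorem t6_6_6_0 : chkF keys 1 3 p6_6_0 c6_6
  [(305, 0, 0, 105972786, 106041411), (227, 0, 0, 88147491, 40173891), (227, 0, 0, 88146726, 6627651), (305, 0, 0, 105972516, 105914691)]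
  [(227, -8), (305, 8)] = true := by
  decide +kernel

theorem t6_6_7_0 : chkF keys 1 3 p6_6_0 c6_7
  [(306, 0, 0, 105972786, 106041411), (228, 0, 0, 72418851, 39190851), (228, 0, 0, 88146726, 6627651), (306, 0, 0, 105972516, 105914691)]
  [(228, -8), (306, 8)] = true := by
  decide +kernel

theorem t6_6_8_0 : chkF keys 1 3 p6_6_0 c6_8
  [(229, 0, 0, 88146726, 6627651), (232, 0, 0, 69272421, 17179971), (232, 0, 0, 69273171, 34997571), (229, 0, 0, 88147491, 40173891)]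
  [(229, 4), (232, -4)] = true := by
  decide +kernel

theorem t6_6_9_0 : chkF keys 1 3 p6_6_0 c6_9
  [(228, 0, 0, 104923941, 100999491), (232, 0, 0, 52495461, 16934211), (232, 0, 0, 52495956, 34628931), (228, 0, 0, 104924451, 103088451)]
  [(228, 4), (232, -4)] = true := by
  decide +kernel

theorem t6_6_10_0 : chkF keys 1 3 p6_6_0 c6_10
  [(229, 0, 0, 38863716, 22029891), (307, 0, 0, 105972786, 106041411), (307, 0, 0, 105972516, 105914691), (229, 0, 0, 38863971, 22152771)]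
  [(229, 4), (307, -4)] = true := by
  decide +kernel

theorem t6_6_11_0 : chkF keys 1 3 p6_6_0 c6_11
  [(231, 0, 0, 5309220, 5251395), (250, 0, 0, 3211860, 1069635), (250, 0, 0, 3212610, 2183235), (231, 0, 0, 5309475, 5374275)]
  [(231, 4), (250, -4)] = true := by
  decide +kernel

theorem t6_6_12_0 : chkF keys 1 3 p6_6_0 c6_12
  [(305, 0, 0, 52495461, 16934211), (232, 0, 0, 105972771, 106037571), (232, 0, 0, 105972516, 105914691), (305, 0, 0, 52495956, 34628931)]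
  [(232, -8), (305, 8)] = true := by
  decide +kernel

theorem t6_6_13_0 : chkF keys 1 3 p6_6_0 c6_13
  [(227, 0, 0, 52495956, 34628931), (229, 0, 0, 52495686, 2188611), (229, 0, 0, 52495941, 33645891), (227, 0, 0, 52495686, 2188611)]
  [(227, 8), (229, -8)] = true := by
  decide +kernel

theorem t6_6_14_0 : chkF keys 1 3 p6_6_0 c6_14
  [(230, 0, 0, 3211860, 1069635), (231, 0, 0, 3212610, 2183235), (231, 0, 0, 3211845, 86595), (230, 0, 0, 3212610, 2183235)]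
  [(230, 8), (231, -8)] = true := by
  decide +kernel

theorem t6_6_15_0 : chkF keys 1 3 p6_6_0 c6_15
  [(249, 0, 0, 66115, 66115), (3, 0, 0, 66340, 8515), (3, 0, 0, 66595, 131395), (249, 0, 0, 66610, 135235)]
  [(3, -8), (249, 8)] = true := by
  decide +kernel

theorem t6_6_16_0 : chkF keys 1 3 p6_6_0 c6_16
  [(234, 0, 0, 2163525, 75075), (308, 0, 0, 5309475, 5374275), (308, 0, 0, 5309220, 5251395), (234, 0, 0, 2163795, 1180995)]
  [(234, 8), (308, -8)] = true := by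
  decide +kernel

theorem t6_6_17_0 : chkF keys 1 3 p6_6_0 c6_17
  [(188, 1, 1, 1324386, 19148886), (188, 1, 1, 1324326, 2371926), (84, 1, 1, 33900051, 37946901), (18, 1, 1, 17052966, 2371941), (18, 1, 1, 17053221, 33829221), (84, 1, 1, 33899286, 4400661), (188, 1, 1, 1324581, 33829206), (188, 1, 1, 1323621, 17052246)]
  [(18, -4), (84, -4), (188, 8)] = true := by
  decide +kernel

theorem t6_6_18_0 : chkF keys 1 3 p6_6_0 c6_18
  [(84, 1, 1, 33900081, 37950981), (188, 1, 1, 1324326, 2371926), (84, 1, 1, 33900051, 37946901), (18, 1, 1, 17053026, 19148901), (18, 1, 1, 17052261, 17052261), (84, 1, 1, 33899286, 4400661), (188, 1, 1, 1324581, 33829206), (84, 1, 1, 33898806, 4396581)]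
  [(18, -4), (84, 8), (188, -4)] = true := by
  decide +kernel

theorem t6_6_19_0 : chkF keys 1 3 p6_6_0 c6_19
  [(27, 16, 16, 102826836, 101721411), (27, 16, 16, 39912261, 83961411), (195, 1, 1, 19218486, 4396386), (192, 1, 1, 3490086, 4411686), (192, 1, 1, 50677281, 37970181), (195, 1, 1, 34948656, 37951056), (27, 16, 16, 102827331, 102827331), (27, 16, 16, 39912531, 85067331)]
  [(27, 8), (192, -4), (195, -4)] = true := by
  decide +kernel

theorem t6_6_20_0 : chkF keys 1 3 p6_6_0 c6_20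
  [(27, 16, 16, 39912261, 83961411), (195, 1, 1, 19218531, 21169506), (192, 1, 1, 3490146, 21188646), (195, 1, 1, 19218486, 4396386), (195, 1, 1, 34948656, 37951056), (192, 1, 1, 50676321, 21193221), (195, 1, 1, 34947936, 21177936), (27, 16, 16, 102827331, 102827331)]
  [(27, -4), (192, -4), (195, 8)] = true := by
  decide +kernel

theorem t6_6_21_0 : chkF keys 1 3 p6_6_0 c6_21
  [(306, 0, 0, 56689701, 84042051), (306, 0, 0, 56689746, 85090371), (228, 0, 0, 38863686, 5318211), (229, 0, 0, 104924451, 103088451), (229, 0, 0, 104923941, 100999491), (228, 0, 0, 38864451, 38864451), (306, 0, 0, 56689236, 84959811), (306, 0, 0, 56689956, 86008131)]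
  [(228, -4), (229, -4), (306, 8)] = true := by
  decide +kernel

theorem t6_6_22_0 : chkF keys 1 3 p6_6_0 c6_22
  [(228, 0, 0, 38863716, 22029891), (306, 0, 0, 56689746, 85090371), (228, 0, 0, 38863686, 5318211), (229, 0, 0, 104924466, 103092291), (229, 0, 0, 104923701, 100995651), (228, 0, 0, 38864451, 38864451), (306, 0, 0, 56689236, 84959811), (228, 0, 0, 38863971, 22152771)]
  [(228, 8), (229, -4), (306, -4)] = true := by
  decide +kernel

theorem t6_6_23_0 : chkF keys 1 3 p6_6_0 c6_23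
  [(219, 0, 0, 102056736, 105062736), (219, 0, 0, 102056706, 105062481), (228, 0, 0, 54593106, 34955331), (229, 0, 0, 54592866, 19226691), (229, 0, 0, 54592101, 17130051), (228, 0, 0, 54592086, 1401411), (219, 0, 0, 102056451, 105054801), (219, 0, 0, 102055971, 105054546)]
  [(219, 8), (228, -4), (229, -4)] = true := by
  decide +kernel

theorem t6_6_24_0 : chkF keys 1 3 p6_6_0 c6_24
  [(228, 0, 0, 54593061, 33907011), (219, 0, 0, 102056706, 105062481), (228, 0, 0, 54593106, 34955331), (229, 0, 0, 54592806, 2449731), (229, 0, 0, 54593061, 33907011), (228, 0, 0, 54592086, 1401411), (219, 0, 0, 102056451, 105054801), (228, 0, 0, 54592806, 2449731)]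
  [(219, -4), (228, 8), (229, -4)] = true := by
  decide +kernel

theorem t6_6_25_0 : chkF keys 1 3 p6_6_0 c6_25
  [(222, 0, 0, 1393440, 4399440), (222, 0, 0, 1393410, 4399185), (233, 0, 0, 4261155, 2425155), (231, 0, 0, 4261155, 2425155), (231, 0, 0, 4260645, 336195), (233, 0, 0, 4260645, 336195), (222, 0, 0, 1393155, 4391505), (222, 0, 0, 1392675, 4391250)]
  [(222, 8), (231, -4), (233, -4)] = true := by
  decide +kernel

theorem t6_6_26_0 : chkF keys 1 3 p6_6_0 c6_26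
  [(233, 0, 0, 4261170, 2428995), (222, 0, 0, 1393410, 4399185), (233, 0, 0, 4261155, 2425155), (231, 0, 0, 4261170, 2428995), (231, 0, 0, 4260405, 332355), (233, 0, 0, 4260645, 336195), (222, 0, 0, 1393155, 4391505), (233, 0, 0, 4260405, 332355)]
  [(222, -4), (231, -4), (233, 8)] = true := by
  decide +kernel

theorem t6_7_7_0 : chkF keys 1 3 p6_7_0 c6_7
  [(309, 0, 0, 105972786, 106041411), (235, 0, 0, 72418866, 39194691), (235, 0, 0, 88085046, 6623796), (309, 0, 0, 105972516, 105914691)]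
  [(235, -8), (309, 8)] = true := by
  decide +kernel

theorem t6_7_8_0 : chkF keys 1 3 p6_7_0 c6_8
  [(245, 0, 0, 17053266, 34877541), (310, 0, 0, 105972786, 106041411), (310, 0, 0, 105972516, 105914691), (245, 0, 0, 16990806, 1262181)]
  [(245, 4), (310, -4)] = true := by
  decide +kernel

theorem t6_7_9_0 : chkF keys 1 3 p6_7_0 c6_9
  [(238, 0, 0, 33830481, 34878981), (310, 0, 0, 72418866, 39194691), (310, 0, 0, 72418086, 5644611), (238, 0, 0, 33767766, 1263141)]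
  [(238, 4), (310, -4)] = true := by
  decide +kernel

theorem t6_7_10_0 : chkF keys 1 3 p6_7_0 c6_10
  [(311, 0, 0, 105972786, 106041411), (312, 0, 0, 105972786, 106041411), (312, 0, 0, 105972516, 105914691), (311, 0, 0, 105910836, 105910836)]
  [(311, 4), (312, -4)] = true := by
  decide +kernel

theorem t6_7_11_0 : chkF keys 1 3 p6_7_0 c6_11
  [(252, 0, 0, 1254720, 2179920), (313, 0, 0, 5309490, 5378115), (313, 0, 0, 5309220, 5251395), (252, 0, 0, 1192005, 78930)]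
  [(252, 4), (313, -4)] = true := by
  decide +kernel

theorem t6_7_12_0 : chkF keys 1 3 p6_7_0 c6_12
  [(314, 0, 0, 105972786, 106041411), (239, 0, 0, 105972786, 106041411), (239, 0, 0, 105910836, 105910836), (314, 0, 0, 105972516, 105914691)]
  [(239, -8), (314, 8)] = true := by
  decide +kernel

theorem t6_7_13_0 : chkF keys 1 3 p6_7_0 c6_13
  [(315, 0, 0, 105972786, 106041411), (311, 0, 0, 73405731, 86376756), (311, 0, 0, 73466661, 84287811), (315, 0, 0, 105972516, 105914691)]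
  [(311, -8), (315, 8)] = true := by
  decide +kernel

theorem t6_7_14_0 : chkF keys 1 3 p6_7_0 c6_14
  [(316, 0, 0, 5309490, 5378115), (252, 0, 0, 5386500, 5256225), (252, 0, 0, 5448705, 5391105), (316, 0, 0, 5309220, 5251395)]
  [(252, -8), (316, 8)] = true := by
  decide +kernel

theorem t6_7_15_0 : chkF keys 1 3 p6_7_0 c6_15
  [(317, 0, 0, 66610, 135235), (241, 0, 0, 66610, 135235), (241, 0, 0, 4660, 4660), (317, 0, 0, 66340, 8515)]
  [(241, -8), (317, 8)] = true := by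
  decide +kernel

theorem t6_7_16_0 : chkF keys 1 3 p6_7_0 c6_16
  [(318, 0, 0, 5309490, 5378115), (319, 0, 0, 5248035, 5374260), (319, 0, 0, 5309220, 5251395), (318, 0, 0, 5309220, 5251395)]
  [(318, 8), (319, -8)] = true := by
  decide +kernel

theorem t6_7_17_0 : chkF keys 1 3 p6_7_0 c6_17
  [(123, 16, 16, 5448726, 5391126), (123, 16, 16, 5387361, 22164486), (131, 1, 1, 35009796, 69219921), (97, 1, 1, 33960276, 68171301), (97, 1, 1, 33776721, 51529221), (131, 1, 1, 34825221, 50480721), (123, 16, 16, 5448036, 22037286), (123, 16, 16, 5387796, 38810646)]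
  [(97, -4), (123, 8), (131, -4)] = true := by
  decide +kernel

theorem t6_7_18_0 : chkF keys 1 3 p6_7_0 c6_18
  [(131, 1, 1, 34825536, 52512336), (123, 16, 16, 5387361, 22164486), (131, 1, 1, 35009796, 69219921), (97, 1, 1, 33775941, 50415141), (97, 1, 1, 33961281, 69285381), (131, 1, 1, 34825221, 50480721), (123, 16, 16, 5448036, 22037286), (131, 1, 1, 35008581, 67188306)]
  [(97, -4), (123, -4), (131, 8)] = true := by
  decide +kernel

theorem t6_7_19_0 : chkF keys 1 3 p6_7_0 c6_19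
  [(117, 1, 1, 20210946, 52711521), (117, 1, 1, 51791136, 69427536), (124, 16, 16, 102765651, 101844276), (105, 1, 1, 51667461, 50618961), (105, 1, 1, 20333826, 69423201), (124, 16, 16, 39912276, 84944451), (117, 1, 1, 20209701, 50614626), (117, 1, 1, 51790341, 67330641)]
  [(105, -4), (117, 8), (124, -4)] = true := by
  decide +kernel

theorem t6_7_20_0 : chkF keys 1 3 p6_7_0 c6_20
  [(117, 1, 1, 51791136, 69427536), (124, 16, 16, 102827061, 100799811), (105, 1, 1, 51790416, 68379216), (124, 16, 16, 102765651, 101844276), (124, 16, 16, 39912276, 84944451), (105, 1, 1, 20209746, 51662946), (124, 16, 16, 39851316, 85988916), (117, 1, 1, 20209701, 50614626)]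
  [(105, -4), (117, -4), (124, 8)] = true := by
  decide +kernel

theorem t6_7_21_0 : chkF keys 1 3 p6_7_0 c6_21
  [(320, 0, 0, 105972786, 106041411), (320, 0, 0, 105911331, 106037556), (238, 0, 0, 88147506, 40177731), (236, 0, 0, 104924466, 103092291), (236, 0, 0, 104862261, 100995636), (238, 0, 0, 88085046, 6623796), (320, 0, 0, 105972516, 105914691), (320, 0, 0, 105910836, 105910836)]
  [(236, -4), (238, -4), (320, 8)] = true := by
  decide +kernel

theorem t6_7_22_0 : chkF keys 1 3 p6_7_0 c6_22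
  [(238, 0, 0, 88086051, 40173876), (320, 0, 0, 105911331, 106037556), (238, 0, 0, 88147506, 40177731), (236, 0, 0, 104863011, 103088436), (236, 0, 0, 104923941, 100999491), (238, 0, 0, 88085046, 6623796), (320, 0, 0, 105972516, 105914691), (238, 0, 0, 88146726, 6627651)]
  [(236, -4), (238, 8), (320, -4)] = true := by
  decide +kernel

theorem t6_7_23_0 : chkF keys 1 3 p6_7_0 c6_23
  [(321, 0, 0, 105972786, 106041411), (321, 0, 0, 105911331, 106037556), (238, 0, 0, 100876821, 100876821), (245, 0, 0, 100876581, 100876581), (245, 0, 0, 100939041, 103035141), (238, 0, 0, 100939026, 103034901), (321, 0, 0, 105972516, 105914691), (321, 0, 0, 105910836, 105910836)]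
  [(238, -4), (245, -4), (321, 8)] = true := by
  decide +kernel

theorem t6_7_24_0 : chkF keys 1 3 p6_7_0 c6_24
  [(238, 0, 0, 100938321, 101986821), (321, 0, 0, 105911331, 106037556), (238, 0, 0, 100876821, 100876821), (245, 0, 0, 100938066, 101986341), (245, 0, 0, 100876881, 101925381), (238, 0, 0, 100939026, 103034901), (321, 0, 0, 105972516, 105914691), (238, 0, 0, 100876626, 101924901)]
  [(238, 8), (245, -4), (321, -4)] = true := by
  decide +kernel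

theorem t6_7_25_0 : chkF keys 1 3 p6_7_0 c6_25
  [(322, 0, 0, 5309490, 5378115), (322, 0, 0, 5248035, 5374260), (240, 0, 0, 4261170, 2428995), (237, 0, 0, 4261170, 2428995), (237, 0, 0, 4198965, 332340), (240, 0, 0, 4198965, 332340), (322, 0, 0, 5309220, 5251395), (322, 0, 0, 5247540, 5247540)]
  [(237, -4), (240, -4), (322, 8)] = true := by
  decide +kernel

theorem t6_7_26_0 : chkF keys 1 3 p6_7_0 c6_26
  [(240, 0, 0, 4199715, 2425140), (322, 0, 0, 5248035, 5374260), (240, 0, 0, 4261170, 2428995), (237, 0, 0, 4199715, 2425140), (237, 0, 0, 4260645, 336195), (240, 0, 0, 4198965, 332340), (322, 0, 0, 5309220, 5251395), (240, 0, 0, 4260645, 336195)]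
  [(237, -4), (240, 8), (322, -4)] = true := by
  decide +kernel

theorem t6_8_8_0 : chkF keys 1 3 p6_8_0 c6_8
  [(246, 0, 0, 70321746, 35016771), (243, 0, 0, 88147506, 40177731), (243, 0, 0, 88146486, 6623811), (246, 0, 0, 70320741, 17191491)]
  [(243, -2), (246, 2)] = true := by
  decide +kernel

theorem t6_8_9_0 : chkF keys 1 3 p6_8_0 c6_9
  [(239, 0, 0, 33830481, 34878981), (236, 0, 0, 33898806, 4396581), (236, 0, 0, 33900081, 37950981), (239, 0, 0, 33829221, 17053221)]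
  [(236, -2), (239, 2)] = true := by
  decide +kernel

theorem t6_8_10_0 : chkF keys 1 3 p6_8_0 c6_10
  [(323, 0, 0, 105972786, 106041411), (243, 0, 0, 55641186, 22175811), (243, 0, 0, 55640676, 22045251), (323, 0, 0, 105972291, 105972291)]
  [(243, -2), (323, 2)] = true := by
  decide +kernel

theorem t6_8_11_0 : chkF keys 1 3 p6_8_0 c6_11
  [(253, 0, 0, 3212610, 2183235), (244, 0, 0, 5309490, 5378115), (244, 0, 0, 5308980, 5247555), (253, 0, 0, 3211860, 1069635)]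
  [(244, -2), (253, 2)] = true := by
  decide +kernel

theorem t6_8_12_0 : chkF keys 1 3 p6_8_0 c6_12
  [(239, 0, 0, 106181121, 106181121), (232, 0, 0, 106176771, 106169121), (232, 0, 0, 106177296, 106177296), (239, 0, 0, 106180866, 106180641)]
  [(232, -4), (239, 4)] = true := by
  decide +kernel

theorem t6_8_13_0 : chkF keys 1 3 p6_8_0 c6_13
  [(311, 0, 0, 73736976, 88482576), (229, 0, 0, 52773126, 4416801), (229, 0, 0, 52774416, 37971216), (311, 0, 0, 73736211, 88474386)]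
  [(229, -4), (311, 4)] = true := by
  decide +kernel

theorem t6_8_14_0 : chkF keys 1 3 p6_8_0 c6_14
  [(252, 0, 0, 5309490, 5378115), (231, 0, 0, 3490050, 4411425), (231, 0, 0, 3490320, 4411920), (252, 0, 0, 5308980, 5247555)]
  [(231, -4), (252, 4)] = true := by
  decide +kernel

theorem t6_8_15_0 : chkF keys 1 3 p6_8_0 c6_15
  [(241, 0, 0, 274945, 274945), (3, 0, 0, 205060, 17185), (3, 0, 0, 205840, 148240), (241, 0, 0, 274690, 274465)]
  [(3, -4), (241, 4)] = true := by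
  decide +kernel

theorem t6_8_16_0 : chkF keys 1 3 p6_8_0 c6_16
  [(324, 0, 0, 5309490, 5378115), (248, 0, 0, 3212610, 2183235), (248, 0, 0, 3211860, 1069635), (324, 0, 0, 5308980, 5247555)]
  [(248, -4), (324, 4)] = true := by
  decide +kernel

theorem t6_8_17_0 : chkF keys 1 3 p6_8_0 c6_17
  [(107, 16, 16, 55641636, 38822211), (85, 1, 1, 33899286, 4400661), (112, 16, 16, 38863716, 22029891), (112, 16, 16, 38864436, 38803011), (112, 16, 16, 38863926, 5379651), (112, 16, 16, 38863971, 22152771), (85, 1, 1, 33900051, 37946901), (107, 16, 16, 55641126, 5398851)]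
  [(85, 2), (107, 2), (112, -4)] = true := by
  decide +kernel

theorem t6_8_18_0 : chkF keys 1 3 p6_8_0 c6_18
  [(107, 16, 16, 55640676, 22045251), (85, 1, 1, 33899286, 4400661), (112, 16, 16, 38863716, 22029891), (85, 1, 1, 33898806, 4396581), (85, 1, 1, 33900081, 37950981), (112, 16, 16, 38863971, 22152771), (85, 1, 1, 33900051, 37946901), (107, 16, 16, 55641186, 22175811)]
  [(85, -4), (107, 2), (112, 2)] = true := by
  decide +kernel

theorem t6_8_19_0 : chkF keys 1 3 p6_8_0 c6_19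
  [(103, 16, 16, 103875156, 101732931), (116, 16, 16, 56689236, 84959811), (89, 16, 16, 86049891, 23201091), (89, 16, 16, 38864451, 38864451), (89, 16, 16, 86049606, 6366531), (89, 16, 16, 38863716, 22029891), (116, 16, 16, 103875666, 101863491), (103, 16, 16, 56689746, 85090371)]
  [(89, -4), (103, 2), (116, 2)] = true := by
  decide +kernel

theorem t6_8_20_0 : chkF keys 1 3 p6_8_0 c6_20
  [(116, 16, 16, 56689236, 84959811), (103, 16, 16, 103875876, 102781251), (116, 16, 16, 56689956, 86008131), (89, 16, 16, 86049891, 23201091), (89, 16, 16, 38863716, 22029891), (116, 16, 16, 103875621, 100815171), (103, 16, 16, 56689701, 84042051), (116, 16, 16, 103875666, 101863491)]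
  [(89, 2), (103, 2), (116, -4)] = true := by
  decide +kernel

theorem t6_8_21_0 : chkF keys 1 3 p6_8_0 c6_21
  [(311, 0, 0, 51717216, 21128016), (236, 0, 0, 51724806, 4416081), (310, 0, 0, 51794436, 70279761), (310, 0, 0, 51793956, 70279506), (310, 0, 0, 51794976, 70410576), (310, 0, 0, 51794946, 70410321), (236, 0, 0, 51725826, 37970001), (311, 0, 0, 51716196, 20996946)]
  [(236, 2), (310, -4), (311, 2)] = true := by
  decide +kernel

theorem t6_8_22_0 : chkF keys 1 3 p6_8_0 c6_22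
  [(311, 0, 0, 51717696, 37839696), (236, 0, 0, 51724806, 4416081), (310, 0, 0, 51794436, 70279761), (236, 0, 0, 51724326, 4415826), (236, 0, 0, 51725856, 37970256), (310, 0, 0, 51794946, 70410321), (236, 0, 0, 51725826, 37970001), (311, 0, 0, 51716166, 4285266)]
  [(236, -4), (310, 2), (311, 2)] = true := by
  decide +kernel

theorem t6_8_23_0 : chkF keys 1 3 p6_8_0 c6_23
  [(311, 0, 0, 68494896, 38146896), (245, 0, 0, 103875906, 102846531), (221, 0, 0, 51724806, 4416081), (221, 0, 0, 51724326, 4415826), (221, 0, 0, 51725856, 37970256), (221, 0, 0, 51725826, 37970001), (245, 0, 0, 103875141, 100749891), (311, 0, 0, 68493366, 4592466)]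
  [(221, -4), (245, 2), (311, 2)] = true := by
  decide +kernel

theorem t6_8_24_0 : chkF keys 1 3 p6_8_0 c6_24
  [(311, 0, 0, 68494176, 21373776), (245, 0, 0, 103875906, 102846531), (221, 0, 0, 51724806, 4416081), (245, 0, 0, 103875666, 101863491), (245, 0, 0, 103875156, 101732931), (221, 0, 0, 51725826, 37970001), (245, 0, 0, 103875141, 100749891), (311, 0, 0, 68493411, 21365586)]
  [(221, 2), (245, -4), (311, 2)] = true := by
  decide +kernel

theorem t6_8_25_0 : chkF keys 1 3 p6_8_0 c6_25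
  [(252, 0, 0, 3212610, 2183235), (237, 0, 0, 1393155, 4391505), (223, 0, 0, 1393155, 4391505), (223, 0, 0, 1392675, 4391250), (223, 0, 0, 1393440, 4399440), (223, 0, 0, 1393410, 4399185), (237, 0, 0, 1393410, 4399185), (252, 0, 0, 3211845, 86595)]
  [(223, -4), (237, 2), (252, 2)] = true := by
  decide +kernel

theorem t6_8_26_0 : chkF keys 1 3 p6_8_0 c6_26
  [(252, 0, 0, 3212370, 1200195), (237, 0, 0, 1393155, 4391505), (223, 0, 0, 1393155, 4391505), (237, 0, 0, 1392675, 4391250), (237, 0, 0, 1393440, 4399440), (223, 0, 0, 1393410, 4399185), (237, 0, 0, 1393410, 4399185), (252, 0, 0, 3211860, 1069635)]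
  [(223, 2), (237, -4), (252, 2)] = true := by
  decide +kernel

theorem t6_9_9_0 : chkF keys 1 3 p6_9_0 c6_9
  [(325, 0, 0, 106042416, 106042416), (235, 0, 0, 104990001, 103093251), (235, 0, 0, 104988981, 100996131), (325, 0, 0, 106041411, 105972786)]
  [(235, -2), (325, 2)] = true := by
  decide +kernel

theorem t6_9_10_0 : chkF keys 1 3 p6_9_0 c6_10
  [(326, 0, 0, 106042416, 106042416), (236, 0, 0, 55706721, 22176771), (236, 0, 0, 55705956, 22045731), (326, 0, 0, 106041411, 105972786)]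
  [(236, -2), (326, 2)] = true := by
  decide +kernel

theorem t6_9_11_0 : chkF keys 1 3 p6_9_0 c6_11
  [(261, 0, 0, 1393440, 4399440), (237, 0, 0, 5375025, 5379075), (237, 0, 0, 5374260, 5248035), (261, 0, 0, 1392690, 4395090)]
  [(237, -2), (261, 2)] = true := by
  decide +kernel

theorem t6_9_12_0 : chkF keys 1 3 p6_9_0 c6_12
  [(325, 0, 0, 70391376, 35017776), (232, 0, 0, 106111236, 105923361), (232, 0, 0, 106112016, 106054416), (325, 0, 0, 70389846, 1463346)]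
  [(232, -4), (325, 4)] = true := by
  decide +kernel

theorem t6_9_13_0 : chkF keys 1 3 p6_9_0 c6_13
  [(327, 0, 0, 106042416, 106042416), (228, 0, 0, 52838661, 67331361), (228, 0, 0, 52839696, 69428496), (327, 0, 0, 106041396, 105911346)]
  [(228, -4), (327, 4)] = true := by
  decide +kernel

theorem t6_9_14_0 : chkF keys 1 3 p6_9_0 c6_14
  [(257, 0, 0, 3490320, 4411920), (233, 0, 0, 3490050, 4411425), (233, 0, 0, 3490320, 4411920), (257, 0, 0, 3489810, 4411410)]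
  [(233, -4), (257, 4)] = true := by
  decide +kernel

theorem t6_9_15_0 : chkF keys 1 3 p6_9_0 c6_15
  [(264, 0, 0, 136240, 136240), (3, 0, 0, 270595, 262945), (3, 0, 0, 271120, 271120), (264, 0, 0, 135220, 5170)]
  [(3, -4), (264, 4)] = true := by
  decide +kernel

theorem t6_9_16_0 : chkF keys 1 3 p6_9_0 c6_16
  [(328, 0, 0, 5379120, 5379120), (242, 0, 0, 3278145, 2184195), (242, 0, 0, 3277140, 1070115), (328, 0, 0, 5378100, 5248050)]
  [(242, -4), (328, 4)] = true := by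
  decide +kernel

theorem t6_9_17_0 : chkF keys 1 3 p6_9_0 c6_17
  [(127, 1, 1, 1324626, 34877526), (83, 16, 16, 37951056, 34948656), (112, 16, 16, 39060321, 22291971), (112, 16, 16, 39061041, 39065091), (112, 16, 16, 39059766, 5510691), (112, 16, 16, 39059811, 22283811), (83, 16, 16, 37949526, 1394226), (127, 1, 1, 1323606, 1323606)]
  [(83, 2), (112, -4), (127, 2)] = true := by
  decide +kernel

theorem t6_9_18_0 : chkF keys 1 3 p6_9_0 c6_18
  [(127, 1, 1, 1324386, 19148886), (83, 16, 16, 37951056, 34948656), (112, 16, 16, 39060321, 22291971), (83, 16, 16, 37950816, 19220016), (83, 16, 16, 37949541, 17122866), (112, 16, 16, 39059811, 22283811), (83, 16, 16, 37949526, 1394226), (127, 1, 1, 1323621, 17052246)]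
  [(83, -4), (112, 2), (127, 2)] = true := by
  decide +kernel

theorem t6_9_19_0 : chkF keys 1 3 p6_9_0 c6_19
  [(109, 1, 1, 20337666, 70406241), (140, 16, 16, 39064416, 22292016), (85, 16, 16, 86185056, 23217456), (85, 16, 16, 38999616, 38880816), (85, 16, 16, 86184006, 6374706), (85, 16, 16, 38998116, 22038066), (140, 16, 16, 86249571, 23332146), (109, 1, 1, 51794436, 70279761)]
  [(85, -4), (109, 2), (140, 2)] = true := by
  decide +kernel

theorem t6_9_20_0 : chkF keys 1 3 p6_9_0 c6_20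
  [(140, 16, 16, 39064416, 22292016), (109, 1, 1, 20336706, 70340706), (140, 16, 16, 39065136, 39065136), (85, 16, 16, 86185056, 23217456), (85, 16, 16, 38998116, 22038066), (140, 16, 16, 86249526, 6559026), (109, 1, 1, 51794496, 70345296), (140, 16, 16, 86249571, 23332146)]
  [(85, 2), (109, 2), (140, -4)] = true := by
  decide +kernel

theorem t6_9_21_0 : chkF keys 1 3 p6_9_0 c6_21
  [(327, 0, 0, 70391376, 35017776), (235, 0, 0, 55707201, 38888451), (310, 0, 0, 51663366, 3433041), (310, 0, 0, 51662886, 3432786), (310, 0, 0, 51664416, 36987216), (310, 0, 0, 51664386, 36986961), (235, 0, 0, 55705926, 5334051), (327, 0, 0, 70389846, 1463346)]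
  [(235, 2), (310, -4), (327, 2)] = true := by
  decide +kernel

theorem t6_9_22_0 : chkF keys 1 3 p6_9_0 c6_22
  [(327, 0, 0, 70391136, 19289136), (235, 0, 0, 55707201, 38888451), (310, 0, 0, 51663366, 3433041), (235, 0, 0, 55706721, 22176771), (235, 0, 0, 55705956, 22045731), (310, 0, 0, 51664386, 36986961), (235, 0, 0, 55705926, 5334051), (327, 0, 0, 70389861, 17191986)]
  [(235, -4), (310, 2), (327, 2)] = true := by
  decide +kernel

theorem t6_9_23_0 : chkF keys 1 3 p6_9_0 c6_23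
  [(327, 0, 0, 103945536, 102847536), (238, 0, 0, 103941441, 102847491), (220, 0, 0, 101929476, 103826001), (220, 0, 0, 101928996, 103825746), (220, 0, 0, 101930016, 103956816), (220, 0, 0, 101929986, 103956561), (238, 0, 0, 103940421, 100750371), (327, 0, 0, 103944261, 100750386)]
  [(220, -4), (238, 2), (327, 2)] = true := by
  decide +kernel

theorem t6_9_24_0 : chkF keys 1 3 p6_9_0 c6_24
  [(327, 0, 0, 103945296, 101864496), (238, 0, 0, 103941441, 102847491), (220, 0, 0, 101929476, 103826001), (238, 0, 0, 103941201, 101864451), (238, 0, 0, 103940436, 101733411), (220, 0, 0, 101929986, 103956561), (238, 0, 0, 103940421, 100750371), (327, 0, 0, 103944276, 101733426)]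
  [(220, 2), (238, -4), (327, 2)] = true := by
  decide +kernel

theorem t6_9_25_0 : chkF keys 1 3 p6_9_0 c6_25
  [(257, 0, 0, 1393440, 4399440), (240, 0, 0, 3278145, 2184195), (223, 0, 0, 1262085, 213585), (223, 0, 0, 1261605, 213330), (223, 0, 0, 1262880, 2310480), (223, 0, 0, 1262850, 2310225), (240, 0, 0, 3277125, 87075), (257, 0, 0, 1392675, 4391250)]
  [(223, -4), (240, 2), (257, 2)] = true := by
  decide +kernel

theorem t6_9_26_0 : chkF keys 1 3 p6_9_0 c6_26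
  [(257, 0, 0, 1393200, 4395600), (240, 0, 0, 3278145, 2184195), (223, 0, 0, 1262085, 213585), (240, 0, 0, 3277905, 1201155), (240, 0, 0, 3277140, 1070115), (223, 0, 0, 1262850, 2310225), (240, 0, 0, 3277125, 87075), (257, 0, 0, 1392690, 4395090)]
  [(223, 2), (240, -4), (257, 2)] = true := by
  decide +kernel

theorem t6_10_10_0 : chkF keys 1 3 p6_10_0 c6_10
  [(329, 0, 0, 106107936, 106053936), (243, 0, 0, 39195696, 72488496), (243, 0, 0, 39194676, 72357426), (329, 0, 0, 106106946, 105988146)]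
  [(243, -2), (329, 2)] = true := by
  decide +kernel

theorem t6_10_11_0 : chkF keys 1 3 p6_10_0 c6_11
  [(330, 0, 0, 5444640, 5390640), (244, 0, 0, 5444640, 5390640), (244, 0, 0, 5443620, 5259570), (330, 0, 0, 5443650, 5324850)]
  [(244, -2), (330, 2)] = true := by
  decide +kernel

theorem t6_10_12_0 : chkF keys 1 3 p6_10_0 c6_12
  [(256, 0, 0, 106054416, 106112016), (224, 0, 0, 106053891, 106103841), (224, 0, 0, 106054416, 106112016), (256, 0, 0, 106053651, 106103826)]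
  [(224, -4), (256, 4)] = true := by
  decide +kernel

theorem t6_10_13_0 : chkF keys 1 3 p6_10_0 c6_13
  [(331, 0, 0, 106107936, 106053936), (221, 0, 0, 56774916, 87057441), (221, 0, 0, 56775696, 87188496), (331, 0, 0, 106106916, 105922866)]
  [(221, -4), (331, 4)] = true := by
  decide +kernel

theorem t6_10_14_0 : chkF keys 1 3 p6_10_0 c6_14
  [(332, 0, 0, 5444640, 5390640), (223, 0, 0, 3297540, 3167265), (223, 0, 0, 3298320, 3298320), (332, 0, 0, 5443620, 5259570)]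
  [(223, -4), (332, 4)] = true := by
  decide +kernel

theorem t6_10_15_0 : chkF keys 1 3 p6_10_0 c6_15
  [(258, 0, 0, 148240, 205840), (225, 0, 0, 147715, 197665), (225, 0, 0, 148240, 205840), (258, 0, 0, 147475, 197650)]
  [(225, -4), (258, 4)] = true := by
  decide +kernel

theorem t6_10_16_0 : chkF keys 1 3 p6_10_0 c6_16
  [(333, 0, 0, 5444640, 5390640), (324, 0, 0, 2364240, 1320240), (324, 0, 0, 2363445, 267570), (333, 0, 0, 5443620, 5259570)]
  [(324, -4), (333, 4)] = true := by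
  decide +kernel

theorem t6_10_17_0 : chkF keys 1 3 p6_10_0 c6_17
  [(130, 1, 1, 1270866, 51527766), (99, 16, 16, 39065136, 39065136), (147, 1, 1, 33776916, 52446741), (147, 1, 1, 33775956, 51398181), (147, 1, 1, 33776721, 51529221), (147, 1, 1, 33776661, 50480661), (99, 16, 16, 39063606, 5510706), (130, 1, 1, 1270356, 51397206)]
  [(99, 2), (130, 2), (147, -4)] = true := by
  decide +kernel

theorem t6_10_18_0 : chkF keys 1 3 p6_10_0 c6_18
  [(130, 1, 1, 1271106, 52510806), (99, 16, 16, 39065136, 39065136), (147, 1, 1, 33776916, 52446741), (99, 16, 16, 39064416, 22292016), (99, 16, 16, 39063651, 22283826), (147, 1, 1, 33776661, 50480661), (99, 16, 16, 39063606, 5510706), (130, 1, 1, 1270341, 50414166)]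
  [(99, -4), (130, 2), (147, 2)] = true := by
  decide +kernel

theorem t6_10_19_0 : chkF keys 1 3 p6_10_0 c6_19
  [(115, 1, 1, 19162371, 52692321), (148, 1, 1, 3433746, 52711446), (96, 16, 16, 103028016, 103028016), (96, 16, 16, 40112976, 85206576), (96, 16, 16, 103026771, 101975346), (96, 16, 16, 40112181, 84153906), (148, 1, 1, 50618901, 50618901), (115, 1, 1, 34890501, 50603601)]
  [(96, -4), (115, 2), (148, 2)] = true := by
  decide +kernel

theorem t6_10_20_0 : chkF keys 1 3 p6_10_0 c6_20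
  [(148, 1, 1, 3433746, 52711446), (115, 1, 1, 19161171, 51643746), (148, 1, 1, 3432786, 51662886), (96, 16, 16, 103028016, 103028016), (96, 16, 16, 40112181, 84153906), (148, 1, 1, 50618961, 51667461), (115, 1, 1, 34890576, 51652176), (148, 1, 1, 50618901, 50618901)]
  [(96, 2), (115, 2), (148, -4)] = true := by
  decide +kernel

theorem t6_10_21_0 : chkF keys 1 3 p6_10_0 c6_21
  [(331, 0, 0, 52762176, 37840176), (245, 0, 0, 37033536, 37836336), (312, 0, 0, 51533316, 36725841), (312, 0, 0, 51531876, 19948626), (312, 0, 0, 51532896, 20079696), (312, 0, 0, 51532806, 3302481), (245, 0, 0, 37032006, 4281906), (331, 0, 0, 52760646, 4285746)]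
  [(245, 2), (312, -4), (331, 2)] = true := by
  decide +kernel

theorem t6_10_22_0 : chkF keys 1 3 p6_10_0 c6_22
  [(331, 0, 0, 52761696, 21128496), (245, 0, 0, 37033536, 37836336), (312, 0, 0, 51533316, 36725841), (245, 0, 0, 37033056, 21124656), (245, 0, 0, 37032036, 20993586), (312, 0, 0, 51532806, 3302481), (245, 0, 0, 37032006, 4281906), (331, 0, 0, 52760676, 20997426)]
  [(245, -4), (312, 2), (331, 2)] = true := by
  decide +kernel

theorem t6_10_23_0 : chkF keys 1 3 p6_10_0 c6_23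
  [(331, 0, 0, 103028016, 103028016), (311, 0, 0, 67327506, 37109781), (310, 0, 0, 68313861, 50734161), (310, 0, 0, 68313141, 50730066), (310, 0, 0, 68314416, 52827216), (310, 0, 0, 68314371, 52823121), (311, 0, 0, 67326486, 3555861), (331, 0, 0, 103026741, 100930866)]
  [(310, -4), (311, 2), (331, 2)] = true := by
  decide +kernel

theorem t6_10_24_0 : chkF keys 1 3 p6_10_0 c6_24
  [(331, 0, 0, 103027536, 101983536), (311, 0, 0, 67327506, 37109781), (310, 0, 0, 68313861, 50734161), (311, 0, 0, 67326306, 20332581), (311, 0, 0, 67326561, 20333061), (310, 0, 0, 68314371, 52823121), (311, 0, 0, 67326486, 3555861), (331, 0, 0, 103026771, 101975346)]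
  [(310, 2), (311, -4), (331, 2)] = true := by
  decide +kernel

theorem t6_10_25_0 : chkF keys 1 3 p6_10_0 c6_25
  [(332, 0, 0, 2364720, 2364720), (252, 0, 0, 2364720, 2364720), (313, 0, 0, 1200900, 3155025), (313, 0, 0, 1200180, 3150930), (313, 0, 0, 1201200, 3282000), (313, 0, 0, 1201155, 3277905), (252, 0, 0, 2363445, 267570), (332, 0, 0, 2363445, 267570)]
  [(252, 2), (313, -4), (332, 2)] = true := by
  decide +kernel

theorem t6_10_26_0 : chkF keys 1 3 p6_10_0 c6_26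
  [(332, 0, 0, 2364240, 1320240), (252, 0, 0, 2364720, 2364720), (313, 0, 0, 1200900, 3155025), (252, 0, 0, 2364240, 1320240), (252, 0, 0, 2363475, 1312050), (313, 0, 0, 1201155, 3277905), (252, 0, 0, 2363445, 267570), (332, 0, 0, 2363475, 1312050)]
  [(252, -4), (313, 2), (332, 2)] = true := by
  decide +kernel

theorem t6_11_11_0 : chkF keys 1 3 p6_11_0 c6_11
  [(262, 0, 0, 267040, 270640), (247, 0, 0, 267040, 270640), (247, 0, 0, 266275, 262450), (262, 0, 0, 266290, 266290)]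
  [(247, -2), (262, 2)] = true := by
  decide +kernel

theorem t6_11_12_0 : chkF keys 1 3 p6_11_0 c6_12
  [(261, 0, 0, 3282240, 2184240), (250, 0, 0, 5517570, 5517345), (250, 0, 0, 5517840, 5517840), (261, 0, 0, 3280965, 87090)]
  [(250, -4), (261, 4)] = true := by
  decide +kernel

theorem t6_11_13_0 : chkF keys 1 3 p6_11_0 c6_13
  [(332, 0, 0, 5509920, 5513520), (231, 0, 0, 3297540, 3167265), (231, 0, 0, 3298320, 3298320), (332, 0, 0, 5509155, 5505330)]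
  [(231, -4), (332, 4)] = true := by
  decide +kernel

theorem t6_11_14_0 : chkF keys 1 3 p6_11_0 c6_14
  [(258, 0, 0, 213520, 213520), (3, 0, 0, 274690, 274465), (3, 0, 0, 274960, 274960), (258, 0, 0, 213010, 213010)]
  [(3, -4), (258, 4)] = true := by
  decide +kernel

theorem t6_11_15_0 : chkF keys 1 3 p6_11_0 c6_15
  [(43, 0, 0, 12546, 12321), (41, 0, 0, 531, 531), (41, 0, 0, 801, 8451), (43, 0, 0, 12801, 12801)]
  [(41, -4), (43, 4)] = true := by
  decide +kernel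

theorem t6_11_16_0 : chkF keys 1 3 p6_11_0 c6_16
  [(269, 0, 0, 78880, 143680), (254, 0, 0, 136000, 74800), (254, 0, 0, 135220, 5170), (269, 0, 0, 77860, 12610)]
  [(254, -4), (269, 4)] = true := by
  decide +kernel

theorem t6_11_17_0 : chkF keys 1 3 p6_11_0 c6_17
  [(58, 16, 16, 1200900, 3155025), (86, 1, 1, 2118420, 3155220), (135, 1, 1, 2176005, 144705), (135, 1, 1, 2175045, 79170), (135, 1, 1, 2176320, 2176320), (135, 1, 1, 2176260, 2110785), (86, 1, 1, 2118675, 3278100), (58, 16, 16, 1201155, 3277905)]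
  [(58, 2), (86, 2), (135, -4)] = true := by
  decide +kernel

theorem t6_11_18_0 : chkF keys 1 3 p6_11_0 c6_18
  [(58, 16, 16, 1200180, 3150930), (86, 1, 1, 2118420, 3155220), (135, 1, 1, 2176005, 144705), (86, 1, 1, 2117940, 3151140), (86, 1, 1, 2118705, 3282180), (135, 1, 1, 2176260, 2110785), (86, 1, 1, 2118675, 3278100), (58, 16, 16, 1201200, 3282000)]
  [(58, 2), (86, -4), (135, 2)] = true := by
  decide +kernel

theorem t6_11_19_0 : chkF keys 1 3 p6_11_0 c6_19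
  [(52, 1, 1, 1266180, 3162705), (143, 16, 16, 2364240, 1320240), (48, 16, 16, 5252145, 5378820), (48, 16, 16, 336705, 4268805), (48, 16, 16, 5251395, 5309220), (48, 16, 16, 336180, 4199205), (143, 16, 16, 4329555, 1377330), (52, 1, 1, 3232770, 3297345)]
  [(48, -4), (52, 2), (143, 2)] = true := by
  decide +kernel

theorem t6_11_20_0 : chkF keys 1 3 p6_11_0 c6_20
  [(143, 16, 16, 2364240, 1320240), (52, 1, 1, 1265700, 3162450), (143, 16, 16, 2364720, 2364720), (48, 16, 16, 5252145, 5378820), (48, 16, 16, 336180, 4199205), (143, 16, 16, 4329525, 332850), (52, 1, 1, 3232800, 3297600), (143, 16, 16, 4329555, 1377330)]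
  [(48, 2), (52, 2), (143, -4)] = true := by
  decide +kernel

theorem t6_11_21_0 : chkF keys 1 3 p6_11_0 c6_21
  [(332, 0, 0, 3282240, 2184240), (237, 0, 0, 3232260, 3166785), (313, 0, 0, 3232260, 3166785), (313, 0, 0, 3231780, 3166530), (313, 0, 0, 3232800, 3297600), (313, 0, 0, 3232770, 3297345), (237, 0, 0, 3232770, 3297345), (332, 0, 0, 3280965, 87090)]
  [(237, 2), (313, -4), (332, 2)] = true := by
  decide +kernel

theorem t6_11_22_0 : chkF keys 1 3 p6_11_0 c6_22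
  [(332, 0, 0, 3282000, 1201200), (237, 0, 0, 3232260, 3166785), (313, 0, 0, 3232260, 3166785), (237, 0, 0, 3231780, 3166530), (237, 0, 0, 3232800, 3297600), (313, 0, 0, 3232770, 3297345), (237, 0, 0, 3232770, 3297345), (332, 0, 0, 3280980, 1070130)]
  [(237, -4), (313, 2), (332, 2)] = true := by
  decide +kernel

theorem t6_11_23_0 : chkF keys 1 3 p6_11_0 c6_23
  [(332, 0, 0, 5379120, 5379120), (252, 0, 0, 5379120, 5379120), (223, 0, 0, 3232260, 3166785), (223, 0, 0, 3231780, 3166530), (223, 0, 0, 3232800, 3297600), (223, 0, 0, 3232770, 3297345), (252, 0, 0, 5378100, 5248050), (332, 0, 0, 5378100, 5248050)]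
  [(223, -4), (252, 2), (332, 2)] = true := by
  decide +kernel

theorem t6_11_24_0 : chkF keys 1 3 p6_11_0 c6_24
  [(332, 0, 0, 5378880, 5317680), (252, 0, 0, 5379120, 5379120), (223, 0, 0, 3232260, 3166785), (252, 0, 0, 5378880, 5317680), (252, 0, 0, 5378115, 5309490), (223, 0, 0, 3232770, 3297345), (252, 0, 0, 5378100, 5248050), (332, 0, 0, 5378115, 5309490)]
  [(223, 2), (252, -4), (332, 2)] = true := by
  decide +kernel

theorem t6_11_25_0 : chkF keys 1 3 p6_11_0 c6_25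
  [(258, 0, 0, 82720, 205120), (241, 0, 0, 82435, 197185), (225, 0, 0, 82435, 197185), (225, 0, 0, 81955, 196930), (225, 0, 0, 82720, 205120), (225, 0, 0, 82690, 204865), (241, 0, 0, 82690, 204865), (258, 0, 0, 81955, 196930)]
  [(225, -4), (241, 2), (258, 2)] = true := by
  decide +kernel

theorem t6_11_26_0 : chkF keys 1 3 p6_11_0 c6_26
  [(258, 0, 0, 82480, 201280), (241, 0, 0, 82435, 197185), (225, 0, 0, 82435, 197185), (241, 0, 0, 81955, 196930), (241, 0, 0, 82720, 205120), (225, 0, 0, 82690, 204865), (241, 0, 0, 82690, 204865), (258, 0, 0, 81970, 200770)]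
  [(225, 2), (241, -4), (258, 2)] = true := by
  decide +kernel

theorem t6_12_12_0 : chkF keys 1 3 p6_12_0 c6_12
  [(334, 0, 0, 106112016, 106054416), (260, 0, 0, 106112001, 106054401), (260, 0, 0, 106111236, 105923361), (334, 0, 0, 106111236, 105923361)]
  [(260, -8), (334, 8)] = true := by
  decide +kernel

theorem t6_12_13_0 : chkF keys 1 3 p6_12_0 c6_13
  [(335, 0, 0, 106112016, 106054416), (256, 0, 0, 52843521, 70411521), (256, 0, 0, 52842756, 70280481), (335, 0, 0, 106111236, 105923361)]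
  [(256, -8), (335, 8)] = true := by
  decide +kernel

theorem t6_12_14_0 : chkF keys 1 3 p6_12_0 c6_14
  [(336, 0, 0, 5448720, 5391120), (261, 0, 0, 5447940, 5260065), (261, 0, 0, 5448705, 5391105), (336, 0, 0, 5447940, 5260065)]
  [(261, -8), (336, 8)] = true := by
  decide +kernel

theorem t6_12_15_0 : chkF keys 1 3 p6_12_0 c6_15
  [(337, 0, 0, 205840, 148240), (262, 0, 0, 205825, 148225), (262, 0, 0, 205060, 17185), (337, 0, 0, 205060, 17185)]
  [(262, -8), (337, 8)] = true := by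
  decide +kernel

theorem t6_12_16_0 : chkF keys 1 3 p6_12_0 c6_16
  [(338, 0, 0, 5448720, 5391120), (339, 0, 0, 5448705, 5391105), (339, 0, 0, 5447940, 5260065), (338, 0, 0, 5447940, 5260065)]
  [(338, 8), (339, -8)] = true := by
  decide +kernel

theorem t6_12_17_0 : chkF keys 1 3 p6_12_0 c6_17
  [(184, 16, 16, 40121616, 86259216), (184, 16, 16, 40121601, 86259201), (185, 1, 1, 1324581, 33829206), (17, 1, 1, 17052966, 2371941), (17, 1, 1, 17053221, 33829221), (185, 1, 1, 1324326, 2371926), (184, 16, 16, 40120581, 84162081), (184, 16, 16, 40120341, 84162066)]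
  [(17, -4), (184, 8), (185, -4)] = true := by
  decide +kernel

theorem t6_12_18_0 : chkF keys 1 3 p6_12_0 c6_18
  [(185, 1, 1, 1324626, 34877526), (184, 16, 16, 40121601, 86259201), (185, 1, 1, 1324581, 33829206), (17, 1, 1, 17053026, 19148901), (17, 1, 1, 17052261, 17052261), (185, 1, 1, 1324326, 2371926), (184, 16, 16, 40120581, 84162081), (185, 1, 1, 1323606, 1323606)]
  [(17, -4), (184, -4), (185, 8)] = true := by
  decide +kernel

theorem t6_12_19_0 : chkF keys 1 3 p6_12_0 c6_19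
  [(22, 16, 16, 86259201, 40121601), (22, 16, 16, 39073296, 39073296), (186, 16, 16, 103036161, 103036161), (185, 16, 16, 40121601, 86259201), (185, 16, 16, 103035141, 100939041), (186, 16, 16, 40120581, 84162081), (22, 16, 16, 86257686, 6567186), (22, 16, 16, 39072006, 5518881)]
  [(22, 8), (185, -4), (186, -4)] = true := by
  decide +kernel

theorem t6_12_20_0 : chkF keys 1 3 p6_12_0 c6_20
  [(22, 16, 16, 39073296, 39073296), (186, 16, 16, 103036176, 103036176), (185, 16, 16, 40121616, 86259216), (186, 16, 16, 103036161, 103036161), (186, 16, 16, 40120581, 84162081), (185, 16, 16, 103034901, 100939026), (186, 16, 16, 40120341, 84162066), (22, 16, 16, 86257686, 6567186)]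
  [(22, -4), (185, -4), (186, 8)] = true := by
  decide +kernel

theorem t6_12_21_0 : chkF keys 1 3 p6_12_0 c6_21
  [(340, 0, 0, 106112016, 106054416), (340, 0, 0, 106112001, 106054401), (256, 0, 0, 35017476, 70264401), (246, 0, 0, 37114881, 70407681), (246, 0, 0, 37114116, 70276641), (256, 0, 0, 35017731, 70387281), (340, 0, 0, 106111236, 105923361), (340, 0, 0, 106110996, 105923346)]
  [(246, -4), (256, -4), (340, 8)] = true := by
  decide +kernel

theorem t6_12_22_0 : chkF keys 1 3 p6_12_0 c6_22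
  [(256, 0, 0, 35017536, 70329936), (340, 0, 0, 106112001, 106054401), (256, 0, 0, 35017476, 70264401), (246, 0, 0, 37114896, 70407696), (246, 0, 0, 37113876, 70276626), (256, 0, 0, 35017731, 70387281), (340, 0, 0, 106111236, 105923361), (256, 0, 0, 35016771, 70321746)]
  [(246, -4), (256, 8), (340, -4)] = true := by
  decide +kernel

theorem t6_12_23_0 : chkF keys 1 3 p6_12_0 c6_23
  [(341, 0, 0, 106112016, 106054416), (341, 0, 0, 106112001, 106054401), (325, 0, 0, 39073281, 39073281), (239, 0, 0, 37114896, 70407696), (239, 0, 0, 37113876, 70276626), (325, 0, 0, 39072006, 5518881), (341, 0, 0, 106111236, 105923361), (341, 0, 0, 106110996, 105923346)]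
  [(239, -4), (325, -4), (341, 8)] = true := by
  decide +kernel

theorem t6_12_24_0 : chkF keys 1 3 p6_12_0 c6_24
  [(325, 0, 0, 39073296, 39073296), (341, 0, 0, 106112001, 106054401), (325, 0, 0, 39073281, 39073281), (239, 0, 0, 37114881, 70407681), (239, 0, 0, 37114116, 70276641), (325, 0, 0, 39072006, 5518881), (341, 0, 0, 106111236, 105923361), (325, 0, 0, 39071766, 5518866)]
  [(239, -4), (325, 8), (341, -4)] = true := by
  decide +kernel

theorem t6_12_25_0 : chkF keys 1 3 p6_12_0 c6_25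
  [(342, 0, 0, 5448720, 5391120), (342, 0, 0, 5448705, 5391105), (261, 0, 0, 4400385, 2441985), (253, 0, 0, 2441985, 4400385), (253, 0, 0, 2441475, 4392225), (261, 0, 0, 4399365, 344865), (342, 0, 0, 5447940, 5260065), (342, 0, 0, 5447700, 5260050)]
  [(253, -4), (261, -4), (342, 8)] = true := by
  decide +kernel

theorem t6_12_26_0 : chkF keys 1 3 p6_12_0 c6_26
  [(261, 0, 0, 4400400, 2442000), (342, 0, 0, 5448705, 5391105), (261, 0, 0, 4400385, 2441985), (253, 0, 0, 2442000, 4400400), (253, 0, 0, 2441235, 4392210), (261, 0, 0, 4399365, 344865), (342, 0, 0, 5447940, 5260065), (261, 0, 0, 4399125, 344850)]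
  [(253, -4), (261, 8), (342, -4)] = true := by
  decide +kernel

theorem t6_13_13_0 : chkF keys 1 3 p6_13_0 c6_13
  [(343, 0, 0, 106112016, 106054416), (255, 0, 0, 52843521, 70411521), (255, 0, 0, 52842756, 70280481), (343, 0, 0, 106111236, 105923361)]
  [(255, -8), (343, 8)] = true := by
  decide +kernel

theorem t6_13_14_0 : chkF keys 1 3 p6_13_0 c6_14
  [(344, 0, 0, 5448720, 5391120), (257, 0, 0, 5447940, 5260065), (257, 0, 0, 5448705, 5391105), (344, 0, 0, 5447940, 5260065)]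
  [(257, -8), (344, 8)] = true := by
  decide +kernel

theorem t6_13_15_0 : chkF keys 1 3 p6_13_0 c6_15
  [(4, 0, 0, 66610, 135235), (258, 0, 0, 205060, 17185), (258, 0, 0, 205825, 148225), (4, 0, 0, 66340, 8515)]
  [(4, 8), (258, -8)] = true := by
  decide +kernel

theorem t6_13_16_0 : chkF keys 1 3 p6_13_0 c6_16
  [(345, 0, 0, 5448720, 5391120), (346, 0, 0, 5448705, 5391105), (346, 0, 0, 5447940, 5260065), (345, 0, 0, 5447940, 5260065)]
  [(345, 8), (346, -8)] = true := by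
  decide +kernel

theorem t6_13_17_0 : chkF keys 1 3 p6_13_0 c6_17
  [(125, 16, 16, 39073296, 39073296), (125, 16, 16, 39073281, 39073281), (130, 1, 1, 1324326, 2371926), (99, 16, 16, 39207681, 72558081), (99, 16, 16, 39207171, 72549921), (130, 1, 1, 1324581, 33829206), (125, 16, 16, 39072006, 5518881), (125, 16, 16, 39071766, 5518866)]
  [(99, -4), (125, 8), (130, -4)] = true := by
  decide +kernel

theorem t6_13_18_0 : chkF keys 1 3 p6_13_0 c6_18
  [(130, 1, 1, 1324386, 19148886), (125, 16, 16, 39073281, 39073281), (130, 1, 1, 1324326, 2371926), (99, 16, 16, 39207696, 72558096), (99, 16, 16, 39206931, 72549906), (130, 1, 1, 1324581, 33829206), (125, 16, 16, 39072006, 5518881), (130, 1, 1, 1323621, 17052246)]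
  [(99, -4), (125, -4), (130, 8)] = true := by
  decide +kernel

theorem t6_13_19_0 : chkF keys 1 3 p6_13_0 c6_19
  [(173, 16, 16, 103105281, 105063681), (173, 16, 16, 40190736, 88286736), (106, 1, 1, 20332581, 67326306), (130, 16, 16, 6567201, 86257926), (130, 16, 16, 100938021, 100938021), (106, 1, 1, 51791136, 69427536), (173, 16, 16, 103104531, 105055506), (173, 16, 16, 40190211, 88278561)]
  [(106, -4), (130, -4), (173, 8)] = true := by
  decide +kernel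

theorem t6_13_20_0 : chkF keys 1 3 p6_13_0 c6_20
  [(173, 16, 16, 40190736, 88286736), (106, 1, 1, 20332626, 68374626), (130, 16, 16, 6567186, 86257686), (106, 1, 1, 20332581, 67326306), (106, 1, 1, 51791136, 69427536), (130, 16, 16, 100938261, 100938261), (106, 1, 1, 51790416, 68379216), (173, 16, 16, 103104531, 105055506)]
  [(106, 8), (130, -4), (173, -4)] = true := by
  decide +kernel

theorem t6_13_21_0 : chkF keys 1 3 p6_13_0 c6_21
  [(347, 0, 0, 106112016, 106054416), (347, 0, 0, 106112001, 106054401), (331, 0, 0, 52843521, 70411521), (245, 0, 0, 37114881, 70407681), (245, 0, 0, 37114116, 70276641), (331, 0, 0, 52842756, 70280481), (347, 0, 0, 106111236, 105923361), (347, 0, 0, 106110996, 105923346)]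
  [(245, -4), (331, -4), (347, 8)] = true := by
  decide +kernel

theorem t6_13_22_0 : chkF keys 1 3 p6_13_0 c6_22
  [(331, 0, 0, 52843536, 70411536), (347, 0, 0, 106112001, 106054401), (331, 0, 0, 52843521, 70411521), (245, 0, 0, 37114896, 70407696), (245, 0, 0, 37113876, 70276626), (331, 0, 0, 52842756, 70280481), (347, 0, 0, 106111236, 105923361), (331, 0, 0, 52842516, 70280466)]
  [(245, -4), (331, 8), (347, -4)] = true := by
  decide +kernel

theorem t6_13_23_0 : chkF keys 1 3 p6_13_0 c6_23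
  [(348, 0, 0, 106112016, 106054416), (348, 0, 0, 106112001, 106054401), (327, 0, 0, 37114881, 70407681), (238, 0, 0, 37114896, 70407696), (238, 0, 0, 37113876, 70276626), (327, 0, 0, 37114116, 70276641), (348, 0, 0, 106111236, 105923361), (348, 0, 0, 106110996, 105923346)]
  [(238, -4), (327, -4), (348, 8)] = true := by
  decide +kernel

theorem t6_13_24_0 : chkF keys 1 3 p6_13_0 c6_24
  [(327, 0, 0, 37114896, 70407696), (348, 0, 0, 106112001, 106054401), (327, 0, 0, 37114881, 70407681), (238, 0, 0, 37114881, 70407681), (238, 0, 0, 37114116, 70276641), (327, 0, 0, 37114116, 70276641), (348, 0, 0, 106111236, 105923361), (327, 0, 0, 37113876, 70276626)]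
  [(238, -4), (327, 8), (348, -4)] = true := by
  decide +kernel

theorem t6_13_25_0 : chkF keys 1 3 p6_13_0 c6_25
  [(349, 0, 0, 5448720, 5391120), (349, 0, 0, 5448705, 5391105), (332, 0, 0, 2441985, 4400385), (252, 0, 0, 2441985, 4400385), (252, 0, 0, 2441475, 4392225), (332, 0, 0, 2441475, 4392225), (349, 0, 0, 5447940, 5260065), (349, 0, 0, 5447700, 5260050)]
  [(252, -4), (332, -4), (349, 8)] = true := by
  decide +kernel

theorem t6_13_26_0 : chkF keys 1 3 p6_13_0 c6_26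
  [(332, 0, 0, 2442000, 4400400), (349, 0, 0, 5448705, 5391105), (332, 0, 0, 2441985, 4400385), (252, 0, 0, 2442000, 4400400), (252, 0, 0, 2441235, 4392210), (332, 0, 0, 2441475, 4392225), (349, 0, 0, 5447940, 5260065), (332, 0, 0, 2441235, 4392210)]
  [(252, -4), (332, 8), (349, -4)] = true := by
  decide +kernel

theorem t6_14_14_0 : chkF keys 1 3 p6_14_0 c6_14
  [(4, 0, 0, 266290, 266290), (264, 0, 0, 148225, 205825), (264, 0, 0, 147715, 197665), (4, 0, 0, 267040, 270640)]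
  [(4, 8), (264, -8)] = true := by
  decide +kernel

theorem t6_14_15_0 : chkF keys 1 3 p6_14_0 c6_15
  [(42, 0, 0, 801, 8451), (43, 0, 0, 4131, 306), (43, 0, 0, 4896, 8496), (42, 0, 0, 531, 531)]
  [(42, 8), (43, -8)] = true := by
  decide +kernel

theorem t6_14_16_0 : chkF keys 1 3 p6_14_0 c6_16
  [(271, 0, 0, 148240, 205840), (276, 0, 0, 82435, 197185), (276, 0, 0, 82690, 204865), (271, 0, 0, 147715, 197665)]
  [(271, 8), (276, -8)] = true := by
  decide +kernel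

theorem t6_14_17_0 : chkF keys 1 3 p6_14_0 c6_17
  [(126, 16, 16, 2442000, 4400400), (126, 16, 16, 2441985, 4400385), (58, 16, 16, 1192005, 78930), (86, 1, 1, 2109765, 79140), (86, 1, 1, 2110785, 2176260), (58, 16, 16, 1193280, 2176080), (126, 16, 16, 2441475, 4392225), (126, 16, 16, 2441235, 4392210)]
  [(58, -4), (86, -4), (126, 8)] = true := by
  decide +kernel

theorem t6_14_18_0 : chkF keys 1 3 p6_14_0 c6_18
  [(58, 16, 16, 1192020, 1061970), (126, 16, 16, 2441985, 4400385), (58, 16, 16, 1192005, 78930), (86, 1, 1, 2109780, 1062180), (86, 1, 1, 2110545, 1193220), (58, 16, 16, 1193280, 2176080), (126, 16, 16, 2441475, 4392225), (58, 16, 16, 1193040, 1193040)]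
  [(58, 8), (86, -4), (126, -4)] = true := by
  decide +kernel

theorem t6_14_19_0 : chkF keys 1 3 p6_14_0 c6_19
  [(57, 16, 16, 5320770, 5320770), (57, 16, 16, 1388580, 4206930), (108, 1, 1, 1261605, 213330), (58, 1, 1, 1388610, 4272210), (58, 1, 1, 5321280, 5321280), (108, 1, 1, 3228960, 2314560), (57, 16, 16, 5321760, 5386560), (57, 16, 16, 1389120, 4272720)]
  [(57, 8), (58, -4), (108, -4)] = true := by
  decide +kernel

theorem t6_14_20_0 : chkF keys 1 3 p6_14_0 c6_20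
  [(57, 16, 16, 1388580, 4206930), (108, 1, 1, 1261650, 1261650), (58, 1, 1, 1388580, 4206930), (108, 1, 1, 1261605, 213330), (108, 1, 1, 3228960, 2314560), (58, 1, 1, 5321760, 5386560), (108, 1, 1, 3228240, 1266240), (57, 16, 16, 5321760, 5386560)]
  [(57, -4), (58, -4), (108, 8)] = true := by
  decide +kernel

theorem t6_14_21_0 : chkF keys 1 3 p6_14_0 c6_21
  [(350, 0, 0, 5517840, 5517840), (350, 0, 0, 5517825, 5517825), (332, 0, 0, 3298305, 3298305), (237, 0, 0, 3219525, 86850), (237, 0, 0, 3220800, 2184000), (332, 0, 0, 3297540, 3167265), (350, 0, 0, 5517570, 5517345), (350, 0, 0, 5517330, 5517330)]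
  [(237, -4), (332, -4), (350, 8)] = true := by
  decide +kernel

theorem t6_14_22_0 : chkF keys 1 3 p6_14_0 c6_22
  [(332, 0, 0, 3298320, 3298320), (350, 0, 0, 5517825, 5517825), (332, 0, 0, 3298305, 3298305), (237, 0, 0, 3219540, 1069890), (237, 0, 0, 3220560, 1200960), (332, 0, 0, 3297540, 3167265), (350, 0, 0, 5517570, 5517345), (332, 0, 0, 3297300, 3167250)]
  [(237, -4), (332, 8), (350, -4)] = true := by
  decide +kernel

theorem t6_14_23_0 : chkF keys 1 3 p6_14_0 c6_23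
  [(349, 0, 0, 4534800, 4534800), (349, 0, 0, 4534785, 4534785), (257, 0, 0, 5321220, 5255745), (240, 0, 0, 2315280, 3294480), (240, 0, 0, 2314260, 3163410), (257, 0, 0, 5321730, 5386305), (349, 0, 0, 4534530, 4534305), (349, 0, 0, 4534290, 4534290)]
  [(240, -4), (257, -4), (349, 8)] = true := by
  decide +kernel

theorem t6_14_24_0 : chkF keys 1 3 p6_14_0 c6_24
  [(257, 0, 0, 5321280, 5321280), (349, 0, 0, 4534785, 4534785), (257, 0, 0, 5321220, 5255745), (240, 0, 0, 2315265, 3294465), (240, 0, 0, 2314500, 3163425), (257, 0, 0, 5321730, 5386305), (349, 0, 0, 4534530, 4534305), (257, 0, 0, 5320770, 5320770)]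
  [(240, -4), (257, 8), (349, -4)] = true := by
  decide +kernel

theorem t6_14_25_0 : chkF keys 1 3 p6_14_0 c6_25
  [(351, 0, 0, 274960, 274960), (351, 0, 0, 274945, 274945), (258, 0, 0, 78340, 12865), (241, 0, 0, 73780, 4930), (241, 0, 0, 74800, 136000), (258, 0, 0, 78850, 143425), (351, 0, 0, 274690, 274465), (351, 0, 0, 274450, 274450)]
  [(241, -4), (258, -4), (351, 8)] = true := by
  decide +kernel

theorem t6_14_26_0 : chkF keys 1 3 p6_14_0 c6_26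
  [(258, 0, 0, 78400, 78400), (351, 0, 0, 274945, 274945), (258, 0, 0, 78340, 12865), (241, 0, 0, 73795, 66370), (241, 0, 0, 74560, 74560), (258, 0, 0, 78850, 143425), (351, 0, 0, 274690, 274465), (258, 0, 0, 77890, 77890)]
  [(241, -4), (258, 8), (351, -4)] = true := by
  decide +kernel

theorem t6_15_15_0 : chkF keys 1 3 p6_15_0 c6_15
  [(65, 0, 0, 528, 528), (38, 0, 0, 513, 513), (38, 0, 0, 258, 33), (65, 0, 0, 258, 33)]
  [(38, -8), (65, 8)] = true := by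
  decide +kernel

theorem t6_15_16_0 : chkF keys 1 3 p6_15_0 c6_16
  [(2, 0, 0, 801, 8451), (277, 0, 0, 4611, 561), (277, 0, 0, 4866, 8241), (2, 0, 0, 531, 531)]
  [(2, 8), (277, -8)] = true := by
  decide +kernel

theorem t6_15_17_0 : chkF keys 1 3 p6_15_0 c6_17
  [(132, 16, 16, 148240, 205840), (132, 16, 16, 148225, 205825), (56, 1, 1, 66100, 4675), (34, 1, 1, 66340, 8515), (34, 1, 1, 66595, 131395), (56, 1, 1, 66610, 135235), (132, 16, 16, 147715, 197665), (132, 16, 16, 147475, 197650)]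
  [(34, -4), (56, -4), (132, 8)] = true := by
  decide +kernel

theorem t6_15_18_0 : chkF keys 1 3 p6_15_0 c6_18
  [(56, 1, 1, 66115, 66115), (132, 16, 16, 148225, 205825), (56, 1, 1, 66100, 4675), (34, 1, 1, 66370, 73795), (34, 1, 1, 66115, 66115), (56, 1, 1, 66610, 135235), (132, 16, 16, 147715, 197665), (56, 1, 1, 66370, 73795)]
  [(34, -4), (56, 8), (132, -4)] = true := by
  decide +kernel

theorem t6_15_19_0 : chkF keys 1 3 p6_15_0 c6_19
  [(35, 16, 16, 205825, 148225), (35, 16, 16, 144400, 144400), (133, 16, 16, 271105, 271105), (56, 16, 16, 205840, 148240), (56, 16, 16, 143380, 13330), (133, 16, 16, 147715, 197665), (35, 16, 16, 204820, 17170), (35, 16, 16, 143620, 13345)]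
  [(35, 8), (56, -4), (133, -4)] = true := by
  decide +kernel

theorem t6_15_20_0 : chkF keys 1 3 p6_15_0 c6_20
  [(35, 16, 16, 144400, 144400), (133, 16, 16, 271120, 271120), (56, 16, 16, 205825, 148225), (133, 16, 16, 271105, 271105), (133, 16, 16, 147715, 197665), (56, 16, 16, 143620, 13345), (133, 16, 16, 147475, 197650), (35, 16, 16, 204820, 17170)]
  [(35, -4), (56, -4), (133, 8)] = true := by
  decide +kernel

theorem t6_15_21_0 : chkF keys 1 3 p6_15_0 c6_21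
  [(352, 0, 0, 274960, 274960), (352, 0, 0, 274945, 274945), (258, 0, 0, 135940, 9265), (247, 0, 0, 144385, 144385), (247, 0, 0, 143620, 13345), (258, 0, 0, 136195, 132145), (352, 0, 0, 274690, 274465), (352, 0, 0, 274450, 274450)]
  [(247, -4), (258, -4), (352, 8)] = true := by
  decide +kernel

theorem t6_15_22_0 : chkF keys 1 3 p6_15_0 c6_22
  [(258, 0, 0, 136000, 74800), (352, 0, 0, 274945, 274945), (258, 0, 0, 135940, 9265), (247, 0, 0, 144400, 144400), (247, 0, 0, 143380, 13330), (258, 0, 0, 136195, 132145), (352, 0, 0, 274690, 274465), (258, 0, 0, 135235, 66610)]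
  [(247, -4), (258, 8), (352, -4)] = true := by
  decide +kernel

theorem t6_15_23_0 : chkF keys 1 3 p6_15_0 c6_23
  [(351, 0, 0, 213520, 213520), (351, 0, 0, 213505, 213505), (264, 0, 0, 144385, 144385), (241, 0, 0, 144400, 144400), (241, 0, 0, 143380, 13330), (264, 0, 0, 143620, 13345), (351, 0, 0, 213250, 213025), (351, 0, 0, 213010, 213010)]
  [(241, -4), (264, -4), (351, 8)] = true := by
  decide +kernel

theorem t6_15_24_0 : chkF keys 1 3 p6_15_0 c6_24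
  [(264, 0, 0, 144400, 144400), (351, 0, 0, 213505, 213505), (264, 0, 0, 144385, 144385), (241, 0, 0, 144385, 144385), (241, 0, 0, 143620, 13345), (264, 0, 0, 143620, 13345), (351, 0, 0, 213250, 213025), (264, 0, 0, 143380, 13330)]
  [(241, -4), (264, 8), (351, -4)] = true := by
  decide +kernel

theorem t6_15_25_0 : chkF keys 1 3 p6_15_0 c6_25
  [(353, 0, 0, 12816, 12816), (353, 0, 0, 12801, 12801), (43, 0, 0, 291, 291), (39, 0, 0, 4611, 561), (39, 0, 0, 4866, 8241), (43, 0, 0, 801, 8451), (353, 0, 0, 12546, 12321), (353, 0, 0, 12306, 12306)]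
  [(39, -4), (43, -4), (353, 8)] = true := by
  decide +kernel

theorem t6_15_26_0 : chkF keys 1 3 p6_15_0 c6_26
  [(43, 0, 0, 306, 4131), (353, 0, 0, 12801, 12801), (43, 0, 0, 291, 291), (39, 0, 0, 4656, 4656), (39, 0, 0, 4146, 4146), (43, 0, 0, 801, 8451), (353, 0, 0, 12546, 12321), (43, 0, 0, 561, 4611)]
  [(39, -4), (43, 8), (353, -4)] = true := by
  decide +kernel

theorem t6_16_16_0 : chkF keys 1 3 p6_16_0 c6_16
  [(354, 0, 0, 271120, 271120), (355, 0, 0, 201730, 147505), (355, 0, 0, 201220, 16945), (354, 0, 0, 270595, 262945)]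
  [(354, 8), (355, -8)] = true := by
  decide +kernel

theorem t6_16_17_0 : chkF keys 1 3 p6_16_0 c6_17
  [(356, 16, 16, 5514000, 5514000), (356, 16, 16, 5513985, 5513985), (157, 16, 16, 340260, 4206885), (357, 16, 16, 5513985, 5513985), (357, 16, 16, 5513475, 5505825), (157, 16, 16, 341025, 4337925), (356, 16, 16, 5513475, 5505825), (356, 16, 16, 5513235, 5505810)]
  [(157, -4), (356, 8), (357, -4)] = true := by
  decide +kernel

theorem t6_16_18_0 : chkF keys 1 3 p6_16_0 c6_18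
  [(157, 16, 16, 340290, 4272165), (356, 16, 16, 5513985, 5513985), (157, 16, 16, 340260, 4206885), (357, 16, 16, 5514000, 5514000), (357, 16, 16, 5513235, 5505810), (157, 16, 16, 341025, 4337925), (356, 16, 16, 5513475, 5505825), (157, 16, 16, 340545, 4272645)]
  [(157, 8), (356, -4), (357, -4)] = true := by
  decide +kernel

theorem t6_16_19_0 : chkF keys 1 3 p6_16_0 c6_19
  [(162, 16, 16, 5259570, 5443620), (162, 16, 16, 344355, 4391205), (358, 16, 16, 5513985, 5513985), (359, 16, 16, 5513985, 5513985), (359, 16, 16, 4530435, 4522785), (358, 16, 16, 4530435, 4522785), (162, 16, 16, 5260065, 5447940), (162, 16, 16, 344625, 4395525)]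
  [(162, 8), (358, -4), (359, -4)] = true := by
  decide +kernel

theorem t6_16_20_0 : chkF keys 1 3 p6_16_0 c6_20
  [(162, 16, 16, 344355, 4391205), (358, 16, 16, 5514000, 5514000), (359, 16, 16, 5514000, 5514000), (358, 16, 16, 5513985, 5513985), (358, 16, 16, 4530435, 4522785), (359, 16, 16, 4530195, 4522770), (358, 16, 16, 4530195, 4522770), (162, 16, 16, 5260065, 5447940)]
  [(162, -4), (358, 8), (359, -4)] = true := by
  decide +kernel

theorem t6_16_21_0 : chkF keys 1 3 p6_16_0 c6_21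
  [(360, 0, 0, 5514000, 5514000), (360, 0, 0, 5513985, 5513985), (361, 0, 0, 5513985, 5513985), (319, 0, 0, 3219540, 1069890), (319, 0, 0, 3220560, 1200960), (361, 0, 0, 5513475, 5505825), (360, 0, 0, 5513475, 5505825), (360, 0, 0, 5513235, 5505810)]
  [(319, -4), (360, 8), (361, -4)] = true := by
  decide +kernel

theorem t6_16_22_0 : chkF keys 1 3 p6_16_0 c6_22
  [(361, 0, 0, 5514000, 5514000), (360, 0, 0, 5513985, 5513985), (361, 0, 0, 5513985, 5513985), (319, 0, 0, 3219525, 86850), (319, 0, 0, 3220800, 2184000), (361, 0, 0, 5513475, 5505825), (360, 0, 0, 5513475, 5505825), (361, 0, 0, 5513235, 5505810)]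
  [(319, -4), (360, -4), (361, 8)] = true := by
  decide +kernel

theorem t6_16_23_0 : chkF keys 1 3 p6_16_0 c6_23
  [(346, 0, 0, 3228240, 1266240), (346, 0, 0, 3228165, 217665), (360, 0, 0, 3413250, 2379825), (318, 0, 0, 4268085, 332610), (318, 0, 0, 4269360, 2429760), (360, 0, 0, 3412485, 283185), (346, 0, 0, 3228930, 2314305), (346, 0, 0, 3227730, 1265730)]
  [(318, -4), (346, 8), (360, -4)] = true := by
  decide +kernel

theorem t6_16_24_0 : chkF keys 1 3 p6_16_0 c6_24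
  [(360, 0, 0, 3413280, 2380080), (346, 0, 0, 3228165, 217665), (360, 0, 0, 3413250, 2379825), (318, 0, 0, 4268115, 1377090), (318, 0, 0, 4268880, 1385280), (360, 0, 0, 3412485, 283185), (346, 0, 0, 3228930, 2314305), (360, 0, 0, 3412005, 282930)]
  [(318, -4), (346, -4), (360, 8)] = true := by
  decide +kernel

theorem t6_16_25_0 : chkF keys 1 3 p6_16_0 c6_25
  [(276, 0, 0, 205840, 148240), (276, 0, 0, 205825, 148225), (275, 0, 0, 201730, 147505), (268, 0, 0, 262930, 270355), (268, 0, 0, 201220, 16945), (275, 0, 0, 201220, 16945), (276, 0, 0, 205060, 17185), (276, 0, 0, 204820, 17170)]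
  [(268, -4), (275, -4), (276, 8)] = true := by
  decide +kernel

theorem t6_16_26_0 : chkF keys 1 3 p6_16_0 c6_26
  [(275, 0, 0, 201760, 147760), (276, 0, 0, 205825, 148225), (275, 0, 0, 201730, 147505), (268, 0, 0, 201760, 147760), (268, 0, 0, 262435, 262435), (275, 0, 0, 201220, 16945), (276, 0, 0, 205060, 17185), (275, 0, 0, 200740, 16690)]
  [(268, -4), (275, 8), (276, -4)] = true := by
  decide +kernel

theorem t6_17_17_0 : chkF keys 1 3 p6_17_0 c6_17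
  [(362, 513, 513, 105972786, 106041411), (363, 513, 513, 105972786, 106041411), (211, 513, 513, 88147506, 40177731), (210, 513, 513, 88147506, 40177731), (363, 513, 513, 105972771, 106037571), (362, 513, 513, 105972771, 106037571), (213, 513, 513, 88147491, 40173891), (211, 33, 258, 17121846, 4395621), (211, 33, 258, 17122866, 37949541), (213, 513, 513, 88146726, 6627651), (362, 513, 513, 105972516, 105914691), (363, 513, 513, 105972516, 105914691), (210, 513, 513, 88146486, 6623811), (211, 513, 513, 88146486, 6623811), (363, 513, 513, 105972276, 105910851), (362, 513, 513, 105972276, 105910851)]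
  [(210, -2), (211, -4), (213, -2), (362, 4), (363, 4)] = true := by
  decide +kernel

theorem t6_17_18_0 : chkF keys 1 3 p6_17_0 c6_18
  [(213, 513, 513, 88147506, 40177731), (363, 513, 513, 105972786, 106041411), (211, 513, 513, 88147506, 40177731), (211, 33, 258, 17121891, 21168741), (211, 513, 513, 88147491, 40173891), (362, 513, 513, 105972771, 106037571), (213, 513, 513, 88147491, 40173891), (210, 513, 513, 88147491, 40173891), (210, 513, 513, 88146726, 6627651), (213, 513, 513, 88146726, 6627651), (362, 513, 513, 105972516, 105914691), (211, 513, 513, 88146726, 6627651), (211, 33, 258, 17122146, 21176421), (211, 513, 513, 88146486, 6623811), (363, 513, 513, 105972276, 105910851), (213, 513, 513, 88146486, 6623811)]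
  [(210, -2), (211, 2), (213, 4), (362, -2), (363, -2)] = true := by
  decide +kernel

theorem t6_17_19_0 : chkF keys 1 3 p6_17_0 c6_19
  [(290, 33, 258, 20207106, 36982881), (215, 258, 33, 70387041, 19289091), (297, 288, 288, 103830546, 103960596), (294, 33, 258, 34886406, 3417681), (215, 258, 33, 54658326, 2450451), (290, 33, 258, 51664416, 36987216), (303, 258, 33, 73405221, 84287796), (213, 258, 33, 87164436, 39867411), (213, 258, 33, 55706646, 5399571), (303, 258, 33, 104863011, 103088436), (290, 33, 258, 20205606, 3428706), (215, 258, 33, 70387221, 33969171), (294, 33, 258, 50746401, 70410501), (297, 288, 288, 56644116, 87056916), (215, 258, 33, 54657381, 17130531), (290, 33, 258, 51663366, 3433041)]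
  [(213, -2), (215, 4), (290, 4), (294, -2), (297, -2), (303, -2)] = true := by
  decide +kernel

theorem t6_17_20_0 : chkF keys 1 3 p6_17_0 c6_20
  [(215, 258, 33, 70387041, 19289091), (303, 258, 33, 73405266, 85336116), (213, 258, 33, 87164481, 39932931), (297, 288, 288, 103830546, 103960596), (290, 33, 258, 51664416, 36987216), (297, 288, 288, 103830561, 103960836), (294, 33, 258, 34886496, 20194896), (303, 258, 33, 73405221, 84287796), (303, 258, 33, 104863011, 103088436), (294, 33, 258, 50745921, 70345221), (297, 288, 288, 56643876, 87056676), (290, 33, 258, 20205606, 3428706), (297, 288, 288, 56644116, 87056916), (213, 258, 33, 55705926, 5334051), (303, 258, 33, 104862291, 102040116), (215, 258, 33, 54657381, 17130531)]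
  [(213, -2), (215, -2), (290, -2), (294, -2), (297, 4), (303, 4)] = true := by
  decide +kernel

theorem t6_17_21_0 : chkF keys 1 3 p6_17_0 c6_21
  [(187, 1, 1, 70260066, 19288116), (144, 1, 1, 56755281, 85091331), (99, 1, 1, 70387281, 35017731), (96, 1, 1, 72484401, 39195651), (144, 1, 1, 56755221, 84042771), (187, 1, 1, 70260006, 2511156), (130, 1, 1, 55710726, 5399601), (113, 16, 16, 67326306, 20332581), (113, 16, 16, 67326561, 20333061), (130, 1, 1, 55711236, 38822961), (187, 1, 1, 70260261, 33968436), (144, 1, 1, 56755476, 86008851), (96, 1, 1, 72483126, 5641251), (99, 1, 1, 70386006, 1463331), (144, 1, 1, 56754516, 84960291), (187, 1, 1, 70259301, 17191476)]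
  [(96, -2), (99, -2), (113, -2), (130, -2), (144, 4), (187, 4)] = true := by
  decide +kernel

theorem t6_17_22_0 : chkF keys 1 3 p6_17_0 c6_22
  [(130, 1, 1, 55710816, 22176816), (144, 1, 1, 56755281, 85091331), (99, 1, 1, 70387281, 35017731), (113, 16, 16, 67326246, 3555621), (99, 1, 1, 70387221, 33969171), (187, 1, 1, 70260006, 2511156), (130, 1, 1, 55710726, 5399601), (96, 1, 1, 72484371, 39191571), (96, 1, 1, 72483606, 5645331), (130, 1, 1, 55711236, 38822961), (187, 1, 1, 70260261, 33968436), (99, 1, 1, 70386966, 2511891), (113, 16, 16, 67327521, 37110021), (99, 1, 1, 70386006, 1463331), (144, 1, 1, 56754516, 84960291), (130, 1, 1, 55709796, 22045746)]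
  [(96, -2), (99, 4), (113, -2), (130, 4), (144, -2), (187, -2)] = true := by
  decide +kernel

theorem t6_17_23_0 : chkF keys 1 3 p6_17_0 c6_23
  [(119, 16, 16, 103830546, 103960596), (129, 1, 1, 73405266, 85336116), (83, 1, 1, 55707201, 38888451), (85, 1, 1, 54658401, 19227651), (129, 1, 1, 73405221, 84287796), (119, 16, 16, 103830561, 103960836), (127, 1, 1, 103814181, 100815156), (107, 16, 16, 100880706, 103890981), (107, 16, 16, 100880961, 103891461), (127, 1, 1, 103814436, 102781236), (119, 16, 16, 103829796, 103829796), (129, 1, 1, 73405731, 86376756), (85, 1, 1, 54657381, 17130531), (83, 1, 1, 55705926, 5334051), (129, 1, 1, 73405011, 85328436), (119, 16, 16, 103830036, 103830036)]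
  [(83, -2), (85, -2), (107, -2), (119, 4), (127, -2), (129, 4)] = true := by
  decide +kernel

theorem t6_17_24_0 : chkF keys 1 3 p6_17_0 c6_24
  [(127, 1, 1, 103814226, 101863476), (129, 1, 1, 73405266, 85336116), (83, 1, 1, 55707201, 38888451), (107, 16, 16, 100880676, 103825701), (83, 1, 1, 55707156, 38822931), (119, 16, 16, 103830561, 103960836), (127, 1, 1, 103814181, 100815156), (85, 1, 1, 54658326, 2450451), (85, 1, 1, 54658581, 33907731), (127, 1, 1, 103814436, 102781236), (119, 16, 16, 103829796, 103829796), (83, 1, 1, 55706646, 5399571), (107, 16, 16, 100881441, 103956741), (83, 1, 1, 55705926, 5334051), (129, 1, 1, 73405011, 85328436), (127, 1, 1, 103813716, 101732916)]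
  [(83, 4), (85, -2), (107, -2), (119, -2), (127, 4), (129, -2)] = true := by
  decide +kernel

theorem t6_17_25_0 : chkF keys 1 3 p6_17_0 c6_25
  [(120, 16, 16, 3167250, 3297300), (134, 1, 1, 5247810, 5316660), (86, 16, 16, 1196805, 205905), (48, 1, 1, 4199730, 2428980), (134, 1, 1, 5247780, 5251380), (120, 16, 16, 3167265, 3297540), (58, 16, 16, 271125, 271125), (53, 16, 16, 274725, 274725), (53, 16, 16, 275745, 2371845), (58, 16, 16, 271635, 2360085), (120, 16, 16, 3166500, 3166500), (134, 1, 1, 5248035, 5374260), (48, 1, 1, 4198965, 332340), (86, 16, 16, 1197315, 2294865), (134, 1, 1, 5247555, 5308980), (120, 16, 16, 3166740, 3166740)]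
  [(48, -2), (53, -2), (58, -2), (86, -2), (120, 4), (134, 4)] = true := by
  decide +kernel

theorem t6_17_26_0 : chkF keys 1 3 p6_17_0 c6_26
  [(58, 16, 16, 271185, 1319685), (134, 1, 1, 5247810, 5316660), (86, 16, 16, 1196805, 205905), (53, 16, 16, 274770, 1323045), (86, 16, 16, 1196880, 1254480), (120, 16, 16, 3167265, 3297540), (58, 16, 16, 271125, 271125), (48, 1, 1, 4199715, 2425140), (48, 1, 1, 4199205, 336180), (58, 16, 16, 271635, 2360085), (120, 16, 16, 3166500, 3166500), (86, 16, 16, 1196115, 1246290), (53, 16, 16, 275025, 1323525), (86, 16, 16, 1197315, 2294865), (134, 1, 1, 5247555, 5308980), (58, 16, 16, 270675, 1311525)]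
  [(48, -2), (53, -2), (58, 4), (86, 4), (120, -2), (134, -2)] = true := by
  decide +kernel

theorem t6_18_18_0 : chkF keys 1 3 p6_18_0 c6_18
  [(362, 513, 513, 105972546, 105979971), (211, 33, 258, 17122851, 37945701), (210, 513, 513, 88146786, 23404611), (363, 513, 513, 105972546, 105979971), (211, 513, 513, 88147491, 40173891), (362, 513, 513, 105972771, 106037571), (213, 513, 513, 88147491, 40173891), (210, 513, 513, 88147491, 40173891), (210, 513, 513, 88146726, 6627651), (213, 513, 513, 88146726, 6627651), (362, 513, 513, 105972516, 105914691), (211, 513, 513, 88146726, 6627651), (363, 513, 513, 105972291, 105972291), (210, 513, 513, 88146531, 23396931), (211, 33, 258, 17122086, 4399461), (362, 513, 513, 105972291, 105972291)]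
  [(210, 4), (211, -4), (213, -2), (362, 4), (363, -2)] = true := by
  decide +kernel

theorem t6_18_19_0 : chkF keys 1 3 p6_18_0 c6_19
  [(303, 258, 33, 73405746, 86380596), (213, 258, 33, 87164001, 23221251), (294, 33, 258, 50745876, 70279701), (297, 288, 288, 56643906, 87121956), (215, 258, 33, 54658326, 2450451), (290, 33, 258, 51664416, 36987216), (303, 258, 33, 73405221, 84287796), (213, 258, 33, 87164436, 39867411), (213, 258, 33, 55706646, 5399571), (303, 258, 33, 104863011, 103088436), (290, 33, 258, 20205606, 3428706), (215, 258, 33, 70387221, 33969171), (297, 288, 288, 103830081, 103895556), (294, 33, 258, 34887216, 36968016), (213, 258, 33, 55705956, 22045731), (303, 258, 33, 104862261, 100995636)]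
  [(213, 4), (215, -2), (290, -2), (294, -2), (297, -2), (303, 4)] = true := by
  decide +kernel

theorem t6_18_20_0 : chkF keys 1 3 p6_18_0 c6_20
  [(213, 258, 33, 87164001, 23221251), (290, 33, 258, 20205666, 20205666), (215, 258, 33, 70387281, 35017731), (294, 33, 258, 50745876, 70279701), (290, 33, 258, 51664416, 36987216), (297, 288, 288, 103830561, 103960836), (294, 33, 258, 34886496, 20194896), (303, 258, 33, 73405221, 84287796), (303, 258, 33, 104863011, 103088436), (294, 33, 258, 50745921, 70345221), (297, 288, 288, 56643876, 87056676), (290, 33, 258, 20205606, 3428706), (294, 33, 258, 34887216, 36968016), (215, 258, 33, 54657366, 1401891), (290, 33, 258, 51663456, 20210256), (213, 258, 33, 55705956, 22045731)]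
  [(213, -2), (215, -2), (290, 4), (294, 4), (297, -2), (303, -2)] = true := by
  decide +kernel

theorem t6_18_21_0 : chkF keys 1 3 p6_18_0 c6_21
  [(130, 1, 1, 55711296, 38888496), (113, 16, 16, 67326486, 3555861), (96, 1, 1, 72483681, 22422531), (99, 1, 1, 70387041, 19289091), (144, 1, 1, 56755221, 84042771), (187, 1, 1, 70260006, 2511156), (130, 1, 1, 55710726, 5399601), (113, 16, 16, 67326306, 20332581), (113, 16, 16, 67326561, 20333061), (130, 1, 1, 55711236, 38822961), (187, 1, 1, 70260261, 33968436), (144, 1, 1, 56755476, 86008851), (99, 1, 1, 70386021, 17191971), (96, 1, 1, 72483171, 22414371), (113, 16, 16, 67327506, 37109781), (130, 1, 1, 55709766, 5334066)]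
  [(96, -2), (99, -2), (113, 4), (130, 4), (144, -2), (187, -2)] = true := by
  decide +kernel

theorem t6_18_22_0 : chkF keys 1 3 p6_18_0 c6_22
  [(187, 1, 1, 70260306, 35016756), (113, 16, 16, 67326486, 3555861), (96, 1, 1, 72483681, 22422531), (144, 1, 1, 56755521, 86074371), (99, 1, 1, 70387221, 33969171), (187, 1, 1, 70260006, 2511156), (130, 1, 1, 55710726, 5399601), (96, 1, 1, 72484371, 39191571), (96, 1, 1, 72483606, 5645331), (130, 1, 1, 55711236, 38822961), (187, 1, 1, 70260261, 33968436), (99, 1, 1, 70386966, 2511891), (144, 1, 1, 56754501, 83977251), (96, 1, 1, 72483171, 22414371), (113, 16, 16, 67327506, 37109781), (187, 1, 1, 70259286, 1462836)]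
  [(96, 4), (99, -2), (113, -2), (130, -2), (144, -2), (187, 4)] = true := by
  decide +kernel

theorem t6_18_23_0 : chkF keys 1 3 p6_18_0 c6_23
  [(127, 1, 1, 103814466, 102846516), (107, 16, 16, 100880916, 103825941), (85, 1, 1, 54658641, 34956291), (83, 1, 1, 55706721, 22176771), (129, 1, 1, 73405221, 84287796), (119, 16, 16, 103830561, 103960836), (127, 1, 1, 103814181, 100815156), (107, 16, 16, 100880706, 103890981), (107, 16, 16, 100880961, 103891461), (127, 1, 1, 103814436, 102781236), (119, 16, 16, 103829796, 103829796), (129, 1, 1, 73405731, 86376756), (83, 1, 1, 55705956, 22045731), (85, 1, 1, 54657366, 1401891), (107, 16, 16, 100881426, 103956501), (127, 1, 1, 103813701, 100749876)]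
  [(83, -2), (85, -2), (107, 4), (119, -2), (127, 4), (129, -2)] = true := by
  decide +kernel

theorem t6_18_24_0 : chkF keys 1 3 p6_18_0 c6_24
  [(119, 16, 16, 103829826, 103895076), (107, 16, 16, 100880916, 103825941), (85, 1, 1, 54658641, 34956291), (129, 1, 1, 73405746, 86380596), (83, 1, 1, 55707156, 38822931), (119, 16, 16, 103830561, 103960836), (127, 1, 1, 103814181, 100815156), (85, 1, 1, 54658326, 2450451), (85, 1, 1, 54658581, 33907731), (127, 1, 1, 103814436, 102781236), (119, 16, 16, 103829796, 103829796), (83, 1, 1, 55706646, 5399571), (129, 1, 1, 73404981, 84283956), (85, 1, 1, 54657366, 1401891), (107, 16, 16, 100881426, 103956501), (119, 16, 16, 103830081, 103895556)]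
  [(83, -2), (85, 4), (107, -2), (119, 4), (127, -2), (129, -2)] = true := by
  decide +kernel

theorem t6_18_25_0 : chkF keys 1 3 p6_18_0 c6_25
  [(58, 16, 16, 271665, 2364165), (53, 16, 16, 275730, 2371605), (48, 1, 1, 4199250, 1384500), (86, 16, 16, 1196085, 201810), (134, 1, 1, 5247780, 5251380), (120, 16, 16, 3167265, 3297540), (58, 16, 16, 271125, 271125), (53, 16, 16, 274725, 274725), (53, 16, 16, 275745, 2371845), (58, 16, 16, 271635, 2360085), (120, 16, 16, 3166500, 3166500), (134, 1, 1, 5248035, 5374260), (86, 16, 16, 1197360, 2298960), (48, 1, 1, 4198995, 1376820), (53, 16, 16, 274965, 274965), (58, 16, 16, 270645, 267045)]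
  [(48, -2), (53, 4), (58, 4), (86, -2), (120, -2), (134, -2)] = true := by
  decide +kernel

theorem t6_18_26_0 : chkF keys 1 3 p6_18_0 c6_26
  [(120, 16, 16, 3166530, 3231780), (53, 16, 16, 275730, 2371605), (48, 1, 1, 4199250, 1384500), (134, 1, 1, 5248050, 5378100), (86, 16, 16, 1196880, 1254480), (120, 16, 16, 3167265, 3297540), (58, 16, 16, 271125, 271125), (48, 1, 1, 4199715, 2425140), (48, 1, 1, 4199205, 336180), (58, 16, 16, 271635, 2360085), (120, 16, 16, 3166500, 3166500), (86, 16, 16, 1196115, 1246290), (134, 1, 1, 5247540, 5247540), (48, 1, 1, 4198995, 1376820), (53, 16, 16, 274965, 274965), (120, 16, 16, 3166785, 3232260)]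
  [(48, 4), (53, -2), (58, -2), (86, -2), (120, 4), (134, -2)] = true := by
  decide +kernel

theorem t6_19_19_0 : chkF keys 1 3 p6_19_0 c6_19
  [(293, 258, 33, 73475331, 86377281), (290, 258, 33, 73475331, 86377281), (291, 258, 33, 104932611, 103088961), (288, 258, 33, 88159746, 40185921), (290, 258, 33, 104994096, 103093296), (293, 258, 33, 104994096, 103093296), (287, 513, 513, 105059616, 103104816), (291, 18, 18, 34890501, 50603601), (291, 18, 18, 19285251, 69404001), (287, 513, 513, 73478181, 84291906), (293, 258, 33, 73474101, 84284226), (290, 258, 33, 73474101, 84284226), (288, 258, 33, 72552966, 5653041), (291, 258, 33, 73536261, 84288561), (290, 258, 33, 104993541, 101000241), (293, 258, 33, 104993541, 101000241)]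
  [(287, -2), (288, -2), (290, 4), (291, -4), (293, 4)] = true := by
  decide +kernel

theorem t6_19_20_0 : chkF keys 1 3 p6_19_0 c6_20
  [(290, 258, 33, 73475331, 86377281), (287, 513, 513, 104936706, 103100481), (291, 18, 18, 35013456, 68363856), (291, 258, 33, 104932611, 103088961), (293, 258, 33, 104994096, 103093296), (291, 258, 33, 104994096, 103093296), (288, 258, 33, 88282656, 40190256), (287, 513, 513, 105059616, 103104816), (287, 513, 513, 73478181, 84291906), (288, 258, 33, 72429606, 5648706), (291, 258, 33, 73474101, 84284226), (293, 258, 33, 73474101, 84284226), (291, 258, 33, 73536261, 84288561), (291, 18, 18, 19161171, 51643746), (287, 513, 513, 73601541, 84296241), (290, 258, 33, 104993541, 101000241)]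
  [(287, 4), (288, -2), (290, -2), (291, 2), (293, -2)] = true := by
  decide +kernel

theorem t6_19_21_0 : chkF keys 1 3 p6_19_0 c6_21
  [(115, 1, 1, 72431106, 39202881), (149, 1, 1, 73598241, 86393091), (191, 1, 1, 88278561, 40190211), (113, 1, 1, 73479426, 86388801), (149, 1, 1, 73413906, 86388756), (115, 1, 1, 72554016, 39207216), (194, 1, 1, 90379296, 90325296), (147, 16, 16, 51535956, 51405906), (147, 16, 16, 51782736, 68313936), (194, 1, 1, 90255396, 90190146), (115, 1, 1, 72429606, 5648706), (149, 1, 1, 73597461, 84296211), (113, 1, 1, 73601541, 84296241), (191, 1, 1, 90313476, 90186801), (149, 1, 1, 73412901, 84291876), (115, 1, 1, 72552966, 5653041)]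
  [(113, -2), (115, 4), (147, -2), (149, 4), (191, -2), (194, -2)] = true := by
  decide +kernel

theorem t6_19_22_0 : chkF keys 1 3 p6_19_0 c6_22
  [(194, 1, 1, 90256386, 90320961), (149, 1, 1, 73598241, 86393091), (191, 1, 1, 88278561, 40190211), (147, 16, 16, 51781701, 67199826), (191, 1, 1, 90313776, 90313776), (115, 1, 1, 72554016, 39207216), (194, 1, 1, 90379296, 90325296), (113, 1, 1, 73602336, 86393136), (113, 1, 1, 73478181, 84291906), (194, 1, 1, 90255396, 90190146), (115, 1, 1, 72429606, 5648706), (191, 1, 1, 88277526, 6636051), (147, 16, 16, 51537216, 52520016), (191, 1, 1, 90313476, 90186801), (149, 1, 1, 73412901, 84291876), (194, 1, 1, 90378756, 90194481)]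
  [(113, -2), (115, -2), (147, -2), (149, -2), (191, 4), (194, 4)] = true := by
  decide +kernel

theorem t6_19_23_0 : chkF keys 1 3 p6_19_0 c6_23
  [(109, 1, 1, 104932611, 103088961), (139, 16, 16, 70648101, 67522851), (121, 16, 16, 104071461, 100946211), (107, 1, 1, 104936706, 103100481), (139, 16, 16, 70279506, 51793956), (109, 1, 1, 104994096, 103093296), (104, 1, 1, 72554016, 39207216), (112, 1, 1, 73536816, 86381616), (112, 1, 1, 73474101, 84284226), (104, 1, 1, 72429606, 5648706), (109, 1, 1, 104931381, 100995906), (139, 16, 16, 70648401, 68571651), (107, 1, 1, 105058821, 101007921), (121, 16, 16, 103826721, 102977796), (139, 16, 16, 70280481, 52842756), (109, 1, 1, 104993541, 101000241)]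
  [(104, -2), (107, -2), (109, 4), (112, -2), (121, -2), (139, 4)] = true := by
  decide +kernel

theorem t6_19_24_0 : chkF keys 1 3 p6_19_0 c6_24
  [(104, 1, 1, 72431106, 39202881), (139, 16, 16, 70648101, 67522851), (121, 16, 16, 104071461, 100946211), (112, 1, 1, 73475331, 86377281), (121, 16, 16, 103825746, 101928996), (109, 1, 1, 104994096, 103093296), (104, 1, 1, 72554016, 39207216), (107, 1, 1, 105059616, 103104816), (107, 1, 1, 104935461, 101003586), (104, 1, 1, 72429606, 5648706), (109, 1, 1, 104931381, 100995906), (121, 16, 16, 104071761, 101995011), (112, 1, 1, 73536261, 84288561), (121, 16, 16, 103826721, 102977796), (139, 16, 16, 70280481, 52842756), (104, 1, 1, 72552966, 5653041)]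
  [(104, 4), (107, -2), (109, -2), (112, -2), (121, 4), (139, -2)] = true := by
  decide +kernel

theorem t6_19_25_0 : chkF keys 1 3 p6_19_0 c6_25
  [(52, 1, 1, 2180355, 2295105), (54, 1, 1, 2180355, 2295105), (55, 1, 1, 3473985, 4280835), (53, 1, 1, 2179845, 206145), (54, 1, 1, 2364720, 2364720), (52, 1, 1, 2364720, 2364720), (122, 16, 16, 3166500, 3166500), (135, 16, 16, 143685, 78885), (135, 16, 16, 206145, 2179845), (122, 16, 16, 3474465, 4346115), (52, 1, 1, 2179125, 202050), (54, 1, 1, 2179125, 202050), (53, 1, 1, 2364675, 2360625), (55, 1, 1, 2364675, 2360625), (54, 1, 1, 2364165, 271665), (52, 1, 1, 2364165, 271665)]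
  [(52, 4), (53, -2), (54, 4), (55, -2), (122, -2), (135, -2)] = true := by
  decide +kernel

theorem t6_19_26_0 : chkF keys 1 3 p6_19_0 c6_26
  [(122, 16, 16, 3473730, 4280355), (54, 1, 1, 2180355, 2295105), (55, 1, 1, 3473985, 4280835), (135, 16, 16, 205140, 1065765), (55, 1, 1, 2364240, 1320240), (52, 1, 1, 2364720, 2364720), (122, 16, 16, 3166500, 3166500), (53, 1, 1, 2364240, 1320240), (53, 1, 1, 2179155, 1246530), (122, 16, 16, 3474465, 4346115), (52, 1, 1, 2179125, 202050), (55, 1, 1, 3474450, 4345875), (135, 16, 16, 144465, 1192965), (55, 1, 1, 2364675, 2360625), (54, 1, 1, 2364165, 271665), (122, 16, 16, 3166785, 3232260)]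
  [(52, -2), (53, -2), (54, -2), (55, 4), (122, 4), (135, -2)] = true := by
  decide +kernel

theorem t6_20_20_0 : chkF keys 1 3 p6_20_0 c6_20
  [(293, 258, 33, 104994096, 103093296), (291, 258, 33, 104994096, 103093296), (288, 258, 33, 88282656, 40190256), (287, 513, 513, 105059616, 103104816), (291, 18, 18, 35013936, 69408336), (293, 258, 33, 73474131, 85328706), (290, 258, 33, 73474131, 85328706), (288, 258, 33, 72429666, 22425666), (288, 258, 33, 88281696, 23413296), (290, 258, 33, 104993616, 102048816), (293, 258, 33, 104993616, 102048816), (291, 18, 18, 19161141, 50599266), (287, 513, 513, 73478181, 84291906), (288, 258, 33, 72429606, 5648706), (291, 258, 33, 73474101, 84284226), (293, 258, 33, 73474101, 84284226)]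
  [(287, -2), (288, 4), (290, -2), (291, -4), (293, 4)] = true := by
  decide +kernel

theorem t6_20_21_0 : chkF keys 1 3 p6_20_0 c6_21
  [(149, 1, 1, 73413906, 86388756), (115, 1, 1, 72554016, 39207216), (194, 1, 1, 90379296, 90325296), (147, 16, 16, 51535956, 51405906), (194, 1, 1, 90255426, 90255426), (147, 16, 16, 51782661, 67265361), (113, 1, 1, 73478226, 85340226), (191, 1, 1, 88277601, 23413251), (191, 1, 1, 90313536, 90252336), (113, 1, 1, 73601616, 85344816), (147, 16, 16, 51537156, 52454481), (194, 1, 1, 90378816, 90260016), (147, 16, 16, 51782736, 68313936), (194, 1, 1, 90255396, 90190146), (115, 1, 1, 72429606, 5648706), (149, 1, 1, 73597461, 84296211)]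
  [(113, -2), (115, -2), (147, 4), (149, -2), (191, -2), (194, 4)] = true := by
  decide +kernel

theorem t6_20_22_0 : chkF keys 1 3 p6_20_0 c6_22
  [(191, 1, 1, 90313776, 90313776), (115, 1, 1, 72554016, 39207216), (194, 1, 1, 90379296, 90325296), (113, 1, 1, 73602336, 86393136), (115, 1, 1, 72429666, 22425666), (147, 16, 16, 51782661, 67265361), (113, 1, 1, 73478226, 85340226), (149, 1, 1, 73597521, 85344771), (149, 1, 1, 73412946, 85340196), (113, 1, 1, 73601616, 85344816), (147, 16, 16, 51537156, 52454481), (115, 1, 1, 72553056, 22430256), (113, 1, 1, 73478181, 84291906), (194, 1, 1, 90255396, 90190146), (115, 1, 1, 72429606, 5648706), (191, 1, 1, 88277526, 6636051)]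
  [(113, 4), (115, 4), (147, -2), (149, -2), (191, -2), (194, -2)] = true := by
  decide +kernel

theorem t6_20_23_0 : chkF keys 1 3 p6_20_0 c6_23
  [(139, 16, 16, 70279506, 51793956), (109, 1, 1, 104994096, 103093296), (104, 1, 1, 72554016, 39207216), (112, 1, 1, 73536816, 86381616), (104, 1, 1, 72429666, 22425666), (112, 1, 1, 73474131, 85328706), (107, 1, 1, 104935506, 102051906), (121, 16, 16, 104071701, 100946451), (121, 16, 16, 103826706, 102977556), (107, 1, 1, 105058896, 102056496), (112, 1, 1, 73536336, 85337136), (104, 1, 1, 72553056, 22430256), (112, 1, 1, 73474101, 84284226), (104, 1, 1, 72429606, 5648706), (109, 1, 1, 104931381, 100995906), (139, 16, 16, 70648401, 68571651)]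
  [(104, 4), (107, -2), (109, -2), (112, 4), (121, -2), (139, -2)] = true := by
  decide +kernel

theorem t6_20_24_0 : chkF keys 1 3 p6_20_0 c6_24
  [(121, 16, 16, 103825746, 101928996), (109, 1, 1, 104994096, 103093296), (104, 1, 1, 72554016, 39207216), (107, 1, 1, 105059616, 103104816), (109, 1, 1, 104931411, 102040386), (112, 1, 1, 73474131, 85328706), (107, 1, 1, 104935506, 102051906), (139, 16, 16, 70648341, 67523091), (139, 16, 16, 70280466, 52842516), (107, 1, 1, 105058896, 102056496), (112, 1, 1, 73536336, 85337136), (109, 1, 1, 104993616, 102048816), (107, 1, 1, 104935461, 101003586), (104, 1, 1, 72429606, 5648706), (109, 1, 1, 104931381, 100995906), (121, 16, 16, 104071761, 101995011)]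
  [(104, -2), (107, 4), (109, 4), (112, -2), (121, -2), (139, -2)] = true := by
  decide +kernel

theorem t6_20_25_0 : chkF keys 1 3 p6_20_0 c6_25
  [(54, 1, 1, 2364720, 2364720), (52, 1, 1, 2364720, 2364720), (122, 16, 16, 3166500, 3166500), (135, 16, 16, 143685, 78885), (122, 16, 16, 3474450, 4345875), (135, 16, 16, 206100, 2114325), (53, 1, 1, 2179125, 202050), (55, 1, 1, 3474465, 4346115), (55, 1, 1, 2364720, 2364720), (53, 1, 1, 2364720, 2364720), (135, 16, 16, 144405, 144405), (122, 16, 16, 3166740, 3166740), (135, 16, 16, 206145, 2179845), (122, 16, 16, 3474465, 4346115), (52, 1, 1, 2179125, 202050), (54, 1, 1, 2179125, 202050)]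
  [(52, -2), (53, -2), (54, -2), (55, -2), (122, 4), (135, 4)] = true := by
  decide +kernel

theorem t6_20_26_0 : chkF keys 1 3 p6_20_0 c6_26
  [(55, 1, 1, 2364240, 1320240), (52, 1, 1, 2364720, 2364720), (122, 16, 16, 3166500, 3166500), (53, 1, 1, 2364240, 1320240), (52, 1, 1, 2179155, 1246530), (135, 16, 16, 206100, 2114325), (53, 1, 1, 2179125, 202050), (54, 1, 1, 2179155, 1246530), (54, 1, 1, 2364240, 1320240), (53, 1, 1, 2364720, 2364720), (135, 16, 16, 144405, 144405), (52, 1, 1, 2364240, 1320240), (53, 1, 1, 2179155, 1246530), (122, 16, 16, 3474465, 4346115), (52, 1, 1, 2179125, 202050), (55, 1, 1, 3474450, 4345875)]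
  [(52, 4), (53, 4), (54, -2), (55, -2), (122, -2), (135, -2)] = true := by
  decide +kernel

theorem t6_21_21_0 : chkF keys 1 3 p6_21_0 c6_21
  [(364, 0, 0, 106042416, 106042416), (309, 0, 0, 38999136, 22169136), (245, 0, 0, 88213041, 40178691), (243, 0, 0, 104990001, 103093251), (309, 0, 0, 38999046, 5391921), (364, 0, 0, 106042371, 106038321), (255, 0, 0, 88217091, 40174641), (245, 0, 0, 33898806, 4396581), (245, 0, 0, 33900081, 37950981), (255, 0, 0, 88216326, 6628401), (364, 0, 0, 106042116, 105915441), (309, 0, 0, 38999556, 38815281), (243, 0, 0, 104988981, 100996131), (245, 0, 0, 88211766, 6624291), (309, 0, 0, 38998116, 22038066), (364, 0, 0, 106041396, 105911346)]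
  [(243, -2), (245, -4), (255, -2), (309, 4), (364, 4)] = true := by
  decide +kernel

theorem t6_21_22_0 : chkF keys 1 3 p6_21_0 c6_22
  [(255, 0, 0, 88217136, 40178736), (309, 0, 0, 38999136, 22169136), (245, 0, 0, 88213041, 40178691), (245, 0, 0, 33898851, 21169701), (245, 0, 0, 88213011, 40174611), (364, 0, 0, 106042371, 106038321), (255, 0, 0, 88217091, 40174641), (243, 0, 0, 104989971, 103089171), (243, 0, 0, 104989461, 101000211), (255, 0, 0, 88216326, 6628401), (364, 0, 0, 106042116, 105915441), (245, 0, 0, 88212246, 6628371), (245, 0, 0, 33899361, 21177861), (245, 0, 0, 88211766, 6624291), (309, 0, 0, 38998116, 22038066), (255, 0, 0, 88215606, 6624306)]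
  [(243, -2), (245, 2), (255, 4), (309, -2), (364, -2)] = true := by
  decide +kernel

theorem t6_21_23_0 : chkF keys 1 3 p6_21_0 c6_23
  [(365, 0, 0, 106042416, 106042416), (321, 0, 0, 102962256, 101860656), (235, 0, 0, 37951056, 34948656), (236, 0, 0, 37950816, 19220016), (321, 0, 0, 102962181, 100812081), (365, 0, 0, 106042371, 106038321), (327, 0, 0, 101986821, 100938321), (311, 0, 0, 69408006, 2508081), (311, 0, 0, 69408261, 33965361), (327, 0, 0, 101987586, 103034961), (365, 0, 0, 106042116, 105915441), (321, 0, 0, 102962436, 102778161), (236, 0, 0, 37949541, 17122866), (235, 0, 0, 37949526, 1394226), (321, 0, 0, 102961236, 101729586), (365, 0, 0, 106041396, 105911346)]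
  [(235, -2), (236, -2), (311, -2), (321, 4), (327, -2), (365, 4)] = true := by
  decide +kernel

theorem t6_21_24_0 : chkF keys 1 3 p6_21_0 c6_24
  [(327, 0, 0, 101986896, 101986896), (321, 0, 0, 102962256, 101860656), (235, 0, 0, 37951056, 34948656), (311, 0, 0, 69408096, 19285296), (235, 0, 0, 37950981, 33900081), (365, 0, 0, 106042371, 106038321), (327, 0, 0, 101986821, 100938321), (236, 0, 0, 37950726, 2442801), (236, 0, 0, 37950981, 33900081), (327, 0, 0, 101987586, 103034961), (365, 0, 0, 106042116, 105915441), (235, 0, 0, 37950726, 2442801), (311, 0, 0, 69406821, 17188146), (235, 0, 0, 37949526, 1394226), (321, 0, 0, 102961236, 101729586), (327, 0, 0, 101986386, 101986386)]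
  [(235, 4), (236, -2), (311, -2), (321, -2), (327, 4), (365, -2)] = true := by
  decide +kernel

theorem t6_21_25_0 : chkF keys 1 3 p6_21_0 c6_25
  [(366, 0, 0, 5379120, 5379120), (322, 0, 0, 2298960, 1197360), (237, 0, 0, 213525, 213525), (244, 0, 0, 4326705, 2429955), (322, 0, 0, 2298885, 148785), (366, 0, 0, 5379075, 5375025), (257, 0, 0, 4330755, 2425905), (252, 0, 0, 274725, 274725), (252, 0, 0, 275745, 2371845), (257, 0, 0, 4330245, 336945), (366, 0, 0, 5378820, 5252145), (322, 0, 0, 2299140, 2114865), (244, 0, 0, 4325685, 332835), (237, 0, 0, 214290, 2310165), (322, 0, 0, 2297940, 1066290), (366, 0, 0, 5378100, 5248050)]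
  [(237, -2), (244, -2), (252, -2), (257, -2), (322, 4), (366, 4)] = true := by
  decide +kernel

theorem t6_21_26_0 : chkF keys 1 3 p6_21_0 c6_26
  [(257, 0, 0, 4330800, 2430000), (322, 0, 0, 2298960, 1197360), (237, 0, 0, 213525, 213525), (252, 0, 0, 274770, 1323045), (237, 0, 0, 213585, 1262085), (366, 0, 0, 5379075, 5375025), (257, 0, 0, 4330755, 2425905), (244, 0, 0, 4326675, 2425875), (244, 0, 0, 4326165, 336915), (257, 0, 0, 4330245, 336945), (366, 0, 0, 5378820, 5252145), (237, 0, 0, 213330, 1261605), (252, 0, 0, 275025, 1323525), (237, 0, 0, 214290, 2310165), (322, 0, 0, 2297940, 1066290), (257, 0, 0, 4329525, 332850)]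
  [(237, 4), (244, -2), (252, -2), (257, 4), (322, -2), (366, -2)] = true := by
  decide +kernel

theorem t6_22_22_0 : chkF keys 1 3 p6_22_0 c6_22
  [(364, 0, 0, 106042176, 105980976), (245, 0, 0, 33900051, 37946901), (243, 0, 0, 104989521, 102048771), (309, 0, 0, 38999616, 38880816), (245, 0, 0, 88213011, 40174611), (364, 0, 0, 106042371, 106038321), (255, 0, 0, 88217091, 40174641), (243, 0, 0, 104989971, 103089171), (243, 0, 0, 104989461, 101000211), (255, 0, 0, 88216326, 6628401), (364, 0, 0, 106042116, 105915441), (245, 0, 0, 88212246, 6628371), (309, 0, 0, 38998086, 5326386), (243, 0, 0, 104989011, 102040611), (245, 0, 0, 33899286, 4400661), (364, 0, 0, 106041411, 105972786)]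
  [(243, 4), (245, -4), (255, -2), (309, -2), (364, 4)] = true := by
  decide +kernel

theorem t6_22_23_0 : chkF keys 1 3 p6_22_0 c6_23
  [(327, 0, 0, 101987616, 103035216), (311, 0, 0, 69408336, 35013936), (236, 0, 0, 37951056, 34948656), (235, 0, 0, 37950816, 19220016), (321, 0, 0, 102962181, 100812081), (365, 0, 0, 106042371, 106038321), (327, 0, 0, 101986821, 100938321), (311, 0, 0, 69408006, 2508081), (311, 0, 0, 69408261, 33965361), (327, 0, 0, 101987586, 103034961), (365, 0, 0, 106042116, 105915441), (321, 0, 0, 102962436, 102778161), (235, 0, 0, 37949541, 17122866), (236, 0, 0, 37949526, 1394226), (311, 0, 0, 69406806, 1459506), (327, 0, 0, 101986341, 100938066)]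
  [(235, -2), (236, -2), (311, 4), (321, -2), (327, 4), (365, -2)] = true := by
  decide +kernel

theorem t6_22_24_0 : chkF keys 1 3 p6_22_0 c6_24
  [(365, 0, 0, 106042176, 105980976), (311, 0, 0, 69408336, 35013936), (236, 0, 0, 37951056, 34948656), (321, 0, 0, 102962496, 102843696), (235, 0, 0, 37950981, 33900081), (365, 0, 0, 106042371, 106038321), (327, 0, 0, 101986821, 100938321), (236, 0, 0, 37950726, 2442801), (236, 0, 0, 37950981, 33900081), (327, 0, 0, 101987586, 103034961), (365, 0, 0, 106042116, 105915441), (235, 0, 0, 37950726, 2442801), (321, 0, 0, 102961221, 100746546), (236, 0, 0, 37949526, 1394226), (311, 0, 0, 69406806, 1459506), (365, 0, 0, 106041411, 105972786)]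
  [(235, -2), (236, 4), (311, -2), (321, -2), (327, -2), (365, 4)] = true := by
  decide +kernel

theorem t6_22_25_0 : chkF keys 1 3 p6_22_0 c6_25
  [(257, 0, 0, 4330320, 1385520), (252, 0, 0, 275730, 2371605), (244, 0, 0, 4326225, 1385475), (237, 0, 0, 213285, 213285), (322, 0, 0, 2298885, 148785), (366, 0, 0, 5379075, 5375025), (257, 0, 0, 4330755, 2425905), (252, 0, 0, 274725, 274725), (252, 0, 0, 275745, 2371845), (257, 0, 0, 4330245, 336945), (366, 0, 0, 5378820, 5252145), (322, 0, 0, 2299140, 2114865), (237, 0, 0, 214305, 2310405), (244, 0, 0, 4325715, 1377315), (252, 0, 0, 274965, 274965), (257, 0, 0, 4329555, 1377330)]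
  [(237, -2), (244, -2), (252, 4), (257, 4), (322, -2), (366, -2)] = true := by
  decide +kernel

theorem t6_22_26_0 : chkF keys 1 3 p6_22_0 c6_26
  [(366, 0, 0, 5378880, 5317680), (252, 0, 0, 275730, 2371605), (244, 0, 0, 4326225, 1385475), (322, 0, 0, 2299200, 2180400), (237, 0, 0, 213585, 1262085), (366, 0, 0, 5379075, 5375025), (257, 0, 0, 4330755, 2425905), (244, 0, 0, 4326675, 2425875), (244, 0, 0, 4326165, 336915), (257, 0, 0, 4330245, 336945), (366, 0, 0, 5378820, 5252145), (237, 0, 0, 213330, 1261605), (322, 0, 0, 2297925, 83250), (244, 0, 0, 4325715, 1377315), (252, 0, 0, 274965, 274965), (366, 0, 0, 5378115, 5309490)]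
  [(237, -2), (244, 4), (252, -2), (257, -2), (322, -2), (366, 4)] = true := by
  decide +kernel

theorem t6_23_23_0 : chkF keys 1 3 p6_23_0 c6_23
  [(347, 0, 0, 72553056, 22430256), (315, 0, 0, 103028016, 103028016), (238, 0, 0, 38147376, 69539376), (235, 0, 0, 39195696, 72488496), (315, 0, 0, 103027971, 103023921), (347, 0, 0, 72552966, 5653041), (255, 0, 0, 54924546, 69558321), (238, 0, 0, 101859381, 100865106), (238, 0, 0, 101860656, 102962256), (255, 0, 0, 54923781, 67461681), (347, 0, 0, 72553986, 39206961), (315, 0, 0, 103027461, 100934961), (235, 0, 0, 39194676, 72357426), (238, 0, 0, 38146101, 67442226), (315, 0, 0, 103026741, 100930866), (347, 0, 0, 72552546, 22429746)]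
  [(235, -2), (238, -4), (255, -2), (315, 4), (347, 4)] = true := by
  decide +kernel

theorem t6_23_24_0 : chkF keys 1 3 p6_23_0 c6_24
  [(255, 0, 0, 54924576, 69558576), (315, 0, 0, 103028016, 103028016), (238, 0, 0, 38147376, 69539376), (238, 0, 0, 101859411, 101909586), (238, 0, 0, 38147331, 69535281), (347, 0, 0, 72552966, 5653041), (255, 0, 0, 54924546, 69558321), (235, 0, 0, 39195651, 72484401), (235, 0, 0, 39195396, 72361521), (255, 0, 0, 54923781, 67461681), (347, 0, 0, 72553986, 39206961), (238, 0, 0, 38146821, 67446321), (238, 0, 0, 101860176, 101917776), (238, 0, 0, 38146101, 67442226), (315, 0, 0, 103026741, 100930866), (255, 0, 0, 54923301, 67461426)]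
  [(235, -2), (238, 2), (255, 4), (315, -2), (347, -2)] = true := by
  decide +kernel

theorem t6_23_25_0 : chkF keys 1 3 p6_23_0 c6_25
  [(350, 0, 0, 4395600, 1393200), (316, 0, 0, 2364720, 2364720), (252, 0, 0, 3474465, 4346115), (237, 0, 0, 1196085, 201810), (316, 0, 0, 2364675, 2360625), (350, 0, 0, 4395525, 344625), (257, 0, 0, 1262085, 213585), (240, 0, 0, 3474450, 4345875), (240, 0, 0, 3473940, 4215315), (257, 0, 0, 1262850, 2310225), (350, 0, 0, 4396290, 2441265), (316, 0, 0, 2364165, 271665), (237, 0, 0, 1197360, 2298960), (252, 0, 0, 3473700, 4215075), (316, 0, 0, 2363445, 267570), (350, 0, 0, 4395090, 1392690)]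
  [(237, -2), (240, -2), (252, -2), (257, -2), (316, 4), (350, 4)] = true := by
  decide +kernel

theorem t6_23_26_0 : chkF keys 1 3 p6_23_0 c6_26
  [(257, 0, 0, 1262160, 1262160), (316, 0, 0, 2364720, 2364720), (252, 0, 0, 3474465, 4346115), (240, 0, 0, 3474465, 4346115), (252, 0, 0, 3474450, 4345875), (350, 0, 0, 4395525, 344625), (257, 0, 0, 1262085, 213585), (237, 0, 0, 1196115, 1246290), (237, 0, 0, 1196880, 1254480), (257, 0, 0, 1262850, 2310225), (350, 0, 0, 4396290, 2441265), (252, 0, 0, 3473940, 4215315), (240, 0, 0, 3473700, 4215075), (252, 0, 0, 3473700, 4215075), (316, 0, 0, 2363445, 267570), (257, 0, 0, 1261650, 1261650)]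
  [(237, -2), (240, -2), (252, 4), (257, 4), (316, -2), (350, -2)] = true := by
  decide +kernel

theorem t6_24_24_0 : chkF keys 1 3 p6_24_0 c6_24
  [(347, 0, 0, 72554016, 39207216), (238, 0, 0, 101860611, 102958161), (235, 0, 0, 39195456, 72427056), (315, 0, 0, 103027536, 101983536), (238, 0, 0, 38147331, 69535281), (347, 0, 0, 72552966, 5653041), (255, 0, 0, 54924546, 69558321), (235, 0, 0, 39195651, 72484401), (235, 0, 0, 39195396, 72361521), (255, 0, 0, 54923781, 67461681), (347, 0, 0, 72553986, 39206961), (238, 0, 0, 38146821, 67446321), (315, 0, 0, 103026771, 101975346), (235, 0, 0, 39194691, 72418866), (238, 0, 0, 101860101, 100869201), (347, 0, 0, 72552486, 5652786)]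
  [(235, 4), (238, -4), (255, -2), (315, -2), (347, 4)] = true := by
  decide +kernel

theorem t6_24_25_0 : chkF keys 1 3 p6_24_0 c6_25
  [(257, 0, 0, 1262880, 2310480), (240, 0, 0, 3473985, 4280835), (237, 0, 0, 1196805, 205905), (252, 0, 0, 3473985, 4280835), (316, 0, 0, 2364675, 2360625), (350, 0, 0, 4395525, 344625), (257, 0, 0, 1262085, 213585), (240, 0, 0, 3474450, 4345875), (240, 0, 0, 3473940, 4215315), (257, 0, 0, 1262850, 2310225), (350, 0, 0, 4396290, 2441265), (316, 0, 0, 2364165, 271665), (252, 0, 0, 3473730, 4280355), (237, 0, 0, 1197315, 2294865), (240, 0, 0, 3473730, 4280355), (257, 0, 0, 1261605, 213330)]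
  [(237, -2), (240, 4), (252, -2), (257, 4), (316, -2), (350, -2)] = true := by
  decide +kernel

theorem t6_24_26_0 : chkF keys 1 3 p6_24_0 c6_26
  [(350, 0, 0, 4396320, 2441520), (240, 0, 0, 3473985, 4280835), (237, 0, 0, 1196805, 205905), (316, 0, 0, 2364240, 1320240), (252, 0, 0, 3474450, 4345875), (350, 0, 0, 4395525, 344625), (257, 0, 0, 1262085, 213585), (237, 0, 0, 1196115, 1246290), (237, 0, 0, 1196880, 1254480), (257, 0, 0, 1262850, 2310225), (350, 0, 0, 4396290, 2441265), (252, 0, 0, 3473940, 4215315), (316, 0, 0, 2363475, 1312050), (237, 0, 0, 1197315, 2294865), (240, 0, 0, 3473730, 4280355), (350, 0, 0, 4395045, 344370)]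
  [(237, 4), (240, -2), (252, -2), (257, -2), (316, -2), (350, 4)] = true := by
  decide +kernel

theorem t6_25_25_0 : chkF keys 1 3 p6_25_0 c6_25
  [(352, 0, 0, 201280, 82480), (317, 0, 0, 136240, 136240), (241, 0, 0, 12820, 12820), (247, 0, 0, 197665, 147715), (317, 0, 0, 136195, 132145), (352, 0, 0, 201220, 16945), (264, 0, 0, 201730, 147505), (241, 0, 0, 197650, 147475), (241, 0, 0, 197140, 16915), (264, 0, 0, 201220, 16945), (352, 0, 0, 201730, 147505), (317, 0, 0, 135940, 9265), (247, 0, 0, 196900, 16675), (241, 0, 0, 13330, 143380), (317, 0, 0, 135220, 5170), (352, 0, 0, 200770, 81970)]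
  [(241, -4), (247, -2), (264, -2), (317, 4), (352, 4)] = true := by
  decide +kernel

theorem t6_25_26_0 : chkF keys 1 3 p6_25_0 c6_26
  [(264, 0, 0, 201760, 147760), (317, 0, 0, 136240, 136240), (241, 0, 0, 12820, 12820), (241, 0, 0, 197665, 147715), (241, 0, 0, 12865, 78340), (352, 0, 0, 201220, 16945), (264, 0, 0, 201730, 147505), (247, 0, 0, 197650, 147475), (247, 0, 0, 197140, 16915), (264, 0, 0, 201220, 16945), (352, 0, 0, 201730, 147505), (241, 0, 0, 12610, 77860), (241, 0, 0, 196900, 16675), (241, 0, 0, 13330, 143380), (317, 0, 0, 135220, 5170), (264, 0, 0, 200740, 16690)]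
  [(241, 2), (247, -2), (264, 4), (317, -2), (352, -2)] = true := by
  decide +kernel

theorem t6_26_26_0 : chkF keys 1 3 p6_26_0 c6_26
  [(352, 0, 0, 201760, 147760), (241, 0, 0, 197185, 82435), (247, 0, 0, 197185, 82435), (317, 0, 0, 136000, 74800), (241, 0, 0, 12865, 78340), (352, 0, 0, 201220, 16945), (264, 0, 0, 201730, 147505), (247, 0, 0, 197650, 147475), (247, 0, 0, 197140, 16915), (264, 0, 0, 201220, 16945), (352, 0, 0, 201730, 147505), (241, 0, 0, 12610, 77860), (317, 0, 0, 135235, 66610), (247, 0, 0, 196930, 81955), (241, 0, 0, 196930, 81955), (352, 0, 0, 200740, 16690)]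
  [(241, -4), (247, 4), (264, -2), (317, -2), (352, 4)] = true := by
  decide +kernel

section

variable {κ ι : Type*} [Fintype κ] [Fintype ι] [Inhabited κ] [Inhabited ι]

def r6_0_0 : List (ℕ × ℤ) := [(62, -8), (278, 8)]

theorem h6_0_0 (E : Env κ ι) : inn E 1 3 c6_0 c6_0 = dotS (ek E keys) r6_0_0 :=
  innS_eqZ E _ _ _ _ _ _ _ (chkF_sound E keys 1 3 _ _ _ _ t6_0_0_0) (by decide +kernel)

def r6_0_1 : List (ℕ × ℤ) := [(62, -4), (63, 4)]

theorem h6_0_1 (E : Env κ ι) : inn E 1 3 c6_0 c6_1 = dotS (ek E keys) r6_0_1 :=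
  innS_eqZ E _ _ _ _ _ _ _ (chkF_sound E keys 1 3 _ _ _ _ t6_0_1_0) (by decide +kernel)

def r6_0_2 : List (ℕ × ℤ) := [(208, -8), (209, 8)]

theorem h6_0_2 (E : Env κ ι) : inn E 1 3 c6_0 c6_2 = dotS (ek E keys) r6_0_2 :=
  innS_eqZ E _ _ _ _ _ _ _ (chkF_sound E keys 1 3 _ _ _ _ t6_0_2_0) (by decide +kernel)

def r6_0_3 : List (ℕ × ℤ) := [(64, -8), (279, 8)]

theorem h6_0_3 (E : Env κ ι) : inn E 1 3 c6_0 c6_3 = dotS (ek E keys) r6_0_3 :=
  innS_eqZ E _ _ _ _ _ _ _ (chkF_sound E keys 1 3 _ _ _ _ t6_0_3_0) (by decide +kernel)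

def r6_0_4 : List (ℕ × ℤ) := [(63, -8), (204, 8)]

theorem h6_0_4 (E : Env κ ι) : inn E 1 3 c6_0 c6_4 = dotS (ek E keys) r6_0_4 :=
  innS_eqZ E _ _ _ _ _ _ _ (chkF_sound E keys 1 3 _ _ _ _ t6_0_4_0) (by decide +kernel)

def r6_0_5 : List (ℕ × ℤ) := [(64, 4), (209, -4)]

theorem h6_0_5 (E : Env κ ι) : inn E 1 3 c6_0 c6_5 = dotS (ek E keys) r6_0_5 :=
  innS_eqZ E _ _ _ _ _ _ _ (chkF_sound E keys 1 3 _ _ _ _ t6_0_5_0) (by decide +kernel)

def r6_0_6 : List (ℕ × ℤ) := [(8, -8), (280, 8)]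

theorem h6_0_6 (E : Env κ ι) : inn E 1 3 c6_0 c6_6 = dotS (ek E keys) r6_0_6 :=
  innS_eqZ E _ _ _ _ _ _ _ (chkF_sound E keys 1 3 _ _ _ _ t6_0_6_0) (by decide +kernel)

def r6_0_7 : List (ℕ × ℤ) := [(29, -8), (93, 8)]

theorem h6_0_7 (E : Env κ ι) : inn E 1 3 c6_0 c6_7 = dotS (ek E keys) r6_0_7 :=
  innS_eqZ E _ _ _ _ _ _ _ (chkF_sound E keys 1 3 _ _ _ _ t6_0_7_0) (by decide +kernel)

def r6_0_8 : List (ℕ × ℤ) := [(8, -4), (29, 4)]

theorem h6_0_8 (E : Env κ ι) : inn E 1 3 c6_0 c6_8 = dotS (ek E keys) r6_0_8 :=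
  innS_eqZ E _ _ _ _ _ _ _ (chkF_sound E keys 1 3 _ _ _ _ t6_0_8_0) (by decide +kernel)

def r6_0_9 : List (ℕ × ℤ) := [(8, -4), (79, 4)]

theorem h6_0_9 (E : Env κ ι) : inn E 1 3 c6_0 c6_9 = dotS (ek E keys) r6_0_9 :=
  innS_eqZ E _ _ _ _ _ _ _ (chkF_sound E keys 1 3 _ _ _ _ t6_0_9_0) (by decide +kernel)

def r6_0_10 : List (ℕ × ℤ) := [(28, 4), (95, -4)]

theorem h6_0_10 (E : Env κ ι) : inn E 1 3 c6_0 c6_10 = dotS (ek E keys) r6_0_10 :=
  innS_eqZ E _ _ _ _ _ _ _ (chkF_sound E keys 1 3 _ _ _ _ t6_0_10_0) (by decide +kernel)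

def r6_0_11 : List (ℕ × ℤ) := [(46, 4), (69, -4)]

theorem h6_0_11 (E : Env κ ι) : inn E 1 3 c6_0 c6_11 = dotS (ek E keys) r6_0_11 :=
  innS_eqZ E _ _ _ _ _ _ _ (chkF_sound E keys 1 3 _ _ _ _ t6_0_11_0) (by decide +kernel)

def r6_0_12 : List (ℕ × ℤ) := [(90, 8), (91, -8)]

theorem h6_0_12 (E : Env κ ι) : inn E 1 3 c6_0 c6_12 = dotS (ek E keys) r6_0_12 :=
  innS_eqZ E _ _ _ _ _ _ _ (chkF_sound E keys 1 3 _ _ _ _ t6_0_12_0) (by decide +kernel)

def r6_0_13 : List (ℕ × ℤ) := [(9, 8), (28, -8)]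

theorem h6_0_13 (E : Env κ ι) : inn E 1 3 c6_0 c6_13 = dotS (ek E keys) r6_0_13 :=
  innS_eqZ E _ _ _ _ _ _ _ (chkF_sound E keys 1 3 _ _ _ _ t6_0_13_0) (by decide +kernel)

def r6_0_14 : List (ℕ × ℤ) := [(46, -8), (70, 8)]

theorem h6_0_14 (E : Env κ ι) : inn E 1 3 c6_0 c6_14 = dotS (ek E keys) r6_0_14 :=
  innS_eqZ E _ _ _ _ _ _ _ (chkF_sound E keys 1 3 _ _ _ _ t6_0_14_0) (by decide +kernel)

def r6_0_15 : List (ℕ × ℤ) := [(61, -8), (66, 8)]

theorem h6_0_15 (E : Env κ ι) : inn E 1 3 c6_0 c6_15 = dotS (ek E keys) r6_0_15 :=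
  innS_eqZ E _ _ _ _ _ _ _ (chkF_sound E keys 1 3 _ _ _ _ t6_0_15_0) (by decide +kernel)

def r6_0_16 : List (ℕ × ℤ) := [(7, 8), (281, -8)]

theorem h6_0_16 (E : Env κ ι) : inn E 1 3 c6_0 c6_16 = dotS (ek E keys) r6_0_16 :=
  innS_eqZ E _ _ _ _ _ _ _ (chkF_sound E keys 1 3 _ _ _ _ t6_0_16_0) (by decide +kernel)

def r6_0_17 : List (ℕ × ℤ) := [(63, -4), (208, -4), (282, 8)]

theorem h6_0_17 (E : Env κ ι) : inn E 1 3 c6_0 c6_17 = dotS (ek E keys) r6_0_17 :=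
  innS_eqZ E _ _ _ _ _ _ _ (chkF_sound E keys 1 3 _ _ _ _ t6_0_17_0) (by decide +kernel)

def r6_0_18 : List (ℕ × ℤ) := [(63, -4), (208, 8), (282, -4)]

theorem h6_0_18 (E : Env κ ι) : inn E 1 3 c6_0 c6_18 = dotS (ek E keys) r6_0_18 :=
  innS_eqZ E _ _ _ _ _ _ _ (chkF_sound E keys 1 3 _ _ _ _ t6_0_18_0) (by decide +kernel)

def r6_0_19 : List (ℕ × ℤ) := [(64, 8), (204, -4), (208, -4)]

theorem h6_0_19 (E : Env κ ι) : inn E 1 3 c6_0 c6_19 = dotS (ek E keys) r6_0_19 :=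
  innS_eqZ E _ _ _ _ _ _ _ (chkF_sound E keys 1 3 _ _ _ _ t6_0_19_0) (by decide +kernel)

def r6_0_20 : List (ℕ × ℤ) := [(64, -4), (204, 8), (208, -4)]

theorem h6_0_20 (E : Env κ ι) : inn E 1 3 c6_0 c6_20 = dotS (ek E keys) r6_0_20 :=
  innS_eqZ E _ _ _ _ _ _ _ (chkF_sound E keys 1 3 _ _ _ _ t6_0_20_0) (by decide +kernel)

def r6_0_21 : List (ℕ × ℤ) := [(28, -4), (92, -4), (94, 8)]

theorem h6_0_21 (E : Env κ ι) : inn E 1 3 c6_0 c6_21 = dotS (ek E keys) r6_0_21 :=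
  innS_eqZ E _ _ _ _ _ _ _ (chkF_sound E keys 1 3 _ _ _ _ t6_0_21_0) (by decide +kernel)

def r6_0_22 : List (ℕ × ℤ) := [(28, 8), (92, -4), (94, -4)]

theorem h6_0_22 (E : Env κ ι) : inn E 1 3 c6_0 c6_22 = dotS (ek E keys) r6_0_22 :=
  innS_eqZ E _ _ _ _ _ _ _ (chkF_sound E keys 1 3 _ _ _ _ t6_0_22_0) (by decide +kernel)

def r6_0_23 : List (ℕ × ℤ) := [(29, -4), (72, 8), (79, -4)]

theorem h6_0_23 (E : Env κ ι) : inn E 1 3 c6_0 c6_23 = dotS (ek E keys) r6_0_23 :=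
  innS_eqZ E _ _ _ _ _ _ _ (chkF_sound E keys 1 3 _ _ _ _ t6_0_23_0) (by decide +kernel)

def r6_0_24 : List (ℕ × ℤ) := [(29, -4), (72, -4), (79, 8)]

theorem h6_0_24 (E : Env κ ι) : inn E 1 3 c6_0 c6_24 = dotS (ek E keys) r6_0_24 :=
  innS_eqZ E _ _ _ _ _ _ _ (chkF_sound E keys 1 3 _ _ _ _ t6_0_24_0) (by decide +kernel)

def r6_0_25 : List (ℕ × ℤ) := [(46, -4), (67, -4), (74, 8)]

theorem h6_0_25 (E : Env κ ι) : inn E 1 3 c6_0 c6_25 = dotS (ek E keys) r6_0_25 :=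
  innS_eqZ E _ _ _ _ _ _ _ (chkF_sound E keys 1 3 _ _ _ _ t6_0_25_0) (by decide +kernel)

def r6_0_26 : List (ℕ × ℤ) := [(46, 8), (67, -4), (74, -4)]

theorem h6_0_26 (E : Env κ ι) : inn E 1 3 c6_0 c6_26 = dotS (ek E keys) r6_0_26 :=
  innS_eqZ E _ _ _ _ _ _ _ (chkF_sound E keys 1 3 _ _ _ _ t6_0_26_0) (by decide +kernel)

def r6_1_1 : List (ℕ × ℤ) := [(63, 2), (210, -2)]

theorem h6_1_1 (E : Env κ ι) : inn E 1 3 c6_1 c6_1 = dotS (ek E keys) r6_1_1 :=
  innS_eqZ E _ _ _ _ _ _ _ (chkF_sound E keys 1 3 _ _ _ _ t6_1_1_0) (by decide +kernel)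

def r6_1_2 : List (ℕ × ℤ) := [(36, -4), (211, 4)]

theorem h6_1_2 (E : Env κ ι) : inn E 1 3 c6_1 c6_2 = dotS (ek E keys) r6_1_2 :=
  innS_eqZ E _ _ _ _ _ _ _ (chkF_sound E keys 1 3 _ _ _ _ t6_1_2_0) (by decide +kernel)

def r6_1_3 : List (ℕ × ℤ) := [(212, 4), (283, -4)]

theorem h6_1_3 (E : Env κ ι) : inn E 1 3 c6_1 c6_3 = dotS (ek E keys) r6_1_3 :=
  innS_eqZ E _ _ _ _ _ _ _ (chkF_sound E keys 1 3 _ _ _ _ t6_1_3_0) (by decide +kernel)

def r6_1_4 : List (ℕ × ℤ) := [(205, -4), (210, 4)]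

theorem h6_1_4 (E : Env κ ι) : inn E 1 3 c6_1 c6_4 = dotS (ek E keys) r6_1_4 :=
  innS_eqZ E _ _ _ _ _ _ _ (chkF_sound E keys 1 3 _ _ _ _ t6_1_4_0) (by decide +kernel)

def r6_1_5 : List (ℕ × ℤ) := [(36, 2), (212, -2)]

theorem h6_1_5 (E : Env κ ι) : inn E 1 3 c6_1 c6_5 = dotS (ek E keys) r6_1_5 :=
  innS_eqZ E _ _ _ _ _ _ _ (chkF_sound E keys 1 3 _ _ _ _ t6_1_5_0) (by decide +kernel)

def r6_1_6 : List (ℕ × ℤ) := [(26, 4), (284, -4)]

theorem h6_1_6 (E : Env κ ι) : inn E 1 3 c6_1 c6_6 = dotS (ek E keys) r6_1_6 :=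
  innS_eqZ E _ _ _ _ _ _ _ (chkF_sound E keys 1 3 _ _ _ _ t6_1_6_0) (by decide +kernel)

def r6_1_7 : List (ℕ × ℤ) := [(82, 4), (98, -4)]

theorem h6_1_7 (E : Env κ ι) : inn E 1 3 c6_1 c6_7 = dotS (ek E keys) r6_1_7 :=
  innS_eqZ E _ _ _ _ _ _ _ (chkF_sound E keys 1 3 _ _ _ _ t6_1_7_0) (by decide +kernel)

def r6_1_8 : List (ℕ × ℤ) := [(26, 2), (82, -2)]

theorem h6_1_8 (E : Env κ ι) : inn E 1 3 c6_1 c6_8 = dotS (ek E keys) r6_1_8 :=
  innS_eqZ E _ _ _ _ _ _ _ (chkF_sound E keys 1 3 _ _ _ _ t6_1_8_0) (by decide +kernel)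

def r6_1_9 : List (ℕ × ℤ) := [(18, 2), (81, -2)]

theorem h6_1_9 (E : Env κ ι) : inn E 1 3 c6_1 c6_9 = dotS (ek E keys) r6_1_9 :=
  innS_eqZ E _ _ _ _ _ _ _ (chkF_sound E keys 1 3 _ _ _ _ t6_1_9_0) (by decide +kernel)

def r6_1_10 : List (ℕ × ℤ) := [(80, -2), (101, 2)]

theorem h6_1_10 (E : Env κ ι) : inn E 1 3 c6_1 c6_10 = dotS (ek E keys) r6_1_10 :=
  innS_eqZ E _ _ _ _ _ _ _ (chkF_sound E keys 1 3 _ _ _ _ t6_1_10_0) (by decide +kernel)

def r6_1_11 : List (ℕ × ℤ) := [(45, 2), (47, -2)]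

theorem h6_1_11 (E : Env κ ι) : inn E 1 3 c6_1 c6_11 = dotS (ek E keys) r6_1_11 :=
  innS_eqZ E _ _ _ _ _ _ _ (chkF_sound E keys 1 3 _ _ _ _ t6_1_11_0) (by decide +kernel)

def r6_1_12 : List (ℕ × ℤ) := [(17, 4), (91, -4)]

theorem h6_1_12 (E : Env κ ι) : inn E 1 3 c6_1 c6_12 = dotS (ek E keys) r6_1_12 :=
  innS_eqZ E _ _ _ _ _ _ _ (chkF_sound E keys 1 3 _ _ _ _ t6_1_12_0) (by decide +kernel)

def r6_1_13 : List (ℕ × ℤ) := [(28, -4), (99, 4)]

theorem h6_1_13 (E : Env κ ι) : inn E 1 3 c6_1 c6_13 = dotS (ek E keys) r6_1_13 :=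
  innS_eqZ E _ _ _ _ _ _ _ (chkF_sound E keys 1 3 _ _ _ _ t6_1_13_0) (by decide +kernel)

def r6_1_14 : List (ℕ × ℤ) := [(46, -4), (86, 4)]

theorem h6_1_14 (E : Env κ ι) : inn E 1 3 c6_1 c6_14 = dotS (ek E keys) r6_1_14 :=
  innS_eqZ E _ _ _ _ _ _ _ (chkF_sound E keys 1 3 _ _ _ _ t6_1_14_0) (by decide +kernel)

def r6_1_15 : List (ℕ × ℤ) := [(34, 4), (61, -4)]

theorem h6_1_15 (E : Env κ ι) : inn E 1 3 c6_1 c6_15 = dotS (ek E keys) r6_1_15 :=
  innS_eqZ E _ _ _ _ _ _ _ (chkF_sound E keys 1 3 _ _ _ _ t6_1_15_0) (by decide +kernel)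

def r6_1_16 : List (ℕ × ℤ) := [(24, -4), (285, 4)]

theorem h6_1_16 (E : Env κ ι) : inn E 1 3 c6_1 c6_16 = dotS (ek E keys) r6_1_16 :=
  innS_eqZ E _ _ _ _ _ _ _ (chkF_sound E keys 1 3 _ _ _ _ t6_1_16_0) (by decide +kernel)

def r6_1_17 : List (ℕ × ℤ) := [(210, 2), (211, 2), (286, -4)]

theorem h6_1_17 (E : Env κ ι) : inn E 1 3 c6_1 c6_17 = dotS (ek E keys) r6_1_17 :=
  innS_eqZ E _ _ _ _ _ _ _ (chkF_sound E keys 1 3 _ _ _ _ t6_1_17_0) (by decide +kernel)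

def r6_1_18 : List (ℕ × ℤ) := [(210, 2), (211, -4), (286, 2)]

theorem h6_1_18 (E : Env κ ι) : inn E 1 3 c6_1 c6_18 = dotS (ek E keys) r6_1_18 :=
  innS_eqZ E _ _ _ _ _ _ _ (chkF_sound E keys 1 3 _ _ _ _ t6_1_18_0) (by decide +kernel)

def r6_1_19 : List (ℕ × ℤ) := [(205, 2), (211, 2), (212, -4)]

theorem h6_1_19 (E : Env κ ι) : inn E 1 3 c6_1 c6_19 = dotS (ek E keys) r6_1_19 :=
  innS_eqZ E _ _ _ _ _ _ _ (chkF_sound E keys 1 3 _ _ _ _ t6_1_19_0) (by decide +kernel)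

def r6_1_20 : List (ℕ × ℤ) := [(205, -4), (211, 2), (212, 2)]

theorem h6_1_20 (E : Env κ ι) : inn E 1 3 c6_1 c6_20 = dotS (ek E keys) r6_1_20 :=
  innS_eqZ E _ _ _ _ _ _ _ (chkF_sound E keys 1 3 _ _ _ _ t6_1_20_0) (by decide +kernel)

def r6_1_21 : List (ℕ × ℤ) := [(80, 2), (96, 2), (100, -4)]

theorem h6_1_21 (E : Env κ ι) : inn E 1 3 c6_1 c6_21 = dotS (ek E keys) r6_1_21 :=
  innS_eqZ E _ _ _ _ _ _ _ (chkF_sound E keys 1 3 _ _ _ _ t6_1_21_0) (by decide +kernel)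

def r6_1_22 : List (ℕ × ℤ) := [(80, -4), (96, 2), (100, 2)]

theorem h6_1_22 (E : Env κ ι) : inn E 1 3 c6_1 c6_22 = dotS (ek E keys) r6_1_22 :=
  innS_eqZ E _ _ _ _ _ _ _ (chkF_sound E keys 1 3 _ _ _ _ t6_1_22_0) (by decide +kernel)

def r6_1_23 : List (ℕ × ℤ) := [(73, -4), (81, 2), (97, 2)]

theorem h6_1_23 (E : Env κ ι) : inn E 1 3 c6_1 c6_23 = dotS (ek E keys) r6_1_23 :=
  innS_eqZ E _ _ _ _ _ _ _ (chkF_sound E keys 1 3 _ _ _ _ t6_1_23_0) (by decide +kernel)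

def r6_1_24 : List (ℕ × ℤ) := [(73, 2), (81, -4), (97, 2)]

theorem h6_1_24 (E : Env κ ι) : inn E 1 3 c6_1 c6_24 = dotS (ek E keys) r6_1_24 :=
  innS_eqZ E _ _ _ _ _ _ _ (chkF_sound E keys 1 3 _ _ _ _ t6_1_24_0) (by decide +kernel)

def r6_1_25 : List (ℕ × ℤ) := [(47, 2), (48, 2), (77, -4)]

theorem h6_1_25 (E : Env κ ι) : inn E 1 3 c6_1 c6_25 = dotS (ek E keys) r6_1_25 :=
  innS_eqZ E _ _ _ _ _ _ _ (chkF_sound E keys 1 3 _ _ _ _ t6_1_25_0) (by decide +kernel)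

def r6_1_26 : List (ℕ × ℤ) := [(47, -4), (48, 2), (77, 2)]

theorem h6_1_26 (E : Env κ ι) : inn E 1 3 c6_1 c6_26 = dotS (ek E keys) r6_1_26 :=
  innS_eqZ E _ _ _ _ _ _ _ (chkF_sound E keys 1 3 _ _ _ _ t6_1_26_0) (by decide +kernel)

def r6_2_2 : List (ℕ × ℤ) := [(214, 8), (287, -8)]

theorem h6_2_2 (E : Env κ ι) : inn E 1 3 c6_2 c6_2 = dotS (ek E keys) r6_2_2 :=
  innS_eqZ E _ _ _ _ _ _ _ (chkF_sound E keys 1 3 _ _ _ _ t6_2_2_0) (by decide +kernel)

def r6_2_3 : List (ℕ × ℤ) := [(288, 8), (289, -8)]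

theorem h6_2_3 (E : Env κ ι) : inn E 1 3 c6_2 c6_3 = dotS (ek E keys) r6_2_3 :=
  innS_eqZ E _ _ _ _ _ _ _ (chkF_sound E keys 1 3 _ _ _ _ t6_2_3_0) (by decide +kernel)

def r6_2_4 : List (ℕ × ℤ) := [(205, 8), (290, -8)]

theorem h6_2_4 (E : Env κ ι) : inn E 1 3 c6_2 c6_4 = dotS (ek E keys) r6_2_4 :=
  innS_eqZ E _ _ _ _ _ _ _ (chkF_sound E keys 1 3 _ _ _ _ t6_2_4_0) (by decide +kernel)

def r6_2_5 : List (ℕ × ℤ) := [(37, -4), (291, 4)]

theorem h6_2_5 (E : Env κ ι) : inn E 1 3 c6_2 c6_5 = dotS (ek E keys) r6_2_5 :=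
  innS_eqZ E _ _ _ _ _ _ _ (chkF_sound E keys 1 3 _ _ _ _ t6_2_5_0) (by decide +kernel)

def r6_2_6 : List (ℕ × ℤ) := [(88, 8), (192, -8)]

theorem h6_2_6 (E : Env κ ι) : inn E 1 3 c6_2 c6_6 = dotS (ek E keys) r6_2_6 :=
  innS_eqZ E _ _ _ _ _ _ _ (chkF_sound E keys 1 3 _ _ _ _ t6_2_6_0) (by decide +kernel)

def r6_2_7 : List (ℕ × ℤ) := [(105, -8), (150, 8)]

theorem h6_2_7 (E : Env κ ι) : inn E 1 3 c6_2 c6_7 = dotS (ek E keys) r6_2_7 :=
  innS_eqZ E _ _ _ _ _ _ _ (chkF_sound E keys 1 3 _ _ _ _ t6_2_7_0) (by decide +kernel)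

def r6_2_8 : List (ℕ × ℤ) := [(27, -4), (117, 4)]

theorem h6_2_8 (E : Env κ ι) : inn E 1 3 c6_2 c6_8 = dotS (ek E keys) r6_2_8 :=
  innS_eqZ E _ _ _ _ _ _ _ (chkF_sound E keys 1 3 _ _ _ _ t6_2_8_0) (by decide +kernel)

def r6_2_9 : List (ℕ × ℤ) := [(84, -4), (139, 4)]

theorem h6_2_9 (E : Env κ ι) : inn E 1 3 c6_2 c6_9 = dotS (ek E keys) r6_2_9 :=
  innS_eqZ E _ _ _ _ _ _ _ (chkF_sound E keys 1 3 _ _ _ _ t6_2_9_0) (by decide +kernel)

def r6_2_10 : List (ℕ × ℤ) := [(101, -4), (149, 4)]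

theorem h6_2_10 (E : Env κ ι) : inn E 1 3 c6_2 c6_10 = dotS (ek E keys) r6_2_10 :=
  innS_eqZ E _ _ _ _ _ _ _ (chkF_sound E keys 1 3 _ _ _ _ t6_2_10_0) (by decide +kernel)

def r6_2_11 : List (ℕ × ℤ) := [(45, -4), (54, 4)]

theorem h6_2_11 (E : Env κ ι) : inn E 1 3 c6_2 c6_11 = dotS (ek E keys) r6_2_11 :=
  innS_eqZ E _ _ _ _ _ _ _ (chkF_sound E keys 1 3 _ _ _ _ t6_2_11_0) (by decide +kernel)

def r6_2_12 : List (ℕ × ℤ) := [(185, -8), (190, 8)]

theorem h6_2_12 (E : Env κ ι) : inn E 1 3 c6_2 c6_12 = dotS (ek E keys) r6_2_12 :=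
  innS_eqZ E _ _ _ _ _ _ _ (chkF_sound E keys 1 3 _ _ _ _ t6_2_12_0) (by decide +kernel)

def r6_2_13 : List (ℕ × ℤ) := [(130, -8), (174, 8)]

theorem h6_2_13 (E : Env κ ι) : inn E 1 3 c6_2 c6_13 = dotS (ek E keys) r6_2_13 :=
  innS_eqZ E _ _ _ _ _ _ _ (chkF_sound E keys 1 3 _ _ _ _ t6_2_13_0) (by decide +kernel)

def r6_2_14 : List (ℕ × ℤ) := [(58, -8), (138, 8)]

theorem h6_2_14 (E : Env κ ι) : inn E 1 3 c6_2 c6_14 = dotS (ek E keys) r6_2_14 :=
  innS_eqZ E _ _ _ _ _ _ _ (chkF_sound E keys 1 3 _ _ _ _ t6_2_14_0) (by decide +kernel)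

def r6_2_15 : List (ℕ × ℤ) := [(56, -8), (142, 8)]

theorem h6_2_15 (E : Env κ ι) : inn E 1 3 c6_2 c6_15 = dotS (ek E keys) r6_2_15 :=
  innS_eqZ E _ _ _ _ _ _ _ (chkF_sound E keys 1 3 _ _ _ _ t6_2_15_0) (by decide +kernel)

def r6_2_16 : List (ℕ × ℤ) := [(32, 8), (292, -8)]

theorem h6_2_16 (E : Env κ ι) : inn E 1 3 c6_2 c6_16 = dotS (ek E keys) r6_2_16 :=
  innS_eqZ E _ _ _ _ _ _ _ (chkF_sound E keys 1 3 _ _ _ _ t6_2_16_0) (by decide +kernel)

def r6_2_17 : List (ℕ × ℤ) := [(213, -4), (293, 8), (294, -4)]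

theorem h6_2_17 (E : Env κ ι) : inn E 1 3 c6_2 c6_17 = dotS (ek E keys) r6_2_17 :=
  innS_eqZ E _ _ _ _ _ _ _ (chkF_sound E keys 1 3 _ _ _ _ t6_2_17_0) (by decide +kernel)

def r6_2_18 : List (ℕ × ℤ) := [(213, 8), (293, -4), (294, -4)]

theorem h6_2_18 (E : Env κ ι) : inn E 1 3 c6_2 c6_18 = dotS (ek E keys) r6_2_18 :=
  innS_eqZ E _ _ _ _ _ _ _ (chkF_sound E keys 1 3 _ _ _ _ t6_2_18_0) (by decide +kernel)

def r6_2_19 : List (ℕ × ℤ) := [(215, 8), (291, -4), (295, -4)]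

theorem h6_2_19 (E : Env κ ι) : inn E 1 3 c6_2 c6_19 = dotS (ek E keys) r6_2_19 :=
  innS_eqZ E _ _ _ _ _ _ _ (chkF_sound E keys 1 3 _ _ _ _ t6_2_19_0) (by decide +kernel)

def r6_2_20 : List (ℕ × ℤ) := [(215, -4), (291, -4), (295, 8)]

theorem h6_2_20 (E : Env κ ι) : inn E 1 3 c6_2 c6_20 = dotS (ek E keys) r6_2_20 :=
  innS_eqZ E _ _ _ _ _ _ _ (chkF_sound E keys 1 3 _ _ _ _ t6_2_20_0) (by decide +kernel)

def r6_2_21 : List (ℕ × ℤ) := [(113, -4), (148, 8), (191, -4)]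

theorem h6_2_21 (E : Env κ ι) : inn E 1 3 c6_2 c6_21 = dotS (ek E keys) r6_2_21 :=
  innS_eqZ E _ _ _ _ _ _ _ (chkF_sound E keys 1 3 _ _ _ _ t6_2_21_0) (by decide +kernel)

def r6_2_22 : List (ℕ × ℤ) := [(113, -4), (148, -4), (191, 8)]

theorem h6_2_22 (E : Env κ ι) : inn E 1 3 c6_2 c6_22 = dotS (ek E keys) r6_2_22 :=
  innS_eqZ E _ _ _ _ _ _ _ (chkF_sound E keys 1 3 _ _ _ _ t6_2_22_0) (by decide +kernel)

def r6_2_23 : List (ℕ × ℤ) := [(121, -4), (131, -4), (140, 8)]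

theorem h6_2_23 (E : Env κ ι) : inn E 1 3 c6_2 c6_23 = dotS (ek E keys) r6_2_23 :=
  innS_eqZ E _ _ _ _ _ _ _ (chkF_sound E keys 1 3 _ _ _ _ t6_2_23_0) (by decide +kernel)

def r6_2_24 : List (ℕ × ℤ) := [(121, 8), (131, -4), (140, -4)]

theorem h6_2_24 (E : Env κ ι) : inn E 1 3 c6_2 c6_24 = dotS (ek E keys) r6_2_24 :=
  innS_eqZ E _ _ _ _ _ _ _ (chkF_sound E keys 1 3 _ _ _ _ t6_2_24_0) (by decide +kernel)

def r6_2_25 : List (ℕ × ℤ) := [(53, -4), (55, -4), (143, 8)]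

theorem h6_2_25 (E : Env κ ι) : inn E 1 3 c6_2 c6_25 = dotS (ek E keys) r6_2_25 :=
  innS_eqZ E _ _ _ _ _ _ _ (chkF_sound E keys 1 3 _ _ _ _ t6_2_25_0) (by decide +kernel)

def r6_2_26 : List (ℕ × ℤ) := [(53, -4), (55, 8), (143, -4)]

theorem h6_2_26 (E : Env κ ι) : inn E 1 3 c6_2 c6_26 = dotS (ek E keys) r6_2_26 :=
  innS_eqZ E _ _ _ _ _ _ _ (chkF_sound E keys 1 3 _ _ _ _ t6_2_26_0) (by decide +kernel)

def r6_3_3 : List (ℕ × ℤ) := [(217, -8), (296, 8)]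

theorem h6_3_3 (E : Env κ ι) : inn E 1 3 c6_3 c6_3 = dotS (ek E keys) r6_3_3 :=
  innS_eqZ E _ _ _ _ _ _ _ (chkF_sound E keys 1 3 _ _ _ _ t6_3_3_0) (by decide +kernel)

def r6_3_4 : List (ℕ × ℤ) := [(212, -8), (297, 8)]

theorem h6_3_4 (E : Env κ ι) : inn E 1 3 c6_3 c6_4 = dotS (ek E keys) r6_3_4 :=
  innS_eqZ E _ _ _ _ _ _ _ (chkF_sound E keys 1 3 _ _ _ _ t6_3_4_0) (by decide +kernel)

def r6_3_5 : List (ℕ × ℤ) := [(288, -4), (291, 4)]

theorem h6_3_5 (E : Env κ ι) : inn E 1 3 c6_3 c6_5 = dotS (ek E keys) r6_3_5 :=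
  innS_eqZ E _ _ _ _ _ _ _ (chkF_sound E keys 1 3 _ _ _ _ t6_3_5_0) (by decide +kernel)

def r6_3_6 : List (ℕ × ℤ) := [(23, -8), (298, 8)]

theorem h6_3_6 (E : Env κ ι) : inn E 1 3 c6_3 c6_6 = dotS (ek E keys) r6_3_6 :=
  innS_eqZ E _ _ _ _ _ _ _ (chkF_sound E keys 1 3 _ _ _ _ t6_3_6_0) (by decide +kernel)

def r6_3_7 : List (ℕ × ℤ) := [(141, -8), (200, 8)]

theorem h6_3_7 (E : Env κ ι) : inn E 1 3 c6_3 c6_7 = dotS (ek E keys) r6_3_7 :=
  innS_eqZ E _ _ _ _ _ _ _ (chkF_sound E keys 1 3 _ _ _ _ t6_3_7_0) (by decide +kernel)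

def r6_3_8 : List (ℕ × ℤ) := [(104, -4), (109, 4)]

theorem h6_3_8 (E : Env κ ι) : inn E 1 3 c6_3 c6_8 = dotS (ek E keys) r6_3_8 :=
  innS_eqZ E _ _ _ _ _ _ _ (chkF_sound E keys 1 3 _ _ _ _ t6_3_8_0) (by decide +kernel)

def r6_3_9 : List (ℕ × ℤ) := [(104, -4), (137, 4)]

theorem h6_3_9 (E : Env κ ι) : inn E 1 3 c6_3 c6_9 = dotS (ek E keys) r6_3_9 :=
  innS_eqZ E _ _ _ _ _ _ _ (chkF_sound E keys 1 3 _ _ _ _ t6_3_9_0) (by decide +kernel)

def r6_3_10 : List (ℕ × ℤ) := [(173, 4), (194, -4)]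

theorem h6_3_10 (E : Env κ ι) : inn E 1 3 c6_3 c6_10 = dotS (ek E keys) r6_3_10 :=
  innS_eqZ E _ _ _ _ _ _ _ (chkF_sound E keys 1 3 _ _ _ _ t6_3_10_0) (by decide +kernel)

def r6_3_11 : List (ℕ × ℤ) := [(57, 4), (122, -4)]

theorem h6_3_11 (E : Env κ ι) : inn E 1 3 c6_3 c6_11 = dotS (ek E keys) r6_3_11 :=
  innS_eqZ E _ _ _ _ _ _ _ (chkF_sound E keys 1 3 _ _ _ _ t6_3_11_0) (by decide +kernel)

def r6_3_12 : List (ℕ × ℤ) := [(22, -8), (299, 8)]

theorem h6_3_12 (E : Env κ ι) : inn E 1 3 c6_3 c6_12 = dotS (ek E keys) r6_3_12 :=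
  innS_eqZ E _ _ _ _ _ _ _ (chkF_sound E keys 1 3 _ _ _ _ t6_3_12_0) (by decide +kernel)

def r6_3_13 : List (ℕ × ℤ) := [(169, 8), (173, -8)]

theorem h6_3_13 (E : Env κ ι) : inn E 1 3 c6_3 c6_13 = dotS (ek E keys) r6_3_13 :=
  innS_eqZ E _ _ _ _ _ _ _ (chkF_sound E keys 1 3 _ _ _ _ t6_3_13_0) (by decide +kernel)

def r6_3_14 : List (ℕ × ℤ) := [(57, -8), (171, 8)]

theorem h6_3_14 (E : Env κ ι) : inn E 1 3 c6_3 c6_14 = dotS (ek E keys) r6_3_14 :=
  innS_eqZ E _ _ _ _ _ _ _ (chkF_sound E keys 1 3 _ _ _ _ t6_3_14_0) (by decide +kernel)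

def r6_3_15 : List (ℕ × ℤ) := [(35, -8), (179, 8)]

theorem h6_3_15 (E : Env κ ι) : inn E 1 3 c6_3 c6_15 = dotS (ek E keys) r6_3_15 :=
  innS_eqZ E _ _ _ _ _ _ _ (chkF_sound E keys 1 3 _ _ _ _ t6_3_15_0) (by decide +kernel)

def r6_3_16 : List (ℕ × ℤ) := [(153, 8), (163, -8)]

theorem h6_3_16 (E : Env κ ι) : inn E 1 3 c6_3 c6_16 = dotS (ek E keys) r6_3_16 :=
  innS_eqZ E _ _ _ _ _ _ _ (chkF_sound E keys 1 3 _ _ _ _ t6_3_16_0) (by decide +kernel)

def r6_3_17 : List (ℕ × ℤ) := [(212, -4), (215, -4), (300, 8)]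

theorem h6_3_17 (E : Env κ ι) : inn E 1 3 c6_3 c6_17 = dotS (ek E keys) r6_3_17 :=
  innS_eqZ E _ _ _ _ _ _ _ (chkF_sound E keys 1 3 _ _ _ _ t6_3_17_0) (by decide +kernel)

def r6_3_18 : List (ℕ × ℤ) := [(212, -4), (215, 8), (300, -4)]

theorem h6_3_18 (E : Env κ ι) : inn E 1 3 c6_3 c6_18 = dotS (ek E keys) r6_3_18 :=
  innS_eqZ E _ _ _ _ _ _ _ (chkF_sound E keys 1 3 _ _ _ _ t6_3_18_0) (by decide +kernel)

def r6_3_19 : List (ℕ × ℤ) := [(289, -4), (291, 8), (301, -4)]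

theorem h6_3_19 (E : Env κ ι) : inn E 1 3 c6_3 c6_19 = dotS (ek E keys) r6_3_19 :=
  innS_eqZ E _ _ _ _ _ _ _ (chkF_sound E keys 1 3 _ _ _ _ t6_3_19_0) (by decide +kernel)

def r6_3_20 : List (ℕ × ℤ) := [(289, -4), (291, -4), (301, 8)]

theorem h6_3_20 (E : Env κ ι) : inn E 1 3 c6_3 c6_20 = dotS (ek E keys) r6_3_20 :=
  innS_eqZ E _ _ _ _ _ _ _ (chkF_sound E keys 1 3 _ _ _ _ t6_3_20_0) (by decide +kernel)

def r6_3_21 : List (ℕ × ℤ) := [(115, -4), (173, -4), (199, 8)]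

theorem h6_3_21 (E : Env κ ι) : inn E 1 3 c6_3 c6_21 = dotS (ek E keys) r6_3_21 :=
  innS_eqZ E _ _ _ _ _ _ _ (chkF_sound E keys 1 3 _ _ _ _ t6_3_21_0) (by decide +kernel)

def r6_3_22 : List (ℕ × ℤ) := [(115, -4), (173, 8), (199, -4)]

theorem h6_3_22 (E : Env κ ι) : inn E 1 3 c6_3 c6_22 = dotS (ek E keys) r6_3_22 :=
  innS_eqZ E _ _ _ _ _ _ _ (chkF_sound E keys 1 3 _ _ _ _ t6_3_22_0) (by decide +kernel)

def r6_3_23 : List (ℕ × ℤ) := [(109, -4), (137, -4), (176, 8)]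

theorem h6_3_23 (E : Env κ ι) : inn E 1 3 c6_3 c6_23 = dotS (ek E keys) r6_3_23 :=
  innS_eqZ E _ _ _ _ _ _ _ (chkF_sound E keys 1 3 _ _ _ _ t6_3_23_0) (by decide +kernel)

def r6_3_24 : List (ℕ × ℤ) := [(109, -4), (137, 8), (176, -4)]

theorem h6_3_24 (E : Env κ ι) : inn E 1 3 c6_3 c6_24 = dotS (ek E keys) r6_3_24 :=
  innS_eqZ E _ _ _ _ _ _ _ (chkF_sound E keys 1 3 _ _ _ _ t6_3_24_0) (by decide +kernel)

def r6_3_25 : List (ℕ × ℤ) := [(52, -4), (57, -4), (182, 8)]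

theorem h6_3_25 (E : Env κ ι) : inn E 1 3 c6_3 c6_25 = dotS (ek E keys) r6_3_25 :=
  innS_eqZ E _ _ _ _ _ _ _ (chkF_sound E keys 1 3 _ _ _ _ t6_3_25_0) (by decide +kernel)

def r6_3_26 : List (ℕ × ℤ) := [(52, -4), (57, 8), (182, -4)]

theorem h6_3_26 (E : Env κ ι) : inn E 1 3 c6_3 c6_26 = dotS (ek E keys) r6_3_26 :=
  innS_eqZ E _ _ _ _ _ _ _ (chkF_sound E keys 1 3 _ _ _ _ t6_3_26_0) (by decide +kernel)

def r6_4_4 : List (ℕ × ℤ) := [(213, -8), (286, 8)]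

theorem h6_4_4 (E : Env κ ι) : inn E 1 3 c6_4 c6_4 = dotS (ek E keys) r6_4_4 :=
  innS_eqZ E _ _ _ _ _ _ _ (chkF_sound E keys 1 3 _ _ _ _ t6_4_4_0) (by decide +kernel)

def r6_4_5 : List (ℕ × ℤ) := [(207, -4), (294, 4)]

theorem h6_4_5 (E : Env κ ι) : inn E 1 3 c6_4 c6_5 = dotS (ek E keys) r6_4_5 :=
  innS_eqZ E _ _ _ _ _ _ _ (chkF_sound E keys 1 3 _ _ _ _ t6_4_5_0) (by decide +kernel)

def r6_4_6 : List (ℕ × ℤ) := [(26, -8), (75, 8)]

theorem h6_4_6 (E : Env κ ι) : inn E 1 3 c6_4 c6_6 = dotS (ek E keys) r6_4_6 :=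
  innS_eqZ E _ _ _ _ _ _ _ (chkF_sound E keys 1 3 _ _ _ _ t6_4_6_0) (by decide +kernel)

def r6_4_7 : List (ℕ × ℤ) := [(82, -8), (146, 8)]

theorem h6_4_7 (E : Env κ ι) : inn E 1 3 c6_4 c6_7 = dotS (ek E keys) r6_4_7 :=
  innS_eqZ E _ _ _ _ _ _ _ (chkF_sound E keys 1 3 _ _ _ _ t6_4_7_0) (by decide +kernel)

def r6_4_8 : List (ℕ × ℤ) := [(76, -4), (114, 4)]

theorem h6_4_8 (E : Env κ ι) : inn E 1 3 c6_4 c6_8 = dotS (ek E keys) r6_4_8 :=
  innS_eqZ E _ _ _ _ _ _ _ (chkF_sound E keys 1 3 _ _ _ _ t6_4_8_0) (by decide +kernel)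

def r6_4_9 : List (ℕ × ℤ) := [(73, -4), (107, 4)]

theorem h6_4_9 (E : Env κ ι) : inn E 1 3 c6_4 c6_9 = dotS (ek E keys) r6_4_9 :=
  innS_eqZ E _ _ _ _ _ _ _ (chkF_sound E keys 1 3 _ _ _ _ t6_4_9_0) (by decide +kernel)

def r6_4_10 : List (ℕ × ℤ) := [(100, -4), (113, 4)]

theorem h6_4_10 (E : Env κ ι) : inn E 1 3 c6_4 c6_10 = dotS (ek E keys) r6_4_10 :=
  innS_eqZ E _ _ _ _ _ _ _ (chkF_sound E keys 1 3 _ _ _ _ t6_4_10_0) (by decide +kernel)

def r6_4_11 : List (ℕ × ℤ) := [(53, 4), (77, -4)]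

theorem h6_4_11 (E : Env κ ι) : inn E 1 3 c6_4 c6_11 = dotS (ek E keys) r6_4_11 :=
  innS_eqZ E _ _ _ _ _ _ _ (chkF_sound E keys 1 3 _ _ _ _ t6_4_11_0) (by decide +kernel)

def r6_4_12 : List (ℕ × ℤ) := [(17, -8), (186, 8)]

theorem h6_4_12 (E : Env κ ι) : inn E 1 3 c6_4 c6_12 = dotS (ek E keys) r6_4_12 :=
  innS_eqZ E _ _ _ _ _ _ _ (chkF_sound E keys 1 3 _ _ _ _ t6_4_12_0) (by decide +kernel)

def r6_4_13 : List (ℕ × ℤ) := [(99, -8), (106, 8)]

theorem h6_4_13 (E : Env κ ι) : inn E 1 3 c6_4 c6_13 = dotS (ek E keys) r6_4_13 :=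
  innS_eqZ E _ _ _ _ _ _ _ (chkF_sound E keys 1 3 _ _ _ _ t6_4_13_0) (by decide +kernel)

def r6_4_14 : List (ℕ × ℤ) := [(86, -8), (108, 8)]

theorem h6_4_14 (E : Env κ ι) : inn E 1 3 c6_4 c6_14 = dotS (ek E keys) r6_4_14 :=
  innS_eqZ E _ _ _ _ _ _ _ (chkF_sound E keys 1 3 _ _ _ _ t6_4_14_0) (by decide +kernel)

def r6_4_15 : List (ℕ × ℤ) := [(34, -8), (133, 8)]

theorem h6_4_15 (E : Env κ ι) : inn E 1 3 c6_4 c6_15 = dotS (ek E keys) r6_4_15 :=
  innS_eqZ E _ _ _ _ _ _ _ (chkF_sound E keys 1 3 _ _ _ _ t6_4_15_0) (by decide +kernel)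

def r6_4_16 : List (ℕ × ℤ) := [(160, 8), (302, -8)]

theorem h6_4_16 (E : Env κ ι) : inn E 1 3 c6_4 c6_16 = dotS (ek E keys) r6_4_16 :=
  innS_eqZ E _ _ _ _ _ _ _ (chkF_sound E keys 1 3 _ _ _ _ t6_4_16_0) (by decide +kernel)

def r6_4_17 : List (ℕ × ℤ) := [(210, -4), (211, -4), (303, 8)]

theorem h6_4_17 (E : Env κ ι) : inn E 1 3 c6_4 c6_17 = dotS (ek E keys) r6_4_17 :=
  innS_eqZ E _ _ _ _ _ _ _ (chkF_sound E keys 1 3 _ _ _ _ t6_4_17_0) (by decide +kernel)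

def r6_4_18 : List (ℕ × ℤ) := [(210, 8), (211, -4), (303, -4)]

theorem h6_4_18 (E : Env κ ι) : inn E 1 3 c6_4 c6_18 = dotS (ek E keys) r6_4_18 :=
  innS_eqZ E _ _ _ _ _ _ _ (chkF_sound E keys 1 3 _ _ _ _ t6_4_18_0) (by decide +kernel)

def r6_4_19 : List (ℕ × ℤ) := [(211, 8), (215, -4), (293, -4)]

theorem h6_4_19 (E : Env κ ι) : inn E 1 3 c6_4 c6_19 = dotS (ek E keys) r6_4_19 :=
  innS_eqZ E _ _ _ _ _ _ _ (chkF_sound E keys 1 3 _ _ _ _ t6_4_19_0) (by decide +kernel)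

def r6_4_20 : List (ℕ × ℤ) := [(211, -4), (215, -4), (293, 8)]

theorem h6_4_20 (E : Env κ ι) : inn E 1 3 c6_4 c6_20 = dotS (ek E keys) r6_4_20 :=
  innS_eqZ E _ _ _ _ _ _ _ (chkF_sound E keys 1 3 _ _ _ _ t6_4_20_0) (by decide +kernel)

def r6_4_21 : List (ℕ × ℤ) := [(80, -4), (96, -4), (147, 8)]

theorem h6_4_21 (E : Env κ ι) : inn E 1 3 c6_4 c6_21 = dotS (ek E keys) r6_4_21 :=
  innS_eqZ E _ _ _ _ _ _ _ (chkF_sound E keys 1 3 _ _ _ _ t6_4_21_0) (by decide +kernel)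

def r6_4_22 : List (ℕ × ℤ) := [(80, -4), (96, 8), (147, -4)]

theorem h6_4_22 (E : Env κ ι) : inn E 1 3 c6_4 c6_22 = dotS (ek E keys) r6_4_22 :=
  innS_eqZ E _ _ _ _ _ _ _ (chkF_sound E keys 1 3 _ _ _ _ t6_4_22_0) (by decide +kernel)

def r6_4_23 : List (ℕ × ℤ) := [(81, -4), (85, -4), (112, 8)]

theorem h6_4_23 (E : Env κ ι) : inn E 1 3 c6_4 c6_23 = dotS (ek E keys) r6_4_23 :=
  innS_eqZ E _ _ _ _ _ _ _ (chkF_sound E keys 1 3 _ _ _ _ t6_4_23_0) (by decide +kernel)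

def r6_4_24 : List (ℕ × ℤ) := [(81, -4), (85, 8), (112, -4)]

theorem h6_4_24 (E : Env κ ι) : inn E 1 3 c6_4 c6_24 = dotS (ek E keys) r6_4_24 :=
  innS_eqZ E _ _ _ _ _ _ _ (chkF_sound E keys 1 3 _ _ _ _ t6_4_24_0) (by decide +kernel)

def r6_4_25 : List (ℕ × ℤ) := [(47, -4), (48, -4), (135, 8)]

theorem h6_4_25 (E : Env κ ι) : inn E 1 3 c6_4 c6_25 = dotS (ek E keys) r6_4_25 :=
  innS_eqZ E _ _ _ _ _ _ _ (chkF_sound E keys 1 3 _ _ _ _ t6_4_25_0) (by decide +kernel)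

def r6_4_26 : List (ℕ × ℤ) := [(47, -4), (48, 8), (135, -4)]

theorem h6_4_26 (E : Env κ ι) : inn E 1 3 c6_4 c6_26 = dotS (ek E keys) r6_4_26 :=
  innS_eqZ E _ _ _ _ _ _ _ (chkF_sound E keys 1 3 _ _ _ _ t6_4_26_0) (by decide +kernel)

def r6_5_5 : List (ℕ × ℤ) := [(289, -2), (304, 2)]

theorem h6_5_5 (E : Env κ ι) : inn E 1 3 c6_5 c6_5 = dotS (ek E keys) r6_5_5 :=
  innS_eqZ E _ _ _ _ _ _ _ (chkF_sound E keys 1 3 _ _ _ _ t6_5_5_0) (by decide +kernel)

def r6_5_6 : List (ℕ × ℤ) := [(27, 4), (88, -4)]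

theorem h6_5_6 (E : Env κ ι) : inn E 1 3 c6_5 c6_6 = dotS (ek E keys) r6_5_6 :=
  innS_eqZ E _ _ _ _ _ _ _ (chkF_sound E keys 1 3 _ _ _ _ t6_5_6_0) (by decide +kernel)

def r6_5_7 : List (ℕ × ℤ) := [(117, 4), (150, -4)]

theorem h6_5_7 (E : Env κ ι) : inn E 1 3 c6_5 c6_7 = dotS (ek E keys) r6_5_7 :=
  innS_eqZ E _ _ _ _ _ _ _ (chkF_sound E keys 1 3 _ _ _ _ t6_5_7_0) (by decide +kernel)

def r6_5_8 : List (ℕ × ℤ) := [(105, -2), (192, 2)]

theorem h6_5_8 (E : Env κ ι) : inn E 1 3 c6_5 c6_8 = dotS (ek E keys) r6_5_8 :=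
  innS_eqZ E _ _ _ _ _ _ _ (chkF_sound E keys 1 3 _ _ _ _ t6_5_8_0) (by decide +kernel)

def r6_5_9 : List (ℕ × ℤ) := [(23, 2), (121, -2)]

theorem h6_5_9 (E : Env κ ι) : inn E 1 3 c6_5 c6_9 = dotS (ek E keys) r6_5_9 :=
  innS_eqZ E _ _ _ _ _ _ _ (chkF_sound E keys 1 3 _ _ _ _ t6_5_9_0) (by decide +kernel)

def r6_5_10 : List (ℕ × ℤ) := [(191, -2), (193, 2)]

theorem h6_5_10 (E : Env κ ι) : inn E 1 3 c6_5 c6_10 = dotS (ek E keys) r6_5_10 :=
  innS_eqZ E _ _ _ _ _ _ _ (chkF_sound E keys 1 3 _ _ _ _ t6_5_10_0) (by decide +kernel)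

def r6_5_11 : List (ℕ × ℤ) := [(51, 2), (55, -2)]

theorem h6_5_11 (E : Env κ ι) : inn E 1 3 c6_5 c6_11 = dotS (ek E keys) r6_5_11 :=
  innS_eqZ E _ _ _ _ _ _ _ (chkF_sound E keys 1 3 _ _ _ _ t6_5_11_0) (by decide +kernel)

def r6_5_12 : List (ℕ × ℤ) := [(22, 4), (190, -4)]

theorem h6_5_12 (E : Env κ ι) : inn E 1 3 c6_5 c6_12 = dotS (ek E keys) r6_5_12 :=
  innS_eqZ E _ _ _ _ _ _ _ (chkF_sound E keys 1 3 _ _ _ _ t6_5_12_0) (by decide +kernel)

def r6_5_13 : List (ℕ × ℤ) := [(173, 4), (174, -4)]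

theorem h6_5_13 (E : Env κ ι) : inn E 1 3 c6_5 c6_13 = dotS (ek E keys) r6_5_13 :=
  innS_eqZ E _ _ _ _ _ _ _ (chkF_sound E keys 1 3 _ _ _ _ t6_5_13_0) (by decide +kernel)

def r6_5_14 : List (ℕ × ℤ) := [(57, 4), (138, -4)]

theorem h6_5_14 (E : Env κ ι) : inn E 1 3 c6_5 c6_14 = dotS (ek E keys) r6_5_14 :=
  innS_eqZ E _ _ _ _ _ _ _ (chkF_sound E keys 1 3 _ _ _ _ t6_5_14_0) (by decide +kernel)

def r6_5_15 : List (ℕ × ℤ) := [(35, 4), (142, -4)]

theorem h6_5_15 (E : Env κ ι) : inn E 1 3 c6_5 c6_15 = dotS (ek E keys) r6_5_15 :=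
  innS_eqZ E _ _ _ _ _ _ _ (chkF_sound E keys 1 3 _ _ _ _ t6_5_15_0) (by decide +kernel)

def r6_5_16 : List (ℕ × ℤ) := [(33, -4), (167, 4)]

theorem h6_5_16 (E : Env κ ι) : inn E 1 3 c6_5 c6_16 = dotS (ek E keys) r6_5_16 :=
  innS_eqZ E _ _ _ _ _ _ _ (chkF_sound E keys 1 3 _ _ _ _ t6_5_16_0) (by decide +kernel)

def r6_5_17 : List (ℕ × ℤ) := [(215, 2), (290, 2), (293, -4)]

theorem h6_5_17 (E : Env κ ι) : inn E 1 3 c6_5 c6_17 = dotS (ek E keys) r6_5_17 :=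
  innS_eqZ E _ _ _ _ _ _ _ (chkF_sound E keys 1 3 _ _ _ _ t6_5_17_0) (by decide +kernel)

def r6_5_18 : List (ℕ × ℤ) := [(215, -4), (290, 2), (293, 2)]

theorem h6_5_18 (E : Env κ ι) : inn E 1 3 c6_5 c6_18 = dotS (ek E keys) r6_5_18 :=
  innS_eqZ E _ _ _ _ _ _ _ (chkF_sound E keys 1 3 _ _ _ _ t6_5_18_0) (by decide +kernel)

def r6_5_19 : List (ℕ × ℤ) := [(217, -4), (287, 2), (295, 2)]

theorem h6_5_19 (E : Env κ ι) : inn E 1 3 c6_5 c6_19 = dotS (ek E keys) r6_5_19 :=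
  innS_eqZ E _ _ _ _ _ _ _ (chkF_sound E keys 1 3 _ _ _ _ t6_5_19_0) (by decide +kernel)

def r6_5_20 : List (ℕ × ℤ) := [(217, 2), (287, 2), (295, -4)]

theorem h6_5_20 (E : Env κ ι) : inn E 1 3 c6_5 c6_20 = dotS (ek E keys) r6_5_20 :=
  innS_eqZ E _ _ _ _ _ _ _ (chkF_sound E keys 1 3 _ _ _ _ t6_5_20_0) (by decide +kernel)

def r6_5_21 : List (ℕ × ℤ) := [(115, 2), (148, -4), (149, 2)]

theorem h6_5_21 (E : Env κ ι) : inn E 1 3 c6_5 c6_21 = dotS (ek E keys) r6_5_21 :=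
  innS_eqZ E _ _ _ _ _ _ _ (chkF_sound E keys 1 3 _ _ _ _ t6_5_21_0) (by decide +kernel)

def r6_5_22 : List (ℕ × ℤ) := [(115, 2), (148, 2), (149, -4)]

theorem h6_5_22 (E : Env κ ι) : inn E 1 3 c6_5 c6_22 = dotS (ek E keys) r6_5_22 :=
  innS_eqZ E _ _ _ _ _ _ _ (chkF_sound E keys 1 3 _ _ _ _ t6_5_22_0) (by decide +kernel)

def r6_5_23 : List (ℕ × ℤ) := [(139, 2), (140, -4), (141, 2)]

theorem h6_5_23 (E : Env κ ι) : inn E 1 3 c6_5 c6_23 = dotS (ek E keys) r6_5_23 :=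
  innS_eqZ E _ _ _ _ _ _ _ (chkF_sound E keys 1 3 _ _ _ _ t6_5_23_0) (by decide +kernel)

def r6_5_24 : List (ℕ × ℤ) := [(139, -4), (140, 2), (141, 2)]

theorem h6_5_24 (E : Env κ ι) : inn E 1 3 c6_5 c6_24 = dotS (ek E keys) r6_5_24 :=
  innS_eqZ E _ _ _ _ _ _ _ (chkF_sound E keys 1 3 _ _ _ _ t6_5_24_0) (by decide +kernel)

def r6_5_25 : List (ℕ × ℤ) := [(52, 2), (54, 2), (143, -4)]

theorem h6_5_25 (E : Env κ ι) : inn E 1 3 c6_5 c6_25 = dotS (ek E keys) r6_5_25 :=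
  innS_eqZ E _ _ _ _ _ _ _ (chkF_sound E keys 1 3 _ _ _ _ t6_5_25_0) (by decide +kernel)

def r6_5_26 : List (ℕ × ℤ) := [(52, 2), (54, -4), (143, 2)]

theorem h6_5_26 (E : Env κ ι) : inn E 1 3 c6_5 c6_26 = dotS (ek E keys) r6_5_26 :=
  innS_eqZ E _ _ _ _ _ _ _ (chkF_sound E keys 1 3 _ _ _ _ t6_5_26_0) (by decide +kernel)

def r6_6_6 : List (ℕ × ℤ) := [(227, -8), (305, 8)]

theorem h6_6_6 (E : Env κ ι) : inn E 1 3 c6_6 c6_6 = dotS (ek E keys) r6_6_6 :=
  innS_eqZ E _ _ _ _ _ _ _ (chkF_sound E keys 1 3 _ _ _ _ t6_6_6_0) (by decide +kernel)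

def r6_6_7 : List (ℕ × ℤ) := [(228, -8), (306, 8)]

theorem h6_6_7 (E : Env κ ι) : inn E 1 3 c6_6 c6_7 = dotS (ek E keys) r6_6_7 :=
  innS_eqZ E _ _ _ _ _ _ _ (chkF_sound E keys 1 3 _ _ _ _ t6_6_7_0) (by decide +kernel)

def r6_6_8 : List (ℕ × ℤ) := [(229, 4), (232, -4)]

theorem h6_6_8 (E : Env κ ι) : inn E 1 3 c6_6 c6_8 = dotS (ek E keys) r6_6_8 :=
  innS_eqZ E _ _ _ _ _ _ _ (chkF_sound E keys 1 3 _ _ _ _ t6_6_8_0) (by decide +kernel)

def r6_6_9 : List (ℕ × ℤ) := [(228, 4), (232, -4)]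

theorem h6_6_9 (E : Env κ ι) : inn E 1 3 c6_6 c6_9 = dotS (ek E keys) r6_6_9 :=
  innS_eqZ E _ _ _ _ _ _ _ (chkF_sound E keys 1 3 _ _ _ _ t6_6_9_0) (by decide +kernel)

def r6_6_10 : List (ℕ × ℤ) := [(229, 4), (307, -4)]

theorem h6_6_10 (E : Env κ ι) : inn E 1 3 c6_6 c6_10 = dotS (ek E keys) r6_6_10 :=
  innS_eqZ E _ _ _ _ _ _ _ (chkF_sound E keys 1 3 _ _ _ _ t6_6_10_0) (by decide +kernel)

def r6_6_11 : List (ℕ × ℤ) := [(231, 4), (250, -4)]

theorem h6_6_11 (E : Env κ ι) : inn E 1 3 c6_6 c6_11 = dotS (ek E keys) r6_6_11 :=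
  innS_eqZ E _ _ _ _ _ _ _ (chkF_sound E keys 1 3 _ _ _ _ t6_6_11_0) (by decide +kernel)

def r6_6_12 : List (ℕ × ℤ) := [(232, -8), (305, 8)]

theorem h6_6_12 (E : Env κ ι) : inn E 1 3 c6_6 c6_12 = dotS (ek E keys) r6_6_12 :=
  innS_eqZ E _ _ _ _ _ _ _ (chkF_sound E keys 1 3 _ _ _ _ t6_6_12_0) (by decide +kernel)

def r6_6_13 : List (ℕ × ℤ) := [(227, 8), (229, -8)]

theorem h6_6_13 (E : Env κ ι) : inn E 1 3 c6_6 c6_13 = dotS (ek E keys) r6_6_13 :=
  innS_eqZ E _ _ _ _ _ _ _ (chkF_sound E keys 1 3 _ _ _ _ t6_6_13_0) (by decide +kernel)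

def r6_6_14 : List (ℕ × ℤ) := [(230, 8), (231, -8)]

theorem h6_6_14 (E : Env κ ι) : inn E 1 3 c6_6 c6_14 = dotS (ek E keys) r6_6_14 :=
  innS_eqZ E _ _ _ _ _ _ _ (chkF_sound E keys 1 3 _ _ _ _ t6_6_14_0) (by decide +kernel)

def r6_6_15 : List (ℕ × ℤ) := [(3, -8), (249, 8)]

theorem h6_6_15 (E : Env κ ι) : inn E 1 3 c6_6 c6_15 = dotS (ek E keys) r6_6_15 :=
  innS_eqZ E _ _ _ _ _ _ _ (chkF_sound E keys 1 3 _ _ _ _ t6_6_15_0) (by decide +kernel)

def r6_6_16 : List (ℕ × ℤ) := [(234, 8), (308, -8)]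

theorem h6_6_16 (E : Env κ ι) : inn E 1 3 c6_6 c6_16 = dotS (ek E keys) r6_6_16 :=
  innS_eqZ E _ _ _ _ _ _ _ (chkF_sound E keys 1 3 _ _ _ _ t6_6_16_0) (by decide +kernel)

def r6_6_17 : List (ℕ × ℤ) := [(18, -4), (84, -4), (188, 8)]

theorem h6_6_17 (E : Env κ ι) : inn E 1 3 c6_6 c6_17 = dotS (ek E keys) r6_6_17 :=
  innS_eqZ E _ _ _ _ _ _ _ (chkF_sound E keys 1 3 _ _ _ _ t6_6_17_0) (by decide +kernel)

def r6_6_18 : List (ℕ × ℤ) := [(18, -4), (84, 8), (188, -4)]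

theorem h6_6_18 (E : Env κ ι) : inn E 1 3 c6_6 c6_18 = dotS (ek E keys) r6_6_18 :=
  innS_eqZ E _ _ _ _ _ _ _ (chkF_sound E keys 1 3 _ _ _ _ t6_6_18_0) (by decide +kernel)

def r6_6_19 : List (ℕ × ℤ) := [(27, 8), (192, -4), (195, -4)]

theorem h6_6_19 (E : Env κ ι) : inn E 1 3 c6_6 c6_19 = dotS (ek E keys) r6_6_19 :=
  innS_eqZ E _ _ _ _ _ _ _ (chkF_sound E keys 1 3 _ _ _ _ t6_6_19_0) (by decide +kernel)

def r6_6_20 : List (ℕ × ℤ) := [(27, -4), (192, -4), (195, 8)]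

theorem h6_6_20 (E : Env κ ι) : inn E 1 3 c6_6 c6_20 = dotS (ek E keys) r6_6_20 :=
  innS_eqZ E _ _ _ _ _ _ _ (chkF_sound E keys 1 3 _ _ _ _ t6_6_20_0) (by decide +kernel)

def r6_6_21 : List (ℕ × ℤ) := [(228, -4), (229, -4), (306, 8)]

theorem h6_6_21 (E : Env κ ι) : inn E 1 3 c6_6 c6_21 = dotS (ek E keys) r6_6_21 :=
  innS_eqZ E _ _ _ _ _ _ _ (chkF_sound E keys 1 3 _ _ _ _ t6_6_21_0) (by decide +kernel)

def r6_6_22 : List (ℕ × ℤ) := [(228, 8), (229, -4), (306, -4)]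

theorem h6_6_22 (E : Env κ ι) : inn E 1 3 c6_6 c6_22 = dotS (ek E keys) r6_6_22 :=
  innS_eqZ E _ _ _ _ _ _ _ (chkF_sound E keys 1 3 _ _ _ _ t6_6_22_0) (by decide +kernel)

def r6_6_23 : List (ℕ × ℤ) := [(219, 8), (228, -4), (229, -4)]

theorem h6_6_23 (E : Env κ ι) : inn E 1 3 c6_6 c6_23 = dotS (ek E keys) r6_6_23 :=
  innS_eqZ E _ _ _ _ _ _ _ (chkF_sound E keys 1 3 _ _ _ _ t6_6_23_0) (by decide +kernel)

def r6_6_24 : List (ℕ × ℤ) := [(219, -4), (228, 8), (229, -4)]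

theorem h6_6_24 (E : Env κ ι) : inn E 1 3 c6_6 c6_24 = dotS (ek E keys) r6_6_24 :=
  innS_eqZ E _ _ _ _ _ _ _ (chkF_sound E keys 1 3 _ _ _ _ t6_6_24_0) (by decide +kernel)

def r6_6_25 : List (ℕ × ℤ) := [(222, 8), (231, -4), (233, -4)]

theorem h6_6_25 (E : Env κ ι) : inn E 1 3 c6_6 c6_25 = dotS (ek E keys) r6_6_25 :=
  innS_eqZ E _ _ _ _ _ _ _ (chkF_sound E keys 1 3 _ _ _ _ t6_6_25_0) (by decide +kernel)

def r6_6_26 : List (ℕ × ℤ) := [(222, -4), (231, -4), (233, 8)]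

theorem h6_6_26 (E : Env κ ι) : inn E 1 3 c6_6 c6_26 = dotS (ek E keys) r6_6_26 :=
  innS_eqZ E _ _ _ _ _ _ _ (chkF_sound E keys 1 3 _ _ _ _ t6_6_26_0) (by decide +kernel)

def r6_7_7 : List (ℕ × ℤ) := [(235, -8), (309, 8)]

theorem h6_7_7 (E : Env κ ι) : inn E 1 3 c6_7 c6_7 = dotS (ek E keys) r6_7_7 :=
  innS_eqZ E _ _ _ _ _ _ _ (chkF_sound E keys 1 3 _ _ _ _ t6_7_7_0) (by decide +kernel)

def r6_7_8 : List (ℕ × ℤ) := [(245, 4), (310, -4)]

theorem h6_7_8 (E : Env κ ι) : inn E 1 3 c6_7 c6_8 = dotS (ek E keys) r6_7_8 :=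
  innS_eqZ E _ _ _ _ _ _ _ (chkF_sound E keys 1 3 _ _ _ _ t6_7_8_0) (by decide +kernel)

def r6_7_9 : List (ℕ × ℤ) := [(238, 4), (310, -4)]

theorem h6_7_9 (E : Env κ ι) : inn E 1 3 c6_7 c6_9 = dotS (ek E keys) r6_7_9 :=
  innS_eqZ E _ _ _ _ _ _ _ (chkF_sound E keys 1 3 _ _ _ _ t6_7_9_0) (by decide +kernel)

def r6_7_10 : List (ℕ × ℤ) := [(311, 4), (312, -4)]

theorem h6_7_10 (E : Env κ ι) : inn E 1 3 c6_7 c6_10 = dotS (ek E keys) r6_7_10 :=
  innS_eqZ E _ _ _ _ _ _ _ (chkF_sound E keys 1 3 _ _ _ _ t6_7_10_0) (by decide +kernel)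

def r6_7_11 : List (ℕ × ℤ) := [(252, 4), (313, -4)]

theorem h6_7_11 (E : Env κ ι) : inn E 1 3 c6_7 c6_11 = dotS (ek E keys) r6_7_11 :=
  innS_eqZ E _ _ _ _ _ _ _ (chkF_sound E keys 1 3 _ _ _ _ t6_7_11_0) (by decide +kernel)

def r6_7_12 : List (ℕ × ℤ) := [(239, -8), (314, 8)]

theorem h6_7_12 (E : Env κ ι) : inn E 1 3 c6_7 c6_12 = dotS (ek E keys) r6_7_12 :=
  innS_eqZ E _ _ _ _ _ _ _ (chkF_sound E keys 1 3 _ _ _ _ t6_7_12_0) (by decide +kernel)

def r6_7_13 : List (ℕ × ℤ) := [(311, -8), (315, 8)]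

theorem h6_7_13 (E : Env κ ι) : inn E 1 3 c6_7 c6_13 = dotS (ek E keys) r6_7_13 :=
  innS_eqZ E _ _ _ _ _ _ _ (chkF_sound E keys 1 3 _ _ _ _ t6_7_13_0) (by decide +kernel)

def r6_7_14 : List (ℕ × ℤ) := [(252, -8), (316, 8)]

theorem h6_7_14 (E : Env κ ι) : inn E 1 3 c6_7 c6_14 = dotS (ek E keys) r6_7_14 :=
  innS_eqZ E _ _ _ _ _ _ _ (chkF_sound E keys 1 3 _ _ _ _ t6_7_14_0) (by decide +kernel)

def r6_7_15 : List (ℕ × ℤ) := [(241, -8), (317, 8)]

theorem h6_7_15 (E : Env κ ι) : inn E 1 3 c6_7 c6_15 = dotS (ek E keys) r6_7_15 :=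
  innS_eqZ E _ _ _ _ _ _ _ (chkF_sound E keys 1 3 _ _ _ _ t6_7_15_0) (by decide +kernel)

def r6_7_16 : List (ℕ × ℤ) := [(318, 8), (319, -8)]

theorem h6_7_16 (E : Env κ ι) : inn E 1 3 c6_7 c6_16 = dotS (ek E keys) r6_7_16 :=
  innS_eqZ E _ _ _ _ _ _ _ (chkF_sound E keys 1 3 _ _ _ _ t6_7_16_0) (by decide +kernel)

def r6_7_17 : List (ℕ × ℤ) := [(97, -4), (123, 8), (131, -4)]

theorem h6_7_17 (E : Env κ ι) : inn E 1 3 c6_7 c6_17 = dotS (ek E keys) r6_7_17 :=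
  innS_eqZ E _ _ _ _ _ _ _ (chkF_sound E keys 1 3 _ _ _ _ t6_7_17_0) (by decide +kernel)

def r6_7_18 : List (ℕ × ℤ) := [(97, -4), (123, -4), (131, 8)]

theorem h6_7_18 (E : Env κ ι) : inn E 1 3 c6_7 c6_18 = dotS (ek E keys) r6_7_18 :=
  innS_eqZ E _ _ _ _ _ _ _ (chkF_sound E keys 1 3 _ _ _ _ t6_7_18_0) (by decide +kernel)

def r6_7_19 : List (ℕ × ℤ) := [(105, -4), (117, 8), (124, -4)]

theorem h6_7_19 (E : Env κ ι) : inn E 1 3 c6_7 c6_19 = dotS (ek E keys) r6_7_19 :=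
  innS_eqZ E _ _ _ _ _ _ _ (chkF_sound E keys 1 3 _ _ _ _ t6_7_19_0) (by decide +kernel)

def r6_7_20 : List (ℕ × ℤ) := [(105, -4), (117, -4), (124, 8)]

theorem h6_7_20 (E : Env κ ι) : inn E 1 3 c6_7 c6_20 = dotS (ek E keys) r6_7_20 :=
  innS_eqZ E _ _ _ _ _ _ _ (chkF_sound E keys 1 3 _ _ _ _ t6_7_20_0) (by decide +kernel)

def r6_7_21 : List (ℕ × ℤ) := [(236, -4), (238, -4), (320, 8)]

theorem h6_7_21 (E : Env κ ι) : inn E 1 3 c6_7 c6_21 = dotS (ek E keys) r6_7_21 :=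
  innS_eqZ E _ _ _ _ _ _ _ (chkF_sound E keys 1 3 _ _ _ _ t6_7_21_0) (by decide +kernel)

def r6_7_22 : List (ℕ × ℤ) := [(236, -4), (238, 8), (320, -4)]

theorem h6_7_22 (E : Env κ ι) : inn E 1 3 c6_7 c6_22 = dotS (ek E keys) r6_7_22 :=
  innS_eqZ E _ _ _ _ _ _ _ (chkF_sound E keys 1 3 _ _ _ _ t6_7_22_0) (by decide +kernel)

def r6_7_23 : List (ℕ × ℤ) := [(238, -4), (245, -4), (321, 8)]

theorem h6_7_23 (E : Env κ ι) : inn E 1 3 c6_7 c6_23 = dotS (ek E keys) r6_7_23 :=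
  innS_eqZ E _ _ _ _ _ _ _ (chkF_sound E keys 1 3 _ _ _ _ t6_7_23_0) (by decide +kernel)

def r6_7_24 : List (ℕ × ℤ) := [(238, 8), (245, -4), (321, -4)]

theorem h6_7_24 (E : Env κ ι) : inn E 1 3 c6_7 c6_24 = dotS (ek E keys) r6_7_24 :=
  innS_eqZ E _ _ _ _ _ _ _ (chkF_sound E keys 1 3 _ _ _ _ t6_7_24_0) (by decide +kernel)

def r6_7_25 : List (ℕ × ℤ) := [(237, -4), (240, -4), (322, 8)]

theorem h6_7_25 (E : Env κ ι) : inn E 1 3 c6_7 c6_25 = dotS (ek E keys) r6_7_25 :=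
  innS_eqZ E _ _ _ _ _ _ _ (chkF_sound E keys 1 3 _ _ _ _ t6_7_25_0) (by decide +kernel)

def r6_7_26 : List (ℕ × ℤ) := [(237, -4), (240, 8), (322, -4)]

theorem h6_7_26 (E : Env κ ι) : inn E 1 3 c6_7 c6_26 = dotS (ek E keys) r6_7_26 :=
  innS_eqZ E _ _ _ _ _ _ _ (chkF_sound E keys 1 3 _ _ _ _ t6_7_26_0) (by decide +kernel)

def r6_8_8 : List (ℕ × ℤ) := [(243, -2), (246, 2)]

theorem h6_8_8 (E : Env κ ι) : inn E 1 3 c6_8 c6_8 = dotS (ek E keys) r6_8_8 :=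
  innS_eqZ E _ _ _ _ _ _ _ (chkF_sound E keys 1 3 _ _ _ _ t6_8_8_0) (by decide +kernel)

def r6_8_9 : List (ℕ × ℤ) := [(236, -2), (239, 2)]

theorem h6_8_9 (E : Env κ ι) : inn E 1 3 c6_8 c6_9 = dotS (ek E keys) r6_8_9 :=
  innS_eqZ E _ _ _ _ _ _ _ (chkF_sound E keys 1 3 _ _ _ _ t6_8_9_0) (by decide +kernel)

def r6_8_10 : List (ℕ × ℤ) := [(243, -2), (323, 2)]

theorem h6_8_10 (E : Env κ ι) : inn E 1 3 c6_8 c6_10 = dotS (ek E keys) r6_8_10 :=
  innS_eqZ E _ _ _ _ _ _ _ (chkF_sound E keys 1 3 _ _ _ _ t6_8_10_0) (by decide +kernel)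

def r6_8_11 : List (ℕ × ℤ) := [(244, -2), (253, 2)]

theorem h6_8_11 (E : Env κ ι) : inn E 1 3 c6_8 c6_11 = dotS (ek E keys) r6_8_11 :=
  innS_eqZ E _ _ _ _ _ _ _ (chkF_sound E keys 1 3 _ _ _ _ t6_8_11_0) (by decide +kernel)

def r6_8_12 : List (ℕ × ℤ) := [(232, -4), (239, 4)]

theorem h6_8_12 (E : Env κ ι) : inn E 1 3 c6_8 c6_12 = dotS (ek E keys) r6_8_12 :=
  innS_eqZ E _ _ _ _ _ _ _ (chkF_sound E keys 1 3 _ _ _ _ t6_8_12_0) (by decide +kernel)

def r6_8_13 : List (ℕ × ℤ) := [(229, -4), (311, 4)]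

theorem h6_8_13 (E : Env κ ι) : inn E 1 3 c6_8 c6_13 = dotS (ek E keys) r6_8_13 :=
  innS_eqZ E _ _ _ _ _ _ _ (chkF_sound E keys 1 3 _ _ _ _ t6_8_13_0) (by decide +kernel)

def r6_8_14 : List (ℕ × ℤ) := [(231, -4), (252, 4)]

theorem h6_8_14 (E : Env κ ι) : inn E 1 3 c6_8 c6_14 = dotS (ek E keys) r6_8_14 :=
  innS_eqZ E _ _ _ _ _ _ _ (chkF_sound E keys 1 3 _ _ _ _ t6_8_14_0) (by decide +kernel)

def r6_8_15 : List (ℕ × ℤ) := [(3, -4), (241, 4)]

theorem h6_8_15 (E : Env κ ι) : inn E 1 3 c6_8 c6_15 = dotS (ek E keys) r6_8_15 :=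
  innS_eqZ E _ _ _ _ _ _ _ (chkF_sound E keys 1 3 _ _ _ _ t6_8_15_0) (by decide +kernel)

def r6_8_16 : List (ℕ × ℤ) := [(248, -4), (324, 4)]

theorem h6_8_16 (E : Env κ ι) : inn E 1 3 c6_8 c6_16 = dotS (ek E keys) r6_8_16 :=
  innS_eqZ E _ _ _ _ _ _ _ (chkF_sound E keys 1 3 _ _ _ _ t6_8_16_0) (by decide +kernel)

def r6_8_17 : List (ℕ × ℤ) := [(85, 2), (107, 2), (112, -4)]

theorem h6_8_17 (E : Env κ ι) : inn E 1 3 c6_8 c6_17 = dotS (ek E keys) r6_8_17 :=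
  innS_eqZ E _ _ _ _ _ _ _ (chkF_sound E keys 1 3 _ _ _ _ t6_8_17_0) (by decide +kernel)

def r6_8_18 : List (ℕ × ℤ) := [(85, -4), (107, 2), (112, 2)]

theorem h6_8_18 (E : Env κ ι) : inn E 1 3 c6_8 c6_18 = dotS (ek E keys) r6_8_18 :=
  innS_eqZ E _ _ _ _ _ _ _ (chkF_sound E keys 1 3 _ _ _ _ t6_8_18_0) (by decide +kernel)

def r6_8_19 : List (ℕ × ℤ) := [(89, -4), (103, 2), (116, 2)]

theorem h6_8_19 (E : Env κ ι) : inn E 1 3 c6_8 c6_19 = dotS (ek E keys) r6_8_19 :=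
  innS_eqZ E _ _ _ _ _ _ _ (chkF_sound E keys 1 3 _ _ _ _ t6_8_19_0) (by decide +kernel)

def r6_8_20 : List (ℕ × ℤ) := [(89, 2), (103, 2), (116, -4)]

theorem h6_8_20 (E : Env κ ι) : inn E 1 3 c6_8 c6_20 = dotS (ek E keys) r6_8_20 :=
  innS_eqZ E _ _ _ _ _ _ _ (chkF_sound E keys 1 3 _ _ _ _ t6_8_20_0) (by decide +kernel)

def r6_8_21 : List (ℕ × ℤ) := [(236, 2), (310, -4), (311, 2)]

theorem h6_8_21 (E : Env κ ι) : inn E 1 3 c6_8 c6_21 = dotS (ek E keys) r6_8_21 :=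
  innS_eqZ E _ _ _ _ _ _ _ (chkF_sound E keys 1 3 _ _ _ _ t6_8_21_0) (by decide +kernel)

def r6_8_22 : List (ℕ × ℤ) := [(236, -4), (310, 2), (311, 2)]

theorem h6_8_22 (E : Env κ ι) : inn E 1 3 c6_8 c6_22 = dotS (ek E keys) r6_8_22 :=
  innS_eqZ E _ _ _ _ _ _ _ (chkF_sound E keys 1 3 _ _ _ _ t6_8_22_0) (by decide +kernel)

def r6_8_23 : List (ℕ × ℤ) := [(221, -4), (245, 2), (311, 2)]

theorem h6_8_23 (E : Env κ ι) : inn E 1 3 c6_8 c6_23 = dotS (ek E keys) r6_8_23 :=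
  innS_eqZ E _ _ _ _ _ _ _ (chkF_sound E keys 1 3 _ _ _ _ t6_8_23_0) (by decide +kernel)

def r6_8_24 : List (ℕ × ℤ) := [(221, 2), (245, -4), (311, 2)]

theorem h6_8_24 (E : Env κ ι) : inn E 1 3 c6_8 c6_24 = dotS (ek E keys) r6_8_24 :=
  innS_eqZ E _ _ _ _ _ _ _ (chkF_sound E keys 1 3 _ _ _ _ t6_8_24_0) (by decide +kernel)

def r6_8_25 : List (ℕ × ℤ) := [(223, -4), (237, 2), (252, 2)]

theorem h6_8_25 (E : Env κ ι) : inn E 1 3 c6_8 c6_25 = dotS (ek E keys) r6_8_25 :=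
  innS_eqZ E _ _ _ _ _ _ _ (chkF_sound E keys 1 3 _ _ _ _ t6_8_25_0) (by decide +kernel)

def r6_8_26 : List (ℕ × ℤ) := [(223, 2), (237, -4), (252, 2)]

theorem h6_8_26 (E : Env κ ι) : inn E 1 3 c6_8 c6_26 = dotS (ek E keys) r6_8_26 :=
  innS_eqZ E _ _ _ _ _ _ _ (chkF_sound E keys 1 3 _ _ _ _ t6_8_26_0) (by decide +kernel)

def r6_9_9 : List (ℕ × ℤ) := [(235, -2), (325, 2)]

theorem h6_9_9 (E : Env κ ι) : inn E 1 3 c6_9 c6_9 = dotS (ek E keys) r6_9_9 :=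
  innS_eqZ E _ _ _ _ _ _ _ (chkF_sound E keys 1 3 _ _ _ _ t6_9_9_0) (by decide +kernel)

def r6_9_10 : List (ℕ × ℤ) := [(236, -2), (326, 2)]

theorem h6_9_10 (E : Env κ ι) : inn E 1 3 c6_9 c6_10 = dotS (ek E keys) r6_9_10 :=
  innS_eqZ E _ _ _ _ _ _ _ (chkF_sound E keys 1 3 _ _ _ _ t6_9_10_0) (by decide +kernel)

def r6_9_11 : List (ℕ × ℤ) := [(237, -2), (261, 2)]

theorem h6_9_11 (E : Env κ ι) : inn E 1 3 c6_9 c6_11 = dotS (ek E keys) r6_9_11 :=
  innS_eqZ E _ _ _ _ _ _ _ (chkF_sound E keys 1 3 _ _ _ _ t6_9_11_0) (by decide +kernel)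

def r6_9_12 : List (ℕ × ℤ) := [(232, -4), (325, 4)]

theorem h6_9_12 (E : Env κ ι) : inn E 1 3 c6_9 c6_12 = dotS (ek E keys) r6_9_12 :=
  innS_eqZ E _ _ _ _ _ _ _ (chkF_sound E keys 1 3 _ _ _ _ t6_9_12_0) (by decide +kernel)

def r6_9_13 : List (ℕ × ℤ) := [(228, -4), (327, 4)]

theorem h6_9_13 (E : Env κ ι) : inn E 1 3 c6_9 c6_13 = dotS (ek E keys) r6_9_13 :=
  innS_eqZ E _ _ _ _ _ _ _ (chkF_sound E keys 1 3 _ _ _ _ t6_9_13_0) (by decide +kernel)

def r6_9_14 : List (ℕ × ℤ) := [(233, -4), (257, 4)]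

theorem h6_9_14 (E : Env κ ι) : inn E 1 3 c6_9 c6_14 = dotS (ek E keys) r6_9_14 :=
  innS_eqZ E _ _ _ _ _ _ _ (chkF_sound E keys 1 3 _ _ _ _ t6_9_14_0) (by decide +kernel)

def r6_9_15 : List (ℕ × ℤ) := [(3, -4), (264, 4)]

theorem h6_9_15 (E : Env κ ι) : inn E 1 3 c6_9 c6_15 = dotS (ek E keys) r6_9_15 :=
  innS_eqZ E _ _ _ _ _ _ _ (chkF_sound E keys 1 3 _ _ _ _ t6_9_15_0) (by decide +kernel)

def r6_9_16 : List (ℕ × ℤ) := [(242, -4), (328, 4)]

theorem h6_9_16 (E : Env κ ι) : inn E 1 3 c6_9 c6_16 = dotS (ek E keys) r6_9_16 :=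
  innS_eqZ E _ _ _ _ _ _ _ (chkF_sound E keys 1 3 _ _ _ _ t6_9_16_0) (by decide +kernel)

def r6_9_17 : List (ℕ × ℤ) := [(83, 2), (112, -4), (127, 2)]

theorem h6_9_17 (E : Env κ ι) : inn E 1 3 c6_9 c6_17 = dotS (ek E keys) r6_9_17 :=
  innS_eqZ E _ _ _ _ _ _ _ (chkF_sound E keys 1 3 _ _ _ _ t6_9_17_0) (by decide +kernel)

def r6_9_18 : List (ℕ × ℤ) := [(83, -4), (112, 2), (127, 2)]

theorem h6_9_18 (E : Env κ ι) : inn E 1 3 c6_9 c6_18 = dotS (ek E keys) r6_9_18 :=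
  innS_eqZ E _ _ _ _ _ _ _ (chkF_sound E keys 1 3 _ _ _ _ t6_9_18_0) (by decide +kernel)

def r6_9_19 : List (ℕ × ℤ) := [(85, -4), (109, 2), (140, 2)]

theorem h6_9_19 (E : Env κ ι) : inn E 1 3 c6_9 c6_19 = dotS (ek E keys) r6_9_19 :=
  innS_eqZ E _ _ _ _ _ _ _ (chkF_sound E keys 1 3 _ _ _ _ t6_9_19_0) (by decide +kernel)

def r6_9_20 : List (ℕ × ℤ) := [(85, 2), (109, 2), (140, -4)]

theorem h6_9_20 (E : Env κ ι) : inn E 1 3 c6_9 c6_20 = dotS (ek E keys) r6_9_20 :=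
  innS_eqZ E _ _ _ _ _ _ _ (chkF_sound E keys 1 3 _ _ _ _ t6_9_20_0) (by decide +kernel)

def r6_9_21 : List (ℕ × ℤ) := [(235, 2), (310, -4), (327, 2)]

theorem h6_9_21 (E : Env κ ι) : inn E 1 3 c6_9 c6_21 = dotS (ek E keys) r6_9_21 :=
  innS_eqZ E _ _ _ _ _ _ _ (chkF_sound E keys 1 3 _ _ _ _ t6_9_21_0) (by decide +kernel)

def r6_9_22 : List (ℕ × ℤ) := [(235, -4), (310, 2), (327, 2)]

theorem h6_9_22 (E : Env κ ι) : inn E 1 3 c6_9 c6_22 = dotS (ek E keys) r6_9_22 :=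
  innS_eqZ E _ _ _ _ _ _ _ (chkF_sound E keys 1 3 _ _ _ _ t6_9_22_0) (by decide +kernel)

def r6_9_23 : List (ℕ × ℤ) := [(220, -4), (238, 2), (327, 2)]

theorem h6_9_23 (E : Env κ ι) : inn E 1 3 c6_9 c6_23 = dotS (ek E keys) r6_9_23 :=
  innS_eqZ E _ _ _ _ _ _ _ (chkF_sound E keys 1 3 _ _ _ _ t6_9_23_0) (by decide +kernel)

def r6_9_24 : List (ℕ × ℤ) := [(220, 2), (238, -4), (327, 2)]

theorem h6_9_24 (E : Env κ ι) : inn E 1 3 c6_9 c6_24 = dotS (ek E keys) r6_9_24 :=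
  innS_eqZ E _ _ _ _ _ _ _ (chkF_sound E keys 1 3 _ _ _ _ t6_9_24_0) (by decide +kernel)

def r6_9_25 : List (ℕ × ℤ) := [(223, -4), (240, 2), (257, 2)]

theorem h6_9_25 (E : Env κ ι) : inn E 1 3 c6_9 c6_25 = dotS (ek E keys) r6_9_25 :=
  innS_eqZ E _ _ _ _ _ _ _ (chkF_sound E keys 1 3 _ _ _ _ t6_9_25_0) (by decide +kernel)

def r6_9_26 : List (ℕ × ℤ) := [(223, 2), (240, -4), (257, 2)]

theorem h6_9_26 (E : Env κ ι) : inn E 1 3 c6_9 c6_26 = dotS (ek E keys) r6_9_26 :=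
  innS_eqZ E _ _ _ _ _ _ _ (chkF_sound E keys 1 3 _ _ _ _ t6_9_26_0) (by decide +kernel)

def r6_10_10 : List (ℕ × ℤ) := [(243, -2), (329, 2)]

theorem h6_10_10 (E : Env κ ι) : inn E 1 3 c6_10 c6_10 = dotS (ek E keys) r6_10_10 :=
  innS_eqZ E _ _ _ _ _ _ _ (chkF_sound E keys 1 3 _ _ _ _ t6_10_10_0) (by decide +kernel)

def r6_10_11 : List (ℕ × ℤ) := [(244, -2), (330, 2)]

theorem h6_10_11 (E : Env κ ι) : inn E 1 3 c6_10 c6_11 = dotS (ek E keys) r6_10_11 :=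
  innS_eqZ E _ _ _ _ _ _ _ (chkF_sound E keys 1 3 _ _ _ _ t6_10_11_0) (by decide +kernel)

def r6_10_12 : List (ℕ × ℤ) := [(224, -4), (256, 4)]

theorem h6_10_12 (E : Env κ ι) : inn E 1 3 c6_10 c6_12 = dotS (ek E keys) r6_10_12 :=
  innS_eqZ E _ _ _ _ _ _ _ (chkF_sound E keys 1 3 _ _ _ _ t6_10_12_0) (by decide +kernel)

def r6_10_13 : List (ℕ × ℤ) := [(221, -4), (331, 4)]

theorem h6_10_13 (E : Env κ ι) : inn E 1 3 c6_10 c6_13 = dotS (ek E keys) r6_10_13 :=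
  innS_eqZ E _ _ _ _ _ _ _ (chkF_sound E keys 1 3 _ _ _ _ t6_10_13_0) (by decide +kernel)

def r6_10_14 : List (ℕ × ℤ) := [(223, -4), (332, 4)]

theorem h6_10_14 (E : Env κ ι) : inn E 1 3 c6_10 c6_14 = dotS (ek E keys) r6_10_14 :=
  innS_eqZ E _ _ _ _ _ _ _ (chkF_sound E keys 1 3 _ _ _ _ t6_10_14_0) (by decide +kernel)

def r6_10_15 : List (ℕ × ℤ) := [(225, -4), (258, 4)]

theorem h6_10_15 (E : Env κ ι) : inn E 1 3 c6_10 c6_15 = dotS (ek E keys) r6_10_15 :=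
  innS_eqZ E _ _ _ _ _ _ _ (chkF_sound E keys 1 3 _ _ _ _ t6_10_15_0) (by decide +kernel)

def r6_10_16 : List (ℕ × ℤ) := [(324, -4), (333, 4)]

theorem h6_10_16 (E : Env κ ι) : inn E 1 3 c6_10 c6_16 = dotS (ek E keys) r6_10_16 :=
  innS_eqZ E _ _ _ _ _ _ _ (chkF_sound E keys 1 3 _ _ _ _ t6_10_16_0) (by decide +kernel)

def r6_10_17 : List (ℕ × ℤ) := [(99, 2), (130, 2), (147, -4)]

theorem h6_10_17 (E : Env κ ι) : inn E 1 3 c6_10 c6_17 = dotS (ek E keys) r6_10_17 :=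
  innS_eqZ E _ _ _ _ _ _ _ (chkF_sound E keys 1 3 _ _ _ _ t6_10_17_0) (by decide +kernel)

def r6_10_18 : List (ℕ × ℤ) := [(99, -4), (130, 2), (147, 2)]

theorem h6_10_18 (E : Env κ ι) : inn E 1 3 c6_10 c6_18 = dotS (ek E keys) r6_10_18 :=
  innS_eqZ E _ _ _ _ _ _ _ (chkF_sound E keys 1 3 _ _ _ _ t6_10_18_0) (by decide +kernel)

def r6_10_19 : List (ℕ × ℤ) := [(96, -4), (115, 2), (148, 2)]

theorem h6_10_19 (E : Env κ ι) : inn E 1 3 c6_10 c6_19 = dotS (ek E keys) r6_10_19 :=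
  innS_eqZ E _ _ _ _ _ _ _ (chkF_sound E keys 1 3 _ _ _ _ t6_10_19_0) (by decide +kernel)

def r6_10_20 : List (ℕ × ℤ) := [(96, 2), (115, 2), (148, -4)]

theorem h6_10_20 (E : Env κ ι) : inn E 1 3 c6_10 c6_20 = dotS (ek E keys) r6_10_20 :=
  innS_eqZ E _ _ _ _ _ _ _ (chkF_sound E keys 1 3 _ _ _ _ t6_10_20_0) (by decide +kernel)

def r6_10_21 : List (ℕ × ℤ) := [(245, 2), (312, -4), (331, 2)]

theorem h6_10_21 (E : Env κ ι) : inn E 1 3 c6_10 c6_21 = dotS (ek E keys) r6_10_21 :=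
  innS_eqZ E _ _ _ _ _ _ _ (chkF_sound E keys 1 3 _ _ _ _ t6_10_21_0) (by decide +kernel)

def r6_10_22 : List (ℕ × ℤ) := [(245, -4), (312, 2), (331, 2)]

theorem h6_10_22 (E : Env κ ι) : inn E 1 3 c6_10 c6_22 = dotS (ek E keys) r6_10_22 :=
  innS_eqZ E _ _ _ _ _ _ _ (chkF_sound E keys 1 3 _ _ _ _ t6_10_22_0) (by decide +kernel)

def r6_10_23 : List (ℕ × ℤ) := [(310, -4), (311, 2), (331, 2)]

theorem h6_10_23 (E : Env κ ι) : inn E 1 3 c6_10 c6_23 = dotS (ek E keys) r6_10_23 :=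
  innS_eqZ E _ _ _ _ _ _ _ (chkF_sound E keys 1 3 _ _ _ _ t6_10_23_0) (by decide +kernel)

def r6_10_24 : List (ℕ × ℤ) := [(310, 2), (311, -4), (331, 2)]

theorem h6_10_24 (E : Env κ ι) : inn E 1 3 c6_10 c6_24 = dotS (ek E keys) r6_10_24 :=
  innS_eqZ E _ _ _ _ _ _ _ (chkF_sound E keys 1 3 _ _ _ _ t6_10_24_0) (by decide +kernel)

def r6_10_25 : List (ℕ × ℤ) := [(252, 2), (313, -4), (332, 2)]

theorem h6_10_25 (E : Env κ ι) : inn E 1 3 c6_10 c6_25 = dotS (ek E keys) r6_10_25 :=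
  innS_eqZ E _ _ _ _ _ _ _ (chkF_sound E keys 1 3 _ _ _ _ t6_10_25_0) (by decide +kernel)

def r6_10_26 : List (ℕ × ℤ) := [(252, -4), (313, 2), (332, 2)]

theorem h6_10_26 (E : Env κ ι) : inn E 1 3 c6_10 c6_26 = dotS (ek E keys) r6_10_26 :=
  innS_eqZ E _ _ _ _ _ _ _ (chkF_sound E keys 1 3 _ _ _ _ t6_10_26_0) (by decide +kernel)

def r6_11_11 : List (ℕ × ℤ) := [(247, -2), (262, 2)]

theorem h6_11_11 (E : Env κ ι) : inn E 1 3 c6_11 c6_11 = dotS (ek E keys) r6_11_11 :=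
  innS_eqZ E _ _ _ _ _ _ _ (chkF_sound E keys 1 3 _ _ _ _ t6_11_11_0) (by decide +kernel)

def r6_11_12 : List (ℕ × ℤ) := [(250, -4), (261, 4)]

theorem h6_11_12 (E : Env κ ι) : inn E 1 3 c6_11 c6_12 = dotS (ek E keys) r6_11_12 :=
  innS_eqZ E _ _ _ _ _ _ _ (chkF_sound E keys 1 3 _ _ _ _ t6_11_12_0) (by decide +kernel)

def r6_11_13 : List (ℕ × ℤ) := [(231, -4), (332, 4)]

theorem h6_11_13 (E : Env κ ι) : inn E 1 3 c6_11 c6_13 = dotS (ek E keys) r6_11_13 :=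
  innS_eqZ E _ _ _ _ _ _ _ (chkF_sound E keys 1 3 _ _ _ _ t6_11_13_0) (by decide +kernel)

def r6_11_14 : List (ℕ × ℤ) := [(3, -4), (258, 4)]

theorem h6_11_14 (E : Env κ ι) : inn E 1 3 c6_11 c6_14 = dotS (ek E keys) r6_11_14 :=
  innS_eqZ E _ _ _ _ _ _ _ (chkF_sound E keys 1 3 _ _ _ _ t6_11_14_0) (by decide +kernel)

def r6_11_15 : List (ℕ × ℤ) := [(41, -4), (43, 4)]

theorem h6_11_15 (E : Env κ ι) : inn E 1 3 c6_11 c6_15 = dotS (ek E keys) r6_11_15 :=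
  innS_eqZ E _ _ _ _ _ _ _ (chkF_sound E keys 1 3 _ _ _ _ t6_11_15_0) (by decide +kernel)

def r6_11_16 : List (ℕ × ℤ) := [(254, -4), (269, 4)]

theorem h6_11_16 (E : Env κ ι) : inn E 1 3 c6_11 c6_16 = dotS (ek E keys) r6_11_16 :=
  innS_eqZ E _ _ _ _ _ _ _ (chkF_sound E keys 1 3 _ _ _ _ t6_11_16_0) (by decide +kernel)

def r6_11_17 : List (ℕ × ℤ) := [(58, 2), (86, 2), (135, -4)]

theorem h6_11_17 (E : Env κ ι) : inn E 1 3 c6_11 c6_17 = dotS (ek E keys) r6_11_17 :=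
  innS_eqZ E _ _ _ _ _ _ _ (chkF_sound E keys 1 3 _ _ _ _ t6_11_17_0) (by decide +kernel)

def r6_11_18 : List (ℕ × ℤ) := [(58, 2), (86, -4), (135, 2)]

theorem h6_11_18 (E : Env κ ι) : inn E 1 3 c6_11 c6_18 = dotS (ek E keys) r6_11_18 :=
  innS_eqZ E _ _ _ _ _ _ _ (chkF_sound E keys 1 3 _ _ _ _ t6_11_18_0) (by decide +kernel)

def r6_11_19 : List (ℕ × ℤ) := [(48, -4), (52, 2), (143, 2)]

theorem h6_11_19 (E : Env κ ι) : inn E 1 3 c6_11 c6_19 = dotS (ek E keys) r6_11_19 :=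
  innS_eqZ E _ _ _ _ _ _ _ (chkF_sound E keys 1 3 _ _ _ _ t6_11_19_0) (by decide +kernel)

def r6_11_20 : List (ℕ × ℤ) := [(48, 2), (52, 2), (143, -4)]

theorem h6_11_20 (E : Env κ ι) : inn E 1 3 c6_11 c6_20 = dotS (ek E keys) r6_11_20 :=
  innS_eqZ E _ _ _ _ _ _ _ (chkF_sound E keys 1 3 _ _ _ _ t6_11_20_0) (by decide +kernel)

def r6_11_21 : List (ℕ × ℤ) := [(237, 2), (313, -4), (332, 2)]

theorem h6_11_21 (E : Env κ ι) : inn E 1 3 c6_11 c6_21 = dotS (ek E keys) r6_11_21 :=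
  innS_eqZ E _ _ _ _ _ _ _ (chkF_sound E keys 1 3 _ _ _ _ t6_11_21_0) (by decide +kernel)

def r6_11_22 : List (ℕ × ℤ) := [(237, -4), (313, 2), (332, 2)]

theorem h6_11_22 (E : Env κ ι) : inn E 1 3 c6_11 c6_22 = dotS (ek E keys) r6_11_22 :=
  innS_eqZ E _ _ _ _ _ _ _ (chkF_sound E keys 1 3 _ _ _ _ t6_11_22_0) (by decide +kernel)

def r6_11_23 : List (ℕ × ℤ) := [(223, -4), (252, 2), (332, 2)]

theorem h6_11_23 (E : Env κ ι) : inn E 1 3 c6_11 c6_23 = dotS (ek E keys) r6_11_23 :=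
  innS_eqZ E _ _ _ _ _ _ _ (chkF_sound E keys 1 3 _ _ _ _ t6_11_23_0) (by decide +kernel)

def r6_11_24 : List (ℕ × ℤ) := [(223, 2), (252, -4), (332, 2)]

theorem h6_11_24 (E : Env κ ι) : inn E 1 3 c6_11 c6_24 = dotS (ek E keys) r6_11_24 :=
  innS_eqZ E _ _ _ _ _ _ _ (chkF_sound E keys 1 3 _ _ _ _ t6_11_24_0) (by decide +kernel)

def r6_11_25 : List (ℕ × ℤ) := [(225, -4), (241, 2), (258, 2)]

theorem h6_11_25 (E : Env κ ι) : inn E 1 3 c6_11 c6_25 = dotS (ek E keys) r6_11_25 :=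
  innS_eqZ E _ _ _ _ _ _ _ (chkF_sound E keys 1 3 _ _ _ _ t6_11_25_0) (by decide +kernel)

def r6_11_26 : List (ℕ × ℤ) := [(225, 2), (241, -4), (258, 2)]

theorem h6_11_26 (E : Env κ ι) : inn E 1 3 c6_11 c6_26 = dotS (ek E keys) r6_11_26 :=
  innS_eqZ E _ _ _ _ _ _ _ (chkF_sound E keys 1 3 _ _ _ _ t6_11_26_0) (by decide +kernel)

def r6_12_12 : List (ℕ × ℤ) := [(260, -8), (334, 8)]

theorem h6_12_12 (E : Env κ ι) : inn E 1 3 c6_12 c6_12 = dotS (ek E keys) r6_12_12 :=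
  innS_eqZ E _ _ _ _ _ _ _ (chkF_sound E keys 1 3 _ _ _ _ t6_12_12_0) (by decide +kernel)

def r6_12_13 : List (ℕ × ℤ) := [(256, -8), (335, 8)]

theorem h6_12_13 (E : Env κ ι) : inn E 1 3 c6_12 c6_13 = dotS (ek E keys) r6_12_13 :=
  innS_eqZ E _ _ _ _ _ _ _ (chkF_sound E keys 1 3 _ _ _ _ t6_12_13_0) (by decide +kernel)

def r6_12_14 : List (ℕ × ℤ) := [(261, -8), (336, 8)]

theorem h6_12_14 (E : Env κ ι) : inn E 1 3 c6_12 c6_14 = dotS (ek E keys) r6_12_14 :=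
  innS_eqZ E _ _ _ _ _ _ _ (chkF_sound E keys 1 3 _ _ _ _ t6_12_14_0) (by decide +kernel)

def r6_12_15 : List (ℕ × ℤ) := [(262, -8), (337, 8)]

theorem h6_12_15 (E : Env κ ι) : inn E 1 3 c6_12 c6_15 = dotS (ek E keys) r6_12_15 :=
  innS_eqZ E _ _ _ _ _ _ _ (chkF_sound E keys 1 3 _ _ _ _ t6_12_15_0) (by decide +kernel)

def r6_12_16 : List (ℕ × ℤ) := [(338, 8), (339, -8)]

theorem h6_12_16 (E : Env κ ι) : inn E 1 3 c6_12 c6_16 = dotS (ek E keys) r6_12_16 :=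
  innS_eqZ E _ _ _ _ _ _ _ (chkF_sound E keys 1 3 _ _ _ _ t6_12_16_0) (by decide +kernel)

def r6_12_17 : List (ℕ × ℤ) := [(17, -4), (184, 8), (185, -4)]

theorem h6_12_17 (E : Env κ ι) : inn E 1 3 c6_12 c6_17 = dotS (ek E keys) r6_12_17 :=
  innS_eqZ E _ _ _ _ _ _ _ (chkF_sound E keys 1 3 _ _ _ _ t6_12_17_0) (by decide +kernel)

def r6_12_18 : List (ℕ × ℤ) := [(17, -4), (184, -4), (185, 8)]

theorem h6_12_18 (E : Env κ ι) : inn E 1 3 c6_12 c6_18 = dotS (ek E keys) r6_12_18 :=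
  innS_eqZ E _ _ _ _ _ _ _ (chkF_sound E keys 1 3 _ _ _ _ t6_12_18_0) (by decide +kernel)

def r6_12_19 : List (ℕ × ℤ) := [(22, 8), (185, -4), (186, -4)]

theorem h6_12_19 (E : Env κ ι) : inn E 1 3 c6_12 c6_19 = dotS (ek E keys) r6_12_19 :=
  innS_eqZ E _ _ _ _ _ _ _ (chkF_sound E keys 1 3 _ _ _ _ t6_12_19_0) (by decide +kernel)

def r6_12_20 : List (ℕ × ℤ) := [(22, -4), (185, -4), (186, 8)]

theorem h6_12_20 (E : Env κ ι) : inn E 1 3 c6_12 c6_20 = dotS (ek E keys) r6_12_20 :=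
  innS_eqZ E _ _ _ _ _ _ _ (chkF_sound E keys 1 3 _ _ _ _ t6_12_20_0) (by decide +kernel)

def r6_12_21 : List (ℕ × ℤ) := [(246, -4), (256, -4), (340, 8)]

theorem h6_12_21 (E : Env κ ι) : inn E 1 3 c6_12 c6_21 = dotS (ek E keys) r6_12_21 :=
  innS_eqZ E _ _ _ _ _ _ _ (chkF_sound E keys 1 3 _ _ _ _ t6_12_21_0) (by decide +kernel)

def r6_12_22 : List (ℕ × ℤ) := [(246, -4), (256, 8), (340, -4)]

theorem h6_12_22 (E : Env κ ι) : inn E 1 3 c6_12 c6_22 = dotS (ek E keys) r6_12_22 :=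
  innS_eqZ E _ _ _ _ _ _ _ (chkF_sound E keys 1 3 _ _ _ _ t6_12_22_0) (by decide +kernel)

def r6_12_23 : List (ℕ × ℤ) := [(239, -4), (325, -4), (341, 8)]

theorem h6_12_23 (E : Env κ ι) : inn E 1 3 c6_12 c6_23 = dotS (ek E keys) r6_12_23 :=
  innS_eqZ E _ _ _ _ _ _ _ (chkF_sound E keys 1 3 _ _ _ _ t6_12_23_0) (by decide +kernel)

def r6_12_24 : List (ℕ × ℤ) := [(239, -4), (325, 8), (341, -4)]

theorem h6_12_24 (E : Env κ ι) : inn E 1 3 c6_12 c6_24 = dotS (ek E keys) r6_12_24 :=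
  innS_eqZ E _ _ _ _ _ _ _ (chkF_sound E keys 1 3 _ _ _ _ t6_12_24_0) (by decide +kernel)

def r6_12_25 : List (ℕ × ℤ) := [(253, -4), (261, -4), (342, 8)]

theorem h6_12_25 (E : Env κ ι) : inn E 1 3 c6_12 c6_25 = dotS (ek E keys) r6_12_25 :=
  innS_eqZ E _ _ _ _ _ _ _ (chkF_sound E keys 1 3 _ _ _ _ t6_12_25_0) (by decide +kernel)

def r6_12_26 : List (ℕ × ℤ) := [(253, -4), (261, 8), (342, -4)]

theorem h6_12_26 (E : Env κ ι) : inn E 1 3 c6_12 c6_26 = dotS (ek E keys) r6_12_26 :=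
  innS_eqZ E _ _ _ _ _ _ _ (chkF_sound E keys 1 3 _ _ _ _ t6_12_26_0) (by decide +kernel)

def r6_13_13 : List (ℕ × ℤ) := [(255, -8), (343, 8)]

theorem h6_13_13 (E : Env κ ι) : inn E 1 3 c6_13 c6_13 = dotS (ek E keys) r6_13_13 :=
  innS_eqZ E _ _ _ _ _ _ _ (chkF_sound E keys 1 3 _ _ _ _ t6_13_13_0) (by decide +kernel)

def r6_13_14 : List (ℕ × ℤ) := [(257, -8), (344, 8)]

theorem h6_13_14 (E : Env κ ι) : inn E 1 3 c6_13 c6_14 = dotS (ek E keys) r6_13_14 :=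
  innS_eqZ E _ _ _ _ _ _ _ (chkF_sound E keys 1 3 _ _ _ _ t6_13_14_0) (by decide +kernel)

def r6_13_15 : List (ℕ × ℤ) := [(4, 8), (258, -8)]

theorem h6_13_15 (E : Env κ ι) : inn E 1 3 c6_13 c6_15 = dotS (ek E keys) r6_13_15 :=
  innS_eqZ E _ _ _ _ _ _ _ (chkF_sound E keys 1 3 _ _ _ _ t6_13_15_0) (by decide +kernel)

def r6_13_16 : List (ℕ × ℤ) := [(345, 8), (346, -8)]

theorem h6_13_16 (E : Env κ ι) : inn E 1 3 c6_13 c6_16 = dotS (ek E keys) r6_13_16 :=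
  innS_eqZ E _ _ _ _ _ _ _ (chkF_sound E keys 1 3 _ _ _ _ t6_13_16_0) (by decide +kernel)

def r6_13_17 : List (ℕ × ℤ) := [(99, -4), (125, 8), (130, -4)]

theorem h6_13_17 (E : Env κ ι) : inn E 1 3 c6_13 c6_17 = dotS (ek E keys) r6_13_17 :=
  innS_eqZ E _ _ _ _ _ _ _ (chkF_sound E keys 1 3 _ _ _ _ t6_13_17_0) (by decide +kernel)

def r6_13_18 : List (ℕ × ℤ) := [(99, -4), (125, -4), (130, 8)]

theorem h6_13_18 (E : Env κ ι) : inn E 1 3 c6_13 c6_18 = dotS (ek E keys) r6_13_18 :=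
  innS_eqZ E _ _ _ _ _ _ _ (chkF_sound E keys 1 3 _ _ _ _ t6_13_18_0) (by decide +kernel)

def r6_13_19 : List (ℕ × ℤ) := [(106, -4), (130, -4), (173, 8)]

theorem h6_13_19 (E : Env κ ι) : inn E 1 3 c6_13 c6_19 = dotS (ek E keys) r6_13_19 :=
  innS_eqZ E _ _ _ _ _ _ _ (chkF_sound E keys 1 3 _ _ _ _ t6_13_19_0) (by decide +kernel)

def r6_13_20 : List (ℕ × ℤ) := [(106, 8), (130, -4), (173, -4)]

theorem h6_13_20 (E : Env κ ι) : inn E 1 3 c6_13 c6_20 = dotS (ek E keys) r6_13_20 :=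
  innS_eqZ E _ _ _ _ _ _ _ (chkF_sound E keys 1 3 _ _ _ _ t6_13_20_0) (by decide +kernel)

def r6_13_21 : List (ℕ × ℤ) := [(245, -4), (331, -4), (347, 8)]

theorem h6_13_21 (E : Env κ ι) : inn E 1 3 c6_13 c6_21 = dotS (ek E keys) r6_13_21 :=
  innS_eqZ E _ _ _ _ _ _ _ (chkF_sound E keys 1 3 _ _ _ _ t6_13_21_0) (by decide +kernel)

def r6_13_22 : List (ℕ × ℤ) := [(245, -4), (331, 8), (347, -4)]

theorem h6_13_22 (E : Env κ ι) : inn E 1 3 c6_13 c6_22 = dotS (ek E keys) r6_13_22 :=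
  innS_eqZ E _ _ _ _ _ _ _ (chkF_sound E keys 1 3 _ _ _ _ t6_13_22_0) (by decide +kernel)

def r6_13_23 : List (ℕ × ℤ) := [(238, -4), (327, -4), (348, 8)]

theorem h6_13_23 (E : Env κ ι) : inn E 1 3 c6_13 c6_23 = dotS (ek E keys) r6_13_23 :=
  innS_eqZ E _ _ _ _ _ _ _ (chkF_sound E keys 1 3 _ _ _ _ t6_13_23_0) (by decide +kernel)

def r6_13_24 : List (ℕ × ℤ) := [(238, -4), (327, 8), (348, -4)]

theorem h6_13_24 (E : Env κ ι) : inn E 1 3 c6_13 c6_24 = dotS (ek E keys) r6_13_24 :=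
  innS_eqZ E _ _ _ _ _ _ _ (chkF_sound E keys 1 3 _ _ _ _ t6_13_24_0) (by decide +kernel)

def r6_13_25 : List (ℕ × ℤ) := [(252, -4), (332, -4), (349, 8)]

theorem h6_13_25 (E : Env κ ι) : inn E 1 3 c6_13 c6_25 = dotS (ek E keys) r6_13_25 :=
  innS_eqZ E _ _ _ _ _ _ _ (chkF_sound E keys 1 3 _ _ _ _ t6_13_25_0) (by decide +kernel)

def r6_13_26 : List (ℕ × ℤ) := [(252, -4), (332, 8), (349, -4)]

theorem h6_13_26 (E : Env κ ι) : inn E 1 3 c6_13 c6_26 = dotS (ek E keys) r6_13_26 :=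
  innS_eqZ E _ _ _ _ _ _ _ (chkF_sound E keys 1 3 _ _ _ _ t6_13_26_0) (by decide +kernel)

def r6_14_14 : List (ℕ × ℤ) := [(4, 8), (264, -8)]

theorem h6_14_14 (E : Env κ ι) : inn E 1 3 c6_14 c6_14 = dotS (ek E keys) r6_14_14 :=
  innS_eqZ E _ _ _ _ _ _ _ (chkF_sound E keys 1 3 _ _ _ _ t6_14_14_0) (by decide +kernel)

def r6_14_15 : List (ℕ × ℤ) := [(42, 8), (43, -8)]

theorem h6_14_15 (E : Env κ ι) : inn E 1 3 c6_14 c6_15 = dotS (ek E keys) r6_14_15 :=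
  innS_eqZ E _ _ _ _ _ _ _ (chkF_sound E keys 1 3 _ _ _ _ t6_14_15_0) (by decide +kernel)

def r6_14_16 : List (ℕ × ℤ) := [(271, 8), (276, -8)]

theorem h6_14_16 (E : Env κ ι) : inn E 1 3 c6_14 c6_16 = dotS (ek E keys) r6_14_16 :=
  innS_eqZ E _ _ _ _ _ _ _ (chkF_sound E keys 1 3 _ _ _ _ t6_14_16_0) (by decide +kernel)

def r6_14_17 : List (ℕ × ℤ) := [(58, -4), (86, -4), (126, 8)]

theorem h6_14_17 (E : Env κ ι) : inn E 1 3 c6_14 c6_17 = dotS (ek E keys) r6_14_17 :=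
  innS_eqZ E _ _ _ _ _ _ _ (chkF_sound E keys 1 3 _ _ _ _ t6_14_17_0) (by decide +kernel)

def r6_14_18 : List (ℕ × ℤ) := [(58, 8), (86, -4), (126, -4)]

theorem h6_14_18 (E : Env κ ι) : inn E 1 3 c6_14 c6_18 = dotS (ek E keys) r6_14_18 :=
  innS_eqZ E _ _ _ _ _ _ _ (chkF_sound E keys 1 3 _ _ _ _ t6_14_18_0) (by decide +kernel)

def r6_14_19 : List (ℕ × ℤ) := [(57, 8), (58, -4), (108, -4)]

theorem h6_14_19 (E : Env κ ι) : inn E 1 3 c6_14 c6_19 = dotS (ek E keys) r6_14_19 :=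
  innS_eqZ E _ _ _ _ _ _ _ (chkF_sound E keys 1 3 _ _ _ _ t6_14_19_0) (by decide +kernel)

def r6_14_20 : List (ℕ × ℤ) := [(57, -4), (58, -4), (108, 8)]

theorem h6_14_20 (E : Env κ ι) : inn E 1 3 c6_14 c6_20 = dotS (ek E keys) r6_14_20 :=
  innS_eqZ E _ _ _ _ _ _ _ (chkF_sound E keys 1 3 _ _ _ _ t6_14_20_0) (by decide +kernel)

def r6_14_21 : List (ℕ × ℤ) := [(237, -4), (332, -4), (350, 8)]

theorem h6_14_21 (E : Env κ ι) : inn E 1 3 c6_14 c6_21 = dotS (ek E keys) r6_14_21 :=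
  innS_eqZ E _ _ _ _ _ _ _ (chkF_sound E keys 1 3 _ _ _ _ t6_14_21_0) (by decide +kernel)

def r6_14_22 : List (ℕ × ℤ) := [(237, -4), (332, 8), (350, -4)]

theorem h6_14_22 (E : Env κ ι) : inn E 1 3 c6_14 c6_22 = dotS (ek E keys) r6_14_22 :=
  innS_eqZ E _ _ _ _ _ _ _ (chkF_sound E keys 1 3 _ _ _ _ t6_14_22_0) (by decide +kernel)

def r6_14_23 : List (ℕ × ℤ) := [(240, -4), (257, -4), (349, 8)]

theorem h6_14_23 (E : Env κ ι) : inn E 1 3 c6_14 c6_23 = dotS (ek E keys) r6_14_23 :=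
  innS_eqZ E _ _ _ _ _ _ _ (chkF_sound E keys 1 3 _ _ _ _ t6_14_23_0) (by decide +kernel)

def r6_14_24 : List (ℕ × ℤ) := [(240, -4), (257, 8), (349, -4)]

theorem h6_14_24 (E : Env κ ι) : inn E 1 3 c6_14 c6_24 = dotS (ek E keys) r6_14_24 :=
  innS_eqZ E _ _ _ _ _ _ _ (chkF_sound E keys 1 3 _ _ _ _ t6_14_24_0) (by decide +kernel)

def r6_14_25 : List (ℕ × ℤ) := [(241, -4), (258, -4), (351, 8)]

theorem h6_14_25 (E : Env κ ι) : inn E 1 3 c6_14 c6_25 = dotS (ek E keys) r6_14_25 :=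
  innS_eqZ E _ _ _ _ _ _ _ (chkF_sound E keys 1 3 _ _ _ _ t6_14_25_0) (by decide +kernel)

def r6_14_26 : List (ℕ × ℤ) := [(241, -4), (258, 8), (351, -4)]

theorem h6_14_26 (E : Env κ ι) : inn E 1 3 c6_14 c6_26 = dotS (ek E keys) r6_14_26 :=
  innS_eqZ E _ _ _ _ _ _ _ (chkF_sound E keys 1 3 _ _ _ _ t6_14_26_0) (by decide +kernel)

def r6_15_15 : List (ℕ × ℤ) := [(38, -8), (65, 8)]

theorem h6_15_15 (E : Env κ ι) : inn E 1 3 c6_15 c6_15 = dotS (ek E keys) r6_15_15 :=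
  innS_eqZ E _ _ _ _ _ _ _ (chkF_sound E keys 1 3 _ _ _ _ t6_15_15_0) (by decide +kernel)

def r6_15_16 : List (ℕ × ℤ) := [(2, 8), (277, -8)]

theorem h6_15_16 (E : Env κ ι) : inn E 1 3 c6_15 c6_16 = dotS (ek E keys) r6_15_16 :=
  innS_eqZ E _ _ _ _ _ _ _ (chkF_sound E keys 1 3 _ _ _ _ t6_15_16_0) (by decide +kernel)

def r6_15_17 : List (ℕ × ℤ) := [(34, -4), (56, -4), (132, 8)]

theorem h6_15_17 (E : Env κ ι) : inn E 1 3 c6_15 c6_17 = dotS (ek E keys) r6_15_17 :=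
  innS_eqZ E _ _ _ _ _ _ _ (chkF_sound E keys 1 3 _ _ _ _ t6_15_17_0) (by decide +kernel)

def r6_15_18 : List (ℕ × ℤ) := [(34, -4), (56, 8), (132, -4)]

theorem h6_15_18 (E : Env κ ι) : inn E 1 3 c6_15 c6_18 = dotS (ek E keys) r6_15_18 :=
  innS_eqZ E _ _ _ _ _ _ _ (chkF_sound E keys 1 3 _ _ _ _ t6_15_18_0) (by decide +kernel)

def r6_15_19 : List (ℕ × ℤ) := [(35, 8), (56, -4), (133, -4)]

theorem h6_15_19 (E : Env κ ι) : inn E 1 3 c6_15 c6_19 = dotS (ek E keys) r6_15_19 :=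
  innS_eqZ E _ _ _ _ _ _ _ (chkF_sound E keys 1 3 _ _ _ _ t6_15_19_0) (by decide +kernel)

def r6_15_20 : List (ℕ × ℤ) := [(35, -4), (56, -4), (133, 8)]

theorem h6_15_20 (E : Env κ ι) : inn E 1 3 c6_15 c6_20 = dotS (ek E keys) r6_15_20 :=
  innS_eqZ E _ _ _ _ _ _ _ (chkF_sound E keys 1 3 _ _ _ _ t6_15_20_0) (by decide +kernel)

def r6_15_21 : List (ℕ × ℤ) := [(247, -4), (258, -4), (352, 8)]

theorem h6_15_21 (E : Env κ ι) : inn E 1 3 c6_15 c6_21 = dotS (ek E keys) r6_15_21 :=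
  innS_eqZ E _ _ _ _ _ _ _ (chkF_sound E keys 1 3 _ _ _ _ t6_15_21_0) (by decide +kernel)

def r6_15_22 : List (ℕ × ℤ) := [(247, -4), (258, 8), (352, -4)]

theorem h6_15_22 (E : Env κ ι) : inn E 1 3 c6_15 c6_22 = dotS (ek E keys) r6_15_22 :=
  innS_eqZ E _ _ _ _ _ _ _ (chkF_sound E keys 1 3 _ _ _ _ t6_15_22_0) (by decide +kernel)

def r6_15_23 : List (ℕ × ℤ) := [(241, -4), (264, -4), (351, 8)]

theorem h6_15_23 (E : Env κ ι) : inn E 1 3 c6_15 c6_23 = dotS (ek E keys) r6_15_23 :=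
  innS_eqZ E _ _ _ _ _ _ _ (chkF_sound E keys 1 3 _ _ _ _ t6_15_23_0) (by decide +kernel)

def r6_15_24 : List (ℕ × ℤ) := [(241, -4), (264, 8), (351, -4)]

theorem h6_15_24 (E : Env κ ι) : inn E 1 3 c6_15 c6_24 = dotS (ek E keys) r6_15_24 :=
  innS_eqZ E _ _ _ _ _ _ _ (chkF_sound E keys 1 3 _ _ _ _ t6_15_24_0) (by decide +kernel)

def r6_15_25 : List (ℕ × ℤ) := [(39, -4), (43, -4), (353, 8)]

theorem h6_15_25 (E : Env κ ι) : inn E 1 3 c6_15 c6_25 = dotS (ek E keys) r6_15_25 :=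
  innS_eqZ E _ _ _ _ _ _ _ (chkF_sound E keys 1 3 _ _ _ _ t6_15_25_0) (by decide +kernel)

def r6_15_26 : List (ℕ × ℤ) := [(39, -4), (43, 8), (353, -4)]

theorem h6_15_26 (E : Env κ ι) : inn E 1 3 c6_15 c6_26 = dotS (ek E keys) r6_15_26 :=
  innS_eqZ E _ _ _ _ _ _ _ (chkF_sound E keys 1 3 _ _ _ _ t6_15_26_0) (by decide +kernel)

def r6_16_16 : List (ℕ × ℤ) := [(354, 8), (355, -8)]

theorem h6_16_16 (E : Env κ ι) : inn E 1 3 c6_16 c6_16 = dotS (ek E keys) r6_16_16 :=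
  innS_eqZ E _ _ _ _ _ _ _ (chkF_sound E keys 1 3 _ _ _ _ t6_16_16_0) (by decide +kernel)

def r6_16_17 : List (ℕ × ℤ) := [(157, -4), (356, 8), (357, -4)]

theorem h6_16_17 (E : Env κ ι) : inn E 1 3 c6_16 c6_17 = dotS (ek E keys) r6_16_17 :=
  innS_eqZ E _ _ _ _ _ _ _ (chkF_sound E keys 1 3 _ _ _ _ t6_16_17_0) (by decide +kernel)

def r6_16_18 : List (ℕ × ℤ) := [(157, 8), (356, -4), (357, -4)]

theorem h6_16_18 (E : Env κ ι) : inn E 1 3 c6_16 c6_18 = dotS (ek E keys) r6_16_18 :=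
  innS_eqZ E _ _ _ _ _ _ _ (chkF_sound E keys 1 3 _ _ _ _ t6_16_18_0) (by decide +kernel)

def r6_16_19 : List (ℕ × ℤ) := [(162, 8), (358, -4), (359, -4)]

theorem h6_16_19 (E : Env κ ι) : inn E 1 3 c6_16 c6_19 = dotS (ek E keys) r6_16_19 :=
  innS_eqZ E _ _ _ _ _ _ _ (chkF_sound E keys 1 3 _ _ _ _ t6_16_19_0) (by decide +kernel)

def r6_16_20 : List (ℕ × ℤ) := [(162, -4), (358, 8), (359, -4)]

theorem h6_16_20 (E : Env κ ι) : inn E 1 3 c6_16 c6_20 = dotS (ek E keys) r6_16_20 :=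
  innS_eqZ E _ _ _ _ _ _ _ (chkF_sound E keys 1 3 _ _ _ _ t6_16_20_0) (by decide +kernel)

def r6_16_21 : List (ℕ × ℤ) := [(319, -4), (360, 8), (361, -4)]

theorem h6_16_21 (E : Env κ ι) : inn E 1 3 c6_16 c6_21 = dotS (ek E keys) r6_16_21 :=
  innS_eqZ E _ _ _ _ _ _ _ (chkF_sound E keys 1 3 _ _ _ _ t6_16_21_0) (by decide +kernel)

def r6_16_22 : List (ℕ × ℤ) := [(319, -4), (360, -4), (361, 8)]

theorem h6_16_22 (E : Env κ ι) : inn E 1 3 c6_16 c6_22 = dotS (ek E keys) r6_16_22 :=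
  innS_eqZ E _ _ _ _ _ _ _ (chkF_sound E keys 1 3 _ _ _ _ t6_16_22_0) (by decide +kernel)

def r6_16_23 : List (ℕ × ℤ) := [(318, -4), (346, 8), (360, -4)]

theorem h6_16_23 (E : Env κ ι) : inn E 1 3 c6_16 c6_23 = dotS (ek E keys) r6_16_23 :=
  innS_eqZ E _ _ _ _ _ _ _ (chkF_sound E keys 1 3 _ _ _ _ t6_16_23_0) (by decide +kernel)

def r6_16_24 : List (ℕ × ℤ) := [(318, -4), (346, -4), (360, 8)]

theorem h6_16_24 (E : Env κ ι) : inn E 1 3 c6_16 c6_24 = dotS (ek E keys) r6_16_24 :=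
  innS_eqZ E _ _ _ _ _ _ _ (chkF_sound E keys 1 3 _ _ _ _ t6_16_24_0) (by decide +kernel)

def r6_16_25 : List (ℕ × ℤ) := [(268, -4), (275, -4), (276, 8)]

theorem h6_16_25 (E : Env κ ι) : inn E 1 3 c6_16 c6_25 = dotS (ek E keys) r6_16_25 :=
  innS_eqZ E _ _ _ _ _ _ _ (chkF_sound E keys 1 3 _ _ _ _ t6_16_25_0) (by decide +kernel)

def r6_16_26 : List (ℕ × ℤ) := [(268, -4), (275, 8), (276, -4)]

theorem h6_16_26 (E : Env κ ι) : inn E 1 3 c6_16 c6_26 = dotS (ek E keys) r6_16_26 :=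
  innS_eqZ E _ _ _ _ _ _ _ (chkF_sound E keys 1 3 _ _ _ _ t6_16_26_0) (by decide +kernel)

def r6_17_17 : List (ℕ × ℤ) := [(210, -2), (211, -4), (213, -2), (362, 4), (363, 4)]

theorem h6_17_17 (E : Env κ ι) : inn E 1 3 c6_17 c6_17 = dotS (ek E keys) r6_17_17 :=
  innS_eqZ E _ _ _ _ _ _ _ (chkF_sound E keys 1 3 _ _ _ _ t6_17_17_0) (by decide +kernel)

def r6_17_18 : List (ℕ × ℤ) := [(210, -2), (211, 2), (213, 4), (362, -2), (363, -2)]

theorem h6_17_18 (E : Env κ ι) : inn E 1 3 c6_17 c6_18 = dotS (ek E keys) r6_17_18 :=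
  innS_eqZ E _ _ _ _ _ _ _ (chkF_sound E keys 1 3 _ _ _ _ t6_17_18_0) (by decide +kernel)

def r6_17_19 : List (ℕ × ℤ) := [(213, -2), (215, 4), (290, 4), (294, -2), (297, -2), (303, -2)]

theorem h6_17_19 (E : Env κ ι) : inn E 1 3 c6_17 c6_19 = dotS (ek E keys) r6_17_19 :=
  innS_eqZ E _ _ _ _ _ _ _ (chkF_sound E keys 1 3 _ _ _ _ t6_17_19_0) (by decide +kernel)

def r6_17_20 : List (ℕ × ℤ) := [(213, -2), (215, -2), (290, -2), (294, -2), (297, 4), (303, 4)]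

theorem h6_17_20 (E : Env κ ι) : inn E 1 3 c6_17 c6_20 = dotS (ek E keys) r6_17_20 :=
  innS_eqZ E _ _ _ _ _ _ _ (chkF_sound E keys 1 3 _ _ _ _ t6_17_20_0) (by decide +kernel)

def r6_17_21 : List (ℕ × ℤ) := [(96, -2), (99, -2), (113, -2), (130, -2), (144, 4), (187, 4)]

theorem h6_17_21 (E : Env κ ι) : inn E 1 3 c6_17 c6_21 = dotS (ek E keys) r6_17_21 :=
  innS_eqZ E _ _ _ _ _ _ _ (chkF_sound E keys 1 3 _ _ _ _ t6_17_21_0) (by decide +kernel)

def r6_17_22 : List (ℕ × ℤ) := [(96, -2), (99, 4), (113, -2), (130, 4), (144, -2), (187, -2)]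

theorem h6_17_22 (E : Env κ ι) : inn E 1 3 c6_17 c6_22 = dotS (ek E keys) r6_17_22 :=
  innS_eqZ E _ _ _ _ _ _ _ (chkF_sound E keys 1 3 _ _ _ _ t6_17_22_0) (by decide +kernel)

def r6_17_23 : List (ℕ × ℤ) := [(83, -2), (85, -2), (107, -2), (119, 4), (127, -2), (129, 4)]

theorem h6_17_23 (E : Env κ ι) : inn E 1 3 c6_17 c6_23 = dotS (ek E keys) r6_17_23 :=
  innS_eqZ E _ _ _ _ _ _ _ (chkF_sound E keys 1 3 _ _ _ _ t6_17_23_0) (by decide +kernel)

def r6_17_24 : List (ℕ × ℤ) := [(83, 4), (85, -2), (107, -2), (119, -2), (127, 4), (129, -2)]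

theorem h6_17_24 (E : Env κ ι) : inn E 1 3 c6_17 c6_24 = dotS (ek E keys) r6_17_24 :=
  innS_eqZ E _ _ _ _ _ _ _ (chkF_sound E keys 1 3 _ _ _ _ t6_17_24_0) (by decide +kernel)

def r6_17_25 : List (ℕ × ℤ) := [(48, -2), (53, -2), (58, -2), (86, -2), (120, 4), (134, 4)]

theorem h6_17_25 (E : Env κ ι) : inn E 1 3 c6_17 c6_25 = dotS (ek E keys) r6_17_25 :=
  innS_eqZ E _ _ _ _ _ _ _ (chkF_sound E keys 1 3 _ _ _ _ t6_17_25_0) (by decide +kernel)

def r6_17_26 : List (ℕ × ℤ) := [(48, -2), (53, -2), (58, 4), (86, 4), (120, -2), (134, -2)]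

theorem h6_17_26 (E : Env κ ι) : inn E 1 3 c6_17 c6_26 = dotS (ek E keys) r6_17_26 :=
  innS_eqZ E _ _ _ _ _ _ _ (chkF_sound E keys 1 3 _ _ _ _ t6_17_26_0) (by decide +kernel)

def r6_18_18 : List (ℕ × ℤ) := [(210, 4), (211, -4), (213, -2), (362, 4), (363, -2)]

theorem h6_18_18 (E : Env κ ι) : inn E 1 3 c6_18 c6_18 = dotS (ek E keys) r6_18_18 :=
  innS_eqZ E _ _ _ _ _ _ _ (chkF_sound E keys 1 3 _ _ _ _ t6_18_18_0) (by decide +kernel)

def r6_18_19 : List (ℕ × ℤ) := [(213, 4), (215, -2), (290, -2), (294, -2), (297, -2), (303, 4)]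

theorem h6_18_19 (E : Env κ ι) : inn E 1 3 c6_18 c6_19 = dotS (ek E keys) r6_18_19 :=
  innS_eqZ E _ _ _ _ _ _ _ (chkF_sound E keys 1 3 _ _ _ _ t6_18_19_0) (by decide +kernel)

def r6_18_20 : List (ℕ × ℤ) := [(213, -2), (215, -2), (290, 4), (294, 4), (297, -2), (303, -2)]

theorem h6_18_20 (E : Env κ ι) : inn E 1 3 c6_18 c6_20 = dotS (ek E keys) r6_18_20 :=
  innS_eqZ E _ _ _ _ _ _ _ (chkF_sound E keys 1 3 _ _ _ _ t6_18_20_0) (by decide +kernel)

def r6_18_21 : List (ℕ × ℤ) := [(96, -2), (99, -2), (113, 4), (130, 4), (144, -2), (187, -2)]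

theorem h6_18_21 (E : Env κ ι) : inn E 1 3 c6_18 c6_21 = dotS (ek E keys) r6_18_21 :=
  innS_eqZ E _ _ _ _ _ _ _ (chkF_sound E keys 1 3 _ _ _ _ t6_18_21_0) (by decide +kernel)

def r6_18_22 : List (ℕ × ℤ) := [(96, 4), (99, -2), (113, -2), (130, -2), (144, -2), (187, 4)]

theorem h6_18_22 (E : Env κ ι) : inn E 1 3 c6_18 c6_22 = dotS (ek E keys) r6_18_22 :=
  innS_eqZ E _ _ _ _ _ _ _ (chkF_sound E keys 1 3 _ _ _ _ t6_18_22_0) (by decide +kernel)

def r6_18_23 : List (ℕ × ℤ) := [(83, -2), (85, -2), (107, 4), (119, -2), (127, 4), (129, -2)]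

theorem h6_18_23 (E : Env κ ι) : inn E 1 3 c6_18 c6_23 = dotS (ek E keys) r6_18_23 :=
  innS_eqZ E _ _ _ _ _ _ _ (chkF_sound E keys 1 3 _ _ _ _ t6_18_23_0) (by decide +kernel)

def r6_18_24 : List (ℕ × ℤ) := [(83, -2), (85, 4), (107, -2), (119, 4), (127, -2), (129, -2)]

theorem h6_18_24 (E : Env κ ι) : inn E 1 3 c6_18 c6_24 = dotS (ek E keys) r6_18_24 :=
  innS_eqZ E _ _ _ _ _ _ _ (chkF_sound E keys 1 3 _ _ _ _ t6_18_24_0) (by decide +kernel)

def r6_18_25 : List (ℕ × ℤ) := [(48, -2), (53, 4), (58, 4), (86, -2), (120, -2), (134, -2)]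

theorem h6_18_25 (E : Env κ ι) : inn E 1 3 c6_18 c6_25 = dotS (ek E keys) r6_18_25 :=
  innS_eqZ E _ _ _ _ _ _ _ (chkF_sound E keys 1 3 _ _ _ _ t6_18_25_0) (by decide +kernel)

def r6_18_26 : List (ℕ × ℤ) := [(48, 4), (53, -2), (58, -2), (86, -2), (120, 4), (134, -2)]

theorem h6_18_26 (E : Env κ ι) : inn E 1 3 c6_18 c6_26 = dotS (ek E keys) r6_18_26 :=
  innS_eqZ E _ _ _ _ _ _ _ (chkF_sound E keys 1 3 _ _ _ _ t6_18_26_0) (by decide +kernel)

def r6_19_19 : List (ℕ × ℤ) := [(287, -2), (288, -2), (290, 4), (291, -4), (293, 4)]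

theorem h6_19_19 (E : Env κ ι) : inn E 1 3 c6_19 c6_19 = dotS (ek E keys) r6_19_19 :=
  innS_eqZ E _ _ _ _ _ _ _ (chkF_sound E keys 1 3 _ _ _ _ t6_19_19_0) (by decide +kernel)

def r6_19_20 : List (ℕ × ℤ) := [(287, 4), (288, -2), (290, -2), (291, 2), (293, -2)]

theorem h6_19_20 (E : Env κ ι) : inn E 1 3 c6_19 c6_20 = dotS (ek E keys) r6_19_20 :=
  innS_eqZ E _ _ _ _ _ _ _ (chkF_sound E keys 1 3 _ _ _ _ t6_19_20_0) (by decide +kernel)

def r6_19_21 : List (ℕ × ℤ) := [(113, -2), (115, 4), (147, -2), (149, 4), (191, -2), (194, -2)]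

theorem h6_19_21 (E : Env κ ι) : inn E 1 3 c6_19 c6_21 = dotS (ek E keys) r6_19_21 :=
  innS_eqZ E _ _ _ _ _ _ _ (chkF_sound E keys 1 3 _ _ _ _ t6_19_21_0) (by decide +kernel)

def r6_19_22 : List (ℕ × ℤ) := [(113, -2), (115, -2), (147, -2), (149, -2), (191, 4), (194, 4)]

theorem h6_19_22 (E : Env κ ι) : inn E 1 3 c6_19 c6_22 = dotS (ek E keys) r6_19_22 :=
  innS_eqZ E _ _ _ _ _ _ _ (chkF_sound E keys 1 3 _ _ _ _ t6_19_22_0) (by decide +kernel)

def r6_19_23 : List (ℕ × ℤ) := [(104, -2), (107, -2), (109, 4), (112, -2), (121, -2), (139, 4)]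

theorem h6_19_23 (E : Env κ ι) : inn E 1 3 c6_19 c6_23 = dotS (ek E keys) r6_19_23 :=
  innS_eqZ E _ _ _ _ _ _ _ (chkF_sound E keys 1 3 _ _ _ _ t6_19_23_0) (by decide +kernel)

def r6_19_24 : List (ℕ × ℤ) := [(104, 4), (107, -2), (109, -2), (112, -2), (121, 4), (139, -2)]

theorem h6_19_24 (E : Env κ ι) : inn E 1 3 c6_19 c6_24 = dotS (ek E keys) r6_19_24 :=
  innS_eqZ E _ _ _ _ _ _ _ (chkF_sound E keys 1 3 _ _ _ _ t6_19_24_0) (by decide +kernel)

def r6_19_25 : List (ℕ × ℤ) := [(52, 4), (53, -2), (54, 4), (55, -2), (122, -2), (135, -2)]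

theorem h6_19_25 (E : Env κ ι) : inn E 1 3 c6_19 c6_25 = dotS (ek E keys) r6_19_25 :=
  innS_eqZ E _ _ _ _ _ _ _ (chkF_sound E keys 1 3 _ _ _ _ t6_19_25_0) (by decide +kernel)

def r6_19_26 : List (ℕ × ℤ) := [(52, -2), (53, -2), (54, -2), (55, 4), (122, 4), (135, -2)]

theorem h6_19_26 (E : Env κ ι) : inn E 1 3 c6_19 c6_26 = dotS (ek E keys) r6_19_26 :=
  innS_eqZ E _ _ _ _ _ _ _ (chkF_sound E keys 1 3 _ _ _ _ t6_19_26_0) (by decide +kernel)

def r6_20_20 : List (ℕ × ℤ) := [(287, -2), (288, 4), (290, -2), (291, -4), (293, 4)]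

theorem h6_20_20 (E : Env κ ι) : inn E 1 3 c6_20 c6_20 = dotS (ek E keys) r6_20_20 :=
  innS_eqZ E _ _ _ _ _ _ _ (chkF_sound E keys 1 3 _ _ _ _ t6_20_20_0) (by decide +kernel)

def r6_20_21 : List (ℕ × ℤ) := [(113, -2), (115, -2), (147, 4), (149, -2), (191, -2), (194, 4)]

theorem h6_20_21 (E : Env κ ι) : inn E 1 3 c6_20 c6_21 = dotS (ek E keys) r6_20_21 :=
  innS_eqZ E _ _ _ _ _ _ _ (chkF_sound E keys 1 3 _ _ _ _ t6_20_21_0) (by decide +kernel)

def r6_20_22 : List (ℕ × ℤ) := [(113, 4), (115, 4), (147, -2), (149, -2), (191, -2), (194, -2)]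

theorem h6_20_22 (E : Env κ ι) : inn E 1 3 c6_20 c6_22 = dotS (ek E keys) r6_20_22 :=
  innS_eqZ E _ _ _ _ _ _ _ (chkF_sound E keys 1 3 _ _ _ _ t6_20_22_0) (by decide +kernel)

def r6_20_23 : List (ℕ × ℤ) := [(104, 4), (107, -2), (109, -2), (112, 4), (121, -2), (139, -2)]

theorem h6_20_23 (E : Env κ ι) : inn E 1 3 c6_20 c6_23 = dotS (ek E keys) r6_20_23 :=
  innS_eqZ E _ _ _ _ _ _ _ (chkF_sound E keys 1 3 _ _ _ _ t6_20_23_0) (by decide +kernel)

def r6_20_24 : List (ℕ × ℤ) := [(104, -2), (107, 4), (109, 4), (112, -2), (121, -2), (139, -2)]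

theorem h6_20_24 (E : Env κ ι) : inn E 1 3 c6_20 c6_24 = dotS (ek E keys) r6_20_24 :=
  innS_eqZ E _ _ _ _ _ _ _ (chkF_sound E keys 1 3 _ _ _ _ t6_20_24_0) (by decide +kernel)

def r6_20_25 : List (ℕ × ℤ) := [(52, -2), (53, -2), (54, -2), (55, -2), (122, 4), (135, 4)]

theorem h6_20_25 (E : Env κ ι) : inn E 1 3 c6_20 c6_25 = dotS (ek E keys) r6_20_25 :=
  innS_eqZ E _ _ _ _ _ _ _ (chkF_sound E keys 1 3 _ _ _ _ t6_20_25_0) (by decide +kernel)

def r6_20_26 : List (ℕ × ℤ) := [(52, 4), (53, 4), (54, -2), (55, -2), (122, -2), (135, -2)]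

theorem h6_20_26 (E : Env κ ι) : inn E 1 3 c6_20 c6_26 = dotS (ek E keys) r6_20_26 :=
  innS_eqZ E _ _ _ _ _ _ _ (chkF_sound E keys 1 3 _ _ _ _ t6_20_26_0) (by decide +kernel)

def r6_21_21 : List (ℕ × ℤ) := [(243, -2), (245, -4), (255, -2), (309, 4), (364, 4)]

theorem h6_21_21 (E : Env κ ι) : inn E 1 3 c6_21 c6_21 = dotS (ek E keys) r6_21_21 :=
  innS_eqZ E _ _ _ _ _ _ _ (chkF_sound E keys 1 3 _ _ _ _ t6_21_21_0) (by decide +kernel)

def r6_21_22 : List (ℕ × ℤ) := [(243, -2), (245, 2), (255, 4), (309, -2), (364, -2)]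

theorem h6_21_22 (E : Env κ ι) : inn E 1 3 c6_21 c6_22 = dotS (ek E keys) r6_21_22 :=
  innS_eqZ E _ _ _ _ _ _ _ (chkF_sound E keys 1 3 _ _ _ _ t6_21_22_0) (by decide +kernel)

def r6_21_23 : List (ℕ × ℤ) := [(235, -2), (236, -2), (311, -2), (321, 4), (327, -2), (365, 4)]

theorem h6_21_23 (E : Env κ ι) : inn E 1 3 c6_21 c6_23 = dotS (ek E keys) r6_21_23 :=
  innS_eqZ E _ _ _ _ _ _ _ (chkF_sound E keys 1 3 _ _ _ _ t6_21_23_0) (by decide +kernel)

def r6_21_24 : List (ℕ × ℤ) := [(235, 4), (236, -2), (311, -2), (321, -2), (327, 4), (365, -2)]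

theorem h6_21_24 (E : Env κ ι) : inn E 1 3 c6_21 c6_24 = dotS (ek E keys) r6_21_24 :=
  innS_eqZ E _ _ _ _ _ _ _ (chkF_sound E keys 1 3 _ _ _ _ t6_21_24_0) (by decide +kernel)

def r6_21_25 : List (ℕ × ℤ) := [(237, -2), (244, -2), (252, -2), (257, -2), (322, 4), (366, 4)]

theorem h6_21_25 (E : Env κ ι) : inn E 1 3 c6_21 c6_25 = dotS (ek E keys) r6_21_25 :=
  innS_eqZ E _ _ _ _ _ _ _ (chkF_sound E keys 1 3 _ _ _ _ t6_21_25_0) (by decide +kernel)

def r6_21_26 : List (ℕ × ℤ) := [(237, 4), (244, -2), (252, -2), (257, 4), (322, -2), (366, -2)]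

theorem h6_21_26 (E : Env κ ι) : inn E 1 3 c6_21 c6_26 = dotS (ek E keys) r6_21_26 :=
  innS_eqZ E _ _ _ _ _ _ _ (chkF_sound E keys 1 3 _ _ _ _ t6_21_26_0) (by decide +kernel)

def r6_22_22 : List (ℕ × ℤ) := [(243, 4), (245, -4), (255, -2), (309, -2), (364, 4)]

theorem h6_22_22 (E : Env κ ι) : inn E 1 3 c6_22 c6_22 = dotS (ek E keys) r6_22_22 :=
  innS_eqZ E _ _ _ _ _ _ _ (chkF_sound E keys 1 3 _ _ _ _ t6_22_22_0) (by decide +kernel)

def r6_22_23 : List (ℕ × ℤ) := [(235, -2), (236, -2), (311, 4), (321, -2), (327, 4), (365, -2)]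

theorem h6_22_23 (E : Env κ ι) : inn E 1 3 c6_22 c6_23 = dotS (ek E keys) r6_22_23 :=
  innS_eqZ E _ _ _ _ _ _ _ (chkF_sound E keys 1 3 _ _ _ _ t6_22_23_0) (by decide +kernel)

def r6_22_24 : List (ℕ × ℤ) := [(235, -2), (236, 4), (311, -2), (321, -2), (327, -2), (365, 4)]

theorem h6_22_24 (E : Env κ ι) : inn E 1 3 c6_22 c6_24 = dotS (ek E keys) r6_22_24 :=
  innS_eqZ E _ _ _ _ _ _ _ (chkF_sound E keys 1 3 _ _ _ _ t6_22_24_0) (by decide +kernel)

def r6_22_25 : List (ℕ × ℤ) := [(237, -2), (244, -2), (252, 4), (257, 4), (322, -2), (366, -2)]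

theorem h6_22_25 (E : Env κ ι) : inn E 1 3 c6_22 c6_25 = dotS (ek E keys) r6_22_25 :=
  innS_eqZ E _ _ _ _ _ _ _ (chkF_sound E keys 1 3 _ _ _ _ t6_22_25_0) (by decide +kernel)

def r6_22_26 : List (ℕ × ℤ) := [(237, -2), (244, 4), (252, -2), (257, -2), (322, -2), (366, 4)]

theorem h6_22_26 (E : Env κ ι) : inn E 1 3 c6_22 c6_26 = dotS (ek E keys) r6_22_26 :=
  innS_eqZ E _ _ _ _ _ _ _ (chkF_sound E keys 1 3 _ _ _ _ t6_22_26_0) (by decide +kernel)

def r6_23_23 : List (ℕ × ℤ) := [(235, -2), (238, -4), (255, -2), (315, 4), (347, 4)]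

theorem h6_23_23 (E : Env κ ι) : inn E 1 3 c6_23 c6_23 = dotS (ek E keys) r6_23_23 :=
  innS_eqZ E _ _ _ _ _ _ _ (chkF_sound E keys 1 3 _ _ _ _ t6_23_23_0) (by decide +kernel)

def r6_23_24 : List (ℕ × ℤ) := [(235, -2), (238, 2), (255, 4), (315, -2), (347, -2)]

theorem h6_23_24 (E : Env κ ι) : inn E 1 3 c6_23 c6_24 = dotS (ek E keys) r6_23_24 :=
  innS_eqZ E _ _ _ _ _ _ _ (chkF_sound E keys 1 3 _ _ _ _ t6_23_24_0) (by decide +kernel)

def r6_23_25 : List (ℕ × ℤ) := [(237, -2), (240, -2), (252, -2), (257, -2), (316, 4), (350, 4)]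

theorem h6_23_25 (E : Env κ ι) : inn E 1 3 c6_23 c6_25 = dotS (ek E keys) r6_23_25 :=
  innS_eqZ E _ _ _ _ _ _ _ (chkF_sound E keys 1 3 _ _ _ _ t6_23_25_0) (by decide +kernel)

def r6_23_26 : List (ℕ × ℤ) := [(237, -2), (240, -2), (252, 4), (257, 4), (316, -2), (350, -2)]

theorem h6_23_26 (E : Env κ ι) : inn E 1 3 c6_23 c6_26 = dotS (ek E keys) r6_23_26 :=
  innS_eqZ E _ _ _ _ _ _ _ (chkF_sound E keys 1 3 _ _ _ _ t6_23_26_0) (by decide +kernel)

def r6_24_24 : List (ℕ × ℤ) := [(235, 4), (238, -4), (255, -2), (315, -2), (347, 4)]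

theorem h6_24_24 (E : Env κ ι) : inn E 1 3 c6_24 c6_24 = dotS (ek E keys) r6_24_24 :=
  innS_eqZ E _ _ _ _ _ _ _ (chkF_sound E keys 1 3 _ _ _ _ t6_24_24_0) (by decide +kernel)

def r6_24_25 : List (ℕ × ℤ) := [(237, -2), (240, 4), (252, -2), (257, 4), (316, -2), (350, -2)]

theorem h6_24_25 (E : Env κ ι) : inn E 1 3 c6_24 c6_25 = dotS (ek E keys) r6_24_25 :=
  innS_eqZ E _ _ _ _ _ _ _ (chkF_sound E keys 1 3 _ _ _ _ t6_24_25_0) (by decide +kernel)

def r6_24_26 : List (ℕ × ℤ) := [(237, 4), (240, -2), (252, -2), (257, -2), (316, -2), (350, 4)]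

theorem h6_24_26 (E : Env κ ι) : inn E 1 3 c6_24 c6_26 = dotS (ek E keys) r6_24_26 :=
  innS_eqZ E _ _ _ _ _ _ _ (chkF_sound E keys 1 3 _ _ _ _ t6_24_26_0) (by decide +kernel)

def r6_25_25 : List (ℕ × ℤ) := [(241, -4), (247, -2), (264, -2), (317, 4), (352, 4)]

theorem h6_25_25 (E : Env κ ι) : inn E 1 3 c6_25 c6_25 = dotS (ek E keys) r6_25_25 :=
  innS_eqZ E _ _ _ _ _ _ _ (chkF_sound E keys 1 3 _ _ _ _ t6_25_25_0) (by decide +kernel)

def r6_25_26 : List (ℕ × ℤ) := [(241, 2), (247, -2), (264, 4), (317, -2), (352, -2)]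

theorem h6_25_26 (E : Env κ ι) : inn E 1 3 c6_25 c6_26 = dotS (ek E keys) r6_25_26 :=
  innS_eqZ E _ _ _ _ _ _ _ (chkF_sound E keys 1 3 _ _ _ _ t6_25_26_0) (by decide +kernel)

def r6_26_26 : List (ℕ × ℤ) := [(241, -4), (247, 4), (264, -2), (317, -2), (352, 4)]

theorem h6_26_26 (E : Env κ ι) : inn E 1 3 c6_26 c6_26 = dotS (ek E keys) r6_26_26 :=
  innS_eqZ E _ _ _ _ _ _ _ (chkF_sound E keys 1 3 _ _ _ _ t6_26_26_0) (by decide +kernel)

theorem row6_0 (E : Env κ ι) : RowS E 1 3 (ek E keys) c6_0 [c6_0, c6_1, c6_2, c6_3, c6_4, c6_5, c6_6, c6_7, c6_8, c6_9, c6_10, c6_11, c6_12, c6_13, c6_14, c6_15, c6_16, c6_17, c6_18, c6_19, c6_20, c6_21, c6_22, c6_23, c6_24, c6_25, c6_26] [r6_0_0, r6_0_1, r6_0_2, r6_0_3, r6_0_4, r6_0_5, r6_0_6, r6_0_7, r6_0_8, r6_0_9, r6_0_10, r6_0_11, r6_0_12, r6_0_13, r6_0_14, r6_0_15, r6_0_16, r6_0_17, r6_0_18, r6_0_19, r6_0_20, r6_0_21, r6_0_22, r6_0_23, r6_0_24, r6_0_25, r6_0_26]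 :=
  rowS_cons E _ _ _ _ _ _ _ _ (h6_0_0 E) (rowS_cons E _ _ _ _ _ _ _ _ (h6_0_1 E) (rowS_cons E _ _ _ _ _ _ _ _ (h6_0_2 E) (rowS_cons E _ _ _ _ _ _ _ _ (h6_0_3 E) (rowS_cons E _ _ _ _ _ _ _ _ (h6_0_4 E) (rowS_cons E _ _ _ _ _ _ _ _ (h6_0_5 E) (rowS_cons E _ _ _ _ _ _ _ _ (h6_0_6 E) (rowS_cons E _ _ _ _ _ _ _ _ (h6_0_7 E) (rowS_cons E _ _ _ _ _ _ _ _ (h6_0_8 E) (rowS_cons E _ _ _ _ _ _ _ _ (h6_0_9 E) (rowS_cons E _ _ _ _ _ _ _ _ (h6_0_10 E) (rowS_cons E _ _ _ _ _ _ _ _ (h6_0_11 E) (rowS_cons E _ _ _ _ _ _ _ _ (h6_0_12 E) (rowS_cons E _ _ _ _ _ _ _ _ (h6_0_13 E) (rowS_cons E _ _ _ _ _ _ _ _ (h6_0_14 E) (rowS_cons E _ _ _ _ _ _ _ _ (h6_0_15 E) (rowS_cons E _ _ _ _ _ _ _ _ (h6_0_16 E) (rowS_cons E _ _ _ _ _ _ _ _ (h6_0_17 E) (rowS_cons E _ _ _ _ _ _ _ _ (h6_0_18 E) (rowS_cons E _ _ _ _ _ _ _ _ (h6_0_19 E) (rowS_cons E _ _ _ _ _ _ _ _ (h6_0_20 E) (rowS_cons E _ _ _ _ _ _ _ _ (h6_0_21 E) (rowS_cons E _ _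 _ _ _ _ _ _ (h6_0_22 E) (rowS_cons E _ _ _ _ _ _ _ _ (h6_0_23 E) (rowS_cons E _ _ _ _ _ _ _ _ (h6_0_24 E) (rowS_cons E _ _ _ _ _ _ _ _ (h6_0_25 E) (rowS_cons E _ _ _ _ _ _ _ _ (h6_0_26 E) (rowS_nil E _ _ _ _)))))))))))))))))))))))))))

theorem row6_1 (E : Env κ ι) : RowS E 1 3 (ek E keys) c6_1 [c6_1, c6_2, c6_3, c6_4, c6_5, c6_6, c6_7, c6_8, c6_9, c6_10, c6_11, c6_12, c6_13, c6_14, c6_15, c6_16, c6_17, c6_18, c6_19, c6_20, c6_21, c6_22, c6_23, c6_24, c6_25, c6_26] [r6_1_1, r6_1_2, r6_1_3, r6_1_4, r6_1_5, r6_1_6, r6_1_7, r6_1_8, r6_1_9, r6_1_10, r6_1_11, r6_1_12, r6_1_13, r6_1_14, r6_1_15, r6_1_16, r6_1_17, r6_1_18, r6_1_19, r6_1_20, r6_1_21, r6_1_22, r6_1_23, r6_1_24, r6_1_25, r6_1_26] :=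
  rowS_cons E _ _ _ _ _ _ _ _ (h6_1_1 E) (rowS_cons E _ _ _ _ _ _ _ _ (h6_1_2 E) (rowS_cons E _ _ _ _ _ _ _ _ (h6_1_3 E) (rowS_cons E _ _ _ _ _ _ _ _ (h6_1_4 E) (rowS_cons E _ _ _ _ _ _ _ _ (h6_1_5 E) (rowS_cons E _ _ _ _ _ _ _ _ (h6_1_6 E) (rowS_cons E _ _ _ _ _ _ _ _ (h6_1_7 E) (rowS_cons E _ _ _ _ _ _ _ _ (h6_1_8 E) (rowS_cons E _ _ _ _ _ _ _ _ (h6_1_9 E) (rowS_cons E _ _ _ _ _ _ _ _ (h6_1_10 E) (rowS_cons E _ _ _ _ _ _ _ _ (h6_1_11 E) (rowS_cons E _ _ _ _ _ _ _ _ (h6_1_12 E) (rowS_cons E _ _ _ _ _ _ _ _ (h6_1_13 E) (rowS_cons E _ _ _ _ _ _ _ _ (h6_1_14 E) (rowS_cons E _ _ _ _ _ _ _ _ (h6_1_15 E) (rowS_cons E _ _ _ _ _ _ _ _ (h6_1_16 E) (rowS_cons E _ _ _ _ _ _ _ _ (h6_1_17 E) (rowS_cons E _ _ _ _ _ _ _ _ (h6_1_18 E) (rowS_cons E _ _ _ _ _ _ _ _ (h6_1_19 E) (rowS_cons E _ _ _ _ _ _ _ _ (h6_1_20 E) (rowS_cons E _ _ _ _ _ _ _ _ (h6_1_21 E) (rowS_cons E _ _ _ _ _ _ _ _ (h6_1_22 E) (rowS_cons E _ _ _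 _ _ _ _ _ (h6_1_23 E) (rowS_cons E _ _ _ _ _ _ _ _ (h6_1_24 E) (rowS_cons E _ _ _ _ _ _ _ _ (h6_1_25 E) (rowS_cons E _ _ _ _ _ _ _ _ (h6_1_26 E) (rowS_nil E _ _ _ _))))))))))))))))))))))))))

theorem row6_2 (E : Env κ ι) : RowS E 1 3 (ek E keys) c6_2 [c6_2, c6_3, c6_4, c6_5, c6_6, c6_7, c6_8, c6_9, c6_10, c6_11, c6_12, c6_13, c6_14, c6_15, c6_16, c6_17, c6_18, c6_19, c6_20, c6_21, c6_22, c6_23, c6_24, c6_25, c6_26] [r6_2_2, r6_2_3, r6_2_4, r6_2_5, r6_2_6, r6_2_7, r6_2_8, r6_2_9, r6_2_10, r6_2_11, r6_2_12, r6_2_13, r6_2_14, r6_2_15, r6_2_16, r6_2_17, r6_2_18, r6_2_19, r6_2_20, r6_2_21, r6_2_22, r6_2_23, r6_2_24, r6_2_25, r6_2_26] :=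
  rowS_cons E _ _ _ _ _ _ _ _ (h6_2_2 E) (rowS_cons E _ _ _ _ _ _ _ _ (h6_2_3 E) (rowS_cons E _ _ _ _ _ _ _ _ (h6_2_4 E) (rowS_cons E _ _ _ _ _ _ _ _ (h6_2_5 E) (rowS_cons E _ _ _ _ _ _ _ _ (h6_2_6 E) (rowS_cons E _ _ _ _ _ _ _ _ (h6_2_7 E) (rowS_cons E _ _ _ _ _ _ _ _ (h6_2_8 E) (rowS_cons E _ _ _ _ _ _ _ _ (h6_2_9 E) (rowS_cons E _ _ _ _ _ _ _ _ (h6_2_10 E) (rowS_cons E _ _ _ _ _ _ _ _ (h6_2_11 E) (rowS_cons E _ _ _ _ _ _ _ _ (h6_2_12 E) (rowS_cons E _ _ _ _ _ _ _ _ (h6_2_13 E) (rowS_cons E _ _ _ _ _ _ _ _ (h6_2_14 E) (rowS_cons E _ _ _ _ _ _ _ _ (h6_2_15 E) (rowS_cons E _ _ _ _ _ _ _ _ (h6_2_16 E) (rowS_cons E _ _ _ _ _ _ _ _ (h6_2_17 E) (rowS_cons E _ _ _ _ _ _ _ _ (h6_2_18 E) (rowS_cons E _ _ _ _ _ _ _ _ (h6_2_19 E) (rowS_cons E _ _ _ _ _ _ _ _ (h6_2_20 E) (rowS_cons E _ _ _ _ _ _ _ _ (h6_2_21 E) (rowS_cons E _ _ _ _ _ _ _ _ (h6_2_22 E) (rowS_cons E _ _ _ _ _ _ _ _ (h6_2_23 E) (rowS_cons E _ _ _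 _ _ _ _ _ (h6_2_24 E) (rowS_cons E _ _ _ _ _ _ _ _ (h6_2_25 E) (rowS_cons E _ _ _ _ _ _ _ _ (h6_2_26 E) (rowS_nil E _ _ _ _)))))))))))))))))))))))))

theorem row6_3 (E : Env κ ι) : RowS E 1 3 (ek E keys) c6_3 [c6_3, c6_4, c6_5, c6_6, c6_7, c6_8, c6_9, c6_10, c6_11, c6_12, c6_13, c6_14, c6_15, c6_16, c6_17, c6_18, c6_19, c6_20, c6_21, c6_22, c6_23, c6_24, c6_25, c6_26] [r6_3_3, r6_3_4, r6_3_5, r6_3_6, r6_3_7, r6_3_8, r6_3_9, r6_3_10, r6_3_11, r6_3_12, r6_3_13, r6_3_14, r6_3_15, r6_3_16, r6_3_17, r6_3_18, r6_3_19, r6_3_20, r6_3_21, r6_3_22, r6_3_23, r6_3_24, r6_3_25, r6_3_26] :=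
  rowS_cons E _ _ _ _ _ _ _ _ (h6_3_3 E) (rowS_cons E _ _ _ _ _ _ _ _ (h6_3_4 E) (rowS_cons E _ _ _ _ _ _ _ _ (h6_3_5 E) (rowS_cons E _ _ _ _ _ _ _ _ (h6_3_6 E) (rowS_cons E _ _ _ _ _ _ _ _ (h6_3_7 E) (rowS_cons E _ _ _ _ _ _ _ _ (h6_3_8 E) (rowS_cons E _ _ _ _ _ _ _ _ (h6_3_9 E) (rowS_cons E _ _ _ _ _ _ _ _ (h6_3_10 E) (rowS_cons E _ _ _ _ _ _ _ _ (h6_3_11 E) (rowS_cons E _ _ _ _ _ _ _ _ (h6_3_12 E) (rowS_cons E _ _ _ _ _ _ _ _ (h6_3_13 E) (rowS_cons E _ _ _ _ _ _ _ _ (h6_3_14 E) (rowS_cons E _ _ _ _ _ _ _ _ (h6_3_15 E) (rowS_cons E _ _ _ _ _ _ _ _ (h6_3_16 E) (rowS_cons E _ _ _ _ _ _ _ _ (h6_3_17 E) (rowS_cons E _ _ _ _ _ _ _ _ (h6_3_18 E) (rowS_cons E _ _ _ _ _ _ _ _ (h6_3_19 E) (rowS_cons E _ _ _ _ _ _ _ _ (h6_3_20 E) (rowS_cons E _ _ _ _ _ _ _ _ (h6_3_21 E) (rowS_cons E _ _ _ _ _ _ _ _ (h6_3_22 E) (rowS_cons E _ _ _ _ _ _ _ _ (h6_3_23 E) (rowS_cons E _ _ _ _ _ _ _ _ (h6_3_24 E) (rowS_cons E _ _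 _ _ _ _ _ _ (h6_3_25 E) (rowS_cons E _ _ _ _ _ _ _ _ (h6_3_26 E) (rowS_nil E _ _ _ _))))))))))))))))))))))))

theorem row6_4 (E : Env κ ι) : RowS E 1 3 (ek E keys) c6_4 [c6_4, c6_5, c6_6, c6_7, c6_8, c6_9, c6_10, c6_11, c6_12, c6_13, c6_14, c6_15, c6_16, c6_17, c6_18, c6_19, c6_20, c6_21, c6_22, c6_23, c6_24, c6_25, c6_26] [r6_4_4, r6_4_5, r6_4_6, r6_4_7, r6_4_8, r6_4_9, r6_4_10, r6_4_11, r6_4_12, r6_4_13, r6_4_14, r6_4_15, r6_4_16, r6_4_17, r6_4_18, r6_4_19, r6_4_20, r6_4_21, r6_4_22, r6_4_23, r6_4_24, r6_4_25, r6_4_26] :=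
  rowS_cons E _ _ _ _ _ _ _ _ (h6_4_4 E) (rowS_cons E _ _ _ _ _ _ _ _ (h6_4_5 E) (rowS_cons E _ _ _ _ _ _ _ _ (h6_4_6 E) (rowS_cons E _ _ _ _ _ _ _ _ (h6_4_7 E) (rowS_cons E _ _ _ _ _ _ _ _ (h6_4_8 E) (rowS_cons E _ _ _ _ _ _ _ _ (h6_4_9 E) (rowS_cons E _ _ _ _ _ _ _ _ (h6_4_10 E) (rowS_cons E _ _ _ _ _ _ _ _ (h6_4_11 E) (rowS_cons E _ _ _ _ _ _ _ _ (h6_4_12 E) (rowS_cons E _ _ _ _ _ _ _ _ (h6_4_13 E) (rowS_cons E _ _ _ _ _ _ _ _ (h6_4_14 E) (rowS_cons E _ _ _ _ _ _ _ _ (h6_4_15 E) (rowS_cons E _ _ _ _ _ _ _ _ (h6_4_16 E) (rowS_cons E _ _ _ _ _ _ _ _ (h6_4_17 E) (rowS_cons E _ _ _ _ _ _ _ _ (h6_4_18 E) (rowS_cons E _ _ _ _ _ _ _ _ (h6_4_19 E) (rowS_cons E _ _ _ _ _ _ _ _ (h6_4_20 E) (rowS_cons E _ _ _ _ _ _ _ _ (h6_4_21 E) (rowS_cons E _ _ _ _ _ _ _ _ (h6_4_22 E) (rowS_cons E _ _ _ _ _ _ _ _ (h6_4_23 E) (rowS_cons E _ _ _ _ _ _ _ _ (h6_4_24 E) (rowS_cons E _ _ _ _ _ _ _ _ (h6_4_25 E) (rowS_cons E _ _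 _ _ _ _ _ _ (h6_4_26 E) (rowS_nil E _ _ _ _)))))))))))))))))))))))

theorem row6_5 (E : Env κ ι) : RowS E 1 3 (ek E keys) c6_5 [c6_5, c6_6, c6_7, c6_8, c6_9, c6_10, c6_11, c6_12, c6_13, c6_14, c6_15, c6_16, c6_17, c6_18, c6_19, c6_20, c6_21, c6_22, c6_23, c6_24, c6_25, c6_26] [r6_5_5, r6_5_6, r6_5_7, r6_5_8, r6_5_9, r6_5_10, r6_5_11, r6_5_12, r6_5_13, r6_5_14, r6_5_15, r6_5_16, r6_5_17, r6_5_18, r6_5_19, r6_5_20, r6_5_21, r6_5_22, r6_5_23, r6_5_24, r6_5_25, r6_5_26] :=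
  rowS_cons E _ _ _ _ _ _ _ _ (h6_5_5 E) (rowS_cons E _ _ _ _ _ _ _ _ (h6_5_6 E) (rowS_cons E _ _ _ _ _ _ _ _ (h6_5_7 E) (rowS_cons E _ _ _ _ _ _ _ _ (h6_5_8 E) (rowS_cons E _ _ _ _ _ _ _ _ (h6_5_9 E) (rowS_cons E _ _ _ _ _ _ _ _ (h6_5_10 E) (rowS_cons E _ _ _ _ _ _ _ _ (h6_5_11 E) (rowS_cons E _ _ _ _ _ _ _ _ (h6_5_12 E) (rowS_cons E _ _ _ _ _ _ _ _ (h6_5_13 E) (rowS_cons E _ _ _ _ _ _ _ _ (h6_5_14 E) (rowS_cons E _ _ _ _ _ _ _ _ (h6_5_15 E) (rowS_cons E _ _ _ _ _ _ _ _ (h6_5_16 E) (rowS_cons E _ _ _ _ _ _ _ _ (h6_5_17 E) (rowS_cons E _ _ _ _ _ _ _ _ (h6_5_18 E) (rowS_cons E _ _ _ _ _ _ _ _ (h6_5_19 E) (rowS_cons E _ _ _ _ _ _ _ _ (h6_5_20 E) (rowS_cons E _ _ _ _ _ _ _ _ (h6_5_21 E) (rowS_cons E _ _ _ _ _ _ _ _ (h6_5_22 E) (rowS_cons E _ _ _ _ _ _ _ _ (h6_5_23 E) (rowS_cons E _ _ _ _ _ _ _ _ (h6_5_24 E) (rowS_cons E _ _ _ _ _ _ _ _ (h6_5_25 E) (rowS_cons E _ _ _ _ _ _ _ _ (h6_5_26 E) (rowS_nil E _ _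 _ _))))))))))))))))))))))

theorem row6_6 (E : Env κ ι) : RowS E 1 3 (ek E keys) c6_6 [c6_6, c6_7, c6_8, c6_9, c6_10, c6_11, c6_12, c6_13, c6_14, c6_15, c6_16, c6_17, c6_18, c6_19, c6_20, c6_21, c6_22, c6_23, c6_24, c6_25, c6_26] [r6_6_6, r6_6_7, r6_6_8, r6_6_9, r6_6_10, r6_6_11, r6_6_12, r6_6_13, r6_6_14, r6_6_15, r6_6_16, r6_6_17, r6_6_18, r6_6_19, r6_6_20, r6_6_21, r6_6_22, r6_6_23, r6_6_24, r6_6_25, r6_6_26] :=
  rowS_cons E _ _ _ _ _ _ _ _ (h6_6_6 E) (rowS_cons E _ _ _ _ _ _ _ _ (h6_6_7 E) (rowS_cons E _ _ _ _ _ _ _ _ (h6_6_8 E) (rowS_cons E _ _ _ _ _ _ _ _ (h6_6_9 E) (rowS_cons E _ _ _ _ _ _ _ _ (h6_6_10 E) (rowS_cons E _ _ _ _ _ _ _ _ (h6_6_11 E) (rowS_cons E _ _ _ _ _ _ _ _ (h6_6_12 E) (rowS_cons E _ _ _ _ _ _ _ _ (h6_6_13 E) (rowS_cons E _ _ _ _ _ _ _ _ (h6_6_14 E) (rowS_cons E _ _ _ _ _ _ _ _ (h6_6_15 E) (rowS_cons E _ _ _ _ _ _ _ _ (h6_6_16 E) (rowS_cons E _ _ _ _ _ _ _ _ (h6_6_17 E) (rowS_cons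 E _ _ _ _ _ _ _ _ (h6_6_18 E) (rowS_cons E _ _ _ _ _ _ _ _ (h6_6_19 E) (rowS_cons E _ _ _ _ _ _ _ _ (h6_6_20 E) (rowS_cons E _ _ _ _ _ _ _ _ (h6_6_21 E) (rowS_cons E _ _ _ _ _ _ _ _ (h6_6_22 E) (rowS_cons E _ _ _ _ _ _ _ _ (h6_6_23 E) (rowS_cons E _ _ _ _ _ _ _ _ (h6_6_24 E) (rowS_cons E _ _ _ _ _ _ _ _ (h6_6_25 E) (rowS_cons E _ _ _ _ _ _ _ _ (h6_6_26 E) (rowS_nil E _ _ _ _)))))))))))))))))))))

theorem row6_7 (E : Env κ ι) : RowS E 1 3 (ek E keys) c6_7 [c6_7, c6_8, c6_9, c6_10, c6_11, c6_12, c6_13, c6_14, c6_15, c6_16, c6_17, c6_18, c6_19, c6_20, c6_21, c6_22, c6_23, c6_24, c6_25, c6_26] [r6_7_7, r6_7_8, r6_7_9, r6_7_10, r6_7_11, r6_7_12, r6_7_13, r6_7_14, r6_7_15, r6_7_16, r6_7_17, r6_7_18, r6_7_19, r6_7_20, r6_7_21, r6_7_22, r6_7_23, r6_7_24, r6_7_25, r6_7_26] :=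
  rowS_cons E _ _ _ _ _ _ _ _ (h6_7_7 E) (rowS_cons E _ _ _ _ _ _ _ _ (h6_7_8 E) (rowS_cons E _ _ _ _ _ _ _ _ (h6_7_9 E) (rowS_cons E _ _ _ _ _ _ _ _ (h6_7_10 E) (rowS_cons E _ _ _ _ _ _ _ _ (h6_7_11 E) (rowS_cons E _ _ _ _ _ _ _ _ (h6_7_12 E) (rowS_cons E _ _ _ _ _ _ _ _ (h6_7_13 E) (rowS_cons E _ _ _ _ _ _ _ _ (h6_7_14 E) (rowS_cons E _ _ _ _ _ _ _ _ (h6_7_15 E) (rowS_cons E _ _ _ _ _ _ _ _ (h6_7_16 E) (rowS_cons E _ _ _ _ _ _ _ _ (h6_7_17 E) (rowS_cons E _ _ _ _ _ _ _ _ (h6_7_18 E) (rowS_cons E _ _ _ _ _ _ _ _ (h6_7_19 E) (rowS_cons E _ _ _ _ _ _ _ _ (h6_7_20 E) (rowS_cons E _ _ _ _ _ _ _ _ (h6_7_21 E) (rowS_cons E _ _ _ _ _ _ _ _ (h6_7_22 E) (rowS_cons E _ _ _ _ _ _ _ _ (h6_7_23 E) (rowS_cons E _ _ _ _ _ _ _ _ (h6_7_24 E) (rowS_cons E _ _ _ _ _ _ _ _ (h6_7_25 E) (rowS_cons E _ _ _ _ _ _ _ _ (h6_7_26 E) (rowS_nil E _ _ _ _))))))))))))))))))))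

theorem row6_8 (E : Env κ ι) : RowS E 1 3 (ek E keys) c6_8 [c6_8, c6_9, c6_10, c6_11, c6_12, c6_13, c6_14, c6_15, c6_16, c6_17, c6_18, c6_19, c6_20, c6_21, c6_22, c6_23, c6_24, c6_25, c6_26] [r6_8_8, r6_8_9, r6_8_10, r6_8_11, r6_8_12, r6_8_13, r6_8_14, r6_8_15, r6_8_16, r6_8_17, r6_8_18, r6_8_19, r6_8_20, r6_8_21, r6_8_22, r6_8_23, r6_8_24, r6_8_25, r6_8_26] :=
  rowS_cons E _ _ _ _ _ _ _ _ (h6_8_8 E) (rowS_cons E _ _ _ _ _ _ _ _ (h6_8_9 E) (rowS_cons E _ _ _ _ _ _ _ _ (h6_8_10 E) (rowS_cons E _ _ _ _ _ _ _ _ (h6_8_11 E) (rowS_cons E _ _ _ _ _ _ _ _ (h6_8_12 E) (rowS_cons E _ _ _ _ _ _ _ _ (h6_8_13 E) (rowS_cons E _ _ _ _ _ _ _ _ (h6_8_14 E) (rowS_cons E _ _ _ _ _ _ _ _ (h6_8_15 E) (rowS_cons E _ _ _ _ _ _ _ _ (h6_8_16 E) (rowS_cons E _ _ _ _ _ _ _ _ (h6_8_17 E) (rowS_cons E _ _ _ _ _ _ _ _ (h6_8_18 E) (rowS_cons E _ _ _ _ _ _ _ _ (h6_8_19 E) (rowS_cons E _ _ _ _ _ _ _ _ (h6_8_20 E) (rowS_cons E _ _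 _ _ _ _ _ _ (h6_8_21 E) (rowS_cons E _ _ _ _ _ _ _ _ (h6_8_22 E) (rowS_cons E _ _ _ _ _ _ _ _ (h6_8_23 E) (rowS_cons E _ _ _ _ _ _ _ _ (h6_8_24 E) (rowS_cons E _ _ _ _ _ _ _ _ (h6_8_25 E) (rowS_cons E _ _ _ _ _ _ _ _ (h6_8_26 E) (rowS_nil E _ _ _ _)))))))))))))))))))

theorem row6_9 (E : Env κ ι) : RowS E 1 3 (ek E keys) c6_9 [c6_9, c6_10, c6_11, c6_12, c6_13, c6_14, c6_15, c6_16, c6_17, c6_18, c6_19, c6_20, c6_21, c6_22, c6_23, c6_24, c6_25, c6_26] [r6_9_9, r6_9_10, r6_9_11, r6_9_12, r6_9_13, r6_9_14, r6_9_15, r6_9_16, r6_9_17, r6_9_18, r6_9_19, r6_9_20, r6_9_21, r6_9_22, r6_9_23, r6_9_24, r6_9_25, r6_9_26] :=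
  rowS_cons E _ _ _ _ _ _ _ _ (h6_9_9 E) (rowS_cons E _ _ _ _ _ _ _ _ (h6_9_10 E) (rowS_cons E _ _ _ _ _ _ _ _ (h6_9_11 E) (rowS_cons E _ _ _ _ _ _ _ _ (h6_9_12 E) (rowS_cons E _ _ _ _ _ _ _ _ (h6_9_13 E) (rowS_cons E _ _ _ _ _ _ _ _ (h6_9_14 E) (rowS_cons E _ _ _ _ _ _ _ _ (h6_9_15 E) (rowS_cons E _ _ _ _ _ _ _ _ (h6_9_16 E) (rowS_cons E _ _ _ _ _ _ _ _ (h6_9_17 E) (rowS_cons E _ _ _ _ _ _ _ _ (h6_9_18 E) (rowS_cons E _ _ _ _ _ _ _ _ (h6_9_19 E) (rowS_cons E _ _ _ _ _ _ _ _ (h6_9_20 E) (rowS_cons E _ _ _ _ _ _ _ _ (h6_9_21 E) (rowS_cons E _ _ _ _ _ _ _ _ (h6_9_22 E) (rowS_cons E _ _ _ _ _ _ _ _ (h6_9_23 E) (rowS_cons E _ _ _ _ _ _ _ _ (h6_9_24 E) (rowS_cons E _ _ _ _ _ _ _ _ (h6_9_25 E) (rowS_cons E _ _ _ _ _ _ _ _ (h6_9_26 E) (rowS_nil E _ _ _ _))))))))))))))))))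

theorem row6_10 (E : Env κ ι) : RowS E 1 3 (ek E keys) c6_10 [c6_10, c6_11, c6_12, c6_13, c6_14, c6_15, c6_16, c6_17, c6_18, c6_19, c6_20, c6_21, c6_22, c6_23, c6_24, c6_25, c6_26] [r6_10_10, r6_10_11, r6_10_12, r6_10_13, r6_10_14, r6_10_15, r6_10_16, r6_10_17, r6_10_18, r6_10_19, r6_10_20, r6_10_21, r6_10_22, r6_10_23, r6_10_24, r6_10_25, r6_10_26] :=
  rowS_cons E _ _ _ _ _ _ _ _ (h6_10_10 E) (rowS_cons E _ _ _ _ _ _ _ _ (h6_10_11 E) (rowS_cons E _ _ _ _ _ _ _ _ (h6_10_12 E) (rowS_cons E _ _ _ _ _ _ _ _ (h6_10_13 E) (rowS_cons E _ _ _ _ _ _ _ _ (h6_10_14 E) (rowS_cons E _ _ _ _ _ _ _ _ (h6_10_15 E) (rowS_cons E _ _ _ _ _ _ _ _ (h6_10_16 E) (rowS_cons E _ _ _ _ _ _ _ _ (h6_10_17 E) (rowS_cons E _ _ _ _ _ _ _ _ (h6_10_18 E) (rowS_cons E _ _ _ _ _ _ _ _ (h6_10_19 E) (rowS_cons E _ _ _ _ _ _ _ _ (h6_10_20 E) (rowS_cons E _ _ _ _ _ _ _ _ (h6_10_21 E) (rowS_cons E _ _ _ _ _ _ _ _ (h6_10_22 E) (rowS_cons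 E _ _ _ _ _ _ _ _ (h6_10_23 E) (rowS_cons E _ _ _ _ _ _ _ _ (h6_10_24 E) (rowS_cons E _ _ _ _ _ _ _ _ (h6_10_25 E) (rowS_cons E _ _ _ _ _ _ _ _ (h6_10_26 E) (rowS_nil E _ _ _ _)))))))))))))))))

theorem row6_11 (E : Env κ ι) : RowS E 1 3 (ek E keys) c6_11 [c6_11, c6_12, c6_13, c6_14, c6_15, c6_16, c6_17, c6_18, c6_19, c6_20, c6_21, c6_22, c6_23, c6_24, c6_25, c6_26] [r6_11_11, r6_11_12, r6_11_13, r6_11_14, r6_11_15, r6_11_16, r6_11_17, r6_11_18, r6_11_19, r6_11_20, r6_11_21, r6_11_22, r6_11_23, r6_11_24, r6_11_25, r6_11_26] :=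
  rowS_cons E _ _ _ _ _ _ _ _ (h6_11_11 E) (rowS_cons E _ _ _ _ _ _ _ _ (h6_11_12 E) (rowS_cons E _ _ _ _ _ _ _ _ (h6_11_13 E) (rowS_cons E _ _ _ _ _ _ _ _ (h6_11_14 E) (rowS_cons E _ _ _ _ _ _ _ _ (h6_11_15 E) (rowS_cons E _ _ _ _ _ _ _ _ (h6_11_16 E) (rowS_cons E _ _ _ _ _ _ _ _ (h6_11_17 E) (rowS_cons E _ _ _ _ _ _ _ _ (h6_11_18 E) (rowS_cons E _ _ _ _ _ _ _ _ (h6_11_19 E) (rowS_cons E _ _ _ _ _ _ _ _ (h6_11_20 E) (rowS_cons E _ _ _ _ _ _ _ _ (h6_11_21 E) (rowS_cons E _ _ _ _ _ _ _ _ (h6_11_22 E) (rowS_cons E _ _ _ _ _ _ _ _ (h6_11_23 E) (rowS_cons E _ _ _ _ _ _ _ _ (h6_11_24 E) (rowS_cons E _ _ _ _ _ _ _ _ (h6_11_25 E) (rowS_cons E _ _ _ _ _ _ _ _ (h6_11_26 E) (rowS_nil E _ _ _ _))))))))))))))))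

theorem row6_12 (E : Env κ ι) : RowS E 1 3 (ek E keys) c6_12 [c6_12, c6_13, c6_14, c6_15, c6_16, c6_17, c6_18, c6_19, c6_20, c6_21, c6_22, c6_23, c6_24, c6_25, c6_26] [r6_12_12, r6_12_13, r6_12_14, r6_12_15, r6_12_16, r6_12_17, r6_12_18, r6_12_19, r6_12_20, r6_12_21, r6_12_22, r6_12_23, r6_12_24, r6_12_25, r6_12_26] :=
  rowS_cons E _ _ _ _ _ _ _ _ (h6_12_12 E) (rowS_cons E _ _ _ _ _ _ _ _ (h6_12_13 E) (rowS_cons E _ _ _ _ _ _ _ _ (h6_12_14 E) (rowS_cons E _ _ _ _ _ _ _ _ (h6_12_15 E) (rowS_cons E _ _ _ _ _ _ _ _ (h6_12_16 E) (rowS_cons E _ _ _ _ _ _ _ _ (h6_12_17 E) (rowS_cons E _ _ _ _ _ _ _ _ (h6_12_18 E) (rowS_cons E _ _ _ _ _ _ _ _ (h6_12_19 E) (rowS_cons E _ _ _ _ _ _ _ _ (h6_12_20 E) (rowS_cons E _ _ _ _ _ _ _ _ (h6_12_21 E) (rowS_cons E _ _ _ _ _ _ _ _ (h6_12_22 E) (rowS_cons E _ _ _ _ _ _ _ _ (h6_12_23 E) (rowS_cons E _ _ _ _ _ _ _ _ (h6_12_24 E) (rowS_cons E _ _ _ _ _ _ _ _ (h6_12_25 E) (rowS_cons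 E _ _ _ _ _ _ _ _ (h6_12_26 E) (rowS_nil E _ _ _ _)))))))))))))))

theorem row6_13 (E : Env κ ι) : RowS E 1 3 (ek E keys) c6_13 [c6_13, c6_14, c6_15, c6_16, c6_17, c6_18, c6_19, c6_20, c6_21, c6_22, c6_23, c6_24, c6_25, c6_26] [r6_13_13, r6_13_14, r6_13_15, r6_13_16, r6_13_17, r6_13_18, r6_13_19, r6_13_20, r6_13_21, r6_13_22, r6_13_23, r6_13_24, r6_13_25, r6_13_26] :=
  rowS_cons E _ _ _ _ _ _ _ _ (h6_13_13 E) (rowS_cons E _ _ _ _ _ _ _ _ (h6_13_14 E) (rowS_cons E _ _ _ _ _ _ _ _ (h6_13_15 E) (rowS_cons E _ _ _ _ _ _ _ _ (h6_13_16 E) (rowS_cons E _ _ _ _ _ _ _ _ (h6_13_17 E) (rowS_cons E _ _ _ _ _ _ _ _ (h6_13_18 E) (rowS_cons E _ _ _ _ _ _ _ _ (h6_13_19 E) (rowS_cons E _ _ _ _ _ _ _ _ (h6_13_20 E) (rowS_cons E _ _ _ _ _ _ _ _ (h6_13_21 E) (rowS_cons E _ _ _ _ _ _ _ _ (h6_13_22 E) (rowS_cons E _ _ _ _ _ _ _ _ (h6_13_23 E) (rowS_cons E _ _ _ _ _ _ _ _ (h6_13_24 E) (rowS_cons E _ _ _ _ _ _ _ _ (h6_13_25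 E) (rowS_cons E _ _ _ _ _ _ _ _ (h6_13_26 E) (rowS_nil E _ _ _ _))))))))))))))

theorem row6_14 (E : Env κ ι) : RowS E 1 3 (ek E keys) c6_14 [c6_14, c6_15, c6_16, c6_17, c6_18, c6_19, c6_20, c6_21, c6_22, c6_23, c6_24, c6_25, c6_26] [r6_14_14, r6_14_15, r6_14_16, r6_14_17, r6_14_18, r6_14_19, r6_14_20, r6_14_21, r6_14_22, r6_14_23, r6_14_24, r6_14_25, r6_14_26] :=
  rowS_cons E _ _ _ _ _ _ _ _ (h6_14_14 E) (rowS_cons E _ _ _ _ _ _ _ _ (h6_14_15 E) (rowS_cons E _ _ _ _ _ _ _ _ (h6_14_16 E) (rowS_cons E _ _ _ _ _ _ _ _ (h6_14_17 E) (rowS_cons E _ _ _ _ _ _ _ _ (h6_14_18 E) (rowS_cons E _ _ _ _ _ _ _ _ (h6_14_19 E) (rowS_cons E _ _ _ _ _ _ _ _ (h6_14_20 E) (rowS_cons E _ _ _ _ _ _ _ _ (h6_14_21 E) (rowS_cons E _ _ _ _ _ _ _ _ (h6_14_22 E) (rowS_cons E _ _ _ _ _ _ _ _ (h6_14_23 E) (rowS_cons E _ _ _ _ _ _ _ _ (h6_14_24 E) (rowS_cons E _ _ _ _ _ _ _ _ (h6_14_25 E) (rowS_cons E _ _ _ _ _ _ _ _ (h6_14_26 E)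 (rowS_nil E _ _ _ _)))))))))))))

theorem row6_15 (E : Env κ ι) : RowS E 1 3 (ek E keys) c6_15 [c6_15, c6_16, c6_17, c6_18, c6_19, c6_20, c6_21, c6_22, c6_23, c6_24, c6_25, c6_26] [r6_15_15, r6_15_16, r6_15_17, r6_15_18, r6_15_19, r6_15_20, r6_15_21, r6_15_22, r6_15_23, r6_15_24, r6_15_25, r6_15_26] :=
  rowS_cons E _ _ _ _ _ _ _ _ (h6_15_15 E) (rowS_cons E _ _ _ _ _ _ _ _ (h6_15_16 E) (rowS_cons E _ _ _ _ _ _ _ _ (h6_15_17 E) (rowS_cons E _ _ _ _ _ _ _ _ (h6_15_18 E) (rowS_cons E _ _ _ _ _ _ _ _ (h6_15_19 E) (rowS_cons E _ _ _ _ _ _ _ _ (h6_15_20 E) (rowS_cons E _ _ _ _ _ _ _ _ (h6_15_21 E) (rowS_cons E _ _ _ _ _ _ _ _ (h6_15_22 E) (rowS_cons E _ _ _ _ _ _ _ _ (h6_15_23 E) (rowS_cons E _ _ _ _ _ _ _ _ (h6_15_24 E) (rowS_cons E _ _ _ _ _ _ _ _ (h6_15_25 E) (rowS_cons E _ _ _ _ _ _ _ _ (h6_15_26 E) (rowS_nil E _ _ _ _))))))))))))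

theorem row6_16 (E : Env κ ι) : RowS E 1 3 (ek E keys) c6_16 [c6_16, c6_17, c6_18, c6_19, c6_20, c6_21, c6_22, c6_23, c6_24, c6_25, c6_26] [r6_16_16, r6_16_17, r6_16_18, r6_16_19, r6_16_20, r6_16_21, r6_16_22, r6_16_23, r6_16_24, r6_16_25, r6_16_26] :=
  rowS_cons E _ _ _ _ _ _ _ _ (h6_16_16 E) (rowS_cons E _ _ _ _ _ _ _ _ (h6_16_17 E) (rowS_cons E _ _ _ _ _ _ _ _ (h6_16_18 E) (rowS_cons E _ _ _ _ _ _ _ _ (h6_16_19 E) (rowS_cons E _ _ _ _ _ _ _ _ (h6_16_20 E) (rowS_cons E _ _ _ _ _ _ _ _ (h6_16_21 E) (rowS_cons E _ _ _ _ _ _ _ _ (h6_16_22 E) (rowS_cons E _ _ _ _ _ _ _ _ (h6_16_23 E) (rowS_cons E _ _ _ _ _ _ _ _ (h6_16_24 E) (rowS_cons E _ _ _ _ _ _ _ _ (h6_16_25 E) (rowS_cons E _ _ _ _ _ _ _ _ (h6_16_26 E) (rowS_nil E _ _ _ _)))))))))))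

theorem row6_17 (E : Env κ ι) : RowS E 1 3 (ek E keys) c6_17 [c6_17, c6_18, c6_19, c6_20, c6_21, c6_22, c6_23, c6_24, c6_25, c6_26] [r6_17_17, r6_17_18, r6_17_19, r6_17_20, r6_17_21, r6_17_22, r6_17_23, r6_17_24, r6_17_25, r6_17_26] :=
  rowS_cons E _ _ _ _ _ _ _ _ (h6_17_17 E) (rowS_cons E _ _ _ _ _ _ _ _ (h6_17_18 E) (rowS_cons E _ _ _ _ _ _ _ _ (h6_17_19 E) (rowS_cons E _ _ _ _ _ _ _ _ (h6_17_20 E) (rowS_cons E _ _ _ _ _ _ _ _ (h6_17_21 E) (rowS_cons E _ _ _ _ _ _ _ _ (h6_17_22 E) (rowS_cons E _ _ _ _ _ _ _ _ (h6_17_23 E) (rowS_cons E _ _ _ _ _ _ _ _ (h6_17_24 E) (rowS_cons E _ _ _ _ _ _ _ _ (h6_17_25 E) (rowS_cons E _ _ _ _ _ _ _ _ (h6_17_26 E) (rowS_nil E _ _ _ _))))))))))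

theorem row6_18 (E : Env κ ι) : RowS E 1 3 (ek E keys) c6_18 [c6_18, c6_19, c6_20, c6_21, c6_22, c6_23, c6_24, c6_25, c6_26] [r6_18_18, r6_18_19, r6_18_20, r6_18_21, r6_18_22, r6_18_23, r6_18_24, r6_18_25, r6_18_26] :=
  rowS_cons E _ _ _ _ _ _ _ _ (h6_18_18 E) (rowS_cons E _ _ _ _ _ _ _ _ (h6_18_19 E) (rowS_cons E _ _ _ _ _ _ _ _ (h6_18_20 E) (rowS_cons E _ _ _ _ _ _ _ _ (h6_18_21 E) (rowS_cons E _ _ _ _ _ _ _ _ (h6_18_22 E) (rowS_cons E _ _ _ _ _ _ _ _ (h6_18_23 E) (rowS_cons E _ _ _ _ _ _ _ _ (h6_18_24 E) (rowS_cons E _ _ _ _ _ _ _ _ (h6_18_25 E) (rowS_cons E _ _ _ _ _ _ _ _ (h6_18_26 E) (rowS_nil E _ _ _ _)))))))))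

theorem row6_19 (E : Env κ ι) : RowS E 1 3 (ek E keys) c6_19 [c6_19, c6_20, c6_21, c6_22, c6_23, c6_24, c6_25, c6_26] [r6_19_19, r6_19_20, r6_19_21, r6_19_22, r6_19_23, r6_19_24, r6_19_25, r6_19_26] :=
  rowS_cons E _ _ _ _ _ _ _ _ (h6_19_19 E) (rowS_cons E _ _ _ _ _ _ _ _ (h6_19_20 E) (rowS_cons E _ _ _ _ _ _ _ _ (h6_19_21 E) (rowS_cons E _ _ _ _ _ _ _ _ (h6_19_22 E) (rowS_cons E _ _ _ _ _ _ _ _ (h6_19_23 E) (rowS_cons E _ _ _ _ _ _ _ _ (h6_19_24 E) (rowS_cons E _ _ _ _ _ _ _ _ (h6_19_25 E) (rowS_cons E _ _ _ _ _ _ _ _ (h6_19_26 E) (rowS_nil E _ _ _ _))))))))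

theorem row6_20 (E : Env κ ι) : RowS E 1 3 (ek E keys) c6_20 [c6_20, c6_21, c6_22, c6_23, c6_24, c6_25, c6_26] [r6_20_20, r6_20_21, r6_20_22, r6_20_23, r6_20_24, r6_20_25, r6_20_26] :=
  rowS_cons E _ _ _ _ _ _ _ _ (h6_20_20 E) (rowS_cons E _ _ _ _ _ _ _ _ (h6_20_21 E) (rowS_cons E _ _ _ _ _ _ _ _ (h6_20_22 E) (rowS_cons E _ _ _ _ _ _ _ _ (h6_20_23 E) (rowS_cons E _ _ _ _ _ _ _ _ (h6_20_24 E) (rowS_cons E _ _ _ _ _ _ _ _ (h6_20_25 E) (rowS_cons E _ _ _ _ _ _ _ _ (h6_20_26 E) (rowS_nil E _ _ _ _)))))))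

theorem row6_21 (E : Env κ ι) : RowS E 1 3 (ek E keys) c6_21 [c6_21, c6_22, c6_23, c6_24, c6_25, c6_26] [r6_21_21, r6_21_22, r6_21_23, r6_21_24, r6_21_25, r6_21_26] :=
  rowS_cons E _ _ _ _ _ _ _ _ (h6_21_21 E) (rowS_cons E _ _ _ _ _ _ _ _ (h6_21_22 E) (rowS_cons E _ _ _ _ _ _ _ _ (h6_21_23 E) (rowS_cons E _ _ _ _ _ _ _ _ (h6_21_24 E) (rowS_cons E _ _ _ _ _ _ _ _ (h6_21_25 E) (rowS_cons E _ _ _ _ _ _ _ _ (h6_21_26 E) (rowS_nil E _ _ _ _))))))

theorem row6_22 (E : Env κ ι) : RowS E 1 3 (ek E keys) c6_22 [c6_22, c6_23, c6_24, c6_25, c6_26] [r6_22_22, r6_22_23, r6_22_24, r6_22_25, r6_22_26] :=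
  rowS_cons E _ _ _ _ _ _ _ _ (h6_22_22 E) (rowS_cons E _ _ _ _ _ _ _ _ (h6_22_23 E) (rowS_cons E _ _ _ _ _ _ _ _ (h6_22_24 E) (rowS_cons E _ _ _ _ _ _ _ _ (h6_22_25 E) (rowS_cons E _ _ _ _ _ _ _ _ (h6_22_26 E) (rowS_nil E _ _ _ _)))))

theorem row6_23 (E : Env κ ι) : RowS E 1 3 (ek E keys) c6_23 [c6_23, c6_24, c6_25, c6_26] [r6_23_23, r6_23_24, r6_23_25, r6_23_26] :=
  rowS_cons E _ _ _ _ _ _ _ _ (h6_23_23 E) (rowS_cons E _ _ _ _ _ _ _ _ (h6_23_24 E) (rowS_cons E _ _ _ _ _ _ _ _ (h6_23_25 E) (rowS_cons E _ _ _ _ _ _ _ _ (h6_23_26 E) (rowS_nil E _ _ _ _))))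

theorem row6_24 (E : Env κ ι) : RowS E 1 3 (ek E keys) c6_24 [c6_24, c6_25, c6_26] [r6_24_24, r6_24_25, r6_24_26] :=
  rowS_cons E _ _ _ _ _ _ _ _ (h6_24_24 E) (rowS_cons E _ _ _ _ _ _ _ _ (h6_24_25 E) (rowS_cons E _ _ _ _ _ _ _ _ (h6_24_26 E) (rowS_nil E _ _ _ _)))

theorem row6_25 (E : Env κ ι) : RowS E 1 3 (ek E keys) c6_25 [c6_25, c6_26] [r6_25_25, r6_25_26] :=
  rowS_cons E _ _ _ _ _ _ _ _ (h6_25_25 E) (rowS_cons E _ _ _ _ _ _ _ _ (h6_25_26 E) (rowS_nil E _ _ _ _))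

theorem row6_26 (E : Env κ ι) : RowS E 1 3 (ek E keys) c6_26 [c6_26] [r6_26_26] :=
  rowS_cons E _ _ _ _ _ _ _ _ (h6_26_26 E) (rowS_nil E _ _ _ _)

def tab6 : List (List (List (ℕ × ℤ))) := [[r6_0_0, r6_0_1, r6_0_2, r6_0_3, r6_0_4, r6_0_5, r6_0_6, r6_0_7, r6_0_8, r6_0_9, r6_0_10, r6_0_11, r6_0_12, r6_0_13, r6_0_14, r6_0_15, r6_0_16, r6_0_17, r6_0_18, r6_0_19, r6_0_20, r6_0_21, r6_0_22, r6_0_23, r6_0_24, r6_0_25, r6_0_26], [r6_1_1, r6_1_2, r6_1_3, r6_1_4, r6_1_5, r6_1_6, r6_1_7, r6_1_8, r6_1_9, r6_1_10, r6_1_11, r6_1_12, r6_1_13, r6_1_14, r6_1_15, r6_1_16, r6_1_17, r6_1_18, r6_1_19, r6_1_20, r6_1_21, r6_1_22, r6_1_23, r6_1_24, r6_1_25, r6_1_26], [r6_2_2, r6_2_3, r6_2_4, r6_2_5, r6_2_6, r6_2_7, r6_2_8, r6_2_9, r6_2_10, r6_2_11, r6_2_12, r6_2_13, r6_2_14, r6_2_15, r6_2_16, r6_2_17, r6_2_18, r6_2_19, r6_2_20, r6_2_21, r6_2_22, r6_2_23, r6_2_24, r6_2_25, r6_2_26], [r6_3_3, r6_3_4, r6_3_5, r6_3_6, r6_3_7,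 r6_3_8, r6_3_9, r6_3_10, r6_3_11, r6_3_12, r6_3_13, r6_3_14, r6_3_15, r6_3_16, r6_3_17, r6_3_18, r6_3_19, r6_3_20, r6_3_21, r6_3_22, r6_3_23, r6_3_24, r6_3_25, r6_3_26], [r6_4_4, r6_4_5, r6_4_6, r6_4_7, r6_4_8, r6_4_9, r6_4_10, r6_4_11, r6_4_12, r6_4_13, r6_4_14, r6_4_15, r6_4_16, r6_4_17, r6_4_18, r6_4_19, r6_4_20, r6_4_21, r6_4_22, r6_4_23, r6_4_24, r6_4_25, r6_4_26], [r6_5_5, r6_5_6, r6_5_7, r6_5_8, r6_5_9, r6_5_10, r6_5_11, r6_5_12, r6_5_13, r6_5_14, r6_5_15, r6_5_16, r6_5_17, r6_5_18, r6_5_19, r6_5_20, r6_5_21, r6_5_22, r6_5_23, r6_5_24, r6_5_25, r6_5_26], [r6_6_6, r6_6_7, r6_6_8, r6_6_9, r6_6_10, r6_6_11, r6_6_12, r6_6_13, r6_6_14, r6_6_15, r6_6_16, r6_6_17, r6_6_18, r6_6_19, r6_6_20, r6_6_21, r6_6_22, r6_6_23, r6_6_24, r6_6_25, r6_6_26], [r6_7_7, r6_7_8, r6_7_9, r6_7_10, r6_7_11, r6_7_12, r6_7_13, r6_7_14, r6_7_15, r6_7_16, r6_7_17, r6_7_18, r6_7_19, r6_7_20, r6_7_21, r6_7_22, r6_7_23, r6_7_24,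 r6_7_25, r6_7_26], [r6_8_8, r6_8_9, r6_8_10, r6_8_11, r6_8_12, r6_8_13, r6_8_14, r6_8_15, r6_8_16, r6_8_17, r6_8_18, r6_8_19, r6_8_20, r6_8_21, r6_8_22, r6_8_23, r6_8_24, r6_8_25, r6_8_26], [r6_9_9, r6_9_10, r6_9_11, r6_9_12, r6_9_13, r6_9_14, r6_9_15, r6_9_16, r6_9_17, r6_9_18, r6_9_19, r6_9_20, r6_9_21, r6_9_22, r6_9_23, r6_9_24, r6_9_25, r6_9_26], [r6_10_10, r6_10_11, r6_10_12, r6_10_13, r6_10_14, r6_10_15, r6_10_16, r6_10_17, r6_10_18, r6_10_19, r6_10_20, r6_10_21, r6_10_22, r6_10_23, r6_10_24, r6_10_25, r6_10_26], [r6_11_11, r6_11_12, r6_11_13, r6_11_14, r6_11_15, r6_11_16, r6_11_17, r6_11_18, r6_11_19, r6_11_20, r6_11_21, r6_11_22, r6_11_23, r6_11_24, r6_11_25, r6_11_26], [r6_12_12, r6_12_13, r6_12_14, r6_12_15, r6_12_16, r6_12_17, r6_12_18, r6_12_19, r6_12_20, r6_12_21, r6_12_22, r6_12_23, r6_12_24, r6_12_25, r6_12_26], [r6_13_13, r6_13_14, r6_13_15, r6_13_16, r6_13_17, r6_13_18, r6_13_19, r6_13_20,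 r6_13_21, r6_13_22, r6_13_23, r6_13_24, r6_13_25, r6_13_26], [r6_14_14, r6_14_15, r6_14_16, r6_14_17, r6_14_18, r6_14_19, r6_14_20, r6_14_21, r6_14_22, r6_14_23, r6_14_24, r6_14_25, r6_14_26], [r6_15_15, r6_15_16, r6_15_17, r6_15_18, r6_15_19, r6_15_20, r6_15_21, r6_15_22, r6_15_23, r6_15_24, r6_15_25, r6_15_26], [r6_16_16, r6_16_17, r6_16_18, r6_16_19, r6_16_20, r6_16_21, r6_16_22, r6_16_23, r6_16_24, r6_16_25, r6_16_26], [r6_17_17, r6_17_18, r6_17_19, r6_17_20, r6_17_21, r6_17_22, r6_17_23, r6_17_24, r6_17_25, r6_17_26], [r6_18_18, r6_18_19, r6_18_20, r6_18_21, r6_18_22, r6_18_23, r6_18_24, r6_18_25, r6_18_26], [r6_19_19, r6_19_20, r6_19_21, r6_19_22, r6_19_23, r6_19_24, r6_19_25, r6_19_26], [r6_20_20, r6_20_21, r6_20_22, r6_20_23, r6_20_24, r6_20_25, r6_20_26], [r6_21_21, r6_21_22, r6_21_23, r6_21_24, r6_21_25, r6_21_26], [r6_22_22, r6_22_23, r6_22_24, r6_22_25, r6_22_26], [r6_23_23, r6_23_24, r6_23_25,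 r6_23_26], [r6_24_24, r6_24_25, r6_24_26], [r6_25_25, r6_25_26], [r6_26_26]]

theorem tri6 (E : Env κ ι) : TriS E 1 3 (ek E keys) [c6_0, c6_1, c6_2, c6_3, c6_4, c6_5, c6_6, c6_7, c6_8, c6_9, c6_10, c6_11, c6_12, c6_13, c6_14, c6_15, c6_16, c6_17, c6_18, c6_19, c6_20, c6_21, c6_22, c6_23, c6_24, c6_25, c6_26] tab6 := by
  refine triS_cons E _ _ _ _ _ _ _ (row6_0 E) ?_
  refine triS_cons E _ _ _ _ _ _ _ (row6_1 E) ?_
  refine triS_cons E _ _ _ _ _ _ _ (row6_2 E) ?_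
  refine triS_cons E _ _ _ _ _ _ _ (row6_3 E) ?_
  refine triS_cons E _ _ _ _ _ _ _ (row6_4 E) ?_
  refine triS_cons E _ _ _ _ _ _ _ (row6_5 E) ?_
  refine triS_cons E _ _ _ _ _ _ _ (row6_6 E) ?_
  refine triS_cons E _ _ _ _ _ _ _ (row6_7 E) ?_
  refine triS_cons E _ _ _ _ _ _ _ (row6_8 E) ?_
  refine triS_cons E _ _ _ _ _ _ _ (row6_9 E) ?_
  refine triS_cons E _ _ _ _ _ _ _ (row6_10 E) ?_
  refine triS_cons E _ _ _ _ _ _ _ (row6_11 E) ?_
  refine triS_cons E _ _ _ _ _ _ _ (row6_12 E) ?_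
  refine triS_cons E _ _ _ _ _ _ _ (row6_13 E) ?_
  refine triS_cons E _ _ _ _ _ _ _ (row6_14 E) ?_
  refine triS_cons E _ _ _ _ _ _ _ (row6_15 E) ?_
  refine triS_cons E _ _ _ _ _ _ _ (row6_16 E) ?_
  refine triS_cons E _ _ _ _ _ _ _ (row6_17 E) ?_
  refine triS_cons E _ _ _ _ _ _ _ (row6_18 E) ?_
  refine triS_cons E _ _ _ _ _ _ _ (row6_19 E) ?_
  refine triS_cons E _ _ _ _ _ _ _ (row6_20 E) ?_
  refine triS_cons E _ _ _ _ _ _ _ (row6_21 E) ?_
  refine triS_cons E _ _ _ _ _ _ _ (row6_22 E) ?_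
  refine triS_cons E _ _ _ _ _ _ _ (row6_23 E) ?_
  refine triS_cons E _ _ _ _ _ _ _ (row6_24 E) ?_
  refine triS_cons E _ _ _ _ _ _ _ (row6_25 E) ?_
  refine triS_cons E _ _ _ _ _ _ _ (row6_26 E) ?_
  exact triS_nil E _ _ _

def rows6 : List (ℕ × List ℤ) := [(70029430087680000, [4194304, -5765590, -8628731, -2534574, 4498861, -4641888, 789184, -1322117, -3414462, -282518, -63158, -1603340, -32364, 1776409, -83125, 3092, 420811, -3637176, 1550679, 4380773, 3381486, 1522364, 1688661, -1105066, -1584826, 538949, 185239]),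
  (268316061511680000, [0, 8388608, -984674, 962697, 104807, 5956, 39372, 642568, -2610948, 133654, 1174496, -81106, -1385882, 1431408, 711046, 456743, -854262, -1310700, -1094288, -4691594, -456227, 822175, 554265, -976038, 226621, 267667, -258416]),
  (189966170419200000, [0, 0, 4194304, -1263080, -203027, 8909796, -101801, -25532, -633984, 1820272, 2576272, -942064, 376789, -521863, -257879, -1009192, -2567603, 3115651, -951685, -6688079, -3408523, 433194, -203244, 228576, 1114813, -205967, 163655]),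
  (106926743347200000, [0, 0, 0, 4194304, -648394, -7137442, -522396, 545109, -1711060, -142030, -2813778, -1041326, -152113, 548777, -155367, 2040738, 1955942, -7462032, -111837, 3709897, 3403947, -1649676, 998235, 657045, -2180670, 270373, 87891]),
  (80668618813440000, [0, 0, 0, 0, 4194304, -5903688, -3367814, -74904, -8215476, -3702062, 609462, -432960, -1074, -908338, -332885, 1368031, -638725, -3311922, -2682601, -2296398, -3167253, 2363980, 4147063, -2948498, -1159178, 72150, 58559]),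
  (25596022394880000, [0, 0, 0, 0, 0, 8388608, 2190498, 261232, -2962158, 7233178, 1160112, -3579938, -3933462, 3742162, -626988, 2269469, -2383003, -1946394, 815231, -6360798, 364901, -897387, -1537381, 1097229, -599198, 556235, 534378]),
  (5210701332480000, [0, 0, 0, 0, 0, 0, 4194304, -51347, -7881150, 4753264, -3504738, 7657450, -4614551, 4137115, -931159, -2022797, -969919, 5943433, 4071497, -5293686, -9041314, -150014, -8778751, 1407139, 2075919, -2485750, 473068]),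
  (2217202606080000, [0, 0, 0, 0, 0, 0, 0, 4194304, -10435256, 20471194, -5380660, -8284814, -4506068, 12851530, -4714646, 227542, -941639, -755397, 277646, -5740946, -3014875, -3611659, -4653439, -2658735, -3932805, 3349769, 1906874]),
  (224393379840000, [0, 0, 0, 0, 0, 0, 0, 0, 8388608, -5271234, 1735438, -212536, 2715832, -3883034, 1344078, -47195, 1026211, -471792, -603231, 4461057, 4288065, 235555, 2647779, 680671, 475572, 67879, -590592]),
  (186537738240000, [0, 0, 0, 0, 0, 0, 0, 0, 0, 8388608, -1432046, -4143044, -1019892, 3852064, -1415324, 528540, -988, -1142025, 51088, -279963, 1326338, -1631587, -771178, -519567, -1633065, 1524275, 588800]),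
  (48225300480000, [0, 0, 0, 0, 0, 0, 0, 0, 0, 0, 8388608, -3111286, -186749, -940500, 586575, 2073016, -818190, -3635223, -1348481, -1353197, 2950260, 454435, 3196948, -104237, -689280, 658085, -136330]),
  (101513502720000, [0, 0, 0, 0, 0, 0, 0, 0, 0, 0, 0, 8388608, 63869, -474522, 139901, -2604514, 96977, 5512271, 1431271, -657829, -4844159, 684639, -3475608, 295866, 1998330, -1552379, -140360]),
  (102535372800000, [0, 0, 0, 0, 0, 0, 0, 0, 0, 0, 0, 0, 4194304, -612604, -80210, -2386431, 404769, 1323606, -426408, 1197462, -130519, 9526, 347064, -440605, 131971, 182932, -56898]),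
  (72332144640000, [0, 0, 0, 0, 0, 0, 0, 0, 0, 0, 0, 0, 0, 4194304, -704400, -926684, 36173, 1269788, 315763, -602191, -982890, -500206, -1430507, -520345, -238807, 422441, 249924]),
  (40143237120000, [0, 0, 0, 0, 0, 0, 0, 0, 0, 0, 0, 0, 0, 0, 4194304, 493128, -151567, -1151759, -78332, -424459, 973753, 251507, 587223, 350183, 149314, -149930, -180162]),
  (86406082560000, [0, 0, 0, 0, 0, 0, 0, 0, 0, 0, 0, 0, 0, 0, 0, 4194304, 13554, -3811740, -482759, 570853, 2726559, -265359, 1851889, 320247, -970843, 421951, 1336]),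
  (45775134720000, [0, 0, 0, 0, 0, 0, 0, 0, 0, 0, 0, 0, 0, 0, 0, 0, 4194304, -176645, 376203, 2788650, 1103682, -593078, -312042, 158941, -300537, 129891, -1314]),
  (159156264960000, [0, 0, 0, 0, 0, 0, 0, 0, 0, 0, 0, 0, 0, 0, 0, 0, 0, 4194304, 265946, -192729, -1940257, 305790, -1157570, -371954, 776204, -227054, -10295]),
  (49734881280000, [0, 0, 0, 0, 0, 0, 0, 0, 0, 0, 0, 0, 0, 0, 0, 0, 0, 0, 4194304, 942007, -25103, -424341, -1545665, 1031339, 248731, -554446, 41666]),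
  (109943930880000, [0, 0, 0, 0, 0, 0, 0, 0, 0, 0, 0, 0, 0, 0, 0, 0, 0, 0, 0, 4194304, 1370095, -471290, 65663, 108972, -332217, 231332, 15718]),
  (296621015040000, [0, 0, 0, 0, 0, 0, 0, 0, 0, 0, 0, 0, 0, 0, 0, 0, 0, 0, 0, 0, 2097152, -138817, 370805, 88680, -123015, 247885, -34668]),
  (41304453120000, [0, 0, 0, 0, 0, 0, 0, 0, 0, 0, 0, 0, 0, 0, 0, 0, 0, 0, 0, 0, 0, 4194304, 670904, -399323, 191838, -73906, -107451]),
  (55227432960000, [0, 0, 0, 0, 0, 0, 0, 0, 0, 0, 0, 0, 0, 0, 0, 0, 0, 0, 0, 0, 0, 0, 4194304, -720540, -284050, 420782, -39277]),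
  (177108664320000, [0, 0, 0, 0, 0, 0, 0, 0, 0, 0, 0, 0, 0, 0, 0, 0, 0, 0, 0, 0, 0, 0, 0, 2097152, 120419, -215579, -14717]),
  (155184906240000, [0, 0, 0, 0, 0, 0, 0, 0, 0, 0, 0, 0, 0, 0, 0, 0, 0, 0, 0, 0, 0, 0, 0, 0, 2097152, -139465, -60526]),
  (38598819840000, [0, 0, 0, 0, 0, 0, 0, 0, 0, 0, 0, 0, 0, 0, 0, 0, 0, 0, 0, 0, 0, 0, 0, 0, 0, 4194304, 55399]),
  (619591185502795443732480000, [0, 0, 0, 0, 0, 0, 0, 0, 0, 0, 0, 0, 0, 0, 0, 0, 0, 0, 0, 0, 0, 0, 0, 0, 0, 0, 1]),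
  (60527302643271582720000, [1, 0, 0, -1, 0, 0, 0, 0, 0, 0, 0, 0, 0, 0, 0, 0, 0, 0, 0, 0, 0, 0, 0, 0, 0, 0, 0]),
  (137614818624397470720000, [1, 0, 0, 0, 0, 0, -1, 0, 0, 0, 0, 0, 0, 0, 0, 0, 0, 0, 0, 0, 0, 0, 0, 0, 0, 0, 0]),
  (53845526797601817600000, [1, 0, 0, 0, 0, 0, 0, 0, 0, 0, 0, 0, -1, 0, 0, 0, 0, 0, 0, 0, 0, 0, 0, 0, 0, 0, 0]),
  (476831252511098389051200, [1, 0, 0, 0, 0, 0, 0, 0, 0, 0, 0, 0, 0, 0, 0, 0, 1, 0, 0, 0, 0, 0, 0, 0, 0, 0, 0]),
  (103646670266236829760000, [1, 0, 0, 0, 0, 0, 0, 0, 0, 0, 0, 0, 0, 0, 0, 0, 0, 1, 0, 0, 0, 0, 0, 0, 0, 0, 0]),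
  (298426755174728624640000, [0, 2, 0, 1, 0, 0, 0, 0, 0, 0, 0, 0, 0, 0, 0, 0, 0, 0, 0, 0, 0, 0, 0, 0, 0, 0, 0]),
  (3242880351376545600000, [0, 2, 0, 0, 0, 0, 1, 0, 0, 0, 0, 0, 0, 0, 0, 0, 0, 0, 0, 0, 0, 0, 0, 0, 0, 0, 0]),
  (525990392563559598288000, [0, 2, 0, 0, 0, 0, 0, 0, 0, 0, 0, 0, 0, 0, 0, 0, 1, 0, 0, 0, 0, 0, 0, 0, 0, 0, 0]),
  (154330410017936003040000, [0, 2, 0, 0, 0, 0, 0, 0, 0, 0, 0, 0, 0, 0, 0, 0, 0, 1, 0, 0, 0, 0, 0, 0, 0, 0, 0]),
  (525724427268254775960000, [0, 0, 1, -1, 0, 0, 0, 0, 0, 0, 0, 0, 0, 0, 0, 0, 0, 0, 0, 0, 0, 0, 0, 0, 0, 0, 0]),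
  (420303178334600855280000, [0, 0, 1, 0, 1, 0, 0, 0, 0, 0, 0, 0, 0, 0, 0, 0, 0, 0, 0, 0, 0, 0, 0, 0, 0, 0, 0]),
  (2961405051802403633280000, [0, 0, 1, 0, 0, -2, 0, 0, 0, 0, 0, 0, 0, 0, 0, 0, 0, 0, 0, 0, 0, 0, 0, 0, 0, 0, 0]),
  (616990780490099442525000, [0, 0, 1, 0, 0, 0, 1, 0, 0, 0, 0, 0, 0, 0, 0, 0, 0, 0, 0, 0, 0, 0, 0, 0, 0, 0, 0]),
  (5907612616887182014170000, [0, 0, 1, 0, 0, 0, 0, 1, 0, 0, 0, 0, 0, 0, 0, 0, 0, 0, 0, 0, 0, 0, 0, 0, 0, 0, 0]),
  (10837468168925953295475000, [0, 0, 1, 0, 0, 0, 0, 0, 2, 0, 0, 0, 0, 0, 0, 0, 0, 0, 0, 0, 0, 0, 0, 0, 0, 0, 0]),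
  (4253710933659911162985000, [0, 0, 1, 0, 0, 0, 0, 0, 0, 2, 0, 0, 0, 0, 0, 0, 0, 0, 0, 0, 0, 0, 0, 0, 0, 0, 0]),
  (896220577876223910240000, [0, 0, 1, 0, 0, 0, 0, 0, 0, 0, -2, 0, 0, 0, 0, 0, 0, 0, 0, 0, 0, 0, 0, 0, 0, 0, 0]),
  (955178828068266407289600, [0, 0, 1, 0, 0, 0, 0, 0, 0, 0, 0, -2, 0, 0, 0, 0, 0, 0, 0, 0, 0, 0, 0, 0, 0, 0, 0]),
  (1244582402704968777696000, [0, 0, 1, 0, 0, 0, 0, 0, 0, 0, 0, 0, 0, 0, 0, 0, 1, 0, 0, 0, 0, 0, 0, 0, 0, 0, 0]),
  (1409200088612133560400000, [0, 0, 1, 0, 0, 0, 0, 0, 0, 0, 0, 0, 0, 0, 0, 0, 0, -1, 0, 0, 0, 0, 0, 0, 0, 0, 0]),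
  (11875472998029645355260000, [0, 0, 1, 0, 0, 0, 0, 0, 0, 0, 0, 0, 0, 0, 0, 0, 0, 0, 0, 0, 0, -1, 0, 0, 0, 0, 0]),
  (283017135762356286412800, [0, 0, 1, 0, 0, 0, 0, 0, 0, 0, 0, 0, 0, 0, 0, 0, 0, 0, 0, 0, 0, 0, 0, 0, 0, 0, 1]),
  (572747572186617885120000, [0, 0, 0, 1, 1, 0, 0, 0, 0, 0, 0, 0, 0, 0, 0, 0, 0, 0, 0, 0, 0, 0, 0, 0, 0, 0, 0]),
  (749682221188002044355000, [0, 0, 0, 1, 0, 0, 1, 0, 0, 0, 0, 0, 0, 0, 0, 0, 0, 0, 0, 0, 0, 0, 0, 0, 0, 0, 0]),
  (5496885613989249584580000, [0, 0, 0, 1, 0, 0, 0, -1, 0, 0, 0, 0, 0, 0, 0, 0, 0, 0, 0, 0, 0, 0, 0, 0, 0, 0, 0]),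
  (1131710073212423297880000, [0, 0, 0, 1, 0, 0, 0, 0, 0, 2, 0, 0, 0, 0, 0, 0, 0, 0, 0, 0, 0, 0, 0, 0, 0, 0, 0]),
  (596426493519047358720000, [0, 0, 0, 1, 0, 0, 0, 0, 0, 0, -2, 0, 0, 0, 0, 0, 0, 0, 0, 0, 0, 0, 0, 0, 0, 0, 0]),
  (103481708123750261760000, [0, 0, 0, 1, 0, 0, 0, 0, 0, 0, 0, 0, -1, 0, 0, 0, 0, 0, 0, 0, 0, 0, 0, 0, 0, 0, 0]),
  (241433959748856174720000, [0, 0, 0, 1, 0, 0, 0, 0, 0, 0, 0, 0, 0, 1, 0, 0, 0, 0, 0, 0, 0, 0, 0, 0, 0, 0, 0]),
  (298140238338403608000000, [0, 0, 0, 1, 0, 0, 0, 0, 0, 0, 0, 0, 0, 0, 1, 0, 0, 0, 0, 0, 0, 0, 0, 0, 0, 0, 0]),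
  (105983740814667826320000, [0, 0, 0, 1, 0, 0, 0, 0, 0, 0, 0, 0, 0, 0, 0, -1, 0, 0, 0, 0, 0, 0, 0, 0, 0, 0, 0]),
  (533984654815326054504000, [0, 0, 0, 1, 0, 0, 0, 0, 0, 0, 0, 0, 0, 0, 0, 0, 1, 0, 0, 0, 0, 0, 0, 0, 0, 0, 0]),
  (353875579358611660560000, [0, 0, 0, 1, 0, 0, 0, 0, 0, 0, 0, 0, 0, 0, 0, 0, 0, -1, 0, 0, 0, 0, 0, 0, 0, 0, 0]),
  (685190573805016278720000, [0, 0, 0, 1, 0, 0, 0, 0, 0, 0, 0, 0, 0, 0, 0, 0, 0, 0, 0, 0, -1, 0, 0, 0, 0, 0, 0]),
  (267551229250826085600000, [0, 0, 0, 1, 0, 0, 0, 0, 0, 0, 0, 0, 0, 0, 0, 0, 0, 0, 0, 0, 0, -1, 0, 0, 0, 0, 0]),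
  (84472086441422403360000, [0, 0, 0, 1, 0, 0, 0, 0, 0, 0, 0, 0, 0, 0, 0, 0, 0, 0, 0, 0, 0, 0, 0, -1, 0, 0, 0]),
  (649006558674961465440000, [0, 0, 0, 1, 0, 0, 0, 0, 0, 0, 0, 0, 0, 0, 0, 0, 0, 0, 0, 0, 0, 0, 0, 0, 0, 1, 0]),
  (2944668998105285943240000, [0, 0, 0, 0, 1, -2, 0, 0, 0, 0, 0, 0, 0, 0, 0, 0, 0, 0, 0, 0, 0, 0, 0, 0, 0, 0, 0]),
  (3982976900817618957120000, [0, 0, 0, 0, 1, 0, 0, -1, 0, 0, 0, 0, 0, 0, 0, 0, 0, 0, 0, 0, 0, 0, 0, 0, 0, 0, 0]),
  (6688130994393603552630000, [0, 0, 0, 0, 1, 0, 0, 0, 2, 0, 0, 0, 0, 0, 0, 0, 0, 0, 0, 0, 0, 0, 0, 0, 0, 0, 0]),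
  (549515328102277650892800, [0, 0, 0, 0, 1, 0, 0, 0, 0, 0, 0, 0, 0, 0, 0, 0, -1, 0, 0, 0, 0, 0, 0, 0, 0, 0, 0]),
  (218434413822709795200000, [0, 0, 0, 0, 1, 0, 0, 0, 0, 0, 0, 0, 0, 0, 0, 0, 0, -1, 0, 0, 0, 0, 0, 0, 0, 0, 0]),
  (2409357659193934968960000, [0, 0, 0, 0, 1, 0, 0, 0, 0, 0, 0, 0, 0, 0, 0, 0, 0, 0, 0, 0, 0, -1, 0, 0, 0, 0, 0]),
  (19370600754462737188920000, [0, 0, 0, 0, 0, 1, 0, 0, 0, 0, 1, 0, 0, 0, 0, 0, 0, 0, 0, 0, 0, 0, 0, 0, 0, 0, 0]),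
  (1140471696151504552392000, [0, 0, 0, 0, 0, 2, 0, 0, 0, 0, 0, 0, 0, 0, 0, 0, 1, 0, 0, 0, 0, 0, 0, 0, 0, 0, 0]),
  (207313984739309091840000, [0, 0, 0, 0, 0, 0, 1, -1, 0, 0, 0, 0, 0, 0, 0, 0, 0, 0, 0, 0, 0, 0, 0, 0, 0, 0, 0]),
  (26283942369066009600000, [0, 0, 0, 0, 0, 0, 1, 0, 0, 0, -2, 0, 0, 0, 0, 0, 0, 0, 0, 0, 0, 0, 0, 0, 0, 0, 0]),
  (152622381131229784320000, [0, 0, 0, 0, 0, 0, 1, 0, 0, 0, 0, 0, 1, 0, 0, 0, 0, 0, 0, 0, 0, 0, 0, 0, 0, 0, 0]),
  (79047729017111715840000, [0, 0, 0, 0, 0, 0, 1, 0, 0, 0, 0, 0, 0, 0, 0, 0, 1, 0, 0, 0, 0, 0, 0, 0, 0, 0, 0]),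
  (1315718566604757767025000, [0, 0, 0, 0, 0, 0, 1, 0, 0, 0, 0, 0, 0, 0, 0, 0, 0, 1, 0, 0, 0, 0, 0, 0, 0, 0, 0]),
  (847337793515395660800000, [0, 0, 0, 0, 0, 0, 1, 0, 0, 0, 0, 0, 0, 0, 0, 0, 0, 0, 0, 0, 1, 0, 0, 0, 0, 0, 0]),
  (422138457861805117440000, [0, 0, 0, 0, 0, 0, 0, 1, -2, 0, 0, 0, 0, 0, 0, 0, 0, 0, 0, 0, 0, 0, 0, 0, 0, 0, 0]),
  (62266988378823918480000, [0, 0, 0, 0, 0, 0, 0, 1, 0, 0, -2, 0, 0, 0, 0, 0, 0, 0, 0, 0, 0, 0, 0, 0, 0, 0, 0]),
  (181168558877021345280000, [0, 0, 0, 0, 0, 0, 0, 1, 0, 0, 0, 2, 0, 0, 0, 0, 0, 0, 0, 0, 0, 0, 0, 0, 0, 0, 0]),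
  (256630543113836603880000, [0, 0, 0, 0, 0, 0, 0, 1, 0, 0, 0, 0, 1, 0, 0, 0, 0, 0, 0, 0, 0, 0, 0, 0, 0, 0, 0]),
  (128919816782263407600000, [0, 0, 0, 0, 0, 0, 0, 1, 0, 0, 0, 0, 0, 1, 0, 0, 0, 0, 0, 0, 0, 0, 0, 0, 0, 0, 0]),
  (126480811937874750720000, [0, 0, 0, 0, 0, 0, 0, 1, 0, 0, 0, 0, 0, 0, -1, 0, 0, 0, 0, 0, 0, 0, 0, 0, 0, 0, 0]),
  (130927982878516199040000, [0, 0, 0, 0, 0, 0, 0, 1, 0, 0, 0, 0, 0, 0, 0, 1, 0, 0, 0, 0, 0, 0, 0, 0, 0, 0, 0]),
  (210475230100041231360000, [0, 0, 0, 0, 0, 0, 0, 1, 0, 0, 0, 0, 0, 0, 0, 0, 1, 0, 0, 0, 0, 0, 0, 0, 0, 0, 0]),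
  (581684828252547287520000, [0, 0, 0, 0, 0, 0, 0, 1, 0, 0, 0, 0, 0, 0, 0, 0, 0, 0, 0, 0, 0, -1, 0, 0, 0, 0, 0]),
  (246135527678248911360000, [0, 0, 0, 0, 0, 0, 0, 1, 0, 0, 0, 0, 0, 0, 0, 0, 0, 0, 0, 0, 0, 0, 0, -1, 0, 0, 0]),
  (309693778254129991680000, [0, 0, 0, 0, 0, 0, 0, 1, 0, 0, 0, 0, 0, 0, 0, 0, 0, 0, 0, 0, 0, 0, 0, 0, 0, 1, 0]),
  (25830112349284024320000, [0, 0, 0, 0, 0, 0, 0, 0, 1, 0, 1, 0, 0, 0, 0, 0, 0, 0, 0, 0, 0, 0, 0, 0, 0, 0, 0]),
  (235327631405251392000000, [0, 0, 0, 0, 0, 0, 0, 0, 2, 0, 0, 0, 0, 0, 0, 0, 1, 0, 0, 0, 0, 0, 0, 0, 0, 0, 0]),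
  (788065623593845954560000, [0, 0, 0, 0, 0, 0, 0, 0, 0, 1, -1, 0, 0, 0, 0, 0, 0, 0, 0, 0, 0, 0, 0, 0, 0, 0, 0]),
  (194591974514439980520000, [0, 0, 0, 0, 0, 0, 0, 0, 0, 2, 0, 0, -1, 0, 0, 0, 0, 0, 0, 0, 0, 0, 0, 0, 0, 0, 0]),
  (338148831074506663680000, [0, 0, 0, 0, 0, 0, 0, 0, 0, 2, 0, 0, 0, 1, 0, 0, 0, 0, 0, 0, 0, 0, 0, 0, 0, 0, 0]),
  (43831288740902906880000, [0, 0, 0, 0, 0, 0, 0, 0, 0, 2, 0, 0, 0, 0, 0, 0, -1, 0, 0, 0, 0, 0, 0, 0, 0, 0, 0]),
  (713241012177095915520000, [0, 0, 0, 0, 0, 0, 0, 0, 0, 0, 1, 1, 0, 0, 0, 0, 0, 0, 0, 0, 0, 0, 0, 0, 0, 0, 0]),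
  (690019429452482152800000, [0, 0, 0, 0, 0, 0, 0, 0, 0, 0, 2, 0, 0, -1, 0, 0, 0, 0, 0, 0, 0, 0, 0, 0, 0, 0, 0]),
  (524084237896598457120000, [0, 0, 0, 0, 0, 0, 0, 0, 0, 0, 2, 0, 0, 0, 1, 0, 0, 0, 0, 0, 0, 0, 0, 0, 0, 0, 0]),
  (243328451664170234880000, [0, 0, 0, 0, 0, 0, 0, 0, 0, 0, 2, 0, 0, 0, 0, 0, 1, 0, 0, 0, 0, 0, 0, 0, 0, 0, 0]),
  (676709855723386779840000, [0, 0, 0, 0, 0, 0, 0, 0, 0, 0, 0, 0, 1, 0, 1, 0, 0, 0, 0, 0, 0, 0, 0, 0, 0, 0, 0]),
  (135595128653254987920000, [0, 0, 0, 0, 0, 0, 0, 0, 0, 0, 0, 0, 1, 0, 0, 0, 0, 1, 0, 0, 0, 0, 0, 0, 0, 0, 0]),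
  (68813862070301616240000, [0, 0, 0, 0, 0, 0, 0, 0, 0, 0, 0, 0, 1, 0, 0, 0, 0, 0, 0, 0, 0, -1, 0, 0, 0, 0, 0]),
  (42076749109034223360000, [0, 0, 0, 0, 0, 0, 0, 0, 0, 0, 0, 0, 1, 0, 0, 0, 0, 0, 0, 0, 0, 0, 0, 1, 0, 0, 0]),
  (62888906167359743520000, [0, 0, 0, 0, 0, 0, 0, 0, 0, 0, 0, 0, 1, 0, 0, 0, 0, 0, 0, 0, 0, 0, 0, 0, 0, 1, 0]),
  (538579312097684034240000, [0, 0, 0, 0, 0, 0, 0, 0, 0, 0, 0, 0, 0, 1, -1, 0, 0, 0, 0, 0, 0, 0, 0, 0, 0, 0, 0]),
  (466556768420968915200000, [0, 0, 0, 0, 0, 0, 0, 0, 0, 0, 0, 0, 0, 1, 0, 0, 1, 0, 0, 0, 0, 0, 0, 0, 0, 0, 0]),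
  (691178660815550790960000, [0, 0, 0, 0, 0, 0, 0, 0, 0, 0, 0, 0, 0, 1, 0, 0, 0, -1, 0, 0, 0, 0, 0, 0, 0, 0, 0]),
  (86184344719850207040000, [0, 0, 0, 0, 0, 0, 0, 0, 0, 0, 0, 0, 0, 1, 0, 0, 0, 0, 0, 0, 0, 1, 0, 0, 0, 0, 0]),
  (448059945078990236160000, [0, 0, 0, 0, 0, 0, 0, 0, 0, 0, 0, 0, 0, 1, 0, 0, 0, 0, 0, 0, 0, 0, 0, 1, 0, 0, 0]),
  (152707194602575018560000, [0, 0, 0, 0, 0, 0, 0, 0, 0, 0, 0, 0, 0, 1, 0, 0, 0, 0, 0, 0, 0, 0, 0, 0, 0, 1, 0]),
  (39117245573383446712320, [0, 0, 0, 0, 0, 0, 0, 0, 0, 0, 0, 0, 0, 0, 1, 1, 0, 0, 0, 0, 0, 0, 0, 0, 0, 0, 0]),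
  (398894454968645180160000, [0, 0, 0, 0, 0, 0, 0, 0, 0, 0, 0, 0, 0, 0, 1, 0, 0, 0, 0, 0, 0, -1, 0, 0, 0, 0, 0]),
  (40275747645700976640000, [0, 0, 0, 0, 0, 0, 0, 0, 0, 0, 0, 0, 0, 0, 1, 0, 0, 0, 0, 0, 0, 0, 0, 0, 0, -1, 0]),
  (348450761764345282560000, [0, 0, 0, 0, 0, 0, 0, 0, 0, 0, 0, 0, 0, 0, 0, 1, 0, 1, 0, 0, 0, 0, 0, 0, 0, 0, 0]),
  (264026383460462911680000, [0, 0, 0, 0, 0, 0, 0, 0, 0, 0, 0, 0, 0, 0, 0, 1, 0, 0, 0, 0, 0, 1, 0, 0, 0, 0, 0]),
  (41802339511685652480000, [0, 0, 0, 0, 0, 0, 0, 0, 0, 0, 0, 0, 0, 0, 0, 1, 0, 0, 0, 0, 0, 0, 0, 0, 0, -1, 0]),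
  (2060767365941516344876800, [0, 0, 0, 0, 0, 0, 0, 0, 0, 0, 0, 0, 0, 0, 0, 0, 1, -1, 0, 0, 0, 0, 0, 0, 0, 0, 0]),
  (620407427783372251545600, [0, 0, 0, 0, 0, 0, 0, 0, 0, 0, 0, 0, 0, 0, 0, 0, 1, 0, 0, 1, 0, 0, 0, 0, 0, 0, 0]),
  (597292203189213504000000, [0, 0, 0, 0, 0, 0, 0, 0, 0, 0, 0, 0, 0, 0, 0, 0, 1, 0, 0, 0, 0, 1, 0, 0, 0, 0, 0]),
  (2563691809822119069580800, [0, 0, 0, 0, 0, 0, 0, 0, 0, 0, 0, 0, 0, 0, 0, 0, 1, 0, -1, 0, 0, 0, 0, 0, 0, 0, 0]),
  (262373263860299199552000, [0, 0, 0, 0, 0, 0, 0, 0, 0, 0, 0, 0, 0, 0, 0, 0, 1, 0, 0, 0, -1, 0, 0, 0, 0, 0, 0]),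
  (173779940400833088000000, [0, 0, 0, 0, 0, 0, 0, 0, 0, 0, 0, 0, 0, 0, 0, 0, 1, 0, 0, 0, 0, 0, 1, 0, 0, 0, 0]),
  (2109168324316009650960000, [0, 0, 0, 0, 0, 0, 0, 0, 0, 0, 0, 0, 0, 0, 0, 0, 0, 1, 0, 0, 0, -1, 0, 0, 0, 0, 0]),
  (6113999675871272485440000, [0, 0, 0, 0, 0, 0, 0, 0, 0, 0, 0, 0, 0, 0, 0, 0, 0, 0, 1, 0, 0, 0, 1, 0, 0, 0, 0]),
  (110838103862602838400000, [0, 0, 0, 0, 0, 0, 0, 0, 0, 0, 0, 0, 0, 0, 0, 0, 0, 0, 0, 0, 0, 1, 0, -1, 0, 0, 0]),
  (12190801987773642240000, [0, 0, 0, 0, 0, 0, 0, 0, 0, 0, 0, 0, 0, 0, 0, 0, 0, 0, 0, 0, 0, 1, 0, 0, 0, -1, 0]),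
  (609648962454697551022468800, [1, 0, 0, 0, 0, 0, 0, 0, 0, 0, 0, 0, 0, 0, 0, 0, 0, 0, 0, 0, 0, 0, 0, 0, 0, 0, 0]),
  (2437997750349730225363008000, [0, 1, 0, 0, 0, 0, 0, 0, 0, 0, 0, 0, 0, 0, 0, 0, 0, 0, 0, 0, 0, 0, 0, 0, 0, 0, 0]),
  (569578472699237493699666600, [0, 0, 1, 0, 0, 0, 0, 0, 0, 0, 0, 0, 0, 0, 0, 0, 0, 0, 0, 0, 0, 0, 0, 0, 0, 0, 0]),
  (597883625335594337226561000, [0, 0, 0, 1, 0, 0, 0, 0, 0, 0, 0, 0, 0, 0, 0, 0, 0, 0, 0, 0, 0, 0, 0, 0, 0, 0, 0]),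
  (592695292980583507503877200, [0, 0, 0, 0, 1, 0, 0, 0, 0, 0, 0, 0, 0, 0, 0, 0, 0, 0, 0, 0, 0, 0, 0, 0, 0, 0, 0]),
  (2411820103888922009616072000, [0, 0, 0, 0, 0, 1, 0, 0, 0, 0, 0, 0, 0, 0, 0, 0, 0, 0, 0, 0, 0, 0, 0, 0, 0, 0, 0]),
  (606345572927509411579695000, [0, 0, 0, 0, 0, 0, 1, 0, 0, 0, 0, 0, 0, 0, 0, 0, 0, 0, 0, 0, 0, 0, 0, 0, 0, 0, 0]),
  (592981255712103881519610000, [0, 0, 0, 0, 0, 0, 0, 1, 0, 0, 0, 0, 0, 0, 0, 0, 0, 0, 0, 0, 0, 0, 0, 0, 0, 0, 0]),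
  (2369167620979464890994780000, [0, 0, 0, 0, 0, 0, 0, 0, 1, 0, 0, 0, 0, 0, 0, 0, 0, 0, 0, 0, 0, 0, 0, 0, 0, 0, 0]),
  (2417289674073758046446940000, [0, 0, 0, 0, 0, 0, 0, 0, 0, 1, 0, 0, 0, 0, 0, 0, 0, 0, 0, 0, 0, 0, 0, 0, 0, 0, 0]),
  (2408904813299883450660360000, [0, 0, 0, 0, 0, 0, 0, 0, 0, 0, 1, 0, 0, 0, 0, 0, 0, 0, 0, 0, 0, 0, 0, 0, 0, 0, 0]),
  (2436667081542202381523481600, [0, 0, 0, 0, 0, 0, 0, 0, 0, 0, 0, 1, 0, 0, 0, 0, 0, 0, 0, 0, 0, 0, 0, 0, 0, 0, 0]),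
  (608734171390135961313360000, [0, 0, 0, 0, 0, 0, 0, 0, 0, 0, 0, 0, 1, 0, 0, 0, 0, 0, 0, 0, 0, 0, 0, 0, 0, 0, 0]),
  (606699639762746429511360000, [0, 0, 0, 0, 0, 0, 0, 0, 0, 0, 0, 0, 0, 1, 0, 0, 0, 0, 0, 0, 0, 0, 0, 0, 0, 0, 0]),
  (607839146121358479878887680, [0, 0, 0, 0, 0, 0, 0, 0, 0, 0, 0, 0, 0, 0, 1, 0, 0, 0, 0, 0, 0, 0, 0, 0, 0, 0, 0]),
  (609551119571537095793527680, [0, 0, 0, 0, 0, 0, 0, 0, 0, 0, 0, 0, 0, 0, 0, 1, 0, 0, 0, 0, 0, 0, 0, 0, 0, 0, 0]),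
  (598106841236874510354820800, [0, 0, 0, 0, 0, 0, 0, 0, 0, 0, 0, 0, 0, 0, 0, 0, 1, 0, 0, 0, 0, 0, 0, 0, 0, 0, 0]),
  (601722114248492070743698200, [0, 0, 0, 0, 0, 0, 0, 0, 0, 0, 0, 0, 0, 0, 0, 0, 0, 1, 0, 0, 0, 0, 0, 0, 0, 0, 0]),
  (601803736539846765557299200, [0, 0, 0, 0, 0, 0, 0, 0, 0, 0, 0, 0, 0, 0, 0, 0, 0, 0, 1, 0, 0, 0, 0, 0, 0, 0, 0]),
  (609861020597756784860774400, [0, 0, 0, 0, 0, 0, 0, 0, 0, 0, 0, 0, 0, 0, 0, 0, 0, 0, 0, 1, 0, 0, 0, 0, 0, 0, 0]),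
  (608686526394359445973248000, [0, 0, 0, 0, 0, 0, 0, 0, 0, 0, 0, 0, 0, 0, 0, 0, 0, 0, 0, 0, 1, 0, 0, 0, 0, 0, 0]),
  (592111439676777022958340000, [0, 0, 0, 0, 0, 0, 0, 0, 0, 0, 0, 0, 0, 0, 0, 0, 0, 0, 0, 0, 0, 1, 0, 0, 0, 0, 0]),
  (604193648409268051538880000, [0, 0, 0, 0, 0, 0, 0, 0, 0, 0, 0, 0, 0, 0, 0, 0, 0, 0, 0, 0, 0, 0, 1, 0, 0, 0, 0]),
  (609549845613369858499680000, [0, 0, 0, 0, 0, 0, 0, 0, 0, 0, 0, 0, 0, 0, 0, 0, 0, 0, 0, 0, 0, 0, 0, 1, 0, 0, 0]),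
  (610481428025540157112320000, [0, 0, 0, 0, 0, 0, 0, 0, 0, 0, 0, 0, 0, 0, 0, 0, 0, 0, 0, 0, 0, 0, 0, 0, 1, 0, 0]),
  (609212862698695970621760000, [0, 0, 0, 0, 0, 0, 0, 0, 0, 0, 0, 0, 0, 0, 0, 0, 0, 0, 0, 0, 0, 0, 0, 0, 0, 1, 0]),
  (610198410889777800825907200, [0, 0, 0, 0, 0, 0, 0, 0, 0, 0, 0, 0, 0, 0, 0, 0, 0, 0, 0, 0, 0, 0, 0, 0, 0, 0, 1])]

def M6 : List (List ℤ) := [[1232581244114915575411507200000, -3386992602176621588879769600000, -5068943172020917578120560640000, -1488934191578039746331904000000, 2642853363701012034842787840000, -2726874494393883996947742720000, 463605421629861073492715520000, -776676887918139931078164480000, -2005823781159116708543201280000, -165965040174853705873489920000, -37102131571664143012331520000, -941881181071471342623129600000, -19012321285298794932111360000, 1043550467764785595243560960000, -48831734489606730547200000000, 1816393660654003138068480000, 247206138893252665965773942400,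 -2136656787882236607793921920000, 910945506244918800820469760000, 2573482634529178295331717120000, 1986452048509140509487267840000, 894311875422985392394076160000, 992002954525759894286499840000, -649170400066066181039063040000, -931005142186171144014397440000, 316605286874454830937538560000, 108818546347311412449116160000],
  [21211426496152986445216972800000, 2535284748846620621777633280000, 6380398832429819717176043520000, -3161130242358538677331722240000, 3775238021624388741082644480000, -460046542185215958025347840000, 3960220388824260415393136640000, -8996181372346751565703741440000, 829795871440801363911966720000, 5338108578827892807516487680000, 929625777808621944587550720000, -6212546947846943741326786560000, 5009131987954051749837373440000, 3267967462565655490166292480000, 2053575841537314500469719040000, -4185354867661530416404847808000, -2963142436152350248718221440000, -6178250404005057830425559040000,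 -24657233640043579555416145920000, -4784374090380376014352220160000, 2471757752384662531778150400000, 1131446548657102311980236800000, -3501364198162401949975511040000, 2299938108561019657172090880000, 769715681004974256878223360000, -1312869127399539269423431680000],
  [8816727762938745913765320000000, 541628409665189993302149840000, -5815923526461705071246606880000, 19804923815286140857517022720000, -1136781114259677902484896070000, 1217605734151536205458812340000, 4495882612139641926720328140000, 3171522362601393466622423460000, 3561134758674867478279486080000, 479310347405261679966726681600, 1371856356569116794878853120000, -3734826672731992804739727360000, -686206633926499388709027840000, -1853282957653141871374909440000, -4148769927357154632123367488000, 10053169358277084820525956960000, -2812371526885873497970360320000, -13473022111569370817327185920000, -9277211936255049322611425280000, -1583973212802871706338554360000,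 -2657555586952366287784181760000, 2215499341255341916016148480000, 3572074039400982121335275520000, -1120992532376691624921169920000, 173475348490777298794620825600],
  [2883297411685993894531319520000, -2027060817729634378832837760000, -9026824880390854720508559360000, -679529401319867076106636410000, 1302483383631295276801090680000, -1367278513295798876454420480000, -831574269523174272864965280000, -3130999559807234885160330240000, 45316185258818744333844480000, -1021733193415820219560396800000, 851548264041242421407658240000, 381238765566221668474293120000, 2549631785637822989922735840000, 2395862270274860034445906128000, -7574314380431844209882971680000, -759414228071106815169822720000, 2558289460913510994819072000000, 3252838538246151036420362880000, -1803264055295507078598797760000, 679801256343095141250293760000, 367708877547549905540698560000, -1811297710670645923305431040000, 288316587659253695190048960000,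 -198959551040240676263854080000],
  [2892857311364366141176872960000, -6617149250093592329304571680000, -1699218908489345179113676800000, -921244553449256891381950080000, -7571521300215417914897738280000, -2796390220886968549030871040000, 630119617171350499864903680000, -1090758469057855786664017920000, -107037395058145687709736960000, 549321775082806562921226240000, -196213425239535303542906880000, 748253984202412281009561600000, -288273015011574392346170265600, -3812326285452131903257670400000, -810846740576771439110922240000, 943989431517831852487434240000, -247313186210190680895651840000, 2800516637655423559054667520000, 3778775529518124048186040320000, -2855182380887747725790330880000, -1553892517954082000056320000000, 381870008040359415476551680000, 117001908294671092821811200000],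
  [26651688182978851495515942720000, 4088263971372398207786188800000, 126672246087017071245557760000, 9230194256535790430740807680000, 13195032209349025319269171200000, 12978384140290554209011601520000, -1682366547368713877353267200000, -163855992449319494123520000000, -1282364189566196027595816960000, -531668496624257301019361280000, -6860151461903311235543040000000, -12368396429392447189180315872000, 26615840302130628935155875840000, -1157294389946287585204961280000, -31709945120729694904531353600000, -15760359752886865890231091200000, 360286415170592266302750720000, -7917980091490904534652026880000, 3765773015582480830688624640000, 8980142741749416635761950720000, -1289304569691215387799552000000, 472282464734883971171942400000],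
  [1205232120210875362085007360000, -124722070280835718155171840000, 3570357319915212542301143040000, 2947457379976629254125977600000, -121722210171575282258841600000, 142356801633589759705251840000, -672641917469415620268756480000, 1279486422298468944330301440000, 103031220339857394886533120000, -756211576504723419317207040000, -53300341495004389345566720000, 2124484088676272011771610850000, 1924567915404550902057492480000, 532405593210951493651537920000, 1482339513201171407244564480000, -1038482089127018556996648960000, -2714738161999989819895971840000, 1561612643561901358008483840000, 683503388804278086491381760000, -42494612067074049787699200000, 47649224223563003542609920000],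
  [306923168979704052294533280000, -591560763035906606095319040000, 583860814511395624111964160000, -26366852038126237592915520000, -44152913345967293039585280000, -627206723302003284828613680000, 531508098308817981864814560000, 153414534043464866914936320000, 423740260644651440104930560000, -160717797077200356636518400000, -681781305842013346284994560000, -621980370683657109582151680000, -2092877120944779471138816000000, -361688193946544982500229120000, -302572606401006791332271040000, -155762781179357007911485440000, -57452212045151166137287680000, 38327846247847487791595520000, 96215019158910924982886400000, -73099100101697891887841280000],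
  [9287535988554766088055275520000, 2013944582806283337082306560000, -1646711521965849362806702080000, 2358727486518766318235320320000, 3117798854865378410520084480000, -3242795395644902978902425600000, -1533257625380083363676160000, -3147066204959878046550835200000, 2233491867194124716762204160000, 9785850833522546603058954240000, 4144352937571134929835048960000, 9457504316566899063537991680000, 3638551982354478168311808000000, -4197652016818774670652948480000, -6217791163027998895456174080000, 5352296391739930912129105920000, 2610383046785477462325657600000, -812664759677659617638891520000, -86062019086350417867079680000],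
  [4155405029293816404975697920000, 1348807166556189140682362880000, -2014464956979447857476730880000, -1936016611642662674202433440000, 2975788236904840313931340800000, -634392245611108351010488320000, -781820837382231625288826880000, -2549873227283421506452500480000, 3912098136419960939875368960000, 1337990847674902464571637760000, -7026359843238286373144985600000, -1327871266327459321169264640000, -1736771421584426597459066880000, -4110134239157685719005347840000, 2104321216850238021709086720000, 1126249930634811106259681280000, 195647137844029896350269440000, 447315798712303450723368960000],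
  [2677322517429502426448885760000, -670087762014903665406382080000, -368001292069106168548884480000, -285223758743927900063180160000, 368776608285870421186112640000, -1588839618317189598362419200000, -4378590542204765041631293440000, 6102872933946627490809937920000, -1939921177356687945555394560000, -12045169190985149479127777280000, -5584611693040492883861422080000, 2193640946560410599731691520000, 287992062914759237847859200000, -989023687327384768774471680000, 2429363636874829652883701760000, -149595943777005209206947840000, -83378675470013720384716800000],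
  [1280474245668288938932224000000, 486318645660909356454297600000, -1167096553968278938018775040000, 353797183636998225961697280000, -800942472456067694499102720000, 864953399305607777304330240000, 2522777673632848779421532160000, 420452577898804933124751360000, 1901960512578892187340226560000, -745520048579915086322073600000, -41757560215209429772124160000, -1096358305159719318558965760000, 278626123471847644954460160000, 939647354024216627858718720000, -552779848489199739347681280000, -243876873304717145156321280000],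
  [1101130291505688770195251200000, -2380997900824250423417856000000, -292900926724348568675978880000, -917427345266114894858895360000, 749255831331906592591994880000, 1802936677121783678966833440000, 308086020072817394460917760000, 4048310471953323779435151360000, 151902585792201488585564160000, -242094032670114512517984480000, 346288719298174727494533120000, 507926740418911091190689280000, 170133555473508227299614720000, -299572626567470063243244480000, 42457176058229159825203200000],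
  [1743203920234806965059891200000, 173379868633131208858696320000, 951877591574146371838771200000, -273001649894472711749967360000, -3079941999107906175642131040000, 462836475072887281842954240000, -2198313889642503026300067840000, 1532657403025927193672294400000, -2989910909485514362884480000, -549193386073889138701271040000, -443654674880834660971392000000, -780189417662843578420961280000, 594372381928303088629814400000, 50369920505366415038668800000],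
  [226308786281464109527019520000, 73907997943020673484906864640, -3879032138931669489745920000, -316913806079009405785128960000, -266527461358663868962529280000, -807634584236083240825896960000, 318909613111957687832248320000, 288350829178210474010012160000, 190097657162378089058672640000, -237854535254780549193768960000, 212956348823165345505730560000, 38549189638959792307200000000, -185232929214817505663631360000],
  [1002732498630557150670950400000, 1230122692033988070251888640000, -5864674093337810900717568000000, -535564793796832494089256960000, 1895199297639315574926458880000, 2218521052709707857171701760000, -267562523355301582655667840000, 1570886411215849024990371840000, -596012779728097168946503680000, -1699721005756730132852121600000, 400541104913584405728706560000, -20526835662835153649786880000],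
  [2056480254936489281864912640000, -5252091022935887222391798873600, 1609286572952737117209981158400, 11578461450608600727036486451200, 5545228502653603255315748736000, -1517485351441205161481518080000, 330407433849841834844574720000, 601377408012900946408611840000, -2008762126247373935387443200000, 158942707450226189480632320000, -77736351588791219436994560000],
  [10361485137648822110649192960000, 637893413019279265247723520000, -11218187894576579731522068480000, -9774977426548927448126423040000, 622290862313091768865229280000, -5682764094814057990787112960000, 2033236331789649972025098240000, 6273041931270069047716700160000, -1400319878017004882742067200000, 79041443189593372164956160000],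
  [1349090118949313611853660160000, 6531824715415008002130493440000, 3148705785846301787164262400000, -1340878109897443115880161280000, -2149506999245661214630181760000, 1613430753128998348413173760000, -267558690278149685347000320000, -82287674666780674571182080000, 150264380791567228153282560000],
  [18906675416717494559869255680000, 16225940007044159433415557120000, -4029004728673959361569177600000, 521693103671373953873756160000, 2446553211905347687523082240000, -5495128703804077048331550720000, 239022479447355326498979840000, 146578326616311102481489920000],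
  [5572096203318386938436136960000, -2405974655423831197650739200000, 406773919210957372801843200000, 1329387013294458208351027200000, -3402281700174281763356098560000, 819471655309941332905328640000, -87791391927396576498401280000],
  [1172776690082338195154045760000, 1960146193756210423478968320000, -1994801583050154520525013760000, 361574548743596802332221440000, 54694279650626469753984000000, -112590400549235133811507200000],
  [2299802045050825732752814080000, -2561499023150094397394411520000, -1697516407111694621152296960000, 444899904743238690604400640000, -113342247518058774445547520000],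
  [1157046772614961413570416640000, 512140125035531044179025920000, -283137144014946972217098240000, 119537116045093545541263360000],
  [1111051989303064509551800320000, -445046865972216559535554560000, -95164498772552705577984000000],
  [122946984958795200740597760000, 1490206922680661524684800000],
  [44432531513254527415234560000]]

def u6 : List ℤ := [0, 0, 9840981536271904562015109120000, 20350052046858233138049515520000, 9425491022844883850926325760000, 0, 0, 1977649111146021327726191539200, 4978311912296993069725040640000, 8348403742118284761948487680000, 0, 0, 0, 0, 0, 0, 0, -32437979419701013757340255360000, -14536616273441688927492479880000, 0, 0, 0, 39297315009987068061128048640000, 31826299629256987247391433680000, 16741419470646121665619391232000, 0, -6238797645519605530599459840000, -3300587870186048555502511920000, -24174564085707010748631613440000, 4510822147717601914666352640000, 0,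 0, -33190159418857237056986939904000, 49473585717569788756721263488000, 27829227041068533333029683200000, -41550149962440135690829182720000, -2590662952137705004945244160000, -79219695261144563430068090880000, -8021859989044457205367603200000, -1520057077002997008315678720000, 0, 3203769889824270777996410880000, 591263983544165387879254917120, -5561412978325455017988787077120, 0, -57989834003802830691805286400, -16844613475350981510937313280000, 2936168650650739669081620480000, -7368464063913944583517470720000, 0, 0, -3364733094737427754706534400000, -1005767042163430577695015680000, -1321398221740001805352148582400, -3350924870909210352200882073600, 7881413832975856888862325964800, 17545560282805624892762849280000, -15476977255286964443343609600000, 14953575060960657517732331520000, 0, 0, -8228834515434490026983424000000, 3687320455787161752227020800000, 12634900800540661484066373120000, 13646028437245646307568926720000,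 8021859989044457205367603200000, 14531149285232025104547840000, -1701695332887064973546618880000, 0, 3767524724285885370492518400000, -390653875916853844377600000000, 0, -1469342631783844872254914560000, 29790893893319521310369710080000, 2097568109606392997703843840000, -13593751267914761432909414400000, 30286085200861671659590953120000, -1341567102587552419703685120000, 0, -5515219697924519251452887040000, -36575656516209060228360453120000, -225772978083166353076715520000, 41203200727584599924035630080000, 20806183817939590942148444160000, -5787482481874254697116197400000, 6523923343487081762031943680000, 23319939474142885461322874880000, 0, -25447304799567016051023923760000, -30552913301558639917528350720000, -152098570282390359456890880000, 25002286361670165324764037120000, -7545259319794981146722304000000, -6213415103345119448625315840000, 3186483185280843562006609920000, 148408526286656572049326080000,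 67450674353280613802658054720000, 2812194526899917237861744640000, -15840881555297041661572546560000, 29080938539017629995159620800000, -10144616380909847502611742720000, -3568321877043684298084968960000, 0, 26192112597842754463699599360000, -5956098654224714610978518400000, -18382973126718572690595933600000, 25449088983439882157948436480000, -3119619317896241153981890560000, 4212107839923712037618319360000, -11894651511878801446758270720000, 0, 0, -42233734847239754107288043520000, 41996709929306499087433739040000, -30286085200861671659590953120000, -56601458059229354980798306560000, 4360800703715885453828751360000, 3193955241134580152753932080000, 0, -8710234802752133645547356160000, -4993729525947376013542686720000, -29403301333778917790282956800000, 3380473011629817264210739200000, -2966328964001478331951349760000, 5478002932206758024553431040000, -26490881893154798532508865280000, -1469200603197419770430914560000,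 38514713422762995820057313280000, 0, -7104882661083235533465354240000, 31849466093535982281110965440000, -25399011264726499640922931200000, -44775133571515157229383516160000, 16153403104739698805744271360000, -5895315810696779382462382080000, -3980985314622368672254279680000, 0, -19287514273648064100066103680000, -3362979084914965905594777600000, 9219324143562060941584713360000, -2408342627559018670055424000000, 15071964445613432718492425280000, 12614342186388109971172884480000, 3225942774735432018962997657600, 20835461857166691718055829120000, 0, -7369956427594055131055600640000, -24425126317441062295473162240000, -21070560808086014056896630720000, 33476028581391434880005122560000, 9234156888864221358688267680000, 0, 0, 19166898162198880275567249024000, 0, 0, 0, 33882656675365445827247044761600, 0, 0, -2306184120092595138769362124800, 0, 70446777594254392795028896665600, -19166898162198880275567249024000,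 0, 0, 0, -49473585717569788756721263488000, 0, 6812386112329939371261265920000, 0, 3049910124529773347794344960000, 0, -35531515567140606562978033920000, -24749156623591158327534551040000, 0, 10186861863062982937547312640000, 0, 0, 20397054285102583919381886720000, 0, 0, 3102370905434992266575808000000, 0, 13191149336682999853890996480000, -32522761631439630991293678720000, -15834320361940848710733987840000, 7938419861692724430274738560000, 9297601047791972485942916880000, 0, 11630274822350212335524904960000, -26738136780529389706611267840000, 19495657001500512477776374320000, 25956768280581108418023203040000, 12231333651145114543068057600000, 9729093732765565283350364160000, 0, 0, 0, -17145317467736437193791557120000, 10419867069050362214408725440000, 0, 0, 0, 26740512759564507173313576960000, -64059838160825140914069377280000, 0, 26468597000374369317218286720000, 38145997845502362243427991040000, -29644047398591804637173514240000,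 -81190025050399535962284284160000, -48488013621000851274719919360000, 156582706641732946710372908160000, -44907867068010967985806074240000, 70533822103509967310122560000000, -36063089995291487013658953600000, 0, 72252681683657096681412675840000, 0, 9758887593278098518102343680000, -6164785006131329874316984320000, -15047524438413057123612387840000, -530553793430844412472033280000, 2480261827603985942022213120000, 1472005168276424674195537920000, 8078724120616123060527759360000, 0, 594034416700748657962352640000, -17457947268771383565264138240000, 22562247518209725130707517440000, 824249762718859159092264960000, 4399078241564180150238904320000, -25417252432702905168829034880000, 3088741224501233631533629440000, -426402731960035114764533760000, 17260565086546171862976241920000, 13183085156537482228529706240000, 4657279266411606024219832320000, -613032663886958862814982400000, 18804497187920429320912644480000,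 -3530687461287974004109639680000, -7005106660556352134066595840000, 10199492909133686025810001920000, -17702931555510632609649690240000, -4604656006769220456533821440000, -6552660716241411740383860480000, 18158293230597291316204356480000, -7845388300488701262072890880000, -8933967468776498867048816640000, -6049692612037787354537656320000, -2514701789177996464638197760000, 0, -4706576240816836988769323520000, 5745916775074496250142805760000, -3459813597222431109217320960000, -15537841080813869551905306240000, 21314663923383434583175512960000, 917485111585014716224373760000, -2147222724028150917313267200000, 0, -8809042332045510161562009600000, 1797499997215243791846163200000, 9900367253465497036735610880000, 0, -16480268772175468574615347200000, 0, 0, 0, -324825423445739880174551040000, 3459813597222431109217320960000, 0, -31032257111453355917967360000, 0, 0, 0, -1257661642511234513418485760000, 1613519323068427749511004160000,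 -9840981536271904562015109120000, 9860649952919324603292057600000, -11911473532624317970655232000000, 3708843373038888587941724160000, -1977649111146021327726191539200, -20737036328037568065633254400000, -25521595329719278868704174080000, 1840186168740863832101391360000, -16741419470646121665619391232000, 22638927427514214463436751360000, -149528215062638214162596006400000, -7536519235364821404373641600000, -80880915639917871062406823680000, 103683486269553935880208953600000, 76105086999147101794268966400000, 33190159418857237056986939904000, 42605634235647435914331175680000, -13914283971133009103747627520000, -20704058273674837559721000960000, 23066379293487951156250556160000, -52241081461402244938713768960000, -5436235210558936608853091280000, -8173865547326561756483174400000, -57556858131170326418384482560000, 15789550462315164312086615040000, 2306184120092595138769362124800, -24088869948385091364885780480000,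 53303376365957702991031885440000, 4260721621931677934530007040000, 1553319372737125078369320960000, 486888840686301129035366400000, 426402731960035114764533760000, -1373404365447087113491115520000, 11927464766398678152323727360000, -37514252391763352164179816960000, -8093112252259618972859385600000, -1417448291906738349812736000000, -5017653786416026278628909440000, 5633867648253198401738530560000, 936116193687282485595648000000, 3789864548120521945921996800000, 4343796496320289102823178240000, 6034054046983056159639920640000, -1797529726490626299012226560000, -797253650516832929935764480000, 842959158928695281735700480000, -3293423043931698725613404160000, 26448329637595559033573990400000, -103894905870596433224177280000, 2697614333112378281364725760000, 788525362023532798357808640000, -10199492909133686025810001920000, 5354645034859004852897771520000, -1340175524029807330812764160000, 2321463438116346790966210560000,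 -5106066020065499095330375680000, -17514362168819060166525173760000, 8809042332045510161562009600000, -19047983206594003387342848000000, -2343207413794788549407831040000, -7339418762128919158871162880000, 5994046650655252740735959040000, -5994046650655252740735959040000, -3321907138553615010122008320000, 3382879701457255820327055360000, -2566409716772677145246768640000, 13945631361878455720479129600000, 1387038949065049670869570560000, -2184013199155781693999738880000, 15030080968248485006818406400000, 10220969054620714044032824320000, -428479728395302974087290880000, 1798837696074053273310766080000, 684228933480418752653660160000, 3080107019173091540948582400000, -7757508179662971171632870400000, 3286436181960015860428800000000, 16451842039491914254919301120000, -16451842039491914254919301120000, -48453874475298046247974315622400, 14571217799932600420727270860800, -1952017781205576865619955916800, -68494759813048815929408940748800,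 -31937119188959603899964436480000, 8713200876563555324682670080000, 45566514200353984359515965440000, 37471973486658102688394004480000, 9970022553020234864669502720000, -10369423011834401376584862720000, -899210879857736332352040960000]

theorem gr6 : eqM (gramT rows6) M6 = true := by
  decide +kernel

theorem mv6 : eqZ (mval M6 tab6) u6 = true := by
  decide +kernel

theorem nn6 (E : Env κ ι) : 0 ≤ dot (ek E keys) u6 0 :=
  block_nonneg E _ _ _ _ _ (tri6 E) rows6 M6 gr6 u6 mv6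

end

def p15_0_0 : Cov := [(6, 0, 3, [(0, [0], [1, 2]), (0, [1], [1, 3]), (0, [2], [2, 3]), (3, [], [0])])]

def c15_0 : Cov := p15_0_0

def p15_1_0 : Cov := [(1, 0, 3, [(0, [0], [1, 2]), (0, [1], [1, 3]), (0, [2], [0, 2]), (3, [], [3])]),
  (1, 0, 3, [(0, [0], [1, 2]), (0, [1], [1, 3]), (0, [2], [0, 3]), (3, [], [2])]),
  (1, 0, 3, [(0, [0], [1, 2]), (0, [1], [0, 1]), (0, [2], [2, 3]), (3, [], [3])]),
  (1, 0, 3, [(0, [0], [1, 2]), (0, [1], [0, 3]), (0, [2], [1, 3]), (3, [], [2])]),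
  (1, 0, 3, [(0, [0], [0, 1]), (0, [1], [1, 2]), (0, [2], [2, 3]), (3, [], [3])]),
  (1, 0, 3, [(0, [0], [0, 1]), (0, [1], [2, 3]), (0, [2], [1, 2]), (3, [], [3])])]

def c15_1 : Cov := p15_1_0

theorem t15_0_0_0 : chkF keys 3 1 p15_0_0 c15_0
  [(377, 288, 288, 103956741, 100881441)]
  [(377, 36)] = true := by
  decide +kernel

theorem t15_0_1_0 : chkF keys 3 1 p15_0_0 c15_1
  [(295, 513, 513, 20981046, 2429796), (295, 528, 528, 68178486, 3543636), (295, 513, 513, 104867121, 103092996), (295, 288, 288, 68178726, 3547476), (295, 528, 528, 104878641, 104141316), (295, 288, 288, 104878881, 104145156)]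
  [(295, 36)] = true := by
  decide +kernel

theorem t15_1_1_0 : chkF keys 3 1 p15_1_0 c15_1
  [(294, 513, 513, 56759301, 84042801), (290, 513, 513, 40047621, 84035121), (287, 513, 513, 106107906, 106053681), (291, 513, 513, 40178691, 88213041), (291, 18, 18, 17064531, 51642981), (289, 513, 513, 52761606, 4351281), (290, 528, 528, 102973701, 100877601), (294, 528, 528, 103956741, 100881441), (291, 33, 258, 17049171, 34866021), (289, 528, 528, 87179526, 6509601), (287, 528, 528, 106119426, 106119201), (291, 528, 528, 106053891, 106103841), (287, 33, 258, 104140866, 104943666), (291, 33, 258, 40177731, 88147506), (294, 33, 258, 52826181, 67200306), (290, 33, 258, 40046661, 83969586), (289, 33, 258, 52760646, 4285746), (291, 258, 33, 17065251, 52691301), (291, 513, 513, 20981331, 34931556), (289, 288, 288, 87179526, 6509601), (290, 288, 288, 103956741, 100881441), (294, 288, 288, 103956741, 100881441),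 (291, 288, 288, 106053891, 106103841), (287, 288, 288, 106119426, 106119201), (291, 18, 18, 103092291, 104924466), (287, 18, 18, 56954946, 88170546), (289, 18, 18, 52760646, 4285746), (291, 288, 288, 68183331, 52822356), (294, 18, 18, 52826181, 67200306), (290, 18, 18, 103944261, 100750386), (289, 258, 33, 55709766, 5334066), (291, 528, 528, 68183331, 52822356), (291, 258, 33, 106041411, 105972786), (287, 258, 33, 56954946, 88170546), (290, 258, 33, 103944261, 100750386), (294, 258, 33, 52826181, 67200306)]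
  [(287, 6), (289, 6), (290, 6), (291, 12), (294, 6)] = true := by
  decide +kernel

section

variable {κ ι : Type*} [Fintype κ] [Fintype ι] [Inhabited κ] [Inhabited ι]

def r15_0_0 : List (ℕ × ℤ) := [(377, 36)]

theorem h15_0_0 (E : Env κ ι) : inn E 3 1 c15_0 c15_0 = dotS (ek E keys) r15_0_0 :=
  innS_eqZ E _ _ _ _ _ _ _ (chkF_sound E keys 3 1 _ _ _ _ t15_0_0_0) (by decide +kernel)

def r15_0_1 : List (ℕ × ℤ) := [(295, 36)]

theorem h15_0_1 (E : Env κ ι) : inn E 3 1 c15_0 c15_1 = dotS (ek E keys) r15_0_1 :=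
  innS_eqZ E _ _ _ _ _ _ _ (chkF_sound E keys 3 1 _ _ _ _ t15_0_1_0) (by decide +kernel)

def r15_1_1 : List (ℕ × ℤ) := [(287, 6), (289, 6), (290, 6), (291, 12), (294, 6)]

theorem h15_1_1 (E : Env κ ι) : inn E 3 1 c15_1 c15_1 = dotS (ek E keys) r15_1_1 :=
  innS_eqZ E _ _ _ _ _ _ _ (chkF_sound E keys 3 1 _ _ _ _ t15_1_1_0) (by decide +kernel)

theorem row15_0 (E : Env κ ι) : RowS E 3 1 (ek E keys) c15_0 [c15_0, c15_1] [r15_0_0, r15_0_1] :=
  rowS_cons E _ _ _ _ _ _ _ _ (h15_0_0 E) (rowS_cons E _ _ _ _ _ _ _ _ (h15_0_1 E) (rowS_nil E _ _ _ _))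

theorem row15_1 (E : Env κ ι) : RowS E 3 1 (ek E keys) c15_1 [c15_1] [r15_1_1] :=
  rowS_cons E _ _ _ _ _ _ _ _ (h15_1_1 E) (rowS_nil E _ _ _ _)

def tab15 : List (List (List (ℕ × ℤ))) := [[r15_0_0, r15_0_1], [r15_1_1]]

theorem tri15 (E : Env κ ι) : TriS E 3 1 (ek E keys) [c15_0, c15_1] tab15 := by
  refine triS_cons E _ _ _ _ _ _ _ (row15_0 E) ?_
  refine triS_cons E _ _ _ _ _ _ _ (row15_1 E) ?_
  exact triS_nil E _ _ _

def rows15 : List (ℕ × List ℤ) := [(15423851520000, [4194304, -127]),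
  (271339265461288509112320000, [0, 1]),
  (168143391173517970560000, [1, -1]),
  (271321831338375877792320000, [1, 0]),
  (271155960420494471656320000, [0, 1])]

def M15 : List (List ℤ) := [[542829240190837904875200000, -352718632166974429440000],
  [542663369521727799905280000]]

def u15 : List ℤ := [0, 0, 0, 0, 0, 0, 0, 0, 0, 0, 0, 0, 0, 0, 0, 0, 0, 0, 0, 0, 0, 0, 0, 0, 0, 0, 0, 0, 0, 0, 0, 0, 0, 0, 0, 0, 0, 0, 0, 0, 0, 0, 0, 0, 0, 0, 0, 0, 0, 0, 0, 0, 0, 0, 0, 0, 0, 0, 0, 0, 0, 0, 0, 0, 0, 0, 0, 0, 0, 0, 0, 0, 0, 0, 0, 0, 0, 0, 0, 0, 0, 0, 0, 0, 0, 0, 0, 0, 0, 0, 0, 0, 0, 0, 0, 0, 0, 0, 0, 0, 0, 0, 0, 0, 0, 0, 0, 0, 0, 0, 0, 0, 0, 0, 0, 0, 0, 0, 0, 0, 0, 0, 0, 0, 0, 0, 0, 0, 0, 0, 0, 0, 0, 0, 0, 0, 0, 0, 0, 0, 0, 0, 0, 0, 0, 0, 0, 0, 0, 0, 0, 0, 0, 0, 0, 0, 0, 0, 0, 0, 0, 0, 0, 0, 0, 0, 0, 0, 0, 0, 0, 0, 0, 0, 0, 0, 0, 0, 0, 0, 0, 0, 0, 0, 0, 0, 0, 0, 0, 0, 0, 0, 0, 0, 0, 0, 0, 0, 0, 0, 0, 0, 0,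 0, 0, 0, 0, 0, 0, 0, 0, 0, 0, 0, 0, 0, 0, 0, 0, 0, 0, 0, 0, 0, 0, 0, 0, 0, 0, 0, 0, 0, 0, 0, 0, 0, 0, 0, 0, 0, 0, 0, 0, 0, 0, 0, 0, 0, 0, 0, 0, 0, 0, 0, 0, 0, 0, 0, 0, 0, 0, 0, 0, 0, 0, 0, 0, 0, 0, 0, 0, 0, 0, 0, 0, 0, 0, 0, 0, 0, 0, 0, 0, 0, 0, 0, 0, 3255980217130366799431680000, 0, 3255980217130366799431680000, 3255980217130366799431680000, 6511960434260733598863360000, 0, 0, 3255980217130366799431680000, -12697870758011079459840000, 0, 0, 0, 0, 0, 0, 0, 0, 0, 0, 0, 0, 0, 0, 0, 0, 0, 0, 0, 0, 0, 0, 0, 0, 0, 0, 0, 0, 0, 0, 0, 0, 0, 0, 0, 0, 0, 0, 0, 0, 0, 0, 0, 0, 0, 0, 0, 0, 0, 0, 0, 0, 0, 0, 0, 0, 0, 0, 0, 0, 0, 0, 0, 0, 0, 0, 0, 0, 0, 0, 0, 0, 0, 0, 0, 0, 0, 0, 0, 0, 0, 19541852646870164575507200000]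

theorem gr15 : eqM (gramT rows15) M15 = true := by
  decide +kernel

theorem mv15 : eqZ (mval M15 tab15) u15 = true := by
  decide +kernel

theorem nn15 (E : Env κ ι) : 0 ≤ dot (ek E keys) u15 0 :=
  block_nonneg E _ _ _ _ _ (tri15 E) rows15 M15 gr15 u15 mv15

end

def p16_0_0 : Cov := [(1, 0, 3, [(0, [0], [1, 2]), (0, [1], [1, 3]), (0, [2], [0, 2]), (3, [], [3])]),
  (-1, 0, 3, [(0, [0], [1, 2]), (0, [1], [1, 3]), (0, [2], [0, 3]), (3, [], [2])]),
  (-1, 0, 3, [(0, [0], [1, 2]), (0, [1], [0, 1]), (0, [2], [2, 3]), (3, [], [3])]),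
  (1, 0, 3, [(0, [0], [1, 2]), (0, [1], [0, 3]), (0, [2], [1, 3]), (3, [], [2])]),
  (1, 0, 3, [(0, [0], [0, 1]), (0, [1], [1, 2]), (0, [2], [2, 3]), (3, [], [3])]),
  (-1, 0, 3, [(0, [0], [0, 1]), (0, [1], [2, 3]), (0, [2], [1, 2]), (3, [], [3])])]

def c16_0 : Cov := p16_0_0

theorem t16_0_0_0 : chkF keys 3 1 p16_0_0 c16_0
  [(294, 513, 513, 56759301, 84042801), (290, 513, 513, 40047621, 84035121), (287, 513, 513, 106107906, 106053681), (291, 513, 513, 40178691, 88213041), (291, 18, 18, 17064531, 51642981), (289, 513, 513, 52761606, 4351281), (290, 528, 528, 102973701, 100877601), (294, 528, 528, 103956741, 100881441), (291, 33, 258, 17049171, 34866021), (289, 528, 528, 87179526, 6509601), (287, 528, 528, 106119426, 106119201), (291, 528, 528, 106053891, 106103841), (287, 33, 258, 104140866, 104943666), (291, 33, 258, 40177731, 88147506), (294, 33, 258, 52826181, 67200306), (290, 33, 258, 40046661,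 83969586), (289, 33, 258, 52760646, 4285746), (291, 258, 33, 17065251, 52691301), (291, 513, 513, 20981331, 34931556), (289, 288, 288, 87179526, 6509601), (290, 288, 288, 103956741, 100881441), (294, 288, 288, 103956741, 100881441), (291, 288, 288, 106053891, 106103841), (287, 288, 288, 106119426, 106119201), (291, 18, 18, 103092291, 104924466), (287, 18, 18, 56954946, 88170546), (289, 18, 18, 52760646, 4285746), (291, 288, 288, 68183331, 52822356), (294, 18, 18, 52826181, 67200306), (290, 18, 18, 103944261, 100750386), (289, 258, 33, 55709766, 5334066), (291, 528, 528, 68183331, 52822356), (291, 258, 33, 106041411, 105972786), (287, 258, 33, 56954946, 88170546), (290, 258, 33, 103944261, 100750386), (294, 258, 33, 52826181, 67200306)]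
  [(287, -6), (289, -6), (290, -6), (291, 12), (294, 6)] = true := by
  decide +kernel

section

variable {κ ι : Type*} [Fintype κ] [Fintype ι] [Inhabited κ] [Inhabited ι]

def r16_0_0 : List (ℕ × ℤ) := [(287, -6), (289, -6), (290, -6), (291, 12), (294, 6)]

theorem h16_0_0 (E : Env κ ι) : inn E 3 1 c16_0 c16_0 = dotS (ek E keys) r16_0_0 :=
  innS_eqZ E _ _ _ _ _ _ _ (chkF_sound E keys 3 1 _ _ _ _ t16_0_0_0) (by decide +kernel)

theorem row16_0 (E : Env κ ι) : RowS E 3 1 (ek E keys) c16_0 [c16_0] [r16_0_0] :=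
  rowS_cons E _ _ _ _ _ _ _ _ (h16_0_0 E) (rowS_nil E _ _ _ _)

def tab16 : List (List (List (ℕ × ℤ))) := [[r16_0_0]]

theorem tri16 (E : Env κ ι) : TriS E 3 1 (ek E keys) [c16_0] tab16 := by
  refine triS_cons E _ _ _ _ _ _ _ (row16_0 E) ?_
  exact triS_nil E _ _ _

def rows16 : List (ℕ × List ℤ) := [(103066736378155994405928960000, [1]),
  (271324103811667989626880000, [1])]

def M16 : List (List ℤ) := [[103338060481967662395555840000]]

def u16 : List ℤ := [0, 0, 0, 0, 0, 0, 0, 0, 0, 0, 0, 0, 0, 0, 0, 0, 0, 0, 0, 0, 0, 0, 0, 0, 0, 0, 0, 0, 0, 0, 0, 0, 0, 0, 0, 0, 0, 0, 0, 0, 0, 0, 0, 0, 0, 0, 0, 0, 0, 0, 0, 0, 0, 0, 0, 0, 0, 0, 0, 0, 0, 0, 0, 0, 0, 0, 0, 0, 0, 0, 0, 0, 0, 0, 0, 0, 0, 0, 0, 0, 0, 0, 0, 0, 0, 0, 0, 0, 0, 0, 0, 0, 0, 0, 0, 0, 0, 0, 0, 0, 0, 0, 0, 0, 0, 0, 0, 0, 0, 0, 0, 0, 0, 0, 0, 0, 0, 0, 0, 0, 0, 0, 0, 0, 0, 0, 0, 0, 0, 0, 0, 0, 0, 0, 0, 0, 0, 0, 0, 0, 0, 0, 0, 0, 0, 0, 0, 0, 0, 0,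 0, 0, 0, 0, 0, 0, 0, 0, 0, 0, 0, 0, 0, 0, 0, 0, 0, 0, 0, 0, 0, 0, 0, 0, 0, 0, 0, 0, 0, 0, 0, 0, 0, 0, 0, 0, 0, 0, 0, 0, 0, 0, 0, 0, 0, 0, 0, 0, 0, 0, 0, 0, 0, 0, 0, 0, 0, 0, 0, 0, 0, 0, 0, 0, 0, 0, 0, 0, 0, 0, 0, 0, 0, 0, 0, 0, 0, 0, 0, 0, 0, 0, 0, 0, 0, 0, 0, 0, 0, 0, 0, 0, 0, 0, 0, 0, 0, 0, 0, 0, 0, 0, 0, 0, 0, 0, 0, 0, 0, 0, 0, 0, 0, 0, 0, 0, 0, 0, 0, 0, 0, 0, 0, 0, 0, 0, 0, 0, 0, 0, 0, 0, 0, 0, 0, 0, 0, -620028362891805974373335040000, 0, -620028362891805974373335040000, -620028362891805974373335040000, 1240056725783611948746670080000, 0, 0, 620028362891805974373335040000]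

theorem gr16 : eqM (gramT rows16) M16 = true := by
  decide +kernel

theorem mv16 : eqZ (mval M16 tab16) u16 = true := by
  decide +kernel

theorem nn16 (E : Env κ ι) : 0 ≤ dot (ek E keys) u16 0 :=
  block_nonneg E _ _ _ _ _ (tri16 E) rows16 M16 gr16 u16 mv16

end

def p17_0_0 : Cov := [(1, 0, 2, [(0, [0], [3, 4]), (1, [], [3, 4]), (3, [], [0]), (0, [1], [1, 2])])]

def c17_0 : Cov := p17_0_0

def p17_1_0 : Cov := [(1, 0, 2, [(0, [0], [3, 4]), (1, [], [0, 3]), (3, [], [4]), (0, [1], [1, 2])])]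

def c17_1 : Cov := p17_1_0

def p17_2_0 : Cov := [(1, 0, 2, [(0, [0], [0, 3]), (1, [], [3, 4]), (3, [], [4]), (0, [1], [1, 2])])]

def c17_2 : Cov := p17_2_0

def p17_3_0 : Cov := [(1, 0, 1, [(0, [0], [0, 3]), (3, [], [3]), (0, [1], [1, 2])])]

def c17_3 : Cov := p17_3_0

theorem t17_0_0_0 : chkF keys 2 3 p17_0_0 c17_0
  [(280, 1, 1, 106111236, 105923361)]
  [(280, 1)] = true := by
  decide +kernel

theorem t17_0_1_0 : chkF keys 2 3 p17_0_0 c17_1
  [(8, 16, 16, 52495686, 2188611)]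
  [(8, 1)] = true := by
  decide +kernel

theorem t17_0_2_0 : chkF keys 2 3 p17_0_0 c17_2
  [(8, 16, 16, 102827331, 102827331)]
  [(8, 1)] = true := by
  decide +kernel

theorem t17_0_3_0 : chkF keys 2 3 p17_0_0 c17_3
  [(69, 1, 1, 5517570, 5517345)]
  [(69, 1)] = true := by
  decide +kernel

theorem t17_1_1_0 : chkF keys 2 3 p17_1_0 c17_1
  [(92, 1, 1, 106180866, 106180641)]
  [(92, 1)] = true := by
  decide +kernel

theorem t17_1_2_0 : chkF keys 2 3 p17_1_0 c17_2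
  [(29, 1, 1, 52842756, 70280481)]
  [(29, 1)] = true := by
  decide +kernel

theorem t17_1_3_0 : chkF keys 2 3 p17_1_0 c17_3
  [(67, 1, 1, 5517570, 5517345)]
  [(67, 1)] = true := by
  decide +kernel

theorem t17_2_2_0 : chkF keys 2 3 p17_2_0 c17_2
  [(79, 1, 1, 106111236, 105923361)]
  [(79, 1)] = true := by
  decide +kernel

theorem t17_2_3_0 : chkF keys 2 3 p17_2_0 c17_3
  [(46, 16, 16, 2425905, 4330755)]
  [(46, 1)] = true := by
  decide +kernel

theorem t17_3_3_0 : chkF keys 2 3 p17_3_0 c17_3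
  [(61, 1, 1, 274690, 274465)]
  [(61, 1)] = true := by
  decide +kernel

section

variable {κ ι : Type*} [Fintype κ] [Fintype ι] [Inhabited κ] [Inhabited ι]

def r17_0_0 : List (ℕ × ℤ) := [(280, 1)]

theorem h17_0_0 (E : Env κ ι) : inn E 2 3 c17_0 c17_0 = dotS (ek E keys) r17_0_0 :=
  innS_eqZ E _ _ _ _ _ _ _ (chkF_sound E keys 2 3 _ _ _ _ t17_0_0_0) (by decide +kernel)

def r17_0_1 : List (ℕ × ℤ) := [(8, 1)]

theorem h17_0_1 (E : Env κ ι) : inn E 2 3 c17_0 c17_1 = dotS (ek E keys) r17_0_1 :=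
  innS_eqZ E _ _ _ _ _ _ _ (chkF_sound E keys 2 3 _ _ _ _ t17_0_1_0) (by decide +kernel)

def r17_0_2 : List (ℕ × ℤ) := [(8, 1)]

theorem h17_0_2 (E : Env κ ι) : inn E 2 3 c17_0 c17_2 = dotS (ek E keys) r17_0_2 :=
  innS_eqZ E _ _ _ _ _ _ _ (chkF_sound E keys 2 3 _ _ _ _ t17_0_2_0) (by decide +kernel)

def r17_0_3 : List (ℕ × ℤ) := [(69, 1)]

theorem h17_0_3 (E : Env κ ι) : inn E 2 3 c17_0 c17_3 = dotS (ek E keys) r17_0_3 :=
  innS_eqZ E _ _ _ _ _ _ _ (chkF_sound E keys 2 3 _ _ _ _ t17_0_3_0) (by decide +kernel)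

def r17_1_1 : List (ℕ × ℤ) := [(92, 1)]

theorem h17_1_1 (E : Env κ ι) : inn E 2 3 c17_1 c17_1 = dotS (ek E keys) r17_1_1 :=
  innS_eqZ E _ _ _ _ _ _ _ (chkF_sound E keys 2 3 _ _ _ _ t17_1_1_0) (by decide +kernel)

def r17_1_2 : List (ℕ × ℤ) := [(29, 1)]

theorem h17_1_2 (E : Env κ ι) : inn E 2 3 c17_1 c17_2 = dotS (ek E keys) r17_1_2 :=
  innS_eqZ E _ _ _ _ _ _ _ (chkF_sound E keys 2 3 _ _ _ _ t17_1_2_0) (by decide +kernel)

def r17_1_3 : List (ℕ × ℤ) := [(67, 1)]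

theorem h17_1_3 (E : Env κ ι) : inn E 2 3 c17_1 c17_3 = dotS (ek E keys) r17_1_3 :=
  innS_eqZ E _ _ _ _ _ _ _ (chkF_sound E keys 2 3 _ _ _ _ t17_1_3_0) (by decide +kernel)

def r17_2_2 : List (ℕ × ℤ) := [(79, 1)]

theorem h17_2_2 (E : Env κ ι) : inn E 2 3 c17_2 c17_2 = dotS (ek E keys) r17_2_2 :=
  innS_eqZ E _ _ _ _ _ _ _ (chkF_sound E keys 2 3 _ _ _ _ t17_2_2_0) (by decide +kernel)

def r17_2_3 : List (ℕ × ℤ) := [(46, 1)]

theorem h17_2_3 (E : Env κ ι) : inn E 2 3 c17_2 c17_3 = dotS (ek E keys) r17_2_3 :=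
  innS_eqZ E _ _ _ _ _ _ _ (chkF_sound E keys 2 3 _ _ _ _ t17_2_3_0) (by decide +kernel)

def r17_3_3 : List (ℕ × ℤ) := [(61, 1)]

theorem h17_3_3 (E : Env κ ι) : inn E 2 3 c17_3 c17_3 = dotS (ek E keys) r17_3_3 :=
  innS_eqZ E _ _ _ _ _ _ _ (chkF_sound E keys 2 3 _ _ _ _ t17_3_3_0) (by decide +kernel)

theorem row17_0 (E : Env κ ι) : RowS E 2 3 (ek E keys) c17_0 [c17_0, c17_1, c17_2, c17_3] [r17_0_0, r17_0_1, r17_0_2, r17_0_3] :=
  rowS_cons E _ _ _ _ _ _ _ _ (h17_0_0 E) (rowS_cons E _ _ _ _ _ _ _ _ (h17_0_1 E) (rowS_cons E _ _ _ _ _ _ _ _ (h17_0_2 E) (rowS_cons E _ _ _ _ _ _ _ _ (h17_0_3 E) (rowS_nil E _ _ _ _))))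

theorem row17_1 (E : Env κ ι) : RowS E 2 3 (ek E keys) c17_1 [c17_1, c17_2, c17_3] [r17_1_1, r17_1_2, r17_1_3] :=
  rowS_cons E _ _ _ _ _ _ _ _ (h17_1_1 E) (rowS_cons E _ _ _ _ _ _ _ _ (h17_1_2 E) (rowS_cons E _ _ _ _ _ _ _ _ (h17_1_3 E) (rowS_nil E _ _ _ _)))

theorem row17_2 (E : Env κ ι) : RowS E 2 3 (ek E keys) c17_2 [c17_2, c17_3] [r17_2_2, r17_2_3] :=
  rowS_cons E _ _ _ _ _ _ _ _ (h17_2_2 E) (rowS_cons E _ _ _ _ _ _ _ _ (h17_2_3 E) (rowS_nil E _ _ _ _))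

theorem row17_3 (E : Env κ ι) : RowS E 2 3 (ek E keys) c17_3 [c17_3] [r17_3_3] :=
  rowS_cons E _ _ _ _ _ _ _ _ (h17_3_3 E) (rowS_nil E _ _ _ _)

def tab17 : List (List (List (ℕ × ℤ))) := [[r17_0_0, r17_0_1, r17_0_2, r17_0_3], [r17_1_1, r17_1_2, r17_1_3], [r17_2_2, r17_2_3], [r17_3_3]]

theorem tri17 (E : Env κ ι) : TriS E 2 3 (ek E keys) [c17_0, c17_1, c17_2, c17_3] tab17 := by
  refine triS_cons E _ _ _ _ _ _ _ (row17_0 E) ?_
  refine triS_cons E _ _ _ _ _ _ _ (row17_1 E) ?_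
  refine triS_cons E _ _ _ _ _ _ _ (row17_2 E) ?_
  refine triS_cons E _ _ _ _ _ _ _ (row17_3 E) ?_
  exact triS_nil E _ _ _

def rows17 : List (ℕ × List ℤ) := [(555339939840000, [4194304, -441, -270, 89]),
  (555339939840000, [0, 4194304, 15, -95]),
  (142167024599040000, [0, 0, 262144, -11]),
  (9769643539560069007933440000, [0, 0, 0, 1]),
  (9767702848408642513797120000, [1, 0, 0, 0]),
  (9767702848408642513797120000, [0, 1, 0, 0]),
  (9767702848408642513797120000, [0, 0, 1, 0]),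
  (9767702848408642513797120000, [0, 0, 0, 1])]

def M17 : List (List ℤ) := [[19537346387968711521730560000, -2054411316369052139520000, -1257802846756562534400000, 414609086523459502080000],
  [19537346495971778361753600000, 70010184584193638400000, -442603853970425118720000],
  [19537346428577944622530560000, -819929387279133573120000],
  [19537346414581712118743040000]]

def u17 : List ℤ := [0, 0, 0, 0, 0, 0, 0, 0, -3312214163125614673920000, 0, 0, 0, 0, 0, 0, 0, 0, 0, 0, 0, 0, 0, 0, 0, 0, 0, 0, 0, 0, 70010184584193638400000, 0, 0, 0, 0, 0, 0, 0, 0, 0, 0, 0, 0, 0, 0, 0, 0, -819929387279133573120000, 0, 0, 0, 0, 0, 0, 0, 0, 0, 0, 0, 0, 0, 0, 19537346414581712118743040000, 0, 0, 0, 0, 0, -442603853970425118720000, 0, 414609086523459502080000, 0, 0, 0, 0, 0, 0, 0, 0, 0, 19537346428577944622530560000, 0, 0, 0, 0, 0, 0, 0, 0, 0, 0, 0, 0, 19537346495971778361753600000, 0, 0, 0, 0, 0, 0, 0, 0, 0, 0, 0, 0,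 0, 0, 0, 0, 0, 0, 0, 0, 0, 0, 0, 0, 0, 0, 0, 0, 0, 0, 0, 0, 0, 0, 0, 0, 0, 0, 0, 0, 0, 0, 0, 0, 0, 0, 0, 0, 0, 0, 0, 0, 0, 0, 0, 0, 0, 0, 0, 0, 0, 0, 0, 0, 0, 0, 0, 0, 0, 0, 0, 0, 0, 0, 0, 0, 0, 0, 0, 0, 0, 0, 0, 0, 0, 0, 0, 0, 0, 0, 0, 0, 0, 0, 0, 0, 0, 0, 0, 0, 0, 0, 0, 0, 0, 0, 0, 0, 0, 0, 0, 0, 0, 0, 0, 0, 0, 0, 0, 0, 0, 0, 0, 0, 0, 0, 0, 0, 0, 0, 0, 0, 0, 0, 0, 0, 0, 0, 0, 0, 0, 0, 0, 0, 0, 0, 0, 0, 0, 0, 0, 0, 0, 0, 0, 0, 0, 0, 0, 0, 0, 0, 0, 0, 0, 0, 0, 0, 0, 0, 0, 0, 0, 0, 0, 0, 0, 0, 0, 0, 0, 0, 0, 0, 0, 0, 0, 19537346387968711521730560000]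

theorem gr17 : eqM (gramT rows17) M17 = true := by
  decide +kernel

theorem mv17 : eqZ (mval M17 tab17) u17 = true := by
  decide +kernel

theorem nn17 (E : Env κ ι) : 0 ≤ dot (ek E keys) u17 0 :=
  block_nonneg E _ _ _ _ _ (tri17 E) rows17 M17 gr17 u17 mv17

end

def p18_0_0 : Cov := [(1, 0, 2, [(0, [0], [1, 2]), (1, [], [1, 2]), (3, [], [0])])]

def c18_0 : Cov := p18_0_0

def p18_1_0 : Cov := [(1, 0, 2, [(0, [0], [1, 2]), (1, [], [0, 1]), (3, [], [2])])]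

def c18_1 : Cov := p18_1_0

def p18_2_0 : Cov := [(1, 0, 2, [(0, [0], [0, 1]), (1, [], [1, 2]), (3, [], [2])])]

def c18_2 : Cov := p18_2_0

def p18_3_0 : Cov := [(1, 0, 1, [(0, [0], [0, 1]), (3, [], [1])])]

def c18_3 : Cov := p18_3_0

theorem t18_0_0_0 : chkF keys 1 1 p18_0_0 c18_0
  [(249, 0, 0, 274690, 274465)]
  [(249, 1)] = true := by
  decide +kernel

theorem t18_0_1_0 : chkF keys 1 1 p18_0_0 c18_1
  [(3, 0, 0, 205060, 17185)]
  [(3, 1)] = true := by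
  decide +kernel

theorem t18_0_2_0 : chkF keys 1 1 p18_0_0 c18_2
  [(3, 0, 0, 270595, 262945)]
  [(3, 1)] = true := by
  decide +kernel

theorem t18_0_3_0 : chkF keys 1 1 p18_0_0 c18_3
  [(41, 0, 0, 12816, 12816)]
  [(41, 1)] = true := by
  decide +kernel

theorem t18_1_1_0 : chkF keys 1 1 p18_1_0 c18_1
  [(247, 0, 0, 274690, 274465)]
  [(247, 1)] = true := by
  decide +kernel

theorem t18_1_2_0 : chkF keys 1 1 p18_1_0 c18_2
  [(241, 0, 0, 132145, 136195)]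
  [(241, 1)] = true := by
  decide +kernel

theorem t18_1_3_0 : chkF keys 1 1 p18_1_0 c18_3
  [(39, 0, 0, 12816, 12816)]
  [(39, 1)] = true := by
  decide +kernel

theorem t18_2_2_0 : chkF keys 1 1 p18_2_0 c18_2
  [(264, 0, 0, 274960, 274960)]
  [(264, 1)] = true := by
  decide +kernel

theorem t18_2_3_0 : chkF keys 1 1 p18_2_0 c18_3
  [(43, 0, 0, 12546, 12321)]
  [(43, 1)] = true := by
  decide +kernel

theorem t18_3_3_0 : chkF keys 1 1 p18_3_0 c18_3
  [(38, 0, 0, 528, 528)]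
  [(38, 1)] = true := by
  decide +kernel

section

variable {κ ι : Type*} [Fintype κ] [Fintype ι] [Inhabited κ] [Inhabited ι]

def r18_0_0 : List (ℕ × ℤ) := [(249, 1)]

theorem h18_0_0 (E : Env κ ι) : inn E 1 1 c18_0 c18_0 = dotS (ek E keys) r18_0_0 :=
  innS_eqZ E _ _ _ _ _ _ _ (chkF_sound E keys 1 1 _ _ _ _ t18_0_0_0) (by decide +kernel)

def r18_0_1 : List (ℕ × ℤ) := [(3, 1)]

theorem h18_0_1 (E : Env κ ι) : inn E 1 1 c18_0 c18_1 = dotS (ek E keys) r18_0_1 :=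
  innS_eqZ E _ _ _ _ _ _ _ (chkF_sound E keys 1 1 _ _ _ _ t18_0_1_0) (by decide +kernel)

def r18_0_2 : List (ℕ × ℤ) := [(3, 1)]

theorem h18_0_2 (E : Env κ ι) : inn E 1 1 c18_0 c18_2 = dotS (ek E keys) r18_0_2 :=
  innS_eqZ E _ _ _ _ _ _ _ (chkF_sound E keys 1 1 _ _ _ _ t18_0_2_0) (by decide +kernel)

def r18_0_3 : List (ℕ × ℤ) := [(41, 1)]

theorem h18_0_3 (E : Env κ ι) : inn E 1 1 c18_0 c18_3 = dotS (ek E keys) r18_0_3 :=
  innS_eqZ E _ _ _ _ _ _ _ (chkF_sound E keys 1 1 _ _ _ _ t18_0_3_0) (by decide +kernel)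

def r18_1_1 : List (ℕ × ℤ) := [(247, 1)]

theorem h18_1_1 (E : Env κ ι) : inn E 1 1 c18_1 c18_1 = dotS (ek E keys) r18_1_1 :=
  innS_eqZ E _ _ _ _ _ _ _ (chkF_sound E keys 1 1 _ _ _ _ t18_1_1_0) (by decide +kernel)

def r18_1_2 : List (ℕ × ℤ) := [(241, 1)]

theorem h18_1_2 (E : Env κ ι) : inn E 1 1 c18_1 c18_2 = dotS (ek E keys) r18_1_2 :=
  innS_eqZ E _ _ _ _ _ _ _ (chkF_sound E keys 1 1 _ _ _ _ t18_1_2_0) (by decide +kernel)

def r18_1_3 : List (ℕ × ℤ) := [(39, 1)]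

theorem h18_1_3 (E : Env κ ι) : inn E 1 1 c18_1 c18_3 = dotS (ek E keys) r18_1_3 :=
  innS_eqZ E _ _ _ _ _ _ _ (chkF_sound E keys 1 1 _ _ _ _ t18_1_3_0) (by decide +kernel)

def r18_2_2 : List (ℕ × ℤ) := [(264, 1)]

theorem h18_2_2 (E : Env κ ι) : inn E 1 1 c18_2 c18_2 = dotS (ek E keys) r18_2_2 :=
  innS_eqZ E _ _ _ _ _ _ _ (chkF_sound E keys 1 1 _ _ _ _ t18_2_2_0) (by decide +kernel)

def r18_2_3 : List (ℕ × ℤ) := [(43, 1)]

theorem h18_2_3 (E : Env κ ι) : inn E 1 1 c18_2 c18_3 = dotS (ek E keys) r18_2_3 :=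
  innS_eqZ E _ _ _ _ _ _ _ (chkF_sound E keys 1 1 _ _ _ _ t18_2_3_0) (by decide +kernel)

def r18_3_3 : List (ℕ × ℤ) := [(38, 1)]

theorem h18_3_3 (E : Env κ ι) : inn E 1 1 c18_3 c18_3 = dotS (ek E keys) r18_3_3 :=
  innS_eqZ E _ _ _ _ _ _ _ (chkF_sound E keys 1 1 _ _ _ _ t18_3_3_0) (by decide +kernel)

theorem row18_0 (E : Env κ ι) : RowS E 1 1 (ek E keys) c18_0 [c18_0, c18_1, c18_2, c18_3] [r18_0_0, r18_0_1, r18_0_2, r18_0_3] :=
  rowS_cons E _ _ _ _ _ _ _ _ (h18_0_0 E) (rowS_cons E _ _ _ _ _ _ _ _ (h18_0_1 E) (rowS_cons E _ _ _ _ _ _ _ _ (h18_0_2 E) (rowS_cons E _ _ _ _ _ _ _ _ (h18_0_3 E) (rowS_nil E _ _ _ _))))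

theorem row18_1 (E : Env κ ι) : RowS E 1 1 (ek E keys) c18_1 [c18_1, c18_2, c18_3] [r18_1_1, r18_1_2, r18_1_3] :=
  rowS_cons E _ _ _ _ _ _ _ _ (h18_1_1 E) (rowS_cons E _ _ _ _ _ _ _ _ (h18_1_2 E) (rowS_cons E _ _ _ _ _ _ _ _ (h18_1_3 E) (rowS_nil E _ _ _ _)))

theorem row18_2 (E : Env κ ι) : RowS E 1 1 (ek E keys) c18_2 [c18_2, c18_3] [r18_2_2, r18_2_3] :=
  rowS_cons E _ _ _ _ _ _ _ _ (h18_2_2 E) (rowS_cons E _ _ _ _ _ _ _ _ (h18_2_3 E) (rowS_nil E _ _ _ _))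

theorem row18_3 (E : Env κ ι) : RowS E 1 1 (ek E keys) c18_3 [c18_3] [r18_3_3] :=
  rowS_cons E _ _ _ _ _ _ _ _ (h18_3_3 E) (rowS_nil E _ _ _ _)

def tab18 : List (List (List (ℕ × ℤ))) := [[r18_0_0, r18_0_1, r18_0_2, r18_0_3], [r18_1_1, r18_1_2, r18_1_3], [r18_2_2, r18_2_3], [r18_3_3]]

theorem tri18 (E : Env κ ι) : TriS E 1 1 (ek E keys) [c18_0, c18_1, c18_2, c18_3] tab18 := by
  refine triS_cons E _ _ _ _ _ _ _ (row18_0 E) ?_
  refine triS_cons E _ _ _ _ _ _ _ (row18_1 E) ?_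
  refine triS_cons E _ _ _ _ _ _ _ (row18_2 E) ?_
  refine triS_cons E _ _ _ _ _ _ _ (row18_3 E) ?_
  exact triS_nil E _ _ _

def rows18 : List (ℕ × List ℤ) := [(287888159784960000, [4194304, -4866376, 1005569, -589753]),
  (353997162086400000, [0, 4194304, -1811404, -785943]),
  (39482063396536320000, [0, 0, 262144, -399455]),
  (4191454086597725849250693120000, [0, 0, 0, 1]),
  (3255892437666251774361600000, [1, 0, 0, 0]),
  (3255892437666251774361600000, [0, 1, 0, 0]),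
  (3255892437666251774361600000, [0, 0, 1, 0]),
  (3255892437666251774361600000, [0, 0, 0, 1])]

def M18 : List (List ℤ) := [[5067837959359243079343144960000, -11752205190895822217863495680000, 2428429949022418541394001920000, -1424242242676353787798487040000],
  [13048496497633336131673128960000, -8196590929177751998298849280000, -681436951805712391467171840000],
  [4169076200120934007611310080000, -7602220782966691341167984640000],
  [10813433960438810977817640960000]]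

def u18 : List ℤ := [0, 0, 0, -9323775241873403676469493760000, 0, 0, 0, 0, 0, 0, 0, 0, 0, 0, 0, 0, 0, 0, 0, 0, 0, 0, 0, 0, 0, 0, 0, 0, 0, 0, 0, 0, 0, 0, 0, 0, 0, 0, 10813433960438810977817640960000, -681436951805712391467171840000, 0, -1424242242676353787798487040000, 0, -7602220782966691341167984640000, 0, 0, 0, 0, 0, 0, 0, 0, 0, 0, 0, 0, 0, 0, 0, 0, 0, 0, 0, 0, 0, 0, 0, 0, 0, 0, 0, 0, 0, 0, 0, 0, 0, 0, 0, 0, 0, 0, 0, 0, 0, 0, 0, 0, 0, 0, 0, 0, 0, 0, 0, 0, 0, 0, 0, 0, 0, 0, 0, 0, 0, 0, 0, 0, 0, 0, 0, 0, 0, 0, 0, 0, 0, 0, 0, 0, 0, 0, 0, 0, 0, 0, 0, 0, 0, 0, 0, 0, 0, 0, 0, 0, 0, 0, 0, 0, 0, 0, 0, 0, 0, 0, 0, 0, 0, 0, 0, 0, 0, 0, 0, 0, 0, 0, 0, 0, 0, 0, 0, 0, 0, 0, 0, 0, 0, 0, 0, 0, 0, 0, 0, 0, 0, 0, 0, 0, 0, 0, 0, 0, 0, 0, 0, 0, 0, 0, 0, 0, 0, 0, 0, 0, 0, 0, 0, 0, 0, 0, 0, 0, 0, 0, 0, 0, 0, 0, 0, 0, 0, 0, 0, 0, 0, 0, 0, 0, 0, 0, 0, 0, 0, 0, 0, 0, 0, 0, 0, 0, 0, 0, 0, 0, 0, 0, 0, 0, 0, -8196590929177751998298849280000,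 0, 0, 0, 0, 0, 13048496497633336131673128960000, 0, 5067837959359243079343144960000, 0, 0, 0, 0, 0, 0, 0, 0, 0, 0, 0, 0, 0, 0, 4169076200120934007611310080000]

theorem gr18 : eqM (gramT rows18) M18 = true := by
  decide +kernel

theorem mv18 : eqZ (mval M18 tab18) u18 = true := by
  decide +kernel

theorem nn18 (E : Env κ ι) : 0 ≤ dot (ek E keys) u18 0 :=
  block_nonneg E _ _ _ _ _ (tri18 E) rows18 M18 gr18 u18 mv18

end

def p19_0_0 : Cov := [(6, 0, 0, [(2, [0], [0, 1, 2])])]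

def c19_0 : Cov := p19_0_0

def p19_1_0 : Cov := [(2, 0, 1, [(0, [0], [0, 3]), (1, [], [1, 2]), (3, [], [3])]),
  (2, 0, 1, [(0, [0], [1, 3]), (1, [], [0, 2]), (3, [], [3])]),
  (2, 0, 1, [(0, [0], [2, 3]), (1, [], [0, 1]), (3, [], [3])])]

def c19_1 : Cov := p19_1_0

def p19_2_0 : Cov := [(2, 0, 1, [(0, [0], [0, 1]), (1, [], [2, 3]), (3, [], [3])]),
  (2, 0, 1, [(0, [0], [0, 2]), (1, [], [1, 3]), (3, [], [3])]),
  (2, 0, 1, [(0, [0], [1, 2]), (1, [], [0, 3]), (3, [], [3])])]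

def c19_2 : Cov := p19_2_0

def p19_3_0 : Cov := [(2, 0, 0, [(0, [0], [0, 1]), (3, [], [2])]),
  (2, 0, 0, [(0, [0], [0, 2]), (3, [], [1])]),
  (2, 0, 0, [(0, [0], [1, 2]), (3, [], [0])])]

def c19_3 : Cov := p19_3_0

def p19_4_0 : Cov := [(1, 0, 1, [(0, [0], [0, 3]), (1, [], [1, 3]), (3, [], [2])]),
  (1, 0, 1, [(0, [0], [0, 3]), (1, [], [2, 3]), (3, [], [1])]),
  (1, 0, 1, [(0, [0], [1, 3]), (1, [], [0, 3]), (3, [], [2])]),
  (1, 0, 1, [(0, [0], [1, 3]), (1, [], [2, 3]), (3, [], [0])]),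
  (1, 0, 1, [(0, [0], [2, 3]), (1, [], [0, 3]), (3, [], [1])]),
  (1, 0, 1, [(0, [0], [2, 3]), (1, [], [1, 3]), (3, [], [0])])]

def c19_4 : Cov := p19_4_0

theorem t19_0_0_0 : chkF keys 1 3 p19_0_0 c19_0
  [(0, 0, 0, 288, 288)]
  [(0, 36)] = true := by
  decide +kernel

theorem t19_0_1_0 : chkF keys 1 3 p19_0_0 c19_1
  [(1, 0, 0, 12576, 12576), (1, 0, 0, 12546, 12321), (1, 0, 0, 12321, 12546)]
  [(1, 36)] = true := by
  decide +kernel

theorem t19_0_2_0 : chkF keys 1 3 p19_0_0 c19_2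
  [(2, 0, 0, 12321, 12546), (2, 0, 0, 12546, 12321), (2, 0, 0, 12576, 12576)]
  [(2, 36)] = true := by
  decide +kernel

theorem t19_0_3_0 : chkF keys 1 3 p19_0_0 c19_3
  [(40, 0, 0, 33, 258), (40, 0, 0, 258, 33), (40, 0, 0, 288, 288)]
  [(40, 36)] = true := by
  decide +kernel

theorem t19_0_4_0 : chkF keys 1 3 p19_0_0 c19_4
  [(277, 0, 0, 12816, 12816), (277, 0, 0, 12576, 12576), (277, 0, 0, 12801, 12801), (277, 0, 0, 12546, 12321), (277, 0, 0, 12321, 12546), (277, 0, 0, 12306, 12306)]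
  [(277, 36)] = true := by
  decide +kernel

theorem t19_1_1_0 : chkF keys 1 3 p19_1_0 c19_1
  [(262, 0, 0, 267040, 270640), (247, 0, 0, 266800, 266800), (247, 0, 0, 267040, 270640), (247, 0, 0, 266755, 262705), (262, 0, 0, 267010, 270385), (247, 0, 0, 267010, 270385), (247, 0, 0, 266275, 262450), (247, 0, 0, 266290, 266290), (262, 0, 0, 266290, 266290)]
  [(247, 24), (262, 12)] = true := by
  decide +kernel

theorem t19_1_2_0 : chkF keys 1 3 p19_1_0 c19_2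
  [(258, 0, 0, 213520, 213520), (258, 0, 0, 213280, 213280), (3, 0, 0, 274690, 274465), (258, 0, 0, 213505, 213505), (3, 0, 0, 274720, 274720), (258, 0, 0, 213250, 213025), (3, 0, 0, 274960, 274960), (258, 0, 0, 213025, 213250), (258, 0, 0, 213010, 213010)]
  [(3, 12), (258, 24)] = true := by
  decide +kernel

theorem t19_1_3_0 : chkF keys 1 3 p19_1_0 c19_3
  [(43, 0, 0, 12546, 12321), (43, 0, 0, 12306, 12306), (41, 0, 0, 531, 531), (43, 0, 0, 12576, 12576), (41, 0, 0, 561, 4611), (43, 0, 0, 12321, 12546), (41, 0, 0, 801, 8451), (43, 0, 0, 12816, 12816), (43, 0, 0, 12801, 12801)]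
  [(41, 12), (43, 24)] = true := by
  decide +kernel

theorem t19_1_4_0 : chkF keys 1 3 p19_1_0 c19_4
  [(258, 0, 0, 82720, 205120), (258, 0, 0, 82480, 201280), (241, 0, 0, 82435, 197185), (225, 0, 0, 82435, 197185), (241, 0, 0, 81955, 196930), (225, 0, 0, 81955, 196930), (241, 0, 0, 82480, 201280), (225, 0, 0, 82480, 201280), (258, 0, 0, 82690, 204865), (258, 0, 0, 82435, 197185), (225, 0, 0, 81970, 200770), (241, 0, 0, 81970, 200770), (225, 0, 0, 82720, 205120), (241, 0, 0, 82720, 205120), (225, 0, 0, 82690, 204865), (241, 0, 0, 82690, 204865), (258, 0, 0, 81970, 200770), (258, 0, 0, 81955, 196930)]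
  [(225, 12), (241, 12), (258, 12)] = true := by
  decide +kernel

theorem t19_2_2_0 : chkF keys 1 3 p19_2_0 c19_2
  [(4, 0, 0, 266290, 266290), (264, 0, 0, 148240, 205840), (264, 0, 0, 148225, 205825), (264, 0, 0, 147760, 201760), (4, 0, 0, 267010, 270385), (264, 0, 0, 147505, 201730), (264, 0, 0, 147715, 197665), (264, 0, 0, 147475, 197650), (4, 0, 0, 267040, 270640)]
  [(4, 12), (264, 24)] = true := by
  decide +kernel

theorem t19_2_3_0 : chkF keys 1 3 p19_2_0 c19_3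
  [(42, 0, 0, 801, 8451), (43, 0, 0, 4146, 4146), (43, 0, 0, 4131, 306), (43, 0, 0, 4866, 8241), (42, 0, 0, 561, 4611), (43, 0, 0, 4611, 561), (43, 0, 0, 4896, 8496), (43, 0, 0, 4656, 4656), (42, 0, 0, 531, 531)]
  [(42, 12), (43, 24)] = true := by
  decide +kernel

theorem t19_2_4_0 : chkF keys 1 3 p19_2_0 c19_4
  [(351, 0, 0, 274960, 274960), (258, 0, 0, 78400, 78400), (351, 0, 0, 274945, 274945), (258, 0, 0, 78340, 12865), (241, 0, 0, 73795, 66370), (241, 0, 0, 73780, 4930), (258, 0, 0, 78880, 143680), (351, 0, 0, 274720, 274720), (241, 0, 0, 74755, 131905), (241, 0, 0, 74500, 9025), (351, 0, 0, 274465, 274690), (258, 0, 0, 77860, 12610), (241, 0, 0, 74800, 136000), (241, 0, 0, 74560, 74560), (258, 0, 0, 78850, 143425), (351, 0, 0, 274690, 274465), (258, 0, 0, 77890, 77890), (351, 0, 0, 274450, 274450)]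
  [(241, 12), (258, 12), (351, 12)] = true := by
  decide +kernel

theorem t19_3_3_0 : chkF keys 1 3 p19_3_0 c19_3
  [(65, 0, 0, 528, 528), (38, 0, 0, 528, 528), (38, 0, 0, 513, 513), (38, 0, 0, 288, 288), (65, 0, 0, 288, 288), (38, 0, 0, 33, 258), (38, 0, 0, 258, 33), (38, 0, 0, 18, 18), (65, 0, 0, 258, 33)]
  [(38, 24), (65, 12)] = true := by
  decide +kernel

theorem t19_3_4_0 : chkF keys 1 3 p19_3_0 c19_4
  [(353, 0, 0, 12816, 12816), (43, 0, 0, 306, 4131), (353, 0, 0, 12801, 12801), (43, 0, 0, 291, 291), (39, 0, 0, 4656, 4656), (39, 0, 0, 4611, 561), (43, 0, 0, 786, 8211), (353, 0, 0, 12576, 12576), (39, 0, 0, 4896, 8496), (39, 0, 0, 4131, 306), (353, 0, 0, 12321, 12546), (43, 0, 0, 531, 531), (39, 0, 0, 4866, 8241), (39, 0, 0, 4146, 4146), (43, 0, 0, 801, 8451), (353, 0, 0, 12546, 12321), (43, 0, 0, 561, 4611), (353, 0, 0, 12306, 12306)]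
  [(39, 12), (43, 12), (353, 12)] = true := by
  decide +kernel

theorem t19_4_4_0 : chkF keys 1 3 p19_4_0 c19_4
  [(352, 0, 0, 201280, 82480), (264, 0, 0, 201760, 147760), (317, 0, 0, 136240, 136240), (241, 0, 0, 12820, 12820), (241, 0, 0, 197665, 147715), (247, 0, 0, 197665, 147715), (264, 0, 0, 201280, 82480), (352, 0, 0, 201760, 147760), (241, 0, 0, 197185, 82435), (247, 0, 0, 197185, 82435), (317, 0, 0, 136000, 74800), (241, 0, 0, 12580, 12580), (317, 0, 0, 136195, 132145), (241, 0, 0, 12865, 78340), (352, 0, 0, 201220, 16945), (264, 0, 0, 201730, 147505), (247, 0, 0, 197650, 147475), (241, 0, 0, 197650, 147475), (241, 0, 0, 197140, 16915), (247, 0, 0, 197140, 16915), (264, 0, 0, 201220, 16945), (352, 0, 0, 201730, 147505), (241, 0, 0, 12610, 77860), (317, 0, 0, 135940, 9265), (241, 0, 0, 13345, 143620), (317, 0, 0, 135235, 66610), (247, 0, 0, 196930, 81955), (241, 0, 0, 196930, 81955), (352, 0,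 0, 200740, 16690), (264, 0, 0, 200770, 81970), (247, 0, 0, 196900, 16675), (241, 0, 0, 196900, 16675), (241, 0, 0, 13330, 143380), (317, 0, 0, 135220, 5170), (264, 0, 0, 200740, 16690), (352, 0, 0, 200770, 81970)]
  [(241, 12), (247, 6), (264, 6), (317, 6), (352, 6)] = true := by
  decide +kernel

section

variable {κ ι : Type*} [Fintype κ] [Fintype ι] [Inhabited κ] [Inhabited ι]

def r19_0_0 : List (ℕ × ℤ) := [(0, 36)]

theorem h19_0_0 (E : Env κ ι) : inn E 1 3 c19_0 c19_0 = dotS (ek E keys) r19_0_0 :=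
  innS_eqZ E _ _ _ _ _ _ _ (chkF_sound E keys 1 3 _ _ _ _ t19_0_0_0) (by decide +kernel)

def r19_0_1 : List (ℕ × ℤ) := [(1, 36)]

theorem h19_0_1 (E : Env κ ι) : inn E 1 3 c19_0 c19_1 = dotS (ek E keys) r19_0_1 :=
  innS_eqZ E _ _ _ _ _ _ _ (chkF_sound E keys 1 3 _ _ _ _ t19_0_1_0) (by decide +kernel)

def r19_0_2 : List (ℕ × ℤ) := [(2, 36)]

theorem h19_0_2 (E : Env κ ι) : inn E 1 3 c19_0 c19_2 = dotS (ek E keys) r19_0_2 :=
  innS_eqZ E _ _ _ _ _ _ _ (chkF_sound E keys 1 3 _ _ _ _ t19_0_2_0) (by decide +kernel)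

def r19_0_3 : List (ℕ × ℤ) := [(40, 36)]

theorem h19_0_3 (E : Env κ ι) : inn E 1 3 c19_0 c19_3 = dotS (ek E keys) r19_0_3 :=
  innS_eqZ E _ _ _ _ _ _ _ (chkF_sound E keys 1 3 _ _ _ _ t19_0_3_0) (by decide +kernel)

def r19_0_4 : List (ℕ × ℤ) := [(277, 36)]

theorem h19_0_4 (E : Env κ ι) : inn E 1 3 c19_0 c19_4 = dotS (ek E keys) r19_0_4 :=
  innS_eqZ E _ _ _ _ _ _ _ (chkF_sound E keys 1 3 _ _ _ _ t19_0_4_0) (by decide +kernel)

def r19_1_1 : List (ℕ × ℤ) := [(247, 24), (262, 12)]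

theorem h19_1_1 (E : Env κ ι) : inn E 1 3 c19_1 c19_1 = dotS (ek E keys) r19_1_1 :=
  innS_eqZ E _ _ _ _ _ _ _ (chkF_sound E keys 1 3 _ _ _ _ t19_1_1_0) (by decide +kernel)

def r19_1_2 : List (ℕ × ℤ) := [(3, 12), (258, 24)]

theorem h19_1_2 (E : Env κ ι) : inn E 1 3 c19_1 c19_2 = dotS (ek E keys) r19_1_2 :=
  innS_eqZ E _ _ _ _ _ _ _ (chkF_sound E keys 1 3 _ _ _ _ t19_1_2_0) (by decide +kernel)

def r19_1_3 : List (ℕ × ℤ) := [(41, 12), (43, 24)]

theorem h19_1_3 (E : Env κ ι) : inn E 1 3 c19_1 c19_3 = dotS (ek E keys) r19_1_3 :=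
  innS_eqZ E _ _ _ _ _ _ _ (chkF_sound E keys 1 3 _ _ _ _ t19_1_3_0) (by decide +kernel)

def r19_1_4 : List (ℕ × ℤ) := [(225, 12), (241, 12), (258, 12)]

theorem h19_1_4 (E : Env κ ι) : inn E 1 3 c19_1 c19_4 = dotS (ek E keys) r19_1_4 :=
  innS_eqZ E _ _ _ _ _ _ _ (chkF_sound E keys 1 3 _ _ _ _ t19_1_4_0) (by decide +kernel)

def r19_2_2 : List (ℕ × ℤ) := [(4, 12), (264, 24)]

theorem h19_2_2 (E : Env κ ι) : inn E 1 3 c19_2 c19_2 = dotS (ek E keys) r19_2_2 :=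
  innS_eqZ E _ _ _ _ _ _ _ (chkF_sound E keys 1 3 _ _ _ _ t19_2_2_0) (by decide +kernel)

def r19_2_3 : List (ℕ × ℤ) := [(42, 12), (43, 24)]

theorem h19_2_3 (E : Env κ ι) : inn E 1 3 c19_2 c19_3 = dotS (ek E keys) r19_2_3 :=
  innS_eqZ E _ _ _ _ _ _ _ (chkF_sound E keys 1 3 _ _ _ _ t19_2_3_0) (by decide +kernel)

def r19_2_4 : List (ℕ × ℤ) := [(241, 12), (258, 12), (351, 12)]

theorem h19_2_4 (E : Env κ ι) : inn E 1 3 c19_2 c19_4 = dotS (ek E keys) r19_2_4 :=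
  innS_eqZ E _ _ _ _ _ _ _ (chkF_sound E keys 1 3 _ _ _ _ t19_2_4_0) (by decide +kernel)

def r19_3_3 : List (ℕ × ℤ) := [(38, 24), (65, 12)]

theorem h19_3_3 (E : Env κ ι) : inn E 1 3 c19_3 c19_3 = dotS (ek E keys) r19_3_3 :=
  innS_eqZ E _ _ _ _ _ _ _ (chkF_sound E keys 1 3 _ _ _ _ t19_3_3_0) (by decide +kernel)

def r19_3_4 : List (ℕ × ℤ) := [(39, 12), (43, 12), (353, 12)]

theorem h19_3_4 (E : Env κ ι) : inn E 1 3 c19_3 c19_4 = dotS (ek E keys) r19_3_4 :=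
  innS_eqZ E _ _ _ _ _ _ _ (chkF_sound E keys 1 3 _ _ _ _ t19_3_4_0) (by decide +kernel)

def r19_4_4 : List (ℕ × ℤ) := [(241, 12), (247, 6), (264, 6), (317, 6), (352, 6)]

theorem h19_4_4 (E : Env κ ι) : inn E 1 3 c19_4 c19_4 = dotS (ek E keys) r19_4_4 :=
  innS_eqZ E _ _ _ _ _ _ _ (chkF_sound E keys 1 3 _ _ _ _ t19_4_4_0) (by decide +kernel)

theorem row19_0 (E : Env κ ι) : RowS E 1 3 (ek E keys) c19_0 [c19_0, c19_1, c19_2, c19_3, c19_4] [r19_0_0, r19_0_1, r19_0_2, r19_0_3, r19_0_4] :=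
  rowS_cons E _ _ _ _ _ _ _ _ (h19_0_0 E) (rowS_cons E _ _ _ _ _ _ _ _ (h19_0_1 E) (rowS_cons E _ _ _ _ _ _ _ _ (h19_0_2 E) (rowS_cons E _ _ _ _ _ _ _ _ (h19_0_3 E) (rowS_cons E _ _ _ _ _ _ _ _ (h19_0_4 E) (rowS_nil E _ _ _ _)))))

theorem row19_1 (E : Env κ ι) : RowS E 1 3 (ek E keys) c19_1 [c19_1, c19_2, c19_3, c19_4] [r19_1_1, r19_1_2, r19_1_3, r19_1_4] :=
  rowS_cons E _ _ _ _ _ _ _ _ (h19_1_1 E) (rowS_cons E _ _ _ _ _ _ _ _ (h19_1_2 E) (rowS_cons E _ _ _ _ _ _ _ _ (h19_1_3 E) (rowS_cons E _ _ _ _ _ _ _ _ (h19_1_4 E) (rowS_nil E _ _ _ _))))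

theorem row19_2 (E : Env κ ι) : RowS E 1 3 (ek E keys) c19_2 [c19_2, c19_3, c19_4] [r19_2_2, r19_2_3, r19_2_4] :=
  rowS_cons E _ _ _ _ _ _ _ _ (h19_2_2 E) (rowS_cons E _ _ _ _ _ _ _ _ (h19_2_3 E) (rowS_cons E _ _ _ _ _ _ _ _ (h19_2_4 E) (rowS_nil E _ _ _ _)))

theorem row19_3 (E : Env κ ι) : RowS E 1 3 (ek E keys) c19_3 [c19_3, c19_4] [r19_3_3, r19_3_4] :=
  rowS_cons E _ _ _ _ _ _ _ _ (h19_3_3 E) (rowS_cons E _ _ _ _ _ _ _ _ (h19_3_4 E) (rowS_nil E _ _ _ _))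

theorem row19_4 (E : Env κ ι) : RowS E 1 3 (ek E keys) c19_4 [c19_4] [r19_4_4] :=
  rowS_cons E _ _ _ _ _ _ _ _ (h19_4_4 E) (rowS_nil E _ _ _ _)

def tab19 : List (List (List (ℕ × ℤ))) := [[r19_0_0, r19_0_1, r19_0_2, r19_0_3, r19_0_4], [r19_1_1, r19_1_2, r19_1_3, r19_1_4], [r19_2_2, r19_2_3, r19_2_4], [r19_3_3, r19_3_4], [r19_4_4]]

theorem tri19 (E : Env κ ι) : TriS E 1 3 (ek E keys) [c19_0, c19_1, c19_2, c19_3, c19_4] tab19 := by
  refine triS_cons E _ _ _ _ _ _ _ (row19_0 E) ?_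
  refine triS_cons E _ _ _ _ _ _ _ (row19_1 E) ?_
  refine triS_cons E _ _ _ _ _ _ _ (row19_2 E) ?_
  refine triS_cons E _ _ _ _ _ _ _ (row19_3 E) ?_
  refine triS_cons E _ _ _ _ _ _ _ (row19_4 E) ?_
  exact triS_nil E _ _ _

def rows19 : List (ℕ × List ℤ) := [(53068680161280000, [4194304, -3419179, -2852143, -98704, 995048]),
  (24561823104000000, [0, 4194304, -721690, 340009, -2751612]),
  (4463757849600000, [0, 0, 4194304, -944621, -1813803]),
  (101749276016640000, [0, 0, 0, 1048576, -1052523]),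
  (60265865520659928239308800000, [0, 0, 0, 0, 1]),
  (75135900286570152960000, [1, 0, -1, 0, 0]),
  (166855019672514216960000, [1, 0, 0, 0, 1]),
  (90307866174913357689600000, [1, 0, 0, 0, 0]),
  (90441633931075654778880000, [0, 1, 0, 0, 0]),
  (90366498030789084625920000, [0, 0, 1, 0, 0]),
  (90441633931075654778880000, [0, 0, 0, 1, 0]),
  (90274778911403140561920000, [0, 0, 0, 0, 1])]

def M19 : List (List ℤ) := [[933684644385941128565472000000, -1522123967426798826773544960000, -1269695366236970073242634240000, -43940292123019810135080960000, 442968195158679886802749440000],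
  [1052601135075335100812175360000, 886353554975265318242488320000, 105875227862361531726888960000, -928046316280611166568939520000],
  [523109230642401020955187200000, -17545508857239423204372480000, -271586930863242307043082240000],
  [119304521898337471759257600000, -265678286834325301495695360000],
  [426270868910852482321781760000]]

def u19 : List ℤ := [33612647197893880628356992000000, -54796462827364757763847618560000, -45709033184530922636734832640000, 10636242659703183818909859840000, 6277310767708812251462246400000, 0, 0, 0, 0, 0, 0, 0, 0, 0, 0, 0, 0, 0, 0, 0, 0, 0, 0, 0, 0, 0, 0, 0, 0, 0, 0, 0, 0, 0, 0, 0, 0, 0, 2863308525560099322222182400000, -3188139442011903617948344320000, -1581850516428713164862914560000, 1270502734348338380722667520000, -210546106286873078452469760000, -1068226185888973013407948800000, 0, 0, 0, 0, 0, 0, 0, 0, 0, 0, 0, 0, 0, 0, 0, 0, 0, 0, 0, 0, 0, 1431654262780049661111091200000,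 0, 0, 0, 0, 0, 0, 0, 0, 0, 0, 0, 0, 0, 0, 0, 0, 0, 0, 0, 0, 0, 0, 0, 0, 0, 0, 0, 0, 0, 0, 0, 0, 0, 0, 0, 0, 0, 0, 0, 0, 0, 0, 0, 0, 0, 0, 0, 0, 0, 0, 0, 0, 0, 0, 0, 0, 0, 0, 0, 0, 0, 0, 0, 0, 0, 0, 0, 0, 0, 0, 0, 0, 0, 0, 0, 0, 0, 0, 0, 0, 0, 0, 0, 0, 0, 0, 0, 0, 0, 0, 0, 0, 0, 0, 0, 0, 0, 0, 0, 0, 0, 0, 0, 0, 0, 0, 0, 0, 0, 0, 0, 0, 0, 0, 0, 0, 0, 0, 0, 0, 0, 0, 0, 0, 0, 0, 0, 0, 0, 0, 0, 0, 0, 0, 0, 0, 0, 0, 0, 0, 0, 0, 0, 0, 0, 0, 0, 0, 0, 0, 0, 0, 0, 0, 0, 0, 0, 0, 0, -11136555795367333998827274240000, 0, 0, 0, 0, 0, 0, 0, 0, 0, 0, 0, 0, 0, 0, 0, -9280348538796011895482880000000, 0, 0, 0, 0, 0, 27820052455273157313422899200000, 0, 0, 0, 0, 0, 0, 0, 0, 0, 0, 6876886353680125954475458560000, 0, 0, 0, 12631213620904021209746104320000, 0, 15112246748882739396855183360000, 0, 0, 0, 0, 0, 0, 0, 0, 0, 0, 0, 0, 15946855025712475924898979840000, 0, 0, 0, 0, 0, 0, 0, 0, 0, 0, 0, 0, 0, 0, 0, 0, 0, 0, 0, 0,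 0, 0, 0, 0, 0, 0, 0, 0, 0, 0, 0, 0, 0, 0, 0, 0, 0, 0, 0, 2557625213465114893930690560000, 0, 0, 0, 0, 0, 0, 0, 0, 0, 0, 0, 0, 0, 0, 0, 0, 0, 0, 0, 0, 0, 0, 0, 0, 0, 0, 0, 0, 0, 0, 0, 0, 0, -3259043170358907684516986880000, 2557625213465114893930690560000, -3188139442011903617948344320000]

theorem gr19 : eqM (gramT rows19) M19 = true := by
  decide +kernel

theorem mv19 : eqZ (mval M19 tab19) u19 = true := by
  decide +kernel

theorem nn19 (E : Env κ ι) : 0 ≤ dot (ek E keys) u19 0 :=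
  block_nonneg E _ _ _ _ _ (tri19 E) rows19 M19 gr19 u19 mv19

end

def p20_0_0 : Cov := [(1, 0, 1, [(0, [0], [0, 5]), (1, [], [1, 5]), (3, [], [2]), (0, [1], [3, 4])]),
  (-1, 0, 1, [(0, [0], [0, 5]), (1, [], [2, 5]), (3, [], [1]), (0, [1], [3, 4])]),
  (-1, 0, 1, [(0, [0], [1, 5]), (1, [], [0, 5]), (3, [], [2]), (0, [1], [3, 4])]),
  (1, 0, 1, [(0, [0], [1, 5]), (1, [], [2, 5]), (3, [], [0]), (0, [1], [3, 4])]),
  (1, 0, 1, [(0, [0], [2, 5]), (1, [], [0, 5]), (3, [], [1]), (0, [1], [3, 4])]),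
  (-1, 0, 1, [(0, [0], [2, 5]), (1, [], [1, 5]), (3, [], [0]), (0, [1], [3, 4])])]

def c20_0 : Cov := p20_0_0

theorem t20_0_0_0 : chkF keys 2 5 p20_0_0 c20_0
  [(94, 1, 1, 102827061, 100799811), (79, 1, 1, 86050356, 39851331), (93, 1, 1, 87098406, 6443331), (29, 1, 1, 38863686, 5318211), (29, 1, 1, 86050356, 39851331), (92, 1, 1, 87098916, 39866691), (79, 1, 1, 86049636, 23078211), (94, 1, 1, 102826821, 100738371), (29, 1, 1, 86049636, 23078211), (92, 1, 1, 87097956, 23089731), (93, 1, 1, 87097926, 6378051), (29, 1, 1, 38863926, 5379651), (93, 1, 1, 87098466, 23220291), (29, 1, 1, 38863716, 22029891), (94, 1, 1, 102827091, 101844291), (79, 1, 1, 86050371, 39912771), (92, 1, 1, 87098946, 39931971), (29, 1, 1, 86050371, 39912771), (29, 1, 1, 86049606, 6366531), (92, 1, 1, 87097926, 6378051), (79, 1, 1, 86049606, 6366531), (94, 1, 1, 102826836, 101721411), (29, 1, 1, 38863971, 22152771), (93, 1, 1, 87097956,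 23089731), (29, 1, 1, 38864436, 38803011), (93, 1, 1, 87098946, 39931971), (92, 1, 1, 87098466, 23220291), (29, 1, 1, 86049891, 23201091), (94, 1, 1, 102827331, 102827331), (79, 1, 1, 86049891, 23201091), (92, 1, 1, 87098406, 6443331), (29, 1, 1, 86049846, 6427971), (29, 1, 1, 38864451, 38864451), (93, 1, 1, 87098916, 39866691), (79, 1, 1, 86049846, 6427971), (94, 1, 1, 102827316, 102765891)]
  [(29, 12), (79, -6), (92, -6), (93, -6), (94, 6)] = true := by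
  decide +kernel

section

variable {κ ι : Type*} [Fintype κ] [Fintype ι] [Inhabited κ] [Inhabited ι]

def r20_0_0 : List (ℕ × ℤ) := [(29, 12), (79, -6), (92, -6), (93, -6), (94, 6)]

theorem h20_0_0 (E : Env κ ι) : inn E 2 5 c20_0 c20_0 = dotS (ek E keys) r20_0_0 :=
  innS_eqZ E _ _ _ _ _ _ _ (chkF_sound E keys 2 5 _ _ _ _ t20_0_0_0) (by decide +kernel)

theorem row20_0 (E : Env κ ι) : RowS E 2 5 (ek E keys) c20_0 [c20_0] [r20_0_0] :=
  rowS_cons E _ _ _ _ _ _ _ _ (h20_0_0 E) (rowS_nil E _ _ _ _)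

def tab20 : List (List (List (ℕ × ℤ))) := [[r20_0_0]]

theorem tri20 (E : Env κ ι) : TriS E 2 5 (ek E keys) [c20_0] tab20 := by
  refine triS_cons E _ _ _ _ _ _ _ (row20_0 E) ?_
  exact triS_nil E _ _ _

def rows20 : List (ℕ × List ℤ) := [(378945482725910170828800000, [1]),
  (271324103811667989626880000, [1])]

def M20 : List (List ℤ) := [[650269586537578160455680000]]

def u20 : List ℤ := [0, 0, 0, 0, 0, 0, 0, 0, 0, 0, 0, 0, 0, 0, 0, 0, 0, 0, 0, 0, 0, 0, 0, 0, 0, 0, 0, 0, 0, 7803235038450937925468160000, 0, 0, 0, 0, 0, 0, 0, 0, 0, 0, 0, 0, 0, 0, 0, 0, 0, 0, 0, 0, 0, 0, 0, 0, 0, 0, 0, 0, 0, 0, 0, 0, 0, 0, 0, 0, 0, 0, 0, 0, 0, 0, 0, 0, 0, 0, 0, 0, 0, -3901617519225468962734080000, 0, 0, 0, 0, 0, 0, 0, 0, 0, 0, 0, 0, -3901617519225468962734080000, -3901617519225468962734080000, 3901617519225468962734080000]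

theorem gr20 : eqM (gramT rows20) M20 = true := by
  decide +kernel

theorem mv20 : eqZ (mval M20 tab20) u20 = true := by
  decide +kernel

theorem nn20 (E : Env κ ι) : 0 ≤ dot (ek E keys) u20 0 :=
  block_nonneg E _ _ _ _ _ (tri20 E) rows20 M20 gr20 u20 mv20

end

def p21_0_0 : Cov := [(1, 0, 1, [(0, [0], [0, 3]), (1, [], [1, 3]), (3, [], [2])]),
  (-1, 0, 1, [(0, [0], [0, 3]), (1, [], [2, 3]), (3, [], [1])]),
  (-1, 0, 1, [(0, [0], [1, 3]), (1, [], [0, 3]), (3, [], [2])]),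
  (1, 0, 1, [(0, [0], [1, 3]), (1, [], [2, 3]), (3, [], [0])]),
  (1, 0, 1, [(0, [0], [2, 3]), (1, [], [0, 3]), (3, [], [1])]),
  (-1, 0, 1, [(0, [0], [2, 3]), (1, [], [1, 3]), (3, [], [0])])]

def c21_0 : Cov := p21_0_0

theorem t21_0_0_0 : chkF keys 1 3 p21_0_0 c21_0
  [(352, 0, 0, 201280, 82480), (264, 0, 0, 201760, 147760), (317, 0, 0, 136240, 136240), (241, 0, 0, 12820, 12820), (241, 0, 0, 197665, 147715), (247, 0, 0, 197665, 147715), (264, 0, 0, 201280, 82480), (352, 0, 0, 201760, 147760), (241, 0, 0, 197185, 82435), (247, 0, 0, 197185, 82435), (317, 0, 0, 136000, 74800), (241, 0, 0, 12580, 12580), (317, 0, 0, 136195, 132145), (241, 0, 0, 12865, 78340), (352, 0, 0, 201220, 16945), (264, 0, 0, 201730, 147505), (247, 0, 0, 197650, 147475), (241, 0, 0, 197650, 147475), (241, 0, 0, 197140, 16915), (247, 0, 0, 197140, 16915), (264, 0, 0, 201220, 16945), (352, 0, 0, 201730, 147505), (241, 0, 0, 12610,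 77860), (317, 0, 0, 135940, 9265), (241, 0, 0, 13345, 143620), (317, 0, 0, 135235, 66610), (247, 0, 0, 196930, 81955), (241, 0, 0, 196930, 81955), (352, 0, 0, 200740, 16690), (264, 0, 0, 200770, 81970), (247, 0, 0, 196900, 16675), (241, 0, 0, 196900, 16675), (241, 0, 0, 13330, 143380), (317, 0, 0, 135220, 5170), (264, 0, 0, 200740, 16690), (352, 0, 0, 200770, 81970)]
  [(241, 12), (247, -6), (264, -6), (317, -6), (352, 6)] = true := by
  decide +kernel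

section

variable {κ ι : Type*} [Fintype κ] [Fintype ι] [Inhabited κ] [Inhabited ι]

def r21_0_0 : List (ℕ × ℤ) := [(241, 12), (247, -6), (264, -6), (317, -6), (352, 6)]

theorem h21_0_0 (E : Env κ ι) : inn E 1 3 c21_0 c21_0 = dotS (ek E keys) r21_0_0 :=
  innS_eqZ E _ _ _ _ _ _ _ (chkF_sound E keys 1 3 _ _ _ _ t21_0_0_0) (by decide +kernel)

theorem row21_0 (E : Env κ ι) : RowS E 1 3 (ek E keys) c21_0 [c21_0] [r21_0_0] :=
  rowS_cons E _ _ _ _ _ _ _ _ (h21_0_0 E) (rowS_nil E _ _ _ _)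

def tab21 : List (List (List (ℕ × ℤ))) := [[r21_0_0]]

theorem tri21 (E : Env κ ι) : TriS E 1 3 (ek E keys) [c21_0] tab21 := by
  refine triS_cons E _ _ _ _ _ _ _ (row21_0 E) ?_
  exact triS_nil E _ _ _

def rows21 : List (ℕ × List ℤ) := [(1029424453240710823327825920000, [1]),
  (90441633931075654778880000, [1])]

def M21 : List (List ℤ) := [[1029514894874641898982604800000]]

def u21 : List ℤ := [0, 0, 0, 0, 0, 0, 0, 0, 0, 0, 0, 0, 0, 0, 0, 0, 0, 0, 0, 0, 0, 0, 0, 0, 0, 0, 0, 0, 0, 0, 0, 0, 0, 0, 0, 0, 0, 0, 0, 0, 0, 0, 0, 0, 0, 0, 0, 0, 0, 0, 0, 0, 0, 0, 0, 0, 0, 0, 0, 0, 0, 0, 0, 0, 0, 0, 0, 0, 0, 0, 0, 0, 0, 0, 0, 0, 0, 0, 0, 0, 0, 0, 0, 0, 0, 0, 0, 0, 0, 0, 0, 0, 0, 0, 0, 0, 0, 0, 0, 0, 0, 0, 0, 0, 0, 0, 0, 0, 0, 0, 0, 0, 0, 0, 0, 0, 0, 0, 0, 0, 0, 0, 0, 0, 0, 0, 0, 0, 0, 0, 0, 0, 0, 0, 0, 0, 0, 0, 0, 0, 0, 0, 0, 0, 0, 0, 0, 0, 0, 0, 0, 0, 0, 0, 0, 0, 0, 0, 0, 0, 0, 0, 0, 0, 0, 0, 0, 0, 0, 0,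 0, 0, 0, 0, 0, 0, 0, 0, 0, 0, 0, 0, 0, 0, 0, 0, 0, 0, 0, 0, 0, 0, 0, 0, 0, 0, 0, 0, 0, 0, 0, 0, 0, 0, 0, 0, 0, 0, 0, 0, 0, 0, 0, 0, 0, 0, 0, 0, 0, 0, 0, 0, 0, 0, 0, 0, 0, 0, 0, 0, 0, 0, 0, 0, 0, 0, 0, 0, 0, 0, 0, 12354178738495702787791257600000, 0, 0, 0, 0, 0, -6177089369247851393895628800000, 0, 0, 0, 0, 0, 0, 0, 0, 0, 0, 0, 0, 0, 0, 0, 0, -6177089369247851393895628800000, 0, 0, 0, 0, 0, 0, 0, 0, 0, 0, 0, 0, 0, 0, 0, 0, 0, 0, 0, 0, 0, 0, 0, 0, 0, 0, 0, 0, 0, 0, 0, 0, 0, 0, 0, 0, 0, 0, 0, 0, 0, 0, 0, 0, 0, 0, 0, 0, 0, 0, 0, 0, -6177089369247851393895628800000, 0, 0, 0, 0, 0, 0, 0, 0, 0, 0, 0, 0, 0, 0, 0, 0, 0, 0, 0, 0, 0, 0, 0, 0, 0, 0, 0, 0, 0, 0, 0, 0, 0, 0, 6177089369247851393895628800000]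

theorem gr21 : eqM (gramT rows21) M21 = true := by
  decide +kernel

theorem mv21 : eqZ (mval M21 tab21) u21 = true := by
  decide +kernel

theorem nn21 (E : Env κ ι) : 0 ≤ dot (ek E keys) u21 0 :=
  block_nonneg E _ _ _ _ _ (tri21 E) rows21 M21 gr21 u21 mv21

end

def p22_0_0 : Cov := [(1, 1, 2, [(0, [1], [3, 4]), (0, [1], [3, 4]), (3, [], [0]), (0, [0], [1, 2])])]

def c22_0 : Cov := p22_0_0

def p22_1_0 : Cov := [(1, 1, 2, [(0, [1], [3, 4]), (0, [1], [0, 3]), (3, [], [4]), (0, [0], [1, 2])])]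

def c22_1 : Cov := p22_1_0

theorem t22_0_0_0 : chkF keys 1 3 p22_0_0 c22_0
  [(278, 513, 513, 105972516, 105914691)]
  [(278, 1)] = true := by
  decide +kernel

theorem t22_0_1_0 : chkF keys 1 3 p22_0_0 c22_1
  [(62, 513, 513, 88146726, 6627651)]
  [(62, 1)] = true := by
  decide +kernel

theorem t22_1_1_0 : chkF keys 1 3 p22_1_0 c22_1
  [(63, 528, 528, 105193731, 105186081)]
  [(63, 1)] = true := by
  decide +kernel

section

variable {κ ι : Type*} [Fintype κ] [Fintype ι] [Inhabited κ] [Inhabited ι]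

def r22_0_0 : List (ℕ × ℤ) := [(278, 1)]

theorem h22_0_0 (E : Env κ ι) : inn E 1 3 c22_0 c22_0 = dotS (ek E keys) r22_0_0 :=
  innS_eqZ E _ _ _ _ _ _ _ (chkF_sound E keys 1 3 _ _ _ _ t22_0_0_0) (by decide +kernel)

def r22_0_1 : List (ℕ × ℤ) := [(62, 1)]

theorem h22_0_1 (E : Env κ ι) : inn E 1 3 c22_0 c22_1 = dotS (ek E keys) r22_0_1 :=
  innS_eqZ E _ _ _ _ _ _ _ (chkF_sound E keys 1 3 _ _ _ _ t22_0_1_0) (by decide +kernel)

def r22_1_1 : List (ℕ × ℤ) := [(63, 1)]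

theorem h22_1_1 (E : Env κ ι) : inn E 1 3 c22_1 c22_1 = dotS (ek E keys) r22_1_1 :=
  innS_eqZ E _ _ _ _ _ _ _ (chkF_sound E keys 1 3 _ _ _ _ t22_1_1_0) (by decide +kernel)

theorem row22_0 (E : Env κ ι) : RowS E 1 3 (ek E keys) c22_0 [c22_0, c22_1] [r22_0_0, r22_0_1] :=
  rowS_cons E _ _ _ _ _ _ _ _ (h22_0_0 E) (rowS_cons E _ _ _ _ _ _ _ _ (h22_0_1 E) (rowS_nil E _ _ _ _))

theorem row22_1 (E : Env κ ι) : RowS E 1 3 (ek E keys) c22_1 [c22_1] [r22_1_1] :=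
  rowS_cons E _ _ _ _ _ _ _ _ (h22_1_1 E) (rowS_nil E _ _ _ _)

def tab22 : List (List (List (ℕ × ℤ))) := [[r22_0_0, r22_0_1], [r22_1_1]]

theorem tri22 (E : Env κ ι) : TriS E 1 3 (ek E keys) [c22_0, c22_1] tab22 := by
  refine triS_cons E _ _ _ _ _ _ _ (row22_0 E) ?_
  refine triS_cons E _ _ _ _ _ _ _ (row22_1 E) ?_
  exact triS_nil E _ _ _

def rows22 : List (ℕ × List ℤ) := [(555154145280000, [4194304, -79]),
  (9769643539560069007933440000, [0, 1]),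
  (41861395657744485580800, [1, 1]),
  (9769561853763751391703859200, [1, 0]),
  (9767660987012984769311539200, [0, 1])]

def M22 : List (List ℤ) := [[19535978722253917732945920000, -284177878526499677798400],
  [19537346391433428542423040000]]

def u22 : List ℤ := [0, 0, 0, 0, 0, 0, 0, 0, 0, 0, 0, 0, 0, 0, 0, 0, 0, 0, 0, 0, 0, 0, 0, 0, 0, 0, 0, 0, 0, 0, 0, 0, 0, 0, 0, 0, 0, 0, 0, 0, 0, 0, 0, 0, 0, 0, 0, 0, 0, 0, 0, 0, 0, 0, 0, 0, 0, 0, 0, 0, 0, 0, -284177878526499677798400, 19537346391433428542423040000, 0, 0, 0, 0, 0, 0, 0, 0, 0, 0, 0, 0, 0, 0, 0, 0, 0, 0, 0, 0, 0, 0, 0, 0, 0, 0, 0, 0, 0, 0, 0, 0, 0, 0, 0, 0, 0, 0, 0, 0, 0, 0, 0, 0, 0, 0, 0, 0, 0, 0, 0, 0, 0, 0, 0, 0, 0, 0, 0, 0, 0, 0, 0, 0, 0, 0, 0, 0, 0, 0, 0, 0, 0, 0, 0, 0, 0, 0, 0, 0, 0, 0, 0, 0, 0, 0, 0, 0, 0, 0, 0, 0, 0, 0, 0, 0, 0, 0, 0, 0, 0, 0, 0, 0, 0, 0, 0, 0, 0, 0, 0, 0, 0, 0, 0, 0, 0, 0, 0, 0, 0, 0, 0, 0, 0, 0, 0, 0, 0, 0, 0, 0, 0, 0,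 0, 0, 0, 0, 0, 0, 0, 0, 0, 0, 0, 0, 0, 0, 0, 0, 0, 0, 0, 0, 0, 0, 0, 0, 0, 0, 0, 0, 0, 0, 0, 0, 0, 0, 0, 0, 0, 0, 0, 0, 0, 0, 0, 0, 0, 0, 0, 0, 0, 0, 0, 0, 0, 0, 0, 0, 0, 0, 0, 0, 0, 0, 0, 0, 0, 0, 0, 0, 0, 0, 0, 0, 0, 0, 0, 0, 0, 0, 0, 0, 19535978722253917732945920000]

theorem gr22 : eqM (gramT rows22) M22 = true := by
  decide +kernel

theorem mv22 : eqZ (mval M22 tab22) u22 = true := by
  decide +kernel

theorem nn22 (E : Env κ ι) : 0 ≤ dot (ek E keys) u22 0 :=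
  block_nonneg E _ _ _ _ _ (tri22 E) rows22 M22 gr22 u22 mv22

end

def p23_0_0 : Cov := [(1, 1, 2, [(0, [0], [1, 2]), (0, [0], [1, 2]), (3, [], [0])])]

def c23_0 : Cov := p23_0_0

def p23_1_0 : Cov := [(1, 1, 2, [(0, [0], [1, 2]), (0, [0], [0, 1]), (3, [], [2])])]

def c23_1 : Cov := p23_1_0

theorem t23_0_0_0 : chkF keys 0 1 p23_0_0 c23_0
  [(66, 16, 16, 205060, 17185)]
  [(66, 1)] = true := by
  decide +kernel

theorem t23_0_1_0 : chkF keys 0 1 p23_0_0 c23_1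
  [(61, 16, 16, 205060, 17185)]
  [(61, 1)] = true := by
  decide +kernel

theorem t23_1_1_0 : chkF keys 0 1 p23_1_0 c23_1
  [(34, 16, 16, 271105, 271105)]
  [(34, 1)] = true := by
  decide +kernel

section

variable {κ ι : Type*} [Fintype κ] [Fintype ι] [Inhabited κ] [Inhabited ι]

def r23_0_0 : List (ℕ × ℤ) := [(66, 1)]

theorem h23_0_0 (E : Env κ ι) : inn E 0 1 c23_0 c23_0 = dotS (ek E keys) r23_0_0 :=
  innS_eqZ E _ _ _ _ _ _ _ (chkF_sound E keys 0 1 _ _ _ _ t23_0_0_0) (by decide +kernel)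

def r23_0_1 : List (ℕ × ℤ) := [(61, 1)]

theorem h23_0_1 (E : Env κ ι) : inn E 0 1 c23_0 c23_1 = dotS (ek E keys) r23_0_1 :=
  innS_eqZ E _ _ _ _ _ _ _ (chkF_sound E keys 0 1 _ _ _ _ t23_0_1_0) (by decide +kernel)

def r23_1_1 : List (ℕ × ℤ) := [(34, 1)]

theorem h23_1_1 (E : Env κ ι) : inn E 0 1 c23_1 c23_1 = dotS (ek E keys) r23_1_1 :=
  innS_eqZ E _ _ _ _ _ _ _ (chkF_sound E keys 0 1 _ _ _ _ t23_1_1_0) (by decide +kernel)

theorem row23_0 (E : Env κ ι) : RowS E 0 1 (ek E keys) c23_0 [c23_0, c23_1] [r23_0_0, r23_0_1] :=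
  rowS_cons E _ _ _ _ _ _ _ _ (h23_0_0 E) (rowS_cons E _ _ _ _ _ _ _ _ (h23_0_1 E) (rowS_nil E _ _ _ _))

theorem row23_1 (E : Env κ ι) : RowS E 0 1 (ek E keys) c23_1 [c23_1] [r23_1_1] :=
  rowS_cons E _ _ _ _ _ _ _ _ (h23_1_1 E) (rowS_nil E _ _ _ _)

def tab23 : List (List (List (ℕ × ℤ))) := [[r23_0_0, r23_0_1], [r23_1_1]]

theorem tri23 (E : Env κ ι) : TriS E 0 1 (ek E keys) [c23_0, c23_1] tab23 := by
  refine triS_cons E _ _ _ _ _ _ _ (row23_0 E) ?_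
  refine triS_cons E _ _ _ _ _ _ _ (row23_1 E) ?_
  exact triS_nil E _ _ _

def rows23 : List (ℕ × List ℤ) := [(330693674281205760000, [131072, -165395]),
  (51766225387556010211084861440000, [0, 1]),
  (3255892437666251774361600000, [1, 0]),
  (3255892437666251774361600000, [0, 1])]

def M23 : List (List ℤ) := [[5684529956565086438361661440000, -14337987119085001552743628800000],
  [60815774079222588174803927040000]]

def u23 : List ℤ := [0, 0, 0, 0, 0, 0, 0, 0, 0, 0, 0, 0, 0, 0, 0, 0, 0, 0, 0, 0, 0, 0, 0, 0, 0, 0, 0, 0, 0, 0, 0, 0, 0, 0, 60815774079222588174803927040000, 0, 0, 0, 0, 0, 0, 0, 0, 0, 0, 0, 0, 0, 0, 0, 0, 0, 0, 0, 0, 0, 0, 0, 0, 0, 0, -14337987119085001552743628800000, 0, 0, 0, 0, 5684529956565086438361661440000]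

theorem gr23 : eqM (gramT rows23) M23 = true := by
  decide +kernel

theorem mv23 : eqZ (mval M23 tab23) u23 = true := by
  decide +kernel

theorem nn23 (E : Env κ ι) : 0 ≤ dot (ek E keys) u23 0 :=
  block_nonneg E _ _ _ _ _ (tri23 E) rows23 M23 gr23 u23 mv23

end

def p24_0_0 : Cov := [(2, 1, 1, [(0, [1], [0, 5]), (0, [1], [1, 5]), (3, [], [2]), (0, [0], [3, 4])]),
  (2, 1, 1, [(0, [1], [0, 5]), (0, [1], [2, 5]), (3, [], [1]), (0, [0], [3, 4])]),
  (2, 1, 1, [(0, [1], [1, 5]), (0, [1], [2, 5]), (3, [], [0]), (0, [0], [3, 4])])]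

def c24_0 : Cov := p24_0_0

def p24_1_0 : Cov := [(2, 1, 1, [(0, [1], [0, 5]), (0, [1], [1, 2]), (3, [], [5]), (0, [0], [3, 4])]),
  (2, 1, 1, [(0, [1], [0, 1]), (0, [1], [2, 5]), (3, [], [5]), (0, [0], [3, 4])]),
  (2, 1, 1, [(0, [1], [0, 2]), (0, [1], [1, 5]), (3, [], [5]), (0, [0], [3, 4])])]

def c24_1 : Cov := p24_1_0

theorem t24_0_0_0 : chkF keys 1 5 p24_0_0 c24_0
  [(282, 528, 528, 87098466, 23220291), (63, 528, 528, 69273171, 34997571), (63, 528, 528, 69273141, 33953091), (63, 528, 528, 69272931, 19268931), (282, 528, 528, 87098946, 39931971), (63, 528, 528, 69272421, 17179971), (63, 528, 528, 69272886, 2495811), (63, 528, 528, 69272406, 1451331), (282, 528, 528, 87098916, 39866691)]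
  [(63, 24), (282, 12)] = true := by
  decide +kernel

theorem t24_0_1_0 : chkF keys 1 5 p24_0_0 c24_1
  [(208, 288, 288, 54593106, 34955331), (204, 258, 33, 50677281, 37970181), (208, 288, 288, 104923986, 102047811), (208, 288, 288, 54592866, 19226691), (208, 288, 288, 104924466, 103092291), (204, 258, 33, 50676321, 21193221), (204, 258, 33, 50676246, 4416021), (208, 288, 288, 104924451, 103088451), (208, 288, 288, 104923731, 102040131)]
  [(204, 12), (208, 24)] = true := by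
  decide +kernel

theorem t24_1_1_0 : chkF keys 1 5 p24_1_0 c24_1
  [(209, 528, 528, 103875906, 102846531), (64, 528, 528, 90243636, 90182211), (64, 528, 528, 90243876, 90186051), (64, 528, 528, 90244146, 90312771), (209, 528, 528, 103875156, 101732931), (64, 528, 528, 90244131, 90308931), (64, 528, 528, 90243906, 90251331), (64, 528, 528, 90243651, 90243651), (209, 528, 528, 103875876, 102781251)]
  [(64, 24), (209, 12)] = true := by
  decide +kernel

section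

variable {κ ι : Type*} [Fintype κ] [Fintype ι] [Inhabited κ] [Inhabited ι]

def r24_0_0 : List (ℕ × ℤ) := [(63, 24), (282, 12)]

theorem h24_0_0 (E : Env κ ι) : inn E 1 5 c24_0 c24_0 = dotS (ek E keys) r24_0_0 :=
  innS_eqZ E _ _ _ _ _ _ _ (chkF_sound E keys 1 5 _ _ _ _ t24_0_0_0) (by decide +kernel)

def r24_0_1 : List (ℕ × ℤ) := [(204, 12), (208, 24)]

theorem h24_0_1 (E : Env κ ι) : inn E 1 5 c24_0 c24_1 = dotS (ek E keys) r24_0_1 :=
  innS_eqZ E _ _ _ _ _ _ _ (chkF_sound E keys 1 5 _ _ _ _ t24_0_1_0) (by decide +kernel)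

def r24_1_1 : List (ℕ × ℤ) := [(64, 24), (209, 12)]

theorem h24_1_1 (E : Env κ ι) : inn E 1 5 c24_1 c24_1 = dotS (ek E keys) r24_1_1 :=
  innS_eqZ E _ _ _ _ _ _ _ (chkF_sound E keys 1 5 _ _ _ _ t24_1_1_0) (by decide +kernel)

theorem row24_0 (E : Env κ ι) : RowS E 1 5 (ek E keys) c24_0 [c24_0, c24_1] [r24_0_0, r24_0_1] :=
  rowS_cons E _ _ _ _ _ _ _ _ (h24_0_0 E) (rowS_cons E _ _ _ _ _ _ _ _ (h24_0_1 E) (rowS_nil E _ _ _ _))

theorem row24_1 (E : Env κ ι) : RowS E 1 5 (ek E keys) c24_1 [c24_1] [r24_1_1] :=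
  rowS_cons E _ _ _ _ _ _ _ _ (h24_1_1 E) (rowS_nil E _ _ _ _)

def tab24 : List (List (List (ℕ × ℤ))) := [[r24_0_0, r24_0_1], [r24_1_1]]

theorem tri24 (E : Env κ ι) : TriS E 1 5 (ek E keys) [c24_0, c24_1] tab24 := by
  refine triS_cons E _ _ _ _ _ _ _ (row24_0 E) ?_
  refine triS_cons E _ _ _ _ _ _ _ (row24_1 E) ?_
  exact triS_nil E _ _ _

def rows24 : List (ℕ × List ℤ) := [(15423851520000, [4194304, -155]),
  (271339265461288509112320000, [0, 1]),
  (271324103811667989626880000, [1, 0]),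
  (271324103811667989626880000, [0, 1])]

def M24 : List (List ℤ) := [[542663369272956498739200000, -20054619858980044800000],
  [542663369643514531507200000]]

def u24 : List ℤ := [0, 0, 0, 0, 0, 0, 0, 0, 0, 0, 0, 0, 0, 0, 0, 0, 0, 0, 0, 0, 0, 0, 0, 0, 0, 0, 0, 0, 0, 0, 0, 0, 0, 0, 0, 0, 0, 0, 0, 0, 0, 0, 0, 0, 0, 0, 0, 0, 0, 0, 0, 0, 0, 0, 0, 0, 0, 0, 0, 0, 0, 0, 0, 13023920862550955969740800000, 13023920871444348756172800000, 0, 0, 0, 0, 0, 0, 0, 0, 0, 0, 0, 0, 0, 0, 0, 0, 0, 0, 0, 0, 0, 0, 0, 0, 0, 0, 0, 0, 0, 0, 0, 0, 0, 0, 0, 0, 0, 0, 0, 0, 0, 0, 0, 0, 0, 0, 0, 0, 0, 0, 0, 0, 0, 0, 0, 0, 0, 0, 0, 0, 0, 0, 0, 0, 0, 0, 0, 0, 0, 0, 0, 0, 0, 0, 0, 0, 0, 0, 0, 0, 0, 0, 0, 0, 0, 0, 0, 0, 0, 0, 0, 0, 0, 0, 0, 0, 0, 0, 0, 0, 0, 0, 0, 0, 0, 0, 0, 0, 0, 0, 0, 0, 0, 0, 0, 0, 0, 0, 0, 0, 0, 0, 0, 0, 0, 0, 0, 0, 0, 0, 0, 0, 0, 0, 0, 0, 0, 0, 0, -240655438307760537600000, 0, 0, 0, -481310876615521075200000,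 6511960435722174378086400000, 0, 0, 0, 0, 0, 0, 0, 0, 0, 0, 0, 0, 0, 0, 0, 0, 0, 0, 0, 0, 0, 0, 0, 0, 0, 0, 0, 0, 0, 0, 0, 0, 0, 0, 0, 0, 0, 0, 0, 0, 0, 0, 0, 0, 0, 0, 0, 0, 0, 0, 0, 0, 0, 0, 0, 0, 0, 0, 0, 0, 0, 0, 0, 0, 0, 0, 0, 0, 0, 0, 0, 0, 6511960431275477984870400000]

theorem gr24 : eqM (gramT rows24) M24 = true := by
  decide +kernel

theorem mv24 : eqZ (mval M24 tab24) u24 = true := by
  decide +kernel

theorem nn24 (E : Env κ ι) : 0 ≤ dot (ek E keys) u24 0 :=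
  block_nonneg E _ _ _ _ _ (tri24 E) rows24 M24 gr24 u24 mv24

end

def p25_0_0 : Cov := [(2, 1, 1, [(0, [0], [0, 3]), (0, [0], [1, 3]), (3, [], [2])]),
  (2, 1, 1, [(0, [0], [0, 3]), (0, [0], [2, 3]), (3, [], [1])]),
  (2, 1, 1, [(0, [0], [1, 3]), (0, [0], [2, 3]), (3, [], [0])])]

def c25_0 : Cov := p25_0_0

def p25_1_0 : Cov := [(2, 1, 1, [(0, [0], [0, 3]), (0, [0], [1, 2]), (3, [], [3])]),
  (2, 1, 1, [(0, [0], [0, 1]), (0, [0], [2, 3]), (3, [], [3])]),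
  (2, 1, 1, [(0, [0], [0, 2]), (0, [0], [1, 3]), (3, [], [3])])]

def c25_1 : Cov := p25_1_0

theorem t25_0_0_0 : chkF keys 0 3 p25_0_0 c25_0
  [(132, 16, 16, 267040, 270640), (34, 16, 16, 132145, 136195), (34, 16, 16, 132115, 132115), (34, 16, 16, 131905, 74755), (132, 16, 16, 266800, 266800), (34, 16, 16, 131395, 66595), (34, 16, 16, 131860, 9235), (34, 16, 16, 131380, 5155), (132, 16, 16, 266755, 262705)]
  [(34, 24), (132, 12)] = true := by
  decide +kernel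

theorem t25_0_1_0 : chkF keys 0 3 p25_0_0 c25_1
  [(56, 16, 16, 132145, 136195), (133, 16, 16, 267040, 270640), (56, 16, 16, 262705, 266755), (56, 16, 16, 131905, 74755), (56, 16, 16, 262945, 270595), (133, 16, 16, 266800, 266800), (133, 16, 16, 266755, 262705), (56, 16, 16, 262930, 270355), (56, 16, 16, 131860, 9235)]
  [(56, 24), (133, 12)] = true := by
  decide +kernel

theorem t25_1_1_0 : chkF keys 0 3 p25_1_0 c25_1
  [(142, 16, 16, 267040, 270640), (35, 16, 16, 213010, 213010), (35, 16, 16, 213250, 213025), (35, 16, 16, 213520, 213520), (142, 16, 16, 266290, 266290), (35, 16, 16, 213505, 213505), (35, 16, 16, 213280, 213280), (35, 16, 16, 213025, 213250), (142, 16, 16, 267010, 270385)]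
  [(35, 24), (142, 12)] = true := by
  decide +kernel

section

variable {κ ι : Type*} [Fintype κ] [Fintype ι] [Inhabited κ] [Inhabited ι]

def r25_0_0 : List (ℕ × ℤ) := [(34, 24), (132, 12)]

theorem h25_0_0 (E : Env κ ι) : inn E 0 3 c25_0 c25_0 = dotS (ek E keys) r25_0_0 :=
  innS_eqZ E _ _ _ _ _ _ _ (chkF_sound E keys 0 3 _ _ _ _ t25_0_0_0) (by decide +kernel)

def r25_0_1 : List (ℕ × ℤ) := [(56, 24), (133, 12)]

theorem h25_0_1 (E : Env κ ι) : inn E 0 3 c25_0 c25_1 = dotS (ek E keys) r25_0_1 :=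
  innS_eqZ E _ _ _ _ _ _ _ (chkF_sound E keys 0 3 _ _ _ _ t25_0_1_0) (by decide +kernel)

def r25_1_1 : List (ℕ × ℤ) := [(35, 24), (142, 12)]

theorem h25_1_1 (E : Env κ ι) : inn E 0 3 c25_1 c25_1 = dotS (ek E keys) r25_1_1 :=
  innS_eqZ E _ _ _ _ _ _ _ (chkF_sound E keys 0 3 _ _ _ _ t25_1_1_0) (by decide +kernel)

theorem row25_0 (E : Env κ ι) : RowS E 0 3 (ek E keys) c25_0 [c25_0, c25_1] [r25_0_0, r25_0_1] :=
  rowS_cons E _ _ _ _ _ _ _ _ (h25_0_0 E) (rowS_cons E _ _ _ _ _ _ _ _ (h25_0_1 E) (rowS_nil E _ _ _ _))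

theorem row25_1 (E : Env κ ι) : RowS E 0 3 (ek E keys) c25_1 [c25_1] [r25_1_1] :=
  rowS_cons E _ _ _ _ _ _ _ _ (h25_1_1 E) (rowS_nil E _ _ _ _)

def tab25 : List (List (List (ℕ × ℤ))) := [[r25_0_0, r25_0_1], [r25_1_1]]

theorem tri25 (E : Env κ ι) : TriS E 0 3 (ek E keys) [c25_0, c25_1] tab25 := by
  refine triS_cons E _ _ _ _ _ _ _ (row25_0 E) ?_
  refine triS_cons E _ _ _ _ _ _ _ (row25_1 E) ?_
  exact triS_nil E _ _ _

def rows25 : List (ℕ × List ℤ) := [(89063118950400000, [4194304, -3477407]),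
  (361432890058716585268346880000, [0, 1]),
  (90441633931075654778880000, [1, 0]),
  (90441633931075654778880000, [0, 1])]

def M25 : List (List ℤ) := [[1566905399905320141355745280000, -2598024989889925115962982400000],
  [1438506579213351313749135360000]]

def u25 : List ℤ := [0, 0, 0, 0, 0, 0, 0, 0, 0, 0, 0, 0, 0, 0, 0, 0, 0, 0, 0, 0, 0, 0, 0, 0, 0, 0, 0, 0, 0, 0, 0, 0, 0, 0, 37605729597727683392537886720000, 34524157901120431529979248640000, 0, 0, 0, 0, 0, 0, 0, 0, 0, 0, 0, 0, 0, 0, 0, 0, 0, 0, 0, 0, -62352599757358202783111577600000, 0, 0, 0, 0, 0, 0, 0, 0, 0, 0, 0, 0, 0, 0, 0, 0, 0, 0, 0, 0, 0, 0, 0, 0, 0, 0, 0, 0, 0, 0, 0, 0, 0, 0, 0, 0, 0, 0, 0, 0, 0, 0, 0, 0, 0, 0, 0, 0, 0, 0, 0, 0, 0, 0, 0, 0, 0, 0, 0, 0, 0, 0, 0, 0, 0, 0, 0, 0, 0, 0, 0, 0, 0, 0, 0, 18802864798863841696268943360000, -31176299878679101391555788800000, 0, 0, 0, 0, 0, 0, 0, 0, 17262078950560215764989624320000]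

theorem gr25 : eqM (gramT rows25) M25 = true := by
  decide +kernel

theorem mv25 : eqZ (mval M25 tab25) u25 = true := by
  decide +kernel

theorem nn25 (E : Env κ ι) : 0 ≤ dot (ek E keys) u25 0 :=
  block_nonneg E _ _ _ _ _ (tri25 E) rows25 M25 gr25 u25 mv25

end

def p26_0_0 : Cov := [(2, 1, 1, [(0, [1], [0, 5]), (0, [1], [1, 5]), (3, [], [2]), (0, [0], [3, 4])]),
  (-2, 1, 1, [(0, [1], [1, 5]), (0, [1], [2, 5]), (3, [], [0]), (0, [0], [3, 4])])]

def c26_0 : Cov := p26_0_0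

def p26_1_0 : Cov := [(1, 1, 1, [(0, [1], [0, 5]), (0, [1], [1, 2]), (3, [], [5]), (0, [0], [3, 4])]),
  (-1, 1, 1, [(0, [1], [0, 1]), (0, [1], [2, 5]), (3, [], [5]), (0, [0], [3, 4])])]

def c26_1 : Cov := p26_1_0

theorem t26_0_0_0 : chkF keys 1 5 p26_0_0 c26_0
  [(282, 528, 528, 87098466, 23220291), (63, 528, 528, 69273141, 33953091), (63, 528, 528, 69272886, 2495811), (282, 528, 528, 87098916, 39866691)]
  [(63, -8), (282, 8)] = true := by
  decide +kernel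

theorem t26_0_1_0 : chkF keys 1 5 p26_0_0 c26_1
  [(208, 288, 288, 54593106, 34955331), (204, 258, 33, 50677281, 37970181), (204, 258, 33, 50676246, 4416021), (208, 288, 288, 104924451, 103088451)]
  [(204, -4), (208, 4)] = true := by
  decide +kernel

theorem t26_1_1_0 : chkF keys 1 5 p26_1_0 c26_1
  [(209, 528, 528, 103875906, 102846531), (64, 528, 528, 90243636, 90182211), (64, 528, 528, 90244146, 90312771), (209, 528, 528, 103875156, 101732931)]
  [(64, -2), (209, 2)] = true := by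
  decide +kernel

section

variable {κ ι : Type*} [Fintype κ] [Fintype ι] [Inhabited κ] [Inhabited ι]

def r26_0_0 : List (ℕ × ℤ) := [(63, -8), (282, 8)]

theorem h26_0_0 (E : Env κ ι) : inn E 1 5 c26_0 c26_0 = dotS (ek E keys) r26_0_0 :=
  innS_eqZ E _ _ _ _ _ _ _ (chkF_sound E keys 1 5 _ _ _ _ t26_0_0_0) (by decide +kernel)

def r26_0_1 : List (ℕ × ℤ) := [(204, -4), (208, 4)]

theorem h26_0_1 (E : Env κ ι) : inn E 1 5 c26_0 c26_1 = dotS (ek E keys) r26_0_1 :=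
  innS_eqZ E _ _ _ _ _ _ _ (chkF_sound E keys 1 5 _ _ _ _ t26_0_1_0) (by decide +kernel)

def r26_1_1 : List (ℕ × ℤ) := [(64, -2), (209, 2)]

theorem h26_1_1 (E : Env κ ι) : inn E 1 5 c26_1 c26_1 = dotS (ek E keys) r26_1_1 :=
  innS_eqZ E _ _ _ _ _ _ _ (chkF_sound E keys 1 5 _ _ _ _ t26_1_1_0) (by decide +kernel)

theorem row26_0 (E : Env κ ι) : RowS E 1 5 (ek E keys) c26_0 [c26_0, c26_1] [r26_0_0, r26_0_1] :=
  rowS_cons E _ _ _ _ _ _ _ _ (h26_0_0 E) (rowS_cons E _ _ _ _ _ _ _ _ (h26_0_1 E) (rowS_nil E _ _ _ _))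

theorem row26_1 (E : Env κ ι) : RowS E 1 5 (ek E keys) c26_1 [c26_1] [r26_1_1] :=
  rowS_cons E _ _ _ _ _ _ _ _ (h26_1_1 E) (rowS_nil E _ _ _ _)

def tab26 : List (List (List (ℕ × ℤ))) := [[r26_0_0, r26_0_1], [r26_1_1]]

theorem tri26 (E : Env κ ι) : TriS E 1 5 (ek E keys) [c26_0, c26_1] tab26 := by
  refine triS_cons E _ _ _ _ _ _ _ (row26_0 E) ?_
  refine triS_cons E _ _ _ _ _ _ _ (row26_1 E) ?_
  exact triS_nil E _ _ _

def rows26 : List (ℕ × List ℤ) := [(2220616581120000, [524288, -17]),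
  (2442410884890017251983360000, [0, 1]),
  (610481428025540157112320000, [1, 0]),
  (2441925712102160628449280000, [0, 1])]

def M26 : List (List ℤ) := [[1220879865968946944409600000, -39584249286796247040000],
  [4884336597633936072376320000]]

def u26 : List ℤ := [0, 0, 0, 0, 0, 0, 0, 0, 0, 0, 0, 0, 0, 0, 0, 0, 0, 0, 0, 0, 0, 0, 0, 0, 0, 0, 0, 0, 0, 0, 0, 0, 0, 0, 0, 0, 0, 0, 0, 0, 0, 0, 0, 0, 0, 0, 0, 0, 0, 0, 0, 0, 0, 0, 0, 0, 0, 0, 0, 0, 0, 0, 0, -9767038927751575555276800000, -9768673195267872144752640000, 0, 0, 0, 0, 0, 0, 0, 0, 0, 0, 0, 0, 0, 0, 0, 0, 0, 0, 0, 0, 0, 0, 0, 0, 0, 0, 0, 0, 0, 0, 0, 0, 0, 0, 0, 0, 0, 0, 0, 0, 0, 0, 0, 0, 0, 0, 0, 0, 0, 0, 0, 0, 0, 0, 0, 0, 0, 0, 0, 0, 0, 0, 0, 0, 0, 0, 0, 0, 0, 0, 0, 0, 0, 0, 0, 0, 0, 0, 0, 0, 0, 0, 0, 0, 0, 0, 0, 0, 0, 0, 0, 0, 0, 0, 0, 0, 0, 0, 0, 0, 0, 0, 0, 0, 0, 0, 0, 0, 0, 0, 0, 0, 0, 0, 0, 0, 0, 0, 0, 0, 0, 0, 0, 0, 0, 0, 0, 0, 0, 0, 0, 0,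 0, 0, 0, 0, 0, 0, 0, 158336997147184988160000, 0, 0, 0, -158336997147184988160000, 9768673195267872144752640000, 0, 0, 0, 0, 0, 0, 0, 0, 0, 0, 0, 0, 0, 0, 0, 0, 0, 0, 0, 0, 0, 0, 0, 0, 0, 0, 0, 0, 0, 0, 0, 0, 0, 0, 0, 0, 0, 0, 0, 0, 0, 0, 0, 0, 0, 0, 0, 0, 0, 0, 0, 0, 0, 0, 0, 0, 0, 0, 0, 0, 0, 0, 0, 0, 0, 0, 0, 0, 0, 0, 0, 0, 9767038927751575555276800000]

theorem gr26 : eqM (gramT rows26) M26 = true := by
  decide +kernel

theorem mv26 : eqZ (mval M26 tab26) u26 = true := by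
  decide +kernel

theorem nn26 (E : Env κ ι) : 0 ≤ dot (ek E keys) u26 0 :=
  block_nonneg E _ _ _ _ _ (tri26 E) rows26 M26 gr26 u26 mv26

end

def p27_0_0 : Cov := [(2, 1, 1, [(0, [0], [0, 3]), (0, [0], [1, 3]), (3, [], [2])]),
  (-2, 1, 1, [(0, [0], [1, 3]), (0, [0], [2, 3]), (3, [], [0])])]

def c27_0 : Cov := p27_0_0

def p27_1_0 : Cov := [(1, 1, 1, [(0, [0], [0, 3]), (0, [0], [1, 2]), (3, [], [3])]),
  (-1, 1, 1, [(0, [0], [0, 1]), (0, [0], [2, 3]), (3, [], [3])])]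

def c27_1 : Cov := p27_1_0

theorem t27_0_0_0 : chkF keys 0 3 p27_0_0 c27_0
  [(132, 16, 16, 267040, 270640), (34, 16, 16, 132115, 132115), (34, 16, 16, 131860, 9235), (132, 16, 16, 266755, 262705)]
  [(34, -8), (132, 8)] = true := by
  decide +kernel

theorem t27_0_1_0 : chkF keys 0 3 p27_0_0 c27_1
  [(56, 16, 16, 132145, 136195), (133, 16, 16, 267040, 270640), (133, 16, 16, 266755, 262705), (56, 16, 16, 262930, 270355)]
  [(56, 4), (133, -4)] = true := by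
  decide +kernel

theorem t27_1_1_0 : chkF keys 0 3 p27_1_0 c27_1
  [(142, 16, 16, 267040, 270640), (35, 16, 16, 213010, 213010), (35, 16, 16, 213520, 213520), (142, 16, 16, 266290, 266290)]
  [(35, -2), (142, 2)] = true := by
  decide +kernel

section

variable {κ ι : Type*} [Fintype κ] [Fintype ι] [Inhabited κ] [Inhabited ι]

def r27_0_0 : List (ℕ × ℤ) := [(34, -8), (132, 8)]

theorem h27_0_0 (E : Env κ ι) : inn E 0 3 c27_0 c27_0 = dotS (ek E keys) r27_0_0 :=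
  innS_eqZ E _ _ _ _ _ _ _ (chkF_sound E keys 0 3 _ _ _ _ t27_0_0_0) (by decide +kernel)

def r27_0_1 : List (ℕ × ℤ) := [(56, 4), (133, -4)]

theorem h27_0_1 (E : Env κ ι) : inn E 0 3 c27_0 c27_1 = dotS (ek E keys) r27_0_1 :=
  innS_eqZ E _ _ _ _ _ _ _ (chkF_sound E keys 0 3 _ _ _ _ t27_0_1_0) (by decide +kernel)

def r27_1_1 : List (ℕ × ℤ) := [(35, -2), (142, 2)]

theorem h27_1_1 (E : Env κ ι) : inn E 0 3 c27_1 c27_1 = dotS (ek E keys) r27_1_1 :=
  innS_eqZ E _ _ _ _ _ _ _ (chkF_sound E keys 0 3 _ _ _ _ t27_1_1_0) (by decide +kernel)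

theorem row27_0 (E : Env κ ι) : RowS E 0 3 (ek E keys) c27_0 [c27_0, c27_1] [r27_0_0, r27_0_1] :=
  rowS_cons E _ _ _ _ _ _ _ _ (h27_0_0 E) (rowS_cons E _ _ _ _ _ _ _ _ (h27_0_1 E) (rowS_nil E _ _ _ _))

theorem row27_1 (E : Env κ ι) : RowS E 0 3 (ek E keys) c27_1 [c27_1] [r27_1_1] :=
  rowS_cons E _ _ _ _ _ _ _ _ (h27_1_1 E) (rowS_nil E _ _ _ _)

def tab27 : List (List (List (ℕ × ℤ))) := [[r27_0_0, r27_0_1], [r27_1_1]]

theorem tri27 (E : Env κ ι) : TriS E 0 3 (ek E keys) [c27_0, c27_1] tab27 := by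
  refine triS_cons E _ _ _ _ _ _ _ (row27_0 E) ?_
  refine triS_cons E _ _ _ _ _ _ _ (row27_1 E) ?_
  exact triS_nil E _ _ _

def rows27 : List (ℕ × List ℤ) := [(860925728194560000, [1048576, -1379115]),
  (7951764635561099956227932160000, [0, 1]),
  (203493277354140735897600000, [1, 0]),
  (813973109416562943590400000, [0, 1])]

def M27 : List (List ℤ) := [[946801342078792943963996160000, -2489981255054085302570188800000],
  [9590023342559102016099778560000]]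

def u27 : List ℤ := [0, 0, 0, 0, 0, 0, 0, 0, 0, 0, 0, 0, 0, 0, 0, 0, 0, 0, 0, 0, 0, 0, 0, 0, 0, 0, 0, 0, 0, 0, 0, 0, 0, 0, -7574410736630343551711969280000, -19180046685118204032199557120000, 0, 0, 0, 0, 0, 0, 0, 0, 0, 0, 0, 0, 0, 0, 0, 0, 0, 0, 0, 0, -9959925020216341210280755200000, 0, 0, 0, 0, 0, 0, 0, 0, 0, 0, 0, 0, 0, 0, 0, 0, 0, 0, 0, 0, 0, 0, 0, 0, 0, 0, 0, 0, 0, 0, 0, 0, 0, 0, 0, 0, 0, 0, 0, 0, 0, 0, 0, 0, 0, 0, 0, 0, 0, 0, 0, 0, 0, 0, 0, 0, 0, 0, 0, 0, 0, 0, 0, 0, 0, 0, 0, 0, 0, 0, 0, 0, 0, 0, 0, 7574410736630343551711969280000, 9959925020216341210280755200000, 0, 0, 0, 0, 0, 0, 0, 0, 19180046685118204032199557120000]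

theorem gr27 : eqM (gramT rows27) M27 = true := by
  decide +kernel

theorem mv27 : eqZ (mval M27 tab27) u27 = true := by
  decide +kernel

theorem nn27 (E : Env κ ι) : 0 ≤ dot (ek E keys) u27 0 :=
  block_nonneg E _ _ _ _ _ (tri27 E) rows27 M27 gr27 u27 mv27

end

def p28_0_0 : Cov := [(1, 0, 2, [(0, [0], [3, 4]), (0, [1], [0, 3]), (3, [], [4]), (0, [2], [1, 2])]),
  (1, 0, 2, [(0, [0], [0, 3]), (0, [1], [3, 4]), (3, [], [4]), (0, [2], [1, 2])])]

def c28_0 : Cov := p28_0_0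

theorem t28_0_0_0 : chkF keys 3 3 p28_0_0 c28_0
  [(208, 33, 258, 106111236, 105923361), (64, 18, 18, 105193731, 105186081), (64, 33, 258, 105193731, 105186081), (208, 18, 18, 106111236, 105923361)]
  [(64, 2), (208, 2)] = true := by
  decide +kernel

section

variable {κ ι : Type*} [Fintype κ] [Fintype ι] [Inhabited κ] [Inhabited ι]

def r28_0_0 : List (ℕ × ℤ) := [(64, 2), (208, 2)]

theorem h28_0_0 (E : Env κ ι) : inn E 3 3 c28_0 c28_0 = dotS (ek E keys) r28_0_0 :=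
  innS_eqZ E _ _ _ _ _ _ _ (chkF_sound E keys 3 3 _ _ _ _ t28_0_0_0) (by decide +kernel)

theorem row28_0 (E : Env κ ι) : RowS E 3 3 (ek E keys) c28_0 [c28_0] [r28_0_0] :=
  rowS_cons E _ _ _ _ _ _ _ _ (h28_0_0 E) (rowS_nil E _ _ _ _)

def tab28 : List (List (List (ℕ × ℤ))) := [[r28_0_0]]

theorem tri28 (E : Env κ ι) : TriS E 3 3 (ek E keys) [c28_0] tab28 := by
  refine triS_cons E _ _ _ _ _ _ _ (row28_0 E) ?_
  exact triS_nil E _ _ _

def rows28 : List (ℕ × List ℤ) := [(2441593751773627149189120000, [1]),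
  (2441925712102160628449280000, [1])]

def M28 : List (List ℤ) := [[4883519463875787777638400000]]

def u28 : List ℤ := [0, 0, 0, 0, 0, 0, 0, 0, 0, 0, 0, 0, 0, 0, 0, 0, 0, 0, 0, 0, 0, 0, 0, 0, 0, 0, 0, 0, 0, 0, 0, 0, 0, 0, 0, 0, 0, 0, 0, 0, 0, 0, 0, 0, 0, 0, 0, 0, 0, 0, 0, 0, 0, 0, 0, 0, 0, 0, 0, 0, 0, 0, 0, 0, 9767038927751575555276800000, 0, 0, 0, 0, 0, 0, 0, 0, 0, 0, 0, 0, 0, 0, 0, 0, 0, 0, 0, 0, 0, 0, 0, 0, 0, 0, 0, 0, 0, 0, 0, 0, 0, 0, 0, 0, 0, 0, 0, 0, 0, 0, 0, 0, 0, 0, 0, 0, 0, 0, 0, 0, 0, 0, 0, 0, 0, 0, 0, 0, 0, 0, 0, 0, 0, 0, 0, 0, 0, 0, 0, 0, 0, 0, 0, 0, 0, 0, 0, 0, 0, 0, 0, 0, 0, 0, 0, 0, 0, 0, 0, 0, 0, 0, 0, 0, 0, 0, 0, 0, 0, 0, 0, 0, 0, 0, 0, 0, 0, 0, 0, 0, 0, 0, 0, 0, 0, 0, 0, 0, 0, 0, 0, 0, 0, 0, 0, 0, 0, 0, 0, 0, 0, 0, 0, 0, 0, 0, 0, 0, 0, 0, 0, 9767038927751575555276800000]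

theorem gr28 : eqM (gramT rows28) M28 = true := by
  decide +kernel

theorem mv28 : eqZ (mval M28 tab28) u28 = true := by
  decide +kernel

theorem nn28 (E : Env κ ι) : 0 ≤ dot (ek E keys) u28 0 :=
  block_nonneg E _ _ _ _ _ (tri28 E) rows28 M28 gr28 u28 mv28

end

def p29_0_0 : Cov := [(1, 0, 2, [(0, [0], [1, 2]), (0, [1], [0, 1]), (3, [], [2])]),
  (1, 0, 2, [(0, [0], [0, 1]), (0, [1], [1, 2]), (3, [], [2])])]

def c29_0 : Cov := p29_0_0

theorem t29_0_0_0 : chkF keys 2 1 p29_0_0 c29_0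
  [(56, 1, 1, 274960, 274960), (35, 1, 1, 271105, 271105), (35, 16, 16, 271105, 271105), (56, 16, 16, 274960, 274960)]
  [(35, 2), (56, 2)] = true := by
  decide +kernel

section

variable {κ ι : Type*} [Fintype κ] [Fintype ι] [Inhabited κ] [Inhabited ι]

def r29_0_0 : List (ℕ × ℤ) := [(35, 2), (56, 2)]

theorem h29_0_0 (E : Env κ ι) : inn E 2 1 c29_0 c29_0 = dotS (ek E keys) r29_0_0 :=
  innS_eqZ E _ _ _ _ _ _ _ (chkF_sound E keys 2 1 _ _ _ _ t29_0_0_0) (by decide +kernel)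

theorem row29_0 (E : Env κ ι) : RowS E 2 1 (ek E keys) c29_0 [c29_0] [r29_0_0] :=
  rowS_cons E _ _ _ _ _ _ _ _ (h29_0_0 E) (rowS_nil E _ _ _ _)

def tab29 : List (List (List (ℕ × ℤ))) := [[r29_0_0]]

theorem tri29 (E : Env κ ι) : TriS E 2 1 (ek E keys) [c29_0] tab29 := by
  refine triS_cons E _ _ _ _ _ _ _ (row29_0 E) ?_
  exact triS_nil E _ _ _

def rows29 : List (ℕ × List ℤ) := [(3701978888600029326433320960000, [1]),
  (813973109416562943590400000, [1])]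

def M29 : List (List ℤ) := [[3702792861709445889376911360000]]

def u29 : List ℤ := [0, 0, 0, 0, 0, 0, 0, 0, 0, 0, 0, 0, 0, 0, 0, 0, 0, 0, 0, 0, 0, 0, 0, 0, 0, 0, 0, 0, 0, 0, 0, 0, 0, 0, 0, 7405585723418891778753822720000, 0, 0, 0, 0, 0, 0, 0, 0, 0, 0, 0, 0, 0, 0, 0, 0, 0, 0, 0, 0, 7405585723418891778753822720000]

theorem gr29 : eqM (gramT rows29) M29 = true := by
  decide +kernel

theorem mv29 : eqZ (mval M29 tab29) u29 = true := by
  decide +kernel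

theorem nn29 (E : Env κ ι) : 0 ≤ dot (ek E keys) u29 0 :=
  block_nonneg E _ _ _ _ _ (tri29 E) rows29 M29 gr29 u29 mv29

end

def p30_0_0 : Cov := [(1, 0, 2, [(0, [0], [3, 4]), (0, [1], [0, 3]), (3, [], [4]), (0, [2], [1, 2])]),
  (-1, 0, 2, [(0, [0], [0, 3]), (0, [1], [3, 4]), (3, [], [4]), (0, [2], [1, 2])])]

def c30_0 : Cov := p30_0_0

theorem t30_0_0_0 : chkF keys 3 3 p30_0_0 c30_0
  [(208, 33, 258, 106111236, 105923361), (64, 18, 18, 105193731, 105186081), (64, 33, 258, 105193731, 105186081), (208, 18, 18, 106111236, 105923361)]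
  [(64, -2), (208, 2)] = true := by
  decide +kernel

section

variable {κ ι : Type*} [Fintype κ] [Fintype ι] [Inhabited κ] [Inhabited ι]

def r30_0_0 : List (ℕ × ℤ) := [(64, -2), (208, 2)]

theorem h30_0_0 (E : Env κ ι) : inn E 3 3 c30_0 c30_0 = dotS (ek E keys) r30_0_0 :=
  innS_eqZ E _ _ _ _ _ _ _ (chkF_sound E keys 3 3 _ _ _ _ t30_0_0_0) (by decide +kernel)

theorem row30_0 (E : Env κ ι) : RowS E 3 3 (ek E keys) c30_0 [c30_0] [r30_0_0] :=
  rowS_cons E _ _ _ _ _ _ _ _ (h30_0_0 E) (rowS_nil E _ _ _ _)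

def tab30 : List (List (List (ℕ × ℤ))) := [[r30_0_0]]

theorem tri30 (E : Env κ ι) : TriS E 3 3 (ek E keys) [c30_0] tab30 := by
  refine triS_cons E _ _ _ _ _ _ _ (row30_0 E) ?_
  exact triS_nil E _ _ _

def rows30 : List (ℕ × List ℤ) := [(2442410884890017251983360000, [1]),
  (2441925712102160628449280000, [1])]

def M30 : List (List ℤ) := [[4884336596992177880432640000]]

def u30 : List ℤ := [0, 0, 0, 0, 0, 0, 0, 0, 0, 0, 0, 0, 0, 0, 0, 0, 0, 0, 0, 0, 0, 0, 0, 0, 0, 0, 0, 0, 0, 0, 0, 0, 0, 0, 0, 0, 0, 0, 0, 0, 0, 0, 0, 0, 0, 0, 0, 0, 0, 0, 0, 0, 0, 0, 0, 0, 0, 0, 0, 0, 0, 0, 0, 0, -9768673193984355760865280000, 0, 0, 0, 0, 0, 0, 0, 0, 0, 0, 0, 0, 0, 0, 0, 0, 0, 0, 0, 0, 0, 0, 0, 0, 0, 0, 0, 0, 0, 0, 0, 0, 0, 0, 0, 0, 0, 0, 0, 0, 0, 0, 0, 0, 0, 0, 0, 0, 0, 0, 0, 0, 0, 0, 0, 0, 0, 0, 0, 0, 0, 0, 0, 0, 0, 0, 0, 0, 0, 0, 0, 0, 0, 0, 0, 0, 0, 0, 0, 0, 0, 0, 0, 0, 0, 0, 0, 0, 0, 0, 0, 0, 0, 0, 0, 0, 0,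 0, 0, 0, 0, 0, 0, 0, 0, 0, 0, 0, 0, 0, 0, 0, 0, 0, 0, 0, 0, 0, 0, 0, 0, 0, 0, 0, 0, 0, 0, 0, 0, 0, 0, 0, 0, 0, 0, 0, 0, 0, 0, 0, 0, 0, 0, 9768673193984355760865280000]

theorem gr30 : eqM (gramT rows30) M30 = true := by
  decide +kernel

theorem mv30 : eqZ (mval M30 tab30) u30 = true := by
  decide +kernel

theorem nn30 (E : Env κ ι) : 0 ≤ dot (ek E keys) u30 0 :=
  block_nonneg E _ _ _ _ _ (tri30 E) rows30 M30 gr30 u30 mv30

end

def p31_0_0 : Cov := [(1, 0, 2, [(0, [0], [1, 2]), (0, [1], [0, 1]), (3, [], [2])]),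
  (-1, 0, 2, [(0, [0], [0, 1]), (0, [1], [1, 2]), (3, [], [2])])]

def c31_0 : Cov := p31_0_0

theorem t31_0_0_0 : chkF keys 2 1 p31_0_0 c31_0
  [(56, 1, 1, 274960, 274960), (35, 1, 1, 271105, 271105), (35, 16, 16, 271105, 271105), (56, 16, 16, 274960, 274960)]
  [(35, -2), (56, 2)] = true := by
  decide +kernel

section

variable {κ ι : Type*} [Fintype κ] [Fintype ι] [Inhabited κ] [Inhabited ι]

def r31_0_0 : List (ℕ × ℤ) := [(35, -2), (56, 2)]

theorem h31_0_0 (E : Env κ ι) : inn E 2 1 c31_0 c31_0 = dotS (ek E keys) r31_0_0 :=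
  innS_eqZ E _ _ _ _ _ _ _ (chkF_sound E keys 2 1 _ _ _ _ t31_0_0_0) (by decide +kernel)

theorem row31_0 (E : Env κ ι) : RowS E 2 1 (ek E keys) c31_0 [c31_0] [r31_0_0] :=
  rowS_cons E _ _ _ _ _ _ _ _ (h31_0_0 E) (rowS_nil E _ _ _ _)

def tab31 : List (List (List (ℕ × ℤ))) := [[r31_0_0]]

theorem tri31 (E : Env κ ι) : TriS E 2 1 (ek E keys) [c31_0] tab31 := by
  refine triS_cons E _ _ _ _ _ _ _ (row31_0 E) ?_
  exact triS_nil E _ _ _

def rows31 : List (ℕ × List ℤ) := [(21815267150829726496079216640000, [1]),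
  (813973109416562943590400000, [1])]

def M31 : List (List ℤ) := [[21816081123939143059022807040000]]

def u31 : List ℤ := [0, 0, 0, 0, 0, 0, 0, 0, 0, 0, 0, 0, 0, 0, 0, 0, 0, 0, 0, 0, 0, 0, 0, 0, 0, 0, 0, 0, 0, 0, 0, 0, 0, 0, 0, -43632162247878286118045614080000, 0, 0, 0, 0, 0, 0, 0, 0, 0, 0, 0, 0, 0, 0, 0, 0, 0, 0, 0, 0, 43632162247878286118045614080000]

theorem gr31 : eqM (gramT rows31) M31 = true := by
  decide +kernel

theorem mv31 : eqZ (mval M31 tab31) u31 = true := by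
  decide +kernel

theorem nn31 (E : Env κ ι) : 0 ≤ dot (ek E keys) u31 0 :=
  block_nonneg E _ _ _ _ _ (tri31 E) rows31 M31 gr31 u31 mv31

end

def p32_0_0 : Cov := [(2, 0, 1, [(0, [0], [0, 5]), (0, [1], [1, 2]), (3, [], [5]), (0, [2], [3, 4])]),
  (-2, 0, 1, [(0, [0], [0, 1]), (0, [1], [2, 5]), (3, [], [5]), (0, [2], [3, 4])]),
  (-2, 0, 1, [(0, [0], [0, 2]), (0, [1], [1, 5]), (3, [], [5]), (0, [2], [3, 4])]),
  (2, 0, 1, [(0, [0], [1, 5]), (0, [1], [0, 2]), (3, [], [5]), (0, [2], [3, 4])]),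
  (-2, 0, 1, [(0, [0], [1, 2]), (0, [1], [0, 5]), (3, [], [5]), (0, [2], [3, 4])]),
  (2, 0, 1, [(0, [0], [2, 5]), (0, [1], [0, 1]), (3, [], [5]), (0, [2], [3, 4])])]

def c32_0 : Cov := p32_0_0

theorem t32_0_0_0 : chkF keys 3 5 p32_0_0 c32_0
  [(62, 258, 33, 106111236, 105923361), (63, 18, 18, 90243636, 90182211), (63, 18, 18, 90243876, 90186051), (208, 33, 258, 103875666, 101863491), (209, 33, 258, 103875906, 102846531), (208, 33, 258, 103875906, 102846531), (63, 33, 258, 90244146, 90312771), (62, 288, 288, 106112016, 106054416), (208, 18, 18, 103875156, 101732931), (63, 33, 258, 90244131, 90308931), (208, 18, 18, 103875141, 100749891), (209, 18, 18, 103875156, 101732931), (63, 33, 258, 90243906, 90251331), (208, 18, 18, 103875876, 102781251), (62, 288, 288, 106111296, 105988896), (209, 18, 18, 103875876, 102781251), (208, 18, 18, 103875621, 100815171), (63, 33, 258, 90243651, 90243651), (208, 33,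 258, 103875621, 100815171), (63, 18, 18, 90243651, 90243651), (209, 33, 258, 103875876, 102781251), (62, 258, 33, 106111296, 105988896), (63, 18, 18, 90243906, 90251331), (208, 33, 258, 103875876, 102781251), (209, 18, 18, 103875906, 102846531), (208, 18, 18, 103875906, 102846531), (208, 18, 18, 103875666, 101863491), (63, 33, 258, 90243876, 90186051), (62, 288, 288, 106111236, 105923361), (63, 33, 258, 90243636, 90182211), (208, 33, 258, 103875141, 100749891), (209, 33, 258, 103875156, 101732931), (63, 18, 18, 90244131, 90308931), (208, 33, 258, 103875156, 101732931), (63, 18, 18, 90244146, 90312771), (62, 258, 33, 106112016, 106054416)]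
  [(62, 24), (63, -48), (208, 48), (209, -24)] = true := by
  decide +kernel

section

variable {κ ι : Type*} [Fintype κ] [Fintype ι] [Inhabited κ] [Inhabited ι]

def r32_0_0 : List (ℕ × ℤ) := [(62, 24), (63, -48), (208, 48), (209, -24)]

theorem h32_0_0 (E : Env κ ι) : inn E 3 5 c32_0 c32_0 = dotS (ek E keys) r32_0_0 :=
  innS_eqZ E _ _ _ _ _ _ _ (chkF_sound E keys 3 5 _ _ _ _ t32_0_0_0) (by decide +kernel)

theorem row32_0 (E : Env κ ι) : RowS E 3 5 (ek E keys) c32_0 [c32_0] [r32_0_0] :=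
  rowS_cons E _ _ _ _ _ _ _ _ (h32_0_0 E) (rowS_nil E _ _ _ _)

def tab32 : List (List (List (ℕ × ℤ))) := [[r32_0_0]]

theorem tri32 (E : Env κ ι) : TriS E 3 5 (ek E keys) [c32_0] tab32 := by
  refine triS_cons E _ _ _ _ _ _ _ (row32_0 E) ?_
  exact triS_nil E _ _ _

def rows32 : List (ℕ × List ℤ) := [(67860351775209317990400000, [1]),
  (67831025952916997406720000, [1])]

def M32 : List (List ℤ) := [[135691377728126315397120000]]

def u32 : List ℤ := [0, 0, 0, 0, 0, 0, 0, 0, 0, 0, 0, 0, 0, 0, 0, 0, 0, 0, 0, 0, 0, 0, 0, 0, 0, 0, 0, 0, 0, 0, 0, 0, 0, 0, 0, 0, 0, 0, 0, 0, 0, 0, 0, 0, 0, 0, 0, 0, 0, 0, 0, 0, 0, 0, 0, 0, 0, 0, 0, 0, 0, 0, 3256593065475031569530880000, -6513186130950063139061760000, 0, 0, 0, 0, 0, 0, 0, 0, 0, 0, 0, 0, 0, 0, 0, 0, 0, 0, 0, 0, 0, 0, 0, 0, 0, 0, 0, 0, 0, 0, 0, 0, 0, 0, 0, 0, 0, 0, 0, 0, 0, 0, 0, 0, 0, 0, 0, 0, 0, 0, 0, 0, 0, 0, 0, 0, 0, 0, 0, 0, 0, 0, 0, 0, 0, 0, 0, 0, 0, 0,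 0, 0, 0, 0, 0, 0, 0, 0, 0, 0, 0, 0, 0, 0, 0, 0, 0, 0, 0, 0, 0, 0, 0, 0, 0, 0, 0, 0, 0, 0, 0, 0, 0, 0, 0, 0, 0, 0, 0, 0, 0, 0, 0, 0, 0, 0, 0, 0, 0, 0, 0, 0, 0, 0, 0, 0, 0, 0, 0, 0, 0, 0, 0, 0, 0, 0, 0, 0, 0, 0, 0, 0, 0, 0, 6513186130950063139061760000, -3256593065475031569530880000]

theorem gr32 : eqM (gramT rows32) M32 = true := by
  decide +kernel

theorem mv32 : eqZ (mval M32 tab32) u32 = true := by
  decide +kernel

theorem nn32 (E : Env κ ι) : 0 ≤ dot (ek E keys) u32 0 :=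
  block_nonneg E _ _ _ _ _ (tri32 E) rows32 M32 gr32 u32 mv32

end

def p33_0_0 : Cov := [(2, 0, 1, [(0, [0], [0, 3]), (0, [1], [1, 2]), (3, [], [3])]),
  (-2, 0, 1, [(0, [0], [0, 1]), (0, [1], [2, 3]), (3, [], [3])]),
  (-2, 0, 1, [(0, [0], [0, 2]), (0, [1], [1, 3]), (3, [], [3])]),
  (2, 0, 1, [(0, [0], [1, 3]), (0, [1], [0, 2]), (3, [], [3])]),
  (-2, 0, 1, [(0, [0], [1, 2]), (0, [1], [0, 3]), (3, [], [3])]),
  (2, 0, 1, [(0, [0], [2, 3]), (0, [1], [0, 1]), (3, [], [3])])]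

def c33_0 : Cov := p33_0_0

theorem t33_0_0_0 : chkF keys 2 3 p33_0_0 c33_0
  [(61, 1, 1, 274690, 274465), (34, 1, 1, 213010, 213010), (34, 1, 1, 213250, 213025), (56, 1, 1, 147475, 197650), (142, 16, 16, 267040, 270640), (56, 1, 1, 147715, 197665), (34, 16, 16, 213520, 213520), (61, 16, 16, 274960, 274960), (56, 16, 16, 148240, 205840), (34, 16, 16, 213505, 213505), (56, 16, 16, 148225, 205825), (142, 1, 1, 266290, 266290), (34, 16, 16, 213280, 213280), (56, 16, 16, 147760, 201760), (61, 16, 16, 274720, 274720), (142, 1, 1, 267010, 270385), (56, 16, 16, 147505, 201730), (34, 16, 16, 213025, 213250), (56, 1, 1, 147505, 201730), (34, 1, 1, 213025, 213250), (142, 16, 16, 267010, 270385), (61, 1, 1, 274720, 274720), (34, 1, 1, 213280, 213280), (56, 1, 1, 147760, 201760), (142, 1, 1, 267040, 270640), (56, 16, 16, 147715, 197665), (56, 16, 16, 147475, 197650), (34, 16, 16, 213250, 213025), (61, 16, 16, 274690,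 274465), (34, 16, 16, 213010, 213010), (56, 1, 1, 148225, 205825), (142, 16, 16, 266290, 266290), (34, 1, 1, 213505, 213505), (56, 1, 1, 148240, 205840), (34, 1, 1, 213520, 213520), (61, 1, 1, 274960, 274960)]
  [(34, -48), (56, 48), (61, 24), (142, -24)] = true := by
  decide +kernel

section

variable {κ ι : Type*} [Fintype κ] [Fintype ι] [Inhabited κ] [Inhabited ι]

def r33_0_0 : List (ℕ × ℤ) := [(34, -48), (56, 48), (61, 24), (142, -24)]

theorem h33_0_0 (E : Env κ ι) : inn E 2 3 c33_0 c33_0 = dotS (ek E keys) r33_0_0 :=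
  innS_eqZ E _ _ _ _ _ _ _ (chkF_sound E keys 2 3 _ _ _ _ t33_0_0_0) (by decide +kernel)

theorem row33_0 (E : Env κ ι) : RowS E 2 3 (ek E keys) c33_0 [c33_0] [r33_0_0] :=
  rowS_cons E _ _ _ _ _ _ _ _ (h33_0_0 E) (rowS_nil E _ _ _ _)

def tab33 : List (List (List (ℕ × ℤ))) := [[r33_0_0]]

theorem tri33 (E : Env κ ι) : TriS E 2 3 (ek E keys) [c33_0] tab33 := by
  refine triS_cons E _ _ _ _ _ _ _ (row33_0 E) ?_
  exact triS_nil E _ _ _

def rows33 : List (ℕ × List ℤ) := [(1443127765559489278519541760000, [1]),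
  (22610408482768913694720000, [1])]

def M33 : List (List ℤ) := [[1443150375967972047433236480000]]

def u33 : List ℤ := [0, 0, 0, 0, 0, 0, 0, 0, 0, 0, 0, 0, 0, 0, 0, 0, 0, 0, 0, 0, 0, 0, 0, 0, 0, 0, 0, 0, 0, 0, 0, 0, 0, 0, -69271218046462658276795351040000, 0, 0, 0, 0, 0, 0, 0, 0, 0, 0, 0, 0, 0, 0, 0, 0, 0, 0, 0, 0, 0, 69271218046462658276795351040000, 0, 0, 0, 0, 34635609023231329138397675520000, 0, 0, 0, 0, 0, 0, 0, 0, 0, 0, 0, 0, 0, 0, 0, 0, 0, 0, 0, 0, 0, 0, 0, 0, 0, 0, 0, 0, 0, 0, 0, 0, 0, 0, 0, 0, 0, 0, 0, 0, 0, 0, 0, 0, 0, 0, 0, 0, 0, 0, 0, 0, 0, 0, 0, 0, 0, 0, 0, 0, 0, 0, 0, 0, 0, 0, 0, 0, 0, 0, 0, 0, 0, 0, 0, 0, 0, 0, 0, 0, -34635609023231329138397675520000]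

theorem gr33 : eqM (gramT rows33) M33 = true := by
  decide +kernel

theorem mv33 : eqZ (mval M33 tab33) u33 = true := by
  decide +kernel

theorem nn33 (E : Env κ ι) : 0 ≤ dot (ek E keys) u33 0 :=
  block_nonneg E _ _ _ _ _ (tri33 E) rows33 M33 gr33 u33 mv33

end

def p34_0_0 : Cov := [(2, 0, 1, [(0, [0], [0, 5]), (0, [1], [1, 5]), (3, [], [2]), (0, [2], [3, 4])]),
  (-2, 0, 1, [(0, [0], [0, 5]), (0, [1], [2, 5]), (3, [], [1]), (0, [2], [3, 4])]),
  (-2, 0, 1, [(0, [0], [1, 5]), (0, [1], [0, 5]), (3, [], [2]), (0, [2], [3, 4])]),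
  (2, 0, 1, [(0, [0], [1, 5]), (0, [1], [2, 5]), (3, [], [0]), (0, [2], [3, 4])]),
  (2, 0, 1, [(0, [0], [2, 5]), (0, [1], [0, 5]), (3, [], [1]), (0, [2], [3, 4])]),
  (-2, 0, 1, [(0, [0], [2, 5]), (0, [1], [1, 5]), (3, [], [0]), (0, [2], [3, 4])])]

def c34_0 : Cov := p34_0_0

theorem t34_0_0_0 : chkF keys 3 5 p34_0_0 c34_0
  [(282, 33, 258, 102827091, 101844291), (208, 18, 18, 86050356, 39851331), (279, 33, 258, 87098466, 23220291), (64, 18, 18, 69273141, 33953091), (64, 33, 258, 69273171, 34997571), (208, 33, 258, 86050371, 39912771), (208, 18, 18, 86049636, 23078211), (282, 33, 258, 102827331, 102827331), (64, 33, 258, 69272931, 19268931), (208, 33, 258, 86049891, 23201091), (279, 33, 258, 87098946, 39931971), (64, 18, 18, 69272421, 17179971), (279, 33, 258, 87098406, 6443331), (64, 18, 18, 69273171, 34997571), (282, 33, 258, 102827061, 100799811), (208, 18, 18, 86050371, 39912771), (208, 33, 258,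 86050356, 39851331), (64, 33, 258, 69273141, 33953091), (64, 33, 258, 69272886, 2495811), (208, 33, 258, 86049846, 6427971), (208, 18, 18, 86049606, 6366531), (282, 33, 258, 102827316, 102765891), (64, 18, 18, 69272406, 1451331), (279, 33, 258, 87098916, 39866691), (64, 18, 18, 69272931, 19268931), (279, 33, 258, 87097926, 6378051), (208, 33, 258, 86049636, 23078211), (64, 33, 258, 69272421, 17179971), (282, 33, 258, 102826821, 100738371), (208, 18, 18, 86049891, 23201091), (208, 33, 258, 86049606, 6366531), (64, 33, 258, 69272406, 1451331), (64, 18, 18, 69272886, 2495811), (279, 33, 258, 87097956, 23089731), (208, 18, 18, 86049846, 6427971), (282, 33, 258, 102826836, 101721411)]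
  [(64, 48), (208, -48), (279, -24), (282, 24)] = true := by
  decide +kernel

section

variable {κ ι : Type*} [Fintype κ] [Fintype ι] [Inhabited κ] [Inhabited ι]

def r34_0_0 : List (ℕ × ℤ) := [(64, 48), (208, -48), (279, -24), (282, 24)]

theorem h34_0_0 (E : Env κ ι) : inn E 3 5 c34_0 c34_0 = dotS (ek E keys) r34_0_0 :=
  innS_eqZ E _ _ _ _ _ _ _ (chkF_sound E keys 3 5 _ _ _ _ t34_0_0_0) (by decide +kernel)

theorem row34_0 (E : Env κ ι) : RowS E 3 5 (ek E keys) c34_0 [c34_0] [r34_0_0] :=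
  rowS_cons E _ _ _ _ _ _ _ _ (h34_0_0 E) (rowS_nil E _ _ _ _)

def tab34 : List (List (List (ℕ × ℤ))) := [[r34_0_0]]

theorem tri34 (E : Env κ ι) : TriS E 3 5 (ek E keys) [c34_0] tab34 := by
  refine triS_cons E _ _ _ _ _ _ _ (row34_0 E) ?_
  exact triS_nil E _ _ _

def rows34 : List (ℕ × List ℤ) := [(67860351775209317990400000, [1]),
  (67831025952916997406720000, [1])]

def M34 : List (List ℤ) := [[135691377728126315397120000]]

def u34 : List ℤ := [0, 0, 0, 0, 0, 0, 0, 0, 0, 0, 0, 0, 0, 0, 0, 0, 0, 0, 0, 0, 0, 0, 0, 0, 0, 0, 0, 0, 0, 0, 0, 0, 0, 0, 0, 0, 0, 0, 0, 0, 0, 0, 0, 0, 0, 0, 0, 0, 0, 0, 0, 0, 0, 0, 0, 0, 0, 0, 0, 0, 0, 0, 0, 0, 6513186130950063139061760000, 0, 0, 0, 0, 0, 0, 0, 0, 0, 0, 0, 0, 0, 0, 0, 0, 0, 0, 0, 0, 0, 0, 0, 0, 0, 0, 0, 0, 0, 0, 0, 0, 0, 0, 0, 0, 0, 0, 0, 0, 0, 0, 0, 0, 0, 0, 0, 0, 0, 0, 0, 0, 0, 0, 0, 0, 0, 0, 0, 0, 0, 0, 0, 0, 0, 0, 0, 0, 0, 0, 0, 0, 0, 0, 0, 0, 0, 0,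 0, 0, 0, 0, 0, 0, 0, 0, 0, 0, 0, 0, 0, 0, 0, 0, 0, 0, 0, 0, 0, 0, 0, 0, 0, 0, 0, 0, 0, 0, 0, 0, 0, 0, 0, 0, 0, 0, 0, 0, 0, 0, 0, 0, 0, 0, 0, 0, 0, 0, 0, 0, 0, 0, 0, 0, 0, 0, 0, 0, 0, 0, 0, 0, 0, -6513186130950063139061760000, 0, 0, 0, 0, 0, 0, 0, 0, 0, 0, 0, 0, 0, 0, 0, 0, 0, 0, 0, 0, 0, 0, 0, 0, 0, 0, 0, 0, 0, 0, 0, 0, 0, 0, 0, 0, 0, 0, 0, 0, 0, 0, 0, 0, 0, 0, 0, 0, 0, 0, 0, 0, 0, 0, 0, 0, 0, 0, 0, 0, 0, 0, 0, 0, 0, 0, 0, 0, 0, 0, -3256593065475031569530880000, 0, 0, 3256593065475031569530880000]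

theorem gr34 : eqM (gramT rows34) M34 = true := by
  decide +kernel

theorem mv34 : eqZ (mval M34 tab34) u34 = true := by
  decide +kernel

theorem nn34 (E : Env κ ι) : 0 ≤ dot (ek E keys) u34 0 :=
  block_nonneg E _ _ _ _ _ (tri34 E) rows34 M34 gr34 u34 mv34

end

def p35_0_0 : Cov := [(2, 0, 1, [(0, [0], [0, 3]), (0, [1], [1, 3]), (3, [], [2])]),
  (-2, 0, 1, [(0, [0], [0, 3]), (0, [1], [2, 3]), (3, [], [1])]),
  (-2, 0, 1, [(0, [0], [1, 3]), (0, [1], [0, 3]), (3, [], [2])]),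
  (2, 0, 1, [(0, [0], [1, 3]), (0, [1], [2, 3]), (3, [], [0])]),
  (2, 0, 1, [(0, [0], [2, 3]), (0, [1], [0, 3]), (3, [], [1])]),
  (-2, 0, 1, [(0, [0], [2, 3]), (0, [1], [1, 3]), (3, [], [0])])]

def c35_0 : Cov := p35_0_0

theorem t35_0_0_0 : chkF keys 2 3 p35_0_0 c35_0
  [(132, 16, 16, 131905, 74755), (56, 16, 16, 201760, 147760), (179, 16, 16, 136240, 136240), (35, 1, 1, 132115, 132115), (35, 16, 16, 132145, 136195), (56, 1, 1, 201730, 147505), (56, 16, 16, 201280, 82480), (132, 16, 16, 132145, 136195), (35, 16, 16, 131905, 74755), (56, 1, 1, 200770, 81970), (179, 16, 16, 136000, 74800), (35, 1, 1, 131395, 66595), (179, 16, 16, 136195, 132145), (35, 1, 1, 132145, 136195), (132, 16, 16, 131860, 9235), (56, 16, 16, 201730, 147505), (56, 1, 1, 201760, 147760), (35, 16, 16, 132115, 132115), (35, 16, 16, 131860, 9235), (56, 1, 1, 200740, 16690), (56, 16, 16, 201220, 16945), (132, 16, 16, 132115, 132115),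 (35, 1, 1, 131380, 5155), (179, 16, 16, 135940, 9265), (35, 1, 1, 131905, 74755), (179, 16, 16, 135235, 66610), (56, 1, 1, 201280, 82480), (35, 16, 16, 131395, 66595), (132, 16, 16, 131380, 5155), (56, 16, 16, 200770, 81970), (56, 1, 1, 201220, 16945), (35, 16, 16, 131380, 5155), (35, 1, 1, 131860, 9235), (179, 16, 16, 135220, 5170), (56, 16, 16, 200740, 16690), (132, 16, 16, 131395, 66595)]
  [(35, 48), (56, -48), (132, 24), (179, -24)] = true := by
  decide +kernel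

section

variable {κ ι : Type*} [Fintype κ] [Fintype ι] [Inhabited κ] [Inhabited ι]

def r35_0_0 : List (ℕ × ℤ) := [(35, 48), (56, -48), (132, 24), (179, -24)]

theorem h35_0_0 (E : Env κ ι) : inn E 2 3 c35_0 c35_0 = dotS (ek E keys) r35_0_0 :=
  innS_eqZ E _ _ _ _ _ _ _ (chkF_sound E keys 2 3 _ _ _ _ t35_0_0_0) (by decide +kernel)

theorem row35_0 (E : Env κ ι) : RowS E 2 3 (ek E keys) c35_0 [c35_0] [r35_0_0] :=
  rowS_cons E _ _ _ _ _ _ _ _ (h35_0_0 E) (rowS_nil E _ _ _ _)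

def tab35 : List (List (List (ℕ × ℤ))) := [[r35_0_0]]

theorem tri35 (E : Env κ ι) : TriS E 2 3 (ek E keys) [c35_0] tab35 := by
  refine triS_cons E _ _ _ _ _ _ _ (row35_0 E) ?_
  exact triS_nil E _ _ _

def rows35 : List (ℕ × List ℤ) := [(697017829580928187493253120000, [1]),
  (22610408482768913694720000, [1])]

def M35 : List (List ℤ) := [[697040439989410956406947840000]]

def u35 : List ℤ := [0, 0, 0, 0, 0, 0, 0, 0, 0, 0, 0, 0, 0, 0, 0, 0, 0, 0, 0, 0, 0, 0, 0, 0, 0, 0, 0, 0, 0, 0, 0, 0, 0, 0, 0, 33457941119491725907533496320000, 0, 0, 0, 0, 0, 0, 0, 0, 0, 0, 0, 0, 0, 0, 0, 0, 0, 0, 0, 0, -33457941119491725907533496320000, 0, 0, 0, 0, 0, 0, 0, 0, 0, 0, 0, 0, 0, 0, 0, 0, 0, 0, 0, 0, 0, 0, 0, 0, 0, 0, 0, 0, 0, 0, 0, 0, 0, 0, 0, 0, 0, 0, 0, 0, 0, 0, 0, 0, 0, 0, 0, 0, 0, 0, 0, 0, 0, 0, 0, 0, 0, 0, 0, 0, 0, 0, 0, 0, 0, 0, 0, 0, 0, 0, 0, 0, 0, 0, 0, 16728970559745862953766748160000, 0, 0, 0, 0, 0, 0, 0,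 0, 0, 0, 0, 0, 0, 0, 0, 0, 0, 0, 0, 0, 0, 0, 0, 0, 0, 0, 0, 0, 0, 0, 0, 0, 0, 0, 0, 0, 0, 0, 0, 0, 0, 0, 0, 0, 0, 0, -16728970559745862953766748160000]

theorem gr35 : eqM (gramT rows35) M35 = true := by
  decide +kernel

theorem mv35 : eqZ (mval M35 tab35) u35 = true := by
  decide +kernel

theorem nn35 (E : Env κ ι) : 0 ≤ dot (ek E keys) u35 0 :=
  block_nonneg E _ _ _ _ _ (tri35 E) rows35 M35 gr35 u35 mv35

end

def p36_0_0 : Cov := [(1, 0, 2, [(1, [], [3, 4]), (1, [], [3, 4]), (3, [], [0]), (0, [0], [1, 2])])]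

def c36_0 : Cov := p36_0_0

def p36_1_0 : Cov := [(1, 0, 2, [(1, [], [3, 4]), (1, [], [0, 3]), (3, [], [4]), (0, [0], [1, 2])])]

def c36_1 : Cov := p36_1_0

def p36_2_0 : Cov := [(1, 0, 0, [(3, [], [0]), (0, [0], [1, 2])])]

def c36_2 : Cov := p36_2_0

theorem t36_0_0_0 : chkF keys 1 3 p36_0_0 c36_0
  [(334, 0, 0, 106111236, 105923361)]
  [(334, 1)] = true := by
  decide +kernel

theorem t36_0_1_0 : chkF keys 1 3 p36_0_0 c36_1
  [(335, 0, 0, 106111236, 105923361)]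
  [(335, 1)] = true := by
  decide +kernel

theorem t36_0_2_0 : chkF keys 1 3 p36_0_0 c36_2
  [(337, 0, 0, 205060, 17185)]
  [(337, 1)] = true := by
  decide +kernel

theorem t36_1_1_0 : chkF keys 1 3 p36_1_0 c36_1
  [(343, 0, 0, 106111236, 105923361)]
  [(343, 1)] = true := by
  decide +kernel

theorem t36_1_2_0 : chkF keys 1 3 p36_1_0 c36_2
  [(4, 0, 0, 66340, 8515)]
  [(4, 1)] = true := by
  decide +kernel

theorem t36_2_2_0 : chkF keys 1 3 p36_2_0 c36_2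
  [(65, 0, 0, 258, 33)]
  [(65, 1)] = true := by
  decide +kernel

section

variable {κ ι : Type*} [Fintype κ] [Fintype ι] [Inhabited κ] [Inhabited ι]

def r36_0_0 : List (ℕ × ℤ) := [(334, 1)]

theorem h36_0_0 (E : Env κ ι) : inn E 1 3 c36_0 c36_0 = dotS (ek E keys) r36_0_0 :=
  innS_eqZ E _ _ _ _ _ _ _ (chkF_sound E keys 1 3 _ _ _ _ t36_0_0_0) (by decide +kernel)

def r36_0_1 : List (ℕ × ℤ) := [(335, 1)]

theorem h36_0_1 (E : Env κ ι) : inn E 1 3 c36_0 c36_1 = dotS (ek E keys) r36_0_1 :=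
  innS_eqZ E _ _ _ _ _ _ _ (chkF_sound E keys 1 3 _ _ _ _ t36_0_1_0) (by decide +kernel)

def r36_0_2 : List (ℕ × ℤ) := [(337, 1)]

theorem h36_0_2 (E : Env κ ι) : inn E 1 3 c36_0 c36_2 = dotS (ek E keys) r36_0_2 :=
  innS_eqZ E _ _ _ _ _ _ _ (chkF_sound E keys 1 3 _ _ _ _ t36_0_2_0) (by decide +kernel)

def r36_1_1 : List (ℕ × ℤ) := [(343, 1)]

theorem h36_1_1 (E : Env κ ι) : inn E 1 3 c36_1 c36_1 = dotS (ek E keys) r36_1_1 :=
  innS_eqZ E _ _ _ _ _ _ _ (chkF_sound E keys 1 3 _ _ _ _ t36_1_1_0) (by decide +kernel)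

def r36_1_2 : List (ℕ × ℤ) := [(4, 1)]

theorem h36_1_2 (E : Env κ ι) : inn E 1 3 c36_1 c36_2 = dotS (ek E keys) r36_1_2 :=
  innS_eqZ E _ _ _ _ _ _ _ (chkF_sound E keys 1 3 _ _ _ _ t36_1_2_0) (by decide +kernel)

def r36_2_2 : List (ℕ × ℤ) := [(65, 1)]

theorem h36_2_2 (E : Env κ ι) : inn E 1 3 c36_2 c36_2 = dotS (ek E keys) r36_2_2 :=
  innS_eqZ E _ _ _ _ _ _ _ (chkF_sound E keys 1 3 _ _ _ _ t36_2_2_0) (by decide +kernel)

theorem row36_0 (E : Env κ ι) : RowS E 1 3 (ek E keys) c36_0 [c36_0, c36_1, c36_2] [r36_0_0, r36_0_1, r36_0_2] :=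
  rowS_cons E _ _ _ _ _ _ _ _ (h36_0_0 E) (rowS_cons E _ _ _ _ _ _ _ _ (h36_0_1 E) (rowS_cons E _ _ _ _ _ _ _ _ (h36_0_2 E) (rowS_nil E _ _ _ _)))

theorem row36_1 (E : Env κ ι) : RowS E 1 3 (ek E keys) c36_1 [c36_1, c36_2] [r36_1_1, r36_1_2] :=
  rowS_cons E _ _ _ _ _ _ _ _ (h36_1_1 E) (rowS_cons E _ _ _ _ _ _ _ _ (h36_1_2 E) (rowS_nil E _ _ _ _))

theorem row36_2 (E : Env κ ι) : RowS E 1 3 (ek E keys) c36_2 [c36_2] [r36_2_2] :=
  rowS_cons E _ _ _ _ _ _ _ _ (h36_2_2 E) (rowS_nil E _ _ _ _)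

def tab36 : List (List (List (ℕ × ℤ))) := [[r36_0_0, r36_0_1, r36_0_2], [r36_1_1, r36_1_2], [r36_2_2]]

theorem tri36 (E : Env κ ι) : TriS E 1 3 (ek E keys) [c36_0, c36_1, c36_2] tab36 := by
  refine triS_cons E _ _ _ _ _ _ _ (row36_0 E) ?_
  refine triS_cons E _ _ _ _ _ _ _ (row36_1 E) ?_
  refine triS_cons E _ _ _ _ _ _ _ (row36_2 E) ?_
  exact triS_nil E _ _ _

def rows36 : List (ℕ × List ℤ) := [(555339939840000, [4194304, -111, -43]),
  (555154145280000, [0, 4194304, 3]),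
  (9766375007094508596756480000, [0, 0, 1]),
  (2139728976710068907520000, [1, -1, 0]),
  (625887793804380791040000, [1, 0, 1]),
  (1487777423152914977771520, [0, 1, -1]),
  (9758825197751295055192320000, [1, 0, 0]),
  (9767597331010462329192468480, [0, 1, 0]),
  (9766792559136645212331755520, [0, 0, 1])]

def M36 : List (List ℤ) := [[19531234354081878512824320000, -4796554679308946856960000, 1051458837940123845120000],
  [19537599851347177308602880000, -2961578633517777332183040],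
  [19535281232479931040928727040]]

def u36 : List ℤ := [0, 0, 0, 0, -2961578633517777332183040, 0, 0, 0, 0, 0, 0, 0, 0, 0, 0, 0, 0, 0, 0, 0, 0, 0, 0, 0, 0, 0, 0, 0, 0, 0, 0, 0, 0, 0, 0, 0, 0, 0, 0, 0, 0, 0, 0, 0, 0, 0, 0, 0, 0, 0, 0, 0, 0, 0, 0, 0, 0, 0, 0, 0, 0, 0, 0, 0, 0, 19535281232479931040928727040, 0, 0, 0, 0, 0, 0, 0, 0, 0, 0, 0, 0, 0, 0, 0, 0, 0, 0, 0, 0, 0, 0, 0, 0, 0, 0, 0, 0, 0, 0, 0, 0, 0, 0, 0, 0, 0, 0, 0, 0, 0, 0, 0, 0, 0, 0, 0, 0, 0, 0, 0, 0, 0, 0, 0, 0, 0, 0, 0, 0, 0, 0, 0, 0, 0, 0, 0, 0, 0, 0, 0, 0, 0, 0, 0, 0, 0, 0, 0, 0, 0, 0, 0, 0, 0, 0, 0, 0, 0, 0, 0, 0, 0, 0, 0, 0, 0, 0, 0, 0, 0, 0, 0, 0, 0, 0, 0, 0, 0, 0, 0, 0, 0, 0, 0, 0, 0, 0, 0, 0, 0, 0, 0, 0, 0, 0, 0, 0, 0, 0, 0, 0, 0, 0, 0, 0, 0, 0, 0, 0, 0, 0, 0, 0, 0, 0, 0, 0, 0, 0, 0, 0, 0, 0, 0, 0, 0, 0, 0, 0, 0, 0, 0, 0, 0, 0, 0, 0, 0, 0, 0, 0, 0, 0, 0, 0, 0, 0, 0, 0, 0, 0, 0, 0, 0, 0, 0, 0, 0, 0, 0, 0, 0, 0, 0, 0, 0, 0, 0, 0, 0, 0,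 0, 0, 0, 0, 0, 0, 0, 0, 0, 0, 0, 0, 0, 0, 0, 0, 0, 0, 0, 0, 0, 0, 0, 0, 0, 0, 0, 0, 0, 0, 0, 0, 0, 0, 0, 0, 0, 0, 0, 0, 0, 0, 0, 0, 0, 0, 0, 0, 0, 0, 0, 0, 0, 0, 0, 0, 0, 0, 0, 0, 0, 0, 0, 0, 0, 0, 19531234354081878512824320000, -4796554679308946856960000, 0, 1051458837940123845120000, 0, 0, 0, 0, 0, 19537599851347177308602880000]

theorem gr36 : eqM (gramT rows36) M36 = true := by
  decide +kernel

theorem mv36 : eqZ (mval M36 tab36) u36 = true := by
  decide +kernel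

theorem nn36 (E : Env κ ι) : 0 ≤ dot (ek E keys) u36 0 :=
  block_nonneg E _ _ _ _ _ (tri36 E) rows36 M36 gr36 u36 mv36

end

def p37_0_0 : Cov := [(1, 0, 1, [(1, [], [0, 3]), (3, [], [3]), (0, [0], [1, 2])])]

def c37_0 : Cov := p37_0_0

theorem t37_0_0_0 : chkF keys 1 3 p37_0_0 c37_0
  [(4, 0, 0, 267040, 270640)]
  [(4, 1)] = true := by
  decide +kernel

section

variable {κ ι : Type*} [Fintype κ] [Fintype ι] [Inhabited κ] [Inhabited ι]

def r37_0_0 : List (ℕ × ℤ) := [(4, 1)]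

theorem h37_0_0 (E : Env κ ι) : inn E 1 3 c37_0 c37_0 = dotS (ek E keys) r37_0_0 :=
  innS_eqZ E _ _ _ _ _ _ _ (chkF_sound E keys 1 3 _ _ _ _ t37_0_0_0) (by decide +kernel)

theorem row37_0 (E : Env κ ι) : RowS E 1 3 (ek E keys) c37_0 [c37_0] [r37_0_0] :=
  rowS_cons E _ _ _ _ _ _ _ _ (h37_0_0 E) (rowS_nil E _ _ _ _)

def tab37 : List (List (List (ℕ × ℤ))) := [[r37_0_0]]

theorem tri37 (E : Env κ ι) : TriS E 1 3 (ek E keys) [c37_0] tab37 := by
  refine triS_cons E _ _ _ _ _ _ _ (row37_0 E) ?_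
  exact triS_nil E _ _ _

def rows37 : List (ℕ × List ℤ) := [(9766375007094508596756480000, [1]),
  (9767702848408642513797120000, [1])]

def M37 : List (List ℤ) := [[19534077855503151110553600000]]

def u37 : List ℤ := [0, 0, 0, 0, 19534077855503151110553600000]

theorem gr37 : eqM (gramT rows37) M37 = true := by
  decide +kernel

theorem mv37 : eqZ (mval M37 tab37) u37 = true := by
  decide +kernel

theorem nn37 (E : Env κ ι) : 0 ≤ dot (ek E keys) u37 0 :=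
  block_nonneg E _ _ _ _ _ (tri37 E) rows37 M37 gr37 u37 mv37

end

def p38_0_0 : Cov := [(1, 0, 1, [(0, [0], [0, 5]), (3, [], [5]), (0, [1], [1, 2]), (0, [2], [3, 4])])]

def c38_0 : Cov := p38_0_0

theorem t38_0_0_0 : chkF keys 3 5 p38_0_0 c38_0
  [(62, 258, 33, 106111236, 105923361)]
  [(62, 1)] = true := by
  decide +kernel

section

variable {κ ι : Type*} [Fintype κ] [Fintype ι] [Inhabited κ] [Inhabited ι]

def r38_0_0 : List (ℕ × ℤ) := [(62, 1)]

theorem h38_0_0 (E : Env κ ι) : inn E 3 5 c38_0 c38_0 = dotS (ek E keys) r38_0_0 :=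
  innS_eqZ E _ _ _ _ _ _ _ (chkF_sound E keys 3 5 _ _ _ _ t38_0_0_0) (by decide +kernel)

theorem row38_0 (E : Env κ ι) : RowS E 3 5 (ek E keys) c38_0 [c38_0] [r38_0_0] :=
  rowS_cons E _ _ _ _ _ _ _ _ (h38_0_0 E) (rowS_nil E _ _ _ _)

def tab38 : List (List (List (ℕ × ℤ))) := [[r38_0_0]]

theorem tri38 (E : Env κ ι) : TriS E 3 5 (ek E keys) [c38_0] tab38 := by
  refine triS_cons E _ _ _ _ _ _ _ (row38_0 E) ?_
  exact triS_nil E _ _ _

def rows38 : List (ℕ × List ℤ) := [(9766375007094508596756480000, [1]),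
  (9767702848408642513797120000, [1])]

def M38 : List (List ℤ) := [[19534077855503151110553600000]]

def u38 : List ℤ := [0, 0, 0, 0, 0, 0, 0, 0, 0, 0, 0, 0, 0, 0, 0, 0, 0, 0, 0, 0, 0, 0, 0, 0, 0, 0, 0, 0, 0, 0, 0, 0, 0, 0, 0, 0, 0, 0, 0, 0, 0, 0, 0, 0, 0, 0, 0, 0, 0, 0, 0, 0, 0, 0, 0, 0, 0, 0, 0, 0, 0, 0, 19534077855503151110553600000]

theorem gr38 : eqM (gramT rows38) M38 = true := by
  decide +kernel

theorem mv38 : eqZ (mval M38 tab38) u38 = true := by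
  decide +kernel

theorem nn38 (E : Env κ ι) : 0 ≤ dot (ek E keys) u38 0 :=
  block_nonneg E _ _ _ _ _ (tri38 E) rows38 M38 gr38 u38 mv38

end

def p39_0_0 : Cov := [(1, 0, 1, [(0, [0], [0, 5]), (3, [], [5]), (1, [], [1, 2]), (0, [1], [3, 4])])]

def c39_0 : Cov := p39_0_0

theorem t39_0_0_0 : chkF keys 2 5 p39_0_0 c39_0
  [(91, 1, 1, 104923941, 100999491)]
  [(91, 1)] = true := by
  decide +kernel

section

variable {κ ι : Type*} [Fintype κ] [Fintype ι] [Inhabited κ] [Inhabited ι]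

def r39_0_0 : List (ℕ × ℤ) := [(91, 1)]

theorem h39_0_0 (E : Env κ ι) : inn E 2 5 c39_0 c39_0 = dotS (ek E keys) r39_0_0 :=
  innS_eqZ E _ _ _ _ _ _ _ (chkF_sound E keys 2 5 _ _ _ _ t39_0_0_0) (by decide +kernel)

theorem row39_0 (E : Env κ ι) : RowS E 2 5 (ek E keys) c39_0 [c39_0] [r39_0_0] :=
  rowS_cons E _ _ _ _ _ _ _ _ (h39_0_0 E) (rowS_nil E _ _ _ _)

def tab39 : List (List (List (ℕ × ℤ))) := [[r39_0_0]]

theorem tri39 (E : Env κ ι) : TriS E 2 5 (ek E keys) [c39_0] tab39 := by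
  refine triS_cons E _ _ _ _ _ _ _ (row39_0 E) ?_
  exact triS_nil E _ _ _

def rows39 : List (ℕ × List ℤ) := [(9766375007094508596756480000, [1]),
  (9767702848408642513797120000, [1])]

def M39 : List (List ℤ) := [[19534077855503151110553600000]]

def u39 : List ℤ := [0, 0, 0, 0, 0, 0, 0, 0, 0, 0, 0, 0, 0, 0, 0, 0, 0, 0, 0, 0, 0, 0, 0, 0, 0, 0, 0, 0, 0, 0, 0, 0, 0, 0, 0, 0, 0, 0, 0, 0, 0, 0, 0, 0, 0, 0, 0, 0, 0, 0, 0, 0, 0, 0, 0, 0, 0, 0, 0, 0, 0, 0, 0, 0, 0, 0, 0, 0, 0, 0, 0, 0, 0, 0, 0, 0, 0, 0, 0, 0, 0, 0, 0, 0, 0, 0, 0, 0, 0, 0, 0, 19534077855503151110553600000]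

theorem gr39 : eqM (gramT rows39) M39 = true := by
  decide +kernel

theorem mv39 : eqZ (mval M39 tab39) u39 = true := by
  decide +kernel

theorem nn39 (E : Env κ ι) : 0 ≤ dot (ek E keys) u39 0 :=
  block_nonneg E _ _ _ _ _ (tri39 E) rows39 M39 gr39 u39 mv39

end

def p40_0_0 : Cov := [(1, 0, 1, [(0, [0], [0, 5]), (3, [], [5]), (1, [], [1, 2]), (1, [], [3, 4])])]

def c40_0 : Cov := p40_0_0

theorem t40_0_0_0 : chkF keys 1 5 p40_0_0 c40_0
  [(260, 0, 0, 68571936, 70656336)]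
  [(260, 1)] = true := by
  decide +kernel

section

variable {κ ι : Type*} [Fintype κ] [Fintype ι] [Inhabited κ] [Inhabited ι]

def r40_0_0 : List (ℕ × ℤ) := [(260, 1)]

theorem h40_0_0 (E : Env κ ι) : inn E 1 5 c40_0 c40_0 = dotS (ek E keys) r40_0_0 :=
  innS_eqZ E _ _ _ _ _ _ _ (chkF_sound E keys 1 5 _ _ _ _ t40_0_0_0) (by decide +kernel)

theorem row40_0 (E : Env κ ι) : RowS E 1 5 (ek E keys) c40_0 [c40_0] [r40_0_0] :=
  rowS_cons E _ _ _ _ _ _ _ _ (h40_0_0 E) (rowS_nil E _ _ _ _)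

def tab40 : List (List (List (ℕ × ℤ))) := [[r40_0_0]]

theorem tri40 (E : Env κ ι) : TriS E 1 5 (ek E keys) [c40_0] tab40 := by
  refine triS_cons E _ _ _ _ _ _ _ (row40_0 E) ?_
  exact triS_nil E _ _ _

def rows40 : List (ℕ × List ℤ) := [(9766375007094508596756480000, [1]),
  (9767702848408642513797120000, [1])]

def M40 : List (List ℤ) := [[19534077855503151110553600000]]

def u40 : List ℤ := [0, 0, 0, 0, 0, 0, 0, 0, 0, 0, 0, 0, 0, 0, 0, 0, 0, 0, 0, 0, 0, 0, 0, 0, 0, 0, 0, 0, 0, 0, 0, 0, 0, 0, 0, 0, 0, 0, 0, 0, 0, 0, 0, 0, 0, 0, 0, 0, 0, 0, 0, 0, 0, 0, 0, 0, 0, 0, 0, 0, 0, 0, 0, 0, 0, 0, 0, 0, 0, 0, 0, 0, 0, 0, 0, 0, 0, 0, 0, 0, 0, 0, 0, 0, 0, 0, 0, 0, 0, 0, 0, 0, 0, 0, 0, 0, 0, 0, 0, 0, 0, 0, 0, 0, 0, 0, 0, 0, 0, 0, 0, 0, 0, 0, 0, 0, 0, 0, 0, 0, 0, 0, 0, 0, 0, 0, 0, 0, 0, 0, 0, 0, 0, 0, 0, 0, 0, 0, 0, 0, 0, 0, 0, 0, 0, 0, 0, 0, 0, 0, 0, 0, 0, 0, 0, 0, 0, 0, 0, 0, 0, 0, 0, 0, 0, 0, 0, 0, 0, 0, 0,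 0, 0, 0, 0, 0, 0, 0, 0, 0, 0, 0, 0, 0, 0, 0, 0, 0, 0, 0, 0, 0, 0, 0, 0, 0, 0, 0, 0, 0, 0, 0, 0, 0, 0, 0, 0, 0, 0, 0, 0, 0, 0, 0, 0, 0, 0, 0, 0, 0, 0, 0, 0, 0, 0, 0, 0, 0, 0, 0, 0, 0, 0, 0, 0, 0, 0, 0, 0, 0, 0, 0, 0, 0, 0, 0, 0, 0, 0, 0, 0, 0, 0, 0, 0, 0, 0, 0, 0, 0, 19534077855503151110553600000]

theorem gr40 : eqM (gramT rows40) M40 = true := by
  decide +kernel

theorem mv40 : eqZ (mval M40 tab40) u40 = true := by
  decide +kernel

theorem nn40 (E : Env κ ι) : 0 ≤ dot (ek E keys) u40 0 :=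
  block_nonneg E _ _ _ _ _ (tri40 E) rows40 M40 gr40 u40 mv40

end

def p41_0_0 : Cov := [(1, 0, 1, [(0, [0], [0, 3]), (3, [], [3]), (0, [1], [1, 2])])]

def c41_0 : Cov := p41_0_0

theorem t41_0_0_0 : chkF keys 2 3 p41_0_0 c41_0
  [(61, 1, 1, 274690, 274465)]
  [(61, 1)] = true := by
  decide +kernel

section

variable {κ ι : Type*} [Fintype κ] [Fintype ι] [Inhabited κ] [Inhabited ι]

def r41_0_0 : List (ℕ × ℤ) := [(61, 1)]

theorem h41_0_0 (E : Env κ ι) : inn E 2 3 c41_0 c41_0 = dotS (ek E keys) r41_0_0 :=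
  innS_eqZ E _ _ _ _ _ _ _ (chkF_sound E keys 2 3 _ _ _ _ t41_0_0_0) (by decide +kernel)

theorem row41_0 (E : Env κ ι) : RowS E 2 3 (ek E keys) c41_0 [c41_0] [r41_0_0] :=
  rowS_cons E _ _ _ _ _ _ _ _ (h41_0_0 E) (rowS_nil E _ _ _ _)

def tab41 : List (List (List (ℕ × ℤ))) := [[r41_0_0]]

theorem tri41 (E : Env κ ι) : TriS E 2 3 (ek E keys) [c41_0] tab41 := by
  refine triS_cons E _ _ _ _ _ _ _ (row41_0 E) ?_
  exact triS_nil E _ _ _

def rows41 : List (ℕ × List ℤ) := [(40735262523734226040887705600000, [1]),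
  (3255892437666251774361600000, [1])]

def M41 : List (List ℤ) := [[40738518416171892292662067200000]]

def u41 : List ℤ := [0, 0, 0, 0, 0, 0, 0, 0, 0, 0, 0, 0, 0, 0, 0, 0, 0, 0, 0, 0, 0, 0, 0, 0, 0, 0, 0, 0, 0, 0, 0, 0, 0, 0, 0, 0, 0, 0, 0, 0, 0, 0, 0, 0, 0, 0, 0, 0, 0, 0, 0, 0, 0, 0, 0, 0, 0, 0, 0, 0, 0, 40738518416171892292662067200000]

theorem gr41 : eqM (gramT rows41) M41 = true := by
  decide +kernel

theorem mv41 : eqZ (mval M41 tab41) u41 = true := by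
  decide +kernel

theorem nn41 (E : Env κ ι) : 0 ≤ dot (ek E keys) u41 0 :=
  block_nonneg E _ _ _ _ _ (tri41 E) rows41 M41 gr41 u41 mv41

end

def p42_0_0 : Cov := [(1, 0, 1, [(0, [0], [0, 3]), (3, [], [3]), (1, [], [1, 2])])]

def c42_0 : Cov := p42_0_0

theorem t42_0_0_0 : chkF keys 1 3 p42_0_0 c42_0
  [(262, 0, 0, 267040, 270640)]
  [(262, 1)] = true := by
  decide +kernel

section

variable {κ ι : Type*} [Fintype κ] [Fintype ι] [Inhabited κ] [Inhabited ι]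

def r42_0_0 : List (ℕ × ℤ) := [(262, 1)]

theorem h42_0_0 (E : Env κ ι) : inn E 1 3 c42_0 c42_0 = dotS (ek E keys) r42_0_0 :=
  innS_eqZ E _ _ _ _ _ _ _ (chkF_sound E keys 1 3 _ _ _ _ t42_0_0_0) (by decide +kernel)

theorem row42_0 (E : Env κ ι) : RowS E 1 3 (ek E keys) c42_0 [c42_0] [r42_0_0] :=
  rowS_cons E _ _ _ _ _ _ _ _ (h42_0_0 E) (rowS_nil E _ _ _ _)

def tab42 : List (List (List (ℕ × ℤ))) := [[r42_0_0]]

theorem tri42 (E : Env κ ι) : TriS E 1 3 (ek E keys) [c42_0] tab42 := by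
  refine triS_cons E _ _ _ _ _ _ _ (row42_0 E) ?_
  exact triS_nil E _ _ _

def rows42 : List (ℕ × List ℤ) := [(12830652793216467728754278400000, [1]),
  (3255892437666251774361600000, [1])]

def M42 : List (List ℤ) := [[12833908685654133980528640000000]]

def u42 : List ℤ := [0, 0, 0, 0, 0, 0, 0, 0, 0, 0, 0, 0, 0, 0, 0, 0, 0, 0, 0, 0, 0, 0, 0, 0, 0, 0, 0, 0, 0, 0, 0, 0, 0, 0, 0, 0, 0, 0, 0, 0, 0, 0, 0, 0, 0, 0, 0, 0, 0, 0, 0, 0, 0, 0, 0, 0, 0, 0, 0, 0, 0, 0, 0, 0, 0, 0, 0, 0, 0, 0, 0, 0, 0, 0, 0, 0, 0, 0, 0, 0, 0, 0, 0, 0, 0, 0, 0, 0, 0, 0, 0, 0, 0, 0, 0, 0, 0, 0, 0, 0, 0, 0, 0, 0, 0, 0, 0, 0, 0, 0, 0, 0, 0, 0, 0, 0, 0, 0, 0, 0, 0, 0, 0, 0, 0, 0, 0, 0, 0, 0, 0, 0, 0, 0, 0, 0, 0, 0, 0, 0, 0, 0, 0, 0, 0, 0, 0, 0, 0, 0, 0, 0, 0, 0, 0, 0, 0, 0, 0, 0, 0, 0, 0, 0, 0, 0, 0, 0, 0, 0, 0, 0, 0, 0, 0, 0, 0, 0, 0, 0, 0, 0, 0, 0, 0, 0, 0, 0, 0, 0, 0, 0, 0, 0, 0, 0, 0, 0, 0, 0, 0, 0, 0, 0, 0, 0, 0, 0, 0, 0, 0, 0,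 0, 0, 0, 0, 0, 0, 0, 0, 0, 0, 0, 0, 0, 0, 0, 0, 0, 0, 0, 0, 0, 0, 0, 0, 0, 0, 0, 0, 0, 0, 0, 0, 0, 0, 0, 0, 0, 0, 0, 0, 0, 0, 0, 0, 0, 0, 0, 0, 0, 0, 12833908685654133980528640000000]

theorem gr42 : eqM (gramT rows42) M42 = true := by
  decide +kernel

theorem mv42 : eqZ (mval M42 tab42) u42 = true := by
  decide +kernel

theorem nn42 (E : Env κ ι) : 0 ≤ dot (ek E keys) u42 0 :=
  block_nonneg E _ _ _ _ _ (tri42 E) rows42 M42 gr42 u42 mv42

end

def p43_0_0 : Cov := [(2, 0, 0, [(0, [0], [0, 1]), (3, [], [2]), (0, [1], [3, 4]), (0, [2], [5, 6])]),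
  (2, 0, 0, [(0, [0], [0, 2]), (3, [], [1]), (0, [1], [3, 4]), (0, [2], [5, 6])]),
  (2, 0, 0, [(0, [0], [1, 2]), (3, [], [0]), (0, [1], [3, 4]), (0, [2], [5, 6])])]

def c43_0 : Cov := p43_0_0

theorem t43_0_0_0 : chkF keys 3 7 p43_0_0 c43_0
  [(278, 528, 528, 106112016, 106054416), (62, 258, 33, 52495956, 34628931), (62, 258, 33, 52495941, 33645891), (62, 258, 33, 52495716, 18900291), (278, 528, 528, 106111296, 105988896), (62, 258, 33, 52495461, 16934211), (62, 258, 33, 52495686, 2188611), (62, 258, 33, 52495446, 1205571), (278, 528, 528, 106111236, 105923361)]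
  [(62, 24), (278, 12)] = true := by
  decide +kernel

section

variable {κ ι : Type*} [Fintype κ] [Fintype ι] [Inhabited κ] [Inhabited ι]

def r43_0_0 : List (ℕ × ℤ) := [(62, 24), (278, 12)]

theorem h43_0_0 (E : Env κ ι) : inn E 3 7 c43_0 c43_0 = dotS (ek E keys) r43_0_0 :=
  innS_eqZ E _ _ _ _ _ _ _ (chkF_sound E keys 3 7 _ _ _ _ t43_0_0_0) (by decide +kernel)

theorem row43_0 (E : Env κ ι) : RowS E 3 7 (ek E keys) c43_0 [c43_0] [r43_0_0] :=
  rowS_cons E _ _ _ _ _ _ _ _ (h43_0_0 E) (rowS_nil E _ _ _ _)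

def tab43 : List (List (List (ℕ × ℤ))) := [[r43_0_0]]

theorem tri43 (E : Env κ ι) : TriS E 3 7 (ek E keys) [c43_0] tab43 := by
  refine triS_cons E _ _ _ _ _ _ _ (row43_0 E) ?_
  exact triS_nil E _ _ _

def rows43 : List (ℕ × List ℤ) := [(271339265461288509112320000, [1]),
  (271324103811667989626880000, [1])]

def M43 : List (List ℤ) := [[542663369272956498739200000]]

def u43 : List ℤ := [0, 0, 0, 0, 0, 0, 0, 0, 0, 0, 0, 0, 0, 0, 0, 0, 0, 0, 0, 0, 0, 0, 0, 0, 0, 0, 0, 0, 0, 0, 0, 0, 0, 0, 0, 0, 0, 0, 0, 0, 0, 0, 0, 0, 0, 0, 0, 0, 0, 0, 0, 0, 0, 0, 0, 0, 0, 0, 0, 0, 0, 0, 13023920862550955969740800000, 0, 0, 0, 0, 0, 0, 0, 0, 0, 0, 0, 0, 0, 0, 0, 0, 0, 0, 0, 0, 0, 0, 0, 0, 0, 0, 0, 0, 0, 0, 0, 0, 0, 0, 0, 0, 0, 0, 0, 0, 0, 0, 0, 0, 0, 0, 0, 0, 0, 0, 0, 0, 0, 0, 0, 0, 0, 0, 0, 0, 0, 0, 0, 0, 0, 0, 0, 0, 0, 0, 0, 0, 0, 0, 0, 0, 0, 0, 0, 0, 0, 0, 0, 0, 0, 0, 0, 0, 0, 0, 0, 0, 0, 0, 0, 0, 0, 0, 0, 0,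 0, 0, 0, 0, 0, 0, 0, 0, 0, 0, 0, 0, 0, 0, 0, 0, 0, 0, 0, 0, 0, 0, 0, 0, 0, 0, 0, 0, 0, 0, 0, 0, 0, 0, 0, 0, 0, 0, 0, 0, 0, 0, 0, 0, 0, 0, 0, 0, 0, 0, 0, 0, 0, 0, 0, 0, 0, 0, 0, 0, 0, 0, 0, 0, 0, 0, 0, 0, 0, 0, 0, 0, 0, 0, 0, 0, 0, 0, 0, 0, 0, 0, 0, 0, 0, 0, 0, 0, 0, 0, 0, 0, 0, 0, 0, 0, 0, 0, 0, 0, 0, 0, 0, 0, 0, 0, 0, 0, 0, 0, 0, 0, 0, 0, 0, 6511960431275477984870400000]

theorem gr43 : eqM (gramT rows43) M43 = true := by
  decide +kernel

theorem mv43 : eqZ (mval M43 tab43) u43 = true := by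
  decide +kernel

theorem nn43 (E : Env κ ι) : 0 ≤ dot (ek E keys) u43 0 :=
  block_nonneg E _ _ _ _ _ (tri43 E) rows43 M43 gr43 u43 mv43

end

def p44_0_0 : Cov := [(2, 0, 0, [(0, [0], [0, 1]), (3, [], [2]), (1, [], [3, 4]), (0, [1], [5, 6])]),
  (2, 0, 0, [(0, [0], [0, 2]), (3, [], [1]), (1, [], [3, 4]), (0, [1], [5, 6])]),
  (2, 0, 0, [(0, [0], [1, 2]), (3, [], [0]), (1, [], [3, 4]), (0, [1], [5, 6])])]

def c44_0 : Cov := p44_0_0

theorem t44_0_0_0 : chkF keys 2 7 p44_0_0 c44_0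
  [(90, 16, 16, 106112016, 106054416), (91, 1, 1, 16983141, 16925541), (91, 1, 1, 16983126, 1196901), (91, 1, 1, 16983621, 33637221), (90, 16, 16, 106111296, 105988896), (91, 1, 1, 16983366, 2179941), (91, 1, 1, 16983636, 34620261), (91, 1, 1, 16983396, 18891621), (90, 16, 16, 106111236, 105923361)]
  [(90, 12), (91, 24)] = true := by
  decide +kernel

section

variable {κ ι : Type*} [Fintype κ] [Fintype ι] [Inhabited κ] [Inhabited ι]

def r44_0_0 : List (ℕ × ℤ) := [(90, 12), (91, 24)]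

theorem h44_0_0 (E : Env κ ι) : inn E 2 7 c44_0 c44_0 = dotS (ek E keys) r44_0_0 :=
  innS_eqZ E _ _ _ _ _ _ _ (chkF_sound E keys 2 7 _ _ _ _ t44_0_0_0) (by decide +kernel)

theorem row44_0 (E : Env κ ι) : RowS E 2 7 (ek E keys) c44_0 [c44_0] [r44_0_0] :=
  rowS_cons E _ _ _ _ _ _ _ _ (h44_0_0 E) (rowS_nil E _ _ _ _)

def tab44 : List (List (List (ℕ × ℤ))) := [[r44_0_0]]

theorem tri44 (E : Env κ ι) : TriS E 2 7 (ek E keys) [c44_0] tab44 := by
  refine triS_cons E _ _ _ _ _ _ _ (row44_0 E) ?_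
  exact triS_nil E _ _ _

def rows44 : List (ℕ × List ℤ) := [(271339265461288509112320000, [1]),
  (271324103811667989626880000, [1])]

def M44 : List (List ℤ) := [[542663369272956498739200000]]

def u44 : List ℤ := [0, 0, 0, 0, 0, 0, 0, 0, 0, 0, 0, 0, 0, 0, 0, 0, 0, 0, 0, 0, 0, 0, 0, 0, 0, 0, 0, 0, 0, 0, 0, 0, 0, 0, 0, 0, 0, 0, 0, 0, 0, 0, 0, 0, 0, 0, 0, 0, 0, 0, 0, 0, 0, 0, 0, 0, 0, 0, 0, 0, 0, 0, 0, 0, 0, 0, 0, 0, 0, 0, 0, 0, 0, 0, 0, 0, 0, 0, 0, 0, 0, 0, 0, 0, 0, 0, 0, 0, 0, 0, 6511960431275477984870400000, 13023920862550955969740800000]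

theorem gr44 : eqM (gramT rows44) M44 = true := by
  decide +kernel

theorem mv44 : eqZ (mval M44 tab44) u44 = true := by
  decide +kernel

theorem nn44 (E : Env κ ι) : 0 ≤ dot (ek E keys) u44 0 :=
  block_nonneg E _ _ _ _ _ (tri44 E) rows44 M44 gr44 u44 mv44

end

def p45_0_0 : Cov := [(2, 0, 0, [(0, [0], [0, 1]), (3, [], [2]), (1, [], [3, 4]), (1, [], [5, 6])]),
  (2, 0, 0, [(0, [0], [0, 2]), (3, [], [1]), (1, [], [3, 4]), (1, [], [5, 6])]),
  (2, 0, 0, [(0, [0], [1, 2]), (3, [], [0]), (1, [], [3, 4]), (1, [], [5, 6])])]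

def c45_0 : Cov := p45_0_0

theorem t45_0_0_0 : chkF keys 1 7 p45_0_0 c45_0
  [(334, 0, 0, 106112016, 106054416), (260, 0, 0, 106112016, 106054416), (260, 0, 0, 106112001, 106054401), (260, 0, 0, 106111296, 105988896), (334, 0, 0, 106111296, 105988896), (260, 0, 0, 106111041, 105988866), (260, 0, 0, 106111236, 105923361), (260, 0, 0, 106110996, 105923346), (334, 0, 0, 106111236, 105923361)]
  [(260, 24), (334, 12)] = true := by
  decide +kernel

section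

variable {κ ι : Type*} [Fintype κ] [Fintype ι] [Inhabited κ] [Inhabited ι]

def r45_0_0 : List (ℕ × ℤ) := [(260, 24), (334, 12)]

theorem h45_0_0 (E : Env κ ι) : inn E 1 7 c45_0 c45_0 = dotS (ek E keys) r45_0_0 :=
  innS_eqZ E _ _ _ _ _ _ _ (chkF_sound E keys 1 7 _ _ _ _ t45_0_0_0) (by decide +kernel)

theorem row45_0 (E : Env κ ι) : RowS E 1 7 (ek E keys) c45_0 [c45_0] [r45_0_0] :=
  rowS_cons E _ _ _ _ _ _ _ _ (h45_0_0 E) (rowS_nil E _ _ _ _)

def tab45 : List (List (List (ℕ × ℤ))) := [[r45_0_0]]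

theorem tri45 (E : Env κ ι) : TriS E 1 7 (ek E keys) [c45_0] tab45 := by
  refine triS_cons E _ _ _ _ _ _ _ (row45_0 E) ?_
  exact triS_nil E _ _ _

def rows45 : List (ℕ × List ℤ) := [(271339265461288509112320000, [1]),
  (271324103811667989626880000, [1])]

def M45 : List (List ℤ) := [[542663369272956498739200000]]

def u45 : List ℤ := [0, 0, 0, 0, 0, 0, 0, 0, 0, 0, 0, 0, 0, 0, 0, 0, 0, 0, 0, 0, 0, 0, 0, 0, 0, 0, 0, 0, 0, 0, 0, 0, 0, 0, 0, 0, 0, 0, 0, 0, 0, 0, 0, 0, 0, 0, 0, 0, 0, 0, 0, 0, 0, 0, 0, 0, 0, 0, 0, 0, 0, 0, 0, 0, 0, 0, 0, 0, 0, 0, 0, 0, 0, 0, 0, 0, 0, 0, 0, 0, 0, 0, 0, 0, 0, 0, 0, 0, 0, 0, 0, 0, 0, 0, 0, 0, 0, 0, 0, 0, 0, 0, 0, 0, 0, 0, 0, 0, 0, 0, 0, 0, 0, 0, 0, 0, 0, 0, 0, 0, 0, 0, 0, 0, 0, 0, 0, 0, 0, 0, 0, 0, 0, 0, 0, 0, 0, 0, 0, 0, 0, 0, 0, 0, 0, 0, 0, 0, 0, 0, 0, 0, 0, 0, 0, 0, 0, 0, 0, 0, 0, 0, 0, 0, 0, 0, 0, 0, 0, 0, 0, 0, 0, 0, 0, 0, 0, 0, 0, 0, 0, 0, 0, 0, 0, 0, 0, 0, 0, 0, 0,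 0, 0, 0, 0, 0, 0, 0, 0, 0, 0, 0, 0, 0, 0, 0, 0, 0, 0, 0, 0, 0, 0, 0, 0, 0, 0, 0, 0, 0, 0, 0, 0, 0, 0, 0, 0, 0, 0, 0, 0, 0, 0, 0, 0, 0, 0, 0, 0, 0, 0, 0, 0, 0, 0, 0, 0, 0, 0, 0, 0, 0, 0, 0, 0, 0, 0, 0, 0, 0, 13023920862550955969740800000, 0, 0, 0, 0, 0, 0, 0, 0, 0, 0, 0, 0, 0, 0, 0, 0, 0, 0, 0, 0, 0, 0, 0, 0, 0, 0, 0, 0, 0, 0, 0, 0, 0, 0, 0, 0, 0, 0, 0, 0, 0, 0, 0, 0, 0, 0, 0, 0, 0, 0, 0, 0, 0, 0, 0, 0, 0, 0, 0, 0, 0, 0, 0, 0, 0, 0, 0, 0, 0, 0, 0, 0, 0, 6511960431275477984870400000]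

theorem gr45 : eqM (gramT rows45) M45 = true := by
  decide +kernel

theorem mv45 : eqZ (mval M45 tab45) u45 = true := by
  decide +kernel

theorem nn45 (E : Env κ ι) : 0 ≤ dot (ek E keys) u45 0 :=
  block_nonneg E _ _ _ _ _ (tri45 E) rows45 M45 gr45 u45 mv45

end

def p46_0_0 : Cov := [(2, 0, 0, [(0, [0], [0, 1]), (3, [], [2]), (0, [1], [3, 4])]),
  (2, 0, 0, [(0, [0], [0, 2]), (3, [], [1]), (0, [1], [3, 4])]),
  (2, 0, 0, [(0, [0], [1, 2]), (3, [], [0]), (0, [1], [3, 4])])]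

def c46_0 : Cov := p46_0_0

theorem t46_0_0_0 : chkF keys 2 5 p46_0_0 c46_0
  [(66, 16, 16, 205840, 148240), (61, 1, 1, 66610, 135235), (61, 1, 1, 66595, 131395), (61, 1, 1, 66370, 73795), (66, 16, 16, 205120, 82720), (61, 1, 1, 66115, 66115), (61, 1, 1, 66340, 8515), (61, 1, 1, 66100, 4675), (66, 16, 16, 205060, 17185)]
  [(61, 24), (66, 12)] = true := by
  decide +kernel

section

variable {κ ι : Type*} [Fintype κ] [Fintype ι] [Inhabited κ] [Inhabited ι]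

def r46_0_0 : List (ℕ × ℤ) := [(61, 24), (66, 12)]

theorem h46_0_0 (E : Env κ ι) : inn E 2 5 c46_0 c46_0 = dotS (ek E keys) r46_0_0 :=
  innS_eqZ E _ _ _ _ _ _ _ (chkF_sound E keys 2 5 _ _ _ _ t46_0_0_0) (by decide +kernel)

theorem row46_0 (E : Env κ ι) : RowS E 2 5 (ek E keys) c46_0 [c46_0] [r46_0_0] :=
  rowS_cons E _ _ _ _ _ _ _ _ (h46_0_0 E) (rowS_nil E _ _ _ _)

def tab46 : List (List (List (ℕ × ℤ))) := [[r46_0_0]]

theorem tri46 (E : Env κ ι) : TriS E 2 5 (ek E keys) [c46_0] tab46 := by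
  refine triS_cons E _ _ _ _ _ _ _ (row46_0 E) ?_
  exact triS_nil E _ _ _

def rows46 : List (ℕ × List ℤ) := [(330254154586456725525626880000, [1]),
  (90441633931075654778880000, [1])]

def M46 : List (List ℤ) := [[330344596220387801180405760000]]

def u46 : List ℤ := [0, 0, 0, 0, 0, 0, 0, 0, 0, 0, 0, 0, 0, 0, 0, 0, 0, 0, 0, 0, 0, 0, 0, 0, 0, 0, 0, 0, 0, 0, 0, 0, 0, 0, 0, 0, 0, 0, 0, 0, 0, 0, 0, 0, 0, 0, 0, 0, 0, 0, 0, 0, 0, 0, 0, 0, 0, 0, 0, 0, 0, 7928270309289307228329738240000, 0, 0, 0, 0, 3964135154644653614164869120000]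

theorem gr46 : eqM (gramT rows46) M46 = true := by
  decide +kernel

theorem mv46 : eqZ (mval M46 tab46) u46 = true := by
  decide +kernel

theorem nn46 (E : Env κ ι) : 0 ≤ dot (ek E keys) u46 0 :=
  block_nonneg E _ _ _ _ _ (tri46 E) rows46 M46 gr46 u46 mv46

end

def p47_0_0 : Cov := [(2, 0, 0, [(0, [0], [0, 1]), (3, [], [2]), (1, [], [3, 4])]),
  (2, 0, 0, [(0, [0], [0, 2]), (3, [], [1]), (1, [], [3, 4])]),
  (2, 0, 0, [(0, [0], [1, 2]), (3, [], [0]), (1, [], [3, 4])])]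

def c47_0 : Cov := p47_0_0

theorem t47_0_0_0 : chkF keys 1 5 p47_0_0 c47_0
  [(337, 0, 0, 205840, 148240), (262, 0, 0, 205840, 148240), (262, 0, 0, 205825, 148225), (262, 0, 0, 205120, 82720), (337, 0, 0, 205120, 82720), (262, 0, 0, 204865, 82690), (262, 0, 0, 205060, 17185), (262, 0, 0, 204820, 17170), (337, 0, 0, 205060, 17185)]
  [(262, 24), (337, 12)] = true := by
  decide +kernel

section

variable {κ ι : Type*} [Fintype κ] [Fintype ι] [Inhabited κ] [Inhabited ι]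

def r47_0_0 : List (ℕ × ℤ) := [(262, 24), (337, 12)]

theorem h47_0_0 (E : Env κ ι) : inn E 1 5 c47_0 c47_0 = dotS (ek E keys) r47_0_0 :=
  innS_eqZ E _ _ _ _ _ _ _ (chkF_sound E keys 1 5 _ _ _ _ t47_0_0_0) (by decide +kernel)

theorem row47_0 (E : Env κ ι) : RowS E 1 5 (ek E keys) c47_0 [c47_0] [r47_0_0] :=
  rowS_cons E _ _ _ _ _ _ _ _ (h47_0_0 E) (rowS_nil E _ _ _ _)

def tab47 : List (List (List (ℕ × ℤ))) := [[r47_0_0]]

theorem tri47 (E : Env κ ι) : TriS E 1 5 (ek E keys) [c47_0] tab47 := by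
  refine triS_cons E _ _ _ _ _ _ _ (row47_0 E) ?_
  exact triS_nil E _ _ _

def rows47 : List (ℕ × List ℤ) := [(234809789130446933128642560000, [1]),
  (90441633931075654778880000, [1])]

def M47 : List (List ℤ) := [[234900230764378008783421440000]]

def u47 : List ℤ := [0, 0, 0, 0, 0, 0, 0, 0, 0, 0, 0, 0, 0, 0, 0, 0, 0, 0, 0, 0, 0, 0, 0, 0, 0, 0, 0, 0, 0, 0, 0, 0, 0, 0, 0, 0, 0, 0, 0, 0, 0, 0, 0, 0, 0, 0, 0, 0, 0, 0, 0, 0, 0, 0, 0, 0, 0, 0, 0, 0, 0, 0, 0, 0, 0, 0, 0, 0, 0, 0, 0, 0, 0, 0, 0, 0, 0, 0, 0, 0, 0, 0, 0, 0, 0, 0, 0, 0, 0, 0, 0, 0, 0, 0, 0, 0, 0, 0, 0, 0, 0, 0, 0, 0, 0, 0, 0, 0, 0, 0, 0, 0, 0, 0, 0, 0, 0, 0, 0, 0, 0, 0, 0, 0, 0, 0, 0, 0, 0, 0, 0, 0, 0, 0, 0, 0, 0, 0, 0, 0, 0, 0, 0, 0, 0, 0, 0, 0, 0, 0, 0, 0, 0, 0, 0, 0, 0, 0, 0, 0, 0, 0, 0, 0, 0, 0, 0, 0, 0, 0, 0, 0, 0, 0, 0, 0, 0, 0, 0, 0, 0, 0, 0, 0, 0, 0, 0, 0, 0, 0, 0, 0, 0, 0, 0, 0, 0, 0, 0, 0, 0, 0, 0, 0, 0, 0, 0, 0, 0, 0, 0, 0, 0, 0,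 0, 0, 0, 0, 0, 0, 0, 0, 0, 0, 0, 0, 0, 0, 0, 0, 0, 0, 0, 0, 0, 0, 0, 0, 0, 0, 0, 0, 0, 0, 0, 0, 0, 0, 0, 0, 0, 0, 0, 0, 0, 0, 0, 0, 0, 0, 0, 0, 5637605538345072210802114560000, 0, 0, 0, 0, 0, 0, 0, 0, 0, 0, 0, 0, 0, 0, 0, 0, 0, 0, 0, 0, 0, 0, 0, 0, 0, 0, 0, 0, 0, 0, 0, 0, 0, 0, 0, 0, 0, 0, 0, 0, 0, 0, 0, 0, 0, 0, 0, 0, 0, 0, 0, 0, 0, 0, 0, 0, 0, 0, 0, 0, 0, 0, 0, 0, 0, 0, 0, 0, 0, 0, 0, 0, 0, 0, 2818802769172536105401057280000]

theorem gr47 : eqM (gramT rows47) M47 = true := by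
  decide +kernel

theorem mv47 : eqZ (mval M47 tab47) u47 = true := by
  decide +kernel

theorem nn47 (E : Env κ ι) : 0 ≤ dot (ek E keys) u47 0 :=
  block_nonneg E _ _ _ _ _ (tri47 E) rows47 M47 gr47 u47 mv47

end

def p48_0_0 : Cov := [(2, 0, 0, [(0, [0], [0, 1]), (3, [], [2]), (0, [1], [3, 4]), (0, [2], [5, 6])]),
  (-2, 0, 0, [(0, [0], [1, 2]), (3, [], [0]), (0, [1], [3, 4]), (0, [2], [5, 6])])]

def c48_0 : Cov := p48_0_0

theorem t48_0_0_0 : chkF keys 3 7 p48_0_0 c48_0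
  [(278, 528, 528, 106112016, 106054416), (62, 258, 33, 52495941, 33645891), (62, 258, 33, 52495686, 2188611), (278, 528, 528, 106111236, 105923361)]
  [(62, -8), (278, 8)] = true := by
  decide +kernel

section

variable {κ ι : Type*} [Fintype κ] [Fintype ι] [Inhabited κ] [Inhabited ι]

def r48_0_0 : List (ℕ × ℤ) := [(62, -8), (278, 8)]

theorem h48_0_0 (E : Env κ ι) : inn E 3 7 c48_0 c48_0 = dotS (ek E keys) r48_0_0 :=
  innS_eqZ E _ _ _ _ _ _ _ (chkF_sound E keys 3 7 _ _ _ _ t48_0_0_0) (by decide +kernel)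

theorem row48_0 (E : Env κ ι) : RowS E 3 7 (ek E keys) c48_0 [c48_0] [r48_0_0] :=
  rowS_cons E _ _ _ _ _ _ _ _ (h48_0_0 E) (rowS_nil E _ _ _ _)

def tab48 : List (List (List (ℕ × ℤ))) := [[r48_0_0]]

theorem tri48 (E : Env κ ι) : TriS E 3 7 (ek E keys) [c48_0] tab48 := by
  refine triS_cons E _ _ _ _ _ _ _ (row48_0 E) ?_
  exact triS_nil E _ _ _

def rows48 : List (ℕ × List ℤ) := [(610398437943406787297280000, [1]),
  (610481428025540157112320000, [1])]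

def M48 : List (List ℤ) := [[1220879865968946944409600000]]

def u48 : List ℤ := [0, 0, 0, 0, 0, 0, 0, 0, 0, 0, 0, 0, 0, 0, 0, 0, 0, 0, 0, 0, 0, 0, 0, 0, 0, 0, 0, 0, 0, 0, 0, 0, 0, 0, 0, 0, 0, 0, 0, 0, 0, 0, 0, 0, 0, 0, 0, 0, 0, 0, 0, 0, 0, 0, 0, 0, 0, 0, 0, 0, 0, 0, -9767038927751575555276800000, 0, 0, 0, 0, 0, 0, 0, 0, 0, 0, 0, 0, 0, 0, 0, 0, 0, 0, 0, 0, 0, 0, 0, 0, 0, 0, 0, 0, 0, 0, 0, 0, 0, 0, 0, 0, 0, 0, 0, 0, 0, 0, 0, 0, 0, 0, 0, 0, 0, 0, 0, 0, 0, 0, 0, 0, 0, 0, 0, 0, 0, 0, 0, 0, 0, 0, 0, 0, 0, 0, 0, 0, 0, 0, 0, 0, 0, 0, 0, 0, 0, 0, 0, 0, 0, 0, 0, 0, 0, 0, 0, 0, 0, 0, 0, 0, 0, 0, 0, 0, 0, 0, 0, 0, 0, 0, 0, 0, 0, 0, 0, 0, 0, 0, 0, 0, 0, 0, 0, 0, 0, 0, 0, 0, 0, 0, 0, 0, 0, 0, 0, 0, 0, 0, 0, 0, 0, 0, 0, 0, 0, 0, 0, 0, 0, 0, 0, 0, 0, 0, 0, 0, 0, 0, 0, 0, 0, 0, 0, 0, 0, 0, 0, 0, 0, 0, 0, 0, 0, 0, 0, 0, 0, 0, 0, 0, 0, 0, 0, 0, 0, 0, 0, 0, 0, 0, 0, 0, 0, 0, 0, 0, 0, 0, 0, 0, 0, 0, 0, 0, 0, 0, 0, 0, 0,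 0, 0, 0, 0, 0, 0, 0, 0, 0, 0, 9767038927751575555276800000]

theorem gr48 : eqM (gramT rows48) M48 = true := by
  decide +kernel

theorem mv48 : eqZ (mval M48 tab48) u48 = true := by
  decide +kernel

theorem nn48 (E : Env κ ι) : 0 ≤ dot (ek E keys) u48 0 :=
  block_nonneg E _ _ _ _ _ (tri48 E) rows48 M48 gr48 u48 mv48

end

def p49_0_0 : Cov := [(2, 0, 0, [(0, [0], [0, 1]), (3, [], [2]), (1, [], [3, 4]), (0, [1], [5, 6])]),
  (-2, 0, 0, [(0, [0], [1, 2]), (3, [], [0]), (1, [], [3, 4]), (0, [1], [5, 6])])]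

def c49_0 : Cov := p49_0_0

theorem t49_0_0_0 : chkF keys 2 7 p49_0_0 c49_0
  [(90, 16, 16, 106112016, 106054416), (91, 1, 1, 16983126, 1196901), (91, 1, 1, 16983636, 34620261), (90, 16, 16, 106111236, 105923361)]
  [(90, 8), (91, -8)] = true := by
  decide +kernel

section

variable {κ ι : Type*} [Fintype κ] [Fintype ι] [Inhabited κ] [Inhabited ι]

def r49_0_0 : List (ℕ × ℤ) := [(90, 8), (91, -8)]

theorem h49_0_0 (E : Env κ ι) : inn E 2 7 c49_0 c49_0 = dotS (ek E keys) r49_0_0 :=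
  innS_eqZ E _ _ _ _ _ _ _ (chkF_sound E keys 2 7 _ _ _ _ t49_0_0_0) (by decide +kernel)

theorem row49_0 (E : Env κ ι) : RowS E 2 7 (ek E keys) c49_0 [c49_0] [r49_0_0] :=
  rowS_cons E _ _ _ _ _ _ _ _ (h49_0_0 E) (rowS_nil E _ _ _ _)

def tab49 : List (List (List (ℕ × ℤ))) := [[r49_0_0]]

theorem tri49 (E : Env κ ι) : TriS E 2 7 (ek E keys) [c49_0] tab49 := by
  refine triS_cons E _ _ _ _ _ _ _ (row49_0 E) ?_
  exact triS_nil E _ _ _

def rows49 : List (ℕ × List ℤ) := [(610602721222504312995840000, [1]),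
  (610481428025540157112320000, [1])]

def M49 : List (List ℤ) := [[1221084149248044470108160000]]

def u49 : List ℤ := [0, 0, 0, 0, 0, 0, 0, 0, 0, 0, 0, 0, 0, 0, 0, 0, 0, 0, 0, 0, 0, 0, 0, 0, 0, 0, 0, 0, 0, 0, 0, 0, 0, 0, 0, 0, 0, 0, 0, 0, 0, 0, 0, 0, 0, 0, 0, 0, 0, 0, 0, 0, 0, 0, 0, 0, 0, 0, 0, 0, 0, 0, 0, 0, 0, 0, 0, 0, 0, 0, 0, 0, 0, 0, 0, 0, 0, 0, 0, 0, 0, 0, 0, 0, 0, 0, 0, 0, 0, 0, 9768673193984355760865280000, -9768673193984355760865280000]

theorem gr49 : eqM (gramT rows49) M49 = true := by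
  decide +kernel

theorem mv49 : eqZ (mval M49 tab49) u49 = true := by
  decide +kernel

theorem nn49 (E : Env κ ι) : 0 ≤ dot (ek E keys) u49 0 :=
  block_nonneg E _ _ _ _ _ (tri49 E) rows49 M49 gr49 u49 mv49

end

def p50_0_0 : Cov := [(2, 0, 0, [(0, [0], [0, 1]), (3, [], [2]), (1, [], [3, 4]), (1, [], [5, 6])]),
  (-2, 0, 0, [(0, [0], [1, 2]), (3, [], [0]), (1, [], [3, 4]), (1, [], [5, 6])])]

def c50_0 : Cov := p50_0_0

theorem t50_0_0_0 : chkF keys 1 7 p50_0_0 c50_0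
  [(334, 0, 0, 106112016, 106054416), (260, 0, 0, 106112001, 106054401), (260, 0, 0, 106111236, 105923361), (334, 0, 0, 106111236, 105923361)]
  [(260, -8), (334, 8)] = true := by
  decide +kernel

section

variable {κ ι : Type*} [Fintype κ] [Fintype ι] [Inhabited κ] [Inhabited ι]

def r50_0_0 : List (ℕ × ℤ) := [(260, -8), (334, 8)]

theorem h50_0_0 (E : Env κ ι) : inn E 1 7 c50_0 c50_0 = dotS (ek E keys) r50_0_0 :=
  innS_eqZ E _ _ _ _ _ _ _ (chkF_sound E keys 1 7 _ _ _ _ t50_0_0_0) (by decide +kernel)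

theorem row50_0 (E : Env κ ι) : RowS E 1 7 (ek E keys) c50_0 [c50_0] [r50_0_0] :=
  rowS_cons E _ _ _ _ _ _ _ _ (h50_0_0 E) (rowS_nil E _ _ _ _)

def tab50 : List (List (List (ℕ × ℤ))) := [[r50_0_0]]

theorem tri50 (E : Env κ ι) : TriS E 1 7 (ek E keys) [c50_0] tab50 := by
  refine triS_cons E _ _ _ _ _ _ _ (row50_0 E) ?_
  exact triS_nil E _ _ _

def rows50 : List (ℕ × List ℤ) := [(610602721222504312995840000, [1]),
  (610481428025540157112320000, [1])]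

def M50 : List (List ℤ) := [[1221084149248044470108160000]]

def u50 : List ℤ := [0, 0, 0, 0, 0, 0, 0, 0, 0, 0, 0, 0, 0, 0, 0, 0, 0, 0, 0, 0, 0, 0, 0, 0, 0, 0, 0, 0, 0, 0, 0, 0, 0, 0, 0, 0, 0, 0, 0, 0, 0, 0, 0, 0, 0, 0, 0, 0, 0, 0, 0, 0, 0, 0, 0, 0, 0, 0, 0, 0, 0, 0, 0, 0, 0, 0, 0, 0, 0, 0, 0, 0, 0, 0, 0, 0, 0, 0, 0, 0, 0, 0, 0, 0, 0, 0, 0, 0, 0, 0, 0, 0, 0, 0, 0, 0, 0, 0, 0, 0, 0, 0, 0, 0, 0, 0, 0, 0, 0, 0, 0, 0, 0, 0, 0, 0, 0, 0, 0, 0, 0, 0, 0, 0, 0, 0, 0, 0, 0, 0, 0, 0, 0, 0, 0, 0, 0, 0, 0, 0, 0, 0, 0, 0, 0, 0, 0, 0, 0, 0, 0, 0, 0, 0, 0, 0, 0, 0, 0, 0, 0, 0, 0, 0, 0, 0, 0, 0, 0, 0, 0, 0, 0, 0, 0, 0, 0, 0, 0, 0, 0, 0, 0, 0, 0, 0, 0, 0, 0, 0, 0, 0, 0, 0, 0, 0, 0, 0, 0, 0, 0, 0, 0, 0, 0, 0, 0, 0, 0, 0, 0, 0, 0, 0, 0, 0, 0, 0, 0, 0, 0, 0, 0, 0, 0, 0, 0, 0, 0, 0, 0, 0, 0, 0, 0, 0, 0, 0, 0, 0, 0, 0, 0, 0, 0, 0, 0, 0, 0, 0, 0, 0, 0, 0, 0, 0, 0, 0, 0, 0, -9768673193984355760865280000, 0, 0, 0, 0, 0, 0, 0,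 0, 0, 0, 0, 0, 0, 0, 0, 0, 0, 0, 0, 0, 0, 0, 0, 0, 0, 0, 0, 0, 0, 0, 0, 0, 0, 0, 0, 0, 0, 0, 0, 0, 0, 0, 0, 0, 0, 0, 0, 0, 0, 0, 0, 0, 0, 0, 0, 0, 0, 0, 0, 0, 0, 0, 0, 0, 0, 0, 0, 0, 0, 0, 0, 0, 0, 9768673193984355760865280000]

theorem gr50 : eqM (gramT rows50) M50 = true := by
  decide +kernel

theorem mv50 : eqZ (mval M50 tab50) u50 = true := by
  decide +kernel

theorem nn50 (E : Env κ ι) : 0 ≤ dot (ek E keys) u50 0 :=
  block_nonneg E _ _ _ _ _ (tri50 E) rows50 M50 gr50 u50 mv50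

end

def p51_0_0 : Cov := [(2, 0, 0, [(0, [0], [0, 1]), (3, [], [2]), (0, [1], [3, 4])]),
  (-2, 0, 0, [(0, [0], [1, 2]), (3, [], [0]), (0, [1], [3, 4])])]

def c51_0 : Cov := p51_0_0

theorem t51_0_0_0 : chkF keys 2 5 p51_0_0 c51_0
  [(66, 16, 16, 205840, 148240), (61, 1, 1, 66595, 131395), (61, 1, 1, 66340, 8515), (66, 16, 16, 205060, 17185)]
  [(61, -8), (66, 8)] = true := by
  decide +kernel

section

variable {κ ι : Type*} [Fintype κ] [Fintype ι] [Inhabited κ] [Inhabited ι]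

def r51_0_0 : List (ℕ × ℤ) := [(61, -8), (66, 8)]

theorem h51_0_0 (E : Env κ ι) : inn E 2 5 c51_0 c51_0 = dotS (ek E keys) r51_0_0 :=
  innS_eqZ E _ _ _ _ _ _ _ (chkF_sound E keys 2 5 _ _ _ _ t51_0_0_0) (by decide +kernel)

theorem row51_0 (E : Env κ ι) : RowS E 2 5 (ek E keys) c51_0 [c51_0] [r51_0_0] :=
  rowS_cons E _ _ _ _ _ _ _ _ (h51_0_0 E) (rowS_nil E _ _ _ _)

def tab51 : List (List (List (ℕ × ℤ))) := [[r51_0_0]]

theorem tri51 (E : Env κ ι) : TriS E 2 5 (ek E keys) [c51_0] tab51 := by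
  refine triS_cons E _ _ _ _ _ _ _ (row51_0 E) ?_
  exact triS_nil E _ _ _

def rows51 : List (ℕ × List ℤ) := [(688496395179768831289589760000, [1]),
  (203493277354140735897600000, [1])]

def M51 : List (List ℤ) := [[688699888457122972025487360000]]

def u51 : List ℤ := [0, 0, 0, 0, 0, 0, 0, 0, 0, 0, 0, 0, 0, 0, 0, 0, 0, 0, 0, 0, 0, 0, 0, 0, 0, 0, 0, 0, 0, 0, 0, 0, 0, 0, 0, 0, 0, 0, 0, 0, 0, 0, 0, 0, 0, 0, 0, 0, 0, 0, 0, 0, 0, 0, 0, 0, 0, 0, 0, 0, 0, -5509599107656983776203898880000, 0, 0, 0, 0, 5509599107656983776203898880000]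

theorem gr51 : eqM (gramT rows51) M51 = true := by
  decide +kernel

theorem mv51 : eqZ (mval M51 tab51) u51 = true := by
  decide +kernel

theorem nn51 (E : Env κ ι) : 0 ≤ dot (ek E keys) u51 0 :=
  block_nonneg E _ _ _ _ _ (tri51 E) rows51 M51 gr51 u51 mv51

end

def p52_0_0 : Cov := [(2, 0, 0, [(0, [0], [0, 1]), (3, [], [2]), (1, [], [3, 4])]),
  (-2, 0, 0, [(0, [0], [1, 2]), (3, [], [0]), (1, [], [3, 4])])]

def c52_0 : Cov := p52_0_0

theorem t52_0_0_0 : chkF keys 1 5 p52_0_0 c52_0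
  [(337, 0, 0, 205840, 148240), (262, 0, 0, 205825, 148225), (262, 0, 0, 205060, 17185), (337, 0, 0, 205060, 17185)]
  [(262, -8), (337, 8)] = true := by
  decide +kernel

section

variable {κ ι : Type*} [Fintype κ] [Fintype ι] [Inhabited κ] [Inhabited ι]

def r52_0_0 : List (ℕ × ℤ) := [(262, -8), (337, 8)]

theorem h52_0_0 (E : Env κ ι) : inn E 1 5 c52_0 c52_0 = dotS (ek E keys) r52_0_0 :=
  innS_eqZ E _ _ _ _ _ _ _ (chkF_sound E keys 1 5 _ _ _ _ t52_0_0_0) (by decide +kernel)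

theorem row52_0 (E : Env κ ι) : RowS E 1 5 (ek E keys) c52_0 [c52_0] [r52_0_0] :=
  rowS_cons E _ _ _ _ _ _ _ _ (h52_0_0 E) (rowS_nil E _ _ _ _)

def tab52 : List (List (List (ℕ × ℤ))) := [[r52_0_0]]

theorem tri52 (E : Env κ ι) : TriS E 1 5 (ek E keys) [c52_0] tab52 := by
  refine triS_cons E _ _ _ _ _ _ _ (row52_0 E) ?_
  exact triS_nil E _ _ _

def rows52 : List (ℕ × List ℤ) := [(1043155711340989433826508800000, [1]),
  (203493277354140735897600000, [1])]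

def M52 : List (List ℤ) := [[1043359204618343574562406400000]]

def u52 : List ℤ := [0, 0, 0, 0, 0, 0, 0, 0, 0, 0, 0, 0, 0, 0, 0, 0, 0, 0, 0, 0, 0, 0, 0, 0, 0, 0, 0, 0, 0, 0, 0, 0, 0, 0, 0, 0, 0, 0, 0, 0, 0, 0, 0, 0, 0, 0, 0, 0, 0, 0, 0, 0, 0, 0, 0, 0, 0, 0, 0, 0, 0, 0, 0, 0, 0, 0, 0, 0, 0, 0, 0, 0, 0, 0, 0, 0, 0, 0, 0, 0, 0, 0, 0, 0, 0, 0, 0, 0, 0, 0, 0, 0, 0, 0, 0, 0, 0, 0, 0, 0, 0, 0, 0, 0, 0, 0, 0, 0, 0, 0, 0, 0, 0, 0, 0, 0, 0, 0, 0, 0, 0, 0, 0, 0, 0, 0, 0, 0, 0, 0, 0, 0, 0, 0, 0, 0, 0, 0, 0, 0, 0, 0, 0, 0, 0, 0, 0, 0, 0, 0, 0, 0, 0, 0, 0, 0, 0, 0, 0, 0, 0, 0, 0, 0, 0, 0, 0, 0, 0, 0, 0, 0, 0, 0, 0, 0, 0, 0, 0, 0, 0, 0, 0, 0, 0, 0, 0, 0, 0, 0, 0, 0, 0, 0, 0, 0, 0, 0, 0, 0, 0, 0, 0, 0, 0, 0, 0, 0, 0, 0, 0, 0, 0, 0, 0, 0, 0, 0, 0, 0, 0, 0, 0, 0, 0, 0, 0, 0, 0, 0, 0, 0, 0, 0, 0, 0, 0, 0, 0, 0, 0, 0, 0, 0, 0, 0, 0, 0, 0, 0, 0, 0, 0, 0, 0, 0, 0, 0, 0, 0, 0, 0, -8346873636946748596499251200000, 0, 0, 0,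 0, 0, 0, 0, 0, 0, 0, 0, 0, 0, 0, 0, 0, 0, 0, 0, 0, 0, 0, 0, 0, 0, 0, 0, 0, 0, 0, 0, 0, 0, 0, 0, 0, 0, 0, 0, 0, 0, 0, 0, 0, 0, 0, 0, 0, 0, 0, 0, 0, 0, 0, 0, 0, 0, 0, 0, 0, 0, 0, 0, 0, 0, 0, 0, 0, 0, 0, 0, 0, 0, 0, 8346873636946748596499251200000]

theorem gr52 : eqM (gramT rows52) M52 = true := by
  decide +kernel

theorem mv52 : eqZ (mval M52 tab52) u52 = true := by
  decide +kernel

theorem nn52 (E : Env κ ι) : 0 ≤ dot (ek E keys) u52 0 :=
  block_nonneg E _ _ _ _ _ (tri52 E) rows52 M52 gr52 u52 mv52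

end

end YMA
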