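import Pool.Agent.YM.YMA.T10_0
import Pool.Agent.YM.YMA.T10_1
import Pool.Agent.YM.YMA.T10_2
import Pool.Agent.YM.YMA.T10_3
import Pool.Agent.YM.YMA.T10_4
import Pool.Agent.YM.YMA.T10_5
import Pool.Agent.YM.YMA.T10_6

set_option linter.unusedVariables false
set_option maxRecDepth 100000

open YMEng

namespace YMA

section

variable {κ ι : Type*} [Fintype κ] [Fintype ι] [Inhabited κ] [Inhabited ι]

def r10_0_0 : List (ℕ × ℤ) := [(5, -8640), (10, 8640), (14, -17280), (59, 2880), (151, -2880), (379, 17280)]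

theorem h10_0_0 (E : Env κ ι) : inn E 2 5 c10_0 c10_0 = dotS (ek E keys) r10_0_0 :=
  innS_eqZ E _ _ _ _ _ _ _ (innS_add E _ _ _ _ _ _ _ _ (chkF_sound E keys 2 5 _ _ _ _ t10_0_0_0) (innS_add E _ _ _ _ _ _ _ _ (chkF_sound E keys 2 5 _ _ _ _ t10_0_0_1) (innS_add E _ _ _ _ _ _ _ _ (chkF_sound E keys 2 5 _ _ _ _ t10_0_0_2) (innS_add E _ _ _ _ _ _ _ _ (chkF_sound E keys 2 5 _ _ _ _ t10_0_0_3) (innS_add E _ _ _ _ _ _ _ _ (chkF_sound E keys 2 5 _ _ _ _ t10_0_0_4) (innS_add E _ _ _ _ _ _ _ _ (chkF_sound E keys 2 5 _ _ _ _ t10_0_0_5) (chkF_sound E keys 2 5 _ _ _ _ t10_0_0_6))))))) (by decide +kernel)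

def r10_0_1 : List (ℕ × ℤ) := [(6, 2880), (11, -2880), (15, 5760), (24, 5760), (33, -5760), (60, -2880), (158, -5760), (161, 2880), (302, -11520), (359, 11520)]

theorem h10_0_1 (E : Env κ ι) : inn E 2 5 c10_0 c10_1 = dotS (ek E keys) r10_0_1 :=
  innS_eqZ E _ _ _ _ _ _ _ (innS_add E _ _ _ _ _ _ _ _ (chkF_sound E keys 2 5 _ _ _ _ t10_0_1_0) (innS_add E _ _ _ _ _ _ _ _ (chkF_sound E keys 2 5 _ _ _ _ t10_0_1_1) (innS_add E _ _ _ _ _ _ _ _ (chkF_sound E keys 2 5 _ _ _ _ t10_0_1_2) (innS_add E _ _ _ _ _ _ _ _ (chkF_sound E keys 2 5 _ _ _ _ t10_0_1_3) (innS_add E _ _ _ _ _ _ _ _ (chkF_sound E keys 2 5 _ _ _ _ t10_0_1_4) (innS_add E _ _ _ _ _ _ _ _ (chkF_sound E keys 2 5 _ _ _ _ t10_0_1_5) (chkF_sound E keys 2 5 _ _ _ _ t10_0_1_6))))))) (by decide +kernel)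

def r10_0_2 : List (ℕ × ℤ) := [(24, 2880), (25, 2880), (30, -2880), (32, -2880), (78, 2880), (157, -5760), (164, -2880), (165, 2880), (281, -2880), (285, -5760), (292, 5760), (357, 5760), (369, -5760), (373, 5760)]

theorem h10_0_2 (E : Env κ ι) : inn E 2 5 c10_0 c10_2 = dotS (ek E keys) r10_0_2 :=
  innS_eqZ E _ _ _ _ _ _ _ (innS_add E _ _ _ _ _ _ _ _ (chkF_sound E keys 2 5 _ _ _ _ t10_0_2_0) (innS_add E _ _ _ _ _ _ _ _ (chkF_sound E keys 2 5 _ _ _ _ t10_0_2_1) (innS_add E _ _ _ _ _ _ _ _ (chkF_sound E keys 2 5 _ _ _ _ t10_0_2_2) (innS_add E _ _ _ _ _ _ _ _ (chkF_sound E keys 2 5 _ _ _ _ t10_0_2_3) (innS_add E _ _ _ _ _ _ _ _ (chkF_sound E keys 2 5 _ _ _ _ t10_0_2_4) (innS_add E _ _ _ _ _ _ _ _ (chkF_sound E keys 2 5 _ _ _ _ t10_0_2_5) (chkF_sound E keys 2 5 _ _ _ _ t10_0_2_6))))))) (by decide +kernel)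

def r10_1_1 : List (ℕ × ℤ) := [(17, -1920), (26, -3840), (80, -3840), (88, -960), (91, 960), (92, 1920), (96, -7680), (100, 3840), (102, -1920), (103, -3840), (113, 7680), (114, 3840), (148, -3840), (185, 1920), (190, -960), (191, 3840), (192, 3840), (284, 960)]

theorem h10_1_1 (E : Env κ ι) : inn E 2 5 c10_1 c10_1 = dotS (ek E keys) r10_1_1 :=
  innS_eqZ E _ _ _ _ _ _ _ (innS_add E _ _ _ _ _ _ _ _ (chkF_sound E keys 2 5 _ _ _ _ t10_1_1_0) (innS_add E _ _ _ _ _ _ _ _ (chkF_sound E keys 2 5 _ _ _ _ t10_1_1_1) (innS_add E _ _ _ _ _ _ _ _ (chkF_sound E keys 2 5 _ _ _ _ t10_1_1_2) (innS_add E _ _ _ _ _ _ _ _ (chkF_sound E keys 2 5 _ _ _ _ t10_1_1_3) (innS_add E _ _ _ _ _ _ _ _ (chkF_sound E keys 2 5 _ _ _ _ t10_1_1_4) (innS_add E _ _ _ _ _ _ _ _ (chkF_sound E keys 2 5 _ _ _ _ t10_1_1_5) (innS_add E _ _ _ _ _ _ _ _ (chkF_sound E keys 2 5 _ _ _ _ t10_1_1_6) (innS_add E _ _ _ _ _ _ _ _ (chkF_sound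 E keys 2 5 _ _ _ _ t10_1_1_7) (innS_add E _ _ _ _ _ _ _ _ (chkF_sound E keys 2 5 _ _ _ _ t10_1_1_8) (innS_add E _ _ _ _ _ _ _ _ (chkF_sound E keys 2 5 _ _ _ _ t10_1_1_9) (innS_add E _ _ _ _ _ _ _ _ (chkF_sound E keys 2 5 _ _ _ _ t10_1_1_10) (innS_add E _ _ _ _ _ _ _ _ (chkF_sound E keys 2 5 _ _ _ _ t10_1_1_11) (innS_add E _ _ _ _ _ _ _ _ (chkF_sound E keys 2 5 _ _ _ _ t10_1_1_12) (innS_add E _ _ _ _ _ _ _ _ (chkF_sound E keys 2 5 _ _ _ _ t10_1_1_13) (innS_add E _ _ _ _ _ _ _ _ (chkF_sound E keys 2 5 _ _ _ _ t10_1_1_14) (innS_add E _ _ _ _ _ _ _ _ (chkF_sound E keys 2 5 _ _ _ _ t10_1_1_15) (innS_add E _ _ _ _ _ _ _ _ (chkF_sound E keys 2 5 _ _ _ _ t10_1_1_16) (innS_add E _ _ _ _ _ _ _ _ (chkF_sound E keys 2 5 _ _ _ _ t10_1_1_17) (innS_add E _ _ _ _ _ _ _ _ (chkF_sound E keys 2 5 _ _ _ _ t10_1_1_18) (chkF_sound E keys 2 5 _ _ _ _ t10_1_1_19)))))))))))))))))))) (by decide +kernel)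

def r10_1_2 : List (ℕ × ℤ) := [(28, 960), (29, 960), (73, -1920), (75, -960), (81, 1920), (85, 1920), (95, 960), (97, -1920), (99, -1920), (107, -1920), (110, -960), (121, -1920), (124, -1920), (130, 1920), (131, 1920), (140, 1920), (146, 1920), (174, -960), (195, 960), (196, -960)]

theorem h10_1_2 (E : Env κ ι) : inn E 2 5 c10_1 c10_2 = dotS (ek E keys) r10_1_2 :=
  innS_eqZ E _ _ _ _ _ _ _ (innS_add E _ _ _ _ _ _ _ _ (chkF_sound E keys 2 5 _ _ _ _ t10_1_2_0) (innS_add E _ _ _ _ _ _ _ _ (chkF_sound E keys 2 5 _ _ _ _ t10_1_2_1) (innS_add E _ _ _ _ _ _ _ _ (chkF_sound E keys 2 5 _ _ _ _ t10_1_2_2) (innS_add E _ _ _ _ _ _ _ _ (chkF_sound E keys 2 5 _ _ _ _ t10_1_2_3) (innS_add E _ _ _ _ _ _ _ _ (chkF_sound E keys 2 5 _ _ _ _ t10_1_2_4) (innS_add E _ _ _ _ _ _ _ _ (chkF_sound E keys 2 5 _ _ _ _ t10_1_2_5) (innS_add E _ _ _ _ _ _ _ _ (chkF_sound E keys 2 5 _ _ _ _ t10_1_2_6) (innS_add E _ _ _ _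 _ _ _ _ (chkF_sound E keys 2 5 _ _ _ _ t10_1_2_7) (innS_add E _ _ _ _ _ _ _ _ (chkF_sound E keys 2 5 _ _ _ _ t10_1_2_8) (innS_add E _ _ _ _ _ _ _ _ (chkF_sound E keys 2 5 _ _ _ _ t10_1_2_9) (innS_add E _ _ _ _ _ _ _ _ (chkF_sound E keys 2 5 _ _ _ _ t10_1_2_10) (innS_add E _ _ _ _ _ _ _ _ (chkF_sound E keys 2 5 _ _ _ _ t10_1_2_11) (innS_add E _ _ _ _ _ _ _ _ (chkF_sound E keys 2 5 _ _ _ _ t10_1_2_12) (innS_add E _ _ _ _ _ _ _ _ (chkF_sound E keys 2 5 _ _ _ _ t10_1_2_13) (innS_add E _ _ _ _ _ _ _ _ (chkF_sound E keys 2 5 _ _ _ _ t10_1_2_14) (innS_add E _ _ _ _ _ _ _ _ (chkF_sound E keys 2 5 _ _ _ _ t10_1_2_15) (innS_add E _ _ _ _ _ _ _ _ (chkF_sound E keys 2 5 _ _ _ _ t10_1_2_16) (innS_add E _ _ _ _ _ _ _ _ (chkF_sound E keys 2 5 _ _ _ _ t10_1_2_17) (innS_add E _ _ _ _ _ _ _ _ (chkF_sound E keys 2 5 _ _ _ _ t10_1_2_18) (chkF_sound E keys 2 5 _ _ _ _ t10_1_2_19)))))))))))))))))))) (by decide +kernel)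

def r10_2_2 : List (ℕ × ℤ) := [(29, 960), (71, -960), (73, -1920), (76, -1920), (79, 480), (80, -960), (81, 1920), (83, -960), (85, -1920), (89, -1920), (92, 480), (93, 480), (94, 480), (96, 1920), (97, 1920), (98, 960), (100, 960), (102, -480), (107, 1920), (110, -960), (113, -1920), (114, 1920), (116, 1920), (118, -960), (121, -1920), (127, 960), (131, -1920), (136, -480), (140, 1920), (144, -960), (145, 960), (148, -960), (150, -960), (187, 960), (191, 960), (197, -480), (201, 960), (202, -480)]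

theorem h10_2_2 (E : Env κ ι) : inn E 2 5 c10_2 c10_2 = dotS (ek E keys) r10_2_2 :=
  innS_eqZ E _ _ _ _ _ _ _ (innS_add E _ _ _ _ _ _ _ _ (chkF_sound E keys 2 5 _ _ _ _ t10_2_2_0) (innS_add E _ _ _ _ _ _ _ _ (chkF_sound E keys 2 5 _ _ _ _ t10_2_2_1) (innS_add E _ _ _ _ _ _ _ _ (chkF_sound E keys 2 5 _ _ _ _ t10_2_2_2) (innS_add E _ _ _ _ _ _ _ _ (chkF_sound E keys 2 5 _ _ _ _ t10_2_2_3) (innS_add E _ _ _ _ _ _ _ _ (chkF_sound E keys 2 5 _ _ _ _ t10_2_2_4) (innS_add E _ _ _ _ _ _ _ _ (chkF_sound E keys 2 5 _ _ _ _ t10_2_2_5) (innS_add E _ _ _ _ _ _ _ _ (chkF_sound E keys 2 5 _ _ _ _ t10_2_2_6) (innS_add E _ _ _ _ _ _ _ _ (chkF_sound E keys 2 5 _ _ _ _ t10_2_2_7) (innS_add E _ _ _ _ _ _ _ _ (chkF_sound E keys 2 5 _ _ _ _ t10_2_2_8) (innS_add E _ _ _ _ _ _ _ _ (chkF_sound E keys 2 5 _ _ _ _ t10_2_2_9) (innS_add E _ _ _ _ _ _ _ _ (chkF_sound E keys 2 5 _ _ _ _ t10_2_2_10) (innS_add E _ _ _ _ _ _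 _ _ (chkF_sound E keys 2 5 _ _ _ _ t10_2_2_11) (innS_add E _ _ _ _ _ _ _ _ (chkF_sound E keys 2 5 _ _ _ _ t10_2_2_12) (innS_add E _ _ _ _ _ _ _ _ (chkF_sound E keys 2 5 _ _ _ _ t10_2_2_13) (innS_add E _ _ _ _ _ _ _ _ (chkF_sound E keys 2 5 _ _ _ _ t10_2_2_14) (innS_add E _ _ _ _ _ _ _ _ (chkF_sound E keys 2 5 _ _ _ _ t10_2_2_15) (innS_add E _ _ _ _ _ _ _ _ (chkF_sound E keys 2 5 _ _ _ _ t10_2_2_16) (innS_add E _ _ _ _ _ _ _ _ (chkF_sound E keys 2 5 _ _ _ _ t10_2_2_17) (innS_add E _ _ _ _ _ _ _ _ (chkF_sound E keys 2 5 _ _ _ _ t10_2_2_18) (innS_add E _ _ _ _ _ _ _ _ (chkF_sound E keys 2 5 _ _ _ _ t10_2_2_19) (innS_add E _ _ _ _ _ _ _ _ (chkF_sound E keys 2 5 _ _ _ _ t10_2_2_20) (innS_add E _ _ _ _ _ _ _ _ (chkF_sound E keys 2 5 _ _ _ _ t10_2_2_21) (innS_add E _ _ _ _ _ _ _ _ (chkF_sound E keys 2 5 _ _ _ _ t10_2_2_22) (innS_add E _ _ _ _ _ _ _ _ (chkF_sound E keys 2 5 _ _ _ _ t10_2_2_23) (innS_add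 E _ _ _ _ _ _ _ _ (chkF_sound E keys 2 5 _ _ _ _ t10_2_2_24) (innS_add E _ _ _ _ _ _ _ _ (chkF_sound E keys 2 5 _ _ _ _ t10_2_2_25) (innS_add E _ _ _ _ _ _ _ _ (chkF_sound E keys 2 5 _ _ _ _ t10_2_2_26) (innS_add E _ _ _ _ _ _ _ _ (chkF_sound E keys 2 5 _ _ _ _ t10_2_2_27) (innS_add E _ _ _ _ _ _ _ _ (chkF_sound E keys 2 5 _ _ _ _ t10_2_2_28) (innS_add E _ _ _ _ _ _ _ _ (chkF_sound E keys 2 5 _ _ _ _ t10_2_2_29) (innS_add E _ _ _ _ _ _ _ _ (chkF_sound E keys 2 5 _ _ _ _ t10_2_2_30) (innS_add E _ _ _ _ _ _ _ _ (chkF_sound E keys 2 5 _ _ _ _ t10_2_2_31) (innS_add E _ _ _ _ _ _ _ _ (chkF_sound E keys 2 5 _ _ _ _ t10_2_2_32) (innS_add E _ _ _ _ _ _ _ _ (chkF_sound E keys 2 5 _ _ _ _ t10_2_2_33) (innS_add E _ _ _ _ _ _ _ _ (chkF_sound E keys 2 5 _ _ _ _ t10_2_2_34) (innS_add E _ _ _ _ _ _ _ _ (chkF_sound E keys 2 5 _ _ _ _ t10_2_2_35) (innS_add E _ _ _ _ _ _ _ _ (chkF_sound E keys 2 5 _ _ _ _ t10_2_2_36)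 (innS_add E _ _ _ _ _ _ _ _ (chkF_sound E keys 2 5 _ _ _ _ t10_2_2_37) (innS_add E _ _ _ _ _ _ _ _ (chkF_sound E keys 2 5 _ _ _ _ t10_2_2_38) (chkF_sound E keys 2 5 _ _ _ _ t10_2_2_39)))))))))))))))))))))))))))))))))))))))) (by decide +kernel)

theorem row10_0 (E : Env κ ι) : RowS E 2 5 (ek E keys) c10_0 [c10_0, c10_1, c10_2] [r10_0_0, r10_0_1, r10_0_2] :=
  rowS_cons E _ _ _ _ _ _ _ _ (h10_0_0 E) (rowS_cons E _ _ _ _ _ _ _ _ (h10_0_1 E) (rowS_cons E _ _ _ _ _ _ _ _ (h10_0_2 E) (rowS_nil E _ _ _ _)))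

theorem row10_1 (E : Env κ ι) : RowS E 2 5 (ek E keys) c10_1 [c10_1, c10_2] [r10_1_1, r10_1_2] :=
  rowS_cons E _ _ _ _ _ _ _ _ (h10_1_1 E) (rowS_cons E _ _ _ _ _ _ _ _ (h10_1_2 E) (rowS_nil E _ _ _ _))

theorem row10_2 (E : Env κ ι) : RowS E 2 5 (ek E keys) c10_2 [c10_2] [r10_2_2] :=
  rowS_cons E _ _ _ _ _ _ _ _ (h10_2_2 E) (rowS_nil E _ _ _ _)

def tab10 : List (List (List (ℕ × ℤ))) := [[r10_0_0, r10_0_1, r10_0_2], [r10_1_1, r10_1_2], [r10_2_2]]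

theorem tri10 (E : Env κ ι) : TriS E 2 5 (ek E keys) [c10_0, c10_1, c10_2] tab10 := by
  refine triS_cons E _ _ _ _ _ _ _ (row10_0 E) ?_
  refine triS_cons E _ _ _ _ _ _ _ (row10_1 E) ?_
  refine triS_cons E _ _ _ _ _ _ _ (row10_2 E) ?_
  exact triS_nil E _ _ _

def rows10 : List (ℕ × List ℤ) := [(18710041770000, [4194304, 9513572, -7731005]),
  (59274180000, [0, 4194304, -2853995]),
  (306025927866801192960000, [0, 0, 1]),
  (169676772853957379140032, [1, 0, 0]),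
  (169578094791921500160000, [0, 1, 0]),
  (211972423670185328640000, [0, 0, 1])]

def M10 : List (List ℤ) := [[329320212489488392635460032, 1493166599454294823403520000, -1213390558899869633740800000],
  [1694621777665055123394720000, -2753646498579556513357200000],
  [1119270780894830210920350000]]

def u10 : List ℤ := [0, 0, 0, 0, 0, -2845326635909179712370374676480, 4300319806428369091402137600000, 0, 0, 0, 2845326635909179712370374676480, -4300319806428369091402137600000, 0, 0, -5690653271818359424740749352960, 8600639612856738182804275200000, 0, -3253673813116905836917862400000, 0, 0, 0, 0, 0, 0, 5106074803225113637630771200000, -3494564809631624545173504000000, -6507347626233811673835724800000, 0, -2643500638636374252822912000000, -1569000688977337250339376000000, 3494564809631624545173504000000, 0, 3494564809631624545173504000000, -8600639612856738182804275200000, 0, 0, 0, 0, 0, 0, 0,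 0, 0, 0, 0, 0, 0, 0, 0, 0, 0, 0, 0, 0, 0, 0, 0, 0, 0, 948442211969726570790124892160, -4300319806428369091402137600000, 0, 0, 0, 0, 0, 0, 0, 0, 0, 0, -1074499949659037002483536000000, 0, 3138001377954674500678752000000, 0, 2643500638636374252822912000000, -2148999899318074004967072000000, 0, -3494564809631624545173504000000, 537249974829518501241768000000, -7581847575892848676319260800000, -3138001377954674500678752000000, 0, -1074499949659037002483536000000, 0, -7436001176590822510612896000000, 0, 0, -1626836906558452918458931200000, -2148999899318074004967072000000, 0, 1626836906558452918458931200000, 3790923787946424338159630400000, 537249974829518501241768000000, 537249974829518501241768000000, -2643500638636374252822912000000, -10865695353149549342704377600000, 7436001176590822510612896000000, 1074499949659037002483536000000, 5287001277272748505645824000000, 7581847575892848676319260800000,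 0, -3790923787946424338159630400000, -6507347626233811673835724800000, 0, 0, 0, 7436001176590822510612896000000, 0, 0, 1569000688977337250339376000000, 0, 0, 10865695353149549342704377600000, 8656347525551885678802796800000, 0, 2148999899318074004967072000000, 0, -1074499949659037002483536000000, 0, 0, 3138001377954674500678752000000, 0, 0, 5287001277272748505645824000000, 0, 0, 1074499949659037002483536000000, 0, 0, -5287001277272748505645824000000, -7436001176590822510612896000000, 0, 0, 0, 0, -537249974829518501241768000000, 0, 0, 0, -3138001377954674500678752000000, 0, 0, 0, -1074499949659037002483536000000, 1074499949659037002483536000000, -5287001277272748505645824000000, 0, -7581847575892848676319260800000, 0, -1074499949659037002483536000000, -948442211969726570790124892160, 0, 0, 0, 0, 0, 6989129619263249090347008000000, -8600639612856738182804275200000, 0, 0, 4300319806428369091402137600000,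 0, 0, 3494564809631624545173504000000, -3494564809631624545173504000000, 0, 0, 0, 0, 0, 0, 0, 0, 2643500638636374252822912000000, 0, 0, 0, 0, 0, 0, 0, 0, 0, 0, 3253673813116905836917862400000, 0, 1074499949659037002483536000000, 0, 0, -1626836906558452918458931200000, 7581847575892848676319260800000, 6507347626233811673835724800000, 0, 0, -2643500638636374252822912000000, 2643500638636374252822912000000, -537249974829518501241768000000, 0, 0, 0, 1074499949659037002483536000000, -537249974829518501241768000000, 0, 0, 0, 0, 0, 0, 0, 0, 0, 0, 0, 0, 0, 0, 0, 0, 0, 0, 0, 0, 0, 0, 0, 0, 0, 0, 0, 0, 0, 0, 0, 0, 0, 0, 0, 0, 0, 0, 0, 0, 0, 0, 0, 0, 0, 0, 0, 0, 0, 0, 0, 0, 0, 0, 0, 0, 0, 0, 0, 0, 0, 0, 0, 0, 0, 0, 0, 0, 0, 0, 0, 0, 0, 0, 0, 0, 0, 0, 3494564809631624545173504000000, 0, 0, 1626836906558452918458931200000, 6989129619263249090347008000000, 0, 0, 0, 0, 0, 0, -6989129619263249090347008000000,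 0, 0, 0, 0, 0, 0, 0, 0, 0, -17201279225713476365608550400000, 0, 0, 0, 0, 0, 0, 0, 0, 0, 0, 0, 0, 0, 0, 0, 0, 0, 0, 0, 0, 0, 0, 0, 0, 0, 0, 0, 0, 0, 0, 0, 0, 0, 0, 0, 0, 0, 0, 0, 0, 0, 0, 0, 0, 0, 0, 0, 0, 0, 0, 0, 0, 0, 0, -6989129619263249090347008000000, 0, 17201279225713476365608550400000, 0, 0, 0, 0, 0, 0, 0, 0, 0, 6989129619263249090347008000000, 0, 0, 0, -6989129619263249090347008000000, 0, 0, 0, 0, 0, 5690653271818359424740749352960]

theorem gr10 : eqM (gramT rows10) M10 = true := by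
  decide +kernel

theorem mv10 : eqZ (mval M10 tab10) u10 = true := by
  decide +kernel

theorem nn10 (E : Env κ ι) : 0 ≤ dot (ek E keys) u10 0 :=
  block_nonneg E _ _ _ _ _ (tri10 E) rows10 M10 gr10 u10 mv10

end

end YMA
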