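import Pool.Agent.YM.YMA.T11_0
import Pool.Agent.YM.YMA.T11_1
import Pool.Agent.YM.YMA.T11_2
import Pool.Agent.YM.YMA.T11_3
import Pool.Agent.YM.YMA.T11_4
import Pool.Agent.YM.YMA.T11_5
import Pool.Agent.YM.YMA.T11_6
import Pool.Agent.YM.YMA.T11_7
import Pool.Agent.YM.YMA.T11_8
import Pool.Agent.YM.YMA.T11_9
import Pool.Agent.YM.YMA.T11_10

set_option linter.unusedVariables false
set_option maxRecDepth 100000

open YMEng

namespace YMA

section

variable {κ ι : Type*} [Fintype κ] [Fintype ι] [Inhabited κ] [Inhabited ι]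

def r11_0_0 : List (ℕ × ℤ) := [(9, 768), (79, -768), (83, -1536), (125, 3072), (127, -1536), (136, -768), (168, 768)]

theorem h11_0_0 (E : Env κ ι) : inn E 2 5 c11_0 c11_0 = dotS (ek E keys) r11_0_0 :=
  innS_eqZ E _ _ _ _ _ _ _ (innS_add E _ _ _ _ _ _ _ _ (chkF_sound E keys 2 5 _ _ _ _ t11_0_0_0) (chkF_sound E keys 2 5 _ _ _ _ t11_0_0_1)) (by decide +kernel)

def r11_0_1 : List (ℕ × ℤ) := [(46, -768), (58, -1536), (70, 768), (86, -1536), (126, 3072), (138, -768), (170, 768)]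

theorem h11_0_1 (E : Env κ ι) : inn E 2 5 c11_0 c11_1 = dotS (ek E keys) r11_0_1 :=
  innS_eqZ E _ _ _ _ _ _ _ (innS_add E _ _ _ _ _ _ _ _ (chkF_sound E keys 2 5 _ _ _ _ t11_0_1_0) (chkF_sound E keys 2 5 _ _ _ _ t11_0_1_1)) (by decide +kernel)

def r11_0_2 : List (ℕ × ℤ) := [(7, 384), (16, -1152), (87, -1152), (152, 384), (356, 1536)]

theorem h11_0_2 (E : Env κ ι) : inn E 2 5 c11_0 c11_2 = dotS (ek E keys) r11_0_2 :=
  innS_eqZ E _ _ _ _ _ _ _ (innS_add E _ _ _ _ _ _ _ _ (chkF_sound E keys 2 5 _ _ _ _ t11_0_2_0) (chkF_sound E keys 2 5 _ _ _ _ t11_0_2_1)) (by decide +kernel)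

def r11_0_3 : List (ℕ × ℤ) := [(18, -384), (23, -384), (99, -768), (106, -768), (107, -768), (109, -768), (129, 1536), (172, 1536), (173, -768), (176, 1536)]

theorem h11_0_3 (E : Env κ ι) : inn E 2 5 c11_0 c11_3 = dotS (ek E keys) r11_0_3 :=
  innS_eqZ E _ _ _ _ _ _ _ (innS_add E _ _ _ _ _ _ _ _ (chkF_sound E keys 2 5 _ _ _ _ t11_0_3_0) (chkF_sound E keys 2 5 _ _ _ _ t11_0_3_1)) (by decide +kernel)

def r11_0_4 : List (ℕ × ℤ) := [(8, 768), (18, -384), (28, -384), (81, -768), (84, -384), (99, -768), (112, 3072), (130, -768), (139, -768), (174, -384), (175, 768)]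

theorem h11_0_4 (E : Env κ ι) : inn E 2 5 c11_0 c11_4 = dotS (ek E keys) r11_0_4 :=
  innS_eqZ E _ _ _ _ _ _ _ (innS_add E _ _ _ _ _ _ _ _ (chkF_sound E keys 2 5 _ _ _ _ t11_0_4_0) (chkF_sound E keys 2 5 _ _ _ _ t11_0_4_1)) (by decide +kernel)

def r11_0_5 : List (ℕ × ℤ) := [(18, -384), (23, -384), (99, 1152), (106, 1152), (107, -768), (109, -768), (129, -384), (172, -384), (173, 1152), (176, -384)]

theorem h11_0_5 (E : Env κ ι) : inn E 2 5 c11_0 c11_5 = dotS (ek E keys) r11_0_5 :=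
  innS_eqZ E _ _ _ _ _ _ _ (innS_add E _ _ _ _ _ _ _ _ (chkF_sound E keys 2 5 _ _ _ _ t11_0_5_0) (chkF_sound E keys 2 5 _ _ _ _ t11_0_5_1)) (by decide +kernel)

def r11_0_6 : List (ℕ × ℤ) := [(8, -192), (18, -384), (28, 576), (81, -768), (84, -384), (99, 1152), (112, -768), (130, 1152), (139, -768), (174, 576), (175, -192)]

theorem h11_0_6 (E : Env κ ι) : inn E 2 5 c11_0 c11_6 = dotS (ek E keys) r11_0_6 :=
  innS_eqZ E _ _ _ _ _ _ _ (innS_add E _ _ _ _ _ _ _ _ (chkF_sound E keys 2 5 _ _ _ _ t11_0_6_0) (chkF_sound E keys 2 5 _ _ _ _ t11_0_6_1)) (by decide +kernel)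

def r11_0_7 : List (ℕ × ℤ) := [(28, -192), (29, -192), (72, 768), (73, -384), (81, -384), (85, -384), (97, -384), (99, -384), (107, -384), (110, -192), (119, 1536), (121, -384), (129, 1536), (130, -384), (131, -384), (140, -384), (174, -192), (177, 768)]

theorem h11_0_7 (E : Env κ ι) : inn E 2 5 c11_0 c11_7 = dotS (ek E keys) r11_0_7 :=
  innS_eqZ E _ _ _ _ _ _ _ (innS_add E _ _ _ _ _ _ _ _ (chkF_sound E keys 2 5 _ _ _ _ t11_0_7_0) (chkF_sound E keys 2 5 _ _ _ _ t11_0_7_1)) (by decide +kernel)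

def r11_0_8 : List (ℕ × ℤ) := [(28, 768), (29, -192), (72, -192), (73, -384), (81, -384), (85, -384), (97, -384), (99, 1536), (107, -384), (110, -192), (119, -384), (121, -384), (129, -384), (130, 1536), (131, -384), (140, -384), (174, 768), (177, -192)]

theorem h11_0_8 (E : Env κ ι) : inn E 2 5 c11_0 c11_8 = dotS (ek E keys) r11_0_8 :=
  innS_eqZ E _ _ _ _ _ _ _ (innS_add E _ _ _ _ _ _ _ _ (chkF_sound E keys 2 5 _ _ _ _ t11_0_8_0) (chkF_sound E keys 2 5 _ _ _ _ t11_0_8_1)) (by decide +kernel)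

def r11_0_9 : List (ℕ × ℤ) := [(28, -192), (29, 768), (72, -192), (73, -384), (81, -384), (85, -384), (97, 1536), (99, -384), (107, -384), (110, 768), (119, -384), (121, -384), (129, -384), (130, -384), (131, 1536), (140, -384), (174, -192), (177, -192)]

theorem h11_0_9 (E : Env κ ι) : inn E 2 5 c11_0 c11_9 = dotS (ek E keys) r11_0_9 :=
  innS_eqZ E _ _ _ _ _ _ _ (innS_add E _ _ _ _ _ _ _ _ (chkF_sound E keys 2 5 _ _ _ _ t11_0_9_0) (chkF_sound E keys 2 5 _ _ _ _ t11_0_9_1)) (by decide +kernel)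

def r11_1_1 : List (ℕ × ℤ) := [(34, -1536), (56, -1536), (61, -768), (66, 768), (132, 3072), (142, -768), (178, 768)]

theorem h11_1_1 (E : Env κ ι) : inn E 2 5 c11_1 c11_1 = dotS (ek E keys) r11_1_1 :=
  innS_eqZ E _ _ _ _ _ _ _ (innS_add E _ _ _ _ _ _ _ _ (chkF_sound E keys 2 5 _ _ _ _ t11_1_1_0) (chkF_sound E keys 2 5 _ _ _ _ t11_1_1_1)) (by decide +kernel)

def r11_1_2 : List (ℕ × ℤ) := [(44, -1152), (50, -1152), (68, 384), (154, 384), (273, 1536)]

theorem h11_1_2 (E : Env κ ι) : inn E 2 5 c11_1 c11_2 = dotS (ek E keys) r11_1_2 :=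
  innS_eqZ E _ _ _ _ _ _ _ (innS_add E _ _ _ _ _ _ _ _ (chkF_sound E keys 2 5 _ _ _ _ t11_1_2_0) (chkF_sound E keys 2 5 _ _ _ _ t11_1_2_1)) (by decide +kernel)

def r11_1_3 : List (ℕ × ℤ) := [(45, -384), (51, -384), (52, -768), (53, -768), (57, -768), (86, -768), (108, -768), (134, 1536), (180, 1536), (182, 1536)]

theorem h11_1_3 (E : Env κ ι) : inn E 2 5 c11_1 c11_3 = dotS (ek E keys) r11_1_3 :=
  innS_eqZ E _ _ _ _ _ _ _ (innS_add E _ _ _ _ _ _ _ _ (chkF_sound E keys 2 5 _ _ _ _ t11_1_3_0) (chkF_sound E keys 2 5 _ _ _ _ t11_1_3_1)) (by decide +kernel)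

def r11_1_4 : List (ℕ × ℤ) := [(45, -768), (46, -384), (47, -768), (54, -768), (58, -768), (69, 768), (86, -768), (135, 3072), (138, -384), (181, 768)]

theorem h11_1_4 (E : Env κ ι) : inn E 2 5 c11_1 c11_4 = dotS (ek E keys) r11_1_4 :=
  innS_eqZ E _ _ _ _ _ _ _ (innS_add E _ _ _ _ _ _ _ _ (chkF_sound E keys 2 5 _ _ _ _ t11_1_4_0) (chkF_sound E keys 2 5 _ _ _ _ t11_1_4_1)) (by decide +kernel)

def r11_1_5 : List (ℕ × ℤ) := [(45, -384), (51, -384), (52, -768), (53, -768), (57, 1152), (86, 1152), (108, 1152), (134, -384), (180, -384), (182, -384)]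

theorem h11_1_5 (E : Env κ ι) : inn E 2 5 c11_1 c11_5 = dotS (ek E keys) r11_1_5 :=
  innS_eqZ E _ _ _ _ _ _ _ (innS_add E _ _ _ _ _ _ _ _ (chkF_sound E keys 2 5 _ _ _ _ t11_1_5_0) (chkF_sound E keys 2 5 _ _ _ _ t11_1_5_1)) (by decide +kernel)

def r11_1_6 : List (ℕ × ℤ) := [(45, -768), (46, 576), (47, -768), (54, -768), (58, 1152), (69, -192), (86, 1152), (135, -768), (138, 576), (181, -192)]

theorem h11_1_6 (E : Env κ ι) : inn E 2 5 c11_1 c11_6 = dotS (ek E keys) r11_1_6 :=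
  innS_eqZ E _ _ _ _ _ _ _ (innS_add E _ _ _ _ _ _ _ _ (chkF_sound E keys 2 5 _ _ _ _ t11_1_6_0) (chkF_sound E keys 2 5 _ _ _ _ t11_1_6_1)) (by decide +kernel)

def r11_1_7 : List (ℕ × ℤ) := [(46, -192), (47, -384), (48, -768), (53, -768), (55, -384), (58, -384), (67, -192), (74, 768), (77, -384), (86, -384), (111, -192), (120, 1536), (134, 1536), (138, -192), (143, -384), (183, 768)]

theorem h11_1_7 (E : Env κ ι) : inn E 2 5 c11_1 c11_7 = dotS (ek E keys) r11_1_7 :=
  innS_eqZ E _ _ _ _ _ _ _ (innS_add E _ _ _ _ _ _ _ _ (chkF_sound E keys 2 5 _ _ _ _ t11_1_7_0) (chkF_sound E keys 2 5 _ _ _ _ t11_1_7_1)) (by decide +kernel)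

def r11_1_8 : List (ℕ × ℤ) := [(46, 768), (47, -384), (48, -768), (53, -768), (55, -384), (58, 1536), (67, -192), (74, -192), (77, -384), (86, 1536), (111, -192), (120, -384), (134, -384), (138, 768), (143, -384), (183, -192)]

theorem h11_1_8 (E : Env κ ι) : inn E 2 5 c11_1 c11_8 = dotS (ek E keys) r11_1_8 :=
  innS_eqZ E _ _ _ _ _ _ _ (innS_add E _ _ _ _ _ _ _ _ (chkF_sound E keys 2 5 _ _ _ _ t11_1_8_0) (chkF_sound E keys 2 5 _ _ _ _ t11_1_8_1)) (by decide +kernel)

def r11_1_9 : List (ℕ × ℤ) := [(46, -192), (47, -384), (48, 1152), (53, 1152), (55, -384), (58, -384), (67, 768), (74, -192), (77, -384), (86, -384), (111, 768), (120, -384), (134, -384), (138, -192), (143, -384), (183, -192)]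

theorem h11_1_9 (E : Env κ ι) : inn E 2 5 c11_1 c11_9 = dotS (ek E keys) r11_1_9 :=
  innS_eqZ E _ _ _ _ _ _ _ (innS_add E _ _ _ _ _ _ _ _ (chkF_sound E keys 2 5 _ _ _ _ t11_1_9_0) (chkF_sound E keys 2 5 _ _ _ _ t11_1_9_1)) (by decide +kernel)

def r11_2_2 : List (ℕ × ℤ) := [(5, -384), (10, -384), (14, 192), (59, 192), (151, 192), (379, 192)]

theorem h11_2_2 (E : Env κ ι) : inn E 2 5 c11_2 c11_2 = dotS (ek E keys) r11_2_2 :=
  innS_eqZ E _ _ _ _ _ _ _ (innS_add E _ _ _ _ _ _ _ _ (chkF_sound E keys 2 5 _ _ _ _ t11_2_2_0) (chkF_sound E keys 2 5 _ _ _ _ t11_2_2_1)) (by decide +kernel)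

def r11_2_3 : List (ℕ × ℤ) := [(15, -576), (20, -576), (156, 384), (163, 768), (357, 768), (358, -1152), (372, 384)]

theorem h11_2_3 (E : Env κ ι) : inn E 2 5 c11_2 c11_3 = dotS (ek E keys) r11_2_3 :=
  innS_eqZ E _ _ _ _ _ _ _ (innS_add E _ _ _ _ _ _ _ _ (chkF_sound E keys 2 5 _ _ _ _ t11_2_3_0) (chkF_sound E keys 2 5 _ _ _ _ t11_2_3_1)) (by decide +kernel)

def r11_2_4 : List (ℕ × ℤ) := [(6, 192), (11, 192), (15, -576), (24, -576), (33, -576), (60, 192), (158, -576), (161, 192), (302, 768), (359, 768)]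

theorem h11_2_4 (E : Env κ ι) : inn E 2 5 c11_2 c11_4 = dotS (ek E keys) r11_2_4 :=
  innS_eqZ E _ _ _ _ _ _ _ (innS_add E _ _ _ _ _ _ _ _ (chkF_sound E keys 2 5 _ _ _ _ t11_2_4_0) (chkF_sound E keys 2 5 _ _ _ _ t11_2_4_1)) (by decide +kernel)

def r11_2_5 : List (ℕ × ℤ) := [(15, 384), (20, 384), (156, 384), (163, -192), (357, -192), (358, -192), (372, -576)]

theorem h11_2_5 (E : Env κ ι) : inn E 2 5 c11_2 c11_5 = dotS (ek E keys) r11_2_5 :=
  innS_eqZ E _ _ _ _ _ _ _ (innS_add E _ _ _ _ _ _ _ _ (chkF_sound E keys 2 5 _ _ _ _ t11_2_5_0) (chkF_sound E keys 2 5 _ _ _ _ t11_2_5_1)) (by decide +kernel)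

def r11_2_6 : List (ℕ × ℤ) := [(6, -288), (11, -288), (15, 384), (24, -96), (33, -96), (60, 192), (158, 384), (161, 192), (302, -192), (359, -192)]

theorem h11_2_6 (E : Env κ ι) : inn E 2 5 c11_2 c11_6 = dotS (ek E keys) r11_2_6 :=
  innS_eqZ E _ _ _ _ _ _ _ (innS_add E _ _ _ _ _ _ _ _ (chkF_sound E keys 2 5 _ _ _ _ t11_2_6_0) (chkF_sound E keys 2 5 _ _ _ _ t11_2_6_1)) (by decide +kernel)

def r11_2_7 : List (ℕ × ℤ) := [(24, -288), (25, -288), (30, -288), (32, -288), (78, 192), (157, 384), (164, 192), (165, 192), (281, 192), (285, -576), (292, -576), (357, 384), (369, 384), (373, 384)]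

theorem h11_2_7 (E : Env κ ι) : inn E 2 5 c11_2 c11_7 = dotS (ek E keys) r11_2_7 :=
  innS_eqZ E _ _ _ _ _ _ _ (innS_add E _ _ _ _ _ _ _ _ (chkF_sound E keys 2 5 _ _ _ _ t11_2_7_0) (chkF_sound E keys 2 5 _ _ _ _ t11_2_7_1)) (by decide +kernel)

def r11_2_8 : List (ℕ × ℤ) := [(24, 192), (25, -288), (30, -288), (32, 192), (78, -288), (157, 384), (164, -288), (165, 192), (281, 192), (285, 384), (292, 384), (357, 384), (369, -576), (373, -576)]

theorem h11_2_8 (E : Env κ ι) : inn E 2 5 c11_2 c11_8 = dotS (ek E keys) r11_2_8 :=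
  innS_eqZ E _ _ _ _ _ _ _ (innS_add E _ _ _ _ _ _ _ _ (chkF_sound E keys 2 5 _ _ _ _ t11_2_8_0) (chkF_sound E keys 2 5 _ _ _ _ t11_2_8_1)) (by decide +kernel)

def r11_2_9 : List (ℕ × ℤ) := [(24, -288), (25, 192), (30, 192), (32, -288), (78, -288), (157, -576), (164, -288), (165, 192), (281, 192), (285, 384), (292, 384), (357, -576), (369, 384), (373, 384)]

theorem h11_2_9 (E : Env κ ι) : inn E 2 5 c11_2 c11_9 = dotS (ek E keys) r11_2_9 :=
  innS_eqZ E _ _ _ _ _ _ _ (innS_add E _ _ _ _ _ _ _ _ (chkF_sound E keys 2 5 _ _ _ _ t11_2_9_0) (chkF_sound E keys 2 5 _ _ _ _ t11_2_9_1)) (by decide +kernel)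

def r11_3_3 : List (ℕ × ℤ) := [(22, -192), (125, -192), (127, -384), (130, -768), (137, -384), (140, -768), (149, -384), (169, -192), (173, -768), (184, 384), (185, -192), (187, 1536), (191, -384), (199, 1536), (201, 768), (299, 384)]

theorem h11_3_3 (E : Env κ ι) : inn E 2 5 c11_3 c11_3 = dotS (ek E keys) r11_3_3 :=
  innS_eqZ E _ _ _ _ _ _ _ (innS_add E _ _ _ _ _ _ _ _ (chkF_sound E keys 2 5 _ _ _ _ t11_3_3_0) (innS_add E _ _ _ _ _ _ _ _ (chkF_sound E keys 2 5 _ _ _ _ t11_3_3_1) (chkF_sound E keys 2 5 _ _ _ _ t11_3_3_2))) (by decide +kernel)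

def r11_3_4 : List (ℕ × ℤ) := [(17, -192), (18, -192), (22, -192), (23, -192), (96, -768), (99, -384), (106, -384), (107, -384), (109, -384), (115, -768), (116, -384), (147, 1536), (173, -384), (186, 768), (194, 1536), (195, 768)]

theorem h11_3_4 (E : Env κ ι) : inn E 2 5 c11_3 c11_4 = dotS (ek E keys) r11_3_4 :=
  innS_eqZ E _ _ _ _ _ _ _ (innS_add E _ _ _ _ _ _ _ _ (chkF_sound E keys 2 5 _ _ _ _ t11_3_4_0) (innS_add E _ _ _ _ _ _ _ _ (chkF_sound E keys 2 5 _ _ _ _ t11_3_4_1) (chkF_sound E keys 2 5 _ _ _ _ t11_3_4_2))) (by decide +kernel)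

def r11_3_5 : List (ℕ × ℤ) := [(22, -192), (125, 288), (127, 576), (130, 192), (137, 576), (140, 192), (149, -384), (169, 288), (173, 192), (184, -96), (185, -192), (187, -384), (191, -384), (199, -384), (201, -192), (299, -96)]

theorem h11_3_5 (E : Env κ ι) : inn E 2 5 c11_3 c11_5 = dotS (ek E keys) r11_3_5 :=
  innS_eqZ E _ _ _ _ _ _ _ (innS_add E _ _ _ _ _ _ _ _ (chkF_sound E keys 2 5 _ _ _ _ t11_3_5_0) (innS_add E _ _ _ _ _ _ _ _ (chkF_sound E keys 2 5 _ _ _ _ t11_3_5_1) (chkF_sound E keys 2 5 _ _ _ _ t11_3_5_2))) (by decide +kernel)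

def r11_3_6 : List (ℕ × ℤ) := [(17, -192), (18, 288), (22, -192), (23, 288), (96, -768), (99, 576), (106, 576), (107, 576), (109, 576), (115, -768), (116, -384), (147, -384), (173, 576), (186, -192), (194, -384), (195, -192)]

theorem h11_3_6 (E : Env κ ι) : inn E 2 5 c11_3 c11_6 = dotS (ek E keys) r11_3_6 :=
  innS_eqZ E _ _ _ _ _ _ _ (innS_add E _ _ _ _ _ _ _ _ (chkF_sound E keys 2 5 _ _ _ _ t11_3_6_0) (innS_add E _ _ _ _ _ _ _ _ (chkF_sound E keys 2 5 _ _ _ _ t11_3_6_1) (chkF_sound E keys 2 5 _ _ _ _ t11_3_6_2))) (by decide +kernel)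

def r11_3_7 : List (ℕ × ℤ) := [(23, -96), (27, -96), (83, -192), (84, -96), (85, -192), (97, -192), (99, -192), (101, -192), (104, -192), (105, -192), (106, -192), (109, -192), (112, -192), (113, -384), (115, -384), (117, -192), (123, 768), (128, -192), (131, -192), (137, -192), (141, -384), (144, 768), (173, -192), (188, 384), (189, 768), (192, -96), (193, -192), (199, 768), (200, 768), (298, 384)]

theorem h11_3_7 (E : Env κ ι) : inn E 2 5 c11_3 c11_7 = dotS (ek E keys) r11_3_7 :=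
  innS_eqZ E _ _ _ _ _ _ _ (innS_add E _ _ _ _ _ _ _ _ (chkF_sound E keys 2 5 _ _ _ _ t11_3_7_0) (innS_add E _ _ _ _ _ _ _ _ (chkF_sound E keys 2 5 _ _ _ _ t11_3_7_1) (chkF_sound E keys 2 5 _ _ _ _ t11_3_7_2))) (by decide +kernel)

def r11_3_8 : List (ℕ × ℤ) := [(23, 384), (27, -96), (83, 768), (84, 384), (85, -192), (97, -192), (99, -192), (101, -192), (104, -192), (105, -192), (106, -192), (109, -192), (112, -192), (113, -384), (115, -384), (117, -192), (123, -192), (128, 768), (131, 768), (137, 768), (141, 576), (144, -192), (173, -192), (188, -96), (189, -192), (192, -96), (193, -192), (199, -192), (200, -192), (298, -96)]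

theorem h11_3_8 (E : Env κ ι) : inn E 2 5 c11_3 c11_8 = dotS (ek E keys) r11_3_8 :=
  innS_eqZ E _ _ _ _ _ _ _ (innS_add E _ _ _ _ _ _ _ _ (chkF_sound E keys 2 5 _ _ _ _ t11_3_8_0) (innS_add E _ _ _ _ _ _ _ _ (chkF_sound E keys 2 5 _ _ _ _ t11_3_8_1) (chkF_sound E keys 2 5 _ _ _ _ t11_3_8_2))) (by decide +kernel)

def r11_3_9 : List (ℕ × ℤ) := [(23, -96), (27, 384), (83, -192), (84, -96), (85, 768), (97, -192), (99, -192), (101, -192), (104, -192), (105, -192), (106, 768), (109, 768), (112, -192), (113, 576), (115, 576), (117, -192), (123, -192), (128, -192), (131, -192), (137, -192), (141, -384), (144, -192), (173, -192), (188, -96), (189, -192), (192, 384), (193, -192), (199, -192), (200, -192), (298, -96)]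

theorem h11_3_9 (E : Env κ ι) : inn E 2 5 c11_3 c11_9 = dotS (ek E keys) r11_3_9 :=
  innS_eqZ E _ _ _ _ _ _ _ (innS_add E _ _ _ _ _ _ _ _ (chkF_sound E keys 2 5 _ _ _ _ t11_3_9_0) (innS_add E _ _ _ _ _ _ _ _ (chkF_sound E keys 2 5 _ _ _ _ t11_3_9_1) (chkF_sound E keys 2 5 _ _ _ _ t11_3_9_2))) (by decide +kernel)

def r11_4_4 : List (ℕ × ℤ) := [(17, -192), (26, -384), (80, -384), (88, 384), (91, 384), (92, -192), (96, -768), (100, 1536), (102, -192), (103, -384), (113, -768), (114, -384), (148, 1536), (185, -192), (190, 384), (191, -384), (192, -384), (284, 384)]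

theorem h11_4_4 (E : Env κ ι) : inn E 2 5 c11_4 c11_4 = dotS (ek E keys) r11_4_4 :=
  innS_eqZ E _ _ _ _ _ _ _ (innS_add E _ _ _ _ _ _ _ _ (chkF_sound E keys 2 5 _ _ _ _ t11_4_4_0) (innS_add E _ _ _ _ _ _ _ _ (chkF_sound E keys 2 5 _ _ _ _ t11_4_4_1) (chkF_sound E keys 2 5 _ _ _ _ t11_4_4_2))) (by decide +kernel)

def r11_4_5 : List (ℕ × ℤ) := [(17, -192), (18, -192), (22, -192), (23, -192), (96, 192), (99, -384), (106, 576), (107, 576), (109, 576), (115, 192), (116, 576), (147, -384), (173, -384), (186, -192), (194, -384), (195, -192)]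

theorem h11_4_5 (E : Env κ ι) : inn E 2 5 c11_4 c11_5 = dotS (ek E keys) r11_4_5 :=
  innS_eqZ E _ _ _ _ _ _ _ (innS_add E _ _ _ _ _ _ _ _ (chkF_sound E keys 2 5 _ _ _ _ t11_4_5_0) (innS_add E _ _ _ _ _ _ _ _ (chkF_sound E keys 2 5 _ _ _ _ t11_4_5_1) (chkF_sound E keys 2 5 _ _ _ _ t11_4_5_2))) (by decide +kernel)

def r11_4_6 : List (ℕ × ℤ) := [(17, -192), (26, 96), (80, -384), (88, -96), (91, -96), (92, 288), (96, 192), (100, -384), (102, 288), (103, 576), (113, 192), (114, 576), (148, -384), (185, -192), (190, -96), (191, -384), (192, 96), (284, -96)]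

theorem h11_4_6 (E : Env κ ι) : inn E 2 5 c11_4 c11_6 = dotS (ek E keys) r11_4_6 :=
  innS_eqZ E _ _ _ _ _ _ _ (innS_add E _ _ _ _ _ _ _ _ (chkF_sound E keys 2 5 _ _ _ _ t11_4_6_0) (innS_add E _ _ _ _ _ _ _ _ (chkF_sound E keys 2 5 _ _ _ _ t11_4_6_1) (chkF_sound E keys 2 5 _ _ _ _ t11_4_6_2))) (by decide +kernel)

def r11_4_7 : List (ℕ × ℤ) := [(26, -192), (27, -192), (28, -96), (29, -96), (73, -192), (75, 384), (80, -384), (81, -192), (82, -384), (85, -192), (95, 384), (97, -192), (99, -192), (101, -384), (107, -192), (110, -96), (117, -384), (121, -192), (124, 768), (130, -192), (131, -192), (140, -192), (146, 768), (147, 1536), (149, -384), (174, -96), (195, 384), (196, 384)]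

theorem h11_4_7 (E : Env κ ι) : inn E 2 5 c11_4 c11_7 = dotS (ek E keys) r11_4_7 :=
  innS_eqZ E _ _ _ _ _ _ _ (innS_add E _ _ _ _ _ _ _ _ (chkF_sound E keys 2 5 _ _ _ _ t11_4_7_0) (innS_add E _ _ _ _ _ _ _ _ (chkF_sound E keys 2 5 _ _ _ _ t11_4_7_1) (chkF_sound E keys 2 5 _ _ _ _ t11_4_7_2))) (by decide +kernel)

def r11_4_8 : List (ℕ × ℤ) := [(26, 288), (27, 288), (28, -96), (29, 384), (73, -192), (75, -96), (80, -384), (81, -192), (82, 576), (85, 768), (95, -96), (97, -192), (99, -192), (101, -384), (107, 768), (110, 384), (117, 576), (121, -192), (124, -192), (130, -192), (131, -192), (140, -192), (146, -192), (147, -384), (149, -384), (174, -96), (195, -96), (196, -96)]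

theorem h11_4_8 (E : Env κ ι) : inn E 2 5 c11_4 c11_8 = dotS (ek E keys) r11_4_8 :=
  innS_eqZ E _ _ _ _ _ _ _ (innS_add E _ _ _ _ _ _ _ _ (chkF_sound E keys 2 5 _ _ _ _ t11_4_8_0) (innS_add E _ _ _ _ _ _ _ _ (chkF_sound E keys 2 5 _ _ _ _ t11_4_8_1) (chkF_sound E keys 2 5 _ _ _ _ t11_4_8_2))) (by decide +kernel)

def r11_4_9 : List (ℕ × ℤ) := [(26, 288), (27, 288), (28, 384), (29, -96), (73, -192), (75, -96), (80, 576), (81, 768), (82, -384), (85, -192), (95, -96), (97, -192), (99, -192), (101, -384), (107, -192), (110, -96), (117, -384), (121, 768), (124, -192), (130, -192), (131, -192), (140, -192), (146, -192), (147, -384), (149, 576), (174, 384), (195, -96), (196, -96)]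

theorem h11_4_9 (E : Env κ ι) : inn E 2 5 c11_4 c11_9 = dotS (ek E keys) r11_4_9 :=
  innS_eqZ E _ _ _ _ _ _ _ (innS_add E _ _ _ _ _ _ _ _ (chkF_sound E keys 2 5 _ _ _ _ t11_4_9_0) (innS_add E _ _ _ _ _ _ _ _ (chkF_sound E keys 2 5 _ _ _ _ t11_4_9_1) (chkF_sound E keys 2 5 _ _ _ _ t11_4_9_2))) (by decide +kernel)

def r11_5_5 : List (ℕ × ℤ) := [(22, 288), (125, 48), (127, -384), (130, 192), (137, -384), (140, -768), (149, 96), (169, 48), (173, 192), (184, 144), (185, 288), (187, 96), (191, 96), (199, 96), (201, -192), (299, 144)]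

theorem h11_5_5 (E : Env κ ι) : inn E 2 5 c11_5 c11_5 = dotS (ek E keys) r11_5_5 :=
  innS_eqZ E _ _ _ _ _ _ _ (innS_add E _ _ _ _ _ _ _ _ (chkF_sound E keys 2 5 _ _ _ _ t11_5_5_0) (innS_add E _ _ _ _ _ _ _ _ (chkF_sound E keys 2 5 _ _ _ _ t11_5_5_1) (innS_add E _ _ _ _ _ _ _ _ (chkF_sound E keys 2 5 _ _ _ _ t11_5_5_2) (innS_add E _ _ _ _ _ _ _ _ (chkF_sound E keys 2 5 _ _ _ _ t11_5_5_3) (chkF_sound E keys 2 5 _ _ _ _ t11_5_5_4))))) (by decide +kernel)

def r11_5_6 : List (ℕ × ℤ) := [(17, 288), (18, -192), (22, 288), (23, -192), (96, 192), (99, 96), (106, 96), (107, -384), (109, -384), (115, 192), (116, -384), (147, 96), (173, 96), (186, 288), (194, 96), (195, -192)]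

theorem h11_5_6 (E : Env κ ι) : inn E 2 5 c11_5 c11_6 = dotS (ek E keys) r11_5_6 :=
  innS_eqZ E _ _ _ _ _ _ _ (innS_add E _ _ _ _ _ _ _ _ (chkF_sound E keys 2 5 _ _ _ _ t11_5_6_0) (innS_add E _ _ _ _ _ _ _ _ (chkF_sound E keys 2 5 _ _ _ _ t11_5_6_1) (innS_add E _ _ _ _ _ _ _ _ (chkF_sound E keys 2 5 _ _ _ _ t11_5_6_2) (innS_add E _ _ _ _ _ _ _ _ (chkF_sound E keys 2 5 _ _ _ _ t11_5_6_3) (chkF_sound E keys 2 5 _ _ _ _ t11_5_6_4))))) (by decide +kernel)

def r11_5_7 : List (ℕ × ℤ) := [(23, -96), (27, -96), (83, 288), (84, -96), (85, 288), (97, 288), (99, 288), (101, -192), (104, 288), (105, -192), (106, 288), (109, 288), (112, 288), (113, -384), (115, -384), (117, -192), (123, -192), (128, 288), (131, -192), (137, 288), (141, 96), (144, -192), (173, 288), (188, -96), (189, -192), (192, -96), (193, -192), (199, -192), (200, -192), (298, -96)]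

theorem h11_5_7 (E : Env κ ι) : inn E 2 5 c11_5 c11_7 = dotS (ek E keys) r11_5_7 :=
  innS_eqZ E _ _ _ _ _ _ _ (innS_add E _ _ _ _ _ _ _ _ (chkF_sound E keys 2 5 _ _ _ _ t11_5_7_0) (innS_add E _ _ _ _ _ _ _ _ (chkF_sound E keys 2 5 _ _ _ _ t11_5_7_1) (innS_add E _ _ _ _ _ _ _ _ (chkF_sound E keys 2 5 _ _ _ _ t11_5_7_2) (innS_add E _ _ _ _ _ _ _ _ (chkF_sound E keys 2 5 _ _ _ _ t11_5_7_3) (chkF_sound E keys 2 5 _ _ _ _ t11_5_7_4))))) (by decide +kernel)

def r11_5_8 : List (ℕ × ℤ) := [(23, -96), (27, -96), (83, -192), (84, -96), (85, -192), (97, -192), (99, 288), (101, 288), (104, -192), (105, -192), (106, 288), (109, -192), (112, -192), (113, 576), (115, 576), (117, -192), (123, -192), (128, -192), (131, -192), (137, -192), (141, -384), (144, 288), (173, 288), (188, -96), (189, 288), (192, -96), (193, 288), (199, 288), (200, -192), (298, -96)]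

theorem h11_5_8 (E : Env κ ι) : inn E 2 5 c11_5 c11_8 = dotS (ek E keys) r11_5_8 :=
  innS_eqZ E _ _ _ _ _ _ _ (innS_add E _ _ _ _ _ _ _ _ (chkF_sound E keys 2 5 _ _ _ _ t11_5_8_0) (innS_add E _ _ _ _ _ _ _ _ (chkF_sound E keys 2 5 _ _ _ _ t11_5_8_1) (innS_add E _ _ _ _ _ _ _ _ (chkF_sound E keys 2 5 _ _ _ _ t11_5_8_2) (innS_add E _ _ _ _ _ _ _ _ (chkF_sound E keys 2 5 _ _ _ _ t11_5_8_3) (chkF_sound E keys 2 5 _ _ _ _ t11_5_8_4))))) (by decide +kernel)

def r11_5_9 : List (ℕ × ℤ) := [(23, -96), (27, -96), (83, -192), (84, -96), (85, -192), (97, 288), (99, -192), (101, 288), (104, -192), (105, 288), (106, -192), (109, -192), (112, -192), (113, -384), (115, -384), (117, 288), (123, 288), (128, 288), (131, 288), (137, -192), (141, 576), (144, -192), (173, -192), (188, -96), (189, 288), (192, -96), (193, 288), (199, -192), (200, 288), (298, -96)]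

theorem h11_5_9 (E : Env κ ι) : inn E 2 5 c11_5 c11_9 = dotS (ek E keys) r11_5_9 :=
  innS_eqZ E _ _ _ _ _ _ _ (innS_add E _ _ _ _ _ _ _ _ (chkF_sound E keys 2 5 _ _ _ _ t11_5_9_0) (innS_add E _ _ _ _ _ _ _ _ (chkF_sound E keys 2 5 _ _ _ _ t11_5_9_1) (innS_add E _ _ _ _ _ _ _ _ (chkF_sound E keys 2 5 _ _ _ _ t11_5_9_2) (innS_add E _ _ _ _ _ _ _ _ (chkF_sound E keys 2 5 _ _ _ _ t11_5_9_3) (chkF_sound E keys 2 5 _ _ _ _ t11_5_9_4))))) (by decide +kernel)

def r11_6_6 : List (ℕ × ℤ) := [(17, 288), (26, -384), (80, 96), (88, -96), (91, 144), (92, 48), (96, 192), (100, 96), (102, 48), (103, -384), (113, 192), (114, -384), (148, 96), (185, 288), (190, 144), (191, 96), (192, -384), (284, -96)]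

theorem h11_6_6 (E : Env κ ι) : inn E 2 5 c11_6 c11_6 = dotS (ek E keys) r11_6_6 :=
  innS_eqZ E _ _ _ _ _ _ _ (innS_add E _ _ _ _ _ _ _ _ (chkF_sound E keys 2 5 _ _ _ _ t11_6_6_0) (innS_add E _ _ _ _ _ _ _ _ (chkF_sound E keys 2 5 _ _ _ _ t11_6_6_1) (innS_add E _ _ _ _ _ _ _ _ (chkF_sound E keys 2 5 _ _ _ _ t11_6_6_2) (innS_add E _ _ _ _ _ _ _ _ (chkF_sound E keys 2 5 _ _ _ _ t11_6_6_3) (chkF_sound E keys 2 5 _ _ _ _ t11_6_6_4))))) (by decide +kernel)

def r11_6_7 : List (ℕ × ℤ) := [(26, -192), (27, -192), (28, 144), (29, 144), (73, 288), (75, -96), (80, -384), (81, 288), (82, -384), (85, 288), (95, -96), (97, 288), (99, 288), (101, -384), (107, 288), (110, 144), (117, -384), (121, 288), (124, -192), (130, 288), (131, 288), (140, 288), (146, -192), (147, -384), (149, -384), (174, 144), (195, -96), (196, -96)]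

theorem h11_6_7 (E : Env κ ι) : inn E 2 5 c11_6 c11_7 = dotS (ek E keys) r11_6_7 :=
  innS_eqZ E _ _ _ _ _ _ _ (innS_add E _ _ _ _ _ _ _ _ (chkF_sound E keys 2 5 _ _ _ _ t11_6_7_0) (innS_add E _ _ _ _ _ _ _ _ (chkF_sound E keys 2 5 _ _ _ _ t11_6_7_1) (innS_add E _ _ _ _ _ _ _ _ (chkF_sound E keys 2 5 _ _ _ _ t11_6_7_2) (innS_add E _ _ _ _ _ _ _ _ (chkF_sound E keys 2 5 _ _ _ _ t11_6_7_3) (chkF_sound E keys 2 5 _ _ _ _ t11_6_7_4))))) (by decide +kernel)

def r11_6_8 : List (ℕ × ℤ) := [(26, -192), (27, -192), (28, 144), (29, -96), (73, -192), (75, -96), (80, 576), (81, -192), (82, -384), (85, -192), (95, 144), (97, -192), (99, 288), (101, 576), (107, -192), (110, -96), (117, -384), (121, -192), (124, -192), (130, 288), (131, -192), (140, -192), (146, -192), (147, 576), (149, 576), (174, 144), (195, -96), (196, 144)]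

theorem h11_6_8 (E : Env κ ι) : inn E 2 5 c11_6 c11_8 = dotS (ek E keys) r11_6_8 :=
  innS_eqZ E _ _ _ _ _ _ _ (innS_add E _ _ _ _ _ _ _ _ (chkF_sound E keys 2 5 _ _ _ _ t11_6_8_0) (innS_add E _ _ _ _ _ _ _ _ (chkF_sound E keys 2 5 _ _ _ _ t11_6_8_1) (innS_add E _ _ _ _ _ _ _ _ (chkF_sound E keys 2 5 _ _ _ _ t11_6_8_2) (innS_add E _ _ _ _ _ _ _ _ (chkF_sound E keys 2 5 _ _ _ _ t11_6_8_3) (chkF_sound E keys 2 5 _ _ _ _ t11_6_8_4))))) (by decide +kernel)

def r11_6_9 : List (ℕ × ℤ) := [(26, -192), (27, -192), (28, -96), (29, 144), (73, -192), (75, -96), (80, -384), (81, -192), (82, 576), (85, -192), (95, 144), (97, 288), (99, -192), (101, 576), (107, -192), (110, 144), (117, 576), (121, -192), (124, 288), (130, -192), (131, 288), (140, -192), (146, 288), (147, -384), (149, -384), (174, -96), (195, -96), (196, 144)]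

theorem h11_6_9 (E : Env κ ι) : inn E 2 5 c11_6 c11_9 = dotS (ek E keys) r11_6_9 :=
  innS_eqZ E _ _ _ _ _ _ _ (innS_add E _ _ _ _ _ _ _ _ (chkF_sound E keys 2 5 _ _ _ _ t11_6_9_0) (innS_add E _ _ _ _ _ _ _ _ (chkF_sound E keys 2 5 _ _ _ _ t11_6_9_1) (innS_add E _ _ _ _ _ _ _ _ (chkF_sound E keys 2 5 _ _ _ _ t11_6_9_2) (innS_add E _ _ _ _ _ _ _ _ (chkF_sound E keys 2 5 _ _ _ _ t11_6_9_3) (chkF_sound E keys 2 5 _ _ _ _ t11_6_9_4))))) (by decide +kernel)

def r11_7_7 : List (ℕ × ℤ) := [(29, -96), (71, 384), (73, -192), (76, -192), (79, -48), (80, -96), (81, -192), (82, -384), (83, -96), (85, -192), (89, -192), (92, -48), (93, 192), (94, 192), (96, -192), (97, -192), (98, -96), (100, -96), (102, -48), (105, -384), (107, -192), (110, -96), (113, -192), (114, -192), (116, -192), (118, 384), (121, -192), (123, 1536), (127, -96), (131, -192), (136, -48), (140, -192), (144, 384), (145, 384), (148, -96), (150, -96), (187, 384), (191, -96), (197, 192), (201,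 384), (202, 192)]

theorem h11_7_7 (E : Env κ ι) : inn E 2 5 c11_7 c11_7 = dotS (ek E keys) r11_7_7 :=
  innS_eqZ E _ _ _ _ _ _ _ (innS_add E _ _ _ _ _ _ _ _ (chkF_sound E keys 2 5 _ _ _ _ t11_7_7_0) (innS_add E _ _ _ _ _ _ _ _ (chkF_sound E keys 2 5 _ _ _ _ t11_7_7_1) (innS_add E _ _ _ _ _ _ _ _ (chkF_sound E keys 2 5 _ _ _ _ t11_7_7_2) (innS_add E _ _ _ _ _ _ _ _ (chkF_sound E keys 2 5 _ _ _ _ t11_7_7_3) (innS_add E _ _ _ _ _ _ _ _ (chkF_sound E keys 2 5 _ _ _ _ t11_7_7_4) (chkF_sound E keys 2 5 _ _ _ _ t11_7_7_5)))))) (by decide +kernel)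

def r11_7_8 : List (ℕ × ℤ) := [(29, 144), (71, -96), (73, 288), (76, -192), (79, 192), (80, -96), (81, 288), (82, -384), (83, 384), (85, 288), (89, -192), (92, -48), (93, -48), (94, -48), (96, -192), (97, 288), (98, -96), (100, -96), (102, -48), (105, -384), (107, 288), (110, 144), (113, -192), (114, -192), (116, -192), (118, -96), (121, 288), (123, -384), (127, 384), (131, 288), (136, 192), (140, 288), (144, -96), (145, -96), (148, -96), (150, -96), (187, -96), (191, -96), (197, -48), (201, -96), (202, -48)]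

theorem h11_7_8 (E : Env κ ι) : inn E 2 5 c11_7 c11_8 = dotS (ek E keys) r11_7_8 :=
  innS_eqZ E _ _ _ _ _ _ _ (innS_add E _ _ _ _ _ _ _ _ (chkF_sound E keys 2 5 _ _ _ _ t11_7_8_0) (innS_add E _ _ _ _ _ _ _ _ (chkF_sound E keys 2 5 _ _ _ _ t11_7_8_1) (innS_add E _ _ _ _ _ _ _ _ (chkF_sound E keys 2 5 _ _ _ _ t11_7_8_2) (innS_add E _ _ _ _ _ _ _ _ (chkF_sound E keys 2 5 _ _ _ _ t11_7_8_3) (innS_add E _ _ _ _ _ _ _ _ (chkF_sound E keys 2 5 _ _ _ _ t11_7_8_4) (chkF_sound E keys 2 5 _ _ _ _ t11_7_8_5)))))) (by decide +kernel)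

def r11_7_9 : List (ℕ × ℤ) := [(29, 144), (71, -96), (73, -192), (76, 288), (79, -48), (80, -96), (81, -192), (82, 96), (83, -96), (85, 288), (89, 288), (92, 192), (93, -48), (94, -48), (96, 288), (97, -192), (98, -96), (100, -96), (102, 192), (105, 96), (107, 288), (110, 144), (113, 288), (114, 288), (116, 288), (118, -96), (121, -192), (123, -384), (127, -96), (131, -192), (136, -48), (140, -192), (144, -96), (145, -96), (148, -96), (150, -96), (187, -96), (191, -96), (197, -48), (201, -96), (202, -48)]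

theorem h11_7_9 (E : Env κ ι) : inn E 2 5 c11_7 c11_9 = dotS (ek E keys) r11_7_9 :=
  innS_eqZ E _ _ _ _ _ _ _ (innS_add E _ _ _ _ _ _ _ _ (chkF_sound E keys 2 5 _ _ _ _ t11_7_9_0) (innS_add E _ _ _ _ _ _ _ _ (chkF_sound E keys 2 5 _ _ _ _ t11_7_9_1) (innS_add E _ _ _ _ _ _ _ _ (chkF_sound E keys 2 5 _ _ _ _ t11_7_9_2) (innS_add E _ _ _ _ _ _ _ _ (chkF_sound E keys 2 5 _ _ _ _ t11_7_9_3) (innS_add E _ _ _ _ _ _ _ _ (chkF_sound E keys 2 5 _ _ _ _ t11_7_9_4) (chkF_sound E keys 2 5 _ _ _ _ t11_7_9_5)))))) (by decide +kernel)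

def r11_8_8 : List (ℕ × ℤ) := [(29, -96), (71, -96), (73, -192), (76, -192), (79, -48), (80, 384), (81, -192), (82, -384), (83, -96), (85, -192), (89, -192), (92, 192), (93, -48), (94, 192), (96, 768), (97, -192), (98, -96), (100, 384), (102, 192), (105, -384), (107, -192), (110, -96), (113, 768), (114, -192), (116, -192), (118, -96), (121, -192), (123, -384), (127, -96), (131, -192), (136, -48), (140, -192), (144, 384), (145, -96), (148, 384), (150, -96), (187, 384), (191, 384), (197, 192), (201, -96), (202, -48)]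

theorem h11_8_8 (E : Env κ ι) : inn E 2 5 c11_8 c11_8 = dotS (ek E keys) r11_8_8 :=
  innS_eqZ E _ _ _ _ _ _ _ (innS_add E _ _ _ _ _ _ _ _ (chkF_sound E keys 2 5 _ _ _ _ t11_8_8_0) (innS_add E _ _ _ _ _ _ _ _ (chkF_sound E keys 2 5 _ _ _ _ t11_8_8_1) (innS_add E _ _ _ _ _ _ _ _ (chkF_sound E keys 2 5 _ _ _ _ t11_8_8_2) (innS_add E _ _ _ _ _ _ _ _ (chkF_sound E keys 2 5 _ _ _ _ t11_8_8_3) (innS_add E _ _ _ _ _ _ _ _ (chkF_sound E keys 2 5 _ _ _ _ t11_8_8_4) (chkF_sound E keys 2 5 _ _ _ _ t11_8_8_5)))))) (by decide +kernel)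

def r11_8_9 : List (ℕ × ℤ) := [(29, 144), (71, -96), (73, -192), (76, -192), (79, -48), (80, -96), (81, -192), (82, 576), (83, -96), (85, -192), (89, -192), (92, -48), (93, 192), (94, -48), (96, -192), (97, 288), (98, 384), (100, -96), (102, -48), (105, 576), (107, -192), (110, 144), (113, -192), (114, -192), (116, -192), (118, -96), (121, -192), (123, 576), (127, -96), (131, 288), (136, -48), (140, -192), (144, -96), (145, -96), (148, -96), (150, 384), (187, -96), (191, -96), (197, -48), (201, -96), (202, 192)]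

theorem h11_8_9 (E : Env κ ι) : inn E 2 5 c11_8 c11_9 = dotS (ek E keys) r11_8_9 :=
  innS_eqZ E _ _ _ _ _ _ _ (innS_add E _ _ _ _ _ _ _ _ (chkF_sound E keys 2 5 _ _ _ _ t11_8_9_0) (innS_add E _ _ _ _ _ _ _ _ (chkF_sound E keys 2 5 _ _ _ _ t11_8_9_1) (innS_add E _ _ _ _ _ _ _ _ (chkF_sound E keys 2 5 _ _ _ _ t11_8_9_2) (innS_add E _ _ _ _ _ _ _ _ (chkF_sound E keys 2 5 _ _ _ _ t11_8_9_3) (innS_add E _ _ _ _ _ _ _ _ (chkF_sound E keys 2 5 _ _ _ _ t11_8_9_4) (chkF_sound E keys 2 5 _ _ _ _ t11_8_9_5)))))) (by decide +kernel)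

def r11_9_9 : List (ℕ × ℤ) := [(29, -96), (71, -96), (73, -192), (76, -192), (79, 192), (80, -96), (81, 768), (82, -384), (83, -96), (85, -192), (89, 288), (92, -48), (93, -48), (94, 192), (96, -192), (97, -192), (98, -96), (100, 384), (102, -48), (105, -384), (107, -192), (110, -96), (113, -192), (114, 288), (116, -192), (118, 384), (121, 768), (123, -384), (127, -96), (131, -192), (136, 192), (140, -192), (144, -96), (145, 384), (148, 384), (150, -96), (187, -96), (191, -96), (197, 192), (201, -96), (202, -48)]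

theorem h11_9_9 (E : Env κ ι) : inn E 2 5 c11_9 c11_9 = dotS (ek E keys) r11_9_9 :=
  innS_eqZ E _ _ _ _ _ _ _ (innS_add E _ _ _ _ _ _ _ _ (chkF_sound E keys 2 5 _ _ _ _ t11_9_9_0) (innS_add E _ _ _ _ _ _ _ _ (chkF_sound E keys 2 5 _ _ _ _ t11_9_9_1) (innS_add E _ _ _ _ _ _ _ _ (chkF_sound E keys 2 5 _ _ _ _ t11_9_9_2) (innS_add E _ _ _ _ _ _ _ _ (chkF_sound E keys 2 5 _ _ _ _ t11_9_9_3) (innS_add E _ _ _ _ _ _ _ _ (chkF_sound E keys 2 5 _ _ _ _ t11_9_9_4) (chkF_sound E keys 2 5 _ _ _ _ t11_9_9_5)))))) (by decide +kernel)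

theorem row11_0 (E : Env κ ι) : RowS E 2 5 (ek E keys) c11_0 [c11_0, c11_1, c11_2, c11_3, c11_4, c11_5, c11_6, c11_7, c11_8, c11_9] [r11_0_0, r11_0_1, r11_0_2, r11_0_3, r11_0_4, r11_0_5, r11_0_6, r11_0_7, r11_0_8, r11_0_9] :=
  rowS_cons E _ _ _ _ _ _ _ _ (h11_0_0 E) (rowS_cons E _ _ _ _ _ _ _ _ (h11_0_1 E) (rowS_cons E _ _ _ _ _ _ _ _ (h11_0_2 E) (rowS_cons E _ _ _ _ _ _ _ _ (h11_0_3 E) (rowS_cons E _ _ _ _ _ _ _ _ (h11_0_4 E) (rowS_cons E _ _ _ _ _ _ _ _ (h11_0_5 E) (rowS_cons E _ _ _ _ _ _ _ _ (h11_0_6 E) (rowS_cons E _ _ _ _ _ _ _ _ (h11_0_7 E) (rowS_cons E _ _ _ _ _ _ _ _ (h11_0_8 E) (rowS_cons E _ _ _ _ _ _ _ _ (h11_0_9 E) (rowS_nil E _ _ _ _))))))))))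

theorem row11_1 (E : Env κ ι) : RowS E 2 5 (ek E keys) c11_1 [c11_1, c11_2, c11_3, c11_4, c11_5, c11_6, c11_7, c11_8, c11_9] [r11_1_1, r11_1_2, r11_1_3, r11_1_4, r11_1_5, r11_1_6, r11_1_7, r11_1_8, r11_1_9] :=
  rowS_cons E _ _ _ _ _ _ _ _ (h11_1_1 E) (rowS_cons E _ _ _ _ _ _ _ _ (h11_1_2 E) (rowS_cons E _ _ _ _ _ _ _ _ (h11_1_3 E) (rowS_cons E _ _ _ _ _ _ _ _ (h11_1_4 E) (rowS_cons E _ _ _ _ _ _ _ _ (h11_1_5 E) (rowS_cons E _ _ _ _ _ _ _ _ (h11_1_6 E) (rowS_cons E _ _ _ _ _ _ _ _ (h11_1_7 E) (rowS_cons E _ _ _ _ _ _ _ _ (h11_1_8 E) (rowS_cons E _ _ _ _ _ _ _ _ (h11_1_9 E) (rowS_nil E _ _ _ _)))))))))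

theorem row11_2 (E : Env κ ι) : RowS E 2 5 (ek E keys) c11_2 [c11_2, c11_3, c11_4, c11_5, c11_6, c11_7, c11_8, c11_9] [r11_2_2, r11_2_3, r11_2_4, r11_2_5, r11_2_6, r11_2_7, r11_2_8, r11_2_9] :=
  rowS_cons E _ _ _ _ _ _ _ _ (h11_2_2 E) (rowS_cons E _ _ _ _ _ _ _ _ (h11_2_3 E) (rowS_cons E _ _ _ _ _ _ _ _ (h11_2_4 E) (rowS_cons E _ _ _ _ _ _ _ _ (h11_2_5 E) (rowS_cons E _ _ _ _ _ _ _ _ (h11_2_6 E) (rowS_cons E _ _ _ _ _ _ _ _ (h11_2_7 E) (rowS_cons E _ _ _ _ _ _ _ _ (h11_2_8 E) (rowS_cons E _ _ _ _ _ _ _ _ (h11_2_9 E) (rowS_nil E _ _ _ _))))))))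

theorem row11_3 (E : Env κ ι) : RowS E 2 5 (ek E keys) c11_3 [c11_3, c11_4, c11_5, c11_6, c11_7, c11_8, c11_9] [r11_3_3, r11_3_4, r11_3_5, r11_3_6, r11_3_7, r11_3_8, r11_3_9] :=
  rowS_cons E _ _ _ _ _ _ _ _ (h11_3_3 E) (rowS_cons E _ _ _ _ _ _ _ _ (h11_3_4 E) (rowS_cons E _ _ _ _ _ _ _ _ (h11_3_5 E) (rowS_cons E _ _ _ _ _ _ _ _ (h11_3_6 E) (rowS_cons E _ _ _ _ _ _ _ _ (h11_3_7 E) (rowS_cons E _ _ _ _ _ _ _ _ (h11_3_8 E) (rowS_cons E _ _ _ _ _ _ _ _ (h11_3_9 E) (rowS_nil E _ _ _ _)))))))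

theorem row11_4 (E : Env κ ι) : RowS E 2 5 (ek E keys) c11_4 [c11_4, c11_5, c11_6, c11_7, c11_8, c11_9] [r11_4_4, r11_4_5, r11_4_6, r11_4_7, r11_4_8, r11_4_9] :=
  rowS_cons E _ _ _ _ _ _ _ _ (h11_4_4 E) (rowS_cons E _ _ _ _ _ _ _ _ (h11_4_5 E) (rowS_cons E _ _ _ _ _ _ _ _ (h11_4_6 E) (rowS_cons E _ _ _ _ _ _ _ _ (h11_4_7 E) (rowS_cons E _ _ _ _ _ _ _ _ (h11_4_8 E) (rowS_cons E _ _ _ _ _ _ _ _ (h11_4_9 E) (rowS_nil E _ _ _ _))))))

theorem row11_5 (E : Env κ ι) : RowS E 2 5 (ek E keys) c11_5 [c11_5, c11_6, c11_7, c11_8, c11_9] [r11_5_5, r11_5_6, r11_5_7, r11_5_8, r11_5_9] :=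
  rowS_cons E _ _ _ _ _ _ _ _ (h11_5_5 E) (rowS_cons E _ _ _ _ _ _ _ _ (h11_5_6 E) (rowS_cons E _ _ _ _ _ _ _ _ (h11_5_7 E) (rowS_cons E _ _ _ _ _ _ _ _ (h11_5_8 E) (rowS_cons E _ _ _ _ _ _ _ _ (h11_5_9 E) (rowS_nil E _ _ _ _)))))

theorem row11_6 (E : Env κ ι) : RowS E 2 5 (ek E keys) c11_6 [c11_6, c11_7, c11_8, c11_9] [r11_6_6, r11_6_7, r11_6_8, r11_6_9] :=
  rowS_cons E _ _ _ _ _ _ _ _ (h11_6_6 E) (rowS_cons E _ _ _ _ _ _ _ _ (h11_6_7 E) (rowS_cons E _ _ _ _ _ _ _ _ (h11_6_8 E) (rowS_cons E _ _ _ _ _ _ _ _ (h11_6_9 E) (rowS_nil E _ _ _ _))))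

theorem row11_7 (E : Env κ ι) : RowS E 2 5 (ek E keys) c11_7 [c11_7, c11_8, c11_9] [r11_7_7, r11_7_8, r11_7_9] :=
  rowS_cons E _ _ _ _ _ _ _ _ (h11_7_7 E) (rowS_cons E _ _ _ _ _ _ _ _ (h11_7_8 E) (rowS_cons E _ _ _ _ _ _ _ _ (h11_7_9 E) (rowS_nil E _ _ _ _)))

theorem row11_8 (E : Env κ ι) : RowS E 2 5 (ek E keys) c11_8 [c11_8, c11_9] [r11_8_8, r11_8_9] :=
  rowS_cons E _ _ _ _ _ _ _ _ (h11_8_8 E) (rowS_cons E _ _ _ _ _ _ _ _ (h11_8_9 E) (rowS_nil E _ _ _ _))

theorem row11_9 (E : Env κ ι) : RowS E 2 5 (ek E keys) c11_9 [c11_9] [r11_9_9] :=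
  rowS_cons E _ _ _ _ _ _ _ _ (h11_9_9 E) (rowS_nil E _ _ _ _)

def tab11 : List (List (List (ℕ × ℤ))) := [[r11_0_0, r11_0_1, r11_0_2, r11_0_3, r11_0_4, r11_0_5, r11_0_6, r11_0_7, r11_0_8, r11_0_9], [r11_1_1, r11_1_2, r11_1_3, r11_1_4, r11_1_5, r11_1_6, r11_1_7, r11_1_8, r11_1_9], [r11_2_2, r11_2_3, r11_2_4, r11_2_5, r11_2_6, r11_2_7, r11_2_8, r11_2_9], [r11_3_3, r11_3_4, r11_3_5, r11_3_6, r11_3_7, r11_3_8, r11_3_9], [r11_4_4, r11_4_5, r11_4_6, r11_4_7, r11_4_8, r11_4_9], [r11_5_5, r11_5_6, r11_5_7, r11_5_8, r11_5_9], [r11_6_6, r11_6_7, r11_6_8, r11_6_9], [r11_7_7, r11_7_8, r11_7_9], [r11_8_8, r11_8_9], [r11_9_9]]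

theorem tri11 (E : Env κ ι) : TriS E 2 5 (ek E keys) [c11_0, c11_1, c11_2, c11_3, c11_4, c11_5, c11_6, c11_7, c11_8, c11_9] tab11 := by
  refine triS_cons E _ _ _ _ _ _ _ (row11_0 E) ?_
  refine triS_cons E _ _ _ _ _ _ _ (row11_1 E) ?_
  refine triS_cons E _ _ _ _ _ _ _ (row11_2 E) ?_
  refine triS_cons E _ _ _ _ _ _ _ (row11_3 E) ?_
  refine triS_cons E _ _ _ _ _ _ _ (row11_4 E) ?_
  refine triS_cons E _ _ _ _ _ _ _ (row11_5 E) ?_
  refine triS_cons E _ _ _ _ _ _ _ (row11_6 E) ?_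
  refine triS_cons E _ _ _ _ _ _ _ (row11_7 E) ?_
  refine triS_cons E _ _ _ _ _ _ _ (row11_8 E) ?_
  refine triS_cons E _ _ _ _ _ _ _ (row11_9 E) ?_
  exact triS_nil E _ _ _

def rows11 : List (ℕ × List ℤ) := [(4902796291680000, [2097152, 5610, -1831866, -372671, 382916, -153497, 453885, 415890, 722284, 415256]),
  (60249420000, [0, 4194304, -9908, -1948, 2301, -972, 2538, 1993, 3988, 2008]),
  (25469640000, [0, 0, 16777216, 385806, -394449, 157704, -468702, -431145, -746852, -430584]),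
  (248028480000, [0, 0, 0, 2097152, -53924, 20176, -66486, -68597, -110833, -68465]),
  (249706800000, [0, 0, 0, 0, 2097152, -32347, 79021, 51649, 109082, 48472]),
  (40291020000, [0, 0, 0, 0, 0, 8388608, -51158, -24876, -66195, -21764]),
  (40824000000, [0, 0, 0, 0, 0, 0, 8388608, 98738, 189681, 95892]),
  (62574120000, [0, 0, 0, 0, 0, 0, 0, 4194304, 231043, 157970]),
  (66044160000, [0, 0, 0, 0, 0, 0, 0, 0, 4194304, 212117]),
  (1145303032518452183040000, [0, 0, 0, 0, 0, 0, 0, 0, 0, 1]),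
  (290712215713988764800, [1, 0, 4, 0, 0, 0, 0, 0, 0, 0]),
  (5139545891598156805200, [0, 0, 2, 0, 0, -1, 0, 0, 0, 0]),
  (3404382549355849420800, [0, 0, 2, 0, 0, 0, 1, 0, 0, 0]),
  (1059569068298614095715200, [1, 0, 0, 0, 0, 0, 0, 0, 0, 0]),
  (1059859780514328084480000, [0, 1, 0, 0, 0, 0, 0, 0, 0, 0]),
  (6327211154859927427060800, [0, 0, 1, 0, 0, 0, 0, 0, 0, 0]),
  (1059859780514328084480000, [0, 0, 0, 1, 0, 0, 0, 0, 0, 0]),
  (1059859780514328084480000, [0, 0, 0, 0, 1, 0, 0, 0, 0, 0]),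
  (2821161514454516055034800, [0, 0, 0, 0, 0, 1, 0, 0, 0, 0]),
  (2822896677796758362419200, [0, 0, 0, 0, 0, 0, 1, 0, 0, 0]),
  (1059859780514328084480000, [0, 0, 0, 0, 0, 0, 0, 1, 0, 0]),
  (1059859780514328084480000, [0, 0, 0, 0, 0, 0, 0, 0, 1, 0]),
  (1105943215545117573120000, [0, 0, 0, 0, 0, 0, 0, 0, 0, 1])]

def M11 : List (List ℤ) := [[21563785985057367470899200000, 115363019526293893939200000, -37670156877074803755973401600, -7663538654168176782213120000, 7874214970575820444139520000, -3156484386493321539747840000, 9333608577128681648947200000, 8552286308518782094540800000, 14852916790646998019604480000, 8539248847845044068024320000],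
  [2274080081393868451200000, -100774810221224997876480000, -20501383100560470218880000, 21065132550507777768960000, -8444265198469678005120000, 24969212623657413175680000, 22878855995830890612480000, 39734406543981753838080000, 22843987633597449876480000],
  [16466010624474419631773001600, 6694444357077865468550400000, -6878477880864557012354400000, 2757308942582532512289259200, -8153310631277854389140236800, -7470805760672756737908960000, -12974687498799029695628160000, -7459417036174697915408640000],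
  [683072854904832381864000000, -1399338469748497028647680000, 560942035008043282776000000, -1658692174897328273922240000, -1519850024303354116128000000, -2639543504149480711345920000, -1517533075125254501475840000],
  [721033620558132749181300000, -576375580518076249535520000, 1704304270011806969763600000, 1561614382321521034638600000, 2712105164020662680245920000, 1559230548708007678829760000],
  [121178921773194006175440000, -683195785319387853828000000, -625989918564228802006080000, -1087184244490162279554240000, -625033505978639101854720000],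
  [1015740266655957410993040000, 1851047095372592285170800000, 3214761377637854683744560000, 1848223302539385208006080000],
  [850177336656827027503620000, 2945654676213251053867200000, 1693530632319424282077120000],
  [2560007206857291790877460000, 2941164965594791948924800000],
  [847688804291529177858720000]]

def u11 : List ℤ := [0, 0, 0, 0, 0, -6322948079798177138600832614400, 1027485708682027117700343398400, -14465340240796724642293786214400, 4255344250593523224501288960000, 16560987636524058217650585600000, -6322948079798177138600832614400, 1027485708682027117700343398400, 0, 0, 3161474039899088569300416307200, -1966061338757869271479671398400, 43396020722390173926881358643200, 327913930866972704430355200000, -2420108052642439453655746560000, 0, -2797193315725158025165954867200, 0, 297094279666893142269427200000, 3690168197855006081830533120000, 6553485245703312099068459212800, 4456093987782332493100231680000, -900487339814519905615372800000,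 -356142362934897440727114240000, 11218439774244794130684691200000, 3713083832841367565808380160000, 4456093987782332493100231680000, 0, 1808764165722653238594862080000, 4744721079980658860473597132800, -3492987005020981941043200000, 0, 0, 0, 0, 0, 0, 0, 0, 0, 116092581374851197553704960000, -24239248146931289727467520000, -60568305175434281645629440000, -68169961160348342867066880000, -21770711876671848680325120000, 0, 116092581374851197553704960000, 11115128946827576918016000000, 22230257893655153836032000000, 459546016983305155706880000, -35354377093758866645483520000, -32815584066589476221583360000, -3492987005020981941043200000, 6017268712593372066201600000, -121136610350868563291258880000, 3161474039899088569300416307200, -2886103394331342989086970265600, -1746493502510490970521600000, 0, 0, 0, 0, 1746493502510490970521600000, 5522436094958813770629120000, -38697527124950399184568320000, 11383932975047749996830720000, 88598798996193710545305600000,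 -728384346110302093784718720000, 2076860082351952567782604800000, -14684612151857314342749857280000, 5555909722702916877189120000, -474135356063272166154501120000, -1460044231897834478575895040000, -32815584066589476221583360000, 4450627400023264258300078080000, -16218819935055700495529592960000, -1053293481812345131037554560000, -25589578057614816567819517440000, -1426390510750755419983196160000, -34140061640724331357912331520000, -7105332234139612072004321280000, -11486497623573893714322439680000, -115119341638275191225057280000, 43396020722390173926881358643200, 15752634774217595132981760000, -1053153605837900473203709440000, 0, 259530298771647373771311360000, 853771054965347199192644160000, 341687418687599020849592640000, 453654869620565985604323840000, 740980967179265407865652480000, 3072787249983931174928405760000, 4948066541270333655704517120000, 275289715779921068497447680000, 23643608784136823290943715840000, 1049790484737584935815496320000,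 682665514776051528254238720000, 853771054965347199192644160000, 314758086836590193076887040000, 1238430619430505121411123200000, 329424897133595835902776320000, 693438252989324880279997440000, -3446024668829329013691747840000, 6017268712593372066201600000, 7603670689365086300619325440000, 3713083832841367565808380160000, 5522436094958813770629120000, 18259807621804598019416279040000, 1543340350988600233359709440000, -738395519001310280126822400000, 2684012766699070507487109120000, -355405617169604546251553280000, 721963987058825099081579520000, -321493720050368088412533120000, 4153720164703905135565209600000, 11111819445405833754378240000, -12373969572977758960328916480000, 0, -310185343329839878170170880000, -61123526907639432466083840000, 66280168452281934831020363520000, 354395195984774842181222400000, -32830260566251064198559540480000, -1595547227422743130371225600000, -6405385203684978930650972160000, 20546385492864987179899937280000, 2714579938197661997775352320000,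 6985974010041963882086400000, 0, -17135707160842692147855360000, 45535731900190999987322880000, -16218819935055700495529592960000, -1281261214632725563609128960000, -60568305175434281645629440000, -13215608484637057607490600960000, -15194576645624494298471155200000, -356657529951154952887449600000, -1746493502510490970521600000, -32815584066589476221583360000, 58420432836035066541588480000, -321493720050368088412533120000, -61123526907639432466083840000, -167075168565585501185771520000, 1049790484737584935815496320000, -777877330254698813681687040000, 275289715779921068497447680000, 3161474039899088569300416307200, -14465340240796724642293786214400, 0, -38697527124950399184568320000, 0, 3629473267069592824642429132800, -3554445198800539991202877440000, 831131976967288753686283468800, 0, 0, -2886103394331342989086970265600, 0, 4611929949259954437487169433600, 4450627400023264258300078080000, -5357742776764124994997585920000, 0, 0, 16560987636524058217650585600000,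 36217906185701960418021120000, 88598798996193710545305600000, 0, -10559105368388884066216181760000, 2309957833542008691458027520000, 11218439774244794130684691200000, 4255344250593523224501288960000, -10559105368388884066216181760000, 2076860082351952567782604800000, 1746493502510490970521600000, 0, -28247526606248525902233600000, 11383932975047749996830720000, -28247526606248525902233600000, 5555909722702916877189120000, 225899305658023416378543360000, -377083007585104945503778560000, -842319321899071751399992320000, 1345850453362158508386424320000, 39924878505057497445580800000, -742014763214909668185139200000, 259530298771647373771311360000, -1207553234030281578613703040000, -462270948658531839931023360000, 717041260116310283297740800000, -1356704666844837332962544640000, -988520701009037747717053440000, 740980967179265407865652480000, 453654869620565985604323840000, 0, 403432659835797643255088640000, -220166325859631773999104000000, -334751617245388383991843200000,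 341687418687599020849592640000, 0, 0, 0, 0, 0, 0, 0, 0, 0, 0, 0, 0, 0, 0, 0, 0, 0, 0, 0, 0, 0, 0, 0, 0, 0, 0, 0, 0, 0, 0, 0, 0, 0, 0, 0, 0, 0, 0, 0, 0, 0, 0, 0, 0, 0, 0, 0, 0, 0, 0, 0, 0, 0, 0, 0, 0, 0, 0, 0, 0, 0, 0, 0, 0, 0, 0, 0, 0, 0, 0, -154790108499801596738273280000, 0, 0, 0, 0, 0, 0, 0, -5357742776764124994997585920000, 0, 0, 15752634774217595132981760000, -3543512023282403521602570240000, 0, 0, 0, 0, 0, 0, -3543512023282403521602570240000, 0, 0, 0, 0, 0, 39924878505057497445580800000, 225899305658023416378543360000, 0, 0, -3717235371298631742773253734400, 0, 0, 0, 0, 0, 0, 0, 0, 0, 0, 0, 0, 0, 0, 0, 0, 0, 0, 0, 0, 0, 0, 0, 0, 0, 0, 0, 0, 0, 0, 0, 0, 0, 0, 0, 0, 0, 0, 0, 0, 0, 0, 0, 0, 0, 0, 0, 0, 0, 0, 0, 0, 0, -57861360963186898569175144857600, 1057484750459414446284291993600, -8241403216329547262129598566400, -3717235371298631742773253734400, 0, 0, 0, 0, 0, 0, 0, 0, 0, 1740214445318818517807861760000, 0, 0, 982456682190361612844740300800,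 1740214445318818517807861760000, 0, 0, 0, 0, 0, 3161474039899088569300416307200]

theorem gr11 : eqM (gramT rows11) M11 = true := by
  decide +kernel

theorem mv11 : eqZ (mval M11 tab11) u11 = true := by
  decide +kernel

theorem nn11 (E : Env κ ι) : 0 ≤ dot (ek E keys) u11 0 :=
  block_nonneg E _ _ _ _ _ (tri11 E) rows11 M11 gr11 u11 mv11

end

end YMA
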