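import Pool.Agent.YM.YMA.T12_0
import Pool.Agent.YM.YMA.T12_1
import Pool.Agent.YM.YMA.T12_2
import Pool.Agent.YM.YMA.T12_3
import Pool.Agent.YM.YMA.T12_4
import Pool.Agent.YM.YMA.T12_5
import Pool.Agent.YM.YMA.T12_6
import Pool.Agent.YM.YMA.T12_7
import Pool.Agent.YM.YMA.T12_8
import Pool.Agent.YM.YMA.T12_9
import Pool.Agent.YM.YMA.T12_10

set_option linter.unusedVariables false
set_option maxRecDepth 100000

open YMEng

namespace YMA

section

variable {κ ι : Type*} [Fintype κ] [Fintype ι] [Inhabited κ] [Inhabited ι]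

def r12_0_0 : List (ℕ × ℤ) := [(5, 384), (10, -384), (14, -192), (59, 192), (151, -192), (379, 192)]

theorem h12_0_0 (E : Env κ ι) : inn E 2 5 c12_0 c12_0 = dotS (ek E keys) r12_0_0 :=
  innS_eqZ E _ _ _ _ _ _ _ (innS_add E _ _ _ _ _ _ _ _ (chkF_sound E keys 2 5 _ _ _ _ t12_0_0_0) (chkF_sound E keys 2 5 _ _ _ _ t12_0_0_1)) (by decide +kernel)

def r12_0_1 : List (ℕ × ℤ) := [(7, 480), (16, -480), (87, 480), (152, -480), (356, 0)]

theorem h12_0_1 (E : Env κ ι) : inn E 2 5 c12_0 c12_1 = dotS (ek E keys) r12_0_1 :=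
  innS_eqZ E _ _ _ _ _ _ _ (innS_add E _ _ _ _ _ _ _ _ (chkF_sound E keys 2 5 _ _ _ _ t12_0_1_0) (chkF_sound E keys 2 5 _ _ _ _ t12_0_1_1)) (by decide +kernel)

def r12_0_2 : List (ℕ × ℤ) := [(44, 480), (50, -480), (68, 480), (154, -480), (273, 0)]

theorem h12_0_2 (E : Env κ ι) : inn E 2 5 c12_0 c12_2 = dotS (ek E keys) r12_0_2 :=
  innS_eqZ E _ _ _ _ _ _ _ (innS_add E _ _ _ _ _ _ _ _ (chkF_sound E keys 2 5 _ _ _ _ t12_0_2_0) (chkF_sound E keys 2 5 _ _ _ _ t12_0_2_1)) (by decide +kernel)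

def r12_0_3 : List (ℕ × ℤ) := [(6, -192), (11, 192), (15, 576), (24, 576), (33, -576), (60, 192), (158, -576), (161, -192), (302, 768), (359, -768)]

theorem h12_0_3 (E : Env κ ι) : inn E 2 5 c12_0 c12_3 = dotS (ek E keys) r12_0_3 :=
  innS_eqZ E _ _ _ _ _ _ _ (innS_add E _ _ _ _ _ _ _ _ (chkF_sound E keys 2 5 _ _ _ _ t12_0_3_0) (chkF_sound E keys 2 5 _ _ _ _ t12_0_3_1)) (by decide +kernel)

def r12_0_4 : List (ℕ × ℤ) := [(6, -288), (11, 288), (15, 384), (24, -96), (33, 96), (60, -192), (158, -384), (161, 192), (302, 192), (359, -192)]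

theorem h12_0_4 (E : Env κ ι) : inn E 2 5 c12_0 c12_4 = dotS (ek E keys) r12_0_4 :=
  innS_eqZ E _ _ _ _ _ _ _ (innS_add E _ _ _ _ _ _ _ _ (chkF_sound E keys 2 5 _ _ _ _ t12_0_4_0) (chkF_sound E keys 2 5 _ _ _ _ t12_0_4_1)) (by decide +kernel)

def r12_0_5 : List (ℕ × ℤ) := [(15, 480), (20, -480), (163, -960), (357, 960), (372, 0)]

theorem h12_0_5 (E : Env κ ι) : inn E 2 5 c12_0 c12_5 = dotS (ek E keys) r12_0_5 :=
  innS_eqZ E _ _ _ _ _ _ _ (innS_add E _ _ _ _ _ _ _ _ (chkF_sound E keys 2 5 _ _ _ _ t12_0_5_0) (chkF_sound E keys 2 5 _ _ _ _ t12_0_5_1)) (by decide +kernel)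

def r12_0_6 : List (ℕ × ℤ) := [(24, -288), (25, -288), (30, 288), (32, 288), (78, 192), (157, -384), (164, -192), (165, 192), (281, -192), (285, 576), (292, -576), (357, 384), (369, -384), (373, 384)]

theorem h12_0_6 (E : Env κ ι) : inn E 2 5 c12_0 c12_6 = dotS (ek E keys) r12_0_6 :=
  innS_eqZ E _ _ _ _ _ _ _ (innS_add E _ _ _ _ _ _ _ _ (chkF_sound E keys 2 5 _ _ _ _ t12_0_6_0) (chkF_sound E keys 2 5 _ _ _ _ t12_0_6_1)) (by decide +kernel)

def r12_0_7 : List (ℕ × ℤ) := [(24, 192), (25, -288), (30, 288), (32, -192), (78, -288), (157, -384), (164, 288), (165, 192), (281, -192), (285, -384), (292, 384), (357, 384), (369, 576), (373, -576)]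

theorem h12_0_7 (E : Env κ ι) : inn E 2 5 c12_0 c12_7 = dotS (ek E keys) r12_0_7 :=
  innS_eqZ E _ _ _ _ _ _ _ (innS_add E _ _ _ _ _ _ _ _ (chkF_sound E keys 2 5 _ _ _ _ t12_0_7_0) (chkF_sound E keys 2 5 _ _ _ _ t12_0_7_1)) (by decide +kernel)

def r12_0_8 : List (ℕ × ℤ) := [(24, 288), (25, -192), (30, 192), (32, -288), (78, 288), (157, -576), (164, -288), (165, -192), (281, 192), (285, 384), (292, -384), (357, 576), (369, 384), (373, -384)]

theorem h12_0_8 (E : Env κ ι) : inn E 2 5 c12_0 c12_8 = dotS (ek E keys) r12_0_8 :=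
  innS_eqZ E _ _ _ _ _ _ _ (innS_add E _ _ _ _ _ _ _ _ (chkF_sound E keys 2 5 _ _ _ _ t12_0_8_0) (chkF_sound E keys 2 5 _ _ _ _ t12_0_8_1)) (by decide +kernel)

def r12_1_1 : List (ℕ × ℤ) := [(9, 240), (79, 720), (83, 480), (127, -480), (136, -720), (168, -240)]

theorem h12_1_1 (E : Env κ ι) : inn E 2 5 c12_1 c12_1 = dotS (ek E keys) r12_1_1 :=
  innS_eqZ E _ _ _ _ _ _ _ (innS_add E _ _ _ _ _ _ _ _ (chkF_sound E keys 2 5 _ _ _ _ t12_1_1_0) (innS_add E _ _ _ _ _ _ _ _ (chkF_sound E keys 2 5 _ _ _ _ t12_1_1_1) (chkF_sound E keys 2 5 _ _ _ _ t12_1_1_2))) (by decide +kernel)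

def r12_1_2 : List (ℕ × ℤ) := [(46, 720), (58, -480), (70, 240), (86, 480), (138, -720), (170, -240)]

theorem h12_1_2 (E : Env κ ι) : inn E 2 5 c12_1 c12_2 = dotS (ek E keys) r12_1_2 :=
  innS_eqZ E _ _ _ _ _ _ _ (innS_add E _ _ _ _ _ _ _ _ (chkF_sound E keys 2 5 _ _ _ _ t12_1_2_0) (innS_add E _ _ _ _ _ _ _ _ (chkF_sound E keys 2 5 _ _ _ _ t12_1_2_1) (chkF_sound E keys 2 5 _ _ _ _ t12_1_2_2))) (by decide +kernel)

def r12_1_3 : List (ℕ × ℤ) := [(18, 480), (28, 480), (81, 960), (84, -480), (99, 960), (130, -960), (139, -960), (174, -480), (175, 0)]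

theorem h12_1_3 (E : Env κ ι) : inn E 2 5 c12_1 c12_3 = dotS (ek E keys) r12_1_3 :=
  innS_eqZ E _ _ _ _ _ _ _ (innS_add E _ _ _ _ _ _ _ _ (chkF_sound E keys 2 5 _ _ _ _ t12_1_3_0) (innS_add E _ _ _ _ _ _ _ _ (chkF_sound E keys 2 5 _ _ _ _ t12_1_3_1) (chkF_sound E keys 2 5 _ _ _ _ t12_1_3_2))) (by decide +kernel)

def r12_1_4 : List (ℕ × ℤ) := [(8, -240), (18, 480), (28, -240), (84, -480), (99, 480), (130, -480), (174, 240), (175, 240)]

theorem h12_1_4 (E : Env κ ι) : inn E 2 5 c12_1 c12_4 = dotS (ek E keys) r12_1_4 :=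
  innS_eqZ E _ _ _ _ _ _ _ (innS_add E _ _ _ _ _ _ _ _ (chkF_sound E keys 2 5 _ _ _ _ t12_1_4_0) (innS_add E _ _ _ _ _ _ _ _ (chkF_sound E keys 2 5 _ _ _ _ t12_1_4_1) (chkF_sound E keys 2 5 _ _ _ _ t12_1_4_2))) (by decide +kernel)

def r12_1_5 : List (ℕ × ℤ) := [(18, 240), (23, -240), (99, 960), (107, 480), (109, -480), (129, 480), (173, -960), (176, -480)]

theorem h12_1_5 (E : Env κ ι) : inn E 2 5 c12_1 c12_5 = dotS (ek E keys) r12_1_5 :=
  innS_eqZ E _ _ _ _ _ _ _ (innS_add E _ _ _ _ _ _ _ _ (chkF_sound E keys 2 5 _ _ _ _ t12_1_5_0) (innS_add E _ _ _ _ _ _ _ _ (chkF_sound E keys 2 5 _ _ _ _ t12_1_5_1) (chkF_sound E keys 2 5 _ _ _ _ t12_1_5_2))) (by decide +kernel)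

def r12_1_6 : List (ℕ × ℤ) := [(28, -240), (29, -240), (73, 480), (81, -480), (85, -480), (97, 480), (99, 480), (107, 480), (110, 240), (121, 480), (130, -480), (131, -480), (140, -480), (174, 240), (177, 0)]

theorem h12_1_6 (E : Env κ ι) : inn E 2 5 c12_1 c12_6 = dotS (ek E keys) r12_1_6 :=
  innS_eqZ E _ _ _ _ _ _ _ (innS_add E _ _ _ _ _ _ _ _ (chkF_sound E keys 2 5 _ _ _ _ t12_1_6_0) (innS_add E _ _ _ _ _ _ _ _ (chkF_sound E keys 2 5 _ _ _ _ t12_1_6_1) (chkF_sound E keys 2 5 _ _ _ _ t12_1_6_2))) (by decide +kernel)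

def r12_1_7 : List (ℕ × ℤ) := [(29, -240), (72, -240), (73, -480), (81, 480), (85, -480), (97, -480), (107, 480), (110, 240), (119, -480), (121, -480), (129, 480), (131, 480), (140, 480), (177, 240)]

theorem h12_1_7 (E : Env κ ι) : inn E 2 5 c12_1 c12_7 = dotS (ek E keys) r12_1_7 :=
  innS_eqZ E _ _ _ _ _ _ _ (innS_add E _ _ _ _ _ _ _ _ (chkF_sound E keys 2 5 _ _ _ _ t12_1_7_0) (innS_add E _ _ _ _ _ _ _ _ (chkF_sound E keys 2 5 _ _ _ _ t12_1_7_1) (chkF_sound E keys 2 5 _ _ _ _ t12_1_7_2))) (by decide +kernel)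

def r12_1_8 : List (ℕ × ℤ) := [(28, 240), (72, 240), (73, 480), (81, 480), (85, -480), (99, 480), (107, 480), (119, -480), (121, -480), (129, 480), (130, -480), (140, -480), (174, -240), (177, -240)]

theorem h12_1_8 (E : Env κ ι) : inn E 2 5 c12_1 c12_8 = dotS (ek E keys) r12_1_8 :=
  innS_eqZ E _ _ _ _ _ _ _ (innS_add E _ _ _ _ _ _ _ _ (chkF_sound E keys 2 5 _ _ _ _ t12_1_8_0) (innS_add E _ _ _ _ _ _ _ _ (chkF_sound E keys 2 5 _ _ _ _ t12_1_8_1) (chkF_sound E keys 2 5 _ _ _ _ t12_1_8_2))) (by decide +kernel)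

def r12_2_2 : List (ℕ × ℤ) := [(34, 480), (56, -480), (61, 720), (66, 240), (142, -720), (178, -240)]

theorem h12_2_2 (E : Env κ ι) : inn E 2 5 c12_2 c12_2 = dotS (ek E keys) r12_2_2 :=
  innS_eqZ E _ _ _ _ _ _ _ (innS_add E _ _ _ _ _ _ _ _ (chkF_sound E keys 2 5 _ _ _ _ t12_2_2_0) (innS_add E _ _ _ _ _ _ _ _ (chkF_sound E keys 2 5 _ _ _ _ t12_2_2_1) (chkF_sound E keys 2 5 _ _ _ _ t12_2_2_2))) (by decide +kernel)

def r12_2_3 : List (ℕ × ℤ) := [(46, 480), (47, 960), (54, -960), (58, -960), (86, 960), (138, -480), (181, 0)]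

theorem h12_2_3 (E : Env κ ι) : inn E 2 5 c12_2 c12_3 = dotS (ek E keys) r12_2_3 :=
  innS_eqZ E _ _ _ _ _ _ _ (innS_add E _ _ _ _ _ _ _ _ (chkF_sound E keys 2 5 _ _ _ _ t12_2_3_0) (innS_add E _ _ _ _ _ _ _ _ (chkF_sound E keys 2 5 _ _ _ _ t12_2_3_1) (chkF_sound E keys 2 5 _ _ _ _ t12_2_3_2))) (by decide +kernel)

def r12_2_4 : List (ℕ × ℤ) := [(46, -240), (58, -480), (69, -240), (86, 480), (138, 240), (181, 240)]

theorem h12_2_4 (E : Env κ ι) : inn E 2 5 c12_2 c12_4 = dotS (ek E keys) r12_2_4 :=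
  innS_eqZ E _ _ _ _ _ _ _ (innS_add E _ _ _ _ _ _ _ _ (chkF_sound E keys 2 5 _ _ _ _ t12_2_4_0) (innS_add E _ _ _ _ _ _ _ _ (chkF_sound E keys 2 5 _ _ _ _ t12_2_4_1) (chkF_sound E keys 2 5 _ _ _ _ t12_2_4_2))) (by decide +kernel)

def r12_2_5 : List (ℕ × ℤ) := [(45, 240), (51, -240), (52, -480), (53, 480), (57, -960), (86, 960), (134, 480), (182, -480)]

theorem h12_2_5 (E : Env κ ι) : inn E 2 5 c12_2 c12_5 = dotS (ek E keys) r12_2_5 :=
  innS_eqZ E _ _ _ _ _ _ _ (innS_add E _ _ _ _ _ _ _ _ (chkF_sound E keys 2 5 _ _ _ _ t12_2_5_0) (innS_add E _ _ _ _ _ _ _ _ (chkF_sound E keys 2 5 _ _ _ _ t12_2_5_1) (chkF_sound E keys 2 5 _ _ _ _ t12_2_5_2))) (by decide +kernel)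

def r12_2_6 : List (ℕ × ℤ) := [(46, -240), (47, -480), (55, 480), (58, -480), (67, -240), (77, 480), (86, 480), (111, 240), (138, 240), (143, -480), (183, 0)]

theorem h12_2_6 (E : Env κ ι) : inn E 2 5 c12_2 c12_6 = dotS (ek E keys) r12_2_6 :=
  innS_eqZ E _ _ _ _ _ _ _ (innS_add E _ _ _ _ _ _ _ _ (chkF_sound E keys 2 5 _ _ _ _ t12_2_6_0) (innS_add E _ _ _ _ _ _ _ _ (chkF_sound E keys 2 5 _ _ _ _ t12_2_6_1) (chkF_sound E keys 2 5 _ _ _ _ t12_2_6_2))) (by decide +kernel)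

def r12_2_7 : List (ℕ × ℤ) := [(47, 480), (48, -960), (53, 960), (55, -480), (67, -240), (74, -240), (77, -480), (111, 240), (120, -480), (134, 480), (143, 480), (183, 240)]

theorem h12_2_7 (E : Env κ ι) : inn E 2 5 c12_2 c12_7 = dotS (ek E keys) r12_2_7 :=
  innS_eqZ E _ _ _ _ _ _ _ (innS_add E _ _ _ _ _ _ _ _ (chkF_sound E keys 2 5 _ _ _ _ t12_2_7_0) (innS_add E _ _ _ _ _ _ _ _ (chkF_sound E keys 2 5 _ _ _ _ t12_2_7_1) (chkF_sound E keys 2 5 _ _ _ _ t12_2_7_2))) (by decide +kernel)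

def r12_2_8 : List (ℕ × ℤ) := [(46, 240), (47, 480), (48, -480), (53, 480), (55, -480), (58, -480), (74, 240), (77, 480), (86, 480), (120, -480), (134, 480), (138, -240), (143, -480), (183, -240)]

theorem h12_2_8 (E : Env κ ι) : inn E 2 5 c12_2 c12_8 = dotS (ek E keys) r12_2_8 :=
  innS_eqZ E _ _ _ _ _ _ _ (innS_add E _ _ _ _ _ _ _ _ (chkF_sound E keys 2 5 _ _ _ _ t12_2_8_0) (innS_add E _ _ _ _ _ _ _ _ (chkF_sound E keys 2 5 _ _ _ _ t12_2_8_1) (chkF_sound E keys 2 5 _ _ _ _ t12_2_8_2))) (by decide +kernel)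

def r12_3_3 : List (ℕ × ℤ) := [(17, 192), (26, 384), (80, 384), (88, -384), (91, 384), (92, -192), (96, 768), (100, 1536), (102, 192), (103, 384), (113, -768), (114, -384), (148, -1536), (185, -192), (190, -384), (191, -384), (192, -384), (284, 384)]

theorem h12_3_3 (E : Env κ ι) : inn E 2 5 c12_3 c12_3 = dotS (ek E keys) r12_3_3 :=
  innS_eqZ E _ _ _ _ _ _ _ (innS_add E _ _ _ _ _ _ _ _ (chkF_sound E keys 2 5 _ _ _ _ t12_3_3_0) (innS_add E _ _ _ _ _ _ _ _ (chkF_sound E keys 2 5 _ _ _ _ t12_3_3_1) (chkF_sound E keys 2 5 _ _ _ _ t12_3_3_2))) (by decide +kernel)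

def r12_3_4 : List (ℕ × ℤ) := [(17, -192), (26, 96), (80, -384), (88, -96), (91, 96), (92, -288), (96, 192), (100, 384), (102, 288), (103, 576), (113, -192), (114, -576), (148, -384), (185, 192), (190, -96), (191, 384), (192, -96), (284, 96)]

theorem h12_3_4 (E : Env κ ι) : inn E 2 5 c12_3 c12_4 = dotS (ek E keys) r12_3_4 :=
  innS_eqZ E _ _ _ _ _ _ _ (innS_add E _ _ _ _ _ _ _ _ (chkF_sound E keys 2 5 _ _ _ _ t12_3_4_0) (innS_add E _ _ _ _ _ _ _ _ (chkF_sound E keys 2 5 _ _ _ _ t12_3_4_1) (chkF_sound E keys 2 5 _ _ _ _ t12_3_4_2))) (by decide +kernel)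

def r12_3_5 : List (ℕ × ℤ) := [(17, 480), (18, 480), (22, -480), (23, -480), (96, 960), (99, 960), (115, -960), (173, -960), (195, 0)]

theorem h12_3_5 (E : Env κ ι) : inn E 2 5 c12_3 c12_5 = dotS (ek E keys) r12_3_5 :=
  innS_eqZ E _ _ _ _ _ _ _ (innS_add E _ _ _ _ _ _ _ _ (chkF_sound E keys 2 5 _ _ _ _ t12_3_5_0) (innS_add E _ _ _ _ _ _ _ _ (chkF_sound E keys 2 5 _ _ _ _ t12_3_5_1) (chkF_sound E keys 2 5 _ _ _ _ t12_3_5_2))) (by decide +kernel)

def r12_3_6 : List (ℕ × ℤ) := [(28, 96), (29, 96), (73, -192), (75, 384), (81, 192), (85, 192), (95, -384), (97, -192), (99, -192), (107, -192), (110, -96), (121, -192), (124, 768), (130, 192), (131, 192), (140, 192), (146, -768), (174, -96), (195, -384), (196, 384)]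

theorem h12_3_6 (E : Env κ ι) : inn E 2 5 c12_3 c12_6 = dotS (ek E keys) r12_3_6 :=
  innS_eqZ E _ _ _ _ _ _ _ (innS_add E _ _ _ _ _ _ _ _ (chkF_sound E keys 2 5 _ _ _ _ t12_3_6_0) (innS_add E _ _ _ _ _ _ _ _ (chkF_sound E keys 2 5 _ _ _ _ t12_3_6_1) (chkF_sound E keys 2 5 _ _ _ _ t12_3_6_2))) (by decide +kernel)

def r12_3_7 : List (ℕ × ℤ) := [(26, 480), (27, -480), (28, 96), (29, -384), (73, -192), (75, -96), (81, 192), (82, -960), (85, -768), (95, 96), (97, -192), (99, -192), (107, 768), (110, 384), (117, 960), (121, -192), (124, -192), (130, 192), (131, 192), (140, 192), (146, 192), (174, -96), (195, 96), (196, -96)]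

theorem h12_3_7 (E : Env κ ι) : inn E 2 5 c12_3 c12_7 = dotS (ek E keys) r12_3_7 :=
  innS_eqZ E _ _ _ _ _ _ _ (innS_add E _ _ _ _ _ _ _ _ (chkF_sound E keys 2 5 _ _ _ _ t12_3_7_0) (innS_add E _ _ _ _ _ _ _ _ (chkF_sound E keys 2 5 _ _ _ _ t12_3_7_1) (chkF_sound E keys 2 5 _ _ _ _ t12_3_7_2))) (by decide +kernel)

def r12_3_8 : List (ℕ × ℤ) := [(26, 480), (27, -480), (28, 384), (29, -96), (73, 192), (75, 96), (80, 960), (81, 768), (85, -192), (95, -96), (97, 192), (99, 192), (107, 192), (110, 96), (121, -768), (124, 192), (130, -192), (131, -192), (140, -192), (146, -192), (149, -960), (174, -384), (195, -96), (196, 96)]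

theorem h12_3_8 (E : Env κ ι) : inn E 2 5 c12_3 c12_8 = dotS (ek E keys) r12_3_8 :=
  innS_eqZ E _ _ _ _ _ _ _ (innS_add E _ _ _ _ _ _ _ _ (chkF_sound E keys 2 5 _ _ _ _ t12_3_8_0) (innS_add E _ _ _ _ _ _ _ _ (chkF_sound E keys 2 5 _ _ _ _ t12_3_8_1) (chkF_sound E keys 2 5 _ _ _ _ t12_3_8_2))) (by decide +kernel)

def r12_4_4 : List (ℕ × ℤ) := [(17, -288), (26, 384), (80, -96), (88, 96), (91, 144), (92, 48), (96, -192), (100, 96), (102, -48), (103, 384), (113, 192), (114, -384), (148, -96), (185, 288), (190, -144), (191, 96), (192, -384), (284, -96)]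

theorem h12_4_4 (E : Env κ ι) : inn E 2 5 c12_4 c12_4 = dotS (ek E keys) r12_4_4 :=
  innS_eqZ E _ _ _ _ _ _ _ (innS_add E _ _ _ _ _ _ _ _ (chkF_sound E keys 2 5 _ _ _ _ t12_4_4_0) (innS_add E _ _ _ _ _ _ _ _ (chkF_sound E keys 2 5 _ _ _ _ t12_4_4_1) (innS_add E _ _ _ _ _ _ _ _ (chkF_sound E keys 2 5 _ _ _ _ t12_4_4_2) (innS_add E _ _ _ _ _ _ _ _ (chkF_sound E keys 2 5 _ _ _ _ t12_4_4_3) (chkF_sound E keys 2 5 _ _ _ _ t12_4_4_4))))) (by decide +kernel)

def r12_4_5 : List (ℕ × ℤ) := [(18, 240), (23, -240), (107, -480), (109, 480), (147, -480), (194, 480), (195, 0)]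

theorem h12_4_5 (E : Env κ ι) : inn E 2 5 c12_4 c12_5 = dotS (ek E keys) r12_4_5 :=
  innS_eqZ E _ _ _ _ _ _ _ (innS_add E _ _ _ _ _ _ _ _ (chkF_sound E keys 2 5 _ _ _ _ t12_4_5_0) (innS_add E _ _ _ _ _ _ _ _ (chkF_sound E keys 2 5 _ _ _ _ t12_4_5_1) (innS_add E _ _ _ _ _ _ _ _ (chkF_sound E keys 2 5 _ _ _ _ t12_4_5_2) (innS_add E _ _ _ _ _ _ _ _ (chkF_sound E keys 2 5 _ _ _ _ t12_4_5_3) (chkF_sound E keys 2 5 _ _ _ _ t12_4_5_4))))) (by decide +kernel)

def r12_4_6 : List (ℕ × ℤ) := [(28, 144), (29, 144), (73, -288), (75, 96), (81, 288), (85, 288), (95, -96), (97, -288), (99, -288), (107, -288), (110, -144), (121, -288), (124, 192), (130, 288), (131, 288), (140, 288), (146, -192), (174, -144), (195, -96), (196, 96)]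

theorem h12_4_6 (E : Env κ ι) : inn E 2 5 c12_4 c12_6 = dotS (ek E keys) r12_4_6 :=
  innS_eqZ E _ _ _ _ _ _ _ (innS_add E _ _ _ _ _ _ _ _ (chkF_sound E keys 2 5 _ _ _ _ t12_4_6_0) (innS_add E _ _ _ _ _ _ _ _ (chkF_sound E keys 2 5 _ _ _ _ t12_4_6_1) (innS_add E _ _ _ _ _ _ _ _ (chkF_sound E keys 2 5 _ _ _ _ t12_4_6_2) (innS_add E _ _ _ _ _ _ _ _ (chkF_sound E keys 2 5 _ _ _ _ t12_4_6_3) (chkF_sound E keys 2 5 _ _ _ _ t12_4_6_4))))) (by decide +kernel)

def r12_4_7 : List (ℕ × ℤ) := [(28, 144), (29, -96), (73, 192), (75, 96), (81, -192), (85, -192), (95, 144), (97, 192), (99, -288), (107, 192), (110, 96), (121, 192), (124, 192), (130, 288), (131, -192), (140, -192), (146, -192), (174, -144), (195, -96), (196, -144)]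

theorem h12_4_7 (E : Env κ ι) : inn E 2 5 c12_4 c12_7 = dotS (ek E keys) r12_4_7 :=
  innS_eqZ E _ _ _ _ _ _ _ (innS_add E _ _ _ _ _ _ _ _ (chkF_sound E keys 2 5 _ _ _ _ t12_4_7_0) (innS_add E _ _ _ _ _ _ _ _ (chkF_sound E keys 2 5 _ _ _ _ t12_4_7_1) (innS_add E _ _ _ _ _ _ _ _ (chkF_sound E keys 2 5 _ _ _ _ t12_4_7_2) (innS_add E _ _ _ _ _ _ _ _ (chkF_sound E keys 2 5 _ _ _ _ t12_4_7_3) (chkF_sound E keys 2 5 _ _ _ _ t12_4_7_4))))) (by decide +kernel)

def r12_4_8 : List (ℕ × ℤ) := [(28, 96), (29, -144), (73, -192), (75, -96), (81, 192), (85, 192), (95, -144), (97, 288), (99, -192), (107, -192), (110, 144), (121, -192), (124, 288), (130, 192), (131, -288), (140, 192), (146, -288), (174, -96), (195, 96), (196, 144)]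

theorem h12_4_8 (E : Env κ ι) : inn E 2 5 c12_4 c12_8 = dotS (ek E keys) r12_4_8 :=
  innS_eqZ E _ _ _ _ _ _ _ (innS_add E _ _ _ _ _ _ _ _ (chkF_sound E keys 2 5 _ _ _ _ t12_4_8_0) (innS_add E _ _ _ _ _ _ _ _ (chkF_sound E keys 2 5 _ _ _ _ t12_4_8_1) (innS_add E _ _ _ _ _ _ _ _ (chkF_sound E keys 2 5 _ _ _ _ t12_4_8_2) (innS_add E _ _ _ _ _ _ _ _ (chkF_sound E keys 2 5 _ _ _ _ t12_4_8_3) (chkF_sound E keys 2 5 _ _ _ _ t12_4_8_4))))) (by decide +kernel)

def r12_5_5 : List (ℕ × ℤ) := [(22, -240), (125, 480), (127, 480), (130, 960), (137, -480), (169, -480), (173, -960), (184, 240), (185, 240), (187, 480), (199, -480), (299, -240)]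

theorem h12_5_5 (E : Env κ ι) : inn E 2 5 c12_5 c12_5 = dotS (ek E keys) r12_5_5 :=
  innS_eqZ E _ _ _ _ _ _ _ (innS_add E _ _ _ _ _ _ _ _ (chkF_sound E keys 2 5 _ _ _ _ t12_5_5_0) (innS_add E _ _ _ _ _ _ _ _ (chkF_sound E keys 2 5 _ _ _ _ t12_5_5_1) (innS_add E _ _ _ _ _ _ _ _ (chkF_sound E keys 2 5 _ _ _ _ t12_5_5_2) (innS_add E _ _ _ _ _ _ _ _ (chkF_sound E keys 2 5 _ _ _ _ t12_5_5_3) (innS_add E _ _ _ _ _ _ _ _ (chkF_sound E keys 2 5 _ _ _ _ t12_5_5_4) (chkF_sound E keys 2 5 _ _ _ _ t12_5_5_5)))))) (by decide +kernel)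

def r12_5_6 : List (ℕ × ℤ) := [(23, -240), (27, 240), (84, 240), (101, -480), (105, 480), (117, -480), (131, -480), (141, 480), (192, -240), (193, 480), (298, 0)]

theorem h12_5_6 (E : Env κ ι) : inn E 2 5 c12_5 c12_6 = dotS (ek E keys) r12_5_6 :=
  innS_eqZ E _ _ _ _ _ _ _ (innS_add E _ _ _ _ _ _ _ _ (chkF_sound E keys 2 5 _ _ _ _ t12_5_6_0) (innS_add E _ _ _ _ _ _ _ _ (chkF_sound E keys 2 5 _ _ _ _ t12_5_6_1) (innS_add E _ _ _ _ _ _ _ _ (chkF_sound E keys 2 5 _ _ _ _ t12_5_6_2) (innS_add E _ _ _ _ _ _ _ _ (chkF_sound E keys 2 5 _ _ _ _ t12_5_6_3) (innS_add E _ _ _ _ _ _ _ _ (chkF_sound E keys 2 5 _ _ _ _ t12_5_6_4) (chkF_sound E keys 2 5 _ _ _ _ t12_5_6_5)))))) (by decide +kernel)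

def r12_5_7 : List (ℕ × ℤ) := [(27, -240), (85, -480), (97, -480), (104, -480), (105, -480), (109, 480), (112, 480), (117, 480), (123, -480), (141, 480), (188, 240), (192, 240), (200, 480), (298, -240)]

theorem h12_5_7 (E : Env κ ι) : inn E 2 5 c12_5 c12_7 = dotS (ek E keys) r12_5_7 :=
  innS_eqZ E _ _ _ _ _ _ _ (innS_add E _ _ _ _ _ _ _ _ (chkF_sound E keys 2 5 _ _ _ _ t12_5_7_0) (innS_add E _ _ _ _ _ _ _ _ (chkF_sound E keys 2 5 _ _ _ _ t12_5_7_1) (innS_add E _ _ _ _ _ _ _ _ (chkF_sound E keys 2 5 _ _ _ _ t12_5_7_2) (innS_add E _ _ _ _ _ _ _ _ (chkF_sound E keys 2 5 _ _ _ _ t12_5_7_3) (innS_add E _ _ _ _ _ _ _ _ (chkF_sound E keys 2 5 _ _ _ _ t12_5_7_4) (chkF_sound E keys 2 5 _ _ _ _ t12_5_7_5)))))) (by decide +kernel)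

def r12_5_8 : List (ℕ × ℤ) := [(23, -240), (83, 480), (84, 240), (99, 480), (104, -480), (112, 480), (113, 480), (115, -480), (137, -480), (144, 480), (173, -480), (188, 240), (199, -480), (298, -240)]

theorem h12_5_8 (E : Env κ ι) : inn E 2 5 c12_5 c12_8 = dotS (ek E keys) r12_5_8 :=
  innS_eqZ E _ _ _ _ _ _ _ (innS_add E _ _ _ _ _ _ _ _ (chkF_sound E keys 2 5 _ _ _ _ t12_5_8_0) (innS_add E _ _ _ _ _ _ _ _ (chkF_sound E keys 2 5 _ _ _ _ t12_5_8_1) (innS_add E _ _ _ _ _ _ _ _ (chkF_sound E keys 2 5 _ _ _ _ t12_5_8_2) (innS_add E _ _ _ _ _ _ _ _ (chkF_sound E keys 2 5 _ _ _ _ t12_5_8_3) (innS_add E _ _ _ _ _ _ _ _ (chkF_sound E keys 2 5 _ _ _ _ t12_5_8_4) (chkF_sound E keys 2 5 _ _ _ _ t12_5_8_5)))))) (by decide +kernel)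

def r12_6_6 : List (ℕ × ℤ) := [(29, -96), (71, -384), (73, 192), (76, 192), (79, -48), (80, 96), (81, -192), (83, 96), (85, 192), (89, 192), (92, -48), (93, 192), (94, 192), (96, -192), (97, -192), (98, -96), (100, -96), (102, 48), (107, -192), (110, 96), (113, 192), (114, -192), (116, -192), (118, -384), (121, 192), (127, -96), (131, 192), (136, 48), (140, -192), (144, -384), (145, 384), (148, 96), (150, 96), (187, 384), (191, -96), (197, -192), (201, 384), (202, -192)]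

theorem h12_6_6 (E : Env κ ι) : inn E 2 5 c12_6 c12_6 = dotS (ek E keys) r12_6_6 :=
  innS_eqZ E _ _ _ _ _ _ _ (innS_add E _ _ _ _ _ _ _ _ (chkF_sound E keys 2 5 _ _ _ _ t12_6_6_0) (innS_add E _ _ _ _ _ _ _ _ (chkF_sound E keys 2 5 _ _ _ _ t12_6_6_1) (innS_add E _ _ _ _ _ _ _ _ (chkF_sound E keys 2 5 _ _ _ _ t12_6_6_2) (innS_add E _ _ _ _ _ _ _ _ (chkF_sound E keys 2 5 _ _ _ _ t12_6_6_3) (innS_add E _ _ _ _ _ _ _ _ (chkF_sound E keys 2 5 _ _ _ _ t12_6_6_4) (chkF_sound E keys 2 5 _ _ _ _ t12_6_6_5)))))) (by decide +kernel)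

def r12_6_7 : List (ℕ × ℤ) := [(29, 144), (71, 96), (73, -288), (76, 192), (79, 192), (80, 96), (81, 288), (83, -384), (85, -288), (89, 192), (92, -48), (93, -48), (94, -48), (96, -192), (97, 288), (98, -96), (100, -96), (102, 48), (107, 288), (110, -144), (113, 192), (114, -192), (116, -192), (118, 96), (121, -288), (127, 384), (131, -288), (136, -192), (140, 288), (144, 96), (145, -96), (148, 96), (150, 96), (187, -96), (191, -96), (197, 48), (201, -96), (202, 48)]

theorem h12_6_7 (E : Env κ ι) : inn E 2 5 c12_6 c12_7 = dotS (ek E keys) r12_6_7 :=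
  innS_eqZ E _ _ _ _ _ _ _ (innS_add E _ _ _ _ _ _ _ _ (chkF_sound E keys 2 5 _ _ _ _ t12_6_7_0) (innS_add E _ _ _ _ _ _ _ _ (chkF_sound E keys 2 5 _ _ _ _ t12_6_7_1) (innS_add E _ _ _ _ _ _ _ _ (chkF_sound E keys 2 5 _ _ _ _ t12_6_7_2) (innS_add E _ _ _ _ _ _ _ _ (chkF_sound E keys 2 5 _ _ _ _ t12_6_7_3) (innS_add E _ _ _ _ _ _ _ _ (chkF_sound E keys 2 5 _ _ _ _ t12_6_7_4) (chkF_sound E keys 2 5 _ _ _ _ t12_6_7_5)))))) (by decide +kernel)

def r12_6_8 : List (ℕ × ℤ) := [(29, -144), (71, -96), (73, -192), (76, 288), (79, 48), (80, -96), (81, 192), (82, -480), (83, -96), (85, 288), (89, 288), (92, -192), (93, 48), (94, 48), (96, -288), (97, 192), (98, 96), (100, 96), (102, 192), (105, 480), (107, -288), (110, 144), (113, 288), (114, -288), (116, -288), (118, -96), (121, -192), (127, 96), (131, -192), (136, -48), (140, 192), (144, -96), (145, 96), (148, -96), (150, -96), (187, 96), (191, 96), (197, -48), (201, 96), (202, -48)]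

theorem h12_6_8 (E : Env κ ι) : inn E 2 5 c12_6 c12_8 = dotS (ek E keys) r12_6_8 :=
  innS_eqZ E _ _ _ _ _ _ _ (innS_add E _ _ _ _ _ _ _ _ (chkF_sound E keys 2 5 _ _ _ _ t12_6_8_0) (innS_add E _ _ _ _ _ _ _ _ (chkF_sound E keys 2 5 _ _ _ _ t12_6_8_1) (innS_add E _ _ _ _ _ _ _ _ (chkF_sound E keys 2 5 _ _ _ _ t12_6_8_2) (innS_add E _ _ _ _ _ _ _ _ (chkF_sound E keys 2 5 _ _ _ _ t12_6_8_3) (innS_add E _ _ _ _ _ _ _ _ (chkF_sound E keys 2 5 _ _ _ _ t12_6_8_4) (chkF_sound E keys 2 5 _ _ _ _ t12_6_8_5)))))) (by decide +kernel)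

def r12_7_7 : List (ℕ × ℤ) := [(29, -96), (71, 96), (73, 192), (76, 192), (79, -48), (80, -384), (81, -192), (83, 96), (85, 192), (89, 192), (92, 192), (93, -48), (94, 192), (96, 768), (97, -192), (98, -96), (100, 384), (102, -192), (107, -192), (110, 96), (113, -768), (114, -192), (116, -192), (118, 96), (121, 192), (127, -96), (131, 192), (136, 48), (140, -192), (144, -384), (145, -96), (148, -384), (150, 96), (187, 384), (191, 384), (197, -192), (201, -96), (202, 48)]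

theorem h12_7_7 (E : Env κ ι) : inn E 2 5 c12_7 c12_7 = dotS (ek E keys) r12_7_7 :=
  innS_eqZ E _ _ _ _ _ _ _ (innS_add E _ _ _ _ _ _ _ _ (chkF_sound E keys 2 5 _ _ _ _ t12_7_7_0) (innS_add E _ _ _ _ _ _ _ _ (chkF_sound E keys 2 5 _ _ _ _ t12_7_7_1) (innS_add E _ _ _ _ _ _ _ _ (chkF_sound E keys 2 5 _ _ _ _ t12_7_7_2) (innS_add E _ _ _ _ _ _ _ _ (chkF_sound E keys 2 5 _ _ _ _ t12_7_7_3) (innS_add E _ _ _ _ _ _ _ _ (chkF_sound E keys 2 5 _ _ _ _ t12_7_7_4) (chkF_sound E keys 2 5 _ _ _ _ t12_7_7_5)))))) (by decide +kernel)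

def r12_7_8 : List (ℕ × ℤ) := [(29, -144), (71, -96), (73, -192), (76, -192), (79, 48), (80, -96), (81, 192), (83, -96), (85, -192), (89, -192), (92, 48), (93, -192), (94, 48), (96, 192), (97, -288), (98, -384), (100, 96), (102, -48), (107, 192), (110, 144), (113, -192), (114, 192), (116, 192), (118, -96), (121, -192), (127, 96), (131, 288), (136, -48), (140, 192), (144, -96), (145, 96), (148, -96), (150, 384), (187, 96), (191, 96), (197, -48), (201, 96), (202, 192)]

theorem h12_7_8 (E : Env κ ι) : inn E 2 5 c12_7 c12_8 = dotS (ek E keys) r12_7_8 :=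
  innS_eqZ E _ _ _ _ _ _ _ (innS_add E _ _ _ _ _ _ _ _ (chkF_sound E keys 2 5 _ _ _ _ t12_7_8_0) (innS_add E _ _ _ _ _ _ _ _ (chkF_sound E keys 2 5 _ _ _ _ t12_7_8_1) (innS_add E _ _ _ _ _ _ _ _ (chkF_sound E keys 2 5 _ _ _ _ t12_7_8_2) (innS_add E _ _ _ _ _ _ _ _ (chkF_sound E keys 2 5 _ _ _ _ t12_7_8_3) (innS_add E _ _ _ _ _ _ _ _ (chkF_sound E keys 2 5 _ _ _ _ t12_7_8_4) (chkF_sound E keys 2 5 _ _ _ _ t12_7_8_5)))))) (by decide +kernel)

def r12_8_8 : List (ℕ × ℤ) := [(29, -96), (71, 96), (73, 192), (76, 192), (79, 192), (80, 96), (81, 768), (83, 96), (85, 192), (89, -288), (92, -48), (93, -48), (94, 192), (96, -192), (97, -192), (98, -96), (100, 384), (102, 48), (107, -192), (110, 96), (113, 192), (114, 288), (116, -192), (118, -384), (121, -768), (127, -96), (131, 192), (136, -192), (140, -192), (144, 96), (145, 384), (148, -384), (150, 96), (187, -96), (191, -96), (197, -192), (201, -96), (202, 48)]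

theorem h12_8_8 (E : Env κ ι) : inn E 2 5 c12_8 c12_8 = dotS (ek E keys) r12_8_8 :=
  innS_eqZ E _ _ _ _ _ _ _ (innS_add E _ _ _ _ _ _ _ _ (chkF_sound E keys 2 5 _ _ _ _ t12_8_8_0) (innS_add E _ _ _ _ _ _ _ _ (chkF_sound E keys 2 5 _ _ _ _ t12_8_8_1) (innS_add E _ _ _ _ _ _ _ _ (chkF_sound E keys 2 5 _ _ _ _ t12_8_8_2) (innS_add E _ _ _ _ _ _ _ _ (chkF_sound E keys 2 5 _ _ _ _ t12_8_8_3) (innS_add E _ _ _ _ _ _ _ _ (chkF_sound E keys 2 5 _ _ _ _ t12_8_8_4) (chkF_sound E keys 2 5 _ _ _ _ t12_8_8_5)))))) (by decide +kernel)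

theorem row12_0 (E : Env κ ι) : RowS E 2 5 (ek E keys) c12_0 [c12_0, c12_1, c12_2, c12_3, c12_4, c12_5, c12_6, c12_7, c12_8] [r12_0_0, r12_0_1, r12_0_2, r12_0_3, r12_0_4, r12_0_5, r12_0_6, r12_0_7, r12_0_8] :=
  rowS_cons E _ _ _ _ _ _ _ _ (h12_0_0 E) (rowS_cons E _ _ _ _ _ _ _ _ (h12_0_1 E) (rowS_cons E _ _ _ _ _ _ _ _ (h12_0_2 E) (rowS_cons E _ _ _ _ _ _ _ _ (h12_0_3 E) (rowS_cons E _ _ _ _ _ _ _ _ (h12_0_4 E) (rowS_cons E _ _ _ _ _ _ _ _ (h12_0_5 E) (rowS_cons E _ _ _ _ _ _ _ _ (h12_0_6 E) (rowS_cons E _ _ _ _ _ _ _ _ (h12_0_7 E) (rowS_cons E _ _ _ _ _ _ _ _ (h12_0_8 E) (rowS_nil E _ _ _ _)))))))))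

theorem row12_1 (E : Env κ ι) : RowS E 2 5 (ek E keys) c12_1 [c12_1, c12_2, c12_3, c12_4, c12_5, c12_6, c12_7, c12_8] [r12_1_1, r12_1_2, r12_1_3, r12_1_4, r12_1_5, r12_1_6, r12_1_7, r12_1_8] :=
  rowS_cons E _ _ _ _ _ _ _ _ (h12_1_1 E) (rowS_cons E _ _ _ _ _ _ _ _ (h12_1_2 E) (rowS_cons E _ _ _ _ _ _ _ _ (h12_1_3 E) (rowS_cons E _ _ _ _ _ _ _ _ (h12_1_4 E) (rowS_cons E _ _ _ _ _ _ _ _ (h12_1_5 E) (rowS_cons E _ _ _ _ _ _ _ _ (h12_1_6 E) (rowS_cons E _ _ _ _ _ _ _ _ (h12_1_7 E) (rowS_cons E _ _ _ _ _ _ _ _ (h12_1_8 E) (rowS_nil E _ _ _ _))))))))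

theorem row12_2 (E : Env κ ι) : RowS E 2 5 (ek E keys) c12_2 [c12_2, c12_3, c12_4, c12_5, c12_6, c12_7, c12_8] [r12_2_2, r12_2_3, r12_2_4, r12_2_5, r12_2_6, r12_2_7, r12_2_8] :=
  rowS_cons E _ _ _ _ _ _ _ _ (h12_2_2 E) (rowS_cons E _ _ _ _ _ _ _ _ (h12_2_3 E) (rowS_cons E _ _ _ _ _ _ _ _ (h12_2_4 E) (rowS_cons E _ _ _ _ _ _ _ _ (h12_2_5 E) (rowS_cons E _ _ _ _ _ _ _ _ (h12_2_6 E) (rowS_cons E _ _ _ _ _ _ _ _ (h12_2_7 E) (rowS_cons E _ _ _ _ _ _ _ _ (h12_2_8 E) (rowS_nil E _ _ _ _)))))))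

theorem row12_3 (E : Env κ ι) : RowS E 2 5 (ek E keys) c12_3 [c12_3, c12_4, c12_5, c12_6, c12_7, c12_8] [r12_3_3, r12_3_4, r12_3_5, r12_3_6, r12_3_7, r12_3_8] :=
  rowS_cons E _ _ _ _ _ _ _ _ (h12_3_3 E) (rowS_cons E _ _ _ _ _ _ _ _ (h12_3_4 E) (rowS_cons E _ _ _ _ _ _ _ _ (h12_3_5 E) (rowS_cons E _ _ _ _ _ _ _ _ (h12_3_6 E) (rowS_cons E _ _ _ _ _ _ _ _ (h12_3_7 E) (rowS_cons E _ _ _ _ _ _ _ _ (h12_3_8 E) (rowS_nil E _ _ _ _))))))

theorem row12_4 (E : Env κ ι) : RowS E 2 5 (ek E keys) c12_4 [c12_4, c12_5, c12_6, c12_7, c12_8] [r12_4_4, r12_4_5, r12_4_6, r12_4_7, r12_4_8] :=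
  rowS_cons E _ _ _ _ _ _ _ _ (h12_4_4 E) (rowS_cons E _ _ _ _ _ _ _ _ (h12_4_5 E) (rowS_cons E _ _ _ _ _ _ _ _ (h12_4_6 E) (rowS_cons E _ _ _ _ _ _ _ _ (h12_4_7 E) (rowS_cons E _ _ _ _ _ _ _ _ (h12_4_8 E) (rowS_nil E _ _ _ _)))))

theorem row12_5 (E : Env κ ι) : RowS E 2 5 (ek E keys) c12_5 [c12_5, c12_6, c12_7, c12_8] [r12_5_5, r12_5_6, r12_5_7, r12_5_8] :=
  rowS_cons E _ _ _ _ _ _ _ _ (h12_5_5 E) (rowS_cons E _ _ _ _ _ _ _ _ (h12_5_6 E) (rowS_cons E _ _ _ _ _ _ _ _ (h12_5_7 E) (rowS_cons E _ _ _ _ _ _ _ _ (h12_5_8 E) (rowS_nil E _ _ _ _))))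

theorem row12_6 (E : Env κ ι) : RowS E 2 5 (ek E keys) c12_6 [c12_6, c12_7, c12_8] [r12_6_6, r12_6_7, r12_6_8] :=
  rowS_cons E _ _ _ _ _ _ _ _ (h12_6_6 E) (rowS_cons E _ _ _ _ _ _ _ _ (h12_6_7 E) (rowS_cons E _ _ _ _ _ _ _ _ (h12_6_8 E) (rowS_nil E _ _ _ _)))

theorem row12_7 (E : Env κ ι) : RowS E 2 5 (ek E keys) c12_7 [c12_7, c12_8] [r12_7_7, r12_7_8] :=
  rowS_cons E _ _ _ _ _ _ _ _ (h12_7_7 E) (rowS_cons E _ _ _ _ _ _ _ _ (h12_7_8 E) (rowS_nil E _ _ _ _))

theorem row12_8 (E : Env κ ι) : RowS E 2 5 (ek E keys) c12_8 [c12_8] [r12_8_8] :=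
  rowS_cons E _ _ _ _ _ _ _ _ (h12_8_8 E) (rowS_nil E _ _ _ _)

def tab12 : List (List (List (ℕ × ℤ))) := [[r12_0_0, r12_0_1, r12_0_2, r12_0_3, r12_0_4, r12_0_5, r12_0_6, r12_0_7, r12_0_8], [r12_1_1, r12_1_2, r12_1_3, r12_1_4, r12_1_5, r12_1_6, r12_1_7, r12_1_8], [r12_2_2, r12_2_3, r12_2_4, r12_2_5, r12_2_6, r12_2_7, r12_2_8], [r12_3_3, r12_3_4, r12_3_5, r12_3_6, r12_3_7, r12_3_8], [r12_4_4, r12_4_5, r12_4_6, r12_4_7, r12_4_8], [r12_5_5, r12_5_6, r12_5_7, r12_5_8], [r12_6_6, r12_6_7, r12_6_8], [r12_7_7, r12_7_8], [r12_8_8]]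

theorem tri12 (E : Env κ ι) : TriS E 2 5 (ek E keys) [c12_0, c12_1, c12_2, c12_3, c12_4, c12_5, c12_6, c12_7, c12_8] tab12 := by
  refine triS_cons E _ _ _ _ _ _ _ (row12_0 E) ?_
  refine triS_cons E _ _ _ _ _ _ _ (row12_1 E) ?_
  refine triS_cons E _ _ _ _ _ _ _ (row12_2 E) ?_
  refine triS_cons E _ _ _ _ _ _ _ (row12_3 E) ?_
  refine triS_cons E _ _ _ _ _ _ _ (row12_4 E) ?_
  refine triS_cons E _ _ _ _ _ _ _ (row12_5 E) ?_
  refine triS_cons E _ _ _ _ _ _ _ (row12_6 E) ?_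
  refine triS_cons E _ _ _ _ _ _ _ (row12_7 E) ?_
  refine triS_cons E _ _ _ _ _ _ _ (row12_8 E) ?_
  exact triS_nil E _ _ _

def rows12 : List (ℕ × List ℤ) := [(3943103159520000, [8388608, -5680992, -230753, -1346659, 4048143, -281239, 97659, -1569323, 1058903]),
  (3531115470960000, [0, 4194304, -247781, -1995180, 3170127, -139806, 1778164, 901451, 189089]),
  (4846489200000, [0, 0, 8388608, 34715307, -24538788, 12084634, 38982920, -3597574, -77057064]),
  (13694546880000, [0, 0, 0, 2097152, -1495760, 708078, 2248945, -213997, -4503189]),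
  (380887920000, [0, 0, 0, 0, 4194304, 235341, 2483913, -41946, -2199353]),
  (1767225600000, [0, 0, 0, 0, 0, 1048576, 648582, -13873, -918121]),
  (406153440000, [0, 0, 0, 0, 0, 0, 4194304, -8439, -4406644]),
  (5001937920000, [0, 0, 0, 0, 0, 0, 0, 524288, 50451]),
  (3796796257601669038080000, [0, 0, 0, 0, 0, 0, 0, 0, 1]),
  (8014852289762448368400, [2, 0, 0, 0, 0, -1, 0, 0, 0]),
  (3774329471168484211800, [2, 0, 0, 0, 0, 0, 0, 1, 0]),
  (6313358364214413023716320, [1, 0, 0, 0, 0, 0, 0, 0, 0]),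
  (3391558778722965258240000, [0, 1, 0, 0, 0, 0, 0, 0, 0]),
  (3391558778722965258240000, [0, 0, 1, 0, 0, 0, 0, 0, 0]),
  (1059859780514328084480000, [0, 0, 0, 1, 0, 0, 0, 0, 0]),
  (2826301060346114211840000, [0, 0, 0, 0, 1, 0, 0, 0, 0]),
  (1687758302840790690831600, [0, 0, 0, 0, 0, 1, 0, 0, 0]),
  (1413150530173057105920000, [0, 0, 0, 0, 0, 0, 1, 0, 0]),
  (1207499334743146032268200, [0, 0, 0, 0, 0, 0, 0, 1, 0]),
  (1271832983463379599360000, [0, 0, 0, 0, 0, 0, 0, 0, 1])]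

def M12 : List (List ℤ) := [[277477578013492780749715317120, -375822011670751348197949440000, -15265301668979798924328960000, -89087274619383787164794880000, 267802039818199070681333760000, -18605199385867361845333953600, 6460562140864466261114880000, -103817439111591143539454512800, 70050979762723414301736960000],
  [189381842424863591875706880000, 2998518207955785628968960000, 1232796468274220525598720000, -87459990702467438715770880000, 8458708443434471924029440000, 48295983742410470746982400000, 97009994584218588662200320000, -41839383890140513380587520000],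
  [771185453834151720035280000, 8764665091782234473926080000, -14909298431654839724920800000, 1739042551560490541769600000, -119577476398562766279360000, 985842319679897763313440000, -8523395556929618211937440000],
  [27109291869301613366419920000, -96002917720878983972633280000, 9063779249743870144550400000, -12845498455873881711426240000, 2741577069938723031335040000, -40097880511829979562704960000],
  [103062611157128176304857680000, -15011046337542563089272960000, 33571111505537853952729920000, -29053670460464357792189280000, 56544079364587186757411040000],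
  [1099198885512226186915920000, 2640516076022415249002400000, 2164959706696536804384960000, -11652539583840954398056800000],
  [18648494837189050498575120000, 8738914565133218704694400000, -26225423050970585718289440000],
  [12646348395524016595818480000, -9187322991700285124390880000],
  [33619007617968410997609600000]]

def u12 : List ℤ := [0, 0, 0, 0, 0, 106551389957181227807890681774080, -60022230740719645220583505920000, -180394565601960647135015731200000, 20990397768592185291785011200000, 45451642181967262050169651200000, -106551389957181227807890681774080, 60022230740719645220583505920000, 0, 0, -53275694978590613903945340887040, 42591217404207048048950015232000, 180394565601960647135015731200000, -1693873732061182417316605440000, -38611000287121628941556889600000, 0, 8930495705216333685760297728000, 0, -4614421772399991954244012800000, -615167303414666393952691200000, -78642174037642294716205999257600, 14588992453126387510228317926400,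 22838705008836853637340241920000, 18045159180746013961765747200000, -10339167598549959056082531840000, -33702817277515817086348008960000, -14588992453126387510228317926400, 0, 1618908034330122523876107417600, 77023266003312172192329891840000, 370169017840392825616934400000, 0, 0, 0, 0, 0, 0, 0, 0, 0, -7327344801110303483677900800000, 417370212374517730024704000000, 7927287638053346427365222400000, 4853450122902389407443609600000, 3144821240433514888949068800000, 0, 7327344801110303483677900800000, -417370212374517730024704000000, -834740424749035460049408000000, -2310080815684479428899660800000, -8414078488110945094969036800000, 3560628365208555687525427200000, -370169017840392825616934400000, -1669480849498070920098816000000, 1451723075262127740631910400000, 53275694978590613903945340887040, -68522748372015908706456698880000, 555253526760589238425401600000, 0, 0, 0, 0, 185084508920196412808467200000, -207903562387520399288179200000,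 -7327344801110303483677900800000, 3578231623597161533980992000000, 719644369909388550952550400000, 1519011578163870254064222720000, -33323850833846184490269081600000, -58581818494746663114850682880000, -2282217090386283834060211200000, -14039816613578680323515074560000, 8352375135563347841981629440000, -4621831369443877795934515200000, 51314532566848570180397201126400, 141285683319838870032371773440000, 3287154390351350600120739840000, 13379776591647916151569889280000, 9956289077324707034697292800000, 91585675472441535504399006720000, 39226167590536295335509580800000, -17315275599394006904812477440000, 217757774235943179466905600000, -180394565601960647135015731200000, 8700322694476867853933882880000, -7784748521061489436870978560000, 0, 16034703983233894459231960320000, 31484942197400787389094689280000, 1445451728926133302821699840000, 10344179654156247495390627840000, -6503643344433690368389002240000, -4911297985059912279095270400000,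 -41478820173206135872023029760000, -6060374063998477633672657920000, -44386100224497701429476792320000, 26405844363975803962061352960000, -1267447716490759319521152000000, -31484942197400787389094689280000, -5311669845077255534466170880000, 4554038341029320444962483200000, -12359936007189459491362560000000, 0, 27541577235048646045092848640000, 0, -10226301635654639140280371200000, 33702817277515817086348008960000, 207903562387520399288179200000, -4554038341029320444962483200000, 8019307064570369506796390400000, 13096418366138744971337149440000, -3108009079510457227701120000000, -8352375135563347841981629440000, 2403646929864752456665267200000, -14618112078460967024788385280000, -26481893133157476135174144000000, 3618025553879865815339520000000, -12196291982104664446995118080000, 0, -1039180659214337666104780800000, -938475132155511003472849920000, 527615465045868569719641600000, 0, -96651279007639325045746629120000, 0, 30542073186006022658708275200000,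 56669700339796988843685457920000, 39172191797501038886397096960000, 0, 0, -2783285129130830355290112000000, 0, -141285683319838870032371773440000, 5065603535197789541347622400000, -7927287638053346427365222400000, -1183484609543251704574771200000, 58581818494746663114850682880000, 2306628375705096985625932800000, -555253526760589238425401600000, 4621831369443877795934515200000, -10144454651931315822995911680000, 14618112078460967024788385280000, 938475132155511003472849920000, 7205302242020430282851020800000, -26405844363975803962061352960000, 38493965291356780380196761600000, 6060374063998477633672657920000, -53275694978590613903945340887040, 180394565601960647135015731200000, 0, 7327344801110303483677900800000, 0, 0, -2964323586569642562918069964800, -51521713109423381734710312960000, 0, 0, 68522748372015908706456698880000, 0, 17860991410432667371520595456000, -51314532566848570180397201126400, -32142308492822417583374705817600, 0,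 0, -45451642181967262050169651200000, -527615465045868569719641600000, -719644369909388550952550400000, 0, 0, -12283600115299287414208665600000, 10339167598549959056082531840000, -20990397768592185291785011200000, -4060180052848546523534131200000, 33323850833846184490269081600000, -185084508920196412808467200000, 0, 0, -3578231623597161533980992000000, -834740424749035460049408000000, 2282217090386283834060211200000, 263807732522934284859820800000, 6308295504461174371560618240000, 0, 5078851116733526281648289280000, -2277019170514660222481241600000, 0, -16034703983233894459231960320000, -41781119681708130980317501440000, -40883864189582867599105989120000, 1267447716490759319521152000000, -7205302242020430282851020800000, 14039816613578680323515074560000, 6503643344433690368389002240000, -10344179654156247495390627840000, 0, 5065603535197789541347622400000, 1039180659214337666104780800000, -1519011578163870254064222720000, -1445451728926133302821699840000,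 0, 0, 0, 0, 0, 0, 0, 0, 0, 0, 0, 0, 0, 0, 0, 0, 0, 0, 0, 0, 0, 0, 0, 0, 0, 0, 0, 0, 0, 0, 0, 0, 0, 0, 0, 0, 0, 0, 0, 0, 0, 0, 0, 0, 0, 0, 0, 0, 0, 0, 0, 0, 0, 0, 0, 0, 0, 0, 0, 0, 0, 0, 0, 0, 0, 0, 0, 0, 0, 0, 0, 0, 0, 0, 0, 0, 0, 0, 32142308492822417583374705817600, 0, 0, -8700322694476867853933882880000, 70486756640874722777419696435200, 0, 0, 0, 0, 0, 0, -70486756640874722777419696435200, 0, 0, 0, 0, 0, 2277019170514660222481241600000, -263807732522934284859820800000, 0, 0, -17001035262592526971746385920000, 0, 0, 0, 0, 0, 0, 0, 0, 0, 0, 0, 0, 0, 0, 0, 0, 0, 0, 0, 0, 0, 0, 0, 0, 0, 0, 0, 0, 0, 0, 0, 0, 0, 0, 0, 0, 0, 0, 0, 0, 0, 0, 0, 0, 0, 0, 0, 0, 0, 0, 0, 0, 0, 0, -14896667823863024808602525491200, 0, 17001035262592526971746385920000, 0, 0, 0, 0, 0, 0, 0, 0, 0, -35380124561482662631126920652800, 0, 0, 0, 35380124561482662631126920652800, 0, 0, 0, 0, 0, 53275694978590613903945340887040]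

theorem gr12 : eqM (gramT rows12) M12 = true := by
  decide +kernel

theorem mv12 : eqZ (mval M12 tab12) u12 = true := by
  decide +kernel

theorem nn12 (E : Env κ ι) : 0 ≤ dot (ek E keys) u12 0 :=
  block_nonneg E _ _ _ _ _ (tri12 E) rows12 M12 gr12 u12 mv12

end

end YMA
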