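import Pool.Agent.YM.YMA.T13_0
import Pool.Agent.YM.YMA.T13_1
import Pool.Agent.YM.YMA.T13_2
import Pool.Agent.YM.YMA.T13_3
import Pool.Agent.YM.YMA.T13_4
import Pool.Agent.YM.YMA.T13_5
import Pool.Agent.YM.YMA.T13_6
import Pool.Agent.YM.YMA.T13_7
import Pool.Agent.YM.YMA.T13_8
import Pool.Agent.YM.YMA.T13_9

set_option linter.unusedVariables false
set_option maxRecDepth 100000

open YMEng

namespace YMA

section

variable {κ ι : Type*} [Fintype κ] [Fintype ι] [Inhabited κ] [Inhabited ι]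

def r13_0_0 : List (ℕ × ℤ) := [(5, 128), (10, 128), (14, -256), (59, 128), (151, 128), (379, -256)]

theorem h13_0_0 (E : Env κ ι) : inn E 2 5 c13_0 c13_0 = dotS (ek E keys) r13_0_0 :=
  innS_eqZ E _ _ _ _ _ _ _ (chkF_sound E keys 2 5 _ _ _ _ t13_0_0_0) (by decide +kernel)

def r13_0_1 : List (ℕ × ℤ) := [(7, 512), (152, 512), (356, -1024)]

theorem h13_0_1 (E : Env κ ι) : inn E 2 5 c13_0 c13_1 = dotS (ek E keys) r13_0_1 :=
  innS_eqZ E _ _ _ _ _ _ _ (chkF_sound E keys 2 5 _ _ _ _ t13_0_1_0) (by decide +kernel)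

def r13_0_2 : List (ℕ × ℤ) := [(68, 512), (154, 512), (273, -1024)]

theorem h13_0_2 (E : Env κ ι) : inn E 2 5 c13_0 c13_2 = dotS (ek E keys) r13_0_2 :=
  innS_eqZ E _ _ _ _ _ _ _ (chkF_sound E keys 2 5 _ _ _ _ t13_0_2_0) (by decide +kernel)

def r13_0_3 : List (ℕ × ℤ) := [(15, 256), (20, 256), (156, 256), (163, -512), (357, -512), (358, -512), (372, 768)]

theorem h13_0_3 (E : Env κ ι) : inn E 2 5 c13_0 c13_3 = dotS (ek E keys) r13_0_3 :=
  innS_eqZ E _ _ _ _ _ _ _ (chkF_sound E keys 2 5 _ _ _ _ t13_0_3_0) (by decide +kernel)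

def r13_0_4 : List (ℕ × ℤ) := [(6, 384), (11, 384), (15, 256), (24, -256), (33, -256), (60, 128), (158, 256), (161, 128), (302, -512), (359, -512)]

theorem h13_0_4 (E : Env κ ι) : inn E 2 5 c13_0 c13_4 = dotS (ek E keys) r13_0_4 :=
  innS_eqZ E _ _ _ _ _ _ _ (chkF_sound E keys 2 5 _ _ _ _ t13_0_4_0) (by decide +kernel)

def r13_0_5 : List (ℕ × ℤ) := [(6, 128), (11, 128), (15, -256), (24, 256), (33, 256), (60, 384), (158, -256), (161, 384), (302, -512), (359, -512)]

theorem h13_0_5 (E : Env κ ι) : inn E 2 5 c13_0 c13_5 = dotS (ek E keys) r13_0_5 :=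
  innS_eqZ E _ _ _ _ _ _ _ (chkF_sound E keys 2 5 _ _ _ _ t13_0_5_0) (by decide +kernel)

def r13_0_6 : List (ℕ × ℤ) := [(15, -256), (20, -256), (156, 768), (163, -512), (357, -512), (358, 512), (372, 256)]

theorem h13_0_6 (E : Env κ ι) : inn E 2 5 c13_0 c13_6 = dotS (ek E keys) r13_0_6 :=
  innS_eqZ E _ _ _ _ _ _ _ (chkF_sound E keys 2 5 _ _ _ _ t13_0_6_0) (by decide +kernel)

def r13_0_7 : List (ℕ × ℤ) := [(24, -128), (25, 384), (30, 384), (32, -128), (78, -128), (157, 256), (164, -128), (165, 128), (281, 128), (285, -256), (292, -256), (357, 256), (369, -256), (373, -256)]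

theorem h13_0_7 (E : Env κ ι) : inn E 2 5 c13_0 c13_7 = dotS (ek E keys) r13_0_7 :=
  innS_eqZ E _ _ _ _ _ _ _ (chkF_sound E keys 2 5 _ _ _ _ t13_0_7_0) (by decide +kernel)

def r13_0_8 : List (ℕ × ℤ) := [(24, 128), (25, 128), (30, 128), (32, 128), (78, 128), (157, -256), (164, 128), (165, 384), (281, 384), (285, -256), (292, -256), (357, -256), (369, -256), (373, -256)]

theorem h13_0_8 (E : Env κ ι) : inn E 2 5 c13_0 c13_8 = dotS (ek E keys) r13_0_8 :=
  innS_eqZ E _ _ _ _ _ _ _ (chkF_sound E keys 2 5 _ _ _ _ t13_0_8_0) (by decide +kernel)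

def r13_0_9 : List (ℕ × ℤ) := [(24, 384), (25, -128), (30, -128), (32, 384), (78, -128), (157, -256), (164, -128), (165, 128), (281, 128), (285, -256), (292, -256), (357, -256), (369, 256), (373, 256)]

theorem h13_0_9 (E : Env κ ι) : inn E 2 5 c13_0 c13_9 = dotS (ek E keys) r13_0_9 :=
  innS_eqZ E _ _ _ _ _ _ _ (chkF_sound E keys 2 5 _ _ _ _ t13_0_9_0) (by decide +kernel)

def r13_1_1 : List (ℕ × ℤ) := [(9, 512), (79, 1024), (83, -1024), (125, -1024), (127, -1024), (136, 1024), (168, 512)]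

theorem h13_1_1 (E : Env κ ι) : inn E 2 5 c13_1 c13_1 = dotS (ek E keys) r13_1_1 :=
  innS_eqZ E _ _ _ _ _ _ _ (innS_add E _ _ _ _ _ _ _ _ (chkF_sound E keys 2 5 _ _ _ _ t13_1_1_0) (innS_add E _ _ _ _ _ _ _ _ (chkF_sound E keys 2 5 _ _ _ _ t13_1_1_1) (chkF_sound E keys 2 5 _ _ _ _ t13_1_1_2))) (by decide +kernel)

def r13_1_2 : List (ℕ × ℤ) := [(46, 1024), (58, -1024), (70, 512), (86, -1024), (126, -1024), (138, 1024), (170, 512)]

theorem h13_1_2 (E : Env κ ι) : inn E 2 5 c13_1 c13_2 = dotS (ek E keys) r13_1_2 :=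
  innS_eqZ E _ _ _ _ _ _ _ (innS_add E _ _ _ _ _ _ _ _ (chkF_sound E keys 2 5 _ _ _ _ t13_1_2_0) (innS_add E _ _ _ _ _ _ _ _ (chkF_sound E keys 2 5 _ _ _ _ t13_1_2_1) (chkF_sound E keys 2 5 _ _ _ _ t13_1_2_2))) (by decide +kernel)

def r13_1_3 : List (ℕ × ℤ) := [(18, 1024), (23, 1024), (107, -1024), (109, -1024), (129, -512), (172, 1024), (176, -512)]

theorem h13_1_3 (E : Env κ ι) : inn E 2 5 c13_1 c13_3 = dotS (ek E keys) r13_1_3 :=
  innS_eqZ E _ _ _ _ _ _ _ (innS_add E _ _ _ _ _ _ _ _ (chkF_sound E keys 2 5 _ _ _ _ t13_1_3_0) (innS_add E _ _ _ _ _ _ _ _ (chkF_sound E keys 2 5 _ _ _ _ t13_1_3_1) (chkF_sound E keys 2 5 _ _ _ _ t13_1_3_2))) (by decide +kernel)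

def r13_1_4 : List (ℕ × ℤ) := [(8, 512), (18, 1024), (81, -1024), (84, 1024), (112, -1024), (139, -1024), (175, 512)]

theorem h13_1_4 (E : Env κ ι) : inn E 2 5 c13_1 c13_4 = dotS (ek E keys) r13_1_4 :=
  innS_eqZ E _ _ _ _ _ _ _ (innS_add E _ _ _ _ _ _ _ _ (chkF_sound E keys 2 5 _ _ _ _ t13_1_4_0) (innS_add E _ _ _ _ _ _ _ _ (chkF_sound E keys 2 5 _ _ _ _ t13_1_4_1) (chkF_sound E keys 2 5 _ _ _ _ t13_1_4_2))) (by decide +kernel)

def r13_1_5 : List (ℕ × ℤ) := [(8, 512), (28, 1024), (99, -1024), (112, -1024), (130, -1024), (174, 1024), (175, 512)]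

theorem h13_1_5 (E : Env κ ι) : inn E 2 5 c13_1 c13_5 = dotS (ek E keys) r13_1_5 :=
  innS_eqZ E _ _ _ _ _ _ _ (innS_add E _ _ _ _ _ _ _ _ (chkF_sound E keys 2 5 _ _ _ _ t13_1_5_0) (innS_add E _ _ _ _ _ _ _ _ (chkF_sound E keys 2 5 _ _ _ _ t13_1_5_1) (chkF_sound E keys 2 5 _ _ _ _ t13_1_5_2))) (by decide +kernel)

def r13_1_6 : List (ℕ × ℤ) := [(99, -1024), (106, 2048), (129, -512), (172, 1024), (173, -1024), (176, -512)]

theorem h13_1_6 (E : Env κ ι) : inn E 2 5 c13_1 c13_6 = dotS (ek E keys) r13_1_6 :=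
  innS_eqZ E _ _ _ _ _ _ _ (innS_add E _ _ _ _ _ _ _ _ (chkF_sound E keys 2 5 _ _ _ _ t13_1_6_0) (innS_add E _ _ _ _ _ _ _ _ (chkF_sound E keys 2 5 _ _ _ _ t13_1_6_1) (chkF_sound E keys 2 5 _ _ _ _ t13_1_6_2))) (by decide +kernel)

def r13_1_7 : List (ℕ × ℤ) := [(29, 512), (73, -512), (81, -512), (85, 1024), (97, -512), (107, 1024), (110, 512), (121, -512), (131, -512), (140, -512), (177, 0)]

theorem h13_1_7 (E : Env κ ι) : inn E 2 5 c13_1 c13_7 = dotS (ek E keys) r13_1_7 :=
  innS_eqZ E _ _ _ _ _ _ _ (innS_add E _ _ _ _ _ _ _ _ (chkF_sound E keys 2 5 _ _ _ _ t13_1_7_0) (innS_add E _ _ _ _ _ _ _ _ (chkF_sound E keys 2 5 _ _ _ _ t13_1_7_1) (chkF_sound E keys 2 5 _ _ _ _ t13_1_7_2))) (by decide +kernel)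

def r13_1_8 : List (ℕ × ℤ) := [(28, 512), (29, 512), (72, 512), (97, -512), (99, -512), (110, 512), (119, -512), (129, -512), (130, -512), (131, -512), (174, 512), (177, 512)]

theorem h13_1_8 (E : Env κ ι) : inn E 2 5 c13_1 c13_8 = dotS (ek E keys) r13_1_8 :=
  innS_eqZ E _ _ _ _ _ _ _ (innS_add E _ _ _ _ _ _ _ _ (chkF_sound E keys 2 5 _ _ _ _ t13_1_8_0) (innS_add E _ _ _ _ _ _ _ _ (chkF_sound E keys 2 5 _ _ _ _ t13_1_8_1) (chkF_sound E keys 2 5 _ _ _ _ t13_1_8_2))) (by decide +kernel)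

def r13_1_9 : List (ℕ × ℤ) := [(28, 512), (73, -512), (81, 1024), (85, -512), (99, -512), (107, -512), (121, 1024), (130, -512), (140, -512), (174, 512), (177, 0)]

theorem h13_1_9 (E : Env κ ι) : inn E 2 5 c13_1 c13_9 = dotS (ek E keys) r13_1_9 :=
  innS_eqZ E _ _ _ _ _ _ _ (innS_add E _ _ _ _ _ _ _ _ (chkF_sound E keys 2 5 _ _ _ _ t13_1_9_0) (innS_add E _ _ _ _ _ _ _ _ (chkF_sound E keys 2 5 _ _ _ _ t13_1_9_1) (chkF_sound E keys 2 5 _ _ _ _ t13_1_9_2))) (by decide +kernel)

def r13_2_2 : List (ℕ × ℤ) := [(34, -1024), (56, -1024), (61, 1024), (66, 512), (132, -1024), (142, 1024), (178, 512)]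

theorem h13_2_2 (E : Env κ ι) : inn E 2 5 c13_2 c13_2 = dotS (ek E keys) r13_2_2 :=
  innS_eqZ E _ _ _ _ _ _ _ (innS_add E _ _ _ _ _ _ _ _ (chkF_sound E keys 2 5 _ _ _ _ t13_2_2_0) (innS_add E _ _ _ _ _ _ _ _ (chkF_sound E keys 2 5 _ _ _ _ t13_2_2_1) (chkF_sound E keys 2 5 _ _ _ _ t13_2_2_2))) (by decide +kernel)

def r13_2_3 : List (ℕ × ℤ) := [(45, 1024), (51, 1024), (52, -1024), (53, -1024), (134, -512), (180, 1024), (182, -512)]

theorem h13_2_3 (E : Env κ ι) : inn E 2 5 c13_2 c13_3 = dotS (ek E keys) r13_2_3 :=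
  innS_eqZ E _ _ _ _ _ _ _ (innS_add E _ _ _ _ _ _ _ _ (chkF_sound E keys 2 5 _ _ _ _ t13_2_3_0) (innS_add E _ _ _ _ _ _ _ _ (chkF_sound E keys 2 5 _ _ _ _ t13_2_3_1) (chkF_sound E keys 2 5 _ _ _ _ t13_2_3_2))) (by decide +kernel)

def r13_2_4 : List (ℕ × ℤ) := [(45, 2048), (47, -1024), (54, -1024), (69, 512), (135, -1024), (181, 512)]

theorem h13_2_4 (E : Env κ ι) : inn E 2 5 c13_2 c13_4 = dotS (ek E keys) r13_2_4 :=
  innS_eqZ E _ _ _ _ _ _ _ (innS_add E _ _ _ _ _ _ _ _ (chkF_sound E keys 2 5 _ _ _ _ t13_2_4_0) (innS_add E _ _ _ _ _ _ _ _ (chkF_sound E keys 2 5 _ _ _ _ t13_2_4_1) (chkF_sound E keys 2 5 _ _ _ _ t13_2_4_2))) (by decide +kernel)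

def r13_2_5 : List (ℕ × ℤ) := [(46, 1024), (58, -1024), (69, 512), (86, -1024), (135, -1024), (138, 1024), (181, 512)]

theorem h13_2_5 (E : Env κ ι) : inn E 2 5 c13_2 c13_5 = dotS (ek E keys) r13_2_5 :=
  innS_eqZ E _ _ _ _ _ _ _ (innS_add E _ _ _ _ _ _ _ _ (chkF_sound E keys 2 5 _ _ _ _ t13_2_5_0) (innS_add E _ _ _ _ _ _ _ _ (chkF_sound E keys 2 5 _ _ _ _ t13_2_5_1) (chkF_sound E keys 2 5 _ _ _ _ t13_2_5_2))) (by decide +kernel)

def r13_2_6 : List (ℕ × ℤ) := [(57, -1024), (86, -1024), (108, 2048), (134, -512), (180, 1024), (182, -512)]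

theorem h13_2_6 (E : Env κ ι) : inn E 2 5 c13_2 c13_6 = dotS (ek E keys) r13_2_6 :=
  innS_eqZ E _ _ _ _ _ _ _ (innS_add E _ _ _ _ _ _ _ _ (chkF_sound E keys 2 5 _ _ _ _ t13_2_6_0) (innS_add E _ _ _ _ _ _ _ _ (chkF_sound E keys 2 5 _ _ _ _ t13_2_6_1) (chkF_sound E keys 2 5 _ _ _ _ t13_2_6_2))) (by decide +kernel)

def r13_2_7 : List (ℕ × ℤ) := [(47, -512), (48, 512), (53, 512), (55, -512), (67, 512), (77, -512), (111, 512), (143, -512), (183, 0)]

theorem h13_2_7 (E : Env κ ι) : inn E 2 5 c13_2 c13_7 = dotS (ek E keys) r13_2_7 :=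
  innS_eqZ E _ _ _ _ _ _ _ (innS_add E _ _ _ _ _ _ _ _ (chkF_sound E keys 2 5 _ _ _ _ t13_2_7_0) (innS_add E _ _ _ _ _ _ _ _ (chkF_sound E keys 2 5 _ _ _ _ t13_2_7_1) (chkF_sound E keys 2 5 _ _ _ _ t13_2_7_2))) (by decide +kernel)

def r13_2_8 : List (ℕ × ℤ) := [(46, 512), (48, -512), (53, -512), (58, -512), (67, 512), (74, 512), (86, -512), (111, 512), (120, -512), (134, -512), (138, 512), (183, 512)]

theorem h13_2_8 (E : Env κ ι) : inn E 2 5 c13_2 c13_8 = dotS (ek E keys) r13_2_8 :=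
  innS_eqZ E _ _ _ _ _ _ _ (innS_add E _ _ _ _ _ _ _ _ (chkF_sound E keys 2 5 _ _ _ _ t13_2_8_0) (innS_add E _ _ _ _ _ _ _ _ (chkF_sound E keys 2 5 _ _ _ _ t13_2_8_1) (chkF_sound E keys 2 5 _ _ _ _ t13_2_8_2))) (by decide +kernel)

def r13_2_9 : List (ℕ × ℤ) := [(46, 512), (47, 1024), (48, -512), (53, -512), (55, 1024), (58, -512), (77, -512), (86, -512), (138, 512), (143, -512), (183, 0)]

theorem h13_2_9 (E : Env κ ι) : inn E 2 5 c13_2 c13_9 = dotS (ek E keys) r13_2_9 :=
  innS_eqZ E _ _ _ _ _ _ _ (innS_add E _ _ _ _ _ _ _ _ (chkF_sound E keys 2 5 _ _ _ _ t13_2_9_0) (innS_add E _ _ _ _ _ _ _ _ (chkF_sound E keys 2 5 _ _ _ _ t13_2_9_1) (chkF_sound E keys 2 5 _ _ _ _ t13_2_9_2))) (by decide +kernel)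

def r13_3_3 : List (ℕ × ℤ) := [(22, 768), (125, -256), (127, 512), (130, -1024), (137, 512), (140, 1024), (149, -512), (169, -256), (173, -1024), (184, 384), (185, 768), (187, -512), (191, -512), (199, -512), (201, 256), (299, 384)]

theorem h13_3_3 (E : Env κ ι) : inn E 2 5 c13_3 c13_3 = dotS (ek E keys) r13_3_3 :=
  innS_eqZ E _ _ _ _ _ _ _ (innS_add E _ _ _ _ _ _ _ _ (chkF_sound E keys 2 5 _ _ _ _ t13_3_3_0) (innS_add E _ _ _ _ _ _ _ _ (chkF_sound E keys 2 5 _ _ _ _ t13_3_3_1) (chkF_sound E keys 2 5 _ _ _ _ t13_3_3_2))) (by decide +kernel)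

def r13_3_4 : List (ℕ × ℤ) := [(17, 768), (18, 256), (22, 768), (23, 256), (96, -1024), (99, -512), (106, -512), (107, 512), (109, 512), (115, -1024), (116, 512), (147, -512), (173, -512), (186, 768), (194, -512), (195, 256)]

theorem h13_3_4 (E : Env κ ι) : inn E 2 5 c13_3 c13_4 = dotS (ek E keys) r13_3_4 :=
  innS_eqZ E _ _ _ _ _ _ _ (innS_add E _ _ _ _ _ _ _ _ (chkF_sound E keys 2 5 _ _ _ _ t13_3_4_0) (innS_add E _ _ _ _ _ _ _ _ (chkF_sound E keys 2 5 _ _ _ _ t13_3_4_1) (chkF_sound E keys 2 5 _ _ _ _ t13_3_4_2))) (by decide +kernel)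

def r13_3_5 : List (ℕ × ℤ) := [(17, 256), (18, 768), (22, 256), (23, 768), (99, -512), (106, 512), (107, -512), (109, -512), (116, -512), (147, -512), (173, -512), (186, 256), (194, -512), (195, 768)]

theorem h13_3_5 (E : Env κ ι) : inn E 2 5 c13_3 c13_5 = dotS (ek E keys) r13_3_5 :=
  innS_eqZ E _ _ _ _ _ _ _ (innS_add E _ _ _ _ _ _ _ _ (chkF_sound E keys 2 5 _ _ _ _ t13_3_5_0) (innS_add E _ _ _ _ _ _ _ _ (chkF_sound E keys 2 5 _ _ _ _ t13_3_5_1) (chkF_sound E keys 2 5 _ _ _ _ t13_3_5_2))) (by decide +kernel)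

def r13_3_6 : List (ℕ × ℤ) := [(22, 256), (125, 256), (127, -512), (137, -512), (140, 1024), (149, -512), (169, 256), (184, 128), (185, 256), (187, -512), (191, -512), (199, -512), (201, 768), (299, 128)]

theorem h13_3_6 (E : Env κ ι) : inn E 2 5 c13_3 c13_6 = dotS (ek E keys) r13_3_6 :=
  innS_eqZ E _ _ _ _ _ _ _ (innS_add E _ _ _ _ _ _ _ _ (chkF_sound E keys 2 5 _ _ _ _ t13_3_6_0) (innS_add E _ _ _ _ _ _ _ _ (chkF_sound E keys 2 5 _ _ _ _ t13_3_6_1) (chkF_sound E keys 2 5 _ _ _ _ t13_3_6_2))) (by decide +kernel)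

def r13_3_7 : List (ℕ × ℤ) := [(23, 128), (27, 128), (83, -256), (84, 128), (85, -256), (97, -256), (99, 768), (101, -256), (104, -256), (105, 256), (106, 768), (109, -256), (112, -256), (113, -512), (115, -512), (117, 256), (123, 256), (128, -256), (131, 256), (137, -256), (144, -256), (173, 768), (188, 128), (189, -256), (192, 128), (193, -256), (199, -256), (200, 256), (298, 128)]

theorem h13_3_7 (E : Env κ ι) : inn E 2 5 c13_3 c13_7 = dotS (ek E keys) r13_3_7 :=
  innS_eqZ E _ _ _ _ _ _ _ (innS_add E _ _ _ _ _ _ _ _ (chkF_sound E keys 2 5 _ _ _ _ t13_3_7_0) (innS_add E _ _ _ _ _ _ _ _ (chkF_sound E keys 2 5 _ _ _ _ t13_3_7_1) (chkF_sound E keys 2 5 _ _ _ _ t13_3_7_2))) (by decide +kernel)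

def r13_3_8 : List (ℕ × ℤ) := [(23, 384), (27, 384), (83, -256), (84, 384), (85, -256), (97, 256), (99, 256), (101, 256), (104, -256), (105, -256), (106, 256), (109, -256), (112, -256), (113, -512), (115, -512), (117, -256), (123, -256), (128, 256), (131, -256), (137, -256), (144, -256), (173, 256), (188, 384), (189, 256), (192, 384), (193, 256), (199, -256), (200, -256), (298, 384)]

theorem h13_3_8 (E : Env κ ι) : inn E 2 5 c13_3 c13_8 = dotS (ek E keys) r13_3_8 :=
  innS_eqZ E _ _ _ _ _ _ _ (innS_add E _ _ _ _ _ _ _ _ (chkF_sound E keys 2 5 _ _ _ _ t13_3_8_0) (innS_add E _ _ _ _ _ _ _ _ (chkF_sound E keys 2 5 _ _ _ _ t13_3_8_1) (chkF_sound E keys 2 5 _ _ _ _ t13_3_8_2))) (by decide +kernel)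

def r13_3_9 : List (ℕ × ℤ) := [(23, 128), (27, 128), (83, -256), (84, 128), (85, -256), (97, 768), (99, -256), (101, -256), (104, -256), (105, -256), (106, -256), (109, -256), (112, -256), (113, 512), (115, 512), (117, -256), (123, -256), (128, 768), (131, -256), (137, -256), (141, 512), (144, 256), (173, -256), (188, 128), (189, -256), (192, 128), (193, -256), (199, 256), (200, -256), (298, 128)]

theorem h13_3_9 (E : Env κ ι) : inn E 2 5 c13_3 c13_9 = dotS (ek E keys) r13_3_9 :=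
  innS_eqZ E _ _ _ _ _ _ _ (innS_add E _ _ _ _ _ _ _ _ (chkF_sound E keys 2 5 _ _ _ _ t13_3_9_0) (innS_add E _ _ _ _ _ _ _ _ (chkF_sound E keys 2 5 _ _ _ _ t13_3_9_1) (chkF_sound E keys 2 5 _ _ _ _ t13_3_9_2))) (by decide +kernel)

def r13_4_4 : List (ℕ × ℤ) := [(17, 768), (26, 512), (80, -512), (88, 128), (91, 384), (92, -256), (96, -1024), (100, -512), (102, -256), (103, 512), (113, -1024), (114, 512), (148, -512), (185, 768), (190, 384), (191, -512), (192, 512), (284, 128)]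

theorem h13_4_4 (E : Env κ ι) : inn E 2 5 c13_4 c13_4 = dotS (ek E keys) r13_4_4 :=
  innS_eqZ E _ _ _ _ _ _ _ (innS_add E _ _ _ _ _ _ _ _ (chkF_sound E keys 2 5 _ _ _ _ t13_4_4_0) (innS_add E _ _ _ _ _ _ _ _ (chkF_sound E keys 2 5 _ _ _ _ t13_4_4_1) (chkF_sound E keys 2 5 _ _ _ _ t13_4_4_2))) (by decide +kernel)

def r13_4_5 : List (ℕ × ℤ) := [(17, 256), (26, 512), (80, -512), (88, 384), (91, 128), (92, 256), (100, -512), (102, 256), (103, -512), (114, -512), (148, -512), (185, 256), (190, 128), (191, -512), (192, 512), (284, 384)]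

theorem h13_4_5 (E : Env κ ι) : inn E 2 5 c13_4 c13_5 = dotS (ek E keys) r13_4_5 :=
  innS_eqZ E _ _ _ _ _ _ _ (innS_add E _ _ _ _ _ _ _ _ (chkF_sound E keys 2 5 _ _ _ _ t13_4_5_0) (innS_add E _ _ _ _ _ _ _ _ (chkF_sound E keys 2 5 _ _ _ _ t13_4_5_1) (chkF_sound E keys 2 5 _ _ _ _ t13_4_5_2))) (by decide +kernel)

def r13_4_6 : List (ℕ × ℤ) := [(17, 256), (18, -256), (22, 256), (23, -256), (96, -1024), (99, 512), (106, 512), (107, -512), (109, -512), (115, -1024), (116, 1536), (147, -512), (173, 512), (186, 256), (194, -512), (195, 768)]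

theorem h13_4_6 (E : Env κ ι) : inn E 2 5 c13_4 c13_6 = dotS (ek E keys) r13_4_6 :=
  innS_eqZ E _ _ _ _ _ _ _ (innS_add E _ _ _ _ _ _ _ _ (chkF_sound E keys 2 5 _ _ _ _ t13_4_6_0) (innS_add E _ _ _ _ _ _ _ _ (chkF_sound E keys 2 5 _ _ _ _ t13_4_6_1) (chkF_sound E keys 2 5 _ _ _ _ t13_4_6_2))) (by decide +kernel)

def r13_4_7 : List (ℕ × ℤ) := [(26, 256), (27, 256), (28, 384), (29, -128), (73, -256), (75, 128), (80, -512), (81, -256), (82, 512), (85, -256), (95, -128), (97, -256), (99, 768), (101, -512), (107, -256), (110, -128), (117, 512), (121, -256), (124, 256), (130, 768), (131, -256), (140, -256), (146, 256), (147, -512), (149, -512), (174, 384), (195, 128), (196, -128)]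

theorem h13_4_7 (E : Env κ ι) : inn E 2 5 c13_4 c13_7 = dotS (ek E keys) r13_4_7 :=
  innS_eqZ E _ _ _ _ _ _ _ (innS_add E _ _ _ _ _ _ _ _ (chkF_sound E keys 2 5 _ _ _ _ t13_4_7_0) (innS_add E _ _ _ _ _ _ _ _ (chkF_sound E keys 2 5 _ _ _ _ t13_4_7_1) (chkF_sound E keys 2 5 _ _ _ _ t13_4_7_2))) (by decide +kernel)

def r13_4_8 : List (ℕ × ℤ) := [(26, 768), (27, 768), (28, 128), (29, 128), (73, -256), (75, 384), (80, -512), (81, -256), (82, -512), (85, -256), (95, 128), (97, 256), (99, 256), (101, 512), (107, -256), (110, 128), (117, -512), (121, -256), (124, -256), (130, 256), (131, 256), (140, -256), (146, -256), (147, -512), (149, -512), (174, 128), (195, 384), (196, 128)]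

theorem h13_4_8 (E : Env κ ι) : inn E 2 5 c13_4 c13_8 = dotS (ek E keys) r13_4_8 :=
  innS_eqZ E _ _ _ _ _ _ _ (innS_add E _ _ _ _ _ _ _ _ (chkF_sound E keys 2 5 _ _ _ _ t13_4_8_0) (innS_add E _ _ _ _ _ _ _ _ (chkF_sound E keys 2 5 _ _ _ _ t13_4_8_1) (chkF_sound E keys 2 5 _ _ _ _ t13_4_8_2))) (by decide +kernel)

def r13_4_9 : List (ℕ × ℤ) := [(26, 256), (27, 256), (28, -128), (29, 384), (73, -256), (75, 128), (80, 512), (81, -256), (82, -512), (85, -256), (95, -128), (97, 768), (99, -256), (101, -512), (107, -256), (110, 384), (117, -512), (121, -256), (124, -256), (130, -256), (131, 768), (140, -256), (146, -256), (147, 512), (149, 512), (174, -128), (195, 128), (196, -128)]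

theorem h13_4_9 (E : Env κ ι) : inn E 2 5 c13_4 c13_9 = dotS (ek E keys) r13_4_9 :=
  innS_eqZ E _ _ _ _ _ _ _ (innS_add E _ _ _ _ _ _ _ _ (chkF_sound E keys 2 5 _ _ _ _ t13_4_9_0) (innS_add E _ _ _ _ _ _ _ _ (chkF_sound E keys 2 5 _ _ _ _ t13_4_9_1) (chkF_sound E keys 2 5 _ _ _ _ t13_4_9_2))) (by decide +kernel)

def r13_5_5 : List (ℕ × ℤ) := [(17, -256), (26, 512), (80, 512), (88, 128), (91, 384), (92, 768), (96, -1024), (100, -512), (102, 768), (103, -512), (113, -1024), (114, -512), (148, -512), (185, -256), (190, 384), (191, 512), (192, 512), (284, 128)]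

theorem h13_5_5 (E : Env κ ι) : inn E 2 5 c13_5 c13_5 = dotS (ek E keys) r13_5_5 :=
  innS_eqZ E _ _ _ _ _ _ _ (innS_add E _ _ _ _ _ _ _ _ (chkF_sound E keys 2 5 _ _ _ _ t13_5_5_0) (innS_add E _ _ _ _ _ _ _ _ (chkF_sound E keys 2 5 _ _ _ _ t13_5_5_1) (chkF_sound E keys 2 5 _ _ _ _ t13_5_5_2))) (by decide +kernel)

def r13_5_6 : List (ℕ × ℤ) := [(17, -256), (18, 256), (22, -256), (23, 256), (99, -512), (106, 1536), (107, -512), (109, -512), (116, 512), (147, -512), (173, -512), (186, 768), (194, -512), (195, 256)]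

theorem h13_5_6 (E : Env κ ι) : inn E 2 5 c13_5 c13_6 = dotS (ek E keys) r13_5_6 :=
  innS_eqZ E _ _ _ _ _ _ _ (innS_add E _ _ _ _ _ _ _ _ (chkF_sound E keys 2 5 _ _ _ _ t13_5_6_0) (innS_add E _ _ _ _ _ _ _ _ (chkF_sound E keys 2 5 _ _ _ _ t13_5_6_1) (chkF_sound E keys 2 5 _ _ _ _ t13_5_6_2))) (by decide +kernel)

def r13_5_7 : List (ℕ × ℤ) := [(26, 256), (27, 256), (28, 128), (29, 128), (73, -256), (75, -128), (80, -512), (81, -256), (82, 512), (85, 256), (95, 128), (97, -256), (99, 256), (101, -512), (107, 256), (110, 128), (117, 512), (121, -256), (124, -256), (130, 256), (131, -256), (140, -256), (146, -256), (147, 512), (149, -512), (174, 128), (195, -128), (196, 128)]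

theorem h13_5_7 (E : Env κ ι) : inn E 2 5 c13_5 c13_7 = dotS (ek E keys) r13_5_7 :=
  innS_eqZ E _ _ _ _ _ _ _ (innS_add E _ _ _ _ _ _ _ _ (chkF_sound E keys 2 5 _ _ _ _ t13_5_7_0) (innS_add E _ _ _ _ _ _ _ _ (chkF_sound E keys 2 5 _ _ _ _ t13_5_7_1) (chkF_sound E keys 2 5 _ _ _ _ t13_5_7_2))) (by decide +kernel)

def r13_5_8 : List (ℕ × ℤ) := [(26, 256), (27, 256), (28, 384), (29, 384), (73, 256), (75, 128), (81, -256), (85, -256), (95, 384), (97, -256), (99, -256), (101, -512), (107, -256), (110, 384), (121, -256), (124, -256), (130, -256), (131, -256), (140, 256), (146, -256), (147, -512), (174, 384), (195, 128), (196, 384)]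

theorem h13_5_8 (E : Env κ ι) : inn E 2 5 c13_5 c13_8 = dotS (ek E keys) r13_5_8 :=
  innS_eqZ E _ _ _ _ _ _ _ (innS_add E _ _ _ _ _ _ _ _ (chkF_sound E keys 2 5 _ _ _ _ t13_5_8_0) (innS_add E _ _ _ _ _ _ _ _ (chkF_sound E keys 2 5 _ _ _ _ t13_5_8_1) (chkF_sound E keys 2 5 _ _ _ _ t13_5_8_2))) (by decide +kernel)

def r13_5_9 : List (ℕ × ℤ) := [(26, 256), (27, 256), (28, 128), (29, 128), (73, -256), (75, -128), (80, 512), (81, 256), (82, -512), (85, -256), (95, 128), (97, 256), (99, -256), (101, -512), (107, -256), (110, 128), (117, -512), (121, 256), (124, 256), (130, -256), (131, 256), (140, -256), (146, 256), (147, -512), (149, 512), (174, 128), (195, -128), (196, 128)]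

theorem h13_5_9 (E : Env κ ι) : inn E 2 5 c13_5 c13_9 = dotS (ek E keys) r13_5_9 :=
  innS_eqZ E _ _ _ _ _ _ _ (innS_add E _ _ _ _ _ _ _ _ (chkF_sound E keys 2 5 _ _ _ _ t13_5_9_0) (innS_add E _ _ _ _ _ _ _ _ (chkF_sound E keys 2 5 _ _ _ _ t13_5_9_1) (chkF_sound E keys 2 5 _ _ _ _ t13_5_9_2))) (by decide +kernel)

def r13_6_6 : List (ℕ × ℤ) := [(22, -256), (125, 768), (127, -512), (130, -1024), (137, -512), (140, 1024), (149, 512), (169, 768), (173, -1024), (184, 384), (185, -256), (187, -512), (191, 512), (199, -512), (201, 256), (299, 384)]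

theorem h13_6_6 (E : Env κ ι) : inn E 2 5 c13_6 c13_6 = dotS (ek E keys) r13_6_6 :=
  innS_eqZ E _ _ _ _ _ _ _ (innS_add E _ _ _ _ _ _ _ _ (chkF_sound E keys 2 5 _ _ _ _ t13_6_6_0) (innS_add E _ _ _ _ _ _ _ _ (chkF_sound E keys 2 5 _ _ _ _ t13_6_6_1) (chkF_sound E keys 2 5 _ _ _ _ t13_6_6_2))) (by decide +kernel)

def r13_6_7 : List (ℕ × ℤ) := [(23, -128), (27, 384), (83, 256), (84, -128), (85, -256), (97, -256), (99, 256), (101, -256), (104, -256), (105, 768), (106, 256), (109, -256), (112, -256), (113, -512), (115, -512), (117, 768), (123, -256), (128, 256), (131, -256), (137, 256), (141, -512), (144, 256), (173, 256), (188, -128), (189, 256), (192, 384), (193, -256), (199, 256), (200, -256), (298, -128)]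

theorem h13_6_7 (E : Env κ ι) : inn E 2 5 c13_6 c13_7 = dotS (ek E keys) r13_6_7 :=
  innS_eqZ E _ _ _ _ _ _ _ (innS_add E _ _ _ _ _ _ _ _ (chkF_sound E keys 2 5 _ _ _ _ t13_6_7_0) (innS_add E _ _ _ _ _ _ _ _ (chkF_sound E keys 2 5 _ _ _ _ t13_6_7_1) (chkF_sound E keys 2 5 _ _ _ _ t13_6_7_2))) (by decide +kernel)

def r13_6_8 : List (ℕ × ℤ) := [(23, 128), (27, 128), (83, -256), (84, 128), (85, -256), (97, -256), (99, -256), (101, -256), (104, 256), (105, 256), (106, 768), (109, -256), (112, 256), (117, 256), (123, -256), (128, 768), (131, -256), (137, -256), (141, -512), (144, -256), (173, -256), (188, 128), (189, 768), (192, 128), (193, -256), (199, -256), (200, -256), (298, 128)]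

theorem h13_6_8 (E : Env κ ι) : inn E 2 5 c13_6 c13_8 = dotS (ek E keys) r13_6_8 :=
  innS_eqZ E _ _ _ _ _ _ _ (innS_add E _ _ _ _ _ _ _ _ (chkF_sound E keys 2 5 _ _ _ _ t13_6_8_0) (innS_add E _ _ _ _ _ _ _ _ (chkF_sound E keys 2 5 _ _ _ _ t13_6_8_1) (chkF_sound E keys 2 5 _ _ _ _ t13_6_8_2))) (by decide +kernel)

def r13_6_9 : List (ℕ × ℤ) := [(23, 384), (27, -128), (83, -256), (84, 384), (85, 256), (97, 256), (99, -256), (101, -256), (104, -256), (105, -256), (106, 256), (109, 256), (112, -256), (113, 512), (115, 512), (117, -256), (123, 256), (128, 256), (131, -256), (137, -256), (144, -256), (173, -256), (188, -128), (189, 256), (192, -128), (193, -256), (199, -256), (200, 256), (298, -128)]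

theorem h13_6_9 (E : Env κ ι) : inn E 2 5 c13_6 c13_9 = dotS (ek E keys) r13_6_9 :=
  innS_eqZ E _ _ _ _ _ _ _ (innS_add E _ _ _ _ _ _ _ _ (chkF_sound E keys 2 5 _ _ _ _ t13_6_9_0) (innS_add E _ _ _ _ _ _ _ _ (chkF_sound E keys 2 5 _ _ _ _ t13_6_9_1) (chkF_sound E keys 2 5 _ _ _ _ t13_6_9_2))) (by decide +kernel)

def r13_7_7 : List (ℕ × ℤ) := [(29, -128), (71, -128), (73, -256), (76, 256), (79, 192), (80, -128), (81, -256), (82, 512), (83, 384), (85, -256), (89, 256), (92, -64), (93, -64), (94, 192), (96, -256), (97, -256), (98, 128), (100, -128), (102, -64), (105, 512), (107, -256), (110, -128), (113, -256), (114, 256), (116, 256), (118, -128), (121, -256), (123, -512), (127, 384), (131, -256), (136, 192), (140, -256), (144, 384), (145, -128), (148, -128), (150, 128), (187, 384), (191, -128), (197, 192), (201, -128), (202, -64)]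

theorem h13_7_7 (E : Env κ ι) : inn E 2 5 c13_7 c13_7 = dotS (ek E keys) r13_7_7 :=
  innS_eqZ E _ _ _ _ _ _ _ (innS_add E _ _ _ _ _ _ _ _ (chkF_sound E keys 2 5 _ _ _ _ t13_7_7_0) (innS_add E _ _ _ _ _ _ _ _ (chkF_sound E keys 2 5 _ _ _ _ t13_7_7_1) (innS_add E _ _ _ _ _ _ _ _ (chkF_sound E keys 2 5 _ _ _ _ t13_7_7_2) (innS_add E _ _ _ _ _ _ _ _ (chkF_sound E keys 2 5 _ _ _ _ t13_7_7_3) (innS_add E _ _ _ _ _ _ _ _ (chkF_sound E keys 2 5 _ _ _ _ t13_7_7_4) (chkF_sound E keys 2 5 _ _ _ _ t13_7_7_5)))))) (by decide +kernel)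

def r13_7_8 : List (ℕ × ℤ) := [(29, 128), (71, -128), (73, -256), (76, 256), (79, 64), (80, -128), (81, -256), (83, 128), (89, 256), (92, 64), (93, 64), (94, 64), (98, -128), (100, -128), (102, 64), (110, 128), (114, 256), (116, 256), (118, -128), (121, -256), (127, 128), (136, 64), (140, -256), (144, 128), (145, -128), (148, -128), (150, -128), (187, 128), (191, -128), (197, 64), (201, -128), (202, 64)]

theorem h13_7_8 (E : Env κ ι) : inn E 2 5 c13_7 c13_8 = dotS (ek E keys) r13_7_8 :=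
  innS_eqZ E _ _ _ _ _ _ _ (innS_add E _ _ _ _ _ _ _ _ (chkF_sound E keys 2 5 _ _ _ _ t13_7_8_0) (innS_add E _ _ _ _ _ _ _ _ (chkF_sound E keys 2 5 _ _ _ _ t13_7_8_1) (innS_add E _ _ _ _ _ _ _ _ (chkF_sound E keys 2 5 _ _ _ _ t13_7_8_2) (innS_add E _ _ _ _ _ _ _ _ (chkF_sound E keys 2 5 _ _ _ _ t13_7_8_3) (innS_add E _ _ _ _ _ _ _ _ (chkF_sound E keys 2 5 _ _ _ _ t13_7_8_4) (chkF_sound E keys 2 5 _ _ _ _ t13_7_8_5)))))) (by decide +kernel)

def r13_7_9 : List (ℕ × ℤ) := [(29, 128), (71, -128), (79, -64), (80, 128), (82, -256), (83, -128), (85, 512), (92, -64), (93, 192), (94, -64), (97, -256), (98, -128), (100, 128), (102, -64), (105, -256), (107, 512), (110, 128), (118, -128), (123, 512), (127, -128), (131, -256), (136, -64), (144, -128), (145, -128), (148, 128), (150, -128), (187, -128), (191, 128), (197, -64), (201, -128), (202, 192)]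

theorem h13_7_9 (E : Env κ ι) : inn E 2 5 c13_7 c13_9 = dotS (ek E keys) r13_7_9 :=
  innS_eqZ E _ _ _ _ _ _ _ (innS_add E _ _ _ _ _ _ _ _ (chkF_sound E keys 2 5 _ _ _ _ t13_7_9_0) (innS_add E _ _ _ _ _ _ _ _ (chkF_sound E keys 2 5 _ _ _ _ t13_7_9_1) (innS_add E _ _ _ _ _ _ _ _ (chkF_sound E keys 2 5 _ _ _ _ t13_7_9_2) (innS_add E _ _ _ _ _ _ _ _ (chkF_sound E keys 2 5 _ _ _ _ t13_7_9_3) (innS_add E _ _ _ _ _ _ _ _ (chkF_sound E keys 2 5 _ _ _ _ t13_7_9_4) (chkF_sound E keys 2 5 _ _ _ _ t13_7_9_5)))))) (by decide +kernel)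

def r13_8_8 : List (ℕ × ℤ) := [(29, 384), (71, 128), (73, 256), (76, 256), (79, 192), (80, 128), (81, -256), (83, -128), (85, -256), (92, 192), (93, 192), (94, 192), (96, -256), (97, -256), (98, -128), (100, -128), (102, 192), (107, -256), (110, 384), (113, -256), (116, 256), (118, -128), (121, -256), (123, -512), (127, -128), (131, -256), (136, 192), (140, 256), (144, -128), (145, -128), (148, -128), (150, -128), (187, -128), (191, 128), (197, 192), (201, 128), (202, 192)]

theorem h13_8_8 (E : Env κ ι) : inn E 2 5 c13_8 c13_8 = dotS (ek E keys) r13_8_8 :=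
  innS_eqZ E _ _ _ _ _ _ _ (innS_add E _ _ _ _ _ _ _ _ (chkF_sound E keys 2 5 _ _ _ _ t13_8_8_0) (innS_add E _ _ _ _ _ _ _ _ (chkF_sound E keys 2 5 _ _ _ _ t13_8_8_1) (innS_add E _ _ _ _ _ _ _ _ (chkF_sound E keys 2 5 _ _ _ _ t13_8_8_2) (innS_add E _ _ _ _ _ _ _ _ (chkF_sound E keys 2 5 _ _ _ _ t13_8_8_3) (innS_add E _ _ _ _ _ _ _ _ (chkF_sound E keys 2 5 _ _ _ _ t13_8_8_4) (chkF_sound E keys 2 5 _ _ _ _ t13_8_8_5)))))) (by decide +kernel)

def r13_8_9 : List (ℕ × ℤ) := [(29, 128), (71, -128), (73, 256), (76, -256), (79, 64), (80, 384), (82, 256), (83, -128), (92, 64), (93, 64), (94, 64), (96, -256), (97, -256), (98, -128), (100, -128), (102, 64), (105, 256), (110, 128), (113, -256), (116, -256), (118, 128), (127, -128), (131, -256), (136, 64), (140, 256), (144, -128), (145, 128), (148, -128), (150, -128), (187, -128), (191, 384), (197, 64), (201, -128), (202, 64)]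

theorem h13_8_9 (E : Env κ ι) : inn E 2 5 c13_8 c13_9 = dotS (ek E keys) r13_8_9 :=
  innS_eqZ E _ _ _ _ _ _ _ (innS_add E _ _ _ _ _ _ _ _ (chkF_sound E keys 2 5 _ _ _ _ t13_8_9_0) (innS_add E _ _ _ _ _ _ _ _ (chkF_sound E keys 2 5 _ _ _ _ t13_8_9_1) (innS_add E _ _ _ _ _ _ _ _ (chkF_sound E keys 2 5 _ _ _ _ t13_8_9_2) (innS_add E _ _ _ _ _ _ _ _ (chkF_sound E keys 2 5 _ _ _ _ t13_8_9_3) (innS_add E _ _ _ _ _ _ _ _ (chkF_sound E keys 2 5 _ _ _ _ t13_8_9_4) (chkF_sound E keys 2 5 _ _ _ _ t13_8_9_5)))))) (by decide +kernel)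

def r13_9_9 : List (ℕ × ℤ) := [(29, -128), (71, -128), (73, 256), (76, -256), (79, -64), (80, 128), (81, -256), (83, 128), (85, -256), (89, 256), (92, 192), (93, -64), (94, 192), (96, -256), (97, 256), (98, 128), (100, -128), (102, 192), (107, -256), (110, -128), (113, -256), (114, 256), (116, -256), (118, 384), (121, -256), (123, -512), (127, 128), (131, 256), (136, -64), (140, 256), (144, -128), (145, 384), (148, -128), (150, 128), (187, -128), (191, 128), (197, 192), (201, -128), (202, -64)]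

theorem h13_9_9 (E : Env κ ι) : inn E 2 5 c13_9 c13_9 = dotS (ek E keys) r13_9_9 :=
  innS_eqZ E _ _ _ _ _ _ _ (innS_add E _ _ _ _ _ _ _ _ (chkF_sound E keys 2 5 _ _ _ _ t13_9_9_0) (innS_add E _ _ _ _ _ _ _ _ (chkF_sound E keys 2 5 _ _ _ _ t13_9_9_1) (innS_add E _ _ _ _ _ _ _ _ (chkF_sound E keys 2 5 _ _ _ _ t13_9_9_2) (innS_add E _ _ _ _ _ _ _ _ (chkF_sound E keys 2 5 _ _ _ _ t13_9_9_3) (innS_add E _ _ _ _ _ _ _ _ (chkF_sound E keys 2 5 _ _ _ _ t13_9_9_4) (chkF_sound E keys 2 5 _ _ _ _ t13_9_9_5)))))) (by decide +kernel)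

theorem row13_0 (E : Env κ ι) : RowS E 2 5 (ek E keys) c13_0 [c13_0, c13_1, c13_2, c13_3, c13_4, c13_5, c13_6, c13_7, c13_8, c13_9] [r13_0_0, r13_0_1, r13_0_2, r13_0_3, r13_0_4, r13_0_5, r13_0_6, r13_0_7, r13_0_8, r13_0_9] :=
  rowS_cons E _ _ _ _ _ _ _ _ (h13_0_0 E) (rowS_cons E _ _ _ _ _ _ _ _ (h13_0_1 E) (rowS_cons E _ _ _ _ _ _ _ _ (h13_0_2 E) (rowS_cons E _ _ _ _ _ _ _ _ (h13_0_3 E) (rowS_cons E _ _ _ _ _ _ _ _ (h13_0_4 E) (rowS_cons E _ _ _ _ _ _ _ _ (h13_0_5 E) (rowS_cons E _ _ _ _ _ _ _ _ (h13_0_6 E) (rowS_cons E _ _ _ _ _ _ _ _ (h13_0_7 E) (rowS_cons E _ _ _ _ _ _ _ _ (h13_0_8 E) (rowS_cons E _ _ _ _ _ _ _ _ (h13_0_9 E) (rowS_nil E _ _ _ _))))))))))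

theorem row13_1 (E : Env κ ι) : RowS E 2 5 (ek E keys) c13_1 [c13_1, c13_2, c13_3, c13_4, c13_5, c13_6, c13_7, c13_8, c13_9] [r13_1_1, r13_1_2, r13_1_3, r13_1_4, r13_1_5, r13_1_6, r13_1_7, r13_1_8, r13_1_9] :=
  rowS_cons E _ _ _ _ _ _ _ _ (h13_1_1 E) (rowS_cons E _ _ _ _ _ _ _ _ (h13_1_2 E) (rowS_cons E _ _ _ _ _ _ _ _ (h13_1_3 E) (rowS_cons E _ _ _ _ _ _ _ _ (h13_1_4 E) (rowS_cons E _ _ _ _ _ _ _ _ (h13_1_5 E) (rowS_cons E _ _ _ _ _ _ _ _ (h13_1_6 E) (rowS_cons E _ _ _ _ _ _ _ _ (h13_1_7 E) (rowS_cons E _ _ _ _ _ _ _ _ (h13_1_8 E) (rowS_cons E _ _ _ _ _ _ _ _ (h13_1_9 E) (rowS_nil E _ _ _ _)))))))))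

theorem row13_2 (E : Env κ ι) : RowS E 2 5 (ek E keys) c13_2 [c13_2, c13_3, c13_4, c13_5, c13_6, c13_7, c13_8, c13_9] [r13_2_2, r13_2_3, r13_2_4, r13_2_5, r13_2_6, r13_2_7, r13_2_8, r13_2_9] :=
  rowS_cons E _ _ _ _ _ _ _ _ (h13_2_2 E) (rowS_cons E _ _ _ _ _ _ _ _ (h13_2_3 E) (rowS_cons E _ _ _ _ _ _ _ _ (h13_2_4 E) (rowS_cons E _ _ _ _ _ _ _ _ (h13_2_5 E) (rowS_cons E _ _ _ _ _ _ _ _ (h13_2_6 E) (rowS_cons E _ _ _ _ _ _ _ _ (h13_2_7 E) (rowS_cons E _ _ _ _ _ _ _ _ (h13_2_8 E) (rowS_cons E _ _ _ _ _ _ _ _ (h13_2_9 E) (rowS_nil E _ _ _ _))))))))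

theorem row13_3 (E : Env κ ι) : RowS E 2 5 (ek E keys) c13_3 [c13_3, c13_4, c13_5, c13_6, c13_7, c13_8, c13_9] [r13_3_3, r13_3_4, r13_3_5, r13_3_6, r13_3_7, r13_3_8, r13_3_9] :=
  rowS_cons E _ _ _ _ _ _ _ _ (h13_3_3 E) (rowS_cons E _ _ _ _ _ _ _ _ (h13_3_4 E) (rowS_cons E _ _ _ _ _ _ _ _ (h13_3_5 E) (rowS_cons E _ _ _ _ _ _ _ _ (h13_3_6 E) (rowS_cons E _ _ _ _ _ _ _ _ (h13_3_7 E) (rowS_cons E _ _ _ _ _ _ _ _ (h13_3_8 E) (rowS_cons E _ _ _ _ _ _ _ _ (h13_3_9 E) (rowS_nil E _ _ _ _)))))))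

theorem row13_4 (E : Env κ ι) : RowS E 2 5 (ek E keys) c13_4 [c13_4, c13_5, c13_6, c13_7, c13_8, c13_9] [r13_4_4, r13_4_5, r13_4_6, r13_4_7, r13_4_8, r13_4_9] :=
  rowS_cons E _ _ _ _ _ _ _ _ (h13_4_4 E) (rowS_cons E _ _ _ _ _ _ _ _ (h13_4_5 E) (rowS_cons E _ _ _ _ _ _ _ _ (h13_4_6 E) (rowS_cons E _ _ _ _ _ _ _ _ (h13_4_7 E) (rowS_cons E _ _ _ _ _ _ _ _ (h13_4_8 E) (rowS_cons E _ _ _ _ _ _ _ _ (h13_4_9 E) (rowS_nil E _ _ _ _))))))

theorem row13_5 (E : Env κ ι) : RowS E 2 5 (ek E keys) c13_5 [c13_5, c13_6, c13_7, c13_8, c13_9] [r13_5_5, r13_5_6, r13_5_7, r13_5_8, r13_5_9] :=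
  rowS_cons E _ _ _ _ _ _ _ _ (h13_5_5 E) (rowS_cons E _ _ _ _ _ _ _ _ (h13_5_6 E) (rowS_cons E _ _ _ _ _ _ _ _ (h13_5_7 E) (rowS_cons E _ _ _ _ _ _ _ _ (h13_5_8 E) (rowS_cons E _ _ _ _ _ _ _ _ (h13_5_9 E) (rowS_nil E _ _ _ _)))))

theorem row13_6 (E : Env κ ι) : RowS E 2 5 (ek E keys) c13_6 [c13_6, c13_7, c13_8, c13_9] [r13_6_6, r13_6_7, r13_6_8, r13_6_9] :=
  rowS_cons E _ _ _ _ _ _ _ _ (h13_6_6 E) (rowS_cons E _ _ _ _ _ _ _ _ (h13_6_7 E) (rowS_cons E _ _ _ _ _ _ _ _ (h13_6_8 E) (rowS_cons E _ _ _ _ _ _ _ _ (h13_6_9 E) (rowS_nil E _ _ _ _))))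

theorem row13_7 (E : Env κ ι) : RowS E 2 5 (ek E keys) c13_7 [c13_7, c13_8, c13_9] [r13_7_7, r13_7_8, r13_7_9] :=
  rowS_cons E _ _ _ _ _ _ _ _ (h13_7_7 E) (rowS_cons E _ _ _ _ _ _ _ _ (h13_7_8 E) (rowS_cons E _ _ _ _ _ _ _ _ (h13_7_9 E) (rowS_nil E _ _ _ _)))

theorem row13_8 (E : Env κ ι) : RowS E 2 5 (ek E keys) c13_8 [c13_8, c13_9] [r13_8_8, r13_8_9] :=
  rowS_cons E _ _ _ _ _ _ _ _ (h13_8_8 E) (rowS_cons E _ _ _ _ _ _ _ _ (h13_8_9 E) (rowS_nil E _ _ _ _))

theorem row13_9 (E : Env κ ι) : RowS E 2 5 (ek E keys) c13_9 [c13_9] [r13_9_9] :=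
  rowS_cons E _ _ _ _ _ _ _ _ (h13_9_9 E) (rowS_nil E _ _ _ _)

def tab13 : List (List (List (ℕ × ℤ))) := [[r13_0_0, r13_0_1, r13_0_2, r13_0_3, r13_0_4, r13_0_5, r13_0_6, r13_0_7, r13_0_8, r13_0_9], [r13_1_1, r13_1_2, r13_1_3, r13_1_4, r13_1_5, r13_1_6, r13_1_7, r13_1_8, r13_1_9], [r13_2_2, r13_2_3, r13_2_4, r13_2_5, r13_2_6, r13_2_7, r13_2_8, r13_2_9], [r13_3_3, r13_3_4, r13_3_5, r13_3_6, r13_3_7, r13_3_8, r13_3_9], [r13_4_4, r13_4_5, r13_4_6, r13_4_7, r13_4_8, r13_4_9], [r13_5_5, r13_5_6, r13_5_7, r13_5_8, r13_5_9], [r13_6_6, r13_6_7, r13_6_8, r13_6_9], [r13_7_7, r13_7_8, r13_7_9], [r13_8_8, r13_8_9], [r13_9_9]]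

theorem tri13 (E : Env κ ι) : TriS E 2 5 (ek E keys) [c13_0, c13_1, c13_2, c13_3, c13_4, c13_5, c13_6, c13_7, c13_8, c13_9] tab13 := by
  refine triS_cons E _ _ _ _ _ _ _ (row13_0 E) ?_
  refine triS_cons E _ _ _ _ _ _ _ (row13_1 E) ?_
  refine triS_cons E _ _ _ _ _ _ _ (row13_2 E) ?_
  refine triS_cons E _ _ _ _ _ _ _ (row13_3 E) ?_
  refine triS_cons E _ _ _ _ _ _ _ (row13_4 E) ?_
  refine triS_cons E _ _ _ _ _ _ _ (row13_5 E) ?_
  refine triS_cons E _ _ _ _ _ _ _ (row13_6 E) ?_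
  refine triS_cons E _ _ _ _ _ _ _ (row13_7 E) ?_
  refine triS_cons E _ _ _ _ _ _ _ (row13_8 E) ?_
  refine triS_cons E _ _ _ _ _ _ _ (row13_9 E) ?_
  exact triS_nil E _ _ _

def rows13 : List (ℕ × List ℤ) := [(591770812500000, [16777216, -5142114, -487204, -1028158, 3698009, -7249585, -1479663, 7766534, -3180584, 1847608]),
  (260957259360000, [0, 8388608, 908006, 5961951, 2464647, -7417064, -1442596, 306827, -3823926, -4056806]),
  (3626010360000, [0, 0, 8388608, -24102562, 23305894, 47921187, -1166161, -34937129, -36146298, -62972602]),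
  (921930660000, [0, 0, 0, 4194304, -3183867, -7732447, 40459, 5366005, 5000210, 9068382]),
  (279723780000, [0, 0, 0, 0, 4194304, 555452, -764281, -1172904, -4573086, -5784204]),
  (1534438080000, [0, 0, 0, 0, 0, 2097152, 151406, -1316944, -283508, -1200173]),
  (254288160000, [0, 0, 0, 0, 0, 0, 2097152, -565, 511443, 558452]),
  (438858000000, [0, 0, 0, 0, 0, 0, 0, 2097152, 498134, 1197631]),
  (154042560000, [0, 0, 0, 0, 0, 0, 0, 0, 4194304, 2678075]),
  (2476136777498524385280000, [0, 0, 0, 0, 0, 0, 0, 0, 0, 1]),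
  (9543739208653158970154400, [1, 0, 0, 0, 0, 0, 0, 0, 0, 0]),
  (1589791229329224499200000, [0, 1, 0, 0, 0, 0, 0, 0, 0, 0]),
  (1589791229329224499200000, [0, 0, 1, 0, 0, 0, 0, 0, 0, 0]),
  (1059859780514328084480000, [0, 0, 0, 1, 0, 0, 0, 0, 0, 0]),
  (1059859780514328084480000, [0, 0, 0, 0, 1, 0, 0, 0, 0, 0]),
  (1059859780514328084480000, [0, 0, 0, 0, 0, 1, 0, 0, 0, 0]),
  (1059859780514328084480000, [0, 0, 0, 0, 0, 0, 1, 0, 0, 0]),
  (1059859780514328084480000, [0, 0, 0, 0, 0, 0, 0, 1, 0, 0]),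
  (1271832983463379599360000, [0, 0, 0, 0, 0, 0, 0, 0, 1, 0]),
  (1271832983463379599360000, [0, 0, 0, 0, 0, 0, 0, 0, 0, 1])]

def M13 : List (List ℤ) := [[166578219405692131686970154400, -102104558838139060224000000000, -9674182541300465664000000000, -20415653757560291328000000000, 73429639546005356544000000000, -143951627323818639360000000000, -29380977909886353408000000000, 154216442453708242944000000000, -63155372706175647744000000000, 36687090123987222528000000000],
  [34012035534939462570684240000, 6940451762709839603530560000, 32359507033460194136273760000, -11715174496603380430691280000, 11647375365248369089857360000, 2689207945738448240741040000, -45923065126539024021504480000, 2615065864199925490650240000, -29005618177272391338418560000],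
  [612367594868711189995200000, 1951976552779540276315200000, 453430140519881901408480000, 3580597583026047418292640000, 98621387340125870797920000, -6458359164292668659342400000, -2177093082937263359500800000, -6818803592113464162301440000],
  [12025004861873301689316240000, -929234931779893478428080000, -22693417408156819831783920000, -2484120159173815293796560000, -2347873785850973071305600000, -1671523992434705316667200000, -3794312094886062611830080000],
  [11662654131113159289389400000, -33124344394800980340865440000, -8530902655807655834867520000, 28447694508537852157675800000, -24988808649290340359801520000, -7842010818822383949535440000],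
  [53847325415705313956027760000, 17875067641384236832140480000, -80052940610016649400283480000, 29456404601662107639748080000, -22172021727844177728871920000],
  [1846007759666592703075860000, -13536346613273660805811560000, 8757485884137343694402880000, 354555425881632891681360000],
  [40178121873433368766110540000, -20635598474100173415050640000, 32389210273601141764851600000],
  [14573007474956747759748960000, 17752192558148977006609440000],
  [20786917613854851304816320000]]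

def u13 : List ℤ := [0, 0, 0, 0, 0, 21322012083928592855932179763200, 9771173288217271074816000000000, -52277534125127198834688000000000, -34713155253765806506967040000, 17414162193889004836190330880000, 21322012083928592855932179763200, 9771173288217271074816000000000, 0, 0, -42644024167857185711864359526400, 57944727301670414843904000000000, 0, -26590924778970933596877096960000, 10233296201822411395982868480000, 0, 2295122982995471892480000000000, 0, -5156404693480677340927964160000, 23791329723722161154402257920000, -69385354051528987508736000000000, 46439278659963117895680000000000, -15963655600721737357201428480000, -38095547805224315900056765440000, 5370538346491927703121377280000, -32229183219365667089239211520000, 46439278659963117895680000000000, 0, -13735749732854044557312000000000, -55649604318674942951424000000000, -627064417145560258555084800000, 0, 0, 0, 0, 0, 0, 0, 0, 0, 0, 2927448917830967377031331840000, 6167655432407575819184209920000,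 -4140087450098700015655649280000, 1299219205508126137579438080000, 0, 0, 1998823990046249242946764800000, -1998823990046249242946764800000, -699604784538123105367326720000, -464312463892359067042283520000, -3675774986206340948613365760000, -627064417145560258555084800000, -100988300636288891697070080000, -6167655432407575819184209920000, 21322012083928592855932179763200, -45878431030457671876608000000000, 627064417145560258555084800000, 0, 0, 0, 0, 313532208572780129277542400000, -4421351550581725193647718400000, -4953181461145838419968000000000, 2065422194455515811686973440000, 3553511302507437877007646720000, -9714923055357621461451302400000, 1338913722470361851212922880000, 81789811905113092700294538240000, -1114671658463878840064409600000, 9897039959215024882897827840000, -1132436300214754611357926400000, 6797907331279940004681646080000, -32519539876335502491648000000000, 41752731059250851918746702080000, 75394475669953192988698606080000, 150923848279666222028620800000,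 18563690552414920285486417920000, -31461678838580425688674874880000, -10434643847143973363636352000000, -52850617104057347549890298880000, -6268643733043864710881280000000, 0, -4334470865610811875478932480000, 10324336899376139943904312320000, 0, 20915916063443768242609413120000, 31849532677648403149158800640000, 4930445301915792134043751680000, 12245857580619684180399018240000, -7609630831600680035565189120000, -81277339483473315984837504000000, -13209806774173731159802291200000, 2161437139799235450210240000000, -14551583615845343974271232000000, -21735420336737612963275507200000, 16190233084401366125856430080000, 31849532677648403149158800640000, -4638887367573081254795735040000, 7616764657843484827734005760000, 9377556211537688580213104640000, 19543995484099144650918144000000, -82942167614247370419860782080000, 201976601272577783394140160000, -23462621983756901076489308160000, -32229183219365667089239211520000, -4421351550581725193647718400000, 7686190968351016440747939840000,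 -83737134659214852831150750720000, 5685449531803058689108577280000, 16914566603637764147316142080000, 6059393280758401577259678720000, -5706996964131652394577684480000, 1741850144233273093810936320000, -1338913722470361851212922880000, 1114671658463878840064409600000, -11845414836242195338999249920000, 0, -19979851499724776261469880320000, 22963975233833200767661117440000, -37124926433742128424095278080000, -7107022605014875754015293440000, -21180485219922647780920174080000, 610324473287189270586009600000, -19283855791820066748244500480000, -17518972188082457979356037120000, -9852254661290928176204006400000, -627064417145560258555084800000, 0, 64765513122609772742492160000, -4130844388911031623373946880000, 41752731059250851918746702080000, 2685838456995878955003125760000, 6167655432407575819184209920000, 11996338684521861561027870720000, 93449989786575957697256371200000, 504088900736130303784243200000, 627064417145560258555084800000, 6797907331279940004681646080000,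 -3897493152530922007584192000000, 1741850144233273093810936320000, 22963975233833200767661117440000, -43192183197462703485762723840000, -21735420336737612963275507200000, 19909194373667677302557706240000, 2161437139799235450210240000000, 21322012083928592855932179763200, -52277534125127198834688000000000, 0, -4953181461145838419968000000000, 0, -27790998396728153997312000000000, 46255289609189547048960000000000, 55649604318674942951424000000000, 0, 0, -45878431030457671876608000000000, 0, 25495875413732682104832000000000, -32519539876335502491648000000000, 183989050773570846720000000000, 0, 0, 17414162193889004836190330880000, -2296602045964118751714616320000, 3553511302507437877007646720000, 0, 35889884138699409794063155200000, -25440445276676589710534215680000, 5370538346491927703121377280000, -34713155253765806506967040000, -17944942069349704897031577600000, 1338913722470361851212922880000, 313532208572780129277542400000, 0, 2099812290682538134643834880000,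 2065422194455515811686973440000, -1049906145341269067321917440000, -1114671658463878840064409600000, 5008501466297071089072606720000, -5181138112099153755558067200000, 5020973584601229924988354560000, -3987216719849740972432320000000, 1380162459326492156850662400000, 4495700058450517385100011520000, 20915916063443768242609413120000, 47605727306619832545078428160000, 11030998191163334191405624320000, 2277111601038595734066124800000, 7310585525432387744224788480000, -9745104676250980530540103680000, -7609630831600680035565189120000, 12245857580619684180399018240000, 0, -11570454314144046032113704960000, 2112352884860862684232120320000, -8071748106488898642634682880000, 4930445301915792134043751680000, 0, 0, 0, 0, 0, 0, 0, 0, 0, 0, 0, 0, 0, 0, 0, 0, 0, 0, 0, 0, 0, 0, 0, 0, 0, 0, 0, 0, 0, 0, 0, 0, 0, 0, 0, 0, 0, 0, 0, 0, 0, 0, 0, 0, 0, 0, 0, 0, 0, 0, 0, 0, 0, 0, 0, 0, 0, 0, 0, 0, 0, 0, 0, 0, 0, 0, 0, 0, 0, 0, 9906362922291676839936000000000, 0, 0, 0, 0,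 0, 0, 0, 183989050773570846720000000000, 0, 0, -4334470865610811875478932480000, -32703528927109073338368000000000, 0, 0, 0, 0, 0, 0, -32703528927109073338368000000000, 0, 0, 0, 0, 0, 1380162459326492156850662400000, 5008501466297071089072606720000, 0, 0, 36107257742240400801792000000000, 0, 0, 0, 0, 0, 0, 0, 0, 0, 0, 0, 0, 0, 0, 0, 0, 0, 0, 0, 0, 0, 0, 0, 0, 0, 0, 0, 0, 0, 0, 0, 0, 0, 0, 0, 0, 0, 0, 0, 0, 0, 0, 0, 0, 0, 0, 0, 0, 0, 0, 0, 0, 0, 104555068250254397669376000000000, 71751165022922229153792000000000, -4590245965990943784960000000000, 36107257742240400801792000000000, 0, 0, 0, 0, 0, 0, 0, 0, 0, -13919738783627615404032000000000, 0, 0, -23200752430737210212352000000000, -13919738783627615404032000000000, 0, 0, 0, 0, 0, -42644024167857185711864359526400]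

theorem gr13 : eqM (gramT rows13) M13 = true := by
  decide +kernel

theorem mv13 : eqZ (mval M13 tab13) u13 = true := by
  decide +kernel

theorem nn13 (E : Env κ ι) : 0 ≤ dot (ek E keys) u13 0 :=
  block_nonneg E _ _ _ _ _ (tri13 E) rows13 M13 gr13 u13 mv13

end

end YMA
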