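import Pool.Agent.YM.YMA.T14_0
import Pool.Agent.YM.YMA.T14_1
import Pool.Agent.YM.YMA.T14_2
import Pool.Agent.YM.YMA.T14_3
import Pool.Agent.YM.YMA.T14_4
import Pool.Agent.YM.YMA.T14_5
import Pool.Agent.YM.YMA.T14_6
import Pool.Agent.YM.YMA.T14_7
import Pool.Agent.YM.YMA.T14_8

set_option linter.unusedVariables false
set_option maxRecDepth 100000

open YMEng

namespace YMA

section

variable {κ ι : Type*} [Fintype κ] [Fintype ι] [Inhabited κ] [Inhabited ι]

def r14_0_0 : List (ℕ × ℤ) := [(5, -128), (10, 128), (14, 256), (59, 128), (151, -128), (379, -256)]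

theorem h14_0_0 (E : Env κ ι) : inn E 2 5 c14_0 c14_0 = dotS (ek E keys) r14_0_0 :=
  innS_eqZ E _ _ _ _ _ _ _ (chkF_sound E keys 2 5 _ _ _ _ t14_0_0_0) (by decide +kernel)

def r14_0_1 : List (ℕ × ℤ) := [(7, 256), (16, 512), (87, -512), (152, -256), (356, 0)]

theorem h14_0_1 (E : Env κ ι) : inn E 2 5 c14_0 c14_1 = dotS (ek E keys) r14_0_1 :=
  innS_eqZ E _ _ _ _ _ _ _ (chkF_sound E keys 2 5 _ _ _ _ t14_0_1_0) (by decide +kernel)

def r14_0_2 : List (ℕ × ℤ) := [(44, -512), (50, 512), (68, 256), (154, -256), (273, 0)]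

theorem h14_0_2 (E : Env κ ι) : inn E 2 5 c14_0 c14_2 = dotS (ek E keys) r14_0_2 :=
  innS_eqZ E _ _ _ _ _ _ _ (chkF_sound E keys 2 5 _ _ _ _ t14_0_2_0) (by decide +kernel)

def r14_0_3 : List (ℕ × ℤ) := [(6, 384), (11, -384), (15, 256), (24, -256), (33, 256), (60, -128), (158, -256), (161, 128), (302, 512), (359, -512)]

theorem h14_0_3 (E : Env κ ι) : inn E 2 5 c14_0 c14_3 = dotS (ek E keys) r14_0_3 :=
  innS_eqZ E _ _ _ _ _ _ _ (chkF_sound E keys 2 5 _ _ _ _ t14_0_3_0) (by decide +kernel)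

def r14_0_4 : List (ℕ × ℤ) := [(6, 128), (11, -128), (15, -256), (24, 256), (33, -256), (60, -384), (158, 256), (161, 384), (302, 512), (359, -512)]

theorem h14_0_4 (E : Env κ ι) : inn E 2 5 c14_0 c14_4 = dotS (ek E keys) r14_0_4 :=
  innS_eqZ E _ _ _ _ _ _ _ (chkF_sound E keys 2 5 _ _ _ _ t14_0_4_0) (by decide +kernel)

def r14_0_5 : List (ℕ × ℤ) := [(15, -512), (20, 512), (163, -512), (357, 512), (372, 0)]

theorem h14_0_5 (E : Env κ ι) : inn E 2 5 c14_0 c14_5 = dotS (ek E keys) r14_0_5 :=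
  innS_eqZ E _ _ _ _ _ _ _ (chkF_sound E keys 2 5 _ _ _ _ t14_0_5_0) (by decide +kernel)

def r14_0_6 : List (ℕ × ℤ) := [(24, -128), (25, 384), (30, -384), (32, 128), (78, -128), (157, -256), (164, 128), (165, 128), (281, -128), (285, 256), (292, -256), (357, 256), (369, 256), (373, -256)]

theorem h14_0_6 (E : Env κ ι) : inn E 2 5 c14_0 c14_6 = dotS (ek E keys) r14_0_6 :=
  innS_eqZ E _ _ _ _ _ _ _ (chkF_sound E keys 2 5 _ _ _ _ t14_0_6_0) (by decide +kernel)

def r14_0_7 : List (ℕ × ℤ) := [(24, 128), (25, 128), (30, -128), (32, -128), (78, 128), (157, 256), (164, -128), (165, 384), (281, -384), (285, 256), (292, -256), (357, -256), (369, 256), (373, -256)]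

theorem h14_0_7 (E : Env κ ι) : inn E 2 5 c14_0 c14_7 = dotS (ek E keys) r14_0_7 :=
  innS_eqZ E _ _ _ _ _ _ _ (chkF_sound E keys 2 5 _ _ _ _ t14_0_7_0) (by decide +kernel)

def r14_0_8 : List (ℕ × ℤ) := [(24, -384), (25, 128), (30, -128), (32, 384), (78, 128), (157, -256), (164, -128), (165, -128), (281, 128), (285, -256), (292, 256), (357, 256), (369, 256), (373, -256)]

theorem h14_0_8 (E : Env κ ι) : inn E 2 5 c14_0 c14_8 = dotS (ek E keys) r14_0_8 :=
  innS_eqZ E _ _ _ _ _ _ _ (chkF_sound E keys 2 5 _ _ _ _ t14_0_8_0) (by decide +kernel)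

def r14_1_1 : List (ℕ × ℤ) := [(9, 256), (83, -1024), (127, 1024), (168, -256)]

theorem h14_1_1 (E : Env κ ι) : inn E 2 5 c14_1 c14_1 = dotS (ek E keys) r14_1_1 :=
  innS_eqZ E _ _ _ _ _ _ _ (innS_add E _ _ _ _ _ _ _ _ (chkF_sound E keys 2 5 _ _ _ _ t14_1_1_0) (chkF_sound E keys 2 5 _ _ _ _ t14_1_1_1)) (by decide +kernel)

def r14_1_2 : List (ℕ × ℤ) := [(58, 1024), (70, 256), (86, -1024), (170, -256)]

theorem h14_1_2 (E : Env κ ι) : inn E 2 5 c14_1 c14_2 = dotS (ek E keys) r14_1_2 :=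
  innS_eqZ E _ _ _ _ _ _ _ (innS_add E _ _ _ _ _ _ _ _ (chkF_sound E keys 2 5 _ _ _ _ t14_1_2_0) (chkF_sound E keys 2 5 _ _ _ _ t14_1_2_1)) (by decide +kernel)

def r14_1_3 : List (ℕ × ℤ) := [(8, 256), (18, -512), (28, -512), (84, 512), (99, 1024), (130, -1024), (174, 512), (175, -256)]

theorem h14_1_3 (E : Env κ ι) : inn E 2 5 c14_1 c14_3 = dotS (ek E keys) r14_1_3 :=
  innS_eqZ E _ _ _ _ _ _ _ (innS_add E _ _ _ _ _ _ _ _ (chkF_sound E keys 2 5 _ _ _ _ t14_1_3_0) (chkF_sound E keys 2 5 _ _ _ _ t14_1_3_1)) (by decide +kernel)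

def r14_1_4 : List (ℕ × ℤ) := [(8, -256), (18, -512), (28, -512), (81, 1024), (84, 512), (139, -1024), (174, 512), (175, 256)]

theorem h14_1_4 (E : Env κ ι) : inn E 2 5 c14_1 c14_4 = dotS (ek E keys) r14_1_4 :=
  innS_eqZ E _ _ _ _ _ _ _ (innS_add E _ _ _ _ _ _ _ _ (chkF_sound E keys 2 5 _ _ _ _ t14_1_4_0) (chkF_sound E keys 2 5 _ _ _ _ t14_1_4_1)) (by decide +kernel)

def r14_1_5 : List (ℕ × ℤ) := [(18, -512), (23, 512), (99, -512), (107, 512), (109, -512), (129, 512), (173, 512), (176, -512)]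

theorem h14_1_5 (E : Env κ ι) : inn E 2 5 c14_1 c14_5 = dotS (ek E keys) r14_1_5 :=
  innS_eqZ E _ _ _ _ _ _ _ (innS_add E _ _ _ _ _ _ _ _ (chkF_sound E keys 2 5 _ _ _ _ t14_1_5_0) (chkF_sound E keys 2 5 _ _ _ _ t14_1_5_1)) (by decide +kernel)

def r14_1_6 : List (ℕ × ℤ) := [(28, -256), (29, 256), (72, -256), (85, 512), (99, 512), (107, -512), (110, -256), (119, -512), (129, 512), (130, -512), (174, 256), (177, 256)]

theorem h14_1_6 (E : Env κ ι) : inn E 2 5 c14_1 c14_6 = dotS (ek E keys) r14_1_6 :=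
  innS_eqZ E _ _ _ _ _ _ _ (innS_add E _ _ _ _ _ _ _ _ (chkF_sound E keys 2 5 _ _ _ _ t14_1_6_0) (chkF_sound E keys 2 5 _ _ _ _ t14_1_6_1)) (by decide +kernel)

def r14_1_7 : List (ℕ × ℤ) := [(28, -256), (29, -256), (72, -256), (73, 512), (81, 512), (85, 512), (107, -512), (110, 256), (121, -512), (140, -512), (174, 256), (177, 256)]

theorem h14_1_7 (E : Env κ ι) : inn E 2 5 c14_1 c14_7 = dotS (ek E keys) r14_1_7 :=
  innS_eqZ E _ _ _ _ _ _ _ (innS_add E _ _ _ _ _ _ _ _ (chkF_sound E keys 2 5 _ _ _ _ t14_1_7_0) (chkF_sound E keys 2 5 _ _ _ _ t14_1_7_1)) (by decide +kernel)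

def r14_1_8 : List (ℕ × ℤ) := [(28, -256), (29, 256), (72, 256), (81, -512), (97, -512), (110, -256), (119, -512), (121, 512), (129, 512), (131, 512), (174, 256), (177, -256)]

theorem h14_1_8 (E : Env κ ι) : inn E 2 5 c14_1 c14_8 = dotS (ek E keys) r14_1_8 :=
  innS_eqZ E _ _ _ _ _ _ _ (innS_add E _ _ _ _ _ _ _ _ (chkF_sound E keys 2 5 _ _ _ _ t14_1_8_0) (chkF_sound E keys 2 5 _ _ _ _ t14_1_8_1)) (by decide +kernel)

def r14_2_2 : List (ℕ × ℤ) := [(34, -1024), (56, 1024), (66, 256), (178, -256)]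

theorem h14_2_2 (E : Env κ ι) : inn E 2 5 c14_2 c14_2 = dotS (ek E keys) r14_2_2 :=
  innS_eqZ E _ _ _ _ _ _ _ (innS_add E _ _ _ _ _ _ _ _ (chkF_sound E keys 2 5 _ _ _ _ t14_2_2_0) (chkF_sound E keys 2 5 _ _ _ _ t14_2_2_1)) (by decide +kernel)

def r14_2_3 : List (ℕ × ℤ) := [(46, -512), (58, -1024), (69, 256), (86, 1024), (138, 512), (181, -256)]

theorem h14_2_3 (E : Env κ ι) : inn E 2 5 c14_2 c14_3 = dotS (ek E keys) r14_2_3 :=
  innS_eqZ E _ _ _ _ _ _ _ (innS_add E _ _ _ _ _ _ _ _ (chkF_sound E keys 2 5 _ _ _ _ t14_2_3_0) (chkF_sound E keys 2 5 _ _ _ _ t14_2_3_1)) (by decide +kernel)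

def r14_2_4 : List (ℕ × ℤ) := [(46, -512), (47, 1024), (54, -1024), (69, -256), (138, 512), (181, 256)]

theorem h14_2_4 (E : Env κ ι) : inn E 2 5 c14_2 c14_4 = dotS (ek E keys) r14_2_4 :=
  innS_eqZ E _ _ _ _ _ _ _ (innS_add E _ _ _ _ _ _ _ _ (chkF_sound E keys 2 5 _ _ _ _ t14_2_4_0) (chkF_sound E keys 2 5 _ _ _ _ t14_2_4_1)) (by decide +kernel)

def r14_2_5 : List (ℕ × ℤ) := [(45, -512), (51, 512), (52, -512), (53, 512), (57, 512), (86, -512), (134, 512), (182, -512)]

theorem h14_2_5 (E : Env κ ι) : inn E 2 5 c14_2 c14_5 = dotS (ek E keys) r14_2_5 :=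
  innS_eqZ E _ _ _ _ _ _ _ (innS_add E _ _ _ _ _ _ _ _ (chkF_sound E keys 2 5 _ _ _ _ t14_2_5_0) (chkF_sound E keys 2 5 _ _ _ _ t14_2_5_1)) (by decide +kernel)

def r14_2_6 : List (ℕ × ℤ) := [(46, -256), (48, 512), (53, -512), (58, -512), (67, 256), (74, -256), (86, 512), (111, -256), (120, -512), (134, 512), (138, 256), (183, 256)]

theorem h14_2_6 (E : Env κ ι) : inn E 2 5 c14_2 c14_6 = dotS (ek E keys) r14_2_6 :=
  innS_eqZ E _ _ _ _ _ _ _ (innS_add E _ _ _ _ _ _ _ _ (chkF_sound E keys 2 5 _ _ _ _ t14_2_6_0) (chkF_sound E keys 2 5 _ _ _ _ t14_2_6_1)) (by decide +kernel)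

def r14_2_7 : List (ℕ × ℤ) := [(46, -256), (47, 512), (48, 512), (53, -512), (55, -512), (67, -256), (74, -256), (77, 512), (111, 256), (138, 256), (143, -512), (183, 256)]

theorem h14_2_7 (E : Env κ ι) : inn E 2 5 c14_2 c14_7 = dotS (ek E keys) r14_2_7 :=
  innS_eqZ E _ _ _ _ _ _ _ (innS_add E _ _ _ _ _ _ _ _ (chkF_sound E keys 2 5 _ _ _ _ t14_2_7_0) (chkF_sound E keys 2 5 _ _ _ _ t14_2_7_1)) (by decide +kernel)

def r14_2_8 : List (ℕ × ℤ) := [(46, -256), (47, -512), (48, -512), (53, 512), (55, 512), (67, 256), (74, 256), (111, -256), (120, -512), (134, 512), (138, 256), (183, -256)]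

theorem h14_2_8 (E : Env κ ι) : inn E 2 5 c14_2 c14_8 = dotS (ek E keys) r14_2_8 :=
  innS_eqZ E _ _ _ _ _ _ _ (innS_add E _ _ _ _ _ _ _ _ (chkF_sound E keys 2 5 _ _ _ _ t14_2_8_0) (chkF_sound E keys 2 5 _ _ _ _ t14_2_8_1)) (by decide +kernel)

def r14_3_3 : List (ℕ × ℤ) := [(17, -768), (26, -512), (80, 512), (88, -128), (91, 384), (92, -256), (96, 1024), (100, -512), (102, 256), (103, -512), (113, -1024), (114, 512), (148, 512), (185, 768), (190, -384), (191, -512), (192, 512), (284, 128)]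

theorem h14_3_3 (E : Env κ ι) : inn E 2 5 c14_3 c14_3 = dotS (ek E keys) r14_3_3 :=
  innS_eqZ E _ _ _ _ _ _ _ (innS_add E _ _ _ _ _ _ _ _ (chkF_sound E keys 2 5 _ _ _ _ t14_3_3_0) (innS_add E _ _ _ _ _ _ _ _ (chkF_sound E keys 2 5 _ _ _ _ t14_3_3_1) (chkF_sound E keys 2 5 _ _ _ _ t14_3_3_2))) (by decide +kernel)

def r14_3_4 : List (ℕ × ℤ) := [(17, -256), (26, -512), (80, 512), (88, -384), (91, 128), (92, 256), (100, -512), (102, -256), (103, 512), (114, -512), (148, 512), (185, 256), (190, -128), (191, -512), (192, 512), (284, 384)]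

theorem h14_3_4 (E : Env κ ι) : inn E 2 5 c14_3 c14_4 = dotS (ek E keys) r14_3_4 :=
  innS_eqZ E _ _ _ _ _ _ _ (innS_add E _ _ _ _ _ _ _ _ (chkF_sound E keys 2 5 _ _ _ _ t14_3_4_0) (innS_add E _ _ _ _ _ _ _ _ (chkF_sound E keys 2 5 _ _ _ _ t14_3_4_1) (chkF_sound E keys 2 5 _ _ _ _ t14_3_4_2))) (by decide +kernel)

def r14_3_5 : List (ℕ × ℤ) := [(18, 512), (23, -512), (107, -1024), (109, 1024), (147, 512), (194, -512), (195, 0)]

theorem h14_3_5 (E : Env κ ι) : inn E 2 5 c14_3 c14_5 = dotS (ek E keys) r14_3_5 :=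
  innS_eqZ E _ _ _ _ _ _ _ (innS_add E _ _ _ _ _ _ _ _ (chkF_sound E keys 2 5 _ _ _ _ t14_3_5_0) (innS_add E _ _ _ _ _ _ _ _ (chkF_sound E keys 2 5 _ _ _ _ t14_3_5_1) (chkF_sound E keys 2 5 _ _ _ _ t14_3_5_2))) (by decide +kernel)

def r14_3_6 : List (ℕ × ℤ) := [(28, 384), (29, -128), (73, 256), (75, -128), (81, -256), (85, -256), (95, -128), (97, 256), (99, -768), (107, 256), (110, 128), (121, 256), (124, -256), (130, 768), (131, -256), (140, -256), (146, 256), (174, -384), (195, 128), (196, 128)]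

theorem h14_3_6 (E : Env κ ι) : inn E 2 5 c14_3 c14_6 = dotS (ek E keys) r14_3_6 :=
  innS_eqZ E _ _ _ _ _ _ _ (innS_add E _ _ _ _ _ _ _ _ (chkF_sound E keys 2 5 _ _ _ _ t14_3_6_0) (innS_add E _ _ _ _ _ _ _ _ (chkF_sound E keys 2 5 _ _ _ _ t14_3_6_1) (chkF_sound E keys 2 5 _ _ _ _ t14_3_6_2))) (by decide +kernel)

def r14_3_7 : List (ℕ × ℤ) := [(28, 128), (29, 128), (73, 256), (75, -384), (81, -256), (85, -256), (95, 128), (97, -256), (99, -256), (107, 256), (110, -128), (121, 256), (124, 256), (130, 256), (131, 256), (140, -256), (146, -256), (174, -128), (195, 384), (196, -128)]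

theorem h14_3_7 (E : Env κ ι) : inn E 2 5 c14_3 c14_7 = dotS (ek E keys) r14_3_7 :=
  innS_eqZ E _ _ _ _ _ _ _ (innS_add E _ _ _ _ _ _ _ _ (chkF_sound E keys 2 5 _ _ _ _ t14_3_7_0) (innS_add E _ _ _ _ _ _ _ _ (chkF_sound E keys 2 5 _ _ _ _ t14_3_7_1) (chkF_sound E keys 2 5 _ _ _ _ t14_3_7_2))) (by decide +kernel)

def r14_3_8 : List (ℕ × ℤ) := [(28, 128), (29, -384), (73, -256), (75, 128), (81, 256), (85, 256), (95, 128), (97, 768), (99, -256), (107, -256), (110, 384), (121, -256), (124, -256), (130, 256), (131, -768), (140, 256), (146, 256), (174, -128), (195, -128), (196, -128)]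

theorem h14_3_8 (E : Env κ ι) : inn E 2 5 c14_3 c14_8 = dotS (ek E keys) r14_3_8 :=
  innS_eqZ E _ _ _ _ _ _ _ (innS_add E _ _ _ _ _ _ _ _ (chkF_sound E keys 2 5 _ _ _ _ t14_3_8_0) (innS_add E _ _ _ _ _ _ _ _ (chkF_sound E keys 2 5 _ _ _ _ t14_3_8_1) (chkF_sound E keys 2 5 _ _ _ _ t14_3_8_2))) (by decide +kernel)

def r14_4_4 : List (ℕ × ℤ) := [(17, 256), (26, -512), (80, -512), (88, -128), (91, 384), (92, 768), (96, 1024), (100, -512), (102, -768), (103, 512), (113, -1024), (114, -512), (148, 512), (185, -256), (190, -384), (191, 512), (192, 512), (284, 128)]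

theorem h14_4_4 (E : Env κ ι) : inn E 2 5 c14_4 c14_4 = dotS (ek E keys) r14_4_4 :=
  innS_eqZ E _ _ _ _ _ _ _ (innS_add E _ _ _ _ _ _ _ _ (chkF_sound E keys 2 5 _ _ _ _ t14_4_4_0) (innS_add E _ _ _ _ _ _ _ _ (chkF_sound E keys 2 5 _ _ _ _ t14_4_4_1) (chkF_sound E keys 2 5 _ _ _ _ t14_4_4_2))) (by decide +kernel)

def r14_4_5 : List (ℕ × ℤ) := [(17, 512), (22, -512), (96, 1024), (99, -512), (107, -512), (109, 512), (115, -1024), (147, -512), (173, 512), (194, 512), (195, 0)]

theorem h14_4_5 (E : Env κ ι) : inn E 2 5 c14_4 c14_5 = dotS (ek E keys) r14_4_5 :=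
  innS_eqZ E _ _ _ _ _ _ _ (innS_add E _ _ _ _ _ _ _ _ (chkF_sound E keys 2 5 _ _ _ _ t14_4_5_0) (innS_add E _ _ _ _ _ _ _ _ (chkF_sound E keys 2 5 _ _ _ _ t14_4_5_1) (chkF_sound E keys 2 5 _ _ _ _ t14_4_5_2))) (by decide +kernel)

def r14_4_6 : List (ℕ × ℤ) := [(26, 512), (27, -512), (28, 128), (29, 128), (73, 256), (75, 128), (81, -256), (82, -1024), (85, 256), (95, 128), (97, 256), (99, -256), (107, -256), (110, -128), (117, 1024), (121, 256), (124, 256), (130, 256), (131, -256), (140, -256), (146, -256), (174, -128), (195, -128), (196, -128)]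

theorem h14_4_6 (E : Env κ ι) : inn E 2 5 c14_4 c14_6 = dotS (ek E keys) r14_4_6 :=
  innS_eqZ E _ _ _ _ _ _ _ (innS_add E _ _ _ _ _ _ _ _ (chkF_sound E keys 2 5 _ _ _ _ t14_4_6_0) (innS_add E _ _ _ _ _ _ _ _ (chkF_sound E keys 2 5 _ _ _ _ t14_4_6_1) (chkF_sound E keys 2 5 _ _ _ _ t14_4_6_2))) (by decide +kernel)

def r14_4_7 : List (ℕ × ℤ) := [(28, 384), (29, 384), (73, -256), (75, -128), (80, -512), (81, -256), (82, -512), (85, -256), (95, 384), (97, 256), (99, 256), (107, 256), (110, -384), (117, 512), (121, 256), (124, 256), (130, -256), (131, -256), (140, 256), (146, -256), (149, 512), (174, -384), (195, 128), (196, -384)]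

theorem h14_4_7 (E : Env κ ι) : inn E 2 5 c14_4 c14_7 = dotS (ek E keys) r14_4_7 :=
  innS_eqZ E _ _ _ _ _ _ _ (innS_add E _ _ _ _ _ _ _ _ (chkF_sound E keys 2 5 _ _ _ _ t14_4_7_0) (innS_add E _ _ _ _ _ _ _ _ (chkF_sound E keys 2 5 _ _ _ _ t14_4_7_1) (chkF_sound E keys 2 5 _ _ _ _ t14_4_7_2))) (by decide +kernel)

def r14_4_8 : List (ℕ × ℤ) := [(26, 512), (27, -512), (28, -128), (29, -128), (73, -256), (75, -128), (80, 1024), (81, -256), (85, 256), (95, -128), (97, 256), (99, -256), (107, -256), (110, 128), (121, 256), (124, 256), (130, 256), (131, -256), (140, 256), (146, -256), (149, -1024), (174, 128), (195, 128), (196, 128)]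

theorem h14_4_8 (E : Env κ ι) : inn E 2 5 c14_4 c14_8 = dotS (ek E keys) r14_4_8 :=
  innS_eqZ E _ _ _ _ _ _ _ (innS_add E _ _ _ _ _ _ _ _ (chkF_sound E keys 2 5 _ _ _ _ t14_4_8_0) (innS_add E _ _ _ _ _ _ _ _ (chkF_sound E keys 2 5 _ _ _ _ t14_4_8_1) (chkF_sound E keys 2 5 _ _ _ _ t14_4_8_2))) (by decide +kernel)

def r14_5_5 : List (ℕ × ℤ) := [(22, -256), (125, -256), (127, -256), (130, -512), (137, 256), (149, -768), (169, 256), (173, 512), (184, 256), (185, 256), (187, 512), (191, 768), (199, -512), (299, -256)]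

theorem h14_5_5 (E : Env κ ι) : inn E 2 5 c14_5 c14_5 = dotS (ek E keys) r14_5_5 :=
  innS_eqZ E _ _ _ _ _ _ _ (innS_add E _ _ _ _ _ _ _ _ (chkF_sound E keys 2 5 _ _ _ _ t14_5_5_0) (innS_add E _ _ _ _ _ _ _ _ (chkF_sound E keys 2 5 _ _ _ _ t14_5_5_1) (innS_add E _ _ _ _ _ _ _ _ (chkF_sound E keys 2 5 _ _ _ _ t14_5_5_2) (innS_add E _ _ _ _ _ _ _ _ (chkF_sound E keys 2 5 _ _ _ _ t14_5_5_3) (chkF_sound E keys 2 5 _ _ _ _ t14_5_5_4))))) (by decide +kernel)

def r14_5_6 : List (ℕ × ℤ) := [(23, -256), (84, 256), (85, 256), (97, 256), (101, 256), (104, 256), (109, -256), (112, -256), (123, -512), (131, -512), (141, 256), (188, 256), (193, -256), (200, 512), (298, -256)]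

theorem h14_5_6 (E : Env κ ι) : inn E 2 5 c14_5 c14_6 = dotS (ek E keys) r14_5_6 :=
  innS_eqZ E _ _ _ _ _ _ _ (innS_add E _ _ _ _ _ _ _ _ (chkF_sound E keys 2 5 _ _ _ _ t14_5_6_0) (innS_add E _ _ _ _ _ _ _ _ (chkF_sound E keys 2 5 _ _ _ _ t14_5_6_1) (innS_add E _ _ _ _ _ _ _ _ (chkF_sound E keys 2 5 _ _ _ _ t14_5_6_2) (innS_add E _ _ _ _ _ _ _ _ (chkF_sound E keys 2 5 _ _ _ _ t14_5_6_3) (chkF_sound E keys 2 5 _ _ _ _ t14_5_6_4))))) (by decide +kernel)

def r14_5_7 : List (ℕ × ℤ) := [(83, -256), (85, -256), (97, 512), (99, 512), (101, 512), (109, 256), (113, -256), (115, 256), (123, -256), (131, -256), (137, 256), (141, -256), (144, -256), (173, -512), (193, -512), (199, 256), (200, 256), (298, 0)]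

theorem h14_5_7 (E : Env κ ι) : inn E 2 5 c14_5 c14_7 = dotS (ek E keys) r14_5_7 :=
  innS_eqZ E _ _ _ _ _ _ _ (innS_add E _ _ _ _ _ _ _ _ (chkF_sound E keys 2 5 _ _ _ _ t14_5_7_0) (innS_add E _ _ _ _ _ _ _ _ (chkF_sound E keys 2 5 _ _ _ _ t14_5_7_1) (innS_add E _ _ _ _ _ _ _ _ (chkF_sound E keys 2 5 _ _ _ _ t14_5_7_2) (innS_add E _ _ _ _ _ _ _ _ (chkF_sound E keys 2 5 _ _ _ _ t14_5_7_3) (chkF_sound E keys 2 5 _ _ _ _ t14_5_7_4))))) (by decide +kernel)

def r14_5_8 : List (ℕ × ℤ) := [(27, -256), (83, -256), (99, -256), (101, -256), (104, 256), (105, 256), (112, -256), (113, 512), (115, -512), (117, -256), (131, -256), (137, 256), (141, 256), (144, 512), (173, 256), (188, 256), (192, 256), (193, 256), (199, -512), (298, -256)]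

theorem h14_5_8 (E : Env κ ι) : inn E 2 5 c14_5 c14_8 = dotS (ek E keys) r14_5_8 :=
  innS_eqZ E _ _ _ _ _ _ _ (innS_add E _ _ _ _ _ _ _ _ (chkF_sound E keys 2 5 _ _ _ _ t14_5_8_0) (innS_add E _ _ _ _ _ _ _ _ (chkF_sound E keys 2 5 _ _ _ _ t14_5_8_1) (innS_add E _ _ _ _ _ _ _ _ (chkF_sound E keys 2 5 _ _ _ _ t14_5_8_2) (innS_add E _ _ _ _ _ _ _ _ (chkF_sound E keys 2 5 _ _ _ _ t14_5_8_3) (chkF_sound E keys 2 5 _ _ _ _ t14_5_8_4))))) (by decide +kernel)

def r14_6_6 : List (ℕ × ℤ) := [(29, -128), (71, 128), (73, 256), (76, -256), (79, 192), (80, 128), (81, -256), (83, -384), (85, 256), (89, -256), (92, -64), (93, -64), (94, 192), (96, -256), (97, -256), (98, 128), (100, -128), (102, 64), (107, -256), (110, 128), (113, 256), (114, 256), (116, 256), (118, 128), (121, 256), (127, 384), (131, 256), (136, -192), (140, -256), (144, -384), (145, -128), (148, 128), (150, -128), (187, 384), (191, -128), (197, -192), (201, -128), (202, 64)]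

theorem h14_6_6 (E : Env κ ι) : inn E 2 5 c14_6 c14_6 = dotS (ek E keys) r14_6_6 :=
  innS_eqZ E _ _ _ _ _ _ _ (innS_add E _ _ _ _ _ _ _ _ (chkF_sound E keys 2 5 _ _ _ _ t14_6_6_0) (innS_add E _ _ _ _ _ _ _ _ (chkF_sound E keys 2 5 _ _ _ _ t14_6_6_1) (innS_add E _ _ _ _ _ _ _ _ (chkF_sound E keys 2 5 _ _ _ _ t14_6_6_2) (innS_add E _ _ _ _ _ _ _ _ (chkF_sound E keys 2 5 _ _ _ _ t14_6_6_3) (innS_add E _ _ _ _ _ _ _ _ (chkF_sound E keys 2 5 _ _ _ _ t14_6_6_4) (chkF_sound E keys 2 5 _ _ _ _ t14_6_6_5)))))) (by decide +kernel)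

def r14_6_7 : List (ℕ × ℤ) := [(29, 128), (71, 128), (73, 256), (76, -256), (79, 64), (80, 128), (81, -256), (82, -512), (83, -128), (89, -256), (92, 64), (93, 64), (94, 64), (98, -128), (100, -128), (102, -64), (105, 512), (110, -128), (114, 256), (116, 256), (118, 128), (121, 256), (127, 128), (136, -64), (140, -256), (144, -128), (145, -128), (148, 128), (150, 128), (187, 128), (191, -128), (197, -64), (201, -128), (202, -64)]

theorem h14_6_7 (E : Env κ ι) : inn E 2 5 c14_6 c14_7 = dotS (ek E keys) r14_6_7 :=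
  innS_eqZ E _ _ _ _ _ _ _ (innS_add E _ _ _ _ _ _ _ _ (chkF_sound E keys 2 5 _ _ _ _ t14_6_7_0) (innS_add E _ _ _ _ _ _ _ _ (chkF_sound E keys 2 5 _ _ _ _ t14_6_7_1) (innS_add E _ _ _ _ _ _ _ _ (chkF_sound E keys 2 5 _ _ _ _ t14_6_7_2) (innS_add E _ _ _ _ _ _ _ _ (chkF_sound E keys 2 5 _ _ _ _ t14_6_7_3) (innS_add E _ _ _ _ _ _ _ _ (chkF_sound E keys 2 5 _ _ _ _ t14_6_7_4) (chkF_sound E keys 2 5 _ _ _ _ t14_6_7_5)))))) (by decide +kernel)

def r14_6_8 : List (ℕ × ℤ) := [(29, -128), (71, -128), (79, 64), (80, 128), (82, 256), (83, -128), (85, 512), (92, 64), (93, -192), (94, 64), (97, 256), (98, 128), (100, -128), (102, -64), (105, -256), (107, -512), (110, 128), (118, -128), (127, 128), (131, -256), (136, -64), (144, -128), (145, 128), (148, 128), (150, -128), (187, 128), (191, -128), (197, -64), (201, 128), (202, 192)]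

theorem h14_6_8 (E : Env κ ι) : inn E 2 5 c14_6 c14_8 = dotS (ek E keys) r14_6_8 :=
  innS_eqZ E _ _ _ _ _ _ _ (innS_add E _ _ _ _ _ _ _ _ (chkF_sound E keys 2 5 _ _ _ _ t14_6_8_0) (innS_add E _ _ _ _ _ _ _ _ (chkF_sound E keys 2 5 _ _ _ _ t14_6_8_1) (innS_add E _ _ _ _ _ _ _ _ (chkF_sound E keys 2 5 _ _ _ _ t14_6_8_2) (innS_add E _ _ _ _ _ _ _ _ (chkF_sound E keys 2 5 _ _ _ _ t14_6_8_3) (innS_add E _ _ _ _ _ _ _ _ (chkF_sound E keys 2 5 _ _ _ _ t14_6_8_4) (chkF_sound E keys 2 5 _ _ _ _ t14_6_8_5)))))) (by decide +kernel)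

def r14_7_7 : List (ℕ × ℤ) := [(29, 384), (71, -128), (73, -256), (76, -256), (79, 192), (80, -128), (81, -256), (82, -512), (83, 128), (85, 256), (92, 192), (93, 192), (94, 192), (96, -256), (97, -256), (98, -128), (100, -128), (102, -192), (105, 512), (107, -256), (110, -384), (113, 256), (116, 256), (118, 128), (121, 256), (127, -128), (131, 256), (136, -192), (140, 256), (144, 128), (145, -128), (148, 128), (150, 128), (187, -128), (191, 128), (197, -192), (201, 128), (202, -192)]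

theorem h14_7_7 (E : Env κ ι) : inn E 2 5 c14_7 c14_7 = dotS (ek E keys) r14_7_7 :=
  innS_eqZ E _ _ _ _ _ _ _ (innS_add E _ _ _ _ _ _ _ _ (chkF_sound E keys 2 5 _ _ _ _ t14_7_7_0) (innS_add E _ _ _ _ _ _ _ _ (chkF_sound E keys 2 5 _ _ _ _ t14_7_7_1) (innS_add E _ _ _ _ _ _ _ _ (chkF_sound E keys 2 5 _ _ _ _ t14_7_7_2) (innS_add E _ _ _ _ _ _ _ _ (chkF_sound E keys 2 5 _ _ _ _ t14_7_7_3) (innS_add E _ _ _ _ _ _ _ _ (chkF_sound E keys 2 5 _ _ _ _ t14_7_7_4) (chkF_sound E keys 2 5 _ _ _ _ t14_7_7_5)))))) (by decide +kernel)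

def r14_7_8 : List (ℕ × ℤ) := [(29, -128), (71, -128), (73, 256), (76, -256), (79, -64), (80, 384), (82, 256), (83, -128), (92, -64), (93, -64), (94, -64), (96, 256), (97, 256), (98, 128), (100, 128), (102, 64), (105, -256), (110, 128), (113, -256), (116, 256), (118, 128), (127, 128), (131, -256), (136, 64), (140, -256), (144, -128), (145, -128), (148, -128), (150, -128), (187, 128), (191, -384), (197, 64), (201, 128), (202, 64)]

theorem h14_7_8 (E : Env κ ι) : inn E 2 5 c14_7 c14_8 = dotS (ek E keys) r14_7_8 :=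
  innS_eqZ E _ _ _ _ _ _ _ (innS_add E _ _ _ _ _ _ _ _ (chkF_sound E keys 2 5 _ _ _ _ t14_7_8_0) (innS_add E _ _ _ _ _ _ _ _ (chkF_sound E keys 2 5 _ _ _ _ t14_7_8_1) (innS_add E _ _ _ _ _ _ _ _ (chkF_sound E keys 2 5 _ _ _ _ t14_7_8_2) (innS_add E _ _ _ _ _ _ _ _ (chkF_sound E keys 2 5 _ _ _ _ t14_7_8_3) (innS_add E _ _ _ _ _ _ _ _ (chkF_sound E keys 2 5 _ _ _ _ t14_7_8_4) (chkF_sound E keys 2 5 _ _ _ _ t14_7_8_5)))))) (by decide +kernel)

def r14_8_8 : List (ℕ × ℤ) := [(29, -128), (71, 128), (73, -256), (76, 256), (79, -64), (80, -128), (81, -256), (82, -512), (83, -128), (85, 256), (89, -256), (92, 192), (93, -64), (94, 192), (96, -256), (97, 256), (98, 128), (100, -128), (102, -192), (105, 512), (107, -256), (110, 128), (113, 256), (114, 256), (116, -256), (118, -384), (121, 256), (127, 128), (131, -256), (136, 64), (140, 256), (144, 128), (145, 384), (148, 128), (150, -128), (187, -128), (191, 128), (197, -192), (201, -128), (202, 64)]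

theorem h14_8_8 (E : Env κ ι) : inn E 2 5 c14_8 c14_8 = dotS (ek E keys) r14_8_8 :=
  innS_eqZ E _ _ _ _ _ _ _ (innS_add E _ _ _ _ _ _ _ _ (chkF_sound E keys 2 5 _ _ _ _ t14_8_8_0) (innS_add E _ _ _ _ _ _ _ _ (chkF_sound E keys 2 5 _ _ _ _ t14_8_8_1) (innS_add E _ _ _ _ _ _ _ _ (chkF_sound E keys 2 5 _ _ _ _ t14_8_8_2) (innS_add E _ _ _ _ _ _ _ _ (chkF_sound E keys 2 5 _ _ _ _ t14_8_8_3) (innS_add E _ _ _ _ _ _ _ _ (chkF_sound E keys 2 5 _ _ _ _ t14_8_8_4) (chkF_sound E keys 2 5 _ _ _ _ t14_8_8_5)))))) (by decide +kernel)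

theorem row14_0 (E : Env κ ι) : RowS E 2 5 (ek E keys) c14_0 [c14_0, c14_1, c14_2, c14_3, c14_4, c14_5, c14_6, c14_7, c14_8] [r14_0_0, r14_0_1, r14_0_2, r14_0_3, r14_0_4, r14_0_5, r14_0_6, r14_0_7, r14_0_8] :=
  rowS_cons E _ _ _ _ _ _ _ _ (h14_0_0 E) (rowS_cons E _ _ _ _ _ _ _ _ (h14_0_1 E) (rowS_cons E _ _ _ _ _ _ _ _ (h14_0_2 E) (rowS_cons E _ _ _ _ _ _ _ _ (h14_0_3 E) (rowS_cons E _ _ _ _ _ _ _ _ (h14_0_4 E) (rowS_cons E _ _ _ _ _ _ _ _ (h14_0_5 E) (rowS_cons E _ _ _ _ _ _ _ _ (h14_0_6 E) (rowS_cons E _ _ _ _ _ _ _ _ (h14_0_7 E) (rowS_cons E _ _ _ _ _ _ _ _ (h14_0_8 E) (rowS_nil E _ _ _ _)))))))))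

theorem row14_1 (E : Env κ ι) : RowS E 2 5 (ek E keys) c14_1 [c14_1, c14_2, c14_3, c14_4, c14_5, c14_6, c14_7, c14_8] [r14_1_1, r14_1_2, r14_1_3, r14_1_4, r14_1_5, r14_1_6, r14_1_7, r14_1_8] :=
  rowS_cons E _ _ _ _ _ _ _ _ (h14_1_1 E) (rowS_cons E _ _ _ _ _ _ _ _ (h14_1_2 E) (rowS_cons E _ _ _ _ _ _ _ _ (h14_1_3 E) (rowS_cons E _ _ _ _ _ _ _ _ (h14_1_4 E) (rowS_cons E _ _ _ _ _ _ _ _ (h14_1_5 E) (rowS_cons E _ _ _ _ _ _ _ _ (h14_1_6 E) (rowS_cons E _ _ _ _ _ _ _ _ (h14_1_7 E) (rowS_cons E _ _ _ _ _ _ _ _ (h14_1_8 E) (rowS_nil E _ _ _ _))))))))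

theorem row14_2 (E : Env κ ι) : RowS E 2 5 (ek E keys) c14_2 [c14_2, c14_3, c14_4, c14_5, c14_6, c14_7, c14_8] [r14_2_2, r14_2_3, r14_2_4, r14_2_5, r14_2_6, r14_2_7, r14_2_8] :=
  rowS_cons E _ _ _ _ _ _ _ _ (h14_2_2 E) (rowS_cons E _ _ _ _ _ _ _ _ (h14_2_3 E) (rowS_cons E _ _ _ _ _ _ _ _ (h14_2_4 E) (rowS_cons E _ _ _ _ _ _ _ _ (h14_2_5 E) (rowS_cons E _ _ _ _ _ _ _ _ (h14_2_6 E) (rowS_cons E _ _ _ _ _ _ _ _ (h14_2_7 E) (rowS_cons E _ _ _ _ _ _ _ _ (h14_2_8 E) (rowS_nil E _ _ _ _)))))))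

theorem row14_3 (E : Env κ ι) : RowS E 2 5 (ek E keys) c14_3 [c14_3, c14_4, c14_5, c14_6, c14_7, c14_8] [r14_3_3, r14_3_4, r14_3_5, r14_3_6, r14_3_7, r14_3_8] :=
  rowS_cons E _ _ _ _ _ _ _ _ (h14_3_3 E) (rowS_cons E _ _ _ _ _ _ _ _ (h14_3_4 E) (rowS_cons E _ _ _ _ _ _ _ _ (h14_3_5 E) (rowS_cons E _ _ _ _ _ _ _ _ (h14_3_6 E) (rowS_cons E _ _ _ _ _ _ _ _ (h14_3_7 E) (rowS_cons E _ _ _ _ _ _ _ _ (h14_3_8 E) (rowS_nil E _ _ _ _))))))

theorem row14_4 (E : Env κ ι) : RowS E 2 5 (ek E keys) c14_4 [c14_4, c14_5, c14_6, c14_7, c14_8] [r14_4_4, r14_4_5, r14_4_6, r14_4_7, r14_4_8] :=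
  rowS_cons E _ _ _ _ _ _ _ _ (h14_4_4 E) (rowS_cons E _ _ _ _ _ _ _ _ (h14_4_5 E) (rowS_cons E _ _ _ _ _ _ _ _ (h14_4_6 E) (rowS_cons E _ _ _ _ _ _ _ _ (h14_4_7 E) (rowS_cons E _ _ _ _ _ _ _ _ (h14_4_8 E) (rowS_nil E _ _ _ _)))))

theorem row14_5 (E : Env κ ι) : RowS E 2 5 (ek E keys) c14_5 [c14_5, c14_6, c14_7, c14_8] [r14_5_5, r14_5_6, r14_5_7, r14_5_8] :=
  rowS_cons E _ _ _ _ _ _ _ _ (h14_5_5 E) (rowS_cons E _ _ _ _ _ _ _ _ (h14_5_6 E) (rowS_cons E _ _ _ _ _ _ _ _ (h14_5_7 E) (rowS_cons E _ _ _ _ _ _ _ _ (h14_5_8 E) (rowS_nil E _ _ _ _))))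

theorem row14_6 (E : Env κ ι) : RowS E 2 5 (ek E keys) c14_6 [c14_6, c14_7, c14_8] [r14_6_6, r14_6_7, r14_6_8] :=
  rowS_cons E _ _ _ _ _ _ _ _ (h14_6_6 E) (rowS_cons E _ _ _ _ _ _ _ _ (h14_6_7 E) (rowS_cons E _ _ _ _ _ _ _ _ (h14_6_8 E) (rowS_nil E _ _ _ _)))

theorem row14_7 (E : Env κ ι) : RowS E 2 5 (ek E keys) c14_7 [c14_7, c14_8] [r14_7_7, r14_7_8] :=
  rowS_cons E _ _ _ _ _ _ _ _ (h14_7_7 E) (rowS_cons E _ _ _ _ _ _ _ _ (h14_7_8 E) (rowS_nil E _ _ _ _))

theorem row14_8 (E : Env κ ι) : RowS E 2 5 (ek E keys) c14_8 [c14_8] [r14_8_8] :=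
  rowS_cons E _ _ _ _ _ _ _ _ (h14_8_8 E) (rowS_nil E _ _ _ _)

def tab14 : List (List (List (ℕ × ℤ))) := [[r14_0_0, r14_0_1, r14_0_2, r14_0_3, r14_0_4, r14_0_5, r14_0_6, r14_0_7, r14_0_8], [r14_1_1, r14_1_2, r14_1_3, r14_1_4, r14_1_5, r14_1_6, r14_1_7, r14_1_8], [r14_2_2, r14_2_3, r14_2_4, r14_2_5, r14_2_6, r14_2_7, r14_2_8], [r14_3_3, r14_3_4, r14_3_5, r14_3_6, r14_3_7, r14_3_8], [r14_4_4, r14_4_5, r14_4_6, r14_4_7, r14_4_8], [r14_5_5, r14_5_6, r14_5_7, r14_5_8], [r14_6_6, r14_6_7, r14_6_8], [r14_7_7, r14_7_8], [r14_8_8]]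

theorem tri14 (E : Env κ ι) : TriS E 2 5 (ek E keys) [c14_0, c14_1, c14_2, c14_3, c14_4, c14_5, c14_6, c14_7, c14_8] tab14 := by
  refine triS_cons E _ _ _ _ _ _ _ (row14_0 E) ?_
  refine triS_cons E _ _ _ _ _ _ _ (row14_1 E) ?_
  refine triS_cons E _ _ _ _ _ _ _ (row14_2 E) ?_
  refine triS_cons E _ _ _ _ _ _ _ (row14_3 E) ?_
  refine triS_cons E _ _ _ _ _ _ _ (row14_4 E) ?_
  refine triS_cons E _ _ _ _ _ _ _ (row14_5 E) ?_
  refine triS_cons E _ _ _ _ _ _ _ (row14_6 E) ?_
  refine triS_cons E _ _ _ _ _ _ _ (row14_7 E) ?_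
  refine triS_cons E _ _ _ _ _ _ _ (row14_8 E) ?_
  exact triS_nil E _ _ _

def rows14 : List (ℕ × List ℤ) := [(270358096680000, [16777216, -19361342, -903218, -6745230, 9518541, -13356576, -11427100, 8687328, 17868122]),
  (94241126700000, [0, 8388608, 3838130, 13990371, -2120475, -2779832, -26587222, 16575802, 7867522]),
  (13999683600000, [0, 0, 4194304, -7158296, 10081466, 3681113, 71981017, -28739928, 7823885]),
  (930584486160000, [0, 0, 0, 4194304, 5230127, -4442522, 2561902, -7388936, -5752684]),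
  (68324225760000, [0, 0, 0, 0, 2097152, -577773, 7404835, -5022669, -1642533]),
  (261817920000, [0, 0, 0, 0, 0, 4194304, 11820208, -3245878, 1735457]),
  (11493861120000, [0, 0, 0, 0, 0, 0, 2097152, -617134, 446583]),
  (1274525280000, [0, 0, 0, 0, 0, 0, 0, 4194304, 6360765]),
  (5256304528966413189120000, [0, 0, 0, 0, 0, 0, 0, 0, 1]),
  (2215562723986458924450, [2, 0, 0, 0, 0, 0, 1, 0, 0]),
  (9538587032555921981859000, [1, 0, 0, 0, 0, 0, 0, 0, 0]),
  (3815498950390138798080000, [0, 1, 0, 0, 0, 0, 0, 0, 0]),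
  (3815498950390138798080000, [0, 0, 1, 0, 0, 0, 0, 0, 0]),
  (1059859780514328084480000, [0, 0, 0, 1, 0, 0, 0, 0, 0]),
  (1059859780514328084480000, [0, 0, 0, 0, 1, 0, 0, 0, 0]),
  (1734313170736659824640000, [0, 0, 0, 0, 0, 1, 0, 0, 0]),
  (1269617420739393140435550, [0, 0, 0, 0, 0, 0, 1, 0, 0]),
  (1192346539112383119360000, [0, 0, 0, 0, 0, 0, 0, 1, 0]),
  (1192346539112383119360000, [0, 0, 0, 0, 0, 0, 0, 0, 1])]

def M14 : List (List ℤ) := [[76108586415823735102039636800, -175640525734724161681489920000, -8193733904037544911175680000, -61190786434206547102924800000, 86349466140700735344476160000, -121167015729374498138357760000, -103663355568957770682260302200, 78808940885915334900449280000, 162094463388549768774942720000],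
  [107982304207320467065226400000, 15524262936355204471124160000, 92735981032472216451028800000, -103002212388713967479293920000, 135434673097685048694942720000, 77593052601617538539433600000, -64739497387435279070376960000, -174621842539559777549154240000],
  [1858948251708418918866000000, 12574517170935481064427600000, -4998755789493078785240880000, 4944463662231132673898880000, -5199595863920324329226400000, 4373343813914498552744160000, -2116177322858993194990560000],
  [47836084134509572669751340000, -1500726304101061839808440000, 5967104577465681257106240000, -22859268142017495791438640000, -39895595732928921118444080000, -90898791310653352171654320000],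
  [52098744621047446524206340000, -110003660246748505815668160000, -808787967116386222843920000, -43389613362569006681079120000, 34560035679526370084690640000],
  [67544491333837920304860720000, 82136002329579846950316000000, -12904722504380766743570880000, -84663129836662616298396960000],
  [184398756801600600443086560000, -235029012536301819524529120000, -163120617657449419598326080000],
  [110421690986890121742020880000, 182514826896496677352697760000],
  [124049072805077047597169760000]]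

def u14 : List ℤ := [0, 0, 0, 0, 0, -9741899061225438093061073510400, -12444530324725619963430174720000, -44963974588089385390461419520000, 50108977515823663086162616320000, 27643469877074039568697958400000, 9741899061225438093061073510400, 12444530324725619963430174720000, 0, 0, 19483798122450876186122147020800, 24267207394263478740304527360000, -89927949176178770780922839040000, -79338522104800568646803343360000, -61031084627956539601700536320000, 0, -62037512053439743046839173120000, 0, 39030484264872727379577753600000, 45260578485979875308891381760000, -1117515335803089388456532198400, -8971092791348250671537780044800, -33117621626391538428058890240000, 4393122409431718035124101120000, -39469456417599582967111680000, -26375959157205942417228318720000, 8971092791348250671537780044800, 0, 38887819994979353694991177958400, -37770304659176264306534645760000, -1903563009749420972918784000000, 0, 0, 0, 0, 0, 0, 0, 0, 0, 4195191758867222994521948160000,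 -2531565395062339929036226560000, -3125527907845116310246563840000, -1796091106412884901246484480000, 660441739700821718276259840000, 0, -4195191758867222994521948160000, 2531565395062339929036226560000, -2531565395062339929036226560000, 1871123655361518210759966720000, 5118725928440912676086661120000, -3322634822028027774840176640000, 1903563009749420972918784000000, 2531565395062339929036226560000, 5682732746117002825021194240000, 9741899061225438093061073510400, -25325774334450644343104471040000, 0, 0, 0, 0, 0, 475890752437355243229696000000, -2992413952177616915702046720000, -2097595879433611497260974080000, 4498757877869711321515130880000, 3974211311706932344607784960000, -7218826643911878525525166080000, -47993701824957961476661985280000, -50150520384872725394783539200000, -330220869850410859138129920000, 7637510879497876140628623360000, -30273840471963784298523217920000, 2239152032724223259005009920000, 44104545259958127917779494681600, 11503860062089420958886374400000,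 67367428509350843988981995520000, -101015098647915708328936550400000, 28294421842257949792917135360000, -130548681971483025389072209920000, 15770506141976664292809154560000, 67167501870148126335687536640000, -8214298141179342754057420800000, 89927949176178770780922839040000, -12215379179936490710340142080000, -18795217170016212100026163200000, 0, 38182881275208959454984268800000, 23435953355659507926474839040000, 6056656441186718662627691520000, 43260422700189145143761832960000, -35004516177397062892727255040000, -70817285033430281962603868160000, -2842965845922867783493939200000, 57913518130577485257873438720000, 168026372826574773774637301760000, -29688508583570391388585113600000, 36093359912315118018962227200000, -23435953355659507926474839040000, 1414110301407647751499038720000, -646944641813188953108725760000, -26924502160481068652402073600000, 0, 76717035272370913072103485440000, 0, -143884537142519039407791022080000, 26375959157205942417228318720000,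 2992413952177616915702046720000, 646944641813188953108725760000, -81870376574489971251065425920000, 17381106868608564348527124480000, 152687661607920253213669294080000, 30273840471963784298523217920000, -1369919681776881140515061760000, 4259796658035693672971888640000, 49678740448226426372976967680000, 3745675871631010572399083520000, -4459166838127394369860423680000, 0, -38750024231623405352207646720000, 16441369105813223430506618880000, -17291389781462507598044344320000, 0, 138234662389327623849771632640000, 0, 19663812177788318558833704960000, -200563287653236621725233233920000, 186301526614580450248519680000, 0, 0, -1214110476568670643362856960000, 0, -11503860062089420958886374400000, -7685980417844598460699422720000, 3125527907845116310246563840000, 105474265486043102698796974080000, 50150520384872725394783539200000, 2656664319308287333245419520000, 0, -2239152032724223259005009920000, -53239523539644032246573783040000, -4259796658035693672971888640000,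 -16441369105813223430506618880000, 59377031589997663781260492800000, 29688508583570391388585113600000, -109479127921857857181568757760000, -57913518130577485257873438720000, -9741899061225438093061073510400, 44963974588089385390461419520000, 0, 2097595879433611497260974080000, 0, 0, 5216725264978774222788316723200, 37770304659176264306534645760000, 0, 0, 25325774334450644343104471040000, 0, 62037512053439743046839173120000, -44104545259958127917779494681600, -3754367526369476448749463321600, 0, 0, -27643469877074039568697958400000, 17291389781462507598044344320000, -3974211311706932344607784960000, 0, 0, 32536914826661847950595932160000, 39469456417599582967111680000, -50108977515823663086162616320000, -69342552626014744931810672640000, 47993701824957961476661985280000, -475890752437355243229696000000, 0, 0, -4498757877869711321515130880000, -2531565395062339929036226560000, 330220869850410859138129920000, 17291389781462507598044344320000, 40308037839927841267225589760000,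 0, 47778389587319264184237373440000, -646944641813188953108725760000, 0, -38182881275208959454984268800000, 42111699412507013192586762240000, 28724499216959820392934789120000, -36093359912315118018962227200000, -59377031589997663781260492800000, -7637510879497876140628623360000, 35004516177397062892727255040000, -43260422700189145143761832960000, 0, 5461133952324768062336409600000, 38750024231623405352207646720000, 7218826643911878525525166080000, -6056656441186718662627691520000, 0, 0, 0, 0, 0, 0, 0, 0, 0, 0, 0, 0, 0, 0, 0, 0, 0, 0, 0, 0, 0, 0, 0, 0, 0, 0, 0, 0, 0, 0, 0, 0, 0, 0, 0, 0, 0, 0, 0, 0, 0, 0, 0, 0, 0, 0, 0, 0, 0, 0, 0, 0, 0, 0, 0, 0, 0, 0, 0, 0, 0, 0, 0, 0, 0, 0, 0, 0, 0, 0, 0, 0, 0, 0, 0, 0, 0, 0, 3754367526369476448749463321600, 0, 0, 12215379179936490710340142080000, -47858912786327604366528958003200, 0, 0, 0, 0, 0, 0, 47858912786327604366528958003200, 0, 0, 0, 0, 0, 646944641813188953108725760000, -17291389781462507598044344320000, 0, 0,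 12881244009725024379674296320000, 0, 0, 0, 0, 0, 0, 0, 0, 0, 0, 0, 0, 0, 0, 0, 0, 0, 0, 0, 0, 0, 0, 0, 0, 0, 0, 0, 0, 0, 0, 0, 0, 0, 0, 0, 0, 0, 0, 0, 0, 0, 0, 0, 0, 0, 0, 0, 0, 0, 0, 0, 0, 0, 0, -67254237318418517269627489843200, 0, -12881244009725024379674296320000, 0, 0, 0, 0, 0, 0, 0, 0, 0, 35133452468609877246241714636800, 0, 0, 0, -35133452468609877246241714636800, 0, 0, 0, 0, 0, -19483798122450876186122147020800]

theorem gr14 : eqM (gramT rows14) M14 = true := by
  decide +kernel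

theorem mv14 : eqZ (mval M14 tab14) u14 = true := by
  decide +kernel

theorem nn14 (E : Env κ ι) : 0 ≤ dot (ek E keys) u14 0 :=
  block_nonneg E _ _ _ _ _ (tri14 E) rows14 M14 gr14 u14 mv14

end

end YMA
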