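import Pool.Agent.YM.YMA.T2_0
import Pool.Agent.YM.YMA.T2_1
import Pool.Agent.YM.YMA.T2_2
import Pool.Agent.YM.YMA.T2_3

set_option linter.unusedVariables false
set_option maxRecDepth 100000

open YMEng

namespace YMA

section

variable {κ ι : Type*} [Fintype κ] [Fintype ι] [Inhabited κ] [Inhabited ι]

def r2_0_0 : List (ℕ × ℤ) := [(12, 4320), (19, 8640), (151, 1440)]

theorem h2_0_0 (E : Env κ ι) : inn E 0 5 c2_0 c2_0 = dotS (ek E keys) r2_0_0 :=
  innS_eqZ E _ _ _ _ _ _ _ (innS_add E _ _ _ _ _ _ _ _ (chkF_sound E keys 0 5 _ _ _ _ t2_0_0_0) (chkF_sound E keys 0 5 _ _ _ _ t2_0_0_1)) (by decide +kernel)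

def r2_0_1 : List (ℕ × ℤ) := [(21, 5760), (152, 2880), (153, 5760)]

theorem h2_0_1 (E : Env κ ι) : inn E 0 5 c2_0 c2_1 = dotS (ek E keys) r2_0_1 :=
  innS_eqZ E _ _ _ _ _ _ _ (innS_add E _ _ _ _ _ _ _ _ (chkF_sound E keys 0 5 _ _ _ _ t2_0_1_0) (chkF_sound E keys 0 5 _ _ _ _ t2_0_1_1)) (by decide +kernel)

def r2_0_2 : List (ℕ × ℤ) := [(49, 5760), (154, 2880), (155, 5760)]

theorem h2_0_2 (E : Env κ ι) : inn E 0 5 c2_0 c2_2 = dotS (ek E keys) r2_0_2 :=
  innS_eqZ E _ _ _ _ _ _ _ (innS_add E _ _ _ _ _ _ _ _ (chkF_sound E keys 0 5 _ _ _ _ t2_0_2_0) (chkF_sound E keys 0 5 _ _ _ _ t2_0_2_1)) (by decide +kernel)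

def r2_0_3 : List (ℕ × ℤ) := [(156, 1440), (157, 5760), (158, 2880), (159, 1440), (160, 2880)]

theorem h2_0_3 (E : Env κ ι) : inn E 0 5 c2_0 c2_3 = dotS (ek E keys) r2_0_3 :=
  innS_eqZ E _ _ _ _ _ _ _ (innS_add E _ _ _ _ _ _ _ _ (chkF_sound E keys 0 5 _ _ _ _ t2_0_3_0) (chkF_sound E keys 0 5 _ _ _ _ t2_0_3_1)) (by decide +kernel)

def r2_0_4 : List (ℕ × ℤ) := [(13, 1440), (20, 2880), (32, 2880), (161, 1440), (162, 5760)]

theorem h2_0_4 (E : Env κ ι) : inn E 0 5 c2_0 c2_4 = dotS (ek E keys) r2_0_4 :=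
  innS_eqZ E _ _ _ _ _ _ _ (innS_add E _ _ _ _ _ _ _ _ (chkF_sound E keys 0 5 _ _ _ _ t2_0_4_0) (chkF_sound E keys 0 5 _ _ _ _ t2_0_4_1)) (by decide +kernel)

def r2_0_5 : List (ℕ × ℤ) := [(31, 1440), (33, 1440), (163, 2880), (164, 1440), (165, 1440), (166, 2880), (167, 2880)]

theorem h2_0_5 (E : Env κ ι) : inn E 0 5 c2_0 c2_5 = dotS (ek E keys) r2_0_5 :=
  innS_eqZ E _ _ _ _ _ _ _ (innS_add E _ _ _ _ _ _ _ _ (chkF_sound E keys 0 5 _ _ _ _ t2_0_5_0) (chkF_sound E keys 0 5 _ _ _ _ t2_0_5_1)) (by decide +kernel)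

def r2_1_1 : List (ℕ × ℤ) := [(136, 3840), (137, 7680), (168, 960), (169, 1920)]

theorem h2_1_1 (E : Env κ ι) : inn E 0 5 c2_1 c2_1 = dotS (ek E keys) r2_1_1 :=
  innS_eqZ E _ _ _ _ _ _ _ (innS_add E _ _ _ _ _ _ _ _ (chkF_sound E keys 0 5 _ _ _ _ t2_1_1_0) (innS_add E _ _ _ _ _ _ _ _ (chkF_sound E keys 0 5 _ _ _ _ t2_1_1_1) (chkF_sound E keys 0 5 _ _ _ _ t2_1_1_2))) (by decide +kernel)

def r2_1_2 : List (ℕ × ℤ) := [(57, 7680), (138, 3840), (170, 960), (171, 1920)]

theorem h2_1_2 (E : Env κ ι) : inn E 0 5 c2_1 c2_2 = dotS (ek E keys) r2_1_2 :=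
  innS_eqZ E _ _ _ _ _ _ _ (innS_add E _ _ _ _ _ _ _ _ (chkF_sound E keys 0 5 _ _ _ _ t2_1_2_0) (innS_add E _ _ _ _ _ _ _ _ (chkF_sound E keys 0 5 _ _ _ _ t2_1_2_1) (chkF_sound E keys 0 5 _ _ _ _ t2_1_2_2))) (by decide +kernel)

def r2_1_3 : List (ℕ × ℤ) := [(84, 1920), (85, 3840), (106, 1920), (119, 1920), (130, 3840), (172, 960)]

theorem h2_1_3 (E : Env κ ι) : inn E 0 5 c2_1 c2_3 = dotS (ek E keys) r2_1_3 :=
  innS_eqZ E _ _ _ _ _ _ _ (innS_add E _ _ _ _ _ _ _ _ (chkF_sound E keys 0 5 _ _ _ _ t2_1_3_0) (innS_add E _ _ _ _ _ _ _ _ (chkF_sound E keys 0 5 _ _ _ _ t2_1_3_1) (chkF_sound E keys 0 5 _ _ _ _ t2_1_3_2))) (by decide +kernel)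

def r2_1_4 : List (ℕ × ℤ) := [(23, 1920), (104, 1920), (121, 3840), (173, 3840), (174, 1920), (175, 960)]

theorem h2_1_4 (E : Env κ ι) : inn E 0 5 c2_1 c2_4 = dotS (ek E keys) r2_1_4 :=
  innS_eqZ E _ _ _ _ _ _ _ (innS_add E _ _ _ _ _ _ _ _ (chkF_sound E keys 0 5 _ _ _ _ t2_1_4_0) (innS_add E _ _ _ _ _ _ _ _ (chkF_sound E keys 0 5 _ _ _ _ t2_1_4_1) (chkF_sound E keys 0 5 _ _ _ _ t2_1_4_2))) (by decide +kernel)

def r2_1_5 : List (ℕ × ℤ) := [(109, 1920), (110, 960), (139, 1920), (140, 1920), (141, 1920), (173, 1920), (174, 960), (176, 1920), (177, 960)]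

theorem h2_1_5 (E : Env κ ι) : inn E 0 5 c2_1 c2_5 = dotS (ek E keys) r2_1_5 :=
  innS_eqZ E _ _ _ _ _ _ _ (innS_add E _ _ _ _ _ _ _ _ (chkF_sound E keys 0 5 _ _ _ _ t2_1_5_0) (innS_add E _ _ _ _ _ _ _ _ (chkF_sound E keys 0 5 _ _ _ _ t2_1_5_1) (chkF_sound E keys 0 5 _ _ _ _ t2_1_5_2))) (by decide +kernel)

def r2_2_2 : List (ℕ × ℤ) := [(35, 7680), (142, 3840), (178, 960), (179, 1920)]

theorem h2_2_2 (E : Env κ ι) : inn E 0 5 c2_2 c2_2 = dotS (ek E keys) r2_2_2 :=
  innS_eqZ E _ _ _ _ _ _ _ (innS_add E _ _ _ _ _ _ _ _ (chkF_sound E keys 0 5 _ _ _ _ t2_2_2_0) (innS_add E _ _ _ _ _ _ _ _ (chkF_sound E keys 0 5 _ _ _ _ t2_2_2_1) (chkF_sound E keys 0 5 _ _ _ _ t2_2_2_2))) (by decide +kernel)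

def r2_2_3 : List (ℕ × ℤ) := [(45, 1920), (48, 3840), (58, 3840), (108, 1920), (120, 1920), (180, 960)]

theorem h2_2_3 (E : Env κ ι) : inn E 0 5 c2_2 c2_3 = dotS (ek E keys) r2_2_3 :=
  innS_eqZ E _ _ _ _ _ _ _ (innS_add E _ _ _ _ _ _ _ _ (chkF_sound E keys 0 5 _ _ _ _ t2_2_3_0) (innS_add E _ _ _ _ _ _ _ _ (chkF_sound E keys 0 5 _ _ _ _ t2_2_3_1) (chkF_sound E keys 0 5 _ _ _ _ t2_2_3_2))) (by decide +kernel)

def r2_2_4 : List (ℕ × ℤ) := [(51, 1920), (55, 3840), (57, 3840), (122, 1920), (138, 1920), (181, 960)]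

theorem h2_2_4 (E : Env κ ι) : inn E 0 5 c2_2 c2_4 = dotS (ek E keys) r2_2_4 :=
  innS_eqZ E _ _ _ _ _ _ _ (innS_add E _ _ _ _ _ _ _ _ (chkF_sound E keys 0 5 _ _ _ _ t2_2_4_0) (innS_add E _ _ _ _ _ _ _ _ (chkF_sound E keys 0 5 _ _ _ _ t2_2_4_1) (chkF_sound E keys 0 5 _ _ _ _ t2_2_4_2))) (by decide +kernel)

def r2_2_5 : List (ℕ × ℤ) := [(52, 3840), (54, 1920), (57, 1920), (111, 960), (138, 960), (143, 1920), (182, 1920), (183, 960)]

theorem h2_2_5 (E : Env κ ι) : inn E 0 5 c2_2 c2_5 = dotS (ek E keys) r2_2_5 :=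
  innS_eqZ E _ _ _ _ _ _ _ (innS_add E _ _ _ _ _ _ _ _ (chkF_sound E keys 0 5 _ _ _ _ t2_2_5_0) (innS_add E _ _ _ _ _ _ _ _ (chkF_sound E keys 0 5 _ _ _ _ t2_2_5_1) (chkF_sound E keys 0 5 _ _ _ _ t2_2_5_2))) (by decide +kernel)

def r2_3_3 : List (ℕ × ℤ) := [(17, 960), (71, 480), (73, 1920), (80, 1920), (83, 1920), (99, 3840), (125, 960), (144, 1920), (184, 480)]

theorem h2_3_3 (E : Env κ ι) : inn E 0 5 c2_3 c2_3 = dotS (ek E keys) r2_3_3 :=
  innS_eqZ E _ _ _ _ _ _ _ (innS_add E _ _ _ _ _ _ _ _ (chkF_sound E keys 0 5 _ _ _ _ t2_3_3_0) (innS_add E _ _ _ _ _ _ _ _ (chkF_sound E keys 0 5 _ _ _ _ t2_3_3_1) (innS_add E _ _ _ _ _ _ _ _ (chkF_sound E keys 0 5 _ _ _ _ t2_3_3_2) (innS_add E _ _ _ _ _ _ _ _ (chkF_sound E keys 0 5 _ _ _ _ t2_3_3_3) (chkF_sound E keys 0 5 _ _ _ _ t2_3_3_4))))) (by decide +kernel)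

def r2_3_4 : List (ℕ × ℤ) := [(75, 480), (76, 960), (84, 960), (85, 1920), (106, 960), (113, 3840), (130, 1920), (147, 1920), (185, 960), (186, 480)]

theorem h2_3_4 (E : Env κ ι) : inn E 0 5 c2_3 c2_4 = dotS (ek E keys) r2_3_4 :=
  innS_eqZ E _ _ _ _ _ _ _ (innS_add E _ _ _ _ _ _ _ _ (chkF_sound E keys 0 5 _ _ _ _ t2_3_4_0) (innS_add E _ _ _ _ _ _ _ _ (chkF_sound E keys 0 5 _ _ _ _ t2_3_4_1) (innS_add E _ _ _ _ _ _ _ _ (chkF_sound E keys 0 5 _ _ _ _ t2_3_4_2) (innS_add E _ _ _ _ _ _ _ _ (chkF_sound E keys 0 5 _ _ _ _ t2_3_4_3) (chkF_sound E keys 0 5 _ _ _ _ t2_3_4_4))))) (by decide +kernel)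

def r2_3_5 : List (ℕ × ℤ) := [(18, 480), (26, 480), (82, 960), (96, 1920), (97, 960), (101, 960), (106, 480), (107, 960), (112, 960), (123, 960), (127, 960), (128, 480), (130, 960), (131, 960), (187, 960), (188, 480), (189, 480)]

theorem h2_3_5 (E : Env κ ι) : inn E 0 5 c2_3 c2_5 = dotS (ek E keys) r2_3_5 :=
  innS_eqZ E _ _ _ _ _ _ _ (innS_add E _ _ _ _ _ _ _ _ (chkF_sound E keys 0 5 _ _ _ _ t2_3_5_0) (innS_add E _ _ _ _ _ _ _ _ (chkF_sound E keys 0 5 _ _ _ _ t2_3_5_1) (innS_add E _ _ _ _ _ _ _ _ (chkF_sound E keys 0 5 _ _ _ _ t2_3_5_2) (innS_add E _ _ _ _ _ _ _ _ (chkF_sound E keys 0 5 _ _ _ _ t2_3_5_3) (chkF_sound E keys 0 5 _ _ _ _ t2_3_5_4))))) (by decide +kernel)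

def r2_4_4 : List (ℕ × ℤ) := [(22, 960), (27, 1920), (88, 480), (89, 1920), (102, 960), (115, 3840), (148, 1920), (149, 1920), (190, 480)]

theorem h2_4_4 (E : Env κ ι) : inn E 0 5 c2_4 c2_4 = dotS (ek E keys) r2_4_4 :=
  innS_eqZ E _ _ _ _ _ _ _ (innS_add E _ _ _ _ _ _ _ _ (chkF_sound E keys 0 5 _ _ _ _ t2_4_4_0) (innS_add E _ _ _ _ _ _ _ _ (chkF_sound E keys 0 5 _ _ _ _ t2_4_4_1) (innS_add E _ _ _ _ _ _ _ _ (chkF_sound E keys 0 5 _ _ _ _ t2_4_4_2) (innS_add E _ _ _ _ _ _ _ _ (chkF_sound E keys 0 5 _ _ _ _ t2_4_4_3) (chkF_sound E keys 0 5 _ _ _ _ t2_4_4_4))))) (by decide +kernel)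

def r2_4_5 : List (ℕ × ℤ) := [(105, 1920), (109, 960), (110, 480), (124, 960), (139, 960), (140, 960), (141, 960), (173, 960), (174, 480), (191, 1920), (192, 960), (193, 960), (194, 960), (195, 480), (196, 480)]

theorem h2_4_5 (E : Env κ ι) : inn E 0 5 c2_4 c2_5 = dotS (ek E keys) r2_4_5 :=
  innS_eqZ E _ _ _ _ _ _ _ (innS_add E _ _ _ _ _ _ _ _ (chkF_sound E keys 0 5 _ _ _ _ t2_4_5_0) (innS_add E _ _ _ _ _ _ _ _ (chkF_sound E keys 0 5 _ _ _ _ t2_4_5_1) (innS_add E _ _ _ _ _ _ _ _ (chkF_sound E keys 0 5 _ _ _ _ t2_4_5_2) (innS_add E _ _ _ _ _ _ _ _ (chkF_sound E keys 0 5 _ _ _ _ t2_4_5_3) (chkF_sound E keys 0 5 _ _ _ _ t2_4_5_4))))) (by decide +kernel)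

def r2_5_5 : List (ℕ × ℤ) := [(102, 240), (103, 960), (109, 960), (110, 480), (115, 960), (116, 960), (117, 1920), (136, 240), (137, 480), (139, 960), (140, 960), (141, 960), (148, 480), (149, 480), (150, 480), (197, 240), (198, 480), (199, 480), (200, 960), (201, 480), (202, 240)]

theorem h2_5_5 (E : Env κ ι) : inn E 0 5 c2_5 c2_5 = dotS (ek E keys) r2_5_5 :=
  innS_eqZ E _ _ _ _ _ _ _ (innS_add E _ _ _ _ _ _ _ _ (chkF_sound E keys 0 5 _ _ _ _ t2_5_5_0) (innS_add E _ _ _ _ _ _ _ _ (chkF_sound E keys 0 5 _ _ _ _ t2_5_5_1) (innS_add E _ _ _ _ _ _ _ _ (chkF_sound E keys 0 5 _ _ _ _ t2_5_5_2) (innS_add E _ _ _ _ _ _ _ _ (chkF_sound E keys 0 5 _ _ _ _ t2_5_5_3) (innS_add E _ _ _ _ _ _ _ _ (chkF_sound E keys 0 5 _ _ _ _ t2_5_5_4) (innS_add E _ _ _ _ _ _ _ _ (chkF_sound E keys 0 5 _ _ _ _ t2_5_5_5) (innS_add E _ _ _ _ _ _ _ _ (chkF_sound E keys 0 5 _ _ _ _ t2_5_5_6) (innS_add E _ _ _ _ _ _ _ _ (chkF_sound E keys 0 5 _ _ _ _ t2_5_5_7) (innS_add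 E _ _ _ _ _ _ _ _ (chkF_sound E keys 0 5 _ _ _ _ t2_5_5_8) (chkF_sound E keys 0 5 _ _ _ _ t2_5_5_9)))))))))) (by decide +kernel)

theorem row2_0 (E : Env κ ι) : RowS E 0 5 (ek E keys) c2_0 [c2_0, c2_1, c2_2, c2_3, c2_4, c2_5] [r2_0_0, r2_0_1, r2_0_2, r2_0_3, r2_0_4, r2_0_5] :=
  rowS_cons E _ _ _ _ _ _ _ _ (h2_0_0 E) (rowS_cons E _ _ _ _ _ _ _ _ (h2_0_1 E) (rowS_cons E _ _ _ _ _ _ _ _ (h2_0_2 E) (rowS_cons E _ _ _ _ _ _ _ _ (h2_0_3 E) (rowS_cons E _ _ _ _ _ _ _ _ (h2_0_4 E) (rowS_cons E _ _ _ _ _ _ _ _ (h2_0_5 E) (rowS_nil E _ _ _ _))))))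

theorem row2_1 (E : Env κ ι) : RowS E 0 5 (ek E keys) c2_1 [c2_1, c2_2, c2_3, c2_4, c2_5] [r2_1_1, r2_1_2, r2_1_3, r2_1_4, r2_1_5] :=
  rowS_cons E _ _ _ _ _ _ _ _ (h2_1_1 E) (rowS_cons E _ _ _ _ _ _ _ _ (h2_1_2 E) (rowS_cons E _ _ _ _ _ _ _ _ (h2_1_3 E) (rowS_cons E _ _ _ _ _ _ _ _ (h2_1_4 E) (rowS_cons E _ _ _ _ _ _ _ _ (h2_1_5 E) (rowS_nil E _ _ _ _)))))

theorem row2_2 (E : Env κ ι) : RowS E 0 5 (ek E keys) c2_2 [c2_2, c2_3, c2_4, c2_5] [r2_2_2, r2_2_3, r2_2_4, r2_2_5] :=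
  rowS_cons E _ _ _ _ _ _ _ _ (h2_2_2 E) (rowS_cons E _ _ _ _ _ _ _ _ (h2_2_3 E) (rowS_cons E _ _ _ _ _ _ _ _ (h2_2_4 E) (rowS_cons E _ _ _ _ _ _ _ _ (h2_2_5 E) (rowS_nil E _ _ _ _))))

theorem row2_3 (E : Env κ ι) : RowS E 0 5 (ek E keys) c2_3 [c2_3, c2_4, c2_5] [r2_3_3, r2_3_4, r2_3_5] :=
  rowS_cons E _ _ _ _ _ _ _ _ (h2_3_3 E) (rowS_cons E _ _ _ _ _ _ _ _ (h2_3_4 E) (rowS_cons E _ _ _ _ _ _ _ _ (h2_3_5 E) (rowS_nil E _ _ _ _)))

theorem row2_4 (E : Env κ ι) : RowS E 0 5 (ek E keys) c2_4 [c2_4, c2_5] [r2_4_4, r2_4_5] :=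
  rowS_cons E _ _ _ _ _ _ _ _ (h2_4_4 E) (rowS_cons E _ _ _ _ _ _ _ _ (h2_4_5 E) (rowS_nil E _ _ _ _))

theorem row2_5 (E : Env κ ι) : RowS E 0 5 (ek E keys) c2_5 [c2_5] [r2_5_5] :=
  rowS_cons E _ _ _ _ _ _ _ _ (h2_5_5 E) (rowS_nil E _ _ _ _)

def tab2 : List (List (List (ℕ × ℤ))) := [[r2_0_0, r2_0_1, r2_0_2, r2_0_3, r2_0_4, r2_0_5], [r2_1_1, r2_1_2, r2_1_3, r2_1_4, r2_1_5], [r2_2_2, r2_2_3, r2_2_4, r2_2_5], [r2_3_3, r2_3_4, r2_3_5], [r2_4_4, r2_4_5], [r2_5_5]]

theorem tri2 (E : Env κ ι) : TriS E 0 5 (ek E keys) [c2_0, c2_1, c2_2, c2_3, c2_4, c2_5] tab2 := by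
  refine triS_cons E _ _ _ _ _ _ _ (row2_0 E) ?_
  refine triS_cons E _ _ _ _ _ _ _ (row2_1 E) ?_
  refine triS_cons E _ _ _ _ _ _ _ (row2_2 E) ?_
  refine triS_cons E _ _ _ _ _ _ _ (row2_3 E) ?_
  refine triS_cons E _ _ _ _ _ _ _ (row2_4 E) ?_
  refine triS_cons E _ _ _ _ _ _ _ (row2_5 E) ?_
  exact triS_nil E _ _ _

def rows2 : List (ℕ × List ℤ) := [(779240313180000, [4194304, -3142363, -164978, -1522335, -3562281, 1769407]),
  (60204060000, [0, 4194304, 79128, 730487, 1709035, -849101]),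
  (154405440000, [0, 0, 2097152, 19168, 44829, -22282]),
  (167242320000, [0, 0, 0, 2097152, 381383, -189697]),
  (879984000000, [0, 0, 0, 0, 1048576, -155807]),
  (728557163343910010880000, [0, 0, 0, 0, 0, 1]),
  (117446769863522435520, [1, -1, 0, 0, 0, 0]),
  (678114211575747442720320, [1, 0, 0, 0, 0, 0]),
  (678194932397822478204480, [0, 1, 0, 0, 0, 0]),
  (678312379167686000640000, [0, 0, 1, 0, 0, 0]),
  (678312379167686000640000, [0, 0, 0, 1, 0, 0]),
  (678312379167686000640000, [0, 0, 0, 0, 1, 0]),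
  (678312379167686000640000, [0, 0, 0, 0, 0, 1])]

def M2 : List (List ℤ) := [[13709218794429894841168035840, -20540814943819022359523591040, -1078418543322050404024320000, -9951110409558690260582400000, -23285710136647413808496640000, 11566156211639365486510080000],
  [7696303222051827609505020000, 807988677336193567974480000, 7455718161628534777777560000, 17446464088422010134995880000, -8665766700057307157529240000],
  [22566932256751041544560000, 391434562534757325166800000, 915961254475510920867120000, -454963630771787864988240000],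
  [1807338461779407450552120000, 8452035244523822852325600000, -4198178371341387597403680000],
  [9890285856485130121553640000, -9823784872966979103831600000],
  [2441124186546605052444840000]]

def u2 : List ℤ := [0, 0, 0, 0, 0, 0, 0, 0, 0, 0, 0, 0, 59223825191937145713845914828800, -33531422596772275884235161600000, 0, 0, 0, 1735044923308231152530035200000, -2015125618243866046753766400000, 118447650383874291427691829657600, -67062845193544551768470323200000, -118315094076397568790855884390400, 9494674422225724916691494400000, 33497211049770259459192089600000, 0, 0, -2015125618243866046753766400000, 18989348844451449833382988800000, 0, 0, 0, 16655264944760686300574515200000, -67062845193544551768470323200000, 16655264944760686300574515200000, 0, 173314039731847999062220800000, 0, 0, 0, 0, 0, 0, 0, 0, 0, 751554360066734064320256000000, 0, 0, 1503108720133468128640512000000, -6211690809535010327180083200000, 0, 1758645608592980968064870400000,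 -1747060342163665401554841600000, 0, -873530171081832700777420800000, 3517291217185961936129740800000, 0, 8849114088046095837396326400000, 1503108720133468128640512000000, 0, 0, 0, 0, 0, 0, 0, 0, 0, 0, 0, 0, 867522461654115576265017600000, 0, 3470089846616462305060070400000, 0, 4056976917371434969116288000000, 8113953834742869938232576000000, 0, 0, 0, 3470089846616462305060070400000, 0, -4030251236487732093507532800000, 3470089846616462305060070400000, 22428932705069656711565491200000, 44857865410139313423130982400000, 0, 0, 4747337211112862458345747200000, 18989348844451449833382988800000, 0, 0, 0, 0, 0, 0, -8060502472975464187015065600000, -4030251236487732093507532800000, 0, 6940179693232924610120140800000, 0, -4030251236487732093507532800000, 10080544226996910129278256000000, 2343479219084740850347046400000, 33497211049770259459192089600000, -18861666956096599879356672000000, 20413807086825790664811724800000, -4030251236487732093507532800000,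 751554360066734064320256000000, -23725626323073588831787430400000, -11862813161536794415893715200000, -436765085540916350388710400000, -4030251236487732093507532800000, 32455815338971479752930304000000, 0, 40322176907987640517113024000000, 2343479219084740850347046400000, 4686958438169481700694092800000, 0, 14314978870326786773332915200000, 751554360066734064320256000000, 66994422099540518918384179200000, 1758645608592980968064870400000, -4030251236487732093507532800000, -9430833478048299939678336000000, 1735044923308231152530035200000, 0, -4030251236487732093507532800000, -2015125618243866046753766400000, 0, 40827614173651581329623449600000, -4030251236487732093507532800000, 0, 0, 0, 0, 30139674177450203233086038400000, 60279348354900406466172076800000, 4424557044023047918698163200000, -23725626323073588831787430400000, -23725626323073588831787430400000, -23725626323073588831787430400000, 86657019865923999531110400000, -873530171081832700777420800000,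 3470089846616462305060070400000, 0, 0, 16227907669485739876465152000000, 20161088453993820258556512000000, 20161088453993820258556512000000, 1171739609542370425173523200000, 19741275063979048571281971609600, -59157547038198784395427942195200, -118315094076397568790855884390400, -3105845404767505163590041600000, -6211690809535010327180083200000, -14329598989764513975238656000000, -57318395959058055900954624000000, -28659197979529027950477312000000, -14329598989764513975238656000000, -28659197979529027950477312000000, -33531422596772275884235161600000, -134125690387089103536940646400000, 33310529889521372601149030400000, 16655264944760686300574515200000, 16655264944760686300574515200000, 33310529889521372601149030400000, 33310529889521372601149030400000, 7388451093169754505124819200000, 14776902186339509010249638400000, 775669130242745825255500800000, 1551338260485491650511001600000, 7157489435163393386666457600000, 40925316557382189236249702400000,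 20462658278691094618124851200000, 16748605524885129729596044800000, -16638272064110029742456140800000, -8319136032055014871228070400000, 21664254966480999882777600000, 43328509932961999765555200000, 375777180033367032160128000000, 879322804296490484032435200000, -873530171081832700777420800000, -436765085540916350388710400000, 867522461654115576265017600000, 8113953834742869938232576000000, 4056976917371434969116288000000, -4030251236487732093507532800000, -2015125618243866046753766400000, -2015125618243866046753766400000, 4747337211112862458345747200000, -18861666956096599879356672000000, -9430833478048299939678336000000, -9430833478048299939678336000000, -9430833478048299939678336000000, -4715416739024149969839168000000, -4715416739024149969839168000000, 585869804771185212586761600000, 1171739609542370425173523200000, 1171739609542370425173523200000, 2343479219084740850347046400000, 1171739609542370425173523200000, 585869804771185212586761600000]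

theorem gr2 : eqM (gramT rows2) M2 = true := by
  decide +kernel

theorem mv2 : eqZ (mval M2 tab2) u2 = true := by
  decide +kernel

theorem nn2 (E : Env κ ι) : 0 ≤ dot (ek E keys) u2 0 :=
  block_nonneg E _ _ _ _ _ (tri2 E) rows2 M2 gr2 u2 mv2

end

end YMA
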