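import Pool.Agent.YM.YMA.T3_0
import Pool.Agent.YM.YMA.T3_1
import Pool.Agent.YM.YMA.T3_2

set_option linter.unusedVariables false
set_option maxRecDepth 100000

open YMEng

namespace YMA

section

variable {κ ι : Type*} [Fintype κ] [Fintype ι] [Inhabited κ] [Inhabited ι]

def r3_0_0 : List (ℕ × ℤ) := [(12, 64), (19, -128), (151, 64)]

theorem h3_0_0 (E : Env κ ι) : inn E 0 5 c3_0 c3_0 = dotS (ek E keys) r3_0_0 :=
  innS_eqZ E _ _ _ _ _ _ _ (chkF_sound E keys 0 5 _ _ _ _ t3_0_0_0) (by decide +kernel)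

def r3_0_1 : List (ℕ × ℤ) := [(152, 256), (153, -256)]

theorem h3_0_1 (E : Env κ ι) : inn E 0 5 c3_0 c3_1 = dotS (ek E keys) r3_0_1 :=
  innS_eqZ E _ _ _ _ _ _ _ (chkF_sound E keys 0 5 _ _ _ _ t3_0_1_0) (by decide +kernel)

def r3_0_2 : List (ℕ × ℤ) := [(154, 256), (155, -256)]

theorem h3_0_2 (E : Env κ ι) : inn E 0 5 c3_0 c3_2 = dotS (ek E keys) r3_0_2 :=
  innS_eqZ E _ _ _ _ _ _ _ (chkF_sound E keys 0 5 _ _ _ _ t3_0_2_0) (by decide +kernel)

def r3_0_3 : List (ℕ × ℤ) := [(156, 64), (157, -256), (158, 128), (159, 192), (160, -128)]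

theorem h3_0_3 (E : Env κ ι) : inn E 0 5 c3_0 c3_3 = dotS (ek E keys) r3_0_3 :=
  innS_eqZ E _ _ _ _ _ _ _ (chkF_sound E keys 0 5 _ _ _ _ t3_0_3_0) (by decide +kernel)

def r3_0_4 : List (ℕ × ℤ) := [(13, 192), (20, 128), (32, -128), (161, 64), (162, -256)]

theorem h3_0_4 (E : Env κ ι) : inn E 0 5 c3_0 c3_4 = dotS (ek E keys) r3_0_4 :=
  innS_eqZ E _ _ _ _ _ _ _ (chkF_sound E keys 0 5 _ _ _ _ t3_0_4_0) (by decide +kernel)

def r3_0_5 : List (ℕ × ℤ) := [(13, 64), (20, -128), (32, 128), (161, 192), (162, -256)]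

theorem h3_0_5 (E : Env κ ι) : inn E 0 5 c3_0 c3_5 = dotS (ek E keys) r3_0_5 :=
  innS_eqZ E _ _ _ _ _ _ _ (chkF_sound E keys 0 5 _ _ _ _ t3_0_5_0) (by decide +kernel)

def r3_0_6 : List (ℕ × ℤ) := [(156, 192), (157, -256), (158, -128), (159, 64), (160, 128)]

theorem h3_0_6 (E : Env κ ι) : inn E 0 5 c3_0 c3_6 = dotS (ek E keys) r3_0_6 :=
  innS_eqZ E _ _ _ _ _ _ _ (chkF_sound E keys 0 5 _ _ _ _ t3_0_6_0) (by decide +kernel)

def r3_0_7 : List (ℕ × ℤ) := [(31, 192), (33, -64), (163, 128), (164, -64), (165, 64), (166, -128), (167, -128)]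

theorem h3_0_7 (E : Env κ ι) : inn E 0 5 c3_0 c3_7 = dotS (ek E keys) r3_0_7 :=
  innS_eqZ E _ _ _ _ _ _ _ (chkF_sound E keys 0 5 _ _ _ _ t3_0_7_0) (by decide +kernel)

def r3_0_8 : List (ℕ × ℤ) := [(31, 64), (33, 64), (163, -128), (164, 64), (165, 192), (166, -128), (167, -128)]

theorem h3_0_8 (E : Env κ ι) : inn E 0 5 c3_0 c3_8 = dotS (ek E keys) r3_0_8 :=
  innS_eqZ E _ _ _ _ _ _ _ (chkF_sound E keys 0 5 _ _ _ _ t3_0_8_0) (by decide +kernel)

def r3_0_9 : List (ℕ × ℤ) := [(31, -64), (33, 192), (163, -128), (164, -64), (165, 64), (166, 128), (167, -128)]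

theorem h3_0_9 (E : Env κ ι) : inn E 0 5 c3_0 c3_9 = dotS (ek E keys) r3_0_9 :=
  innS_eqZ E _ _ _ _ _ _ _ (chkF_sound E keys 0 5 _ _ _ _ t3_0_9_0) (by decide +kernel)

def r3_1_1 : List (ℕ × ℤ) := [(136, 512), (137, -512), (168, 256), (169, -256)]

theorem h3_1_1 (E : Env κ ι) : inn E 0 5 c3_1 c3_1 = dotS (ek E keys) r3_1_1 :=
  innS_eqZ E _ _ _ _ _ _ _ (chkF_sound E keys 0 5 _ _ _ _ t3_1_1_0) (by decide +kernel)

def r3_1_2 : List (ℕ × ℤ) := [(57, -512), (138, 512), (170, 256), (171, -256)]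

theorem h3_1_2 (E : Env κ ι) : inn E 0 5 c3_1 c3_2 = dotS (ek E keys) r3_1_2 :=
  innS_eqZ E _ _ _ _ _ _ _ (chkF_sound E keys 0 5 _ _ _ _ t3_1_2_0) (by decide +kernel)

def r3_1_3 : List (ℕ × ℤ) := [(84, 512), (85, -512), (119, -256), (172, 256)]

theorem h3_1_3 (E : Env κ ι) : inn E 0 5 c3_1 c3_3 = dotS (ek E keys) r3_1_3 :=
  innS_eqZ E _ _ _ _ _ _ _ (chkF_sound E keys 0 5 _ _ _ _ t3_1_3_0) (by decide +kernel)

def r3_1_4 : List (ℕ × ℤ) := [(23, 512), (104, -256), (121, -512), (175, 256)]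

theorem h3_1_4 (E : Env κ ι) : inn E 0 5 c3_1 c3_4 = dotS (ek E keys) r3_1_4 :=
  innS_eqZ E _ _ _ _ _ _ _ (chkF_sound E keys 0 5 _ _ _ _ t3_1_4_0) (by decide +kernel)

def r3_1_5 : List (ℕ × ℤ) := [(104, -256), (173, -512), (174, 512), (175, 256)]

theorem h3_1_5 (E : Env κ ι) : inn E 0 5 c3_1 c3_5 = dotS (ek E keys) r3_1_5 :=
  innS_eqZ E _ _ _ _ _ _ _ (chkF_sound E keys 0 5 _ _ _ _ t3_1_5_0) (by decide +kernel)

def r3_1_6 : List (ℕ × ℤ) := [(106, 512), (119, -256), (130, -512), (172, 256)]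

theorem h3_1_6 (E : Env κ ι) : inn E 0 5 c3_1 c3_6 = dotS (ek E keys) r3_1_6 :=
  innS_eqZ E _ _ _ _ _ _ _ (chkF_sound E keys 0 5 _ _ _ _ t3_1_6_0) (by decide +kernel)

def r3_1_7 : List (ℕ × ℤ) := [(109, 512), (110, 256), (139, -256), (140, -256), (141, -256), (177, 0)]

theorem h3_1_7 (E : Env κ ι) : inn E 0 5 c3_1 c3_7 = dotS (ek E keys) r3_1_7 :=
  innS_eqZ E _ _ _ _ _ _ _ (chkF_sound E keys 0 5 _ _ _ _ t3_1_7_0) (by decide +kernel)

def r3_1_8 : List (ℕ × ℤ) := [(110, 256), (141, -256), (173, -256), (174, 256), (176, -256), (177, 256)]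

theorem h3_1_8 (E : Env κ ι) : inn E 0 5 c3_1 c3_8 = dotS (ek E keys) r3_1_8 :=
  innS_eqZ E _ _ _ _ _ _ _ (chkF_sound E keys 0 5 _ _ _ _ t3_1_8_0) (by decide +kernel)

def r3_1_9 : List (ℕ × ℤ) := [(109, -256), (139, 512), (140, -256), (173, -256), (174, 256), (177, 0)]

theorem h3_1_9 (E : Env κ ι) : inn E 0 5 c3_1 c3_9 = dotS (ek E keys) r3_1_9 :=
  innS_eqZ E _ _ _ _ _ _ _ (chkF_sound E keys 0 5 _ _ _ _ t3_1_9_0) (by decide +kernel)

def r3_2_2 : List (ℕ × ℤ) := [(35, -512), (142, 512), (178, 256), (179, -256)]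

theorem h3_2_2 (E : Env κ ι) : inn E 0 5 c3_2 c3_2 = dotS (ek E keys) r3_2_2 :=
  innS_eqZ E _ _ _ _ _ _ _ (chkF_sound E keys 0 5 _ _ _ _ t3_2_2_0) (by decide +kernel)

def r3_2_3 : List (ℕ × ℤ) := [(45, 512), (48, -512), (120, -256), (180, 256)]

theorem h3_2_3 (E : Env κ ι) : inn E 0 5 c3_2 c3_3 = dotS (ek E keys) r3_2_3 :=
  innS_eqZ E _ _ _ _ _ _ _ (chkF_sound E keys 0 5 _ _ _ _ t3_2_3_0) (by decide +kernel)

def r3_2_4 : List (ℕ × ℤ) := [(51, 512), (55, -512), (122, -256), (181, 256)]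

theorem h3_2_4 (E : Env κ ι) : inn E 0 5 c3_2 c3_4 = dotS (ek E keys) r3_2_4 :=
  innS_eqZ E _ _ _ _ _ _ _ (chkF_sound E keys 0 5 _ _ _ _ t3_2_4_0) (by decide +kernel)

def r3_2_5 : List (ℕ × ℤ) := [(57, -512), (122, -256), (138, 512), (181, 256)]

theorem h3_2_5 (E : Env κ ι) : inn E 0 5 c3_2 c3_5 = dotS (ek E keys) r3_2_5 :=
  innS_eqZ E _ _ _ _ _ _ _ (chkF_sound E keys 0 5 _ _ _ _ t3_2_5_0) (by decide +kernel)

def r3_2_6 : List (ℕ × ℤ) := [(58, -512), (108, 512), (120, -256), (180, 256)]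

theorem h3_2_6 (E : Env κ ι) : inn E 0 5 c3_2 c3_6 = dotS (ek E keys) r3_2_6 :=
  innS_eqZ E _ _ _ _ _ _ _ (chkF_sound E keys 0 5 _ _ _ _ t3_2_6_0) (by decide +kernel)

def r3_2_7 : List (ℕ × ℤ) := [(52, 256), (54, -256), (111, 256), (143, -256), (183, 0)]

theorem h3_2_7 (E : Env κ ι) : inn E 0 5 c3_2 c3_7 = dotS (ek E keys) r3_2_7 :=
  innS_eqZ E _ _ _ _ _ _ _ (chkF_sound E keys 0 5 _ _ _ _ t3_2_7_0) (by decide +kernel)

def r3_2_8 : List (ℕ × ℤ) := [(52, -256), (57, -256), (111, 256), (138, 256), (182, -256), (183, 256)]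

theorem h3_2_8 (E : Env κ ι) : inn E 0 5 c3_2 c3_8 = dotS (ek E keys) r3_2_8 :=
  innS_eqZ E _ _ _ _ _ _ _ (chkF_sound E keys 0 5 _ _ _ _ t3_2_8_0) (by decide +kernel)

def r3_2_9 : List (ℕ × ℤ) := [(52, -256), (54, 512), (57, -256), (138, 256), (143, -256), (183, 0)]

theorem h3_2_9 (E : Env κ ι) : inn E 0 5 c3_2 c3_9 = dotS (ek E keys) r3_2_9 :=
  innS_eqZ E _ _ _ _ _ _ _ (chkF_sound E keys 0 5 _ _ _ _ t3_2_9_0) (by decide +kernel)

def r3_3_3 : List (ℕ × ℤ) := [(17, 384), (71, 64), (73, 256), (80, -256), (83, 256), (99, -512), (125, -128), (144, -256), (184, 192)]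

theorem h3_3_3 (E : Env κ ι) : inn E 0 5 c3_3 c3_3 = dotS (ek E keys) r3_3_3 :=
  innS_eqZ E _ _ _ _ _ _ _ (chkF_sound E keys 0 5 _ _ _ _ t3_3_3_0) (by decide +kernel)

def r3_3_4 : List (ℕ × ℤ) := [(75, 64), (76, 128), (84, 128), (85, 256), (106, -128), (113, -512), (130, -256), (147, -256), (185, 384), (186, 192)]

theorem h3_3_4 (E : Env κ ι) : inn E 0 5 c3_3 c3_4 = dotS (ek E keys) r3_3_4 :=
  innS_eqZ E _ _ _ _ _ _ _ (chkF_sound E keys 0 5 _ _ _ _ t3_3_4_0) (by decide +kernel)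

def r3_3_5 : List (ℕ × ℤ) := [(75, 192), (76, -128), (84, 384), (85, -256), (106, 128), (130, -256), (147, -256), (185, 128), (186, 64)]

theorem h3_3_5 (E : Env κ ι) : inn E 0 5 c3_3 c3_5 = dotS (ek E keys) r3_3_5 :=
  innS_eqZ E _ _ _ _ _ _ _ (chkF_sound E keys 0 5 _ _ _ _ t3_3_5_0) (by decide +kernel)

def r3_3_6 : List (ℕ × ℤ) := [(17, 128), (71, 192), (73, 256), (80, -256), (83, -256), (125, 128), (144, -256), (184, 64)]

theorem h3_3_6 (E : Env κ ι) : inn E 0 5 c3_3 c3_6 = dotS (ek E keys) r3_3_6 :=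
  innS_eqZ E _ _ _ _ _ _ _ (chkF_sound E keys 0 5 _ _ _ _ t3_3_6_0) (by decide +kernel)

def r3_3_7 : List (ℕ × ℤ) := [(18, 64), (26, 64), (82, 128), (96, -256), (97, 128), (101, -128), (106, 192), (107, -128), (112, -128), (123, 128), (127, -128), (128, -64), (130, 384), (131, -128), (187, -128), (188, 64), (189, -64)]

theorem h3_3_7 (E : Env κ ι) : inn E 0 5 c3_3 c3_7 = dotS (ek E keys) r3_3_7 :=
  innS_eqZ E _ _ _ _ _ _ _ (chkF_sound E keys 0 5 _ _ _ _ t3_3_7_0) (by decide +kernel)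

def r3_3_8 : List (ℕ × ℤ) := [(18, 192), (26, 192), (82, -128), (96, -256), (97, -128), (101, 128), (106, 64), (107, -128), (112, -128), (123, -128), (127, -128), (128, 64), (130, 128), (131, 128), (187, -128), (188, 192), (189, 64)]

theorem h3_3_8 (E : Env κ ι) : inn E 0 5 c3_3 c3_8 = dotS (ek E keys) r3_3_8 :=
  innS_eqZ E _ _ _ _ _ _ _ (chkF_sound E keys 0 5 _ _ _ _ t3_3_8_0) (by decide +kernel)

def r3_3_9 : List (ℕ × ℤ) := [(18, 64), (26, 64), (82, -128), (96, 256), (97, -128), (101, -128), (106, -64), (107, -128), (112, -128), (123, -128), (127, -128), (128, 192), (130, -128), (131, 384), (187, 128), (188, 64), (189, -64)]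

theorem h3_3_9 (E : Env κ ι) : inn E 0 5 c3_3 c3_9 = dotS (ek E keys) r3_3_9 :=
  innS_eqZ E _ _ _ _ _ _ _ (chkF_sound E keys 0 5 _ _ _ _ t3_3_9_0) (by decide +kernel)

def r3_4_4 : List (ℕ × ℤ) := [(22, 384), (27, 256), (88, 64), (89, 256), (102, -128), (115, -512), (148, -256), (149, -256), (190, 192)]

theorem h3_4_4 (E : Env κ ι) : inn E 0 5 c3_4 c3_4 = dotS (ek E keys) r3_4_4 :=
  innS_eqZ E _ _ _ _ _ _ _ (chkF_sound E keys 0 5 _ _ _ _ t3_4_4_0) (by decide +kernel)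

def r3_4_5 : List (ℕ × ℤ) := [(22, 128), (27, 256), (88, 192), (89, -256), (102, 128), (148, -256), (149, -256), (190, 64)]

theorem h3_4_5 (E : Env κ ι) : inn E 0 5 c3_4 c3_5 = dotS (ek E keys) r3_4_5 :=
  innS_eqZ E _ _ _ _ _ _ _ (chkF_sound E keys 0 5 _ _ _ _ t3_4_5_0) (by decide +kernel)

def r3_4_6 : List (ℕ × ℤ) := [(75, 192), (76, 384), (84, -128), (85, -256), (106, 128), (113, -512), (130, 256), (147, -256), (185, 128), (186, 64)]

theorem h3_4_6 (E : Env κ ι) : inn E 0 5 c3_4 c3_6 = dotS (ek E keys) r3_4_6 :=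
  innS_eqZ E _ _ _ _ _ _ _ (chkF_sound E keys 0 5 _ _ _ _ t3_4_6_0) (by decide +kernel)

def r3_4_7 : List (ℕ × ℤ) := [(105, 256), (109, -128), (110, -64), (124, 128), (139, -128), (140, -128), (141, -128), (173, 384), (174, 192), (191, -256), (192, 128), (193, -128), (194, -128), (195, 64), (196, -64)]

theorem h3_4_7 (E : Env κ ι) : inn E 0 5 c3_4 c3_7 = dotS (ek E keys) r3_4_7 :=
  innS_eqZ E _ _ _ _ _ _ _ (chkF_sound E keys 0 5 _ _ _ _ t3_4_7_0) (by decide +kernel)

def r3_4_8 : List (ℕ × ℤ) := [(105, -256), (109, -128), (110, 64), (124, -128), (139, -128), (140, -128), (141, 128), (173, 128), (174, 64), (191, -256), (192, 384), (193, 128), (194, -128), (195, 192), (196, 64)]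

theorem h3_4_8 (E : Env κ ι) : inn E 0 5 c3_4 c3_8 = dotS (ek E keys) r3_4_8 :=
  innS_eqZ E _ _ _ _ _ _ _ (chkF_sound E keys 0 5 _ _ _ _ t3_4_8_0) (by decide +kernel)

def r3_4_9 : List (ℕ × ℤ) := [(105, -256), (109, -128), (110, 192), (124, -128), (139, -128), (140, -128), (141, 384), (173, -128), (174, -64), (191, 256), (192, 128), (193, -128), (194, 128), (195, 64), (196, -64)]

theorem h3_4_9 (E : Env κ ι) : inn E 0 5 c3_4 c3_9 = dotS (ek E keys) r3_4_9 :=
  innS_eqZ E _ _ _ _ _ _ _ (chkF_sound E keys 0 5 _ _ _ _ t3_4_9_0) (by decide +kernel)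

def r3_5_5 : List (ℕ × ℤ) := [(22, -128), (27, 256), (88, 64), (89, -256), (102, 384), (115, -512), (148, -256), (149, 256), (190, 192)]

theorem h3_5_5 (E : Env κ ι) : inn E 0 5 c3_5 c3_5 = dotS (ek E keys) r3_5_5 :=
  innS_eqZ E _ _ _ _ _ _ _ (chkF_sound E keys 0 5 _ _ _ _ t3_5_5_0) (by decide +kernel)

def r3_5_6 : List (ℕ × ℤ) := [(75, 64), (76, 128), (84, 128), (85, -256), (106, 384), (130, -256), (147, -256), (185, -128), (186, 192)]

theorem h3_5_6 (E : Env κ ι) : inn E 0 5 c3_5 c3_6 = dotS (ek E keys) r3_5_6 :=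
  innS_eqZ E _ _ _ _ _ _ _ (chkF_sound E keys 0 5 _ _ _ _ t3_5_6_0) (by decide +kernel)

def r3_5_7 : List (ℕ × ℤ) := [(105, 256), (109, 128), (110, 64), (124, -128), (139, -128), (140, -128), (141, -128), (173, 128), (174, 64), (191, -256), (192, 128), (193, -128), (194, 128), (195, -64), (196, 64)]

theorem h3_5_7 (E : Env κ ι) : inn E 0 5 c3_5 c3_7 = dotS (ek E keys) r3_5_7 :=
  innS_eqZ E _ _ _ _ _ _ _ (chkF_sound E keys 0 5 _ _ _ _ t3_5_7_0) (by decide +kernel)

def r3_5_8 : List (ℕ × ℤ) := [(109, -128), (110, 192), (124, -128), (139, -128), (140, 128), (141, -128), (173, -128), (174, 192), (192, 128), (193, -128), (194, -128), (195, 64), (196, 192)]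

theorem h3_5_8 (E : Env κ ι) : inn E 0 5 c3_5 c3_8 = dotS (ek E keys) r3_5_8 :=
  innS_eqZ E _ _ _ _ _ _ _ (chkF_sound E keys 0 5 _ _ _ _ t3_5_8_0) (by decide +kernel)

def r3_5_9 : List (ℕ × ℤ) := [(105, -256), (109, -128), (110, 64), (124, 128), (139, 128), (140, -128), (141, 128), (173, -128), (174, 64), (191, 256), (192, 128), (193, -128), (194, -128), (195, -64), (196, 64)]

theorem h3_5_9 (E : Env κ ι) : inn E 0 5 c3_5 c3_9 = dotS (ek E keys) r3_5_9 :=
  innS_eqZ E _ _ _ _ _ _ _ (chkF_sound E keys 0 5 _ _ _ _ t3_5_9_0) (by decide +kernel)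

def r3_6_6 : List (ℕ × ℤ) := [(17, -128), (71, 64), (73, 256), (80, 256), (83, -256), (99, -512), (125, 384), (144, -256), (184, 192)]

theorem h3_6_6 (E : Env κ ι) : inn E 0 5 c3_6 c3_6 = dotS (ek E keys) r3_6_6 :=
  innS_eqZ E _ _ _ _ _ _ _ (chkF_sound E keys 0 5 _ _ _ _ t3_6_6_0) (by decide +kernel)

def r3_6_7 : List (ℕ × ℤ) := [(18, -64), (26, 192), (82, 384), (96, -256), (97, -128), (101, -128), (106, 64), (107, -128), (112, -128), (123, -128), (127, 128), (128, 64), (130, 128), (131, -128), (187, 128), (188, -64), (189, 64)]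

theorem h3_6_7 (E : Env κ ι) : inn E 0 5 c3_6 c3_7 = dotS (ek E keys) r3_6_7 :=
  innS_eqZ E _ _ _ _ _ _ _ (chkF_sound E keys 0 5 _ _ _ _ t3_6_7_0) (by decide +kernel)

def r3_6_8 : List (ℕ × ℤ) := [(18, 64), (26, 64), (82, 128), (97, -128), (101, -128), (106, 192), (107, -128), (112, 128), (123, -128), (127, -128), (128, 192), (130, -128), (131, -128), (187, -128), (188, 64), (189, 192)]

theorem h3_6_8 (E : Env κ ι) : inn E 0 5 c3_6 c3_8 = dotS (ek E keys) r3_6_8 :=
  innS_eqZ E _ _ _ _ _ _ _ (chkF_sound E keys 0 5 _ _ _ _ t3_6_8_0) (by decide +kernel)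

def r3_6_9 : List (ℕ × ℤ) := [(18, 192), (26, -64), (82, -128), (96, 256), (97, -128), (101, -128), (106, 64), (107, 128), (112, -128), (123, 128), (127, -128), (128, 64), (130, -128), (131, 128), (187, -128), (188, -64), (189, 64)]

theorem h3_6_9 (E : Env κ ι) : inn E 0 5 c3_6 c3_9 = dotS (ek E keys) r3_6_9 :=
  innS_eqZ E _ _ _ _ _ _ _ (chkF_sound E keys 0 5 _ _ _ _ t3_6_9_0) (by decide +kernel)

def r3_7_7 : List (ℕ × ℤ) := [(102, -32), (103, 128), (109, -128), (110, -64), (115, -128), (116, 128), (117, 256), (136, 96), (137, 192), (139, -128), (140, -128), (141, -128), (148, -64), (149, -64), (150, 64), (197, 96), (198, -64), (199, 192), (200, -128), (201, -64), (202, -32)]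

theorem h3_7_7 (E : Env κ ι) : inn E 0 5 c3_7 c3_7 = dotS (ek E keys) r3_7_7 :=
  innS_eqZ E _ _ _ _ _ _ _ (innS_add E _ _ _ _ _ _ _ _ (chkF_sound E keys 0 5 _ _ _ _ t3_7_7_0) (chkF_sound E keys 0 5 _ _ _ _ t3_7_7_1)) (by decide +kernel)

def r3_7_8 : List (ℕ × ℤ) := [(102, 32), (103, 128), (110, 64), (116, 128), (136, 32), (137, 64), (139, -128), (140, -128), (148, -64), (149, -64), (150, -64), (197, 32), (198, -64), (199, 64), (201, -64), (202, 32)]

theorem h3_7_8 (E : Env κ ι) : inn E 0 5 c3_7 c3_8 = dotS (ek E keys) r3_7_8 :=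
  innS_eqZ E _ _ _ _ _ _ _ (innS_add E _ _ _ _ _ _ _ _ (chkF_sound E keys 0 5 _ _ _ _ t3_7_8_0) (chkF_sound E keys 0 5 _ _ _ _ t3_7_8_1)) (by decide +kernel)

def r3_7_9 : List (ℕ × ℤ) := [(102, -32), (109, 256), (110, 64), (117, -128), (136, -32), (137, -64), (141, -128), (148, 64), (149, 64), (150, -64), (197, -32), (198, -64), (199, -64), (200, 128), (201, -64), (202, 96)]

theorem h3_7_9 (E : Env κ ι) : inn E 0 5 c3_7 c3_9 = dotS (ek E keys) r3_7_9 :=
  innS_eqZ E _ _ _ _ _ _ _ (innS_add E _ _ _ _ _ _ _ _ (chkF_sound E keys 0 5 _ _ _ _ t3_7_9_0) (chkF_sound E keys 0 5 _ _ _ _ t3_7_9_1)) (by decide +kernel)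

def r3_8_8 : List (ℕ × ℤ) := [(102, 96), (109, -128), (110, 192), (115, -128), (116, 128), (136, 96), (137, -64), (139, -128), (140, 128), (141, -128), (148, -64), (149, 64), (150, -64), (197, 96), (198, -64), (199, -64), (200, -128), (201, 64), (202, 96)]

theorem h3_8_8 (E : Env κ ι) : inn E 0 5 c3_8 c3_8 = dotS (ek E keys) r3_8_8 :=
  innS_eqZ E _ _ _ _ _ _ _ (innS_add E _ _ _ _ _ _ _ _ (chkF_sound E keys 0 5 _ _ _ _ t3_8_8_0) (chkF_sound E keys 0 5 _ _ _ _ t3_8_8_1)) (by decide +kernel)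

def r3_8_9 : List (ℕ × ℤ) := [(102, 32), (110, 64), (115, -128), (116, -128), (117, 128), (136, 32), (137, -64), (140, 128), (141, -128), (148, -64), (149, 192), (150, -64), (197, 32), (198, 64), (199, -64), (201, -64), (202, 32)]

theorem h3_8_9 (E : Env κ ι) : inn E 0 5 c3_8 c3_9 = dotS (ek E keys) r3_8_9 :=
  innS_eqZ E _ _ _ _ _ _ _ (innS_add E _ _ _ _ _ _ _ _ (chkF_sound E keys 0 5 _ _ _ _ t3_8_9_0) (chkF_sound E keys 0 5 _ _ _ _ t3_8_9_1)) (by decide +kernel)

def r3_9_9 : List (ℕ × ℤ) := [(102, 96), (103, 128), (109, -128), (110, -64), (115, -128), (116, -128), (136, -32), (137, 64), (139, -128), (140, 128), (141, 128), (148, -64), (149, 64), (150, 64), (197, 96), (198, 192), (199, -64), (200, -128), (201, -64), (202, -32)]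

theorem h3_9_9 (E : Env κ ι) : inn E 0 5 c3_9 c3_9 = dotS (ek E keys) r3_9_9 :=
  innS_eqZ E _ _ _ _ _ _ _ (innS_add E _ _ _ _ _ _ _ _ (chkF_sound E keys 0 5 _ _ _ _ t3_9_9_0) (chkF_sound E keys 0 5 _ _ _ _ t3_9_9_1)) (by decide +kernel)

theorem row3_0 (E : Env κ ι) : RowS E 0 5 (ek E keys) c3_0 [c3_0, c3_1, c3_2, c3_3, c3_4, c3_5, c3_6, c3_7, c3_8, c3_9] [r3_0_0, r3_0_1, r3_0_2, r3_0_3, r3_0_4, r3_0_5, r3_0_6, r3_0_7, r3_0_8, r3_0_9] :=
  rowS_cons E _ _ _ _ _ _ _ _ (h3_0_0 E) (rowS_cons E _ _ _ _ _ _ _ _ (h3_0_1 E) (rowS_cons E _ _ _ _ _ _ _ _ (h3_0_2 E) (rowS_cons E _ _ _ _ _ _ _ _ (h3_0_3 E) (rowS_cons E _ _ _ _ _ _ _ _ (h3_0_4 E) (rowS_cons E _ _ _ _ _ _ _ _ (h3_0_5 E) (rowS_cons E _ _ _ _ _ _ _ _ (h3_0_6 E) (rowS_cons E _ _ _ _ _ _ _ _ (h3_0_7 E) (rowS_cons E _ _ _ _ _ _ _ _ (h3_0_8 E) (rowS_cons E _ _ _ _ _ _ _ _ (h3_0_9 E) (rowS_nil E _ _ _ _))))))))))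

theorem row3_1 (E : Env κ ι) : RowS E 0 5 (ek E keys) c3_1 [c3_1, c3_2, c3_3, c3_4, c3_5, c3_6, c3_7, c3_8, c3_9] [r3_1_1, r3_1_2, r3_1_3, r3_1_4, r3_1_5, r3_1_6, r3_1_7, r3_1_8, r3_1_9] :=
  rowS_cons E _ _ _ _ _ _ _ _ (h3_1_1 E) (rowS_cons E _ _ _ _ _ _ _ _ (h3_1_2 E) (rowS_cons E _ _ _ _ _ _ _ _ (h3_1_3 E) (rowS_cons E _ _ _ _ _ _ _ _ (h3_1_4 E) (rowS_cons E _ _ _ _ _ _ _ _ (h3_1_5 E) (rowS_cons E _ _ _ _ _ _ _ _ (h3_1_6 E) (rowS_cons E _ _ _ _ _ _ _ _ (h3_1_7 E) (rowS_cons E _ _ _ _ _ _ _ _ (h3_1_8 E) (rowS_cons E _ _ _ _ _ _ _ _ (h3_1_9 E) (rowS_nil E _ _ _ _)))))))))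

theorem row3_2 (E : Env κ ι) : RowS E 0 5 (ek E keys) c3_2 [c3_2, c3_3, c3_4, c3_5, c3_6, c3_7, c3_8, c3_9] [r3_2_2, r3_2_3, r3_2_4, r3_2_5, r3_2_6, r3_2_7, r3_2_8, r3_2_9] :=
  rowS_cons E _ _ _ _ _ _ _ _ (h3_2_2 E) (rowS_cons E _ _ _ _ _ _ _ _ (h3_2_3 E) (rowS_cons E _ _ _ _ _ _ _ _ (h3_2_4 E) (rowS_cons E _ _ _ _ _ _ _ _ (h3_2_5 E) (rowS_cons E _ _ _ _ _ _ _ _ (h3_2_6 E) (rowS_cons E _ _ _ _ _ _ _ _ (h3_2_7 E) (rowS_cons E _ _ _ _ _ _ _ _ (h3_2_8 E) (rowS_cons E _ _ _ _ _ _ _ _ (h3_2_9 E) (rowS_nil E _ _ _ _))))))))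

theorem row3_3 (E : Env κ ι) : RowS E 0 5 (ek E keys) c3_3 [c3_3, c3_4, c3_5, c3_6, c3_7, c3_8, c3_9] [r3_3_3, r3_3_4, r3_3_5, r3_3_6, r3_3_7, r3_3_8, r3_3_9] :=
  rowS_cons E _ _ _ _ _ _ _ _ (h3_3_3 E) (rowS_cons E _ _ _ _ _ _ _ _ (h3_3_4 E) (rowS_cons E _ _ _ _ _ _ _ _ (h3_3_5 E) (rowS_cons E _ _ _ _ _ _ _ _ (h3_3_6 E) (rowS_cons E _ _ _ _ _ _ _ _ (h3_3_7 E) (rowS_cons E _ _ _ _ _ _ _ _ (h3_3_8 E) (rowS_cons E _ _ _ _ _ _ _ _ (h3_3_9 E) (rowS_nil E _ _ _ _)))))))

theorem row3_4 (E : Env κ ι) : RowS E 0 5 (ek E keys) c3_4 [c3_4, c3_5, c3_6, c3_7, c3_8, c3_9] [r3_4_4, r3_4_5, r3_4_6, r3_4_7, r3_4_8, r3_4_9] :=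
  rowS_cons E _ _ _ _ _ _ _ _ (h3_4_4 E) (rowS_cons E _ _ _ _ _ _ _ _ (h3_4_5 E) (rowS_cons E _ _ _ _ _ _ _ _ (h3_4_6 E) (rowS_cons E _ _ _ _ _ _ _ _ (h3_4_7 E) (rowS_cons E _ _ _ _ _ _ _ _ (h3_4_8 E) (rowS_cons E _ _ _ _ _ _ _ _ (h3_4_9 E) (rowS_nil E _ _ _ _))))))

theorem row3_5 (E : Env κ ι) : RowS E 0 5 (ek E keys) c3_5 [c3_5, c3_6, c3_7, c3_8, c3_9] [r3_5_5, r3_5_6, r3_5_7, r3_5_8, r3_5_9] :=
  rowS_cons E _ _ _ _ _ _ _ _ (h3_5_5 E) (rowS_cons E _ _ _ _ _ _ _ _ (h3_5_6 E) (rowS_cons E _ _ _ _ _ _ _ _ (h3_5_7 E) (rowS_cons E _ _ _ _ _ _ _ _ (h3_5_8 E) (rowS_cons E _ _ _ _ _ _ _ _ (h3_5_9 E) (rowS_nil E _ _ _ _)))))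

theorem row3_6 (E : Env κ ι) : RowS E 0 5 (ek E keys) c3_6 [c3_6, c3_7, c3_8, c3_9] [r3_6_6, r3_6_7, r3_6_8, r3_6_9] :=
  rowS_cons E _ _ _ _ _ _ _ _ (h3_6_6 E) (rowS_cons E _ _ _ _ _ _ _ _ (h3_6_7 E) (rowS_cons E _ _ _ _ _ _ _ _ (h3_6_8 E) (rowS_cons E _ _ _ _ _ _ _ _ (h3_6_9 E) (rowS_nil E _ _ _ _))))

theorem row3_7 (E : Env κ ι) : RowS E 0 5 (ek E keys) c3_7 [c3_7, c3_8, c3_9] [r3_7_7, r3_7_8, r3_7_9] :=
  rowS_cons E _ _ _ _ _ _ _ _ (h3_7_7 E) (rowS_cons E _ _ _ _ _ _ _ _ (h3_7_8 E) (rowS_cons E _ _ _ _ _ _ _ _ (h3_7_9 E) (rowS_nil E _ _ _ _)))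

theorem row3_8 (E : Env κ ι) : RowS E 0 5 (ek E keys) c3_8 [c3_8, c3_9] [r3_8_8, r3_8_9] :=
  rowS_cons E _ _ _ _ _ _ _ _ (h3_8_8 E) (rowS_cons E _ _ _ _ _ _ _ _ (h3_8_9 E) (rowS_nil E _ _ _ _))

theorem row3_9 (E : Env κ ι) : RowS E 0 5 (ek E keys) c3_9 [c3_9] [r3_9_9] :=
  rowS_cons E _ _ _ _ _ _ _ _ (h3_9_9 E) (rowS_nil E _ _ _ _)

def tab3 : List (List (List (ℕ × ℤ))) := [[r3_0_0, r3_0_1, r3_0_2, r3_0_3, r3_0_4, r3_0_5, r3_0_6, r3_0_7, r3_0_8, r3_0_9], [r3_1_1, r3_1_2, r3_1_3, r3_1_4, r3_1_5, r3_1_6, r3_1_7, r3_1_8, r3_1_9], [r3_2_2, r3_2_3, r3_2_4, r3_2_5, r3_2_6, r3_2_7, r3_2_8, r3_2_9], [r3_3_3, r3_3_4, r3_3_5, r3_3_6, r3_3_7, r3_3_8, r3_3_9], [r3_4_4, r3_4_5, r3_4_6, r3_4_7, r3_4_8, r3_4_9], [r3_5_5, r3_5_6, r3_5_7, r3_5_8, r3_5_9], [r3_6_6, r3_6_7, r3_6_8, r3_6_9], [r3_7_7, r3_7_8, r3_7_9], [r3_8_8, r3_8_9], [r3_9_9]]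

theorem tri3 (E : Env κ ι) : TriS E 0 5 (ek E keys) [c3_0, c3_1, c3_2, c3_3, c3_4, c3_5, c3_6, c3_7, c3_8, c3_9] tab3 := by
  refine triS_cons E _ _ _ _ _ _ _ (row3_0 E) ?_
  refine triS_cons E _ _ _ _ _ _ _ (row3_1 E) ?_
  refine triS_cons E _ _ _ _ _ _ _ (row3_2 E) ?_
  refine triS_cons E _ _ _ _ _ _ _ (row3_3 E) ?_
  refine triS_cons E _ _ _ _ _ _ _ (row3_4 E) ?_
  refine triS_cons E _ _ _ _ _ _ _ (row3_5 E) ?_
  refine triS_cons E _ _ _ _ _ _ _ (row3_6 E) ?_
  refine triS_cons E _ _ _ _ _ _ _ (row3_7 E) ?_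
  refine triS_cons E _ _ _ _ _ _ _ (row3_8 E) ?_
  refine triS_cons E _ _ _ _ _ _ _ (row3_9 E) ?_
  exact triS_nil E _ _ _

def rows3 : List (ℕ × List ℤ) := [(1095725368080000, [16777216, -10566924, -141008, -2392589, 284280, -5479155, 5608285, -18125977, 10932060, -2809136]),
  (22684127760000, [0, 8388608, -5746282, -5359902, -13393091, 32994801, 2017386, -17884301, -9158666, -41189036]),
  (6943164480000, [0, 0, 8388608, -38850910, 14002555, 39749952, 18307380, 52418307, -103503744, 116031854]),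
  (177338548800000, [0, 0, 0, 4194304, -8062454, 2714290, -499363, 4941653, -2068322, -135642]),
  (125890601760000, [0, 0, 0, 0, 4194304, -4756611, -861075, -3682894, 6124462, -3336706]),
  (5775598080000, [0, 0, 0, 0, 0, 2097152, 182020, -740827, -878352, -1511917]),
  (1430472960000, [0, 0, 0, 0, 0, 0, 2097152, 1651901, -2271453, 4342671]),
  (54953640000000, [0, 0, 0, 0, 0, 0, 0, 2097152, -1639417, 2855446]),
  (11571517440000, [0, 0, 0, 0, 0, 0, 0, 0, 1048576, -794227]),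
  (20715601270983465369600000, [0, 0, 0, 0, 0, 0, 0, 0, 0, 1]),
  (18600831052865911794600, [2, -1, 0, 0, 0, 0, 0, 0, 0, 0]),
  (19029906984773149920000, [2, 0, -1, 0, 0, 0, 0, 0, 0, 0]),
  (10797419050090902231525, [2, 0, 0, 0, 0, 0, 0, 0, 1, 0]),
  (34565706456263287145325, [2, 0, 0, 0, 0, 0, 0, 0, 0, 1]),
  (8183345957048000970000, [0, 1, 1, 0, 0, 0, 0, 0, 0, 0]),
  (39500686760996160315000, [0, 1, 0, 0, 0, 0, 0, 0, -1, 0]),
  (21676959451883050875000, [0, 0, 1, 0, 0, 0, 0, 0, -1, 0]),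
  (2651725286080919217900, [4, 0, 0, 0, 0, 0, 0, 1, 0, 0]),
  (2275319877098913615600, [4, 0, 0, 0, 1, 0, 0, 0, 0, 0]),
  (47975459718505703146875, [0, 0, 0, 0, 0, 0, 0, 1, 0, 2]),
  (37739604902873817690624600, [1, 0, 0, 0, 0, 0, 0, 0, 0, 0]),
  (6329300123869495255895400, [0, 1, 0, 0, 0, 0, 0, 0, 0, 0]),
  (6309562986253085423130000, [0, 0, 1, 0, 0, 0, 0, 0, 0, 0]),
  (4239439122057312337920000, [0, 0, 0, 1, 0, 0, 0, 0, 0, 0]),
  (4237163802180213424304400, [0, 0, 0, 0, 1, 0, 0, 0, 0, 0]),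
  (4239439122057312337920000, [0, 0, 0, 0, 0, 1, 0, 0, 0, 0]),
  (4239439122057312337920000, [0, 0, 0, 0, 0, 0, 1, 0, 0, 0]),
  (4188811937052725715555225, [0, 0, 0, 0, 0, 0, 0, 1, 0, 0]),
  (4878612935962150629930975, [0, 0, 0, 0, 0, 0, 0, 0, 1, 0]),
  (4860864388523232297707175, [0, 0, 0, 0, 0, 0, 0, 0, 0, 1])]

def M3 : List (List ℤ) := [[308457422874672633926280806400, -388508276507528611926044618400, -5184438623068832024204160000, -87966985545111926829219840000, 10451982434930066962905724800, -201449036455666953014476800000, 206196687156828039649689600000, -666427667265092853030603376800, 401932996989219828965362526100, -103281798545482470974847578700],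
  [123951215372884703358991695000, 1078423632304466729499540000, 53365075568622475181677440000, -11680137496689200331125760000, 139437254392982367338079360000, -129102688056998864383136640000, 412934971894765642254683520000, -256638199984972238290153590000, 49375283217782014905108480000],
  [1265751188733515765262975000, -2388965912909278228713600000, 5034831870376444288098240000, -2278228112109645348098880000, -126386704106298517069440000, 16369611350317507423632960000, -13047366410847990034330230000, 25122187942398131863299840000],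
  [20528119856683012308895440000, -17781984823340626467284160000, 3298084791131330708124960000, -40515787890889238564411040000, 78459604663016572944167520000, -2329292249682087186524160000, -38055675135294449187045120000],
  [19265368202566840718335440000, -28517532030535913932341600000, 6346462938519754224175680000, -8253213754075033615754400000, 4632050844957393566815680000, 42703146238129565721402240000],
  [72745241752726730171570880000, -53660248423030912784093280000, 228956703077120763503626560000, -211453608959406125830486080000, 39949867576668544667504640000],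
  [37031375780691317406223920000, -211152715956647629768205280000, 106229924221989386389656960000, -8026715536980772735716480000],
  [392625916640452937989683360000, -511839649262571467318187840000, 233012445813373943146735147500],
  [212893023975496608026274232500, -222547619502643914464751360000],
  [142535860849449768146060160000]]

def u3 : List ℤ := [0, 0, 0, 0, 0, 0, 0, 0, 0, 0, 0, 0, 19741275063979048571281971609600, -10885957705656112136048616038400, 0, 0, 0, -2043238924996034437625425920000, 20909986966167715849488814080000, -39482550127958097142563943219200, 27123330417996418557104963174400, 0, -5563733654471951609459988480000, -5980230398304870569536389120000, 0, 0, -31090269141266999550828318720000, 16254227948737960181136568320000, 0, 0, 0, -95620365200676880585702401638400, -27123330417996418557104963174400, 48544977191543377220571082675200, 0, -648064608631560071814643200000, 0, 0, 0, 0, 0, 0, 0, 0, 0, -1223150547409550453101363200000,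 0, 0, 1223150547409550453101363200000, 0, 0, 2577833917632739475506298880000, 1099466193604445592233817600000, 0, 8671939720826561613559480320000, -2577833917632739475506298880000, 0, -2476854418416584855493358080000, 64709992502424840739553280000, 0, 0, 0, 0, 0, 0, 0, 0, 0, 0, 0, 0, -4095223554258776702599280640000, 0, 4363189183100183334581329920000, 0, -2720549763674770205086433280000, -7129718940408781732732846080000, 0, 0, 0, 14596875216613771177405317120000, 0, -51245687816061391470272716800000, 6147208183521518967573135360000, 18632430139263052720068034560000, -20607087428404671738584678400000, 0, 0, 413312887275893061944417280000, -6390359429023737733348823040000, 0, 0, 0, 0, 0, 0, 22768643294985708054476881920000, 29669642152912912055296204800000, 0, -29470461766335656814141112320000, 0, 8987684543262055061839134720000, 12418314347395411489721211840000, 2985232413098398568647127040000, -32705821925451050753780121600000, 34155116713802297838630297600000,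 -59476121077836232414234275840000, 7529144181713591561245900800000, -64709992502424840739553280000, 208939247671768771882766610240000, 183680397626326412252454720000, 850494704504196451661498880000, 36778843960009952297341501440000, 5854987205028286588471541760000, 0, -114374351588342999456882134080000, 22232454400841244802107001920000, 42200546299505666351088667200000, 0, 19388828797024355635573555200000, 643930269955987646920458240000, 5980230398304870569536389120000, -705690562116300528639836160000, 27614802975445834234952785920000, -4242129584410634996429844480000, 6406428108096217772206755840000, 0, -44471111925721123839071232000000, -6108517193359504065713786880000, 0, 80274079647810716221219921920000, -12551660303475780742271385600000, 0, 0, 0, 0, 86074902156350873558912172480000, -26009191152708297522129227520000, 2476854418416584855493358080000, -112796054142885003572590386240000, -152571862428528855418569892800000, -79692796559928522641894415360000,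 648064608631560071814643200000, -10621900618935203657454796800000, -4363189183100183334581329920000, 0, 0, 15820207492280436305683660800000, -2216153509493799492006546240000, 23552116932818580402920198400000, 52713188893839842351723093760000, 19741275063979048571281971609600, -99458118785927324653067422310400, 99458118785927324653067422310400, -1327216287505620998196264960000, 1327216287505620998196264960000, 33959876859223820295670333440000, -30266803612599324882040258560000, -37652950105848315709300408320000, -3693073246624495413630074880000, 37652950105848315709300408320000, -38009288123652530693153579212800, 48895245829308642829202195251200, -123530094810730267010703145497600, 74985117619186889790132062822400, 27909729610053386425000743859200, 20635247581489990795570338816000, 47075388009133503365131318963200, 31731511135458484059901873920000, -31731511135458484059901873920000, 276076449869943482751882240000, -276076449869943482751882240000,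 -19388828797024355635573555200000, 24884035042164742282563970560000, -9077671987502611018094231040000, 32705821925451050753780121600000, 65699379196152893002279319040000, -65699379196152893002279319040000, 324032304315780035907321600000, -324032304315780035907321600000, -643930269955987646920458240000, 705690562116300528639836160000, 3340125801177085448788538880000, -3340125801177085448788538880000, 8458412737358960037180610560000, 1274731735380495144261304320000, -13099657728605666100597227520000, -54213364760356502830954782720000, 22964826143634793669832232960000, 3633735641275874926169763840000, 15840915061462067119192151040000, -36526726746420483344839925760000, 13542277979303666578782720000000, -11170667946685481072573091840000, 57188448461709510455929466880000, -27648902054033198156513433600000, -25297416823265677302986188800000, 40856470074163475761804125120000, -7784433543746984439748849920000, 19209240929479100274978819840000, -65925421523459247489956173440000,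 11462788443995861793711024960000, 2181355619567794099211053440000]

theorem gr3 : eqM (gramT rows3) M3 = true := by
  decide +kernel

theorem mv3 : eqZ (mval M3 tab3) u3 = true := by
  decide +kernel

theorem nn3 (E : Env κ ι) : 0 ≤ dot (ek E keys) u3 0 :=
  block_nonneg E _ _ _ _ _ (tri3 E) rows3 M3 gr3 u3 mv3

end

end YMA
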