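import Pool.Agent.YM.YMA.T7_0
import Pool.Agent.YM.YMA.T7_1
import Pool.Agent.YM.YMA.T7_2
import Pool.Agent.YM.YMA.T7_3
import Pool.Agent.YM.YMA.T7_4
import Pool.Agent.YM.YMA.T7_5
import Pool.Agent.YM.YMA.T7_6
import Pool.Agent.YM.YMA.T7_7
import Pool.Agent.YM.YMA.T7_8

set_option linter.unusedVariables false
set_option maxRecDepth 100000

open YMEng

namespace YMA

section

variable {κ ι : Type*} [Fintype κ] [Fintype ι] [Inhabited κ] [Inhabited ι]

def r7_0_0 : List (ℕ × ℤ) := [(243, -48), (246, -24), (260, 24), (329, 48)]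

theorem h7_0_0 (E : Env κ ι) : inn E 1 5 c7_0 c7_0 = dotS (ek E keys) r7_0_0 :=
  innS_eqZ E _ _ _ _ _ _ _ (chkF_sound E keys 1 5 _ _ _ _ t7_0_0_0) (by decide +kernel)

def r7_0_1 : List (ℕ × ℤ) := [(248, -216), (263, 72), (333, 144)]

theorem h7_0_1 (E : Env κ ι) : inn E 1 5 c7_0 c7_1 = dotS (ek E keys) r7_0_1 :=
  innS_eqZ E _ _ _ _ _ _ _ (chkF_sound E keys 1 5 _ _ _ _ t7_0_1_0) (by decide +kernel)

def r7_0_2 : List (ℕ × ℤ) := [(73, 48), (75, -96), (81, 96), (84, 48), (131, 96), (146, -192)]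

theorem h7_0_2 (E : Env κ ι) : inn E 1 5 c7_0 c7_2 = dotS (ek E keys) r7_0_2 :=
  innS_eqZ E _ _ _ _ _ _ _ (chkF_sound E keys 1 5 _ _ _ _ t7_0_2_0) (by decide +kernel)

def r7_0_3 : List (ℕ × ℤ) := [(26, 48), (27, 48), (82, 96), (88, -96), (117, 96), (150, -192)]

theorem h7_0_3 (E : Env κ ι) : inn E 1 5 c7_0 c7_3 = dotS (ek E keys) r7_0_3 :=
  innS_eqZ E _ _ _ _ _ _ _ (chkF_sound E keys 1 5 _ _ _ _ t7_0_3_0) (by decide +kernel)

def r7_0_4 : List (ℕ × ℤ) := [(229, 48), (232, -96), (245, 96), (256, 48), (310, -192), (331, 96)]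

theorem h7_0_4 (E : Env κ ι) : inn E 1 5 c7_0 c7_4 = dotS (ek E keys) r7_0_4 :=
  innS_eqZ E _ _ _ _ _ _ _ (chkF_sound E keys 1 5 _ _ _ _ t7_0_4_0) (by decide +kernel)

def r7_0_5 : List (ℕ × ℤ) := [(231, 48), (237, 96), (250, -96), (261, 48), (313, -192), (332, 96)]

theorem h7_0_5 (E : Env κ ι) : inn E 1 5 c7_0 c7_5 = dotS (ek E keys) r7_0_5 :=
  innS_eqZ E _ _ _ _ _ _ _ (chkF_sound E keys 1 5 _ _ _ _ t7_0_5_0) (by decide +kernel)

def r7_0_6 : List (ℕ × ℤ) := [(73, -72), (75, 24), (81, -144), (84, 48), (131, 96), (146, 48)]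

theorem h7_0_6 (E : Env κ ι) : inn E 1 5 c7_0 c7_6 = dotS (ek E keys) r7_0_6 :=
  innS_eqZ E _ _ _ _ _ _ _ (chkF_sound E keys 1 5 _ _ _ _ t7_0_6_0) (by decide +kernel)

def r7_0_7 : List (ℕ × ℤ) := [(26, -72), (27, 48), (82, -144), (88, 24), (117, 96), (150, 48)]

theorem h7_0_7 (E : Env κ ι) : inn E 1 5 c7_0 c7_7 = dotS (ek E keys) r7_0_7 :=
  innS_eqZ E _ _ _ _ _ _ _ (chkF_sound E keys 1 5 _ _ _ _ t7_0_7_0) (by decide +kernel)

def r7_0_8 : List (ℕ × ℤ) := [(229, -72), (232, 24), (245, -144), (256, 48), (310, 48), (331, 96)]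

theorem h7_0_8 (E : Env κ ι) : inn E 1 5 c7_0 c7_8 = dotS (ek E keys) r7_0_8 :=
  innS_eqZ E _ _ _ _ _ _ _ (chkF_sound E keys 1 5 _ _ _ _ t7_0_8_0) (by decide +kernel)

def r7_0_9 : List (ℕ × ℤ) := [(231, -72), (237, -144), (250, 24), (261, 48), (313, 48), (332, 96)]

theorem h7_0_9 (E : Env κ ι) : inn E 1 5 c7_0 c7_9 = dotS (ek E keys) r7_0_9 :=
  innS_eqZ E _ _ _ _ _ _ _ (chkF_sound E keys 1 5 _ _ _ _ t7_0_9_0) (by decide +kernel)

def r7_0_10 : List (ℕ × ℤ) := [(18, 24), (23, 24), (97, 48), (121, 48), (124, -192), (139, 48), (140, 48), (141, 48), (195, -96)]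

theorem h7_0_10 (E : Env κ ι) : inn E 1 5 c7_0 c7_10 = dotS (ek E keys) r7_0_10 :=
  innS_eqZ E _ _ _ _ _ _ _ (chkF_sound E keys 1 5 _ _ _ _ t7_0_10_0) (by decide +kernel)

def r7_0_11 : List (ℕ × ℤ) := [(18, -96), (23, 24), (97, -192), (121, 48), (124, 48), (139, 48), (140, 48), (141, 48), (195, 24)]

theorem h7_0_11 (E : Env κ ι) : inn E 1 5 c7_0 c7_11 = dotS (ek E keys) r7_0_11 :=
  innS_eqZ E _ _ _ _ _ _ _ (chkF_sound E keys 1 5 _ _ _ _ t7_0_11_0) (by decide +kernel)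

def r7_0_12 : List (ℕ × ℤ) := [(18, 24), (23, -96), (97, 48), (121, 48), (124, 48), (139, 48), (140, 48), (141, -192), (195, 24)]

theorem h7_0_12 (E : Env κ ι) : inn E 1 5 c7_0 c7_12 = dotS (ek E keys) r7_0_12 :=
  innS_eqZ E _ _ _ _ _ _ _ (chkF_sound E keys 1 5 _ _ _ _ t7_0_12_0) (by decide +kernel)

def r7_0_13 : List (ℕ × ℤ) := [(221, 48), (224, -96), (236, 48), (239, 24), (245, 48), (256, 24), (311, 48), (312, -192), (331, 48)]

theorem h7_0_13 (E : Env κ ι) : inn E 1 5 c7_0 c7_13 = dotS (ek E keys) r7_0_13 :=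
  innS_eqZ E _ _ _ _ _ _ _ (chkF_sound E keys 1 5 _ _ _ _ t7_0_13_0) (by decide +kernel)

def r7_0_14 : List (ℕ × ℤ) := [(221, 48), (224, 24), (236, 48), (239, -96), (245, 48), (256, 24), (311, -192), (312, 48), (331, 48)]

theorem h7_0_14 (E : Env κ ι) : inn E 1 5 c7_0 c7_14 = dotS (ek E keys) r7_0_14 :=
  innS_eqZ E _ _ _ _ _ _ _ (chkF_sound E keys 1 5 _ _ _ _ t7_0_14_0) (by decide +kernel)

def r7_0_15 : List (ℕ × ℤ) := [(221, 48), (224, 24), (236, 48), (239, 24), (245, 48), (256, -96), (311, 48), (312, 48), (331, -192)]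

theorem h7_0_15 (E : Env κ ι) : inn E 1 5 c7_0 c7_15 = dotS (ek E keys) r7_0_15 :=
  innS_eqZ E _ _ _ _ _ _ _ (chkF_sound E keys 1 5 _ _ _ _ t7_0_15_0) (by decide +kernel)

def r7_1_1 : List (ℕ × ℤ) := [(266, -432), (354, 216), (367, 216)]

theorem h7_1_1 (E : Env κ ι) : inn E 1 5 c7_1 c7_1 = dotS (ek E keys) r7_1_1 :=
  innS_eqZ E _ _ _ _ _ _ _ (chkF_sound E keys 1 5 _ _ _ _ t7_1_1_0) (by decide +kernel)

def r7_1_2 : List (ℕ × ℤ) := [(78, -144), (87, 432), (159, -144), (368, 432), (369, -576)]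

theorem h7_1_2 (E : Env κ ι) : inn E 1 5 c7_1 c7_2 = dotS (ek E keys) r7_1_2 :=
  innS_eqZ E _ _ _ _ _ _ _ (chkF_sound E keys 1 5 _ _ _ _ t7_1_2_0) (by decide +kernel)

def r7_1_3 : List (ℕ × ℤ) := [(6, -144), (13, -144), (25, 432), (30, 432), (370, -576)]

theorem h7_1_3 (E : Env κ ι) : inn E 1 5 c7_1 c7_3 = dotS (ek E keys) r7_1_3 :=
  innS_eqZ E _ _ _ _ _ _ _ (chkF_sound E keys 1 5 _ _ _ _ t7_1_3_0) (by decide +kernel)

def r7_1_4 : List (ℕ × ℤ) := [(234, -144), (259, 432), (338, -144), (345, 432), (360, -576)]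

theorem h7_1_4 (E : Env κ ι) : inn E 1 5 c7_1 c7_4 = dotS (ek E keys) r7_1_4 :=
  innS_eqZ E _ _ _ _ _ _ _ (chkF_sound E keys 1 5 _ _ _ _ t7_1_4_0) (by decide +kernel)

def r7_1_5 : List (ℕ × ℤ) := [(251, -144), (265, 432), (270, -144), (271, 432), (275, -576)]

theorem h7_1_5 (E : Env κ ι) : inn E 1 5 c7_1 c7_5 = dotS (ek E keys) r7_1_5 :=
  innS_eqZ E _ _ _ _ _ _ _ (chkF_sound E keys 1 5 _ _ _ _ t7_1_5_0) (by decide +kernel)

def r7_1_6 : List (ℕ × ℤ) := [(78, -144), (87, -288), (159, 216), (368, 72), (369, 144)]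

theorem h7_1_6 (E : Env κ ι) : inn E 1 5 c7_1 c7_6 = dotS (ek E keys) r7_1_6 :=
  innS_eqZ E _ _ _ _ _ _ _ (chkF_sound E keys 1 5 _ _ _ _ t7_1_6_0) (by decide +kernel)

def r7_1_7 : List (ℕ × ℤ) := [(6, -144), (13, 216), (25, -288), (30, 72), (370, 144)]

theorem h7_1_7 (E : Env κ ι) : inn E 1 5 c7_1 c7_7 = dotS (ek E keys) r7_1_7 :=
  innS_eqZ E _ _ _ _ _ _ _ (chkF_sound E keys 1 5 _ _ _ _ t7_1_7_0) (by decide +kernel)

def r7_1_8 : List (ℕ × ℤ) := [(234, -144), (259, -288), (338, 216), (345, 72), (360, 144)]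

theorem h7_1_8 (E : Env κ ι) : inn E 1 5 c7_1 c7_8 = dotS (ek E keys) r7_1_8 :=
  innS_eqZ E _ _ _ _ _ _ _ (chkF_sound E keys 1 5 _ _ _ _ t7_1_8_0) (by decide +kernel)

def r7_1_9 : List (ℕ × ℤ) := [(251, -144), (265, -288), (270, 216), (271, 72), (275, 144)]

theorem h7_1_9 (E : Env κ ι) : inn E 1 5 c7_1 c7_9 = dotS (ek E keys) r7_1_9 :=
  innS_eqZ E _ _ _ _ _ _ _ (chkF_sound E keys 1 5 _ _ _ _ t7_1_9_0) (by decide +kernel)

def r7_1_10 : List (ℕ × ℤ) := [(16, 216), (21, 216), (164, -144), (166, -288), (371, 432), (372, -144), (373, -288)]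

theorem h7_1_10 (E : Env κ ι) : inn E 1 5 c7_1 c7_10 = dotS (ek E keys) r7_1_10 :=
  innS_eqZ E _ _ _ _ _ _ _ (chkF_sound E keys 1 5 _ _ _ _ t7_1_10_0) (by decide +kernel)

def r7_1_11 : List (ℕ × ℤ) := [(16, -144), (21, 216), (164, 216), (166, 432), (371, -288), (372, -144), (373, -288)]

theorem h7_1_11 (E : Env κ ι) : inn E 1 5 c7_1 c7_11 = dotS (ek E keys) r7_1_11 :=
  innS_eqZ E _ _ _ _ _ _ _ (chkF_sound E keys 1 5 _ _ _ _ t7_1_11_0) (by decide +kernel)

def r7_1_12 : List (ℕ × ℤ) := [(16, 216), (21, -144), (164, 216), (166, -288), (371, -288), (372, -144), (373, 432)]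

theorem h7_1_12 (E : Env κ ι) : inn E 1 5 c7_1 c7_12 = dotS (ek E keys) r7_1_12 :=
  innS_eqZ E _ _ _ _ _ _ _ (chkF_sound E keys 1 5 _ _ _ _ t7_1_12_0) (by decide +kernel)

def r7_1_13 : List (ℕ × ℤ) := [(226, -144), (242, 216), (259, 216), (319, -288), (339, -144), (346, 432), (361, -288)]

theorem h7_1_13 (E : Env κ ι) : inn E 1 5 c7_1 c7_13 = dotS (ek E keys) r7_1_13 :=
  innS_eqZ E _ _ _ _ _ _ _ (chkF_sound E keys 1 5 _ _ _ _ t7_1_13_0) (by decide +kernel)

def r7_1_14 : List (ℕ × ℤ) := [(226, 216), (242, -144), (259, 216), (319, -288), (339, -144), (346, -288), (361, 432)]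

theorem h7_1_14 (E : Env κ ι) : inn E 1 5 c7_1 c7_14 = dotS (ek E keys) r7_1_14 :=
  innS_eqZ E _ _ _ _ _ _ _ (chkF_sound E keys 1 5 _ _ _ _ t7_1_14_0) (by decide +kernel)

def r7_1_15 : List (ℕ × ℤ) := [(226, 216), (242, 216), (259, -144), (319, 432), (339, -144), (346, -288), (361, -288)]

theorem h7_1_15 (E : Env κ ι) : inn E 1 5 c7_1 c7_15 = dotS (ek E keys) r7_1_15 :=
  innS_eqZ E _ _ _ _ _ _ _ (chkF_sound E keys 1 5 _ _ _ _ t7_1_15_0) (by decide +kernel)

def r7_2_2 : List (ℕ × ℤ) := [(63, -96), (203, 192), (205, -192), (210, -576), (213, -192), (282, 192), (286, -96), (362, 768)]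

theorem h7_2_2 (E : Env κ ι) : inn E 1 5 c7_2 c7_2 = dotS (ek E keys) r7_2_2 :=
  innS_eqZ E _ _ _ _ _ _ _ (chkF_sound E keys 1 5 _ _ _ _ t7_2_2_0) (by decide +kernel)

def r7_2_3 : List (ℕ × ℤ) := [(204, 192), (205, -96), (206, 192), (207, -96), (208, -96), (211, -192), (213, -384), (214, -96), (215, -192), (303, 768)]

theorem h7_2_3 (E : Env κ ι) : inn E 1 5 c7_2 c7_3 = dotS (ek E keys) r7_2_3 :=
  innS_eqZ E _ _ _ _ _ _ _ (chkF_sound E keys 1 5 _ _ _ _ t7_2_3_0) (by decide +kernel)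

def r7_2_4 : List (ℕ × ℤ) := [(72, 192), (73, -96), (79, -96), (81, -192), (83, -384), (84, -96), (128, -96), (129, 768), (131, -192), (172, 192)]

theorem h7_2_4 (E : Env κ ι) : inn E 1 5 c7_2 c7_4 = dotS (ek E keys) r7_2_4 :=
  innS_eqZ E _ _ _ _ _ _ _ (chkF_sound E keys 1 5 _ _ _ _ t7_2_4_0) (by decide +kernel)

def r7_2_5 : List (ℕ × ℤ) := [(45, -96), (46, -96), (47, -192), (53, -192), (74, 192), (77, -96), (86, -384), (108, -96), (134, 768), (180, 192)]

theorem h7_2_5 (E : Env κ ι) : inn E 1 5 c7_2 c7_5 = dotS (ek E keys) r7_2_5 :=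
  innS_eqZ E _ _ _ _ _ _ _ (chkF_sound E keys 1 5 _ _ _ _ t7_2_5_0) (by decide +kernel)

def r7_2_6 : List (ℕ × ℤ) := [(63, -96), (203, -48), (205, 48), (210, -96), (213, 288), (282, -48), (286, 144), (362, -192)]

theorem h7_2_6 (E : Env κ ι) : inn E 1 5 c7_2 c7_6 = dotS (ek E keys) r7_2_6 :=
  innS_eqZ E _ _ _ _ _ _ _ (chkF_sound E keys 1 5 _ _ _ _ t7_2_6_0) (by decide +kernel)

def r7_2_7 : List (ℕ × ℤ) := [(204, -48), (205, 144), (206, -48), (207, -96), (208, -96), (211, 288), (213, -384), (214, 144), (215, 288), (303, -192)]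

theorem h7_2_7 (E : Env κ ι) : inn E 1 5 c7_2 c7_7 = dotS (ek E keys) r7_2_7 :=
  innS_eqZ E _ _ _ _ _ _ _ (chkF_sound E keys 1 5 _ _ _ _ t7_2_7_0) (by decide +kernel)

def r7_2_8 : List (ℕ × ℤ) := [(72, -48), (73, -96), (79, 144), (81, -192), (83, 576), (84, -96), (128, 144), (129, -192), (131, -192), (172, -48)]

theorem h7_2_8 (E : Env κ ι) : inn E 1 5 c7_2 c7_8 = dotS (ek E keys) r7_2_8 :=
  innS_eqZ E _ _ _ _ _ _ _ (chkF_sound E keys 1 5 _ _ _ _ t7_2_8_0) (by decide +kernel)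

def r7_2_9 : List (ℕ × ℤ) := [(45, -96), (46, 144), (47, -192), (53, -192), (74, -48), (77, -96), (86, 576), (108, 144), (134, -192), (180, -48)]

theorem h7_2_9 (E : Env κ ι) : inn E 1 5 c7_2 c7_9 = dotS (ek E keys) r7_2_9 :=
  innS_eqZ E _ _ _ _ _ _ _ (chkF_sound E keys 1 5 _ _ _ _ t7_2_9_0) (by decide +kernel)

def r7_2_10 : List (ℕ × ℤ) := [(36, -96), (203, 192), (205, -144), (207, -48), (211, -288), (212, -192), (215, -96), (290, -96), (293, -96), (294, -96), (300, 384), (363, 384), (374, 192)]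

theorem h7_2_10 (E : Env κ ι) : inn E 1 5 c7_2 c7_10 = dotS (ek E keys) r7_2_10 :=
  innS_eqZ E _ _ _ _ _ _ _ (chkF_sound E keys 1 5 _ _ _ _ t7_2_10_0) (by decide +kernel)

def r7_2_11 : List (ℕ × ℤ) := [(36, 144), (203, -48), (205, -144), (207, 192), (211, -288), (212, 288), (215, -96), (290, -96), (293, -96), (294, 384), (300, -96), (363, -96), (374, -48)]

theorem h7_2_11 (E : Env κ ι) : inn E 1 5 c7_2 c7_11 = dotS (ek E keys) r7_2_11 :=
  innS_eqZ E _ _ _ _ _ _ _ (chkF_sound E keys 1 5 _ _ _ _ t7_2_11_0) (by decide +kernel)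

def r7_2_12 : List (ℕ × ℤ) := [(36, 144), (203, -48), (205, 96), (207, -48), (211, 192), (212, -192), (215, -96), (290, 384), (293, -96), (294, -96), (300, -96), (363, -96), (374, -48)]

theorem h7_2_12 (E : Env κ ι) : inn E 1 5 c7_2 c7_12 = dotS (ek E keys) r7_2_12 :=
  innS_eqZ E _ _ _ _ _ _ _ (chkF_sound E keys 1 5 _ _ _ _ t7_2_12_0) (by decide +kernel)

def r7_2_13 : List (ℕ × ℤ) := [(18, -48), (26, -48), (71, 192), (73, -144), (76, -48), (81, -288), (82, -96), (85, -96), (97, -96), (107, -96), (112, -96), (114, -96), (123, 384), (145, 384), (188, 192)]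

theorem h7_2_13 (E : Env κ ι) : inn E 1 5 c7_2 c7_13 = dotS (ek E keys) r7_2_13 :=
  innS_eqZ E _ _ _ _ _ _ _ (chkF_sound E keys 1 5 _ _ _ _ t7_2_13_0) (by decide +kernel)

def r7_2_14 : List (ℕ × ℤ) := [(18, 192), (26, -48), (71, -48), (73, 96), (76, -48), (81, 192), (82, -96), (85, -96), (97, -96), (107, 384), (112, -96), (114, -96), (123, -96), (145, -96), (188, -48)]

theorem h7_2_14 (E : Env κ ι) : inn E 1 5 c7_2 c7_14 = dotS (ek E keys) r7_2_14 :=
  innS_eqZ E _ _ _ _ _ _ _ (chkF_sound E keys 1 5 _ _ _ _ t7_2_14_0) (by decide +kernel)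

def r7_2_15 : List (ℕ × ℤ) := [(18, -48), (26, 192), (71, -48), (73, -144), (76, 192), (81, -288), (82, 384), (85, -96), (97, -96), (107, -96), (112, -96), (114, 384), (123, -96), (145, -96), (188, -48)]

theorem h7_2_15 (E : Env κ ι) : inn E 1 5 c7_2 c7_15 = dotS (ek E keys) r7_2_15 :=
  innS_eqZ E _ _ _ _ _ _ _ (chkF_sound E keys 1 5 _ _ _ _ t7_2_15_0) (by decide +kernel)

def r7_3_3 : List (ℕ × ℤ) := [(37, -192), (64, -96), (209, 192), (214, -96), (215, -384), (216, 192), (217, -192), (290, -192), (293, 768)]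

theorem h7_3_3 (E : Env κ ι) : inn E 1 5 c7_3 c7_3 = dotS (ek E keys) r7_3_3 :=
  innS_eqZ E _ _ _ _ _ _ _ (chkF_sound E keys 1 5 _ _ _ _ t7_3_3_0) (by decide +kernel)

def r7_3_4 : List (ℕ × ℤ) := [(8, 192), (23, -96), (29, -96), (84, -96), (85, -192), (107, -192), (110, -96), (112, 768), (131, -192), (141, -192), (175, 192)]

theorem h7_3_4 (E : Env κ ι) : inn E 1 5 c7_3 c7_4 = dotS (ek E keys) r7_3_4 :=
  innS_eqZ E _ _ _ _ _ _ _ (chkF_sound E keys 1 5 _ _ _ _ t7_3_4_0) (by decide +kernel)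

def r7_3_5 : List (ℕ × ℤ) := [(45, -96), (48, -192), (51, -96), (52, -192), (53, -384), (67, -96), (69, 192), (111, -96), (135, 768), (181, 192)]

theorem h7_3_5 (E : Env κ ι) : inn E 1 5 c7_3 c7_5 = dotS (ek E keys) r7_3_5 :=
  innS_eqZ E _ _ _ _ _ _ _ (chkF_sound E keys 1 5 _ _ _ _ t7_3_5_0) (by decide +kernel)

def r7_3_6 : List (ℕ × ℤ) := [(204, -48), (205, 144), (206, -48), (207, 144), (208, -96), (211, -192), (213, 96), (214, -96), (215, 288), (303, -192)]

theorem h7_3_6 (E : Env κ ι) : inn E 1 5 c7_3 c7_6 = dotS (ek E keys) r7_3_6 :=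
  innS_eqZ E _ _ _ _ _ _ _ (chkF_sound E keys 1 5 _ _ _ _ t7_3_6_0) (by decide +kernel)

def r7_3_7 : List (ℕ × ℤ) := [(37, 48), (64, -96), (209, -48), (214, 144), (215, 96), (216, -48), (217, 288), (290, -192), (293, -192)]

theorem h7_3_7 (E : Env κ ι) : inn E 1 5 c7_3 c7_7 = dotS (ek E keys) r7_3_7 :=
  innS_eqZ E _ _ _ _ _ _ _ (chkF_sound E keys 1 5 _ _ _ _ t7_3_7_0) (by decide +kernel)

def r7_3_8 : List (ℕ × ℤ) := [(8, -48), (23, -96), (29, 144), (84, -96), (85, 288), (107, 288), (110, 144), (112, -192), (131, -192), (141, -192), (175, -48)]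

theorem h7_3_8 (E : Env κ ι) : inn E 1 5 c7_3 c7_8 = dotS (ek E keys) r7_3_8 :=
  innS_eqZ E _ _ _ _ _ _ _ (chkF_sound E keys 1 5 _ _ _ _ t7_3_8_0) (by decide +kernel)

def r7_3_9 : List (ℕ × ℤ) := [(45, -96), (48, 288), (51, -96), (52, -192), (53, 96), (67, 144), (69, -48), (111, 144), (135, -192), (181, -48)]

theorem h7_3_9 (E : Env κ ι) : inn E 1 5 c7_3 c7_9 = dotS (ek E keys) r7_3_9 :=
  innS_eqZ E _ _ _ _ _ _ _ (chkF_sound E keys 1 5 _ _ _ _ t7_3_9_0) (by decide +kernel)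

def r7_3_10 : List (ℕ × ℤ) := [(36, -48), (37, -48), (206, 192), (207, -96), (212, -96), (217, -96), (287, -96), (289, -192), (291, -96), (294, -192), (295, -96), (297, 384), (301, 384), (304, -96), (375, 192)]

theorem h7_3_10 (E : Env κ ι) : inn E 1 5 c7_3 c7_10 = dotS (ek E keys) r7_3_10 :=
  innS_eqZ E _ _ _ _ _ _ _ (chkF_sound E keys 1 5 _ _ _ _ t7_3_10_0) (by decide +kernel)

def r7_3_11 : List (ℕ × ℤ) := [(36, -48), (37, 192), (206, -48), (207, -96), (212, -96), (217, -96), (287, -96), (289, 288), (291, 384), (294, -192), (295, -96), (297, -96), (301, -96), (304, 144), (375, -48)]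

theorem h7_3_11 (E : Env κ ι) : inn E 1 5 c7_3 c7_11 = dotS (ek E keys) r7_3_11 :=
  innS_eqZ E _ _ _ _ _ _ _ (chkF_sound E keys 1 5 _ _ _ _ t7_3_11_0) (by decide +kernel)

def r7_3_12 : List (ℕ × ℤ) := [(36, 192), (37, -48), (206, -48), (207, -96), (212, -96), (217, -96), (287, 384), (289, -192), (291, -96), (294, 288), (295, -96), (297, -96), (301, -96), (304, 144), (375, -48)]

theorem h7_3_12 (E : Env κ ι) : inn E 1 5 c7_3 c7_12 = dotS (ek E keys) r7_3_12 :=
  innS_eqZ E _ _ _ _ _ _ _ (chkF_sound E keys 1 5 _ _ _ _ t7_3_12_0) (by decide +kernel)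

def r7_3_13 : List (ℕ × ℤ) := [(26, -48), (27, -48), (75, 192), (76, -96), (82, -96), (89, -96), (103, -96), (105, -192), (114, -192), (116, -96), (117, -96), (124, 384), (146, 384), (192, -96), (195, 192)]

theorem h7_3_13 (E : Env κ ι) : inn E 1 5 c7_3 c7_13 = dotS (ek E keys) r7_3_13 :=
  innS_eqZ E _ _ _ _ _ _ _ (chkF_sound E keys 1 5 _ _ _ _ t7_3_13_0) (by decide +kernel)

def r7_3_14 : List (ℕ × ℤ) := [(26, 192), (27, -48), (75, -48), (76, -96), (82, -96), (89, -96), (103, 384), (105, -192), (114, 288), (116, -96), (117, -96), (124, -96), (146, -96), (192, 144), (195, -48)]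

theorem h7_3_14 (E : Env κ ι) : inn E 1 5 c7_3 c7_14 = dotS (ek E keys) r7_3_14 :=
  innS_eqZ E _ _ _ _ _ _ _ (chkF_sound E keys 1 5 _ _ _ _ t7_3_14_0) (by decide +kernel)

def r7_3_15 : List (ℕ × ℤ) := [(26, -48), (27, 192), (75, -48), (76, -96), (82, -96), (89, -96), (103, -96), (105, 288), (114, -192), (116, -96), (117, 384), (124, -96), (146, -96), (192, 144), (195, -48)]

theorem h7_3_15 (E : Env κ ι) : inn E 1 5 c7_3 c7_15 = dotS (ek E keys) r7_3_15 :=
  innS_eqZ E _ _ _ _ _ _ _ (chkF_sound E keys 1 5 _ _ _ _ t7_3_15_0) (by decide +kernel)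

def r7_4_4 : List (ℕ × ℤ) := [(227, 192), (228, -192), (235, -192), (255, -192), (325, -96), (327, -384), (335, 192), (343, -96), (347, 768)]

theorem h7_4_4 (E : Env κ ι) : inn E 1 5 c7_4 c7_4 = dotS (ek E keys) r7_4_4 :=
  innS_eqZ E _ _ _ _ _ _ _ (chkF_sound E keys 1 5 _ _ _ _ t7_4_4_0) (by decide +kernel)

def r7_4_5 : List (ℕ × ℤ) := [(230, 192), (231, -96), (233, -96), (237, -192), (257, -384), (261, -96), (332, -192), (336, 192), (344, -96), (350, 768)]

theorem h7_4_5 (E : Env κ ι) : inn E 1 5 c7_4 c7_5 = dotS (ek E keys) r7_4_5 :=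
  innS_eqZ E _ _ _ _ _ _ _ (chkF_sound E keys 1 5 _ _ _ _ t7_4_5_0) (by decide +kernel)

def r7_4_6 : List (ℕ × ℤ) := [(72, -48), (73, 144), (79, -96), (81, -192), (83, 96), (84, -96), (128, 144), (129, -192), (131, 288), (172, -48)]

theorem h7_4_6 (E : Env κ ι) : inn E 1 5 c7_4 c7_6 = dotS (ek E keys) r7_4_6 :=
  innS_eqZ E _ _ _ _ _ _ _ (chkF_sound E keys 1 5 _ _ _ _ t7_4_6_0) (by decide +kernel)

def r7_4_7 : List (ℕ × ℤ) := [(8, -48), (23, -96), (29, -96), (84, 144), (85, 288), (107, -192), (110, 144), (112, -192), (131, -192), (141, 288), (175, -48)]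

theorem h7_4_7 (E : Env κ ι) : inn E 1 5 c7_4 c7_7 = dotS (ek E keys) r7_4_7 :=
  innS_eqZ E _ _ _ _ _ _ _ (chkF_sound E keys 1 5 _ _ _ _ t7_4_7_0) (by decide +kernel)

def r7_4_8 : List (ℕ × ℤ) := [(227, -48), (228, 48), (235, -192), (255, 288), (325, -96), (327, 96), (335, -48), (343, 144), (347, -192)]

theorem h7_4_8 (E : Env κ ι) : inn E 1 5 c7_4 c7_8 = dotS (ek E keys) r7_4_8 :=
  innS_eqZ E _ _ _ _ _ _ _ (chkF_sound E keys 1 5 _ _ _ _ t7_4_8_0) (by decide +kernel)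

def r7_4_9 : List (ℕ × ℤ) := [(230, -48), (231, 144), (233, -96), (237, -192), (257, 96), (261, -96), (332, 288), (336, -48), (344, 144), (350, -192)]

theorem h7_4_9 (E : Env κ ι) : inn E 1 5 c7_4 c7_9 = dotS (ek E keys) r7_4_9 :=
  innS_eqZ E _ _ _ _ _ _ _ (chkF_sound E keys 1 5 _ _ _ _ t7_4_9_0) (by decide +kernel)

def r7_4_10 : List (ℕ × ℤ) := [(18, -48), (23, -48), (97, -96), (119, 384), (121, -96), (127, -192), (128, -96), (136, -96), (137, -192), (139, -96), (140, -96), (141, -96), (172, 192), (176, 384), (177, 192)]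

theorem h7_4_10 (E : Env κ ι) : inn E 1 5 c7_4 c7_10 = dotS (ek E keys) r7_4_10 :=
  innS_eqZ E _ _ _ _ _ _ _ (chkF_sound E keys 1 5 _ _ _ _ t7_4_10_0) (by decide +kernel)

def r7_4_11 : List (ℕ × ℤ) := [(18, -48), (23, 192), (97, -96), (119, -96), (121, 384), (127, -192), (128, -96), (136, 144), (137, 288), (139, -96), (140, -96), (141, -96), (172, -48), (176, -96), (177, -48)]

theorem h7_4_11 (E : Env κ ι) : inn E 1 5 c7_4 c7_11 = dotS (ek E keys) r7_4_11 :=
  innS_eqZ E _ _ _ _ _ _ _ (chkF_sound E keys 1 5 _ _ _ _ t7_4_11_0) (by decide +kernel)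

def r7_4_12 : List (ℕ × ℤ) := [(18, 192), (23, -48), (97, -96), (119, -96), (121, -96), (127, 288), (128, -96), (136, 144), (137, -192), (139, 384), (140, -96), (141, -96), (172, -48), (176, -96), (177, -48)]

theorem h7_4_12 (E : Env κ ι) : inn E 1 5 c7_4 c7_12 = dotS (ek E keys) r7_4_12 :=
  innS_eqZ E _ _ _ _ _ _ _ (chkF_sound E keys 1 5 _ _ _ _ t7_4_12_0) (by decide +kernel)

def r7_4_13 : List (ℕ × ℤ) := [(219, 192), (221, -96), (228, -96), (236, -96), (238, -192), (239, -48), (245, -96), (255, -192), (256, -48), (311, -96), (321, 384), (331, -96), (341, 192), (348, -96), (365, 384)]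

theorem h7_4_13 (E : Env κ ι) : inn E 1 5 c7_4 c7_13 = dotS (ek E keys) r7_4_13 :=
  innS_eqZ E _ _ _ _ _ _ _ (chkF_sound E keys 1 5 _ _ _ _ t7_4_13_0) (by decide +kernel)

def r7_4_14 : List (ℕ × ℤ) := [(219, -48), (221, -96), (228, 144), (236, -96), (238, -192), (239, -48), (245, 384), (255, 288), (256, 192), (311, -96), (321, -96), (331, -96), (341, -48), (348, -96), (365, -96)]

theorem h7_4_14 (E : Env κ ι) : inn E 1 5 c7_4 c7_14 = dotS (ek E keys) r7_4_14 :=
  innS_eqZ E _ _ _ _ _ _ _ (chkF_sound E keys 1 5 _ _ _ _ t7_4_14_0) (by decide +kernel)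

def r7_4_15 : List (ℕ × ℤ) := [(219, -48), (221, -96), (228, 144), (236, 384), (238, 288), (239, 192), (245, -96), (255, -192), (256, -48), (311, -96), (321, -96), (331, -96), (341, -48), (348, -96), (365, -96)]

theorem h7_4_15 (E : Env κ ι) : inn E 1 5 c7_4 c7_15 = dotS (ek E keys) r7_4_15 :=
  innS_eqZ E _ _ _ _ _ _ _ (chkF_sound E keys 1 5 _ _ _ _ t7_4_15_0) (by decide +kernel)

def r7_5_5 : List (ℕ × ℤ) := [(3, -192), (4, -96), (247, -192), (249, 192), (258, -384), (262, -96), (264, -192), (337, 192), (352, 768)]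

theorem h7_5_5 (E : Env κ ι) : inn E 1 5 c7_5 c7_5 = dotS (ek E keys) r7_5_5 :=
  innS_eqZ E _ _ _ _ _ _ _ (chkF_sound E keys 1 5 _ _ _ _ t7_5_5_0) (by decide +kernel)

def r7_5_6 : List (ℕ × ℤ) := [(45, -96), (46, -96), (47, -192), (53, 288), (74, -48), (77, 144), (86, 96), (108, 144), (134, -192), (180, -48)]

theorem h7_5_6 (E : Env κ ι) : inn E 1 5 c7_5 c7_6 = dotS (ek E keys) r7_5_6 :=
  innS_eqZ E _ _ _ _ _ _ _ (chkF_sound E keys 1 5 _ _ _ _ t7_5_6_0) (by decide +kernel)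

def r7_5_7 : List (ℕ × ℤ) := [(45, 144), (48, 288), (51, -96), (52, 288), (53, -384), (67, -96), (69, -48), (111, 144), (135, -192), (181, -48)]

theorem h7_5_7 (E : Env κ ι) : inn E 1 5 c7_5 c7_7 = dotS (ek E keys) r7_5_7 :=
  innS_eqZ E _ _ _ _ _ _ _ (chkF_sound E keys 1 5 _ _ _ _ t7_5_7_0) (by decide +kernel)

def r7_5_8 : List (ℕ × ℤ) := [(230, -48), (231, -96), (233, 144), (237, -192), (257, 576), (261, -96), (332, -192), (336, -48), (344, 144), (350, -192)]

theorem h7_5_8 (E : Env κ ι) : inn E 1 5 c7_5 c7_8 = dotS (ek E keys) r7_5_8 :=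
  innS_eqZ E _ _ _ _ _ _ _ (chkF_sound E keys 1 5 _ _ _ _ t7_5_8_0) (by decide +kernel)

def r7_5_9 : List (ℕ × ℤ) := [(3, 48), (4, 144), (247, -192), (249, -48), (258, 96), (262, -96), (264, 288), (337, -48), (352, -192)]

theorem h7_5_9 (E : Env κ ι) : inn E 1 5 c7_5 c7_9 = dotS (ek E keys) r7_5_9 :=
  innS_eqZ E _ _ _ _ _ _ _ (chkF_sound E keys 1 5 _ _ _ _ t7_5_9_0) (by decide +kernel)

def r7_5_10 : List (ℕ × ℤ) := [(45, -48), (48, -96), (51, -48), (52, -96), (54, -96), (55, -96), (57, -192), (58, -192), (108, -96), (120, 384), (138, -96), (143, -96), (180, 192), (182, 384), (183, 192)]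

theorem h7_5_10 (E : Env κ ι) : inn E 1 5 c7_5 c7_10 = dotS (ek E keys) r7_5_10 :=
  innS_eqZ E _ _ _ _ _ _ _ (chkF_sound E keys 1 5 _ _ _ _ t7_5_10_0) (by decide +kernel)

def r7_5_11 : List (ℕ × ℤ) := [(45, -48), (48, -96), (51, 192), (52, -96), (54, -96), (55, 384), (57, 288), (58, -192), (108, -96), (120, -96), (138, 144), (143, -96), (180, -48), (182, -96), (183, -48)]

theorem h7_5_11 (E : Env κ ι) : inn E 1 5 c7_5 c7_11 = dotS (ek E keys) r7_5_11 :=
  innS_eqZ E _ _ _ _ _ _ _ (chkF_sound E keys 1 5 _ _ _ _ t7_5_11_0) (by decide +kernel)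

def r7_5_12 : List (ℕ × ℤ) := [(45, 192), (48, -96), (51, -48), (52, -96), (54, 384), (55, -96), (57, -192), (58, 288), (108, -96), (120, -96), (138, 144), (143, -96), (180, -48), (182, -96), (183, -48)]

theorem h7_5_12 (E : Env κ ι) : inn E 1 5 c7_5 c7_12 = dotS (ek E keys) r7_5_12 :=
  innS_eqZ E _ _ _ _ _ _ _ (chkF_sound E keys 1 5 _ _ _ _ t7_5_12_0) (by decide +kernel)

def r7_5_13 : List (ℕ × ℤ) := [(222, 192), (223, -96), (231, -48), (233, -48), (237, -96), (240, -96), (244, -96), (252, -192), (253, -48), (257, -192), (261, -48), (322, 384), (332, -96), (342, 192), (349, -96), (366, 384)]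

theorem h7_5_13 (E : Env κ ι) : inn E 1 5 c7_5 c7_13 = dotS (ek E keys) r7_5_13 :=
  innS_eqZ E _ _ _ _ _ _ _ (chkF_sound E keys 1 5 _ _ _ _ t7_5_13_0) (by decide +kernel)

def r7_5_14 : List (ℕ × ℤ) := [(222, -48), (223, -96), (231, -48), (233, 192), (237, 384), (240, -96), (244, -96), (252, -192), (253, -48), (257, 288), (261, 192), (322, -96), (332, -96), (342, -48), (349, -96), (366, -96)]

theorem h7_5_14 (E : Env κ ι) : inn E 1 5 c7_5 c7_14 = dotS (ek E keys) r7_5_14 :=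
  innS_eqZ E _ _ _ _ _ _ _ (chkF_sound E keys 1 5 _ _ _ _ t7_5_14_0) (by decide +kernel)

def r7_5_15 : List (ℕ × ℤ) := [(222, -48), (223, -96), (231, 192), (233, -48), (237, -96), (240, -96), (244, 384), (252, 288), (253, 192), (257, -192), (261, -48), (322, -96), (332, -96), (342, -48), (349, -96), (366, -96)]

theorem h7_5_15 (E : Env κ ι) : inn E 1 5 c7_5 c7_15 = dotS (ek E keys) r7_5_15 :=
  innS_eqZ E _ _ _ _ _ _ _ (chkF_sound E keys 1 5 _ _ _ _ t7_5_15_0) (by decide +kernel)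

def r7_6_6 : List (ℕ × ℤ) := [(63, 144), (203, -48), (205, -192), (210, 144), (213, -192), (282, 72), (286, 24), (362, 48)]

theorem h7_6_6 (E : Env κ ι) : inn E 1 5 c7_6 c7_6 = dotS (ek E keys) r7_6_6 :=
  innS_eqZ E _ _ _ _ _ _ _ (innS_add E _ _ _ _ _ _ _ _ (chkF_sound E keys 1 5 _ _ _ _ t7_6_6_0) (chkF_sound E keys 1 5 _ _ _ _ t7_6_6_1)) (by decide +kernel)

def r7_6_7 : List (ℕ × ℤ) := [(204, 72), (205, 24), (206, -48), (207, -96), (208, 144), (211, 48), (213, 96), (214, -96), (215, -192), (303, 48)]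

theorem h7_6_7 (E : Env κ ι) : inn E 1 5 c7_6 c7_7 = dotS (ek E keys) r7_6_7 :=
  innS_eqZ E _ _ _ _ _ _ _ (innS_add E _ _ _ _ _ _ _ _ (chkF_sound E keys 1 5 _ _ _ _ t7_6_7_0) (chkF_sound E keys 1 5 _ _ _ _ t7_6_7_1)) (by decide +kernel)

def r7_6_8 : List (ℕ × ℤ) := [(72, -48), (73, -96), (79, -96), (81, 48), (83, -144), (84, 144), (128, 24), (129, 48), (131, 48), (172, 72)]

theorem h7_6_8 (E : Env κ ι) : inn E 1 5 c7_6 c7_8 = dotS (ek E keys) r7_6_8 :=
  innS_eqZ E _ _ _ _ _ _ _ (innS_add E _ _ _ _ _ _ _ _ (chkF_sound E keys 1 5 _ _ _ _ t7_6_8_0) (chkF_sound E keys 1 5 _ _ _ _ t7_6_8_1)) (by decide +kernel)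

def r7_6_9 : List (ℕ × ℤ) := [(45, 144), (46, -96), (47, 48), (53, 48), (74, -48), (77, -96), (86, -144), (108, 24), (134, 48), (180, 72)]

theorem h7_6_9 (E : Env κ ι) : inn E 1 5 c7_6 c7_9 = dotS (ek E keys) r7_6_9 :=
  innS_eqZ E _ _ _ _ _ _ _ (innS_add E _ _ _ _ _ _ _ _ (chkF_sound E keys 1 5 _ _ _ _ t7_6_9_0) (chkF_sound E keys 1 5 _ _ _ _ t7_6_9_1)) (by decide +kernel)

def r7_6_10 : List (ℕ × ℤ) := [(36, -96), (203, -48), (205, -24), (207, 72), (211, -48), (212, -192), (215, 144), (290, 144), (293, 144), (294, 144), (300, -96), (363, -96), (374, -48)]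

theorem h7_6_10 (E : Env κ ι) : inn E 1 5 c7_6 c7_10 = dotS (ek E keys) r7_6_10 :=
  innS_eqZ E _ _ _ _ _ _ _ (innS_add E _ _ _ _ _ _ _ _ (chkF_sound E keys 1 5 _ _ _ _ t7_6_10_0) (chkF_sound E keys 1 5 _ _ _ _ t7_6_10_1)) (by decide +kernel)

def r7_6_11 : List (ℕ × ℤ) := [(36, -96), (203, 72), (205, 216), (207, -48), (211, 432), (212, -192), (215, -96), (290, -96), (293, -96), (294, -96), (300, -96), (363, 144), (374, -48)]

theorem h7_6_11 (E : Env κ ι) : inn E 1 5 c7_6 c7_11 = dotS (ek E keys) r7_6_11 :=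
  innS_eqZ E _ _ _ _ _ _ _ (innS_add E _ _ _ _ _ _ _ _ (chkF_sound E keys 1 5 _ _ _ _ t7_6_11_0) (chkF_sound E keys 1 5 _ _ _ _ t7_6_11_1)) (by decide +kernel)

def r7_6_12 : List (ℕ × ℤ) := [(36, -96), (203, 72), (205, 96), (207, 72), (211, -288), (212, 288), (215, 144), (290, -96), (293, -96), (294, -96), (300, 144), (363, -96), (374, -48)]

theorem h7_6_12 (E : Env κ ι) : inn E 1 5 c7_6 c7_12 = dotS (ek E keys) r7_6_12 :=
  innS_eqZ E _ _ _ _ _ _ _ (innS_add E _ _ _ _ _ _ _ _ (chkF_sound E keys 1 5 _ _ _ _ t7_6_12_0) (chkF_sound E keys 1 5 _ _ _ _ t7_6_12_1)) (by decide +kernel)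

def r7_6_13 : List (ℕ × ℤ) := [(18, -48), (26, -48), (71, -48), (73, -24), (76, 72), (81, -48), (82, -96), (85, 144), (97, -96), (107, 144), (112, 144), (114, 144), (123, -96), (145, -96), (188, -48)]

theorem h7_6_13 (E : Env κ ι) : inn E 1 5 c7_6 c7_13 = dotS (ek E keys) r7_6_13 :=
  innS_eqZ E _ _ _ _ _ _ _ (innS_add E _ _ _ _ _ _ _ _ (chkF_sound E keys 1 5 _ _ _ _ t7_6_13_0) (chkF_sound E keys 1 5 _ _ _ _ t7_6_13_1)) (by decide +kernel)

def r7_6_14 : List (ℕ × ℤ) := [(18, -48), (26, -48), (71, 72), (73, 96), (76, 72), (81, -288), (82, 144), (85, 144), (97, 144), (107, -96), (112, -96), (114, -96), (123, 144), (145, -96), (188, -48)]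

theorem h7_6_14 (E : Env κ ι) : inn E 1 5 c7_6 c7_14 = dotS (ek E keys) r7_6_14 :=
  innS_eqZ E _ _ _ _ _ _ _ (innS_add E _ _ _ _ _ _ _ _ (chkF_sound E keys 1 5 _ _ _ _ t7_6_14_0) (chkF_sound E keys 1 5 _ _ _ _ t7_6_14_1)) (by decide +kernel)

def r7_6_15 : List (ℕ × ℤ) := [(18, -48), (26, -48), (71, 72), (73, 216), (76, -48), (81, 432), (82, -96), (85, -96), (97, -96), (107, -96), (112, -96), (114, -96), (123, -96), (145, 144), (188, -48)]

theorem h7_6_15 (E : Env κ ι) : inn E 1 5 c7_6 c7_15 = dotS (ek E keys) r7_6_15 :=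
  innS_eqZ E _ _ _ _ _ _ _ (innS_add E _ _ _ _ _ _ _ _ (chkF_sound E keys 1 5 _ _ _ _ t7_6_15_0) (chkF_sound E keys 1 5 _ _ _ _ t7_6_15_1)) (by decide +kernel)

def r7_7_7 : List (ℕ × ℤ) := [(37, -192), (64, 144), (209, 72), (214, 24), (215, 96), (216, -48), (217, -192), (290, 48), (293, 48)]

theorem h7_7_7 (E : Env κ ι) : inn E 1 5 c7_7 c7_7 = dotS (ek E keys) r7_7_7 :=
  innS_eqZ E _ _ _ _ _ _ _ (innS_add E _ _ _ _ _ _ _ _ (chkF_sound E keys 1 5 _ _ _ _ t7_7_7_0) (chkF_sound E keys 1 5 _ _ _ _ t7_7_7_1)) (by decide +kernel)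

def r7_7_8 : List (ℕ × ℤ) := [(8, -48), (23, 144), (29, -96), (84, -96), (85, -192), (107, 48), (110, 24), (112, 48), (131, 48), (141, 48), (175, 72)]

theorem h7_7_8 (E : Env κ ι) : inn E 1 5 c7_7 c7_8 = dotS (ek E keys) r7_7_8 :=
  innS_eqZ E _ _ _ _ _ _ _ (innS_add E _ _ _ _ _ _ _ _ (chkF_sound E keys 1 5 _ _ _ _ t7_7_8_0) (chkF_sound E keys 1 5 _ _ _ _ t7_7_8_1)) (by decide +kernel)

def r7_7_9 : List (ℕ × ℤ) := [(45, -96), (48, -192), (51, 144), (52, 48), (53, 96), (67, -96), (69, -48), (111, 24), (135, 48), (181, 72)]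

theorem h7_7_9 (E : Env κ ι) : inn E 1 5 c7_7 c7_9 = dotS (ek E keys) r7_7_9 :=
  innS_eqZ E _ _ _ _ _ _ _ (innS_add E _ _ _ _ _ _ _ _ (chkF_sound E keys 1 5 _ _ _ _ t7_7_9_0) (chkF_sound E keys 1 5 _ _ _ _ t7_7_9_1)) (by decide +kernel)

def r7_7_10 : List (ℕ × ℤ) := [(36, 72), (37, 72), (206, -48), (207, -96), (212, 144), (217, 144), (287, 144), (289, -192), (291, 144), (294, -192), (295, 144), (297, -96), (301, -96), (304, -96), (375, -48)]

theorem h7_7_10 (E : Env κ ι) : inn E 1 5 c7_7 c7_10 = dotS (ek E keys) r7_7_10 :=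
  innS_eqZ E _ _ _ _ _ _ _ (innS_add E _ _ _ _ _ _ _ _ (chkF_sound E keys 1 5 _ _ _ _ t7_7_10_0) (chkF_sound E keys 1 5 _ _ _ _ t7_7_10_1)) (by decide +kernel)

def r7_7_11 : List (ℕ × ℤ) := [(36, 72), (37, -48), (206, 72), (207, 144), (212, 144), (217, -96), (287, -96), (289, -192), (291, -96), (294, 288), (295, -96), (297, 144), (301, -96), (304, -96), (375, -48)]

theorem h7_7_11 (E : Env κ ι) : inn E 1 5 c7_7 c7_11 = dotS (ek E keys) r7_7_11 :=
  innS_eqZ E _ _ _ _ _ _ _ (innS_add E _ _ _ _ _ _ _ _ (chkF_sound E keys 1 5 _ _ _ _ t7_7_11_0) (chkF_sound E keys 1 5 _ _ _ _ t7_7_11_1)) (by decide +kernel)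

def r7_7_12 : List (ℕ × ℤ) := [(36, -48), (37, 72), (206, 72), (207, 144), (212, -96), (217, 144), (287, -96), (289, 288), (291, -96), (294, -192), (295, -96), (297, -96), (301, 144), (304, -96), (375, -48)]

theorem h7_7_12 (E : Env κ ι) : inn E 1 5 c7_7 c7_12 = dotS (ek E keys) r7_7_12 :=
  innS_eqZ E _ _ _ _ _ _ _ (innS_add E _ _ _ _ _ _ _ _ (chkF_sound E keys 1 5 _ _ _ _ t7_7_12_0) (chkF_sound E keys 1 5 _ _ _ _ t7_7_12_1)) (by decide +kernel)

def r7_7_13 : List (ℕ × ℤ) := [(26, 72), (27, 72), (75, -48), (76, -96), (82, 144), (89, 144), (103, 144), (105, -192), (114, -192), (116, 144), (117, 144), (124, -96), (146, -96), (192, -96), (195, -48)]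

theorem h7_7_13 (E : Env κ ι) : inn E 1 5 c7_7 c7_13 = dotS (ek E keys) r7_7_13 :=
  innS_eqZ E _ _ _ _ _ _ _ (innS_add E _ _ _ _ _ _ _ _ (chkF_sound E keys 1 5 _ _ _ _ t7_7_13_0) (chkF_sound E keys 1 5 _ _ _ _ t7_7_13_1)) (by decide +kernel)

def r7_7_14 : List (ℕ × ℤ) := [(26, -48), (27, 72), (75, 72), (76, 144), (82, -96), (89, 144), (103, -96), (105, 288), (114, -192), (116, -96), (117, -96), (124, 144), (146, -96), (192, -96), (195, -48)]

theorem h7_7_14 (E : Env κ ι) : inn E 1 5 c7_7 c7_14 = dotS (ek E keys) r7_7_14 :=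
  innS_eqZ E _ _ _ _ _ _ _ (innS_add E _ _ _ _ _ _ _ _ (chkF_sound E keys 1 5 _ _ _ _ t7_7_14_0) (chkF_sound E keys 1 5 _ _ _ _ t7_7_14_1)) (by decide +kernel)

def r7_7_15 : List (ℕ × ℤ) := [(26, 72), (27, -48), (75, 72), (76, 144), (82, 144), (89, -96), (103, -96), (105, -192), (114, 288), (116, -96), (117, -96), (124, -96), (146, 144), (192, -96), (195, -48)]

theorem h7_7_15 (E : Env κ ι) : inn E 1 5 c7_7 c7_15 = dotS (ek E keys) r7_7_15 :=
  innS_eqZ E _ _ _ _ _ _ _ (innS_add E _ _ _ _ _ _ _ _ (chkF_sound E keys 1 5 _ _ _ _ t7_7_15_0) (chkF_sound E keys 1 5 _ _ _ _ t7_7_15_1)) (by decide +kernel)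

def r7_8_8 : List (ℕ × ℤ) := [(227, -48), (228, -192), (235, 48), (255, -192), (325, 144), (327, 96), (335, 72), (343, 24), (347, 48)]

theorem h7_8_8 (E : Env κ ι) : inn E 1 5 c7_8 c7_8 = dotS (ek E keys) r7_8_8 :=
  innS_eqZ E _ _ _ _ _ _ _ (innS_add E _ _ _ _ _ _ _ _ (chkF_sound E keys 1 5 _ _ _ _ t7_8_8_0) (chkF_sound E keys 1 5 _ _ _ _ t7_8_8_1)) (by decide +kernel)

def r7_8_9 : List (ℕ × ℤ) := [(230, -48), (231, -96), (233, -96), (237, 48), (257, -144), (261, 144), (332, 48), (336, 72), (344, 24), (350, 48)]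

theorem h7_8_9 (E : Env κ ι) : inn E 1 5 c7_8 c7_9 = dotS (ek E keys) r7_8_9 :=
  innS_eqZ E _ _ _ _ _ _ _ (innS_add E _ _ _ _ _ _ _ _ (chkF_sound E keys 1 5 _ _ _ _ t7_8_9_0) (chkF_sound E keys 1 5 _ _ _ _ t7_8_9_1)) (by decide +kernel)

def r7_8_10 : List (ℕ × ℤ) := [(18, -48), (23, -48), (97, -96), (119, -96), (121, -96), (127, 288), (128, 144), (136, 144), (137, 288), (139, -96), (140, -96), (141, -96), (172, -48), (176, -96), (177, -48)]

theorem h7_8_10 (E : Env κ ι) : inn E 1 5 c7_8 c7_10 = dotS (ek E keys) r7_8_10 :=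
  innS_eqZ E _ _ _ _ _ _ _ (innS_add E _ _ _ _ _ _ _ _ (chkF_sound E keys 1 5 _ _ _ _ t7_8_10_0) (chkF_sound E keys 1 5 _ _ _ _ t7_8_10_1)) (by decide +kernel)

def r7_8_11 : List (ℕ × ℤ) := [(18, -48), (23, -48), (97, -96), (119, -96), (121, -96), (127, -192), (128, -96), (136, 24), (137, 48), (139, 144), (140, 144), (141, 144), (172, -48), (176, 144), (177, 72)]

theorem h7_8_11 (E : Env κ ι) : inn E 1 5 c7_8 c7_11 = dotS (ek E keys) r7_8_11 :=
  innS_eqZ E _ _ _ _ _ _ _ (innS_add E _ _ _ _ _ _ _ _ (chkF_sound E keys 1 5 _ _ _ _ t7_8_11_0) (chkF_sound E keys 1 5 _ _ _ _ t7_8_11_1)) (by decide +kernel)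

def r7_8_12 : List (ℕ × ℤ) := [(18, -48), (23, -48), (97, 144), (119, 144), (121, 144), (127, 48), (128, -96), (136, 24), (137, -192), (139, -96), (140, 144), (141, -96), (172, -48), (176, -96), (177, 72)]

theorem h7_8_12 (E : Env κ ι) : inn E 1 5 c7_8 c7_12 = dotS (ek E keys) r7_8_12 :=
  innS_eqZ E _ _ _ _ _ _ _ (innS_add E _ _ _ _ _ _ _ _ (chkF_sound E keys 1 5 _ _ _ _ t7_8_12_0) (chkF_sound E keys 1 5 _ _ _ _ t7_8_12_1)) (by decide +kernel)

def r7_8_13 : List (ℕ × ℤ) := [(219, -48), (221, -96), (228, 144), (236, -96), (238, 288), (239, -48), (245, -96), (255, 288), (256, -48), (311, -96), (321, -96), (331, -96), (341, -48), (348, 144), (365, -96)]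

theorem h7_8_13 (E : Env κ ι) : inn E 1 5 c7_8 c7_13 = dotS (ek E keys) r7_8_13 :=
  innS_eqZ E _ _ _ _ _ _ _ (innS_add E _ _ _ _ _ _ _ _ (chkF_sound E keys 1 5 _ _ _ _ t7_8_13_0) (chkF_sound E keys 1 5 _ _ _ _ t7_8_13_1)) (by decide +kernel)

def r7_8_14 : List (ℕ × ℤ) := [(219, 72), (221, 144), (228, 24), (236, 144), (238, -192), (239, -48), (245, -96), (255, 48), (256, -48), (311, -96), (321, -96), (331, 144), (341, -48), (348, -96), (365, 144)]

theorem h7_8_14 (E : Env κ ι) : inn E 1 5 c7_8 c7_14 = dotS (ek E keys) r7_8_14 :=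
  innS_eqZ E _ _ _ _ _ _ _ (innS_add E _ _ _ _ _ _ _ _ (chkF_sound E keys 1 5 _ _ _ _ t7_8_14_0) (chkF_sound E keys 1 5 _ _ _ _ t7_8_14_1)) (by decide +kernel)

def r7_8_15 : List (ℕ × ℤ) := [(219, 72), (221, 144), (228, 24), (236, -96), (238, 48), (239, -48), (245, 144), (255, -192), (256, -48), (311, 144), (321, 144), (331, -96), (341, -48), (348, -96), (365, -96)]

theorem h7_8_15 (E : Env κ ι) : inn E 1 5 c7_8 c7_15 = dotS (ek E keys) r7_8_15 :=
  innS_eqZ E _ _ _ _ _ _ _ (innS_add E _ _ _ _ _ _ _ _ (chkF_sound E keys 1 5 _ _ _ _ t7_8_15_0) (chkF_sound E keys 1 5 _ _ _ _ t7_8_15_1)) (by decide +kernel)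

def r7_9_9 : List (ℕ × ℤ) := [(3, -192), (4, 24), (247, 48), (249, -48), (258, 96), (262, 144), (264, -192), (337, 72), (352, 48)]

theorem h7_9_9 (E : Env κ ι) : inn E 1 5 c7_9 c7_9 = dotS (ek E keys) r7_9_9 :=
  innS_eqZ E _ _ _ _ _ _ _ (innS_add E _ _ _ _ _ _ _ _ (chkF_sound E keys 1 5 _ _ _ _ t7_9_9_0) (chkF_sound E keys 1 5 _ _ _ _ t7_9_9_1)) (by decide +kernel)

def r7_9_10 : List (ℕ × ℤ) := [(45, -48), (48, -96), (51, -48), (52, -96), (54, -96), (55, -96), (57, 288), (58, 288), (108, 144), (120, -96), (138, 144), (143, -96), (180, -48), (182, -96), (183, -48)]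

theorem h7_9_10 (E : Env κ ι) : inn E 1 5 c7_9 c7_10 = dotS (ek E keys) r7_9_10 :=
  innS_eqZ E _ _ _ _ _ _ _ (innS_add E _ _ _ _ _ _ _ _ (chkF_sound E keys 1 5 _ _ _ _ t7_9_10_0) (chkF_sound E keys 1 5 _ _ _ _ t7_9_10_1)) (by decide +kernel)

def r7_9_11 : List (ℕ × ℤ) := [(45, -48), (48, -96), (51, -48), (52, 144), (54, 144), (55, -96), (57, 48), (58, -192), (108, -96), (120, -96), (138, 24), (143, 144), (180, -48), (182, 144), (183, 72)]

theorem h7_9_11 (E : Env κ ι) : inn E 1 5 c7_9 c7_11 = dotS (ek E keys) r7_9_11 :=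
  innS_eqZ E _ _ _ _ _ _ _ (innS_add E _ _ _ _ _ _ _ _ (chkF_sound E keys 1 5 _ _ _ _ t7_9_11_0) (chkF_sound E keys 1 5 _ _ _ _ t7_9_11_1)) (by decide +kernel)

def r7_9_12 : List (ℕ × ℤ) := [(45, -48), (48, 144), (51, -48), (52, -96), (54, -96), (55, 144), (57, -192), (58, 48), (108, -96), (120, 144), (138, 24), (143, 144), (180, -48), (182, -96), (183, 72)]

theorem h7_9_12 (E : Env κ ι) : inn E 1 5 c7_9 c7_12 = dotS (ek E keys) r7_9_12 :=
  innS_eqZ E _ _ _ _ _ _ _ (innS_add E _ _ _ _ _ _ _ _ (chkF_sound E keys 1 5 _ _ _ _ t7_9_12_0) (chkF_sound E keys 1 5 _ _ _ _ t7_9_12_1)) (by decide +kernel)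

def r7_9_13 : List (ℕ × ℤ) := [(222, -48), (223, -96), (231, 72), (233, 72), (237, -96), (240, 144), (244, -96), (252, 48), (253, -48), (257, 288), (261, -48), (322, -96), (332, -96), (342, -48), (349, 144), (366, -96)]

theorem h7_9_13 (E : Env κ ι) : inn E 1 5 c7_9 c7_13 = dotS (ek E keys) r7_9_13 :=
  innS_eqZ E _ _ _ _ _ _ _ (innS_add E _ _ _ _ _ _ _ _ (chkF_sound E keys 1 5 _ _ _ _ t7_9_13_0) (chkF_sound E keys 1 5 _ _ _ _ t7_9_13_1)) (by decide +kernel)

def r7_9_14 : List (ℕ × ℤ) := [(222, 72), (223, 144), (231, 72), (233, -48), (237, -96), (240, -96), (244, 144), (252, -192), (253, -48), (257, 48), (261, -48), (322, -96), (332, 144), (342, -48), (349, -96), (366, 144)]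

theorem h7_9_14 (E : Env κ ι) : inn E 1 5 c7_9 c7_14 = dotS (ek E keys) r7_9_14 :=
  innS_eqZ E _ _ _ _ _ _ _ (innS_add E _ _ _ _ _ _ _ _ (chkF_sound E keys 1 5 _ _ _ _ t7_9_14_0) (chkF_sound E keys 1 5 _ _ _ _ t7_9_14_1)) (by decide +kernel)

def r7_9_15 : List (ℕ × ℤ) := [(222, 72), (223, 144), (231, -48), (233, 72), (237, 144), (240, 144), (244, -96), (252, 48), (253, -48), (257, -192), (261, -48), (322, 144), (332, -96), (342, -48), (349, -96), (366, -96)]

theorem h7_9_15 (E : Env κ ι) : inn E 1 5 c7_9 c7_15 = dotS (ek E keys) r7_9_15 :=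
  innS_eqZ E _ _ _ _ _ _ _ (innS_add E _ _ _ _ _ _ _ _ (chkF_sound E keys 1 5 _ _ _ _ t7_9_15_0) (chkF_sound E keys 1 5 _ _ _ _ t7_9_15_1)) (by decide +kernel)

def r7_10_10 : List (ℕ × ℤ) := [(37, -48), (214, -24), (215, -96), (217, -96), (287, -192), (288, -48), (289, -48), (290, -48), (291, -288), (293, -48), (295, -192), (296, 384), (300, 192), (304, -24), (374, 96), (376, 192), (377, 192), (378, 96)]

theorem h7_10_10 (E : Env κ ι) : inn E 1 5 c7_10 c7_10 = dotS (ek E keys) r7_10_10 :=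
  innS_eqZ E _ _ _ _ _ _ _ (innS_add E _ _ _ _ _ _ _ _ (chkF_sound E keys 1 5 _ _ _ _ t7_10_10_0) (chkF_sound E keys 1 5 _ _ _ _ t7_10_10_1)) (by decide +kernel)

def r7_10_11 : List (ℕ × ℤ) := [(37, 72), (214, -24), (215, -96), (217, 144), (287, 48), (288, -48), (289, 192), (290, -48), (291, -48), (293, -48), (295, 48), (296, -96), (300, -48), (304, 96), (374, -24), (376, -48), (377, -48), (378, -24)]

theorem h7_10_11 (E : Env κ ι) : inn E 1 5 c7_10 c7_11 = dotS (ek E keys) r7_10_11 :=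
  innS_eqZ E _ _ _ _ _ _ _ (innS_add E _ _ _ _ _ _ _ _ (chkF_sound E keys 1 5 _ _ _ _ t7_10_11_0) (chkF_sound E keys 1 5 _ _ _ _ t7_10_11_1)) (by decide +kernel)

def r7_10_12 : List (ℕ × ℤ) := [(37, 72), (214, 96), (215, 144), (217, -96), (287, 48), (288, -48), (289, -48), (290, -48), (291, 192), (293, -48), (295, 48), (296, -96), (300, -48), (304, -24), (374, -24), (376, -48), (377, -48), (378, -24)]

theorem h7_10_12 (E : Env κ ι) : inn E 1 5 c7_10 c7_12 = dotS (ek E keys) r7_10_12 :=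
  innS_eqZ E _ _ _ _ _ _ _ (innS_add E _ _ _ _ _ _ _ _ (chkF_sound E keys 1 5 _ _ _ _ t7_10_12_0) (chkF_sound E keys 1 5 _ _ _ _ t7_10_12_1)) (by decide +kernel)

def r7_10_13 : List (ℕ × ℤ) := [(23, -24), (27, -24), (84, -24), (85, -48), (89, -48), (103, -48), (104, -48), (105, -48), (107, -48), (109, -96), (112, -48), (116, -48), (117, -48), (118, 192), (121, -144), (123, 192), (131, -48), (139, -144), (140, -144), (141, -48), (188, 96), (192, -24), (198, 192), (200, 192), (201, 192), (298, 96)]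

theorem h7_10_13 (E : Env κ ι) : inn E 1 5 c7_10 c7_13 = dotS (ek E keys) r7_10_13 :=
  innS_eqZ E _ _ _ _ _ _ _ (innS_add E _ _ _ _ _ _ _ _ (chkF_sound E keys 1 5 _ _ _ _ t7_10_13_0) (chkF_sound E keys 1 5 _ _ _ _ t7_10_13_1)) (by decide +kernel)

def r7_10_14 : List (ℕ × ℤ) := [(23, 96), (27, -24), (84, 96), (85, 192), (89, -48), (103, -48), (104, -48), (105, -48), (107, -48), (109, 144), (112, -48), (116, -48), (117, -48), (118, -48), (121, 96), (123, -48), (131, -48), (139, 96), (140, 96), (141, -48), (188, -24), (192, -24), (198, -48), (200, -48), (201, -48), (298, -24)]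

theorem h7_10_14 (E : Env κ ι) : inn E 1 5 c7_10 c7_14 = dotS (ek E keys) r7_10_14 :=
  innS_eqZ E _ _ _ _ _ _ _ (innS_add E _ _ _ _ _ _ _ _ (chkF_sound E keys 1 5 _ _ _ _ t7_10_14_0) (chkF_sound E keys 1 5 _ _ _ _ t7_10_14_1)) (by decide +kernel)

def r7_10_15 : List (ℕ × ℤ) := [(23, -24), (27, 96), (84, -24), (85, -48), (89, 192), (103, 192), (104, -48), (105, 192), (107, -48), (109, -96), (112, -48), (116, 192), (117, 192), (118, -48), (121, -144), (123, -48), (131, -48), (139, -144), (140, -144), (141, -48), (188, -24), (192, 96), (198, -48), (200, -48), (201, -48), (298, -24)]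

theorem h7_10_15 (E : Env κ ι) : inn E 1 5 c7_10 c7_15 = dotS (ek E keys) r7_10_15 :=
  innS_eqZ E _ _ _ _ _ _ _ (innS_add E _ _ _ _ _ _ _ _ (chkF_sound E keys 1 5 _ _ _ _ t7_10_15_0) (chkF_sound E keys 1 5 _ _ _ _ t7_10_15_1)) (by decide +kernel)

def r7_11_11 : List (ℕ × ℤ) := [(37, -48), (214, 96), (215, 384), (217, -96), (287, -192), (288, -48), (289, -48), (290, 192), (291, -288), (293, 192), (295, -192), (296, -96), (300, 192), (304, -24), (374, 96), (376, -48), (377, -48), (378, -24)]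

theorem h7_11_11 (E : Env κ ι) : inn E 1 5 c7_11 c7_11 = dotS (ek E keys) r7_11_11 :=
  innS_eqZ E _ _ _ _ _ _ _ (innS_add E _ _ _ _ _ _ _ _ (chkF_sound E keys 1 5 _ _ _ _ t7_11_11_0) (chkF_sound E keys 1 5 _ _ _ _ t7_11_11_1)) (by decide +kernel)

def r7_11_12 : List (ℕ × ℤ) := [(37, 72), (214, -24), (215, -96), (217, 144), (287, -192), (288, 192), (289, -48), (290, -48), (291, 192), (293, -48), (295, -192), (296, 144), (300, -48), (304, -24), (374, -24), (376, -48), (377, -48), (378, 96)]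

theorem h7_11_12 (E : Env κ ι) : inn E 1 5 c7_11 c7_12 = dotS (ek E keys) r7_11_12 :=
  innS_eqZ E _ _ _ _ _ _ _ (innS_add E _ _ _ _ _ _ _ _ (chkF_sound E keys 1 5 _ _ _ _ t7_11_12_0) (chkF_sound E keys 1 5 _ _ _ _ t7_11_12_1)) (by decide +kernel)

def r7_11_13 : List (ℕ × ℤ) := [(23, 96), (27, -24), (84, -24), (85, -48), (89, -48), (103, -48), (104, -48), (105, 192), (107, -48), (109, -96), (112, -48), (116, -48), (117, -48), (118, -48), (121, 96), (123, -48), (131, -48), (139, 96), (140, 96), (141, 192), (188, -24), (192, 96), (198, -48), (200, -48), (201, -48), (298, -24)]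

theorem h7_11_13 (E : Env κ ι) : inn E 1 5 c7_11 c7_13 = dotS (ek E keys) r7_11_13 :=
  innS_eqZ E _ _ _ _ _ _ _ (innS_add E _ _ _ _ _ _ _ _ (chkF_sound E keys 1 5 _ _ _ _ t7_11_13_0) (chkF_sound E keys 1 5 _ _ _ _ t7_11_13_1)) (by decide +kernel)

def r7_11_14 : List (ℕ × ℤ) := [(23, -24), (27, 96), (84, -24), (85, -48), (89, 192), (103, -48), (104, 192), (105, -48), (107, -48), (109, -96), (112, -48), (116, -48), (117, -48), (118, 192), (121, 336), (123, -48), (131, -48), (139, -144), (140, -144), (141, -48), (188, -24), (192, -24), (198, -48), (200, -48), (201, -48), (298, 96)]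

theorem h7_11_14 (E : Env κ ι) : inn E 1 5 c7_11 c7_14 = dotS (ek E keys) r7_11_14 :=
  innS_eqZ E _ _ _ _ _ _ _ (innS_add E _ _ _ _ _ _ _ _ (chkF_sound E keys 1 5 _ _ _ _ t7_11_14_0) (chkF_sound E keys 1 5 _ _ _ _ t7_11_14_1)) (by decide +kernel)

def r7_11_15 : List (ℕ × ℤ) := [(23, -24), (27, -24), (84, 96), (85, 192), (89, -48), (103, -48), (104, -48), (105, -48), (107, 192), (109, -96), (112, 192), (116, -48), (117, -48), (118, -48), (121, -144), (123, 192), (131, 192), (139, -144), (140, -144), (141, -48), (188, 96), (192, -24), (198, -48), (200, -48), (201, -48), (298, -24)]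

theorem h7_11_15 (E : Env κ ι) : inn E 1 5 c7_11 c7_15 = dotS (ek E keys) r7_11_15 :=
  innS_eqZ E _ _ _ _ _ _ _ (innS_add E _ _ _ _ _ _ _ _ (chkF_sound E keys 1 5 _ _ _ _ t7_11_15_0) (chkF_sound E keys 1 5 _ _ _ _ t7_11_15_1)) (by decide +kernel)

def r7_12_12 : List (ℕ × ℤ) := [(37, -48), (214, -24), (215, -96), (217, -96), (287, 528), (288, -48), (289, -48), (290, -48), (291, -288), (293, 192), (295, -192), (296, -96), (300, -48), (304, 96), (374, 96), (376, 192), (377, -48), (378, -24)]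

theorem h7_12_12 (E : Env κ ι) : inn E 1 5 c7_12 c7_12 = dotS (ek E keys) r7_12_12 :=
  innS_eqZ E _ _ _ _ _ _ _ (innS_add E _ _ _ _ _ _ _ _ (chkF_sound E keys 1 5 _ _ _ _ t7_12_12_0) (chkF_sound E keys 1 5 _ _ _ _ t7_12_12_1)) (by decide +kernel)

def r7_12_13 : List (ℕ × ℤ) := [(23, -24), (27, 96), (84, 96), (85, -48), (89, -48), (103, -48), (104, -48), (105, -48), (107, -48), (109, -96), (112, -48), (116, -48), (117, 192), (118, -48), (121, 96), (123, -48), (131, 192), (139, 96), (140, 96), (141, -48), (188, -24), (192, -24), (198, -48), (200, -48), (201, -48), (298, -24)]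

theorem h7_12_13 (E : Env κ ι) : inn E 1 5 c7_12 c7_13 = dotS (ek E keys) r7_12_13 :=
  innS_eqZ E _ _ _ _ _ _ _ (innS_add E _ _ _ _ _ _ _ _ (chkF_sound E keys 1 5 _ _ _ _ t7_12_13_0) (chkF_sound E keys 1 5 _ _ _ _ t7_12_13_1)) (by decide +kernel)

def r7_12_14 : List (ℕ × ℤ) := [(23, -24), (27, -24), (84, -24), (85, -48), (89, -48), (103, 192), (104, -48), (105, -48), (107, -48), (109, -96), (112, 192), (116, -48), (117, -48), (118, -48), (121, -144), (123, -48), (131, -48), (139, 336), (140, -144), (141, -48), (188, 96), (192, 96), (198, 192), (200, -48), (201, -48), (298, -24)]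

theorem h7_12_14 (E : Env κ ι) : inn E 1 5 c7_12 c7_14 = dotS (ek E keys) r7_12_14 :=
  innS_eqZ E _ _ _ _ _ _ _ (innS_add E _ _ _ _ _ _ _ _ (chkF_sound E keys 1 5 _ _ _ _ t7_12_14_0) (chkF_sound E keys 1 5 _ _ _ _ t7_12_14_1)) (by decide +kernel)

def r7_12_15 : List (ℕ × ℤ) := [(23, 96), (27, -24), (84, -24), (85, -48), (89, -48), (103, -48), (104, 192), (105, -48), (107, -48), (109, 384), (112, -48), (116, -48), (117, -48), (118, -48), (121, -144), (123, -48), (131, -48), (139, -144), (140, -144), (141, 192), (188, -24), (192, -24), (198, -48), (200, 192), (201, -48), (298, 96)]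

theorem h7_12_15 (E : Env κ ι) : inn E 1 5 c7_12 c7_15 = dotS (ek E keys) r7_12_15 :=
  innS_eqZ E _ _ _ _ _ _ _ (innS_add E _ _ _ _ _ _ _ _ (chkF_sound E keys 1 5 _ _ _ _ t7_12_15_0) (chkF_sound E keys 1 5 _ _ _ _ t7_12_15_1)) (by decide +kernel)

def r7_13_13 : List (ℕ × ℤ) := [(218, 192), (220, -96), (221, -96), (235, -96), (236, -96), (238, -192), (239, -48), (243, -48), (245, -96), (246, -24), (255, -48), (309, 192), (311, -96), (314, 96), (315, -48), (320, 384), (325, -24), (327, -96), (340, 96), (347, -48), (364, 192)]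

theorem h7_13_13 (E : Env κ ι) : inn E 1 5 c7_13 c7_13 = dotS (ek E keys) r7_13_13 :=
  innS_eqZ E _ _ _ _ _ _ _ (innS_add E _ _ _ _ _ _ _ _ (chkF_sound E keys 1 5 _ _ _ _ t7_13_13_0) (chkF_sound E keys 1 5 _ _ _ _ t7_13_13_1)) (by decide +kernel)

def r7_13_14 : List (ℕ × ℤ) := [(218, -48), (220, 144), (221, -96), (235, 144), (236, 144), (238, 48), (239, 72), (243, -48), (245, -96), (246, -24), (255, -48), (309, -48), (311, -96), (314, -24), (315, -48), (320, -96), (325, 96), (327, 144), (340, -24), (347, -48), (364, -48)]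

theorem h7_13_14 (E : Env κ ι) : inn E 1 5 c7_13 c7_14 = dotS (ek E keys) r7_13_14 :=
  innS_eqZ E _ _ _ _ _ _ _ (innS_add E _ _ _ _ _ _ _ _ (chkF_sound E keys 1 5 _ _ _ _ t7_13_14_0) (chkF_sound E keys 1 5 _ _ _ _ t7_13_14_1)) (by decide +kernel)

def r7_13_15 : List (ℕ × ℤ) := [(218, -48), (220, -96), (221, 144), (235, -96), (236, 144), (238, -192), (239, 72), (243, 192), (245, 144), (246, 96), (255, -48), (309, -48), (311, 144), (314, -24), (315, -48), (320, -96), (325, -24), (327, -96), (340, -24), (347, -48), (364, -48)]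

theorem h7_13_15 (E : Env κ ι) : inn E 1 5 c7_13 c7_15 = dotS (ek E keys) r7_13_15 :=
  innS_eqZ E _ _ _ _ _ _ _ (innS_add E _ _ _ _ _ _ _ _ (chkF_sound E keys 1 5 _ _ _ _ t7_13_15_0) (chkF_sound E keys 1 5 _ _ _ _ t7_13_15_1)) (by decide +kernel)

def r7_14_14 : List (ℕ × ℤ) := [(218, -48), (220, -96), (221, -96), (235, 144), (236, -96), (238, -192), (239, -48), (243, -48), (245, 384), (246, 96), (255, -48), (309, 192), (311, -96), (314, -24), (315, -48), (320, -96), (325, -24), (327, -96), (340, 96), (347, 192), (364, -48)]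

theorem h7_14_14 (E : Env κ ι) : inn E 1 5 c7_14 c7_14 = dotS (ek E keys) r7_14_14 :=
  innS_eqZ E _ _ _ _ _ _ _ (innS_add E _ _ _ _ _ _ _ _ (chkF_sound E keys 1 5 _ _ _ _ t7_14_14_0) (chkF_sound E keys 1 5 _ _ _ _ t7_14_14_1)) (by decide +kernel)

def r7_14_15 : List (ℕ × ℤ) := [(218, -48), (220, -96), (221, -96), (235, -96), (236, -96), (238, 288), (239, 72), (243, -48), (245, -96), (246, -24), (255, -48), (309, -48), (311, 144), (314, 96), (315, 192), (320, 144), (325, -24), (327, -96), (340, -24), (347, -48), (364, -48)]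

theorem h7_14_15 (E : Env κ ι) : inn E 1 5 c7_14 c7_15 = dotS (ek E keys) r7_14_15 :=
  innS_eqZ E _ _ _ _ _ _ _ (innS_add E _ _ _ _ _ _ _ _ (chkF_sound E keys 1 5 _ _ _ _ t7_14_15_0) (chkF_sound E keys 1 5 _ _ _ _ t7_14_15_1)) (by decide +kernel)

def r7_15_15 : List (ℕ × ℤ) := [(218, -48), (220, -96), (221, -96), (235, -96), (236, -96), (238, -192), (239, -48), (243, -48), (245, -96), (246, -24), (255, 192), (309, -48), (311, -96), (314, -24), (315, -48), (320, -96), (325, 96), (327, 384), (340, 96), (347, 192), (364, 192)]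

theorem h7_15_15 (E : Env κ ι) : inn E 1 5 c7_15 c7_15 = dotS (ek E keys) r7_15_15 :=
  innS_eqZ E _ _ _ _ _ _ _ (innS_add E _ _ _ _ _ _ _ _ (chkF_sound E keys 1 5 _ _ _ _ t7_15_15_0) (chkF_sound E keys 1 5 _ _ _ _ t7_15_15_1)) (by decide +kernel)

theorem row7_0 (E : Env κ ι) : RowS E 1 5 (ek E keys) c7_0 [c7_0, c7_1, c7_2, c7_3, c7_4, c7_5, c7_6, c7_7, c7_8, c7_9, c7_10, c7_11, c7_12, c7_13, c7_14, c7_15] [r7_0_0, r7_0_1, r7_0_2, r7_0_3, r7_0_4, r7_0_5, r7_0_6, r7_0_7, r7_0_8, r7_0_9, r7_0_10, r7_0_11, r7_0_12, r7_0_13, r7_0_14, r7_0_15] :=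
  rowS_cons E _ _ _ _ _ _ _ _ (h7_0_0 E) (rowS_cons E _ _ _ _ _ _ _ _ (h7_0_1 E) (rowS_cons E _ _ _ _ _ _ _ _ (h7_0_2 E) (rowS_cons E _ _ _ _ _ _ _ _ (h7_0_3 E) (rowS_cons E _ _ _ _ _ _ _ _ (h7_0_4 E) (rowS_cons E _ _ _ _ _ _ _ _ (h7_0_5 E) (rowS_cons E _ _ _ _ _ _ _ _ (h7_0_6 E) (rowS_cons E _ _ _ _ _ _ _ _ (h7_0_7 E) (rowS_cons E _ _ _ _ _ _ _ _ (h7_0_8 E) (rowS_cons E _ _ _ _ _ _ _ _ (h7_0_9 E) (rowS_cons E _ _ _ _ _ _ _ _ (h7_0_10 E) (rowS_cons E _ _ _ _ _ _ _ _ (h7_0_11 E) (rowS_cons E _ _ _ _ _ _ _ _ (h7_0_12 E) (rowS_cons E _ _ _ _ _ _ _ _ (h7_0_13 E) (rowS_cons E _ _ _ _ _ _ _ _ (h7_0_14 E) (rowS_cons E _ _ _ _ _ _ _ _ (h7_0_15 E) (rowS_nil E _ _ _ _))))))))))))))))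

theorem row7_1 (E : Env κ ι) : RowS E 1 5 (ek E keys) c7_1 [c7_1, c7_2, c7_3, c7_4, c7_5, c7_6, c7_7, c7_8, c7_9, c7_10, c7_11, c7_12, c7_13, c7_14, c7_15] [r7_1_1, r7_1_2, r7_1_3, r7_1_4, r7_1_5, r7_1_6, r7_1_7, r7_1_8, r7_1_9, r7_1_10, r7_1_11, r7_1_12, r7_1_13, r7_1_14, r7_1_15] :=
  rowS_cons E _ _ _ _ _ _ _ _ (h7_1_1 E) (rowS_cons E _ _ _ _ _ _ _ _ (h7_1_2 E) (rowS_cons E _ _ _ _ _ _ _ _ (h7_1_3 E) (rowS_cons E _ _ _ _ _ _ _ _ (h7_1_4 E) (rowS_cons E _ _ _ _ _ _ _ _ (h7_1_5 E) (rowS_cons E _ _ _ _ _ _ _ _ (h7_1_6 E) (rowS_cons E _ _ _ _ _ _ _ _ (h7_1_7 E) (rowS_cons E _ _ _ _ _ _ _ _ (h7_1_8 E) (rowS_cons E _ _ _ _ _ _ _ _ (h7_1_9 E) (rowS_cons E _ _ _ _ _ _ _ _ (h7_1_10 E) (rowS_cons E _ _ _ _ _ _ _ _ (h7_1_11 E) (rowS_cons E _ _ _ _ _ _ _ _ (h7_1_12 E) (rowS_cons E _ _ _ _ _ _ _ _ (h7_1_13 E) (rowS_cons E _ _ _ _ _ _ _ _ (h7_1_14 E) (rowS_cons E _ _ _ _ _ _ _ _ (h7_1_15 E) (rowS_nil E _ _ _ _)))))))))))))))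

theorem row7_2 (E : Env κ ι) : RowS E 1 5 (ek E keys) c7_2 [c7_2, c7_3, c7_4, c7_5, c7_6, c7_7, c7_8, c7_9, c7_10, c7_11, c7_12, c7_13, c7_14, c7_15] [r7_2_2, r7_2_3, r7_2_4, r7_2_5, r7_2_6, r7_2_7, r7_2_8, r7_2_9, r7_2_10, r7_2_11, r7_2_12, r7_2_13, r7_2_14, r7_2_15] :=
  rowS_cons E _ _ _ _ _ _ _ _ (h7_2_2 E) (rowS_cons E _ _ _ _ _ _ _ _ (h7_2_3 E) (rowS_cons E _ _ _ _ _ _ _ _ (h7_2_4 E) (rowS_cons E _ _ _ _ _ _ _ _ (h7_2_5 E) (rowS_cons E _ _ _ _ _ _ _ _ (h7_2_6 E) (rowS_cons E _ _ _ _ _ _ _ _ (h7_2_7 E) (rowS_cons E _ _ _ _ _ _ _ _ (h7_2_8 E) (rowS_cons E _ _ _ _ _ _ _ _ (h7_2_9 E) (rowS_cons E _ _ _ _ _ _ _ _ (h7_2_10 E) (rowS_cons E _ _ _ _ _ _ _ _ (h7_2_11 E) (rowS_cons E _ _ _ _ _ _ _ _ (h7_2_12 E) (rowS_cons E _ _ _ _ _ _ _ _ (h7_2_13 E) (rowS_cons E _ _ _ _ _ _ _ _ (h7_2_14 E) (rowS_cons E _ _ _ _ _ _ _ _ (h7_2_15 E) (rowS_nil E _ _ _ _))))))))))))))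

theorem row7_3 (E : Env κ ι) : RowS E 1 5 (ek E keys) c7_3 [c7_3, c7_4, c7_5, c7_6, c7_7, c7_8, c7_9, c7_10, c7_11, c7_12, c7_13, c7_14, c7_15] [r7_3_3, r7_3_4, r7_3_5, r7_3_6, r7_3_7, r7_3_8, r7_3_9, r7_3_10, r7_3_11, r7_3_12, r7_3_13, r7_3_14, r7_3_15] :=
  rowS_cons E _ _ _ _ _ _ _ _ (h7_3_3 E) (rowS_cons E _ _ _ _ _ _ _ _ (h7_3_4 E) (rowS_cons E _ _ _ _ _ _ _ _ (h7_3_5 E) (rowS_cons E _ _ _ _ _ _ _ _ (h7_3_6 E) (rowS_cons E _ _ _ _ _ _ _ _ (h7_3_7 E) (rowS_cons E _ _ _ _ _ _ _ _ (h7_3_8 E) (rowS_cons E _ _ _ _ _ _ _ _ (h7_3_9 E) (rowS_cons E _ _ _ _ _ _ _ _ (h7_3_10 E) (rowS_cons E _ _ _ _ _ _ _ _ (h7_3_11 E) (rowS_cons E _ _ _ _ _ _ _ _ (h7_3_12 E) (rowS_cons E _ _ _ _ _ _ _ _ (h7_3_13 E) (rowS_cons E _ _ _ _ _ _ _ _ (h7_3_14 E) (rowS_cons E _ _ _ _ _ _ _ _ (h7_3_15 E) (rowS_nil E _ _ _ _)))))))))))))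

theorem row7_4 (E : Env κ ι) : RowS E 1 5 (ek E keys) c7_4 [c7_4, c7_5, c7_6, c7_7, c7_8, c7_9, c7_10, c7_11, c7_12, c7_13, c7_14, c7_15] [r7_4_4, r7_4_5, r7_4_6, r7_4_7, r7_4_8, r7_4_9, r7_4_10, r7_4_11, r7_4_12, r7_4_13, r7_4_14, r7_4_15] :=
  rowS_cons E _ _ _ _ _ _ _ _ (h7_4_4 E) (rowS_cons E _ _ _ _ _ _ _ _ (h7_4_5 E) (rowS_cons E _ _ _ _ _ _ _ _ (h7_4_6 E) (rowS_cons E _ _ _ _ _ _ _ _ (h7_4_7 E) (rowS_cons E _ _ _ _ _ _ _ _ (h7_4_8 E) (rowS_cons E _ _ _ _ _ _ _ _ (h7_4_9 E) (rowS_cons E _ _ _ _ _ _ _ _ (h7_4_10 E) (rowS_cons E _ _ _ _ _ _ _ _ (h7_4_11 E) (rowS_cons E _ _ _ _ _ _ _ _ (h7_4_12 E) (rowS_cons E _ _ _ _ _ _ _ _ (h7_4_13 E) (rowS_cons E _ _ _ _ _ _ _ _ (h7_4_14 E) (rowS_cons E _ _ _ _ _ _ _ _ (h7_4_15 E) (rowS_nil E _ _ _ _))))))))))))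

theorem row7_5 (E : Env κ ι) : RowS E 1 5 (ek E keys) c7_5 [c7_5, c7_6, c7_7, c7_8, c7_9, c7_10, c7_11, c7_12, c7_13, c7_14, c7_15] [r7_5_5, r7_5_6, r7_5_7, r7_5_8, r7_5_9, r7_5_10, r7_5_11, r7_5_12, r7_5_13, r7_5_14, r7_5_15] :=
  rowS_cons E _ _ _ _ _ _ _ _ (h7_5_5 E) (rowS_cons E _ _ _ _ _ _ _ _ (h7_5_6 E) (rowS_cons E _ _ _ _ _ _ _ _ (h7_5_7 E) (rowS_cons E _ _ _ _ _ _ _ _ (h7_5_8 E) (rowS_cons E _ _ _ _ _ _ _ _ (h7_5_9 E) (rowS_cons E _ _ _ _ _ _ _ _ (h7_5_10 E) (rowS_cons E _ _ _ _ _ _ _ _ (h7_5_11 E) (rowS_cons E _ _ _ _ _ _ _ _ (h7_5_12 E) (rowS_cons E _ _ _ _ _ _ _ _ (h7_5_13 E) (rowS_cons E _ _ _ _ _ _ _ _ (h7_5_14 E) (rowS_cons E _ _ _ _ _ _ _ _ (h7_5_15 E) (rowS_nil E _ _ _ _)))))))))))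

theorem row7_6 (E : Env κ ι) : RowS E 1 5 (ek E keys) c7_6 [c7_6, c7_7, c7_8, c7_9, c7_10, c7_11, c7_12, c7_13, c7_14, c7_15] [r7_6_6, r7_6_7, r7_6_8, r7_6_9, r7_6_10, r7_6_11, r7_6_12, r7_6_13, r7_6_14, r7_6_15] :=
  rowS_cons E _ _ _ _ _ _ _ _ (h7_6_6 E) (rowS_cons E _ _ _ _ _ _ _ _ (h7_6_7 E) (rowS_cons E _ _ _ _ _ _ _ _ (h7_6_8 E) (rowS_cons E _ _ _ _ _ _ _ _ (h7_6_9 E) (rowS_cons E _ _ _ _ _ _ _ _ (h7_6_10 E) (rowS_cons E _ _ _ _ _ _ _ _ (h7_6_11 E) (rowS_cons E _ _ _ _ _ _ _ _ (h7_6_12 E) (rowS_cons E _ _ _ _ _ _ _ _ (h7_6_13 E) (rowS_cons E _ _ _ _ _ _ _ _ (h7_6_14 E) (rowS_cons E _ _ _ _ _ _ _ _ (h7_6_15 E) (rowS_nil E _ _ _ _))))))))))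

theorem row7_7 (E : Env κ ι) : RowS E 1 5 (ek E keys) c7_7 [c7_7, c7_8, c7_9, c7_10, c7_11, c7_12, c7_13, c7_14, c7_15] [r7_7_7, r7_7_8, r7_7_9, r7_7_10, r7_7_11, r7_7_12, r7_7_13, r7_7_14, r7_7_15] :=
  rowS_cons E _ _ _ _ _ _ _ _ (h7_7_7 E) (rowS_cons E _ _ _ _ _ _ _ _ (h7_7_8 E) (rowS_cons E _ _ _ _ _ _ _ _ (h7_7_9 E) (rowS_cons E _ _ _ _ _ _ _ _ (h7_7_10 E) (rowS_cons E _ _ _ _ _ _ _ _ (h7_7_11 E) (rowS_cons E _ _ _ _ _ _ _ _ (h7_7_12 E) (rowS_cons E _ _ _ _ _ _ _ _ (h7_7_13 E) (rowS_cons E _ _ _ _ _ _ _ _ (h7_7_14 E) (rowS_cons E _ _ _ _ _ _ _ _ (h7_7_15 E) (rowS_nil E _ _ _ _)))))))))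

theorem row7_8 (E : Env κ ι) : RowS E 1 5 (ek E keys) c7_8 [c7_8, c7_9, c7_10, c7_11, c7_12, c7_13, c7_14, c7_15] [r7_8_8, r7_8_9, r7_8_10, r7_8_11, r7_8_12, r7_8_13, r7_8_14, r7_8_15] :=
  rowS_cons E _ _ _ _ _ _ _ _ (h7_8_8 E) (rowS_cons E _ _ _ _ _ _ _ _ (h7_8_9 E) (rowS_cons E _ _ _ _ _ _ _ _ (h7_8_10 E) (rowS_cons E _ _ _ _ _ _ _ _ (h7_8_11 E) (rowS_cons E _ _ _ _ _ _ _ _ (h7_8_12 E) (rowS_cons E _ _ _ _ _ _ _ _ (h7_8_13 E) (rowS_cons E _ _ _ _ _ _ _ _ (h7_8_14 E) (rowS_cons E _ _ _ _ _ _ _ _ (h7_8_15 E) (rowS_nil E _ _ _ _))))))))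

theorem row7_9 (E : Env κ ι) : RowS E 1 5 (ek E keys) c7_9 [c7_9, c7_10, c7_11, c7_12, c7_13, c7_14, c7_15] [r7_9_9, r7_9_10, r7_9_11, r7_9_12, r7_9_13, r7_9_14, r7_9_15] :=
  rowS_cons E _ _ _ _ _ _ _ _ (h7_9_9 E) (rowS_cons E _ _ _ _ _ _ _ _ (h7_9_10 E) (rowS_cons E _ _ _ _ _ _ _ _ (h7_9_11 E) (rowS_cons E _ _ _ _ _ _ _ _ (h7_9_12 E) (rowS_cons E _ _ _ _ _ _ _ _ (h7_9_13 E) (rowS_cons E _ _ _ _ _ _ _ _ (h7_9_14 E) (rowS_cons E _ _ _ _ _ _ _ _ (h7_9_15 E) (rowS_nil E _ _ _ _)))))))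

theorem row7_10 (E : Env κ ι) : RowS E 1 5 (ek E keys) c7_10 [c7_10, c7_11, c7_12, c7_13, c7_14, c7_15] [r7_10_10, r7_10_11, r7_10_12, r7_10_13, r7_10_14, r7_10_15] :=
  rowS_cons E _ _ _ _ _ _ _ _ (h7_10_10 E) (rowS_cons E _ _ _ _ _ _ _ _ (h7_10_11 E) (rowS_cons E _ _ _ _ _ _ _ _ (h7_10_12 E) (rowS_cons E _ _ _ _ _ _ _ _ (h7_10_13 E) (rowS_cons E _ _ _ _ _ _ _ _ (h7_10_14 E) (rowS_cons E _ _ _ _ _ _ _ _ (h7_10_15 E) (rowS_nil E _ _ _ _))))))

theorem row7_11 (E : Env κ ι) : RowS E 1 5 (ek E keys) c7_11 [c7_11, c7_12, c7_13, c7_14, c7_15] [r7_11_11, r7_11_12, r7_11_13, r7_11_14, r7_11_15] :=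
  rowS_cons E _ _ _ _ _ _ _ _ (h7_11_11 E) (rowS_cons E _ _ _ _ _ _ _ _ (h7_11_12 E) (rowS_cons E _ _ _ _ _ _ _ _ (h7_11_13 E) (rowS_cons E _ _ _ _ _ _ _ _ (h7_11_14 E) (rowS_cons E _ _ _ _ _ _ _ _ (h7_11_15 E) (rowS_nil E _ _ _ _)))))

theorem row7_12 (E : Env κ ι) : RowS E 1 5 (ek E keys) c7_12 [c7_12, c7_13, c7_14, c7_15] [r7_12_12, r7_12_13, r7_12_14, r7_12_15] :=
  rowS_cons E _ _ _ _ _ _ _ _ (h7_12_12 E) (rowS_cons E _ _ _ _ _ _ _ _ (h7_12_13 E) (rowS_cons E _ _ _ _ _ _ _ _ (h7_12_14 E) (rowS_cons E _ _ _ _ _ _ _ _ (h7_12_15 E) (rowS_nil E _ _ _ _))))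

theorem row7_13 (E : Env κ ι) : RowS E 1 5 (ek E keys) c7_13 [c7_13, c7_14, c7_15] [r7_13_13, r7_13_14, r7_13_15] :=
  rowS_cons E _ _ _ _ _ _ _ _ (h7_13_13 E) (rowS_cons E _ _ _ _ _ _ _ _ (h7_13_14 E) (rowS_cons E _ _ _ _ _ _ _ _ (h7_13_15 E) (rowS_nil E _ _ _ _)))

theorem row7_14 (E : Env κ ι) : RowS E 1 5 (ek E keys) c7_14 [c7_14, c7_15] [r7_14_14, r7_14_15] :=
  rowS_cons E _ _ _ _ _ _ _ _ (h7_14_14 E) (rowS_cons E _ _ _ _ _ _ _ _ (h7_14_15 E) (rowS_nil E _ _ _ _))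

theorem row7_15 (E : Env κ ι) : RowS E 1 5 (ek E keys) c7_15 [c7_15] [r7_15_15] :=
  rowS_cons E _ _ _ _ _ _ _ _ (h7_15_15 E) (rowS_nil E _ _ _ _)

def tab7 : List (List (List (ℕ × ℤ))) := [[r7_0_0, r7_0_1, r7_0_2, r7_0_3, r7_0_4, r7_0_5, r7_0_6, r7_0_7, r7_0_8, r7_0_9, r7_0_10, r7_0_11, r7_0_12, r7_0_13, r7_0_14, r7_0_15], [r7_1_1, r7_1_2, r7_1_3, r7_1_4, r7_1_5, r7_1_6, r7_1_7, r7_1_8, r7_1_9, r7_1_10, r7_1_11, r7_1_12, r7_1_13, r7_1_14, r7_1_15], [r7_2_2, r7_2_3, r7_2_4, r7_2_5, r7_2_6, r7_2_7, r7_2_8, r7_2_9, r7_2_10, r7_2_11, r7_2_12, r7_2_13, r7_2_14, r7_2_15], [r7_3_3, r7_3_4, r7_3_5, r7_3_6, r7_3_7, r7_3_8, r7_3_9, r7_3_10, r7_3_11, r7_3_12, r7_3_13, r7_3_14, r7_3_15], [r7_4_4, r7_4_5, r7_4_6, r7_4_7, r7_4_8, r7_4_9, r7_4_10, r7_4_11, r7_4_12, r7_4_13, r7_4_14, r7_4_15], [r7_5_5, r7_5_6, r7_5_7, r7_5_8, r7_5_9, r7_5_10, r7_5_11, r7_5_12, r7_5_13, r7_5_14, r7_5_15], [r7_6_6, r7_6_7, r7_6_8, r7_6_9, r7_6_10, r7_6_11, r7_6_12, r7_6_13,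 r7_6_14, r7_6_15], [r7_7_7, r7_7_8, r7_7_9, r7_7_10, r7_7_11, r7_7_12, r7_7_13, r7_7_14, r7_7_15], [r7_8_8, r7_8_9, r7_8_10, r7_8_11, r7_8_12, r7_8_13, r7_8_14, r7_8_15], [r7_9_9, r7_9_10, r7_9_11, r7_9_12, r7_9_13, r7_9_14, r7_9_15], [r7_10_10, r7_10_11, r7_10_12, r7_10_13, r7_10_14, r7_10_15], [r7_11_11, r7_11_12, r7_11_13, r7_11_14, r7_11_15], [r7_12_12, r7_12_13, r7_12_14, r7_12_15], [r7_13_13, r7_13_14, r7_13_15], [r7_14_14, r7_14_15], [r7_15_15]]

theorem tri7 (E : Env κ ι) : TriS E 1 5 (ek E keys) [c7_0, c7_1, c7_2, c7_3, c7_4, c7_5, c7_6, c7_7, c7_8, c7_9, c7_10, c7_11, c7_12, c7_13, c7_14, c7_15] tab7 := by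
  refine triS_cons E _ _ _ _ _ _ _ (row7_0 E) ?_
  refine triS_cons E _ _ _ _ _ _ _ (row7_1 E) ?_
  refine triS_cons E _ _ _ _ _ _ _ (row7_2 E) ?_
  refine triS_cons E _ _ _ _ _ _ _ (row7_3 E) ?_
  refine triS_cons E _ _ _ _ _ _ _ (row7_4 E) ?_
  refine triS_cons E _ _ _ _ _ _ _ (row7_5 E) ?_
  refine triS_cons E _ _ _ _ _ _ _ (row7_6 E) ?_
  refine triS_cons E _ _ _ _ _ _ _ (row7_7 E) ?_
  refine triS_cons E _ _ _ _ _ _ _ (row7_8 E) ?_
  refine triS_cons E _ _ _ _ _ _ _ (row7_9 E) ?_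
  refine triS_cons E _ _ _ _ _ _ _ (row7_10 E) ?_
  refine triS_cons E _ _ _ _ _ _ _ (row7_11 E) ?_
  refine triS_cons E _ _ _ _ _ _ _ (row7_12 E) ?_
  refine triS_cons E _ _ _ _ _ _ _ (row7_13 E) ?_
  refine triS_cons E _ _ _ _ _ _ _ (row7_14 E) ?_
  refine triS_cons E _ _ _ _ _ _ _ (row7_15 E) ?_
  exact triS_nil E _ _ _

def rows7 : List (ℕ × List ℤ) := [(45531551520000, [16777216, -36350350, -18417044, -25562503, 2201449, 314709, -30538826, -2312970, 30359022, 1959656, 4025946, 17557119, -18486135, 6207386, 8978530, 2232928]),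
  (77952838320000, [0, 8388608, 5601463, 6059365, -209190, -287572, 6463762, -4585358, -5744878, -1460272, -4149663, -5060482, 388293, -965536, 172247, 578879]),
  (1038607920000, [0, 0, 4194304, 1515573, 408006, -385421, 476012, -8704414, 700192, -1831184, -5742560, -2588773, -5781888, 503160, 3429621, 1775962]),
  (449653680000, [0, 0, 0, 4194304, -316641, 77538, 2693142, 2623580, -3002578, 325346, 1216721, -908047, 3309811, -713515, -1779648, -697944]),
  (253562400000, [0, 0, 0, 0, 4194304, -119449, -807372, -2991798, 1196754, -552394, -1798028, -313256, -2524893, 365263, 1433937, 666217]),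
  (245397600000, [0, 0, 0, 0, 0, 4194304, 356862, 1834628, -597128, 349616, 1127395, 274044, 1471423, -196690, -842976, -400622]),
  (226210320000, [0, 0, 0, 0, 0, 0, 8388608, 5120940, -3075390, 862252, 2889914, -86760, 4901852, -831835, -2729772, -1200148]),
  (724807440000, [0, 0, 0, 0, 0, 0, 0, 8388608, -1993150, 1254234, 4035618, 1054191, 5161362, -672859, -2964750, -1417530]),
  (200899440000, [0, 0, 0, 0, 0, 0, 0, 0, 8388608, -210802, -768305, 461188, -1930093, 404100, 1042427, 415847]),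
  (165382560000, [0, 0, 0, 0, 0, 0, 0, 0, 0, 8388608, 752017, 282045, 839613, -88873, -489650, -244465]),
  (424161360000, [0, 0, 0, 0, 0, 0, 0, 0, 0, 0, 4194304, 639545, 2076931, -232465, -1208920, -598905]),
  (282864960000, [0, 0, 0, 0, 0, 0, 0, 0, 0, 0, 0, 4194304, 17523, 107346, -56339, -86164]),
  (447340320000, [0, 0, 0, 0, 0, 0, 0, 0, 0, 0, 0, 0, 4194304, -304282, -1025401, -454936]),
  (245261520000, [0, 0, 0, 0, 0, 0, 0, 0, 0, 0, 0, 0, 0, 4194304, 168530, 64721]),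
  (4576642560000, [0, 0, 0, 0, 0, 0, 0, 0, 0, 0, 0, 0, 0, 0, 1048576, 57479]),
  (4356979312001915289600000, [0, 0, 0, 0, 0, 0, 0, 0, 0, 0, 0, 0, 0, 0, 0, 1]),
  (3376641377207856240000, [0, 2, 0, -1, 0, 0, 0, 0, 0, 0, 0, 0, 0, 0, 0, 0]),
  (21668357060696845504000, [0, 1, 0, 0, 0, 0, -1, 0, 0, 0, 0, 0, 0, 0, 0, 0]),
  (43702650622084348800, [0, 2, 0, 0, 0, 0, 0, 0, 0, 0, -1, 0, 0, 0, 0, 0]),
  (67831025952916997406720000, [1, 0, 0, 0, 0, 0, 0, 0, 0, 0, 0, 0, 0, 0, 0, 0]),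
  (11269854508212440239500800, [0, 1, 0, 0, 0, 0, 0, 0, 0, 0, 0, 0, 0, 0, 0, 0]),
  (4239439122057312337920000, [0, 0, 1, 0, 0, 0, 0, 0, 0, 0, 0, 0, 0, 0, 0, 0]),
  (4236062480680104481680000, [0, 0, 0, 1, 0, 0, 0, 0, 0, 0, 0, 0, 0, 0, 0, 0]),
  (4239439122057312337920000, [0, 0, 0, 0, 1, 0, 0, 0, 0, 0, 0, 0, 0, 0, 0, 0]),
  (4239439122057312337920000, [0, 0, 0, 0, 0, 1, 0, 0, 0, 0, 0, 0, 0, 0, 0, 0]),
  (11283535884323760001856000, [0, 0, 0, 0, 0, 0, 1, 0, 0, 0, 0, 0, 0, 0, 0, 0]),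
  (11305204241384456847360000, [0, 0, 0, 0, 0, 0, 0, 1, 0, 0, 0, 0, 0, 0, 0, 0]),
  (11305204241384456847360000, [0, 0, 0, 0, 0, 0, 0, 0, 1, 0, 0, 0, 0, 0, 0, 0]),
  (11305204241384456847360000, [0, 0, 0, 0, 0, 0, 0, 0, 0, 1, 0, 0, 0, 0, 0, 0]),
  (4239395419406690253571200, [0, 0, 0, 0, 0, 0, 0, 0, 0, 0, 1, 0, 0, 0, 0, 0]),
  (4239439122057312337920000, [0, 0, 0, 0, 0, 0, 0, 0, 0, 0, 0, 1, 0, 0, 0, 0]),
  (4423772862180470292480000, [0, 0, 0, 0, 0, 0, 0, 0, 0, 0, 0, 0, 1, 0, 0, 0]),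
  (4239439122057312337920000, [0, 0, 0, 0, 0, 0, 0, 0, 0, 0, 0, 0, 0, 1, 0, 0]),
  (4423772862180470292480000, [0, 0, 0, 0, 0, 0, 0, 0, 0, 0, 0, 0, 0, 0, 1, 0]),
  (4239439122057312337920000, [0, 0, 0, 0, 0, 0, 0, 0, 0, 0, 0, 0, 0, 0, 0, 1])]

def M7 : List (List ℤ) := [[12883823429644950794403840000, -55535532173102703181824000000, -28137290001209014521692160000, -39054017575663903357009920000, 3363341529502323163791360000, 480807799503030331637760000, -46656770948609444822384640000, -3533721679445214678220800000, 46382069031658093365166080000, 2993933726531209490595840000, 6150781316003123366461440000, 26823509184684404936540160000, -28242846218779734992486400000, 9483553388450655806423040000, 13717266592540864492339200000, 3411434684513955788881920000],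
  [65659770581095509065331840000, 68289421270698826712962560000, 92540990987887265285595840000, -7560768206963990147068800000, -1417837824860724279008640000, 109542347644503464658178432000, 1659460895229849172151040000, -108007028939013305270319360000, -8396595483453057152240640000, -18753649089967850636211955200, -64735406409534485812467840000, 61700176122693090166316160000, -21810296594367144969880320000, -29495241466035731975151360000, -6634307680652741448683520000],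
  [17912122876220588657515440000, 48176057693033555582979360000, -3871209982784918009906880000, -782297173909167574573440000, 56866017264025079434201920000, -201117112795065597278400000, -55926416648673288507706560000, -4577774402443553668707840000, -10425899185633190190042720000, -33887148536614372560912960000, 31292062248943796632123680000, -11249307549171300768929280000, -14877707188794412830487200000, -3223864983893111591755680000],
  [32628852454242901346300160000, -5322064304008589238360000000, -1005166997055061866053280000, 77206209419518616312648640000, 1034887486778087037016320000, -76106003711625267915568320000, -5945730059815827479170560000, -13305232285127888666309280000, -45661635171729966166535520000, 43393139072006941823467680000, -15362797320433298705800320000, -20733425541057205728460800000, -4647992417546509649832480000],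
  [232992482587243204649040000, 71866002219114257824320000, -6335031496628638921320000000, -328624326926618502447360000, 6277453627965248328223680000, 437659373471073872811840000, 933383398097074848588000000, 3682129625600689197275040000, -3729806878494114678062880000, 1277295940701639722374560000, 1800778702387860013432320000, 431878273937503840036800000],
  [19673166810531436720560000, -1164399999869986103629440000, 150404076368867902996800000, 1125535152164310661415040000, 123872452839390270274560000, 308535578732109371186880000, 732633114447520485262560000, -539149690814453354946240000, 220302953497295483552640000, 244895542820387799953760000, 35703009345598231916160000],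
  [45751433955543866566477440000, 1830170507180435583488640000, -90235406913260412262072320000, -6918758711694060322815360000, -15368595445109192293284480000, -53930198093967566537544000000, 51822698203537594129964160000, -18240071867948409297577920000, -24807369232967136066538560000, -5631158211068037034860480000],
  [2035707874551659433928320000, -2340948790226302272696960000, 683448729706640005194240000, 2284769467278401548092480000, -22330152993091426943040000, 3807707707796623067707200000, -638814393514393313696640000, -2125771219457072748489600000, -939291528128808503275200000],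
  [44573275913710241893466880000, 6716031228977147788112640000, 14815430370488127803189760000, 53067690808667868893414400000, -51501850809270753973939200000, 18033049495934181048110400000, 24694439177607247509572160000, 5666801468447306414445120000],
  [368976737698328887202880000, 1696684192335164654576640000, 4297544873792532082465920000, -3349584328468703024125440000, 1323453695640066084245760000, 1541010594508194997091520000, 255707032083667716646080000],
  [2141965652224294359625680000, 9749195839308687875759520000, -6907999822139545118589600000, 2887158533331089896814880000, 3109938959996445401314560000, 409156498536044107705920000],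
  [16049091620097320775036480000, -29824513465071139679329920000, 10683163636772476634719200000, 14196633590521242152641440000, 3101572803221745394721760000],
  [15653104248368432452531680000, -10525538333670206442624000000, -15188164746488135132270400000, -3764848773609561986903520000],
  [1836753390124599026354400000, 5059346579306283185752320000, 1179798311857676370138720000],
  [3705998052483191227225680000, 1865014691259410214693120000],
  [267473940336820986007680000]]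

def u7 : List ℤ := [0, 0, 0, -68674903929410449220121600000, 24804450899821074287232000000, 0, -13564865071168864481915550720000, 0, 2759391341411703923389086720000, 0, 0, 0, 0, -12967459148886118779941176320000, 0, 0, 18598348362041617695497877196800, 0, -4654469694645419410999641600000, 0, 0, -26918461349560309656864362803200, 0, 12154711012264927806566872320000, 0, 39499783368941102041797903360000, -1680363889506046859687354880000, -986159023246603836434649600000, 0, -10192067342042533618545423360000, 40097189291223847743772277760000, 0, 0, 0, 0, 0, 13446917049016797419336578560000, -19944762867798551449295489280000, 0, 0, 0, 0, 0, 0, 0, -27054542078308841986874880000, 191884251053556815803822080000, 920598124473444915111720960000, -2713263933776636427027563520000, 0, 0, 776056031152194965372605440000, 2140025198607250789802849280000, 184736078388868069681551360000, 470539199076949748833274880000, -754316062939999233448427520000, 0,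 1593323638881255885745935360000, -852443116187187983136215040000, 0, 0, 0, 0, -590494963865267351232115200000, -2938577100402575926312704000000, 0, 0, -839738966279441977045785600000, 0, 52378044744963461124787200000, 0, -2607042111460897392383754240000, 6576576726116288047270625280000, 12995425332532543237786391040000, 457523732081804630249226240000, -339953113098268866079994880000, 1337396278292791548545548800000, 1011094107671213031422638080000, -25607774723789129957444302848000, 1588994248287747497446978560000, 0, 19282705356088559526847534080000, 637547864783252374317219840000, -18341335784413255635343042560000, -2876275551020215249730280960000, -22127302878901672807204254720000, -1451877086529940544002529280000, -2047166132675104681555562496000, 3664376366957049569995653120000, 6873270482500441836662200320000, 0, 0, 0, 0, 0, 0, 0, -18691545447129439227609907200000, 0, 0, 0, 0, 0, -9620940285419570001740321280000, 2267992891965468518523348480000,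 7709148567285350126448245760000, 0, -24465307096739560870456888320000, -812698307200407911291043840000, -1532012989120112299905699840000, -10551851035332078331856424960000, -721628140386116879703244800000, 10452532864456487787079265280000, 0, -303112901870368077325824000000, 0, 3976263513445041179665758720000, -4869325015548608329865740800000, 3864474645631224970615764480000, -13570049908586918667107819520000, -957882880083396568204753920000, -5131849239539725888908334080000, 0, -2660946195586120147685952000000, -4866389124453676657110389760000, 0, 0, -10354604408964921935053808640000, -8861588597025758283037608960000, 4649809245282653246185144320000, 0, 11712658055631639200615162880000, 0, 0, 169592837520644043521218560000, 373539874109447445745766400000, 2074531802701848707028833280000, 18299815101305853413273256960000, 265315774228914774790817280000, 2302408025035536642336645120000, -977409789197964402448788480000, 34935948280652202100818224640000,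 0, -74569188164601366582635520000, 0, 739684392990317871201745920000, -169721133526840272522485760000, 0, 0, 0, 7328752733914099139991306240000, 0, 0, 0, 0, 0, 0, 0, 0, 13827470428232117319499932672000, 0, 0, 0, 0, 2044915726997629032045758668800, 0, -40334295354343766855656117862400, 0, 0, 0, 0, 0, -4856474960655930280859258880000, 0, 0, 2478477486584547650665451520000, 11526640079718350821057044480000, -416902057253315066344181760000, 0, 0, -449718633946936529695941120000, 134391892309760261748096000000, 877428128459299857377172480000, 36763944813405565793533440000, 0, 0, 0, 0, -176168559415579961730796800000, 0, 0, 0, -2433842523119933067841413120000, 0, 0, -2178102015891989598736442880000, 0, 0, -3187876955251025577763077120000, 0, -446281121760168022875025920000, 457282583906126853981818880000, 0, -2777765978884058040964055040000, 5685330922856703599605447680000, 93941140611217623113456640000, 3182871925553692877949265920000, 5862674477045553036060441600000,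 -11753845846942699480619197440000, 6361636038817008359955686400000, -9188313944451149906839526400000, -42758325211793402585897349120000, 15919832601675285562372101120000, -6680874649508023698436469760000, -14243573166250834070690659200000, 17405275991170985925502924800000, 6117351093870809227884288000000, -9459726915263279929281423360000, -227069664707759322163196160000, 1458496236462184553949342720000, -121537777641818212395947520000, 2528649283502361045222604800000, 94667328291404346657661440000, 83589238904106861210055680000, -499332294641947270667304960000, 0, -4663299906095841383885568000000, -2396100461343672835348531200000, -4777174660743458872427612160000, -3178068576863271210429972480000, -383604563795331613970027520000, -710658071635117159248307200000, 790288869927571217040015360000, -457113650271632479903680000000, 16641762789020730540103895040000, 1657413345586160918713063680000, 2590161681598517313553996800000, -545234473449437723167104000000,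 -304528667877887001752770560000, -3090522088667385557689190400000, 31375583175755922127073280000, 0, -1896719752295150061987993600000, -1003162408114778397786343680000, 39356995689913760534753280000, -7110900430511816182418818560000, -56861437759406251626090240000, -9849875563265181157324800000, 11995674949390183887273984000000, -19879513118188483708569600000, 25696860684458115937075200000, 1413278396397184526099896320000, -299109963816297116640138240000, -165242773496026519383605760000, 0, -1917305349402654361528922880000, 557884878506487677748718080000, 123022699862121159816038400000, 39759026236376967417139200000, 17713116553994361522801838080000, 309211762311478819065692160000, 861893714086243885863936000000, 39352270742166875885683200000, -3998558316463394629091328000000, -38945515247956784354227200000, 1805713558894647571313571840000, -28365020891033259916223354880000, 0, 0, 0, -1609495977645916048706734080000, -1217060815148453003493058560000,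 0, 0, 0, -392435162497463045213675520000, 0, 0, 0, 0, 0, 0, 4003662008360307602187648000000, 0, 0, 0, 7567177104835487724999052800000, 32924235278506530409433740800000, -7487203747110899954960805120000, -16254711075096101903637000960000, 11416184112947718029040864000000, -37724618868847747529973719040000, 0, 31476437609136304726677254400000, 5616101456026108694936110080000, 825293465117926968346444800000, -6788380749537065094262103040000, -5479526922753906439524817920000, 1480455469982465046879459840000, 0, 14397268947257373859059033600000, -4560317836164374960808760320000, 0, 22302082769703509858384517120000, 3251520499666637443867816320000, 0, 0, 0, 0, 662369867888206572370967040000, 1580577739855142434080030720000, -6242556575430927383709772800000, -998664589283894541334609920000, 51393721368916231874150400000, 110266930597249564681576320000, -220286952435404636961903360000, 0, 0, 0, 11909974043354044254337843200000, -6535803513260192800043520000,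 -3009672929701370294398632960000, -180507886099158105986641920000, 0, 0, 6098822128149576601870523520000, 0, 4799050636407201531584801280000, 0, 618423524622957638131384320000, 0, 6178061382492541951347240960000, 574309114612268416854681600000, -7997116632926789258182656000000, 0, 2952692648301556191867494400000, 422319183681926120603489280000, 24397695405610982755776000000, -22240767629024059357211074560000, 8343337786712009048694988800000, 363281806784521804506405120000, -2184852641064361916932730880000, -120938786899619178990850560000, 1951344666027666217061107200000, 379385624973911951092239360000, -11042757949017401722996715520000, 983262025479673719076147200000, 1398927173854906555725680640000, -654875454641307449058754560000, -29994104524324329867985920000, 77429239773189013266923520000, 0, 9036364574844998094412800000, 0, 14182510445516629958111677440000, 0, 0, 0, 0, 0, -11198009680006657634214359040000, -4549898282121708924719001600000,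 5034303884110702432796006400000, -15019959394007225901540218880000, -162875919026922285521352960000, 1556960120497015568431856640000, 127964968882728441320263680000, 14182510445516629958111677440000, 37388079019346142595388673024000, -23560608591114025275888740352000, -53064648440109966523713454080000, -7227430084255789528751880806400, 3137598630260531464660363468800, 50699324068860087849068362137600, 2858283199008387528237619200000, -2737083843017782248529244160000, 3941496260648428002996142080000, 184751241040004214388538880000, -3486565995288534654325320960000]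

theorem gr7 : eqM (gramT rows7) M7 = true := by
  decide +kernel

theorem mv7 : eqZ (mval M7 tab7) u7 = true := by
  decide +kernel

theorem nn7 (E : Env κ ι) : 0 ≤ dot (ek E keys) u7 0 :=
  block_nonneg E _ _ _ _ _ (tri7 E) rows7 M7 gr7 u7 mv7

end

end YMA
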