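import Pool.Agent.YM.YMA.T8_0
import Pool.Agent.YM.YMA.T8_1
import Pool.Agent.YM.YMA.T8_2
import Pool.Agent.YM.YMA.T8_3
import Pool.Agent.YM.YMA.T8_4
import Pool.Agent.YM.YMA.T8_5
import Pool.Agent.YM.YMA.T8_6
import Pool.Agent.YM.YMA.T8_7

set_option linter.unusedVariables false
set_option maxRecDepth 100000

open YMEng

namespace YMA

section

variable {κ ι : Type*} [Fintype κ] [Fintype ι] [Inhabited κ] [Inhabited ι]

def r8_0_0 : List (ℕ × ℤ) := [(266, 576), (354, -1152), (367, 576)]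

theorem h8_0_0 (E : Env κ ι) : inn E 1 5 c8_0 c8_0 = dotS (ek E keys) r8_0_0 :=
  innS_eqZ E _ _ _ _ _ _ _ (chkF_sound E keys 1 5 _ _ _ _ t8_0_0_0) (by decide +kernel)

def r8_0_1 : List (ℕ × ℤ) := [(263, 768), (333, -768)]

theorem h8_0_1 (E : Env κ ι) : inn E 1 5 c8_0 c8_1 = dotS (ek E keys) r8_0_1 :=
  innS_eqZ E _ _ _ _ _ _ _ (chkF_sound E keys 1 5 _ _ _ _ t8_0_1_0) (by decide +kernel)

def r8_0_2 : List (ℕ × ℤ) := [(78, 192), (87, 384), (159, 576), (368, -384), (369, -768)]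

theorem h8_0_2 (E : Env κ ι) : inn E 1 5 c8_0 c8_2 = dotS (ek E keys) r8_0_2 :=
  innS_eqZ E _ _ _ _ _ _ _ (chkF_sound E keys 1 5 _ _ _ _ t8_0_2_0) (by decide +kernel)

def r8_0_3 : List (ℕ × ℤ) := [(6, 192), (13, 576), (25, 384), (30, -384), (370, -768)]

theorem h8_0_3 (E : Env κ ι) : inn E 1 5 c8_0 c8_3 = dotS (ek E keys) r8_0_3 :=
  innS_eqZ E _ _ _ _ _ _ _ (chkF_sound E keys 1 5 _ _ _ _ t8_0_3_0) (by decide +kernel)

def r8_0_4 : List (ℕ × ℤ) := [(6, 576), (13, 192), (25, -384), (30, 384), (370, -768)]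

theorem h8_0_4 (E : Env κ ι) : inn E 1 5 c8_0 c8_4 = dotS (ek E keys) r8_0_4 :=
  innS_eqZ E _ _ _ _ _ _ _ (chkF_sound E keys 1 5 _ _ _ _ t8_0_4_0) (by decide +kernel)

def r8_0_5 : List (ℕ × ℤ) := [(78, 576), (87, -384), (159, 192), (368, 384), (369, -768)]

theorem h8_0_5 (E : Env κ ι) : inn E 1 5 c8_0 c8_5 = dotS (ek E keys) r8_0_5 :=
  innS_eqZ E _ _ _ _ _ _ _ (chkF_sound E keys 1 5 _ _ _ _ t8_0_5_0) (by decide +kernel)

def r8_0_6 : List (ℕ × ℤ) := [(234, 192), (259, 384), (338, 576), (345, -384), (360, -768)]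

theorem h8_0_6 (E : Env κ ι) : inn E 1 5 c8_0 c8_6 = dotS (ek E keys) r8_0_6 :=
  innS_eqZ E _ _ _ _ _ _ _ (chkF_sound E keys 1 5 _ _ _ _ t8_0_6_0) (by decide +kernel)

def r8_0_7 : List (ℕ × ℤ) := [(251, 192), (265, 384), (270, 576), (271, -384), (275, -768)]

theorem h8_0_7 (E : Env κ ι) : inn E 1 5 c8_0 c8_7 = dotS (ek E keys) r8_0_7 :=
  innS_eqZ E _ _ _ _ _ _ _ (chkF_sound E keys 1 5 _ _ _ _ t8_0_7_0) (by decide +kernel)

def r8_0_8 : List (ℕ × ℤ) := [(234, 576), (259, -384), (338, 192), (345, 384), (360, -768)]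

theorem h8_0_8 (E : Env κ ι) : inn E 1 5 c8_0 c8_8 = dotS (ek E keys) r8_0_8 :=
  innS_eqZ E _ _ _ _ _ _ _ (chkF_sound E keys 1 5 _ _ _ _ t8_0_8_0) (by decide +kernel)

def r8_0_9 : List (ℕ × ℤ) := [(251, 576), (265, -384), (270, 192), (271, 384), (275, -768)]

theorem h8_0_9 (E : Env κ ι) : inn E 1 5 c8_0 c8_9 = dotS (ek E keys) r8_0_9 :=
  innS_eqZ E _ _ _ _ _ _ _ (chkF_sound E keys 1 5 _ _ _ _ t8_0_9_0) (by decide +kernel)

def r8_0_10 : List (ℕ × ℤ) := [(16, -192), (21, 576), (164, -192), (166, -384), (371, -384), (372, 192), (373, 384)]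

theorem h8_0_10 (E : Env κ ι) : inn E 1 5 c8_0 c8_10 = dotS (ek E keys) r8_0_10 :=
  innS_eqZ E _ _ _ _ _ _ _ (chkF_sound E keys 1 5 _ _ _ _ t8_0_10_0) (by decide +kernel)

def r8_0_11 : List (ℕ × ℤ) := [(16, 192), (21, 192), (164, 192), (166, -384), (371, -384), (372, 576), (373, -384)]

theorem h8_0_11 (E : Env κ ι) : inn E 1 5 c8_0 c8_11 = dotS (ek E keys) r8_0_11 :=
  innS_eqZ E _ _ _ _ _ _ _ (chkF_sound E keys 1 5 _ _ _ _ t8_0_11_0) (by decide +kernel)

def r8_0_12 : List (ℕ × ℤ) := [(16, 576), (21, -192), (164, -192), (166, 384), (371, -384), (372, 192), (373, -384)]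

theorem h8_0_12 (E : Env κ ι) : inn E 1 5 c8_0 c8_12 = dotS (ek E keys) r8_0_12 :=
  innS_eqZ E _ _ _ _ _ _ _ (chkF_sound E keys 1 5 _ _ _ _ t8_0_12_0) (by decide +kernel)

def r8_0_13 : List (ℕ × ℤ) := [(226, 192), (242, 192), (259, 192), (319, -384), (339, 576), (346, -384), (361, -384)]

theorem h8_0_13 (E : Env κ ι) : inn E 1 5 c8_0 c8_13 = dotS (ek E keys) r8_0_13 :=
  innS_eqZ E _ _ _ _ _ _ _ (chkF_sound E keys 1 5 _ _ _ _ t8_0_13_0) (by decide +kernel)

def r8_0_14 : List (ℕ × ℤ) := [(226, -192), (242, -192), (259, 576), (319, 384), (339, 192), (346, -384), (361, -384)]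

theorem h8_0_14 (E : Env κ ι) : inn E 1 5 c8_0 c8_14 = dotS (ek E keys) r8_0_14 :=
  innS_eqZ E _ _ _ _ _ _ _ (chkF_sound E keys 1 5 _ _ _ _ t8_0_14_0) (by decide +kernel)

def r8_0_15 : List (ℕ × ℤ) := [(226, -192), (242, 576), (259, -192), (319, -384), (339, 192), (346, -384), (361, 384)]

theorem h8_0_15 (E : Env κ ι) : inn E 1 5 c8_0 c8_15 = dotS (ek E keys) r8_0_15 :=
  innS_eqZ E _ _ _ _ _ _ _ (chkF_sound E keys 1 5 _ _ _ _ t8_0_15_0) (by decide +kernel)

def r8_1_1 : List (ℕ × ℤ) := [(243, -512), (246, 512), (260, 256), (329, -256)]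

theorem h8_1_1 (E : Env κ ι) : inn E 1 5 c8_1 c8_1 = dotS (ek E keys) r8_1_1 :=
  innS_eqZ E _ _ _ _ _ _ _ (chkF_sound E keys 1 5 _ _ _ _ t8_1_1_0) (by decide +kernel)

def r8_1_2 : List (ℕ × ℤ) := [(75, 256), (84, 512), (131, -512), (146, -256)]

theorem h8_1_2 (E : Env κ ι) : inn E 1 5 c8_1 c8_2 = dotS (ek E keys) r8_1_2 :=
  innS_eqZ E _ _ _ _ _ _ _ (chkF_sound E keys 1 5 _ _ _ _ t8_1_2_0) (by decide +kernel)

def r8_1_3 : List (ℕ × ℤ) := [(27, 512), (88, 256), (117, -512), (150, -256)]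

theorem h8_1_3 (E : Env κ ι) : inn E 1 5 c8_1 c8_3 = dotS (ek E keys) r8_1_3 :=
  innS_eqZ E _ _ _ _ _ _ _ (chkF_sound E keys 1 5 _ _ _ _ t8_1_3_0) (by decide +kernel)

def r8_1_4 : List (ℕ × ℤ) := [(26, 512), (82, -512), (88, 256), (150, -256)]

theorem h8_1_4 (E : Env κ ι) : inn E 1 5 c8_1 c8_4 = dotS (ek E keys) r8_1_4 :=
  innS_eqZ E _ _ _ _ _ _ _ (chkF_sound E keys 1 5 _ _ _ _ t8_1_4_0) (by decide +kernel)

def r8_1_5 : List (ℕ × ℤ) := [(73, 512), (75, 256), (81, -512), (146, -256)]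

theorem h8_1_5 (E : Env κ ι) : inn E 1 5 c8_1 c8_5 = dotS (ek E keys) r8_1_5 :=
  innS_eqZ E _ _ _ _ _ _ _ (chkF_sound E keys 1 5 _ _ _ _ t8_1_5_0) (by decide +kernel)

def r8_1_6 : List (ℕ × ℤ) := [(232, 256), (256, 512), (310, -256), (331, -512)]

theorem h8_1_6 (E : Env κ ι) : inn E 1 5 c8_1 c8_6 = dotS (ek E keys) r8_1_6 :=
  innS_eqZ E _ _ _ _ _ _ _ (chkF_sound E keys 1 5 _ _ _ _ t8_1_6_0) (by decide +kernel)

def r8_1_7 : List (ℕ × ℤ) := [(250, 256), (261, 512), (313, -256), (332, -512)]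

theorem h8_1_7 (E : Env κ ι) : inn E 1 5 c8_1 c8_7 = dotS (ek E keys) r8_1_7 :=
  innS_eqZ E _ _ _ _ _ _ _ (chkF_sound E keys 1 5 _ _ _ _ t8_1_7_0) (by decide +kernel)

def r8_1_8 : List (ℕ × ℤ) := [(229, 512), (232, 256), (245, -512), (310, -256), (331, 0)]

theorem h8_1_8 (E : Env κ ι) : inn E 1 5 c8_1 c8_8 = dotS (ek E keys) r8_1_8 :=
  innS_eqZ E _ _ _ _ _ _ _ (chkF_sound E keys 1 5 _ _ _ _ t8_1_8_0) (by decide +kernel)

def r8_1_9 : List (ℕ × ℤ) := [(231, 512), (237, -512), (250, 256), (313, -256), (332, 0)]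

theorem h8_1_9 (E : Env κ ι) : inn E 1 5 c8_1 c8_9 = dotS (ek E keys) r8_1_9 :=
  innS_eqZ E _ _ _ _ _ _ _ (chkF_sound E keys 1 5 _ _ _ _ t8_1_9_0) (by decide +kernel)

def r8_1_10 : List (ℕ × ℤ) := [(23, 256), (121, 512), (139, -256), (140, -256), (141, -256), (195, 0)]

theorem h8_1_10 (E : Env κ ι) : inn E 1 5 c8_1 c8_10 = dotS (ek E keys) r8_1_10 :=
  innS_eqZ E _ _ _ _ _ _ _ (chkF_sound E keys 1 5 _ _ _ _ t8_1_10_0) (by decide +kernel)

def r8_1_11 : List (ℕ × ℤ) := [(18, 256), (23, 256), (97, -256), (124, -256), (141, -256), (195, 256)]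

theorem h8_1_11 (E : Env κ ι) : inn E 1 5 c8_1 c8_11 = dotS (ek E keys) r8_1_11 :=
  innS_eqZ E _ _ _ _ _ _ _ (chkF_sound E keys 1 5 _ _ _ _ t8_1_11_0) (by decide +kernel)

def r8_1_12 : List (ℕ × ℤ) := [(18, 256), (97, -256), (121, -256), (139, 512), (140, -256), (195, 0)]

theorem h8_1_12 (E : Env κ ι) : inn E 1 5 c8_1 c8_12 = dotS (ek E keys) r8_1_12 :=
  innS_eqZ E _ _ _ _ _ _ _ (chkF_sound E keys 1 5 _ _ _ _ t8_1_12_0) (by decide +kernel)

def r8_1_13 : List (ℕ × ℤ) := [(224, 256), (239, 256), (256, 256), (311, -256), (312, -256), (331, -256)]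

theorem h8_1_13 (E : Env κ ι) : inn E 1 5 c8_1 c8_13 = dotS (ek E keys) r8_1_13 :=
  innS_eqZ E _ _ _ _ _ _ _ (chkF_sound E keys 1 5 _ _ _ _ t8_1_13_0) (by decide +kernel)

def r8_1_14 : List (ℕ × ℤ) := [(221, -256), (236, -256), (245, 512), (256, 256), (331, -256)]

theorem h8_1_14 (E : Env κ ι) : inn E 1 5 c8_1 c8_14 = dotS (ek E keys) r8_1_14 :=
  innS_eqZ E _ _ _ _ _ _ _ (chkF_sound E keys 1 5 _ _ _ _ t8_1_14_0) (by decide +kernel)

def r8_1_15 : List (ℕ × ℤ) := [(221, -256), (236, 512), (239, 256), (245, -256), (311, -256), (331, 0)]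

theorem h8_1_15 (E : Env κ ι) : inn E 1 5 c8_1 c8_15 = dotS (ek E keys) r8_1_15 :=
  innS_eqZ E _ _ _ _ _ _ _ (chkF_sound E keys 1 5 _ _ _ _ t8_1_15_0) (by decide +kernel)

def r8_2_2 : List (ℕ × ℤ) := [(63, 384), (203, 64), (205, 256), (210, -768), (213, 256), (282, 192), (286, -128), (362, -256)]

theorem h8_2_2 (E : Env κ ι) : inn E 1 5 c8_2 c8_2 = dotS (ek E keys) r8_2_2 :=
  innS_eqZ E _ _ _ _ _ _ _ (chkF_sound E keys 1 5 _ _ _ _ t8_2_2_0) (by decide +kernel)

def r8_2_3 : List (ℕ × ℤ) := [(204, 192), (205, -128), (206, 64), (207, 128), (208, 384), (211, -256), (213, -512), (214, 128), (215, 256), (303, -256)]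

theorem h8_2_3 (E : Env κ ι) : inn E 1 5 c8_2 c8_3 = dotS (ek E keys) r8_2_3 :=
  innS_eqZ E _ _ _ _ _ _ _ (chkF_sound E keys 1 5 _ _ _ _ t8_2_3_0) (by decide +kernel)

def r8_2_4 : List (ℕ × ℤ) := [(204, 64), (205, 128), (206, 192), (207, -128), (208, 128), (211, -256), (214, 384), (215, -256), (303, -256)]

theorem h8_2_4 (E : Env κ ι) : inn E 1 5 c8_2 c8_4 = dotS (ek E keys) r8_2_4 :=
  innS_eqZ E _ _ _ _ _ _ _ (chkF_sound E keys 1 5 _ _ _ _ t8_2_4_0) (by decide +kernel)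

def r8_2_5 : List (ℕ × ℤ) := [(63, 128), (203, 192), (205, 256), (210, -256), (213, -256), (282, 64), (286, 128), (362, -256)]

theorem h8_2_5 (E : Env κ ι) : inn E 1 5 c8_2 c8_5 = dotS (ek E keys) r8_2_5 :=
  innS_eqZ E _ _ _ _ _ _ _ (chkF_sound E keys 1 5 _ _ _ _ t8_2_5_0) (by decide +kernel)

def r8_2_6 : List (ℕ × ℤ) := [(72, 64), (73, 128), (79, 128), (81, -256), (84, 384), (128, -128), (129, -256), (131, -256), (172, 192)]

theorem h8_2_6 (E : Env κ ι) : inn E 1 5 c8_2 c8_6 = dotS (ek E keys) r8_2_6 :=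
  innS_eqZ E _ _ _ _ _ _ _ (chkF_sound E keys 1 5 _ _ _ _ t8_2_6_0) (by decide +kernel)

def r8_2_7 : List (ℕ × ℤ) := [(45, 384), (46, 128), (47, -256), (53, -256), (74, 64), (77, 128), (108, -128), (134, -256), (180, 192)]

theorem h8_2_7 (E : Env κ ι) : inn E 1 5 c8_2 c8_7 = dotS (ek E keys) r8_2_7 :=
  innS_eqZ E _ _ _ _ _ _ _ (chkF_sound E keys 1 5 _ _ _ _ t8_2_7_0) (by decide +kernel)

def r8_2_8 : List (ℕ × ℤ) := [(72, 192), (73, -128), (79, 384), (81, -256), (83, -512), (84, 128), (128, 128), (129, -256), (131, 256), (172, 64)]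

theorem h8_2_8 (E : Env κ ι) : inn E 1 5 c8_2 c8_8 = dotS (ek E keys) r8_2_8 :=
  innS_eqZ E _ _ _ _ _ _ _ (chkF_sound E keys 1 5 _ _ _ _ t8_2_8_0) (by decide +kernel)

def r8_2_9 : List (ℕ × ℤ) := [(45, 128), (46, 384), (47, -256), (53, 256), (74, 192), (77, -128), (86, -512), (108, 128), (134, -256), (180, 64)]

theorem h8_2_9 (E : Env κ ι) : inn E 1 5 c8_2 c8_9 = dotS (ek E keys) r8_2_9 :=
  innS_eqZ E _ _ _ _ _ _ _ (chkF_sound E keys 1 5 _ _ _ _ t8_2_9_0) (by decide +kernel)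

def r8_2_10 : List (ℕ × ℤ) := [(36, 128), (203, -64), (205, 64), (207, -64), (211, 128), (212, 256), (215, -128), (290, -128), (293, -128), (294, -128), (300, 128), (363, -128), (374, 64)]

theorem h8_2_10 (E : Env κ ι) : inn E 1 5 c8_2 c8_10 = dotS (ek E keys) r8_2_10 :=
  innS_eqZ E _ _ _ _ _ _ _ (chkF_sound E keys 1 5 _ _ _ _ t8_2_10_0) (by decide +kernel)

def r8_2_11 : List (ℕ × ℤ) := [(36, 384), (203, 64), (205, 192), (207, 64), (211, -128), (212, -256), (215, 128), (290, -128), (293, -128), (294, -128), (300, -128), (363, -128), (374, 192)]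

theorem h8_2_11 (E : Env κ ι) : inn E 1 5 c8_2 c8_11 = dotS (ek E keys) r8_2_11 :=
  innS_eqZ E _ _ _ _ _ _ _ (chkF_sound E keys 1 5 _ _ _ _ t8_2_11_0) (by decide +kernel)

def r8_2_12 : List (ℕ × ℤ) := [(36, 128), (203, -64), (205, -192), (207, 192), (211, 128), (212, -256), (215, 384), (290, -128), (293, -128), (294, -128), (300, -128), (363, 128), (374, 64)]

theorem h8_2_12 (E : Env κ ι) : inn E 1 5 c8_2 c8_12 = dotS (ek E keys) r8_2_12 :=
  innS_eqZ E _ _ _ _ _ _ _ (chkF_sound E keys 1 5 _ _ _ _ t8_2_12_0) (by decide +kernel)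

def r8_2_13 : List (ℕ × ℤ) := [(18, 192), (26, 192), (71, 64), (73, 192), (76, 64), (81, -128), (82, -128), (85, 128), (97, -128), (107, -128), (112, -128), (114, -128), (123, -128), (145, -128), (188, 192)]

theorem h8_2_13 (E : Env κ ι) : inn E 1 5 c8_2 c8_13 = dotS (ek E keys) r8_2_13 :=
  innS_eqZ E _ _ _ _ _ _ _ (chkF_sound E keys 1 5 _ _ _ _ t8_2_13_0) (by decide +kernel)

def r8_2_14 : List (ℕ × ℤ) := [(18, 64), (26, 64), (71, -64), (73, -192), (76, 192), (81, 128), (82, -128), (85, 384), (97, -128), (107, -128), (112, -128), (114, -128), (123, -128), (145, 128), (188, 64)]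

theorem h8_2_14 (E : Env κ ι) : inn E 1 5 c8_2 c8_14 = dotS (ek E keys) r8_2_14 :=
  innS_eqZ E _ _ _ _ _ _ _ (chkF_sound E keys 1 5 _ _ _ _ t8_2_14_0) (by decide +kernel)

def r8_2_15 : List (ℕ × ℤ) := [(18, 64), (26, 64), (71, -64), (73, 64), (76, -64), (81, 128), (82, 128), (85, -128), (97, 128), (107, -128), (112, -128), (114, -128), (123, 128), (145, -128), (188, 64)]

theorem h8_2_15 (E : Env κ ι) : inn E 1 5 c8_2 c8_15 = dotS (ek E keys) r8_2_15 :=
  innS_eqZ E _ _ _ _ _ _ _ (chkF_sound E keys 1 5 _ _ _ _ t8_2_15_0) (by decide +kernel)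

def r8_3_3 : List (ℕ × ℤ) := [(37, 256), (64, 384), (209, 192), (214, -128), (215, -512), (216, 64), (217, 256), (290, -256), (293, -256)]

theorem h8_3_3 (E : Env κ ι) : inn E 1 5 c8_3 c8_3 = dotS (ek E keys) r8_3_3 :=
  innS_eqZ E _ _ _ _ _ _ _ (chkF_sound E keys 1 5 _ _ _ _ t8_3_3_0) (by decide +kernel)

def r8_3_4 : List (ℕ × ℤ) := [(37, 256), (64, 128), (209, 64), (214, 128), (216, 192), (217, -256), (290, -256), (293, -256)]

theorem h8_3_4 (E : Env κ ι) : inn E 1 5 c8_3 c8_4 = dotS (ek E keys) r8_3_4 :=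
  innS_eqZ E _ _ _ _ _ _ _ (chkF_sound E keys 1 5 _ _ _ _ t8_3_4_0) (by decide +kernel)

def r8_3_5 : List (ℕ × ℤ) := [(204, 64), (205, 128), (206, 192), (207, 384), (208, 128), (211, 256), (213, -512), (214, -128), (215, -256), (303, -256)]

theorem h8_3_5 (E : Env κ ι) : inn E 1 5 c8_3 c8_5 = dotS (ek E keys) r8_3_5 :=
  innS_eqZ E _ _ _ _ _ _ _ (chkF_sound E keys 1 5 _ _ _ _ t8_3_5_0) (by decide +kernel)

def r8_3_6 : List (ℕ × ℤ) := [(8, 64), (23, 384), (29, 128), (84, 128), (85, 256), (107, -256), (110, -128), (112, -256), (131, -256), (141, -256), (175, 192)]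

theorem h8_3_6 (E : Env κ ι) : inn E 1 5 c8_3 c8_6 = dotS (ek E keys) r8_3_6 :=
  innS_eqZ E _ _ _ _ _ _ _ (chkF_sound E keys 1 5 _ _ _ _ t8_3_6_0) (by decide +kernel)

def r8_3_7 : List (ℕ × ℤ) := [(45, 128), (48, 256), (51, 384), (52, -256), (53, -512), (67, 128), (69, 64), (111, -128), (135, -256), (181, 192)]

theorem h8_3_7 (E : Env κ ι) : inn E 1 5 c8_3 c8_7 = dotS (ek E keys) r8_3_7 :=
  innS_eqZ E _ _ _ _ _ _ _ (chkF_sound E keys 1 5 _ _ _ _ t8_3_7_0) (by decide +kernel)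

def r8_3_8 : List (ℕ × ℤ) := [(8, 192), (23, 128), (29, 384), (84, -128), (85, -256), (107, -256), (110, 128), (112, -256), (131, -256), (141, 256), (175, 64)]

theorem h8_3_8 (E : Env κ ι) : inn E 1 5 c8_3 c8_8 = dotS (ek E keys) r8_3_8 :=
  innS_eqZ E _ _ _ _ _ _ _ (chkF_sound E keys 1 5 _ _ _ _ t8_3_8_0) (by decide +kernel)

def r8_3_9 : List (ℕ × ℤ) := [(45, -128), (48, -256), (51, 128), (52, 256), (53, -512), (67, 384), (69, 192), (111, 128), (135, -256), (181, 64)]

theorem h8_3_9 (E : Env κ ι) : inn E 1 5 c8_3 c8_9 = dotS (ek E keys) r8_3_9 :=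
  innS_eqZ E _ _ _ _ _ _ _ (chkF_sound E keys 1 5 _ _ _ _ t8_3_9_0) (by decide +kernel)

def r8_3_10 : List (ℕ × ℤ) := [(36, 192), (37, -64), (206, -64), (207, -128), (212, 384), (217, -128), (287, -128), (289, 256), (291, -128), (294, -256), (295, -128), (297, -128), (301, 128), (304, 128), (375, 64)]

theorem h8_3_10 (E : Env κ ι) : inn E 1 5 c8_3 c8_10 = dotS (ek E keys) r8_3_10 :=
  innS_eqZ E _ _ _ _ _ _ _ (chkF_sound E keys 1 5 _ _ _ _ t8_3_10_0) (by decide +kernel)

def r8_3_11 : List (ℕ × ℤ) := [(36, 64), (37, 64), (206, 64), (207, 128), (212, 128), (217, 128), (287, -128), (289, -256), (291, -128), (294, -256), (295, -128), (297, -128), (301, -128), (304, 384), (375, 192)]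

theorem h8_3_11 (E : Env κ ι) : inn E 1 5 c8_3 c8_11 = dotS (ek E keys) r8_3_11 :=
  innS_eqZ E _ _ _ _ _ _ _ (chkF_sound E keys 1 5 _ _ _ _ t8_3_11_0) (by decide +kernel)

def r8_3_12 : List (ℕ × ℤ) := [(36, -64), (37, 192), (206, -64), (207, -128), (212, -128), (217, 384), (287, -128), (289, -256), (291, -128), (294, 256), (295, -128), (297, 128), (301, -128), (304, 128), (375, 64)]

theorem h8_3_12 (E : Env κ ι) : inn E 1 5 c8_3 c8_12 = dotS (ek E keys) r8_3_12 :=
  innS_eqZ E _ _ _ _ _ _ _ (chkF_sound E keys 1 5 _ _ _ _ t8_3_12_0) (by decide +kernel)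

def r8_3_13 : List (ℕ × ℤ) := [(26, 64), (27, 64), (75, 64), (76, 128), (82, 128), (89, 128), (103, -128), (105, -256), (114, -256), (116, -128), (117, -128), (124, -128), (146, -128), (192, 384), (195, 192)]

theorem h8_3_13 (E : Env κ ι) : inn E 1 5 c8_3 c8_13 = dotS (ek E keys) r8_3_13 :=
  innS_eqZ E _ _ _ _ _ _ _ (chkF_sound E keys 1 5 _ _ _ _ t8_3_13_0) (by decide +kernel)

def r8_3_14 : List (ℕ × ℤ) := [(26, -64), (27, 192), (75, -64), (76, -128), (82, -128), (89, 384), (103, -128), (105, -256), (114, 256), (116, -128), (117, -128), (124, -128), (146, 128), (192, 128), (195, 64)]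

theorem h8_3_14 (E : Env κ ι) : inn E 1 5 c8_3 c8_14 = dotS (ek E keys) r8_3_14 :=
  innS_eqZ E _ _ _ _ _ _ _ (chkF_sound E keys 1 5 _ _ _ _ t8_3_14_0) (by decide +kernel)

def r8_3_15 : List (ℕ × ℤ) := [(26, 192), (27, -64), (75, -64), (76, -128), (82, 384), (89, -128), (103, -128), (105, 256), (114, -256), (116, -128), (117, -128), (124, 128), (146, -128), (192, 128), (195, 64)]

theorem h8_3_15 (E : Env κ ι) : inn E 1 5 c8_3 c8_15 = dotS (ek E keys) r8_3_15 :=
  innS_eqZ E _ _ _ _ _ _ _ (chkF_sound E keys 1 5 _ _ _ _ t8_3_15_0) (by decide +kernel)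

def r8_4_4 : List (ℕ × ℤ) := [(37, 256), (64, -128), (209, 192), (214, 384), (215, -512), (216, 64), (217, -256), (290, 256), (293, -256)]

theorem h8_4_4 (E : Env κ ι) : inn E 1 5 c8_4 c8_4 = dotS (ek E keys) r8_4_4 :=
  innS_eqZ E _ _ _ _ _ _ _ (chkF_sound E keys 1 5 _ _ _ _ t8_4_4_0) (by decide +kernel)

def r8_4_5 : List (ℕ × ℤ) := [(204, 192), (205, 384), (206, 64), (207, 128), (208, -128), (211, -256), (214, 128), (215, -256), (303, -256)]

theorem h8_4_5 (E : Env κ ι) : inn E 1 5 c8_4 c8_5 = dotS (ek E keys) r8_4_5 :=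
  innS_eqZ E _ _ _ _ _ _ _ (chkF_sound E keys 1 5 _ _ _ _ t8_4_5_0) (by decide +kernel)

def r8_4_6 : List (ℕ × ℤ) := [(8, 192), (23, 128), (29, -128), (84, 384), (85, -256), (107, 256), (110, 128), (112, -256), (131, -256), (141, -256), (175, 64)]

theorem h8_4_6 (E : Env κ ι) : inn E 1 5 c8_4 c8_6 = dotS (ek E keys) r8_4_6 :=
  innS_eqZ E _ _ _ _ _ _ _ (chkF_sound E keys 1 5 _ _ _ _ t8_4_6_0) (by decide +kernel)

def r8_4_7 : List (ℕ × ℤ) := [(45, 384), (48, -256), (51, 128), (52, -256), (67, -128), (69, 192), (111, 128), (135, -256), (181, 64)]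

theorem h8_4_7 (E : Env κ ι) : inn E 1 5 c8_4 c8_7 = dotS (ek E keys) r8_4_7 :=
  innS_eqZ E _ _ _ _ _ _ _ (chkF_sound E keys 1 5 _ _ _ _ t8_4_7_0) (by decide +kernel)

def r8_4_8 : List (ℕ × ℤ) := [(8, 64), (23, -128), (29, 128), (84, 128), (85, -256), (107, -256), (110, 384), (112, -256), (131, 256), (141, -256), (175, 192)]

theorem h8_4_8 (E : Env κ ι) : inn E 1 5 c8_4 c8_8 = dotS (ek E keys) r8_4_8 :=
  innS_eqZ E _ _ _ _ _ _ _ (chkF_sound E keys 1 5 _ _ _ _ t8_4_8_0) (by decide +kernel)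

def r8_4_9 : List (ℕ × ℤ) := [(45, 128), (48, -256), (51, -128), (52, -256), (67, 128), (69, 64), (111, 384), (135, -256), (181, 192)]

theorem h8_4_9 (E : Env κ ι) : inn E 1 5 c8_4 c8_9 = dotS (ek E keys) r8_4_9 :=
  innS_eqZ E _ _ _ _ _ _ _ (chkF_sound E keys 1 5 _ _ _ _ t8_4_9_0) (by decide +kernel)

def r8_4_10 : List (ℕ × ℤ) := [(36, 64), (37, 64), (206, 64), (207, -128), (212, 128), (217, -128), (287, -128), (289, 256), (291, 128), (294, -256), (295, -128), (297, 128), (301, -128), (304, 128), (375, -64)]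

theorem h8_4_10 (E : Env κ ι) : inn E 1 5 c8_4 c8_10 = dotS (ek E keys) r8_4_10 :=
  innS_eqZ E _ _ _ _ _ _ _ (chkF_sound E keys 1 5 _ _ _ _ t8_4_10_0) (by decide +kernel)

def r8_4_11 : List (ℕ × ℤ) := [(36, 192), (37, 192), (206, 192), (207, -128), (212, -128), (217, -128), (287, -128), (291, -128), (295, 128), (297, -128), (301, -128), (304, 128), (375, 64)]

theorem h8_4_11 (E : Env κ ι) : inn E 1 5 c8_4 c8_11 = dotS (ek E keys) r8_4_11 :=
  innS_eqZ E _ _ _ _ _ _ _ (chkF_sound E keys 1 5 _ _ _ _ t8_4_11_0) (by decide +kernel)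

def r8_4_12 : List (ℕ × ℤ) := [(36, 64), (37, 64), (206, 64), (207, -128), (212, -128), (217, 128), (287, 128), (289, -256), (291, -128), (294, 256), (295, -128), (297, -128), (301, 128), (304, 128), (375, -64)]

theorem h8_4_12 (E : Env κ ι) : inn E 1 5 c8_4 c8_12 = dotS (ek E keys) r8_4_12 :=
  innS_eqZ E _ _ _ _ _ _ _ (chkF_sound E keys 1 5 _ _ _ _ t8_4_12_0) (by decide +kernel)

def r8_4_13 : List (ℕ × ℤ) := [(26, 192), (27, 192), (75, 192), (76, -128), (82, -128), (89, -128), (103, -128), (116, 128), (117, -128), (124, -128), (146, -128), (192, 128), (195, 64)]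

theorem h8_4_13 (E : Env κ ι) : inn E 1 5 c8_4 c8_13 = dotS (ek E keys) r8_4_13 :=
  innS_eqZ E _ _ _ _ _ _ _ (chkF_sound E keys 1 5 _ _ _ _ t8_4_13_0) (by decide +kernel)

def r8_4_14 : List (ℕ × ℤ) := [(26, 64), (27, 64), (75, 64), (76, -128), (82, -128), (89, 128), (103, 128), (105, -256), (114, 256), (116, -128), (117, -128), (124, 128), (146, -128), (192, 128), (195, -64)]

theorem h8_4_14 (E : Env κ ι) : inn E 1 5 c8_4 c8_14 = dotS (ek E keys) r8_4_14 :=
  innS_eqZ E _ _ _ _ _ _ _ (chkF_sound E keys 1 5 _ _ _ _ t8_4_14_0) (by decide +kernel)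

def r8_4_15 : List (ℕ × ℤ) := [(26, 64), (27, 64), (75, 64), (76, -128), (82, 128), (89, -128), (103, -128), (105, 256), (114, -256), (116, -128), (117, 128), (124, -128), (146, 128), (192, 128), (195, -64)]

theorem h8_4_15 (E : Env κ ι) : inn E 1 5 c8_4 c8_15 = dotS (ek E keys) r8_4_15 :=
  innS_eqZ E _ _ _ _ _ _ _ (chkF_sound E keys 1 5 _ _ _ _ t8_4_15_0) (by decide +kernel)

def r8_5_5 : List (ℕ × ℤ) := [(63, -128), (203, 64), (205, 256), (210, -256), (213, -256), (282, 192), (286, 384), (362, -256)]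

theorem h8_5_5 (E : Env κ ι) : inn E 1 5 c8_5 c8_5 = dotS (ek E keys) r8_5_5 :=
  innS_eqZ E _ _ _ _ _ _ _ (chkF_sound E keys 1 5 _ _ _ _ t8_5_5_0) (by decide +kernel)

def r8_5_6 : List (ℕ × ℤ) := [(72, 192), (73, 384), (79, -128), (81, -256), (84, 128), (128, 128), (129, -256), (131, -256), (172, 64)]

theorem h8_5_6 (E : Env κ ι) : inn E 1 5 c8_5 c8_6 = dotS (ek E keys) r8_5_6 :=
  innS_eqZ E _ _ _ _ _ _ _ (chkF_sound E keys 1 5 _ _ _ _ t8_5_6_0) (by decide +kernel)

def r8_5_7 : List (ℕ × ℤ) := [(45, 128), (46, -128), (47, -256), (53, -256), (74, 192), (77, 384), (108, 128), (134, -256), (180, 64)]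

theorem h8_5_7 (E : Env κ ι) : inn E 1 5 c8_5 c8_7 = dotS (ek E keys) r8_5_7 :=
  innS_eqZ E _ _ _ _ _ _ _ (chkF_sound E keys 1 5 _ _ _ _ t8_5_7_0) (by decide +kernel)

def r8_5_8 : List (ℕ × ℤ) := [(72, 64), (73, 128), (79, 128), (81, 256), (83, -512), (84, -128), (128, 384), (129, -256), (131, -256), (172, 192)]

theorem h8_5_8 (E : Env κ ι) : inn E 1 5 c8_5 c8_8 = dotS (ek E keys) r8_5_8 :=
  innS_eqZ E _ _ _ _ _ _ _ (chkF_sound E keys 1 5 _ _ _ _ t8_5_8_0) (by decide +kernel)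

def r8_5_9 : List (ℕ × ℤ) := [(45, -128), (46, 128), (47, 256), (53, -256), (74, 64), (77, 128), (86, -512), (108, 384), (134, -256), (180, 192)]

theorem h8_5_9 (E : Env κ ι) : inn E 1 5 c8_5 c8_9 = dotS (ek E keys) r8_5_9 :=
  innS_eqZ E _ _ _ _ _ _ _ (chkF_sound E keys 1 5 _ _ _ _ t8_5_9_0) (by decide +kernel)

def r8_5_10 : List (ℕ × ℤ) := [(36, 128), (203, 64), (205, -64), (207, 64), (211, -128), (212, 256), (215, -128), (290, -128), (293, -128), (294, 128), (300, -128), (363, 128), (374, -64)]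

theorem h8_5_10 (E : Env κ ι) : inn E 1 5 c8_5 c8_10 = dotS (ek E keys) r8_5_10 :=
  innS_eqZ E _ _ _ _ _ _ _ (chkF_sound E keys 1 5 _ _ _ _ t8_5_10_0) (by decide +kernel)

def r8_5_11 : List (ℕ × ℤ) := [(36, 128), (203, 192), (205, 64), (207, 192), (211, -128), (215, -128), (290, -128), (293, 128), (294, -128), (300, -128), (363, -128), (374, 64)]

theorem h8_5_11 (E : Env κ ι) : inn E 1 5 c8_5 c8_11 = dotS (ek E keys) r8_5_11 :=
  innS_eqZ E _ _ _ _ _ _ _ (chkF_sound E keys 1 5 _ _ _ _ t8_5_11_0) (by decide +kernel)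

def r8_5_12 : List (ℕ × ℤ) := [(36, 128), (203, 64), (205, -64), (207, 64), (211, 128), (212, -256), (215, 128), (290, 128), (293, -128), (294, -128), (300, 128), (363, -128), (374, -64)]

theorem h8_5_12 (E : Env κ ι) : inn E 1 5 c8_5 c8_12 = dotS (ek E keys) r8_5_12 :=
  innS_eqZ E _ _ _ _ _ _ _ (chkF_sound E keys 1 5 _ _ _ _ t8_5_12_0) (by decide +kernel)

def r8_5_13 : List (ℕ × ℤ) := [(18, 64), (26, 64), (71, 192), (73, 64), (76, 192), (81, -128), (82, -128), (85, -128), (97, 128), (107, -128), (112, 128), (114, -128), (123, -128), (145, -128), (188, 64)]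

theorem h8_5_13 (E : Env κ ι) : inn E 1 5 c8_5 c8_13 = dotS (ek E keys) r8_5_13 :=
  innS_eqZ E _ _ _ _ _ _ _ (chkF_sound E keys 1 5 _ _ _ _ t8_5_13_0) (by decide +kernel)

def r8_5_14 : List (ℕ × ℤ) := [(18, -64), (26, 192), (71, 64), (73, -64), (76, 64), (81, 128), (82, -128), (85, 128), (97, -128), (107, 128), (112, -128), (114, -128), (123, 128), (145, -128), (188, -64)]

theorem h8_5_14 (E : Env κ ι) : inn E 1 5 c8_5 c8_14 = dotS (ek E keys) r8_5_14 :=
  innS_eqZ E _ _ _ _ _ _ _ (chkF_sound E keys 1 5 _ _ _ _ t8_5_14_0) (by decide +kernel)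

def r8_5_15 : List (ℕ × ℤ) := [(18, 192), (26, -64), (71, 64), (73, -64), (76, 64), (81, -128), (82, -128), (85, -128), (97, 384), (107, -128), (112, -128), (114, 128), (123, -128), (145, 128), (188, -64)]

theorem h8_5_15 (E : Env κ ι) : inn E 1 5 c8_5 c8_15 = dotS (ek E keys) r8_5_15 :=
  innS_eqZ E _ _ _ _ _ _ _ (chkF_sound E keys 1 5 _ _ _ _ t8_5_15_0) (by decide +kernel)

def r8_6_6 : List (ℕ × ℤ) := [(227, 64), (228, 256), (235, -256), (255, 256), (325, 384), (327, -512), (335, 192), (343, -128), (347, -256)]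

theorem h8_6_6 (E : Env κ ι) : inn E 1 5 c8_6 c8_6 = dotS (ek E keys) r8_6_6 :=
  innS_eqZ E _ _ _ _ _ _ _ (chkF_sound E keys 1 5 _ _ _ _ t8_6_6_0) (by decide +kernel)

def r8_6_7 : List (ℕ × ℤ) := [(230, 64), (231, 128), (233, 128), (237, -256), (261, 384), (332, -256), (336, 192), (344, -128), (350, -256)]

theorem h8_6_7 (E : Env κ ι) : inn E 1 5 c8_6 c8_7 = dotS (ek E keys) r8_6_7 :=
  innS_eqZ E _ _ _ _ _ _ _ (chkF_sound E keys 1 5 _ _ _ _ t8_6_7_0) (by decide +kernel)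

def r8_6_8 : List (ℕ × ℤ) := [(227, 192), (228, 256), (235, -256), (255, -256), (325, 128), (335, 64), (343, 128), (347, -256)]

theorem h8_6_8 (E : Env κ ι) : inn E 1 5 c8_6 c8_8 = dotS (ek E keys) r8_6_8 :=
  innS_eqZ E _ _ _ _ _ _ _ (chkF_sound E keys 1 5 _ _ _ _ t8_6_8_0) (by decide +kernel)

def r8_6_9 : List (ℕ × ℤ) := [(230, 192), (231, 384), (233, -128), (237, -256), (261, 128), (332, -256), (336, 64), (344, 128), (350, -256)]

theorem h8_6_9 (E : Env κ ι) : inn E 1 5 c8_6 c8_9 = dotS (ek E keys) r8_6_9 :=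
  innS_eqZ E _ _ _ _ _ _ _ (chkF_sound E keys 1 5 _ _ _ _ t8_6_9_0) (by decide +kernel)

def r8_6_10 : List (ℕ × ℤ) := [(18, 64), (23, 64), (97, 128), (119, 128), (121, 128), (127, -256), (128, -128), (136, 128), (137, 256), (139, -128), (140, -128), (141, -128), (172, 64), (176, -128), (177, -64)]

theorem h8_6_10 (E : Env κ ι) : inn E 1 5 c8_6 c8_10 = dotS (ek E keys) r8_6_10 :=
  innS_eqZ E _ _ _ _ _ _ _ (chkF_sound E keys 1 5 _ _ _ _ t8_6_10_0) (by decide +kernel)

def r8_6_11 : List (ℕ × ℤ) := [(18, 192), (23, 192), (97, -128), (119, -128), (121, -128), (128, -128), (136, 128), (139, -128), (140, 128), (141, -128), (172, 192), (176, -128), (177, 64)]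

theorem h8_6_11 (E : Env κ ι) : inn E 1 5 c8_6 c8_11 = dotS (ek E keys) r8_6_11 :=
  innS_eqZ E _ _ _ _ _ _ _ (chkF_sound E keys 1 5 _ _ _ _ t8_6_11_0) (by decide +kernel)

def r8_6_12 : List (ℕ × ℤ) := [(18, 64), (23, 64), (97, -128), (119, -128), (121, -128), (127, 256), (128, -128), (136, 128), (137, -256), (139, 128), (140, -128), (141, 128), (172, 64), (176, 128), (177, -64)]

theorem h8_6_12 (E : Env κ ι) : inn E 1 5 c8_6 c8_12 = dotS (ek E keys) r8_6_12 :=
  innS_eqZ E _ _ _ _ _ _ _ (chkF_sound E keys 1 5 _ _ _ _ t8_6_12_0) (by decide +kernel)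

def r8_6_13 : List (ℕ × ℤ) := [(219, 64), (221, 128), (228, 128), (236, -128), (239, 192), (245, -128), (256, 192), (311, -128), (321, -128), (331, -128), (341, 192), (348, -128), (365, -128)]

theorem h8_6_13 (E : Env κ ι) : inn E 1 5 c8_6 c8_13 = dotS (ek E keys) r8_6_13 :=
  innS_eqZ E _ _ _ _ _ _ _ (chkF_sound E keys 1 5 _ _ _ _ t8_6_13_0) (by decide +kernel)

def r8_6_14 : List (ℕ × ℤ) := [(219, -64), (221, -128), (228, 128), (236, -128), (238, -256), (239, 64), (245, 128), (255, 256), (256, 64), (311, 128), (321, 128), (331, -128), (341, 64), (348, -128), (365, -128)]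

theorem h8_6_14 (E : Env κ ι) : inn E 1 5 c8_6 c8_14 = dotS (ek E keys) r8_6_14 :=
  innS_eqZ E _ _ _ _ _ _ _ (chkF_sound E keys 1 5 _ _ _ _ t8_6_14_0) (by decide +kernel)

def r8_6_15 : List (ℕ × ℤ) := [(219, -64), (221, -128), (228, 128), (236, 128), (238, 256), (239, 64), (245, -128), (255, -256), (256, 64), (311, -128), (321, -128), (331, 128), (341, 64), (348, -128), (365, 128)]

theorem h8_6_15 (E : Env κ ι) : inn E 1 5 c8_6 c8_15 = dotS (ek E keys) r8_6_15 :=
  innS_eqZ E _ _ _ _ _ _ _ (chkF_sound E keys 1 5 _ _ _ _ t8_6_15_0) (by decide +kernel)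

def r8_7_7 : List (ℕ × ℤ) := [(3, 256), (4, -128), (247, -256), (249, 64), (258, -512), (262, 384), (264, 256), (337, 192), (352, -256)]

theorem h8_7_7 (E : Env κ ι) : inn E 1 5 c8_7 c8_7 = dotS (ek E keys) r8_7_7 :=
  innS_eqZ E _ _ _ _ _ _ _ (chkF_sound E keys 1 5 _ _ _ _ t8_7_7_0) (by decide +kernel)

def r8_7_8 : List (ℕ × ℤ) := [(230, 192), (231, -128), (233, 384), (237, -256), (257, -512), (261, 128), (332, 256), (336, 64), (344, 128), (350, -256)]

theorem h8_7_8 (E : Env κ ι) : inn E 1 5 c8_7 c8_8 = dotS (ek E keys) r8_7_8 :=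
  innS_eqZ E _ _ _ _ _ _ _ (chkF_sound E keys 1 5 _ _ _ _ t8_7_8_0) (by decide +kernel)

def r8_7_9 : List (ℕ × ℤ) := [(3, 256), (4, 128), (247, -256), (249, 192), (262, 128), (264, -256), (337, 64), (352, -256)]

theorem h8_7_9 (E : Env κ ι) : inn E 1 5 c8_7 c8_9 = dotS (ek E keys) r8_7_9 :=
  innS_eqZ E _ _ _ _ _ _ _ (chkF_sound E keys 1 5 _ _ _ _ t8_7_9_0) (by decide +kernel)

def r8_7_10 : List (ℕ × ℤ) := [(45, 64), (48, 128), (51, 64), (52, -128), (54, -128), (55, 128), (57, 256), (58, -256), (108, -128), (120, 128), (138, 128), (143, -128), (180, 64), (182, -128), (183, -64)]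

theorem h8_7_10 (E : Env κ ι) : inn E 1 5 c8_7 c8_10 = dotS (ek E keys) r8_7_10 :=
  innS_eqZ E _ _ _ _ _ _ _ (chkF_sound E keys 1 5 _ _ _ _ t8_7_10_0) (by decide +kernel)

def r8_7_11 : List (ℕ × ℤ) := [(45, 192), (48, -128), (51, 192), (52, -128), (54, -128), (55, -128), (108, -128), (120, -128), (138, 128), (143, 128), (180, 192), (182, -128), (183, 64)]

theorem h8_7_11 (E : Env κ ι) : inn E 1 5 c8_7 c8_11 = dotS (ek E keys) r8_7_11 :=
  innS_eqZ E _ _ _ _ _ _ _ (chkF_sound E keys 1 5 _ _ _ _ t8_7_11_0) (by decide +kernel)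

def r8_7_12 : List (ℕ × ℤ) := [(45, 64), (48, -128), (51, 64), (52, 128), (54, 128), (55, -128), (57, -256), (58, 256), (108, -128), (120, -128), (138, 128), (143, -128), (180, 64), (182, 128), (183, -64)]

theorem h8_7_12 (E : Env κ ι) : inn E 1 5 c8_7 c8_12 = dotS (ek E keys) r8_7_12 :=
  innS_eqZ E _ _ _ _ _ _ _ (chkF_sound E keys 1 5 _ _ _ _ t8_7_12_0) (by decide +kernel)

def r8_7_13 : List (ℕ × ℤ) := [(222, 64), (223, 128), (231, 64), (233, 64), (237, -128), (240, 128), (244, -128), (252, -256), (253, 192), (261, 192), (322, -128), (332, -128), (342, 192), (349, -128), (366, -128)]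

theorem h8_7_13 (E : Env κ ι) : inn E 1 5 c8_7 c8_13 = dotS (ek E keys) r8_7_13 :=
  innS_eqZ E _ _ _ _ _ _ _ (chkF_sound E keys 1 5 _ _ _ _ t8_7_13_0) (by decide +kernel)

def r8_7_14 : List (ℕ × ℤ) := [(222, -64), (223, -128), (231, 192), (233, -64), (237, 128), (240, -128), (244, -128), (253, 64), (257, 256), (261, 64), (322, 128), (332, -128), (342, 64), (349, -128), (366, -128)]

theorem h8_7_14 (E : Env κ ι) : inn E 1 5 c8_7 c8_14 = dotS (ek E keys) r8_7_14 :=
  innS_eqZ E _ _ _ _ _ _ _ (chkF_sound E keys 1 5 _ _ _ _ t8_7_14_0) (by decide +kernel)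

def r8_7_15 : List (ℕ × ℤ) := [(222, -64), (223, -128), (231, -64), (233, 192), (237, -128), (240, 384), (244, 128), (252, -256), (253, 64), (257, -256), (261, 64), (322, -128), (332, 128), (342, 64), (349, -128), (366, 128)]

theorem h8_7_15 (E : Env κ ι) : inn E 1 5 c8_7 c8_15 = dotS (ek E keys) r8_7_15 :=
  innS_eqZ E _ _ _ _ _ _ _ (chkF_sound E keys 1 5 _ _ _ _ t8_7_15_0) (by decide +kernel)

def r8_8_8 : List (ℕ × ℤ) := [(227, 64), (228, 256), (235, 256), (255, -256), (325, -128), (327, -512), (335, 192), (343, 384), (347, -256)]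

theorem h8_8_8 (E : Env κ ι) : inn E 1 5 c8_8 c8_8 = dotS (ek E keys) r8_8_8 :=
  innS_eqZ E _ _ _ _ _ _ _ (chkF_sound E keys 1 5 _ _ _ _ t8_8_8_0) (by decide +kernel)

def r8_8_9 : List (ℕ × ℤ) := [(230, 64), (231, 128), (233, 128), (237, 256), (257, -512), (261, -128), (332, -256), (336, 192), (344, 384), (350, -256)]

theorem h8_8_9 (E : Env κ ι) : inn E 1 5 c8_8 c8_9 = dotS (ek E keys) r8_8_9 :=
  innS_eqZ E _ _ _ _ _ _ _ (chkF_sound E keys 1 5 _ _ _ _ t8_8_9_0) (by decide +kernel)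

def r8_8_10 : List (ℕ × ℤ) := [(18, 192), (23, -64), (97, 384), (119, -128), (121, -128), (127, -256), (128, -128), (136, 128), (137, 256), (139, -128), (140, -128), (141, -128), (172, -64), (176, 128), (177, 64)]

theorem h8_8_10 (E : Env κ ι) : inn E 1 5 c8_8 c8_10 = dotS (ek E keys) r8_8_10 :=
  innS_eqZ E _ _ _ _ _ _ _ (chkF_sound E keys 1 5 _ _ _ _ t8_8_10_0) (by decide +kernel)

def r8_8_11 : List (ℕ × ℤ) := [(18, 64), (23, 64), (97, 128), (119, -128), (121, -128), (127, -256), (128, 128), (136, 384), (137, -256), (139, -128), (140, -128), (141, 128), (172, 64), (176, -128), (177, 192)]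

theorem h8_8_11 (E : Env κ ι) : inn E 1 5 c8_8 c8_11 = dotS (ek E keys) r8_8_11 :=
  innS_eqZ E _ _ _ _ _ _ _ (chkF_sound E keys 1 5 _ _ _ _ t8_8_11_0) (by decide +kernel)

def r8_8_12 : List (ℕ × ℤ) := [(18, -64), (23, 192), (97, -128), (119, 128), (121, -128), (127, 256), (128, -128), (136, 128), (137, -256), (139, -128), (140, -128), (141, 384), (172, -64), (176, -128), (177, 64)]

theorem h8_8_12 (E : Env κ ι) : inn E 1 5 c8_8 c8_12 = dotS (ek E keys) r8_8_12 :=
  innS_eqZ E _ _ _ _ _ _ _ (chkF_sound E keys 1 5 _ _ _ _ t8_8_12_0) (by decide +kernel)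

def r8_8_13 : List (ℕ × ℤ) := [(219, 192), (221, -128), (228, 384), (236, -128), (238, -256), (239, 64), (245, -128), (255, -256), (256, 64), (311, 128), (321, -128), (331, 128), (341, 64), (348, 128), (365, -128)]

theorem h8_8_13 (E : Env κ ι) : inn E 1 5 c8_8 c8_13 = dotS (ek E keys) r8_8_13 :=
  innS_eqZ E _ _ _ _ _ _ _ (chkF_sound E keys 1 5 _ _ _ _ t8_8_13_0) (by decide +kernel)

def r8_8_14 : List (ℕ × ℤ) := [(219, 64), (221, -128), (228, 128), (236, -128), (238, -256), (239, 192), (245, -128), (255, 256), (256, -64), (311, 384), (321, -128), (331, -128), (341, -64), (348, -128), (365, 128)]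

theorem h8_8_14 (E : Env κ ι) : inn E 1 5 c8_8 c8_14 = dotS (ek E keys) r8_8_14 :=
  innS_eqZ E _ _ _ _ _ _ _ (chkF_sound E keys 1 5 _ _ _ _ t8_8_14_0) (by decide +kernel)

def r8_8_15 : List (ℕ × ℤ) := [(219, 64), (221, -128), (228, 128), (236, -128), (238, 256), (239, -64), (245, -128), (255, -256), (256, 192), (311, -128), (321, 128), (331, 384), (341, -64), (348, -128), (365, -128)]

theorem h8_8_15 (E : Env κ ι) : inn E 1 5 c8_8 c8_15 = dotS (ek E keys) r8_8_15 :=
  innS_eqZ E _ _ _ _ _ _ _ (chkF_sound E keys 1 5 _ _ _ _ t8_8_15_0) (by decide +kernel)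

def r8_9_9 : List (ℕ × ℤ) := [(3, 256), (4, 384), (247, 256), (249, 64), (258, -512), (262, -128), (264, -256), (337, 192), (352, -256)]

theorem h8_9_9 (E : Env κ ι) : inn E 1 5 c8_9 c8_9 = dotS (ek E keys) r8_9_9 :=
  innS_eqZ E _ _ _ _ _ _ _ (chkF_sound E keys 1 5 _ _ _ _ t8_9_9_0) (by decide +kernel)

def r8_9_10 : List (ℕ × ℤ) := [(45, 192), (48, 384), (51, -64), (52, -128), (54, -128), (55, -128), (57, 256), (58, -256), (108, -128), (120, -128), (138, 128), (143, -128), (180, -64), (182, 128), (183, 64)]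

theorem h8_9_10 (E : Env κ ι) : inn E 1 5 c8_9 c8_10 = dotS (ek E keys) r8_9_10 :=
  innS_eqZ E _ _ _ _ _ _ _ (chkF_sound E keys 1 5 _ _ _ _ t8_9_10_0) (by decide +kernel)

def r8_9_11 : List (ℕ × ℤ) := [(45, 64), (48, 128), (51, 64), (52, 128), (54, -128), (55, -128), (57, -256), (58, -256), (108, 128), (120, -128), (138, 384), (143, -128), (180, 64), (182, -128), (183, 192)]

theorem h8_9_11 (E : Env κ ι) : inn E 1 5 c8_9 c8_11 = dotS (ek E keys) r8_9_11 :=
  innS_eqZ E _ _ _ _ _ _ _ (chkF_sound E keys 1 5 _ _ _ _ t8_9_11_0) (by decide +kernel)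

def r8_9_12 : List (ℕ × ℤ) := [(45, -64), (48, -128), (51, 192), (52, 384), (54, -128), (55, -128), (57, -256), (58, 256), (108, -128), (120, 128), (138, 128), (143, -128), (180, -64), (182, -128), (183, 64)]

theorem h8_9_12 (E : Env κ ι) : inn E 1 5 c8_9 c8_12 = dotS (ek E keys) r8_9_12 :=
  innS_eqZ E _ _ _ _ _ _ _ (chkF_sound E keys 1 5 _ _ _ _ t8_9_12_0) (by decide +kernel)

def r8_9_13 : List (ℕ × ℤ) := [(222, 192), (223, -128), (231, 192), (233, 192), (237, -128), (240, -128), (244, -128), (253, 64), (257, -256), (261, 64), (322, -128), (332, 128), (342, 64), (349, 128), (366, -128)]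

theorem h8_9_13 (E : Env κ ι) : inn E 1 5 c8_9 c8_13 = dotS (ek E keys) r8_9_13 :=
  innS_eqZ E _ _ _ _ _ _ _ (chkF_sound E keys 1 5 _ _ _ _ t8_9_13_0) (by decide +kernel)

def r8_9_14 : List (ℕ × ℤ) := [(222, 64), (223, -128), (231, 64), (233, 64), (237, -128), (240, -128), (244, -128), (252, 256), (253, 192), (257, 256), (261, -64), (322, -128), (332, -128), (342, -64), (349, -128), (366, 128)]

theorem h8_9_14 (E : Env κ ι) : inn E 1 5 c8_9 c8_14 = dotS (ek E keys) r8_9_14 :=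
  innS_eqZ E _ _ _ _ _ _ _ (chkF_sound E keys 1 5 _ _ _ _ t8_9_14_0) (by decide +kernel)

def r8_9_15 : List (ℕ × ℤ) := [(222, 64), (223, -128), (231, 64), (233, 64), (237, -128), (240, 128), (244, -128), (253, -64), (257, -256), (261, 192), (322, 128), (332, 384), (342, -64), (349, -128), (366, -128)]

theorem h8_9_15 (E : Env κ ι) : inn E 1 5 c8_9 c8_15 = dotS (ek E keys) r8_9_15 :=
  innS_eqZ E _ _ _ _ _ _ _ (chkF_sound E keys 1 5 _ _ _ _ t8_9_15_0) (by decide +kernel)

def r8_10_10 : List (ℕ × ℤ) := [(37, -64), (214, -32), (215, -128), (217, -128), (288, 64), (289, 192), (290, -64), (291, 128), (293, -64), (296, -128), (300, 192), (304, 96), (374, 96), (376, -64), (377, -64), (378, -32)]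

theorem h8_10_10 (E : Env κ ι) : inn E 1 5 c8_10 c8_10 = dotS (ek E keys) r8_10_10 :=
  innS_eqZ E _ _ _ _ _ _ _ (innS_add E _ _ _ _ _ _ _ _ (chkF_sound E keys 1 5 _ _ _ _ t8_10_10_0) (chkF_sound E keys 1 5 _ _ _ _ t8_10_10_1)) (by decide +kernel)

def r8_10_11 : List (ℕ × ℤ) := [(37, 64), (214, 32), (288, -64), (289, 64), (290, -64), (293, -64), (300, 64), (304, 32), (374, 32), (376, -64), (377, -64), (378, 32)]

theorem h8_10_11 (E : Env κ ι) : inn E 1 5 c8_10 c8_11 = dotS (ek E keys) r8_10_11 :=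
  innS_eqZ E _ _ _ _ _ _ _ (innS_add E _ _ _ _ _ _ _ _ (chkF_sound E keys 1 5 _ _ _ _ t8_10_11_0) (chkF_sound E keys 1 5 _ _ _ _ t8_10_11_1)) (by decide +kernel)

def r8_10_12 : List (ℕ × ℤ) := [(37, 64), (214, -32), (217, -128), (288, -64), (289, -64), (290, 64), (291, 128), (293, 64), (296, 128), (300, -64), (304, -32), (374, -32), (376, -64), (377, -64), (378, 96)]

theorem h8_10_12 (E : Env κ ι) : inn E 1 5 c8_10 c8_12 = dotS (ek E keys) r8_10_12 :=
  innS_eqZ E _ _ _ _ _ _ _ (innS_add E _ _ _ _ _ _ _ _ (chkF_sound E keys 1 5 _ _ _ _ t8_10_12_0) (chkF_sound E keys 1 5 _ _ _ _ t8_10_12_1)) (by decide +kernel)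

def r8_10_13 : List (ℕ × ℤ) := [(23, 32), (27, 32), (84, 32), (85, 64), (89, 64), (103, -64), (104, -64), (105, 64), (107, -64), (109, 128), (112, -64), (116, -64), (117, -64), (118, 64), (121, -64), (123, 64), (131, -64), (139, 64), (140, 64), (141, -64), (188, 32), (192, 32), (198, -64), (200, -64), (201, -64), (298, 32)]

theorem h8_10_13 (E : Env κ ι) : inn E 1 5 c8_10 c8_13 = dotS (ek E keys) r8_10_13 :=
  innS_eqZ E _ _ _ _ _ _ _ (innS_add E _ _ _ _ _ _ _ _ (chkF_sound E keys 1 5 _ _ _ _ t8_10_13_0) (chkF_sound E keys 1 5 _ _ _ _ t8_10_13_1)) (by decide +kernel)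

def r8_10_14 : List (ℕ × ℤ) := [(23, 96), (27, -32), (84, -32), (85, -64), (89, -64), (103, 64), (104, -64), (105, -64), (107, 64), (112, 64), (116, 64), (117, 64), (118, 192), (121, 64), (123, -64), (131, 64), (139, -64), (140, -64), (141, -64), (188, -32), (192, -32), (198, -64), (200, -64), (201, -64), (298, 96)]

theorem h8_10_14 (E : Env κ ι) : inn E 1 5 c8_10 c8_14 = dotS (ek E keys) r8_10_14 :=
  innS_eqZ E _ _ _ _ _ _ _ (innS_add E _ _ _ _ _ _ _ _ (chkF_sound E keys 1 5 _ _ _ _ t8_10_14_0) (chkF_sound E keys 1 5 _ _ _ _ t8_10_14_1)) (by decide +kernel)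

def r8_10_15 : List (ℕ × ℤ) := [(23, -32), (27, -32), (84, -32), (85, -64), (89, -64), (103, -64), (104, 64), (105, 192), (107, -64), (109, 128), (112, -64), (116, -64), (117, -64), (118, -64), (121, 64), (123, 192), (131, -64), (139, 64), (140, 64), (141, -64), (188, 96), (192, 96), (198, -64), (200, -64), (201, -64), (298, -32)]

theorem h8_10_15 (E : Env κ ι) : inn E 1 5 c8_10 c8_15 = dotS (ek E keys) r8_10_15 :=
  innS_eqZ E _ _ _ _ _ _ _ (innS_add E _ _ _ _ _ _ _ _ (chkF_sound E keys 1 5 _ _ _ _ t8_10_15_0) (chkF_sound E keys 1 5 _ _ _ _ t8_10_15_1)) (by decide +kernel)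

def r8_11_11 : List (ℕ × ℤ) := [(37, 192), (214, 96), (215, -128), (217, -128), (287, -128), (288, -64), (289, -64), (290, 64), (291, -128), (293, -64), (295, 256), (296, -128), (300, -64), (304, 96), (374, 96), (376, -64), (377, 64), (378, 96)]

theorem h8_11_11 (E : Env κ ι) : inn E 1 5 c8_11 c8_11 = dotS (ek E keys) r8_11_11 :=
  innS_eqZ E _ _ _ _ _ _ _ (innS_add E _ _ _ _ _ _ _ _ (chkF_sound E keys 1 5 _ _ _ _ t8_11_11_0) (chkF_sound E keys 1 5 _ _ _ _ t8_11_11_1)) (by decide +kernel)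

def r8_11_12 : List (ℕ × ℤ) := [(37, 64), (214, 32), (215, -128), (217, -128), (288, -64), (289, -64), (290, 192), (291, 128), (293, -64), (300, -64), (304, 32), (374, 32), (376, 64), (377, -64), (378, 32)]

theorem h8_11_12 (E : Env κ ι) : inn E 1 5 c8_11 c8_12 = dotS (ek E keys) r8_11_12 :=
  innS_eqZ E _ _ _ _ _ _ _ (innS_add E _ _ _ _ _ _ _ _ (chkF_sound E keys 1 5 _ _ _ _ t8_11_12_0) (chkF_sound E keys 1 5 _ _ _ _ t8_11_12_1)) (by decide +kernel)

def r8_11_13 : List (ℕ × ℤ) := [(23, 96), (27, 96), (84, 96), (85, -64), (89, -64), (103, -64), (104, -64), (105, -64), (107, 64), (112, -64), (116, 64), (117, -64), (118, -64), (121, -64), (123, -64), (131, -64), (139, -64), (140, 192), (141, -64), (188, 96), (192, 96), (198, -64), (200, -64), (201, 64), (298, 96)]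

theorem h8_11_13 (E : Env κ ι) : inn E 1 5 c8_11 c8_13 = dotS (ek E keys) r8_11_13 :=
  innS_eqZ E _ _ _ _ _ _ _ (innS_add E _ _ _ _ _ _ _ _ (chkF_sound E keys 1 5 _ _ _ _ t8_11_13_0) (chkF_sound E keys 1 5 _ _ _ _ t8_11_13_1)) (by decide +kernel)

def r8_11_14 : List (ℕ × ℤ) := [(23, 32), (27, 32), (84, 32), (85, -64), (89, -64), (103, -64), (104, -64), (105, -64), (107, 192), (109, 128), (112, -64), (116, 192), (117, -64), (118, 64), (121, 64), (123, -64), (131, -64), (139, 64), (140, -192), (141, -64), (188, 32), (192, 32), (198, 64), (200, -64), (201, -64), (298, 32)]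

theorem h8_11_14 (E : Env κ ι) : inn E 1 5 c8_11 c8_14 = dotS (ek E keys) r8_11_14 :=
  innS_eqZ E _ _ _ _ _ _ _ (innS_add E _ _ _ _ _ _ _ _ (chkF_sound E keys 1 5 _ _ _ _ t8_11_14_0) (chkF_sound E keys 1 5 _ _ _ _ t8_11_14_1)) (by decide +kernel)

def r8_11_15 : List (ℕ × ℤ) := [(23, 32), (27, 32), (84, 32), (85, -64), (89, -64), (103, -64), (104, -64), (105, 64), (107, -64), (109, -128), (112, -64), (116, -64), (117, 64), (118, -64), (121, 64), (123, 64), (131, 64), (139, 64), (140, 64), (141, 64), (188, 32), (192, 32), (198, -64), (200, 64), (201, -64), (298, 32)]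

theorem h8_11_15 (E : Env κ ι) : inn E 1 5 c8_11 c8_15 = dotS (ek E keys) r8_11_15 :=
  innS_eqZ E _ _ _ _ _ _ _ (innS_add E _ _ _ _ _ _ _ _ (chkF_sound E keys 1 5 _ _ _ _ t8_11_15_0) (chkF_sound E keys 1 5 _ _ _ _ t8_11_15_1)) (by decide +kernel)

def r8_12_12 : List (ℕ × ℤ) := [(37, -64), (214, 96), (215, -128), (217, 128), (288, 64), (289, 64), (290, 64), (291, -128), (293, -64), (296, -128), (300, -64), (304, -32), (374, 96), (376, 192), (377, -64), (378, -32)]

theorem h8_12_12 (E : Env κ ι) : inn E 1 5 c8_12 c8_12 = dotS (ek E keys) r8_12_12 :=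
  innS_eqZ E _ _ _ _ _ _ _ (innS_add E _ _ _ _ _ _ _ _ (chkF_sound E keys 1 5 _ _ _ _ t8_12_12_0) (chkF_sound E keys 1 5 _ _ _ _ t8_12_12_1)) (by decide +kernel)

def r8_12_13 : List (ℕ × ℤ) := [(23, 32), (27, 32), (84, 32), (85, -64), (89, -64), (103, 64), (104, -64), (105, -64), (107, 192), (112, -64), (116, -64), (117, 64), (118, -64), (121, 64), (123, -64), (131, -64), (139, -64), (140, 64), (141, -64), (188, 32), (192, 32), (198, 64), (200, 64), (201, -64), (298, 32)]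

theorem h8_12_13 (E : Env κ ι) : inn E 1 5 c8_12 c8_13 = dotS (ek E keys) r8_12_13 :=
  innS_eqZ E _ _ _ _ _ _ _ (innS_add E _ _ _ _ _ _ _ _ (chkF_sound E keys 1 5 _ _ _ _ t8_12_13_0) (chkF_sound E keys 1 5 _ _ _ _ t8_12_13_1)) (by decide +kernel)

def r8_12_14 : List (ℕ × ℤ) := [(23, -32), (27, -32), (84, 96), (85, -64), (89, 64), (103, -64), (104, 64), (105, 64), (107, 64), (112, -64), (116, 64), (117, -64), (118, -64), (121, -64), (123, -64), (131, -64), (139, 64), (140, -64), (141, 64), (188, 96), (192, -32), (198, 192), (200, -64), (201, -64), (298, -32)]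

theorem h8_12_14 (E : Env κ ι) : inn E 1 5 c8_12 c8_14 = dotS (ek E keys) r8_12_14 :=
  innS_eqZ E _ _ _ _ _ _ _ (innS_add E _ _ _ _ _ _ _ _ (chkF_sound E keys 1 5 _ _ _ _ t8_12_14_0) (chkF_sound E keys 1 5 _ _ _ _ t8_12_14_1)) (by decide +kernel)

def r8_12_15 : List (ℕ × ℤ) := [(23, -32), (27, 96), (84, -32), (85, 64), (89, -64), (103, -64), (104, -64), (105, -64), (107, 64), (109, -128), (112, 64), (116, -64), (117, 192), (118, -64), (121, 64), (123, -64), (131, -64), (139, 64), (140, 64), (141, -64), (188, -32), (192, -32), (198, -64), (200, 192), (201, -64), (298, 96)]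

theorem h8_12_15 (E : Env κ ι) : inn E 1 5 c8_12 c8_15 = dotS (ek E keys) r8_12_15 :=
  innS_eqZ E _ _ _ _ _ _ _ (innS_add E _ _ _ _ _ _ _ _ (chkF_sound E keys 1 5 _ _ _ _ t8_12_15_0) (chkF_sound E keys 1 5 _ _ _ _ t8_12_15_1)) (by decide +kernel)

def r8_13_13 : List (ℕ × ℤ) := [(218, 64), (220, 128), (221, 128), (236, -128), (239, 192), (243, -64), (245, -128), (246, 96), (255, 64), (309, -64), (311, -128), (314, 96), (315, -64), (320, -128), (325, 96), (327, -128), (340, 96), (347, -64), (364, -64)]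

theorem h8_13_13 (E : Env κ ι) : inn E 1 5 c8_13 c8_13 = dotS (ek E keys) r8_13_13 :=
  innS_eqZ E _ _ _ _ _ _ _ (innS_add E _ _ _ _ _ _ _ _ (chkF_sound E keys 1 5 _ _ _ _ t8_13_13_0) (chkF_sound E keys 1 5 _ _ _ _ t8_13_13_1)) (by decide +kernel)

def r8_13_14 : List (ℕ × ℤ) := [(218, -64), (220, -128), (221, 128), (238, 128), (239, 64), (243, -64), (246, 32), (255, 192), (309, 64), (311, -128), (314, 32), (315, -64), (325, 32), (327, -128), (340, 32), (347, -64), (364, -64)]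

theorem h8_13_14 (E : Env κ ι) : inn E 1 5 c8_13 c8_14 = dotS (ek E keys) r8_13_14 :=
  innS_eqZ E _ _ _ _ _ _ _ (innS_add E _ _ _ _ _ _ _ _ (chkF_sound E keys 1 5 _ _ _ _ t8_13_14_0) (chkF_sound E keys 1 5 _ _ _ _ t8_13_14_1)) (by decide +kernel)

def r8_13_15 : List (ℕ × ℤ) := [(218, -64), (220, 128), (221, -128), (235, 128), (239, 64), (243, 64), (245, -128), (246, 32), (255, -64), (309, -64), (314, 32), (315, -64), (325, 32), (340, 32), (347, -64), (364, 64)]

theorem h8_13_15 (E : Env κ ι) : inn E 1 5 c8_13 c8_15 = dotS (ek E keys) r8_13_15 :=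
  innS_eqZ E _ _ _ _ _ _ _ (innS_add E _ _ _ _ _ _ _ _ (chkF_sound E keys 1 5 _ _ _ _ t8_13_15_0) (chkF_sound E keys 1 5 _ _ _ _ t8_13_15_1)) (by decide +kernel)

def r8_14_14 : List (ℕ × ℤ) := [(218, -64), (220, -128), (221, 128), (235, 128), (236, -128), (239, -64), (243, 64), (245, -128), (246, -32), (255, 64), (309, 192), (311, 128), (314, -32), (315, 64), (320, -128), (325, 96), (327, -128), (340, 96), (347, -64), (364, -64)]

theorem h8_14_14 (E : Env κ ι) : inn E 1 5 c8_14 c8_14 = dotS (ek E keys) r8_14_14 :=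
  innS_eqZ E _ _ _ _ _ _ _ (innS_add E _ _ _ _ _ _ _ _ (chkF_sound E keys 1 5 _ _ _ _ t8_14_14_0) (chkF_sound E keys 1 5 _ _ _ _ t8_14_14_1)) (by decide +kernel)

def r8_14_15 : List (ℕ × ℤ) := [(218, -64), (236, 256), (238, -128), (239, 64), (243, -64), (246, -32), (255, 64), (309, -64), (311, -128), (314, 96), (315, -64), (320, 128), (325, -32), (340, -32), (347, 64), (364, -64)]

theorem h8_14_15 (E : Env κ ι) : inn E 1 5 c8_14 c8_15 = dotS (ek E keys) r8_14_15 :=
  innS_eqZ E _ _ _ _ _ _ _ (innS_add E _ _ _ _ _ _ _ _ (chkF_sound E keys 1 5 _ _ _ _ t8_14_15_0) (chkF_sound E keys 1 5 _ _ _ _ t8_14_15_1)) (by decide +kernel)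

def r8_15_15 : List (ℕ × ℤ) := [(218, -64), (220, 128), (221, -128), (235, 128), (236, -128), (238, 256), (239, -64), (243, 192), (245, -128), (246, 96), (255, -64), (309, -64), (311, -128), (314, -32), (315, 64), (320, -128), (325, -32), (327, -128), (340, 96), (347, -64), (364, 192)]

theorem h8_15_15 (E : Env κ ι) : inn E 1 5 c8_15 c8_15 = dotS (ek E keys) r8_15_15 :=
  innS_eqZ E _ _ _ _ _ _ _ (innS_add E _ _ _ _ _ _ _ _ (chkF_sound E keys 1 5 _ _ _ _ t8_15_15_0) (chkF_sound E keys 1 5 _ _ _ _ t8_15_15_1)) (by decide +kernel)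

theorem row8_0 (E : Env κ ι) : RowS E 1 5 (ek E keys) c8_0 [c8_0, c8_1, c8_2, c8_3, c8_4, c8_5, c8_6, c8_7, c8_8, c8_9, c8_10, c8_11, c8_12, c8_13, c8_14, c8_15] [r8_0_0, r8_0_1, r8_0_2, r8_0_3, r8_0_4, r8_0_5, r8_0_6, r8_0_7, r8_0_8, r8_0_9, r8_0_10, r8_0_11, r8_0_12, r8_0_13, r8_0_14, r8_0_15] :=
  rowS_cons E _ _ _ _ _ _ _ _ (h8_0_0 E) (rowS_cons E _ _ _ _ _ _ _ _ (h8_0_1 E) (rowS_cons E _ _ _ _ _ _ _ _ (h8_0_2 E) (rowS_cons E _ _ _ _ _ _ _ _ (h8_0_3 E) (rowS_cons E _ _ _ _ _ _ _ _ (h8_0_4 E) (rowS_cons E _ _ _ _ _ _ _ _ (h8_0_5 E) (rowS_cons E _ _ _ _ _ _ _ _ (h8_0_6 E) (rowS_cons E _ _ _ _ _ _ _ _ (h8_0_7 E) (rowS_cons E _ _ _ _ _ _ _ _ (h8_0_8 E) (rowS_cons E _ _ _ _ _ _ _ _ (h8_0_9 E) (rowS_cons E _ _ _ _ _ _ _ _ (h8_0_10 E) (rowS_cons E _ _ _ _ _ _ _ _ (h8_0_11 E) (rowS_cons E _ _ _ _ _ _ _ _ (h8_0_12 E) (rowS_cons E _ _ _ _ _ _ _ _ (h8_0_13 E) (rowS_cons E _ _ _ _ _ _ _ _ (h8_0_14 E) (rowS_cons E _ _ _ _ _ _ _ _ (h8_0_15 E) (rowS_nil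 E _ _ _ _))))))))))))))))

theorem row8_1 (E : Env κ ι) : RowS E 1 5 (ek E keys) c8_1 [c8_1, c8_2, c8_3, c8_4, c8_5, c8_6, c8_7, c8_8, c8_9, c8_10, c8_11, c8_12, c8_13, c8_14, c8_15] [r8_1_1, r8_1_2, r8_1_3, r8_1_4, r8_1_5, r8_1_6, r8_1_7, r8_1_8, r8_1_9, r8_1_10, r8_1_11, r8_1_12, r8_1_13, r8_1_14, r8_1_15] :=
  rowS_cons E _ _ _ _ _ _ _ _ (h8_1_1 E) (rowS_cons E _ _ _ _ _ _ _ _ (h8_1_2 E) (rowS_cons E _ _ _ _ _ _ _ _ (h8_1_3 E) (rowS_cons E _ _ _ _ _ _ _ _ (h8_1_4 E) (rowS_cons E _ _ _ _ _ _ _ _ (h8_1_5 E) (rowS_cons E _ _ _ _ _ _ _ _ (h8_1_6 E) (rowS_cons E _ _ _ _ _ _ _ _ (h8_1_7 E) (rowS_cons E _ _ _ _ _ _ _ _ (h8_1_8 E) (rowS_cons E _ _ _ _ _ _ _ _ (h8_1_9 E) (rowS_cons E _ _ _ _ _ _ _ _ (h8_1_10 E) (rowS_cons E _ _ _ _ _ _ _ _ (h8_1_11 E) (rowS_cons E _ _ _ _ _ _ _ _ (h8_1_12 E) (rowS_cons E _ _ _ _ _ _ _ _ (h8_1_13 E) (rowS_cons E _ _ _ _ _ _ _ _ (h8_1_14 E) (rowS_cons E _ _ _ _ _ _ _ _ (h8_1_15 E) (rowS_nil E _ _ _ _)))))))))))))))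

theorem row8_2 (E : Env κ ι) : RowS E 1 5 (ek E keys) c8_2 [c8_2, c8_3, c8_4, c8_5, c8_6, c8_7, c8_8, c8_9, c8_10, c8_11, c8_12, c8_13, c8_14, c8_15] [r8_2_2, r8_2_3, r8_2_4, r8_2_5, r8_2_6, r8_2_7, r8_2_8, r8_2_9, r8_2_10, r8_2_11, r8_2_12, r8_2_13, r8_2_14, r8_2_15] :=
  rowS_cons E _ _ _ _ _ _ _ _ (h8_2_2 E) (rowS_cons E _ _ _ _ _ _ _ _ (h8_2_3 E) (rowS_cons E _ _ _ _ _ _ _ _ (h8_2_4 E) (rowS_cons E _ _ _ _ _ _ _ _ (h8_2_5 E) (rowS_cons E _ _ _ _ _ _ _ _ (h8_2_6 E) (rowS_cons E _ _ _ _ _ _ _ _ (h8_2_7 E) (rowS_cons E _ _ _ _ _ _ _ _ (h8_2_8 E) (rowS_cons E _ _ _ _ _ _ _ _ (h8_2_9 E) (rowS_cons E _ _ _ _ _ _ _ _ (h8_2_10 E) (rowS_cons E _ _ _ _ _ _ _ _ (h8_2_11 E) (rowS_cons E _ _ _ _ _ _ _ _ (h8_2_12 E) (rowS_cons E _ _ _ _ _ _ _ _ (h8_2_13 E) (rowS_cons E _ _ _ _ _ _ _ _ (h8_2_14 E) (rowS_cons E _ _ _ _ _ _ _ _ (h8_2_15 E) (rowS_nil E _ _ _ _))))))))))))))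

theorem row8_3 (E : Env κ ι) : RowS E 1 5 (ek E keys) c8_3 [c8_3, c8_4, c8_5, c8_6, c8_7, c8_8, c8_9, c8_10, c8_11, c8_12, c8_13, c8_14, c8_15] [r8_3_3, r8_3_4, r8_3_5, r8_3_6, r8_3_7, r8_3_8, r8_3_9, r8_3_10, r8_3_11, r8_3_12, r8_3_13, r8_3_14, r8_3_15] :=
  rowS_cons E _ _ _ _ _ _ _ _ (h8_3_3 E) (rowS_cons E _ _ _ _ _ _ _ _ (h8_3_4 E) (rowS_cons E _ _ _ _ _ _ _ _ (h8_3_5 E) (rowS_cons E _ _ _ _ _ _ _ _ (h8_3_6 E) (rowS_cons E _ _ _ _ _ _ _ _ (h8_3_7 E) (rowS_cons E _ _ _ _ _ _ _ _ (h8_3_8 E) (rowS_cons E _ _ _ _ _ _ _ _ (h8_3_9 E) (rowS_cons E _ _ _ _ _ _ _ _ (h8_3_10 E) (rowS_cons E _ _ _ _ _ _ _ _ (h8_3_11 E) (rowS_cons E _ _ _ _ _ _ _ _ (h8_3_12 E) (rowS_cons E _ _ _ _ _ _ _ _ (h8_3_13 E) (rowS_cons E _ _ _ _ _ _ _ _ (h8_3_14 E) (rowS_cons E _ _ _ _ _ _ _ _ (h8_3_15 E) (rowS_nil E _ _ _ _)))))))))))))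

theorem row8_4 (E : Env κ ι) : RowS E 1 5 (ek E keys) c8_4 [c8_4, c8_5, c8_6, c8_7, c8_8, c8_9, c8_10, c8_11, c8_12, c8_13, c8_14, c8_15] [r8_4_4, r8_4_5, r8_4_6, r8_4_7, r8_4_8, r8_4_9, r8_4_10, r8_4_11, r8_4_12, r8_4_13, r8_4_14, r8_4_15] :=
  rowS_cons E _ _ _ _ _ _ _ _ (h8_4_4 E) (rowS_cons E _ _ _ _ _ _ _ _ (h8_4_5 E) (rowS_cons E _ _ _ _ _ _ _ _ (h8_4_6 E) (rowS_cons E _ _ _ _ _ _ _ _ (h8_4_7 E) (rowS_cons E _ _ _ _ _ _ _ _ (h8_4_8 E) (rowS_cons E _ _ _ _ _ _ _ _ (h8_4_9 E) (rowS_cons E _ _ _ _ _ _ _ _ (h8_4_10 E) (rowS_cons E _ _ _ _ _ _ _ _ (h8_4_11 E) (rowS_cons E _ _ _ _ _ _ _ _ (h8_4_12 E) (rowS_cons E _ _ _ _ _ _ _ _ (h8_4_13 E) (rowS_cons E _ _ _ _ _ _ _ _ (h8_4_14 E) (rowS_cons E _ _ _ _ _ _ _ _ (h8_4_15 E) (rowS_nil E _ _ _ _))))))))))))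

theorem row8_5 (E : Env κ ι) : RowS E 1 5 (ek E keys) c8_5 [c8_5, c8_6, c8_7, c8_8, c8_9, c8_10, c8_11, c8_12, c8_13, c8_14, c8_15] [r8_5_5, r8_5_6, r8_5_7, r8_5_8, r8_5_9, r8_5_10, r8_5_11, r8_5_12, r8_5_13, r8_5_14, r8_5_15] :=
  rowS_cons E _ _ _ _ _ _ _ _ (h8_5_5 E) (rowS_cons E _ _ _ _ _ _ _ _ (h8_5_6 E) (rowS_cons E _ _ _ _ _ _ _ _ (h8_5_7 E) (rowS_cons E _ _ _ _ _ _ _ _ (h8_5_8 E) (rowS_cons E _ _ _ _ _ _ _ _ (h8_5_9 E) (rowS_cons E _ _ _ _ _ _ _ _ (h8_5_10 E) (rowS_cons E _ _ _ _ _ _ _ _ (h8_5_11 E) (rowS_cons E _ _ _ _ _ _ _ _ (h8_5_12 E) (rowS_cons E _ _ _ _ _ _ _ _ (h8_5_13 E) (rowS_cons E _ _ _ _ _ _ _ _ (h8_5_14 E) (rowS_cons E _ _ _ _ _ _ _ _ (h8_5_15 E) (rowS_nil E _ _ _ _)))))))))))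

theorem row8_6 (E : Env κ ι) : RowS E 1 5 (ek E keys) c8_6 [c8_6, c8_7, c8_8, c8_9, c8_10, c8_11, c8_12, c8_13, c8_14, c8_15] [r8_6_6, r8_6_7, r8_6_8, r8_6_9, r8_6_10, r8_6_11, r8_6_12, r8_6_13, r8_6_14, r8_6_15] :=
  rowS_cons E _ _ _ _ _ _ _ _ (h8_6_6 E) (rowS_cons E _ _ _ _ _ _ _ _ (h8_6_7 E) (rowS_cons E _ _ _ _ _ _ _ _ (h8_6_8 E) (rowS_cons E _ _ _ _ _ _ _ _ (h8_6_9 E) (rowS_cons E _ _ _ _ _ _ _ _ (h8_6_10 E) (rowS_cons E _ _ _ _ _ _ _ _ (h8_6_11 E) (rowS_cons E _ _ _ _ _ _ _ _ (h8_6_12 E) (rowS_cons E _ _ _ _ _ _ _ _ (h8_6_13 E) (rowS_cons E _ _ _ _ _ _ _ _ (h8_6_14 E) (rowS_cons E _ _ _ _ _ _ _ _ (h8_6_15 E) (rowS_nil E _ _ _ _))))))))))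

theorem row8_7 (E : Env κ ι) : RowS E 1 5 (ek E keys) c8_7 [c8_7, c8_8, c8_9, c8_10, c8_11, c8_12, c8_13, c8_14, c8_15] [r8_7_7, r8_7_8, r8_7_9, r8_7_10, r8_7_11, r8_7_12, r8_7_13, r8_7_14, r8_7_15] :=
  rowS_cons E _ _ _ _ _ _ _ _ (h8_7_7 E) (rowS_cons E _ _ _ _ _ _ _ _ (h8_7_8 E) (rowS_cons E _ _ _ _ _ _ _ _ (h8_7_9 E) (rowS_cons E _ _ _ _ _ _ _ _ (h8_7_10 E) (rowS_cons E _ _ _ _ _ _ _ _ (h8_7_11 E) (rowS_cons E _ _ _ _ _ _ _ _ (h8_7_12 E) (rowS_cons E _ _ _ _ _ _ _ _ (h8_7_13 E) (rowS_cons E _ _ _ _ _ _ _ _ (h8_7_14 E) (rowS_cons E _ _ _ _ _ _ _ _ (h8_7_15 E) (rowS_nil E _ _ _ _)))))))))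

theorem row8_8 (E : Env κ ι) : RowS E 1 5 (ek E keys) c8_8 [c8_8, c8_9, c8_10, c8_11, c8_12, c8_13, c8_14, c8_15] [r8_8_8, r8_8_9, r8_8_10, r8_8_11, r8_8_12, r8_8_13, r8_8_14, r8_8_15] :=
  rowS_cons E _ _ _ _ _ _ _ _ (h8_8_8 E) (rowS_cons E _ _ _ _ _ _ _ _ (h8_8_9 E) (rowS_cons E _ _ _ _ _ _ _ _ (h8_8_10 E) (rowS_cons E _ _ _ _ _ _ _ _ (h8_8_11 E) (rowS_cons E _ _ _ _ _ _ _ _ (h8_8_12 E) (rowS_cons E _ _ _ _ _ _ _ _ (h8_8_13 E) (rowS_cons E _ _ _ _ _ _ _ _ (h8_8_14 E) (rowS_cons E _ _ _ _ _ _ _ _ (h8_8_15 E) (rowS_nil E _ _ _ _))))))))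

theorem row8_9 (E : Env κ ι) : RowS E 1 5 (ek E keys) c8_9 [c8_9, c8_10, c8_11, c8_12, c8_13, c8_14, c8_15] [r8_9_9, r8_9_10, r8_9_11, r8_9_12, r8_9_13, r8_9_14, r8_9_15] :=
  rowS_cons E _ _ _ _ _ _ _ _ (h8_9_9 E) (rowS_cons E _ _ _ _ _ _ _ _ (h8_9_10 E) (rowS_cons E _ _ _ _ _ _ _ _ (h8_9_11 E) (rowS_cons E _ _ _ _ _ _ _ _ (h8_9_12 E) (rowS_cons E _ _ _ _ _ _ _ _ (h8_9_13 E) (rowS_cons E _ _ _ _ _ _ _ _ (h8_9_14 E) (rowS_cons E _ _ _ _ _ _ _ _ (h8_9_15 E) (rowS_nil E _ _ _ _)))))))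

theorem row8_10 (E : Env κ ι) : RowS E 1 5 (ek E keys) c8_10 [c8_10, c8_11, c8_12, c8_13, c8_14, c8_15] [r8_10_10, r8_10_11, r8_10_12, r8_10_13, r8_10_14, r8_10_15] :=
  rowS_cons E _ _ _ _ _ _ _ _ (h8_10_10 E) (rowS_cons E _ _ _ _ _ _ _ _ (h8_10_11 E) (rowS_cons E _ _ _ _ _ _ _ _ (h8_10_12 E) (rowS_cons E _ _ _ _ _ _ _ _ (h8_10_13 E) (rowS_cons E _ _ _ _ _ _ _ _ (h8_10_14 E) (rowS_cons E _ _ _ _ _ _ _ _ (h8_10_15 E) (rowS_nil E _ _ _ _))))))

theorem row8_11 (E : Env κ ι) : RowS E 1 5 (ek E keys) c8_11 [c8_11, c8_12, c8_13, c8_14, c8_15] [r8_11_11, r8_11_12, r8_11_13, r8_11_14, r8_11_15] :=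
  rowS_cons E _ _ _ _ _ _ _ _ (h8_11_11 E) (rowS_cons E _ _ _ _ _ _ _ _ (h8_11_12 E) (rowS_cons E _ _ _ _ _ _ _ _ (h8_11_13 E) (rowS_cons E _ _ _ _ _ _ _ _ (h8_11_14 E) (rowS_cons E _ _ _ _ _ _ _ _ (h8_11_15 E) (rowS_nil E _ _ _ _)))))

theorem row8_12 (E : Env κ ι) : RowS E 1 5 (ek E keys) c8_12 [c8_12, c8_13, c8_14, c8_15] [r8_12_12, r8_12_13, r8_12_14, r8_12_15] :=
  rowS_cons E _ _ _ _ _ _ _ _ (h8_12_12 E) (rowS_cons E _ _ _ _ _ _ _ _ (h8_12_13 E) (rowS_cons E _ _ _ _ _ _ _ _ (h8_12_14 E) (rowS_cons E _ _ _ _ _ _ _ _ (h8_12_15 E) (rowS_nil E _ _ _ _))))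

theorem row8_13 (E : Env κ ι) : RowS E 1 5 (ek E keys) c8_13 [c8_13, c8_14, c8_15] [r8_13_13, r8_13_14, r8_13_15] :=
  rowS_cons E _ _ _ _ _ _ _ _ (h8_13_13 E) (rowS_cons E _ _ _ _ _ _ _ _ (h8_13_14 E) (rowS_cons E _ _ _ _ _ _ _ _ (h8_13_15 E) (rowS_nil E _ _ _ _)))

theorem row8_14 (E : Env κ ι) : RowS E 1 5 (ek E keys) c8_14 [c8_14, c8_15] [r8_14_14, r8_14_15] :=
  rowS_cons E _ _ _ _ _ _ _ _ (h8_14_14 E) (rowS_cons E _ _ _ _ _ _ _ _ (h8_14_15 E) (rowS_nil E _ _ _ _))

theorem row8_15 (E : Env κ ι) : RowS E 1 5 (ek E keys) c8_15 [c8_15] [r8_15_15] :=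
  rowS_cons E _ _ _ _ _ _ _ _ (h8_15_15 E) (rowS_nil E _ _ _ _)

def tab8 : List (List (List (ℕ × ℤ))) := [[r8_0_0, r8_0_1, r8_0_2, r8_0_3, r8_0_4, r8_0_5, r8_0_6, r8_0_7, r8_0_8, r8_0_9, r8_0_10, r8_0_11, r8_0_12, r8_0_13, r8_0_14, r8_0_15], [r8_1_1, r8_1_2, r8_1_3, r8_1_4, r8_1_5, r8_1_6, r8_1_7, r8_1_8, r8_1_9, r8_1_10, r8_1_11, r8_1_12, r8_1_13, r8_1_14, r8_1_15], [r8_2_2, r8_2_3, r8_2_4, r8_2_5, r8_2_6, r8_2_7, r8_2_8, r8_2_9, r8_2_10, r8_2_11, r8_2_12, r8_2_13, r8_2_14, r8_2_15], [r8_3_3, r8_3_4, r8_3_5, r8_3_6, r8_3_7, r8_3_8, r8_3_9, r8_3_10, r8_3_11, r8_3_12, r8_3_13, r8_3_14, r8_3_15], [r8_4_4, r8_4_5, r8_4_6, r8_4_7, r8_4_8, r8_4_9, r8_4_10, r8_4_11, r8_4_12, r8_4_13, r8_4_14, r8_4_15], [r8_5_5, r8_5_6, r8_5_7, r8_5_8, r8_5_9, r8_5_10, r8_5_11, r8_5_12, r8_5_13, r8_5_14, r8_5_15], [r8_6_6, r8_6_7, r8_6_8, r8_6_9, r8_6_10, r8_6_11, r8_6_12, r8_6_13, r8_6_14, r8_6_15], [r8_7_7, r8_7_8, r8_7_9, r8_7_10, r8_7_11, r8_7_12, r8_7_13, r8_7_14,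 r8_7_15], [r8_8_8, r8_8_9, r8_8_10, r8_8_11, r8_8_12, r8_8_13, r8_8_14, r8_8_15], [r8_9_9, r8_9_10, r8_9_11, r8_9_12, r8_9_13, r8_9_14, r8_9_15], [r8_10_10, r8_10_11, r8_10_12, r8_10_13, r8_10_14, r8_10_15], [r8_11_11, r8_11_12, r8_11_13, r8_11_14, r8_11_15], [r8_12_12, r8_12_13, r8_12_14, r8_12_15], [r8_13_13, r8_13_14, r8_13_15], [r8_14_14, r8_14_15], [r8_15_15]]

theorem tri8 (E : Env κ ι) : TriS E 1 5 (ek E keys) [c8_0, c8_1, c8_2, c8_3, c8_4, c8_5, c8_6, c8_7, c8_8, c8_9, c8_10, c8_11, c8_12, c8_13, c8_14, c8_15] tab8 := by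
  refine triS_cons E _ _ _ _ _ _ _ (row8_0 E) ?_
  refine triS_cons E _ _ _ _ _ _ _ (row8_1 E) ?_
  refine triS_cons E _ _ _ _ _ _ _ (row8_2 E) ?_
  refine triS_cons E _ _ _ _ _ _ _ (row8_3 E) ?_
  refine triS_cons E _ _ _ _ _ _ _ (row8_4 E) ?_
  refine triS_cons E _ _ _ _ _ _ _ (row8_5 E) ?_
  refine triS_cons E _ _ _ _ _ _ _ (row8_6 E) ?_
  refine triS_cons E _ _ _ _ _ _ _ (row8_7 E) ?_
  refine triS_cons E _ _ _ _ _ _ _ (row8_8 E) ?_
  refine triS_cons E _ _ _ _ _ _ _ (row8_9 E) ?_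
  refine triS_cons E _ _ _ _ _ _ _ (row8_10 E) ?_
  refine triS_cons E _ _ _ _ _ _ _ (row8_11 E) ?_
  refine triS_cons E _ _ _ _ _ _ _ (row8_12 E) ?_
  refine triS_cons E _ _ _ _ _ _ _ (row8_13 E) ?_
  refine triS_cons E _ _ _ _ _ _ _ (row8_14 E) ?_
  refine triS_cons E _ _ _ _ _ _ _ (row8_15 E) ?_
  exact triS_nil E _ _ _

def rows8 : List (ℕ × List ℤ) := [(1917251033040000, [4194304, -3210988, 1853110, -1346217, -2949891, -4200758, -3819261, -495684, 161769, 498898, -3157822, 3674674, -1687116, 1067602, -1438734, -870547]),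
  (159126735600000, [0, 8388608, -7191356, -6847246, 41236, 4034876, 1538686, -1440745, 5360750, -260639, -1324380, -37134, 7718896, -5329768, -5568378, -2441958]),
  (6521914143360000, [0, 0, 4194304, -483721, 274334, 1197604, 169446, -60431, -624792, -510956, 2739290, -1948432, 918998, -168440, -1044422, -297940]),
  (2046035602800000, [0, 0, 0, 4194304, 2299702, -1347728, -2089486, -361440, 1070229, -297666, -475980, -6555298, -1610238, 3550566, 220248, -1262672]),
  (9102572640000, [0, 0, 0, 0, 4194304, -4215728, -25703281, 6251786, -5248368, 7141209, 13705590, -19053186, 10639580, 17034938, -4741250, -6324128]),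
  (313482960000, [0, 0, 0, 0, 0, 8388608, 23987448, -5661729, 5275938, -6919117, -9579916, 12421376, -7514778, -15362502, 3426190, 5065244]),
  (6870860640000, [0, 0, 0, 0, 0, 0, 4194304, -1155139, 1139182, -1253081, -2464908, 2486604, -1878138, -2542726, 659948, 836864]),
  (394632000000, [0, 0, 0, 0, 0, 0, 0, 4194304, -2792117, 1155503, 2508754, 1842526, 464476, 708688, 1797022, 1287337]),
  (548130240000, [0, 0, 0, 0, 0, 0, 0, 0, 4194304, -807167, -1746276, -2082542, 105530, -360176, -1671808, -1245422]),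
  (1101522240000, [0, 0, 0, 0, 0, 0, 0, 0, 0, 2097152, 311438, 264667, 224808, 188826, 152294, 96454]),
  (674049600000, [0, 0, 0, 0, 0, 0, 0, 0, 0, 0, 4194304, -1407604, 1213639, 366000, -277032, -137552]),
  (946209600000, [0, 0, 0, 0, 0, 0, 0, 0, 0, 0, 0, 4194304, -485292, -827732, 701669, 767053]),
  (566274240000, [0, 0, 0, 0, 0, 0, 0, 0, 0, 0, 0, 0, 4194304, -312902, -772724, -325477]),
  (387192960000, [0, 0, 0, 0, 0, 0, 0, 0, 0, 0, 0, 0, 0, 4194304, 368423, -55085]),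
  (100381680000, [0, 0, 0, 0, 0, 0, 0, 0, 0, 0, 0, 0, 0, 0, 8388608, 1277469]),
  (4791879261643132108800000, [0, 0, 0, 0, 0, 0, 0, 0, 0, 0, 0, 0, 0, 0, 0, 1]),
  (3907352842687546996500, [1, 0, 0, 0, 0, -2, 0, 0, 0, 0, 0, 0, 0, 0, 0, 0]),
  (555651677787967947600, [1, 0, 0, 0, 0, 0, 0, 0, 0, 0, 0, 2, 0, 0, 0, 0]),
  (3344325402740160795000, [1, 0, 1, 0, 0, 0, 0, 0, 0, 0, 0, 0, 0, 0, 0, 0]),
  (56306461967127702894375, [0, 0, 0, 0, 0, 0, 0, 0, 0, 0, 0, 0, 1, 0, -1, 0]),
  (9281452434062109840000, [0, 0, 0, 1, 0, 0, 0, 0, 0, 0, 0, -2, 0, 0, 0, 0]),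
  (9390622966914180915000, [0, 0, 0, 0, 0, 0, 0, 0, 0, 0, 1, 0, -1, 0, 0, 0]),
  (261475949441035313263125, [0, 0, 0, 0, 0, 0, 0, 0, 0, 0, 1, 0, 0, -1, 0, 0]),
  (44697893063360387445000, [0, 0, 0, 0, 0, 0, 0, 0, 0, 0, 0, 1, 1, 0, 0, 0]),
  (4231631792134096662180900, [1, 0, 0, 0, 0, 0, 0, 0, 0, 0, 0, 0, 0, 0, 0, 0]),
  (6359164917316897996800000, [0, 1, 0, 0, 0, 0, 0, 0, 0, 0, 0, 0, 0, 0, 0, 0]),
  (4236094796654572177125000, [0, 0, 1, 0, 0, 0, 0, 0, 0, 0, 0, 0, 0, 0, 0, 0]),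
  (4230157669623250228080000, [0, 0, 0, 1, 0, 0, 0, 0, 0, 0, 0, 0, 0, 0, 0, 0]),
  (4239439122057312337920000, [0, 0, 0, 0, 1, 0, 0, 0, 0, 0, 0, 0, 0, 0, 0, 0]),
  (5435083374900876666414000, [0, 0, 0, 0, 0, 1, 0, 0, 0, 0, 0, 0, 0, 0, 0, 0]),
  (4239439122057312337920000, [0, 0, 0, 0, 0, 0, 1, 0, 0, 0, 0, 0, 0, 0, 0, 0]),
  (4239439122057312337920000, [0, 0, 0, 0, 0, 0, 0, 1, 0, 0, 0, 0, 0, 0, 0, 0]),
  (4239439122057312337920000, [0, 0, 0, 0, 0, 0, 0, 0, 1, 0, 0, 0, 0, 0, 0, 0]),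
  (4239439122057312337920000, [0, 0, 0, 0, 0, 0, 0, 0, 0, 1, 0, 0, 0, 0, 0, 0]),
  (6088298344908948502621875, [0, 0, 0, 0, 0, 0, 0, 0, 0, 0, 1, 0, 0, 0, 0, 0]),
  (5003285624342757698844600, [0, 0, 0, 0, 0, 0, 0, 0, 0, 0, 0, 1, 0, 0, 0, 0]),
  (6826857704949237027305625, [0, 0, 0, 0, 0, 0, 0, 0, 0, 0, 0, 0, 1, 0, 0, 0]),
  (4825855984412483084176875, [0, 0, 0, 0, 0, 0, 0, 0, 0, 0, 0, 0, 0, 1, 0, 0]),
  (5031025471886390694545625, [0, 0, 0, 0, 0, 0, 0, 0, 0, 0, 0, 0, 0, 0, 1, 0]),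
  (4239439122057312337920000, [0, 0, 0, 0, 0, 0, 0, 0, 0, 0, 0, 0, 0, 0, 0, 1])]

def M8 : List (List ℤ) := [[33732876306210504635842560000, -51642536276139545104220160000, 29803699632591098134196790000, -21651298683786968369725440000, -47443295639272883874693120000, -67561089480289481541294546000, -61425431904617829519851520000, -7972119158184943162490880000, 2601741722751632230318080000, 8023810136659952255631360000, -50787463917209136440279040000, 59100031667745343487559470400, -27134000261618992278405120000, 17170314873017006177648640000, -23139255826155486188666880000, -14001066035620330120151040000],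
  [30971617001853583445832960000, -42015280328681947836192000000, -1704766572878921908513920000, 36430739185842269727258240000, 62493924451479964458865920000, 51132639867691173228743040000, 2256767002795642805583360000, 12319826348926488740826240000, -6838530521255701165336320000, 35345107994298544388378880000, -45343707827523981486831360000, 41379847988788795043658240000, -27373793351599799235290880000, 2848551223532283664738560000, 4199340764837941910974080000],
  [129552173212495656488201280000, -20359043093007935781554880000, -6046822794816825131638080000, 26436583439953819146241920000, -21389926679174783745731520000, -3530979776204876630436480000, -45301752047776353166013760000, -23812726715532078190030080000, 130458323815680798939657600000, -80401970772504713352908160000, 20623911332527285126122240000, 10568903274621587755440000000, -54619187105863225756632960000, -16897279326186214678363200000],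
  [48459771147991655537018640000, 52877442678680535434477280000, -17795977690698976877640000000, -20569539367837071986744160000, -123872032975995299903040000, 9793935391142951073496800000, -3892416611309189152076160000, -6266242932495888364706880000, -119105412497259156707074560000, -41547323252816449580534400000, 68105913748346829626470080000, 29931293840744234732431680000, -9976615487396564239608480000],
  [28159845812162577750681360000, 38849957524699447239086400000, 22201731203554926171721440000, 2447736086670378583080960000, 5675472730461109949624160000, -9730935578792146402434240000, 42071371294058811451172160000, -111682045357776532946260800000, 8132591519156713256766720000, 21964792069099832310590400000, 14174263983328966876080960000, -3616440094651966824866400000],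
  [49682869574152638508614720000, 79765117246370971061115840000, 6674045605683922376668800000, -10953785919872101596131520000, -15295500299650774818343680000, 93479111395111462197985920000, -51995691688508197529800320000, 59468042836032322850668800000, -47641581605257716991259520000, -1123605618175960369027200000, 13708275723212233732914240000],
  [43782544745938453189397040000, 6433478754977120107262400000, -7674836257240753540716000000, -9536045012743410483174720000, 49022452696004192921221440000, 7155530032724803462340160000, 39087020392257770659238400000, -57324512346628988900255040000, 16459965015380087886095040000, 24774737975503417060477920000],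
  [1478660752783240279011360000, -4499308509923039039256960000, 875325246525290898812160000, 6795412007353678187700480000, 2017963659183865883622720000, 2593587154705856306746560000, -2667959245245976667536320000, 5229027401186910929852160000, 4129952223556317903393600000],
  [9797871111222499380432000000, 1994226792787732298785920000, -30020536213997070898497600000, -8726606515861997716477440000, -3490372269098785769832000000, 6770029603889376842814720000, -453233891679150859462080000, -7182324554916637212922080000],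
  [2871983877221170298926080000, -21737147480961831049340160000, 25434593566710950479959360000, -6581821462084658287834560000, 1609155249069739846749120000, 3763368022696783458975360000, 1205079469321607622167040000],
  [70602570908307113109497280000, -106243806854244311068279680000, 55919377855659939531416730000, -19182310480392839371486046250, -19199515823014781103857280000, 1751651421229686156264000000],
  [141993279109926392407620480000, -7844434548107167165751190000, -81976713655028326438026240000, 2135587863463737397505280000, 31478171116092850901545920000],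
  [26842019712359382566159040000, -41976286825955460914073600000, -19298437205504337401979228750, 3108967585305045559966080000],
  [35456757664181259254264640000, 7525654093047103611413760000, -19152026776883568893008320000],
  [16343293424787322441015680000, 12623062803544501560544320000],
  [6631155940736600657455680000]]

def u8 : List ℤ := [0, 0, 0, 1337848288391603578047897600000, 1025614864051911874122117120000, 0, -31484387635508279038810521600000, 0, 5189947721389930860706222080000, 0, 0, 0, 0, -21580260804601687484902932480000, 0, 0, 5469215001618720593783644876800, 0, -2993927966904865858529034240000, 0, 0, -12696645085874510122535525683200, 0, -9516174464969681302162378800000, 0, 9904126830906591553907589120000, 17383197199164483070485319680000, 7487333811621450153132146640000, 0, -987390933440260478508933120000, -9904126830906591553907589120000, 0, 0, 0, 0, 0, -23010778915544664531179827200000, 17026003784603745697183084800000, 0,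 0, 0, 0, 0, 0, 0, -2551215554111898087014522880000, -12408154346001383474629017600000, 1375785110118977952116244480000, -1140182794203648645099847680000, 0, 0, 3756700461534760875428536320000, 3614182141077026154954178560000, -928695028938234934773841920000, -426932881343507060142243840000, 648734280934335341381959680000, 0, -9315352251632717148290826240000, -3707159654523289497448366080000, 0, 0, 0, 0, 46772509888420883213085573120000, 21772404519743094309741035520000, 0, 0, -3069413572142859230930780160000, 0, -908086347883812698196664320000, 0, -3088301120260214362845143040000, 4546968511791165973980364800000, 71865530757919917644072509440000, -4495521497945607608887296000000, 13217152766858734246869012480000, -15070349731396742329747415040000, 3201073082461208815520808960000, -33192877211189250526019874816000, -31745803006559605235330580480000, 0, -44455144464295070032330997760000, -14723041720289289701779906560000, 28802835439436008838218383360000,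 -28691764118350972315635949200000, -21063287773707526593843216480000, 20023412231773620740287365120000, 37388079019346142595388673024000, 8889848988918617041598545920000, 25190530314606366116778987840000, 0, 0, 0, 0, 0, 0, 0, -8042286752339464327271546880000, 0, 0, 0, 0, 0, -10474373086704822801893970240000, 6916180123856327854253482080000, -23491697284400622790558207680000, 0, 2930346790342350851788898400000, -2194893125642440217458114560000, -6384922866828455971741282080000, 8907727891701539722346864640000, -3905742749189024572978544640000, 2816896805975361148338237120000, 0, 13133622453711816942821376000000, 0, -15523542000126646451417481120000, -9330851240655957233428173120000, 2065112158584774198448029600000, 4868694109668083410532597760000, -1036212013359337180303687680000, 19522069965903276960648949440000, 0, 18859687839870277460711202720000, -2752063412807496222014791680000, 0, 0, 6482262568195548309288960000000, -6078562180556775838529126400000,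 -542631065484219533629194240000, 0, 7036364445018599086245662400000, 0, 0, 9207081263540174659108208640000, 2892668962920179781461114880000, 4553507211559029404804874240000, -2014240032074205478452510720000, 7602147146026209597538959360000, 24518246647186057716127437120000, -39871452080395888631252189280000, 13114978404254344234180337760000, 0, -574292496197136608461946880000, 0, 1815379442220455969214873600000, -13940580968049002228648386560000, 0, 0, 0, -8889848988918617041598545920000, 0, 0, 0, 0, 0, 0, 0, 0, 4195201808156892069368798208000, 0, 0, 0, 0, 26308127202542106663598777036800, 0, -13611482116667596541063251353600, 0, 0, 0, 0, 0, 4594725923527948466486108160000, 0, 0, -811938132315520567433072640000, -4466498529984961681473454080000, -9001258949518016635896422400000, 0, 0, -282986796034978444624158720000, -1984582615036367083264450560000, -5991642636469735808773324800000, 2599281680269484383480258560000, 0, 0, 0, 0, -16323097761406343825327586960000,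 0, 0, 0, 25419171284469965025607323600000, 0, 0, 3475491613997764203794165760000, 0, 0, -877840687564567771322396160000, 0, 8614305595219160795452804800000, -1330850643600142570362327360000, 0, 1537322646490633438470881280000, 2024316339811758871252254720000, 42960420278433422622426562560000, -26186976422202674397630689280000, -14678809641659729509726003200000, -15842545573022599243907727360000, 18095122787785167059044945920000, -118982648998807917342581882880000, 24190552370559299736845352960000, 63713140572188542969283420160000, 33214147012045574182844006400000, 22210247587872169548973877760000, -94695454815828533097314284800000, 15056124479756533733832437760000, -58716375301051903096962531840000, 735079563452755192117985280000, -5496619838236169689009152000000, -119431768294417284315832320000, -5112690490033136668983951360000, -142785640368742072281108480000, -2381381326217899062870220800000, -7007691098009548604234465280000, 0, 10427642253080221917401579520000,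 1955578053468076284651586560000, 11314672666773408839757312000000, 6307751090650362235303034880000, -2155414721295007754319790080000, -4312665738057231391431168000000, 16243831351454121464209735680000, 1486107732796285969733529600000, -10295079693381683103148277760000, -6246048277287685930372485120000, 5685759147408608049533337600000, 5598176881633966957485957120000, -282085304708001878784368640000, -8092894602595484072373534720000, 41654556389267254942064640000, 0, -325176462276191614874419200000, -18322795270751230494240768000000, -641115990204511652712161280000, -4568024839022367568714874880000, 18598940285831764018730680320000, 132607456745635615002255360000, 0, 446503703653138129559930880000, -1172931460725774940096757760000, 3091067760344623412045414400000, 589152011362929209118228480000, 835154031158002011657277440000, 0, 14895112894241748036441108480000, 10617446797508766582851420160000, 1806943210548900479349719040000, -2227530050562258215903969280000,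 -31929740894317064787559710720000, 7928733952474517362133237760000, 1754366428458404961965936640000, 312233424339691703925780480000, -39661467860075170640041082880000, -580773982966584555194081280000, -6142436849220439840558940160000, 19430136752377250670245314560000, 0, 0, 0, -3051369088875816428513525760000, 6142436849220439840558940160000, 0, 0, 0, -39698671468806983531888640000, 0, 0, 0, 0, 0, 0, 36105069555193517064748154880000, 0, 0, 0, 5879426425589258007537254400000, 13141627539906500735558492160000, 871691203675625086121598720000, 44520882786271008673428176640000, -10319241316545642686547847680000, 33584898458729502245678768640000, 0, -72874541415592400114508272640000, 14732492886522490977014906880000, 36994499677623324392109711360000, -23490366959991417414638088960000, 29368980135631005008884899840000, -9734394823063399893969457200000, 0, 19526123296704835303591714560000, 29712609075258131542368952320000, 0, 1370082829779018381247119360000,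 -45615796281672753567980828160000, 0, 0, 0, 0, 1343781423093137814733086720000, -16243831351454121464209735680000, 7943418875785701530776780800000, 7007691098009548604234465280000, 1172931460725774940096757760000, 3508436459322140610059550720000, -862655898775383835823554560000, 0, 0, 0, -10102465790804030302527160320000, -5863442460948567141400535040000, 4545359247280485955788472320000, -51252400584748286664007680000, 0, 0, 18560616618118291333581404160000, 0, -35875651142578700319163637760000, 0, -7928733952474517362133237760000, 0, -13333056009863517137372037120000, -1635724339087151392158965760000, 39661467860075170640041082880000, 0, 9796250324111494666801351680000, 719856839720198892525649920000, 891344584738465448487966720000, -34881514366291556415213404160000, 2759159569396838827032576000000, 4833413939255506566914211840000, -7445327743905170997695569920000, -128268182652374553840414720000, -2824162261697498699368581120000, -1854227443107887709867048960000,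 24586434672909873312065126400000, 7668482683683383090369003520000, -13939461756288320744131153920000, 3903410867997523055216762880000, -1286440015673075635213148160000, 1435557881574808861794140160000, 0, -1337848288391603578047897600000, 0, -38860273504754501340490629120000, 0, 0, 0, 0, 0, 45176594059673239518361681920000, -3084336031673030441906995200000, -52651936314010141220622827520000, 7241512772728132661310750720000, -4557268924174973042424299520000, 8396588334860854730916249600000, 322306223605864912785530880000, 19430136752377250670245314560000, -37388079019346142595388673024000, 28997675403032358456651076608000, 53064648440109966523713454080000, 7227430084255789528751880806400, 19080697118286317134846896230400, -31777342204160827257382421913600, -1338465799812762581069329920000, -36289011958277239406122536960000, -5733746971563401820641848320000, 6573923330300891867813011200000, 12230564443959712701037582080000]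

theorem gr8 : eqM (gramT rows8) M8 = true := by
  decide +kernel

theorem mv8 : eqZ (mval M8 tab8) u8 = true := by
  decide +kernel

theorem nn8 (E : Env κ ι) : 0 ≤ dot (ek E keys) u8 0 :=
  block_nonneg E _ _ _ _ _ (tri8 E) rows8 M8 gr8 u8 mv8

end

end YMA
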