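import Pool.Agent.YM.YMA.T9_0
import Pool.Agent.YM.YMA.T9_1
import Pool.Agent.YM.YMA.T9_2

set_option linter.unusedVariables false
set_option maxRecDepth 100000

open YMEng

namespace YMA

section

variable {κ ι : Type*} [Fintype κ] [Fintype ι] [Inhabited κ] [Inhabited ι]

def r9_0_0 : List (ℕ × ℤ) := [(63, -48), (203, -48), (205, 96), (210, 48), (213, -48), (282, 48), (286, -48), (362, 0)]

theorem h9_0_0 (E : Env κ ι) : inn E 1 5 c9_0 c9_0 = dotS (ek E keys) r9_0_0 :=
  innS_eqZ E _ _ _ _ _ _ _ (chkF_sound E keys 1 5 _ _ _ _ t9_0_0_0) (by decide +kernel)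

def r9_0_1 : List (ℕ × ℤ) := [(204, 24), (205, -24), (206, -24), (207, 24), (208, -24), (211, 24), (214, 24), (215, -24), (303, 0)]

theorem h9_0_1 (E : Env κ ι) : inn E 1 5 c9_0 c9_1 = dotS (ek E keys) r9_0_1 :=
  innS_eqZ E _ _ _ _ _ _ _ (chkF_sound E keys 1 5 _ _ _ _ t9_0_1_0) (by decide +kernel)

def r9_0_2 : List (ℕ × ℤ) := [(72, -48), (73, 48), (79, 48), (81, -48), (84, -48), (128, -48), (131, 48), (172, 48)]

theorem h9_0_2 (E : Env κ ι) : inn E 1 5 c9_0 c9_2 = dotS (ek E keys) r9_0_2 :=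
  innS_eqZ E _ _ _ _ _ _ _ (chkF_sound E keys 1 5 _ _ _ _ t9_0_2_0) (by decide +kernel)

def r9_0_3 : List (ℕ × ℤ) := [(45, -48), (46, 48), (47, -48), (53, 48), (74, -48), (77, 48), (108, -48), (180, 48)]

theorem h9_0_3 (E : Env κ ι) : inn E 1 5 c9_0 c9_3 = dotS (ek E keys) r9_0_3 :=
  innS_eqZ E _ _ _ _ _ _ _ (chkF_sound E keys 1 5 _ _ _ _ t9_0_3_0) (by decide +kernel)

def r9_0_4 : List (ℕ × ℤ) := [(36, 48), (203, 48), (205, -48), (207, -48), (211, -96), (212, 96), (215, 48), (290, 48), (293, 48), (294, -96), (300, -96), (363, 96), (374, -48)]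

theorem h9_0_4 (E : Env κ ι) : inn E 1 5 c9_0 c9_4 = dotS (ek E keys) r9_0_4 :=
  innS_eqZ E _ _ _ _ _ _ _ (chkF_sound E keys 1 5 _ _ _ _ t9_0_4_0) (by decide +kernel)

def r9_0_5 : List (ℕ × ℤ) := [(36, 48), (203, 48), (205, -96), (211, 144), (212, -96), (290, -96), (293, 48), (294, 48), (300, 96), (363, -96), (374, -48)]

theorem h9_0_5 (E : Env κ ι) : inn E 1 5 c9_0 c9_5 = dotS (ek E keys) r9_0_5 :=
  innS_eqZ E _ _ _ _ _ _ _ (chkF_sound E keys 1 5 _ _ _ _ t9_0_5_0) (by decide +kernel)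

def r9_0_6 : List (ℕ × ℤ) := [(205, -48), (207, 48), (212, 48), (215, -48), (290, 96), (294, -96), (300, -48), (363, 48)]

theorem h9_0_6 (E : Env κ ι) : inn E 1 5 c9_0 c9_6 = dotS (ek E keys) r9_0_6 :=
  innS_eqZ E _ _ _ _ _ _ _ (chkF_sound E keys 1 5 _ _ _ _ t9_0_6_0) (by decide +kernel)

def r9_0_7 : List (ℕ × ℤ) := [(18, 48), (71, 48), (73, -96), (81, 144), (82, -48), (97, -48), (107, -96), (112, 48), (114, 48), (123, 96), (145, -96), (188, -48)]

theorem h9_0_7 (E : Env κ ι) : inn E 1 5 c9_0 c9_7 = dotS (ek E keys) r9_0_7 :=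
  innS_eqZ E _ _ _ _ _ _ _ (chkF_sound E keys 1 5 _ _ _ _ t9_0_7_0) (by decide +kernel)

def r9_0_8 : List (ℕ × ℤ) := [(26, 48), (71, 48), (73, -48), (76, -48), (81, -96), (82, 96), (85, 48), (107, 48), (112, 48), (114, -96), (123, -96), (145, 96), (188, -48)]

theorem h9_0_8 (E : Env κ ι) : inn E 1 5 c9_0 c9_8 = dotS (ek E keys) r9_0_8 :=
  innS_eqZ E _ _ _ _ _ _ _ (chkF_sound E keys 1 5 _ _ _ _ t9_0_8_0) (by decide +kernel)

def r9_0_9 : List (ℕ × ℤ) := [(18, -48), (26, 48), (73, 48), (76, -48), (82, -96), (85, 48), (97, 48), (107, -96), (114, 96), (123, 48), (145, -48)]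

theorem h9_0_9 (E : Env κ ι) : inn E 1 5 c9_0 c9_9 = dotS (ek E keys) r9_0_9 :=
  innS_eqZ E _ _ _ _ _ _ _ (chkF_sound E keys 1 5 _ _ _ _ t9_0_9_0) (by decide +kernel)

def r9_1_1 : List (ℕ × ℤ) := [(37, 24), (64, -12), (209, 12), (214, -12), (215, 24), (216, -12), (217, -12), (290, -12), (293, 0)]

theorem h9_1_1 (E : Env κ ι) : inn E 1 5 c9_1 c9_1 = dotS (ek E keys) r9_1_1 :=
  innS_eqZ E _ _ _ _ _ _ _ (chkF_sound E keys 1 5 _ _ _ _ t9_1_1_0) (by decide +kernel)

def r9_1_2 : List (ℕ × ℤ) := [(8, -24), (23, -24), (29, 24), (84, 24), (85, -24), (107, 24), (110, -24), (131, -24), (141, 24), (175, 24)]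

theorem h9_1_2 (E : Env κ ι) : inn E 1 5 c9_1 c9_2 = dotS (ek E keys) r9_1_2 :=
  innS_eqZ E _ _ _ _ _ _ _ (chkF_sound E keys 1 5 _ _ _ _ t9_1_2_0) (by decide +kernel)

def r9_1_3 : List (ℕ × ℤ) := [(45, 24), (48, -24), (51, -24), (52, 24), (67, 24), (69, -24), (111, -24), (181, 24)]

theorem h9_1_3 (E : Env κ ι) : inn E 1 5 c9_1 c9_3 = dotS (ek E keys) r9_1_3 :=
  innS_eqZ E _ _ _ _ _ _ _ (chkF_sound E keys 1 5 _ _ _ _ t9_1_3_0) (by decide +kernel)

def r9_1_4 : List (ℕ × ℤ) := [(37, -24), (206, 24), (207, -24), (217, 24), (287, 24), (289, 48), (291, -48), (294, -48), (295, 24), (297, 48), (301, -48), (304, 24), (375, -24)]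

theorem h9_1_4 (E : Env κ ι) : inn E 1 5 c9_1 c9_4 = dotS (ek E keys) r9_1_4 :=
  innS_eqZ E _ _ _ _ _ _ _ (chkF_sound E keys 1 5 _ _ _ _ t9_1_4_0) (by decide +kernel)

def r9_1_5 : List (ℕ × ℤ) := [(36, -24), (206, 24), (207, -24), (212, 24), (287, -48), (289, -48), (291, 24), (294, 48), (295, 24), (297, -48), (301, 48), (304, 24), (375, -24)]

theorem h9_1_5 (E : Env κ ι) : inn E 1 5 c9_1 c9_5 = dotS (ek E keys) r9_1_5 :=
  innS_eqZ E _ _ _ _ _ _ _ (chkF_sound E keys 1 5 _ _ _ _ t9_1_5_0) (by decide +kernel)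

def r9_1_6 : List (ℕ × ℤ) := [(36, -24), (37, 24), (212, 24), (217, -24), (287, 48), (289, 24), (291, -48), (294, -24), (297, 24), (301, -24), (304, 0)]

theorem h9_1_6 (E : Env κ ι) : inn E 1 5 c9_1 c9_6 = dotS (ek E keys) r9_1_6 :=
  innS_eqZ E _ _ _ _ _ _ _ (chkF_sound E keys 1 5 _ _ _ _ t9_1_6_0) (by decide +kernel)

def r9_1_7 : List (ℕ × ℤ) := [(26, -24), (75, 24), (76, -24), (82, 24), (103, -48), (105, -48), (114, 48), (116, 24), (117, 24), (124, 48), (146, -48), (192, 24), (195, -24)]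

theorem h9_1_7 (E : Env κ ι) : inn E 1 5 c9_1 c9_7 = dotS (ek E keys) r9_1_7 :=
  innS_eqZ E _ _ _ _ _ _ _ (chkF_sound E keys 1 5 _ _ _ _ t9_1_7_0) (by decide +kernel)

def r9_1_8 : List (ℕ × ℤ) := [(27, -24), (75, 24), (76, -24), (89, 24), (103, 24), (105, 48), (114, -48), (116, 24), (117, -48), (124, -48), (146, 48), (192, 24), (195, -24)]

theorem h9_1_8 (E : Env κ ι) : inn E 1 5 c9_1 c9_8 = dotS (ek E keys) r9_1_8 :=
  innS_eqZ E _ _ _ _ _ _ _ (chkF_sound E keys 1 5 _ _ _ _ t9_1_8_0) (by decide +kernel)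

def r9_1_9 : List (ℕ × ℤ) := [(26, 24), (27, -24), (82, -24), (89, 24), (103, -48), (105, -24), (114, 24), (117, 48), (124, 24), (146, -24), (192, 0)]

theorem h9_1_9 (E : Env κ ι) : inn E 1 5 c9_1 c9_9 = dotS (ek E keys) r9_1_9 :=
  innS_eqZ E _ _ _ _ _ _ _ (chkF_sound E keys 1 5 _ _ _ _ t9_1_9_0) (by decide +kernel)

def r9_2_2 : List (ℕ × ℤ) := [(227, -48), (228, 96), (235, -48), (255, -48), (325, -48), (327, 96), (335, 48), (343, -48), (347, 0)]

theorem h9_2_2 (E : Env κ ι) : inn E 1 5 c9_2 c9_2 = dotS (ek E keys) r9_2_2 :=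
  innS_eqZ E _ _ _ _ _ _ _ (chkF_sound E keys 1 5 _ _ _ _ t9_2_2_0) (by decide +kernel)

def r9_2_3 : List (ℕ × ℤ) := [(230, -48), (231, 48), (233, 48), (237, -48), (261, -48), (332, 48), (336, 48), (344, -48), (350, 0)]

theorem h9_2_3 (E : Env κ ι) : inn E 1 5 c9_2 c9_3 = dotS (ek E keys) r9_2_3 :=
  innS_eqZ E _ _ _ _ _ _ _ (chkF_sound E keys 1 5 _ _ _ _ t9_2_3_0) (by decide +kernel)

def r9_2_4 : List (ℕ × ℤ) := [(23, 48), (119, -96), (121, 96), (127, 96), (128, 48), (136, -48), (137, -96), (139, -48), (140, -48), (141, -48), (172, -48), (176, 96), (177, 48)]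

theorem h9_2_4 (E : Env κ ι) : inn E 1 5 c9_2 c9_4 = dotS (ek E keys) r9_2_4 :=
  innS_eqZ E _ _ _ _ _ _ _ (chkF_sound E keys 1 5 _ _ _ _ t9_2_4_0) (by decide +kernel)

def r9_2_5 : List (ℕ × ℤ) := [(18, 48), (97, -48), (119, 96), (121, -48), (127, -96), (128, 48), (136, -48), (137, 96), (139, 96), (140, -48), (172, -48), (176, -96), (177, 48)]

theorem h9_2_5 (E : Env κ ι) : inn E 1 5 c9_2 c9_5 = dotS (ek E keys) r9_2_5 :=
  innS_eqZ E _ _ _ _ _ _ _ (chkF_sound E keys 1 5 _ _ _ _ t9_2_5_0) (by decide +kernel)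

def r9_2_6 : List (ℕ × ℤ) := [(18, 48), (23, -48), (97, -48), (119, -48), (121, 96), (127, 48), (137, -48), (139, -96), (141, 48), (176, 48)]

theorem h9_2_6 (E : Env κ ι) : inn E 1 5 c9_2 c9_6 = dotS (ek E keys) r9_2_6 :=
  innS_eqZ E _ _ _ _ _ _ _ (chkF_sound E keys 1 5 _ _ _ _ t9_2_6_0) (by decide +kernel)

def r9_2_7 : List (ℕ × ℤ) := [(219, 48), (221, -48), (228, -48), (236, -48), (238, 96), (245, 96), (255, -96), (256, 48), (321, -96), (331, -48), (341, -48), (348, 48), (365, 96)]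

theorem h9_2_7 (E : Env κ ι) : inn E 1 5 c9_2 c9_7 = dotS (ek E keys) r9_2_7 :=
  innS_eqZ E _ _ _ _ _ _ _ (chkF_sound E keys 1 5 _ _ _ _ t9_2_7_0) (by decide +kernel)

def r9_2_8 : List (ℕ × ℤ) := [(219, 48), (221, -48), (228, -48), (236, 96), (238, -96), (239, 48), (245, -48), (255, 96), (311, -48), (321, 96), (341, -48), (348, 48), (365, -96)]

theorem h9_2_8 (E : Env κ ι) : inn E 1 5 c9_2 c9_8 = dotS (ek E keys) r9_2_8 :=
  innS_eqZ E _ _ _ _ _ _ _ (chkF_sound E keys 1 5 _ _ _ _ t9_2_8_0) (by decide +kernel)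

def r9_2_9 : List (ℕ × ℤ) := [(236, -96), (238, 48), (239, 48), (245, 96), (255, -48), (256, -48), (311, -48), (321, -48), (331, 48), (365, 48)]

theorem h9_2_9 (E : Env κ ι) : inn E 1 5 c9_2 c9_9 = dotS (ek E keys) r9_2_9 :=
  innS_eqZ E _ _ _ _ _ _ _ (chkF_sound E keys 1 5 _ _ _ _ t9_2_9_0) (by decide +kernel)

def r9_3_3 : List (ℕ × ℤ) := [(3, 96), (4, -48), (247, -48), (249, -48), (258, 96), (262, -48), (264, -48), (337, 48), (352, 0)]

theorem h9_3_3 (E : Env κ ι) : inn E 1 5 c9_3 c9_3 = dotS (ek E keys) r9_3_3 :=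
  innS_eqZ E _ _ _ _ _ _ _ (chkF_sound E keys 1 5 _ _ _ _ t9_3_3_0) (by decide +kernel)

def r9_3_4 : List (ℕ × ℤ) := [(51, 48), (52, -48), (54, -48), (55, 96), (57, -96), (58, 96), (108, 48), (120, -96), (138, -48), (143, -48), (180, -48), (182, 96), (183, 48)]

theorem h9_3_4 (E : Env κ ι) : inn E 1 5 c9_3 c9_4 = dotS (ek E keys) r9_3_4 :=
  innS_eqZ E _ _ _ _ _ _ _ (chkF_sound E keys 1 5 _ _ _ _ t9_3_4_0) (by decide +kernel)

def r9_3_5 : List (ℕ × ℤ) := [(45, 48), (48, -48), (54, 96), (55, -48), (57, 96), (58, -96), (108, 48), (120, 96), (138, -48), (143, -48), (180, -48), (182, -96), (183, 48)]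

theorem h9_3_5 (E : Env κ ι) : inn E 1 5 c9_3 c9_5 = dotS (ek E keys) r9_3_5 :=
  innS_eqZ E _ _ _ _ _ _ _ (chkF_sound E keys 1 5 _ _ _ _ t9_3_5_0) (by decide +kernel)

def r9_3_6 : List (ℕ × ℤ) := [(45, 48), (48, -48), (51, -48), (52, 48), (54, -96), (55, 96), (57, -48), (58, 48), (120, -48), (182, 48)]

theorem h9_3_6 (E : Env κ ι) : inn E 1 5 c9_3 c9_6 = dotS (ek E keys) r9_3_6 :=
  innS_eqZ E _ _ _ _ _ _ _ (chkF_sound E keys 1 5 _ _ _ _ t9_3_6_0) (by decide +kernel)

def r9_3_7 : List (ℕ × ℤ) := [(222, 48), (223, -48), (233, -48), (237, 96), (240, 48), (244, -48), (252, 48), (257, -96), (261, 48), (322, -96), (332, -48), (342, -48), (349, 48), (366, 96)]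

theorem h9_3_7 (E : Env κ ι) : inn E 1 5 c9_3 c9_7 = dotS (ek E keys) r9_3_7 :=
  innS_eqZ E _ _ _ _ _ _ _ (chkF_sound E keys 1 5 _ _ _ _ t9_3_7_0) (by decide +kernel)

def r9_3_8 : List (ℕ × ℤ) := [(222, 48), (223, -48), (231, -48), (237, -48), (244, 96), (252, -144), (253, 48), (257, 96), (322, 96), (342, -48), (349, 48), (366, -96)]

theorem h9_3_8 (E : Env κ ι) : inn E 1 5 c9_3 c9_8 = dotS (ek E keys) r9_3_8 :=
  innS_eqZ E _ _ _ _ _ _ _ (chkF_sound E keys 1 5 _ _ _ _ t9_3_8_0) (by decide +kernel)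

def r9_3_9 : List (ℕ × ℤ) := [(231, -48), (233, 48), (237, 96), (240, -48), (244, -96), (252, 48), (253, 48), (257, -48), (261, -48), (322, -48), (332, 48), (366, 48)]

theorem h9_3_9 (E : Env κ ι) : inn E 1 5 c9_3 c9_9 = dotS (ek E keys) r9_3_9 :=
  innS_eqZ E _ _ _ _ _ _ _ (chkF_sound E keys 1 5 _ _ _ _ t9_3_9_0) (by decide +kernel)

def r9_4_4 : List (ℕ × ℤ) := [(37, 48), (214, -24), (215, -96), (217, 96), (287, 96), (289, -144), (290, -48), (291, 96), (293, -48), (295, 96), (296, -96), (300, 144), (304, -72), (374, 72), (376, -48), (377, -48), (378, -24)]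

theorem h9_4_4 (E : Env κ ι) : inn E 1 5 c9_4 c9_4 = dotS (ek E keys) r9_4_4 :=
  innS_eqZ E _ _ _ _ _ _ _ (chkF_sound E keys 1 5 _ _ _ _ t9_4_4_0) (by decide +kernel)

def r9_4_5 : List (ℕ × ℤ) := [(37, -96), (214, 24), (215, 48), (287, 96), (288, -48), (289, 48), (291, -192), (295, 96), (296, 96), (300, -48), (304, 24), (374, -24), (376, -48), (377, -48), (378, 72)]

theorem h9_4_5 (E : Env κ ι) : inn E 1 5 c9_4 c9_5 = dotS (ek E keys) r9_4_5 :=
  innS_eqZ E _ _ _ _ _ _ _ (chkF_sound E keys 1 5 _ _ _ _ t9_4_5_0) (by decide +kernel)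

def r9_4_6 : List (ℕ × ℤ) := [(37, 96), (214, -72), (215, -96), (217, 144), (288, -48), (289, -48), (290, 48), (291, -48), (293, 48), (296, -48), (300, 48), (304, -24), (374, 24), (378, -24)]

theorem h9_4_6 (E : Env κ ι) : inn E 1 5 c9_4 c9_6 = dotS (ek E keys) r9_4_6 :=
  innS_eqZ E _ _ _ _ _ _ _ (chkF_sound E keys 1 5 _ _ _ _ t9_4_6_0) (by decide +kernel)

def r9_4_7 : List (ℕ × ℤ) := [(23, -72), (27, -24), (84, 24), (85, 48), (89, -48), (104, -48), (105, 48), (109, 48), (118, 144), (121, -240), (123, -48), (139, 96), (140, 96), (141, 48), (188, -24), (192, 24), (198, -48), (200, -48), (201, -48), (298, 72)]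

theorem h9_4_7 (E : Env κ ι) : inn E 1 5 c9_4 c9_7 = dotS (ek E keys) r9_4_7 :=
  innS_eqZ E _ _ _ _ _ _ _ (chkF_sound E keys 1 5 _ _ _ _ t9_4_7_0) (by decide +kernel)

def r9_4_8 : List (ℕ × ℤ) := [(23, 24), (27, 24), (84, -24), (85, -48), (89, 48), (103, 48), (105, -144), (107, -48), (112, -48), (116, 48), (117, 48), (118, -48), (121, 48), (123, 144), (131, -48), (139, 48), (140, 48), (141, 48), (188, 72), (192, -72), (198, -48), (200, -48), (201, -48), (298, -24)]

theorem h9_4_8 (E : Env κ ι) : inn E 1 5 c9_4 c9_8 = dotS (ek E keys) r9_4_8 :=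
  innS_eqZ E _ _ _ _ _ _ _ (chkF_sound E keys 1 5 _ _ _ _ t9_4_8_0) (by decide +kernel)

def r9_4_9 : List (ℕ × ℤ) := [(23, -24), (27, -72), (84, 72), (85, 144), (89, -144), (103, 48), (104, 48), (105, 48), (107, -48), (109, -48), (112, -48), (116, 48), (117, 48), (118, 48), (121, 48), (123, -48), (131, -48), (139, -48), (140, -48), (188, -24), (192, 24), (298, 24)]

theorem h9_4_9 (E : Env κ ι) : inn E 1 5 c9_4 c9_9 = dotS (ek E keys) r9_4_9 :=
  innS_eqZ E _ _ _ _ _ _ _ (chkF_sound E keys 1 5 _ _ _ _ t9_4_9_0) (by decide +kernel)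

def r9_5_5 : List (ℕ × ℤ) := [(37, 48), (214, -72), (215, 96), (287, -288), (291, 192), (293, -48), (295, 96), (296, -96), (300, -48), (304, -24), (374, 72), (376, 144), (377, -48), (378, -24)]

theorem h9_5_5 (E : Env κ ι) : inn E 1 5 c9_5 c9_5 = dotS (ek E keys) r9_5_5 :=
  innS_eqZ E _ _ _ _ _ _ _ (chkF_sound E keys 1 5 _ _ _ _ t9_5_5_0) (by decide +kernel)

def r9_5_6 : List (ℕ × ℤ) := [(37, -96), (214, 24), (215, 48), (287, 96), (288, 48), (289, -48), (291, -96), (293, -48), (296, 48), (304, 72), (374, -24), (376, -48), (378, 24)]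

theorem h9_5_6 (E : Env κ ι) : inn E 1 5 c9_5 c9_6 = dotS (ek E keys) r9_5_6 :=
  innS_eqZ E _ _ _ _ _ _ _ (chkF_sound E keys 1 5 _ _ _ _ t9_5_6_0) (by decide +kernel)

def r9_5_7 : List (ℕ × ℤ) := [(23, 24), (27, 24), (84, -72), (85, 48), (103, -48), (109, 48), (112, -48), (117, 48), (118, -48), (121, 96), (123, -48), (131, 48), (139, -240), (140, 96), (188, 72), (192, -24), (198, 144), (200, -48), (201, -48), (298, -24)]

theorem h9_5_7 (E : Env κ ι) : inn E 1 5 c9_5 c9_7 = dotS (ek E keys) r9_5_7 :=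
  innS_eqZ E _ _ _ _ _ _ _ (chkF_sound E keys 1 5 _ _ _ _ t9_5_7_0) (by decide +kernel)

def r9_5_8 : List (ℕ × ℤ) := [(23, -24), (27, -72), (84, 24), (89, 48), (103, 48), (104, -48), (105, 48), (109, -96), (116, 48), (117, -144), (118, -48), (121, 48), (123, -48), (131, 48), (139, 48), (140, 48), (141, -48), (188, -24), (192, 24), (198, -48), (200, 144), (201, -48), (298, 72)]

theorem h9_5_8 (E : Env κ ι) : inn E 1 5 c9_5 c9_8 = dotS (ek E keys) r9_5_8 :=
  innS_eqZ E _ _ _ _ _ _ _ (chkF_sound E keys 1 5 _ _ _ _ t9_5_8_0) (by decide +kernel)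

def r9_5_9 : List (ℕ × ℤ) := [(23, 72), (27, 24), (84, -24), (85, -48), (89, 48), (103, -144), (104, -48), (105, 48), (109, 96), (112, 48), (116, 48), (117, 48), (121, -48), (139, 48), (140, -48), (141, -48), (188, 24), (192, -72), (198, 48), (200, -48), (298, -24)]

theorem h9_5_9 (E : Env κ ι) : inn E 1 5 c9_5 c9_9 = dotS (ek E keys) r9_5_9 :=
  innS_eqZ E _ _ _ _ _ _ _ (chkF_sound E keys 1 5 _ _ _ _ t9_5_9_0) (by decide +kernel)

def r9_6_6 : List (ℕ × ℤ) := [(37, 48), (214, -24), (215, -96), (217, 96), (287, -144), (288, -144), (290, -48), (291, 192), (293, 144), (296, 96), (300, -48), (304, -24), (374, 72), (376, -48), (378, -72)]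

theorem h9_6_6 (E : Env κ ι) : inn E 1 5 c9_6 c9_6 = dotS (ek E keys) r9_6_6 :=
  innS_eqZ E _ _ _ _ _ _ _ (chkF_sound E keys 1 5 _ _ _ _ t9_6_6_0) (by decide +kernel)

def r9_6_7 : List (ℕ × ℤ) := [(23, -24), (27, -72), (84, 24), (89, 48), (103, -48), (104, 48), (105, -48), (112, -48), (117, 48), (118, 48), (121, -144), (131, 48), (139, 144), (141, -48), (188, -24), (192, 72), (198, -48), (298, 24)]

theorem h9_6_7 (E : Env κ ι) : inn E 1 5 c9_6 c9_7 = dotS (ek E keys) r9_6_7 :=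
  innS_eqZ E _ _ _ _ _ _ _ (chkF_sound E keys 1 5 _ _ _ _ t9_6_7_0) (by decide +kernel)

def r9_6_8 : List (ℕ × ℤ) := [(23, 72), (27, 24), (84, -72), (85, 48), (104, -48), (105, -48), (107, 48), (109, -96), (112, 48), (117, 48), (123, 48), (131, -144), (141, 144), (188, 24), (192, -24), (200, -48), (298, -24)]

theorem h9_6_8 (E : Env κ ι) : inn E 1 5 c9_6 c9_8 = dotS (ek E keys) r9_6_8 :=
  innS_eqZ E _ _ _ _ _ _ _ (chkF_sound E keys 1 5 _ _ _ _ t9_6_8_0) (by decide +kernel)

def r9_6_9 : List (ℕ × ℤ) := [(23, -24), (27, -24), (84, 24), (85, 48), (89, -48), (103, 48), (104, 144), (107, 48), (109, -96), (112, -144), (118, -48), (121, -96), (123, 48), (131, 48), (139, 96), (141, -48), (188, -72), (192, 24), (198, 48), (200, -48), (298, 72)]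

theorem h9_6_9 (E : Env κ ι) : inn E 1 5 c9_6 c9_9 = dotS (ek E keys) r9_6_9 :=
  innS_eqZ E _ _ _ _ _ _ _ (chkF_sound E keys 1 5 _ _ _ _ t9_6_9_0) (by decide +kernel)

def r9_7_7 : List (ℕ × ℤ) := [(218, -48), (220, 96), (235, -192), (236, 96), (238, 96), (239, 48), (245, -96), (246, -24), (309, 144), (314, -24), (320, -96), (325, -72), (327, 96), (340, 72), (347, -48), (364, -48)]

theorem h9_7_7 (E : Env κ ι) : inn E 1 5 c9_7 c9_7 = dotS (ek E keys) r9_7_7 :=
  innS_eqZ E _ _ _ _ _ _ _ (chkF_sound E keys 1 5 _ _ _ _ t9_7_7_0) (by decide +kernel)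

def r9_7_8 : List (ℕ × ℤ) := [(218, -48), (220, 48), (221, 48), (235, 48), (236, -144), (238, -48), (239, -96), (243, 48), (245, 48), (246, 24), (309, -48), (314, 72), (315, -48), (320, 96), (325, 24), (327, 48), (340, -24), (364, -48)]

theorem h9_7_8 (E : Env κ ι) : inn E 1 5 c9_7 c9_8 = dotS (ek E keys) r9_7_8 :=
  innS_eqZ E _ _ _ _ _ _ _ (chkF_sound E keys 1 5 _ _ _ _ t9_7_8_0) (by decide +kernel)

def r9_7_9 : List (ℕ × ℤ) := [(220, -48), (221, 48), (238, 96), (239, 96), (243, 48), (245, -96), (246, -72), (309, 48), (314, -24), (315, -48), (320, -48), (325, -24), (327, -48), (340, 24), (347, 48)]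

theorem h9_7_9 (E : Env κ ι) : inn E 1 5 c9_7 c9_9 = dotS (ek E keys) r9_7_9 :=
  innS_eqZ E _ _ _ _ _ _ _ (chkF_sound E keys 1 5 _ _ _ _ t9_7_9_0) (by decide +kernel)

def r9_8_8 : List (ℕ × ℤ) := [(218, -48), (221, 96), (236, 96), (239, 48), (243, -144), (245, 96), (246, -72), (255, -48), (309, -48), (311, 96), (314, -24), (320, -96), (325, -24), (327, -96), (340, 72), (347, -48), (364, 144)]

theorem h9_8_8 (E : Env κ ι) : inn E 1 5 c9_8 c9_8 = dotS (ek E keys) r9_8_8 :=
  innS_eqZ E _ _ _ _ _ _ _ (chkF_sound E keys 1 5 _ _ _ _ t9_8_8_0) (by decide +kernel)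

def r9_8_9 : List (ℕ × ℤ) := [(220, -48), (221, 48), (235, -48), (238, 48), (239, -96), (243, 48), (245, 48), (246, 24), (255, -48), (311, -144), (314, 24), (315, 48), (320, 48), (325, 72), (327, 96), (340, -24), (347, -48), (364, -48)]

theorem h9_8_9 (E : Env κ ι) : inn E 1 5 c9_8 c9_9 = dotS (ek E keys) r9_8_9 :=
  innS_eqZ E _ _ _ _ _ _ _ (chkF_sound E keys 1 5 _ _ _ _ t9_8_9_0) (by decide +kernel)

def r9_9_9 : List (ℕ × ℤ) := [(235, -48), (238, 192), (239, 48), (245, -96), (246, -24), (255, -48), (309, -48), (311, 96), (314, -72), (315, -144), (320, 96), (325, -24), (327, -96), (340, 72), (347, 144), (364, -48)]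

theorem h9_9_9 (E : Env κ ι) : inn E 1 5 c9_9 c9_9 = dotS (ek E keys) r9_9_9 :=
  innS_eqZ E _ _ _ _ _ _ _ (chkF_sound E keys 1 5 _ _ _ _ t9_9_9_0) (by decide +kernel)

theorem row9_0 (E : Env κ ι) : RowS E 1 5 (ek E keys) c9_0 [c9_0, c9_1, c9_2, c9_3, c9_4, c9_5, c9_6, c9_7, c9_8, c9_9] [r9_0_0, r9_0_1, r9_0_2, r9_0_3, r9_0_4, r9_0_5, r9_0_6, r9_0_7, r9_0_8, r9_0_9] :=
  rowS_cons E _ _ _ _ _ _ _ _ (h9_0_0 E) (rowS_cons E _ _ _ _ _ _ _ _ (h9_0_1 E) (rowS_cons E _ _ _ _ _ _ _ _ (h9_0_2 E) (rowS_cons E _ _ _ _ _ _ _ _ (h9_0_3 E) (rowS_cons E _ _ _ _ _ _ _ _ (h9_0_4 E) (rowS_cons E _ _ _ _ _ _ _ _ (h9_0_5 E) (rowS_cons E _ _ _ _ _ _ _ _ (h9_0_6 E) (rowS_cons E _ _ _ _ _ _ _ _ (h9_0_7 E) (rowS_cons E _ _ _ _ _ _ _ _ (h9_0_8 E) (rowS_cons E _ _ _ _ _ _ _ _ (h9_0_9 E) (rowS_nil E _ _ _ _))))))))))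

theorem row9_1 (E : Env κ ι) : RowS E 1 5 (ek E keys) c9_1 [c9_1, c9_2, c9_3, c9_4, c9_5, c9_6, c9_7, c9_8, c9_9] [r9_1_1, r9_1_2, r9_1_3, r9_1_4, r9_1_5, r9_1_6, r9_1_7, r9_1_8, r9_1_9] :=
  rowS_cons E _ _ _ _ _ _ _ _ (h9_1_1 E) (rowS_cons E _ _ _ _ _ _ _ _ (h9_1_2 E) (rowS_cons E _ _ _ _ _ _ _ _ (h9_1_3 E) (rowS_cons E _ _ _ _ _ _ _ _ (h9_1_4 E) (rowS_cons E _ _ _ _ _ _ _ _ (h9_1_5 E) (rowS_cons E _ _ _ _ _ _ _ _ (h9_1_6 E) (rowS_cons E _ _ _ _ _ _ _ _ (h9_1_7 E) (rowS_cons E _ _ _ _ _ _ _ _ (h9_1_8 E) (rowS_cons E _ _ _ _ _ _ _ _ (h9_1_9 E) (rowS_nil E _ _ _ _)))))))))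

theorem row9_2 (E : Env κ ι) : RowS E 1 5 (ek E keys) c9_2 [c9_2, c9_3, c9_4, c9_5, c9_6, c9_7, c9_8, c9_9] [r9_2_2, r9_2_3, r9_2_4, r9_2_5, r9_2_6, r9_2_7, r9_2_8, r9_2_9] :=
  rowS_cons E _ _ _ _ _ _ _ _ (h9_2_2 E) (rowS_cons E _ _ _ _ _ _ _ _ (h9_2_3 E) (rowS_cons E _ _ _ _ _ _ _ _ (h9_2_4 E) (rowS_cons E _ _ _ _ _ _ _ _ (h9_2_5 E) (rowS_cons E _ _ _ _ _ _ _ _ (h9_2_6 E) (rowS_cons E _ _ _ _ _ _ _ _ (h9_2_7 E) (rowS_cons E _ _ _ _ _ _ _ _ (h9_2_8 E) (rowS_cons E _ _ _ _ _ _ _ _ (h9_2_9 E) (rowS_nil E _ _ _ _))))))))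

theorem row9_3 (E : Env κ ι) : RowS E 1 5 (ek E keys) c9_3 [c9_3, c9_4, c9_5, c9_6, c9_7, c9_8, c9_9] [r9_3_3, r9_3_4, r9_3_5, r9_3_6, r9_3_7, r9_3_8, r9_3_9] :=
  rowS_cons E _ _ _ _ _ _ _ _ (h9_3_3 E) (rowS_cons E _ _ _ _ _ _ _ _ (h9_3_4 E) (rowS_cons E _ _ _ _ _ _ _ _ (h9_3_5 E) (rowS_cons E _ _ _ _ _ _ _ _ (h9_3_6 E) (rowS_cons E _ _ _ _ _ _ _ _ (h9_3_7 E) (rowS_cons E _ _ _ _ _ _ _ _ (h9_3_8 E) (rowS_cons E _ _ _ _ _ _ _ _ (h9_3_9 E) (rowS_nil E _ _ _ _)))))))

theorem row9_4 (E : Env κ ι) : RowS E 1 5 (ek E keys) c9_4 [c9_4, c9_5, c9_6, c9_7, c9_8, c9_9] [r9_4_4, r9_4_5, r9_4_6, r9_4_7, r9_4_8, r9_4_9] :=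
  rowS_cons E _ _ _ _ _ _ _ _ (h9_4_4 E) (rowS_cons E _ _ _ _ _ _ _ _ (h9_4_5 E) (rowS_cons E _ _ _ _ _ _ _ _ (h9_4_6 E) (rowS_cons E _ _ _ _ _ _ _ _ (h9_4_7 E) (rowS_cons E _ _ _ _ _ _ _ _ (h9_4_8 E) (rowS_cons E _ _ _ _ _ _ _ _ (h9_4_9 E) (rowS_nil E _ _ _ _))))))

theorem row9_5 (E : Env κ ι) : RowS E 1 5 (ek E keys) c9_5 [c9_5, c9_6, c9_7, c9_8, c9_9] [r9_5_5, r9_5_6, r9_5_7, r9_5_8, r9_5_9] :=
  rowS_cons E _ _ _ _ _ _ _ _ (h9_5_5 E) (rowS_cons E _ _ _ _ _ _ _ _ (h9_5_6 E) (rowS_cons E _ _ _ _ _ _ _ _ (h9_5_7 E) (rowS_cons E _ _ _ _ _ _ _ _ (h9_5_8 E) (rowS_cons E _ _ _ _ _ _ _ _ (h9_5_9 E) (rowS_nil E _ _ _ _)))))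

theorem row9_6 (E : Env κ ι) : RowS E 1 5 (ek E keys) c9_6 [c9_6, c9_7, c9_8, c9_9] [r9_6_6, r9_6_7, r9_6_8, r9_6_9] :=
  rowS_cons E _ _ _ _ _ _ _ _ (h9_6_6 E) (rowS_cons E _ _ _ _ _ _ _ _ (h9_6_7 E) (rowS_cons E _ _ _ _ _ _ _ _ (h9_6_8 E) (rowS_cons E _ _ _ _ _ _ _ _ (h9_6_9 E) (rowS_nil E _ _ _ _))))

theorem row9_7 (E : Env κ ι) : RowS E 1 5 (ek E keys) c9_7 [c9_7, c9_8, c9_9] [r9_7_7, r9_7_8, r9_7_9] :=
  rowS_cons E _ _ _ _ _ _ _ _ (h9_7_7 E) (rowS_cons E _ _ _ _ _ _ _ _ (h9_7_8 E) (rowS_cons E _ _ _ _ _ _ _ _ (h9_7_9 E) (rowS_nil E _ _ _ _)))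

theorem row9_8 (E : Env κ ι) : RowS E 1 5 (ek E keys) c9_8 [c9_8, c9_9] [r9_8_8, r9_8_9] :=
  rowS_cons E _ _ _ _ _ _ _ _ (h9_8_8 E) (rowS_cons E _ _ _ _ _ _ _ _ (h9_8_9 E) (rowS_nil E _ _ _ _))

theorem row9_9 (E : Env κ ι) : RowS E 1 5 (ek E keys) c9_9 [c9_9] [r9_9_9] :=
  rowS_cons E _ _ _ _ _ _ _ _ (h9_9_9 E) (rowS_nil E _ _ _ _)

def tab9 : List (List (List (ℕ × ℤ))) := [[r9_0_0, r9_0_1, r9_0_2, r9_0_3, r9_0_4, r9_0_5, r9_0_6, r9_0_7, r9_0_8, r9_0_9], [r9_1_1, r9_1_2, r9_1_3, r9_1_4, r9_1_5, r9_1_6, r9_1_7, r9_1_8, r9_1_9], [r9_2_2, r9_2_3, r9_2_4, r9_2_5, r9_2_6, r9_2_7, r9_2_8, r9_2_9], [r9_3_3, r9_3_4, r9_3_5, r9_3_6, r9_3_7, r9_3_8, r9_3_9], [r9_4_4, r9_4_5, r9_4_6, r9_4_7, r9_4_8, r9_4_9], [r9_5_5, r9_5_6, r9_5_7, r9_5_8, r9_5_9], [r9_6_6, r9_6_7, r9_6_8, r9_6_9], [r9_7_7, r9_7_8, r9_7_9], [r9_8_8, r9_8_9], [r9_9_9]]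

theorem tri9 (E : Env κ ι) : TriS E 1 5 (ek E keys) [c9_0, c9_1, c9_2, c9_3, c9_4, c9_5, c9_6, c9_7, c9_8, c9_9] tab9 := by
  refine triS_cons E _ _ _ _ _ _ _ (row9_0 E) ?_
  refine triS_cons E _ _ _ _ _ _ _ (row9_1 E) ?_
  refine triS_cons E _ _ _ _ _ _ _ (row9_2 E) ?_
  refine triS_cons E _ _ _ _ _ _ _ (row9_3 E) ?_
  refine triS_cons E _ _ _ _ _ _ _ (row9_4 E) ?_
  refine triS_cons E _ _ _ _ _ _ _ (row9_5 E) ?_
  refine triS_cons E _ _ _ _ _ _ _ (row9_6 E) ?_
  refine triS_cons E _ _ _ _ _ _ _ (row9_7 E) ?_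
  refine triS_cons E _ _ _ _ _ _ _ (row9_8 E) ?_
  refine triS_cons E _ _ _ _ _ _ _ (row9_9 E) ?_
  exact triS_nil E _ _ _

def rows9 : List (ℕ × List ℤ) := [(5409190704960000, [8388608, -23816072, -5091298, -454378, -43399, 3955661, 710647, 2231074, 1643110, -321042]),
  (10476283910400000, [0, 16777216, -3564622, -459772, -2375721, 617421, 2716575, -1449194, 79143, 1984430]),
  (1476376554240000, [0, 0, 8388608, 976644, 1459944, 847266, 912027, 1453146, 931479, -1723640]),
  (112399902720000, [0, 0, 0, 4194304, -16390331, 3756391, 14816796, 10472481, -3609850, -15023609]),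
  (18853974720000, [0, 0, 0, 0, 4194304, -954604, -3697968, -2562351, 889457, 3665052]),
  (1097167680000, [0, 0, 0, 0, 0, 4194304, 2356778, 715157, 1389947, 366186]),
  (905567040000, [0, 0, 0, 0, 0, 0, 4194304, 1166165, 184544, -1246891]),
  (678767040000, [0, 0, 0, 0, 0, 0, 0, 4194304, -407383, -2194218]),
  (35765452800000, [0, 0, 0, 0, 0, 0, 0, 0, 524288, 151769]),
  (14130657446324160430080000, [0, 0, 0, 0, 0, 0, 0, 0, 0, 1]),
  (6031156708006786440000, [2, 0, 0, 0, -1, 0, 0, 0, 0, 0]),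
  (11275588629929597400000, [2, 0, 0, 0, 0, 1, 0, 0, 0, 0]),
  (76361365309315511250000, [2, 0, 0, 0, 0, 0, 0, 1, 0, 0]),
  (25061987226678584406840000, [1, 0, 0, 0, 0, 0, 0, 0, 0, 0]),
  (81397310941656294359040000, [0, 1, 0, 0, 0, 0, 0, 0, 0, 0]),
  (20349327735414073589760000, [0, 0, 1, 0, 0, 0, 0, 0, 0, 0]),
  (20349327735414073589760000, [0, 0, 0, 1, 0, 0, 0, 0, 0, 0]),
  (7530755046265819138680000, [0, 0, 0, 0, 1, 0, 0, 0, 0, 0]),
  (7525510614343896327720000, [0, 0, 0, 0, 0, 1, 0, 0, 0, 0]),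
  (7536786202973825925120000, [0, 0, 0, 0, 0, 0, 1, 0, 0, 0]),
  (7460424837664510413870000, [0, 0, 0, 0, 0, 0, 0, 1, 0, 0]),
  (7536786202973825925120000, [0, 0, 0, 0, 0, 0, 0, 0, 1, 0]),
  (7536786202973825925120000, [0, 0, 0, 0, 0, 0, 0, 0, 0, 1])]

def M9 : List (List ℤ) := [[380663393585197495238000640000, -2161336180703944899475537920000, -462041203694111827458785280000, -41235330961205402617774080000, -3938533754022078425978400000, 358980872750992270939678560000, 64492040199102367971409920000, 202472860870548680844365640000, 149114139891601726085529600000, -29134934179135664286597120000],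
  [6017014725185462898837934080000, 58723362211615218039121920000, -44550594551549000322938880000, -823945309806224324003927040000, -802142015247734911606563840000, 771846921497336050594206720000, -1084268245911346315771176960000, -395528707741208302953216000000, 780295161039774382071982080000],
  [377241667124446567697506560000, 83557376195125537597616640000, 215990278151240459904710400000, -243003824581390893450097920000, -219447223642086231373827840000, 21344389903045861773811200000, -73340620427263356267287040000, -173223891292342170635066880000],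
  [6737289550875555897980160000, 11855689343559146472226560000, -19407292465650957307802880000, -13062610655075487412811520000, 17058372341488056058314240000, -9556806941663455803409920000, -36674745455413082134494720000],
  [92820324843824070791914560000, -42929980191150385693127040000, -186804219818992292472896640000, 38362418746127951614675200000, 12745805073233542322745600000, -50124708847902887317244160000],
  [91322497513738111709067840000, 80502762162706178744211840000, 89306256051268387904183040000, 70601671910973758779687680000, -5194113941314440086273280000],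
  [106235829248439183416585280000, -26169344389393524379791360000, 7506361365664589767664640000, 55282804983038658120641280000],
  [64517030798232495389497920000, 32668712645633592488997120000, -111137955728791794020749440000],
  [17449623994420811781524160000, 5165248897980191400468480000],
  [71849167774496593046637120000]]

def u9 : List ℤ := [0, 0, 0, 646779796884053366206095360000, -323389898442026683103047680000, 0, 0, 0, -1409360693078765232938926080000, 0, 0, 0, 0, 0, 0, 0, 0, 0, -11080476152342053425262224000000, 0, 0, 0, 0, 18155106357059776409801717760000, 0, 0, 50508523641025267714584576000000, -8567285387997903604649256960000, 0, 1409360693078765232938926080000, 0, 0, 0, 0, 0, 0, 17769114521864141904954178560000, 175105350060932007916206658560000, 0, 0, 0, 0, 0, 0, 0, -648473732894186028686868480000, -1979295886137859325653155840000, 1979295886137859325653155840000, 2627769619032045354340024320000, 0, 0, 2265292669171638434232360960000, -2265292669171638434232360960000,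 -1979295886137859325653155840000, -1178162542306084140586045440000, 815685592445677220478382080000, 0, -2374240942240546567067873280000, 2374240942240546567067873280000, 0, 0, 0, 0, -18271842892089479771424030720000, -72204176702225554786055208960000, 0, 0, -1069214269237176007750533120000, 0, 1069214269237176007750533120000, 0, 16876176036583219532634971520000, 22177977777317367718021693440000, -50171327976285435816942877440000, 1979295886137859325653155840000, -35515126887661310849385431040000, 29756125013462939883036672000000, -1979295886137859325653155840000, 0, -22177977777317367718021693440000, 0, 37019112313082612055399504000000, -37356307977822443953041202560000, 0, 16140471622179816477315778560000, 5911178307702253247919882240000, 0, 0, 0, 14452615109631572563784048640000, 0, 0, 0, 0, 0, 0, 0, 11080476152342053425262224000000, 0, 0, 0, 0, 0, 7063667245554206921416581120000, -1042654865742350275721564160000, 15967814079463848596001853440000, 0, -3265534188578117046126816000000,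 1616818936277452405545492480000, -4770072996320816000276705280000, -1409360693078765232938926080000, 1069214269237176007750533120000, 7790055616808595058534542720000, 0, -21725627756216492240729170560000, 0, -34169751486301792111837470720000, 21597839299389308112567889920000, -9078880080836491391052840960000, -33529967127512470816117862400000, -2374240942240546567067873280000, 11003983548063286992787537920000, 0, 1462245671361355637103164160000, -14332413967212039445534556160000, 0, 0, 33529967127512470816117862400000, 20881327548670146907843092480000, 0, 0, -13801040475185115857381806080000, 0, 0, 0, 0, 1296650228647220810178600960000, -33529967127512470816117862400000, 362476949860406920107663360000, -22683565157051679787848130560000, 20208825398321651572274626560000, -20494537504054477029735690240000, 0, 362476949860406920107663360000, 0, -3723960373380395771091598080000, 14332413967212039445534556160000, 0, 0, 0, 0, 0, 0, 0, 0, 0, 0, 0, 0, 0, 0, 0, 0,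 0, 0, 0, 0, 0, 0, 0, 0, 0, -20881327548670146907843092480000, 0, 0, 1409360693078765232938926080000, 33529967127512470816117862400000, -1296650228647220810178600960000, 0, 0, -1616818936277452405545492480000, -1069214269237176007750533120000, 2374240942240546567067873280000, -362476949860406920107663360000, 0, 0, 0, 0, -14237376554288787517364745600000, 0, 0, 0, -37527611780188511881134520320000, 0, 0, 35515126887661310849385431040000, 0, 0, 10678411577020207363660800000000, 0, 662183205835324161380474880000, -10128775285516974749821992960000, 0, -1229810620234910530766423040000, -51872068336894677587412910080000, 51047022027614525221871116800000, 12845972535599655932761128960000, -9561304985849682505686489600000, 51872068336894677587412910080000, 72204176702225554786055208960000, 18271842892089479771424030720000, 199276579634328956794728960000, -32471727344934036540771962880000, -18271842892089479771424030720000, -121077161964038910426250406400000, 202390021797315338196353364480000,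 -72204176702225554786055208960000, -118293607114588621488491550720000, -5502497637037771183680921600000, -2495819065162439735686840320000, 12848423091499688922637148160000, 652391247738293180411535360000, 360075139191580812235407360000, -360075139191580812235407360000, 0, 0, 0, -18107600021973435249480314880000, 38711019109109310234647470080000, 0, -4010754057366025804685598720000, 6229868572425699625705021440000, 0, 1431564403114771171430768640000, 0, -32623463728522547578253122560000, 11728767526824844984166461440000, -5435199143102982429435248640000, 8774279369159550685567027200000, -18753241137468805560245990400000, 2579189654251254633254830080000, 0, 0, -6031337576085141382841103360000, 1784520224928537436985057280000, -9990799608323925256007116800000, 4380786196175943412104153600000, -323389898442026683103047680000, 0, -323389898442026683103047680000, 0, 0, 434594290131136384034365440000, -2219114515059673821019422720000, 0, -23416888183661780609916764160000,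 9339277497378625555626147840000, -794669429322717196269772800000, 646779796884053366206095360000, 0, 0, -1431564403114771171430768640000, -323389898442026683103047680000, 0, -323389898442026683103047680000, 0, 0, 0, 0, 0, 0, 0, 0, 0, 0, 0, 0, 0, 0, 0, 0, 0, 18271842892089479771424030720000, 0, 0, 0, -18271842892089479771424030720000, 26695681086958670754270858240000, -406585227478497280296975360000, 7153472117944422170858603520000, -119185452195140311476162992640000, 39572157776618861637593333760000, 0, 10670401075345300274177525760000, -6059822703808652210444382720000, -25469662953319489161097666560000, 1230385698295281679778887680000, 17477767977128573419187527680000, 7489975803222542734551767040000, 0, 28722008685714208379050798080000, -17477767977128573419187527680000, 0, 0, -41201378405559559202387581440000, 0, 0, 0, 0, -1898609651934974648131875840000, 0, 19663984731047988593149009920000, 0, 0, -1996915573259287762145379840000, -6331824544432866537969146880000,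 0, 0, 0, 0, 7747471482322835623221227520000, -775014209677260741462220800000, -794669429322717196269772800000, 0, 0, -21072739280259409576332387840000, 0, 41234734966939636119761756160000, 0, 0, 0, -9339277497378625555626147840000, 1431564403114771171430768640000, 0, 0, 18107600021973435249480314880000, 4010754057366025804685598720000, 323389898442026683103047680000, 0, 0, 7499413210297058945826301440000, 2495819065162439735686840320000, -360075139191580812235407360000, -18107600021973435249480314880000, -4010754057366025804685598720000, 0, 0, 829326907395095354288225280000, -2495819065162439735686840320000, 360075139191580812235407360000, 0, 0, 0, 0, 0, 0, 0, 0, 0, 0, 0, 0, 0, -31744645094924463876475392000000, -5848861830387860975089351680000, 775014209677260741462220800000, 794669429322717196269772800000, 0, 0, 0, 0, 0, 0, 0, -1519817399195624947168289280000, 39026095801295021654651781120000, 1792250710914973817645706240000, -6778216423987766246777057280000,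 -8743998448671178046712261120000]

theorem gr9 : eqM (gramT rows9) M9 = true := by
  decide +kernel

theorem mv9 : eqZ (mval M9 tab9) u9 = true := by
  decide +kernel

theorem nn9 (E : Env κ ι) : 0 ≤ dot (ek E keys) u9 0 :=
  block_nonneg E _ _ _ _ _ (tri9 E) rows9 M9 gr9 u9 mv9

end

end YMA
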