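import Pool.Agent.YM.YMA.G0
import Pool.Agent.YM.YMA.G1
import Pool.Agent.YM.YMA.H2
import Pool.Agent.YM.YMA.H3
import Pool.Agent.YM.YMA.H7
import Pool.Agent.YM.YMA.H8
import Pool.Agent.YM.YMA.H9
import Pool.Agent.YM.YMA.H10
import Pool.Agent.YM.YMA.H11
import Pool.Agent.YM.YMA.H12
import Pool.Agent.YM.YMA.H13
import Pool.Agent.YM.YMA.H14
import Pool.Agent.YM.YMA.R

set_option linter.unusedVariables false
set_option maxRecDepth 100000

open YMEng

namespace YMA

variable {κ ι : Type*} [Fintype κ] [Fintype ι] [Inhabited κ] [Inhabited ι]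

theorem U1_chk : eqZ (vsum [u18, u19, u21, u23, u25, u27, u29, u31, u33, u35, u41, u42, u46, u47, u51, u52]) (lS U1) = true := by
  decide +kernel

theorem fin_chk : eqZ (vadd (vsc ((856826174651868427573002240 : ℕ) : ℤ) target) (lS rr)) (vadd (vsum [u0, u1, u2, u3, u4, u5, u6, u7, u8, u9, u10, u11, u12, u13, u14, u15, u16, u17, u20, u22, u24, u26, u28, u30, u32, u34, u36, u37, u38, u39, u40, u43, u44, u45, u48, u49, u50, List.replicate 380 0]) (lS U1)) = true := by
  decide +kernel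

/-- the certificate: `sval E = |m|² + |B|²` -/
theorem final (E : Env κ ι) (hs : sval E ≤ 1) : 0 ≤ dot (ek E keys) target 0 := by
  have h1 : 0 ≤ dot (ek E keys) (lS U1) 0 := by
    rw [← eqZ_eq _ _ U1_chk]
    refine vsum_nonneg _ _ ?_
    simp only [List.forall_mem_cons]
    exact ⟨nn18 E, nn19 E, nn21 E, nn23 E, nn25 E, nn27 E, nn29 E, nn31 E, nn33 E, nn35 E, nn41 E, nn42 E, nn46 E, nn47 E, nn51 E, nn52 E, fun _ h => by simp at h⟩
  have h0 : 0 ≤ dot (ek E keys) (vsum [u0, u1, u2, u3, u4, u5, u6, u7, u8, u9, u10, u11, u12, u13, u14, u15, u16, u17, u20, u22, u24, u26, u28, u30, u32, u34, u36, u37, u38, u39, u40, u43, u44, u45, u48, u49, u50, List.replicate 380 0]) 0 := by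
    refine vsum_nonneg _ _ ?_
    simp only [List.forall_mem_cons]
    exact ⟨nn0 E, nn1 E, nn2 E, nn3 E, nn4 E, nn5 E, nn6 E, nn7 E, nn8 E, nn9 E, nn10 E, nn11 E, nn12 E, nn13 E, nn14 E, nn15 E, nn16 E, nn17 E, nn20 E, nn22 E, nn24 E, nn26 E, nn28 E, nn30 E, nn32 E, nn34 E, nn36 E, nn37 E, nn38 E, nn39 E, nn40 E, nn43 E, nn44 E, nn45 E, nn48 E, nn49 E, nn50 E, dot_replicate_nonneg _ _ _, fun _ h => by simp at h⟩
  exact final_mult _ 856826174651868427573002240 (by norm_num) target _ U1 rr (sval E) hs h0 h1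
    (mult_step E keys U1 rr (hR E)) fin_chk

end YMA
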