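import Pool.Agent.YM.YMA.Keys

set_option linter.unusedVariables false
set_option maxRecDepth 100000

open YMEng

namespace YMA

def p0_0_0 : Cov := [(1, 1, 3, [(0, [0], [1, 2]), (0, [0], [1, 3]), (1, [], [2, 3]), (3, [], [0])])]

def c0_0 : Cov := p0_0_0

def p0_1_0 : Cov := [(1, 1, 3, [(0, [0], [1, 2]), (0, [0], [1, 2]), (1, [], [0, 3]), (3, [], [3])])]

def c0_1 : Cov := p0_1_0

def p0_2_0 : Cov := [(1, 1, 3, [(0, [0], [1, 2]), (0, [0], [1, 3]), (1, [], [0, 2]), (3, [], [3])])]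

def c0_2 : Cov := p0_2_0

def p0_3_0 : Cov := [(1, 1, 2, [(0, [0], [1, 2]), (0, [0], [1, 2]), (3, [], [0])])]

def c0_3 : Cov := p0_3_0

def p0_4_0 : Cov := [(1, 1, 3, [(0, [0], [1, 2]), (0, [0], [0, 1]), (1, [], [2, 3]), (3, [], [3])])]

def c0_4 : Cov := p0_4_0

def p0_5_0 : Cov := [(1, 1, 3, [(0, [0], [1, 2]), (0, [0], [0, 3]), (1, [], [1, 2]), (3, [], [3])])]

def c0_5 : Cov := p0_5_0

def p0_6_0 : Cov := [(1, 1, 3, [(0, [0], [1, 2]), (0, [0], [0, 3]), (1, [], [1, 3]), (3, [], [2])])]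

def c0_6 : Cov := p0_6_0

def p0_7_0 : Cov := [(1, 1, 2, [(0, [0], [1, 2]), (0, [0], [0, 1]), (3, [], [2])])]

def c0_7 : Cov := p0_7_0

def p0_8_0 : Cov := [(1, 1, 2, [(0, [0], [1, 2]), (2, [0], [0, 1, 2])])]

def c0_8 : Cov := p0_8_0

theorem t0_0_0_0 : chkF keys 0 1 p0_0_0 c0_0
  [(71, 16, 16, 106176771, 106169121)]
  [(71, 1)] = true := by
  decide +kernel

theorem t0_0_1_0 : chkF keys 0 1 p0_0_0 c0_1
  [(72, 16, 16, 106176771, 106169121)]
  [(72, 1)] = true := by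
  decide +kernel

theorem t0_0_2_0 : chkF keys 0 1 p0_0_0 c0_2
  [(73, 16, 16, 106176771, 106169121)]
  [(73, 1)] = true := by
  decide +kernel

theorem t0_0_3_0 : chkF keys 0 1 p0_0_0 c0_3
  [(74, 16, 16, 5513475, 5505825)]
  [(74, 1)] = true := by
  decide +kernel

theorem t0_0_4_0 : chkF keys 0 1 p0_0_0 c0_4
  [(73, 16, 16, 55845126, 5530401)]
  [(73, 1)] = true := by
  decide +kernel

theorem t0_0_5_0 : chkF keys 0 1 p0_0_0 c0_5
  [(75, 16, 16, 106176771, 106169121)]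
  [(75, 1)] = true := by
  decide +kernel

theorem t0_0_6_0 : chkF keys 0 1 p0_0_0 c0_6
  [(76, 16, 16, 106176771, 106169121)]
  [(76, 1)] = true := by
  decide +kernel

theorem t0_0_7_0 : chkF keys 0 1 p0_0_0 c0_7
  [(77, 16, 16, 5513475, 5505825)]
  [(77, 1)] = true := by
  decide +kernel

theorem t0_0_8_0 : chkF keys 0 1 p0_0_0 c0_8
  [(78, 16, 16, 5513475, 5505825)]
  [(78, 1)] = true := by
  decide +kernel

theorem t0_1_1_0 : chkF keys 0 1 p0_1_0 c0_1
  [(9, 16, 16, 106180866, 106180641)]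
  [(9, 1)] = true := by
  decide +kernel

theorem t0_1_2_0 : chkF keys 0 1 p0_1_0 c0_2
  [(28, 16, 16, 105197826, 105197601)]
  [(28, 1)] = true := by
  decide +kernel

theorem t0_1_3_0 : chkF keys 0 1 p0_1_0 c0_3
  [(70, 16, 16, 4399365, 344865)]
  [(70, 1)] = true := by
  decide +kernel

theorem t0_1_4_0 : chkF keys 0 1 p0_1_0 c0_4
  [(79, 16, 16, 106180866, 106180641)]
  [(79, 1)] = true := by
  decide +kernel

theorem t0_1_5_0 : chkF keys 0 1 p0_1_0 c0_5
  [(8, 1, 1, 51406146, 52518996)]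
  [(8, 1)] = true := by
  decide +kernel

theorem t0_1_6_0 : chkF keys 0 1 p0_1_0 c0_6
  [(29, 16, 16, 73740546, 88485921)]
  [(29, 1)] = true := by
  decide +kernel

theorem t0_1_7_0 : chkF keys 0 1 p0_1_0 c0_7
  [(46, 1, 1, 2184240, 3282240)]
  [(46, 1)] = true := by
  decide +kernel

theorem t0_1_8_0 : chkF keys 0 1 p0_1_0 c0_8
  [(7, 1, 1, 1070130, 3280980)]
  [(7, 1)] = true := by
  decide +kernel

theorem t0_2_2_0 : chkF keys 0 1 p0_2_0 c0_2
  [(80, 16, 16, 106176771, 106169121)]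
  [(80, 1)] = true := by
  decide +kernel

theorem t0_2_3_0 : chkF keys 0 1 p0_2_0 c0_3
  [(46, 16, 16, 4399125, 344850)]
  [(46, 1)] = true := by
  decide +kernel

theorem t0_2_4_0 : chkF keys 0 1 p0_2_0 c0_4
  [(81, 16, 16, 106176771, 106169121)]
  [(81, 1)] = true := by
  decide +kernel

theorem t0_2_5_0 : chkF keys 0 1 p0_2_0 c0_5
  [(26, 1, 1, 51405906, 51535956)]
  [(26, 1)] = true := by
  decide +kernel

theorem t0_2_6_0 : chkF keys 0 1 p0_2_0 c0_6
  [(82, 16, 16, 106176771, 106169121)]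
  [(82, 1)] = true := by
  decide +kernel

theorem t0_2_7_0 : chkF keys 0 1 p0_2_0 c0_7
  [(47, 16, 16, 5513235, 5505810)]
  [(47, 1)] = true := by
  decide +kernel

theorem t0_2_8_0 : chkF keys 0 1 p0_2_0 c0_8
  [(24, 1, 1, 1069890, 3219540)]
  [(24, 1)] = true := by
  decide +kernel

theorem t0_3_3_0 : chkF keys 0 1 p0_3_0 c0_3
  [(66, 16, 16, 205060, 17185)]
  [(66, 1)] = true := by
  decide +kernel

theorem t0_3_4_0 : chkF keys 0 1 p0_3_0 c0_4
  [(46, 1, 1, 5248050, 5378100)]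
  [(46, 1)] = true := by
  decide +kernel

theorem t0_3_5_0 : chkF keys 0 1 p0_3_0 c0_5
  [(69, 16, 16, 5517570, 5517345)]
  [(69, 1)] = true := by
  decide +kernel

theorem t0_3_6_0 : chkF keys 0 1 p0_3_0 c0_6
  [(67, 16, 16, 3481860, 4215585)]
  [(67, 1)] = true := by
  decide +kernel

theorem t0_3_7_0 : chkF keys 0 1 p0_3_0 c0_7
  [(61, 16, 16, 205060, 17185)]
  [(61, 1)] = true := by
  decide +kernel

theorem t0_3_8_0 : chkF keys 0 1 p0_3_0 c0_8
  [(68, 16, 16, 274690, 274465)]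
  [(68, 1)] = true := by
  decide +kernel

theorem t0_4_4_0 : chkF keys 0 1 p0_4_0 c0_4
  [(83, 16, 16, 106180866, 106180641)]
  [(83, 1)] = true := by
  decide +kernel

theorem t0_4_5_0 : chkF keys 0 1 p0_4_0 c0_5
  [(84, 16, 16, 106180866, 106180641)]
  [(84, 1)] = true := by
  decide +kernel

theorem t0_4_6_0 : chkF keys 0 1 p0_4_0 c0_6
  [(85, 16, 16, 106180866, 106180641)]
  [(85, 1)] = true := by
  decide +kernel

theorem t0_4_7_0 : chkF keys 0 1 p0_4_0 c0_7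
  [(86, 16, 16, 5517570, 5517345)]
  [(86, 1)] = true := by
  decide +kernel

theorem t0_4_8_0 : chkF keys 0 1 p0_4_0 c0_8
  [(87, 16, 16, 5517570, 5517345)]
  [(87, 1)] = true := by
  decide +kernel

theorem t0_5_5_0 : chkF keys 0 1 p0_5_0 c0_5
  [(88, 16, 16, 106180866, 106180641)]
  [(88, 1)] = true := by
  decide +kernel

theorem t0_5_6_0 : chkF keys 0 1 p0_5_0 c0_6
  [(27, 16, 16, 73740546, 88485921)]
  [(27, 1)] = true := by
  decide +kernel

theorem t0_5_7_0 : chkF keys 0 1 p0_5_0 c0_7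
  [(45, 1, 1, 2184240, 3282240)]
  [(45, 1)] = true := by
  decide +kernel

theorem t0_5_8_0 : chkF keys 0 1 p0_5_0 c0_8
  [(6, 1, 1, 1070130, 3280980)]
  [(6, 1)] = true := by
  decide +kernel

theorem t0_6_6_0 : chkF keys 0 1 p0_6_0 c0_6
  [(89, 16, 16, 106180866, 106180641)]
  [(89, 1)] = true := by
  decide +kernel

theorem t0_6_7_0 : chkF keys 0 1 p0_6_0 c0_7
  [(48, 1, 1, 2176320, 2176320)]
  [(48, 1)] = true := by
  decide +kernel

theorem t0_6_8_0 : chkF keys 0 1 p0_6_0 c0_8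
  [(25, 1, 1, 1062210, 2175060)]
  [(25, 1)] = true := by
  decide +kernel

theorem t0_7_7_0 : chkF keys 0 1 p0_7_0 c0_7
  [(34, 16, 16, 271105, 271105)]
  [(34, 1)] = true := by
  decide +kernel

theorem t0_7_8_0 : chkF keys 0 1 p0_7_0 c0_8
  [(44, 16, 16, 274960, 274960)]
  [(44, 1)] = true := by
  decide +kernel

theorem t0_8_8_0 : chkF keys 0 1 p0_8_0 c0_8
  [(5, 16, 16, 274690, 274465)]
  [(5, 1)] = true := by
  decide +kernel

section

variable {κ ι : Type*} [Fintype κ] [Fintype ι] [Inhabited κ] [Inhabited ι]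

def r0_0_0 : List (ℕ × ℤ) := [(71, 1)]

theorem h0_0_0 (E : Env κ ι) : inn E 0 1 c0_0 c0_0 = dotS (ek E keys) r0_0_0 :=
  innS_eqZ E _ _ _ _ _ _ _ (chkF_sound E keys 0 1 _ _ _ _ t0_0_0_0) (by decide +kernel)

def r0_0_1 : List (ℕ × ℤ) := [(72, 1)]

theorem h0_0_1 (E : Env κ ι) : inn E 0 1 c0_0 c0_1 = dotS (ek E keys) r0_0_1 :=
  innS_eqZ E _ _ _ _ _ _ _ (chkF_sound E keys 0 1 _ _ _ _ t0_0_1_0) (by decide +kernel)

def r0_0_2 : List (ℕ × ℤ) := [(73, 1)]

theorem h0_0_2 (E : Env κ ι) : inn E 0 1 c0_0 c0_2 = dotS (ek E keys) r0_0_2 :=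
  innS_eqZ E _ _ _ _ _ _ _ (chkF_sound E keys 0 1 _ _ _ _ t0_0_2_0) (by decide +kernel)

def r0_0_3 : List (ℕ × ℤ) := [(74, 1)]

theorem h0_0_3 (E : Env κ ι) : inn E 0 1 c0_0 c0_3 = dotS (ek E keys) r0_0_3 :=
  innS_eqZ E _ _ _ _ _ _ _ (chkF_sound E keys 0 1 _ _ _ _ t0_0_3_0) (by decide +kernel)

def r0_0_4 : List (ℕ × ℤ) := [(73, 1)]

theorem h0_0_4 (E : Env κ ι) : inn E 0 1 c0_0 c0_4 = dotS (ek E keys) r0_0_4 :=
  innS_eqZ E _ _ _ _ _ _ _ (chkF_sound E keys 0 1 _ _ _ _ t0_0_4_0) (by decide +kernel)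

def r0_0_5 : List (ℕ × ℤ) := [(75, 1)]

theorem h0_0_5 (E : Env κ ι) : inn E 0 1 c0_0 c0_5 = dotS (ek E keys) r0_0_5 :=
  innS_eqZ E _ _ _ _ _ _ _ (chkF_sound E keys 0 1 _ _ _ _ t0_0_5_0) (by decide +kernel)

def r0_0_6 : List (ℕ × ℤ) := [(76, 1)]

theorem h0_0_6 (E : Env κ ι) : inn E 0 1 c0_0 c0_6 = dotS (ek E keys) r0_0_6 :=
  innS_eqZ E _ _ _ _ _ _ _ (chkF_sound E keys 0 1 _ _ _ _ t0_0_6_0) (by decide +kernel)

def r0_0_7 : List (ℕ × ℤ) := [(77, 1)]

theorem h0_0_7 (E : Env κ ι) : inn E 0 1 c0_0 c0_7 = dotS (ek E keys) r0_0_7 :=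
  innS_eqZ E _ _ _ _ _ _ _ (chkF_sound E keys 0 1 _ _ _ _ t0_0_7_0) (by decide +kernel)

def r0_0_8 : List (ℕ × ℤ) := [(78, 1)]

theorem h0_0_8 (E : Env κ ι) : inn E 0 1 c0_0 c0_8 = dotS (ek E keys) r0_0_8 :=
  innS_eqZ E _ _ _ _ _ _ _ (chkF_sound E keys 0 1 _ _ _ _ t0_0_8_0) (by decide +kernel)

def r0_1_1 : List (ℕ × ℤ) := [(9, 1)]

theorem h0_1_1 (E : Env κ ι) : inn E 0 1 c0_1 c0_1 = dotS (ek E keys) r0_1_1 :=
  innS_eqZ E _ _ _ _ _ _ _ (chkF_sound E keys 0 1 _ _ _ _ t0_1_1_0) (by decide +kernel)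

def r0_1_2 : List (ℕ × ℤ) := [(28, 1)]

theorem h0_1_2 (E : Env κ ι) : inn E 0 1 c0_1 c0_2 = dotS (ek E keys) r0_1_2 :=
  innS_eqZ E _ _ _ _ _ _ _ (chkF_sound E keys 0 1 _ _ _ _ t0_1_2_0) (by decide +kernel)

def r0_1_3 : List (ℕ × ℤ) := [(70, 1)]

theorem h0_1_3 (E : Env κ ι) : inn E 0 1 c0_1 c0_3 = dotS (ek E keys) r0_1_3 :=
  innS_eqZ E _ _ _ _ _ _ _ (chkF_sound E keys 0 1 _ _ _ _ t0_1_3_0) (by decide +kernel)

def r0_1_4 : List (ℕ × ℤ) := [(79, 1)]

theorem h0_1_4 (E : Env κ ι) : inn E 0 1 c0_1 c0_4 = dotS (ek E keys) r0_1_4 :=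
  innS_eqZ E _ _ _ _ _ _ _ (chkF_sound E keys 0 1 _ _ _ _ t0_1_4_0) (by decide +kernel)

def r0_1_5 : List (ℕ × ℤ) := [(8, 1)]

theorem h0_1_5 (E : Env κ ι) : inn E 0 1 c0_1 c0_5 = dotS (ek E keys) r0_1_5 :=
  innS_eqZ E _ _ _ _ _ _ _ (chkF_sound E keys 0 1 _ _ _ _ t0_1_5_0) (by decide +kernel)

def r0_1_6 : List (ℕ × ℤ) := [(29, 1)]

theorem h0_1_6 (E : Env κ ι) : inn E 0 1 c0_1 c0_6 = dotS (ek E keys) r0_1_6 :=
  innS_eqZ E _ _ _ _ _ _ _ (chkF_sound E keys 0 1 _ _ _ _ t0_1_6_0) (by decide +kernel)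

def r0_1_7 : List (ℕ × ℤ) := [(46, 1)]

theorem h0_1_7 (E : Env κ ι) : inn E 0 1 c0_1 c0_7 = dotS (ek E keys) r0_1_7 :=
  innS_eqZ E _ _ _ _ _ _ _ (chkF_sound E keys 0 1 _ _ _ _ t0_1_7_0) (by decide +kernel)

def r0_1_8 : List (ℕ × ℤ) := [(7, 1)]

theorem h0_1_8 (E : Env κ ι) : inn E 0 1 c0_1 c0_8 = dotS (ek E keys) r0_1_8 :=
  innS_eqZ E _ _ _ _ _ _ _ (chkF_sound E keys 0 1 _ _ _ _ t0_1_8_0) (by decide +kernel)

def r0_2_2 : List (ℕ × ℤ) := [(80, 1)]

theorem h0_2_2 (E : Env κ ι) : inn E 0 1 c0_2 c0_2 = dotS (ek E keys) r0_2_2 :=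
  innS_eqZ E _ _ _ _ _ _ _ (chkF_sound E keys 0 1 _ _ _ _ t0_2_2_0) (by decide +kernel)

def r0_2_3 : List (ℕ × ℤ) := [(46, 1)]

theorem h0_2_3 (E : Env κ ι) : inn E 0 1 c0_2 c0_3 = dotS (ek E keys) r0_2_3 :=
  innS_eqZ E _ _ _ _ _ _ _ (chkF_sound E keys 0 1 _ _ _ _ t0_2_3_0) (by decide +kernel)

def r0_2_4 : List (ℕ × ℤ) := [(81, 1)]

theorem h0_2_4 (E : Env κ ι) : inn E 0 1 c0_2 c0_4 = dotS (ek E keys) r0_2_4 :=
  innS_eqZ E _ _ _ _ _ _ _ (chkF_sound E keys 0 1 _ _ _ _ t0_2_4_0) (by decide +kernel)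

def r0_2_5 : List (ℕ × ℤ) := [(26, 1)]

theorem h0_2_5 (E : Env κ ι) : inn E 0 1 c0_2 c0_5 = dotS (ek E keys) r0_2_5 :=
  innS_eqZ E _ _ _ _ _ _ _ (chkF_sound E keys 0 1 _ _ _ _ t0_2_5_0) (by decide +kernel)

def r0_2_6 : List (ℕ × ℤ) := [(82, 1)]

theorem h0_2_6 (E : Env κ ι) : inn E 0 1 c0_2 c0_6 = dotS (ek E keys) r0_2_6 :=
  innS_eqZ E _ _ _ _ _ _ _ (chkF_sound E keys 0 1 _ _ _ _ t0_2_6_0) (by decide +kernel)

def r0_2_7 : List (ℕ × ℤ) := [(47, 1)]

theorem h0_2_7 (E : Env κ ι) : inn E 0 1 c0_2 c0_7 = dotS (ek E keys) r0_2_7 :=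
  innS_eqZ E _ _ _ _ _ _ _ (chkF_sound E keys 0 1 _ _ _ _ t0_2_7_0) (by decide +kernel)

def r0_2_8 : List (ℕ × ℤ) := [(24, 1)]

theorem h0_2_8 (E : Env κ ι) : inn E 0 1 c0_2 c0_8 = dotS (ek E keys) r0_2_8 :=
  innS_eqZ E _ _ _ _ _ _ _ (chkF_sound E keys 0 1 _ _ _ _ t0_2_8_0) (by decide +kernel)

def r0_3_3 : List (ℕ × ℤ) := [(66, 1)]

theorem h0_3_3 (E : Env κ ι) : inn E 0 1 c0_3 c0_3 = dotS (ek E keys) r0_3_3 :=
  innS_eqZ E _ _ _ _ _ _ _ (chkF_sound E keys 0 1 _ _ _ _ t0_3_3_0) (by decide +kernel)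

def r0_3_4 : List (ℕ × ℤ) := [(46, 1)]

theorem h0_3_4 (E : Env κ ι) : inn E 0 1 c0_3 c0_4 = dotS (ek E keys) r0_3_4 :=
  innS_eqZ E _ _ _ _ _ _ _ (chkF_sound E keys 0 1 _ _ _ _ t0_3_4_0) (by decide +kernel)

def r0_3_5 : List (ℕ × ℤ) := [(69, 1)]

theorem h0_3_5 (E : Env κ ι) : inn E 0 1 c0_3 c0_5 = dotS (ek E keys) r0_3_5 :=
  innS_eqZ E _ _ _ _ _ _ _ (chkF_sound E keys 0 1 _ _ _ _ t0_3_5_0) (by decide +kernel)

def r0_3_6 : List (ℕ × ℤ) := [(67, 1)]

theorem h0_3_6 (E : Env κ ι) : inn E 0 1 c0_3 c0_6 = dotS (ek E keys) r0_3_6 :=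
  innS_eqZ E _ _ _ _ _ _ _ (chkF_sound E keys 0 1 _ _ _ _ t0_3_6_0) (by decide +kernel)

def r0_3_7 : List (ℕ × ℤ) := [(61, 1)]

theorem h0_3_7 (E : Env κ ι) : inn E 0 1 c0_3 c0_7 = dotS (ek E keys) r0_3_7 :=
  innS_eqZ E _ _ _ _ _ _ _ (chkF_sound E keys 0 1 _ _ _ _ t0_3_7_0) (by decide +kernel)

def r0_3_8 : List (ℕ × ℤ) := [(68, 1)]

theorem h0_3_8 (E : Env κ ι) : inn E 0 1 c0_3 c0_8 = dotS (ek E keys) r0_3_8 :=
  innS_eqZ E _ _ _ _ _ _ _ (chkF_sound E keys 0 1 _ _ _ _ t0_3_8_0) (by decide +kernel)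

def r0_4_4 : List (ℕ × ℤ) := [(83, 1)]

theorem h0_4_4 (E : Env κ ι) : inn E 0 1 c0_4 c0_4 = dotS (ek E keys) r0_4_4 :=
  innS_eqZ E _ _ _ _ _ _ _ (chkF_sound E keys 0 1 _ _ _ _ t0_4_4_0) (by decide +kernel)

def r0_4_5 : List (ℕ × ℤ) := [(84, 1)]

theorem h0_4_5 (E : Env κ ι) : inn E 0 1 c0_4 c0_5 = dotS (ek E keys) r0_4_5 :=
  innS_eqZ E _ _ _ _ _ _ _ (chkF_sound E keys 0 1 _ _ _ _ t0_4_5_0) (by decide +kernel)

def r0_4_6 : List (ℕ × ℤ) := [(85, 1)]

theorem h0_4_6 (E : Env κ ι) : inn E 0 1 c0_4 c0_6 = dotS (ek E keys) r0_4_6 :=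
  innS_eqZ E _ _ _ _ _ _ _ (chkF_sound E keys 0 1 _ _ _ _ t0_4_6_0) (by decide +kernel)

def r0_4_7 : List (ℕ × ℤ) := [(86, 1)]

theorem h0_4_7 (E : Env κ ι) : inn E 0 1 c0_4 c0_7 = dotS (ek E keys) r0_4_7 :=
  innS_eqZ E _ _ _ _ _ _ _ (chkF_sound E keys 0 1 _ _ _ _ t0_4_7_0) (by decide +kernel)

def r0_4_8 : List (ℕ × ℤ) := [(87, 1)]

theorem h0_4_8 (E : Env κ ι) : inn E 0 1 c0_4 c0_8 = dotS (ek E keys) r0_4_8 :=
  innS_eqZ E _ _ _ _ _ _ _ (chkF_sound E keys 0 1 _ _ _ _ t0_4_8_0) (by decide +kernel)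

def r0_5_5 : List (ℕ × ℤ) := [(88, 1)]

theorem h0_5_5 (E : Env κ ι) : inn E 0 1 c0_5 c0_5 = dotS (ek E keys) r0_5_5 :=
  innS_eqZ E _ _ _ _ _ _ _ (chkF_sound E keys 0 1 _ _ _ _ t0_5_5_0) (by decide +kernel)

def r0_5_6 : List (ℕ × ℤ) := [(27, 1)]

theorem h0_5_6 (E : Env κ ι) : inn E 0 1 c0_5 c0_6 = dotS (ek E keys) r0_5_6 :=
  innS_eqZ E _ _ _ _ _ _ _ (chkF_sound E keys 0 1 _ _ _ _ t0_5_6_0) (by decide +kernel)

def r0_5_7 : List (ℕ × ℤ) := [(45, 1)]

theorem h0_5_7 (E : Env κ ι) : inn E 0 1 c0_5 c0_7 = dotS (ek E keys) r0_5_7 :=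
  innS_eqZ E _ _ _ _ _ _ _ (chkF_sound E keys 0 1 _ _ _ _ t0_5_7_0) (by decide +kernel)

def r0_5_8 : List (ℕ × ℤ) := [(6, 1)]

theorem h0_5_8 (E : Env κ ι) : inn E 0 1 c0_5 c0_8 = dotS (ek E keys) r0_5_8 :=
  innS_eqZ E _ _ _ _ _ _ _ (chkF_sound E keys 0 1 _ _ _ _ t0_5_8_0) (by decide +kernel)

def r0_6_6 : List (ℕ × ℤ) := [(89, 1)]

theorem h0_6_6 (E : Env κ ι) : inn E 0 1 c0_6 c0_6 = dotS (ek E keys) r0_6_6 :=
  innS_eqZ E _ _ _ _ _ _ _ (chkF_sound E keys 0 1 _ _ _ _ t0_6_6_0) (by decide +kernel)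

def r0_6_7 : List (ℕ × ℤ) := [(48, 1)]

theorem h0_6_7 (E : Env κ ι) : inn E 0 1 c0_6 c0_7 = dotS (ek E keys) r0_6_7 :=
  innS_eqZ E _ _ _ _ _ _ _ (chkF_sound E keys 0 1 _ _ _ _ t0_6_7_0) (by decide +kernel)

def r0_6_8 : List (ℕ × ℤ) := [(25, 1)]

theorem h0_6_8 (E : Env κ ι) : inn E 0 1 c0_6 c0_8 = dotS (ek E keys) r0_6_8 :=
  innS_eqZ E _ _ _ _ _ _ _ (chkF_sound E keys 0 1 _ _ _ _ t0_6_8_0) (by decide +kernel)

def r0_7_7 : List (ℕ × ℤ) := [(34, 1)]

theorem h0_7_7 (E : Env κ ι) : inn E 0 1 c0_7 c0_7 = dotS (ek E keys) r0_7_7 :=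
  innS_eqZ E _ _ _ _ _ _ _ (chkF_sound E keys 0 1 _ _ _ _ t0_7_7_0) (by decide +kernel)

def r0_7_8 : List (ℕ × ℤ) := [(44, 1)]

theorem h0_7_8 (E : Env κ ι) : inn E 0 1 c0_7 c0_8 = dotS (ek E keys) r0_7_8 :=
  innS_eqZ E _ _ _ _ _ _ _ (chkF_sound E keys 0 1 _ _ _ _ t0_7_8_0) (by decide +kernel)

def r0_8_8 : List (ℕ × ℤ) := [(5, 1)]

theorem h0_8_8 (E : Env κ ι) : inn E 0 1 c0_8 c0_8 = dotS (ek E keys) r0_8_8 :=
  innS_eqZ E _ _ _ _ _ _ _ (chkF_sound E keys 0 1 _ _ _ _ t0_8_8_0) (by decide +kernel)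

theorem row0_0 (E : Env κ ι) : RowS E 0 1 (ek E keys) c0_0 [c0_0, c0_1, c0_2, c0_3, c0_4, c0_5, c0_6, c0_7, c0_8] [r0_0_0, r0_0_1, r0_0_2, r0_0_3, r0_0_4, r0_0_5, r0_0_6, r0_0_7, r0_0_8] :=
  rowS_cons E _ _ _ _ _ _ _ _ (h0_0_0 E) (rowS_cons E _ _ _ _ _ _ _ _ (h0_0_1 E) (rowS_cons E _ _ _ _ _ _ _ _ (h0_0_2 E) (rowS_cons E _ _ _ _ _ _ _ _ (h0_0_3 E) (rowS_cons E _ _ _ _ _ _ _ _ (h0_0_4 E) (rowS_cons E _ _ _ _ _ _ _ _ (h0_0_5 E) (rowS_cons E _ _ _ _ _ _ _ _ (h0_0_6 E) (rowS_cons E _ _ _ _ _ _ _ _ (h0_0_7 E) (rowS_cons E _ _ _ _ _ _ _ _ (h0_0_8 E) (rowS_nil E _ _ _ _)))))))))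

theorem row0_1 (E : Env κ ι) : RowS E 0 1 (ek E keys) c0_1 [c0_1, c0_2, c0_3, c0_4, c0_5, c0_6, c0_7, c0_8] [r0_1_1, r0_1_2, r0_1_3, r0_1_4, r0_1_5, r0_1_6, r0_1_7, r0_1_8] :=
  rowS_cons E _ _ _ _ _ _ _ _ (h0_1_1 E) (rowS_cons E _ _ _ _ _ _ _ _ (h0_1_2 E) (rowS_cons E _ _ _ _ _ _ _ _ (h0_1_3 E) (rowS_cons E _ _ _ _ _ _ _ _ (h0_1_4 E) (rowS_cons E _ _ _ _ _ _ _ _ (h0_1_5 E) (rowS_cons E _ _ _ _ _ _ _ _ (h0_1_6 E) (rowS_cons E _ _ _ _ _ _ _ _ (h0_1_7 E) (rowS_cons E _ _ _ _ _ _ _ _ (h0_1_8 E) (rowS_nil E _ _ _ _))))))))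

theorem row0_2 (E : Env κ ι) : RowS E 0 1 (ek E keys) c0_2 [c0_2, c0_3, c0_4, c0_5, c0_6, c0_7, c0_8] [r0_2_2, r0_2_3, r0_2_4, r0_2_5, r0_2_6, r0_2_7, r0_2_8] :=
  rowS_cons E _ _ _ _ _ _ _ _ (h0_2_2 E) (rowS_cons E _ _ _ _ _ _ _ _ (h0_2_3 E) (rowS_cons E _ _ _ _ _ _ _ _ (h0_2_4 E) (rowS_cons E _ _ _ _ _ _ _ _ (h0_2_5 E) (rowS_cons E _ _ _ _ _ _ _ _ (h0_2_6 E) (rowS_cons E _ _ _ _ _ _ _ _ (h0_2_7 E) (rowS_cons E _ _ _ _ _ _ _ _ (h0_2_8 E) (rowS_nil E _ _ _ _)))))))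

theorem row0_3 (E : Env κ ι) : RowS E 0 1 (ek E keys) c0_3 [c0_3, c0_4, c0_5, c0_6, c0_7, c0_8] [r0_3_3, r0_3_4, r0_3_5, r0_3_6, r0_3_7, r0_3_8] :=
  rowS_cons E _ _ _ _ _ _ _ _ (h0_3_3 E) (rowS_cons E _ _ _ _ _ _ _ _ (h0_3_4 E) (rowS_cons E _ _ _ _ _ _ _ _ (h0_3_5 E) (rowS_cons E _ _ _ _ _ _ _ _ (h0_3_6 E) (rowS_cons E _ _ _ _ _ _ _ _ (h0_3_7 E) (rowS_cons E _ _ _ _ _ _ _ _ (h0_3_8 E) (rowS_nil E _ _ _ _))))))

theorem row0_4 (E : Env κ ι) : RowS E 0 1 (ek E keys) c0_4 [c0_4, c0_5, c0_6, c0_7, c0_8] [r0_4_4, r0_4_5, r0_4_6, r0_4_7, r0_4_8] :=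
  rowS_cons E _ _ _ _ _ _ _ _ (h0_4_4 E) (rowS_cons E _ _ _ _ _ _ _ _ (h0_4_5 E) (rowS_cons E _ _ _ _ _ _ _ _ (h0_4_6 E) (rowS_cons E _ _ _ _ _ _ _ _ (h0_4_7 E) (rowS_cons E _ _ _ _ _ _ _ _ (h0_4_8 E) (rowS_nil E _ _ _ _)))))

theorem row0_5 (E : Env κ ι) : RowS E 0 1 (ek E keys) c0_5 [c0_5, c0_6, c0_7, c0_8] [r0_5_5, r0_5_6, r0_5_7, r0_5_8] :=
  rowS_cons E _ _ _ _ _ _ _ _ (h0_5_5 E) (rowS_cons E _ _ _ _ _ _ _ _ (h0_5_6 E) (rowS_cons E _ _ _ _ _ _ _ _ (h0_5_7 E) (rowS_cons E _ _ _ _ _ _ _ _ (h0_5_8 E) (rowS_nil E _ _ _ _))))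

theorem row0_6 (E : Env κ ι) : RowS E 0 1 (ek E keys) c0_6 [c0_6, c0_7, c0_8] [r0_6_6, r0_6_7, r0_6_8] :=
  rowS_cons E _ _ _ _ _ _ _ _ (h0_6_6 E) (rowS_cons E _ _ _ _ _ _ _ _ (h0_6_7 E) (rowS_cons E _ _ _ _ _ _ _ _ (h0_6_8 E) (rowS_nil E _ _ _ _)))

theorem row0_7 (E : Env κ ι) : RowS E 0 1 (ek E keys) c0_7 [c0_7, c0_8] [r0_7_7, r0_7_8] :=
  rowS_cons E _ _ _ _ _ _ _ _ (h0_7_7 E) (rowS_cons E _ _ _ _ _ _ _ _ (h0_7_8 E) (rowS_nil E _ _ _ _))

theorem row0_8 (E : Env κ ι) : RowS E 0 1 (ek E keys) c0_8 [c0_8] [r0_8_8] :=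
  rowS_cons E _ _ _ _ _ _ _ _ (h0_8_8 E) (rowS_nil E _ _ _ _)

def tab0 : List (List (List (ℕ × ℤ))) := [[r0_0_0, r0_0_1, r0_0_2, r0_0_3, r0_0_4, r0_0_5, r0_0_6, r0_0_7, r0_0_8], [r0_1_1, r0_1_2, r0_1_3, r0_1_4, r0_1_5, r0_1_6, r0_1_7, r0_1_8], [r0_2_2, r0_2_3, r0_2_4, r0_2_5, r0_2_6, r0_2_7, r0_2_8], [r0_3_3, r0_3_4, r0_3_5, r0_3_6, r0_3_7, r0_3_8], [r0_4_4, r0_4_5, r0_4_6, r0_4_7, r0_4_8], [r0_5_5, r0_5_6, r0_5_7, r0_5_8], [r0_6_6, r0_6_7, r0_6_8], [r0_7_7, r0_7_8], [r0_8_8]]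

theorem tri0 (E : Env κ ι) : TriS E 0 1 (ek E keys) [c0_0, c0_1, c0_2, c0_3, c0_4, c0_5, c0_6, c0_7, c0_8] tab0 := by
  refine triS_cons E _ _ _ _ _ _ _ (row0_0 E) ?_
  refine triS_cons E _ _ _ _ _ _ _ (row0_1 E) ?_
  refine triS_cons E _ _ _ _ _ _ _ (row0_2 E) ?_
  refine triS_cons E _ _ _ _ _ _ _ (row0_3 E) ?_
  refine triS_cons E _ _ _ _ _ _ _ (row0_4 E) ?_
  refine triS_cons E _ _ _ _ _ _ _ (row0_5 E) ?_
  refine triS_cons E _ _ _ _ _ _ _ (row0_6 E) ?_
  refine triS_cons E _ _ _ _ _ _ _ (row0_7 E) ?_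
  refine triS_cons E _ _ _ _ _ _ _ (row0_8 E) ?_
  exact triS_nil E _ _ _

def rows0 : List (ℕ × List ℤ) := [(526070979624960000, [4194304, 7014127, 510108, 151159, -9722341, 6014859, -6010223, -1623152, -1145466]),
  (2110254612480000, [0, 4194304, 224725, 66621, -4284137, 2650633, -2647953, -715106, -504720]),
  (557569474560000, [0, 0, 4194304, 4855, -310878, 192611, -193152, -51892, -36664]),
  (555339939840000, [0, 0, 0, 4194304, -91963, 57049, -56962, -15416, -10844]),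
  (1338092421120000, [0, 0, 0, 0, 4194304, -1518410, 1516727, 409426, 289067]),
  (680008089600000, [0, 0, 0, 0, 0, 4194304, -768564, -206813, -146065]),
  (657155358720000, [0, 0, 0, 0, 0, 0, 4194304, 174863, 123399]),
  (8983538565120000, [0, 0, 0, 0, 0, 0, 0, 1048576, 8255]),
  (9821940059009035586764800000, [0, 0, 0, 0, 0, 0, 0, 0, 1]),
  (6806896623193517383680000, [1, 1, 0, 0, 0, 0, 0, 0, 0]),
  (3508732742730156426240000, [1, 0, 1, 0, 0, 0, 0, 0, 0]),
  (13021995298750527398400000, [1, 0, 0, 1, 0, 0, 0, 0, 0]),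
  (938332309284435179520000, [1, 0, 0, 0, 0, -1, 0, 0, 0]),
  (52593749047910691336240000, [1, 0, 0, 0, 0, 0, 1, 0, 0]),
  (117495046861711303680000, [1, 0, 0, 0, 0, 0, 0, -1, 0]),
  (1725017048199304572672000, [1, 0, 0, 0, 0, 0, 0, 0, -1]),
  (9739337650191132646320000, [0, 1, 1, 0, 0, 0, 0, 0, 0]),
  (2145569089320446120755200, [0, 1, 0, -1, 0, 0, 0, 0, 0]),
  (3878370154447559482320000, [0, 1, 0, 0, 1, 0, 0, 0, 0]),
  (16679924052274829838643200, [0, 1, 0, 0, 0, -1, 0, 0, 0]),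
  (5745929436378125447040000, [0, 1, 0, 0, 0, 0, 1, 0, 0]),
  (15515008568366115968409600, [0, 1, 0, 0, 0, 0, 0, -1, 0]),
  (4075169069979861509260800, [0, 1, 0, 0, 0, 0, 0, 0, 1]),
  (16245809629070652368640000, [0, 0, 1, 0, -1, 0, 0, 0, 0]),
  (7478828336099208188620800, [0, 0, 1, 0, 0, 1, 0, 0, 0]),
  (28423164611532288344040000, [0, 0, 1, 0, 0, 0, -1, 0, 0]),
  (13054914937129377876480000, [0, 0, 1, 0, 0, 0, 0, -1, 0]),
  (611984308612584711974400, [0, 0, 1, 0, 0, 0, 0, 0, -1]),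
  (161441210482450295040000, [0, 0, 0, 1, 0, 1, 0, 0, 0]),
  (2189021645776173546240000, [0, 0, 0, 1, 0, 0, 1, 0, 0]),
  (938996668404930460308480, [0, 0, 0, 1, 0, 0, 0, -1, 0]),
  (10648690185459952926720000, [0, 0, 0, 1, 0, 0, 0, 0, 1]),
  (62204481360633298073940000, [0, 0, 0, 0, 1, 1, 0, 0, 0]),
  (40102186710951277564680000, [0, 0, 0, 0, 1, 0, 1, 0, 0]),
  (2184764201224977093120000, [0, 0, 0, 0, 1, 0, 0, -1, 0]),
  (1279897960945832118374400, [0, 0, 0, 0, 1, 0, 0, 0, 1]),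
  (99678009322806372891619200, [0, 0, 0, 0, 0, 1, 1, 0, 0]),
  (6186345156831674857881600, [0, 0, 0, 0, 0, 1, 0, -1, 0]),
  (6168398265226758171340800, [0, 0, 0, 0, 0, 1, 0, 0, 1]),
  (2825184885790108126924800, [0, 0, 0, 0, 0, 0, 1, 1, 0]),
  (264867686710399400140800, [0, 0, 0, 0, 0, 0, 1, 0, -1]),
  (6532084169139653591040000, [0, 0, 0, 0, 0, 0, 0, 1, 1]),
  (9673446268930054182865488000, [1, 0, 0, 0, 0, 0, 0, 0, 0]),
  (9690200112366986977342886400, [0, 1, 0, 0, 0, 0, 0, 0, 0]),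
  (9695932013908217133210484800, [0, 0, 1, 0, 0, 0, 0, 0, 0]),
  (9737953498414487563985617920, [0, 0, 0, 1, 0, 0, 0, 0, 0]),
  (9652444044451201157292525600, [0, 0, 0, 0, 1, 0, 0, 0, 0]),
  (9550244860302199724756114400, [0, 0, 0, 0, 0, 1, 0, 0, 0]),
  (9577869940862875027040515200, [0, 0, 0, 0, 0, 0, 1, 0, 0]),
  (9720348054774893964519275520, [0, 0, 0, 0, 0, 0, 0, 1, 0]),
  (9739810025219497037063500800, [0, 0, 0, 0, 0, 0, 0, 0, 1])]

def M0 : List (List ℤ) := [[9264490704617522178108689280000, 30953378708147166168784158720000, 2251115268221522428566865920000, 667091198969605460318929920000, -42904722219145159875892346880000, 26543590307802603593564590080000, -26523028314002960377403744160000, -7162975250930174877012510720000, -5054948605884454836191092224000],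
  [25928507034997560496482390835200, 3768521842748089579295979360000, 1116706893650853399552481689600, -71825319896677493005294454880000, 44435689652426732366218947993600, -44401451060236355879323541760000, -11991320082529946380590623539200, -8462302102660952149644031718400],
  [156579451286266375083763200000, 81213841781577100606832640000, -5223588892425313499519700480000, 3231640945445109111466468761600, -3229194653485866565515706320000, -872102532737918080275747840000, -615429923652950030440484428800],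
  [31566300541569311433143961600, -1547882860799539176764866560000, 957619965294098510143541760000, -956876795649875525088545280000, -258422317592105222932034856960, -182347077351467193749176320000],
  [49798396457099238048284822400000, -61592613032347479569041755480000, 61545327519836618732034205200000, 16621221906129778778821155840000, 11729682816720664513378422988800],
  [19072120551862109439575876400000, -38075625176406374206932977721600, -10282961799903866263962579763200, -7256715386644417308523014758400],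
  [19042815905490210193321466400000, 10275028275883890311615421849600, 7251132655699502451341528678400],
  [1406997853908976277875261440000, 1958291540938734663796162560000],
  [710522091262133009553705984000]]

def u0 : List ℤ := [0, 0, 0, 0, 0, 710522091262133009553705984000, -7256715386644417308523014758400, -8462302102660952149644031718400, 44435689652426732366218947993600, 25928507034997560496482390835200, 0, 0, 0, 0, 0, 0, 0, 0, 0, 0, 0, 0, 0, 0, -615429923652950030440484428800, 7251132655699502451341528678400, 3231640945445109111466468761600, -38075625176406374206932977721600, 3768521842748089579295979360000, -44401451060236355879323541760000, 0, 0, 0, 0, 1406997853908976277875261440000, 0, 0, 0, 0, 0, 0, 0, 0, 0, 1958291540938734663796162560000, -10282961799903866263962579763200, -13457989101547908456748657459200, -872102532737918080275747840000, 10275028275883890311615421849600, 0, 0, 0, 0, 0, 0, 0, 0, 0, 0, 0, 0,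 -258422317592105222932034856960, 0, 0, 0, 0, 31566300541569311433143961600, -956876795649875525088545280000, -182347077351467193749176320000, 957619965294098510143541760000, 1116706893650853399552481689600, 9264490704617522178108689280000, 30953378708147166168784158720000, -40653606950923637447325480960000, 667091198969605460318929920000, 26543590307802603593564590080000, -26523028314002960377403744160000, -7162975250930174877012510720000, -5054948605884454836191092224000, -71825319896677493005294454880000, 156579451286266375083763200000, -5223588892425313499519700480000, -3229194653485866565515706320000, 49798396457099238048284822400000, -61592613032347479569041755480000, 61545327519836618732034205200000, 16621221906129778778821155840000, 11729682816720664513378422988800, 19072120551862109439575876400000, 19042815905490210193321466400000]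

theorem gr0 : eqM (gramT rows0) M0 = true := by
  decide +kernel

theorem mv0 : eqZ (mval M0 tab0) u0 = true := by
  decide +kernel

theorem nn0 (E : Env κ ι) : 0 ≤ dot (ek E keys) u0 0 :=
  block_nonneg E _ _ _ _ _ (tri0 E) rows0 M0 gr0 u0 mv0

end

def p1_0_0 : Cov := [(2, 1, 2, [(0, [0], [3, 4]), (0, [0], [3, 4]), (1, [], [0, 1]), (3, [], [2])]),
  (-2, 1, 2, [(0, [0], [3, 4]), (0, [0], [3, 4]), (1, [], [1, 2]), (3, [], [0])])]

def c1_0 : Cov := p1_0_0

def p1_1_0 : Cov := [(1, 1, 2, [(0, [0], [3, 4]), (0, [0], [0, 3]), (1, [], [1, 2]), (3, [], [4])]),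
  (-1, 1, 2, [(0, [0], [3, 4]), (0, [0], [2, 3]), (1, [], [0, 1]), (3, [], [4])])]

def c1_1 : Cov := p1_1_0

def p1_2_0 : Cov := [(2, 1, 2, [(0, [0], [3, 4]), (0, [0], [0, 1]), (1, [], [2, 3]), (3, [], [4])]),
  (-2, 1, 2, [(0, [0], [3, 4]), (0, [0], [1, 2]), (1, [], [0, 3]), (3, [], [4])])]

def c1_2 : Cov := p1_2_0

def p1_3_0 : Cov := [(2, 1, 2, [(0, [0], [0, 3]), (0, [0], [1, 4]), (1, [], [3, 4]), (3, [], [2])]),
  (-2, 1, 2, [(0, [0], [1, 3]), (0, [0], [2, 4]), (1, [], [3, 4]), (3, [], [0])])]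

def c1_3 : Cov := p1_3_0

def p1_4_0 : Cov := [(2, 1, 2, [(0, [0], [0, 3]), (0, [0], [1, 3]), (1, [], [2, 4]), (3, [], [4])]),
  (-2, 1, 2, [(0, [0], [1, 3]), (0, [0], [2, 3]), (1, [], [0, 4]), (3, [], [4])])]

def c1_4 : Cov := p1_4_0

def p1_5_0 : Cov := [(2, 1, 1, [(0, [0], [0, 3]), (0, [0], [1, 3]), (3, [], [2])]),
  (-2, 1, 1, [(0, [0], [1, 3]), (0, [0], [2, 3]), (3, [], [0])])]

def c1_5 : Cov := p1_5_0

def p1_6_0 : Cov := [(1, 1, 2, [(0, [0], [0, 3]), (0, [0], [1, 2]), (1, [], [3, 4]), (3, [], [4])]),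
  (-1, 1, 2, [(0, [0], [0, 1]), (0, [0], [2, 3]), (1, [], [3, 4]), (3, [], [4])])]

def c1_6 : Cov := p1_6_0

def p1_7_0 : Cov := [(1, 1, 1, [(0, [0], [0, 3]), (0, [0], [1, 2]), (3, [], [3])]),
  (-1, 1, 1, [(0, [0], [0, 1]), (0, [0], [2, 3]), (3, [], [3])])]

def c1_7 : Cov := p1_7_0

def p1_8_0 : Cov := [(1, 1, 2, [(0, [0], [3, 4]), (0, [0], [0, 3]), (1, [], [1, 4]), (3, [], [2])]),
  (1, 1, 2, [(0, [0], [3, 4]), (0, [0], [1, 3]), (1, [], [0, 4]), (3, [], [2])]),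
  (-1, 1, 2, [(0, [0], [3, 4]), (0, [0], [1, 3]), (1, [], [2, 4]), (3, [], [0])]),
  (-1, 1, 2, [(0, [0], [3, 4]), (0, [0], [2, 3]), (1, [], [1, 4]), (3, [], [0])])]

def c1_8 : Cov := p1_8_0

def p1_9_0 : Cov := [(1, 1, 2, [(0, [0], [3, 4]), (0, [0], [0, 3]), (1, [], [2, 4]), (3, [], [1])]),
  (-1, 1, 2, [(0, [0], [3, 4]), (0, [0], [1, 3]), (1, [], [0, 4]), (3, [], [2])]),
  (1, 1, 2, [(0, [0], [3, 4]), (0, [0], [1, 3]), (1, [], [2, 4]), (3, [], [0])]),
  (-1, 1, 2, [(0, [0], [3, 4]), (0, [0], [2, 3]), (1, [], [0, 4]), (3, [], [1])])]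

def c1_9 : Cov := p1_9_0

def p1_10_0 : Cov := [(1, 1, 2, [(0, [0], [0, 3]), (0, [0], [1, 4]), (1, [], [2, 3]), (3, [], [4])]),
  (1, 1, 2, [(0, [0], [0, 3]), (0, [0], [1, 4]), (1, [], [2, 4]), (3, [], [3])]),
  (-1, 1, 2, [(0, [0], [1, 3]), (0, [0], [2, 4]), (1, [], [0, 3]), (3, [], [4])]),
  (-1, 1, 2, [(0, [0], [1, 3]), (0, [0], [2, 4]), (1, [], [0, 4]), (3, [], [3])])]

def c1_10 : Cov := p1_10_0

def p1_11_0 : Cov := [(-1, 1, 2, [(0, [0], [0, 3]), (0, [0], [1, 4]), (1, [], [2, 4]), (3, [], [3])]),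
  (1, 1, 2, [(0, [0], [0, 3]), (0, [0], [2, 4]), (1, [], [1, 3]), (3, [], [4])]),
  (-1, 1, 2, [(0, [0], [0, 3]), (0, [0], [2, 4]), (1, [], [1, 4]), (3, [], [3])]),
  (1, 1, 2, [(0, [0], [1, 3]), (0, [0], [2, 4]), (1, [], [0, 3]), (3, [], [4])])]

def c1_11 : Cov := p1_11_0

theorem t1_0_0_0 : chkF keys 0 3 p1_0_0 c1_0
  [(90, 16, 16, 105972786, 106041411), (9, 16, 16, 88147491, 40173891), (9, 16, 16, 88146726, 6627651), (90, 16, 16, 105972516, 105914691)]
  [(9, -8), (90, 8)] = true := by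
  decide +kernel

theorem t1_0_1_0 : chkF keys 0 3 p1_0_0 c1_1
  [(28, 16, 16, 105972516, 105914691), (91, 16, 16, 105972786, 106041411), (91, 16, 16, 105972516, 105914691), (28, 16, 16, 105972771, 106037571)]
  [(28, 4), (91, -4)] = true := by
  decide +kernel

theorem t1_0_2_0 : chkF keys 0 3 p1_0_0 c1_2
  [(8, 1, 1, 52774416, 37971216), (92, 16, 16, 105972786, 106041411), (92, 16, 16, 105972276, 105910851), (8, 1, 1, 52773126, 4416801)]
  [(8, 8), (92, -8)] = true := by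
  decide +kernel

theorem t1_0_3_0 : chkF keys 0 3 p1_0_0 c1_3
  [(93, 16, 16, 105972786, 106041411), (29, 16, 16, 88147491, 40173891), (29, 16, 16, 72418086, 5644611), (93, 16, 16, 105972516, 105914691)]
  [(29, -8), (93, 8)] = true := by
  decide +kernel

theorem t1_0_4_0 : chkF keys 0 3 p1_0_0 c1_4
  [(72, 1, 1, 101008161, 105062661), (28, 16, 16, 55641666, 38887491), (28, 16, 16, 55640646, 5333571), (72, 1, 1, 101007891, 105054741)]
  [(28, -8), (72, 8)] = true := by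
  decide +kernel

theorem t1_0_5_0 : chkF keys 0 3 p1_0_0 c1_5
  [(74, 1, 1, 344865, 4399365), (46, 1, 1, 1323525, 275025), (46, 1, 1, 1324290, 2371665), (74, 1, 1, 344595, 4391445)]
  [(46, -8), (74, 8)] = true := by
  decide +kernel

theorem t1_0_6_0 : chkF keys 0 3 p1_0_0 c1_6
  [(29, 16, 16, 52495956, 34628931), (8, 1, 1, 103105296, 105063696), (8, 1, 1, 103104771, 105055521), (29, 16, 16, 52495446, 1205571)]
  [(8, -4), (29, 4)] = true := by
  decide +kernel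

theorem t1_0_7_0 : chkF keys 0 3 p1_0_0 c1_7
  [(67, 16, 16, 5309490, 5378115), (69, 16, 16, 5308995, 5308995), (69, 16, 16, 5309490, 5378115), (67, 16, 16, 4260645, 336195)]
  [(67, 4), (69, -4)] = true := by
  decide +kernel

theorem t1_0_8_0 : chkF keys 0 3 p1_0_0 c1_8
  [(94, 16, 16, 105972786, 106041411), (94, 16, 16, 105972771, 106037571), (79, 16, 16, 88147491, 40173891), (28, 16, 16, 72418851, 39190851), (28, 16, 16, 72418086, 5644611), (79, 16, 16, 88146726, 6627651), (94, 16, 16, 105972516, 105914691), (94, 16, 16, 105972276, 105910851)]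
  [(28, -4), (79, -4), (94, 8)] = true := by
  decide +kernel

theorem t1_0_9_0 : chkF keys 0 3 p1_0_0 c1_9
  [(79, 16, 16, 88147506, 40177731), (94, 16, 16, 105972771, 106037571), (79, 16, 16, 88147491, 40173891), (28, 16, 16, 72418866, 39194691), (28, 16, 16, 72417846, 5640771), (79, 16, 16, 88146726, 6627651), (94, 16, 16, 105972516, 105914691), (79, 16, 16, 88146486, 6623811)]
  [(28, -4), (79, 8), (94, -4)] = true := by
  decide +kernel

theorem t1_0_10_0 : chkF keys 0 3 p1_0_0 c1_10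
  [(29, 16, 16, 102826836, 101721411), (29, 16, 16, 39912261, 83961411), (95, 16, 16, 105972786, 106041411), (92, 16, 16, 88147506, 40177731), (92, 16, 16, 72417846, 5640771), (95, 16, 16, 90243636, 90182211), (29, 16, 16, 102827331, 102827331), (29, 16, 16, 39912531, 85067331)]
  [(29, 8), (92, -4), (95, -4)] = true := by
  decide +kernel

theorem t1_0_11_0 : chkF keys 0 3 p1_0_0 c1_11
  [(29, 16, 16, 39912261, 83961411), (95, 16, 16, 105972771, 106037571), (92, 16, 16, 88147491, 40173891), (95, 16, 16, 105972786, 106041411), (95, 16, 16, 90243636, 90182211), (92, 16, 16, 72418086, 5644611), (95, 16, 16, 90243876, 90186051), (29, 16, 16, 102827331, 102827331)]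
  [(29, -4), (92, -4), (95, 8)] = true := by
  decide +kernel

theorem t1_1_1_0 : chkF keys 0 3 p1_1_0 c1_1
  [(17, 16, 16, 103089201, 104994051), (80, 16, 16, 104990001, 103093251), (80, 16, 16, 104988981, 100996131), (17, 16, 16, 103088451, 104924451)]
  [(17, 2), (80, -2)] = true := by
  decide +kernel

theorem t1_1_2_0 : chkF keys 0 3 p1_1_0 c1_2
  [(96, 16, 16, 105972786, 106041411), (26, 1, 1, 52842756, 70280481), (26, 1, 1, 52843536, 70411536), (96, 16, 16, 105972276, 105910851)]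
  [(26, -4), (96, 4)] = true := by
  decide +kernel

theorem t1_1_3_0 : chkF keys 0 3 p1_1_0 c1_3
  [(97, 16, 16, 105972786, 106041411), (98, 16, 16, 105972786, 106041411), (98, 16, 16, 105972291, 105972291), (97, 16, 16, 90243636, 90182211)]
  [(97, 4), (98, -4)] = true := by
  decide +kernel

theorem t1_1_4_0 : chkF keys 0 3 p1_1_0 c1_4
  [(99, 16, 16, 105972786, 106041411), (73, 1, 1, 50741781, 67330581), (73, 1, 1, 50742561, 69427461), (99, 16, 16, 105972276, 105910851)]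
  [(73, -4), (99, 4)] = true := by
  decide +kernel

theorem t1_1_5_0 : chkF keys 0 3 p1_1_0 c1_5
  [(86, 1, 1, 344850, 4399125), (77, 1, 1, 213525, 213525), (77, 1, 1, 214305, 2310405), (86, 1, 1, 344595, 4391445)]
  [(77, -4), (86, 4)] = true := by
  decide +kernel

theorem t1_1_6_0 : chkF keys 0 3 p1_1_0 c1_6
  [(18, 16, 16, 103089201, 104994051), (97, 16, 16, 70321746, 35016771), (97, 16, 16, 70320726, 1462851), (18, 16, 16, 103088451, 104924451)]
  [(18, 2), (97, -2)] = true := by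
  decide +kernel

theorem t1_1_7_0 : chkF keys 0 3 p1_1_0 c1_7
  [(45, 16, 16, 5379120, 5379120), (48, 16, 16, 5379120, 5379120), (48, 16, 16, 5378100, 5248050), (45, 16, 16, 5378115, 5309490)]
  [(45, 2), (48, -2)] = true := by
  decide +kernel

theorem t1_1_8_0 : chkF keys 0 3 p1_1_0 c1_8
  [(99, 16, 16, 55641666, 38887491), (81, 16, 16, 54658641, 34956291), (100, 16, 16, 105972786, 106041411), (100, 16, 16, 105972546, 105979971), (100, 16, 16, 105972291, 105972291), (100, 16, 16, 105972276, 105910851), (81, 16, 16, 54657366, 1401891), (99, 16, 16, 55640646, 5333571)]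
  [(81, 2), (99, 2), (100, -4)] = true := by
  decide +kernel

theorem t1_1_9_0 : chkF keys 0 3 p1_1_0 c1_9
  [(99, 16, 16, 55641186, 22175811), (81, 16, 16, 54658641, 34956291), (100, 16, 16, 105972786, 106041411), (81, 16, 16, 54658401, 19227651), (81, 16, 16, 54657381, 17130531), (100, 16, 16, 105972276, 105910851), (81, 16, 16, 54657366, 1401891), (99, 16, 16, 55640676, 22045251)]
  [(81, -4), (99, 2), (100, 2)] = true := by
  decide +kernel

theorem t1_1_10_0 : chkF keys 0 3 p1_1_0 c1_10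
  [(96, 16, 16, 103875666, 101863491), (101, 16, 16, 105972786, 106041411), (82, 16, 16, 87164001, 23221251), (82, 16, 16, 55707201, 38888451), (82, 16, 16, 87163206, 6378531), (82, 16, 16, 55705956, 22045731), (101, 16, 16, 87097956, 23089731), (96, 16, 16, 56689236, 84959811)]
  [(82, -4), (96, 2), (101, 2)] = true := by
  decide +kernel

theorem t1_1_11_0 : chkF keys 0 3 p1_1_0 c1_11
  [(101, 16, 16, 105972786, 106041411), (96, 16, 16, 103875906, 102846531), (101, 16, 16, 55641666, 38887491), (82, 16, 16, 87164001, 23221251), (82, 16, 16, 55705956, 22045731), (101, 16, 16, 87097926, 6378051), (96, 16, 16, 56689221, 83976771), (101, 16, 16, 87097956, 23089731)]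
  [(82, 2), (96, 2), (101, -4)] = true := by
  decide +kernel

theorem t1_2_2_0 : chkF keys 0 3 p1_2_0 c1_2
  [(102, 16, 16, 105972786, 106041411), (103, 16, 16, 105972786, 106041411), (103, 16, 16, 105972276, 105910851), (102, 16, 16, 105972516, 105914691)]
  [(102, 8), (103, -8)] = true := by
  decide +kernel

theorem t1_2_3_0 : chkF keys 0 3 p1_2_0 c1_3
  [(104, 16, 16, 105972786, 106041411), (105, 16, 16, 105972786, 106041411), (105, 16, 16, 90243636, 90182211), (104, 16, 16, 105972516, 105914691)]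
  [(104, 8), (105, -8)] = true := by
  decide +kernel

theorem t1_2_4_0 : chkF keys 0 3 p1_2_0 c1_4
  [(106, 16, 16, 105972786, 106041411), (107, 16, 16, 105972786, 106041411), (107, 16, 16, 105972276, 105910851), (106, 16, 16, 105972516, 105914691)]
  [(106, 8), (107, -8)] = true := by
  decide +kernel

theorem t1_2_5_0 : chkF keys 0 3 p1_2_0 c1_5
  [(108, 16, 16, 5309490, 5378115), (53, 16, 16, 3211845, 86595), (53, 16, 16, 3212610, 2183235), (108, 16, 16, 5309220, 5251395)]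
  [(53, -8), (108, 8)] = true := by
  decide +kernel

theorem t1_2_6_0 : chkF keys 0 3 p1_2_0 c1_6
  [(109, 16, 16, 105972786, 106041411), (110, 16, 16, 105972786, 106041411), (110, 16, 16, 105972516, 105914691), (109, 16, 16, 105972276, 105910851)]
  [(109, 4), (110, -4)] = true := by
  decide +kernel

theorem t1_2_7_0 : chkF keys 0 3 p1_2_0 c1_7
  [(52, 16, 16, 5308980, 5247555), (111, 16, 16, 5309490, 5378115), (111, 16, 16, 5309220, 5251395), (52, 16, 16, 5309490, 5378115)]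
  [(52, 4), (111, -4)] = true := by
  decide +kernel

theorem t1_2_8_0 : chkF keys 0 3 p1_2_0 c1_8
  [(112, 16, 16, 105972786, 106041411), (112, 16, 16, 105972771, 106037571), (113, 16, 16, 105972786, 106041411), (114, 16, 16, 105972786, 106041411), (114, 16, 16, 105972276, 105910851), (113, 16, 16, 105972276, 105910851), (112, 16, 16, 105972516, 105914691), (112, 16, 16, 105972276, 105910851)]
  [(112, 8), (113, -4), (114, -4)] = true := by
  decide +kernel

theorem t1_2_9_0 : chkF keys 0 3 p1_2_0 c1_9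
  [(113, 16, 16, 105972771, 106037571), (112, 16, 16, 105972771, 106037571), (113, 16, 16, 105972786, 106041411), (114, 16, 16, 105972771, 106037571), (114, 16, 16, 105972516, 105914691), (113, 16, 16, 105972276, 105910851), (112, 16, 16, 105972516, 105914691), (113, 16, 16, 105972516, 105914691)]
  [(112, -4), (113, 8), (114, -4)] = true := by
  decide +kernel

theorem t1_2_10_0 : chkF keys 0 3 p1_2_0 c1_10
  [(115, 16, 16, 105972786, 106041411), (115, 16, 16, 90244131, 90308931), (116, 16, 16, 105972786, 106041411), (117, 16, 16, 105972786, 106041411), (117, 16, 16, 90243636, 90182211), (116, 16, 16, 90243636, 90182211), (115, 16, 16, 105972516, 105914691), (115, 16, 16, 90243636, 90182211)]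
  [(115, 8), (116, -4), (117, -4)] = true := by
  decide +kernel

theorem t1_2_11_0 : chkF keys 0 3 p1_2_0 c1_11
  [(115, 16, 16, 90244131, 90308931), (116, 16, 16, 105972771, 106037571), (117, 16, 16, 105972771, 106037571), (116, 16, 16, 105972786, 106041411), (116, 16, 16, 90243636, 90182211), (117, 16, 16, 90243876, 90186051), (116, 16, 16, 90243876, 90186051), (115, 16, 16, 105972516, 105914691)]
  [(115, -4), (116, 8), (117, -4)] = true := by
  decide +kernel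

theorem t1_3_3_0 : chkF keys 0 3 p1_3_0 c1_3
  [(118, 16, 16, 106107936, 106053936), (89, 16, 16, 73598241, 86393091), (89, 16, 16, 104870181, 101003556), (118, 16, 16, 106107396, 105923121)]
  [(89, -8), (118, 8)] = true := by
  decide +kernel

theorem t1_3_4_0 : chkF keys 0 3 p1_3_0 c1_4
  [(119, 16, 16, 106107936, 106053936), (97, 1, 1, 67461411, 54919461), (97, 1, 1, 67523361, 70656261), (119, 16, 16, 106107396, 105923121)]
  [(97, -8), (119, 8)] = true := by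
  decide +kernel

theorem t1_3_5_0 : chkF keys 0 3 p1_3_0 c1_5
  [(120, 16, 16, 5444640, 5390640), (48, 1, 1, 1262085, 213585), (48, 1, 1, 1324290, 2371665), (120, 16, 16, 5444100, 5259825)]
  [(48, -8), (120, 8)] = true := by
  decide +kernel

theorem t1_3_6_0 : chkF keys 0 3 p1_3_0 c1_6
  [(121, 16, 16, 106107936, 106053936), (104, 1, 1, 67522866, 70651941), (104, 1, 1, 67523361, 70656261), (121, 16, 16, 105984036, 105918786)]
  [(104, -4), (121, 4)] = true := by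
  decide +kernel

theorem t1_3_7_0 : chkF keys 0 3 p1_3_0 c1_7
  [(55, 1, 1, 1254720, 2179920), (122, 16, 16, 5444640, 5390640), (122, 16, 16, 5444100, 5259825), (55, 1, 1, 5448705, 5391105)]
  [(55, 4), (122, -4)] = true := by
  decide +kernel

theorem t1_3_8_0 : chkF keys 0 3 p1_3_0 c1_8
  [(123, 16, 16, 106107936, 106053936), (123, 16, 16, 105985026, 106049601), (85, 1, 1, 17187621, 67314021), (82, 1, 1, 17187381, 67310181), (82, 1, 1, 17065266, 52695141), (85, 1, 1, 17065251, 52691301), (123, 16, 16, 106107396, 105923121), (123, 16, 16, 105984036, 105918786)]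
  [(82, -4), (85, -4), (123, 8)] = true := by
  decide +kernel

theorem t1_3_9_0 : chkF keys 0 3 p1_3_0 c1_9
  [(85, 1, 1, 17064786, 51650661), (123, 16, 16, 105985026, 106049601), (85, 1, 1, 17187621, 67314021), (82, 1, 1, 17064531, 51642981), (82, 1, 1, 17187666, 68362341), (85, 1, 1, 17065251, 52691301), (123, 16, 16, 106107396, 105923121), (85, 1, 1, 17187411, 68354661)]
  [(82, -4), (85, 8), (123, -4)] = true := by
  decide +kernel

theorem t1_3_10_0 : chkF keys 0 3 p1_3_0 c1_10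
  [(121, 16, 16, 72554016, 39207216), (121, 16, 16, 88159746, 40185921), (124, 16, 16, 106107936, 106053936), (105, 1, 1, 2449716, 54531366), (105, 1, 1, 33969201, 70391301), (124, 16, 16, 90255396, 90190146), (121, 16, 16, 72552966, 5653041), (121, 16, 16, 88158246, 6631746)]
  [(105, -4), (121, 8), (124, -4)] = true := by
  decide +kernel

theorem t1_3_11_0 : chkF keys 0 3 p1_3_0 c1_11
  [(121, 16, 16, 88159746, 40185921), (124, 16, 16, 105985026, 106049601), (105, 1, 1, 2511171, 70321446), (124, 16, 16, 106107936, 106053936), (124, 16, 16, 90255396, 90190146), (105, 1, 1, 33907521, 54601221), (124, 16, 16, 90378756, 90194481), (121, 16, 16, 72552966, 5653041)]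
  [(105, -4), (121, -4), (124, 8)] = true := by
  decide +kernel

theorem t1_4_4_0 : chkF keys 0 3 p1_4_0 c1_4
  [(125, 16, 16, 106173216, 106176816), (83, 16, 16, 54920481, 69558531), (83, 16, 16, 54919461, 67461411), (125, 16, 16, 106172931, 106168881)]
  [(83, -8), (125, 8)] = true := by
  decide +kernel

theorem t1_4_5_0 : chkF keys 0 3 p1_4_0 c1_5
  [(126, 16, 16, 5509920, 5513520), (86, 1, 1, 213285, 213285), (86, 1, 1, 214305, 2310405), (126, 16, 16, 5509635, 5505585)]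
  [(86, -8), (126, 8)] = true := by
  decide +kernel

theorem t1_4_6_0 : chkF keys 0 3 p1_4_0 c1_6
  [(127, 16, 16, 106173216, 106176816), (128, 16, 16, 106173216, 106176816), (128, 16, 16, 70652421, 67523121), (127, 16, 16, 70652421, 67523121)]
  [(127, 4), (128, -4)] = true := by
  decide +kernel

theorem t1_4_7_0 : chkF keys 0 3 p1_4_0 c1_7
  [(58, 1, 1, 5447700, 5260050), (108, 1, 1, 1331250, 3412050), (108, 1, 1, 1332000, 3416400), (58, 1, 1, 5448720, 5391120)]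
  [(58, 4), (108, -4)] = true := by
  decide +kernel

theorem t1_4_8_0 : chkF keys 0 3 p1_4_0 c1_8
  [(129, 16, 16, 106173216, 106176816), (129, 16, 16, 106173186, 106176561), (99, 16, 16, 55968801, 72507651), (81, 16, 16, 54920466, 69558291), (81, 16, 16, 54919701, 67461651), (99, 16, 16, 55968036, 72376611), (129, 16, 16, 106172931, 106168881), (129, 16, 16, 106172451, 106168626)]
  [(81, -4), (99, -4), (129, 8)] = true := by
  decide +kernel

theorem t1_4_9_0 : chkF keys 0 3 p1_4_0 c1_9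
  [(99, 16, 16, 55968786, 72507411), (129, 16, 16, 106173186, 106176561), (99, 16, 16, 55968801, 72507651), (81, 16, 16, 54920481, 69558531), (81, 16, 16, 54919461, 67461411), (99, 16, 16, 55968036, 72376611), (129, 16, 16, 106172931, 106168881), (99, 16, 16, 55968276, 72376851)]
  [(81, -4), (99, 8), (129, -4)] = true := by
  decide +kernel

theorem t1_4_10_0 : chkF keys 0 3 p1_4_0 c1_10
  [(130, 16, 16, 106173216, 106176816), (130, 16, 16, 90444546, 90447921), (112, 1, 1, 20205606, 3428706), (131, 16, 16, 106173216, 106176816), (131, 16, 16, 90443811, 90439986), (112, 1, 1, 51664416, 36987216), (130, 16, 16, 106172931, 106168881), (130, 16, 16, 90443811, 90439986)]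
  [(112, -4), (130, 8), (131, -4)] = true := by
  decide +kernel

theorem t1_4_11_0 : chkF keys 0 3 p1_4_0 c1_11
  [(130, 16, 16, 90444546, 90447921), (112, 1, 1, 20205666, 20205666), (131, 16, 16, 106173186, 106176561), (112, 1, 1, 20205606, 3428706), (112, 1, 1, 51664416, 36987216), (131, 16, 16, 90444291, 90440241), (112, 1, 1, 51663456, 20210256), (130, 16, 16, 106172931, 106168881)]
  [(112, 8), (130, -4), (131, -4)] = true := by
  decide +kernel

theorem t1_5_5_0 : chkF keys 0 3 p1_5_0 c1_5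
  [(132, 16, 16, 267040, 270640), (34, 16, 16, 132115, 132115), (34, 16, 16, 131860, 9235), (132, 16, 16, 266755, 262705)]
  [(34, -8), (132, 8)] = true := by
  decide +kernel

theorem t1_5_6_0 : chkF keys 0 3 p1_5_0 c1_6
  [(58, 1, 1, 3155265, 2183940), (108, 1, 1, 4215090, 3477540), (108, 1, 1, 4215585, 3481860), (58, 1, 1, 3154245, 86820)]
  [(58, 4), (108, -4)] = true := by
  decide +kernel

theorem t1_5_7_0 : chkF keys 0 3 p1_5_0 c1_7
  [(56, 16, 16, 132145, 136195), (133, 16, 16, 267040, 270640), (133, 16, 16, 266755, 262705), (56, 16, 16, 262930, 270355)]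
  [(56, 4), (133, -4)] = true := by
  decide +kernel

theorem t1_5_8_0 : chkF keys 0 3 p1_5_0 c1_8
  [(134, 16, 16, 5509920, 5513520), (134, 16, 16, 5509890, 5513265), (86, 1, 1, 1065765, 205140), (47, 16, 16, 3413250, 2379825), (47, 16, 16, 3412485, 283185), (86, 1, 1, 1066275, 2294100), (134, 16, 16, 5509635, 5505585), (134, 16, 16, 5509155, 5505330)]
  [(47, -4), (86, -4), (134, 8)] = true := by
  decide +kernel

theorem t1_5_9_0 : chkF keys 0 3 p1_5_0 c1_9
  [(86, 1, 1, 1065810, 1253460), (134, 16, 16, 5509890, 5513265), (86, 1, 1, 1065765, 205140), (47, 16, 16, 3413280, 2380080), (47, 16, 16, 3412005, 282930), (86, 1, 1, 1066275, 2294100), (134, 16, 16, 5509635, 5505585), (86, 1, 1, 1065555, 1245780)]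
  [(47, -4), (86, 8), (134, -4)] = true := by
  decide +kernel

theorem t1_5_10_0 : chkF keys 0 3 p1_5_0 c1_10
  [(58, 1, 1, 5251905, 5317380), (58, 1, 1, 336660, 4203285), (135, 16, 16, 5509920, 5513520), (53, 1, 1, 340290, 4272165), (53, 1, 1, 5255745, 5321220), (135, 16, 16, 4395045, 344370), (58, 1, 1, 5252115, 5374740), (58, 1, 1, 336195, 4260645)]
  [(53, -4), (58, 8), (135, -4)] = true := by
  decide +kernel

theorem t1_5_11_0 : chkF keys 0 3 p1_5_0 c1_11
  [(58, 1, 1, 336660, 4203285), (135, 16, 16, 3413250, 2379825), (53, 1, 1, 340260, 4206885), (135, 16, 16, 5509920, 5513520), (135, 16, 16, 4395045, 344370), (53, 1, 1, 5256225, 5386500), (135, 16, 16, 4395525, 344625), (58, 1, 1, 5252115, 5374740)]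
  [(53, -4), (58, -4), (135, 8)] = true := by
  decide +kernel

theorem t1_6_6_0 : chkF keys 0 3 p1_6_0 c1_6
  [(136, 16, 16, 106173216, 106176816), (137, 16, 16, 106173216, 106176816), (137, 16, 16, 106172451, 106168626), (136, 16, 16, 106172466, 106172466)]
  [(136, 2), (137, -2)] = true := by
  decide +kernel

theorem t1_6_7_0 : chkF keys 0 3 p1_6_0 c1_7
  [(138, 16, 16, 5509920, 5513520), (57, 16, 16, 5440545, 5390595), (57, 16, 16, 5439780, 5259555), (138, 16, 16, 5509170, 5509170)]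
  [(57, -2), (138, 2)] = true := by
  decide +kernel

theorem t1_6_8_0 : chkF keys 0 3 p1_6_0 c1_8
  [(107, 16, 16, 72753411, 72745761), (131, 1, 1, 1324326, 2371926), (112, 16, 16, 106169121, 106176771), (112, 16, 16, 106168881, 106172931), (112, 16, 16, 106168626, 106172451), (112, 16, 16, 106168611, 106168611), (131, 1, 1, 1324581, 33829206), (107, 16, 16, 72753921, 72753921)]
  [(107, 2), (112, -4), (131, 2)] = true := by
  decide +kernel

theorem t1_6_9_0 : chkF keys 0 3 p1_6_0 c1_9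
  [(107, 16, 16, 72753171, 72745746), (131, 1, 1, 1324326, 2371926), (112, 16, 16, 106169121, 106176771), (131, 1, 1, 1323606, 1323606), (131, 1, 1, 1324626, 34877526), (112, 16, 16, 106168611, 106168611), (131, 1, 1, 1324581, 33829206), (107, 16, 16, 72753936, 72753936)]
  [(107, 2), (112, 2), (131, -4)] = true := by
  decide +kernel

theorem t1_6_10_0 : chkF keys 0 3 p1_6_0 c1_10
  [(139, 16, 16, 106173216, 106176816), (140, 16, 16, 106173216, 106176816), (141, 16, 16, 106173216, 106176816), (141, 16, 16, 90444336, 90444336), (141, 16, 16, 106172466, 106172466), (141, 16, 16, 90443811, 90439986), (140, 16, 16, 90443811, 90439986), (139, 16, 16, 90443811, 90439986)]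
  [(139, 2), (140, 2), (141, -4)] = true := by
  decide +kernel

theorem t1_6_11_0 : chkF keys 0 3 p1_6_0 c1_11
  [(140, 16, 16, 106173216, 106176816), (139, 16, 16, 106172976, 106172976), (140, 16, 16, 106172976, 106172976), (141, 16, 16, 106173216, 106176816), (141, 16, 16, 90443811, 90439986), (140, 16, 16, 90443826, 90443826), (139, 16, 16, 90443826, 90443826), (140, 16, 16, 90443811, 90439986)]
  [(139, 2), (140, -4), (141, 2)] = true := by
  decide +kernel

theorem t1_7_7_0 : chkF keys 0 3 p1_7_0 c1_7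
  [(142, 16, 16, 267040, 270640), (35, 16, 16, 213010, 213010), (35, 16, 16, 213520, 213520), (142, 16, 16, 266290, 266290)]
  [(35, -2), (142, 2)] = true := by
  decide +kernel

theorem t1_7_8_0 : chkF keys 0 3 p1_7_0 c1_8
  [(53, 16, 16, 2314500, 3163425), (53, 16, 16, 2299200, 2180400), (135, 1, 1, 78885, 143685), (135, 1, 1, 78405, 78405), (135, 1, 1, 79170, 2175045), (135, 1, 1, 79140, 2109765), (53, 16, 16, 2297925, 83250), (53, 16, 16, 2315265, 3294465)]
  [(53, 4), (135, -4)] = true := by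
  decide +kernel

theorem t1_7_9_0 : chkF keys 0 3 p1_7_0 c1_9
  [(53, 16, 16, 2314260, 3163410), (53, 16, 16, 2299200, 2180400), (135, 1, 1, 78885, 143685), (53, 16, 16, 2298960, 1197360), (53, 16, 16, 2297940, 1066290), (135, 1, 1, 79140, 2109765), (53, 16, 16, 2297925, 83250), (53, 16, 16, 2315280, 3294480)]
  [(53, -2), (135, 2)] = true := by
  decide +kernel

theorem t1_7_10_0 : chkF keys 0 3 p1_7_0 c1_10
  [(54, 16, 16, 5378880, 5317680), (143, 16, 16, 5509920, 5513520), (52, 16, 16, 5379120, 5379120), (52, 16, 16, 2429760, 4269360), (52, 16, 16, 5378115, 5309490), (52, 16, 16, 2428980, 4199730), (143, 16, 16, 4526115, 4522290), (54, 16, 16, 2428995, 4261170)]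
  [(52, -4), (54, 2), (143, 2)] = true := by
  decide +kernel

theorem t1_7_11_0 : chkF keys 0 3 p1_7_0 c1_11
  [(143, 16, 16, 5509920, 5513520), (54, 16, 16, 5379120, 5379120), (143, 16, 16, 5509680, 5509680), (52, 16, 16, 5379120, 5379120), (52, 16, 16, 2428980, 4199730), (143, 16, 16, 4526130, 4526130), (54, 16, 16, 2428980, 4199730), (143, 16, 16, 4526115, 4522290)]
  [(52, 2), (54, 2), (143, -4)] = true := by
  decide +kernel

theorem t1_8_8_0 : chkF keys 0 3 p1_8_0 c1_8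
  [(144, 16, 16, 105972786, 106041411), (145, 16, 16, 105972786, 106041411), (81, 16, 16, 88147506, 40177731), (80, 16, 16, 88147506, 40177731), (145, 16, 16, 105972771, 106037571), (144, 16, 16, 105972771, 106037571), (83, 16, 16, 88147491, 40173891), (81, 1, 1, 17121846, 4395621), (81, 1, 1, 17122866, 37949541), (83, 16, 16, 88146726, 6627651), (144, 16, 16, 105972516, 105914691), (145, 16, 16, 105972516, 105914691), (80, 16, 16, 88146486, 6623811), (81, 16, 16, 88146486, 6623811), (145, 16, 16, 105972276, 105910851), (144, 16, 16, 105972276, 105910851)]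
  [(80, -2), (81, -4), (83, -2), (144, 4), (145, 4)] = true := by
  decide +kernel

theorem t1_8_9_0 : chkF keys 0 3 p1_8_0 c1_9
  [(83, 16, 16, 88147506, 40177731), (145, 16, 16, 105972786, 106041411), (81, 16, 16, 88147506, 40177731), (81, 1, 1, 17121891, 21168741), (81, 16, 16, 88147491, 40173891), (144, 16, 16, 105972771, 106037571), (83, 16, 16, 88147491, 40173891), (80, 16, 16, 88147491, 40173891), (80, 16, 16, 88146726, 6627651), (83, 16, 16, 88146726, 6627651), (144, 16, 16, 105972516, 105914691), (81, 16, 16, 88146726, 6627651), (81, 1, 1, 17122146, 21176421), (81, 16, 16, 88146486, 6623811), (145, 16, 16, 105972276, 105910851), (83, 16, 16, 88146486, 6623811)]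
  [(80, -2), (81, 2), (83, 4), (144, -2), (145, -2)] = true := by
  decide +kernel

theorem t1_8_10_0 : chkF keys 0 3 p1_8_0 c1_10
  [(107, 1, 1, 19158531, 36963681), (131, 16, 16, 55579746, 22175796), (146, 16, 16, 105972786, 106041411), (114, 1, 1, 51663366, 3433041), (131, 16, 16, 87036966, 6443316), (107, 1, 1, 34887216, 36968016), (147, 16, 16, 105972771, 106037571), (113, 1, 1, 2511156, 70260006), (113, 1, 1, 33969201, 70391301), (147, 16, 16, 90243876, 90186051), (107, 1, 1, 19157046, 3413346), (131, 16, 16, 55580196, 38822196), (114, 1, 1, 33969201, 70391301), (146, 16, 16, 90243636, 90182211), (131, 16, 16, 87036516, 23089716), (107, 1, 1, 34886406, 3417681)]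
  [(107, 4), (113, -2), (114, -2), (131, 4), (146, -2), (147, -2)] = true := by
  decide +kernel

theorem t1_8_11_0 : chkF keys 0 3 p1_8_0 c1_11
  [(131, 16, 16, 55579746, 22175796), (147, 16, 16, 105972786, 106041411), (113, 1, 1, 2511171, 70321446), (146, 16, 16, 105972786, 106041411), (107, 1, 1, 34887216, 36968016), (146, 16, 16, 105972771, 106037571), (114, 1, 1, 51663456, 20210256), (147, 16, 16, 105972771, 106037571), (147, 16, 16, 90243876, 90186051), (114, 1, 1, 33968961, 70329861), (146, 16, 16, 90243876, 90186051), (107, 1, 1, 19157046, 3413346), (146, 16, 16, 90243636, 90182211), (113, 1, 1, 33968961, 70329861), (147, 16, 16, 90243636, 90182211), (131, 16, 16, 87036516, 23089716)]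
  [(107, -2), (113, -2), (114, -2), (131, -2), (146, 4), (147, 4)] = true := by
  decide +kernel

theorem t1_9_9_0 : chkF keys 0 3 p1_9_0 c1_9
  [(144, 16, 16, 105972546, 105979971), (81, 1, 1, 17122851, 37945701), (80, 16, 16, 88146786, 23404611), (145, 16, 16, 105972546, 105979971), (81, 16, 16, 88147491, 40173891), (144, 16, 16, 105972771, 106037571), (83, 16, 16, 88147491, 40173891), (80, 16, 16, 88147491, 40173891), (80, 16, 16, 88146726, 6627651), (83, 16, 16, 88146726, 6627651), (144, 16, 16, 105972516, 105914691), (81, 16, 16, 88146726, 6627651), (145, 16, 16, 105972291, 105972291), (80, 16, 16, 88146531, 23396931), (81, 1, 1, 17122086, 4399461), (144, 16, 16, 105972291, 105972291)]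
  [(80, 4), (81, -4), (83, -2), (144, 4), (145, -2)] = true := by
  decide +kernel

theorem t1_9_10_0 : chkF keys 0 3 p1_9_0 c1_10
  [(147, 16, 16, 105972546, 105979971), (113, 1, 1, 2511891, 70386966), (114, 1, 1, 33968916, 70264341), (146, 16, 16, 90243906, 90251331), (131, 16, 16, 87036966, 6443316), (107, 1, 1, 34887216, 36968016), (147, 16, 16, 105972771, 106037571), (113, 1, 1, 2511156, 70260006), (113, 1, 1, 33969201, 70391301), (147, 16, 16, 90243876, 90186051), (107, 1, 1, 19157046, 3413346), (131, 16, 16, 55580196, 38822196), (146, 16, 16, 105972291, 105972291), (114, 1, 1, 51664416, 36987216), (113, 1, 1, 33968916, 70264341), (147, 16, 16, 90243651, 90243651)]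
  [(107, -2), (113, 4), (114, -2), (131, -2), (146, -2), (147, 4)] = true := by
  decide +kernel

theorem t1_9_11_0 : chkF keys 0 3 p1_9_0 c1_11
  [(113, 1, 1, 2511891, 70386966), (107, 1, 1, 19157091, 20186466), (131, 16, 16, 55580226, 38887476), (114, 1, 1, 33968916, 70264341), (107, 1, 1, 34887216, 36968016), (146, 16, 16, 105972771, 106037571), (114, 1, 1, 51663456, 20210256), (147, 16, 16, 105972771, 106037571), (147, 16, 16, 90243876, 90186051), (114, 1, 1, 33968961, 70329861), (146, 16, 16, 90243876, 90186051), (107, 1, 1, 19157046, 3413346), (114, 1, 1, 51664416, 36987216), (131, 16, 16, 87036486, 6378036), (107, 1, 1, 34886496, 20194896), (113, 1, 1, 33968916, 70264341)]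
  [(107, 4), (113, -2), (114, 4), (131, -2), (146, -2), (147, -2)] = true := by
  decide +kernel

theorem t1_10_10_0 : chkF keys 0 3 p1_10_0 c1_10
  [(148, 16, 16, 106107936, 106053936), (149, 16, 16, 106107936, 106053936), (117, 1, 1, 19218486, 4396386), (150, 16, 16, 106107936, 106053936), (149, 16, 16, 90256386, 90320961), (148, 16, 16, 90256386, 90320961), (103, 16, 16, 104994096, 103093296), (117, 16, 16, 72488496, 39195696), (117, 16, 16, 88154166, 6624066), (103, 16, 16, 73474101, 84284226), (148, 16, 16, 106107396, 105923121), (149, 16, 16, 106107396, 105923121), (150, 16, 16, 90255396, 90190146), (117, 1, 1, 34887216, 36968016), (149, 16, 16, 90255396, 90190146), (148, 16, 16, 90255396, 90190146)]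
  [(103, -2), (117, -4), (148, 4), (149, 4), (150, -2)] = true := by
  decide +kernel

theorem t1_10_11_0 : chkF keys 0 3 p1_10_0 c1_11
  [(149, 16, 16, 106107936, 106053936), (103, 16, 16, 104932611, 103088961), (117, 16, 16, 72427011, 39191361), (117, 1, 1, 19218486, 4396386), (148, 16, 16, 90256386, 90320961), (117, 1, 1, 19157091, 20186466), (150, 16, 16, 105985026, 106049601), (103, 16, 16, 104994096, 103093296), (103, 16, 16, 73474101, 84284226), (150, 16, 16, 90378756, 90194481), (117, 1, 1, 34947936, 21177936), (148, 16, 16, 106107396, 105923121), (117, 1, 1, 34887216, 36968016), (117, 16, 16, 88216326, 6628401), (103, 16, 16, 73536261, 84288561), (149, 16, 16, 90255396, 90190146)]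
  [(103, 4), (117, 2), (148, -2), (149, -2), (150, -2)] = true := by
  decide +kernel

theorem t1_11_11_0 : chkF keys 0 3 p1_11_0 c1_11
  [(148, 16, 16, 90256386, 90320961), (117, 1, 1, 19157091, 20186466), (150, 16, 16, 105985026, 106049601), (103, 16, 16, 104994096, 103093296), (117, 16, 16, 72425571, 22414146), (148, 16, 16, 106107456, 105988656), (149, 16, 16, 106107456, 105988656), (150, 16, 16, 90378816, 90260016), (150, 16, 16, 105984066, 105984066), (149, 16, 16, 90255426, 90255426), (148, 16, 16, 90255426, 90255426), (117, 16, 16, 88216416, 23405616), (103, 16, 16, 73474101, 84284226), (150, 16, 16, 90378756, 90194481), (117, 1, 1, 34947936, 21177936), (148, 16, 16, 106107396, 105923121)]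
  [(103, -2), (117, -4), (148, 4), (149, -2), (150, 4)] = true := by
  decide +kernel

section

variable {κ ι : Type*} [Fintype κ] [Fintype ι] [Inhabited κ] [Inhabited ι]

def r1_0_0 : List (ℕ × ℤ) := [(9, -8), (90, 8)]

theorem h1_0_0 (E : Env κ ι) : inn E 0 3 c1_0 c1_0 = dotS (ek E keys) r1_0_0 :=
  innS_eqZ E _ _ _ _ _ _ _ (chkF_sound E keys 0 3 _ _ _ _ t1_0_0_0) (by decide +kernel)

def r1_0_1 : List (ℕ × ℤ) := [(28, 4), (91, -4)]

theorem h1_0_1 (E : Env κ ι) : inn E 0 3 c1_0 c1_1 = dotS (ek E keys) r1_0_1 :=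
  innS_eqZ E _ _ _ _ _ _ _ (chkF_sound E keys 0 3 _ _ _ _ t1_0_1_0) (by decide +kernel)

def r1_0_2 : List (ℕ × ℤ) := [(8, 8), (92, -8)]

theorem h1_0_2 (E : Env κ ι) : inn E 0 3 c1_0 c1_2 = dotS (ek E keys) r1_0_2 :=
  innS_eqZ E _ _ _ _ _ _ _ (chkF_sound E keys 0 3 _ _ _ _ t1_0_2_0) (by decide +kernel)

def r1_0_3 : List (ℕ × ℤ) := [(29, -8), (93, 8)]

theorem h1_0_3 (E : Env κ ι) : inn E 0 3 c1_0 c1_3 = dotS (ek E keys) r1_0_3 :=
  innS_eqZ E _ _ _ _ _ _ _ (chkF_sound E keys 0 3 _ _ _ _ t1_0_3_0) (by decide +kernel)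

def r1_0_4 : List (ℕ × ℤ) := [(28, -8), (72, 8)]

theorem h1_0_4 (E : Env κ ι) : inn E 0 3 c1_0 c1_4 = dotS (ek E keys) r1_0_4 :=
  innS_eqZ E _ _ _ _ _ _ _ (chkF_sound E keys 0 3 _ _ _ _ t1_0_4_0) (by decide +kernel)

def r1_0_5 : List (ℕ × ℤ) := [(46, -8), (74, 8)]

theorem h1_0_5 (E : Env κ ι) : inn E 0 3 c1_0 c1_5 = dotS (ek E keys) r1_0_5 :=
  innS_eqZ E _ _ _ _ _ _ _ (chkF_sound E keys 0 3 _ _ _ _ t1_0_5_0) (by decide +kernel)

def r1_0_6 : List (ℕ × ℤ) := [(8, -4), (29, 4)]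

theorem h1_0_6 (E : Env κ ι) : inn E 0 3 c1_0 c1_6 = dotS (ek E keys) r1_0_6 :=
  innS_eqZ E _ _ _ _ _ _ _ (chkF_sound E keys 0 3 _ _ _ _ t1_0_6_0) (by decide +kernel)

def r1_0_7 : List (ℕ × ℤ) := [(67, 4), (69, -4)]

theorem h1_0_7 (E : Env κ ι) : inn E 0 3 c1_0 c1_7 = dotS (ek E keys) r1_0_7 :=
  innS_eqZ E _ _ _ _ _ _ _ (chkF_sound E keys 0 3 _ _ _ _ t1_0_7_0) (by decide +kernel)

def r1_0_8 : List (ℕ × ℤ) := [(28, -4), (79, -4), (94, 8)]

theorem h1_0_8 (E : Env κ ι) : inn E 0 3 c1_0 c1_8 = dotS (ek E keys) r1_0_8 :=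
  innS_eqZ E _ _ _ _ _ _ _ (chkF_sound E keys 0 3 _ _ _ _ t1_0_8_0) (by decide +kernel)

def r1_0_9 : List (ℕ × ℤ) := [(28, -4), (79, 8), (94, -4)]

theorem h1_0_9 (E : Env κ ι) : inn E 0 3 c1_0 c1_9 = dotS (ek E keys) r1_0_9 :=
  innS_eqZ E _ _ _ _ _ _ _ (chkF_sound E keys 0 3 _ _ _ _ t1_0_9_0) (by decide +kernel)

def r1_0_10 : List (ℕ × ℤ) := [(29, 8), (92, -4), (95, -4)]

theorem h1_0_10 (E : Env κ ι) : inn E 0 3 c1_0 c1_10 = dotS (ek E keys) r1_0_10 :=
  innS_eqZ E _ _ _ _ _ _ _ (chkF_sound E keys 0 3 _ _ _ _ t1_0_10_0) (by decide +kernel)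

def r1_0_11 : List (ℕ × ℤ) := [(29, -4), (92, -4), (95, 8)]

theorem h1_0_11 (E : Env κ ι) : inn E 0 3 c1_0 c1_11 = dotS (ek E keys) r1_0_11 :=
  innS_eqZ E _ _ _ _ _ _ _ (chkF_sound E keys 0 3 _ _ _ _ t1_0_11_0) (by decide +kernel)

def r1_1_1 : List (ℕ × ℤ) := [(17, 2), (80, -2)]

theorem h1_1_1 (E : Env κ ι) : inn E 0 3 c1_1 c1_1 = dotS (ek E keys) r1_1_1 :=
  innS_eqZ E _ _ _ _ _ _ _ (chkF_sound E keys 0 3 _ _ _ _ t1_1_1_0) (by decide +kernel)

def r1_1_2 : List (ℕ × ℤ) := [(26, -4), (96, 4)]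

theorem h1_1_2 (E : Env κ ι) : inn E 0 3 c1_1 c1_2 = dotS (ek E keys) r1_1_2 :=
  innS_eqZ E _ _ _ _ _ _ _ (chkF_sound E keys 0 3 _ _ _ _ t1_1_2_0) (by decide +kernel)

def r1_1_3 : List (ℕ × ℤ) := [(97, 4), (98, -4)]

theorem h1_1_3 (E : Env κ ι) : inn E 0 3 c1_1 c1_3 = dotS (ek E keys) r1_1_3 :=
  innS_eqZ E _ _ _ _ _ _ _ (chkF_sound E keys 0 3 _ _ _ _ t1_1_3_0) (by decide +kernel)

def r1_1_4 : List (ℕ × ℤ) := [(73, -4), (99, 4)]

theorem h1_1_4 (E : Env κ ι) : inn E 0 3 c1_1 c1_4 = dotS (ek E keys) r1_1_4 :=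
  innS_eqZ E _ _ _ _ _ _ _ (chkF_sound E keys 0 3 _ _ _ _ t1_1_4_0) (by decide +kernel)

def r1_1_5 : List (ℕ × ℤ) := [(77, -4), (86, 4)]

theorem h1_1_5 (E : Env κ ι) : inn E 0 3 c1_1 c1_5 = dotS (ek E keys) r1_1_5 :=
  innS_eqZ E _ _ _ _ _ _ _ (chkF_sound E keys 0 3 _ _ _ _ t1_1_5_0) (by decide +kernel)

def r1_1_6 : List (ℕ × ℤ) := [(18, 2), (97, -2)]

theorem h1_1_6 (E : Env κ ι) : inn E 0 3 c1_1 c1_6 = dotS (ek E keys) r1_1_6 :=
  innS_eqZ E _ _ _ _ _ _ _ (chkF_sound E keys 0 3 _ _ _ _ t1_1_6_0) (by decide +kernel)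

def r1_1_7 : List (ℕ × ℤ) := [(45, 2), (48, -2)]

theorem h1_1_7 (E : Env κ ι) : inn E 0 3 c1_1 c1_7 = dotS (ek E keys) r1_1_7 :=
  innS_eqZ E _ _ _ _ _ _ _ (chkF_sound E keys 0 3 _ _ _ _ t1_1_7_0) (by decide +kernel)

def r1_1_8 : List (ℕ × ℤ) := [(81, 2), (99, 2), (100, -4)]

theorem h1_1_8 (E : Env κ ι) : inn E 0 3 c1_1 c1_8 = dotS (ek E keys) r1_1_8 :=
  innS_eqZ E _ _ _ _ _ _ _ (chkF_sound E keys 0 3 _ _ _ _ t1_1_8_0) (by decide +kernel)

def r1_1_9 : List (ℕ × ℤ) := [(81, -4), (99, 2), (100, 2)]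

theorem h1_1_9 (E : Env κ ι) : inn E 0 3 c1_1 c1_9 = dotS (ek E keys) r1_1_9 :=
  innS_eqZ E _ _ _ _ _ _ _ (chkF_sound E keys 0 3 _ _ _ _ t1_1_9_0) (by decide +kernel)

def r1_1_10 : List (ℕ × ℤ) := [(82, -4), (96, 2), (101, 2)]

theorem h1_1_10 (E : Env κ ι) : inn E 0 3 c1_1 c1_10 = dotS (ek E keys) r1_1_10 :=
  innS_eqZ E _ _ _ _ _ _ _ (chkF_sound E keys 0 3 _ _ _ _ t1_1_10_0) (by decide +kernel)

def r1_1_11 : List (ℕ × ℤ) := [(82, 2), (96, 2), (101, -4)]

theorem h1_1_11 (E : Env κ ι) : inn E 0 3 c1_1 c1_11 = dotS (ek E keys) r1_1_11 :=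
  innS_eqZ E _ _ _ _ _ _ _ (chkF_sound E keys 0 3 _ _ _ _ t1_1_11_0) (by decide +kernel)

def r1_2_2 : List (ℕ × ℤ) := [(102, 8), (103, -8)]

theorem h1_2_2 (E : Env κ ι) : inn E 0 3 c1_2 c1_2 = dotS (ek E keys) r1_2_2 :=
  innS_eqZ E _ _ _ _ _ _ _ (chkF_sound E keys 0 3 _ _ _ _ t1_2_2_0) (by decide +kernel)

def r1_2_3 : List (ℕ × ℤ) := [(104, 8), (105, -8)]

theorem h1_2_3 (E : Env κ ι) : inn E 0 3 c1_2 c1_3 = dotS (ek E keys) r1_2_3 :=
  innS_eqZ E _ _ _ _ _ _ _ (chkF_sound E keys 0 3 _ _ _ _ t1_2_3_0) (by decide +kernel)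

def r1_2_4 : List (ℕ × ℤ) := [(106, 8), (107, -8)]

theorem h1_2_4 (E : Env κ ι) : inn E 0 3 c1_2 c1_4 = dotS (ek E keys) r1_2_4 :=
  innS_eqZ E _ _ _ _ _ _ _ (chkF_sound E keys 0 3 _ _ _ _ t1_2_4_0) (by decide +kernel)

def r1_2_5 : List (ℕ × ℤ) := [(53, -8), (108, 8)]

theorem h1_2_5 (E : Env κ ι) : inn E 0 3 c1_2 c1_5 = dotS (ek E keys) r1_2_5 :=
  innS_eqZ E _ _ _ _ _ _ _ (chkF_sound E keys 0 3 _ _ _ _ t1_2_5_0) (by decide +kernel)

def r1_2_6 : List (ℕ × ℤ) := [(109, 4), (110, -4)]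

theorem h1_2_6 (E : Env κ ι) : inn E 0 3 c1_2 c1_6 = dotS (ek E keys) r1_2_6 :=
  innS_eqZ E _ _ _ _ _ _ _ (chkF_sound E keys 0 3 _ _ _ _ t1_2_6_0) (by decide +kernel)

def r1_2_7 : List (ℕ × ℤ) := [(52, 4), (111, -4)]

theorem h1_2_7 (E : Env κ ι) : inn E 0 3 c1_2 c1_7 = dotS (ek E keys) r1_2_7 :=
  innS_eqZ E _ _ _ _ _ _ _ (chkF_sound E keys 0 3 _ _ _ _ t1_2_7_0) (by decide +kernel)

def r1_2_8 : List (ℕ × ℤ) := [(112, 8), (113, -4), (114, -4)]

theorem h1_2_8 (E : Env κ ι) : inn E 0 3 c1_2 c1_8 = dotS (ek E keys) r1_2_8 :=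
  innS_eqZ E _ _ _ _ _ _ _ (chkF_sound E keys 0 3 _ _ _ _ t1_2_8_0) (by decide +kernel)

def r1_2_9 : List (ℕ × ℤ) := [(112, -4), (113, 8), (114, -4)]

theorem h1_2_9 (E : Env κ ι) : inn E 0 3 c1_2 c1_9 = dotS (ek E keys) r1_2_9 :=
  innS_eqZ E _ _ _ _ _ _ _ (chkF_sound E keys 0 3 _ _ _ _ t1_2_9_0) (by decide +kernel)

def r1_2_10 : List (ℕ × ℤ) := [(115, 8), (116, -4), (117, -4)]

theorem h1_2_10 (E : Env κ ι) : inn E 0 3 c1_2 c1_10 = dotS (ek E keys) r1_2_10 :=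
  innS_eqZ E _ _ _ _ _ _ _ (chkF_sound E keys 0 3 _ _ _ _ t1_2_10_0) (by decide +kernel)

def r1_2_11 : List (ℕ × ℤ) := [(115, -4), (116, 8), (117, -4)]

theorem h1_2_11 (E : Env κ ι) : inn E 0 3 c1_2 c1_11 = dotS (ek E keys) r1_2_11 :=
  innS_eqZ E _ _ _ _ _ _ _ (chkF_sound E keys 0 3 _ _ _ _ t1_2_11_0) (by decide +kernel)

def r1_3_3 : List (ℕ × ℤ) := [(89, -8), (118, 8)]

theorem h1_3_3 (E : Env κ ι) : inn E 0 3 c1_3 c1_3 = dotS (ek E keys) r1_3_3 :=
  innS_eqZ E _ _ _ _ _ _ _ (chkF_sound E keys 0 3 _ _ _ _ t1_3_3_0) (by decide +kernel)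

def r1_3_4 : List (ℕ × ℤ) := [(97, -8), (119, 8)]

theorem h1_3_4 (E : Env κ ι) : inn E 0 3 c1_3 c1_4 = dotS (ek E keys) r1_3_4 :=
  innS_eqZ E _ _ _ _ _ _ _ (chkF_sound E keys 0 3 _ _ _ _ t1_3_4_0) (by decide +kernel)

def r1_3_5 : List (ℕ × ℤ) := [(48, -8), (120, 8)]

theorem h1_3_5 (E : Env κ ι) : inn E 0 3 c1_3 c1_5 = dotS (ek E keys) r1_3_5 :=
  innS_eqZ E _ _ _ _ _ _ _ (chkF_sound E keys 0 3 _ _ _ _ t1_3_5_0) (by decide +kernel)

def r1_3_6 : List (ℕ × ℤ) := [(104, -4), (121, 4)]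

theorem h1_3_6 (E : Env κ ι) : inn E 0 3 c1_3 c1_6 = dotS (ek E keys) r1_3_6 :=
  innS_eqZ E _ _ _ _ _ _ _ (chkF_sound E keys 0 3 _ _ _ _ t1_3_6_0) (by decide +kernel)

def r1_3_7 : List (ℕ × ℤ) := [(55, 4), (122, -4)]

theorem h1_3_7 (E : Env κ ι) : inn E 0 3 c1_3 c1_7 = dotS (ek E keys) r1_3_7 :=
  innS_eqZ E _ _ _ _ _ _ _ (chkF_sound E keys 0 3 _ _ _ _ t1_3_7_0) (by decide +kernel)

def r1_3_8 : List (ℕ × ℤ) := [(82, -4), (85, -4), (123, 8)]

theorem h1_3_8 (E : Env κ ι) : inn E 0 3 c1_3 c1_8 = dotS (ek E keys) r1_3_8 :=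
  innS_eqZ E _ _ _ _ _ _ _ (chkF_sound E keys 0 3 _ _ _ _ t1_3_8_0) (by decide +kernel)

def r1_3_9 : List (ℕ × ℤ) := [(82, -4), (85, 8), (123, -4)]

theorem h1_3_9 (E : Env κ ι) : inn E 0 3 c1_3 c1_9 = dotS (ek E keys) r1_3_9 :=
  innS_eqZ E _ _ _ _ _ _ _ (chkF_sound E keys 0 3 _ _ _ _ t1_3_9_0) (by decide +kernel)

def r1_3_10 : List (ℕ × ℤ) := [(105, -4), (121, 8), (124, -4)]

theorem h1_3_10 (E : Env κ ι) : inn E 0 3 c1_3 c1_10 = dotS (ek E keys) r1_3_10 :=
  innS_eqZ E _ _ _ _ _ _ _ (chkF_sound E keys 0 3 _ _ _ _ t1_3_10_0) (by decide +kernel)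

def r1_3_11 : List (ℕ × ℤ) := [(105, -4), (121, -4), (124, 8)]

theorem h1_3_11 (E : Env κ ι) : inn E 0 3 c1_3 c1_11 = dotS (ek E keys) r1_3_11 :=
  innS_eqZ E _ _ _ _ _ _ _ (chkF_sound E keys 0 3 _ _ _ _ t1_3_11_0) (by decide +kernel)

def r1_4_4 : List (ℕ × ℤ) := [(83, -8), (125, 8)]

theorem h1_4_4 (E : Env κ ι) : inn E 0 3 c1_4 c1_4 = dotS (ek E keys) r1_4_4 :=
  innS_eqZ E _ _ _ _ _ _ _ (chkF_sound E keys 0 3 _ _ _ _ t1_4_4_0) (by decide +kernel)

def r1_4_5 : List (ℕ × ℤ) := [(86, -8), (126, 8)]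

theorem h1_4_5 (E : Env κ ι) : inn E 0 3 c1_4 c1_5 = dotS (ek E keys) r1_4_5 :=
  innS_eqZ E _ _ _ _ _ _ _ (chkF_sound E keys 0 3 _ _ _ _ t1_4_5_0) (by decide +kernel)

def r1_4_6 : List (ℕ × ℤ) := [(127, 4), (128, -4)]

theorem h1_4_6 (E : Env κ ι) : inn E 0 3 c1_4 c1_6 = dotS (ek E keys) r1_4_6 :=
  innS_eqZ E _ _ _ _ _ _ _ (chkF_sound E keys 0 3 _ _ _ _ t1_4_6_0) (by decide +kernel)

def r1_4_7 : List (ℕ × ℤ) := [(58, 4), (108, -4)]

theorem h1_4_7 (E : Env κ ι) : inn E 0 3 c1_4 c1_7 = dotS (ek E keys) r1_4_7 :=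
  innS_eqZ E _ _ _ _ _ _ _ (chkF_sound E keys 0 3 _ _ _ _ t1_4_7_0) (by decide +kernel)

def r1_4_8 : List (ℕ × ℤ) := [(81, -4), (99, -4), (129, 8)]

theorem h1_4_8 (E : Env κ ι) : inn E 0 3 c1_4 c1_8 = dotS (ek E keys) r1_4_8 :=
  innS_eqZ E _ _ _ _ _ _ _ (chkF_sound E keys 0 3 _ _ _ _ t1_4_8_0) (by decide +kernel)

def r1_4_9 : List (ℕ × ℤ) := [(81, -4), (99, 8), (129, -4)]

theorem h1_4_9 (E : Env κ ι) : inn E 0 3 c1_4 c1_9 = dotS (ek E keys) r1_4_9 :=
  innS_eqZ E _ _ _ _ _ _ _ (chkF_sound E keys 0 3 _ _ _ _ t1_4_9_0) (by decide +kernel)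

def r1_4_10 : List (ℕ × ℤ) := [(112, -4), (130, 8), (131, -4)]

theorem h1_4_10 (E : Env κ ι) : inn E 0 3 c1_4 c1_10 = dotS (ek E keys) r1_4_10 :=
  innS_eqZ E _ _ _ _ _ _ _ (chkF_sound E keys 0 3 _ _ _ _ t1_4_10_0) (by decide +kernel)

def r1_4_11 : List (ℕ × ℤ) := [(112, 8), (130, -4), (131, -4)]

theorem h1_4_11 (E : Env κ ι) : inn E 0 3 c1_4 c1_11 = dotS (ek E keys) r1_4_11 :=
  innS_eqZ E _ _ _ _ _ _ _ (chkF_sound E keys 0 3 _ _ _ _ t1_4_11_0) (by decide +kernel)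

def r1_5_5 : List (ℕ × ℤ) := [(34, -8), (132, 8)]

theorem h1_5_5 (E : Env κ ι) : inn E 0 3 c1_5 c1_5 = dotS (ek E keys) r1_5_5 :=
  innS_eqZ E _ _ _ _ _ _ _ (chkF_sound E keys 0 3 _ _ _ _ t1_5_5_0) (by decide +kernel)

def r1_5_6 : List (ℕ × ℤ) := [(58, 4), (108, -4)]

theorem h1_5_6 (E : Env κ ι) : inn E 0 3 c1_5 c1_6 = dotS (ek E keys) r1_5_6 :=
  innS_eqZ E _ _ _ _ _ _ _ (chkF_sound E keys 0 3 _ _ _ _ t1_5_6_0) (by decide +kernel)

def r1_5_7 : List (ℕ × ℤ) := [(56, 4), (133, -4)]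

theorem h1_5_7 (E : Env κ ι) : inn E 0 3 c1_5 c1_7 = dotS (ek E keys) r1_5_7 :=
  innS_eqZ E _ _ _ _ _ _ _ (chkF_sound E keys 0 3 _ _ _ _ t1_5_7_0) (by decide +kernel)

def r1_5_8 : List (ℕ × ℤ) := [(47, -4), (86, -4), (134, 8)]

theorem h1_5_8 (E : Env κ ι) : inn E 0 3 c1_5 c1_8 = dotS (ek E keys) r1_5_8 :=
  innS_eqZ E _ _ _ _ _ _ _ (chkF_sound E keys 0 3 _ _ _ _ t1_5_8_0) (by decide +kernel)

def r1_5_9 : List (ℕ × ℤ) := [(47, -4), (86, 8), (134, -4)]

theorem h1_5_9 (E : Env κ ι) : inn E 0 3 c1_5 c1_9 = dotS (ek E keys) r1_5_9 :=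
  innS_eqZ E _ _ _ _ _ _ _ (chkF_sound E keys 0 3 _ _ _ _ t1_5_9_0) (by decide +kernel)

def r1_5_10 : List (ℕ × ℤ) := [(53, -4), (58, 8), (135, -4)]

theorem h1_5_10 (E : Env κ ι) : inn E 0 3 c1_5 c1_10 = dotS (ek E keys) r1_5_10 :=
  innS_eqZ E _ _ _ _ _ _ _ (chkF_sound E keys 0 3 _ _ _ _ t1_5_10_0) (by decide +kernel)

def r1_5_11 : List (ℕ × ℤ) := [(53, -4), (58, -4), (135, 8)]

theorem h1_5_11 (E : Env κ ι) : inn E 0 3 c1_5 c1_11 = dotS (ek E keys) r1_5_11 :=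
  innS_eqZ E _ _ _ _ _ _ _ (chkF_sound E keys 0 3 _ _ _ _ t1_5_11_0) (by decide +kernel)

def r1_6_6 : List (ℕ × ℤ) := [(136, 2), (137, -2)]

theorem h1_6_6 (E : Env κ ι) : inn E 0 3 c1_6 c1_6 = dotS (ek E keys) r1_6_6 :=
  innS_eqZ E _ _ _ _ _ _ _ (chkF_sound E keys 0 3 _ _ _ _ t1_6_6_0) (by decide +kernel)

def r1_6_7 : List (ℕ × ℤ) := [(57, -2), (138, 2)]

theorem h1_6_7 (E : Env κ ι) : inn E 0 3 c1_6 c1_7 = dotS (ek E keys) r1_6_7 :=
  innS_eqZ E _ _ _ _ _ _ _ (chkF_sound E keys 0 3 _ _ _ _ t1_6_7_0) (by decide +kernel)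

def r1_6_8 : List (ℕ × ℤ) := [(107, 2), (112, -4), (131, 2)]

theorem h1_6_8 (E : Env κ ι) : inn E 0 3 c1_6 c1_8 = dotS (ek E keys) r1_6_8 :=
  innS_eqZ E _ _ _ _ _ _ _ (chkF_sound E keys 0 3 _ _ _ _ t1_6_8_0) (by decide +kernel)

def r1_6_9 : List (ℕ × ℤ) := [(107, 2), (112, 2), (131, -4)]

theorem h1_6_9 (E : Env κ ι) : inn E 0 3 c1_6 c1_9 = dotS (ek E keys) r1_6_9 :=
  innS_eqZ E _ _ _ _ _ _ _ (chkF_sound E keys 0 3 _ _ _ _ t1_6_9_0) (by decide +kernel)

def r1_6_10 : List (ℕ × ℤ) := [(139, 2), (140, 2), (141, -4)]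

theorem h1_6_10 (E : Env κ ι) : inn E 0 3 c1_6 c1_10 = dotS (ek E keys) r1_6_10 :=
  innS_eqZ E _ _ _ _ _ _ _ (chkF_sound E keys 0 3 _ _ _ _ t1_6_10_0) (by decide +kernel)

def r1_6_11 : List (ℕ × ℤ) := [(139, 2), (140, -4), (141, 2)]

theorem h1_6_11 (E : Env κ ι) : inn E 0 3 c1_6 c1_11 = dotS (ek E keys) r1_6_11 :=
  innS_eqZ E _ _ _ _ _ _ _ (chkF_sound E keys 0 3 _ _ _ _ t1_6_11_0) (by decide +kernel)

def r1_7_7 : List (ℕ × ℤ) := [(35, -2), (142, 2)]

theorem h1_7_7 (E : Env κ ι) : inn E 0 3 c1_7 c1_7 = dotS (ek E keys) r1_7_7 :=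
  innS_eqZ E _ _ _ _ _ _ _ (chkF_sound E keys 0 3 _ _ _ _ t1_7_7_0) (by decide +kernel)

def r1_7_8 : List (ℕ × ℤ) := [(53, 4), (135, -4)]

theorem h1_7_8 (E : Env κ ι) : inn E 0 3 c1_7 c1_8 = dotS (ek E keys) r1_7_8 :=
  innS_eqZ E _ _ _ _ _ _ _ (chkF_sound E keys 0 3 _ _ _ _ t1_7_8_0) (by decide +kernel)

def r1_7_9 : List (ℕ × ℤ) := [(53, -2), (135, 2)]

theorem h1_7_9 (E : Env κ ι) : inn E 0 3 c1_7 c1_9 = dotS (ek E keys) r1_7_9 :=
  innS_eqZ E _ _ _ _ _ _ _ (chkF_sound E keys 0 3 _ _ _ _ t1_7_9_0) (by decide +kernel)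

def r1_7_10 : List (ℕ × ℤ) := [(52, -4), (54, 2), (143, 2)]

theorem h1_7_10 (E : Env κ ι) : inn E 0 3 c1_7 c1_10 = dotS (ek E keys) r1_7_10 :=
  innS_eqZ E _ _ _ _ _ _ _ (chkF_sound E keys 0 3 _ _ _ _ t1_7_10_0) (by decide +kernel)

def r1_7_11 : List (ℕ × ℤ) := [(52, 2), (54, 2), (143, -4)]

theorem h1_7_11 (E : Env κ ι) : inn E 0 3 c1_7 c1_11 = dotS (ek E keys) r1_7_11 :=
  innS_eqZ E _ _ _ _ _ _ _ (chkF_sound E keys 0 3 _ _ _ _ t1_7_11_0) (by decide +kernel)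

def r1_8_8 : List (ℕ × ℤ) := [(80, -2), (81, -4), (83, -2), (144, 4), (145, 4)]

theorem h1_8_8 (E : Env κ ι) : inn E 0 3 c1_8 c1_8 = dotS (ek E keys) r1_8_8 :=
  innS_eqZ E _ _ _ _ _ _ _ (chkF_sound E keys 0 3 _ _ _ _ t1_8_8_0) (by decide +kernel)

def r1_8_9 : List (ℕ × ℤ) := [(80, -2), (81, 2), (83, 4), (144, -2), (145, -2)]

theorem h1_8_9 (E : Env κ ι) : inn E 0 3 c1_8 c1_9 = dotS (ek E keys) r1_8_9 :=
  innS_eqZ E _ _ _ _ _ _ _ (chkF_sound E keys 0 3 _ _ _ _ t1_8_9_0) (by decide +kernel)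

def r1_8_10 : List (ℕ × ℤ) := [(107, 4), (113, -2), (114, -2), (131, 4), (146, -2), (147, -2)]

theorem h1_8_10 (E : Env κ ι) : inn E 0 3 c1_8 c1_10 = dotS (ek E keys) r1_8_10 :=
  innS_eqZ E _ _ _ _ _ _ _ (chkF_sound E keys 0 3 _ _ _ _ t1_8_10_0) (by decide +kernel)

def r1_8_11 : List (ℕ × ℤ) := [(107, -2), (113, -2), (114, -2), (131, -2), (146, 4), (147, 4)]

theorem h1_8_11 (E : Env κ ι) : inn E 0 3 c1_8 c1_11 = dotS (ek E keys) r1_8_11 :=
  innS_eqZ E _ _ _ _ _ _ _ (chkF_sound E keys 0 3 _ _ _ _ t1_8_11_0) (by decide +kernel)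

def r1_9_9 : List (ℕ × ℤ) := [(80, 4), (81, -4), (83, -2), (144, 4), (145, -2)]

theorem h1_9_9 (E : Env κ ι) : inn E 0 3 c1_9 c1_9 = dotS (ek E keys) r1_9_9 :=
  innS_eqZ E _ _ _ _ _ _ _ (chkF_sound E keys 0 3 _ _ _ _ t1_9_9_0) (by decide +kernel)

def r1_9_10 : List (ℕ × ℤ) := [(107, -2), (113, 4), (114, -2), (131, -2), (146, -2), (147, 4)]

theorem h1_9_10 (E : Env κ ι) : inn E 0 3 c1_9 c1_10 = dotS (ek E keys) r1_9_10 :=
  innS_eqZ E _ _ _ _ _ _ _ (chkF_sound E keys 0 3 _ _ _ _ t1_9_10_0) (by decide +kernel)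

def r1_9_11 : List (ℕ × ℤ) := [(107, 4), (113, -2), (114, 4), (131, -2), (146, -2), (147, -2)]

theorem h1_9_11 (E : Env κ ι) : inn E 0 3 c1_9 c1_11 = dotS (ek E keys) r1_9_11 :=
  innS_eqZ E _ _ _ _ _ _ _ (chkF_sound E keys 0 3 _ _ _ _ t1_9_11_0) (by decide +kernel)

def r1_10_10 : List (ℕ × ℤ) := [(103, -2), (117, -4), (148, 4), (149, 4), (150, -2)]

theorem h1_10_10 (E : Env κ ι) : inn E 0 3 c1_10 c1_10 = dotS (ek E keys) r1_10_10 :=
  innS_eqZ E _ _ _ _ _ _ _ (chkF_sound E keys 0 3 _ _ _ _ t1_10_10_0) (by decide +kernel)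

def r1_10_11 : List (ℕ × ℤ) := [(103, 4), (117, 2), (148, -2), (149, -2), (150, -2)]

theorem h1_10_11 (E : Env κ ι) : inn E 0 3 c1_10 c1_11 = dotS (ek E keys) r1_10_11 :=
  innS_eqZ E _ _ _ _ _ _ _ (chkF_sound E keys 0 3 _ _ _ _ t1_10_11_0) (by decide +kernel)

def r1_11_11 : List (ℕ × ℤ) := [(103, -2), (117, -4), (148, 4), (149, -2), (150, 4)]

theorem h1_11_11 (E : Env κ ι) : inn E 0 3 c1_11 c1_11 = dotS (ek E keys) r1_11_11 :=
  innS_eqZ E _ _ _ _ _ _ _ (chkF_sound E keys 0 3 _ _ _ _ t1_11_11_0) (by decide +kernel)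

theorem row1_0 (E : Env κ ι) : RowS E 0 3 (ek E keys) c1_0 [c1_0, c1_1, c1_2, c1_3, c1_4, c1_5, c1_6, c1_7, c1_8, c1_9, c1_10, c1_11] [r1_0_0, r1_0_1, r1_0_2, r1_0_3, r1_0_4, r1_0_5, r1_0_6, r1_0_7, r1_0_8, r1_0_9, r1_0_10, r1_0_11] :=
  rowS_cons E _ _ _ _ _ _ _ _ (h1_0_0 E) (rowS_cons E _ _ _ _ _ _ _ _ (h1_0_1 E) (rowS_cons E _ _ _ _ _ _ _ _ (h1_0_2 E) (rowS_cons E _ _ _ _ _ _ _ _ (h1_0_3 E) (rowS_cons E _ _ _ _ _ _ _ _ (h1_0_4 E) (rowS_cons E _ _ _ _ _ _ _ _ (h1_0_5 E) (rowS_cons E _ _ _ _ _ _ _ _ (h1_0_6 E) (rowS_cons E _ _ _ _ _ _ _ _ (h1_0_7 E) (rowS_cons E _ _ _ _ _ _ _ _ (h1_0_8 E) (rowS_cons E _ _ _ _ _ _ _ _ (h1_0_9 E) (rowS_cons E _ _ _ _ _ _ _ _ (h1_0_10 E) (rowS_cons E _ _ _ _ _ _ _ _ (h1_0_11 E) (rowS_nil E _ _ _ _))))))))))))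

theorem row1_1 (E : Env κ ι) : RowS E 0 3 (ek E keys) c1_1 [c1_1, c1_2, c1_3, c1_4, c1_5, c1_6, c1_7, c1_8, c1_9, c1_10, c1_11] [r1_1_1, r1_1_2, r1_1_3, r1_1_4, r1_1_5, r1_1_6, r1_1_7, r1_1_8, r1_1_9, r1_1_10, r1_1_11] :=
  rowS_cons E _ _ _ _ _ _ _ _ (h1_1_1 E) (rowS_cons E _ _ _ _ _ _ _ _ (h1_1_2 E) (rowS_cons E _ _ _ _ _ _ _ _ (h1_1_3 E) (rowS_cons E _ _ _ _ _ _ _ _ (h1_1_4 E) (rowS_cons E _ _ _ _ _ _ _ _ (h1_1_5 E) (rowS_cons E _ _ _ _ _ _ _ _ (h1_1_6 E) (rowS_cons E _ _ _ _ _ _ _ _ (h1_1_7 E) (rowS_cons E _ _ _ _ _ _ _ _ (h1_1_8 E) (rowS_cons E _ _ _ _ _ _ _ _ (h1_1_9 E) (rowS_cons E _ _ _ _ _ _ _ _ (h1_1_10 E) (rowS_cons E _ _ _ _ _ _ _ _ (h1_1_11 E) (rowS_nil E _ _ _ _)))))))))))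

theorem row1_2 (E : Env κ ι) : RowS E 0 3 (ek E keys) c1_2 [c1_2, c1_3, c1_4, c1_5, c1_6, c1_7, c1_8, c1_9, c1_10, c1_11] [r1_2_2, r1_2_3, r1_2_4, r1_2_5, r1_2_6, r1_2_7, r1_2_8, r1_2_9, r1_2_10, r1_2_11] :=
  rowS_cons E _ _ _ _ _ _ _ _ (h1_2_2 E) (rowS_cons E _ _ _ _ _ _ _ _ (h1_2_3 E) (rowS_cons E _ _ _ _ _ _ _ _ (h1_2_4 E) (rowS_cons E _ _ _ _ _ _ _ _ (h1_2_5 E) (rowS_cons E _ _ _ _ _ _ _ _ (h1_2_6 E) (rowS_cons E _ _ _ _ _ _ _ _ (h1_2_7 E) (rowS_cons E _ _ _ _ _ _ _ _ (h1_2_8 E) (rowS_cons E _ _ _ _ _ _ _ _ (h1_2_9 E) (rowS_cons E _ _ _ _ _ _ _ _ (h1_2_10 E) (rowS_cons E _ _ _ _ _ _ _ _ (h1_2_11 E) (rowS_nil E _ _ _ _))))))))))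

theorem row1_3 (E : Env κ ι) : RowS E 0 3 (ek E keys) c1_3 [c1_3, c1_4, c1_5, c1_6, c1_7, c1_8, c1_9, c1_10, c1_11] [r1_3_3, r1_3_4, r1_3_5, r1_3_6, r1_3_7, r1_3_8, r1_3_9, r1_3_10, r1_3_11] :=
  rowS_cons E _ _ _ _ _ _ _ _ (h1_3_3 E) (rowS_cons E _ _ _ _ _ _ _ _ (h1_3_4 E) (rowS_cons E _ _ _ _ _ _ _ _ (h1_3_5 E) (rowS_cons E _ _ _ _ _ _ _ _ (h1_3_6 E) (rowS_cons E _ _ _ _ _ _ _ _ (h1_3_7 E) (rowS_cons E _ _ _ _ _ _ _ _ (h1_3_8 E) (rowS_cons E _ _ _ _ _ _ _ _ (h1_3_9 E) (rowS_cons E _ _ _ _ _ _ _ _ (h1_3_10 E) (rowS_cons E _ _ _ _ _ _ _ _ (h1_3_11 E) (rowS_nil E _ _ _ _)))))))))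

theorem row1_4 (E : Env κ ι) : RowS E 0 3 (ek E keys) c1_4 [c1_4, c1_5, c1_6, c1_7, c1_8, c1_9, c1_10, c1_11] [r1_4_4, r1_4_5, r1_4_6, r1_4_7, r1_4_8, r1_4_9, r1_4_10, r1_4_11] :=
  rowS_cons E _ _ _ _ _ _ _ _ (h1_4_4 E) (rowS_cons E _ _ _ _ _ _ _ _ (h1_4_5 E) (rowS_cons E _ _ _ _ _ _ _ _ (h1_4_6 E) (rowS_cons E _ _ _ _ _ _ _ _ (h1_4_7 E) (rowS_cons E _ _ _ _ _ _ _ _ (h1_4_8 E) (rowS_cons E _ _ _ _ _ _ _ _ (h1_4_9 E) (rowS_cons E _ _ _ _ _ _ _ _ (h1_4_10 E) (rowS_cons E _ _ _ _ _ _ _ _ (h1_4_11 E) (rowS_nil E _ _ _ _))))))))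

theorem row1_5 (E : Env κ ι) : RowS E 0 3 (ek E keys) c1_5 [c1_5, c1_6, c1_7, c1_8, c1_9, c1_10, c1_11] [r1_5_5, r1_5_6, r1_5_7, r1_5_8, r1_5_9, r1_5_10, r1_5_11] :=
  rowS_cons E _ _ _ _ _ _ _ _ (h1_5_5 E) (rowS_cons E _ _ _ _ _ _ _ _ (h1_5_6 E) (rowS_cons E _ _ _ _ _ _ _ _ (h1_5_7 E) (rowS_cons E _ _ _ _ _ _ _ _ (h1_5_8 E) (rowS_cons E _ _ _ _ _ _ _ _ (h1_5_9 E) (rowS_cons E _ _ _ _ _ _ _ _ (h1_5_10 E) (rowS_cons E _ _ _ _ _ _ _ _ (h1_5_11 E) (rowS_nil E _ _ _ _)))))))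

theorem row1_6 (E : Env κ ι) : RowS E 0 3 (ek E keys) c1_6 [c1_6, c1_7, c1_8, c1_9, c1_10, c1_11] [r1_6_6, r1_6_7, r1_6_8, r1_6_9, r1_6_10, r1_6_11] :=
  rowS_cons E _ _ _ _ _ _ _ _ (h1_6_6 E) (rowS_cons E _ _ _ _ _ _ _ _ (h1_6_7 E) (rowS_cons E _ _ _ _ _ _ _ _ (h1_6_8 E) (rowS_cons E _ _ _ _ _ _ _ _ (h1_6_9 E) (rowS_cons E _ _ _ _ _ _ _ _ (h1_6_10 E) (rowS_cons E _ _ _ _ _ _ _ _ (h1_6_11 E) (rowS_nil E _ _ _ _))))))

theorem row1_7 (E : Env κ ι) : RowS E 0 3 (ek E keys) c1_7 [c1_7, c1_8, c1_9, c1_10, c1_11] [r1_7_7, r1_7_8, r1_7_9, r1_7_10, r1_7_11] :=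
  rowS_cons E _ _ _ _ _ _ _ _ (h1_7_7 E) (rowS_cons E _ _ _ _ _ _ _ _ (h1_7_8 E) (rowS_cons E _ _ _ _ _ _ _ _ (h1_7_9 E) (rowS_cons E _ _ _ _ _ _ _ _ (h1_7_10 E) (rowS_cons E _ _ _ _ _ _ _ _ (h1_7_11 E) (rowS_nil E _ _ _ _)))))

theorem row1_8 (E : Env κ ι) : RowS E 0 3 (ek E keys) c1_8 [c1_8, c1_9, c1_10, c1_11] [r1_8_8, r1_8_9, r1_8_10, r1_8_11] :=
  rowS_cons E _ _ _ _ _ _ _ _ (h1_8_8 E) (rowS_cons E _ _ _ _ _ _ _ _ (h1_8_9 E) (rowS_cons E _ _ _ _ _ _ _ _ (h1_8_10 E) (rowS_cons E _ _ _ _ _ _ _ _ (h1_8_11 E) (rowS_nil E _ _ _ _))))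

theorem row1_9 (E : Env κ ι) : RowS E 0 3 (ek E keys) c1_9 [c1_9, c1_10, c1_11] [r1_9_9, r1_9_10, r1_9_11] :=
  rowS_cons E _ _ _ _ _ _ _ _ (h1_9_9 E) (rowS_cons E _ _ _ _ _ _ _ _ (h1_9_10 E) (rowS_cons E _ _ _ _ _ _ _ _ (h1_9_11 E) (rowS_nil E _ _ _ _)))

theorem row1_10 (E : Env κ ι) : RowS E 0 3 (ek E keys) c1_10 [c1_10, c1_11] [r1_10_10, r1_10_11] :=
  rowS_cons E _ _ _ _ _ _ _ _ (h1_10_10 E) (rowS_cons E _ _ _ _ _ _ _ _ (h1_10_11 E) (rowS_nil E _ _ _ _))

theorem row1_11 (E : Env κ ι) : RowS E 0 3 (ek E keys) c1_11 [c1_11] [r1_11_11] :=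
  rowS_cons E _ _ _ _ _ _ _ _ (h1_11_11 E) (rowS_nil E _ _ _ _)

def tab1 : List (List (List (ℕ × ℤ))) := [[r1_0_0, r1_0_1, r1_0_2, r1_0_3, r1_0_4, r1_0_5, r1_0_6, r1_0_7, r1_0_8, r1_0_9, r1_0_10, r1_0_11], [r1_1_1, r1_1_2, r1_1_3, r1_1_4, r1_1_5, r1_1_6, r1_1_7, r1_1_8, r1_1_9, r1_1_10, r1_1_11], [r1_2_2, r1_2_3, r1_2_4, r1_2_5, r1_2_6, r1_2_7, r1_2_8, r1_2_9, r1_2_10, r1_2_11], [r1_3_3, r1_3_4, r1_3_5, r1_3_6, r1_3_7, r1_3_8, r1_3_9, r1_3_10, r1_3_11], [r1_4_4, r1_4_5, r1_4_6, r1_4_7, r1_4_8, r1_4_9, r1_4_10, r1_4_11], [r1_5_5, r1_5_6, r1_5_7, r1_5_8, r1_5_9, r1_5_10, r1_5_11], [r1_6_6, r1_6_7, r1_6_8, r1_6_9, r1_6_10, r1_6_11], [r1_7_7, r1_7_8, r1_7_9, r1_7_10, r1_7_11], [r1_8_8, r1_8_9, r1_8_10, r1_8_11], [r1_9_9, r1_9_10, r1_9_11], [r1_10_10, r1_10_11], [r1_11_11]]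

theorem tri1 (E : Env κ ι) : TriS E 0 3 (ek E keys) [c1_0, c1_1, c1_2, c1_3, c1_4, c1_5, c1_6, c1_7, c1_8, c1_9, c1_10, c1_11] tab1 := by
  refine triS_cons E _ _ _ _ _ _ _ (row1_0 E) ?_
  refine triS_cons E _ _ _ _ _ _ _ (row1_1 E) ?_
  refine triS_cons E _ _ _ _ _ _ _ (row1_2 E) ?_
  refine triS_cons E _ _ _ _ _ _ _ (row1_3 E) ?_
  refine triS_cons E _ _ _ _ _ _ _ (row1_4 E) ?_
  refine triS_cons E _ _ _ _ _ _ _ (row1_5 E) ?_
  refine triS_cons E _ _ _ _ _ _ _ (row1_6 E) ?_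
  refine triS_cons E _ _ _ _ _ _ _ (row1_7 E) ?_
  refine triS_cons E _ _ _ _ _ _ _ (row1_8 E) ?_
  refine triS_cons E _ _ _ _ _ _ _ (row1_9 E) ?_
  refine triS_cons E _ _ _ _ _ _ _ (row1_10 E) ?_
  refine triS_cons E _ _ _ _ _ _ _ (row1_11 E) ?_
  exact triS_nil E _ _ _

def rows1 : List (ℕ × List ℤ) := [(214645215375360000, [4194304, 7427848, 201432, -771903, 887531, -43812, -2733394, 404636, -6698432, -4948049, 1869190, 3530130]),
  (413197625917440000, [0, 8388608, -1399805, 1914102, -468299, -49485, -336978, -85548, -708874, -3440264, 386576, 323789]),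
  (8529955983360000, [0, 0, 4194304, -94529, 1508872, -366910, -3960412, 7213450, -1348987, -283821, -6284462, -689914]),
  (157495726080000, [0, 0, 0, 4194304, 27355727, -723253, 12419736, -572954, -37429572, 9651559, -144293038, -111352329]),
  (3558244515840000, [0, 0, 0, 0, 4194304, -95712, 1849296, -261942, -5893544, 1493952, -21378822, -16499273]),
  (35010662400000, [0, 0, 0, 0, 0, 4194304, 347920, -685362, 12544, 95404, 573377, 82045]),
  (49398128640000, [0, 0, 0, 0, 0, 0, 8388608, -2990976, -561703, 1305229, -4598285, -5439906]),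
  (58002739200000, [0, 0, 0, 0, 0, 0, 0, 8388608, 604218, -326903, -1029550, 928357]),
  (139775569920000, [0, 0, 0, 0, 0, 0, 0, 0, 4194304, 333100, 5910743, 4290677]),
  (270981365760000, [0, 0, 0, 0, 0, 0, 0, 0, 0, 2097152, -2773390, -2440949]),
  (2310959185920000, [0, 0, 0, 0, 0, 0, 0, 0, 0, 0, 2097152, 1523331]),
  (1254503616937905314856960000, [0, 0, 0, 0, 0, 0, 0, 0, 0, 0, 0, 1]),
  (1067404769047134819000000, [1, 0, 0, -1, 0, 0, 0, 0, 0, 0, 0, 0]),
  (1085131374784537924620000, [1, 0, 0, 0, 0, 0, 0, 0, 1, 0, 0, 0]),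
  (2502132030983581998120000, [0, 2, 0, -1, 0, 0, 0, 0, 0, 0, 0, 0]),
  (302492869382670225840000, [0, 2, 0, 0, 0, 0, 0, 0, -1, 0, 0, 0]),
  (826398297337966244010000, [0, 0, 1, -1, 0, 0, 0, 0, 0, 0, 0, 0]),
  (6646305186448125121350000, [0, 0, 1, 0, 1, 0, 0, 0, 0, 0, 0, 0]),
  (168352759269864512910000, [0, 0, 1, 0, 0, 0, 2, 0, 0, 0, 0, 0]),
  (34670129692629275460000, [0, 0, 1, 0, 0, 0, 0, 0, -1, 0, 0, 0]),
  (1454531803195569360570000, [0, 0, 1, 0, 0, 0, 0, 0, 0, 0, 0, -1]),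
  (1583483793154370976960000, [0, 0, 0, 1, 1, 0, 0, 0, 0, 0, 0, 0]),
  (1035645378058008204480000, [0, 0, 0, 1, 0, -1, 0, 0, 0, 0, 0, 0]),
  (1491324052499294515740000, [0, 0, 0, 1, 0, 0, -2, 0, 0, 0, 0, 0]),
  (164923306645485951360000, [0, 0, 0, 1, 0, 0, 0, 2, 0, 0, 0, 0]),
  (827323233478142416470000, [0, 0, 0, 1, 0, 0, 0, 0, 1, 0, 0, 0]),
  (898300057763839308480000, [0, 0, 0, 1, 0, 0, 0, 0, 0, 0, 0, 1]),
  (197915301272384478720000, [0, 0, 0, 0, 1, -1, 0, 0, 0, 0, 0, 0]),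
  (967088420321975650440000, [0, 0, 0, 0, 1, 0, 2, 0, 0, 0, 0, 0]),
  (2205979645211729936640000, [0, 0, 0, 0, 1, 0, 0, 0, 1, 0, 0, 0]),
  (1452270248462127427200000, [0, 0, 0, 0, 0, 1, 0, 0, -1, 0, 0, 0]),
  (155414013665113566720000, [0, 0, 0, 0, 0, 1, 0, 0, 0, 0, 0, 1]),
  (2684074982559419027250000, [0, 0, 0, 0, 0, 0, 2, 0, 0, 0, 0, -1]),
  (897470476195980394713600, [0, 0, 0, 0, 0, 0, 0, 2, 0, 0, 0, 1]),
  (608328891881708484368700000, [1, 0, 0, 0, 0, 0, 0, 0, 0, 0, 0, 0]),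
  (2430707212500695619553440000, [0, 1, 0, 0, 0, 0, 0, 0, 0, 0, 0, 0]),
  (626861574894732535740060000, [0, 0, 1, 0, 0, 0, 0, 0, 0, 0, 0, 0]),
  (600876504807254041196880000, [0, 0, 0, 1, 0, 0, 0, 0, 0, 0, 0, 0]),
  (598880655679131570948210000, [0, 0, 0, 0, 1, 0, 0, 0, 0, 0, 0, 0]),
  (607640183084082523435200000, [0, 0, 0, 0, 0, 1, 0, 0, 0, 0, 0, 0]),
  (2423298802275405248226480000, [0, 0, 0, 0, 0, 0, 1, 0, 0, 0, 0, 0]),
  (2437676136970794763064985600, [0, 0, 0, 0, 0, 0, 0, 1, 0, 0, 0, 0]),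
  (604573560524528319906090000, [0, 0, 0, 0, 0, 0, 0, 0, 1, 0, 0, 0]),
  (610481428025540157112320000, [0, 0, 0, 0, 0, 0, 0, 0, 0, 1, 0, 0]),
  (610481428025540157112320000, [0, 0, 0, 0, 0, 0, 0, 0, 0, 0, 1, 0]),
  (604391636692160235454586400, [0, 0, 0, 0, 0, 0, 0, 0, 0, 0, 0, 1])]

def M1 : List (List ℤ) := [[3776689043855100363229102080000, 13374394225009356913760010240000, 362693336957364337807196160000, -1389871047779673943818806640000, 1598065749449474403760865280000, -78886773098495007585730560000, -4921679728539844397991198720000, 728577292054291652731207680000, -12061024153568577707754706920000, -8909331204766619277585285120000, 3365615982104808801907507200000, 6356262309828133413873254400000],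
  [40921244523792244104336506880000, -9061569311631894266739425280000, 10807760191700244226539949920000, -416318173823411879672217600000, -482748656141575780395909120000, -11052019116649704823449845760000, 697219560695551182526218240000, -26273449930394329758053058240000, -39626826124303923076325376000000, 8640156810820386994014781440000, 13501144259080912900555407360000],
  [969047518600301969968052760000, -2287732535116120574412677460000, 726451759620783175740597900000, 27201268840408537613598720000, -129935247742058424752769480000, 650105777513187673685360640000, 144261444333061464585918840000, 3531490122262308715687772160000, -735235220393391795470991360000, -118665590602639893262015860000],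
  [1645219027815237196361334540000, -1001147824468742594661279360000, -64123514893003168076261760000, 395522312200760854205888400000, -281793826247297317904079360000, 1051089223248685938455088300000, -3788979243998637993414082560000, -188407725982229342660198400000, -803611154707626412174285440000],
  [460181906133417572658462720000, -16076178514690426425646080000, -850760251503316800152018400000, 360204217811991520223477760000, -2810984468650441074532154880000, -433414240479822583512760320000, -1480674878218437366863462400000, -250040978104286425941319680000],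
  [3913538477795863484682240000, 85993435236849163550392320000, -49156592471142419721830400000, 175959545256652760507278080000, 232338200002831596774481920000, 35975575570027992364892160000, -38686804222960964190274560000],
  [1826808327926741177636143680000, -946540586610614747204812800000, 7924165982999386526725079040000, 6841852891410764614356910080000, -2726035229999809582254489600000, -4843157361845470468962565320000],
  [489292147022655887939911680000, -1260958141956786001064017920000, -656455495532619288139038720000, -409787240431405709253427200000, 558777254771220364733088614400],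
  [10201414606592016193165946880000, 16074193199830057556890214400000, -2851839185361296097073397760000, -8314704118134476652761579520000],
  [10170773641402771543953408000000, -5708172090688302848885637120000, -8932778185602380193253048320000],
  [6072883475445809377361879040000, 10609277959833090589771776000000],
  [5656666492867948037787525120000]]

def u1 : List ℤ := [0, 0, 0, 0, 0, 0, 0, 0, 22588265609818292294422364160000, -30213512350840802905832816640000, 0, 0, 0, 0, 0, 0, 0, 81842489047584488208673013760000, -22104038233299409646899691520000, 0, 0, 0, 0, 0, 0, 0, 36246277246527577066957701120000, 0, 124594472337782420366313086880000, -7067871914396049281647301760000, 0, 0, 0, 0, -31308307822366907877457920000, -978584294045311775879823360000, 0, 0, 0, 0, 0, 0, 0, 0, 0, 1394439121391102365052436480000, 631094184787960060685844480000, -1633190981037937429127040000000, -881451002247077020442342400000, 0, 0, 0, 5357126581320814261221328588800,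 -3937686812873441841585254400000, 297980028679629310959322828800, -1127175304989189271616317440000, -196626369884569678887321600000, 1893081173221229494409625600000, 2227342433647430530775715840000, 0, 0, 0, 0, 0, 0, 0, 0, 2914309168217166610924830720000, 0, -2914309168217166610924830720000, 0, 0, 12784525995595795230086922240000, 1665272695293647518688870400000, -631094184787960060685844480000, 0, 0, 1930994624566303121583636480000, 0, -23030553023858643389663453280000, -93710610094817549532971704320000, 69597632880629051586678057600000, 3393221357880086044887666000000, 19870941054263314172054446080000, 0, -34516190844983847701133013680000, -647517777452737978011724800000, 0, 0, -13161752222521897570890676320000, 30213512350840802905832816640000, -53497576900037427655040040960000, -41789059863390683565580615680000, -11118968382237391550550453120000, -60850868409482144551696514880000, 37387634550205832103356006400000, 8036324893275022722182676480000,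 73344261595850327310349726080000, -43231040766800976906159799680000, -125689200853926969557419201920000, 25840147472969472879561480960000, -36724263414682877614192066560000, 7752380148802415759744422080000, 11225631753902431769043873600000, -19883949529732008012124973280000, 22269935803688387614639355040000, 5811614076966265405924783200000, 4627706605644890718227844000000, -1567180461472094434186690560000, -519740990968233699011077920000, 519740990968233699011077920000, -2600423110052750694741442560000, -27062455395521301964326941760000, 45040829816209318357792004640000, -16684688220422850296665728480000, -5407219400736574790719867440000, 1991616156752448035787838560000, -22284040709604721726122035760000, 13161752222521897570890676320000, -8009182595749940757290234880000, -512988119144025344610094080000, 3289272059775714324239108160000, 1127175304989189271616317440000, 23564630761984039481297036640000, -5675258333732093926753489920000,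 3681455249067340581267701760000, -128609428117523411405168640000, -3403041006013267200608073600000, 3403041006013267200608073600000, -20754218787284238262206197760000, -10845235113330353231142420480000, 29907735873051744768748584960000, 31308307822366907877457920000, 196626369884569678887321600000, 478323562041895696960296960000, 3277524840698105744996229120000, 3653616655853482355272287360000, -3653616655853482355272287360000, -1893081173221229494409625600000, -15138385183690560102434109840000, 13920558987382262711341282080000, 1217826196308297391092827760000, 978584294045311775879823360000, -3054683499947692877439208857600, 49340366592319035834696990720000, -11684275256097593429023457280000, 1726762450766051667377848320000, -32522270093363765425935974400000, 25699643953588848481054064640000, -8240355003618839745671086080000, -10737656899086007783117209600000]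

theorem gr1 : eqM (gramT rows1) M1 = true := by
  decide +kernel

theorem mv1 : eqZ (mval M1 tab1) u1 = true := by
  decide +kernel

theorem nn1 (E : Env κ ι) : 0 ≤ dot (ek E keys) u1 0 :=
  block_nonneg E _ _ _ _ _ (tri1 E) rows1 M1 gr1 u1 mv1

end

def p4_0_0 : Cov := [(1, 1, 3, [(0, [1], [1, 2]), (0, [1], [1, 3]), (0, [0], [2, 3]), (3, [], [0])])]

def c4_0 : Cov := p4_0_0

def p4_1_0 : Cov := [(1, 1, 3, [(0, [1], [1, 2]), (0, [1], [1, 2]), (0, [0], [0, 3]), (3, [], [3])])]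

def c4_1 : Cov := p4_1_0

def p4_2_0 : Cov := [(1, 1, 3, [(0, [1], [1, 2]), (0, [1], [1, 3]), (0, [0], [0, 2]), (3, [], [3])])]

def c4_2 : Cov := p4_2_0

def p4_3_0 : Cov := [(1, 1, 3, [(0, [1], [1, 2]), (0, [1], [0, 1]), (0, [0], [2, 3]), (3, [], [3])])]

def c4_3 : Cov := p4_3_0

def p4_4_0 : Cov := [(1, 1, 3, [(0, [1], [1, 2]), (0, [1], [0, 3]), (0, [0], [1, 2]), (3, [], [3])])]

def c4_4 : Cov := p4_4_0

def p4_5_0 : Cov := [(1, 1, 3, [(0, [1], [1, 2]), (0, [1], [0, 3]), (0, [0], [1, 3]), (3, [], [2])])]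

def c4_5 : Cov := p4_5_0

def p4_6_0 : Cov := [(1, 0, 3, [(0, [0], [1, 2]), (1, [], [1, 3]), (1, [], [2, 3]), (3, [], [0])])]

def c4_6 : Cov := p4_6_0

def p4_7_0 : Cov := [(1, 0, 3, [(0, [0], [1, 2]), (1, [], [1, 2]), (1, [], [0, 3]), (3, [], [3])])]

def c4_7 : Cov := p4_7_0

def p4_8_0 : Cov := [(1, 0, 3, [(0, [0], [1, 2]), (1, [], [1, 3]), (1, [], [0, 2]), (3, [], [3])])]

def c4_8 : Cov := p4_8_0

def p4_9_0 : Cov := [(1, 0, 3, [(0, [0], [1, 2]), (1, [], [1, 3]), (1, [], [0, 3]), (3, [], [2])])]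

def c4_9 : Cov := p4_9_0

def p4_10_0 : Cov := [(1, 0, 2, [(0, [0], [1, 2]), (1, [], [1, 2]), (3, [], [0])])]

def c4_10 : Cov := p4_10_0

def p4_11_0 : Cov := [(1, 0, 2, [(0, [0], [1, 2]), (1, [], [0, 1]), (3, [], [2])])]

def c4_11 : Cov := p4_11_0

def p4_12_0 : Cov := [(1, 0, 3, [(0, [0], [0, 1]), (1, [], [1, 2]), (1, [], [2, 3]), (3, [], [3])])]

def c4_12 : Cov := p4_12_0

def p4_13_0 : Cov := [(1, 0, 3, [(0, [0], [0, 1]), (1, [], [2, 3]), (1, [], [2, 3]), (3, [], [1])])]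

def c4_13 : Cov := p4_13_0

def p4_14_0 : Cov := [(1, 0, 2, [(0, [0], [0, 1]), (1, [], [1, 2]), (3, [], [2])])]

def c4_14 : Cov := p4_14_0

def p4_15_0 : Cov := [(1, 0, 1, [(0, [0], [0, 1]), (3, [], [1])])]

def c4_15 : Cov := p4_15_0

def p4_16_0 : Cov := [(1, 0, 2, [(2, [0], [0, 1, 2]), (1, [], [1, 2])])]

def c4_16 : Cov := p4_16_0

theorem t4_0_0_0 : chkF keys 1 1 p4_0_0 c4_0
  [(203, 513, 513, 106176771, 106169121)]
  [(203, 1)] = true := by
  decide +kernel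

theorem t4_0_1_0 : chkF keys 1 1 p4_0_0 c4_1
  [(204, 513, 513, 106176771, 106169121)]
  [(204, 1)] = true := by
  decide +kernel

theorem t4_0_2_0 : chkF keys 1 1 p4_0_0 c4_2
  [(205, 513, 513, 106176771, 106169121)]
  [(205, 1)] = true := by
  decide +kernel

theorem t4_0_3_0 : chkF keys 1 1 p4_0_0 c4_3
  [(205, 513, 513, 55845126, 5530401)]
  [(205, 1)] = true := by
  decide +kernel

theorem t4_0_4_0 : chkF keys 1 1 p4_0_0 c4_4
  [(206, 513, 513, 106176771, 106169121)]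
  [(206, 1)] = true := by
  decide +kernel

theorem t4_0_5_0 : chkF keys 1 1 p4_0_0 c4_5
  [(207, 513, 513, 106176771, 106169121)]
  [(207, 1)] = true := by
  decide +kernel

theorem t4_0_6_0 : chkF keys 1 1 p4_0_0 c4_6
  [(189, 1, 1, 70656021, 67523346)]
  [(189, 1)] = true := by
  decide +kernel

theorem t4_0_7_0 : chkF keys 1 1 p4_0_0 c4_7
  [(172, 16, 16, 87167076, 23090226)]
  [(172, 1)] = true := by
  decide +kernel

theorem t4_0_8_0 : chkF keys 1 1 p4_0_0 c4_8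
  [(128, 1, 1, 104144916, 104878866)]
  [(128, 1)] = true := by
  decide +kernel

theorem t4_0_9_0 : chkF keys 1 1 p4_0_0 c4_9
  [(106, 16, 16, 68170326, 1454676)]
  [(106, 1)] = true := by
  decide +kernel

theorem t4_0_10_0 : chkF keys 1 1 p4_0_0 c4_10
  [(180, 16, 16, 3280980, 1070130)]
  [(180, 1)] = true := by
  decide +kernel

theorem t4_0_11_0 : chkF keys 1 1 p4_0_0 c4_11
  [(108, 16, 16, 1061460, 1061460)]
  [(108, 1)] = true := by
  decide +kernel

theorem t4_0_12_0 : chkF keys 1 1 p4_0_0 c4_12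
  [(106, 16, 16, 104870481, 102052356)]
  [(106, 1)] = true := by
  decide +kernel

theorem t4_0_13_0 : chkF keys 1 1 p4_0_0 c4_13
  [(186, 1, 1, 70656021, 67523346)]
  [(186, 1)] = true := by
  decide +kernel

theorem t4_0_14_0 : chkF keys 1 1 p4_0_0 c4_14
  [(108, 16, 16, 4207185, 1389060)]
  [(108, 1)] = true := by
  decide +kernel

theorem t4_0_15_0 : chkF keys 1 1 p4_0_0 c4_15
  [(133, 1, 1, 270355, 262930)]
  [(133, 1)] = true := by
  decide +kernel

theorem t4_0_16_0 : chkF keys 1 1 p4_0_0 c4_16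
  [(156, 16, 16, 2297940, 1066290)]
  [(156, 1)] = true := by
  decide +kernel

theorem t4_1_1_0 : chkF keys 1 1 p4_1_0 c4_1
  [(62, 258, 33, 103960836, 103830561)]
  [(62, 1)] = true := by
  decide +kernel

theorem t4_1_2_0 : chkF keys 1 1 p4_1_0 c4_2
  [(63, 258, 33, 87187716, 56644641)]
  [(63, 1)] = true := by
  decide +kernel

theorem t4_1_3_0 : chkF keys 1 1 p4_1_0 c4_3
  [(208, 513, 513, 106180866, 106180641)]
  [(208, 1)] = true := by
  decide +kernel

theorem t4_1_4_0 : chkF keys 1 1 p4_1_0 c4_4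
  [(209, 513, 513, 106180866, 106180641)]
  [(209, 1)] = true := by
  decide +kernel

theorem t4_1_5_0 : chkF keys 1 1 p4_1_0 c4_5
  [(64, 258, 33, 56905986, 87318561)]
  [(64, 1)] = true := by
  decide +kernel

theorem t4_1_6_0 : chkF keys 1 1 p4_1_0 c4_6
  [(95, 1, 1, 39018756, 55592481)]
  [(95, 1)] = true := by
  decide +kernel

theorem t4_1_7_0 : chkF keys 1 1 p4_1_0 c4_7
  [(8, 16, 16, 101725506, 102838356)]
  [(8, 1)] = true := by
  decide +kernel

theorem t4_1_8_0 : chkF keys 1 1 p4_1_0 c4_8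
  [(29, 1, 1, 54681861, 50684961)]
  [(29, 1)] = true := by
  decide +kernel

theorem t4_1_9_0 : chkF keys 1 1 p4_1_0 c4_9
  [(92, 1, 1, 37970181, 50677281)]
  [(92, 1)] = true := by
  decide +kernel

theorem t4_1_10_0 : chkF keys 1 1 p4_1_0 c4_10
  [(69, 1, 1, 4399365, 344865)]
  [(69, 1)] = true := by
  decide +kernel

theorem t4_1_11_0 : chkF keys 1 1 p4_1_0 c4_11
  [(67, 1, 1, 4411650, 3489825)]
  [(67, 1)] = true := by
  decide +kernel

theorem t4_1_12_0 : chkF keys 1 1 p4_1_0 c4_12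
  [(28, 1, 1, 52715781, 50619681)]
  [(28, 1)] = true := by
  decide +kernel

theorem t4_1_13_0 : chkF keys 1 1 p4_1_0 c4_13
  [(91, 1, 1, 52838661, 67331361)]
  [(91, 1)] = true := by
  decide +kernel

theorem t4_1_14_0 : chkF keys 1 1 p4_1_0 c4_14
  [(46, 16, 16, 5252145, 5378820)]
  [(46, 1)] = true := by
  decide +kernel

theorem t4_1_15_0 : chkF keys 1 1 p4_1_0 c4_15
  [(61, 1, 1, 274690, 274465)]
  [(61, 1)] = true := by
  decide +kernel

theorem t4_1_16_0 : chkF keys 1 1 p4_1_0 c4_16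
  [(60, 1, 1, 4411650, 3489825)]
  [(60, 1)] = true := by
  decide +kernel

theorem t4_2_2_0 : chkF keys 1 1 p4_2_0 c4_2
  [(210, 513, 513, 106176771, 106169121)]
  [(210, 1)] = true := by
  decide +kernel

theorem t4_2_3_0 : chkF keys 1 1 p4_2_0 c4_3
  [(211, 513, 513, 106176771, 106169121)]
  [(211, 1)] = true := by
  decide +kernel

theorem t4_2_4_0 : chkF keys 1 1 p4_2_0 c4_4
  [(36, 513, 513, 106180866, 106180641)]
  [(36, 1)] = true := by
  decide +kernel

theorem t4_2_5_0 : chkF keys 1 1 p4_2_0 c4_5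
  [(212, 513, 513, 106176771, 106169121)]
  [(212, 1)] = true := by
  decide +kernel

theorem t4_2_6_0 : chkF keys 1 1 p4_2_0 c4_6
  [(101, 1, 1, 70652421, 67523121)]
  [(101, 1)] = true := by
  decide +kernel

theorem t4_2_7_0 : chkF keys 1 1 p4_2_0 c4_7
  [(18, 1, 1, 105074946, 104153121)]
  [(18, 1)] = true := by
  decide +kernel

theorem t4_2_8_0 : chkF keys 1 1 p4_2_0 c4_8
  [(97, 1, 1, 73601541, 84296241)]
  [(97, 1)] = true := by
  decide +kernel

theorem t4_2_9_0 : chkF keys 1 1 p4_2_0 c4_9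
  [(96, 1, 1, 73732611, 88474161)]
  [(96, 1)] = true := by
  decide +kernel

theorem t4_2_10_0 : chkF keys 1 1 p4_2_0 c4_10
  [(45, 1, 1, 4399125, 344850)]
  [(45, 1)] = true := by
  decide +kernel

theorem t4_2_11_0 : chkF keys 1 1 p4_2_0 c4_11
  [(48, 1, 1, 5513235, 5505810)]
  [(48, 1)] = true := by
  decide +kernel

theorem t4_2_12_0 : chkF keys 1 1 p4_2_0 c4_12
  [(99, 1, 1, 105058821, 101007921)]
  [(99, 1)] = true := by
  decide +kernel

theorem t4_2_13_0 : chkF keys 1 1 p4_2_0 c4_13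
  [(17, 1, 1, 70668546, 70668321)]
  [(17, 1)] = true := by
  decide +kernel

theorem t4_2_14_0 : chkF keys 1 1 p4_2_0 c4_14
  [(86, 16, 16, 3232320, 3232320)]
  [(86, 1)] = true := by
  decide +kernel

theorem t4_2_15_0 : chkF keys 1 1 p4_2_0 c4_15
  [(34, 1, 1, 274690, 274465)]
  [(34, 1)] = true := by
  decide +kernel

theorem t4_2_16_0 : chkF keys 1 1 p4_2_0 c4_16
  [(15, 16, 16, 4411680, 3490080)]
  [(15, 1)] = true := by
  decide +kernel

theorem t4_3_3_0 : chkF keys 1 1 p4_3_0 c4_3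
  [(213, 513, 513, 106180866, 106180641)]
  [(213, 1)] = true := by
  decide +kernel

theorem t4_3_4_0 : chkF keys 1 1 p4_3_0 c4_4
  [(214, 513, 513, 106180866, 106180641)]
  [(214, 1)] = true := by
  decide +kernel

theorem t4_3_5_0 : chkF keys 1 1 p4_3_0 c4_5
  [(215, 513, 513, 106180866, 106180641)]
  [(215, 1)] = true := by
  decide +kernel

theorem t4_3_6_0 : chkF keys 1 1 p4_3_0 c4_6
  [(101, 1, 1, 70668801, 70668801)]
  [(101, 1)] = true := by
  decide +kernel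

theorem t4_3_7_0 : chkF keys 1 1 p4_3_0 c4_7
  [(84, 1, 1, 55861761, 55861761)]
  [(84, 1)] = true := by
  decide +kernel

theorem t4_3_8_0 : chkF keys 1 1 p4_3_0 c4_8
  [(131, 1, 1, 73617936, 87441936)]
  [(131, 1)] = true := by
  decide +kernel

theorem t4_3_9_0 : chkF keys 1 1 p4_3_0 c4_9
  [(113, 16, 16, 68166486, 1450836)]
  [(113, 1)] = true := by
  decide +kernel

theorem t4_3_10_0 : chkF keys 1 1 p4_3_0 c4_10
  [(45, 1, 1, 4411410, 3489810)]
  [(45, 1)] = true := by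
  decide +kernel

theorem t4_3_11_0 : chkF keys 1 1 p4_3_0 c4_11
  [(53, 16, 16, 1070130, 3280980)]
  [(53, 1)] = true := by
  decide +kernel

theorem t4_3_12_0 : chkF keys 1 1 p4_3_0 c4_12
  [(130, 1, 1, 70607376, 54940176)]
  [(130, 1)] = true := by
  decide +kernel

theorem t4_3_13_0 : chkF keys 1 1 p4_3_0 c4_13
  [(185, 1, 1, 70606866, 54939666)]
  [(185, 1)] = true := by
  decide +kernel

theorem t4_3_14_0 : chkF keys 1 1 p4_3_0 c4_14
  [(58, 16, 16, 3167265, 3297540)]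
  [(58, 1)] = true := by
  decide +kernel

theorem t4_3_15_0 : chkF keys 1 1 p4_3_0 c4_15
  [(56, 1, 1, 270595, 262945)]
  [(56, 1)] = true := by
  decide +kernel

theorem t4_3_16_0 : chkF keys 1 1 p4_3_0 c4_16
  [(158, 16, 16, 4395090, 1392690)]
  [(158, 1)] = true := by
  decide +kernel

theorem t4_4_4_0 : chkF keys 1 1 p4_4_0 c4_4
  [(216, 513, 513, 106180866, 106180641)]
  [(216, 1)] = true := by
  decide +kernel

theorem t4_4_5_0 : chkF keys 1 1 p4_4_0 c4_5
  [(37, 288, 288, 19948866, 52514916)]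
  [(37, 1)] = true := by
  decide +kernel

theorem t4_4_6_0 : chkF keys 1 1 p4_4_0 c4_6
  [(196, 1, 1, 90444576, 90448176)]
  [(196, 1)] = true := by
  decide +kernel

theorem t4_4_7_0 : chkF keys 1 1 p4_4_0 c4_7
  [(175, 16, 16, 87187716, 56644641)]
  [(175, 1)] = true := by
  decide +kernel

theorem t4_4_8_0 : chkF keys 1 1 p4_4_0 c4_8
  [(110, 1, 1, 105190176, 105193776)]
  [(110, 1)] = true := by
  decide +kernel

theorem t4_4_9_0 : chkF keys 1 1 p4_4_0 c4_9
  [(102, 1, 1, 73732896, 88482096)]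
  [(102, 1)] = true := by
  decide +kernel

theorem t4_4_10_0 : chkF keys 1 1 p4_4_0 c4_10
  [(181, 16, 16, 3297540, 3167265)]
  [(181, 1)] = true := by
  decide +kernel

theorem t4_4_11_0 : chkF keys 1 1 p4_4_0 c4_11
  [(111, 1, 1, 5509920, 5513520)]
  [(111, 1)] = true := by
  decide +kernel

theorem t4_4_12_0 : chkF keys 1 1 p4_4_0 c4_12
  [(174, 16, 16, 88171296, 56959296)]
  [(174, 1)] = true := by
  decide +kernel

theorem t4_4_13_0 : chkF keys 1 1 p4_4_0 c4_13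
  [(190, 1, 1, 88478496, 73736496)]
  [(190, 1)] = true := by
  decide +kernel

theorem t4_4_14_0 : chkF keys 1 1 p4_4_0 c4_14
  [(138, 16, 16, 4281120, 3481920)]
  [(138, 1)] = true := by
  decide +kernel

theorem t4_4_15_0 : chkF keys 1 1 p4_4_0 c4_15
  [(142, 1, 1, 267040, 270640)]
  [(142, 1)] = true := by
  decide +kernel

theorem t4_4_16_0 : chkF keys 1 1 p4_4_0 c4_16
  [(161, 16, 16, 4411650, 3489825)]
  [(161, 1)] = true := by
  decide +kernel

theorem t4_5_5_0 : chkF keys 1 1 p4_5_0 c4_5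
  [(217, 513, 513, 106180866, 106180641)]
  [(217, 1)] = true := by
  decide +kernel

theorem t4_5_6_0 : chkF keys 1 1 p4_5_0 c4_6
  [(193, 1, 1, 90448131, 90440481)]
  [(193, 1)] = true := by
  decide +kernel

theorem t4_5_7_0 : chkF keys 1 1 p4_5_0 c4_7
  [(23, 16, 16, 105059586, 103104561)]
  [(23, 1)] = true := by
  decide +kernel

theorem t4_5_8_0 : chkF keys 1 1 p4_5_0 c4_8
  [(141, 16, 16, 67184181, 33952581)]
  [(141, 1)] = true := by
  decide +kernel

theorem t4_5_9_0 : chkF keys 1 1 p4_5_0 c4_9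
  [(115, 16, 16, 68167221, 33952596)]
  [(115, 1)] = true := by
  decide +kernel

theorem t4_5_10_0 : chkF keys 1 1 p4_5_0 c4_10
  [(51, 16, 16, 1065765, 205140)]
  [(51, 1)] = true := by
  decide +kernel

theorem t4_5_11_0 : chkF keys 1 1 p4_5_0 c4_11
  [(52, 16, 16, 1062210, 2175060)]
  [(52, 1)] = true := by
  decide +kernel

theorem t4_5_12_0 : chkF keys 1 1 p4_5_0 c4_12
  [(173, 16, 16, 88282626, 40190001)]
  [(173, 1)] = true := by
  decide +kernel

theorem t4_5_13_0 : chkF keys 1 1 p4_5_0 c4_13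
  [(22, 1, 1, 70587936, 38162736)]
  [(22, 1)] = true := by
  decide +kernel

theorem t4_5_14_0 : chkF keys 1 1 p4_5_0 c4_14
  [(57, 16, 16, 3155265, 2183940)]
  [(57, 1)] = true := by
  decide +kernel

theorem t4_5_15_0 : chkF keys 1 1 p4_5_0 c4_15
  [(35, 1, 1, 201760, 147760)]
  [(35, 1)] = true := by
  decide +kernel

theorem t4_5_16_0 : chkF keys 1 1 p4_5_0 c4_16
  [(20, 1, 1, 4396320, 2441520)]
  [(20, 1)] = true := by
  decide +kernel

theorem t4_6_6_0 : chkF keys 1 1 p4_6_0 c4_6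
  [(218, 0, 0, 106176771, 106169121)]
  [(218, 1)] = true := by
  decide +kernel

theorem t4_6_7_0 : chkF keys 1 1 p4_6_0 c4_7
  [(219, 0, 0, 106176771, 106169121)]
  [(219, 1)] = true := by
  decide +kernel

theorem t4_6_8_0 : chkF keys 1 1 p4_6_0 c4_8
  [(220, 0, 0, 106176771, 106169121)]
  [(220, 1)] = true := by
  decide +kernel

theorem t4_6_9_0 : chkF keys 1 1 p4_6_0 c4_9
  [(221, 0, 0, 106176771, 106169121)]
  [(221, 1)] = true := by
  decide +kernel

theorem t4_6_10_0 : chkF keys 1 1 p4_6_0 c4_10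
  [(222, 0, 0, 5513475, 5505825)]
  [(222, 1)] = true := by
  decide +kernel

theorem t4_6_11_0 : chkF keys 1 1 p4_6_0 c4_11
  [(223, 0, 0, 5513475, 5505825)]
  [(223, 1)] = true := by
  decide +kernel

theorem t4_6_12_0 : chkF keys 1 1 p4_6_0 c4_12
  [(221, 0, 0, 56893701, 84173601)]
  [(221, 1)] = true := by
  decide +kernel

theorem t4_6_13_0 : chkF keys 1 1 p4_6_0 c4_13
  [(224, 0, 0, 106176771, 106169121)]
  [(224, 1)] = true := by
  decide +kernel

theorem t4_6_14_0 : chkF keys 1 1 p4_6_0 c4_14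
  [(223, 0, 0, 3416325, 283425)]
  [(223, 1)] = true := by
  decide +kernel

theorem t4_6_15_0 : chkF keys 1 1 p4_6_0 c4_15
  [(225, 0, 0, 270595, 262945)]
  [(225, 1)] = true := by
  decide +kernel

theorem t4_6_16_0 : chkF keys 1 1 p4_6_0 c4_16
  [(226, 0, 0, 5513475, 5505825)]
  [(226, 1)] = true := by
  decide +kernel

theorem t4_7_7_0 : chkF keys 1 1 p4_7_0 c4_7
  [(227, 0, 0, 106180866, 106180641)]
  [(227, 1)] = true := by
  decide +kernel

theorem t4_7_8_0 : chkF keys 1 1 p4_7_0 c4_8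
  [(228, 0, 0, 106180866, 106180641)]
  [(228, 1)] = true := by
  decide +kernel

theorem t4_7_9_0 : chkF keys 1 1 p4_7_0 c4_9
  [(229, 0, 0, 106180866, 106180641)]
  [(229, 1)] = true := by
  decide +kernel

theorem t4_7_10_0 : chkF keys 1 1 p4_7_0 c4_10
  [(230, 0, 0, 5517570, 5517345)]
  [(230, 1)] = true := by
  decide +kernel

theorem t4_7_11_0 : chkF keys 1 1 p4_7_0 c4_11
  [(231, 0, 0, 5517570, 5517345)]
  [(231, 1)] = true := by
  decide +kernel

theorem t4_7_12_0 : chkF keys 1 1 p4_7_0 c4_12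
  [(228, 0, 0, 52781316, 54551841)]
  [(228, 1)] = true := by
  decide +kernel

theorem t4_7_13_0 : chkF keys 1 1 p4_7_0 c4_13
  [(232, 0, 0, 106180866, 106180641)]
  [(232, 1)] = true := by
  decide +kernel

theorem t4_7_14_0 : chkF keys 1 1 p4_7_0 c4_14
  [(233, 0, 0, 5517570, 5517345)]
  [(233, 1)] = true := by
  decide +kernel

theorem t4_7_15_0 : chkF keys 1 1 p4_7_0 c4_15
  [(3, 0, 0, 213250, 213025)]
  [(3, 1)] = true := by
  decide +kernel

theorem t4_7_16_0 : chkF keys 1 1 p4_7_0 c4_16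
  [(234, 0, 0, 5517570, 5517345)]
  [(234, 1)] = true := by
  decide +kernel

theorem t4_8_8_0 : chkF keys 1 1 p4_8_0 c4_8
  [(235, 0, 0, 106176771, 106169121)]
  [(235, 1)] = true := by
  decide +kernel

theorem t4_8_9_0 : chkF keys 1 1 p4_8_0 c4_9
  [(236, 0, 0, 106176771, 106169121)]
  [(236, 1)] = true := by
  decide +kernel

theorem t4_8_10_0 : chkF keys 1 1 p4_8_0 c4_10
  [(233, 0, 0, 1061925, 143700)]
  [(233, 1)] = true := by
  decide +kernel

theorem t4_8_11_0 : chkF keys 1 1 p4_8_0 c4_11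
  [(237, 0, 0, 5513475, 5505825)]
  [(237, 1)] = true := by
  decide +kernel

theorem t4_8_12_0 : chkF keys 1 1 p4_8_0 c4_12
  [(238, 0, 0, 106176771, 106169121)]
  [(238, 1)] = true := by
  decide +kernel

theorem t4_8_13_0 : chkF keys 1 1 p4_8_0 c4_13
  [(239, 0, 0, 106176771, 106169121)]
  [(239, 1)] = true := by
  decide +kernel

theorem t4_8_14_0 : chkF keys 1 1 p4_8_0 c4_14
  [(240, 0, 0, 5513475, 5505825)]
  [(240, 1)] = true := by
  decide +kernel

theorem t4_8_15_0 : chkF keys 1 1 p4_8_0 c4_15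
  [(241, 0, 0, 270595, 262945)]
  [(241, 1)] = true := by
  decide +kernel

theorem t4_8_16_0 : chkF keys 1 1 p4_8_0 c4_16
  [(242, 0, 0, 5513475, 5505825)]
  [(242, 1)] = true := by
  decide +kernel

theorem t4_9_9_0 : chkF keys 1 1 p4_9_0 c4_9
  [(243, 0, 0, 106176771, 106169121)]
  [(243, 1)] = true := by
  decide +kernel

theorem t4_9_10_0 : chkF keys 1 1 p4_9_0 c4_10
  [(231, 0, 0, 1058115, 2163540)]
  [(231, 1)] = true := by
  decide +kernel

theorem t4_9_11_0 : chkF keys 1 1 p4_9_0 c4_11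
  [(244, 0, 0, 5513475, 5505825)]
  [(244, 1)] = true := by
  decide +kernel

theorem t4_9_12_0 : chkF keys 1 1 p4_9_0 c4_12
  [(245, 0, 0, 106176771, 106169121)]
  [(245, 1)] = true := by
  decide +kernel

theorem t4_9_13_0 : chkF keys 1 1 p4_9_0 c4_13
  [(246, 0, 0, 106176771, 106169121)]
  [(246, 1)] = true := by
  decide +kernel

theorem t4_9_14_0 : chkF keys 1 1 p4_9_0 c4_14
  [(237, 0, 0, 2110785, 2176260)]
  [(237, 1)] = true := by
  decide +kernel

theorem t4_9_15_0 : chkF keys 1 1 p4_9_0 c4_15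
  [(247, 0, 0, 270595, 262945)]
  [(247, 1)] = true := by
  decide +kernel

theorem t4_9_16_0 : chkF keys 1 1 p4_9_0 c4_16
  [(248, 0, 0, 5513475, 5505825)]
  [(248, 1)] = true := by
  decide +kernel

theorem t4_10_10_0 : chkF keys 1 1 p4_10_0 c4_10
  [(249, 0, 0, 274690, 274465)]
  [(249, 1)] = true := by
  decide +kernel

theorem t4_10_11_0 : chkF keys 1 1 p4_10_0 c4_11
  [(3, 0, 0, 205060, 17185)]
  [(3, 1)] = true := by
  decide +kernel

theorem t4_10_12_0 : chkF keys 1 1 p4_10_0 c4_12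
  [(231, 0, 0, 3293445, 218145)]
  [(231, 1)] = true := by
  decide +kernel

theorem t4_10_13_0 : chkF keys 1 1 p4_10_0 c4_13
  [(250, 0, 0, 5517570, 5517345)]
  [(250, 1)] = true := by
  decide +kernel

theorem t4_10_14_0 : chkF keys 1 1 p4_10_0 c4_14
  [(3, 0, 0, 270595, 262945)]
  [(3, 1)] = true := by
  decide +kernel

theorem t4_10_15_0 : chkF keys 1 1 p4_10_0 c4_15
  [(41, 0, 0, 12816, 12816)]
  [(41, 1)] = true := by
  decide +kernel

theorem t4_10_16_0 : chkF keys 1 1 p4_10_0 c4_16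
  [(251, 0, 0, 274690, 274465)]
  [(251, 1)] = true := by
  decide +kernel

theorem t4_11_11_0 : chkF keys 1 1 p4_11_0 c4_11
  [(247, 0, 0, 274690, 274465)]
  [(247, 1)] = true := by
  decide +kernel

theorem t4_11_12_0 : chkF keys 1 1 p4_11_0 c4_12
  [(252, 0, 0, 5517570, 5517345)]
  [(252, 1)] = true := by
  decide +kernel

theorem t4_11_13_0 : chkF keys 1 1 p4_11_0 c4_13
  [(253, 0, 0, 5517570, 5517345)]
  [(253, 1)] = true := by
  decide +kernel

theorem t4_11_14_0 : chkF keys 1 1 p4_11_0 c4_14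
  [(241, 0, 0, 132145, 136195)]
  [(241, 1)] = true := by
  decide +kernel

theorem t4_11_15_0 : chkF keys 1 1 p4_11_0 c4_15
  [(39, 0, 0, 12816, 12816)]
  [(39, 1)] = true := by
  decide +kernel

theorem t4_11_16_0 : chkF keys 1 1 p4_11_0 c4_16
  [(254, 0, 0, 274690, 274465)]
  [(254, 1)] = true := by
  decide +kernel

theorem t4_12_12_0 : chkF keys 1 1 p4_12_0 c4_12
  [(255, 0, 0, 106181136, 106181136)]
  [(255, 1)] = true := by
  decide +kernel

theorem t4_12_13_0 : chkF keys 1 1 p4_12_0 c4_13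
  [(256, 0, 0, 106181136, 106181136)]
  [(256, 1)] = true := by
  decide +kernel

theorem t4_12_14_0 : chkF keys 1 1 p4_12_0 c4_14
  [(257, 0, 0, 5517840, 5517840)]
  [(257, 1)] = true := by
  decide +kernel

theorem t4_12_15_0 : chkF keys 1 1 p4_12_0 c4_15
  [(258, 0, 0, 274960, 274960)]
  [(258, 1)] = true := by
  decide +kernel

theorem t4_12_16_0 : chkF keys 1 1 p4_12_0 c4_16
  [(259, 0, 0, 5517840, 5517840)]
  [(259, 1)] = true := by
  decide +kernel

theorem t4_13_13_0 : chkF keys 1 1 p4_13_0 c4_13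
  [(260, 0, 0, 106181136, 106181136)]
  [(260, 1)] = true := by
  decide +kernel

theorem t4_13_14_0 : chkF keys 1 1 p4_13_0 c4_14
  [(261, 0, 0, 5517840, 5517840)]
  [(261, 1)] = true := by
  decide +kernel

theorem t4_13_15_0 : chkF keys 1 1 p4_13_0 c4_15
  [(262, 0, 0, 274960, 274960)]
  [(262, 1)] = true := by
  decide +kernel

theorem t4_13_16_0 : chkF keys 1 1 p4_13_0 c4_16
  [(263, 0, 0, 5517840, 5517840)]
  [(263, 1)] = true := by
  decide +kernel

theorem t4_14_14_0 : chkF keys 1 1 p4_14_0 c4_14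
  [(264, 0, 0, 274960, 274960)]
  [(264, 1)] = true := by
  decide +kernel

theorem t4_14_15_0 : chkF keys 1 1 p4_14_0 c4_15
  [(43, 0, 0, 12546, 12321)]
  [(43, 1)] = true := by
  decide +kernel

theorem t4_14_16_0 : chkF keys 1 1 p4_14_0 c4_16
  [(265, 0, 0, 274960, 274960)]
  [(265, 1)] = true := by
  decide +kernel

theorem t4_15_15_0 : chkF keys 1 1 p4_15_0 c4_15
  [(38, 0, 0, 528, 528)]
  [(38, 1)] = true := by
  decide +kernel

theorem t4_15_16_0 : chkF keys 1 1 p4_15_0 c4_16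
  [(1, 0, 0, 4656, 4656)]
  [(1, 1)] = true := by
  decide +kernel

theorem t4_16_16_0 : chkF keys 1 1 p4_16_0 c4_16
  [(266, 0, 0, 274960, 274960)]
  [(266, 1)] = true := by
  decide +kernel

section

variable {κ ι : Type*} [Fintype κ] [Fintype ι] [Inhabited κ] [Inhabited ι]

def r4_0_0 : List (ℕ × ℤ) := [(203, 1)]

theorem h4_0_0 (E : Env κ ι) : inn E 1 1 c4_0 c4_0 = dotS (ek E keys) r4_0_0 :=
  innS_eqZ E _ _ _ _ _ _ _ (chkF_sound E keys 1 1 _ _ _ _ t4_0_0_0) (by decide +kernel)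

def r4_0_1 : List (ℕ × ℤ) := [(204, 1)]

theorem h4_0_1 (E : Env κ ι) : inn E 1 1 c4_0 c4_1 = dotS (ek E keys) r4_0_1 :=
  innS_eqZ E _ _ _ _ _ _ _ (chkF_sound E keys 1 1 _ _ _ _ t4_0_1_0) (by decide +kernel)

def r4_0_2 : List (ℕ × ℤ) := [(205, 1)]

theorem h4_0_2 (E : Env κ ι) : inn E 1 1 c4_0 c4_2 = dotS (ek E keys) r4_0_2 :=
  innS_eqZ E _ _ _ _ _ _ _ (chkF_sound E keys 1 1 _ _ _ _ t4_0_2_0) (by decide +kernel)

def r4_0_3 : List (ℕ × ℤ) := [(205, 1)]

theorem h4_0_3 (E : Env κ ι) : inn E 1 1 c4_0 c4_3 = dotS (ek E keys) r4_0_3 :=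
  innS_eqZ E _ _ _ _ _ _ _ (chkF_sound E keys 1 1 _ _ _ _ t4_0_3_0) (by decide +kernel)

def r4_0_4 : List (ℕ × ℤ) := [(206, 1)]

theorem h4_0_4 (E : Env κ ι) : inn E 1 1 c4_0 c4_4 = dotS (ek E keys) r4_0_4 :=
  innS_eqZ E _ _ _ _ _ _ _ (chkF_sound E keys 1 1 _ _ _ _ t4_0_4_0) (by decide +kernel)

def r4_0_5 : List (ℕ × ℤ) := [(207, 1)]

theorem h4_0_5 (E : Env κ ι) : inn E 1 1 c4_0 c4_5 = dotS (ek E keys) r4_0_5 :=
  innS_eqZ E _ _ _ _ _ _ _ (chkF_sound E keys 1 1 _ _ _ _ t4_0_5_0) (by decide +kernel)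

def r4_0_6 : List (ℕ × ℤ) := [(189, 1)]

theorem h4_0_6 (E : Env κ ι) : inn E 1 1 c4_0 c4_6 = dotS (ek E keys) r4_0_6 :=
  innS_eqZ E _ _ _ _ _ _ _ (chkF_sound E keys 1 1 _ _ _ _ t4_0_6_0) (by decide +kernel)

def r4_0_7 : List (ℕ × ℤ) := [(172, 1)]

theorem h4_0_7 (E : Env κ ι) : inn E 1 1 c4_0 c4_7 = dotS (ek E keys) r4_0_7 :=
  innS_eqZ E _ _ _ _ _ _ _ (chkF_sound E keys 1 1 _ _ _ _ t4_0_7_0) (by decide +kernel)

def r4_0_8 : List (ℕ × ℤ) := [(128, 1)]

theorem h4_0_8 (E : Env κ ι) : inn E 1 1 c4_0 c4_8 = dotS (ek E keys) r4_0_8 :=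
  innS_eqZ E _ _ _ _ _ _ _ (chkF_sound E keys 1 1 _ _ _ _ t4_0_8_0) (by decide +kernel)

def r4_0_9 : List (ℕ × ℤ) := [(106, 1)]

theorem h4_0_9 (E : Env κ ι) : inn E 1 1 c4_0 c4_9 = dotS (ek E keys) r4_0_9 :=
  innS_eqZ E _ _ _ _ _ _ _ (chkF_sound E keys 1 1 _ _ _ _ t4_0_9_0) (by decide +kernel)

def r4_0_10 : List (ℕ × ℤ) := [(180, 1)]

theorem h4_0_10 (E : Env κ ι) : inn E 1 1 c4_0 c4_10 = dotS (ek E keys) r4_0_10 :=
  innS_eqZ E _ _ _ _ _ _ _ (chkF_sound E keys 1 1 _ _ _ _ t4_0_10_0) (by decide +kernel)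

def r4_0_11 : List (ℕ × ℤ) := [(108, 1)]

theorem h4_0_11 (E : Env κ ι) : inn E 1 1 c4_0 c4_11 = dotS (ek E keys) r4_0_11 :=
  innS_eqZ E _ _ _ _ _ _ _ (chkF_sound E keys 1 1 _ _ _ _ t4_0_11_0) (by decide +kernel)

def r4_0_12 : List (ℕ × ℤ) := [(106, 1)]

theorem h4_0_12 (E : Env κ ι) : inn E 1 1 c4_0 c4_12 = dotS (ek E keys) r4_0_12 :=
  innS_eqZ E _ _ _ _ _ _ _ (chkF_sound E keys 1 1 _ _ _ _ t4_0_12_0) (by decide +kernel)

def r4_0_13 : List (ℕ × ℤ) := [(186, 1)]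

theorem h4_0_13 (E : Env κ ι) : inn E 1 1 c4_0 c4_13 = dotS (ek E keys) r4_0_13 :=
  innS_eqZ E _ _ _ _ _ _ _ (chkF_sound E keys 1 1 _ _ _ _ t4_0_13_0) (by decide +kernel)

def r4_0_14 : List (ℕ × ℤ) := [(108, 1)]

theorem h4_0_14 (E : Env κ ι) : inn E 1 1 c4_0 c4_14 = dotS (ek E keys) r4_0_14 :=
  innS_eqZ E _ _ _ _ _ _ _ (chkF_sound E keys 1 1 _ _ _ _ t4_0_14_0) (by decide +kernel)

def r4_0_15 : List (ℕ × ℤ) := [(133, 1)]

theorem h4_0_15 (E : Env κ ι) : inn E 1 1 c4_0 c4_15 = dotS (ek E keys) r4_0_15 :=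
  innS_eqZ E _ _ _ _ _ _ _ (chkF_sound E keys 1 1 _ _ _ _ t4_0_15_0) (by decide +kernel)

def r4_0_16 : List (ℕ × ℤ) := [(156, 1)]

theorem h4_0_16 (E : Env κ ι) : inn E 1 1 c4_0 c4_16 = dotS (ek E keys) r4_0_16 :=
  innS_eqZ E _ _ _ _ _ _ _ (chkF_sound E keys 1 1 _ _ _ _ t4_0_16_0) (by decide +kernel)

def r4_1_1 : List (ℕ × ℤ) := [(62, 1)]

theorem h4_1_1 (E : Env κ ι) : inn E 1 1 c4_1 c4_1 = dotS (ek E keys) r4_1_1 :=
  innS_eqZ E _ _ _ _ _ _ _ (chkF_sound E keys 1 1 _ _ _ _ t4_1_1_0) (by decide +kernel)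

def r4_1_2 : List (ℕ × ℤ) := [(63, 1)]

theorem h4_1_2 (E : Env κ ι) : inn E 1 1 c4_1 c4_2 = dotS (ek E keys) r4_1_2 :=
  innS_eqZ E _ _ _ _ _ _ _ (chkF_sound E keys 1 1 _ _ _ _ t4_1_2_0) (by decide +kernel)

def r4_1_3 : List (ℕ × ℤ) := [(208, 1)]

theorem h4_1_3 (E : Env κ ι) : inn E 1 1 c4_1 c4_3 = dotS (ek E keys) r4_1_3 :=
  innS_eqZ E _ _ _ _ _ _ _ (chkF_sound E keys 1 1 _ _ _ _ t4_1_3_0) (by decide +kernel)

def r4_1_4 : List (ℕ × ℤ) := [(209, 1)]

theorem h4_1_4 (E : Env κ ι) : inn E 1 1 c4_1 c4_4 = dotS (ek E keys) r4_1_4 :=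
  innS_eqZ E _ _ _ _ _ _ _ (chkF_sound E keys 1 1 _ _ _ _ t4_1_4_0) (by decide +kernel)

def r4_1_5 : List (ℕ × ℤ) := [(64, 1)]

theorem h4_1_5 (E : Env κ ι) : inn E 1 1 c4_1 c4_5 = dotS (ek E keys) r4_1_5 :=
  innS_eqZ E _ _ _ _ _ _ _ (chkF_sound E keys 1 1 _ _ _ _ t4_1_5_0) (by decide +kernel)

def r4_1_6 : List (ℕ × ℤ) := [(95, 1)]

theorem h4_1_6 (E : Env κ ι) : inn E 1 1 c4_1 c4_6 = dotS (ek E keys) r4_1_6 :=
  innS_eqZ E _ _ _ _ _ _ _ (chkF_sound E keys 1 1 _ _ _ _ t4_1_6_0) (by decide +kernel)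

def r4_1_7 : List (ℕ × ℤ) := [(8, 1)]

theorem h4_1_7 (E : Env κ ι) : inn E 1 1 c4_1 c4_7 = dotS (ek E keys) r4_1_7 :=
  innS_eqZ E _ _ _ _ _ _ _ (chkF_sound E keys 1 1 _ _ _ _ t4_1_7_0) (by decide +kernel)

def r4_1_8 : List (ℕ × ℤ) := [(29, 1)]

theorem h4_1_8 (E : Env κ ι) : inn E 1 1 c4_1 c4_8 = dotS (ek E keys) r4_1_8 :=
  innS_eqZ E _ _ _ _ _ _ _ (chkF_sound E keys 1 1 _ _ _ _ t4_1_8_0) (by decide +kernel)

def r4_1_9 : List (ℕ × ℤ) := [(92, 1)]

theorem h4_1_9 (E : Env κ ι) : inn E 1 1 c4_1 c4_9 = dotS (ek E keys) r4_1_9 :=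
  innS_eqZ E _ _ _ _ _ _ _ (chkF_sound E keys 1 1 _ _ _ _ t4_1_9_0) (by decide +kernel)

def r4_1_10 : List (ℕ × ℤ) := [(69, 1)]

theorem h4_1_10 (E : Env κ ι) : inn E 1 1 c4_1 c4_10 = dotS (ek E keys) r4_1_10 :=
  innS_eqZ E _ _ _ _ _ _ _ (chkF_sound E keys 1 1 _ _ _ _ t4_1_10_0) (by decide +kernel)

def r4_1_11 : List (ℕ × ℤ) := [(67, 1)]

theorem h4_1_11 (E : Env κ ι) : inn E 1 1 c4_1 c4_11 = dotS (ek E keys) r4_1_11 :=
  innS_eqZ E _ _ _ _ _ _ _ (chkF_sound E keys 1 1 _ _ _ _ t4_1_11_0) (by decide +kernel)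

def r4_1_12 : List (ℕ × ℤ) := [(28, 1)]

theorem h4_1_12 (E : Env κ ι) : inn E 1 1 c4_1 c4_12 = dotS (ek E keys) r4_1_12 :=
  innS_eqZ E _ _ _ _ _ _ _ (chkF_sound E keys 1 1 _ _ _ _ t4_1_12_0) (by decide +kernel)

def r4_1_13 : List (ℕ × ℤ) := [(91, 1)]

theorem h4_1_13 (E : Env κ ι) : inn E 1 1 c4_1 c4_13 = dotS (ek E keys) r4_1_13 :=
  innS_eqZ E _ _ _ _ _ _ _ (chkF_sound E keys 1 1 _ _ _ _ t4_1_13_0) (by decide +kernel)

def r4_1_14 : List (ℕ × ℤ) := [(46, 1)]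

theorem h4_1_14 (E : Env κ ι) : inn E 1 1 c4_1 c4_14 = dotS (ek E keys) r4_1_14 :=
  innS_eqZ E _ _ _ _ _ _ _ (chkF_sound E keys 1 1 _ _ _ _ t4_1_14_0) (by decide +kernel)

def r4_1_15 : List (ℕ × ℤ) := [(61, 1)]

theorem h4_1_15 (E : Env κ ι) : inn E 1 1 c4_1 c4_15 = dotS (ek E keys) r4_1_15 :=
  innS_eqZ E _ _ _ _ _ _ _ (chkF_sound E keys 1 1 _ _ _ _ t4_1_15_0) (by decide +kernel)

def r4_1_16 : List (ℕ × ℤ) := [(60, 1)]

theorem h4_1_16 (E : Env κ ι) : inn E 1 1 c4_1 c4_16 = dotS (ek E keys) r4_1_16 :=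
  innS_eqZ E _ _ _ _ _ _ _ (chkF_sound E keys 1 1 _ _ _ _ t4_1_16_0) (by decide +kernel)

def r4_2_2 : List (ℕ × ℤ) := [(210, 1)]

theorem h4_2_2 (E : Env κ ι) : inn E 1 1 c4_2 c4_2 = dotS (ek E keys) r4_2_2 :=
  innS_eqZ E _ _ _ _ _ _ _ (chkF_sound E keys 1 1 _ _ _ _ t4_2_2_0) (by decide +kernel)

def r4_2_3 : List (ℕ × ℤ) := [(211, 1)]

theorem h4_2_3 (E : Env κ ι) : inn E 1 1 c4_2 c4_3 = dotS (ek E keys) r4_2_3 :=
  innS_eqZ E _ _ _ _ _ _ _ (chkF_sound E keys 1 1 _ _ _ _ t4_2_3_0) (by decide +kernel)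

def r4_2_4 : List (ℕ × ℤ) := [(36, 1)]

theorem h4_2_4 (E : Env κ ι) : inn E 1 1 c4_2 c4_4 = dotS (ek E keys) r4_2_4 :=
  innS_eqZ E _ _ _ _ _ _ _ (chkF_sound E keys 1 1 _ _ _ _ t4_2_4_0) (by decide +kernel)

def r4_2_5 : List (ℕ × ℤ) := [(212, 1)]

theorem h4_2_5 (E : Env κ ι) : inn E 1 1 c4_2 c4_5 = dotS (ek E keys) r4_2_5 :=
  innS_eqZ E _ _ _ _ _ _ _ (chkF_sound E keys 1 1 _ _ _ _ t4_2_5_0) (by decide +kernel)

def r4_2_6 : List (ℕ × ℤ) := [(101, 1)]

theorem h4_2_6 (E : Env κ ι) : inn E 1 1 c4_2 c4_6 = dotS (ek E keys) r4_2_6 :=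
  innS_eqZ E _ _ _ _ _ _ _ (chkF_sound E keys 1 1 _ _ _ _ t4_2_6_0) (by decide +kernel)

def r4_2_7 : List (ℕ × ℤ) := [(18, 1)]

theorem h4_2_7 (E : Env κ ι) : inn E 1 1 c4_2 c4_7 = dotS (ek E keys) r4_2_7 :=
  innS_eqZ E _ _ _ _ _ _ _ (chkF_sound E keys 1 1 _ _ _ _ t4_2_7_0) (by decide +kernel)

def r4_2_8 : List (ℕ × ℤ) := [(97, 1)]

theorem h4_2_8 (E : Env κ ι) : inn E 1 1 c4_2 c4_8 = dotS (ek E keys) r4_2_8 :=
  innS_eqZ E _ _ _ _ _ _ _ (chkF_sound E keys 1 1 _ _ _ _ t4_2_8_0) (by decide +kernel)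

def r4_2_9 : List (ℕ × ℤ) := [(96, 1)]

theorem h4_2_9 (E : Env κ ι) : inn E 1 1 c4_2 c4_9 = dotS (ek E keys) r4_2_9 :=
  innS_eqZ E _ _ _ _ _ _ _ (chkF_sound E keys 1 1 _ _ _ _ t4_2_9_0) (by decide +kernel)

def r4_2_10 : List (ℕ × ℤ) := [(45, 1)]

theorem h4_2_10 (E : Env κ ι) : inn E 1 1 c4_2 c4_10 = dotS (ek E keys) r4_2_10 :=
  innS_eqZ E _ _ _ _ _ _ _ (chkF_sound E keys 1 1 _ _ _ _ t4_2_10_0) (by decide +kernel)

def r4_2_11 : List (ℕ × ℤ) := [(48, 1)]

theorem h4_2_11 (E : Env κ ι) : inn E 1 1 c4_2 c4_11 = dotS (ek E keys) r4_2_11 :=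
  innS_eqZ E _ _ _ _ _ _ _ (chkF_sound E keys 1 1 _ _ _ _ t4_2_11_0) (by decide +kernel)

def r4_2_12 : List (ℕ × ℤ) := [(99, 1)]

theorem h4_2_12 (E : Env κ ι) : inn E 1 1 c4_2 c4_12 = dotS (ek E keys) r4_2_12 :=
  innS_eqZ E _ _ _ _ _ _ _ (chkF_sound E keys 1 1 _ _ _ _ t4_2_12_0) (by decide +kernel)

def r4_2_13 : List (ℕ × ℤ) := [(17, 1)]

theorem h4_2_13 (E : Env κ ι) : inn E 1 1 c4_2 c4_13 = dotS (ek E keys) r4_2_13 :=
  innS_eqZ E _ _ _ _ _ _ _ (chkF_sound E keys 1 1 _ _ _ _ t4_2_13_0) (by decide +kernel)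

def r4_2_14 : List (ℕ × ℤ) := [(86, 1)]

theorem h4_2_14 (E : Env κ ι) : inn E 1 1 c4_2 c4_14 = dotS (ek E keys) r4_2_14 :=
  innS_eqZ E _ _ _ _ _ _ _ (chkF_sound E keys 1 1 _ _ _ _ t4_2_14_0) (by decide +kernel)

def r4_2_15 : List (ℕ × ℤ) := [(34, 1)]

theorem h4_2_15 (E : Env κ ι) : inn E 1 1 c4_2 c4_15 = dotS (ek E keys) r4_2_15 :=
  innS_eqZ E _ _ _ _ _ _ _ (chkF_sound E keys 1 1 _ _ _ _ t4_2_15_0) (by decide +kernel)

def r4_2_16 : List (ℕ × ℤ) := [(15, 1)]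

theorem h4_2_16 (E : Env κ ι) : inn E 1 1 c4_2 c4_16 = dotS (ek E keys) r4_2_16 :=
  innS_eqZ E _ _ _ _ _ _ _ (chkF_sound E keys 1 1 _ _ _ _ t4_2_16_0) (by decide +kernel)

def r4_3_3 : List (ℕ × ℤ) := [(213, 1)]

theorem h4_3_3 (E : Env κ ι) : inn E 1 1 c4_3 c4_3 = dotS (ek E keys) r4_3_3 :=
  innS_eqZ E _ _ _ _ _ _ _ (chkF_sound E keys 1 1 _ _ _ _ t4_3_3_0) (by decide +kernel)

def r4_3_4 : List (ℕ × ℤ) := [(214, 1)]

theorem h4_3_4 (E : Env κ ι) : inn E 1 1 c4_3 c4_4 = dotS (ek E keys) r4_3_4 :=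
  innS_eqZ E _ _ _ _ _ _ _ (chkF_sound E keys 1 1 _ _ _ _ t4_3_4_0) (by decide +kernel)

def r4_3_5 : List (ℕ × ℤ) := [(215, 1)]

theorem h4_3_5 (E : Env κ ι) : inn E 1 1 c4_3 c4_5 = dotS (ek E keys) r4_3_5 :=
  innS_eqZ E _ _ _ _ _ _ _ (chkF_sound E keys 1 1 _ _ _ _ t4_3_5_0) (by decide +kernel)

def r4_3_6 : List (ℕ × ℤ) := [(101, 1)]

theorem h4_3_6 (E : Env κ ι) : inn E 1 1 c4_3 c4_6 = dotS (ek E keys) r4_3_6 :=
  innS_eqZ E _ _ _ _ _ _ _ (chkF_sound E keys 1 1 _ _ _ _ t4_3_6_0) (by decide +kernel)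

def r4_3_7 : List (ℕ × ℤ) := [(84, 1)]

theorem h4_3_7 (E : Env κ ι) : inn E 1 1 c4_3 c4_7 = dotS (ek E keys) r4_3_7 :=
  innS_eqZ E _ _ _ _ _ _ _ (chkF_sound E keys 1 1 _ _ _ _ t4_3_7_0) (by decide +kernel)

def r4_3_8 : List (ℕ × ℤ) := [(131, 1)]

theorem h4_3_8 (E : Env κ ι) : inn E 1 1 c4_3 c4_8 = dotS (ek E keys) r4_3_8 :=
  innS_eqZ E _ _ _ _ _ _ _ (chkF_sound E keys 1 1 _ _ _ _ t4_3_8_0) (by decide +kernel)

def r4_3_9 : List (ℕ × ℤ) := [(113, 1)]

theorem h4_3_9 (E : Env κ ι) : inn E 1 1 c4_3 c4_9 = dotS (ek E keys) r4_3_9 :=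
  innS_eqZ E _ _ _ _ _ _ _ (chkF_sound E keys 1 1 _ _ _ _ t4_3_9_0) (by decide +kernel)

def r4_3_10 : List (ℕ × ℤ) := [(45, 1)]

theorem h4_3_10 (E : Env κ ι) : inn E 1 1 c4_3 c4_10 = dotS (ek E keys) r4_3_10 :=
  innS_eqZ E _ _ _ _ _ _ _ (chkF_sound E keys 1 1 _ _ _ _ t4_3_10_0) (by decide +kernel)

def r4_3_11 : List (ℕ × ℤ) := [(53, 1)]

theorem h4_3_11 (E : Env κ ι) : inn E 1 1 c4_3 c4_11 = dotS (ek E keys) r4_3_11 :=
  innS_eqZ E _ _ _ _ _ _ _ (chkF_sound E keys 1 1 _ _ _ _ t4_3_11_0) (by decide +kernel)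

def r4_3_12 : List (ℕ × ℤ) := [(130, 1)]

theorem h4_3_12 (E : Env κ ι) : inn E 1 1 c4_3 c4_12 = dotS (ek E keys) r4_3_12 :=
  innS_eqZ E _ _ _ _ _ _ _ (chkF_sound E keys 1 1 _ _ _ _ t4_3_12_0) (by decide +kernel)

def r4_3_13 : List (ℕ × ℤ) := [(185, 1)]

theorem h4_3_13 (E : Env κ ι) : inn E 1 1 c4_3 c4_13 = dotS (ek E keys) r4_3_13 :=
  innS_eqZ E _ _ _ _ _ _ _ (chkF_sound E keys 1 1 _ _ _ _ t4_3_13_0) (by decide +kernel)

def r4_3_14 : List (ℕ × ℤ) := [(58, 1)]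

theorem h4_3_14 (E : Env κ ι) : inn E 1 1 c4_3 c4_14 = dotS (ek E keys) r4_3_14 :=
  innS_eqZ E _ _ _ _ _ _ _ (chkF_sound E keys 1 1 _ _ _ _ t4_3_14_0) (by decide +kernel)

def r4_3_15 : List (ℕ × ℤ) := [(56, 1)]

theorem h4_3_15 (E : Env κ ι) : inn E 1 1 c4_3 c4_15 = dotS (ek E keys) r4_3_15 :=
  innS_eqZ E _ _ _ _ _ _ _ (chkF_sound E keys 1 1 _ _ _ _ t4_3_15_0) (by decide +kernel)

def r4_3_16 : List (ℕ × ℤ) := [(158, 1)]

theorem h4_3_16 (E : Env κ ι) : inn E 1 1 c4_3 c4_16 = dotS (ek E keys) r4_3_16 :=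
  innS_eqZ E _ _ _ _ _ _ _ (chkF_sound E keys 1 1 _ _ _ _ t4_3_16_0) (by decide +kernel)

def r4_4_4 : List (ℕ × ℤ) := [(216, 1)]

theorem h4_4_4 (E : Env κ ι) : inn E 1 1 c4_4 c4_4 = dotS (ek E keys) r4_4_4 :=
  innS_eqZ E _ _ _ _ _ _ _ (chkF_sound E keys 1 1 _ _ _ _ t4_4_4_0) (by decide +kernel)

def r4_4_5 : List (ℕ × ℤ) := [(37, 1)]

theorem h4_4_5 (E : Env κ ι) : inn E 1 1 c4_4 c4_5 = dotS (ek E keys) r4_4_5 :=
  innS_eqZ E _ _ _ _ _ _ _ (chkF_sound E keys 1 1 _ _ _ _ t4_4_5_0) (by decide +kernel)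

def r4_4_6 : List (ℕ × ℤ) := [(196, 1)]

theorem h4_4_6 (E : Env κ ι) : inn E 1 1 c4_4 c4_6 = dotS (ek E keys) r4_4_6 :=
  innS_eqZ E _ _ _ _ _ _ _ (chkF_sound E keys 1 1 _ _ _ _ t4_4_6_0) (by decide +kernel)

def r4_4_7 : List (ℕ × ℤ) := [(175, 1)]

theorem h4_4_7 (E : Env κ ι) : inn E 1 1 c4_4 c4_7 = dotS (ek E keys) r4_4_7 :=
  innS_eqZ E _ _ _ _ _ _ _ (chkF_sound E keys 1 1 _ _ _ _ t4_4_7_0) (by decide +kernel)

def r4_4_8 : List (ℕ × ℤ) := [(110, 1)]

theorem h4_4_8 (E : Env κ ι) : inn E 1 1 c4_4 c4_8 = dotS (ek E keys) r4_4_8 :=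
  innS_eqZ E _ _ _ _ _ _ _ (chkF_sound E keys 1 1 _ _ _ _ t4_4_8_0) (by decide +kernel)

def r4_4_9 : List (ℕ × ℤ) := [(102, 1)]

theorem h4_4_9 (E : Env κ ι) : inn E 1 1 c4_4 c4_9 = dotS (ek E keys) r4_4_9 :=
  innS_eqZ E _ _ _ _ _ _ _ (chkF_sound E keys 1 1 _ _ _ _ t4_4_9_0) (by decide +kernel)

def r4_4_10 : List (ℕ × ℤ) := [(181, 1)]

theorem h4_4_10 (E : Env κ ι) : inn E 1 1 c4_4 c4_10 = dotS (ek E keys) r4_4_10 :=
  innS_eqZ E _ _ _ _ _ _ _ (chkF_sound E keys 1 1 _ _ _ _ t4_4_10_0) (by decide +kernel)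

def r4_4_11 : List (ℕ × ℤ) := [(111, 1)]

theorem h4_4_11 (E : Env κ ι) : inn E 1 1 c4_4 c4_11 = dotS (ek E keys) r4_4_11 :=
  innS_eqZ E _ _ _ _ _ _ _ (chkF_sound E keys 1 1 _ _ _ _ t4_4_11_0) (by decide +kernel)

def r4_4_12 : List (ℕ × ℤ) := [(174, 1)]

theorem h4_4_12 (E : Env κ ι) : inn E 1 1 c4_4 c4_12 = dotS (ek E keys) r4_4_12 :=
  innS_eqZ E _ _ _ _ _ _ _ (chkF_sound E keys 1 1 _ _ _ _ t4_4_12_0) (by decide +kernel)

def r4_4_13 : List (ℕ × ℤ) := [(190, 1)]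

theorem h4_4_13 (E : Env κ ι) : inn E 1 1 c4_4 c4_13 = dotS (ek E keys) r4_4_13 :=
  innS_eqZ E _ _ _ _ _ _ _ (chkF_sound E keys 1 1 _ _ _ _ t4_4_13_0) (by decide +kernel)

def r4_4_14 : List (ℕ × ℤ) := [(138, 1)]

theorem h4_4_14 (E : Env κ ι) : inn E 1 1 c4_4 c4_14 = dotS (ek E keys) r4_4_14 :=
  innS_eqZ E _ _ _ _ _ _ _ (chkF_sound E keys 1 1 _ _ _ _ t4_4_14_0) (by decide +kernel)

def r4_4_15 : List (ℕ × ℤ) := [(142, 1)]

theorem h4_4_15 (E : Env κ ι) : inn E 1 1 c4_4 c4_15 = dotS (ek E keys) r4_4_15 :=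
  innS_eqZ E _ _ _ _ _ _ _ (chkF_sound E keys 1 1 _ _ _ _ t4_4_15_0) (by decide +kernel)

def r4_4_16 : List (ℕ × ℤ) := [(161, 1)]

theorem h4_4_16 (E : Env κ ι) : inn E 1 1 c4_4 c4_16 = dotS (ek E keys) r4_4_16 :=
  innS_eqZ E _ _ _ _ _ _ _ (chkF_sound E keys 1 1 _ _ _ _ t4_4_16_0) (by decide +kernel)

def r4_5_5 : List (ℕ × ℤ) := [(217, 1)]

theorem h4_5_5 (E : Env κ ι) : inn E 1 1 c4_5 c4_5 = dotS (ek E keys) r4_5_5 :=
  innS_eqZ E _ _ _ _ _ _ _ (chkF_sound E keys 1 1 _ _ _ _ t4_5_5_0) (by decide +kernel)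

def r4_5_6 : List (ℕ × ℤ) := [(193, 1)]

theorem h4_5_6 (E : Env κ ι) : inn E 1 1 c4_5 c4_6 = dotS (ek E keys) r4_5_6 :=
  innS_eqZ E _ _ _ _ _ _ _ (chkF_sound E keys 1 1 _ _ _ _ t4_5_6_0) (by decide +kernel)

def r4_5_7 : List (ℕ × ℤ) := [(23, 1)]

theorem h4_5_7 (E : Env κ ι) : inn E 1 1 c4_5 c4_7 = dotS (ek E keys) r4_5_7 :=
  innS_eqZ E _ _ _ _ _ _ _ (chkF_sound E keys 1 1 _ _ _ _ t4_5_7_0) (by decide +kernel)

def r4_5_8 : List (ℕ × ℤ) := [(141, 1)]

theorem h4_5_8 (E : Env κ ι) : inn E 1 1 c4_5 c4_8 = dotS (ek E keys) r4_5_8 :=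
  innS_eqZ E _ _ _ _ _ _ _ (chkF_sound E keys 1 1 _ _ _ _ t4_5_8_0) (by decide +kernel)

def r4_5_9 : List (ℕ × ℤ) := [(115, 1)]

theorem h4_5_9 (E : Env κ ι) : inn E 1 1 c4_5 c4_9 = dotS (ek E keys) r4_5_9 :=
  innS_eqZ E _ _ _ _ _ _ _ (chkF_sound E keys 1 1 _ _ _ _ t4_5_9_0) (by decide +kernel)

def r4_5_10 : List (ℕ × ℤ) := [(51, 1)]

theorem h4_5_10 (E : Env κ ι) : inn E 1 1 c4_5 c4_10 = dotS (ek E keys) r4_5_10 :=
  innS_eqZ E _ _ _ _ _ _ _ (chkF_sound E keys 1 1 _ _ _ _ t4_5_10_0) (by decide +kernel)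

def r4_5_11 : List (ℕ × ℤ) := [(52, 1)]

theorem h4_5_11 (E : Env κ ι) : inn E 1 1 c4_5 c4_11 = dotS (ek E keys) r4_5_11 :=
  innS_eqZ E _ _ _ _ _ _ _ (chkF_sound E keys 1 1 _ _ _ _ t4_5_11_0) (by decide +kernel)

def r4_5_12 : List (ℕ × ℤ) := [(173, 1)]

theorem h4_5_12 (E : Env κ ι) : inn E 1 1 c4_5 c4_12 = dotS (ek E keys) r4_5_12 :=
  innS_eqZ E _ _ _ _ _ _ _ (chkF_sound E keys 1 1 _ _ _ _ t4_5_12_0) (by decide +kernel)

def r4_5_13 : List (ℕ × ℤ) := [(22, 1)]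

theorem h4_5_13 (E : Env κ ι) : inn E 1 1 c4_5 c4_13 = dotS (ek E keys) r4_5_13 :=
  innS_eqZ E _ _ _ _ _ _ _ (chkF_sound E keys 1 1 _ _ _ _ t4_5_13_0) (by decide +kernel)

def r4_5_14 : List (ℕ × ℤ) := [(57, 1)]

theorem h4_5_14 (E : Env κ ι) : inn E 1 1 c4_5 c4_14 = dotS (ek E keys) r4_5_14 :=
  innS_eqZ E _ _ _ _ _ _ _ (chkF_sound E keys 1 1 _ _ _ _ t4_5_14_0) (by decide +kernel)

def r4_5_15 : List (ℕ × ℤ) := [(35, 1)]

theorem h4_5_15 (E : Env κ ι) : inn E 1 1 c4_5 c4_15 = dotS (ek E keys) r4_5_15 :=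
  innS_eqZ E _ _ _ _ _ _ _ (chkF_sound E keys 1 1 _ _ _ _ t4_5_15_0) (by decide +kernel)

def r4_5_16 : List (ℕ × ℤ) := [(20, 1)]

theorem h4_5_16 (E : Env κ ι) : inn E 1 1 c4_5 c4_16 = dotS (ek E keys) r4_5_16 :=
  innS_eqZ E _ _ _ _ _ _ _ (chkF_sound E keys 1 1 _ _ _ _ t4_5_16_0) (by decide +kernel)

def r4_6_6 : List (ℕ × ℤ) := [(218, 1)]

theorem h4_6_6 (E : Env κ ι) : inn E 1 1 c4_6 c4_6 = dotS (ek E keys) r4_6_6 :=
  innS_eqZ E _ _ _ _ _ _ _ (chkF_sound E keys 1 1 _ _ _ _ t4_6_6_0) (by decide +kernel)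

def r4_6_7 : List (ℕ × ℤ) := [(219, 1)]

theorem h4_6_7 (E : Env κ ι) : inn E 1 1 c4_6 c4_7 = dotS (ek E keys) r4_6_7 :=
  innS_eqZ E _ _ _ _ _ _ _ (chkF_sound E keys 1 1 _ _ _ _ t4_6_7_0) (by decide +kernel)

def r4_6_8 : List (ℕ × ℤ) := [(220, 1)]

theorem h4_6_8 (E : Env κ ι) : inn E 1 1 c4_6 c4_8 = dotS (ek E keys) r4_6_8 :=
  innS_eqZ E _ _ _ _ _ _ _ (chkF_sound E keys 1 1 _ _ _ _ t4_6_8_0) (by decide +kernel)

def r4_6_9 : List (ℕ × ℤ) := [(221, 1)]

theorem h4_6_9 (E : Env κ ι) : inn E 1 1 c4_6 c4_9 = dotS (ek E keys) r4_6_9 :=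
  innS_eqZ E _ _ _ _ _ _ _ (chkF_sound E keys 1 1 _ _ _ _ t4_6_9_0) (by decide +kernel)

def r4_6_10 : List (ℕ × ℤ) := [(222, 1)]

theorem h4_6_10 (E : Env κ ι) : inn E 1 1 c4_6 c4_10 = dotS (ek E keys) r4_6_10 :=
  innS_eqZ E _ _ _ _ _ _ _ (chkF_sound E keys 1 1 _ _ _ _ t4_6_10_0) (by decide +kernel)

def r4_6_11 : List (ℕ × ℤ) := [(223, 1)]

theorem h4_6_11 (E : Env κ ι) : inn E 1 1 c4_6 c4_11 = dotS (ek E keys) r4_6_11 :=
  innS_eqZ E _ _ _ _ _ _ _ (chkF_sound E keys 1 1 _ _ _ _ t4_6_11_0) (by decide +kernel)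

def r4_6_12 : List (ℕ × ℤ) := [(221, 1)]

theorem h4_6_12 (E : Env κ ι) : inn E 1 1 c4_6 c4_12 = dotS (ek E keys) r4_6_12 :=
  innS_eqZ E _ _ _ _ _ _ _ (chkF_sound E keys 1 1 _ _ _ _ t4_6_12_0) (by decide +kernel)

def r4_6_13 : List (ℕ × ℤ) := [(224, 1)]

theorem h4_6_13 (E : Env κ ι) : inn E 1 1 c4_6 c4_13 = dotS (ek E keys) r4_6_13 :=
  innS_eqZ E _ _ _ _ _ _ _ (chkF_sound E keys 1 1 _ _ _ _ t4_6_13_0) (by decide +kernel)

def r4_6_14 : List (ℕ × ℤ) := [(223, 1)]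

theorem h4_6_14 (E : Env κ ι) : inn E 1 1 c4_6 c4_14 = dotS (ek E keys) r4_6_14 :=
  innS_eqZ E _ _ _ _ _ _ _ (chkF_sound E keys 1 1 _ _ _ _ t4_6_14_0) (by decide +kernel)

def r4_6_15 : List (ℕ × ℤ) := [(225, 1)]

theorem h4_6_15 (E : Env κ ι) : inn E 1 1 c4_6 c4_15 = dotS (ek E keys) r4_6_15 :=
  innS_eqZ E _ _ _ _ _ _ _ (chkF_sound E keys 1 1 _ _ _ _ t4_6_15_0) (by decide +kernel)

def r4_6_16 : List (ℕ × ℤ) := [(226, 1)]

theorem h4_6_16 (E : Env κ ι) : inn E 1 1 c4_6 c4_16 = dotS (ek E keys) r4_6_16 :=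
  innS_eqZ E _ _ _ _ _ _ _ (chkF_sound E keys 1 1 _ _ _ _ t4_6_16_0) (by decide +kernel)

def r4_7_7 : List (ℕ × ℤ) := [(227, 1)]

theorem h4_7_7 (E : Env κ ι) : inn E 1 1 c4_7 c4_7 = dotS (ek E keys) r4_7_7 :=
  innS_eqZ E _ _ _ _ _ _ _ (chkF_sound E keys 1 1 _ _ _ _ t4_7_7_0) (by decide +kernel)

def r4_7_8 : List (ℕ × ℤ) := [(228, 1)]

theorem h4_7_8 (E : Env κ ι) : inn E 1 1 c4_7 c4_8 = dotS (ek E keys) r4_7_8 :=
  innS_eqZ E _ _ _ _ _ _ _ (chkF_sound E keys 1 1 _ _ _ _ t4_7_8_0) (by decide +kernel)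

def r4_7_9 : List (ℕ × ℤ) := [(229, 1)]

theorem h4_7_9 (E : Env κ ι) : inn E 1 1 c4_7 c4_9 = dotS (ek E keys) r4_7_9 :=
  innS_eqZ E _ _ _ _ _ _ _ (chkF_sound E keys 1 1 _ _ _ _ t4_7_9_0) (by decide +kernel)

def r4_7_10 : List (ℕ × ℤ) := [(230, 1)]

theorem h4_7_10 (E : Env κ ι) : inn E 1 1 c4_7 c4_10 = dotS (ek E keys) r4_7_10 :=
  innS_eqZ E _ _ _ _ _ _ _ (chkF_sound E keys 1 1 _ _ _ _ t4_7_10_0) (by decide +kernel)

def r4_7_11 : List (ℕ × ℤ) := [(231, 1)]

theorem h4_7_11 (E : Env κ ι) : inn E 1 1 c4_7 c4_11 = dotS (ek E keys) r4_7_11 :=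
  innS_eqZ E _ _ _ _ _ _ _ (chkF_sound E keys 1 1 _ _ _ _ t4_7_11_0) (by decide +kernel)

def r4_7_12 : List (ℕ × ℤ) := [(228, 1)]

theorem h4_7_12 (E : Env κ ι) : inn E 1 1 c4_7 c4_12 = dotS (ek E keys) r4_7_12 :=
  innS_eqZ E _ _ _ _ _ _ _ (chkF_sound E keys 1 1 _ _ _ _ t4_7_12_0) (by decide +kernel)

def r4_7_13 : List (ℕ × ℤ) := [(232, 1)]

theorem h4_7_13 (E : Env κ ι) : inn E 1 1 c4_7 c4_13 = dotS (ek E keys) r4_7_13 :=
  innS_eqZ E _ _ _ _ _ _ _ (chkF_sound E keys 1 1 _ _ _ _ t4_7_13_0) (by decide +kernel)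

def r4_7_14 : List (ℕ × ℤ) := [(233, 1)]

theorem h4_7_14 (E : Env κ ι) : inn E 1 1 c4_7 c4_14 = dotS (ek E keys) r4_7_14 :=
  innS_eqZ E _ _ _ _ _ _ _ (chkF_sound E keys 1 1 _ _ _ _ t4_7_14_0) (by decide +kernel)

def r4_7_15 : List (ℕ × ℤ) := [(3, 1)]

theorem h4_7_15 (E : Env κ ι) : inn E 1 1 c4_7 c4_15 = dotS (ek E keys) r4_7_15 :=
  innS_eqZ E _ _ _ _ _ _ _ (chkF_sound E keys 1 1 _ _ _ _ t4_7_15_0) (by decide +kernel)

def r4_7_16 : List (ℕ × ℤ) := [(234, 1)]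

theorem h4_7_16 (E : Env κ ι) : inn E 1 1 c4_7 c4_16 = dotS (ek E keys) r4_7_16 :=
  innS_eqZ E _ _ _ _ _ _ _ (chkF_sound E keys 1 1 _ _ _ _ t4_7_16_0) (by decide +kernel)

def r4_8_8 : List (ℕ × ℤ) := [(235, 1)]

theorem h4_8_8 (E : Env κ ι) : inn E 1 1 c4_8 c4_8 = dotS (ek E keys) r4_8_8 :=
  innS_eqZ E _ _ _ _ _ _ _ (chkF_sound E keys 1 1 _ _ _ _ t4_8_8_0) (by decide +kernel)

def r4_8_9 : List (ℕ × ℤ) := [(236, 1)]

theorem h4_8_9 (E : Env κ ι) : inn E 1 1 c4_8 c4_9 = dotS (ek E keys) r4_8_9 :=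
  innS_eqZ E _ _ _ _ _ _ _ (chkF_sound E keys 1 1 _ _ _ _ t4_8_9_0) (by decide +kernel)

def r4_8_10 : List (ℕ × ℤ) := [(233, 1)]

theorem h4_8_10 (E : Env κ ι) : inn E 1 1 c4_8 c4_10 = dotS (ek E keys) r4_8_10 :=
  innS_eqZ E _ _ _ _ _ _ _ (chkF_sound E keys 1 1 _ _ _ _ t4_8_10_0) (by decide +kernel)

def r4_8_11 : List (ℕ × ℤ) := [(237, 1)]

theorem h4_8_11 (E : Env κ ι) : inn E 1 1 c4_8 c4_11 = dotS (ek E keys) r4_8_11 :=
  innS_eqZ E _ _ _ _ _ _ _ (chkF_sound E keys 1 1 _ _ _ _ t4_8_11_0) (by decide +kernel)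

def r4_8_12 : List (ℕ × ℤ) := [(238, 1)]

theorem h4_8_12 (E : Env κ ι) : inn E 1 1 c4_8 c4_12 = dotS (ek E keys) r4_8_12 :=
  innS_eqZ E _ _ _ _ _ _ _ (chkF_sound E keys 1 1 _ _ _ _ t4_8_12_0) (by decide +kernel)

def r4_8_13 : List (ℕ × ℤ) := [(239, 1)]

theorem h4_8_13 (E : Env κ ι) : inn E 1 1 c4_8 c4_13 = dotS (ek E keys) r4_8_13 :=
  innS_eqZ E _ _ _ _ _ _ _ (chkF_sound E keys 1 1 _ _ _ _ t4_8_13_0) (by decide +kernel)

def r4_8_14 : List (ℕ × ℤ) := [(240, 1)]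

theorem h4_8_14 (E : Env κ ι) : inn E 1 1 c4_8 c4_14 = dotS (ek E keys) r4_8_14 :=
  innS_eqZ E _ _ _ _ _ _ _ (chkF_sound E keys 1 1 _ _ _ _ t4_8_14_0) (by decide +kernel)

def r4_8_15 : List (ℕ × ℤ) := [(241, 1)]

theorem h4_8_15 (E : Env κ ι) : inn E 1 1 c4_8 c4_15 = dotS (ek E keys) r4_8_15 :=
  innS_eqZ E _ _ _ _ _ _ _ (chkF_sound E keys 1 1 _ _ _ _ t4_8_15_0) (by decide +kernel)

def r4_8_16 : List (ℕ × ℤ) := [(242, 1)]

theorem h4_8_16 (E : Env κ ι) : inn E 1 1 c4_8 c4_16 = dotS (ek E keys) r4_8_16 :=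
  innS_eqZ E _ _ _ _ _ _ _ (chkF_sound E keys 1 1 _ _ _ _ t4_8_16_0) (by decide +kernel)

def r4_9_9 : List (ℕ × ℤ) := [(243, 1)]

theorem h4_9_9 (E : Env κ ι) : inn E 1 1 c4_9 c4_9 = dotS (ek E keys) r4_9_9 :=
  innS_eqZ E _ _ _ _ _ _ _ (chkF_sound E keys 1 1 _ _ _ _ t4_9_9_0) (by decide +kernel)

def r4_9_10 : List (ℕ × ℤ) := [(231, 1)]

theorem h4_9_10 (E : Env κ ι) : inn E 1 1 c4_9 c4_10 = dotS (ek E keys) r4_9_10 :=
  innS_eqZ E _ _ _ _ _ _ _ (chkF_sound E keys 1 1 _ _ _ _ t4_9_10_0) (by decide +kernel)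

def r4_9_11 : List (ℕ × ℤ) := [(244, 1)]

theorem h4_9_11 (E : Env κ ι) : inn E 1 1 c4_9 c4_11 = dotS (ek E keys) r4_9_11 :=
  innS_eqZ E _ _ _ _ _ _ _ (chkF_sound E keys 1 1 _ _ _ _ t4_9_11_0) (by decide +kernel)

def r4_9_12 : List (ℕ × ℤ) := [(245, 1)]

theorem h4_9_12 (E : Env κ ι) : inn E 1 1 c4_9 c4_12 = dotS (ek E keys) r4_9_12 :=
  innS_eqZ E _ _ _ _ _ _ _ (chkF_sound E keys 1 1 _ _ _ _ t4_9_12_0) (by decide +kernel)

def r4_9_13 : List (ℕ × ℤ) := [(246, 1)]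

theorem h4_9_13 (E : Env κ ι) : inn E 1 1 c4_9 c4_13 = dotS (ek E keys) r4_9_13 :=
  innS_eqZ E _ _ _ _ _ _ _ (chkF_sound E keys 1 1 _ _ _ _ t4_9_13_0) (by decide +kernel)

def r4_9_14 : List (ℕ × ℤ) := [(237, 1)]

theorem h4_9_14 (E : Env κ ι) : inn E 1 1 c4_9 c4_14 = dotS (ek E keys) r4_9_14 :=
  innS_eqZ E _ _ _ _ _ _ _ (chkF_sound E keys 1 1 _ _ _ _ t4_9_14_0) (by decide +kernel)

def r4_9_15 : List (ℕ × ℤ) := [(247, 1)]

theorem h4_9_15 (E : Env κ ι) : inn E 1 1 c4_9 c4_15 = dotS (ek E keys) r4_9_15 :=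
  innS_eqZ E _ _ _ _ _ _ _ (chkF_sound E keys 1 1 _ _ _ _ t4_9_15_0) (by decide +kernel)

def r4_9_16 : List (ℕ × ℤ) := [(248, 1)]

theorem h4_9_16 (E : Env κ ι) : inn E 1 1 c4_9 c4_16 = dotS (ek E keys) r4_9_16 :=
  innS_eqZ E _ _ _ _ _ _ _ (chkF_sound E keys 1 1 _ _ _ _ t4_9_16_0) (by decide +kernel)

def r4_10_10 : List (ℕ × ℤ) := [(249, 1)]

theorem h4_10_10 (E : Env κ ι) : inn E 1 1 c4_10 c4_10 = dotS (ek E keys) r4_10_10 :=
  innS_eqZ E _ _ _ _ _ _ _ (chkF_sound E keys 1 1 _ _ _ _ t4_10_10_0) (by decide +kernel)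

def r4_10_11 : List (ℕ × ℤ) := [(3, 1)]

theorem h4_10_11 (E : Env κ ι) : inn E 1 1 c4_10 c4_11 = dotS (ek E keys) r4_10_11 :=
  innS_eqZ E _ _ _ _ _ _ _ (chkF_sound E keys 1 1 _ _ _ _ t4_10_11_0) (by decide +kernel)

def r4_10_12 : List (ℕ × ℤ) := [(231, 1)]

theorem h4_10_12 (E : Env κ ι) : inn E 1 1 c4_10 c4_12 = dotS (ek E keys) r4_10_12 :=
  innS_eqZ E _ _ _ _ _ _ _ (chkF_sound E keys 1 1 _ _ _ _ t4_10_12_0) (by decide +kernel)

def r4_10_13 : List (ℕ × ℤ) := [(250, 1)]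

theorem h4_10_13 (E : Env κ ι) : inn E 1 1 c4_10 c4_13 = dotS (ek E keys) r4_10_13 :=
  innS_eqZ E _ _ _ _ _ _ _ (chkF_sound E keys 1 1 _ _ _ _ t4_10_13_0) (by decide +kernel)

def r4_10_14 : List (ℕ × ℤ) := [(3, 1)]

theorem h4_10_14 (E : Env κ ι) : inn E 1 1 c4_10 c4_14 = dotS (ek E keys) r4_10_14 :=
  innS_eqZ E _ _ _ _ _ _ _ (chkF_sound E keys 1 1 _ _ _ _ t4_10_14_0) (by decide +kernel)

def r4_10_15 : List (ℕ × ℤ) := [(41, 1)]

theorem h4_10_15 (E : Env κ ι) : inn E 1 1 c4_10 c4_15 = dotS (ek E keys) r4_10_15 :=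
  innS_eqZ E _ _ _ _ _ _ _ (chkF_sound E keys 1 1 _ _ _ _ t4_10_15_0) (by decide +kernel)

def r4_10_16 : List (ℕ × ℤ) := [(251, 1)]

theorem h4_10_16 (E : Env κ ι) : inn E 1 1 c4_10 c4_16 = dotS (ek E keys) r4_10_16 :=
  innS_eqZ E _ _ _ _ _ _ _ (chkF_sound E keys 1 1 _ _ _ _ t4_10_16_0) (by decide +kernel)

def r4_11_11 : List (ℕ × ℤ) := [(247, 1)]

theorem h4_11_11 (E : Env κ ι) : inn E 1 1 c4_11 c4_11 = dotS (ek E keys) r4_11_11 :=
  innS_eqZ E _ _ _ _ _ _ _ (chkF_sound E keys 1 1 _ _ _ _ t4_11_11_0) (by decide +kernel)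

def r4_11_12 : List (ℕ × ℤ) := [(252, 1)]

theorem h4_11_12 (E : Env κ ι) : inn E 1 1 c4_11 c4_12 = dotS (ek E keys) r4_11_12 :=
  innS_eqZ E _ _ _ _ _ _ _ (chkF_sound E keys 1 1 _ _ _ _ t4_11_12_0) (by decide +kernel)

def r4_11_13 : List (ℕ × ℤ) := [(253, 1)]

theorem h4_11_13 (E : Env κ ι) : inn E 1 1 c4_11 c4_13 = dotS (ek E keys) r4_11_13 :=
  innS_eqZ E _ _ _ _ _ _ _ (chkF_sound E keys 1 1 _ _ _ _ t4_11_13_0) (by decide +kernel)

def r4_11_14 : List (ℕ × ℤ) := [(241, 1)]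

theorem h4_11_14 (E : Env κ ι) : inn E 1 1 c4_11 c4_14 = dotS (ek E keys) r4_11_14 :=
  innS_eqZ E _ _ _ _ _ _ _ (chkF_sound E keys 1 1 _ _ _ _ t4_11_14_0) (by decide +kernel)

def r4_11_15 : List (ℕ × ℤ) := [(39, 1)]

theorem h4_11_15 (E : Env κ ι) : inn E 1 1 c4_11 c4_15 = dotS (ek E keys) r4_11_15 :=
  innS_eqZ E _ _ _ _ _ _ _ (chkF_sound E keys 1 1 _ _ _ _ t4_11_15_0) (by decide +kernel)

def r4_11_16 : List (ℕ × ℤ) := [(254, 1)]

theorem h4_11_16 (E : Env κ ι) : inn E 1 1 c4_11 c4_16 = dotS (ek E keys) r4_11_16 :=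
  innS_eqZ E _ _ _ _ _ _ _ (chkF_sound E keys 1 1 _ _ _ _ t4_11_16_0) (by decide +kernel)

def r4_12_12 : List (ℕ × ℤ) := [(255, 1)]

theorem h4_12_12 (E : Env κ ι) : inn E 1 1 c4_12 c4_12 = dotS (ek E keys) r4_12_12 :=
  innS_eqZ E _ _ _ _ _ _ _ (chkF_sound E keys 1 1 _ _ _ _ t4_12_12_0) (by decide +kernel)

def r4_12_13 : List (ℕ × ℤ) := [(256, 1)]

theorem h4_12_13 (E : Env κ ι) : inn E 1 1 c4_12 c4_13 = dotS (ek E keys) r4_12_13 :=
  innS_eqZ E _ _ _ _ _ _ _ (chkF_sound E keys 1 1 _ _ _ _ t4_12_13_0) (by decide +kernel)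

def r4_12_14 : List (ℕ × ℤ) := [(257, 1)]

theorem h4_12_14 (E : Env κ ι) : inn E 1 1 c4_12 c4_14 = dotS (ek E keys) r4_12_14 :=
  innS_eqZ E _ _ _ _ _ _ _ (chkF_sound E keys 1 1 _ _ _ _ t4_12_14_0) (by decide +kernel)

def r4_12_15 : List (ℕ × ℤ) := [(258, 1)]

theorem h4_12_15 (E : Env κ ι) : inn E 1 1 c4_12 c4_15 = dotS (ek E keys) r4_12_15 :=
  innS_eqZ E _ _ _ _ _ _ _ (chkF_sound E keys 1 1 _ _ _ _ t4_12_15_0) (by decide +kernel)

def r4_12_16 : List (ℕ × ℤ) := [(259, 1)]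

theorem h4_12_16 (E : Env κ ι) : inn E 1 1 c4_12 c4_16 = dotS (ek E keys) r4_12_16 :=
  innS_eqZ E _ _ _ _ _ _ _ (chkF_sound E keys 1 1 _ _ _ _ t4_12_16_0) (by decide +kernel)

def r4_13_13 : List (ℕ × ℤ) := [(260, 1)]

theorem h4_13_13 (E : Env κ ι) : inn E 1 1 c4_13 c4_13 = dotS (ek E keys) r4_13_13 :=
  innS_eqZ E _ _ _ _ _ _ _ (chkF_sound E keys 1 1 _ _ _ _ t4_13_13_0) (by decide +kernel)

def r4_13_14 : List (ℕ × ℤ) := [(261, 1)]

theorem h4_13_14 (E : Env κ ι) : inn E 1 1 c4_13 c4_14 = dotS (ek E keys) r4_13_14 :=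
  innS_eqZ E _ _ _ _ _ _ _ (chkF_sound E keys 1 1 _ _ _ _ t4_13_14_0) (by decide +kernel)

def r4_13_15 : List (ℕ × ℤ) := [(262, 1)]

theorem h4_13_15 (E : Env κ ι) : inn E 1 1 c4_13 c4_15 = dotS (ek E keys) r4_13_15 :=
  innS_eqZ E _ _ _ _ _ _ _ (chkF_sound E keys 1 1 _ _ _ _ t4_13_15_0) (by decide +kernel)

def r4_13_16 : List (ℕ × ℤ) := [(263, 1)]

theorem h4_13_16 (E : Env κ ι) : inn E 1 1 c4_13 c4_16 = dotS (ek E keys) r4_13_16 :=
  innS_eqZ E _ _ _ _ _ _ _ (chkF_sound E keys 1 1 _ _ _ _ t4_13_16_0) (by decide +kernel)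

def r4_14_14 : List (ℕ × ℤ) := [(264, 1)]

theorem h4_14_14 (E : Env κ ι) : inn E 1 1 c4_14 c4_14 = dotS (ek E keys) r4_14_14 :=
  innS_eqZ E _ _ _ _ _ _ _ (chkF_sound E keys 1 1 _ _ _ _ t4_14_14_0) (by decide +kernel)

def r4_14_15 : List (ℕ × ℤ) := [(43, 1)]

theorem h4_14_15 (E : Env κ ι) : inn E 1 1 c4_14 c4_15 = dotS (ek E keys) r4_14_15 :=
  innS_eqZ E _ _ _ _ _ _ _ (chkF_sound E keys 1 1 _ _ _ _ t4_14_15_0) (by decide +kernel)

def r4_14_16 : List (ℕ × ℤ) := [(265, 1)]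

theorem h4_14_16 (E : Env κ ι) : inn E 1 1 c4_14 c4_16 = dotS (ek E keys) r4_14_16 :=
  innS_eqZ E _ _ _ _ _ _ _ (chkF_sound E keys 1 1 _ _ _ _ t4_14_16_0) (by decide +kernel)

def r4_15_15 : List (ℕ × ℤ) := [(38, 1)]

theorem h4_15_15 (E : Env κ ι) : inn E 1 1 c4_15 c4_15 = dotS (ek E keys) r4_15_15 :=
  innS_eqZ E _ _ _ _ _ _ _ (chkF_sound E keys 1 1 _ _ _ _ t4_15_15_0) (by decide +kernel)

def r4_15_16 : List (ℕ × ℤ) := [(1, 1)]

theorem h4_15_16 (E : Env κ ι) : inn E 1 1 c4_15 c4_16 = dotS (ek E keys) r4_15_16 :=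
  innS_eqZ E _ _ _ _ _ _ _ (chkF_sound E keys 1 1 _ _ _ _ t4_15_16_0) (by decide +kernel)

def r4_16_16 : List (ℕ × ℤ) := [(266, 1)]

theorem h4_16_16 (E : Env κ ι) : inn E 1 1 c4_16 c4_16 = dotS (ek E keys) r4_16_16 :=
  innS_eqZ E _ _ _ _ _ _ _ (chkF_sound E keys 1 1 _ _ _ _ t4_16_16_0) (by decide +kernel)

theorem row4_0 (E : Env κ ι) : RowS E 1 1 (ek E keys) c4_0 [c4_0, c4_1, c4_2, c4_3, c4_4, c4_5, c4_6, c4_7, c4_8, c4_9, c4_10, c4_11, c4_12, c4_13, c4_14, c4_15, c4_16] [r4_0_0, r4_0_1, r4_0_2, r4_0_3, r4_0_4, r4_0_5, r4_0_6, r4_0_7, r4_0_8, r4_0_9, r4_0_10, r4_0_11, r4_0_12, r4_0_13, r4_0_14, r4_0_15, r4_0_16] :=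
  rowS_cons E _ _ _ _ _ _ _ _ (h4_0_0 E) (rowS_cons E _ _ _ _ _ _ _ _ (h4_0_1 E) (rowS_cons E _ _ _ _ _ _ _ _ (h4_0_2 E) (rowS_cons E _ _ _ _ _ _ _ _ (h4_0_3 E) (rowS_cons E _ _ _ _ _ _ _ _ (h4_0_4 E) (rowS_cons E _ _ _ _ _ _ _ _ (h4_0_5 E) (rowS_cons E _ _ _ _ _ _ _ _ (h4_0_6 E) (rowS_cons E _ _ _ _ _ _ _ _ (h4_0_7 E) (rowS_cons E _ _ _ _ _ _ _ _ (h4_0_8 E) (rowS_cons E _ _ _ _ _ _ _ _ (h4_0_9 E) (rowS_cons E _ _ _ _ _ _ _ _ (h4_0_10 E) (rowS_cons E _ _ _ _ _ _ _ _ (h4_0_11 E) (rowS_cons E _ _ _ _ _ _ _ _ (h4_0_12 E) (rowS_cons E _ _ _ _ _ _ _ _ (h4_0_13 E) (rowS_cons E _ _ _ _ _ _ _ _ (h4_0_14 E) (rowS_cons E _ _ _ _ _ _ _ _ (h4_0_15 E) (rowS_cons E _ _ _ _ _ _ _ _ (h4_0_16 E) (rowS_nil E _ _ _ _)))))))))))))))))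

theorem row4_1 (E : Env κ ι) : RowS E 1 1 (ek E keys) c4_1 [c4_1, c4_2, c4_3, c4_4, c4_5, c4_6, c4_7, c4_8, c4_9, c4_10, c4_11, c4_12, c4_13, c4_14, c4_15, c4_16] [r4_1_1, r4_1_2, r4_1_3, r4_1_4, r4_1_5, r4_1_6, r4_1_7, r4_1_8, r4_1_9, r4_1_10, r4_1_11, r4_1_12, r4_1_13, r4_1_14, r4_1_15, r4_1_16] :=
  rowS_cons E _ _ _ _ _ _ _ _ (h4_1_1 E) (rowS_cons E _ _ _ _ _ _ _ _ (h4_1_2 E) (rowS_cons E _ _ _ _ _ _ _ _ (h4_1_3 E) (rowS_cons E _ _ _ _ _ _ _ _ (h4_1_4 E) (rowS_cons E _ _ _ _ _ _ _ _ (h4_1_5 E) (rowS_cons E _ _ _ _ _ _ _ _ (h4_1_6 E) (rowS_cons E _ _ _ _ _ _ _ _ (h4_1_7 E) (rowS_cons E _ _ _ _ _ _ _ _ (h4_1_8 E) (rowS_cons E _ _ _ _ _ _ _ _ (h4_1_9 E) (rowS_cons E _ _ _ _ _ _ _ _ (h4_1_10 E) (rowS_cons E _ _ _ _ _ _ _ _ (h4_1_11 E) (rowS_cons E _ _ _ _ _ _ _ _ (h4_1_12 E) (rowS_cons E _ _ _ _ _ _ _ _ (h4_1_13 E) (rowS_cons E _ _ _ _ _ _ _ _ (h4_1_14 E) (rowS_cons E _ _ _ _ _ _ _ _ (h4_1_15 E) (rowS_cons E _ _ _ _ _ _ _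 _ (h4_1_16 E) (rowS_nil E _ _ _ _))))))))))))))))

theorem row4_2 (E : Env κ ι) : RowS E 1 1 (ek E keys) c4_2 [c4_2, c4_3, c4_4, c4_5, c4_6, c4_7, c4_8, c4_9, c4_10, c4_11, c4_12, c4_13, c4_14, c4_15, c4_16] [r4_2_2, r4_2_3, r4_2_4, r4_2_5, r4_2_6, r4_2_7, r4_2_8, r4_2_9, r4_2_10, r4_2_11, r4_2_12, r4_2_13, r4_2_14, r4_2_15, r4_2_16] :=
  rowS_cons E _ _ _ _ _ _ _ _ (h4_2_2 E) (rowS_cons E _ _ _ _ _ _ _ _ (h4_2_3 E) (rowS_cons E _ _ _ _ _ _ _ _ (h4_2_4 E) (rowS_cons E _ _ _ _ _ _ _ _ (h4_2_5 E) (rowS_cons E _ _ _ _ _ _ _ _ (h4_2_6 E) (rowS_cons E _ _ _ _ _ _ _ _ (h4_2_7 E) (rowS_cons E _ _ _ _ _ _ _ _ (h4_2_8 E) (rowS_cons E _ _ _ _ _ _ _ _ (h4_2_9 E) (rowS_cons E _ _ _ _ _ _ _ _ (h4_2_10 E) (rowS_cons E _ _ _ _ _ _ _ _ (h4_2_11 E) (rowS_cons E _ _ _ _ _ _ _ _ (h4_2_12 E) (rowS_cons E _ _ _ _ _ _ _ _ (h4_2_13 E) (rowS_cons E _ _ _ _ _ _ _ _ (h4_2_14 E) (rowS_cons E _ _ _ _ _ _ _ _ (h4_2_15 E) (rowS_cons E _ _ _ _ _ _ _ _ (h4_2_16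 E) (rowS_nil E _ _ _ _)))))))))))))))

theorem row4_3 (E : Env κ ι) : RowS E 1 1 (ek E keys) c4_3 [c4_3, c4_4, c4_5, c4_6, c4_7, c4_8, c4_9, c4_10, c4_11, c4_12, c4_13, c4_14, c4_15, c4_16] [r4_3_3, r4_3_4, r4_3_5, r4_3_6, r4_3_7, r4_3_8, r4_3_9, r4_3_10, r4_3_11, r4_3_12, r4_3_13, r4_3_14, r4_3_15, r4_3_16] :=
  rowS_cons E _ _ _ _ _ _ _ _ (h4_3_3 E) (rowS_cons E _ _ _ _ _ _ _ _ (h4_3_4 E) (rowS_cons E _ _ _ _ _ _ _ _ (h4_3_5 E) (rowS_cons E _ _ _ _ _ _ _ _ (h4_3_6 E) (rowS_cons E _ _ _ _ _ _ _ _ (h4_3_7 E) (rowS_cons E _ _ _ _ _ _ _ _ (h4_3_8 E) (rowS_cons E _ _ _ _ _ _ _ _ (h4_3_9 E) (rowS_cons E _ _ _ _ _ _ _ _ (h4_3_10 E) (rowS_cons E _ _ _ _ _ _ _ _ (h4_3_11 E) (rowS_cons E _ _ _ _ _ _ _ _ (h4_3_12 E) (rowS_cons E _ _ _ _ _ _ _ _ (h4_3_13 E) (rowS_cons E _ _ _ _ _ _ _ _ (h4_3_14 E) (rowS_cons E _ _ _ _ _ _ _ _ (h4_3_15 E) (rowS_cons E _ _ _ _ _ _ _ _ (h4_3_16 E) (rowS_nil E _ _ _ _))))))))))))))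

theorem row4_4 (E : Env κ ι) : RowS E 1 1 (ek E keys) c4_4 [c4_4, c4_5, c4_6, c4_7, c4_8, c4_9, c4_10, c4_11, c4_12, c4_13, c4_14, c4_15, c4_16] [r4_4_4, r4_4_5, r4_4_6, r4_4_7, r4_4_8, r4_4_9, r4_4_10, r4_4_11, r4_4_12, r4_4_13, r4_4_14, r4_4_15, r4_4_16] :=
  rowS_cons E _ _ _ _ _ _ _ _ (h4_4_4 E) (rowS_cons E _ _ _ _ _ _ _ _ (h4_4_5 E) (rowS_cons E _ _ _ _ _ _ _ _ (h4_4_6 E) (rowS_cons E _ _ _ _ _ _ _ _ (h4_4_7 E) (rowS_cons E _ _ _ _ _ _ _ _ (h4_4_8 E) (rowS_cons E _ _ _ _ _ _ _ _ (h4_4_9 E) (rowS_cons E _ _ _ _ _ _ _ _ (h4_4_10 E) (rowS_cons E _ _ _ _ _ _ _ _ (h4_4_11 E) (rowS_cons E _ _ _ _ _ _ _ _ (h4_4_12 E) (rowS_cons E _ _ _ _ _ _ _ _ (h4_4_13 E) (rowS_cons E _ _ _ _ _ _ _ _ (h4_4_14 E) (rowS_cons E _ _ _ _ _ _ _ _ (h4_4_15 E) (rowS_cons E _ _ _ _ _ _ _ _ (h4_4_16 E) (rowS_nil E _ _ _ _)))))))))))))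

theorem row4_5 (E : Env κ ι) : RowS E 1 1 (ek E keys) c4_5 [c4_5, c4_6, c4_7, c4_8, c4_9, c4_10, c4_11, c4_12, c4_13, c4_14, c4_15, c4_16] [r4_5_5, r4_5_6, r4_5_7, r4_5_8, r4_5_9, r4_5_10, r4_5_11, r4_5_12, r4_5_13, r4_5_14, r4_5_15, r4_5_16] :=
  rowS_cons E _ _ _ _ _ _ _ _ (h4_5_5 E) (rowS_cons E _ _ _ _ _ _ _ _ (h4_5_6 E) (rowS_cons E _ _ _ _ _ _ _ _ (h4_5_7 E) (rowS_cons E _ _ _ _ _ _ _ _ (h4_5_8 E) (rowS_cons E _ _ _ _ _ _ _ _ (h4_5_9 E) (rowS_cons E _ _ _ _ _ _ _ _ (h4_5_10 E) (rowS_cons E _ _ _ _ _ _ _ _ (h4_5_11 E) (rowS_cons E _ _ _ _ _ _ _ _ (h4_5_12 E) (rowS_cons E _ _ _ _ _ _ _ _ (h4_5_13 E) (rowS_cons E _ _ _ _ _ _ _ _ (h4_5_14 E) (rowS_cons E _ _ _ _ _ _ _ _ (h4_5_15 E) (rowS_cons E _ _ _ _ _ _ _ _ (h4_5_16 E) (rowS_nil E _ _ _ _))))))))))))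

theorem row4_6 (E : Env κ ι) : RowS E 1 1 (ek E keys) c4_6 [c4_6, c4_7, c4_8, c4_9, c4_10, c4_11, c4_12, c4_13, c4_14, c4_15, c4_16] [r4_6_6, r4_6_7, r4_6_8, r4_6_9, r4_6_10, r4_6_11, r4_6_12, r4_6_13, r4_6_14, r4_6_15, r4_6_16] :=
  rowS_cons E _ _ _ _ _ _ _ _ (h4_6_6 E) (rowS_cons E _ _ _ _ _ _ _ _ (h4_6_7 E) (rowS_cons E _ _ _ _ _ _ _ _ (h4_6_8 E) (rowS_cons E _ _ _ _ _ _ _ _ (h4_6_9 E) (rowS_cons E _ _ _ _ _ _ _ _ (h4_6_10 E) (rowS_cons E _ _ _ _ _ _ _ _ (h4_6_11 E) (rowS_cons E _ _ _ _ _ _ _ _ (h4_6_12 E) (rowS_cons E _ _ _ _ _ _ _ _ (h4_6_13 E) (rowS_cons E _ _ _ _ _ _ _ _ (h4_6_14 E) (rowS_cons E _ _ _ _ _ _ _ _ (h4_6_15 E) (rowS_cons E _ _ _ _ _ _ _ _ (h4_6_16 E) (rowS_nil E _ _ _ _)))))))))))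

theorem row4_7 (E : Env κ ι) : RowS E 1 1 (ek E keys) c4_7 [c4_7, c4_8, c4_9, c4_10, c4_11, c4_12, c4_13, c4_14, c4_15, c4_16] [r4_7_7, r4_7_8, r4_7_9, r4_7_10, r4_7_11, r4_7_12, r4_7_13, r4_7_14, r4_7_15, r4_7_16] :=
  rowS_cons E _ _ _ _ _ _ _ _ (h4_7_7 E) (rowS_cons E _ _ _ _ _ _ _ _ (h4_7_8 E) (rowS_cons E _ _ _ _ _ _ _ _ (h4_7_9 E) (rowS_cons E _ _ _ _ _ _ _ _ (h4_7_10 E) (rowS_cons E _ _ _ _ _ _ _ _ (h4_7_11 E) (rowS_cons E _ _ _ _ _ _ _ _ (h4_7_12 E) (rowS_cons E _ _ _ _ _ _ _ _ (h4_7_13 E) (rowS_cons E _ _ _ _ _ _ _ _ (h4_7_14 E) (rowS_cons E _ _ _ _ _ _ _ _ (h4_7_15 E) (rowS_cons E _ _ _ _ _ _ _ _ (h4_7_16 E) (rowS_nil E _ _ _ _))))))))))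

theorem row4_8 (E : Env κ ι) : RowS E 1 1 (ek E keys) c4_8 [c4_8, c4_9, c4_10, c4_11, c4_12, c4_13, c4_14, c4_15, c4_16] [r4_8_8, r4_8_9, r4_8_10, r4_8_11, r4_8_12, r4_8_13, r4_8_14, r4_8_15, r4_8_16] :=
  rowS_cons E _ _ _ _ _ _ _ _ (h4_8_8 E) (rowS_cons E _ _ _ _ _ _ _ _ (h4_8_9 E) (rowS_cons E _ _ _ _ _ _ _ _ (h4_8_10 E) (rowS_cons E _ _ _ _ _ _ _ _ (h4_8_11 E) (rowS_cons E _ _ _ _ _ _ _ _ (h4_8_12 E) (rowS_cons E _ _ _ _ _ _ _ _ (h4_8_13 E) (rowS_cons E _ _ _ _ _ _ _ _ (h4_8_14 E) (rowS_cons E _ _ _ _ _ _ _ _ (h4_8_15 E) (rowS_cons E _ _ _ _ _ _ _ _ (h4_8_16 E) (rowS_nil E _ _ _ _)))))))))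

theorem row4_9 (E : Env κ ι) : RowS E 1 1 (ek E keys) c4_9 [c4_9, c4_10, c4_11, c4_12, c4_13, c4_14, c4_15, c4_16] [r4_9_9, r4_9_10, r4_9_11, r4_9_12, r4_9_13, r4_9_14, r4_9_15, r4_9_16] :=
  rowS_cons E _ _ _ _ _ _ _ _ (h4_9_9 E) (rowS_cons E _ _ _ _ _ _ _ _ (h4_9_10 E) (rowS_cons E _ _ _ _ _ _ _ _ (h4_9_11 E) (rowS_cons E _ _ _ _ _ _ _ _ (h4_9_12 E) (rowS_cons E _ _ _ _ _ _ _ _ (h4_9_13 E) (rowS_cons E _ _ _ _ _ _ _ _ (h4_9_14 E) (rowS_cons E _ _ _ _ _ _ _ _ (h4_9_15 E) (rowS_cons E _ _ _ _ _ _ _ _ (h4_9_16 E) (rowS_nil E _ _ _ _))))))))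

theorem row4_10 (E : Env κ ι) : RowS E 1 1 (ek E keys) c4_10 [c4_10, c4_11, c4_12, c4_13, c4_14, c4_15, c4_16] [r4_10_10, r4_10_11, r4_10_12, r4_10_13, r4_10_14, r4_10_15, r4_10_16] :=
  rowS_cons E _ _ _ _ _ _ _ _ (h4_10_10 E) (rowS_cons E _ _ _ _ _ _ _ _ (h4_10_11 E) (rowS_cons E _ _ _ _ _ _ _ _ (h4_10_12 E) (rowS_cons E _ _ _ _ _ _ _ _ (h4_10_13 E) (rowS_cons E _ _ _ _ _ _ _ _ (h4_10_14 E) (rowS_cons E _ _ _ _ _ _ _ _ (h4_10_15 E) (rowS_cons E _ _ _ _ _ _ _ _ (h4_10_16 E) (rowS_nil E _ _ _ _)))))))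

theorem row4_11 (E : Env κ ι) : RowS E 1 1 (ek E keys) c4_11 [c4_11, c4_12, c4_13, c4_14, c4_15, c4_16] [r4_11_11, r4_11_12, r4_11_13, r4_11_14, r4_11_15, r4_11_16] :=
  rowS_cons E _ _ _ _ _ _ _ _ (h4_11_11 E) (rowS_cons E _ _ _ _ _ _ _ _ (h4_11_12 E) (rowS_cons E _ _ _ _ _ _ _ _ (h4_11_13 E) (rowS_cons E _ _ _ _ _ _ _ _ (h4_11_14 E) (rowS_cons E _ _ _ _ _ _ _ _ (h4_11_15 E) (rowS_cons E _ _ _ _ _ _ _ _ (h4_11_16 E) (rowS_nil E _ _ _ _))))))

theorem row4_12 (E : Env κ ι) : RowS E 1 1 (ek E keys) c4_12 [c4_12, c4_13, c4_14, c4_15, c4_16] [r4_12_12, r4_12_13, r4_12_14, r4_12_15, r4_12_16] :=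
  rowS_cons E _ _ _ _ _ _ _ _ (h4_12_12 E) (rowS_cons E _ _ _ _ _ _ _ _ (h4_12_13 E) (rowS_cons E _ _ _ _ _ _ _ _ (h4_12_14 E) (rowS_cons E _ _ _ _ _ _ _ _ (h4_12_15 E) (rowS_cons E _ _ _ _ _ _ _ _ (h4_12_16 E) (rowS_nil E _ _ _ _)))))

theorem row4_13 (E : Env κ ι) : RowS E 1 1 (ek E keys) c4_13 [c4_13, c4_14, c4_15, c4_16] [r4_13_13, r4_13_14, r4_13_15, r4_13_16] :=
  rowS_cons E _ _ _ _ _ _ _ _ (h4_13_13 E) (rowS_cons E _ _ _ _ _ _ _ _ (h4_13_14 E) (rowS_cons E _ _ _ _ _ _ _ _ (h4_13_15 E) (rowS_cons E _ _ _ _ _ _ _ _ (h4_13_16 E) (rowS_nil E _ _ _ _))))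

theorem row4_14 (E : Env κ ι) : RowS E 1 1 (ek E keys) c4_14 [c4_14, c4_15, c4_16] [r4_14_14, r4_14_15, r4_14_16] :=
  rowS_cons E _ _ _ _ _ _ _ _ (h4_14_14 E) (rowS_cons E _ _ _ _ _ _ _ _ (h4_14_15 E) (rowS_cons E _ _ _ _ _ _ _ _ (h4_14_16 E) (rowS_nil E _ _ _ _)))

theorem row4_15 (E : Env κ ι) : RowS E 1 1 (ek E keys) c4_15 [c4_15, c4_16] [r4_15_15, r4_15_16] :=
  rowS_cons E _ _ _ _ _ _ _ _ (h4_15_15 E) (rowS_cons E _ _ _ _ _ _ _ _ (h4_15_16 E) (rowS_nil E _ _ _ _))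

theorem row4_16 (E : Env κ ι) : RowS E 1 1 (ek E keys) c4_16 [c4_16] [r4_16_16] :=
  rowS_cons E _ _ _ _ _ _ _ _ (h4_16_16 E) (rowS_nil E _ _ _ _)

def tab4 : List (List (List (ℕ × ℤ))) := [[r4_0_0, r4_0_1, r4_0_2, r4_0_3, r4_0_4, r4_0_5, r4_0_6, r4_0_7, r4_0_8, r4_0_9, r4_0_10, r4_0_11, r4_0_12, r4_0_13, r4_0_14, r4_0_15, r4_0_16], [r4_1_1, r4_1_2, r4_1_3, r4_1_4, r4_1_5, r4_1_6, r4_1_7, r4_1_8, r4_1_9, r4_1_10, r4_1_11, r4_1_12, r4_1_13, r4_1_14, r4_1_15, r4_1_16], [r4_2_2, r4_2_3, r4_2_4, r4_2_5, r4_2_6, r4_2_7, r4_2_8, r4_2_9, r4_2_10, r4_2_11, r4_2_12, r4_2_13, r4_2_14, r4_2_15, r4_2_16], [r4_3_3, r4_3_4, r4_3_5, r4_3_6, r4_3_7, r4_3_8, r4_3_9, r4_3_10, r4_3_11, r4_3_12, r4_3_13, r4_3_14, r4_3_15, r4_3_16], [r4_4_4, r4_4_5, r4_4_6, r4_4_7, r4_4_8, r4_4_9, r4_4_10, r4_4_11, r4_4_12, r4_4_13, r4_4_14, r4_4_15, r4_4_16], [r4_5_5, r4_5_6, r4_5_7, r4_5_8, r4_5_9, r4_5_10, r4_5_11, r4_5_12, r4_5_13, r4_5_14, r4_5_15, r4_5_16],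 [r4_6_6, r4_6_7, r4_6_8, r4_6_9, r4_6_10, r4_6_11, r4_6_12, r4_6_13, r4_6_14, r4_6_15, r4_6_16], [r4_7_7, r4_7_8, r4_7_9, r4_7_10, r4_7_11, r4_7_12, r4_7_13, r4_7_14, r4_7_15, r4_7_16], [r4_8_8, r4_8_9, r4_8_10, r4_8_11, r4_8_12, r4_8_13, r4_8_14, r4_8_15, r4_8_16], [r4_9_9, r4_9_10, r4_9_11, r4_9_12, r4_9_13, r4_9_14, r4_9_15, r4_9_16], [r4_10_10, r4_10_11, r4_10_12, r4_10_13, r4_10_14, r4_10_15, r4_10_16], [r4_11_11, r4_11_12, r4_11_13, r4_11_14, r4_11_15, r4_11_16], [r4_12_12, r4_12_13, r4_12_14, r4_12_15, r4_12_16], [r4_13_13, r4_13_14, r4_13_15, r4_13_16], [r4_14_14, r4_14_15, r4_14_16], [r4_15_15, r4_15_16], [r4_16_16]]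

theorem tri4 (E : Env κ ι) : TriS E 1 1 (ek E keys) [c4_0, c4_1, c4_2, c4_3, c4_4, c4_5, c4_6, c4_7, c4_8, c4_9, c4_10, c4_11, c4_12, c4_13, c4_14, c4_15, c4_16] tab4 := by
  refine triS_cons E _ _ _ _ _ _ _ (row4_0 E) ?_
  refine triS_cons E _ _ _ _ _ _ _ (row4_1 E) ?_
  refine triS_cons E _ _ _ _ _ _ _ (row4_2 E) ?_
  refine triS_cons E _ _ _ _ _ _ _ (row4_3 E) ?_
  refine triS_cons E _ _ _ _ _ _ _ (row4_4 E) ?_
  refine triS_cons E _ _ _ _ _ _ _ (row4_5 E) ?_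
  refine triS_cons E _ _ _ _ _ _ _ (row4_6 E) ?_
  refine triS_cons E _ _ _ _ _ _ _ (row4_7 E) ?_
  refine triS_cons E _ _ _ _ _ _ _ (row4_8 E) ?_
  refine triS_cons E _ _ _ _ _ _ _ (row4_9 E) ?_
  refine triS_cons E _ _ _ _ _ _ _ (row4_10 E) ?_
  refine triS_cons E _ _ _ _ _ _ _ (row4_11 E) ?_
  refine triS_cons E _ _ _ _ _ _ _ (row4_12 E) ?_
  refine triS_cons E _ _ _ _ _ _ _ (row4_13 E) ?_
  refine triS_cons E _ _ _ _ _ _ _ (row4_14 E) ?_
  refine triS_cons E _ _ _ _ _ _ _ (row4_15 E) ?_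
  refine triS_cons E _ _ _ _ _ _ _ (row4_16 E) ?_
  exact triS_nil E _ _ _

def rows4 : List (ℕ × List ℤ) := [(139862614671360000, [4194304, -2186412, -11496586, 7577752, 8658077, -13622682, -4578976, 6855839, -200612, -8769932, 465471, -547950, -772346, 534126, -1011449, 2524213, 3862121]),
  (2112521677701120000, [0, 4194304, -4810788, 45566, -3300356, 3826526, -291426, 126804, 1343558, -695353, -52555, -727285, 206007, 1727163, 206837, -311628, -857439]),
  (2071518862049280000, [0, 0, 4194304, 1921656, 1876377, -4961293, -109721, -1369934, -1073027, 2049585, 12802, 128047, 1163940, 760513, -145839, -3358174, 1236362]),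
  (1396296468725760000, [0, 0, 0, 4194304, -2528772, -3021540, -452418, -1738577, -596589, 890804, -662571, 585844, 2899800, -2715822, 326836, -234318, 1222469]),
  (74119209615360000, [0, 0, 0, 0, 4194304, -171247, -4159249, -3402089, 7125593, -3765872, 1119317, 2071161, 555645, 3063622, 320185, -3094254, -212204]),
  (18839754178560000, [0, 0, 0, 0, 0, 4194304, -3309098, -3128389, 6436659, -7992608, -476395, 6257630, 1755343, 1646073, 1326817, -2529693, -501182]),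
  (4181120778240000, [0, 0, 0, 0, 0, 0, 4194304, 7490402, -8042012, -6630045, -2480720, 4395932, -1771870, 1300234, 297153, -155753, 1137842]),
  (7340371476480000, [0, 0, 0, 0, 0, 0, 0, 4194304, -2555964, -9097373, -2002592, 6393048, -155166, 1987476, 830033, -1894608, 987367]),
  (1356857671680000, [0, 0, 0, 0, 0, 0, 0, 0, 4194304, -2566216, 47303, 1725586, 463709, 824745, 336570, -947004, -86519]),
  (11253204910080000, [0, 0, 0, 0, 0, 0, 0, 0, 0, 4194304, 753490, -3093091, -469394, -786397, -491939, 1233715, -364076]),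
  (608291389440000, [0, 0, 0, 0, 0, 0, 0, 0, 0, 0, 4194304, -872944, -402344, 239078, -176639, 259814, -174435]),
  (984711168000000, [0, 0, 0, 0, 0, 0, 0, 0, 0, 0, 0, 4194304, 608449, 189169, 335298, -998743, 227633]),
  (711964753920000, [0, 0, 0, 0, 0, 0, 0, 0, 0, 0, 0, 0, 4194304, -754958, 178403, -167507, 236954]),
  (1312638566400000, [0, 0, 0, 0, 0, 0, 0, 0, 0, 0, 0, 0, 0, 4194304, -41424, -2210940, -30689]),
  (2261491384320000, [0, 0, 0, 0, 0, 0, 0, 0, 0, 0, 0, 0, 0, 0, 2097152, -67907, 6570]),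
  (249755452047360000, [0, 0, 0, 0, 0, 0, 0, 0, 0, 0, 0, 0, 0, 0, 0, 262144, -9461]),
  (10344905253498701375078400000, [0, 0, 0, 0, 0, 0, 0, 0, 0, 0, 0, 0, 0, 0, 0, 0, 1]),
  (7269620609819777932800000, [1, -1, 0, 0, 0, 0, 0, 0, 0, 0, 0, 0, 0, 0, 0, 0, 0]),
  (15895086121927928764800000, [1, 0, 1, 0, 0, 0, 0, 0, 0, 0, 0, 0, 0, 0, 0, 0, 0]),
  (10095663764593853752320000, [1, 0, 0, 0, 1, 0, 0, 0, 0, 0, 0, 0, 0, 0, 0, 0, 0]),
  (34684971759357080051520000, [1, 0, 0, 0, 0, -1, 0, 0, 0, 0, 0, 0, 0, 0, 0, 0, 0]),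
  (200193016376001922560000, [1, 0, 0, 0, 0, 0, 1, 0, 0, 0, 0, 0, 0, 0, 0, 0, 0]),
  (2957026648227546827520000, [1, 0, 0, 0, 0, 0, 0, 1, 0, 0, 0, 0, 0, 0, 0, 0, 0]),
  (8174462720704259434560000, [1, 0, 0, 0, 0, 0, 0, 0, 1, 0, 0, 0, 0, 0, 0, 0, 0]),
  (56560318303622387592240000, [1, 0, 0, 0, 0, 0, 0, 0, 0, -1, 0, 0, 0, 0, 0, 0, 0]),
  (1195683276178300089600000, [1, 0, 0, 0, 0, 0, 0, 0, 0, 0, -1, 0, 0, 0, 0, 0, 0]),
  (5772316458007448294400000, [1, 0, 0, 0, 0, 0, 0, 0, 0, 0, 0, 1, 0, 0, 0, 0, 0]),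
  (6018724310875926451200000, [1, 0, 0, 0, 0, 0, 0, 0, 0, 0, 0, 0, 0, 1, 0, 0, 0]),
  (235176283512688250880000, [1, 0, 0, 0, 0, 0, 0, 0, 0, 0, 0, 0, 0, 0, 0, -1, 0]),
  (1784383210603357720473600, [1, 0, 0, 0, 0, 0, 0, 0, 0, 0, 0, 0, 0, 0, 0, 0, 1]),
  (2307185246980990333440000, [0, 1, 1, 0, 0, 0, 0, 0, 0, 0, 0, 0, 0, 0, 0, 0, 0]),
  (6674537816629326040320000, [0, 1, 0, -1, 0, 0, 0, 0, 0, 0, 0, 0, 0, 0, 0, 0, 0]),
  (2619933134346056793600000, [0, 1, 0, 0, 1, 0, 0, 0, 0, 0, 0, 0, 0, 0, 0, 0, 0]),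
  (10031458038947593436160000, [0, 1, 0, 0, 0, 1, 0, 0, 0, 0, 0, 0, 0, 0, 0, 0, 0]),
  (11316479873193348981120000, [0, 1, 0, 0, 0, 0, 1, 0, 0, 0, 0, 0, 0, 0, 0, 0, 0]),
  (12569072770858882380480000, [0, 1, 0, 0, 0, 0, 0, 0, 0, -1, 0, 0, 0, 0, 0, 0, 0]),
  (9003835447772959261440000, [0, 1, 0, 0, 0, 0, 0, 0, 0, 0, 0, 0, 0, -1, 0, 0, 0]),
  (3855768692190028224307200, [0, 1, 0, 0, 0, 0, 0, 0, 0, 0, 0, 0, 0, 0, 0, 0, -1]),
  (15065989534225466040960000, [0, 0, 1, -1, 0, 0, 0, 0, 0, 0, 0, 0, 0, 0, 0, 0, 0]),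
  (2530199174606374302259200, [0, 0, 1, 0, 1, 0, 0, 0, 0, 0, 0, 0, 0, 0, 0, 0, 0]),
  (15078819575085936062400000, [0, 0, 1, 0, 0, 1, 0, 0, 0, 0, 0, 0, 0, 0, 0, 0, 0]),
  (17441387221551502245120000, [0, 0, 1, 0, 0, 0, -1, 0, 0, 0, 0, 0, 0, 0, 0, 0, 0]),
  (5066959624065432153698400, [0, 0, 1, 0, 0, 0, 0, -1, 0, 0, 0, 0, 0, 0, 0, 0, 0]),
  (36257723371752107218560000, [0, 0, 1, 0, 0, 0, 0, 0, 1, 0, 0, 0, 0, 0, 0, 0, 0]),
  (26832293166545776980000000, [0, 0, 1, 0, 0, 0, 0, 0, 0, -1, 0, 0, 0, 0, 0, 0, 0]),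
  (489880062826832875680000, [0, 0, 1, 0, 0, 0, 0, 0, 0, 0, 0, 0, -1, 0, 0, 0, 0]),
  (3192347282202045029260800, [0, 0, 1, 0, 0, 0, 0, 0, 0, 0, 0, 0, 0, 1, 0, 0, 0]),
  (2968026612812631985305600, [0, 0, 1, 0, 0, 0, 0, 0, 0, 0, 0, 0, 0, 0, 0, -1, 0]),
  (12291359976236597156121600, [0, 0, 1, 0, 0, 0, 0, 0, 0, 0, 0, 0, 0, 0, 0, 0, 1]),
  (5930940388149692516160000, [0, 0, 0, 1, -1, 0, 0, 0, 0, 0, 0, 0, 0, 0, 0, 0, 0]),
  (10296061896977656309440000, [0, 0, 0, 1, 0, -1, 0, 0, 0, 0, 0, 0, 0, 0, 0, 0, 0]),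
  (122177841980771567985120000, [0, 0, 0, 1, 0, 0, 0, 0, -1, 0, 0, 0, 0, 0, 0, 0, 0]),
  (35646323555174765217120000, [0, 0, 0, 1, 0, 0, 0, 0, 0, 1, 0, 0, 0, 0, 0, 0, 0]),
  (1361613463779743348428800, [0, 0, 0, 1, 0, 0, 0, 0, 0, 0, 0, 1, 0, 0, 0, 0, 0]),
  (63970772635521469015200000, [0, 0, 0, 1, 0, 0, 0, 0, 0, 0, 0, 0, 1, 0, 0, 0, 0]),
  (4073037303678073940160000, [0, 0, 0, 1, 0, 0, 0, 0, 0, 0, 0, 0, 0, -1, 0, 0, 0]),
  (2787044362994438481715200, [0, 0, 0, 1, 0, 0, 0, 0, 0, 0, 0, 0, 0, 0, 1, 0, 0]),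
  (10464836321567355836774400, [0, 0, 0, 1, 0, 0, 0, 0, 0, 0, 0, 0, 0, 0, 0, 1, 0]),
  (3928551249338159186534400, [0, 0, 0, 1, 0, 0, 0, 0, 0, 0, 0, 0, 0, 0, 0, 0, -1]),
  (38992460013981581448499200, [0, 0, 0, 0, 1, -1, 0, 0, 0, 0, 0, 0, 0, 0, 0, 0, 0]),
  (9325693077763250482560000, [0, 0, 0, 0, 1, 0, -1, 0, 0, 0, 0, 0, 0, 0, 0, 0, 0]),
  (10088526568962650215680000, [0, 0, 0, 0, 1, 0, 0, 1, 0, 0, 0, 0, 0, 0, 0, 0, 0]),
  (17274107530736489517840000, [0, 0, 0, 0, 1, 0, 0, 0, 1, 0, 0, 0, 0, 0, 0, 0, 0]),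
  (94027867726576596140160000, [0, 0, 0, 0, 1, 0, 0, 0, 0, -1, 0, 0, 0, 0, 0, 0, 0]),
  (2361896341625354929920000, [0, 0, 0, 0, 1, 0, 0, 0, 0, 0, -1, 0, 0, 0, 0, 0, 0]),
  (5449132130772651955200000, [0, 0, 0, 0, 1, 0, 0, 0, 0, 0, 0, 1, 0, 0, 0, 0, 0]),
  (20562178893054419295360000, [0, 0, 0, 0, 1, 0, 0, 0, 0, 0, 0, 0, 1, 0, 0, 0, 0]),
  (2173771682899201607040000, [0, 0, 0, 0, 1, 0, 0, 0, 0, 0, 0, 0, 0, -1, 0, 0, 0]),
  (14161146284668465635840000, [0, 0, 0, 0, 1, 0, 0, 0, 0, 0, 0, 0, 0, 0, 1, 0, 0]),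
  (2962448841127231128960000, [0, 0, 0, 0, 1, 0, 0, 0, 0, 0, 0, 0, 0, 0, 0, 1, 0]),
  (1679820854020878378700800, [0, 0, 0, 0, 1, 0, 0, 0, 0, 0, 0, 0, 0, 0, 0, 0, -1]),
  (29700457817304143142000000, [0, 0, 0, 0, 0, 1, -1, 0, 0, 0, 0, 0, 0, 0, 0, 0, 0]),
  (13508850897909810888681600, [0, 0, 0, 0, 0, 1, 0, -1, 0, 0, 0, 0, 0, 0, 0, 0, 0]),
  (64823932161099868707720000, [0, 0, 0, 0, 0, 1, 0, 0, -1, 0, 0, 0, 0, 0, 0, 0, 0]),
  (24244147337495453653320000, [0, 0, 0, 0, 0, 1, 0, 0, 0, -1, 0, 0, 0, 0, 0, 0, 0]),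
  (8547934428288559690444800, [0, 0, 0, 0, 0, 1, 0, 0, 0, 0, 1, 0, 0, 0, 0, 0, 0]),
  (2172099551692417209676800, [0, 0, 0, 0, 0, 1, 0, 0, 0, 0, 0, -1, 0, 0, 0, 0, 0]),
  (22047444437345489151360000, [0, 0, 0, 0, 0, 1, 0, 0, 0, 0, 0, 0, 1, 0, 0, 0, 0]),
  (3838632829960643671219200, [0, 0, 0, 0, 0, 1, 0, 0, 0, 0, 0, 0, 0, 1, 0, 0, 0]),
  (4222385608839864223564800, [0, 0, 0, 0, 0, 1, 0, 0, 0, 0, 0, 0, 0, 0, 1, 0, 0]),
  (10982524141948447744588800, [0, 0, 0, 0, 0, 1, 0, 0, 0, 0, 0, 0, 0, 0, 0, -1, 0]),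
  (8756276663396389919616000, [0, 0, 0, 0, 0, 1, 0, 0, 0, 0, 0, 0, 0, 0, 0, 0, -1]),
  (1570403784574515018240000, [0, 0, 0, 0, 0, 0, 1, 1, 0, 0, 0, 0, 0, 0, 0, 0, 0]),
  (7008169530652421080320000, [0, 0, 0, 0, 0, 0, 1, 0, -1, 0, 0, 0, 0, 0, 0, 0, 0]),
  (4814092979290226177280000, [0, 0, 0, 0, 0, 0, 1, 0, 0, 1, 0, 0, 0, 0, 0, 0, 0]),
  (4251584372081857009920000, [0, 0, 0, 0, 0, 0, 1, 0, 0, 0, -1, 0, 0, 0, 0, 0, 0]),
  (11070232637289658801920000, [0, 0, 0, 0, 0, 0, 1, 0, 0, 0, 0, 1, 0, 0, 0, 0, 0]),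
  (307025061623075819520000, [0, 0, 0, 0, 0, 0, 1, 0, 0, 0, 0, 0, 0, -1, 0, 0, 0]),
  (1944964733065749319680000, [0, 0, 0, 0, 0, 0, 1, 0, 0, 0, 0, 0, 0, 0, 0, -1, 0]),
  (188613286752619330560000, [0, 0, 0, 0, 0, 0, 1, 0, 0, 0, 0, 0, 0, 0, 0, 0, 1]),
  (9307199294380869073920000, [0, 0, 0, 0, 0, 0, 0, 1, -1, 0, 0, 0, 0, 0, 0, 0, 0]),
  (1162563256343594004480000, [0, 0, 0, 0, 0, 0, 0, 1, 0, 1, 0, 0, 0, 0, 0, 0, 0]),
  (2594543630302358300160000, [0, 0, 0, 0, 0, 0, 0, 1, 0, 0, -1, 0, 0, 0, 0, 0, 0]),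
  (7958553888614306019840000, [0, 0, 0, 0, 0, 0, 0, 1, 0, 0, 0, 1, 0, 0, 0, 0, 0]),
  (5293403973170909386560000, [0, 0, 0, 0, 0, 0, 0, 1, 0, 0, 0, 0, 0, -1, 0, 0, 0]),
  (8467794642511082269440000, [0, 0, 0, 0, 0, 0, 0, 1, 0, 0, 0, 0, 0, 0, 1, 0, 0]),
  (1157855255516974979543040, [0, 0, 0, 0, 0, 0, 0, 1, 0, 0, 0, 0, 0, 0, 0, -1, 0]),
  (2768690232161340963840000, [0, 0, 0, 0, 0, 0, 0, 1, 0, 0, 0, 0, 0, 0, 0, 0, 1]),
  (10693081917580159117440000, [0, 0, 0, 0, 0, 0, 0, 0, 1, -1, 0, 0, 0, 0, 0, 0, 0]),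
  (5155795866716637811200000, [0, 0, 0, 0, 0, 0, 0, 0, 1, 0, 0, -1, 0, 0, 0, 0, 0]),
  (2159574934803118358400000, [0, 0, 0, 0, 0, 0, 0, 0, 1, 0, 0, 0, -1, 0, 0, 0, 0]),
  (8895526350116446474560000, [0, 0, 0, 0, 0, 0, 0, 0, 1, 0, 0, 0, 0, 1, 0, 0, 0]),
  (231369411252333957120000, [0, 0, 0, 0, 0, 0, 0, 0, 1, 0, 0, 0, 0, 0, 1, 0, 0]),
  (6644396463647526097920000, [0, 0, 0, 0, 0, 0, 0, 0, 1, 0, 0, 0, 0, 0, 0, -1, 0]),
  (700837869095467729920000, [0, 0, 0, 0, 0, 0, 0, 0, 1, 0, 0, 0, 0, 0, 0, 0, -1]),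
  (2700238420134538214400000, [0, 0, 0, 0, 0, 0, 0, 0, 0, 1, 0, 1, 0, 0, 0, 0, 0]),
  (7575285160716322089600000, [0, 0, 0, 0, 0, 0, 0, 0, 0, 1, 0, 0, 1, 0, 0, 0, 0]),
  (4696966151153978667840000, [0, 0, 0, 0, 0, 0, 0, 0, 0, 1, 0, 0, 0, -1, 0, 0, 0]),
  (3592591788300910859520000, [0, 0, 0, 0, 0, 0, 0, 0, 0, 1, 0, 0, 0, 0, 0, -1, 0]),
  (1408257904154877296640000, [0, 0, 0, 0, 0, 0, 0, 0, 0, 1, 0, 0, 0, 0, 0, 0, 1]),
  (1509931323580946595840000, [0, 0, 0, 0, 0, 0, 0, 0, 0, 0, 1, 0, 0, -1, 0, 0, 0]),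
  (2035514091130264571904000, [0, 0, 0, 0, 0, 0, 0, 0, 0, 0, 1, 0, 0, 0, 0, 1, 0]),
  (1480646206508842920960000, [0, 0, 0, 0, 0, 0, 0, 0, 0, 0, 1, 0, 0, 0, 0, 0, -1]),
  (2616507922316837955840000, [0, 0, 0, 0, 0, 0, 0, 0, 0, 0, 0, 1, -1, 0, 0, 0, 0]),
  (750338630812352373120000, [0, 0, 0, 0, 0, 0, 0, 0, 0, 0, 0, 1, 0, 1, 0, 0, 0]),
  (1327460980688207511552000, [0, 0, 0, 0, 0, 0, 0, 0, 0, 0, 0, 1, 0, 0, 0, 1, 0]),
  (411449082323409285120000, [0, 0, 0, 0, 0, 0, 0, 0, 0, 0, 0, 1, 0, 0, 0, 0, -1]),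
  (4008681807248713492800000, [0, 0, 0, 0, 0, 0, 0, 0, 0, 0, 0, 0, 1, 1, 0, 0, 0]),
  (1770443440979776335360000, [0, 0, 0, 0, 0, 0, 0, 0, 0, 0, 0, 0, 1, 0, -1, 0, 0]),
  (2614079432646651513600000, [0, 0, 0, 0, 0, 0, 0, 0, 0, 0, 0, 0, 1, 0, 0, 1, 0]),
  (2373450966622321689600000, [0, 0, 0, 0, 0, 0, 0, 0, 0, 0, 0, 0, 1, 0, 0, 0, -1]),
  (3406500949993639102080000, [0, 0, 0, 0, 0, 0, 0, 0, 0, 0, 0, 0, 0, 1, 1, 0, 0]),
  (453543373423215210240000, [0, 0, 0, 0, 0, 0, 0, 0, 0, 0, 0, 0, 0, 1, 0, 1, 0]),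
  (1666458683430148177920000, [0, 0, 0, 0, 0, 0, 0, 0, 0, 0, 0, 0, 0, 1, 0, 0, -1]),
  (1521115622527588246978560, [0, 0, 0, 0, 0, 0, 0, 0, 0, 0, 0, 0, 0, 0, 1, -1, 0]),
  (1996895355735672806400000, [0, 0, 0, 0, 0, 0, 0, 0, 0, 0, 0, 0, 0, 0, 1, 0, -1]),
  (5136918214239617089536000, [0, 0, 0, 0, 0, 0, 0, 0, 0, 0, 0, 0, 0, 0, 0, 1, 1]),
  (9613971044819440499386166400, [1, 0, 0, 0, 0, 0, 0, 0, 0, 0, 0, 0, 0, 0, 0, 0, 0]),
  (9702054956777903550413452800, [0, 1, 0, 0, 0, 0, 0, 0, 0, 0, 0, 0, 0, 0, 0, 0, 0]),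
  (9624699825761388859580714400, [0, 0, 1, 0, 0, 0, 0, 0, 0, 0, 0, 0, 0, 0, 0, 0, 0]),
  (9489145488788373843585427200, [0, 0, 0, 1, 0, 0, 0, 0, 0, 0, 0, 0, 0, 0, 0, 0, 0]),
  (9529875906418877686490620800, [0, 0, 0, 0, 1, 0, 0, 0, 0, 0, 0, 0, 0, 0, 0, 0, 0]),
  (9510924677479477829532028800, [0, 0, 0, 0, 0, 1, 0, 0, 0, 0, 0, 0, 0, 0, 0, 0, 0]),
  (9669269725562487494417040000, [0, 0, 0, 0, 0, 0, 1, 0, 0, 0, 0, 0, 0, 0, 0, 0, 0]),
  (9692848287162492492384156960, [0, 0, 0, 0, 0, 0, 0, 1, 0, 0, 0, 0, 0, 0, 0, 0, 0]),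
  (9486794114343211719601800000, [0, 0, 0, 0, 0, 0, 0, 0, 1, 0, 0, 0, 0, 0, 0, 0, 0]),
  (9493322091071937502212360000, [0, 0, 0, 0, 0, 0, 0, 0, 0, 1, 0, 0, 0, 0, 0, 0, 0]),
  (9738247176726614563939891200, [0, 0, 0, 0, 0, 0, 0, 0, 0, 0, 1, 0, 0, 0, 0, 0, 0]),
  (9720957109375494305016422400, [0, 0, 0, 0, 0, 0, 0, 0, 0, 0, 0, 1, 0, 0, 0, 0, 0]),
  (9639891278256228578668800000, [0, 0, 0, 0, 0, 0, 0, 0, 0, 0, 0, 0, 1, 0, 0, 0, 0]),
  (9708277063971774464507520000, [0, 0, 0, 0, 0, 0, 0, 0, 0, 0, 0, 0, 0, 1, 0, 0, 0]),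
  (9731803131828375602465341440, [0, 0, 0, 0, 0, 0, 0, 0, 0, 0, 0, 0, 0, 0, 1, 0, 0]),
  (9712606719133767739162521600, [0, 0, 0, 0, 0, 0, 0, 0, 0, 0, 0, 0, 0, 0, 0, 1, 0]),
  (9724432434879088252345190400, [0, 0, 0, 0, 0, 0, 0, 0, 0, 0, 0, 0, 0, 0, 0, 0, 1])]

def M4 : List (List ℤ) := [[2470253952628335133259596800000, -2565228208588462948756700160000, -13488368181116857451284942080000, 8890617602411353249425653760000, 10158131961049325586920294400000, -15982917103843004802724675200000, -5372295318267616596330869760000, 8043637177348565243276367360000, -235352211361956014631661440000, -10289459065337701187337836640000, 546112692105698385884321280000, -642872244021199481760307200000, -906156989929467081633300480000, 626676781492180641838049280000, -1186685217903853389867909120000, 2961539116854241698344263680000, 4531247260199254852237893427200],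
  [37842240964080022195541114880000, -78221278872601072163569474560000, -3827045155449343358736898560000, -63781220211909483063655203840000, 76141890849598578917868533760000, -2363894403468356238507982080000, -1945885673677161241832325120000, 23932040716411557025268367360000, -6958813445732790050132223360000, -1216012813484451747256074240000, -12553178768731321756522905600000, 4123036635928790577221468160000, 30280569714340138353937512960000, 4283979265611264852169850880000, -7066191048775436645970739200000, -17556836245119979486533627494400],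
  [103829703657530541044203664640000, 8097548046115308749773781760000, 71845062507662040027418059878400, -120181325560596528710067331200000, 18742249780659045464627381760000, -48430554102286575985378974916800, -45309818775308279430581441280000, 77952603904653291333537931200000, -206217099061874913859338240000, 18769878072540485617888788480000, 18522491733352250224705494720000, -23608074397429663532346820838400, -3485688755014025515762974720000, -60139026321409660786041329971200, 26492470137592578025772626483200],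
  [40258927171446145356990821760000, 3036332277492009172253700480000, -103029735281426277939678268800000, -15934814909017553906989793280000, -16713989869487630648349818880000, -15697554273071949504280904640000, 8028409830596888642175994560000, -6682224618225507161061457920000, 6579930337021161463337151897600, 41634665921509926276053125440000, -24290876661768168406613447040000, 562997286421945273443634790400, -24190070840081850854714625331200, 32183459852838967565647379251200],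
  [51030701128598211824338483200000, -103687724707379183120206670438400, -7270176733755885613414275840000, 14348416691392118160405834240000, -18918802127523259083406203360000, -4242723114801768073366176000000, 7334574999587301110406935040000, 6960361711349065103286773760000, -15827149017269378358506899200000, 4205427483716796288090666240000, -8576469138342442233729530880000, -15916531082875543605005579520000, 22156402632318899302120403558400],
  [120967972894286864984413681920000, 18392453299600616920405428000000, 18345830029115951804504932396800, 50412163719104136290273249520000, -28636164570070682507857015440000, 2600502711810265459661235609600, -16309092280219104112411814553600, -41855870983323763435409061120000, 33354200143940606871583713638400, 7639663509357119228868497049600, 56025620842246149597295819622400, -64381599055331159865125582592000],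
  [4994487738292775313726132480000, -3367797335988823062157593600000, -5633827439770209028019489280000, 13117952547625080768541125120000, -417949095270340126004359680000, -1104058234262850347410997760000, -4080755847187777821539696640000, -1773808613885828930238259200000, 341782567643661060172677120000, 1190890540674882253268213760000, -5764342346984380533516011520000],
  [16131775848158366218305745920000, 4308342014874160021079623680000, -31282978293152159490348687360000, 3221676250332934674419758080000, -6124721513203367152438348800000, -22663562379773547041956823040000, 9283639857147170090360426880000, -2836127803466106226933148160000, 26603717785202015047101893713920, -5707078997698994764808816640000],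
  [11597027298332465460483371520000, -19209111327727130134042824960000, 2031785712895237998829240320000, -2453507049886067333521843200000, -7649900488207892835351002880000, 14400809761502159975819387520000, 1947412258201717556246323200000, 9597644440064295079690229760000, -13077343149129187361852590080000],
  [24851190374948902336192437120000, -2532608835658998832819077120000, 1583294299419010902388439040000, 17619384851327621632100947200000, -9306149176663870383176607360000, 693817066477228222967316480000, -31501744451942246448738347520000, 6624960073601764192728514560000],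
  [828613096389066151250841600000, -1091541804348010973089628160000, -5357994173689053240315740160000, 5132801643609151018791567360000, -800556482304078288300933120000, 266354392739293175881310208000, -1589016452044774533266626560000],
  [3248328019044124057874595840000, 5392056470315139768588480000000, -7805831880413876786045533440000, 515555669421012079623536640000, -3423062005610706386547572736000, 4676839717088927647811543040000],
  [14840486633107837289991070080000, -16594953146755832369067765120000, 2456986548485338194499937280000, -19340126853418186555978344960000, 14216624340322703264757872640000],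
  [18662517087503057377461780480000, -1316012573201374784545125120000, -12368387522662920758821593600000, -11136436650826192494715207680000],
  [495613903609625538465745920000, 516200515131866008215598202880, -1489279259983192250556856320000],
  [25443582204246970408634916864000, -14040891252874572592104603648000],
  [8934884138656009245978040320000]]

def u4 : List ℤ := [0, -14040891252874572592104603648000, 0, 24711619498549925785711332433920, 0, 0, 0, 0, -1945885673677161241832325120000, 0, 0, 0, 0, 0, 0, 26492470137592578025772626483200, 0, -23608074397429663532346820838400, -48430554102286575985378974916800, 0, -64381599055331159865125582592000, 0, 33354200143940606871583713638400, 18345830029115951804504932396800, 0, 0, 0, 0, 4123036635928790577221468160000, 23932040716411557025268367360000, 0, 0, 0, 0, -60139026321409660786041329971200, 56025620842246149597295819622400, 71845062507662040027418059878400, -103687724707379183120206670438400,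 25443582204246970408634916864000, -3423062005610706386547572736000, 0, 266354392739293175881310208000, 0, 516200515131866008215598202880, 0, -6888441717287382074920796160000, 4283979265611264852169850880000, 0, 18769878072540485617888788480000, 0, 0, 2600502711810265459661235609600, -16309092280219104112411814553600, 6579930337021161463337151897600, 0, 0, -24190070840081850854714625331200, 7639663509357119228868497049600, 562997286421945273443634790400, 0, -17556836245119979486533627494400, -7066191048775436645970739200000, 37842240964080022195541114880000, -78221278872601072163569474560000, 76141890849598578917868533760000, 0, 0, -12553178768731321756522905600000, 0, -1216012813484451747256074240000, 0, 0, 0, 0, 0, 0, 0, 0, 0, 0, 0, 0, 0, 0, -16713989869487630648349818880000, 0, -3485688755014025515762974720000, 0, 0, 0, 0, 30280569714340138353937512960000, -6958813445732790050132223360000, 0, 0, -2363894403468356238507982080000,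 77952603904653291333537931200000, -45309818775308279430581441280000, 0, 18522491733352250224705494720000, 0, 2807434871641491557637588480000, -4242723114801768073366176000000, 0, 0, 0, -11195616055267168268971137120000, 0, -1829557461925052871628216320000, 0, -18918802127523259083406203360000, 6960361711349065103286773760000, 0, 8028409830596888642175994560000, 0, -28636164570070682507857015440000, 0, 0, 0, 0, 0, 0, 0, 0, 0, 0, 0, 0, -235352211361956014631661440000, 0, 41634665921509926276053125440000, -15697554273071949504280904640000, 0, 2961539116854241698344263680000, 0, 0, 0, 0, -8576469138342442233729530880000, 0, 0, 50412163719104136290273249520000, -15916531082875543605005579520000, 0, 0, 0, 0, 0, 0, 0, 0, 0, 0, 0, 0, 0, 4531247260199254852237893427200, 0, 32183459852838967565647379251200, 0, 0, 22156402632318899302120403558400, 0, 0, 0, 0, 0, 0, 0, 0, 0, 0, 8043637177348565243276367360000, -41855870983323763435409061120000,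 -15827149017269378358506899200000, 14348416691392118160405834240000, 0, 0, 0, 0, 546112692105698385884321280000, 7334574999587301110406935040000, 0, 0, 0, -24290876661768168406613447040000, 626676781492180641838049280000, 0, 0, -5372295318267616596330869760000, 4205427483716796288090666240000, 0, 0, 18392453299600616920405428000000, 0, 0, -7270176733755885613414275840000, 0, 0, 0, 0, 0, 0, 2470253952628335133259596800000, -2565228208588462948756700160000, -4597750578705504201859288320000, 10158131961049325586920294400000, -15982917103843004802724675200000, -3827045155449343358736898560000, -63781220211909483063655203840000, 103829703657530541044203664640000, 8097548046115308749773781760000, -120181325560596528710067331200000, 40258927171446145356990821760000, 3036332277492009172253700480000, -103029735281426277939678268800000, 51030701128598211824338483200000, 120967972894286864984413681920000, 4994487738292775313726132480000,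 -3367797335988823062157593600000, -5633827439770209028019489280000, 9037196700437302947001428480000, -417949095270340126004359680000, -762275666619189287238320640000, -1773808613885828930238259200000, 1190890540674882253268213760000, -5764342346984380533516011520000, 16131775848158366218305745920000, -18355220364899387020877199360000, -31282978293152159490348687360000, 3221676250332934674419758080000, -14015324522551419225573166080000, 9283639857147170090360426880000, -804342090570868228103907840000, -5707078997698994764808816640000, 11597027298332465460483371520000, -19209111327727130134042824960000, -1759689983408839110554526720000, -7649900488207892835351002880000, 14400809761502159975819387520000, 1947412258201717556246323200000, 10113200109485307159313766400000, -13077343149129187361852590080000, 24851190374948902336192437120000, 1583294299419010902388439040000, 17619384851327621632100947200000, -9306149176663870383176607360000,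 -28253416432898122390863751680000, 6624960073601764192728514560000, 828613096389066151250841600000, 5132801643609151018791567360000, -1589016452044774533266626560000, 5392056470315139768588480000000, -7805831880413876786045533440000, 4676839717088927647811543040000, 14840486633107837289991070080000, -16594953146755832369067765120000, 2456986548485338194499937280000, -19340126853418186555978344960000, 14216624340322703264757872640000, 18662517087503057377461780480000, -1316012573201374784545125120000, -12368387522662920758821593600000, -11136436650826192494715207680000, 495613903609625538465745920000, -1489279259983192250556856320000, 8934884138656009245978040320000]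

theorem gr4 : eqM (gramT rows4) M4 = true := by
  decide +kernel

theorem mv4 : eqZ (mval M4 tab4) u4 = true := by
  decide +kernel

theorem nn4 (E : Env κ ι) : 0 ≤ dot (ek E keys) u4 0 :=
  block_nonneg E _ _ _ _ _ (tri4 E) rows4 M4 gr4 u4 mv4

end

def p5_0_0 : Cov := [(6, 0, 0, [(2, [0], [0, 1, 2])])]

def c5_0 : Cov := p5_0_0

def p5_1_0 : Cov := [(2, 1, 2, [(0, [1], [3, 4]), (0, [1], [3, 4]), (0, [0], [0, 1]), (3, [], [2])]),
  (2, 1, 2, [(0, [1], [3, 4]), (0, [1], [3, 4]), (0, [0], [0, 2]), (3, [], [1])]),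
  (2, 1, 2, [(0, [1], [3, 4]), (0, [1], [3, 4]), (0, [0], [1, 2]), (3, [], [0])])]

def c5_1 : Cov := p5_1_0

def p5_2_0 : Cov := [(2, 1, 2, [(0, [1], [3, 4]), (0, [1], [0, 3]), (0, [0], [1, 2]), (3, [], [4])]),
  (2, 1, 2, [(0, [1], [3, 4]), (0, [1], [1, 3]), (0, [0], [0, 2]), (3, [], [4])]),
  (2, 1, 2, [(0, [1], [3, 4]), (0, [1], [2, 3]), (0, [0], [0, 1]), (3, [], [4])])]

def c5_2 : Cov := p5_2_0

def p5_3_0 : Cov := [(2, 1, 2, [(0, [1], [3, 4]), (0, [1], [0, 1]), (0, [0], [2, 3]), (3, [], [4])]),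
  (2, 1, 2, [(0, [1], [3, 4]), (0, [1], [0, 2]), (0, [0], [1, 3]), (3, [], [4])]),
  (2, 1, 2, [(0, [1], [3, 4]), (0, [1], [1, 2]), (0, [0], [0, 3]), (3, [], [4])])]

def c5_3 : Cov := p5_3_0

def p5_4_0 : Cov := [(2, 1, 2, [(0, [1], [0, 3]), (0, [1], [1, 4]), (0, [0], [3, 4]), (3, [], [2])]),
  (2, 1, 2, [(0, [1], [0, 3]), (0, [1], [2, 4]), (0, [0], [3, 4]), (3, [], [1])]),
  (2, 1, 2, [(0, [1], [1, 3]), (0, [1], [2, 4]), (0, [0], [3, 4]), (3, [], [0])])]

def c5_4 : Cov := p5_4_0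

def p5_5_0 : Cov := [(2, 1, 2, [(0, [1], [0, 3]), (0, [1], [1, 3]), (0, [0], [2, 4]), (3, [], [4])]),
  (2, 1, 2, [(0, [1], [0, 3]), (0, [1], [2, 3]), (0, [0], [1, 4]), (3, [], [4])]),
  (2, 1, 2, [(0, [1], [1, 3]), (0, [1], [2, 3]), (0, [0], [0, 4]), (3, [], [4])])]

def c5_5 : Cov := p5_5_0

def p5_6_0 : Cov := [(2, 1, 2, [(0, [1], [0, 3]), (0, [1], [1, 2]), (0, [0], [3, 4]), (3, [], [4])]),
  (2, 1, 2, [(0, [1], [0, 1]), (0, [1], [2, 3]), (0, [0], [3, 4]), (3, [], [4])]),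
  (2, 1, 2, [(0, [1], [0, 2]), (0, [1], [1, 3]), (0, [0], [3, 4]), (3, [], [4])])]

def c5_6 : Cov := p5_6_0

def p5_7_0 : Cov := [(2, 0, 2, [(0, [0], [3, 4]), (1, [], [3, 4]), (1, [], [0, 1]), (3, [], [2])]),
  (2, 0, 2, [(0, [0], [3, 4]), (1, [], [3, 4]), (1, [], [0, 2]), (3, [], [1])]),
  (2, 0, 2, [(0, [0], [3, 4]), (1, [], [3, 4]), (1, [], [1, 2]), (3, [], [0])])]

def c5_7 : Cov := p5_7_0

def p5_8_0 : Cov := [(2, 0, 2, [(0, [0], [3, 4]), (1, [], [0, 3]), (1, [], [1, 4]), (3, [], [2])]),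
  (2, 0, 2, [(0, [0], [3, 4]), (1, [], [0, 3]), (1, [], [2, 4]), (3, [], [1])]),
  (2, 0, 2, [(0, [0], [3, 4]), (1, [], [1, 3]), (1, [], [2, 4]), (3, [], [0])])]

def c5_8 : Cov := p5_8_0

def p5_9_0 : Cov := [(2, 0, 2, [(0, [0], [3, 4]), (1, [], [0, 3]), (1, [], [1, 2]), (3, [], [4])]),
  (2, 0, 2, [(0, [0], [3, 4]), (1, [], [0, 1]), (1, [], [2, 3]), (3, [], [4])]),
  (2, 0, 2, [(0, [0], [3, 4]), (1, [], [0, 2]), (1, [], [1, 3]), (3, [], [4])])]

def c5_9 : Cov := p5_9_0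

def p5_10_0 : Cov := [(2, 0, 2, [(0, [0], [0, 3]), (1, [], [3, 4]), (1, [], [1, 2]), (3, [], [4])]),
  (2, 0, 2, [(0, [0], [1, 3]), (1, [], [3, 4]), (1, [], [0, 2]), (3, [], [4])]),
  (2, 0, 2, [(0, [0], [2, 3]), (1, [], [3, 4]), (1, [], [0, 1]), (3, [], [4])])]

def c5_10 : Cov := p5_10_0

def p5_11_0 : Cov := [(2, 0, 2, [(0, [0], [0, 3]), (1, [], [1, 4]), (1, [], [2, 4]), (3, [], [3])]),
  (2, 0, 2, [(0, [0], [1, 3]), (1, [], [0, 4]), (1, [], [2, 4]), (3, [], [3])]),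
  (2, 0, 2, [(0, [0], [2, 3]), (1, [], [0, 4]), (1, [], [1, 4]), (3, [], [3])])]

def c5_11 : Cov := p5_11_0

def p5_12_0 : Cov := [(2, 0, 1, [(0, [0], [0, 3]), (1, [], [1, 2]), (3, [], [3])]),
  (2, 0, 1, [(0, [0], [1, 3]), (1, [], [0, 2]), (3, [], [3])]),
  (2, 0, 1, [(0, [0], [2, 3]), (1, [], [0, 1]), (3, [], [3])])]

def c5_12 : Cov := p5_12_0

def p5_13_0 : Cov := [(2, 0, 2, [(0, [0], [0, 1]), (1, [], [3, 4]), (1, [], [3, 4]), (3, [], [2])]),
  (2, 0, 2, [(0, [0], [0, 2]), (1, [], [3, 4]), (1, [], [3, 4]), (3, [], [1])]),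
  (2, 0, 2, [(0, [0], [1, 2]), (1, [], [3, 4]), (1, [], [3, 4]), (3, [], [0])])]

def c5_13 : Cov := p5_13_0

def p5_14_0 : Cov := [(2, 0, 2, [(0, [0], [0, 1]), (1, [], [3, 4]), (1, [], [2, 3]), (3, [], [4])]),
  (2, 0, 2, [(0, [0], [0, 2]), (1, [], [3, 4]), (1, [], [1, 3]), (3, [], [4])]),
  (2, 0, 2, [(0, [0], [1, 2]), (1, [], [3, 4]), (1, [], [0, 3]), (3, [], [4])])]

def c5_14 : Cov := p5_14_0

def p5_15_0 : Cov := [(2, 0, 1, [(0, [0], [0, 1]), (1, [], [2, 3]), (3, [], [3])]),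
  (2, 0, 1, [(0, [0], [0, 2]), (1, [], [1, 3]), (3, [], [3])]),
  (2, 0, 1, [(0, [0], [1, 2]), (1, [], [0, 3]), (3, [], [3])])]

def c5_15 : Cov := p5_15_0

def p5_16_0 : Cov := [(2, 0, 0, [(0, [0], [0, 1]), (3, [], [2])]),
  (2, 0, 0, [(0, [0], [0, 2]), (3, [], [1])]),
  (2, 0, 0, [(0, [0], [1, 2]), (3, [], [0])])]

def c5_16 : Cov := p5_16_0

def p5_17_0 : Cov := [(2, 0, 1, [(2, [0], [0, 1, 3]), (1, [], [2, 3])]),
  (2, 0, 1, [(2, [0], [0, 2, 3]), (1, [], [1, 3])]),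
  (2, 0, 1, [(2, [0], [1, 2, 3]), (1, [], [0, 3])])]

def c5_17 : Cov := p5_17_0

def p5_18_0 : Cov := [(1, 1, 2, [(0, [1], [3, 4]), (0, [1], [0, 3]), (0, [0], [1, 4]), (3, [], [2])]),
  (1, 1, 2, [(0, [1], [3, 4]), (0, [1], [0, 3]), (0, [0], [2, 4]), (3, [], [1])]),
  (1, 1, 2, [(0, [1], [3, 4]), (0, [1], [1, 3]), (0, [0], [0, 4]), (3, [], [2])]),
  (1, 1, 2, [(0, [1], [3, 4]), (0, [1], [1, 3]), (0, [0], [2, 4]), (3, [], [0])]),
  (1, 1, 2, [(0, [1], [3, 4]), (0, [1], [2, 3]), (0, [0], [0, 4]), (3, [], [1])]),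
  (1, 1, 2, [(0, [1], [3, 4]), (0, [1], [2, 3]), (0, [0], [1, 4]), (3, [], [0])])]

def c5_18 : Cov := p5_18_0

def p5_19_0 : Cov := [(1, 1, 2, [(0, [1], [0, 3]), (0, [1], [1, 4]), (0, [0], [2, 3]), (3, [], [4])]),
  (1, 1, 2, [(0, [1], [0, 3]), (0, [1], [1, 4]), (0, [0], [2, 4]), (3, [], [3])]),
  (1, 1, 2, [(0, [1], [0, 3]), (0, [1], [2, 4]), (0, [0], [1, 3]), (3, [], [4])]),
  (1, 1, 2, [(0, [1], [0, 3]), (0, [1], [2, 4]), (0, [0], [1, 4]), (3, [], [3])]),
  (1, 1, 2, [(0, [1], [1, 3]), (0, [1], [2, 4]), (0, [0], [0, 3]), (3, [], [4])]),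
  (1, 1, 2, [(0, [1], [1, 3]), (0, [1], [2, 4]), (0, [0], [0, 4]), (3, [], [3])])]

def c5_19 : Cov := p5_19_0

def p5_20_0 : Cov := [(1, 0, 2, [(0, [0], [0, 3]), (1, [], [3, 4]), (1, [], [1, 4]), (3, [], [2])]),
  (1, 0, 2, [(0, [0], [0, 3]), (1, [], [3, 4]), (1, [], [2, 4]), (3, [], [1])]),
  (1, 0, 2, [(0, [0], [1, 3]), (1, [], [3, 4]), (1, [], [0, 4]), (3, [], [2])]),
  (1, 0, 2, [(0, [0], [1, 3]), (1, [], [3, 4]), (1, [], [2, 4]), (3, [], [0])]),
  (1, 0, 2, [(0, [0], [2, 3]), (1, [], [3, 4]), (1, [], [0, 4]), (3, [], [1])]),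
  (1, 0, 2, [(0, [0], [2, 3]), (1, [], [3, 4]), (1, [], [1, 4]), (3, [], [0])])]

def c5_20 : Cov := p5_20_0

def p5_21_0 : Cov := [(1, 0, 2, [(0, [0], [0, 3]), (1, [], [1, 3]), (1, [], [2, 4]), (3, [], [4])]),
  (1, 0, 2, [(0, [0], [0, 3]), (1, [], [1, 4]), (1, [], [2, 3]), (3, [], [4])]),
  (1, 0, 2, [(0, [0], [1, 3]), (1, [], [0, 3]), (1, [], [2, 4]), (3, [], [4])]),
  (1, 0, 2, [(0, [0], [1, 3]), (1, [], [0, 4]), (1, [], [2, 3]), (3, [], [4])]),
  (1, 0, 2, [(0, [0], [2, 3]), (1, [], [0, 3]), (1, [], [1, 4]), (3, [], [4])]),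
  (1, 0, 2, [(0, [0], [2, 3]), (1, [], [0, 4]), (1, [], [1, 3]), (3, [], [4])])]

def c5_21 : Cov := p5_21_0

def p5_22_0 : Cov := [(1, 0, 1, [(0, [0], [0, 3]), (1, [], [1, 3]), (3, [], [2])]),
  (1, 0, 1, [(0, [0], [0, 3]), (1, [], [2, 3]), (3, [], [1])]),
  (1, 0, 1, [(0, [0], [1, 3]), (1, [], [0, 3]), (3, [], [2])]),
  (1, 0, 1, [(0, [0], [1, 3]), (1, [], [2, 3]), (3, [], [0])]),
  (1, 0, 1, [(0, [0], [2, 3]), (1, [], [0, 3]), (3, [], [1])]),
  (1, 0, 1, [(0, [0], [2, 3]), (1, [], [1, 3]), (3, [], [0])])]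

def c5_22 : Cov := p5_22_0

theorem t5_0_0_0 : chkF keys 1 3 p5_0_0 c5_0
  [(0, 0, 0, 288, 288)]
  [(0, 36)] = true := by
  decide +kernel

theorem t5_0_1_0 : chkF keys 1 3 p5_0_0 c5_1
  [(68, 1, 1, 66100, 4675), (68, 1, 1, 66595, 131395), (68, 1, 1, 66610, 135235)]
  [(68, 36)] = true := by
  decide +kernel

theorem t5_0_2_0 : chkF keys 1 3 p5_0_0 c5_2
  [(44, 1, 1, 136240, 136240), (44, 1, 1, 135940, 9265), (44, 1, 1, 135235, 66610)]
  [(44, 36)] = true := by
  decide +kernel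

theorem t5_0_3_0 : chkF keys 1 3 p5_0_0 c5_3
  [(50, 1, 1, 274960, 274960), (50, 1, 1, 274720, 274720), (50, 1, 1, 274690, 274465)]
  [(50, 36)] = true := by
  decide +kernel

theorem t5_0_4_0 : chkF keys 1 3 p5_0_0 c5_4
  [(155, 16, 16, 66610, 135235), (155, 16, 16, 66370, 73795), (155, 16, 16, 66340, 8515)]
  [(155, 36)] = true := by
  decide +kernel

theorem t5_0_5_0 : chkF keys 1 3 p5_0_0 c5_5
  [(267, 16, 16, 274960, 274960), (267, 16, 16, 274720, 274720), (267, 16, 16, 274450, 274450)]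
  [(267, 36)] = true := by
  decide +kernel

theorem t5_0_6_0 : chkF keys 1 3 p5_0_0 c5_6
  [(49, 1, 1, 274690, 274465), (49, 1, 1, 274960, 274960), (49, 1, 1, 274720, 274720)]
  [(49, 36)] = true := by
  decide +kernel

theorem t5_0_7_0 : chkF keys 1 3 p5_0_0 c5_7
  [(251, 0, 0, 66100, 4675), (251, 0, 0, 66595, 131395), (251, 0, 0, 66610, 135235)]
  [(251, 36)] = true := by
  decide +kernel

theorem t5_0_8_0 : chkF keys 1 3 p5_0_0 c5_8
  [(268, 0, 0, 274960, 274960), (268, 0, 0, 274720, 274720), (268, 0, 0, 213010, 213010)]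
  [(268, 36)] = true := by
  decide +kernel

theorem t5_0_9_0 : chkF keys 1 3 p5_0_0 c5_9
  [(254, 0, 0, 66610, 135235), (254, 0, 0, 66100, 4675), (254, 0, 0, 66595, 131395)]
  [(254, 36)] = true := by
  decide +kernel

theorem t5_0_10_0 : chkF keys 1 3 p5_0_0 c5_10
  [(265, 0, 0, 136240, 136240), (265, 0, 0, 135940, 9265), (265, 0, 0, 135235, 66610)]
  [(265, 36)] = true := by
  decide +kernel

theorem t5_0_11_0 : chkF keys 1 3 p5_0_0 c5_11
  [(269, 0, 0, 274960, 274960), (269, 0, 0, 274690, 274465), (269, 0, 0, 274465, 274690)]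
  [(269, 36)] = true := by
  decide +kernel

theorem t5_0_12_0 : chkF keys 1 3 p5_0_0 c5_12
  [(1, 0, 0, 12576, 12576), (1, 0, 0, 12546, 12321), (1, 0, 0, 12321, 12546)]
  [(1, 36)] = true := by
  decide +kernel

theorem t5_0_13_0 : chkF keys 1 3 p5_0_0 c5_13
  [(270, 0, 0, 274960, 274960), (270, 0, 0, 274720, 274720), (270, 0, 0, 274450, 274450)]
  [(270, 36)] = true := by
  decide +kernel

theorem t5_0_14_0 : chkF keys 1 3 p5_0_0 c5_14
  [(271, 0, 0, 274960, 274960), (271, 0, 0, 274720, 274720), (271, 0, 0, 274450, 274450)]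
  [(271, 36)] = true := by
  decide +kernel

theorem t5_0_15_0 : chkF keys 1 3 p5_0_0 c5_15
  [(2, 0, 0, 12321, 12546), (2, 0, 0, 12546, 12321), (2, 0, 0, 12576, 12576)]
  [(2, 36)] = true := by
  decide +kernel

theorem t5_0_16_0 : chkF keys 1 3 p5_0_0 c5_16
  [(40, 0, 0, 33, 258), (40, 0, 0, 258, 33), (40, 0, 0, 288, 288)]
  [(40, 36)] = true := by
  decide +kernel

theorem t5_0_17_0 : chkF keys 1 3 p5_0_0 c5_17
  [(272, 0, 0, 12816, 12816), (272, 0, 0, 12576, 12576), (272, 0, 0, 12306, 12306)]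
  [(272, 36)] = true := by
  decide +kernel

theorem t5_0_18_0 : chkF keys 1 3 p5_0_0 c5_18
  [(273, 16, 16, 274960, 274960), (273, 16, 16, 274720, 274720), (273, 16, 16, 274945, 274945), (273, 16, 16, 274690, 274465), (273, 16, 16, 274465, 274690), (273, 16, 16, 274450, 274450)]
  [(273, 36)] = true := by
  decide +kernel

theorem t5_0_19_0 : chkF keys 1 3 p5_0_0 c5_19
  [(274, 16, 16, 274960, 274960), (274, 16, 16, 213505, 213505), (274, 16, 16, 274720, 274720), (274, 16, 16, 213025, 213250), (274, 16, 16, 274690, 274465), (274, 16, 16, 213010, 213010)]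
  [(274, 36)] = true := by
  decide +kernel

theorem t5_0_20_0 : chkF keys 1 3 p5_0_0 c5_20
  [(275, 0, 0, 274960, 274960), (275, 0, 0, 274720, 274720), (275, 0, 0, 274945, 274945), (275, 0, 0, 274690, 274465), (275, 0, 0, 274465, 274690), (275, 0, 0, 274450, 274450)]
  [(275, 36)] = true := by
  decide +kernel

theorem t5_0_21_0 : chkF keys 1 3 p5_0_0 c5_21
  [(276, 0, 0, 274960, 274960), (276, 0, 0, 274720, 274720), (276, 0, 0, 274945, 274945), (276, 0, 0, 274690, 274465), (276, 0, 0, 274465, 274690), (276, 0, 0, 274450, 274450)]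
  [(276, 36)] = true := by
  decide +kernel

theorem t5_0_22_0 : chkF keys 1 3 p5_0_0 c5_22
  [(277, 0, 0, 12816, 12816), (277, 0, 0, 12576, 12576), (277, 0, 0, 12801, 12801), (277, 0, 0, 12546, 12321), (277, 0, 0, 12321, 12546), (277, 0, 0, 12306, 12306)]
  [(277, 36)] = true := by
  decide +kernel

theorem t5_1_1_0 : chkF keys 1 3 p5_1_0 c5_1
  [(278, 513, 513, 105972786, 106041411), (62, 258, 33, 52495956, 34628931), (62, 258, 33, 52495941, 33645891), (62, 258, 33, 52495716, 18900291), (278, 513, 513, 105972546, 105979971), (62, 258, 33, 52495461, 16934211), (62, 258, 33, 52495686, 2188611), (62, 258, 33, 52495446, 1205571), (278, 513, 513, 105972516, 105914691)]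
  [(62, 24), (278, 12)] = true := by
  decide +kernel

theorem t5_1_2_0 : chkF keys 1 3 p5_1_0 c5_2
  [(63, 513, 513, 104924451, 103088451), (63, 513, 513, 104924466, 103092291), (62, 513, 513, 88147506, 40177731), (63, 513, 513, 104923731, 102040131), (62, 513, 513, 88146786, 23404611), (63, 513, 513, 104923986, 102047811), (62, 513, 513, 88146726, 6627651), (63, 513, 513, 104923701, 100995651), (63, 513, 513, 104923941, 100999491)]
  [(62, 12), (63, 24)] = true := by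
  decide +kernel

theorem t5_1_3_0 : chkF keys 1 3 p5_1_0 c5_3
  [(209, 258, 33, 52495956, 34628931), (208, 258, 33, 52495941, 33645891), (208, 258, 33, 52495956, 34628931), (208, 258, 33, 52495461, 16934211), (209, 258, 33, 52495716, 18900291), (208, 258, 33, 52495716, 18900291), (208, 258, 33, 52495446, 1205571), (208, 258, 33, 52495686, 2188611), (209, 258, 33, 52495686, 2188611)]
  [(208, 24), (209, 12)] = true := by
  decide +kernel

theorem t5_1_4_0 : chkF keys 1 3 p5_1_0 c5_4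
  [(279, 513, 513, 105972786, 106041411), (64, 258, 33, 70321746, 35016771), (64, 258, 33, 70321701, 33968451), (64, 258, 33, 70321506, 19288131), (279, 513, 513, 105972546, 105979971), (64, 258, 33, 54592101, 17130051), (64, 258, 33, 54592806, 2449731), (64, 258, 33, 54592086, 1401411), (279, 513, 513, 105972516, 105914691)]
  [(64, 24), (279, 12)] = true := by
  decide +kernel

theorem t5_1_5_0 : chkF keys 1 3 p5_1_0 c5_5
  [(204, 33, 258, 50677281, 37970181), (63, 513, 513, 88147491, 40173891), (63, 513, 513, 88147506, 40177731), (63, 513, 513, 88146531, 23396931), (204, 33, 258, 50676321, 21193221), (63, 513, 513, 88146786, 23404611), (63, 513, 513, 88146486, 6623811), (63, 513, 513, 88146726, 6627651), (204, 33, 258, 50676246, 4416021)]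
  [(63, 24), (204, 12)] = true := by
  decide +kernel

theorem t5_1_6_0 : chkF keys 1 3 p5_1_0 c5_6
  [(64, 513, 513, 104924451, 103088451), (209, 258, 33, 102826836, 101721411), (64, 513, 513, 104924466, 103092291), (64, 513, 513, 104923731, 102040131), (64, 513, 513, 104923986, 102047811), (209, 258, 33, 102827316, 102765891), (209, 258, 33, 102827331, 102827331), (64, 513, 513, 104923941, 100999491), (64, 513, 513, 104923701, 100995651)]
  [(64, 24), (209, 12)] = true := by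
  decide +kernel

theorem t5_1_7_0 : chkF keys 1 3 p5_1_0 c5_7
  [(280, 1, 1, 105972786, 106041411), (8, 16, 16, 17122866, 37949541), (8, 16, 16, 17122851, 37945701), (8, 16, 16, 17122146, 21176421), (280, 1, 1, 105972546, 105979971), (8, 16, 16, 17121891, 21168741), (8, 16, 16, 17122086, 4399461), (8, 16, 16, 17121846, 4395621), (280, 1, 1, 105972516, 105914691)]
  [(8, 24), (280, 12)] = true := by
  decide +kernel

theorem t5_1_8_0 : chkF keys 1 3 p5_1_0 c5_8
  [(93, 1, 1, 103875666, 101863491), (29, 1, 1, 37815141, 17114691), (29, 1, 1, 37815126, 1386051), (29, 1, 1, 37815861, 33887811), (93, 1, 1, 103875906, 102846531), (29, 1, 1, 69272886, 2495811), (29, 1, 1, 69273171, 34997571), (29, 1, 1, 69272931, 19268931), (93, 1, 1, 103875876, 102781251)]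
  [(29, 24), (93, 12)] = true := by
  decide +kernel

theorem t5_1_9_0 : chkF keys 1 3 p5_1_0 c5_9
  [(29, 1, 1, 105972516, 105914691), (8, 16, 16, 52774416, 37971216), (29, 1, 1, 105972546, 105979971), (29, 1, 1, 105972276, 105910851), (29, 1, 1, 105972786, 106041411), (8, 16, 16, 52773216, 21194016), (8, 16, 16, 52773126, 4416801), (29, 1, 1, 105972771, 106037571), (29, 1, 1, 105972291, 105972291)]
  [(8, 12), (29, 24)] = true := by
  decide +kernel

theorem t5_1_10_0 : chkF keys 1 3 p5_1_0 c5_10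
  [(79, 1, 1, 52495956, 34628931), (79, 1, 1, 52495941, 33645891), (8, 16, 16, 103105296, 105063696), (79, 1, 1, 52495716, 18900291), (8, 16, 16, 103104816, 105059616), (79, 1, 1, 52495461, 16934211), (8, 16, 16, 103104771, 105055521), (79, 1, 1, 52495686, 2188611), (79, 1, 1, 52495446, 1205571)]
  [(8, 12), (79, 24)] = true := by
  decide +kernel

theorem t5_1_11_0 : chkF keys 1 3 p5_1_0 c5_11
  [(28, 1, 1, 39912261, 83961411), (28, 1, 1, 39912276, 84944451), (95, 1, 1, 39912531, 85067331), (28, 1, 1, 39912501, 84022851), (95, 1, 1, 39912771, 86050371), (28, 1, 1, 39912756, 85988931), (95, 1, 1, 39912756, 85988931), (28, 1, 1, 39912531, 85067331), (28, 1, 1, 39912771, 86050371)]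
  [(28, 24), (95, 12)] = true := by
  decide +kernel

theorem t5_1_12_0 : chkF keys 1 3 p5_1_0 c5_12
  [(46, 16, 16, 2372865, 2372865), (46, 16, 16, 2372880, 2372880), (69, 1, 1, 5308995, 5308995), (46, 16, 16, 2371665, 1324290), (69, 1, 1, 5309475, 5374275), (46, 16, 16, 2371920, 1324320), (69, 1, 1, 5309490, 5378115), (46, 16, 16, 2371605, 275730), (46, 16, 16, 2371845, 275745)]
  [(46, 24), (69, 12)] = true := by
  decide +kernel

theorem t5_1_13_0 : chkF keys 1 3 p5_1_0 c5_13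
  [(90, 1, 1, 52495461, 16934211), (91, 1, 1, 52495461, 16934211), (91, 1, 1, 52495446, 1205571), (91, 1, 1, 52495941, 33645891), (90, 1, 1, 52495941, 33645891), (91, 1, 1, 52495686, 2188611), (91, 1, 1, 52495956, 34628931), (91, 1, 1, 52495716, 18900291), (90, 1, 1, 52495956, 34628931)]
  [(90, 12), (91, 24)] = true := by
  decide +kernel

theorem t5_1_14_0 : chkF keys 1 3 p5_1_0 c5_14
  [(9, 1, 1, 52495956, 34628931), (28, 1, 1, 52495941, 33645891), (28, 1, 1, 52495956, 34628931), (28, 1, 1, 52495461, 16934211), (9, 1, 1, 52495716, 18900291), (28, 1, 1, 52495716, 18900291), (28, 1, 1, 52495446, 1205571), (28, 1, 1, 52495686, 2188611), (9, 1, 1, 52495686, 2188611)]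
  [(9, 12), (28, 24)] = true := by
  decide +kernel

theorem t5_1_15_0 : chkF keys 1 3 p5_1_0 c5_15
  [(70, 1, 1, 5308995, 5308995), (46, 16, 16, 5517825, 5517825), (46, 16, 16, 5517840, 5517840), (46, 16, 16, 5517345, 5517570), (70, 1, 1, 5309475, 5374275), (46, 16, 16, 5517600, 5517600), (46, 16, 16, 5517330, 5517330), (46, 16, 16, 5517570, 5517345), (70, 1, 1, 5309490, 5378115)]
  [(46, 24), (70, 12)] = true := by
  decide +kernel

theorem t5_1_16_0 : chkF keys 1 3 p5_1_0 c5_16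
  [(66, 1, 1, 66610, 135235), (61, 1, 1, 66610, 135235), (61, 1, 1, 66595, 131395), (61, 1, 1, 66370, 73795), (66, 1, 1, 66370, 73795), (61, 1, 1, 66115, 66115), (61, 1, 1, 66340, 8515), (61, 1, 1, 66100, 4675), (66, 1, 1, 66340, 8515)]
  [(61, 24), (66, 12)] = true := by
  decide +kernel

theorem t5_1_17_0 : chkF keys 1 3 p5_1_0 c5_17
  [(7, 16, 16, 2372880, 2372880), (281, 1, 1, 5309490, 5378115), (281, 1, 1, 5309475, 5374275), (281, 1, 1, 5309250, 5316675), (7, 16, 16, 2371920, 1324320), (281, 1, 1, 5308995, 5308995), (281, 1, 1, 5309220, 5251395), (281, 1, 1, 5308980, 5247555), (7, 16, 16, 2371845, 275745)]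
  [(7, 12), (281, 24)] = true := by
  decide +kernel

theorem t5_1_18_0 : chkF keys 1 3 p5_1_0 c5_18
  [(282, 513, 513, 105972786, 106041411), (208, 513, 513, 88147506, 40177731), (282, 513, 513, 105972771, 106037571), (208, 513, 513, 88147491, 40173891), (63, 258, 33, 52495716, 18900291), (63, 258, 33, 52495686, 2188611), (208, 513, 513, 88146786, 23404611), (282, 513, 513, 105972546, 105979971), (63, 258, 33, 52495956, 34628931), (63, 258, 33, 52495446, 1205571), (282, 513, 513, 105972291, 105972291), (208, 513, 513, 88146531, 23396931), (63, 258, 33, 52495941, 33645891), (63, 258, 33, 52495461, 16934211), (208, 513, 513, 88146726, 6627651), (282, 513, 513, 105972516, 105914691), (208, 513, 513, 88146486, 6623811), (282, 513, 513, 105972276, 105910851)]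
  [(63, 12), (208, 12), (282, 12)] = true := by
  decide +kernel

theorem t5_1_19_0 : chkF keys 1 3 p5_1_0 c5_19
  [(64, 513, 513, 88147491, 40173891), (64, 513, 513, 72418866, 39194691), (204, 288, 288, 52774401, 37971201), (208, 258, 33, 87098946, 39931971), (204, 288, 288, 52774416, 37971216), (208, 258, 33, 87098916, 39866691), (204, 288, 288, 52772961, 21193986), (208, 258, 33, 87098466, 23220291), (64, 513, 513, 88146531, 23396931), (64, 513, 513, 72418146, 22421571), (208, 258, 33, 102827316, 102765891), (204, 288, 288, 37044576, 21190176), (208, 258, 33, 102827091, 101844291), (204, 288, 288, 37044246, 4412946), (208, 258, 33, 102827331, 102827331), (204, 288, 288, 37044486, 4412961), (64, 513, 513, 88146486, 6623811), (64, 513, 513, 72418086, 5644611)]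
  [(64, 12), (204, 12), (208, 12)] = true := by
  decide +kernel

theorem t5_1_20_0 : chkF keys 1 3 p5_1_0 c5_20
  [(94, 1, 1, 52495461, 16934211), (28, 1, 1, 37815141, 17114691), (94, 1, 1, 52495446, 1205571), (28, 1, 1, 37815126, 1386051), (92, 1, 1, 36766821, 16930371), (92, 1, 1, 36766806, 1201731), (28, 1, 1, 37815861, 33887811), (94, 1, 1, 52495941, 33645891), (92, 1, 1, 36767301, 33642051), (92, 1, 1, 36767046, 2184771), (94, 1, 1, 52495686, 2188611), (28, 1, 1, 37815606, 2430531), (92, 1, 1, 36767316, 34625091), (92, 1, 1, 36767076, 18896451), (28, 1, 1, 37815891, 34932291), (94, 1, 1, 52495956, 34628931), (28, 1, 1, 37815651, 19203651), (94, 1, 1, 52495716, 18900291)]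
  [(28, 12), (92, 12), (94, 12)] = true := by
  decide +kernel

theorem t5_1_21_0 : chkF keys 1 3 p5_1_0 c5_21
  [(72, 16, 16, 103105296, 105063696), (79, 1, 1, 55641636, 38822211), (72, 16, 16, 103105281, 105063681), (79, 1, 1, 55641666, 38887491), (29, 1, 1, 55641636, 38822211), (29, 1, 1, 55641666, 38887491), (79, 1, 1, 102827316, 102765891), (72, 16, 16, 103104816, 105059616), (29, 1, 1, 55640676, 22045251), (29, 1, 1, 55641186, 22175811), (72, 16, 16, 103104561, 105059586), (79, 1, 1, 55641186, 22175811), (29, 1, 1, 55640646, 5333571), (29, 1, 1, 55641126, 5398851), (79, 1, 1, 102827331, 102827331), (72, 16, 16, 103104771, 105055521), (79, 1, 1, 102827091, 101844291), (72, 16, 16, 103104531, 105055506)]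
  [(29, 12), (72, 12), (79, 12)] = true := by
  decide +kernel

theorem t5_1_22_0 : chkF keys 1 3 p5_1_0 c5_22
  [(74, 16, 16, 2442000, 4400400), (46, 16, 16, 275745, 2371845), (74, 16, 16, 2441985, 4400385), (46, 16, 16, 275730, 2371605), (67, 1, 1, 3212370, 1200195), (67, 1, 1, 3212325, 151875), (46, 16, 16, 275025, 1323525), (74, 16, 16, 2441520, 4396320), (67, 1, 1, 3212610, 2183235), (67, 1, 1, 3211845, 86595), (74, 16, 16, 2441265, 4396290), (46, 16, 16, 274770, 1323045), (67, 1, 1, 3212580, 2117955), (67, 1, 1, 3211860, 1069635), (46, 16, 16, 274965, 274965), (74, 16, 16, 2441475, 4392225), (46, 16, 16, 274725, 274725), (74, 16, 16, 2441235, 4392210)]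
  [(46, 12), (67, 12), (74, 12)] = true := by
  decide +kernel

theorem t5_2_2_0 : chkF keys 1 3 p5_2_0 c5_2
  [(63, 528, 528, 105193731, 105186081), (210, 513, 513, 104989521, 102048771), (210, 513, 513, 104990001, 103093251), (210, 513, 513, 104989461, 101000211), (63, 528, 528, 105193776, 105190176), (210, 513, 513, 104989971, 103089171), (210, 513, 513, 104988981, 100996131), (210, 513, 513, 104989011, 102040611), (63, 528, 528, 105194256, 105194256)]
  [(63, 12), (210, 24)] = true := by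
  decide +kernel

theorem t5_2_3_0 : chkF keys 1 3 p5_2_0 c5_3
  [(211, 258, 33, 106038321, 106042371), (211, 258, 33, 106038081, 105980931), (36, 513, 513, 102958401, 102843651), (211, 258, 33, 106038291, 106038291), (36, 513, 513, 102958356, 102778131), (211, 258, 33, 106038036, 105915411), (36, 513, 513, 102957396, 101729571), (211, 258, 33, 106037571, 105972771), (211, 258, 33, 106037556, 105911331)]
  [(36, 12), (211, 24)] = true := by
  decide +kernel

theorem t5_2_4_0 : chkF keys 1 3 p5_2_0 c5_4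
  [(212, 258, 33, 103941441, 102847491), (212, 258, 33, 103941201, 101864451), (283, 513, 513, 105972786, 106041411), (212, 258, 33, 56755476, 86008851), (283, 513, 513, 105972771, 106037571), (212, 258, 33, 103941141, 100815891), (283, 513, 513, 105972291, 105972291), (212, 258, 33, 56754516, 84960291), (212, 258, 33, 56754501, 83977251)]
  [(212, 24), (283, 12)] = true := by
  decide +kernel

theorem t5_2_5_0 : chkF keys 1 3 p5_2_0 c5_5
  [(210, 258, 33, 103941201, 101864451), (210, 258, 33, 103941441, 102847491), (205, 33, 258, 50741781, 67330581), (210, 258, 33, 103941141, 100815891), (205, 33, 258, 50741841, 68379141), (210, 258, 33, 103941396, 102781971), (205, 33, 258, 50742561, 69427461), (210, 258, 33, 103940421, 100750371), (210, 258, 33, 103940436, 101733411)]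
  [(205, 12), (210, 24)] = true := by
  decide +kernel

theorem t5_2_6_0 : chkF keys 1 3 p5_2_0 c5_6
  [(36, 258, 33, 102958401, 102843651), (212, 258, 33, 88213041, 40178691), (212, 258, 33, 88212321, 23405571), (212, 258, 33, 88212246, 6628371), (212, 258, 33, 88213011, 40174611), (36, 258, 33, 102958356, 102778131), (212, 258, 33, 88211766, 6624291), (36, 258, 33, 102957396, 101729571), (212, 258, 33, 88211811, 23397411)]
  [(36, 12), (212, 24)] = true := by
  decide +kernel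

theorem t5_2_7_0 : chkF keys 1 3 p5_2_0 c5_7
  [(26, 16, 16, 17191716, 70263141), (26, 16, 16, 17191476, 70259301), (284, 1, 1, 105972786, 106041411), (26, 16, 16, 17191746, 70328421), (284, 1, 1, 105972771, 106037571), (26, 16, 16, 17191491, 70320741), (284, 1, 1, 105972291, 105972291), (26, 16, 16, 17191986, 70389861), (26, 16, 16, 17191971, 70386021)]
  [(26, 24), (284, 12)] = true := by
  decide +kernel

theorem t5_2_8_0 : chkF keys 1 3 p5_2_0 c5_8
  [(82, 1, 1, 103941441, 102847491), (82, 1, 1, 103941201, 101864451), (98, 1, 1, 104924466, 103092291), (82, 1, 1, 56755476, 86008851), (98, 1, 1, 104924451, 103088451), (82, 1, 1, 103941141, 100815891), (98, 1, 1, 104923731, 102040131), (82, 1, 1, 56754516, 84960291), (82, 1, 1, 56754501, 83977251)]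
  [(82, 24), (98, 12)] = true := by
  decide +kernel

theorem t5_2_9_0 : chkF keys 1 3 p5_2_0 c5_9
  [(26, 16, 16, 52842756, 70280481), (82, 1, 1, 88213041, 40178691), (82, 1, 1, 88212321, 23405571), (82, 1, 1, 88212246, 6628371), (82, 1, 1, 88213011, 40174611), (26, 16, 16, 52842816, 70346016), (82, 1, 1, 88211766, 6624291), (26, 16, 16, 52843536, 70411536), (82, 1, 1, 88211811, 23397411)]
  [(26, 12), (82, 24)] = true := by
  decide +kernel

theorem t5_2_10_0 : chkF keys 1 3 p5_2_0 c5_10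
  [(18, 1, 1, 103089201, 104994051), (81, 1, 1, 106038081, 105980931), (81, 1, 1, 106038321, 106042371), (81, 1, 1, 106038036, 105915411), (18, 1, 1, 103089171, 104989971), (81, 1, 1, 106038291, 106038291), (81, 1, 1, 106037556, 105911331), (81, 1, 1, 106037571, 105972771), (18, 1, 1, 103088451, 104924451)]
  [(18, 12), (81, 24)] = true := by
  decide +kernel

theorem t5_2_11_0 : chkF keys 1 3 p5_2_0 c5_11
  [(101, 1, 1, 72418146, 22421571), (80, 1, 1, 56755521, 86074371), (80, 1, 1, 56755281, 85091331), (80, 1, 1, 56755476, 86008851), (101, 1, 1, 72418086, 5644611), (80, 1, 1, 56755221, 84042771), (80, 1, 1, 56754516, 84960291), (80, 1, 1, 56754501, 83977251), (101, 1, 1, 72417846, 5640771)]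
  [(80, 24), (101, 12)] = true := by
  decide +kernel

theorem t5_2_12_0 : chkF keys 1 3 p5_2_0 c5_12
  [(45, 1, 1, 5379120, 5379120), (47, 1, 1, 5378880, 5317680), (47, 1, 1, 5379120, 5379120), (47, 1, 1, 5378820, 5252145), (45, 1, 1, 5379075, 5375025), (47, 1, 1, 5379075, 5375025), (47, 1, 1, 5378100, 5248050), (47, 1, 1, 5378115, 5309490), (45, 1, 1, 5378115, 5309490)]
  [(45, 12), (47, 24)] = true := by
  decide +kernel

theorem t5_2_13_0 : chkF keys 1 3 p5_2_0 c5_13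
  [(17, 1, 1, 70583841, 38162691), (17, 1, 1, 70582881, 21385731), (91, 16, 16, 52711686, 3433761), (17, 1, 1, 70583826, 38162451), (91, 16, 16, 52711776, 20210976), (17, 1, 1, 70582806, 4608531), (91, 16, 16, 52712976, 36988176), (17, 1, 1, 70582626, 21385251), (17, 1, 1, 70582566, 4608291)]
  [(17, 24), (91, 12)] = true := by
  decide +kernel

theorem t5_2_14_0 : chkF keys 1 3 p5_2_0 c5_14
  [(99, 1, 1, 104923986, 102047811), (99, 1, 1, 104924466, 103092291), (28, 16, 16, 52842756, 70280481), (99, 1, 1, 104923941, 100999491), (28, 16, 16, 52842816, 70346016), (99, 1, 1, 104924451, 103088451), (28, 16, 16, 52843536, 70411536), (99, 1, 1, 104923701, 100995651), (99, 1, 1, 104923731, 102040131)]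
  [(28, 12), (99, 24)] = true := by
  decide +kernel

theorem t5_2_15_0 : chkF keys 1 3 p5_2_0 c5_15
  [(86, 16, 16, 3490050, 4411425), (86, 16, 16, 3489810, 4411410), (46, 1, 1, 5379120, 5379120), (86, 16, 16, 3490080, 4411680), (46, 1, 1, 5379075, 5375025), (86, 16, 16, 3489825, 4411650), (46, 1, 1, 5378115, 5309490), (86, 16, 16, 3490320, 4411920), (86, 16, 16, 3490305, 4411905)]
  [(46, 12), (86, 24)] = true := by
  decide +kernel

theorem t5_2_16_0 : chkF keys 1 3 p5_2_0 c5_16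
  [(34, 1, 1, 197665, 147715), (34, 1, 1, 197185, 82435), (61, 16, 16, 205060, 17185), (34, 1, 1, 197650, 147475), (61, 16, 16, 205120, 82720), (34, 1, 1, 197140, 16915), (61, 16, 16, 205840, 148240), (34, 1, 1, 196930, 81955), (34, 1, 1, 196900, 16675)]
  [(34, 24), (61, 12)] = true := by
  decide +kernel

theorem t5_2_17_0 : chkF keys 1 3 p5_2_0 c5_17
  [(285, 1, 1, 5309490, 5378115), (285, 1, 1, 5309250, 5316675), (24, 16, 16, 2441475, 4392225), (285, 1, 1, 5309475, 5374275), (24, 16, 16, 2441520, 4396320), (285, 1, 1, 5309220, 5251395), (24, 16, 16, 2442000, 4400400), (285, 1, 1, 5308995, 5308995), (285, 1, 1, 5308980, 5247555)]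
  [(24, 12), (285, 24)] = true := by
  decide +kernel

theorem t5_2_18_0 : chkF keys 1 3 p5_2_0 c5_18
  [(210, 258, 33, 87164481, 39932931), (210, 258, 33, 87164001, 23221251), (211, 513, 513, 54658641, 34956291), (286, 513, 513, 105972786, 106041411), (211, 513, 513, 54658401, 19227651), (286, 513, 513, 105972546, 105979971), (211, 513, 513, 54658581, 33907731), (286, 513, 513, 105972771, 106037571), (210, 258, 33, 87164436, 39867411), (210, 258, 33, 87163926, 6444051), (286, 513, 513, 105972516, 105914691), (211, 513, 513, 54658326, 2450451), (286, 513, 513, 105972291, 105972291), (211, 513, 513, 54657381, 17130531), (286, 513, 513, 105972276, 105910851), (211, 513, 513, 54657366, 1401891), (210, 258, 33, 87163236, 23090211), (210, 258, 33, 87163206, 6378531)]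
  [(210, 12), (211, 12), (286, 12)] = true := by
  decide +kernel

theorem t5_2_19_0 : chkF keys 1 3 p5_2_0 c5_19
  [(211, 258, 33, 103941201, 101864451), (205, 288, 288, 37109781, 67327506), (211, 258, 33, 103941441, 102847491), (205, 288, 288, 37110021, 67327521), (212, 513, 513, 87164001, 23221251), (212, 513, 513, 55707201, 38888451), (205, 288, 288, 52838481, 68379906), (211, 258, 33, 56755221, 84042771), (212, 513, 513, 87163926, 6444051), (212, 513, 513, 55707156, 38822931), (211, 258, 33, 103941396, 102781971), (205, 288, 288, 37110096, 68376096), (212, 513, 513, 87163206, 6378531), (212, 513, 513, 55705956, 22045731), (205, 288, 288, 52839681, 69428481), (211, 258, 33, 56754501, 83977251), (205, 288, 288, 52839696, 69428496), (211, 258, 33, 56754516, 84960291)]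
  [(205, 12), (211, 12), (212, 12)] = true := by
  decide +kernel

theorem t5_2_20_0 : chkF keys 1 3 p5_2_0 c5_20
  [(96, 1, 1, 70321746, 35016771), (96, 1, 1, 70321506, 19288131), (80, 1, 1, 55707201, 38888451), (100, 1, 1, 70321746, 35016771), (80, 1, 1, 55706721, 22176771), (100, 1, 1, 70321506, 19288131), (80, 1, 1, 55707156, 38822931), (100, 1, 1, 70321701, 33968451), (96, 1, 1, 70321701, 33968451), (96, 1, 1, 70321446, 2511171), (100, 1, 1, 70321446, 2511171), (80, 1, 1, 55706646, 5399571), (100, 1, 1, 70320741, 17191491), (80, 1, 1, 55705956, 22045731), (100, 1, 1, 70320726, 1462851), (80, 1, 1, 55705926, 5334051), (96, 1, 1, 70320741, 17191491), (96, 1, 1, 70320726, 1462851)]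
  [(80, 12), (96, 12), (100, 12)] = true := by
  decide +kernel

theorem t5_2_21_0 : chkF keys 1 3 p5_2_0 c5_21
  [(97, 1, 1, 72418146, 22421571), (97, 1, 1, 72418866, 39194691), (81, 1, 1, 103941441, 102847491), (73, 16, 16, 52838661, 67331361), (81, 1, 1, 103941201, 101864451), (73, 16, 16, 52838421, 67331346), (81, 1, 1, 103941396, 102781971), (73, 16, 16, 52838736, 68379936), (97, 1, 1, 72418086, 5644611), (97, 1, 1, 72418851, 39190851), (73, 16, 16, 52838481, 68379906), (81, 1, 1, 103941141, 100815891), (73, 16, 16, 52839696, 69428496), (81, 1, 1, 103940436, 101733411), (73, 16, 16, 52839681, 69428481), (81, 1, 1, 103940421, 100750371), (97, 1, 1, 72417846, 5640771), (97, 1, 1, 72417891, 22413891)]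
  [(73, 12), (81, 12), (97, 12)] = true := by
  decide +kernel

theorem t5_2_22_0 : chkF keys 1 3 p5_2_0 c5_22
  [(48, 1, 1, 3282240, 2184240), (48, 1, 1, 3282000, 1201200), (47, 1, 1, 3282240, 2184240), (77, 16, 16, 2310405, 214305), (47, 1, 1, 3282000, 1201200), (77, 16, 16, 2310165, 214290), (47, 1, 1, 3282180, 2118705), (77, 16, 16, 2310480, 1262880), (48, 1, 1, 3282180, 2118705), (48, 1, 1, 3281925, 152625), (77, 16, 16, 2310225, 1262850), (47, 1, 1, 3281925, 152625), (77, 16, 16, 2311440, 2311440), (47, 1, 1, 3280980, 1070130), (77, 16, 16, 2311425, 2311425), (47, 1, 1, 3280965, 87090), (48, 1, 1, 3280980, 1070130), (48, 1, 1, 3280965, 87090)]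
  [(47, 12), (48, 12), (77, 12)] = true := by
  decide +kernel

theorem t5_3_3_0 : chkF keys 1 3 p5_3_0 c5_3
  [(214, 528, 528, 102961236, 101729586), (287, 513, 513, 105972786, 106041411), (287, 513, 513, 105972771, 106037571), (287, 513, 513, 105972546, 105979971), (214, 528, 528, 102962436, 102778161), (287, 513, 513, 105972291, 105972291), (287, 513, 513, 105972516, 105914691), (287, 513, 513, 105972276, 105910851), (214, 528, 528, 102962496, 102843696)]
  [(214, 12), (287, 24)] = true := by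
  decide +kernel

theorem t5_3_4_0 : chkF keys 1 3 p5_3_0 c5_4
  [(288, 513, 513, 105972786, 106041411), (289, 513, 513, 105972786, 106041411), (289, 513, 513, 105972771, 106037571), (289, 513, 513, 105972546, 105979971), (288, 513, 513, 105972546, 105979971), (289, 513, 513, 90243651, 90243651), (289, 513, 513, 90243876, 90186051), (289, 513, 513, 90243636, 90182211), (288, 513, 513, 105972516, 105914691)]
  [(288, 12), (289, 24)] = true := by
  decide +kernel

theorem t5_3_5_0 : chkF keys 1 3 p5_3_0 c5_5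
  [(205, 18, 18, 100881441, 103956741), (290, 513, 513, 105972786, 106041411), (290, 513, 513, 105972771, 106037571), (290, 513, 513, 105972546, 105979971), (205, 18, 18, 100880961, 103891461), (290, 513, 513, 105972291, 105972291), (290, 513, 513, 105972516, 105914691), (290, 513, 513, 105972276, 105910851), (205, 18, 18, 100880916, 103825941)]
  [(205, 12), (290, 24)] = true := by
  decide +kernel

theorem t5_3_6_0 : chkF keys 1 3 p5_3_0 c5_6
  [(291, 513, 513, 105972786, 106041411), (37, 33, 258, 50733396, 68182821), (291, 513, 513, 105972771, 106037571), (291, 513, 513, 105972546, 105979971), (291, 513, 513, 105972291, 105972291), (37, 33, 258, 50734356, 69231381), (37, 33, 258, 50734401, 69296901), (291, 513, 513, 105972276, 105910851), (291, 513, 513, 105972516, 105914691)]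
  [(37, 12), (291, 24)] = true := by
  decide +kernel

theorem t5_3_7_0 : chkF keys 1 3 p5_3_0 c5_7
  [(88, 1, 1, 88286736, 40190736), (192, 1, 1, 88147506, 40177731), (192, 1, 1, 88147491, 40173891), (192, 1, 1, 88146786, 23404611), (88, 1, 1, 88285536, 23413536), (192, 1, 1, 88146531, 23396931), (192, 1, 1, 88146726, 6627651), (192, 1, 1, 88146486, 6623811), (88, 1, 1, 88285446, 6636321)]
  [(88, 12), (192, 24)] = true := by
  decide +kernel

theorem t5_3_8_0 : chkF keys 1 3 p5_3_0 c5_8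
  [(150, 1, 1, 73606416, 86393616), (105, 1, 1, 105002256, 103101456), (105, 1, 1, 105002241, 103101441), (105, 1, 1, 105001296, 102052896), (150, 1, 1, 73605456, 85345056), (105, 1, 1, 73543761, 85341186), (105, 1, 1, 73543941, 84292641), (105, 1, 1, 73543701, 84292626), (150, 1, 1, 73605381, 84296481)]
  [(105, 24), (150, 12)] = true := by
  decide +kernel

theorem t5_3_9_0 : chkF keys 1 3 p5_3_0 c5_9
  [(117, 16, 16, 17117796, 20984421), (27, 1, 1, 106112016, 106054416), (117, 16, 16, 17117766, 4272741), (117, 16, 16, 17118756, 37761381), (117, 16, 16, 17118246, 4338021), (27, 1, 1, 106111296, 105988896), (27, 1, 1, 106111236, 105923361), (117, 16, 16, 17118306, 21114981), (117, 16, 16, 17118786, 37826661)]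
  [(27, 12), (117, 24)] = true := by
  decide +kernel

theorem t5_3_10_0 : chkF keys 1 3 p5_3_0 c5_10
  [(139, 16, 16, 68559696, 68559696), (139, 16, 16, 68559621, 67511121), (84, 16, 16, 51781716, 68182866), (139, 16, 16, 68560176, 69604176), (84, 16, 16, 51782916, 69231441), (139, 16, 16, 68558901, 67507026), (84, 16, 16, 51782976, 69296976), (139, 16, 16, 68560131, 69600081), (139, 16, 16, 68558931, 68551506)]
  [(84, 12), (139, 24)] = true := by
  decide +kernel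

theorem t5_3_11_0 : chkF keys 1 3 p5_3_0 c5_11
  [(149, 1, 1, 72558096, 39207696), (149, 1, 1, 72558081, 39207681), (101, 16, 16, 68493366, 4592466), (149, 1, 1, 72556896, 22430496), (101, 16, 16, 68494086, 4596561), (149, 1, 1, 72556641, 22430466), (101, 16, 16, 68494176, 21373776), (149, 1, 1, 72556806, 5653281), (149, 1, 1, 72556566, 5653266)]
  [(101, 12), (149, 24)] = true := by
  decide +kernel

theorem t5_3_12_0 : chkF keys 1 3 p5_3_0 c5_12
  [(54, 1, 1, 5308980, 5247555), (54, 1, 1, 5308995, 5308995), (45, 16, 16, 2425155, 4261155), (54, 1, 1, 5309220, 5251395), (45, 16, 16, 2425875, 4326675), (54, 1, 1, 5309475, 5374275), (45, 16, 16, 2425905, 4330755), (54, 1, 1, 5309250, 5316675), (54, 1, 1, 5309490, 5378115)]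
  [(45, 12), (54, 24)] = true := by
  decide +kernel

theorem t5_3_13_0 : chkF keys 1 3 p5_3_0 c5_13
  [(190, 1, 1, 88147506, 40177731), (185, 16, 16, 70648146, 68571171), (185, 16, 16, 70648101, 67522851), (185, 16, 16, 70649106, 69619731), (190, 1, 1, 88146786, 23404611), (185, 16, 16, 70648341, 67523091), (185, 16, 16, 70649121, 69619971), (185, 16, 16, 70648401, 68571651), (190, 1, 1, 88146726, 6627651)]
  [(185, 24), (190, 12)] = true := by
  decide +kernel

theorem t5_3_14_0 : chkF keys 1 3 p5_3_0 c5_14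
  [(174, 16, 16, 88473906, 73732131), (130, 16, 16, 70656336, 68571936), (130, 16, 16, 70656261, 67523361), (130, 16, 16, 70657296, 69620496), (174, 16, 16, 88474386, 73736211), (130, 16, 16, 70656021, 67523346), (130, 16, 16, 70657281, 69620481), (130, 16, 16, 70656081, 68571906), (174, 16, 16, 88474401, 73736451)]
  [(130, 24), (174, 12)] = true := by
  decide +kernel

theorem t5_3_15_0 : chkF keys 1 3 p5_3_0 c5_15
  [(138, 16, 16, 4522290, 4526115), (58, 1, 1, 3490305, 4411905), (58, 1, 1, 3490320, 4411920), (58, 1, 1, 3489825, 4411650), (138, 16, 16, 4522770, 4530195), (58, 1, 1, 3490080, 4411680), (58, 1, 1, 3489810, 4411410), (58, 1, 1, 3490050, 4411425), (138, 16, 16, 4522785, 4530435)]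
  [(58, 24), (138, 12)] = true := by
  decide +kernel

theorem t5_3_16_0 : chkF keys 1 3 p5_3_0 c5_16
  [(142, 1, 1, 66610, 135235), (56, 16, 16, 135235, 66610), (56, 16, 16, 135220, 5170), (56, 16, 16, 136195, 132145), (142, 1, 1, 66370, 73795), (56, 16, 16, 135940, 9265), (56, 16, 16, 136240, 136240), (56, 16, 16, 136000, 74800), (142, 1, 1, 66340, 8515)]
  [(56, 24), (142, 12)] = true := by
  decide +kernel

theorem t5_3_17_0 : chkF keys 1 3 p5_3_0 c5_17
  [(32, 1, 1, 3211860, 1069635), (292, 1, 1, 5309490, 5378115), (292, 1, 1, 5309475, 5374275), (292, 1, 1, 5309250, 5316675), (32, 1, 1, 3212580, 2117955), (292, 1, 1, 5308995, 5308995), (292, 1, 1, 5309220, 5251395), (292, 1, 1, 5308980, 5247555), (32, 1, 1, 3212610, 2183235)]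
  [(32, 12), (292, 24)] = true := by
  decide +kernel

theorem t5_3_18_0 : chkF keys 1 3 p5_3_0 c5_18
  [(293, 513, 513, 105972786, 106041411), (213, 528, 528, 37949541, 17122866), (293, 513, 513, 105972771, 106037571), (213, 528, 528, 37949526, 1394226), (294, 513, 513, 105972786, 106041411), (294, 513, 513, 105972771, 106037571), (213, 528, 528, 37950981, 33900081), (293, 513, 513, 105972546, 105979971), (294, 513, 513, 105972546, 105979971), (294, 513, 513, 105972291, 105972291), (293, 513, 513, 105972291, 105972291), (213, 528, 528, 37950726, 2442801), (294, 513, 513, 105972516, 105914691), (294, 513, 513, 105972276, 105910851), (213, 528, 528, 37951056, 34948656), (293, 513, 513, 105972516, 105914691), (213, 528, 528, 37950816, 19220016), (293, 513, 513, 105972276, 105910851)]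
  [(213, 12), (293, 12), (294, 12)] = true := by
  decide +kernel

theorem t5_3_19_0 : chkF keys 1 3 p5_3_0 c5_19
  [(215, 528, 528, 86184006, 6374706), (215, 528, 528, 38998116, 22038066), (295, 513, 513, 105972786, 106041411), (291, 18, 18, 51794496, 70345296), (295, 513, 513, 105972771, 106037571), (291, 18, 18, 51794436, 70279761), (295, 513, 513, 105972546, 105979971), (291, 18, 18, 51794976, 70410576), (215, 528, 528, 86184966, 6440241), (215, 528, 528, 38999556, 38815281), (291, 18, 18, 20336676, 70275426), (295, 513, 513, 90243651, 90243651), (291, 18, 18, 20337666, 70406241), (295, 513, 513, 90243876, 90186051), (291, 18, 18, 20336706, 70340706), (295, 513, 513, 90243636, 90182211), (215, 528, 528, 86185056, 23217456), (215, 528, 528, 38999616, 38880816)]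
  [(215, 12), (291, 12), (295, 12)] = true := by
  decide +kernel

theorem t5_3_20_0 : chkF keys 1 3 p5_3_0 c5_20
  [(148, 1, 1, 72558096, 39207696), (191, 1, 1, 88147506, 40177731), (148, 1, 1, 72558081, 39207681), (191, 1, 1, 88147491, 40173891), (113, 1, 1, 73544976, 86389776), (113, 1, 1, 73544961, 86389761), (191, 1, 1, 88146786, 23404611), (148, 1, 1, 72556896, 22430496), (113, 1, 1, 73544016, 85341216), (113, 1, 1, 73543761, 85341186), (148, 1, 1, 72556641, 22430466), (191, 1, 1, 88146531, 23396931), (113, 1, 1, 73543941, 84292641), (113, 1, 1, 73543701, 84292626), (191, 1, 1, 88146726, 6627651), (148, 1, 1, 72556806, 5653281), (191, 1, 1, 88146486, 6623811), (148, 1, 1, 72556566, 5653266)]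
  [(113, 12), (148, 12), (191, 12)] = true := by
  decide +kernel

theorem t5_3_21_0 : chkF keys 1 3 p5_3_0 c5_21
  [(140, 16, 16, 70582626, 21385251), (121, 16, 16, 101983056, 101983056), (140, 16, 16, 70582566, 4608291), (121, 16, 16, 101982981, 100934481), (131, 16, 16, 67445046, 4592421), (131, 16, 16, 67445091, 21365541), (121, 16, 16, 101983536, 103027536), (140, 16, 16, 70583826, 38162451), (131, 16, 16, 67445526, 4596501), (131, 16, 16, 67446291, 38142741), (140, 16, 16, 70582806, 4608531), (121, 16, 16, 101982261, 100930386), (131, 16, 16, 67445601, 21373701), (131, 16, 16, 67446321, 38146821), (121, 16, 16, 101983491, 103023441), (140, 16, 16, 70583841, 38162691), (121, 16, 16, 101982291, 101974866), (140, 16, 16, 70582881, 21385731)]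
  [(121, 12), (131, 12), (140, 12)] = true := by
  decide +kernel

theorem t5_3_22_0 : chkF keys 1 3 p5_3_0 c5_22
  [(143, 1, 1, 5309490, 5378115), (55, 1, 1, 3211860, 1069635), (143, 1, 1, 5309475, 5374275), (55, 1, 1, 3211845, 86595), (53, 1, 1, 2442000, 4400400), (53, 1, 1, 2441985, 4400385), (55, 1, 1, 3212580, 2117955), (143, 1, 1, 5309250, 5316675), (53, 1, 1, 2441520, 4396320), (53, 1, 1, 2441265, 4396290), (143, 1, 1, 5308995, 5308995), (55, 1, 1, 3212325, 151875), (53, 1, 1, 2441475, 4392225), (53, 1, 1, 2441235, 4392210), (55, 1, 1, 3212610, 2183235), (143, 1, 1, 5309220, 5251395), (55, 1, 1, 3212370, 1200195), (143, 1, 1, 5308980, 5247555)]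
  [(53, 12), (55, 12), (143, 12)] = true := by
  decide +kernel

theorem t5_4_4_0 : chkF keys 1 3 p5_4_0 c5_4
  [(296, 513, 513, 106107936, 106053936), (217, 513, 513, 73413906, 86388756), (217, 513, 513, 73598241, 86393091), (217, 513, 513, 73412946, 85340196), (296, 513, 513, 106107456, 105988656), (217, 513, 513, 105054801, 102056451), (217, 513, 513, 104870181, 101003556), (217, 513, 513, 105054741, 101007891), (296, 513, 513, 106107396, 105923121)]
  [(217, 24), (296, 12)] = true := by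
  decide +kernel

theorem t5_4_5_0 : chkF keys 1 3 p5_4_0 c5_5
  [(297, 513, 513, 106107936, 106053936), (212, 18, 18, 84292161, 73478661), (212, 18, 18, 84107796, 56640021), (212, 18, 18, 84292641, 73543941), (297, 513, 513, 106107456, 105988656), (212, 18, 18, 84107556, 56639781), (212, 18, 18, 84292626, 73543701), (212, 18, 18, 84107586, 56705061), (297, 513, 513, 106107396, 105923121)]
  [(212, 24), (297, 12)] = true := by
  decide +kernel

theorem t5_4_6_0 : chkF keys 1 3 p5_4_0 c5_6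
  [(291, 288, 288, 16922196, 34616421), (288, 33, 258, 67522866, 70651941), (291, 288, 288, 16983621, 33637221), (291, 288, 288, 16921956, 18887781), (291, 288, 288, 16983141, 16925541), (288, 33, 258, 67523346, 70656021), (288, 33, 258, 67523361, 70656261), (291, 288, 288, 16983126, 1196901), (291, 288, 288, 16921926, 2176101)]
  [(288, 12), (291, 24)] = true := by
  decide +kernel

theorem t5_4_7_0 : chkF keys 1 3 p5_4_0 c5_7
  [(298, 1, 1, 106107936, 106053936), (23, 16, 16, 70260306, 35016756), (23, 16, 16, 70321701, 33968451), (23, 16, 16, 70260066, 19288116), (298, 1, 1, 106107456, 105988656), (23, 16, 16, 70320741, 17191491), (23, 16, 16, 70260006, 2511156), (23, 16, 16, 70320726, 1462851), (298, 1, 1, 106107396, 105923121)]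
  [(23, 24), (298, 12)] = true := by
  decide +kernel

theorem t5_4_8_0 : chkF keys 1 3 p5_4_0 c5_8
  [(200, 1, 1, 104990001, 103093251), (141, 16, 16, 16983141, 16925541), (141, 16, 16, 16921686, 1193061), (141, 16, 16, 16983621, 33637221), (200, 1, 1, 104989521, 102048771), (141, 16, 16, 1193286, 2176086), (141, 16, 16, 1254996, 34620246), (141, 16, 16, 1193316, 18887766), (200, 1, 1, 104989461, 101000211)]
  [(141, 24), (200, 12)] = true := by
  decide +kernel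

theorem t5_4_9_0 : chkF keys 1 3 p5_4_0 c5_9
  [(109, 16, 16, 16922196, 34616421), (104, 16, 16, 16983141, 16925541), (109, 16, 16, 16983621, 33637221), (109, 16, 16, 16921956, 18887781), (109, 16, 16, 16983141, 16925541), (104, 16, 16, 16983621, 33637221), (104, 16, 16, 16983636, 34620261), (109, 16, 16, 16983126, 1196901), (109, 16, 16, 16921926, 2176101)]
  [(104, 12), (109, 24)] = true := by
  decide +kernel

theorem t5_4_10_0 : chkF keys 1 3 p5_4_0 c5_10
  [(137, 1, 1, 105915411, 106038036), (137, 1, 1, 106038321, 106042371), (104, 16, 16, 67314021, 17187621), (137, 1, 1, 105914691, 105972516), (104, 16, 16, 67315221, 33964821), (137, 1, 1, 106038081, 105980931), (104, 16, 16, 67315281, 35013381), (137, 1, 1, 105914676, 105911076), (137, 1, 1, 106038036, 105915411)]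
  [(104, 12), (137, 24)] = true := by
  decide +kernel

theorem t5_4_11_0 : chkF keys 1 3 p5_4_0 c5_11
  [(173, 1, 1, 73536816, 86381616), (173, 1, 1, 73475331, 86377281), (194, 16, 16, 85139526, 6374226), (173, 1, 1, 73536336, 85337136), (194, 16, 16, 85140486, 6439761), (173, 1, 1, 73474131, 85328706), (194, 16, 16, 85140576, 23216976), (173, 1, 1, 73536261, 84288561), (173, 1, 1, 73474101, 84284226)]
  [(173, 24), (194, 12)] = true := by
  decide +kernel

theorem t5_4_12_0 : chkF keys 1 3 p5_4_0 c5_12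
  [(57, 1, 1, 5317380, 5251905), (57, 1, 1, 5378880, 5317680), (122, 1, 1, 5375025, 5379075), (57, 1, 1, 5316660, 5247810), (122, 1, 1, 5374785, 5317635), (57, 1, 1, 5379120, 5379120), (122, 1, 1, 5374740, 5252115), (57, 1, 1, 5316675, 5309250), (57, 1, 1, 5379075, 5375025)]
  [(57, 24), (122, 12)] = true := by
  decide +kernel

theorem t5_4_13_0 : chkF keys 1 3 p5_4_0 c5_13
  [(299, 1, 1, 106107936, 106053936), (22, 1, 1, 70391136, 19289136), (22, 1, 1, 70329606, 2511681), (22, 1, 1, 70391376, 35017776), (299, 1, 1, 106107456, 105988656), (22, 1, 1, 70328406, 1463106), (22, 1, 1, 70391301, 33969201), (22, 1, 1, 70328421, 17191746), (299, 1, 1, 106107396, 105923121)]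
  [(22, 24), (299, 12)] = true := by
  decide +kernel

theorem t5_4_14_0 : chkF keys 1 3 p5_4_0 c5_14
  [(169, 1, 1, 88282656, 40190256), (173, 1, 1, 88217136, 40178736), (173, 1, 1, 88155651, 40174401), (173, 1, 1, 88216416, 23405616), (169, 1, 1, 88281696, 23413296), (173, 1, 1, 88154211, 23397186), (173, 1, 1, 88216326, 6628401), (173, 1, 1, 88154166, 6624066), (169, 1, 1, 88281606, 6636081)]
  [(169, 12), (173, 24)] = true := by
  decide +kernel

theorem t5_4_15_0 : chkF keys 1 3 p5_4_0 c5_15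
  [(171, 1, 1, 5444640, 5390640), (57, 1, 1, 3220740, 2118465), (57, 1, 1, 3282240, 2184240), (57, 1, 1, 3219540, 1069890), (171, 1, 1, 5444160, 5325360), (57, 1, 1, 3282000, 1201200), (57, 1, 1, 3219525, 86850), (57, 1, 1, 3281925, 152625), (171, 1, 1, 5444100, 5259825)]
  [(57, 24), (171, 12)] = true := by
  decide +kernel

theorem t5_4_16_0 : chkF keys 1 3 p5_4_0 c5_16
  [(179, 1, 1, 201760, 147760), (35, 1, 1, 136000, 74800), (35, 1, 1, 74500, 9025), (35, 1, 1, 136240, 136240), (179, 1, 1, 201280, 82480), (35, 1, 1, 73780, 4930), (35, 1, 1, 136195, 132145), (35, 1, 1, 73795, 66370), (179, 1, 1, 201220, 16945)]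
  [(35, 24), (179, 12)] = true := by
  decide +kernel

theorem t5_4_17_0 : chkF keys 1 3 p5_4_0 c5_17
  [(153, 16, 16, 4261170, 2428995), (163, 16, 16, 3150930, 1200180), (163, 16, 16, 3212325, 151875), (163, 16, 16, 3151170, 2183220), (153, 16, 16, 4260690, 1384515), (163, 16, 16, 3211845, 86595), (163, 16, 16, 3151140, 2117940), (163, 16, 16, 3211860, 1069635), (153, 16, 16, 4260645, 336195)]
  [(153, 12), (163, 24)] = true := by
  decide +kernel

theorem t5_4_18_0 : chkF keys 1 3 p5_4_0 c5_18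
  [(300, 513, 513, 106107936, 106053936), (215, 33, 258, 17064786, 51650661), (300, 513, 513, 105985026, 106049601), (215, 33, 258, 17187621, 67314021), (212, 33, 258, 17064531, 51642981), (212, 33, 258, 17187381, 67310181), (215, 33, 258, 17065266, 52695141), (300, 513, 513, 106107456, 105988656), (212, 33, 258, 17065251, 52691301), (212, 33, 258, 17187621, 67314021), (300, 513, 513, 105984066, 105984066), (215, 33, 258, 17187381, 67310181), (212, 33, 258, 17065266, 52695141), (212, 33, 258, 17187666, 68362341), (215, 33, 258, 17065251, 52691301), (300, 513, 513, 106107396, 105923121), (215, 33, 258, 17187411, 68354661), (300, 513, 513, 105984036, 105918786)]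
  [(212, 12), (215, 12), (300, 12)] = true := by
  decide +kernel

theorem t5_4_19_0 : chkF keys 1 3 p5_4_0 c5_19
  [(291, 288, 288, 100806996, 101725221), (291, 288, 288, 6496581, 83968806), (301, 513, 513, 106107936, 106053936), (289, 18, 18, 35013456, 68363856), (301, 513, 513, 105985026, 106049601), (289, 18, 18, 34890501, 50603601), (301, 513, 513, 106107456, 105988656), (289, 18, 18, 35013936, 69408336), (291, 288, 288, 100807956, 102773781), (291, 288, 288, 6497301, 84034326), (289, 33, 258, 50684436, 54551061), (301, 513, 513, 90255426, 90255426), (289, 33, 258, 50746401, 70410501), (301, 513, 513, 90378756, 90194481), (289, 33, 258, 50684481, 54616581), (301, 513, 513, 90255396, 90190146), (291, 288, 288, 100808001, 102839301), (291, 288, 288, 6497361, 85082886)]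
  [(289, 12), (291, 12), (301, 12)] = true := by
  decide +kernel

theorem t5_4_20_0 : chkF keys 1 3 p5_4_0 c5_20
  [(199, 1, 1, 73409811, 86377236), (173, 16, 16, 70260066, 19288116), (199, 1, 1, 73532721, 86381571), (173, 16, 16, 70321446, 2511171), (115, 16, 16, 67314021, 17187621), (115, 16, 16, 67252566, 1455141), (173, 16, 16, 70260306, 35016756), (199, 1, 1, 73408851, 85328676), (115, 16, 16, 67315221, 33964821), (115, 16, 16, 67253526, 2503701), (199, 1, 1, 73532241, 85337091), (173, 16, 16, 70320726, 1462851), (115, 16, 16, 67315281, 35013381), (115, 16, 16, 67253601, 19280901), (173, 16, 16, 70260261, 33968436), (199, 1, 1, 73408821, 84284196), (173, 16, 16, 70320741, 17191491), (199, 1, 1, 73532181, 84288531)]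
  [(115, 12), (173, 12), (199, 12)] = true := by
  decide +kernel

theorem t5_4_21_0 : chkF keys 1 3 p5_4_0 c5_21
  [(176, 1, 1, 90313776, 90313776), (137, 1, 1, 72361491, 39191316), (176, 1, 1, 90252291, 90309441), (137, 1, 1, 72484401, 39195651), (109, 16, 16, 100806996, 101725221), (109, 16, 16, 100868421, 100746021), (137, 1, 1, 72360291, 22414116), (176, 1, 1, 90313536, 90252336), (109, 16, 16, 100807956, 102773781), (109, 16, 16, 100869141, 100811541), (176, 1, 1, 90251331, 90243906), (137, 1, 1, 72483681, 22422531), (109, 16, 16, 100808001, 102839301), (109, 16, 16, 100869201, 101860101), (137, 1, 1, 72360246, 5640996), (176, 1, 1, 90313476, 90186801), (137, 1, 1, 72483606, 5645331), (176, 1, 1, 90251316, 90182466)]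
  [(109, 12), (137, 12), (176, 12)] = true := by
  decide +kernel

theorem t5_4_22_0 : chkF keys 1 3 p5_4_0 c5_22
  [(182, 1, 1, 5379120, 5379120), (57, 16, 16, 271185, 1319685), (182, 1, 1, 5317635, 5374785), (57, 16, 16, 148245, 205845), (52, 16, 16, 274770, 1323045), (52, 16, 16, 213285, 213285), (57, 16, 16, 271665, 2364165), (182, 1, 1, 5378880, 5317680), (52, 16, 16, 275730, 2371605), (52, 16, 16, 213525, 213525), (182, 1, 1, 5316675, 5309250), (57, 16, 16, 147765, 201765), (52, 16, 16, 275745, 2371845), (52, 16, 16, 213585, 1262085), (57, 16, 16, 271635, 2360085), (182, 1, 1, 5378820, 5252145), (57, 16, 16, 147795, 1246245), (182, 1, 1, 5316660, 5247810)]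
  [(52, 12), (57, 12), (182, 12)] = true := by
  decide +kernel

theorem t5_5_5_0 : chkF keys 1 3 p5_5_0 c5_5
  [(286, 528, 528, 38879331, 22218306), (213, 513, 513, 54920466, 69558291), (213, 513, 513, 54920481, 69558531), (213, 513, 513, 54919506, 68509731), (286, 528, 528, 38880771, 38995521), (213, 513, 513, 54919761, 68510211), (213, 513, 513, 54919461, 67461411), (213, 513, 513, 54919701, 67461651), (286, 528, 528, 38880816, 38999616)]
  [(213, 24), (286, 12)] = true := by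
  decide +kernel

theorem t5_5_6_0 : chkF keys 1 3 p5_5_0 c5_6
  [(294, 288, 288, 52514886, 3237186), (207, 258, 33, 56951841, 88236291), (294, 288, 288, 52514916, 19948866), (294, 288, 288, 52515846, 3302721), (294, 288, 288, 52516356, 36726081), (207, 258, 33, 56951361, 88171011), (207, 258, 33, 56951316, 88105491), (294, 288, 288, 52516416, 36791616), (294, 288, 288, 52515936, 20079936)]
  [(207, 12), (294, 24)] = true := by
  decide +kernel

theorem t5_5_7_0 : chkF keys 1 3 p5_5_0 c5_7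
  [(75, 1, 1, 88278561, 40190211), (26, 16, 16, 16994916, 19939941), (26, 16, 16, 16994886, 3228261), (26, 16, 16, 16995876, 36716901), (75, 1, 1, 88277601, 23413251), (26, 16, 16, 16995366, 3293541), (26, 16, 16, 16995906, 36782181), (26, 16, 16, 16995426, 20070501), (75, 1, 1, 88277526, 6636051)]
  [(26, 24), (75, 12)] = true := by
  decide +kernel

theorem t5_5_8_0 : chkF keys 1 3 p5_5_0 c5_8
  [(146, 1, 1, 87426081, 73552131), (82, 1, 1, 104137761, 105009411), (82, 1, 1, 104137746, 105009171), (82, 1, 1, 104137281, 104944131), (146, 1, 1, 87425601, 73486851), (82, 1, 1, 56951106, 88170531), (82, 1, 1, 56951316, 88105491), (82, 1, 1, 56951076, 88105251), (146, 1, 1, 87425556, 73421331)]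
  [(82, 24), (146, 12)] = true := by
  decide +kernel

theorem t5_5_9_0 : chkF keys 1 3 p5_5_0 c5_9
  [(114, 16, 16, 36786246, 3233346), (76, 1, 1, 88278561, 40190211), (114, 16, 16, 36786276, 19945026), (114, 16, 16, 36787206, 3298881), (114, 16, 16, 36787716, 36722241), (76, 1, 1, 88277601, 23413251), (76, 1, 1, 88277526, 6636051), (114, 16, 16, 36787776, 36787776), (114, 16, 16, 36787296, 20076096)]
  [(76, 12), (114, 24)] = true := by
  decide +kernel

theorem t5_5_10_0 : chkF keys 1 3 p5_5_0 c5_10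
  [(107, 16, 16, 102846531, 103875906), (107, 16, 16, 102846516, 103814466), (73, 1, 1, 55968801, 72507651), (107, 16, 16, 102847491, 103941441), (73, 1, 1, 55968321, 72442371), (107, 16, 16, 102847236, 103818561), (73, 1, 1, 55968276, 72376851), (107, 16, 16, 102847536, 103945536), (107, 16, 16, 102847296, 103884096)]
  [(73, 12), (107, 24)] = true := by
  decide +kernel

theorem t5_5_11_0 : chkF keys 1 3 p5_5_0 c5_11
  [(113, 16, 16, 69292131, 20317506), (113, 16, 16, 69292086, 3544386), (100, 16, 16, 69292131, 20317506), (113, 16, 16, 69293571, 37094721), (100, 16, 16, 69293571, 37094721), (113, 16, 16, 69292806, 3548481), (100, 16, 16, 69293616, 37098816), (113, 16, 16, 69293616, 37098816), (113, 16, 16, 69292896, 20325696)]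
  [(100, 12), (113, 24)] = true := by
  decide +kernel

theorem t5_5_12_0 : chkF keys 1 3 p5_5_0 c5_12
  [(53, 16, 16, 5320740, 5255490), (53, 16, 16, 5320770, 5320770), (77, 1, 1, 5440545, 5390595), (53, 16, 16, 5321220, 5255745), (77, 1, 1, 5440065, 5325315), (53, 16, 16, 5321730, 5386305), (77, 1, 1, 5440020, 5259795), (53, 16, 16, 5321280, 5321280), (53, 16, 16, 5321760, 5386560)]
  [(53, 24), (77, 12)] = true := by
  decide +kernel

theorem t5_5_13_0 : chkF keys 1 3 p5_5_0 c5_13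
  [(186, 1, 1, 70653216, 69620016), (17, 1, 1, 70648401, 68571651), (17, 1, 1, 70648341, 67523091), (17, 1, 1, 70649121, 69619971), (186, 1, 1, 70652496, 68571696), (17, 1, 1, 70648101, 67522851), (17, 1, 1, 70649106, 69619731), (17, 1, 1, 70648146, 68571171), (186, 1, 1, 70652421, 67523121)]
  [(17, 24), (186, 12)] = true := by
  decide +kernel

theorem t5_5_14_0 : chkF keys 1 3 p5_5_0 c5_14
  [(106, 16, 16, 104943666, 104140866), (99, 16, 16, 104943666, 104140866), (99, 16, 16, 104943651, 104137026), (99, 16, 16, 104944386, 104144961), (106, 16, 16, 104944386, 104144961), (99, 16, 16, 104944131, 104137281), (99, 16, 16, 104944416, 104145216), (99, 16, 16, 104944176, 104141376), (106, 16, 16, 104944416, 104145216)]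
  [(99, 24), (106, 12)] = true := by
  decide +kernel

theorem t5_5_15_0 : chkF keys 1 3 p5_5_0 c5_15
  [(108, 16, 16, 4280370, 3477570), (86, 1, 1, 3474450, 4345875), (86, 1, 1, 3474465, 4346115), (86, 1, 1, 3473730, 4280355), (108, 16, 16, 4281090, 3481665), (86, 1, 1, 3473985, 4280835), (86, 1, 1, 3473700, 4215075), (86, 1, 1, 3473940, 4215315), (108, 16, 16, 4281120, 3481920)]
  [(86, 24), (108, 12)] = true := by
  decide +kernel

theorem t5_5_16_0 : chkF keys 1 3 p5_5_0 c5_16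
  [(133, 1, 1, 267040, 270640), (34, 1, 1, 262705, 266755), (34, 1, 1, 262675, 262675), (34, 1, 1, 262945, 270595), (133, 1, 1, 266800, 266800), (34, 1, 1, 262435, 262435), (34, 1, 1, 262930, 270355), (34, 1, 1, 262450, 266275), (133, 1, 1, 266755, 262705)]
  [(34, 24), (133, 12)] = true := by
  decide +kernel

theorem t5_5_17_0 : chkF keys 1 3 p5_5_0 c5_17
  [(160, 16, 16, 4280370, 3477570), (302, 1, 1, 5509920, 5513520), (302, 1, 1, 5509890, 5513265), (302, 1, 1, 5509680, 5509680), (160, 16, 16, 4281090, 3481665), (302, 1, 1, 5509170, 5509170), (302, 1, 1, 5509635, 5505585), (302, 1, 1, 5509155, 5505330), (160, 16, 16, 4281120, 3481920)]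
  [(160, 12), (302, 24)] = true := by
  decide +kernel

theorem t5_5_18_0 : chkF keys 1 3 p5_5_0 c5_18
  [(303, 513, 513, 106173216, 106176816), (210, 258, 33, 87426081, 73552131), (303, 513, 513, 106173186, 106176561), (210, 258, 33, 87426066, 73551891), (211, 513, 513, 54920481, 69558531), (211, 513, 513, 54920466, 69558291), (210, 258, 33, 87425601, 73486851), (303, 513, 513, 106172976, 106172976), (211, 513, 513, 54919761, 68510211), (211, 513, 513, 54919506, 68509731), (303, 513, 513, 106172466, 106172466), (210, 258, 33, 87425346, 73486371), (211, 513, 513, 54919701, 67461651), (211, 513, 513, 54919461, 67461411), (210, 258, 33, 87425556, 73421331), (303, 513, 513, 106172931, 106168881), (210, 258, 33, 87425316, 73421091), (303, 513, 513, 106172451, 106168626)]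
  [(210, 12), (211, 12), (303, 12)] = true := by
  decide +kernel

theorem t5_5_19_0 : chkF keys 1 3 p5_5_0 c5_19
  [(211, 288, 288, 101859411, 101909586), (211, 288, 288, 23216181, 84087906), (293, 288, 288, 70340646, 3559746), (215, 258, 33, 104137761, 105009411), (293, 288, 288, 70340706, 20336706), (215, 258, 33, 104137746, 105009171), (293, 288, 288, 70341126, 3560001), (215, 258, 33, 104137281, 104944131), (211, 288, 288, 101860611, 102958161), (211, 288, 288, 23216901, 84092001), (215, 258, 33, 56951106, 88170531), (293, 288, 288, 54613506, 37052481), (215, 258, 33, 56951316, 88105491), (293, 288, 288, 54612576, 20275776), (215, 258, 33, 56951076, 88105251), (293, 288, 288, 54613536, 37052736), (211, 288, 288, 101860656, 102962256), (211, 288, 288, 23216976, 85140576)]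
  [(211, 12), (215, 12), (293, 12)] = true := by
  decide +kernel

theorem t5_5_20_0 : chkF keys 1 3 p5_5_0 c5_20
  [(147, 1, 1, 55968786, 72507411), (96, 1, 1, 70649106, 69619731), (147, 1, 1, 55968801, 72507651), (96, 1, 1, 70649121, 69619971), (80, 1, 1, 55968801, 72507651), (80, 1, 1, 55968786, 72507411), (96, 1, 1, 70648146, 68571171), (147, 1, 1, 55968066, 72441891), (80, 1, 1, 55968321, 72442371), (80, 1, 1, 55968066, 72441891), (147, 1, 1, 55968321, 72442371), (96, 1, 1, 70648401, 68571651), (80, 1, 1, 55968276, 72376851), (80, 1, 1, 55968036, 72376611), (96, 1, 1, 70648101, 67522851), (147, 1, 1, 55968036, 72376611), (96, 1, 1, 70648341, 67523091), (147, 1, 1, 55968276, 72376851)]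
  [(80, 12), (96, 12), (147, 12)] = true := by
  decide +kernel

theorem t5_5_21_0 : chkF keys 1 3 p5_5_0 c5_21
  [(112, 16, 16, 70340706, 20336706), (85, 1, 1, 56951826, 88236051), (112, 16, 16, 70340646, 3559746), (85, 1, 1, 56951841, 88236291), (81, 16, 16, 101859411, 101909586), (81, 16, 16, 101859381, 100865106), (85, 1, 1, 56951106, 88170531), (112, 16, 16, 70342146, 37113921), (81, 16, 16, 101860611, 102958161), (81, 16, 16, 101860101, 100869201), (112, 16, 16, 70341126, 3560001), (85, 1, 1, 56951361, 88171011), (81, 16, 16, 101860656, 102962256), (81, 16, 16, 101860176, 101917776), (85, 1, 1, 56951076, 88105251), (112, 16, 16, 70342176, 37114176), (85, 1, 1, 56951316, 88105491), (112, 16, 16, 70341216, 20337216)]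
  [(81, 12), (85, 12), (112, 12)] = true := by
  decide +kernel

theorem t5_5_22_0 : chkF keys 1 3 p5_5_0 c5_22
  [(135, 1, 1, 4396290, 2441265), (48, 1, 1, 3478560, 4346160), (135, 1, 1, 4396320, 2441520), (48, 1, 1, 3478530, 4345905), (47, 1, 1, 3478560, 4346160), (47, 1, 1, 3478530, 4345905), (48, 1, 1, 3478080, 4280880), (135, 1, 1, 4395090, 1392690), (47, 1, 1, 3478080, 4280880), (47, 1, 1, 3477570, 4280370), (135, 1, 1, 4395600, 1393200), (48, 1, 1, 3477570, 4280370), (47, 1, 1, 3478020, 4215345), (47, 1, 1, 3477540, 4215090), (48, 1, 1, 3478020, 4215345), (135, 1, 1, 4395045, 344370), (48, 1, 1, 3477540, 4215090), (135, 1, 1, 4395525, 344625)]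
  [(47, 12), (48, 12), (135, 12)] = true := by
  decide +kernel

theorem t5_6_6_0 : chkF keys 1 3 p5_6_0 c5_6
  [(304, 513, 513, 106173216, 106176816), (289, 528, 528, 52495716, 18900291), (289, 528, 528, 52495956, 34628931), (289, 528, 528, 52495461, 16934211), (304, 513, 513, 106172466, 106172466), (289, 528, 528, 52495446, 1205571), (289, 528, 528, 52495941, 33645891), (289, 528, 528, 52495686, 2188611), (304, 513, 513, 106173186, 106176561)]
  [(289, 24), (304, 12)] = true := by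
  decide +kernel

theorem t5_6_7_0 : chkF keys 1 3 p5_6_0 c5_7
  [(27, 16, 16, 16983636, 34620261), (27, 16, 16, 16983396, 18891621), (88, 1, 1, 88482051, 73728801), (88, 1, 1, 88482576, 73736976), (27, 16, 16, 16983141, 16925541), (27, 16, 16, 16983126, 1196901), (27, 16, 16, 16983621, 33637221), (88, 1, 1, 88482096, 73732896), (27, 16, 16, 16983366, 2179941)]
  [(27, 24), (88, 12)] = true := by
  decide +kernel

theorem t5_6_8_0 : chkF keys 1 3 p5_6_0 c5_8
  [(117, 1, 1, 73740546, 88485921), (117, 1, 1, 73740306, 88485906), (150, 1, 1, 73736451, 88474401), (150, 1, 1, 73736976, 88482576), (117, 1, 1, 105198096, 105198096), (117, 1, 1, 105198081, 105198081), (117, 1, 1, 105197856, 105197856), (150, 1, 1, 73736496, 88478496), (117, 1, 1, 73740321, 88486146)]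
  [(117, 24), (150, 12)] = true := by
  decide +kernel

theorem t5_6_9_0 : chkF keys 1 3 p5_6_0 c5_9
  [(192, 16, 16, 52495686, 2188611), (105, 16, 16, 16921701, 16921701), (105, 16, 16, 16922181, 33633381), (105, 16, 16, 16921956, 18887781), (192, 16, 16, 52495956, 34628931), (105, 16, 16, 16921926, 2176101), (105, 16, 16, 16922196, 34616421), (105, 16, 16, 16921686, 1193061), (192, 16, 16, 52495716, 18900291)]
  [(105, 24), (192, 12)] = true := by
  decide +kernel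

theorem t5_6_10_0 : chkF keys 1 3 p5_6_0 c5_10
  [(23, 1, 1, 103089201, 104994051), (121, 1, 1, 106176771, 106169121), (121, 1, 1, 106176531, 106169106), (121, 1, 1, 106177296, 106177296), (121, 1, 1, 106177281, 106177281), (23, 1, 1, 103088451, 104924451), (121, 1, 1, 106176816, 106173216), (23, 1, 1, 103089171, 104989971), (121, 1, 1, 106176561, 106173186)]
  [(23, 12), (121, 24)] = true := by
  decide +kernel

theorem t5_6_11_0 : chkF keys 1 3 p5_6_0 c5_11
  [(193, 16, 16, 87098946, 39931971), (191, 16, 16, 87098406, 6443331), (191, 16, 16, 87097926, 6378051), (191, 16, 16, 87098946, 39931971), (191, 16, 16, 87098916, 39866691), (193, 16, 16, 87097956, 23089731), (191, 16, 16, 87098466, 23220291), (193, 16, 16, 87098916, 39866691), (191, 16, 16, 87097956, 23089731)]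
  [(191, 24), (193, 12)] = true := by
  decide +kernel

theorem t5_6_12_0 : chkF keys 1 3 p5_6_0 c5_12
  [(51, 1, 1, 3490050, 4411425), (55, 16, 16, 5309250, 5316675), (55, 16, 16, 5309490, 5378115), (55, 16, 16, 5308980, 5247555), (55, 16, 16, 5308995, 5308995), (51, 1, 1, 3490320, 4411920), (55, 16, 16, 5309220, 5251395), (51, 1, 1, 3490080, 4411680), (55, 16, 16, 5309475, 5374275)]
  [(51, 12), (55, 24)] = true := by
  decide +kernel

theorem t5_6_13_0 : chkF keys 1 3 p5_6_0 c5_13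
  [(22, 1, 1, 70583841, 38162691), (22, 1, 1, 70582881, 21385731), (190, 1, 1, 88474401, 73736451), (190, 1, 1, 88473906, 73732131), (22, 1, 1, 70582626, 21385251), (22, 1, 1, 70582566, 4608291), (22, 1, 1, 70583826, 38162451), (190, 1, 1, 88474386, 73736211), (22, 1, 1, 70582806, 4608531)]
  [(22, 24), (190, 12)] = true := by
  decide +kernel

theorem t5_6_14_0 : chkF keys 1 3 p5_6_0 c5_14
  [(173, 1, 1, 88474401, 73736451), (173, 1, 1, 88474161, 73732611), (174, 1, 1, 88474401, 73736451), (174, 1, 1, 88473906, 73732131), (173, 1, 1, 88473906, 73732131), (173, 1, 1, 88473891, 73728291), (173, 1, 1, 88474386, 73736211), (174, 1, 1, 88474386, 73736211), (173, 1, 1, 88474131, 73728531)]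
  [(173, 24), (174, 12)] = true := by
  decide +kernel

theorem t5_6_15_0 : chkF keys 1 3 p5_6_0 c5_15
  [(57, 1, 1, 3489810, 4411410), (57, 1, 1, 3490050, 4411425), (138, 1, 1, 4522785, 4530435), (138, 1, 1, 4522290, 4526115), (57, 1, 1, 3490305, 4411905), (57, 1, 1, 3490320, 4411920), (57, 1, 1, 3489825, 4411650), (138, 1, 1, 4522770, 4530195), (57, 1, 1, 3490080, 4411680)]
  [(57, 24), (138, 12)] = true := by
  decide +kernel

theorem t5_6_16_0 : chkF keys 1 3 p5_6_0 c5_16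
  [(35, 1, 1, 197665, 147715), (35, 1, 1, 197185, 82435), (142, 1, 1, 262945, 270595), (142, 1, 1, 262450, 266275), (35, 1, 1, 196930, 81955), (35, 1, 1, 196900, 16675), (35, 1, 1, 197650, 147475), (142, 1, 1, 262930, 270355), (35, 1, 1, 197140, 16915)]
  [(35, 24), (142, 12)] = true := by
  decide +kernel

theorem t5_6_17_0 : chkF keys 1 3 p5_6_0 c5_17
  [(167, 16, 16, 4261170, 2428995), (167, 16, 16, 4260690, 1384515), (33, 16, 16, 3212610, 2183235), (33, 16, 16, 3211860, 1069635), (167, 16, 16, 4260435, 1376835), (167, 16, 16, 4260405, 332355), (167, 16, 16, 4261155, 2425155), (33, 16, 16, 3212580, 2117955), (167, 16, 16, 4260645, 336195)]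
  [(33, 12), (167, 24)] = true := by
  decide +kernel

theorem t5_6_18_0 : chkF keys 1 3 p5_6_0 c5_18
  [(290, 513, 513, 72757506, 72757281), (290, 513, 513, 72757266, 72757266), (215, 18, 18, 33899286, 4400661), (293, 513, 513, 106169121, 106176771), (215, 18, 18, 33898806, 4396581), (293, 513, 513, 106168881, 106172931), (293, 513, 513, 106168626, 106172451), (215, 18, 18, 33900081, 37950981), (293, 513, 513, 106168611, 106168611), (215, 18, 18, 33900051, 37946901), (290, 513, 513, 72757776, 72757776), (290, 513, 513, 72757761, 72757761), (215, 18, 18, 33899361, 21177861), (293, 513, 513, 106169106, 106176531), (290, 513, 513, 72757536, 72757536), (290, 513, 513, 72757281, 72757506), (293, 513, 513, 106168851, 106168851), (215, 18, 18, 33898851, 21169701)]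
  [(215, 12), (290, 12), (293, 12)] = true := by
  decide +kernel

theorem t5_6_19_0 : chkF keys 1 3 p5_6_0 c5_19
  [(287, 528, 528, 102826836, 101721411), (295, 528, 528, 39912276, 84944451), (287, 528, 528, 102827316, 102765891), (295, 528, 528, 39912756, 85988931), (217, 528, 528, 86049891, 23201091), (217, 528, 528, 38864451, 38864451), (217, 528, 528, 86049606, 6366531), (217, 528, 528, 38863716, 22029891), (295, 528, 528, 102827061, 100799811), (287, 528, 528, 39912501, 84022851), (295, 528, 528, 102827091, 101844291), (287, 528, 528, 39912531, 85067331), (295, 528, 528, 102826821, 100738371), (287, 528, 528, 39912261, 83961411), (217, 528, 528, 86049846, 6427971), (217, 528, 528, 38864436, 38803011), (287, 528, 528, 102827331, 102827331), (295, 528, 528, 39912771, 86050371)]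
  [(217, 12), (287, 12), (295, 12)] = true := by
  decide +kernel

theorem t5_6_20_0 : chkF keys 1 3 p5_6_0 c5_20
  [(115, 1, 1, 72757506, 72757281), (115, 1, 1, 72757266, 72757266), (149, 1, 1, 73728801, 88482051), (148, 1, 1, 72753411, 72745761), (149, 1, 1, 73728561, 88478211), (148, 1, 1, 72753171, 72745746), (148, 1, 1, 72753936, 72753936), (149, 1, 1, 73728306, 88477731), (148, 1, 1, 72753921, 72753921), (149, 1, 1, 73728291, 88473891), (115, 1, 1, 72757776, 72757776), (115, 1, 1, 72757761, 72757761), (149, 1, 1, 73728786, 88481811), (148, 1, 1, 72753456, 72749856), (115, 1, 1, 72757536, 72757536), (115, 1, 1, 72757281, 72757506), (148, 1, 1, 72753201, 72749826), (149, 1, 1, 73728531, 88474131)]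
  [(115, 12), (148, 12), (149, 12)] = true := by
  decide +kernel

theorem t5_6_21_0 : chkF keys 1 3 p5_6_0 c5_21
  [(141, 1, 1, 72757506, 72757281), (141, 1, 1, 72757266, 72757266), (139, 1, 1, 72753411, 72745761), (140, 1, 1, 73728801, 88482051), (139, 1, 1, 72753171, 72745746), (140, 1, 1, 73728561, 88478211), (140, 1, 1, 73728306, 88477731), (139, 1, 1, 72753936, 72753936), (140, 1, 1, 73728291, 88473891), (139, 1, 1, 72753921, 72753921), (141, 1, 1, 72757776, 72757776), (141, 1, 1, 72757761, 72757761), (139, 1, 1, 72753456, 72749856), (140, 1, 1, 73728786, 88481811), (141, 1, 1, 72757536, 72757536), (141, 1, 1, 72757281, 72757506), (140, 1, 1, 73728531, 88474131), (139, 1, 1, 72753201, 72749826)]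
  [(139, 12), (140, 12), (141, 12)] = true := by
  decide +kernel

theorem t5_6_22_0 : chkF keys 1 3 p5_6_0 c5_22
  [(52, 1, 1, 2441475, 4392225), (52, 1, 1, 2441235, 4392210), (54, 1, 1, 2441475, 4392225), (143, 1, 1, 5505825, 5513475), (54, 1, 1, 2441235, 4392210), (143, 1, 1, 5505585, 5509635), (143, 1, 1, 5505330, 5509155), (54, 1, 1, 2442000, 4400400), (143, 1, 1, 5505315, 5505315), (54, 1, 1, 2441985, 4400385), (52, 1, 1, 2442000, 4400400), (52, 1, 1, 2441985, 4400385), (54, 1, 1, 2441520, 4396320), (143, 1, 1, 5505810, 5513235), (52, 1, 1, 2441520, 4396320), (52, 1, 1, 2441265, 4396290), (143, 1, 1, 5505555, 5505555), (54, 1, 1, 2441265, 4396290)]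
  [(52, 12), (54, 12), (143, 12)] = true := by
  decide +kernel

theorem t5_7_7_0 : chkF keys 1 3 p5_7_0 c5_7
  [(305, 0, 0, 105972786, 106041411), (227, 0, 0, 88147506, 40177731), (227, 0, 0, 88147491, 40173891), (227, 0, 0, 88146786, 23404611), (305, 0, 0, 105972546, 105979971), (227, 0, 0, 88146531, 23396931), (227, 0, 0, 88146726, 6627651), (227, 0, 0, 88146486, 6623811), (305, 0, 0, 105972516, 105914691)]
  [(227, 24), (305, 12)] = true := by
  decide +kernel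

theorem t5_7_8_0 : chkF keys 1 3 p5_7_0 c5_8
  [(306, 0, 0, 105972786, 106041411), (228, 0, 0, 72418866, 39194691), (228, 0, 0, 72418851, 39190851), (228, 0, 0, 72418146, 22421571), (306, 0, 0, 105972546, 105979971), (228, 0, 0, 88146531, 23396931), (228, 0, 0, 88146726, 6627651), (228, 0, 0, 88146486, 6623811), (306, 0, 0, 105972516, 105914691)]
  [(228, 24), (306, 12)] = true := by
  decide +kernel

theorem t5_7_9_0 : chkF keys 1 3 p5_7_0 c5_9
  [(229, 0, 0, 88146726, 6627651), (232, 0, 0, 69272421, 17179971), (229, 0, 0, 88146786, 23404611), (229, 0, 0, 88146486, 6623811), (229, 0, 0, 88147506, 40177731), (232, 0, 0, 69273141, 33953091), (232, 0, 0, 69273171, 34997571), (229, 0, 0, 88147491, 40173891), (229, 0, 0, 88146531, 23396931)]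
  [(229, 24), (232, 12)] = true := by
  decide +kernel

theorem t5_7_10_0 : chkF keys 1 3 p5_7_0 c5_10
  [(228, 0, 0, 104923941, 100999491), (228, 0, 0, 104923986, 102047811), (232, 0, 0, 52495461, 16934211), (228, 0, 0, 104923701, 100995651), (232, 0, 0, 52495941, 33645891), (228, 0, 0, 104924466, 103092291), (232, 0, 0, 52495956, 34628931), (228, 0, 0, 104923731, 102040131), (228, 0, 0, 104924451, 103088451)]
  [(228, 24), (232, 12)] = true := by
  decide +kernel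

theorem t5_7_11_0 : chkF keys 1 3 p5_7_0 c5_11
  [(229, 0, 0, 38863716, 22029891), (229, 0, 0, 38863686, 5318211), (307, 0, 0, 105972786, 106041411), (229, 0, 0, 38864436, 38803011), (307, 0, 0, 105972546, 105979971), (229, 0, 0, 38863926, 5379651), (307, 0, 0, 105972516, 105914691), (229, 0, 0, 38864451, 38864451), (229, 0, 0, 38863971, 22152771)]
  [(229, 24), (307, 12)] = true := by
  decide +kernel

theorem t5_7_12_0 : chkF keys 1 3 p5_7_0 c5_12
  [(231, 0, 0, 5309220, 5251395), (231, 0, 0, 5309250, 5316675), (250, 0, 0, 3211860, 1069635), (231, 0, 0, 5308980, 5247555), (250, 0, 0, 3212580, 2117955), (231, 0, 0, 5309490, 5378115), (250, 0, 0, 3212610, 2183235), (231, 0, 0, 5308995, 5308995), (231, 0, 0, 5309475, 5374275)]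
  [(231, 24), (250, 12)] = true := by
  decide +kernel

theorem t5_7_13_0 : chkF keys 1 3 p5_7_0 c5_13
  [(305, 0, 0, 52495461, 16934211), (232, 0, 0, 105972786, 106041411), (232, 0, 0, 105972771, 106037571), (232, 0, 0, 105972546, 105979971), (305, 0, 0, 52495941, 33645891), (232, 0, 0, 105972291, 105972291), (232, 0, 0, 105972516, 105914691), (232, 0, 0, 105972276, 105910851), (305, 0, 0, 52495956, 34628931)]
  [(232, 24), (305, 12)] = true := by
  decide +kernel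

theorem t5_7_14_0 : chkF keys 1 3 p5_7_0 c5_14
  [(227, 0, 0, 52495956, 34628931), (229, 0, 0, 52495716, 18900291), (229, 0, 0, 52495686, 2188611), (229, 0, 0, 52495956, 34628931), (227, 0, 0, 52495716, 18900291), (229, 0, 0, 52495446, 1205571), (229, 0, 0, 52495941, 33645891), (229, 0, 0, 52495461, 16934211), (227, 0, 0, 52495686, 2188611)]
  [(227, 12), (229, 24)] = true := by
  decide +kernel

theorem t5_7_15_0 : chkF keys 1 3 p5_7_0 c5_15
  [(230, 0, 0, 3211860, 1069635), (231, 0, 0, 3212580, 2117955), (231, 0, 0, 3212610, 2183235), (231, 0, 0, 3211860, 1069635), (230, 0, 0, 3212580, 2117955), (231, 0, 0, 3212370, 1200195), (231, 0, 0, 3211845, 86595), (231, 0, 0, 3212325, 151875), (230, 0, 0, 3212610, 2183235)]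
  [(230, 12), (231, 24)] = true := by
  decide +kernel

theorem t5_7_16_0 : chkF keys 1 3 p5_7_0 c5_16
  [(249, 0, 0, 66115, 66115), (3, 0, 0, 66370, 73795), (3, 0, 0, 66340, 8515), (3, 0, 0, 66610, 135235), (249, 0, 0, 66595, 131395), (3, 0, 0, 66100, 4675), (3, 0, 0, 66595, 131395), (3, 0, 0, 66115, 66115), (249, 0, 0, 66610, 135235)]
  [(3, 24), (249, 12)] = true := by
  decide +kernel

theorem t5_7_17_0 : chkF keys 1 3 p5_7_0 c5_17
  [(234, 0, 0, 2163525, 75075), (308, 0, 0, 5309490, 5378115), (308, 0, 0, 5309475, 5374275), (308, 0, 0, 5309250, 5316675), (234, 0, 0, 2163765, 136515), (308, 0, 0, 5308995, 5308995), (308, 0, 0, 5309220, 5251395), (308, 0, 0, 5308980, 5247555), (234, 0, 0, 2163795, 1180995)]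
  [(234, 12), (308, 24)] = true := by
  decide +kernel

theorem t5_7_18_0 : chkF keys 1 3 p5_7_0 c5_18
  [(188, 1, 1, 1324386, 19148886), (84, 1, 1, 33900081, 37950981), (188, 1, 1, 1324326, 2371926), (84, 1, 1, 33900051, 37946901), (18, 1, 1, 17053026, 19148901), (18, 1, 1, 17052966, 2371941), (84, 1, 1, 33899361, 21177861), (188, 1, 1, 1324626, 34877526), (18, 1, 1, 17053266, 34877541), (18, 1, 1, 17052246, 1323621), (188, 1, 1, 1323606, 1323606), (84, 1, 1, 33898851, 21169701), (18, 1, 1, 17053221, 33829221), (18, 1, 1, 17052261, 17052261), (84, 1, 1, 33899286, 4400661), (188, 1, 1, 1324581, 33829206), (84, 1, 1, 33898806, 4396581), (188, 1, 1, 1323621, 17052246)]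
  [(18, 12), (84, 12), (188, 12)] = true := by
  decide +kernel

theorem t5_7_19_0 : chkF keys 1 3 p5_7_0 c5_19
  [(27, 16, 16, 102826836, 101721411), (27, 16, 16, 39912261, 83961411), (195, 1, 1, 19218531, 21169506), (192, 1, 1, 3490146, 21188646), (195, 1, 1, 19218486, 4396386), (192, 1, 1, 3490086, 4411686), (195, 1, 1, 19219971, 37946721), (192, 1, 1, 3491346, 37965846), (27, 16, 16, 102827316, 102765891), (27, 16, 16, 39912501, 84022851), (192, 1, 1, 50676246, 4416021), (195, 1, 1, 34947846, 4400721), (192, 1, 1, 50677281, 37970181), (195, 1, 1, 34948656, 37951056), (192, 1, 1, 50676321, 21193221), (195, 1, 1, 34947936, 21177936), (27, 16, 16, 102827331, 102827331), (27, 16, 16, 39912531, 85067331)]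
  [(27, 12), (192, 12), (195, 12)] = true := by
  decide +kernel

theorem t5_7_20_0 : chkF keys 1 3 p5_7_0 c5_20
  [(306, 0, 0, 56689701, 84042051), (228, 0, 0, 38863716, 22029891), (306, 0, 0, 56689746, 85090371), (228, 0, 0, 38863686, 5318211), (229, 0, 0, 104924466, 103092291), (229, 0, 0, 104924451, 103088451), (228, 0, 0, 38864436, 38803011), (306, 0, 0, 56689221, 83976771), (229, 0, 0, 104923986, 102047811), (229, 0, 0, 104923731, 102040131), (306, 0, 0, 56689986, 86073411), (228, 0, 0, 38863926, 5379651), (229, 0, 0, 104923941, 100999491), (229, 0, 0, 104923701, 100995651), (228, 0, 0, 38864451, 38864451), (306, 0, 0, 56689236, 84959811), (228, 0, 0, 38863971, 22152771), (306, 0, 0, 56689956, 86008131)]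
  [(228, 12), (229, 12), (306, 12)] = true := by
  decide +kernel

theorem t5_7_21_0 : chkF keys 1 3 p5_7_0 c5_21
  [(219, 0, 0, 102056736, 105062736), (228, 0, 0, 54593061, 33907011), (219, 0, 0, 102056706, 105062481), (228, 0, 0, 54593106, 34955331), (229, 0, 0, 54592806, 2449731), (229, 0, 0, 54592866, 19226691), (228, 0, 0, 54592101, 17130051), (219, 0, 0, 102056496, 105058896), (229, 0, 0, 54592086, 1401411), (229, 0, 0, 54593106, 34955331), (219, 0, 0, 102055986, 105058386), (228, 0, 0, 54592866, 19226691), (229, 0, 0, 54592101, 17130051), (229, 0, 0, 54593061, 33907011), (228, 0, 0, 54592086, 1401411), (219, 0, 0, 102056451, 105054801), (228, 0, 0, 54592806, 2449731), (219, 0, 0, 102055971, 105054546)]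
  [(219, 12), (228, 12), (229, 12)] = true := by
  decide +kernel

theorem t5_7_22_0 : chkF keys 1 3 p5_7_0 c5_22
  [(222, 0, 0, 1393440, 4399440), (233, 0, 0, 4261170, 2428995), (222, 0, 0, 1393410, 4399185), (233, 0, 0, 4261155, 2425155), (231, 0, 0, 4261170, 2428995), (231, 0, 0, 4261155, 2425155), (233, 0, 0, 4260690, 1384515), (222, 0, 0, 1393200, 4395600), (231, 0, 0, 4260690, 1384515), (231, 0, 0, 4260435, 1376835), (222, 0, 0, 1392690, 4395090), (233, 0, 0, 4260435, 1376835), (231, 0, 0, 4260645, 336195), (231, 0, 0, 4260405, 332355), (233, 0, 0, 4260645, 336195), (222, 0, 0, 1393155, 4391505), (233, 0, 0, 4260405, 332355), (222, 0, 0, 1392675, 4391250)]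
  [(222, 12), (231, 12), (233, 12)] = true := by
  decide +kernel

theorem t5_8_8_0 : chkF keys 1 3 p5_8_0 c5_8
  [(309, 0, 0, 105972786, 106041411), (235, 0, 0, 72357411, 39190836), (235, 0, 0, 72418866, 39194691), (235, 0, 0, 72356451, 22413876), (309, 0, 0, 105972546, 105979971), (235, 0, 0, 88146786, 23404611), (235, 0, 0, 88085046, 6623796), (235, 0, 0, 88146726, 6627651), (309, 0, 0, 105972516, 105914691)]
  [(235, 24), (309, 12)] = true := by
  decide +kernel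

theorem t5_8_9_0 : chkF keys 1 3 p5_8_0 c5_9
  [(245, 0, 0, 17053266, 34877541), (310, 0, 0, 105972786, 106041411), (245, 0, 0, 16991781, 33767781), (245, 0, 0, 17053026, 19148901), (245, 0, 0, 16990821, 16990821), (310, 0, 0, 105972546, 105979971), (310, 0, 0, 105972516, 105914691), (245, 0, 0, 16990806, 1262181), (245, 0, 0, 17052966, 2371941)]
  [(245, 24), (310, 12)] = true := by
  decide +kernel

theorem t5_8_10_0 : chkF keys 1 3 p5_8_0 c5_10
  [(238, 0, 0, 33830481, 34878981), (238, 0, 0, 33768981, 33768981), (310, 0, 0, 72418866, 39194691), (238, 0, 0, 33830241, 19150341), (310, 0, 0, 72418146, 22421571), (238, 0, 0, 33767781, 16991781), (310, 0, 0, 72418086, 5644611), (238, 0, 0, 33830166, 2373141), (238, 0, 0, 33767766, 1263141)]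
  [(238, 24), (310, 12)] = true := by
  decide +kernel

theorem t5_8_11_0 : chkF keys 1 3 p5_8_0 c5_11
  [(311, 0, 0, 105972786, 106041411), (311, 0, 0, 105911331, 106037556), (312, 0, 0, 105972786, 106041411), (311, 0, 0, 105972546, 105979971), (312, 0, 0, 105972546, 105979971), (311, 0, 0, 105910851, 105972276), (312, 0, 0, 105972516, 105914691), (311, 0, 0, 105972516, 105914691), (311, 0, 0, 105910836, 105910836)]
  [(311, 24), (312, 12)] = true := by
  decide +kernel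

theorem t5_8_12_0 : chkF keys 1 3 p5_8_0 c5_12
  [(252, 0, 0, 1254720, 2179920), (252, 0, 0, 1193220, 2110545), (313, 0, 0, 5309490, 5378115), (252, 0, 0, 1254480, 1196880), (313, 0, 0, 5309250, 5316675), (252, 0, 0, 1192020, 1061970), (313, 0, 0, 5309220, 5251395), (252, 0, 0, 1254405, 148305), (252, 0, 0, 1192005, 78930)]
  [(252, 24), (313, 12)] = true := by
  decide +kernel

theorem t5_8_13_0 : chkF keys 1 3 p5_8_0 c5_13
  [(314, 0, 0, 105972786, 106041411), (239, 0, 0, 105911331, 106037556), (239, 0, 0, 105972786, 106041411), (239, 0, 0, 105910851, 105972276), (314, 0, 0, 105972546, 105979971), (239, 0, 0, 105972546, 105979971), (239, 0, 0, 105910836, 105910836), (239, 0, 0, 105972516, 105914691), (314, 0, 0, 105972516, 105914691)]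
  [(239, 24), (314, 12)] = true := by
  decide +kernel

theorem t5_8_14_0 : chkF keys 1 3 p5_8_0 c5_14
  [(315, 0, 0, 105972786, 106041411), (311, 0, 0, 73467186, 86380611), (311, 0, 0, 73405731, 86376756), (311, 0, 0, 73466706, 85336131), (315, 0, 0, 105972546, 105979971), (311, 0, 0, 73405011, 85328436), (311, 0, 0, 73466661, 84287811), (311, 0, 0, 73404981, 84283956), (315, 0, 0, 105972516, 105914691)]
  [(311, 24), (315, 12)] = true := by
  decide +kernel

theorem t5_8_15_0 : chkF keys 1 3 p5_8_0 c5_15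
  [(316, 0, 0, 5309490, 5378115), (252, 0, 0, 5448000, 5325600), (252, 0, 0, 5386500, 5256225), (252, 0, 0, 5448720, 5391120), (316, 0, 0, 5309250, 5316675), (252, 0, 0, 5386260, 5256210), (252, 0, 0, 5448705, 5391105), (252, 0, 0, 5386305, 5321730), (316, 0, 0, 5309220, 5251395)]
  [(252, 24), (316, 12)] = true := by
  decide +kernel

theorem t5_8_16_0 : chkF keys 1 3 p5_8_0 c5_16
  [(317, 0, 0, 66610, 135235), (241, 0, 0, 5155, 131380), (241, 0, 0, 66610, 135235), (241, 0, 0, 4675, 66100), (317, 0, 0, 66370, 73795), (241, 0, 0, 66370, 73795), (241, 0, 0, 4660, 4660), (241, 0, 0, 66340, 8515), (317, 0, 0, 66340, 8515)]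
  [(241, 24), (317, 12)] = true := by
  decide +kernel

theorem t5_8_17_0 : chkF keys 1 3 p5_8_0 c5_17
  [(318, 0, 0, 5309490, 5378115), (319, 0, 0, 5309490, 5378115), (319, 0, 0, 5248035, 5374260), (319, 0, 0, 5309250, 5316675), (318, 0, 0, 5309250, 5316675), (319, 0, 0, 5247555, 5308980), (319, 0, 0, 5309220, 5251395), (319, 0, 0, 5247540, 5247540), (318, 0, 0, 5309220, 5251395)]
  [(318, 12), (319, 24)] = true := by
  decide +kernel

theorem t5_8_18_0 : chkF keys 1 3 p5_8_0 c5_18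
  [(123, 16, 16, 5448726, 5391126), (131, 1, 1, 34825536, 52512336), (123, 16, 16, 5387361, 22164486), (131, 1, 1, 35009796, 69219921), (97, 1, 1, 33775941, 50415141), (97, 1, 1, 33960276, 68171301), (131, 1, 1, 34825296, 51529296), (123, 16, 16, 5448006, 5325606), (97, 1, 1, 33776661, 50480661), (97, 1, 1, 33961236, 69219861), (123, 16, 16, 5387841, 38876166), (131, 1, 1, 35008596, 68171346), (97, 1, 1, 33776721, 51529221), (97, 1, 1, 33961281, 69285381), (131, 1, 1, 34825221, 50480721), (123, 16, 16, 5448036, 22037286), (131, 1, 1, 35008581, 67188306), (123, 16, 16, 5387796, 38810646)]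
  [(97, 12), (123, 12), (131, 12)] = true := by
  decide +kernel

theorem t5_8_19_0 : chkF keys 1 3 p5_8_0 c5_19
  [(117, 1, 1, 20210946, 52711521), (117, 1, 1, 51791136, 69427536), (124, 16, 16, 102827061, 100799811), (105, 1, 1, 51790416, 68379216), (124, 16, 16, 102765651, 101844276), (105, 1, 1, 51667461, 50618961), (124, 16, 16, 102826821, 100738371), (105, 1, 1, 51791136, 69427536), (117, 1, 1, 20209746, 51662946), (117, 1, 1, 51790416, 68379216), (105, 1, 1, 20209701, 50614626), (124, 16, 16, 39851331, 86050356), (105, 1, 1, 20333826, 69423201), (124, 16, 16, 39912276, 84944451), (105, 1, 1, 20209746, 51662946), (124, 16, 16, 39851316, 85988916), (117, 1, 1, 20209701, 50614626), (117, 1, 1, 51790341, 67330641)]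
  [(105, 12), (117, 12), (124, 12)] = true := by
  decide +kernel

theorem t5_8_20_0 : chkF keys 1 3 p5_8_0 c5_20
  [(320, 0, 0, 105972786, 106041411), (238, 0, 0, 88086051, 40173876), (320, 0, 0, 105911331, 106037556), (238, 0, 0, 88147506, 40177731), (236, 0, 0, 104863011, 103088436), (236, 0, 0, 104924466, 103092291), (238, 0, 0, 88085091, 23396916), (320, 0, 0, 105972546, 105979971), (236, 0, 0, 104862291, 102040116), (236, 0, 0, 104923986, 102047811), (320, 0, 0, 105910851, 105972276), (238, 0, 0, 88146786, 23404611), (236, 0, 0, 104862261, 100995636), (236, 0, 0, 104923941, 100999491), (238, 0, 0, 88085046, 6623796), (320, 0, 0, 105972516, 105914691), (238, 0, 0, 88146726, 6627651), (320, 0, 0, 105910836, 105910836)]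
  [(236, 12), (238, 12), (320, 12)] = true := by
  decide +kernel

theorem t5_8_21_0 : chkF keys 1 3 p5_8_0 c5_21
  [(321, 0, 0, 105972786, 106041411), (238, 0, 0, 100938321, 101986821), (321, 0, 0, 105911331, 106037556), (238, 0, 0, 100876821, 100876821), (245, 0, 0, 100938066, 101986341), (245, 0, 0, 100876581, 100876581), (238, 0, 0, 100939041, 103035141), (321, 0, 0, 105972546, 105979971), (245, 0, 0, 100939026, 103034901), (245, 0, 0, 100876821, 100876821), (321, 0, 0, 105910851, 105972276), (238, 0, 0, 100876581, 100876581), (245, 0, 0, 100939041, 103035141), (245, 0, 0, 100876881, 101925381), (238, 0, 0, 100939026, 103034901), (321, 0, 0, 105972516, 105914691), (238, 0, 0, 100876626, 101924901), (321, 0, 0, 105910836, 105910836)]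
  [(238, 12), (245, 12), (321, 12)] = true := by
  decide +kernel

theorem t5_8_22_0 : chkF keys 1 3 p5_8_0 c5_22
  [(322, 0, 0, 5309490, 5378115), (240, 0, 0, 4199715, 2425140), (322, 0, 0, 5248035, 5374260), (240, 0, 0, 4261170, 2428995), (237, 0, 0, 4199715, 2425140), (237, 0, 0, 4261170, 2428995), (240, 0, 0, 4198995, 1376820), (322, 0, 0, 5309250, 5316675), (237, 0, 0, 4198995, 1376820), (237, 0, 0, 4260690, 1384515), (322, 0, 0, 5247555, 5308980), (240, 0, 0, 4260690, 1384515), (237, 0, 0, 4198965, 332340), (237, 0, 0, 4260645, 336195), (240, 0, 0, 4198965, 332340), (322, 0, 0, 5309220, 5251395), (240, 0, 0, 4260645, 336195), (322, 0, 0, 5247540, 5247540)]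
  [(237, 12), (240, 12), (322, 12)] = true := by
  decide +kernel

theorem t5_9_9_0 : chkF keys 1 3 p5_9_0 c5_9
  [(246, 0, 0, 70321746, 35016771), (243, 0, 0, 88147506, 40177731), (243, 0, 0, 88146786, 23404611), (243, 0, 0, 88146486, 6623811), (246, 0, 0, 70320741, 17191491), (243, 0, 0, 88146531, 23396931), (243, 0, 0, 88146726, 6627651), (243, 0, 0, 88147491, 40173891), (246, 0, 0, 70321701, 33968451)]
  [(243, 24), (246, 12)] = true := by
  decide +kernel

theorem t5_9_10_0 : chkF keys 1 3 p5_9_0 c5_10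
  [(239, 0, 0, 33830481, 34878981), (236, 0, 0, 33899286, 4400661), (236, 0, 0, 33898806, 4396581), (236, 0, 0, 33900081, 37950981), (236, 0, 0, 33900051, 37946901), (239, 0, 0, 33829221, 17053221), (236, 0, 0, 33899361, 21177861), (239, 0, 0, 33830421, 33830421), (236, 0, 0, 33898851, 21169701)]
  [(236, 24), (239, 12)] = true := by
  decide +kernel

theorem t5_9_11_0 : chkF keys 1 3 p5_9_0 c5_11
  [(323, 0, 0, 105972786, 106041411), (243, 0, 0, 55641666, 38887491), (243, 0, 0, 55641186, 22175811), (243, 0, 0, 55640676, 22045251), (243, 0, 0, 55640646, 5333571), (323, 0, 0, 105972291, 105972291), (243, 0, 0, 55641636, 38822211), (323, 0, 0, 105972771, 106037571), (243, 0, 0, 55641126, 5398851)]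
  [(243, 24), (323, 12)] = true := by
  decide +kernel

theorem t5_9_12_0 : chkF keys 1 3 p5_9_0 c5_12
  [(253, 0, 0, 3212610, 2183235), (244, 0, 0, 5309250, 5316675), (244, 0, 0, 5309490, 5378115), (244, 0, 0, 5308980, 5247555), (244, 0, 0, 5308995, 5308995), (253, 0, 0, 3211860, 1069635), (244, 0, 0, 5309220, 5251395), (253, 0, 0, 3212580, 2117955), (244, 0, 0, 5309475, 5374275)]
  [(244, 24), (253, 12)] = true := by
  decide +kernel

theorem t5_9_13_0 : chkF keys 1 3 p5_9_0 c5_13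
  [(239, 0, 0, 106181121, 106181121), (239, 0, 0, 106180641, 106180866), (232, 0, 0, 106176771, 106169121), (232, 0, 0, 106177296, 106177296), (239, 0, 0, 106180896, 106180896), (239, 0, 0, 106180866, 106180641), (239, 0, 0, 106181136, 106181136), (232, 0, 0, 106176816, 106173216), (239, 0, 0, 106180626, 106180626)]
  [(232, 12), (239, 24)] = true := by
  decide +kernel

theorem t5_9_14_0 : chkF keys 1 3 p5_9_0 c5_14
  [(311, 0, 0, 73736976, 88482576), (311, 0, 0, 73736496, 88478496), (229, 0, 0, 52773126, 4416801), (229, 0, 0, 52774416, 37971216), (311, 0, 0, 73736241, 88478466), (311, 0, 0, 73736211, 88474386), (311, 0, 0, 73736961, 88482561), (229, 0, 0, 52773216, 21194016), (311, 0, 0, 73736451, 88474401)]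
  [(229, 12), (311, 24)] = true := by
  decide +kernel

theorem t5_9_15_0 : chkF keys 1 3 p5_9_0 c5_15
  [(252, 0, 0, 5309490, 5378115), (252, 0, 0, 5309250, 5316675), (231, 0, 0, 3490050, 4411425), (231, 0, 0, 3490320, 4411920), (252, 0, 0, 5308995, 5308995), (252, 0, 0, 5308980, 5247555), (252, 0, 0, 5309475, 5374275), (231, 0, 0, 3490080, 4411680), (252, 0, 0, 5309220, 5251395)]
  [(231, 12), (252, 24)] = true := by
  decide +kernel

theorem t5_9_16_0 : chkF keys 1 3 p5_9_0 c5_16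
  [(241, 0, 0, 274945, 274945), (241, 0, 0, 274465, 274690), (3, 0, 0, 205060, 17185), (3, 0, 0, 205840, 148240), (241, 0, 0, 274720, 274720), (241, 0, 0, 274690, 274465), (241, 0, 0, 274960, 274960), (3, 0, 0, 205120, 82720), (241, 0, 0, 274450, 274450)]
  [(3, 12), (241, 24)] = true := by
  decide +kernel

theorem t5_9_17_0 : chkF keys 1 3 p5_9_0 c5_17
  [(324, 0, 0, 5309490, 5378115), (324, 0, 0, 5309250, 5316675), (248, 0, 0, 3212610, 2183235), (248, 0, 0, 3211860, 1069635), (324, 0, 0, 5308995, 5308995), (324, 0, 0, 5308980, 5247555), (324, 0, 0, 5309475, 5374275), (248, 0, 0, 3212580, 2117955), (324, 0, 0, 5309220, 5251395)]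
  [(248, 12), (324, 24)] = true := by
  decide +kernel

theorem t5_9_18_0 : chkF keys 1 3 p5_9_0 c5_18
  [(107, 16, 16, 55641636, 38822211), (107, 16, 16, 55640676, 22045251), (85, 1, 1, 33899286, 4400661), (112, 16, 16, 38863716, 22029891), (85, 1, 1, 33898806, 4396581), (112, 16, 16, 38864436, 38803011), (112, 16, 16, 38863926, 5379651), (85, 1, 1, 33900081, 37950981), (112, 16, 16, 38863971, 22152771), (85, 1, 1, 33900051, 37946901), (107, 16, 16, 55641186, 22175811), (107, 16, 16, 55641126, 5398851), (85, 1, 1, 33899361, 21177861), (112, 16, 16, 38863686, 5318211), (107, 16, 16, 55641666, 38887491), (107, 16, 16, 55640646, 5333571), (112, 16, 16, 38864451, 38864451), (85, 1, 1, 33898851, 21169701)]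
  [(85, 12), (107, 12), (112, 12)] = true := by
  decide +kernel

theorem t5_9_19_0 : chkF keys 1 3 p5_9_0 c5_19
  [(103, 16, 16, 103875156, 101732931), (116, 16, 16, 56689236, 84959811), (103, 16, 16, 103875876, 102781251), (116, 16, 16, 56689956, 86008131), (89, 16, 16, 86049891, 23201091), (89, 16, 16, 38864451, 38864451), (89, 16, 16, 86049606, 6366531), (89, 16, 16, 38863716, 22029891), (116, 16, 16, 103875621, 100815171), (103, 16, 16, 56689701, 84042051), (116, 16, 16, 103875666, 101863491), (103, 16, 16, 56689746, 85090371), (116, 16, 16, 103875141, 100749891), (103, 16, 16, 56689221, 83976771), (89, 16, 16, 86049846, 6427971), (89, 16, 16, 38864436, 38803011), (103, 16, 16, 103875906, 102846531), (116, 16, 16, 56689986, 86073411)]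
  [(89, 12), (103, 12), (116, 12)] = true := by
  decide +kernel

theorem t5_9_20_0 : chkF keys 1 3 p5_9_0 c5_20
  [(311, 0, 0, 51717216, 21128016), (311, 0, 0, 51717696, 37839696), (236, 0, 0, 51724806, 4416081), (310, 0, 0, 51794436, 70279761), (236, 0, 0, 51724326, 4415826), (310, 0, 0, 51793956, 70279506), (310, 0, 0, 51794976, 70410576), (236, 0, 0, 51725856, 37970256), (310, 0, 0, 51794946, 70410321), (236, 0, 0, 51725826, 37970001), (311, 0, 0, 51716166, 4285266), (311, 0, 0, 51716196, 20996946), (236, 0, 0, 51724896, 21193296), (310, 0, 0, 51794496, 70345296), (311, 0, 0, 51717126, 4350801), (311, 0, 0, 51717636, 37774161), (310, 0, 0, 51793986, 70344786), (236, 0, 0, 51724386, 21192786)]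
  [(236, 12), (310, 12), (311, 12)] = true := by
  decide +kernel

theorem t5_9_21_0 : chkF keys 1 3 p5_9_0 c5_21
  [(311, 0, 0, 68494896, 38146896), (311, 0, 0, 68494176, 21373776), (245, 0, 0, 103875906, 102846531), (221, 0, 0, 51724806, 4416081), (245, 0, 0, 103875666, 101863491), (221, 0, 0, 51724326, 4415826), (221, 0, 0, 51725856, 37970256), (245, 0, 0, 103875156, 101732931), (221, 0, 0, 51725826, 37970001), (245, 0, 0, 103875141, 100749891), (311, 0, 0, 68493411, 21365586), (311, 0, 0, 68493366, 4592466), (245, 0, 0, 103875876, 102781251), (221, 0, 0, 51724896, 21193296), (311, 0, 0, 68494851, 38142801), (311, 0, 0, 68494086, 4596561), (221, 0, 0, 51724386, 21192786), (245, 0, 0, 103875621, 100815171)]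
  [(221, 12), (245, 12), (311, 12)] = true := by
  decide +kernel

theorem t5_9_22_0 : chkF keys 1 3 p5_9_0 c5_22
  [(252, 0, 0, 3212610, 2183235), (252, 0, 0, 3212370, 1200195), (237, 0, 0, 1393155, 4391505), (223, 0, 0, 1393155, 4391505), (237, 0, 0, 1392675, 4391250), (223, 0, 0, 1392675, 4391250), (223, 0, 0, 1393440, 4399440), (237, 0, 0, 1393440, 4399440), (223, 0, 0, 1393410, 4399185), (237, 0, 0, 1393410, 4399185), (252, 0, 0, 3211860, 1069635), (252, 0, 0, 3211845, 86595), (237, 0, 0, 1393200, 4395600), (223, 0, 0, 1393200, 4395600), (252, 0, 0, 3212580, 2117955), (252, 0, 0, 3212325, 151875), (223, 0, 0, 1392690, 4395090), (237, 0, 0, 1392690, 4395090)]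
  [(223, 12), (237, 12), (252, 12)] = true := by
  decide +kernel

theorem t5_10_10_0 : chkF keys 1 3 p5_10_0 c5_10
  [(325, 0, 0, 106042416, 106042416), (235, 0, 0, 104989521, 102048771), (235, 0, 0, 104990001, 103093251), (235, 0, 0, 104989461, 101000211), (325, 0, 0, 106042371, 106038321), (235, 0, 0, 104989971, 103089171), (235, 0, 0, 104988981, 100996131), (235, 0, 0, 104989011, 102040611), (325, 0, 0, 106041411, 105972786)]
  [(235, 24), (325, 12)] = true := by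
  decide +kernel

theorem t5_10_11_0 : chkF keys 1 3 p5_10_0 c5_11
  [(326, 0, 0, 106042416, 106042416), (236, 0, 0, 55707201, 38888451), (236, 0, 0, 55706721, 22176771), (236, 0, 0, 55707156, 38822931), (326, 0, 0, 106042371, 106038321), (236, 0, 0, 55706646, 5399571), (236, 0, 0, 55705956, 22045731), (236, 0, 0, 55705926, 5334051), (326, 0, 0, 106041411, 105972786)]
  [(236, 24), (326, 12)] = true := by
  decide +kernel

theorem t5_10_12_0 : chkF keys 1 3 p5_10_0 c5_12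
  [(261, 0, 0, 1393440, 4399440), (237, 0, 0, 5374785, 5317635), (237, 0, 0, 5375025, 5379075), (237, 0, 0, 5374740, 5252115), (261, 0, 0, 1393410, 4399185), (237, 0, 0, 5374995, 5374995), (237, 0, 0, 5374260, 5248035), (237, 0, 0, 5374275, 5309475), (261, 0, 0, 1392690, 4395090)]
  [(237, 24), (261, 12)] = true := by
  decide +kernel

theorem t5_10_13_0 : chkF keys 1 3 p5_10_0 c5_13
  [(325, 0, 0, 70391376, 35017776), (325, 0, 0, 70391136, 19289136), (232, 0, 0, 106111236, 105923361), (325, 0, 0, 70391301, 33969201), (232, 0, 0, 106111296, 105988896), (325, 0, 0, 70391046, 2511921), (232, 0, 0, 106112016, 106054416), (325, 0, 0, 70389861, 17191986), (325, 0, 0, 70389846, 1463346)]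
  [(232, 12), (325, 24)] = true := by
  decide +kernel

theorem t5_10_14_0 : chkF keys 1 3 p5_10_0 c5_14
  [(327, 0, 0, 106042416, 106042416), (327, 0, 0, 106042176, 105980976), (228, 0, 0, 52838661, 67331361), (327, 0, 0, 106042371, 106038321), (228, 0, 0, 52838736, 68379936), (327, 0, 0, 106042116, 105915441), (228, 0, 0, 52839696, 69428496), (327, 0, 0, 106041411, 105972786), (327, 0, 0, 106041396, 105911346)]
  [(228, 12), (327, 24)] = true := by
  decide +kernel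

theorem t5_10_15_0 : chkF keys 1 3 p5_10_0 c5_15
  [(257, 0, 0, 3490320, 4411920), (257, 0, 0, 3490080, 4411680), (233, 0, 0, 3490050, 4411425), (257, 0, 0, 3490305, 4411905), (233, 0, 0, 3490080, 4411680), (257, 0, 0, 3490050, 4411425), (233, 0, 0, 3490320, 4411920), (257, 0, 0, 3489825, 4411650), (257, 0, 0, 3489810, 4411410)]
  [(233, 12), (257, 24)] = true := by
  decide +kernel

theorem t5_10_16_0 : chkF keys 1 3 p5_10_0 c5_16
  [(264, 0, 0, 136240, 136240), (264, 0, 0, 136000, 74800), (3, 0, 0, 270595, 262945), (264, 0, 0, 136195, 132145), (3, 0, 0, 270640, 267040), (264, 0, 0, 135940, 9265), (3, 0, 0, 271120, 271120), (264, 0, 0, 135235, 66610), (264, 0, 0, 135220, 5170)]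
  [(3, 12), (264, 24)] = true := by
  decide +kernel

theorem t5_10_17_0 : chkF keys 1 3 p5_10_0 c5_17
  [(328, 0, 0, 5379120, 5379120), (328, 0, 0, 3282240, 2184240), (242, 0, 0, 3278145, 2184195), (328, 0, 0, 5379075, 5375025), (242, 0, 0, 3278100, 2118675), (328, 0, 0, 3282180, 2118705), (242, 0, 0, 3277140, 1070115), (328, 0, 0, 5378115, 5309490), (328, 0, 0, 5378100, 5248050)]
  [(242, 12), (328, 24)] = true := by
  decide +kernel

theorem t5_10_18_0 : chkF keys 1 3 p5_10_0 c5_18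
  [(127, 1, 1, 1324626, 34877526), (127, 1, 1, 1324386, 19148886), (83, 16, 16, 37951056, 34948656), (112, 16, 16, 39060321, 22291971), (83, 16, 16, 37950816, 19220016), (112, 16, 16, 39061041, 39065091), (83, 16, 16, 37950981, 33900081), (112, 16, 16, 39060246, 5514771), (127, 1, 1, 1324581, 33829206), (127, 1, 1, 1324326, 2371926), (112, 16, 16, 39061011, 39061011), (83, 16, 16, 37950726, 2442801), (112, 16, 16, 39059766, 5510691), (83, 16, 16, 37949541, 17122866), (112, 16, 16, 39059811, 22283811), (83, 16, 16, 37949526, 1394226), (127, 1, 1, 1323621, 17052246), (127, 1, 1, 1323606, 1323606)]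
  [(83, 12), (112, 12), (127, 12)] = true := by
  decide +kernel

theorem t5_10_19_0 : chkF keys 1 3 p5_10_0 c5_19
  [(109, 1, 1, 20337666, 70406241), (140, 16, 16, 39064416, 22292016), (109, 1, 1, 20336706, 70340706), (140, 16, 16, 39065136, 39065136), (85, 16, 16, 86185056, 23217456), (85, 16, 16, 38999616, 38880816), (140, 16, 16, 86250246, 6563121), (109, 1, 1, 51794976, 70410576), (85, 16, 16, 86184966, 6440241), (85, 16, 16, 38999556, 38815281), (109, 1, 1, 20336676, 70275426), (140, 16, 16, 39065091, 39061041), (85, 16, 16, 86184006, 6374706), (85, 16, 16, 38998116, 22038066), (140, 16, 16, 86249526, 6559026), (109, 1, 1, 51794496, 70345296), (140, 16, 16, 86249571, 23332146), (109, 1, 1, 51794436, 70279761)]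
  [(85, 12), (109, 12), (140, 12)] = true := by
  decide +kernel

theorem t5_10_20_0 : chkF keys 1 3 p5_10_0 c5_20
  [(327, 0, 0, 70391376, 35017776), (327, 0, 0, 70391136, 19289136), (235, 0, 0, 55707201, 38888451), (310, 0, 0, 51663366, 3433041), (235, 0, 0, 55706721, 22176771), (310, 0, 0, 51662886, 3432786), (235, 0, 0, 55707156, 38822931), (310, 0, 0, 51663456, 20210256), (327, 0, 0, 70391301, 33969201), (327, 0, 0, 70391046, 2511921), (310, 0, 0, 51662946, 20209746), (235, 0, 0, 55706646, 5399571), (310, 0, 0, 51664416, 36987216), (235, 0, 0, 55705956, 22045731), (310, 0, 0, 51664386, 36986961), (235, 0, 0, 55705926, 5334051), (327, 0, 0, 70389861, 17191986), (327, 0, 0, 70389846, 1463346)]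
  [(235, 12), (310, 12), (327, 12)] = true := by
  decide +kernel

theorem t5_10_21_0 : chkF keys 1 3 p5_10_0 c5_21
  [(327, 0, 0, 103945536, 102847536), (327, 0, 0, 103945296, 101864496), (238, 0, 0, 103941441, 102847491), (220, 0, 0, 101929476, 103826001), (238, 0, 0, 103941201, 101864451), (220, 0, 0, 101928996, 103825746), (238, 0, 0, 103941396, 102781971), (220, 0, 0, 101929536, 103891536), (327, 0, 0, 103945476, 102782001), (327, 0, 0, 103945221, 100815921), (220, 0, 0, 101929026, 103891026), (238, 0, 0, 103941141, 100815891), (220, 0, 0, 101930016, 103956816), (238, 0, 0, 103940436, 101733411), (220, 0, 0, 101929986, 103956561), (238, 0, 0, 103940421, 100750371), (327, 0, 0, 103944276, 101733426), (327, 0, 0, 103944261, 100750386)]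
  [(220, 12), (238, 12), (327, 12)] = true := by
  decide +kernel

theorem t5_10_22_0 : chkF keys 1 3 p5_10_0 c5_22
  [(257, 0, 0, 1393440, 4399440), (257, 0, 0, 1393200, 4395600), (240, 0, 0, 3278145, 2184195), (223, 0, 0, 1262085, 213585), (240, 0, 0, 3277905, 1201155), (223, 0, 0, 1261605, 213330), (240, 0, 0, 3278100, 2118675), (223, 0, 0, 1262160, 1262160), (257, 0, 0, 1393410, 4399185), (257, 0, 0, 1393155, 4391505), (223, 0, 0, 1261650, 1261650), (240, 0, 0, 3277845, 152595), (223, 0, 0, 1262880, 2310480), (240, 0, 0, 3277140, 1070115), (223, 0, 0, 1262850, 2310225), (240, 0, 0, 3277125, 87075), (257, 0, 0, 1392690, 4395090), (257, 0, 0, 1392675, 4391250)]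
  [(223, 12), (240, 12), (257, 12)] = true := by
  decide +kernel

theorem t5_11_11_0 : chkF keys 1 3 p5_11_0 c5_11
  [(329, 0, 0, 106107936, 106053936), (243, 0, 0, 39195456, 72427056), (243, 0, 0, 39195696, 72488496), (243, 0, 0, 39195396, 72361521), (329, 0, 0, 106107906, 106053681), (243, 0, 0, 39195651, 72484401), (243, 0, 0, 39194676, 72357426), (243, 0, 0, 39194691, 72418866), (329, 0, 0, 106106946, 105988146)]
  [(243, 24), (329, 12)] = true := by
  decide +kernel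

theorem t5_11_12_0 : chkF keys 1 3 p5_11_0 c5_12
  [(330, 0, 0, 5444640, 5390640), (244, 0, 0, 5444160, 5325360), (244, 0, 0, 5444640, 5390640), (244, 0, 0, 5444100, 5259825), (330, 0, 0, 5444610, 5390385), (244, 0, 0, 5444610, 5390385), (244, 0, 0, 5443620, 5259570), (244, 0, 0, 5443650, 5324850), (330, 0, 0, 5443650, 5324850)]
  [(244, 24), (330, 12)] = true := by
  decide +kernel

theorem t5_11_13_0 : chkF keys 1 3 p5_11_0 c5_13
  [(256, 0, 0, 106054416, 106112016), (256, 0, 0, 106053936, 106107936), (224, 0, 0, 106053891, 106103841), (256, 0, 0, 106054401, 106112001), (224, 0, 0, 106053936, 106107936), (256, 0, 0, 106053891, 106103841), (224, 0, 0, 106054416, 106112016), (256, 0, 0, 106053681, 106107906), (256, 0, 0, 106053651, 106103826)]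
  [(224, 12), (256, 24)] = true := by
  decide +kernel

theorem t5_11_14_0 : chkF keys 1 3 p5_11_0 c5_14
  [(331, 0, 0, 106107936, 106053936), (331, 0, 0, 106107456, 105988656), (221, 0, 0, 56774916, 87057441), (331, 0, 0, 106107906, 106053681), (221, 0, 0, 56774976, 87122976), (331, 0, 0, 106107396, 105923121), (221, 0, 0, 56775696, 87188496), (331, 0, 0, 106106946, 105988146), (331, 0, 0, 106106916, 105922866)]
  [(221, 12), (331, 24)] = true := by
  decide +kernel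

theorem t5_11_15_0 : chkF keys 1 3 p5_11_0 c5_15
  [(332, 0, 0, 5444640, 5390640), (332, 0, 0, 5444160, 5325360), (223, 0, 0, 3297540, 3167265), (332, 0, 0, 5444610, 5390385), (223, 0, 0, 3297600, 3232800), (332, 0, 0, 5444100, 5259825), (223, 0, 0, 3298320, 3298320), (332, 0, 0, 5443650, 5324850), (332, 0, 0, 5443620, 5259570)]
  [(223, 12), (332, 24)] = true := by
  decide +kernel

theorem t5_11_16_0 : chkF keys 1 3 p5_11_0 c5_16
  [(258, 0, 0, 148240, 205840), (258, 0, 0, 147760, 201760), (225, 0, 0, 147715, 197665), (258, 0, 0, 148225, 205825), (225, 0, 0, 147760, 201760), (258, 0, 0, 147715, 197665), (225, 0, 0, 148240, 205840), (258, 0, 0, 147505, 201730), (258, 0, 0, 147475, 197650)]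
  [(225, 12), (258, 24)] = true := by
  decide +kernel

theorem t5_11_17_0 : chkF keys 1 3 p5_11_0 c5_17
  [(333, 0, 0, 5444640, 5390640), (333, 0, 0, 2364720, 2364720), (324, 0, 0, 2364240, 1320240), (333, 0, 0, 5444610, 5390385), (324, 0, 0, 2364165, 271665), (333, 0, 0, 2364675, 2360625), (324, 0, 0, 2363445, 267570), (333, 0, 0, 5443650, 5324850), (333, 0, 0, 5443620, 5259570)]
  [(324, 12), (333, 24)] = true := by
  decide +kernel

theorem t5_11_18_0 : chkF keys 1 3 p5_11_0 c5_18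
  [(130, 1, 1, 1270866, 51527766), (130, 1, 1, 1271106, 52510806), (99, 16, 16, 39065136, 39065136), (147, 1, 1, 33776916, 52446741), (99, 16, 16, 39064416, 22292016), (147, 1, 1, 33775956, 51398181), (99, 16, 16, 39065091, 39061041), (147, 1, 1, 33776961, 52512261), (130, 1, 1, 1270821, 50479446), (130, 1, 1, 1271076, 52445526), (147, 1, 1, 33775941, 50415141), (99, 16, 16, 39064326, 5514801), (147, 1, 1, 33776721, 51529221), (99, 16, 16, 39063651, 22283826), (147, 1, 1, 33776661, 50480661), (99, 16, 16, 39063606, 5510706), (130, 1, 1, 1270341, 50414166), (130, 1, 1, 1270356, 51397206)]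
  [(99, 12), (130, 12), (147, 12)] = true := by
  decide +kernel

theorem t5_11_19_0 : chkF keys 1 3 p5_11_0 c5_19
  [(115, 1, 1, 19162371, 52692321), (148, 1, 1, 3433746, 52711446), (115, 1, 1, 19161171, 51643746), (148, 1, 1, 3432786, 51662886), (96, 16, 16, 103028016, 103028016), (96, 16, 16, 40112976, 85206576), (148, 1, 1, 50619681, 52715781), (115, 1, 1, 34891056, 52696656), (96, 16, 16, 103027971, 103023921), (96, 16, 16, 40112901, 84158001), (115, 1, 1, 19161141, 50599266), (148, 1, 1, 3432741, 50614566), (96, 16, 16, 103026771, 101975346), (96, 16, 16, 40112181, 84153906), (148, 1, 1, 50618961, 51667461), (115, 1, 1, 34890576, 51652176), (148, 1, 1, 50618901, 50618901), (115, 1, 1, 34890501, 50603601)]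
  [(96, 12), (115, 12), (148, 12)] = true := by
  decide +kernel

theorem t5_11_20_0 : chkF keys 1 3 p5_11_0 c5_20
  [(331, 0, 0, 52762176, 37840176), (331, 0, 0, 52761696, 21128496), (245, 0, 0, 37033536, 37836336), (312, 0, 0, 51533316, 36725841), (245, 0, 0, 37033056, 21124656), (312, 0, 0, 51531876, 19948626), (245, 0, 0, 37033476, 37770801), (312, 0, 0, 51533376, 36791376), (331, 0, 0, 52762116, 37774641), (331, 0, 0, 52761606, 4351281), (312, 0, 0, 51531846, 3236946), (245, 0, 0, 37032966, 4347441), (312, 0, 0, 51532896, 20079696), (245, 0, 0, 37032036, 20993586), (312, 0, 0, 51532806, 3302481), (245, 0, 0, 37032006, 4281906), (331, 0, 0, 52760676, 20997426), (331, 0, 0, 52760646, 4285746)]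
  [(245, 12), (312, 12), (331, 12)] = true := by
  decide +kernel

theorem t5_11_21_0 : chkF keys 1 3 p5_11_0 c5_21
  [(331, 0, 0, 103028016, 103028016), (331, 0, 0, 103027536, 101983536), (311, 0, 0, 67327506, 37109781), (310, 0, 0, 68313861, 50734161), (311, 0, 0, 67326306, 20332581), (310, 0, 0, 68313141, 50730066), (311, 0, 0, 67327521, 37110021), (310, 0, 0, 68313936, 51782736), (331, 0, 0, 103027971, 103023921), (331, 0, 0, 103027461, 100934961), (310, 0, 0, 68313171, 51774546), (311, 0, 0, 67326246, 3555621), (310, 0, 0, 68314416, 52827216), (311, 0, 0, 67326561, 20333061), (310, 0, 0, 68314371, 52823121), (311, 0, 0, 67326486, 3555861), (331, 0, 0, 103026771, 101975346), (331, 0, 0, 103026741, 100930866)]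
  [(310, 12), (311, 12), (331, 12)] = true := by
  decide +kernel

theorem t5_11_22_0 : chkF keys 1 3 p5_11_0 c5_22
  [(332, 0, 0, 2364720, 2364720), (332, 0, 0, 2364240, 1320240), (252, 0, 0, 2364720, 2364720), (313, 0, 0, 1200900, 3155025), (252, 0, 0, 2364240, 1320240), (313, 0, 0, 1200180, 3150930), (252, 0, 0, 2364675, 2360625), (313, 0, 0, 1200960, 3220560), (332, 0, 0, 2364675, 2360625), (332, 0, 0, 2364165, 271665), (313, 0, 0, 1200195, 3212370), (252, 0, 0, 2364165, 271665), (313, 0, 0, 1201200, 3282000), (252, 0, 0, 2363475, 1312050), (313, 0, 0, 1201155, 3277905), (252, 0, 0, 2363445, 267570), (332, 0, 0, 2363475, 1312050), (332, 0, 0, 2363445, 267570)]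
  [(252, 12), (313, 12), (332, 12)] = true := by
  decide +kernel

theorem t5_12_12_0 : chkF keys 1 3 p5_12_0 c5_12
  [(262, 0, 0, 267040, 270640), (247, 0, 0, 266800, 266800), (247, 0, 0, 267040, 270640), (247, 0, 0, 266755, 262705), (262, 0, 0, 267010, 270385), (247, 0, 0, 267010, 270385), (247, 0, 0, 266275, 262450), (247, 0, 0, 266290, 266290), (262, 0, 0, 266290, 266290)]
  [(247, 24), (262, 12)] = true := by
  decide +kernel

theorem t5_12_13_0 : chkF keys 1 3 p5_12_0 c5_13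
  [(261, 0, 0, 3282240, 2184240), (261, 0, 0, 3282000, 1201200), (250, 0, 0, 5517570, 5517345), (261, 0, 0, 3282180, 2118705), (250, 0, 0, 5517600, 5517600), (261, 0, 0, 3281925, 152625), (250, 0, 0, 5517840, 5517840), (261, 0, 0, 3280980, 1070130), (261, 0, 0, 3280965, 87090)]
  [(250, 12), (261, 24)] = true := by
  decide +kernel

theorem t5_12_14_0 : chkF keys 1 3 p5_12_0 c5_14
  [(332, 0, 0, 5509920, 5513520), (332, 0, 0, 5509680, 5509680), (231, 0, 0, 3297540, 3167265), (332, 0, 0, 5509890, 5513265), (231, 0, 0, 3297600, 3232800), (332, 0, 0, 5509635, 5505585), (231, 0, 0, 3298320, 3298320), (332, 0, 0, 5509170, 5509170), (332, 0, 0, 5509155, 5505330)]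
  [(231, 12), (332, 24)] = true := by
  decide +kernel

theorem t5_12_15_0 : chkF keys 1 3 p5_12_0 c5_15
  [(258, 0, 0, 213520, 213520), (258, 0, 0, 213280, 213280), (3, 0, 0, 274690, 274465), (258, 0, 0, 213505, 213505), (3, 0, 0, 274720, 274720), (258, 0, 0, 213250, 213025), (3, 0, 0, 274960, 274960), (258, 0, 0, 213025, 213250), (258, 0, 0, 213010, 213010)]
  [(3, 12), (258, 24)] = true := by
  decide +kernel

theorem t5_12_16_0 : chkF keys 1 3 p5_12_0 c5_16
  [(43, 0, 0, 12546, 12321), (43, 0, 0, 12306, 12306), (41, 0, 0, 531, 531), (43, 0, 0, 12576, 12576), (41, 0, 0, 561, 4611), (43, 0, 0, 12321, 12546), (41, 0, 0, 801, 8451), (43, 0, 0, 12816, 12816), (43, 0, 0, 12801, 12801)]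
  [(41, 12), (43, 24)] = true := by
  decide +kernel

theorem t5_12_17_0 : chkF keys 1 3 p5_12_0 c5_17
  [(269, 0, 0, 78880, 143680), (269, 0, 0, 78400, 78400), (254, 0, 0, 136000, 74800), (269, 0, 0, 78850, 143425), (254, 0, 0, 135940, 9265), (269, 0, 0, 78340, 12865), (254, 0, 0, 135220, 5170), (269, 0, 0, 77890, 77890), (269, 0, 0, 77860, 12610)]
  [(254, 12), (269, 24)] = true := by
  decide +kernel

theorem t5_12_18_0 : chkF keys 1 3 p5_12_0 c5_18
  [(58, 16, 16, 1200900, 3155025), (58, 16, 16, 1200180, 3150930), (86, 1, 1, 2118420, 3155220), (135, 1, 1, 2176005, 144705), (86, 1, 1, 2117940, 3151140), (135, 1, 1, 2175045, 79170), (86, 1, 1, 2118465, 3220740), (135, 1, 1, 2176080, 1193280), (58, 16, 16, 1200960, 3220560), (58, 16, 16, 1200195, 3212370), (135, 1, 1, 2175060, 1062210), (86, 1, 1, 2117955, 3212580), (135, 1, 1, 2176320, 2176320), (86, 1, 1, 2118705, 3282180), (135, 1, 1, 2176260, 2110785), (86, 1, 1, 2118675,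 3278100), (58, 16, 16, 1201200, 3282000), (58, 16, 16, 1201155, 3277905)]
  [(58, 12), (86, 12), (135, 12)] = true := by
  decide +kernel

theorem t5_12_19_0 : chkF keys 1 3 p5_12_0 c5_19
  [(52, 1, 1, 1266180, 3162705), (143, 16, 16, 2364240, 1320240), (52, 1, 1, 1265700, 3162450), (143, 16, 16, 2364720, 2364720), (48, 16, 16, 5252145, 5378820), (48, 16, 16, 336705, 4268805), (143, 16, 16, 4330245, 336945), (52, 1, 1, 3232320, 3232320), (48, 16, 16, 5252115, 5374740), (48, 16, 16, 336660, 4203285), (52, 1, 1, 1265730, 3227730), (143, 16, 16, 2364675, 2360625), (48, 16, 16, 5251395, 5309220), (48, 16, 16, 336180, 4199205), (143, 16, 16, 4329525, 332850), (52, 1, 1, 3232800, 3297600), (143, 16, 16, 4329555, 1377330), (52, 1, 1, 3232770, 3297345)]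
  [(48, 12), (52, 12), (143, 12)] = true := by
  decide +kernel

theorem t5_12_20_0 : chkF keys 1 3 p5_12_0 c5_20
  [(332, 0, 0, 3282240, 2184240), (332, 0, 0, 3282000, 1201200), (237, 0, 0, 3232260, 3166785), (313, 0, 0, 3232260, 3166785), (237, 0, 0, 3231780, 3166530), (313, 0, 0, 3231780, 3166530), (237, 0, 0, 3232320, 3232320), (313, 0, 0, 3232320, 3232320), (332, 0, 0, 3282180, 2118705), (332, 0, 0, 3281925, 152625), (313, 0, 0, 3231810, 3231810), (237, 0, 0, 3231810, 3231810), (313, 0, 0, 3232800, 3297600), (237, 0, 0, 3232800, 3297600), (313, 0, 0, 3232770, 3297345), (237, 0, 0, 3232770, 3297345), (332, 0, 0, 3280980, 1070130), (332, 0, 0, 3280965, 87090)]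
  [(237, 12), (313, 12), (332, 12)] = true := by
  decide +kernel

theorem t5_12_21_0 : chkF keys 1 3 p5_12_0 c5_21
  [(332, 0, 0, 5379120, 5379120), (332, 0, 0, 5378880, 5317680), (252, 0, 0, 5379120, 5379120), (223, 0, 0, 3232260, 3166785), (252, 0, 0, 5378880, 5317680), (223, 0, 0, 3231780, 3166530), (252, 0, 0, 5379075, 5375025), (223, 0, 0, 3232320, 3232320), (332, 0, 0, 5379075, 5375025), (332, 0, 0, 5378820, 5252145), (223, 0, 0, 3231810, 3231810), (252, 0, 0, 5378820, 5252145), (223, 0, 0, 3232800, 3297600), (252, 0, 0, 5378115, 5309490), (223, 0, 0, 3232770, 3297345), (252, 0, 0, 5378100, 5248050), (332, 0, 0, 5378115, 5309490), (332, 0, 0, 5378100, 5248050)]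
  [(223, 12), (252, 12), (332, 12)] = true := by
  decide +kernel

theorem t5_12_22_0 : chkF keys 1 3 p5_12_0 c5_22
  [(258, 0, 0, 82720, 205120), (258, 0, 0, 82480, 201280), (241, 0, 0, 82435, 197185), (225, 0, 0, 82435, 197185), (241, 0, 0, 81955, 196930), (225, 0, 0, 81955, 196930), (241, 0, 0, 82480, 201280), (225, 0, 0, 82480, 201280), (258, 0, 0, 82690, 204865), (258, 0, 0, 82435, 197185), (225, 0, 0, 81970, 200770), (241, 0, 0, 81970, 200770), (225, 0, 0, 82720, 205120), (241, 0, 0, 82720, 205120), (225, 0, 0, 82690, 204865), (241, 0, 0, 82690, 204865), (258, 0, 0, 81970, 200770), (258, 0, 0, 81955, 196930)]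
  [(225, 12), (241, 12), (258, 12)] = true := by
  decide +kernel

theorem t5_13_13_0 : chkF keys 1 3 p5_13_0 c5_13
  [(334, 0, 0, 106112016, 106054416), (260, 0, 0, 106112016, 106054416), (260, 0, 0, 106112001, 106054401), (260, 0, 0, 106111296, 105988896), (334, 0, 0, 106111296, 105988896), (260, 0, 0, 106111041, 105988866), (260, 0, 0, 106111236, 105923361), (260, 0, 0, 106110996, 105923346), (334, 0, 0, 106111236, 105923361)]
  [(260, 24), (334, 12)] = true := by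
  decide +kernel

theorem t5_13_14_0 : chkF keys 1 3 p5_13_0 c5_14
  [(335, 0, 0, 106112016, 106054416), (256, 0, 0, 52843536, 70411536), (256, 0, 0, 52843521, 70411521), (256, 0, 0, 52842816, 70346016), (335, 0, 0, 106111296, 105988896), (256, 0, 0, 52842561, 70345986), (256, 0, 0, 52842756, 70280481), (256, 0, 0, 52842516, 70280466), (335, 0, 0, 106111236, 105923361)]
  [(256, 24), (335, 12)] = true := by
  decide +kernel

theorem t5_13_15_0 : chkF keys 1 3 p5_13_0 c5_15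
  [(336, 0, 0, 5448720, 5391120), (261, 0, 0, 5448000, 5325600), (261, 0, 0, 5447940, 5260065), (261, 0, 0, 5448720, 5391120), (336, 0, 0, 5448000, 5325600), (261, 0, 0, 5447700, 5260050), (261, 0, 0, 5448705, 5391105), (261, 0, 0, 5447745, 5325570), (336, 0, 0, 5447940, 5260065)]
  [(261, 24), (336, 12)] = true := by
  decide +kernel

theorem t5_13_16_0 : chkF keys 1 3 p5_13_0 c5_16
  [(337, 0, 0, 205840, 148240), (262, 0, 0, 205840, 148240), (262, 0, 0, 205825, 148225), (262, 0, 0, 205120, 82720), (337, 0, 0, 205120, 82720), (262, 0, 0, 204865, 82690), (262, 0, 0, 205060, 17185), (262, 0, 0, 204820, 17170), (337, 0, 0, 205060, 17185)]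
  [(262, 24), (337, 12)] = true := by
  decide +kernel

theorem t5_13_17_0 : chkF keys 1 3 p5_13_0 c5_17
  [(338, 0, 0, 5448720, 5391120), (339, 0, 0, 5448720, 5391120), (339, 0, 0, 5448705, 5391105), (339, 0, 0, 5448000, 5325600), (338, 0, 0, 5448000, 5325600), (339, 0, 0, 5447745, 5325570), (339, 0, 0, 5447940, 5260065), (339, 0, 0, 5447700, 5260050), (338, 0, 0, 5447940, 5260065)]
  [(338, 12), (339, 24)] = true := by
  decide +kernel

theorem t5_13_18_0 : chkF keys 1 3 p5_13_0 c5_18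
  [(184, 16, 16, 40121616, 86259216), (185, 1, 1, 1324626, 34877526), (184, 16, 16, 40121601, 86259201), (185, 1, 1, 1324581, 33829206), (17, 1, 1, 17053026, 19148901), (17, 1, 1, 17052966, 2371941), (185, 1, 1, 1324386, 19148886), (184, 16, 16, 40120656, 85210656), (17, 1, 1, 17053266, 34877541), (17, 1, 1, 17052246, 1323621), (184, 16, 16, 40120401, 85210626), (185, 1, 1, 1323621, 17052246), (17, 1, 1, 17053221, 33829221), (17, 1, 1, 17052261, 17052261), (185, 1, 1, 1324326, 2371926), (184, 16, 16, 40120581, 84162081), (185, 1, 1, 1323606, 1323606), (184, 16, 16, 40120341, 84162066)]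
  [(17, 12), (184, 12), (185, 12)] = true := by
  decide +kernel

theorem t5_13_19_0 : chkF keys 1 3 p5_13_0 c5_19
  [(22, 16, 16, 86259201, 40121601), (22, 16, 16, 39073296, 39073296), (186, 16, 16, 103036176, 103036176), (185, 16, 16, 40121616, 86259216), (186, 16, 16, 103036161, 103036161), (185, 16, 16, 40121601, 86259201), (186, 16, 16, 103035216, 101987616), (185, 16, 16, 40120656, 85210656), (22, 16, 16, 86257761, 23344386), (22, 16, 16, 39072096, 22296096), (185, 16, 16, 103034961, 101987586), (186, 16, 16, 40120401, 85210626), (185, 16, 16, 103035141, 100939041), (186, 16, 16, 40120581, 84162081), (185, 16, 16, 103034901, 100939026), (186, 16, 16, 40120341, 84162066), (22, 16, 16, 86257686, 6567186), (22, 16, 16, 39072006, 5518881)]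
  [(22, 12), (185, 12), (186, 12)] = true := by
  decide +kernel

theorem t5_13_20_0 : chkF keys 1 3 p5_13_0 c5_20
  [(340, 0, 0, 106112016, 106054416), (256, 0, 0, 35017536, 70329936), (340, 0, 0, 106112001, 106054401), (256, 0, 0, 35017476, 70264401), (246, 0, 0, 37114896, 70407696), (246, 0, 0, 37114881, 70407681), (256, 0, 0, 35017776, 70391376), (340, 0, 0, 106111296, 105988896), (246, 0, 0, 37114176, 70342176), (246, 0, 0, 37113921, 70342146), (340, 0, 0, 106111041, 105988866), (256, 0, 0, 35016756, 70260306), (246, 0, 0, 37114116, 70276641), (246, 0, 0, 37113876, 70276626), (256, 0, 0, 35017731, 70387281), (340, 0, 0, 106111236, 105923361), (256, 0, 0, 35016771, 70321746), (340, 0, 0, 106110996, 105923346)]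
  [(246, 12), (256, 12), (340, 12)] = true := by
  decide +kernel

theorem t5_13_21_0 : chkF keys 1 3 p5_13_0 c5_21
  [(341, 0, 0, 106112016, 106054416), (325, 0, 0, 39073296, 39073296), (341, 0, 0, 106112001, 106054401), (325, 0, 0, 39073281, 39073281), (239, 0, 0, 37114881, 70407681), (239, 0, 0, 37114896, 70407696), (325, 0, 0, 39072096, 22296096), (341, 0, 0, 106111296, 105988896), (239, 0, 0, 37113921, 70342146), (239, 0, 0, 37114176, 70342176), (341, 0, 0, 106111041, 105988866), (325, 0, 0, 39071841, 22296066), (239, 0, 0, 37113876, 70276626), (239, 0, 0, 37114116, 70276641), (325, 0, 0, 39072006, 5518881), (341, 0, 0, 106111236, 105923361), (325, 0, 0, 39071766, 5518866), (341, 0, 0, 106110996, 105923346)]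
  [(239, 12), (325, 12), (341, 12)] = true := by
  decide +kernel

theorem t5_13_22_0 : chkF keys 1 3 p5_13_0 c5_22
  [(342, 0, 0, 5448720, 5391120), (261, 0, 0, 4400400, 2442000), (342, 0, 0, 5448705, 5391105), (261, 0, 0, 4400385, 2441985), (253, 0, 0, 2442000, 4400400), (253, 0, 0, 2441985, 4400385), (261, 0, 0, 4399440, 1393440), (342, 0, 0, 5448000, 5325600), (253, 0, 0, 2441520, 4396320), (253, 0, 0, 2441265, 4396290), (342, 0, 0, 5447745, 5325570), (261, 0, 0, 4399185, 1393410), (253, 0, 0, 2441475, 4392225), (253, 0, 0, 2441235, 4392210), (261, 0, 0, 4399365, 344865), (342, 0, 0, 5447940, 5260065), (261, 0, 0, 4399125, 344850), (342, 0, 0, 5447700, 5260050)]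
  [(253, 12), (261, 12), (342, 12)] = true := by
  decide +kernel

theorem t5_14_14_0 : chkF keys 1 3 p5_14_0 c5_14
  [(343, 0, 0, 106112016, 106054416), (255, 0, 0, 52843536, 70411536), (255, 0, 0, 52843521, 70411521), (255, 0, 0, 52842816, 70346016), (343, 0, 0, 106111296, 105988896), (255, 0, 0, 52842561, 70345986), (255, 0, 0, 52842756, 70280481), (255, 0, 0, 52842516, 70280466), (343, 0, 0, 106111236, 105923361)]
  [(255, 24), (343, 12)] = true := by
  decide +kernel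

theorem t5_14_15_0 : chkF keys 1 3 p5_14_0 c5_15
  [(344, 0, 0, 5448720, 5391120), (257, 0, 0, 5448000, 5325600), (257, 0, 0, 5447940, 5260065), (257, 0, 0, 5448720, 5391120), (344, 0, 0, 5448000, 5325600), (257, 0, 0, 5447700, 5260050), (257, 0, 0, 5448705, 5391105), (257, 0, 0, 5447745, 5325570), (344, 0, 0, 5447940, 5260065)]
  [(257, 24), (344, 12)] = true := by
  decide +kernel

theorem t5_14_16_0 : chkF keys 1 3 p5_14_0 c5_16
  [(4, 0, 0, 66610, 135235), (258, 0, 0, 205120, 82720), (258, 0, 0, 205060, 17185), (258, 0, 0, 205840, 148240), (4, 0, 0, 66370, 73795), (258, 0, 0, 204820, 17170), (258, 0, 0, 205825, 148225), (258, 0, 0, 204865, 82690), (4, 0, 0, 66340, 8515)]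
  [(4, 12), (258, 24)] = true := by
  decide +kernel

theorem t5_14_17_0 : chkF keys 1 3 p5_14_0 c5_17
  [(345, 0, 0, 5448720, 5391120), (346, 0, 0, 5448720, 5391120), (346, 0, 0, 5448705, 5391105), (346, 0, 0, 5448000, 5325600), (345, 0, 0, 5448000, 5325600), (346, 0, 0, 5447745, 5325570), (346, 0, 0, 5447940, 5260065), (346, 0, 0, 5447700, 5260050), (345, 0, 0, 5447940, 5260065)]
  [(345, 12), (346, 24)] = true := by
  decide +kernel

theorem t5_14_18_0 : chkF keys 1 3 p5_14_0 c5_18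
  [(125, 16, 16, 39073296, 39073296), (130, 1, 1, 1324386, 19148886), (125, 16, 16, 39073281, 39073281), (130, 1, 1, 1324326, 2371926), (99, 16, 16, 39207696, 72558096), (99, 16, 16, 39207681, 72558081), (130, 1, 1, 1324626, 34877526), (125, 16, 16, 39072096, 22296096), (99, 16, 16, 39207216, 72554016), (99, 16, 16, 39206961, 72553986), (125, 16, 16, 39071841, 22296066), (130, 1, 1, 1323606, 1323606), (99, 16, 16, 39207171, 72549921), (99, 16, 16, 39206931, 72549906), (130, 1, 1, 1324581, 33829206), (125, 16, 16, 39072006, 5518881), (130, 1, 1, 1323621, 17052246), (125, 16, 16, 39071766, 5518866)]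
  [(99, 12), (125, 12), (130, 12)] = true := by
  decide +kernel

theorem t5_14_19_0 : chkF keys 1 3 p5_14_0 c5_19
  [(173, 16, 16, 103105281, 105063681), (173, 16, 16, 40190736, 88286736), (106, 1, 1, 20332626, 68374626), (130, 16, 16, 6567186, 86257686), (106, 1, 1, 20332581, 67326306), (130, 16, 16, 6567201, 86257926), (106, 1, 1, 20333826, 69423201), (130, 16, 16, 6566226, 85209126), (173, 16, 16, 103104561, 105059586), (173, 16, 16, 40190256, 88282656), (130, 16, 16, 100938321, 101986821), (106, 1, 1, 51790341, 67330641), (130, 16, 16, 100938021, 100938021), (106, 1, 1, 51791136, 69427536), (130, 16, 16, 100938261, 100938261), (106, 1, 1, 51790416, 68379216), (173, 16, 16, 103104531, 105055506), (173, 16, 16, 40190211, 88278561)]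
  [(106, 12), (130, 12), (173, 12)] = true := by
  decide +kernel

theorem t5_14_20_0 : chkF keys 1 3 p5_14_0 c5_20
  [(347, 0, 0, 106112016, 106054416), (331, 0, 0, 52843536, 70411536), (347, 0, 0, 106112001, 106054401), (331, 0, 0, 52843521, 70411521), (245, 0, 0, 37114896, 70407696), (245, 0, 0, 37114881, 70407681), (331, 0, 0, 52842816, 70346016), (347, 0, 0, 106111296, 105988896), (245, 0, 0, 37114176, 70342176), (245, 0, 0, 37113921, 70342146), (347, 0, 0, 106111041, 105988866), (331, 0, 0, 52842561, 70345986), (245, 0, 0, 37114116, 70276641), (245, 0, 0, 37113876, 70276626), (331, 0, 0, 52842756, 70280481), (347, 0, 0, 106111236, 105923361), (331, 0, 0, 52842516, 70280466), (347, 0, 0, 106110996, 105923346)]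
  [(245, 12), (331, 12), (347, 12)] = true := by
  decide +kernel

theorem t5_14_21_0 : chkF keys 1 3 p5_14_0 c5_21
  [(348, 0, 0, 106112016, 106054416), (327, 0, 0, 37114896, 70407696), (348, 0, 0, 106112001, 106054401), (327, 0, 0, 37114881, 70407681), (238, 0, 0, 37114881, 70407681), (238, 0, 0, 37114896, 70407696), (327, 0, 0, 37114176, 70342176), (348, 0, 0, 106111296, 105988896), (238, 0, 0, 37113921, 70342146), (238, 0, 0, 37114176, 70342176), (348, 0, 0, 106111041, 105988866), (327, 0, 0, 37113921, 70342146), (238, 0, 0, 37113876, 70276626), (238, 0, 0, 37114116, 70276641), (327, 0, 0, 37114116, 70276641), (348, 0, 0, 106111236, 105923361), (327, 0, 0, 37113876, 70276626), (348, 0, 0, 106110996, 105923346)]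
  [(238, 12), (327, 12), (348, 12)] = true := by
  decide +kernel

theorem t5_14_22_0 : chkF keys 1 3 p5_14_0 c5_22
  [(349, 0, 0, 5448720, 5391120), (332, 0, 0, 2442000, 4400400), (349, 0, 0, 5448705, 5391105), (332, 0, 0, 2441985, 4400385), (252, 0, 0, 2442000, 4400400), (252, 0, 0, 2441985, 4400385), (332, 0, 0, 2441520, 4396320), (349, 0, 0, 5448000, 5325600), (252, 0, 0, 2441520, 4396320), (252, 0, 0, 2441265, 4396290), (349, 0, 0, 5447745, 5325570), (332, 0, 0, 2441265, 4396290), (252, 0, 0, 2441475, 4392225), (252, 0, 0, 2441235, 4392210), (332, 0, 0, 2441475, 4392225), (349, 0, 0, 5447940, 5260065), (332, 0, 0, 2441235, 4392210), (349, 0, 0, 5447700, 5260050)]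
  [(252, 12), (332, 12), (349, 12)] = true := by
  decide +kernel

theorem t5_15_15_0 : chkF keys 1 3 p5_15_0 c5_15
  [(4, 0, 0, 266290, 266290), (264, 0, 0, 148240, 205840), (264, 0, 0, 148225, 205825), (264, 0, 0, 147760, 201760), (4, 0, 0, 267010, 270385), (264, 0, 0, 147505, 201730), (264, 0, 0, 147715, 197665), (264, 0, 0, 147475, 197650), (4, 0, 0, 267040, 270640)]
  [(4, 12), (264, 24)] = true := by
  decide +kernel

theorem t5_15_16_0 : chkF keys 1 3 p5_15_0 c5_16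
  [(42, 0, 0, 801, 8451), (43, 0, 0, 4146, 4146), (43, 0, 0, 4131, 306), (43, 0, 0, 4866, 8241), (42, 0, 0, 561, 4611), (43, 0, 0, 4611, 561), (43, 0, 0, 4896, 8496), (43, 0, 0, 4656, 4656), (42, 0, 0, 531, 531)]
  [(42, 12), (43, 24)] = true := by
  decide +kernel

theorem t5_15_17_0 : chkF keys 1 3 p5_15_0 c5_17
  [(271, 0, 0, 148240, 205840), (276, 0, 0, 82480, 201280), (276, 0, 0, 82435, 197185), (276, 0, 0, 82720, 205120), (271, 0, 0, 147760, 201760), (276, 0, 0, 81955, 196930), (276, 0, 0, 82690, 204865), (276, 0, 0, 81970, 200770), (271, 0, 0, 147715, 197665)]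
  [(271, 12), (276, 24)] = true := by
  decide +kernel

theorem t5_15_18_0 : chkF keys 1 3 p5_15_0 c5_18
  [(126, 16, 16, 2442000, 4400400), (58, 16, 16, 1192020, 1061970), (126, 16, 16, 2441985, 4400385), (58, 16, 16, 1192005, 78930), (86, 1, 1, 2109780, 1062180), (86, 1, 1, 2109765, 79140), (58, 16, 16, 1193220, 2110545), (126, 16, 16, 2441520, 4396320), (86, 1, 1, 2110740, 2110740), (86, 1, 1, 2110485, 144660), (126, 16, 16, 2441265, 4396290), (58, 16, 16, 1192965, 144465), (86, 1, 1, 2110785, 2176260), (86, 1, 1, 2110545, 1193220), (58, 16, 16, 1193280, 2176080), (126, 16, 16, 2441475, 4392225), (58, 16, 16, 1193040, 1193040), (126, 16, 16, 2441235, 4392210)]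
  [(58, 12), (86, 12), (126, 12)] = true := by
  decide +kernel

theorem t5_15_19_0 : chkF keys 1 3 p5_15_0 c5_19
  [(57, 16, 16, 5320770, 5320770), (57, 16, 16, 1388580, 4206930), (108, 1, 1, 1261650, 1261650), (58, 1, 1, 1388580, 4206930), (108, 1, 1, 1261605, 213330), (58, 1, 1, 1388610, 4272210), (108, 1, 1, 1262850, 2310225), (58, 1, 1, 1389060, 4207185), (57, 16, 16, 5321730, 5386305), (57, 16, 16, 1389060, 4207185), (58, 1, 1, 5321730, 5386305), (108, 1, 1, 3228165, 217665), (58, 1, 1, 5321280, 5321280), (108, 1, 1, 3228960, 2314560), (58, 1, 1, 5321760, 5386560), (108, 1, 1, 3228240, 1266240), (57, 16, 16, 5321760, 5386560), (57, 16, 16, 1389120, 4272720)]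
  [(57, 12), (58, 12), (108, 12)] = true := by
  decide +kernel

theorem t5_15_20_0 : chkF keys 1 3 p5_15_0 c5_20
  [(350, 0, 0, 5517840, 5517840), (332, 0, 0, 3298320, 3298320), (350, 0, 0, 5517825, 5517825), (332, 0, 0, 3298305, 3298305), (237, 0, 0, 3219540, 1069890), (237, 0, 0, 3219525, 86850), (332, 0, 0, 3297600, 3232800), (350, 0, 0, 5517600, 5517600), (237, 0, 0, 3220740, 2118465), (237, 0, 0, 3220485, 152385), (350, 0, 0, 5517345, 5517570), (332, 0, 0, 3297345, 3232770), (237, 0, 0, 3220800, 2184000), (237, 0, 0, 3220560, 1200960), (332, 0, 0, 3297540, 3167265), (350, 0, 0, 5517570, 5517345), (332, 0, 0, 3297300, 3167250), (350, 0, 0, 5517330, 5517330)]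
  [(237, 12), (332, 12), (350, 12)] = true := by
  decide +kernel

theorem t5_15_21_0 : chkF keys 1 3 p5_15_0 c5_21
  [(349, 0, 0, 4534800, 4534800), (257, 0, 0, 5321280, 5321280), (349, 0, 0, 4534785, 4534785), (257, 0, 0, 5321220, 5255745), (240, 0, 0, 2315265, 3294465), (240, 0, 0, 2315280, 3294480), (257, 0, 0, 5321760, 5386560), (349, 0, 0, 4534560, 4534560), (240, 0, 0, 2314305, 3228930), (240, 0, 0, 2314560, 3228960), (349, 0, 0, 4534305, 4534530), (257, 0, 0, 5320740, 5255490), (240, 0, 0, 2314260, 3163410), (240, 0, 0, 2314500, 3163425), (257, 0, 0, 5321730, 5386305), (349, 0, 0, 4534530, 4534305), (257, 0, 0, 5320770, 5320770), (349, 0, 0, 4534290, 4534290)]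
  [(240, 12), (257, 12), (349, 12)] = true := by
  decide +kernel

theorem t5_15_22_0 : chkF keys 1 3 p5_15_0 c5_22
  [(351, 0, 0, 274960, 274960), (258, 0, 0, 78400, 78400), (351, 0, 0, 274945, 274945), (258, 0, 0, 78340, 12865), (241, 0, 0, 73795, 66370), (241, 0, 0, 73780, 4930), (258, 0, 0, 78880, 143680), (351, 0, 0, 274720, 274720), (241, 0, 0, 74755, 131905), (241, 0, 0, 74500, 9025), (351, 0, 0, 274465, 274690), (258, 0, 0, 77860, 12610), (241, 0, 0, 74800, 136000), (241, 0, 0, 74560, 74560), (258, 0, 0, 78850, 143425), (351, 0, 0, 274690, 274465), (258, 0, 0, 77890, 77890), (351, 0, 0, 274450, 274450)]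
  [(241, 12), (258, 12), (351, 12)] = true := by
  decide +kernel

theorem t5_16_16_0 : chkF keys 1 3 p5_16_0 c5_16
  [(65, 0, 0, 528, 528), (38, 0, 0, 528, 528), (38, 0, 0, 513, 513), (38, 0, 0, 288, 288), (65, 0, 0, 288, 288), (38, 0, 0, 33, 258), (38, 0, 0, 258, 33), (38, 0, 0, 18, 18), (65, 0, 0, 258, 33)]
  [(38, 24), (65, 12)] = true := by
  decide +kernel

theorem t5_16_17_0 : chkF keys 1 3 p5_16_0 c5_17
  [(2, 0, 0, 801, 8451), (277, 0, 0, 4656, 4656), (277, 0, 0, 4611, 561), (277, 0, 0, 4896, 8496), (2, 0, 0, 561, 4611), (277, 0, 0, 4131, 306), (277, 0, 0, 4866, 8241), (277, 0, 0, 4146, 4146), (2, 0, 0, 531, 531)]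
  [(2, 12), (277, 24)] = true := by
  decide +kernel

theorem t5_16_18_0 : chkF keys 1 3 p5_16_0 c5_18
  [(132, 16, 16, 148240, 205840), (56, 1, 1, 66115, 66115), (132, 16, 16, 148225, 205825), (56, 1, 1, 66100, 4675), (34, 1, 1, 66370, 73795), (34, 1, 1, 66340, 8515), (56, 1, 1, 66595, 131395), (132, 16, 16, 147760, 201760), (34, 1, 1, 66610, 135235), (34, 1, 1, 66100, 4675), (132, 16, 16, 147505, 201730), (56, 1, 1, 66340, 8515), (34, 1, 1, 66595, 131395), (34, 1, 1, 66115, 66115), (56, 1, 1, 66610, 135235), (132, 16, 16, 147715, 197665), (56, 1, 1, 66370, 73795), (132, 16, 16, 147475, 197650)]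
  [(34, 12), (56, 12), (132, 12)] = true := by
  decide +kernel

theorem t5_16_19_0 : chkF keys 1 3 p5_16_0 c5_19
  [(35, 16, 16, 205825, 148225), (35, 16, 16, 144400, 144400), (133, 16, 16, 271120, 271120), (56, 16, 16, 205825, 148225), (133, 16, 16, 271105, 271105), (56, 16, 16, 205840, 148240), (133, 16, 16, 270640, 267040), (56, 16, 16, 204865, 82690), (35, 16, 16, 204865, 82690), (35, 16, 16, 143680, 78880), (56, 16, 16, 143680, 78880), (133, 16, 16, 147505, 201730), (56, 16, 16, 143380, 13330), (133, 16, 16, 147715, 197665), (56, 16, 16, 143620, 13345), (133, 16, 16, 147475, 197650), (35, 16, 16, 204820, 17170), (35, 16, 16, 143620, 13345)]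
  [(35, 12), (56, 12), (133, 12)] = true := by
  decide +kernel

theorem t5_16_20_0 : chkF keys 1 3 p5_16_0 c5_20
  [(352, 0, 0, 274960, 274960), (258, 0, 0, 136000, 74800), (352, 0, 0, 274945, 274945), (258, 0, 0, 135940, 9265), (247, 0, 0, 144400, 144400), (247, 0, 0, 144385, 144385), (258, 0, 0, 136240, 136240), (352, 0, 0, 274720, 274720), (247, 0, 0, 143680, 78880), (247, 0, 0, 143425, 78850), (352, 0, 0, 274465, 274690), (258, 0, 0, 135220, 5170), (247, 0, 0, 143620, 13345), (247, 0, 0, 143380, 13330), (258, 0, 0, 136195, 132145), (352, 0, 0, 274690, 274465), (258, 0, 0, 135235, 66610), (352, 0, 0, 274450, 274450)]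
  [(247, 12), (258, 12), (352, 12)] = true := by
  decide +kernel

theorem t5_16_21_0 : chkF keys 1 3 p5_16_0 c5_21
  [(351, 0, 0, 213520, 213520), (264, 0, 0, 144400, 144400), (351, 0, 0, 213505, 213505), (264, 0, 0, 144385, 144385), (241, 0, 0, 144385, 144385), (241, 0, 0, 144400, 144400), (264, 0, 0, 143680, 78880), (351, 0, 0, 213280, 213280), (241, 0, 0, 143425, 78850), (241, 0, 0, 143680, 78880), (351, 0, 0, 213025, 213250), (264, 0, 0, 143425, 78850), (241, 0, 0, 143380, 13330), (241, 0, 0, 143620, 13345), (264, 0, 0, 143620, 13345), (351, 0, 0, 213250, 213025), (264, 0, 0, 143380, 13330), (351, 0, 0, 213010, 213010)]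
  [(241, 12), (264, 12), (351, 12)] = true := by
  decide +kernel

theorem t5_16_22_0 : chkF keys 1 3 p5_16_0 c5_22
  [(353, 0, 0, 12816, 12816), (43, 0, 0, 306, 4131), (353, 0, 0, 12801, 12801), (43, 0, 0, 291, 291), (39, 0, 0, 4656, 4656), (39, 0, 0, 4611, 561), (43, 0, 0, 786, 8211), (353, 0, 0, 12576, 12576), (39, 0, 0, 4896, 8496), (39, 0, 0, 4131, 306), (353, 0, 0, 12321, 12546), (43, 0, 0, 531, 531), (39, 0, 0, 4866, 8241), (39, 0, 0, 4146, 4146), (43, 0, 0, 801, 8451), (353, 0, 0, 12546, 12321), (43, 0, 0, 561, 4611), (353, 0, 0, 12306, 12306)]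
  [(39, 12), (43, 12), (353, 12)] = true := by
  decide +kernel

theorem t5_17_17_0 : chkF keys 1 3 p5_17_0 c5_17
  [(354, 0, 0, 271120, 271120), (355, 0, 0, 271120, 271120), (355, 0, 0, 201730, 147505), (355, 0, 0, 270640, 267040), (354, 0, 0, 270640, 267040), (355, 0, 0, 200770, 81970), (355, 0, 0, 201220, 16945), (355, 0, 0, 200740, 16690), (354, 0, 0, 270595, 262945)]
  [(354, 12), (355, 24)] = true := by
  decide +kernel

theorem t5_17_18_0 : chkF keys 1 3 p5_17_0 c5_18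
  [(356, 16, 16, 5514000, 5514000), (157, 16, 16, 340290, 4272165), (356, 16, 16, 5513985, 5513985), (157, 16, 16, 340260, 4206885), (357, 16, 16, 5514000, 5514000), (357, 16, 16, 5513985, 5513985), (157, 16, 16, 341010, 4337685), (356, 16, 16, 5513520, 5509920), (357, 16, 16, 5513520, 5509920), (357, 16, 16, 5513265, 5509890), (356, 16, 16, 5513265, 5509890), (157, 16, 16, 340500, 4207125), (357, 16, 16, 5513475, 5505825), (357, 16, 16, 5513235, 5505810), (157, 16, 16, 341025, 4337925), (356, 16, 16, 5513475, 5505825), (157, 16, 16, 340545, 4272645), (356, 16, 16, 5513235, 5505810)]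
  [(157, 12), (356, 12), (357, 12)] = true := by
  decide +kernel

theorem t5_17_19_0 : chkF keys 1 3 p5_17_0 c5_19
  [(162, 16, 16, 5259570, 5443620), (162, 16, 16, 344355, 4391205), (358, 16, 16, 5514000, 5514000), (359, 16, 16, 5514000, 5514000), (358, 16, 16, 5513985, 5513985), (359, 16, 16, 5513985, 5513985), (358, 16, 16, 5513520, 5509920), (359, 16, 16, 5513520, 5509920), (162, 16, 16, 5260050, 5447700), (162, 16, 16, 344595, 4391445), (359, 16, 16, 4530225, 4526850), (358, 16, 16, 4530225, 4526850), (359, 16, 16, 4530435, 4522785), (358, 16, 16, 4530435, 4522785), (359, 16, 16, 4530195, 4522770), (358, 16, 16, 4530195, 4522770), (162, 16, 16, 5260065, 5447940), (162, 16, 16, 344625, 4395525)]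
  [(162, 12), (358, 12), (359, 12)] = true := by
  decide +kernel

theorem t5_17_20_0 : chkF keys 1 3 p5_17_0 c5_20
  [(360, 0, 0, 5514000, 5514000), (361, 0, 0, 5514000, 5514000), (360, 0, 0, 5513985, 5513985), (361, 0, 0, 5513985, 5513985), (319, 0, 0, 3219525, 86850), (319, 0, 0, 3219540, 1069890), (361, 0, 0, 5513520, 5509920), (360, 0, 0, 5513520, 5509920), (319, 0, 0, 3220485, 152385), (319, 0, 0, 3220740, 2118465), (360, 0, 0, 5513265, 5509890), (361, 0, 0, 5513265, 5509890), (319, 0, 0, 3220560, 1200960), (319, 0, 0, 3220800, 2184000), (361, 0, 0, 5513475, 5505825), (360, 0, 0, 5513475, 5505825), (361, 0, 0, 5513235, 5505810), (360, 0, 0, 5513235, 5505810)]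
  [(319, 12), (360, 12), (361, 12)] = true := by
  decide +kernel

theorem t5_17_21_0 : chkF keys 1 3 p5_17_0 c5_21
  [(346, 0, 0, 3228240, 1266240), (360, 0, 0, 3413280, 2380080), (346, 0, 0, 3228165, 217665), (360, 0, 0, 3413250, 2379825), (318, 0, 0, 4268115, 1377090), (318, 0, 0, 4268085, 332610), (360, 0, 0, 3412560, 1331760), (346, 0, 0, 3228960, 2314560), (318, 0, 0, 4269315, 2425665), (318, 0, 0, 4268805, 336705), (346, 0, 0, 3227685, 217410), (360, 0, 0, 3412050, 1331250), (318, 0, 0, 4269360, 2429760), (318, 0, 0, 4268880, 1385280), (360, 0, 0, 3412485, 283185), (346, 0, 0, 3228930, 2314305), (360, 0, 0, 3412005, 282930), (346, 0, 0, 3227730, 1265730)]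
  [(318, 12), (346, 12), (360, 12)] = true := by
  decide +kernel

theorem t5_17_22_0 : chkF keys 1 3 p5_17_0 c5_22
  [(276, 0, 0, 205840, 148240), (275, 0, 0, 201760, 147760), (276, 0, 0, 205825, 148225), (275, 0, 0, 201730, 147505), (268, 0, 0, 201760, 147760), (268, 0, 0, 262930, 270355), (275, 0, 0, 201280, 82480), (276, 0, 0, 205120, 82720), (268, 0, 0, 201280, 82480), (268, 0, 0, 262450, 266275), (276, 0, 0, 204865, 82690), (275, 0, 0, 200770, 81970), (268, 0, 0, 201220, 16945), (268, 0, 0, 262435, 262435), (275, 0, 0, 201220, 16945), (276, 0, 0, 205060, 17185), (275, 0, 0, 200740, 16690), (276, 0, 0, 204820, 17170)]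
  [(268, 12), (275, 12), (276, 12)] = true := by
  decide +kernel

theorem t5_18_18_0 : chkF keys 1 3 p5_18_0 c5_18
  [(362, 513, 513, 105972786, 106041411), (213, 513, 513, 88147506, 40177731), (363, 513, 513, 105972786, 106041411), (211, 513, 513, 88147506, 40177731), (211, 33, 258, 17121891, 21168741), (210, 513, 513, 88147506, 40177731), (213, 513, 513, 88146786, 23404611), (362, 513, 513, 105972546, 105979971), (211, 33, 258, 17122851, 37945701), (210, 513, 513, 88146786, 23404611), (363, 513, 513, 105972546, 105979971), (211, 513, 513, 88146786, 23404611), (363, 513, 513, 105972771, 106037571), (211, 513, 513, 88147491, 40173891), (362, 513, 513, 105972771, 106037571), (213, 513, 513, 88147491, 40173891), (210, 513, 513, 88147491, 40173891), (211, 33, 258, 17121846, 4395621), (211, 33, 258, 17122866, 37949541), (210, 513, 513, 88146726, 6627651), (213, 513, 513, 88146726, 6627651), (362, 513, 513, 105972516, 105914691),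 (211, 513, 513, 88146726, 6627651), (363, 513, 513, 105972516, 105914691), (211, 513, 513, 88146531, 23396931), (363, 513, 513, 105972291, 105972291), (210, 513, 513, 88146531, 23396931), (211, 33, 258, 17122086, 4399461), (362, 513, 513, 105972291, 105972291), (213, 513, 513, 88146531, 23396931), (210, 513, 513, 88146486, 6623811), (211, 33, 258, 17122146, 21176421), (211, 513, 513, 88146486, 6623811), (363, 513, 513, 105972276, 105910851), (213, 513, 513, 88146486, 6623811), (362, 513, 513, 105972276, 105910851)]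
  [(210, 6), (211, 12), (213, 6), (362, 6), (363, 6)] = true := by
  decide +kernel

theorem t5_18_19_0 : chkF keys 1 3 p5_18_0 c5_19
  [(290, 33, 258, 20207106, 36982881), (215, 258, 33, 70387041, 19289091), (303, 258, 33, 73405266, 85336116), (213, 258, 33, 87164481, 39932931), (297, 288, 288, 103830546, 103960596), (294, 33, 258, 34886406, 3417681), (303, 258, 33, 73405746, 86380596), (213, 258, 33, 87164001, 23221251), (290, 33, 258, 20205666, 20205666), (215, 258, 33, 70387281, 35017731), (294, 33, 258, 50745876, 70279701), (297, 288, 288, 56643906, 87121956), (215, 258, 33, 54658326, 2450451), (290, 33, 258, 51664416, 36987216), (297, 288, 288, 103830561, 103960836), (294, 33, 258, 34886496, 20194896), (303, 258, 33, 73405221, 84287796), (213, 258, 33, 87164436, 39867411), (213, 258, 33, 55706646, 5399571), (303, 258, 33, 104863011, 103088436), (294, 33, 258, 50745921, 70345221), (297, 288, 288, 56643876, 87056676),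 (290, 33, 258, 20205606, 3428706), (215, 258, 33, 70387221, 33969171), (297, 288, 288, 103830081, 103895556), (294, 33, 258, 34887216, 36968016), (215, 258, 33, 54657366, 1401891), (290, 33, 258, 51663456, 20210256), (213, 258, 33, 55705956, 22045731), (303, 258, 33, 104862261, 100995636), (294, 33, 258, 50746401, 70410501), (297, 288, 288, 56644116, 87056916), (213, 258, 33, 55705926, 5334051), (303, 258, 33, 104862291, 102040116), (215, 258, 33, 54657381, 17130531), (290, 33, 258, 51663366, 3433041)]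
  [(213, 6), (215, 6), (290, 6), (294, 6), (297, 6), (303, 6)] = true := by
  decide +kernel

theorem t5_18_20_0 : chkF keys 1 3 p5_18_0 c5_20
  [(187, 1, 1, 70260066, 19288116), (130, 1, 1, 55710816, 22176816), (144, 1, 1, 56755281, 85091331), (99, 1, 1, 70387281, 35017731), (113, 16, 16, 67326246, 3555621), (96, 1, 1, 72484401, 39195651), (130, 1, 1, 55711296, 38888496), (187, 1, 1, 70260306, 35016756), (113, 16, 16, 67326486, 3555861), (96, 1, 1, 72483681, 22422531), (144, 1, 1, 56755521, 86074371), (99, 1, 1, 70387041, 19289091), (144, 1, 1, 56755221, 84042771), (99, 1, 1, 70387221, 33969171), (187, 1, 1, 70260006, 2511156), (130, 1, 1, 55710726, 5399601), (96, 1, 1, 72484371, 39191571), (113, 16, 16, 67326306, 20332581), (113, 16, 16, 67326561, 20333061), (96, 1, 1, 72483606, 5645331), (130, 1, 1, 55711236, 38822961), (187, 1, 1, 70260261, 33968436), (99, 1, 1, 70386966, 2511891), (144, 1, 1, 56755476, 86008851), (99,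 1, 1, 70386021, 17191971), (144, 1, 1, 56754501, 83977251), (96, 1, 1, 72483171, 22414371), (113, 16, 16, 67327506, 37109781), (187, 1, 1, 70259286, 1462836), (130, 1, 1, 55709766, 5334066), (96, 1, 1, 72483126, 5641251), (113, 16, 16, 67327521, 37110021), (99, 1, 1, 70386006, 1463331), (144, 1, 1, 56754516, 84960291), (130, 1, 1, 55709796, 22045746), (187, 1, 1, 70259301, 17191476)]
  [(96, 6), (99, 6), (113, 6), (130, 6), (144, 6), (187, 6)] = true := by
  decide +kernel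

theorem t5_18_21_0 : chkF keys 1 3 p5_18_0 c5_21
  [(119, 16, 16, 103830546, 103960596), (127, 1, 1, 103814226, 101863476), (129, 1, 1, 73405266, 85336116), (83, 1, 1, 55707201, 38888451), (107, 16, 16, 100880676, 103825701), (85, 1, 1, 54658401, 19227651), (127, 1, 1, 103814466, 102846516), (119, 16, 16, 103829826, 103895076), (107, 16, 16, 100880916, 103825941), (85, 1, 1, 54658641, 34956291), (129, 1, 1, 73405746, 86380596), (83, 1, 1, 55706721, 22176771), (129, 1, 1, 73405221, 84287796), (83, 1, 1, 55707156, 38822931), (119, 16, 16, 103830561, 103960836), (127, 1, 1, 103814181, 100815156), (85, 1, 1, 54658326, 2450451), (107, 16, 16, 100880706, 103890981), (107, 16, 16, 100880961, 103891461), (85, 1, 1, 54658581, 33907731), (127, 1, 1, 103814436, 102781236), (119, 16, 16, 103829796, 103829796), (83, 1, 1, 55706646, 5399571), (129, 1, 1, 73405731, 86376756), (83, 1, 1, 55705956, 22045731), (129, 1, 1, 73404981, 84283956),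 (85, 1, 1, 54657366, 1401891), (107, 16, 16, 100881426, 103956501), (119, 16, 16, 103830081, 103895556), (127, 1, 1, 103813701, 100749876), (85, 1, 1, 54657381, 17130531), (107, 16, 16, 100881441, 103956741), (83, 1, 1, 55705926, 5334051), (129, 1, 1, 73405011, 85328436), (127, 1, 1, 103813716, 101732916), (119, 16, 16, 103830036, 103830036)]
  [(83, 6), (85, 6), (107, 6), (119, 6), (127, 6), (129, 6)] = true := by
  decide +kernel

theorem t5_18_22_0 : chkF keys 1 3 p5_18_0 c5_22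
  [(120, 16, 16, 3167250, 3297300), (58, 16, 16, 271185, 1319685), (134, 1, 1, 5247810, 5316660), (86, 16, 16, 1196805, 205905), (53, 16, 16, 274770, 1323045), (48, 1, 1, 4199730, 2428980), (58, 16, 16, 271665, 2364165), (120, 16, 16, 3166530, 3231780), (53, 16, 16, 275730, 2371605), (48, 1, 1, 4199250, 1384500), (134, 1, 1, 5248050, 5378100), (86, 16, 16, 1196085, 201810), (134, 1, 1, 5247780, 5251380), (86, 16, 16, 1196880, 1254480), (120, 16, 16, 3167265, 3297540), (58, 16, 16, 271125, 271125), (48, 1, 1, 4199715, 2425140), (53, 16, 16, 274725, 274725), (53, 16, 16, 275745, 2371845), (48, 1, 1, 4199205, 336180), (58, 16, 16, 271635, 2360085), (120, 16, 16, 3166500, 3166500), (86, 16, 16, 1196115, 1246290), (134, 1, 1, 5248035, 5374260), (86, 16, 16, 1197360, 2298960), (134, 1, 1, 5247540, 5247540), (48, 1, 1, 4198995, 1376820), (53, 16, 16, 274965, 274965), (120, 16, 16, 3166785, 3232260), (58, 16, 16, 270645, 267045),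 (48, 1, 1, 4198965, 332340), (53, 16, 16, 275025, 1323525), (86, 16, 16, 1197315, 2294865), (134, 1, 1, 5247555, 5308980), (58, 16, 16, 270675, 1311525), (120, 16, 16, 3166740, 3166740)]
  [(48, 6), (53, 6), (58, 6), (86, 6), (120, 6), (134, 6)] = true := by
  decide +kernel

theorem t5_19_19_0 : chkF keys 1 3 p5_19_0 c5_19
  [(293, 258, 33, 73475331, 86377281), (290, 258, 33, 73475331, 86377281), (287, 513, 513, 104936706, 103100481), (291, 18, 18, 35013456, 68363856), (291, 258, 33, 104932611, 103088961), (288, 258, 33, 88159746, 40185921), (290, 258, 33, 104994096, 103093296), (293, 258, 33, 104994096, 103093296), (291, 258, 33, 104994096, 103093296), (288, 258, 33, 88282656, 40190256), (287, 513, 513, 105059616, 103104816), (291, 18, 18, 34890501, 50603601), (287, 513, 513, 104935506, 102051906), (291, 18, 18, 35013936, 69408336), (293, 258, 33, 73474131, 85328706), (290, 258, 33, 73474131, 85328706), (288, 258, 33, 72429666,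 22425666), (291, 258, 33, 73474131, 85328706), (291, 258, 33, 104993616, 102048816), (288, 258, 33, 88281696, 23413296), (290, 258, 33, 104993616, 102048816), (293, 258, 33, 104993616, 102048816), (291, 18, 18, 19161141, 50599266), (287, 513, 513, 73601616, 85344816), (291, 18, 18, 19285251, 69404001), (287, 513, 513, 73478181, 84291906), (288, 258, 33, 72429606, 5648706), (291, 258, 33, 73474101, 84284226), (293, 258, 33, 73474101, 84284226), (290, 258, 33, 73474101, 84284226), (288, 258, 33, 72552966, 5653041), (291, 258, 33, 73536261, 84288561), (291, 18, 18, 19161171, 51643746), (287, 513, 513, 73601541, 84296241), (290, 258, 33, 104993541, 101000241), (293, 258, 33, 104993541, 101000241)]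
  [(287, 6), (288, 6), (290, 6), (291, 12), (293, 6)] = true := by
  decide +kernel

theorem t5_19_20_0 : chkF keys 1 3 p5_19_0 c5_20
  [(115, 1, 1, 72431106, 39202881), (194, 1, 1, 90256386, 90320961), (149, 1, 1, 73598241, 86393091), (191, 1, 1, 88278561, 40190211), (147, 16, 16, 51781701, 67199826), (113, 1, 1, 73479426, 86388801), (149, 1, 1, 73413906, 86388756), (191, 1, 1, 90313776, 90313776), (115, 1, 1, 72554016, 39207216), (194, 1, 1, 90379296, 90325296), (113, 1, 1, 73602336, 86393136), (147, 16, 16, 51535956, 51405906), (194, 1, 1, 90255426, 90255426), (115, 1, 1, 72429666, 22425666), (147, 16, 16, 51782661, 67265361), (113, 1, 1, 73478226, 85340226), (149, 1, 1, 73597521, 85344771), (191, 1, 1, 88277601, 23413251), (191, 1, 1, 90313536, 90252336), (149, 1, 1, 73412946, 85340196), (113, 1, 1, 73601616, 85344816), (147, 16, 16, 51537156, 52454481), (115, 1, 1, 72553056, 22430256), (194, 1, 1, 90378816, 90260016),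 (147, 16, 16, 51782736, 68313936), (113, 1, 1, 73478181, 84291906), (194, 1, 1, 90255396, 90190146), (115, 1, 1, 72429606, 5648706), (191, 1, 1, 88277526, 6636051), (149, 1, 1, 73597461, 84296211), (113, 1, 1, 73601541, 84296241), (147, 16, 16, 51537216, 52520016), (191, 1, 1, 90313476, 90186801), (149, 1, 1, 73412901, 84291876), (194, 1, 1, 90378756, 90194481), (115, 1, 1, 72552966, 5653041)]
  [(113, 6), (115, 6), (147, 6), (149, 6), (191, 6), (194, 6)] = true := by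
  decide +kernel

theorem t5_19_21_0 : chkF keys 1 3 p5_19_0 c5_21
  [(109, 1, 1, 104932611, 103088961), (104, 1, 1, 72431106, 39202881), (139, 16, 16, 70648101, 67522851), (121, 16, 16, 104071461, 100946211), (112, 1, 1, 73475331, 86377281), (107, 1, 1, 104936706, 103100481), (139, 16, 16, 70279506, 51793956), (121, 16, 16, 103825746, 101928996), (109, 1, 1, 104994096, 103093296), (104, 1, 1, 72554016, 39207216), (107, 1, 1, 105059616, 103104816), (112, 1, 1, 73536816, 86381616), (104, 1, 1, 72429666, 22425666), (109, 1, 1, 104931411, 102040386), (112, 1, 1, 73474131, 85328706), (107, 1, 1, 104935506, 102051906), (139, 16, 16, 70648341, 67523091), (121, 16, 16, 104071701, 100946451), (121, 16, 16, 103826706, 102977556), (139, 16, 16, 70280466, 52842516), (107, 1, 1, 105058896, 102056496), (112, 1, 1, 73536336, 85337136), (109, 1, 1, 104993616, 102048816), (104, 1, 1, 72553056, 22430256), (112, 1, 1, 73474101, 84284226), (107,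 1, 1, 104935461, 101003586), (104, 1, 1, 72429606, 5648706), (109, 1, 1, 104931381, 100995906), (121, 16, 16, 104071761, 101995011), (139, 16, 16, 70648401, 68571651), (107, 1, 1, 105058821, 101007921), (112, 1, 1, 73536261, 84288561), (121, 16, 16, 103826721, 102977796), (139, 16, 16, 70280481, 52842756), (104, 1, 1, 72552966, 5653041), (109, 1, 1, 104993541, 101000241)]
  [(104, 6), (107, 6), (109, 6), (112, 6), (121, 6), (139, 6)] = true := by
  decide +kernel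

theorem t5_19_22_0 : chkF keys 1 3 p5_19_0 c5_22
  [(52, 1, 1, 2180355, 2295105), (122, 16, 16, 3473730, 4280355), (54, 1, 1, 2180355, 2295105), (55, 1, 1, 3473985, 4280835), (135, 16, 16, 205140, 1065765), (53, 1, 1, 2179845, 206145), (54, 1, 1, 2364720, 2364720), (55, 1, 1, 2364240, 1320240), (52, 1, 1, 2364720, 2364720), (122, 16, 16, 3166500, 3166500), (53, 1, 1, 2364240, 1320240), (135, 16, 16, 143685, 78885), (122, 16, 16, 3474450, 4345875), (52, 1, 1, 2179155, 1246530), (135, 16, 16, 206100, 2114325), (53, 1, 1, 2179125, 202050), (54, 1, 1, 2179155, 1246530), (55, 1, 1, 3474465, 4346115), (55, 1, 1, 2364720, 2364720), (54, 1, 1, 2364240, 1320240), (53, 1, 1, 2364720, 2364720), (135, 16, 16, 144405, 144405), (52, 1, 1, 2364240, 1320240), (122, 16, 16, 3166740, 3166740), (135, 16, 16, 206145, 2179845), (53, 1, 1, 2179155, 1246530), (122, 16, 16, 3474465, 4346115), (52, 1, 1, 2179125, 202050), (55, 1, 1, 3474450, 4345875),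 (54, 1, 1, 2179125, 202050), (53, 1, 1, 2364675, 2360625), (135, 16, 16, 144465, 1192965), (55, 1, 1, 2364675, 2360625), (54, 1, 1, 2364165, 271665), (122, 16, 16, 3166785, 3232260), (52, 1, 1, 2364165, 271665)]
  [(52, 6), (53, 6), (54, 6), (55, 6), (122, 6), (135, 6)] = true := by
  decide +kernel

theorem t5_20_20_0 : chkF keys 1 3 p5_20_0 c5_20
  [(364, 0, 0, 106042416, 106042416), (255, 0, 0, 88217136, 40178736), (309, 0, 0, 38999136, 22169136), (245, 0, 0, 88213041, 40178691), (245, 0, 0, 33898851, 21169701), (243, 0, 0, 104990001, 103093251), (255, 0, 0, 88216416, 23405616), (364, 0, 0, 106042176, 105980976), (245, 0, 0, 33900051, 37946901), (243, 0, 0, 104989521, 102048771), (309, 0, 0, 38999616, 38880816), (245, 0, 0, 88212321, 23405571), (309, 0, 0, 38999046, 5391921), (245, 0, 0, 88213011, 40174611), (364, 0, 0, 106042371, 106038321), (255, 0, 0, 88217091, 40174641), (243, 0, 0, 104989971, 103089171), (245, 0, 0,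 33898806, 4396581), (245, 0, 0, 33900081, 37950981), (243, 0, 0, 104989461, 101000211), (255, 0, 0, 88216326, 6628401), (364, 0, 0, 106042116, 105915441), (245, 0, 0, 88212246, 6628371), (309, 0, 0, 38999556, 38815281), (245, 0, 0, 88211811, 23397411), (309, 0, 0, 38998086, 5326386), (243, 0, 0, 104989011, 102040611), (245, 0, 0, 33899286, 4400661), (364, 0, 0, 106041411, 105972786), (255, 0, 0, 88215651, 23397426), (243, 0, 0, 104988981, 100996131), (245, 0, 0, 33899361, 21177861), (245, 0, 0, 88211766, 6624291), (309, 0, 0, 38998116, 22038066), (255, 0, 0, 88215606, 6624306), (364, 0, 0, 106041396, 105911346)]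
  [(243, 6), (245, 12), (255, 6), (309, 6), (364, 6)] = true := by
  decide +kernel

theorem t5_20_21_0 : chkF keys 1 3 p5_20_0 c5_21
  [(365, 0, 0, 106042416, 106042416), (327, 0, 0, 101986896, 101986896), (321, 0, 0, 102962256, 101860656), (235, 0, 0, 37951056, 34948656), (311, 0, 0, 69408096, 19285296), (236, 0, 0, 37950816, 19220016), (327, 0, 0, 101987616, 103035216), (365, 0, 0, 106042176, 105980976), (311, 0, 0, 69408336, 35013936), (236, 0, 0, 37951056, 34948656), (321, 0, 0, 102962496, 102843696), (235, 0, 0, 37950816, 19220016), (321, 0, 0, 102962181, 100812081), (235, 0, 0, 37950981, 33900081), (365, 0, 0, 106042371, 106038321), (327, 0, 0, 101986821, 100938321), (236, 0, 0, 37950726, 2442801), (311, 0, 0, 69408006, 2508081), (311, 0, 0, 69408261, 33965361), (236, 0, 0, 37950981, 33900081), (327, 0, 0, 101987586, 103034961), (365, 0, 0, 106042116, 105915441), (235, 0, 0, 37950726, 2442801), (321, 0, 0, 102962436,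 102778161), (235, 0, 0, 37949541, 17122866), (321, 0, 0, 102961221, 100746546), (236, 0, 0, 37949526, 1394226), (311, 0, 0, 69406806, 1459506), (365, 0, 0, 106041411, 105972786), (327, 0, 0, 101986341, 100938066), (236, 0, 0, 37949541, 17122866), (311, 0, 0, 69406821, 17188146), (235, 0, 0, 37949526, 1394226), (321, 0, 0, 102961236, 101729586), (327, 0, 0, 101986386, 101986386), (365, 0, 0, 106041396, 105911346)]
  [(235, 6), (236, 6), (311, 6), (321, 6), (327, 6), (365, 6)] = true := by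
  decide +kernel

theorem t5_20_22_0 : chkF keys 1 3 p5_20_0 c5_22
  [(366, 0, 0, 5379120, 5379120), (257, 0, 0, 4330800, 2430000), (322, 0, 0, 2298960, 1197360), (237, 0, 0, 213525, 213525), (252, 0, 0, 274770, 1323045), (244, 0, 0, 4326705, 2429955), (257, 0, 0, 4330320, 1385520), (366, 0, 0, 5378880, 5317680), (252, 0, 0, 275730, 2371605), (244, 0, 0, 4326225, 1385475), (322, 0, 0, 2299200, 2180400), (237, 0, 0, 213285, 213285), (322, 0, 0, 2298885, 148785), (237, 0, 0, 213585, 1262085), (366, 0, 0, 5379075, 5375025), (257, 0, 0, 4330755, 2425905), (244, 0, 0, 4326675, 2425875), (252, 0, 0, 274725, 274725), (252, 0, 0, 275745, 2371845), (244, 0, 0, 4326165, 336915), (257, 0, 0, 4330245, 336945), (366, 0, 0, 5378820, 5252145), (237, 0, 0, 213330, 1261605), (322, 0, 0, 2299140, 2114865), (237, 0, 0, 214305, 2310405), (322, 0, 0, 2297925, 83250), (244, 0, 0, 4325715, 1377315), (252, 0, 0, 274965, 274965), (366, 0, 0, 5378115,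 5309490), (257, 0, 0, 4329555, 1377330), (244, 0, 0, 4325685, 332835), (252, 0, 0, 275025, 1323525), (237, 0, 0, 214290, 2310165), (322, 0, 0, 2297940, 1066290), (257, 0, 0, 4329525, 332850), (366, 0, 0, 5378100, 5248050)]
  [(237, 6), (244, 6), (252, 6), (257, 6), (322, 6), (366, 6)] = true := by
  decide +kernel

theorem t5_21_21_0 : chkF keys 1 3 p5_21_0 c5_21
  [(347, 0, 0, 72553056, 22430256), (255, 0, 0, 54924576, 69558576), (315, 0, 0, 103028016, 103028016), (238, 0, 0, 38147376, 69539376), (238, 0, 0, 101859411, 101909586), (235, 0, 0, 39195696, 72488496), (255, 0, 0, 54923856, 68510256), (347, 0, 0, 72554016, 39207216), (238, 0, 0, 101860611, 102958161), (235, 0, 0, 39195456, 72427056), (315, 0, 0, 103027536, 101983536), (238, 0, 0, 38146896, 68494896), (315, 0, 0, 103027971, 103023921), (238, 0, 0, 38147331, 69535281), (347, 0, 0, 72552966, 5653041), (255, 0, 0, 54924546, 69558321), (235, 0, 0, 39195651, 72484401),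 (238, 0, 0, 101859381, 100865106), (238, 0, 0, 101860656, 102962256), (235, 0, 0, 39195396, 72361521), (255, 0, 0, 54923781, 67461681), (347, 0, 0, 72553986, 39206961), (238, 0, 0, 38146821, 67446321), (315, 0, 0, 103027461, 100934961), (238, 0, 0, 38146131, 68486706), (315, 0, 0, 103026771, 101975346), (235, 0, 0, 39194691, 72418866), (238, 0, 0, 101860101, 100869201), (347, 0, 0, 72552486, 5652786), (255, 0, 0, 54923346, 68509746), (235, 0, 0, 39194676, 72357426), (238, 0, 0, 101860176, 101917776), (238, 0, 0, 38146101, 67442226), (315, 0, 0, 103026741, 100930866), (255, 0, 0, 54923301, 67461426), (347, 0, 0, 72552546, 22429746)]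
  [(235, 6), (238, 12), (255, 6), (315, 6), (347, 6)] = true := by
  decide +kernel

theorem t5_21_22_0 : chkF keys 1 3 p5_21_0 c5_22
  [(350, 0, 0, 4395600, 1393200), (257, 0, 0, 1262160, 1262160), (316, 0, 0, 2364720, 2364720), (252, 0, 0, 3474465, 4346115), (240, 0, 0, 3474465, 4346115), (237, 0, 0, 1196085, 201810), (257, 0, 0, 1262880, 2310480), (350, 0, 0, 4396320, 2441520), (240, 0, 0, 3473985, 4280835), (237, 0, 0, 1196805, 205905), (316, 0, 0, 2364240, 1320240), (252, 0, 0, 3473985, 4280835), (316, 0, 0, 2364675, 2360625), (252, 0, 0, 3474450, 4345875), (350, 0, 0, 4395525, 344625), (257, 0, 0, 1262085, 213585), (237, 0, 0, 1196115, 1246290), (240, 0, 0, 3474450, 4345875), (240, 0, 0, 3473940, 4215315), (237, 0, 0, 1196880, 1254480), (257, 0, 0, 1262850, 2310225), (350, 0, 0, 4396290, 2441265), (252, 0, 0, 3473940, 4215315), (316, 0, 0, 2364165, 271665), (252, 0, 0, 3473730, 4280355), (316, 0, 0, 2363475, 1312050),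 (237, 0, 0, 1197315, 2294865), (240, 0, 0, 3473730, 4280355), (350, 0, 0, 4395045, 344370), (257, 0, 0, 1261605, 213330), (237, 0, 0, 1197360, 2298960), (240, 0, 0, 3473700, 4215075), (252, 0, 0, 3473700, 4215075), (316, 0, 0, 2363445, 267570), (257, 0, 0, 1261650, 1261650), (350, 0, 0, 4395090, 1392690)]
  [(237, 6), (240, 6), (252, 6), (257, 6), (316, 6), (350, 6)] = true := by
  decide +kernel

theorem t5_22_22_0 : chkF keys 1 3 p5_22_0 c5_22
  [(352, 0, 0, 201280, 82480), (264, 0, 0, 201760, 147760), (317, 0, 0, 136240, 136240), (241, 0, 0, 12820, 12820), (241, 0, 0, 197665, 147715), (247, 0, 0, 197665, 147715), (264, 0, 0, 201280, 82480), (352, 0, 0, 201760, 147760), (241, 0, 0, 197185, 82435), (247, 0, 0, 197185, 82435), (317, 0, 0, 136000, 74800), (241, 0, 0, 12580, 12580), (317, 0, 0, 136195, 132145), (241, 0, 0, 12865, 78340), (352, 0, 0, 201220, 16945), (264, 0, 0, 201730, 147505), (247, 0, 0, 197650, 147475), (241,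 0, 0, 197650, 147475), (241, 0, 0, 197140, 16915), (247, 0, 0, 197140, 16915), (264, 0, 0, 201220, 16945), (352, 0, 0, 201730, 147505), (241, 0, 0, 12610, 77860), (317, 0, 0, 135940, 9265), (241, 0, 0, 13345, 143620), (317, 0, 0, 135235, 66610), (247, 0, 0, 196930, 81955), (241, 0, 0, 196930, 81955), (352, 0, 0, 200740, 16690), (264, 0, 0, 200770, 81970), (247, 0, 0, 196900, 16675), (241, 0, 0, 196900, 16675), (241, 0, 0, 13330, 143380), (317, 0, 0, 135220, 5170), (264, 0, 0, 200740, 16690), (352, 0, 0, 200770, 81970)]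
  [(241, 12), (247, 6), (264, 6), (317, 6), (352, 6)] = true := by
  decide +kernel

section

variable {κ ι : Type*} [Fintype κ] [Fintype ι] [Inhabited κ] [Inhabited ι]

def r5_0_0 : List (ℕ × ℤ) := [(0, 36)]

theorem h5_0_0 (E : Env κ ι) : inn E 1 3 c5_0 c5_0 = dotS (ek E keys) r5_0_0 :=
  innS_eqZ E _ _ _ _ _ _ _ (chkF_sound E keys 1 3 _ _ _ _ t5_0_0_0) (by decide +kernel)

def r5_0_1 : List (ℕ × ℤ) := [(68, 36)]

theorem h5_0_1 (E : Env κ ι) : inn E 1 3 c5_0 c5_1 = dotS (ek E keys) r5_0_1 :=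
  innS_eqZ E _ _ _ _ _ _ _ (chkF_sound E keys 1 3 _ _ _ _ t5_0_1_0) (by decide +kernel)

def r5_0_2 : List (ℕ × ℤ) := [(44, 36)]

theorem h5_0_2 (E : Env κ ι) : inn E 1 3 c5_0 c5_2 = dotS (ek E keys) r5_0_2 :=
  innS_eqZ E _ _ _ _ _ _ _ (chkF_sound E keys 1 3 _ _ _ _ t5_0_2_0) (by decide +kernel)

def r5_0_3 : List (ℕ × ℤ) := [(50, 36)]

theorem h5_0_3 (E : Env κ ι) : inn E 1 3 c5_0 c5_3 = dotS (ek E keys) r5_0_3 :=
  innS_eqZ E _ _ _ _ _ _ _ (chkF_sound E keys 1 3 _ _ _ _ t5_0_3_0) (by decide +kernel)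

def r5_0_4 : List (ℕ × ℤ) := [(155, 36)]

theorem h5_0_4 (E : Env κ ι) : inn E 1 3 c5_0 c5_4 = dotS (ek E keys) r5_0_4 :=
  innS_eqZ E _ _ _ _ _ _ _ (chkF_sound E keys 1 3 _ _ _ _ t5_0_4_0) (by decide +kernel)

def r5_0_5 : List (ℕ × ℤ) := [(267, 36)]

theorem h5_0_5 (E : Env κ ι) : inn E 1 3 c5_0 c5_5 = dotS (ek E keys) r5_0_5 :=
  innS_eqZ E _ _ _ _ _ _ _ (chkF_sound E keys 1 3 _ _ _ _ t5_0_5_0) (by decide +kernel)

def r5_0_6 : List (ℕ × ℤ) := [(49, 36)]

theorem h5_0_6 (E : Env κ ι) : inn E 1 3 c5_0 c5_6 = dotS (ek E keys) r5_0_6 :=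
  innS_eqZ E _ _ _ _ _ _ _ (chkF_sound E keys 1 3 _ _ _ _ t5_0_6_0) (by decide +kernel)

def r5_0_7 : List (ℕ × ℤ) := [(251, 36)]

theorem h5_0_7 (E : Env κ ι) : inn E 1 3 c5_0 c5_7 = dotS (ek E keys) r5_0_7 :=
  innS_eqZ E _ _ _ _ _ _ _ (chkF_sound E keys 1 3 _ _ _ _ t5_0_7_0) (by decide +kernel)

def r5_0_8 : List (ℕ × ℤ) := [(268, 36)]

theorem h5_0_8 (E : Env κ ι) : inn E 1 3 c5_0 c5_8 = dotS (ek E keys) r5_0_8 :=
  innS_eqZ E _ _ _ _ _ _ _ (chkF_sound E keys 1 3 _ _ _ _ t5_0_8_0) (by decide +kernel)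

def r5_0_9 : List (ℕ × ℤ) := [(254, 36)]

theorem h5_0_9 (E : Env κ ι) : inn E 1 3 c5_0 c5_9 = dotS (ek E keys) r5_0_9 :=
  innS_eqZ E _ _ _ _ _ _ _ (chkF_sound E keys 1 3 _ _ _ _ t5_0_9_0) (by decide +kernel)

def r5_0_10 : List (ℕ × ℤ) := [(265, 36)]

theorem h5_0_10 (E : Env κ ι) : inn E 1 3 c5_0 c5_10 = dotS (ek E keys) r5_0_10 :=
  innS_eqZ E _ _ _ _ _ _ _ (chkF_sound E keys 1 3 _ _ _ _ t5_0_10_0) (by decide +kernel)

def r5_0_11 : List (ℕ × ℤ) := [(269, 36)]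

theorem h5_0_11 (E : Env κ ι) : inn E 1 3 c5_0 c5_11 = dotS (ek E keys) r5_0_11 :=
  innS_eqZ E _ _ _ _ _ _ _ (chkF_sound E keys 1 3 _ _ _ _ t5_0_11_0) (by decide +kernel)

def r5_0_12 : List (ℕ × ℤ) := [(1, 36)]

theorem h5_0_12 (E : Env κ ι) : inn E 1 3 c5_0 c5_12 = dotS (ek E keys) r5_0_12 :=
  innS_eqZ E _ _ _ _ _ _ _ (chkF_sound E keys 1 3 _ _ _ _ t5_0_12_0) (by decide +kernel)

def r5_0_13 : List (ℕ × ℤ) := [(270, 36)]

theorem h5_0_13 (E : Env κ ι) : inn E 1 3 c5_0 c5_13 = dotS (ek E keys) r5_0_13 :=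
  innS_eqZ E _ _ _ _ _ _ _ (chkF_sound E keys 1 3 _ _ _ _ t5_0_13_0) (by decide +kernel)

def r5_0_14 : List (ℕ × ℤ) := [(271, 36)]

theorem h5_0_14 (E : Env κ ι) : inn E 1 3 c5_0 c5_14 = dotS (ek E keys) r5_0_14 :=
  innS_eqZ E _ _ _ _ _ _ _ (chkF_sound E keys 1 3 _ _ _ _ t5_0_14_0) (by decide +kernel)

def r5_0_15 : List (ℕ × ℤ) := [(2, 36)]

theorem h5_0_15 (E : Env κ ι) : inn E 1 3 c5_0 c5_15 = dotS (ek E keys) r5_0_15 :=
  innS_eqZ E _ _ _ _ _ _ _ (chkF_sound E keys 1 3 _ _ _ _ t5_0_15_0) (by decide +kernel)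

def r5_0_16 : List (ℕ × ℤ) := [(40, 36)]

theorem h5_0_16 (E : Env κ ι) : inn E 1 3 c5_0 c5_16 = dotS (ek E keys) r5_0_16 :=
  innS_eqZ E _ _ _ _ _ _ _ (chkF_sound E keys 1 3 _ _ _ _ t5_0_16_0) (by decide +kernel)

def r5_0_17 : List (ℕ × ℤ) := [(272, 36)]

theorem h5_0_17 (E : Env κ ι) : inn E 1 3 c5_0 c5_17 = dotS (ek E keys) r5_0_17 :=
  innS_eqZ E _ _ _ _ _ _ _ (chkF_sound E keys 1 3 _ _ _ _ t5_0_17_0) (by decide +kernel)

def r5_0_18 : List (ℕ × ℤ) := [(273, 36)]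

theorem h5_0_18 (E : Env κ ι) : inn E 1 3 c5_0 c5_18 = dotS (ek E keys) r5_0_18 :=
  innS_eqZ E _ _ _ _ _ _ _ (chkF_sound E keys 1 3 _ _ _ _ t5_0_18_0) (by decide +kernel)

def r5_0_19 : List (ℕ × ℤ) := [(274, 36)]

theorem h5_0_19 (E : Env κ ι) : inn E 1 3 c5_0 c5_19 = dotS (ek E keys) r5_0_19 :=
  innS_eqZ E _ _ _ _ _ _ _ (chkF_sound E keys 1 3 _ _ _ _ t5_0_19_0) (by decide +kernel)

def r5_0_20 : List (ℕ × ℤ) := [(275, 36)]

theorem h5_0_20 (E : Env κ ι) : inn E 1 3 c5_0 c5_20 = dotS (ek E keys) r5_0_20 :=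
  innS_eqZ E _ _ _ _ _ _ _ (chkF_sound E keys 1 3 _ _ _ _ t5_0_20_0) (by decide +kernel)

def r5_0_21 : List (ℕ × ℤ) := [(276, 36)]

theorem h5_0_21 (E : Env κ ι) : inn E 1 3 c5_0 c5_21 = dotS (ek E keys) r5_0_21 :=
  innS_eqZ E _ _ _ _ _ _ _ (chkF_sound E keys 1 3 _ _ _ _ t5_0_21_0) (by decide +kernel)

def r5_0_22 : List (ℕ × ℤ) := [(277, 36)]

theorem h5_0_22 (E : Env κ ι) : inn E 1 3 c5_0 c5_22 = dotS (ek E keys) r5_0_22 :=
  innS_eqZ E _ _ _ _ _ _ _ (chkF_sound E keys 1 3 _ _ _ _ t5_0_22_0) (by decide +kernel)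

def r5_1_1 : List (ℕ × ℤ) := [(62, 24), (278, 12)]

theorem h5_1_1 (E : Env κ ι) : inn E 1 3 c5_1 c5_1 = dotS (ek E keys) r5_1_1 :=
  innS_eqZ E _ _ _ _ _ _ _ (chkF_sound E keys 1 3 _ _ _ _ t5_1_1_0) (by decide +kernel)

def r5_1_2 : List (ℕ × ℤ) := [(62, 12), (63, 24)]

theorem h5_1_2 (E : Env κ ι) : inn E 1 3 c5_1 c5_2 = dotS (ek E keys) r5_1_2 :=
  innS_eqZ E _ _ _ _ _ _ _ (chkF_sound E keys 1 3 _ _ _ _ t5_1_2_0) (by decide +kernel)

def r5_1_3 : List (ℕ × ℤ) := [(208, 24), (209, 12)]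

theorem h5_1_3 (E : Env κ ι) : inn E 1 3 c5_1 c5_3 = dotS (ek E keys) r5_1_3 :=
  innS_eqZ E _ _ _ _ _ _ _ (chkF_sound E keys 1 3 _ _ _ _ t5_1_3_0) (by decide +kernel)

def r5_1_4 : List (ℕ × ℤ) := [(64, 24), (279, 12)]

theorem h5_1_4 (E : Env κ ι) : inn E 1 3 c5_1 c5_4 = dotS (ek E keys) r5_1_4 :=
  innS_eqZ E _ _ _ _ _ _ _ (chkF_sound E keys 1 3 _ _ _ _ t5_1_4_0) (by decide +kernel)

def r5_1_5 : List (ℕ × ℤ) := [(63, 24), (204, 12)]

theorem h5_1_5 (E : Env κ ι) : inn E 1 3 c5_1 c5_5 = dotS (ek E keys) r5_1_5 :=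
  innS_eqZ E _ _ _ _ _ _ _ (chkF_sound E keys 1 3 _ _ _ _ t5_1_5_0) (by decide +kernel)

def r5_1_6 : List (ℕ × ℤ) := [(64, 24), (209, 12)]

theorem h5_1_6 (E : Env κ ι) : inn E 1 3 c5_1 c5_6 = dotS (ek E keys) r5_1_6 :=
  innS_eqZ E _ _ _ _ _ _ _ (chkF_sound E keys 1 3 _ _ _ _ t5_1_6_0) (by decide +kernel)

def r5_1_7 : List (ℕ × ℤ) := [(8, 24), (280, 12)]

theorem h5_1_7 (E : Env κ ι) : inn E 1 3 c5_1 c5_7 = dotS (ek E keys) r5_1_7 :=
  innS_eqZ E _ _ _ _ _ _ _ (chkF_sound E keys 1 3 _ _ _ _ t5_1_7_0) (by decide +kernel)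

def r5_1_8 : List (ℕ × ℤ) := [(29, 24), (93, 12)]

theorem h5_1_8 (E : Env κ ι) : inn E 1 3 c5_1 c5_8 = dotS (ek E keys) r5_1_8 :=
  innS_eqZ E _ _ _ _ _ _ _ (chkF_sound E keys 1 3 _ _ _ _ t5_1_8_0) (by decide +kernel)

def r5_1_9 : List (ℕ × ℤ) := [(8, 12), (29, 24)]

theorem h5_1_9 (E : Env κ ι) : inn E 1 3 c5_1 c5_9 = dotS (ek E keys) r5_1_9 :=
  innS_eqZ E _ _ _ _ _ _ _ (chkF_sound E keys 1 3 _ _ _ _ t5_1_9_0) (by decide +kernel)

def r5_1_10 : List (ℕ × ℤ) := [(8, 12), (79, 24)]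

theorem h5_1_10 (E : Env κ ι) : inn E 1 3 c5_1 c5_10 = dotS (ek E keys) r5_1_10 :=
  innS_eqZ E _ _ _ _ _ _ _ (chkF_sound E keys 1 3 _ _ _ _ t5_1_10_0) (by decide +kernel)

def r5_1_11 : List (ℕ × ℤ) := [(28, 24), (95, 12)]

theorem h5_1_11 (E : Env κ ι) : inn E 1 3 c5_1 c5_11 = dotS (ek E keys) r5_1_11 :=
  innS_eqZ E _ _ _ _ _ _ _ (chkF_sound E keys 1 3 _ _ _ _ t5_1_11_0) (by decide +kernel)

def r5_1_12 : List (ℕ × ℤ) := [(46, 24), (69, 12)]

theorem h5_1_12 (E : Env κ ι) : inn E 1 3 c5_1 c5_12 = dotS (ek E keys) r5_1_12 :=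
  innS_eqZ E _ _ _ _ _ _ _ (chkF_sound E keys 1 3 _ _ _ _ t5_1_12_0) (by decide +kernel)

def r5_1_13 : List (ℕ × ℤ) := [(90, 12), (91, 24)]

theorem h5_1_13 (E : Env κ ι) : inn E 1 3 c5_1 c5_13 = dotS (ek E keys) r5_1_13 :=
  innS_eqZ E _ _ _ _ _ _ _ (chkF_sound E keys 1 3 _ _ _ _ t5_1_13_0) (by decide +kernel)

def r5_1_14 : List (ℕ × ℤ) := [(9, 12), (28, 24)]

theorem h5_1_14 (E : Env κ ι) : inn E 1 3 c5_1 c5_14 = dotS (ek E keys) r5_1_14 :=
  innS_eqZ E _ _ _ _ _ _ _ (chkF_sound E keys 1 3 _ _ _ _ t5_1_14_0) (by decide +kernel)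

def r5_1_15 : List (ℕ × ℤ) := [(46, 24), (70, 12)]

theorem h5_1_15 (E : Env κ ι) : inn E 1 3 c5_1 c5_15 = dotS (ek E keys) r5_1_15 :=
  innS_eqZ E _ _ _ _ _ _ _ (chkF_sound E keys 1 3 _ _ _ _ t5_1_15_0) (by decide +kernel)

def r5_1_16 : List (ℕ × ℤ) := [(61, 24), (66, 12)]

theorem h5_1_16 (E : Env κ ι) : inn E 1 3 c5_1 c5_16 = dotS (ek E keys) r5_1_16 :=
  innS_eqZ E _ _ _ _ _ _ _ (chkF_sound E keys 1 3 _ _ _ _ t5_1_16_0) (by decide +kernel)

def r5_1_17 : List (ℕ × ℤ) := [(7, 12), (281, 24)]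

theorem h5_1_17 (E : Env κ ι) : inn E 1 3 c5_1 c5_17 = dotS (ek E keys) r5_1_17 :=
  innS_eqZ E _ _ _ _ _ _ _ (chkF_sound E keys 1 3 _ _ _ _ t5_1_17_0) (by decide +kernel)

def r5_1_18 : List (ℕ × ℤ) := [(63, 12), (208, 12), (282, 12)]

theorem h5_1_18 (E : Env κ ι) : inn E 1 3 c5_1 c5_18 = dotS (ek E keys) r5_1_18 :=
  innS_eqZ E _ _ _ _ _ _ _ (chkF_sound E keys 1 3 _ _ _ _ t5_1_18_0) (by decide +kernel)

def r5_1_19 : List (ℕ × ℤ) := [(64, 12), (204, 12), (208, 12)]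

theorem h5_1_19 (E : Env κ ι) : inn E 1 3 c5_1 c5_19 = dotS (ek E keys) r5_1_19 :=
  innS_eqZ E _ _ _ _ _ _ _ (chkF_sound E keys 1 3 _ _ _ _ t5_1_19_0) (by decide +kernel)

def r5_1_20 : List (ℕ × ℤ) := [(28, 12), (92, 12), (94, 12)]

theorem h5_1_20 (E : Env κ ι) : inn E 1 3 c5_1 c5_20 = dotS (ek E keys) r5_1_20 :=
  innS_eqZ E _ _ _ _ _ _ _ (chkF_sound E keys 1 3 _ _ _ _ t5_1_20_0) (by decide +kernel)

def r5_1_21 : List (ℕ × ℤ) := [(29, 12), (72, 12), (79, 12)]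

theorem h5_1_21 (E : Env κ ι) : inn E 1 3 c5_1 c5_21 = dotS (ek E keys) r5_1_21 :=
  innS_eqZ E _ _ _ _ _ _ _ (chkF_sound E keys 1 3 _ _ _ _ t5_1_21_0) (by decide +kernel)

def r5_1_22 : List (ℕ × ℤ) := [(46, 12), (67, 12), (74, 12)]

theorem h5_1_22 (E : Env κ ι) : inn E 1 3 c5_1 c5_22 = dotS (ek E keys) r5_1_22 :=
  innS_eqZ E _ _ _ _ _ _ _ (chkF_sound E keys 1 3 _ _ _ _ t5_1_22_0) (by decide +kernel)

def r5_2_2 : List (ℕ × ℤ) := [(63, 12), (210, 24)]

theorem h5_2_2 (E : Env κ ι) : inn E 1 3 c5_2 c5_2 = dotS (ek E keys) r5_2_2 :=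
  innS_eqZ E _ _ _ _ _ _ _ (chkF_sound E keys 1 3 _ _ _ _ t5_2_2_0) (by decide +kernel)

def r5_2_3 : List (ℕ × ℤ) := [(36, 12), (211, 24)]

theorem h5_2_3 (E : Env κ ι) : inn E 1 3 c5_2 c5_3 = dotS (ek E keys) r5_2_3 :=
  innS_eqZ E _ _ _ _ _ _ _ (chkF_sound E keys 1 3 _ _ _ _ t5_2_3_0) (by decide +kernel)

def r5_2_4 : List (ℕ × ℤ) := [(212, 24), (283, 12)]

theorem h5_2_4 (E : Env κ ι) : inn E 1 3 c5_2 c5_4 = dotS (ek E keys) r5_2_4 :=
  innS_eqZ E _ _ _ _ _ _ _ (chkF_sound E keys 1 3 _ _ _ _ t5_2_4_0) (by decide +kernel)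

def r5_2_5 : List (ℕ × ℤ) := [(205, 12), (210, 24)]

theorem h5_2_5 (E : Env κ ι) : inn E 1 3 c5_2 c5_5 = dotS (ek E keys) r5_2_5 :=
  innS_eqZ E _ _ _ _ _ _ _ (chkF_sound E keys 1 3 _ _ _ _ t5_2_5_0) (by decide +kernel)

def r5_2_6 : List (ℕ × ℤ) := [(36, 12), (212, 24)]

theorem h5_2_6 (E : Env κ ι) : inn E 1 3 c5_2 c5_6 = dotS (ek E keys) r5_2_6 :=
  innS_eqZ E _ _ _ _ _ _ _ (chkF_sound E keys 1 3 _ _ _ _ t5_2_6_0) (by decide +kernel)

def r5_2_7 : List (ℕ × ℤ) := [(26, 24), (284, 12)]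

theorem h5_2_7 (E : Env κ ι) : inn E 1 3 c5_2 c5_7 = dotS (ek E keys) r5_2_7 :=
  innS_eqZ E _ _ _ _ _ _ _ (chkF_sound E keys 1 3 _ _ _ _ t5_2_7_0) (by decide +kernel)

def r5_2_8 : List (ℕ × ℤ) := [(82, 24), (98, 12)]

theorem h5_2_8 (E : Env κ ι) : inn E 1 3 c5_2 c5_8 = dotS (ek E keys) r5_2_8 :=
  innS_eqZ E _ _ _ _ _ _ _ (chkF_sound E keys 1 3 _ _ _ _ t5_2_8_0) (by decide +kernel)

def r5_2_9 : List (ℕ × ℤ) := [(26, 12), (82, 24)]

theorem h5_2_9 (E : Env κ ι) : inn E 1 3 c5_2 c5_9 = dotS (ek E keys) r5_2_9 :=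
  innS_eqZ E _ _ _ _ _ _ _ (chkF_sound E keys 1 3 _ _ _ _ t5_2_9_0) (by decide +kernel)

def r5_2_10 : List (ℕ × ℤ) := [(18, 12), (81, 24)]

theorem h5_2_10 (E : Env κ ι) : inn E 1 3 c5_2 c5_10 = dotS (ek E keys) r5_2_10 :=
  innS_eqZ E _ _ _ _ _ _ _ (chkF_sound E keys 1 3 _ _ _ _ t5_2_10_0) (by decide +kernel)

def r5_2_11 : List (ℕ × ℤ) := [(80, 24), (101, 12)]

theorem h5_2_11 (E : Env κ ι) : inn E 1 3 c5_2 c5_11 = dotS (ek E keys) r5_2_11 :=
  innS_eqZ E _ _ _ _ _ _ _ (chkF_sound E keys 1 3 _ _ _ _ t5_2_11_0) (by decide +kernel)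

def r5_2_12 : List (ℕ × ℤ) := [(45, 12), (47, 24)]

theorem h5_2_12 (E : Env κ ι) : inn E 1 3 c5_2 c5_12 = dotS (ek E keys) r5_2_12 :=
  innS_eqZ E _ _ _ _ _ _ _ (chkF_sound E keys 1 3 _ _ _ _ t5_2_12_0) (by decide +kernel)

def r5_2_13 : List (ℕ × ℤ) := [(17, 24), (91, 12)]

theorem h5_2_13 (E : Env κ ι) : inn E 1 3 c5_2 c5_13 = dotS (ek E keys) r5_2_13 :=
  innS_eqZ E _ _ _ _ _ _ _ (chkF_sound E keys 1 3 _ _ _ _ t5_2_13_0) (by decide +kernel)

def r5_2_14 : List (ℕ × ℤ) := [(28, 12), (99, 24)]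

theorem h5_2_14 (E : Env κ ι) : inn E 1 3 c5_2 c5_14 = dotS (ek E keys) r5_2_14 :=
  innS_eqZ E _ _ _ _ _ _ _ (chkF_sound E keys 1 3 _ _ _ _ t5_2_14_0) (by decide +kernel)

def r5_2_15 : List (ℕ × ℤ) := [(46, 12), (86, 24)]

theorem h5_2_15 (E : Env κ ι) : inn E 1 3 c5_2 c5_15 = dotS (ek E keys) r5_2_15 :=
  innS_eqZ E _ _ _ _ _ _ _ (chkF_sound E keys 1 3 _ _ _ _ t5_2_15_0) (by decide +kernel)

def r5_2_16 : List (ℕ × ℤ) := [(34, 24), (61, 12)]

theorem h5_2_16 (E : Env κ ι) : inn E 1 3 c5_2 c5_16 = dotS (ek E keys) r5_2_16 :=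
  innS_eqZ E _ _ _ _ _ _ _ (chkF_sound E keys 1 3 _ _ _ _ t5_2_16_0) (by decide +kernel)

def r5_2_17 : List (ℕ × ℤ) := [(24, 12), (285, 24)]

theorem h5_2_17 (E : Env κ ι) : inn E 1 3 c5_2 c5_17 = dotS (ek E keys) r5_2_17 :=
  innS_eqZ E _ _ _ _ _ _ _ (chkF_sound E keys 1 3 _ _ _ _ t5_2_17_0) (by decide +kernel)

def r5_2_18 : List (ℕ × ℤ) := [(210, 12), (211, 12), (286, 12)]

theorem h5_2_18 (E : Env κ ι) : inn E 1 3 c5_2 c5_18 = dotS (ek E keys) r5_2_18 :=
  innS_eqZ E _ _ _ _ _ _ _ (chkF_sound E keys 1 3 _ _ _ _ t5_2_18_0) (by decide +kernel)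

def r5_2_19 : List (ℕ × ℤ) := [(205, 12), (211, 12), (212, 12)]

theorem h5_2_19 (E : Env κ ι) : inn E 1 3 c5_2 c5_19 = dotS (ek E keys) r5_2_19 :=
  innS_eqZ E _ _ _ _ _ _ _ (chkF_sound E keys 1 3 _ _ _ _ t5_2_19_0) (by decide +kernel)

def r5_2_20 : List (ℕ × ℤ) := [(80, 12), (96, 12), (100, 12)]

theorem h5_2_20 (E : Env κ ι) : inn E 1 3 c5_2 c5_20 = dotS (ek E keys) r5_2_20 :=
  innS_eqZ E _ _ _ _ _ _ _ (chkF_sound E keys 1 3 _ _ _ _ t5_2_20_0) (by decide +kernel)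

def r5_2_21 : List (ℕ × ℤ) := [(73, 12), (81, 12), (97, 12)]

theorem h5_2_21 (E : Env κ ι) : inn E 1 3 c5_2 c5_21 = dotS (ek E keys) r5_2_21 :=
  innS_eqZ E _ _ _ _ _ _ _ (chkF_sound E keys 1 3 _ _ _ _ t5_2_21_0) (by decide +kernel)

def r5_2_22 : List (ℕ × ℤ) := [(47, 12), (48, 12), (77, 12)]

theorem h5_2_22 (E : Env κ ι) : inn E 1 3 c5_2 c5_22 = dotS (ek E keys) r5_2_22 :=
  innS_eqZ E _ _ _ _ _ _ _ (chkF_sound E keys 1 3 _ _ _ _ t5_2_22_0) (by decide +kernel)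

def r5_3_3 : List (ℕ × ℤ) := [(214, 12), (287, 24)]

theorem h5_3_3 (E : Env κ ι) : inn E 1 3 c5_3 c5_3 = dotS (ek E keys) r5_3_3 :=
  innS_eqZ E _ _ _ _ _ _ _ (chkF_sound E keys 1 3 _ _ _ _ t5_3_3_0) (by decide +kernel)

def r5_3_4 : List (ℕ × ℤ) := [(288, 12), (289, 24)]

theorem h5_3_4 (E : Env κ ι) : inn E 1 3 c5_3 c5_4 = dotS (ek E keys) r5_3_4 :=
  innS_eqZ E _ _ _ _ _ _ _ (chkF_sound E keys 1 3 _ _ _ _ t5_3_4_0) (by decide +kernel)

def r5_3_5 : List (ℕ × ℤ) := [(205, 12), (290, 24)]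

theorem h5_3_5 (E : Env κ ι) : inn E 1 3 c5_3 c5_5 = dotS (ek E keys) r5_3_5 :=
  innS_eqZ E _ _ _ _ _ _ _ (chkF_sound E keys 1 3 _ _ _ _ t5_3_5_0) (by decide +kernel)

def r5_3_6 : List (ℕ × ℤ) := [(37, 12), (291, 24)]

theorem h5_3_6 (E : Env κ ι) : inn E 1 3 c5_3 c5_6 = dotS (ek E keys) r5_3_6 :=
  innS_eqZ E _ _ _ _ _ _ _ (chkF_sound E keys 1 3 _ _ _ _ t5_3_6_0) (by decide +kernel)

def r5_3_7 : List (ℕ × ℤ) := [(88, 12), (192, 24)]

theorem h5_3_7 (E : Env κ ι) : inn E 1 3 c5_3 c5_7 = dotS (ek E keys) r5_3_7 :=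
  innS_eqZ E _ _ _ _ _ _ _ (chkF_sound E keys 1 3 _ _ _ _ t5_3_7_0) (by decide +kernel)

def r5_3_8 : List (ℕ × ℤ) := [(105, 24), (150, 12)]

theorem h5_3_8 (E : Env κ ι) : inn E 1 3 c5_3 c5_8 = dotS (ek E keys) r5_3_8 :=
  innS_eqZ E _ _ _ _ _ _ _ (chkF_sound E keys 1 3 _ _ _ _ t5_3_8_0) (by decide +kernel)

def r5_3_9 : List (ℕ × ℤ) := [(27, 12), (117, 24)]

theorem h5_3_9 (E : Env κ ι) : inn E 1 3 c5_3 c5_9 = dotS (ek E keys) r5_3_9 :=
  innS_eqZ E _ _ _ _ _ _ _ (chkF_sound E keys 1 3 _ _ _ _ t5_3_9_0) (by decide +kernel)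

def r5_3_10 : List (ℕ × ℤ) := [(84, 12), (139, 24)]

theorem h5_3_10 (E : Env κ ι) : inn E 1 3 c5_3 c5_10 = dotS (ek E keys) r5_3_10 :=
  innS_eqZ E _ _ _ _ _ _ _ (chkF_sound E keys 1 3 _ _ _ _ t5_3_10_0) (by decide +kernel)

def r5_3_11 : List (ℕ × ℤ) := [(101, 12), (149, 24)]

theorem h5_3_11 (E : Env κ ι) : inn E 1 3 c5_3 c5_11 = dotS (ek E keys) r5_3_11 :=
  innS_eqZ E _ _ _ _ _ _ _ (chkF_sound E keys 1 3 _ _ _ _ t5_3_11_0) (by decide +kernel)

def r5_3_12 : List (ℕ × ℤ) := [(45, 12), (54, 24)]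

theorem h5_3_12 (E : Env κ ι) : inn E 1 3 c5_3 c5_12 = dotS (ek E keys) r5_3_12 :=
  innS_eqZ E _ _ _ _ _ _ _ (chkF_sound E keys 1 3 _ _ _ _ t5_3_12_0) (by decide +kernel)

def r5_3_13 : List (ℕ × ℤ) := [(185, 24), (190, 12)]

theorem h5_3_13 (E : Env κ ι) : inn E 1 3 c5_3 c5_13 = dotS (ek E keys) r5_3_13 :=
  innS_eqZ E _ _ _ _ _ _ _ (chkF_sound E keys 1 3 _ _ _ _ t5_3_13_0) (by decide +kernel)

def r5_3_14 : List (ℕ × ℤ) := [(130, 24), (174, 12)]

theorem h5_3_14 (E : Env κ ι) : inn E 1 3 c5_3 c5_14 = dotS (ek E keys) r5_3_14 :=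
  innS_eqZ E _ _ _ _ _ _ _ (chkF_sound E keys 1 3 _ _ _ _ t5_3_14_0) (by decide +kernel)

def r5_3_15 : List (ℕ × ℤ) := [(58, 24), (138, 12)]

theorem h5_3_15 (E : Env κ ι) : inn E 1 3 c5_3 c5_15 = dotS (ek E keys) r5_3_15 :=
  innS_eqZ E _ _ _ _ _ _ _ (chkF_sound E keys 1 3 _ _ _ _ t5_3_15_0) (by decide +kernel)

def r5_3_16 : List (ℕ × ℤ) := [(56, 24), (142, 12)]

theorem h5_3_16 (E : Env κ ι) : inn E 1 3 c5_3 c5_16 = dotS (ek E keys) r5_3_16 :=
  innS_eqZ E _ _ _ _ _ _ _ (chkF_sound E keys 1 3 _ _ _ _ t5_3_16_0) (by decide +kernel)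

def r5_3_17 : List (ℕ × ℤ) := [(32, 12), (292, 24)]

theorem h5_3_17 (E : Env κ ι) : inn E 1 3 c5_3 c5_17 = dotS (ek E keys) r5_3_17 :=
  innS_eqZ E _ _ _ _ _ _ _ (chkF_sound E keys 1 3 _ _ _ _ t5_3_17_0) (by decide +kernel)

def r5_3_18 : List (ℕ × ℤ) := [(213, 12), (293, 12), (294, 12)]

theorem h5_3_18 (E : Env κ ι) : inn E 1 3 c5_3 c5_18 = dotS (ek E keys) r5_3_18 :=
  innS_eqZ E _ _ _ _ _ _ _ (chkF_sound E keys 1 3 _ _ _ _ t5_3_18_0) (by decide +kernel)

def r5_3_19 : List (ℕ × ℤ) := [(215, 12), (291, 12), (295, 12)]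

theorem h5_3_19 (E : Env κ ι) : inn E 1 3 c5_3 c5_19 = dotS (ek E keys) r5_3_19 :=
  innS_eqZ E _ _ _ _ _ _ _ (chkF_sound E keys 1 3 _ _ _ _ t5_3_19_0) (by decide +kernel)

def r5_3_20 : List (ℕ × ℤ) := [(113, 12), (148, 12), (191, 12)]

theorem h5_3_20 (E : Env κ ι) : inn E 1 3 c5_3 c5_20 = dotS (ek E keys) r5_3_20 :=
  innS_eqZ E _ _ _ _ _ _ _ (chkF_sound E keys 1 3 _ _ _ _ t5_3_20_0) (by decide +kernel)

def r5_3_21 : List (ℕ × ℤ) := [(121, 12), (131, 12), (140, 12)]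

theorem h5_3_21 (E : Env κ ι) : inn E 1 3 c5_3 c5_21 = dotS (ek E keys) r5_3_21 :=
  innS_eqZ E _ _ _ _ _ _ _ (chkF_sound E keys 1 3 _ _ _ _ t5_3_21_0) (by decide +kernel)

def r5_3_22 : List (ℕ × ℤ) := [(53, 12), (55, 12), (143, 12)]

theorem h5_3_22 (E : Env κ ι) : inn E 1 3 c5_3 c5_22 = dotS (ek E keys) r5_3_22 :=
  innS_eqZ E _ _ _ _ _ _ _ (chkF_sound E keys 1 3 _ _ _ _ t5_3_22_0) (by decide +kernel)

def r5_4_4 : List (ℕ × ℤ) := [(217, 24), (296, 12)]

theorem h5_4_4 (E : Env κ ι) : inn E 1 3 c5_4 c5_4 = dotS (ek E keys) r5_4_4 :=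
  innS_eqZ E _ _ _ _ _ _ _ (chkF_sound E keys 1 3 _ _ _ _ t5_4_4_0) (by decide +kernel)

def r5_4_5 : List (ℕ × ℤ) := [(212, 24), (297, 12)]

theorem h5_4_5 (E : Env κ ι) : inn E 1 3 c5_4 c5_5 = dotS (ek E keys) r5_4_5 :=
  innS_eqZ E _ _ _ _ _ _ _ (chkF_sound E keys 1 3 _ _ _ _ t5_4_5_0) (by decide +kernel)

def r5_4_6 : List (ℕ × ℤ) := [(288, 12), (291, 24)]

theorem h5_4_6 (E : Env κ ι) : inn E 1 3 c5_4 c5_6 = dotS (ek E keys) r5_4_6 :=
  innS_eqZ E _ _ _ _ _ _ _ (chkF_sound E keys 1 3 _ _ _ _ t5_4_6_0) (by decide +kernel)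

def r5_4_7 : List (ℕ × ℤ) := [(23, 24), (298, 12)]

theorem h5_4_7 (E : Env κ ι) : inn E 1 3 c5_4 c5_7 = dotS (ek E keys) r5_4_7 :=
  innS_eqZ E _ _ _ _ _ _ _ (chkF_sound E keys 1 3 _ _ _ _ t5_4_7_0) (by decide +kernel)

def r5_4_8 : List (ℕ × ℤ) := [(141, 24), (200, 12)]

theorem h5_4_8 (E : Env κ ι) : inn E 1 3 c5_4 c5_8 = dotS (ek E keys) r5_4_8 :=
  innS_eqZ E _ _ _ _ _ _ _ (chkF_sound E keys 1 3 _ _ _ _ t5_4_8_0) (by decide +kernel)

def r5_4_9 : List (ℕ × ℤ) := [(104, 12), (109, 24)]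

theorem h5_4_9 (E : Env κ ι) : inn E 1 3 c5_4 c5_9 = dotS (ek E keys) r5_4_9 :=
  innS_eqZ E _ _ _ _ _ _ _ (chkF_sound E keys 1 3 _ _ _ _ t5_4_9_0) (by decide +kernel)

def r5_4_10 : List (ℕ × ℤ) := [(104, 12), (137, 24)]

theorem h5_4_10 (E : Env κ ι) : inn E 1 3 c5_4 c5_10 = dotS (ek E keys) r5_4_10 :=
  innS_eqZ E _ _ _ _ _ _ _ (chkF_sound E keys 1 3 _ _ _ _ t5_4_10_0) (by decide +kernel)

def r5_4_11 : List (ℕ × ℤ) := [(173, 24), (194, 12)]

theorem h5_4_11 (E : Env κ ι) : inn E 1 3 c5_4 c5_11 = dotS (ek E keys) r5_4_11 :=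
  innS_eqZ E _ _ _ _ _ _ _ (chkF_sound E keys 1 3 _ _ _ _ t5_4_11_0) (by decide +kernel)

def r5_4_12 : List (ℕ × ℤ) := [(57, 24), (122, 12)]

theorem h5_4_12 (E : Env κ ι) : inn E 1 3 c5_4 c5_12 = dotS (ek E keys) r5_4_12 :=
  innS_eqZ E _ _ _ _ _ _ _ (chkF_sound E keys 1 3 _ _ _ _ t5_4_12_0) (by decide +kernel)

def r5_4_13 : List (ℕ × ℤ) := [(22, 24), (299, 12)]

theorem h5_4_13 (E : Env κ ι) : inn E 1 3 c5_4 c5_13 = dotS (ek E keys) r5_4_13 :=
  innS_eqZ E _ _ _ _ _ _ _ (chkF_sound E keys 1 3 _ _ _ _ t5_4_13_0) (by decide +kernel)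

def r5_4_14 : List (ℕ × ℤ) := [(169, 12), (173, 24)]

theorem h5_4_14 (E : Env κ ι) : inn E 1 3 c5_4 c5_14 = dotS (ek E keys) r5_4_14 :=
  innS_eqZ E _ _ _ _ _ _ _ (chkF_sound E keys 1 3 _ _ _ _ t5_4_14_0) (by decide +kernel)

def r5_4_15 : List (ℕ × ℤ) := [(57, 24), (171, 12)]

theorem h5_4_15 (E : Env κ ι) : inn E 1 3 c5_4 c5_15 = dotS (ek E keys) r5_4_15 :=
  innS_eqZ E _ _ _ _ _ _ _ (chkF_sound E keys 1 3 _ _ _ _ t5_4_15_0) (by decide +kernel)

def r5_4_16 : List (ℕ × ℤ) := [(35, 24), (179, 12)]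

theorem h5_4_16 (E : Env κ ι) : inn E 1 3 c5_4 c5_16 = dotS (ek E keys) r5_4_16 :=
  innS_eqZ E _ _ _ _ _ _ _ (chkF_sound E keys 1 3 _ _ _ _ t5_4_16_0) (by decide +kernel)

def r5_4_17 : List (ℕ × ℤ) := [(153, 12), (163, 24)]

theorem h5_4_17 (E : Env κ ι) : inn E 1 3 c5_4 c5_17 = dotS (ek E keys) r5_4_17 :=
  innS_eqZ E _ _ _ _ _ _ _ (chkF_sound E keys 1 3 _ _ _ _ t5_4_17_0) (by decide +kernel)

def r5_4_18 : List (ℕ × ℤ) := [(212, 12), (215, 12), (300, 12)]

theorem h5_4_18 (E : Env κ ι) : inn E 1 3 c5_4 c5_18 = dotS (ek E keys) r5_4_18 :=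
  innS_eqZ E _ _ _ _ _ _ _ (chkF_sound E keys 1 3 _ _ _ _ t5_4_18_0) (by decide +kernel)

def r5_4_19 : List (ℕ × ℤ) := [(289, 12), (291, 12), (301, 12)]

theorem h5_4_19 (E : Env κ ι) : inn E 1 3 c5_4 c5_19 = dotS (ek E keys) r5_4_19 :=
  innS_eqZ E _ _ _ _ _ _ _ (chkF_sound E keys 1 3 _ _ _ _ t5_4_19_0) (by decide +kernel)

def r5_4_20 : List (ℕ × ℤ) := [(115, 12), (173, 12), (199, 12)]

theorem h5_4_20 (E : Env κ ι) : inn E 1 3 c5_4 c5_20 = dotS (ek E keys) r5_4_20 :=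
  innS_eqZ E _ _ _ _ _ _ _ (chkF_sound E keys 1 3 _ _ _ _ t5_4_20_0) (by decide +kernel)

def r5_4_21 : List (ℕ × ℤ) := [(109, 12), (137, 12), (176, 12)]

theorem h5_4_21 (E : Env κ ι) : inn E 1 3 c5_4 c5_21 = dotS (ek E keys) r5_4_21 :=
  innS_eqZ E _ _ _ _ _ _ _ (chkF_sound E keys 1 3 _ _ _ _ t5_4_21_0) (by decide +kernel)

def r5_4_22 : List (ℕ × ℤ) := [(52, 12), (57, 12), (182, 12)]

theorem h5_4_22 (E : Env κ ι) : inn E 1 3 c5_4 c5_22 = dotS (ek E keys) r5_4_22 :=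
  innS_eqZ E _ _ _ _ _ _ _ (chkF_sound E keys 1 3 _ _ _ _ t5_4_22_0) (by decide +kernel)

def r5_5_5 : List (ℕ × ℤ) := [(213, 24), (286, 12)]

theorem h5_5_5 (E : Env κ ι) : inn E 1 3 c5_5 c5_5 = dotS (ek E keys) r5_5_5 :=
  innS_eqZ E _ _ _ _ _ _ _ (chkF_sound E keys 1 3 _ _ _ _ t5_5_5_0) (by decide +kernel)

def r5_5_6 : List (ℕ × ℤ) := [(207, 12), (294, 24)]

theorem h5_5_6 (E : Env κ ι) : inn E 1 3 c5_5 c5_6 = dotS (ek E keys) r5_5_6 :=
  innS_eqZ E _ _ _ _ _ _ _ (chkF_sound E keys 1 3 _ _ _ _ t5_5_6_0) (by decide +kernel)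

def r5_5_7 : List (ℕ × ℤ) := [(26, 24), (75, 12)]

theorem h5_5_7 (E : Env κ ι) : inn E 1 3 c5_5 c5_7 = dotS (ek E keys) r5_5_7 :=
  innS_eqZ E _ _ _ _ _ _ _ (chkF_sound E keys 1 3 _ _ _ _ t5_5_7_0) (by decide +kernel)

def r5_5_8 : List (ℕ × ℤ) := [(82, 24), (146, 12)]

theorem h5_5_8 (E : Env κ ι) : inn E 1 3 c5_5 c5_8 = dotS (ek E keys) r5_5_8 :=
  innS_eqZ E _ _ _ _ _ _ _ (chkF_sound E keys 1 3 _ _ _ _ t5_5_8_0) (by decide +kernel)

def r5_5_9 : List (ℕ × ℤ) := [(76, 12), (114, 24)]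

theorem h5_5_9 (E : Env κ ι) : inn E 1 3 c5_5 c5_9 = dotS (ek E keys) r5_5_9 :=
  innS_eqZ E _ _ _ _ _ _ _ (chkF_sound E keys 1 3 _ _ _ _ t5_5_9_0) (by decide +kernel)

def r5_5_10 : List (ℕ × ℤ) := [(73, 12), (107, 24)]

theorem h5_5_10 (E : Env κ ι) : inn E 1 3 c5_5 c5_10 = dotS (ek E keys) r5_5_10 :=
  innS_eqZ E _ _ _ _ _ _ _ (chkF_sound E keys 1 3 _ _ _ _ t5_5_10_0) (by decide +kernel)

def r5_5_11 : List (ℕ × ℤ) := [(100, 12), (113, 24)]

theorem h5_5_11 (E : Env κ ι) : inn E 1 3 c5_5 c5_11 = dotS (ek E keys) r5_5_11 :=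
  innS_eqZ E _ _ _ _ _ _ _ (chkF_sound E keys 1 3 _ _ _ _ t5_5_11_0) (by decide +kernel)

def r5_5_12 : List (ℕ × ℤ) := [(53, 24), (77, 12)]

theorem h5_5_12 (E : Env κ ι) : inn E 1 3 c5_5 c5_12 = dotS (ek E keys) r5_5_12 :=
  innS_eqZ E _ _ _ _ _ _ _ (chkF_sound E keys 1 3 _ _ _ _ t5_5_12_0) (by decide +kernel)

def r5_5_13 : List (ℕ × ℤ) := [(17, 24), (186, 12)]

theorem h5_5_13 (E : Env κ ι) : inn E 1 3 c5_5 c5_13 = dotS (ek E keys) r5_5_13 :=
  innS_eqZ E _ _ _ _ _ _ _ (chkF_sound E keys 1 3 _ _ _ _ t5_5_13_0) (by decide +kernel)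

def r5_5_14 : List (ℕ × ℤ) := [(99, 24), (106, 12)]

theorem h5_5_14 (E : Env κ ι) : inn E 1 3 c5_5 c5_14 = dotS (ek E keys) r5_5_14 :=
  innS_eqZ E _ _ _ _ _ _ _ (chkF_sound E keys 1 3 _ _ _ _ t5_5_14_0) (by decide +kernel)

def r5_5_15 : List (ℕ × ℤ) := [(86, 24), (108, 12)]

theorem h5_5_15 (E : Env κ ι) : inn E 1 3 c5_5 c5_15 = dotS (ek E keys) r5_5_15 :=
  innS_eqZ E _ _ _ _ _ _ _ (chkF_sound E keys 1 3 _ _ _ _ t5_5_15_0) (by decide +kernel)

def r5_5_16 : List (ℕ × ℤ) := [(34, 24), (133, 12)]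

theorem h5_5_16 (E : Env κ ι) : inn E 1 3 c5_5 c5_16 = dotS (ek E keys) r5_5_16 :=
  innS_eqZ E _ _ _ _ _ _ _ (chkF_sound E keys 1 3 _ _ _ _ t5_5_16_0) (by decide +kernel)

def r5_5_17 : List (ℕ × ℤ) := [(160, 12), (302, 24)]

theorem h5_5_17 (E : Env κ ι) : inn E 1 3 c5_5 c5_17 = dotS (ek E keys) r5_5_17 :=
  innS_eqZ E _ _ _ _ _ _ _ (chkF_sound E keys 1 3 _ _ _ _ t5_5_17_0) (by decide +kernel)

def r5_5_18 : List (ℕ × ℤ) := [(210, 12), (211, 12), (303, 12)]

theorem h5_5_18 (E : Env κ ι) : inn E 1 3 c5_5 c5_18 = dotS (ek E keys) r5_5_18 :=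
  innS_eqZ E _ _ _ _ _ _ _ (chkF_sound E keys 1 3 _ _ _ _ t5_5_18_0) (by decide +kernel)

def r5_5_19 : List (ℕ × ℤ) := [(211, 12), (215, 12), (293, 12)]

theorem h5_5_19 (E : Env κ ι) : inn E 1 3 c5_5 c5_19 = dotS (ek E keys) r5_5_19 :=
  innS_eqZ E _ _ _ _ _ _ _ (chkF_sound E keys 1 3 _ _ _ _ t5_5_19_0) (by decide +kernel)

def r5_5_20 : List (ℕ × ℤ) := [(80, 12), (96, 12), (147, 12)]

theorem h5_5_20 (E : Env κ ι) : inn E 1 3 c5_5 c5_20 = dotS (ek E keys) r5_5_20 :=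
  innS_eqZ E _ _ _ _ _ _ _ (chkF_sound E keys 1 3 _ _ _ _ t5_5_20_0) (by decide +kernel)

def r5_5_21 : List (ℕ × ℤ) := [(81, 12), (85, 12), (112, 12)]

theorem h5_5_21 (E : Env κ ι) : inn E 1 3 c5_5 c5_21 = dotS (ek E keys) r5_5_21 :=
  innS_eqZ E _ _ _ _ _ _ _ (chkF_sound E keys 1 3 _ _ _ _ t5_5_21_0) (by decide +kernel)

def r5_5_22 : List (ℕ × ℤ) := [(47, 12), (48, 12), (135, 12)]

theorem h5_5_22 (E : Env κ ι) : inn E 1 3 c5_5 c5_22 = dotS (ek E keys) r5_5_22 :=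
  innS_eqZ E _ _ _ _ _ _ _ (chkF_sound E keys 1 3 _ _ _ _ t5_5_22_0) (by decide +kernel)

def r5_6_6 : List (ℕ × ℤ) := [(289, 24), (304, 12)]

theorem h5_6_6 (E : Env κ ι) : inn E 1 3 c5_6 c5_6 = dotS (ek E keys) r5_6_6 :=
  innS_eqZ E _ _ _ _ _ _ _ (chkF_sound E keys 1 3 _ _ _ _ t5_6_6_0) (by decide +kernel)

def r5_6_7 : List (ℕ × ℤ) := [(27, 24), (88, 12)]

theorem h5_6_7 (E : Env κ ι) : inn E 1 3 c5_6 c5_7 = dotS (ek E keys) r5_6_7 :=
  innS_eqZ E _ _ _ _ _ _ _ (chkF_sound E keys 1 3 _ _ _ _ t5_6_7_0) (by decide +kernel)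

def r5_6_8 : List (ℕ × ℤ) := [(117, 24), (150, 12)]

theorem h5_6_8 (E : Env κ ι) : inn E 1 3 c5_6 c5_8 = dotS (ek E keys) r5_6_8 :=
  innS_eqZ E _ _ _ _ _ _ _ (chkF_sound E keys 1 3 _ _ _ _ t5_6_8_0) (by decide +kernel)

def r5_6_9 : List (ℕ × ℤ) := [(105, 24), (192, 12)]

theorem h5_6_9 (E : Env κ ι) : inn E 1 3 c5_6 c5_9 = dotS (ek E keys) r5_6_9 :=
  innS_eqZ E _ _ _ _ _ _ _ (chkF_sound E keys 1 3 _ _ _ _ t5_6_9_0) (by decide +kernel)

def r5_6_10 : List (ℕ × ℤ) := [(23, 12), (121, 24)]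

theorem h5_6_10 (E : Env κ ι) : inn E 1 3 c5_6 c5_10 = dotS (ek E keys) r5_6_10 :=
  innS_eqZ E _ _ _ _ _ _ _ (chkF_sound E keys 1 3 _ _ _ _ t5_6_10_0) (by decide +kernel)

def r5_6_11 : List (ℕ × ℤ) := [(191, 24), (193, 12)]

theorem h5_6_11 (E : Env κ ι) : inn E 1 3 c5_6 c5_11 = dotS (ek E keys) r5_6_11 :=
  innS_eqZ E _ _ _ _ _ _ _ (chkF_sound E keys 1 3 _ _ _ _ t5_6_11_0) (by decide +kernel)

def r5_6_12 : List (ℕ × ℤ) := [(51, 12), (55, 24)]

theorem h5_6_12 (E : Env κ ι) : inn E 1 3 c5_6 c5_12 = dotS (ek E keys) r5_6_12 :=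
  innS_eqZ E _ _ _ _ _ _ _ (chkF_sound E keys 1 3 _ _ _ _ t5_6_12_0) (by decide +kernel)

def r5_6_13 : List (ℕ × ℤ) := [(22, 24), (190, 12)]

theorem h5_6_13 (E : Env κ ι) : inn E 1 3 c5_6 c5_13 = dotS (ek E keys) r5_6_13 :=
  innS_eqZ E _ _ _ _ _ _ _ (chkF_sound E keys 1 3 _ _ _ _ t5_6_13_0) (by decide +kernel)

def r5_6_14 : List (ℕ × ℤ) := [(173, 24), (174, 12)]

theorem h5_6_14 (E : Env κ ι) : inn E 1 3 c5_6 c5_14 = dotS (ek E keys) r5_6_14 :=
  innS_eqZ E _ _ _ _ _ _ _ (chkF_sound E keys 1 3 _ _ _ _ t5_6_14_0) (by decide +kernel)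

def r5_6_15 : List (ℕ × ℤ) := [(57, 24), (138, 12)]

theorem h5_6_15 (E : Env κ ι) : inn E 1 3 c5_6 c5_15 = dotS (ek E keys) r5_6_15 :=
  innS_eqZ E _ _ _ _ _ _ _ (chkF_sound E keys 1 3 _ _ _ _ t5_6_15_0) (by decide +kernel)

def r5_6_16 : List (ℕ × ℤ) := [(35, 24), (142, 12)]

theorem h5_6_16 (E : Env κ ι) : inn E 1 3 c5_6 c5_16 = dotS (ek E keys) r5_6_16 :=
  innS_eqZ E _ _ _ _ _ _ _ (chkF_sound E keys 1 3 _ _ _ _ t5_6_16_0) (by decide +kernel)

def r5_6_17 : List (ℕ × ℤ) := [(33, 12), (167, 24)]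

theorem h5_6_17 (E : Env κ ι) : inn E 1 3 c5_6 c5_17 = dotS (ek E keys) r5_6_17 :=
  innS_eqZ E _ _ _ _ _ _ _ (chkF_sound E keys 1 3 _ _ _ _ t5_6_17_0) (by decide +kernel)

def r5_6_18 : List (ℕ × ℤ) := [(215, 12), (290, 12), (293, 12)]

theorem h5_6_18 (E : Env κ ι) : inn E 1 3 c5_6 c5_18 = dotS (ek E keys) r5_6_18 :=
  innS_eqZ E _ _ _ _ _ _ _ (chkF_sound E keys 1 3 _ _ _ _ t5_6_18_0) (by decide +kernel)

def r5_6_19 : List (ℕ × ℤ) := [(217, 12), (287, 12), (295, 12)]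

theorem h5_6_19 (E : Env κ ι) : inn E 1 3 c5_6 c5_19 = dotS (ek E keys) r5_6_19 :=
  innS_eqZ E _ _ _ _ _ _ _ (chkF_sound E keys 1 3 _ _ _ _ t5_6_19_0) (by decide +kernel)

def r5_6_20 : List (ℕ × ℤ) := [(115, 12), (148, 12), (149, 12)]

theorem h5_6_20 (E : Env κ ι) : inn E 1 3 c5_6 c5_20 = dotS (ek E keys) r5_6_20 :=
  innS_eqZ E _ _ _ _ _ _ _ (chkF_sound E keys 1 3 _ _ _ _ t5_6_20_0) (by decide +kernel)

def r5_6_21 : List (ℕ × ℤ) := [(139, 12), (140, 12), (141, 12)]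

theorem h5_6_21 (E : Env κ ι) : inn E 1 3 c5_6 c5_21 = dotS (ek E keys) r5_6_21 :=
  innS_eqZ E _ _ _ _ _ _ _ (chkF_sound E keys 1 3 _ _ _ _ t5_6_21_0) (by decide +kernel)

def r5_6_22 : List (ℕ × ℤ) := [(52, 12), (54, 12), (143, 12)]

theorem h5_6_22 (E : Env κ ι) : inn E 1 3 c5_6 c5_22 = dotS (ek E keys) r5_6_22 :=
  innS_eqZ E _ _ _ _ _ _ _ (chkF_sound E keys 1 3 _ _ _ _ t5_6_22_0) (by decide +kernel)

def r5_7_7 : List (ℕ × ℤ) := [(227, 24), (305, 12)]

theorem h5_7_7 (E : Env κ ι) : inn E 1 3 c5_7 c5_7 = dotS (ek E keys) r5_7_7 :=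
  innS_eqZ E _ _ _ _ _ _ _ (chkF_sound E keys 1 3 _ _ _ _ t5_7_7_0) (by decide +kernel)

def r5_7_8 : List (ℕ × ℤ) := [(228, 24), (306, 12)]

theorem h5_7_8 (E : Env κ ι) : inn E 1 3 c5_7 c5_8 = dotS (ek E keys) r5_7_8 :=
  innS_eqZ E _ _ _ _ _ _ _ (chkF_sound E keys 1 3 _ _ _ _ t5_7_8_0) (by decide +kernel)

def r5_7_9 : List (ℕ × ℤ) := [(229, 24), (232, 12)]

theorem h5_7_9 (E : Env κ ι) : inn E 1 3 c5_7 c5_9 = dotS (ek E keys) r5_7_9 :=
  innS_eqZ E _ _ _ _ _ _ _ (chkF_sound E keys 1 3 _ _ _ _ t5_7_9_0) (by decide +kernel)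

def r5_7_10 : List (ℕ × ℤ) := [(228, 24), (232, 12)]

theorem h5_7_10 (E : Env κ ι) : inn E 1 3 c5_7 c5_10 = dotS (ek E keys) r5_7_10 :=
  innS_eqZ E _ _ _ _ _ _ _ (chkF_sound E keys 1 3 _ _ _ _ t5_7_10_0) (by decide +kernel)

def r5_7_11 : List (ℕ × ℤ) := [(229, 24), (307, 12)]

theorem h5_7_11 (E : Env κ ι) : inn E 1 3 c5_7 c5_11 = dotS (ek E keys) r5_7_11 :=
  innS_eqZ E _ _ _ _ _ _ _ (chkF_sound E keys 1 3 _ _ _ _ t5_7_11_0) (by decide +kernel)

def r5_7_12 : List (ℕ × ℤ) := [(231, 24), (250, 12)]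

theorem h5_7_12 (E : Env κ ι) : inn E 1 3 c5_7 c5_12 = dotS (ek E keys) r5_7_12 :=
  innS_eqZ E _ _ _ _ _ _ _ (chkF_sound E keys 1 3 _ _ _ _ t5_7_12_0) (by decide +kernel)

def r5_7_13 : List (ℕ × ℤ) := [(232, 24), (305, 12)]

theorem h5_7_13 (E : Env κ ι) : inn E 1 3 c5_7 c5_13 = dotS (ek E keys) r5_7_13 :=
  innS_eqZ E _ _ _ _ _ _ _ (chkF_sound E keys 1 3 _ _ _ _ t5_7_13_0) (by decide +kernel)

def r5_7_14 : List (ℕ × ℤ) := [(227, 12), (229, 24)]

theorem h5_7_14 (E : Env κ ι) : inn E 1 3 c5_7 c5_14 = dotS (ek E keys) r5_7_14 :=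
  innS_eqZ E _ _ _ _ _ _ _ (chkF_sound E keys 1 3 _ _ _ _ t5_7_14_0) (by decide +kernel)

def r5_7_15 : List (ℕ × ℤ) := [(230, 12), (231, 24)]

theorem h5_7_15 (E : Env κ ι) : inn E 1 3 c5_7 c5_15 = dotS (ek E keys) r5_7_15 :=
  innS_eqZ E _ _ _ _ _ _ _ (chkF_sound E keys 1 3 _ _ _ _ t5_7_15_0) (by decide +kernel)

def r5_7_16 : List (ℕ × ℤ) := [(3, 24), (249, 12)]

theorem h5_7_16 (E : Env κ ι) : inn E 1 3 c5_7 c5_16 = dotS (ek E keys) r5_7_16 :=
  innS_eqZ E _ _ _ _ _ _ _ (chkF_sound E keys 1 3 _ _ _ _ t5_7_16_0) (by decide +kernel)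

def r5_7_17 : List (ℕ × ℤ) := [(234, 12), (308, 24)]

theorem h5_7_17 (E : Env κ ι) : inn E 1 3 c5_7 c5_17 = dotS (ek E keys) r5_7_17 :=
  innS_eqZ E _ _ _ _ _ _ _ (chkF_sound E keys 1 3 _ _ _ _ t5_7_17_0) (by decide +kernel)

def r5_7_18 : List (ℕ × ℤ) := [(18, 12), (84, 12), (188, 12)]

theorem h5_7_18 (E : Env κ ι) : inn E 1 3 c5_7 c5_18 = dotS (ek E keys) r5_7_18 :=
  innS_eqZ E _ _ _ _ _ _ _ (chkF_sound E keys 1 3 _ _ _ _ t5_7_18_0) (by decide +kernel)

def r5_7_19 : List (ℕ × ℤ) := [(27, 12), (192, 12), (195, 12)]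

theorem h5_7_19 (E : Env κ ι) : inn E 1 3 c5_7 c5_19 = dotS (ek E keys) r5_7_19 :=
  innS_eqZ E _ _ _ _ _ _ _ (chkF_sound E keys 1 3 _ _ _ _ t5_7_19_0) (by decide +kernel)

def r5_7_20 : List (ℕ × ℤ) := [(228, 12), (229, 12), (306, 12)]

theorem h5_7_20 (E : Env κ ι) : inn E 1 3 c5_7 c5_20 = dotS (ek E keys) r5_7_20 :=
  innS_eqZ E _ _ _ _ _ _ _ (chkF_sound E keys 1 3 _ _ _ _ t5_7_20_0) (by decide +kernel)

def r5_7_21 : List (ℕ × ℤ) := [(219, 12), (228, 12), (229, 12)]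

theorem h5_7_21 (E : Env κ ι) : inn E 1 3 c5_7 c5_21 = dotS (ek E keys) r5_7_21 :=
  innS_eqZ E _ _ _ _ _ _ _ (chkF_sound E keys 1 3 _ _ _ _ t5_7_21_0) (by decide +kernel)

def r5_7_22 : List (ℕ × ℤ) := [(222, 12), (231, 12), (233, 12)]

theorem h5_7_22 (E : Env κ ι) : inn E 1 3 c5_7 c5_22 = dotS (ek E keys) r5_7_22 :=
  innS_eqZ E _ _ _ _ _ _ _ (chkF_sound E keys 1 3 _ _ _ _ t5_7_22_0) (by decide +kernel)

def r5_8_8 : List (ℕ × ℤ) := [(235, 24), (309, 12)]

theorem h5_8_8 (E : Env κ ι) : inn E 1 3 c5_8 c5_8 = dotS (ek E keys) r5_8_8 :=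
  innS_eqZ E _ _ _ _ _ _ _ (chkF_sound E keys 1 3 _ _ _ _ t5_8_8_0) (by decide +kernel)

def r5_8_9 : List (ℕ × ℤ) := [(245, 24), (310, 12)]

theorem h5_8_9 (E : Env κ ι) : inn E 1 3 c5_8 c5_9 = dotS (ek E keys) r5_8_9 :=
  innS_eqZ E _ _ _ _ _ _ _ (chkF_sound E keys 1 3 _ _ _ _ t5_8_9_0) (by decide +kernel)

def r5_8_10 : List (ℕ × ℤ) := [(238, 24), (310, 12)]

theorem h5_8_10 (E : Env κ ι) : inn E 1 3 c5_8 c5_10 = dotS (ek E keys) r5_8_10 :=
  innS_eqZ E _ _ _ _ _ _ _ (chkF_sound E keys 1 3 _ _ _ _ t5_8_10_0) (by decide +kernel)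

def r5_8_11 : List (ℕ × ℤ) := [(311, 24), (312, 12)]

theorem h5_8_11 (E : Env κ ι) : inn E 1 3 c5_8 c5_11 = dotS (ek E keys) r5_8_11 :=
  innS_eqZ E _ _ _ _ _ _ _ (chkF_sound E keys 1 3 _ _ _ _ t5_8_11_0) (by decide +kernel)

def r5_8_12 : List (ℕ × ℤ) := [(252, 24), (313, 12)]

theorem h5_8_12 (E : Env κ ι) : inn E 1 3 c5_8 c5_12 = dotS (ek E keys) r5_8_12 :=
  innS_eqZ E _ _ _ _ _ _ _ (chkF_sound E keys 1 3 _ _ _ _ t5_8_12_0) (by decide +kernel)

def r5_8_13 : List (ℕ × ℤ) := [(239, 24), (314, 12)]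

theorem h5_8_13 (E : Env κ ι) : inn E 1 3 c5_8 c5_13 = dotS (ek E keys) r5_8_13 :=
  innS_eqZ E _ _ _ _ _ _ _ (chkF_sound E keys 1 3 _ _ _ _ t5_8_13_0) (by decide +kernel)

def r5_8_14 : List (ℕ × ℤ) := [(311, 24), (315, 12)]

theorem h5_8_14 (E : Env κ ι) : inn E 1 3 c5_8 c5_14 = dotS (ek E keys) r5_8_14 :=
  innS_eqZ E _ _ _ _ _ _ _ (chkF_sound E keys 1 3 _ _ _ _ t5_8_14_0) (by decide +kernel)

def r5_8_15 : List (ℕ × ℤ) := [(252, 24), (316, 12)]

theorem h5_8_15 (E : Env κ ι) : inn E 1 3 c5_8 c5_15 = dotS (ek E keys) r5_8_15 :=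
  innS_eqZ E _ _ _ _ _ _ _ (chkF_sound E keys 1 3 _ _ _ _ t5_8_15_0) (by decide +kernel)

def r5_8_16 : List (ℕ × ℤ) := [(241, 24), (317, 12)]

theorem h5_8_16 (E : Env κ ι) : inn E 1 3 c5_8 c5_16 = dotS (ek E keys) r5_8_16 :=
  innS_eqZ E _ _ _ _ _ _ _ (chkF_sound E keys 1 3 _ _ _ _ t5_8_16_0) (by decide +kernel)

def r5_8_17 : List (ℕ × ℤ) := [(318, 12), (319, 24)]

theorem h5_8_17 (E : Env κ ι) : inn E 1 3 c5_8 c5_17 = dotS (ek E keys) r5_8_17 :=
  innS_eqZ E _ _ _ _ _ _ _ (chkF_sound E keys 1 3 _ _ _ _ t5_8_17_0) (by decide +kernel)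

def r5_8_18 : List (ℕ × ℤ) := [(97, 12), (123, 12), (131, 12)]

theorem h5_8_18 (E : Env κ ι) : inn E 1 3 c5_8 c5_18 = dotS (ek E keys) r5_8_18 :=
  innS_eqZ E _ _ _ _ _ _ _ (chkF_sound E keys 1 3 _ _ _ _ t5_8_18_0) (by decide +kernel)

def r5_8_19 : List (ℕ × ℤ) := [(105, 12), (117, 12), (124, 12)]

theorem h5_8_19 (E : Env κ ι) : inn E 1 3 c5_8 c5_19 = dotS (ek E keys) r5_8_19 :=
  innS_eqZ E _ _ _ _ _ _ _ (chkF_sound E keys 1 3 _ _ _ _ t5_8_19_0) (by decide +kernel)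

def r5_8_20 : List (ℕ × ℤ) := [(236, 12), (238, 12), (320, 12)]

theorem h5_8_20 (E : Env κ ι) : inn E 1 3 c5_8 c5_20 = dotS (ek E keys) r5_8_20 :=
  innS_eqZ E _ _ _ _ _ _ _ (chkF_sound E keys 1 3 _ _ _ _ t5_8_20_0) (by decide +kernel)

def r5_8_21 : List (ℕ × ℤ) := [(238, 12), (245, 12), (321, 12)]

theorem h5_8_21 (E : Env κ ι) : inn E 1 3 c5_8 c5_21 = dotS (ek E keys) r5_8_21 :=
  innS_eqZ E _ _ _ _ _ _ _ (chkF_sound E keys 1 3 _ _ _ _ t5_8_21_0) (by decide +kernel)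

def r5_8_22 : List (ℕ × ℤ) := [(237, 12), (240, 12), (322, 12)]

theorem h5_8_22 (E : Env κ ι) : inn E 1 3 c5_8 c5_22 = dotS (ek E keys) r5_8_22 :=
  innS_eqZ E _ _ _ _ _ _ _ (chkF_sound E keys 1 3 _ _ _ _ t5_8_22_0) (by decide +kernel)

def r5_9_9 : List (ℕ × ℤ) := [(243, 24), (246, 12)]

theorem h5_9_9 (E : Env κ ι) : inn E 1 3 c5_9 c5_9 = dotS (ek E keys) r5_9_9 :=
  innS_eqZ E _ _ _ _ _ _ _ (chkF_sound E keys 1 3 _ _ _ _ t5_9_9_0) (by decide +kernel)

def r5_9_10 : List (ℕ × ℤ) := [(236, 24), (239, 12)]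

theorem h5_9_10 (E : Env κ ι) : inn E 1 3 c5_9 c5_10 = dotS (ek E keys) r5_9_10 :=
  innS_eqZ E _ _ _ _ _ _ _ (chkF_sound E keys 1 3 _ _ _ _ t5_9_10_0) (by decide +kernel)

def r5_9_11 : List (ℕ × ℤ) := [(243, 24), (323, 12)]

theorem h5_9_11 (E : Env κ ι) : inn E 1 3 c5_9 c5_11 = dotS (ek E keys) r5_9_11 :=
  innS_eqZ E _ _ _ _ _ _ _ (chkF_sound E keys 1 3 _ _ _ _ t5_9_11_0) (by decide +kernel)

def r5_9_12 : List (ℕ × ℤ) := [(244, 24), (253, 12)]

theorem h5_9_12 (E : Env κ ι) : inn E 1 3 c5_9 c5_12 = dotS (ek E keys) r5_9_12 :=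
  innS_eqZ E _ _ _ _ _ _ _ (chkF_sound E keys 1 3 _ _ _ _ t5_9_12_0) (by decide +kernel)

def r5_9_13 : List (ℕ × ℤ) := [(232, 12), (239, 24)]

theorem h5_9_13 (E : Env κ ι) : inn E 1 3 c5_9 c5_13 = dotS (ek E keys) r5_9_13 :=
  innS_eqZ E _ _ _ _ _ _ _ (chkF_sound E keys 1 3 _ _ _ _ t5_9_13_0) (by decide +kernel)

def r5_9_14 : List (ℕ × ℤ) := [(229, 12), (311, 24)]

theorem h5_9_14 (E : Env κ ι) : inn E 1 3 c5_9 c5_14 = dotS (ek E keys) r5_9_14 :=
  innS_eqZ E _ _ _ _ _ _ _ (chkF_sound E keys 1 3 _ _ _ _ t5_9_14_0) (by decide +kernel)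

def r5_9_15 : List (ℕ × ℤ) := [(231, 12), (252, 24)]

theorem h5_9_15 (E : Env κ ι) : inn E 1 3 c5_9 c5_15 = dotS (ek E keys) r5_9_15 :=
  innS_eqZ E _ _ _ _ _ _ _ (chkF_sound E keys 1 3 _ _ _ _ t5_9_15_0) (by decide +kernel)

def r5_9_16 : List (ℕ × ℤ) := [(3, 12), (241, 24)]

theorem h5_9_16 (E : Env κ ι) : inn E 1 3 c5_9 c5_16 = dotS (ek E keys) r5_9_16 :=
  innS_eqZ E _ _ _ _ _ _ _ (chkF_sound E keys 1 3 _ _ _ _ t5_9_16_0) (by decide +kernel)

def r5_9_17 : List (ℕ × ℤ) := [(248, 12), (324, 24)]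

theorem h5_9_17 (E : Env κ ι) : inn E 1 3 c5_9 c5_17 = dotS (ek E keys) r5_9_17 :=
  innS_eqZ E _ _ _ _ _ _ _ (chkF_sound E keys 1 3 _ _ _ _ t5_9_17_0) (by decide +kernel)

def r5_9_18 : List (ℕ × ℤ) := [(85, 12), (107, 12), (112, 12)]

theorem h5_9_18 (E : Env κ ι) : inn E 1 3 c5_9 c5_18 = dotS (ek E keys) r5_9_18 :=
  innS_eqZ E _ _ _ _ _ _ _ (chkF_sound E keys 1 3 _ _ _ _ t5_9_18_0) (by decide +kernel)

def r5_9_19 : List (ℕ × ℤ) := [(89, 12), (103, 12), (116, 12)]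

theorem h5_9_19 (E : Env κ ι) : inn E 1 3 c5_9 c5_19 = dotS (ek E keys) r5_9_19 :=
  innS_eqZ E _ _ _ _ _ _ _ (chkF_sound E keys 1 3 _ _ _ _ t5_9_19_0) (by decide +kernel)

def r5_9_20 : List (ℕ × ℤ) := [(236, 12), (310, 12), (311, 12)]

theorem h5_9_20 (E : Env κ ι) : inn E 1 3 c5_9 c5_20 = dotS (ek E keys) r5_9_20 :=
  innS_eqZ E _ _ _ _ _ _ _ (chkF_sound E keys 1 3 _ _ _ _ t5_9_20_0) (by decide +kernel)

def r5_9_21 : List (ℕ × ℤ) := [(221, 12), (245, 12), (311, 12)]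

theorem h5_9_21 (E : Env κ ι) : inn E 1 3 c5_9 c5_21 = dotS (ek E keys) r5_9_21 :=
  innS_eqZ E _ _ _ _ _ _ _ (chkF_sound E keys 1 3 _ _ _ _ t5_9_21_0) (by decide +kernel)

def r5_9_22 : List (ℕ × ℤ) := [(223, 12), (237, 12), (252, 12)]

theorem h5_9_22 (E : Env κ ι) : inn E 1 3 c5_9 c5_22 = dotS (ek E keys) r5_9_22 :=
  innS_eqZ E _ _ _ _ _ _ _ (chkF_sound E keys 1 3 _ _ _ _ t5_9_22_0) (by decide +kernel)

def r5_10_10 : List (ℕ × ℤ) := [(235, 24), (325, 12)]

theorem h5_10_10 (E : Env κ ι) : inn E 1 3 c5_10 c5_10 = dotS (ek E keys) r5_10_10 :=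
  innS_eqZ E _ _ _ _ _ _ _ (chkF_sound E keys 1 3 _ _ _ _ t5_10_10_0) (by decide +kernel)

def r5_10_11 : List (ℕ × ℤ) := [(236, 24), (326, 12)]

theorem h5_10_11 (E : Env κ ι) : inn E 1 3 c5_10 c5_11 = dotS (ek E keys) r5_10_11 :=
  innS_eqZ E _ _ _ _ _ _ _ (chkF_sound E keys 1 3 _ _ _ _ t5_10_11_0) (by decide +kernel)

def r5_10_12 : List (ℕ × ℤ) := [(237, 24), (261, 12)]

theorem h5_10_12 (E : Env κ ι) : inn E 1 3 c5_10 c5_12 = dotS (ek E keys) r5_10_12 :=
  innS_eqZ E _ _ _ _ _ _ _ (chkF_sound E keys 1 3 _ _ _ _ t5_10_12_0) (by decide +kernel)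

def r5_10_13 : List (ℕ × ℤ) := [(232, 12), (325, 24)]

theorem h5_10_13 (E : Env κ ι) : inn E 1 3 c5_10 c5_13 = dotS (ek E keys) r5_10_13 :=
  innS_eqZ E _ _ _ _ _ _ _ (chkF_sound E keys 1 3 _ _ _ _ t5_10_13_0) (by decide +kernel)

def r5_10_14 : List (ℕ × ℤ) := [(228, 12), (327, 24)]

theorem h5_10_14 (E : Env κ ι) : inn E 1 3 c5_10 c5_14 = dotS (ek E keys) r5_10_14 :=
  innS_eqZ E _ _ _ _ _ _ _ (chkF_sound E keys 1 3 _ _ _ _ t5_10_14_0) (by decide +kernel)

def r5_10_15 : List (ℕ × ℤ) := [(233, 12), (257, 24)]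

theorem h5_10_15 (E : Env κ ι) : inn E 1 3 c5_10 c5_15 = dotS (ek E keys) r5_10_15 :=
  innS_eqZ E _ _ _ _ _ _ _ (chkF_sound E keys 1 3 _ _ _ _ t5_10_15_0) (by decide +kernel)

def r5_10_16 : List (ℕ × ℤ) := [(3, 12), (264, 24)]

theorem h5_10_16 (E : Env κ ι) : inn E 1 3 c5_10 c5_16 = dotS (ek E keys) r5_10_16 :=
  innS_eqZ E _ _ _ _ _ _ _ (chkF_sound E keys 1 3 _ _ _ _ t5_10_16_0) (by decide +kernel)

def r5_10_17 : List (ℕ × ℤ) := [(242, 12), (328, 24)]

theorem h5_10_17 (E : Env κ ι) : inn E 1 3 c5_10 c5_17 = dotS (ek E keys) r5_10_17 :=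
  innS_eqZ E _ _ _ _ _ _ _ (chkF_sound E keys 1 3 _ _ _ _ t5_10_17_0) (by decide +kernel)

def r5_10_18 : List (ℕ × ℤ) := [(83, 12), (112, 12), (127, 12)]

theorem h5_10_18 (E : Env κ ι) : inn E 1 3 c5_10 c5_18 = dotS (ek E keys) r5_10_18 :=
  innS_eqZ E _ _ _ _ _ _ _ (chkF_sound E keys 1 3 _ _ _ _ t5_10_18_0) (by decide +kernel)

def r5_10_19 : List (ℕ × ℤ) := [(85, 12), (109, 12), (140, 12)]

theorem h5_10_19 (E : Env κ ι) : inn E 1 3 c5_10 c5_19 = dotS (ek E keys) r5_10_19 :=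
  innS_eqZ E _ _ _ _ _ _ _ (chkF_sound E keys 1 3 _ _ _ _ t5_10_19_0) (by decide +kernel)

def r5_10_20 : List (ℕ × ℤ) := [(235, 12), (310, 12), (327, 12)]

theorem h5_10_20 (E : Env κ ι) : inn E 1 3 c5_10 c5_20 = dotS (ek E keys) r5_10_20 :=
  innS_eqZ E _ _ _ _ _ _ _ (chkF_sound E keys 1 3 _ _ _ _ t5_10_20_0) (by decide +kernel)

def r5_10_21 : List (ℕ × ℤ) := [(220, 12), (238, 12), (327, 12)]

theorem h5_10_21 (E : Env κ ι) : inn E 1 3 c5_10 c5_21 = dotS (ek E keys) r5_10_21 :=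
  innS_eqZ E _ _ _ _ _ _ _ (chkF_sound E keys 1 3 _ _ _ _ t5_10_21_0) (by decide +kernel)

def r5_10_22 : List (ℕ × ℤ) := [(223, 12), (240, 12), (257, 12)]

theorem h5_10_22 (E : Env κ ι) : inn E 1 3 c5_10 c5_22 = dotS (ek E keys) r5_10_22 :=
  innS_eqZ E _ _ _ _ _ _ _ (chkF_sound E keys 1 3 _ _ _ _ t5_10_22_0) (by decide +kernel)

def r5_11_11 : List (ℕ × ℤ) := [(243, 24), (329, 12)]

theorem h5_11_11 (E : Env κ ι) : inn E 1 3 c5_11 c5_11 = dotS (ek E keys) r5_11_11 :=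
  innS_eqZ E _ _ _ _ _ _ _ (chkF_sound E keys 1 3 _ _ _ _ t5_11_11_0) (by decide +kernel)

def r5_11_12 : List (ℕ × ℤ) := [(244, 24), (330, 12)]

theorem h5_11_12 (E : Env κ ι) : inn E 1 3 c5_11 c5_12 = dotS (ek E keys) r5_11_12 :=
  innS_eqZ E _ _ _ _ _ _ _ (chkF_sound E keys 1 3 _ _ _ _ t5_11_12_0) (by decide +kernel)

def r5_11_13 : List (ℕ × ℤ) := [(224, 12), (256, 24)]

theorem h5_11_13 (E : Env κ ι) : inn E 1 3 c5_11 c5_13 = dotS (ek E keys) r5_11_13 :=
  innS_eqZ E _ _ _ _ _ _ _ (chkF_sound E keys 1 3 _ _ _ _ t5_11_13_0) (by decide +kernel)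

def r5_11_14 : List (ℕ × ℤ) := [(221, 12), (331, 24)]

theorem h5_11_14 (E : Env κ ι) : inn E 1 3 c5_11 c5_14 = dotS (ek E keys) r5_11_14 :=
  innS_eqZ E _ _ _ _ _ _ _ (chkF_sound E keys 1 3 _ _ _ _ t5_11_14_0) (by decide +kernel)

def r5_11_15 : List (ℕ × ℤ) := [(223, 12), (332, 24)]

theorem h5_11_15 (E : Env κ ι) : inn E 1 3 c5_11 c5_15 = dotS (ek E keys) r5_11_15 :=
  innS_eqZ E _ _ _ _ _ _ _ (chkF_sound E keys 1 3 _ _ _ _ t5_11_15_0) (by decide +kernel)

def r5_11_16 : List (ℕ × ℤ) := [(225, 12), (258, 24)]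

theorem h5_11_16 (E : Env κ ι) : inn E 1 3 c5_11 c5_16 = dotS (ek E keys) r5_11_16 :=
  innS_eqZ E _ _ _ _ _ _ _ (chkF_sound E keys 1 3 _ _ _ _ t5_11_16_0) (by decide +kernel)

def r5_11_17 : List (ℕ × ℤ) := [(324, 12), (333, 24)]

theorem h5_11_17 (E : Env κ ι) : inn E 1 3 c5_11 c5_17 = dotS (ek E keys) r5_11_17 :=
  innS_eqZ E _ _ _ _ _ _ _ (chkF_sound E keys 1 3 _ _ _ _ t5_11_17_0) (by decide +kernel)

def r5_11_18 : List (ℕ × ℤ) := [(99, 12), (130, 12), (147, 12)]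

theorem h5_11_18 (E : Env κ ι) : inn E 1 3 c5_11 c5_18 = dotS (ek E keys) r5_11_18 :=
  innS_eqZ E _ _ _ _ _ _ _ (chkF_sound E keys 1 3 _ _ _ _ t5_11_18_0) (by decide +kernel)

def r5_11_19 : List (ℕ × ℤ) := [(96, 12), (115, 12), (148, 12)]

theorem h5_11_19 (E : Env κ ι) : inn E 1 3 c5_11 c5_19 = dotS (ek E keys) r5_11_19 :=
  innS_eqZ E _ _ _ _ _ _ _ (chkF_sound E keys 1 3 _ _ _ _ t5_11_19_0) (by decide +kernel)

def r5_11_20 : List (ℕ × ℤ) := [(245, 12), (312, 12), (331, 12)]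

theorem h5_11_20 (E : Env κ ι) : inn E 1 3 c5_11 c5_20 = dotS (ek E keys) r5_11_20 :=
  innS_eqZ E _ _ _ _ _ _ _ (chkF_sound E keys 1 3 _ _ _ _ t5_11_20_0) (by decide +kernel)

def r5_11_21 : List (ℕ × ℤ) := [(310, 12), (311, 12), (331, 12)]

theorem h5_11_21 (E : Env κ ι) : inn E 1 3 c5_11 c5_21 = dotS (ek E keys) r5_11_21 :=
  innS_eqZ E _ _ _ _ _ _ _ (chkF_sound E keys 1 3 _ _ _ _ t5_11_21_0) (by decide +kernel)

def r5_11_22 : List (ℕ × ℤ) := [(252, 12), (313, 12), (332, 12)]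

theorem h5_11_22 (E : Env κ ι) : inn E 1 3 c5_11 c5_22 = dotS (ek E keys) r5_11_22 :=
  innS_eqZ E _ _ _ _ _ _ _ (chkF_sound E keys 1 3 _ _ _ _ t5_11_22_0) (by decide +kernel)

def r5_12_12 : List (ℕ × ℤ) := [(247, 24), (262, 12)]

theorem h5_12_12 (E : Env κ ι) : inn E 1 3 c5_12 c5_12 = dotS (ek E keys) r5_12_12 :=
  innS_eqZ E _ _ _ _ _ _ _ (chkF_sound E keys 1 3 _ _ _ _ t5_12_12_0) (by decide +kernel)

def r5_12_13 : List (ℕ × ℤ) := [(250, 12), (261, 24)]

theorem h5_12_13 (E : Env κ ι) : inn E 1 3 c5_12 c5_13 = dotS (ek E keys) r5_12_13 :=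
  innS_eqZ E _ _ _ _ _ _ _ (chkF_sound E keys 1 3 _ _ _ _ t5_12_13_0) (by decide +kernel)

def r5_12_14 : List (ℕ × ℤ) := [(231, 12), (332, 24)]

theorem h5_12_14 (E : Env κ ι) : inn E 1 3 c5_12 c5_14 = dotS (ek E keys) r5_12_14 :=
  innS_eqZ E _ _ _ _ _ _ _ (chkF_sound E keys 1 3 _ _ _ _ t5_12_14_0) (by decide +kernel)

def r5_12_15 : List (ℕ × ℤ) := [(3, 12), (258, 24)]

theorem h5_12_15 (E : Env κ ι) : inn E 1 3 c5_12 c5_15 = dotS (ek E keys) r5_12_15 :=
  innS_eqZ E _ _ _ _ _ _ _ (chkF_sound E keys 1 3 _ _ _ _ t5_12_15_0) (by decide +kernel)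

def r5_12_16 : List (ℕ × ℤ) := [(41, 12), (43, 24)]

theorem h5_12_16 (E : Env κ ι) : inn E 1 3 c5_12 c5_16 = dotS (ek E keys) r5_12_16 :=
  innS_eqZ E _ _ _ _ _ _ _ (chkF_sound E keys 1 3 _ _ _ _ t5_12_16_0) (by decide +kernel)

def r5_12_17 : List (ℕ × ℤ) := [(254, 12), (269, 24)]

theorem h5_12_17 (E : Env κ ι) : inn E 1 3 c5_12 c5_17 = dotS (ek E keys) r5_12_17 :=
  innS_eqZ E _ _ _ _ _ _ _ (chkF_sound E keys 1 3 _ _ _ _ t5_12_17_0) (by decide +kernel)

def r5_12_18 : List (ℕ × ℤ) := [(58, 12), (86, 12), (135, 12)]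

theorem h5_12_18 (E : Env κ ι) : inn E 1 3 c5_12 c5_18 = dotS (ek E keys) r5_12_18 :=
  innS_eqZ E _ _ _ _ _ _ _ (chkF_sound E keys 1 3 _ _ _ _ t5_12_18_0) (by decide +kernel)

def r5_12_19 : List (ℕ × ℤ) := [(48, 12), (52, 12), (143, 12)]

theorem h5_12_19 (E : Env κ ι) : inn E 1 3 c5_12 c5_19 = dotS (ek E keys) r5_12_19 :=
  innS_eqZ E _ _ _ _ _ _ _ (chkF_sound E keys 1 3 _ _ _ _ t5_12_19_0) (by decide +kernel)

def r5_12_20 : List (ℕ × ℤ) := [(237, 12), (313, 12), (332, 12)]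

theorem h5_12_20 (E : Env κ ι) : inn E 1 3 c5_12 c5_20 = dotS (ek E keys) r5_12_20 :=
  innS_eqZ E _ _ _ _ _ _ _ (chkF_sound E keys 1 3 _ _ _ _ t5_12_20_0) (by decide +kernel)

def r5_12_21 : List (ℕ × ℤ) := [(223, 12), (252, 12), (332, 12)]

theorem h5_12_21 (E : Env κ ι) : inn E 1 3 c5_12 c5_21 = dotS (ek E keys) r5_12_21 :=
  innS_eqZ E _ _ _ _ _ _ _ (chkF_sound E keys 1 3 _ _ _ _ t5_12_21_0) (by decide +kernel)

def r5_12_22 : List (ℕ × ℤ) := [(225, 12), (241, 12), (258, 12)]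

theorem h5_12_22 (E : Env κ ι) : inn E 1 3 c5_12 c5_22 = dotS (ek E keys) r5_12_22 :=
  innS_eqZ E _ _ _ _ _ _ _ (chkF_sound E keys 1 3 _ _ _ _ t5_12_22_0) (by decide +kernel)

def r5_13_13 : List (ℕ × ℤ) := [(260, 24), (334, 12)]

theorem h5_13_13 (E : Env κ ι) : inn E 1 3 c5_13 c5_13 = dotS (ek E keys) r5_13_13 :=
  innS_eqZ E _ _ _ _ _ _ _ (chkF_sound E keys 1 3 _ _ _ _ t5_13_13_0) (by decide +kernel)

def r5_13_14 : List (ℕ × ℤ) := [(256, 24), (335, 12)]

theorem h5_13_14 (E : Env κ ι) : inn E 1 3 c5_13 c5_14 = dotS (ek E keys) r5_13_14 :=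
  innS_eqZ E _ _ _ _ _ _ _ (chkF_sound E keys 1 3 _ _ _ _ t5_13_14_0) (by decide +kernel)

def r5_13_15 : List (ℕ × ℤ) := [(261, 24), (336, 12)]

theorem h5_13_15 (E : Env κ ι) : inn E 1 3 c5_13 c5_15 = dotS (ek E keys) r5_13_15 :=
  innS_eqZ E _ _ _ _ _ _ _ (chkF_sound E keys 1 3 _ _ _ _ t5_13_15_0) (by decide +kernel)

def r5_13_16 : List (ℕ × ℤ) := [(262, 24), (337, 12)]

theorem h5_13_16 (E : Env κ ι) : inn E 1 3 c5_13 c5_16 = dotS (ek E keys) r5_13_16 :=
  innS_eqZ E _ _ _ _ _ _ _ (chkF_sound E keys 1 3 _ _ _ _ t5_13_16_0) (by decide +kernel)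

def r5_13_17 : List (ℕ × ℤ) := [(338, 12), (339, 24)]

theorem h5_13_17 (E : Env κ ι) : inn E 1 3 c5_13 c5_17 = dotS (ek E keys) r5_13_17 :=
  innS_eqZ E _ _ _ _ _ _ _ (chkF_sound E keys 1 3 _ _ _ _ t5_13_17_0) (by decide +kernel)

def r5_13_18 : List (ℕ × ℤ) := [(17, 12), (184, 12), (185, 12)]

theorem h5_13_18 (E : Env κ ι) : inn E 1 3 c5_13 c5_18 = dotS (ek E keys) r5_13_18 :=
  innS_eqZ E _ _ _ _ _ _ _ (chkF_sound E keys 1 3 _ _ _ _ t5_13_18_0) (by decide +kernel)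

def r5_13_19 : List (ℕ × ℤ) := [(22, 12), (185, 12), (186, 12)]

theorem h5_13_19 (E : Env κ ι) : inn E 1 3 c5_13 c5_19 = dotS (ek E keys) r5_13_19 :=
  innS_eqZ E _ _ _ _ _ _ _ (chkF_sound E keys 1 3 _ _ _ _ t5_13_19_0) (by decide +kernel)

def r5_13_20 : List (ℕ × ℤ) := [(246, 12), (256, 12), (340, 12)]

theorem h5_13_20 (E : Env κ ι) : inn E 1 3 c5_13 c5_20 = dotS (ek E keys) r5_13_20 :=
  innS_eqZ E _ _ _ _ _ _ _ (chkF_sound E keys 1 3 _ _ _ _ t5_13_20_0) (by decide +kernel)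

def r5_13_21 : List (ℕ × ℤ) := [(239, 12), (325, 12), (341, 12)]

theorem h5_13_21 (E : Env κ ι) : inn E 1 3 c5_13 c5_21 = dotS (ek E keys) r5_13_21 :=
  innS_eqZ E _ _ _ _ _ _ _ (chkF_sound E keys 1 3 _ _ _ _ t5_13_21_0) (by decide +kernel)

def r5_13_22 : List (ℕ × ℤ) := [(253, 12), (261, 12), (342, 12)]

theorem h5_13_22 (E : Env κ ι) : inn E 1 3 c5_13 c5_22 = dotS (ek E keys) r5_13_22 :=
  innS_eqZ E _ _ _ _ _ _ _ (chkF_sound E keys 1 3 _ _ _ _ t5_13_22_0) (by decide +kernel)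

def r5_14_14 : List (ℕ × ℤ) := [(255, 24), (343, 12)]

theorem h5_14_14 (E : Env κ ι) : inn E 1 3 c5_14 c5_14 = dotS (ek E keys) r5_14_14 :=
  innS_eqZ E _ _ _ _ _ _ _ (chkF_sound E keys 1 3 _ _ _ _ t5_14_14_0) (by decide +kernel)

def r5_14_15 : List (ℕ × ℤ) := [(257, 24), (344, 12)]

theorem h5_14_15 (E : Env κ ι) : inn E 1 3 c5_14 c5_15 = dotS (ek E keys) r5_14_15 :=
  innS_eqZ E _ _ _ _ _ _ _ (chkF_sound E keys 1 3 _ _ _ _ t5_14_15_0) (by decide +kernel)

def r5_14_16 : List (ℕ × ℤ) := [(4, 12), (258, 24)]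

theorem h5_14_16 (E : Env κ ι) : inn E 1 3 c5_14 c5_16 = dotS (ek E keys) r5_14_16 :=
  innS_eqZ E _ _ _ _ _ _ _ (chkF_sound E keys 1 3 _ _ _ _ t5_14_16_0) (by decide +kernel)

def r5_14_17 : List (ℕ × ℤ) := [(345, 12), (346, 24)]

theorem h5_14_17 (E : Env κ ι) : inn E 1 3 c5_14 c5_17 = dotS (ek E keys) r5_14_17 :=
  innS_eqZ E _ _ _ _ _ _ _ (chkF_sound E keys 1 3 _ _ _ _ t5_14_17_0) (by decide +kernel)

def r5_14_18 : List (ℕ × ℤ) := [(99, 12), (125, 12), (130, 12)]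

theorem h5_14_18 (E : Env κ ι) : inn E 1 3 c5_14 c5_18 = dotS (ek E keys) r5_14_18 :=
  innS_eqZ E _ _ _ _ _ _ _ (chkF_sound E keys 1 3 _ _ _ _ t5_14_18_0) (by decide +kernel)

def r5_14_19 : List (ℕ × ℤ) := [(106, 12), (130, 12), (173, 12)]

theorem h5_14_19 (E : Env κ ι) : inn E 1 3 c5_14 c5_19 = dotS (ek E keys) r5_14_19 :=
  innS_eqZ E _ _ _ _ _ _ _ (chkF_sound E keys 1 3 _ _ _ _ t5_14_19_0) (by decide +kernel)

def r5_14_20 : List (ℕ × ℤ) := [(245, 12), (331, 12), (347, 12)]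

theorem h5_14_20 (E : Env κ ι) : inn E 1 3 c5_14 c5_20 = dotS (ek E keys) r5_14_20 :=
  innS_eqZ E _ _ _ _ _ _ _ (chkF_sound E keys 1 3 _ _ _ _ t5_14_20_0) (by decide +kernel)

def r5_14_21 : List (ℕ × ℤ) := [(238, 12), (327, 12), (348, 12)]

theorem h5_14_21 (E : Env κ ι) : inn E 1 3 c5_14 c5_21 = dotS (ek E keys) r5_14_21 :=
  innS_eqZ E _ _ _ _ _ _ _ (chkF_sound E keys 1 3 _ _ _ _ t5_14_21_0) (by decide +kernel)

def r5_14_22 : List (ℕ × ℤ) := [(252, 12), (332, 12), (349, 12)]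

theorem h5_14_22 (E : Env κ ι) : inn E 1 3 c5_14 c5_22 = dotS (ek E keys) r5_14_22 :=
  innS_eqZ E _ _ _ _ _ _ _ (chkF_sound E keys 1 3 _ _ _ _ t5_14_22_0) (by decide +kernel)

def r5_15_15 : List (ℕ × ℤ) := [(4, 12), (264, 24)]

theorem h5_15_15 (E : Env κ ι) : inn E 1 3 c5_15 c5_15 = dotS (ek E keys) r5_15_15 :=
  innS_eqZ E _ _ _ _ _ _ _ (chkF_sound E keys 1 3 _ _ _ _ t5_15_15_0) (by decide +kernel)

def r5_15_16 : List (ℕ × ℤ) := [(42, 12), (43, 24)]

theorem h5_15_16 (E : Env κ ι) : inn E 1 3 c5_15 c5_16 = dotS (ek E keys) r5_15_16 :=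
  innS_eqZ E _ _ _ _ _ _ _ (chkF_sound E keys 1 3 _ _ _ _ t5_15_16_0) (by decide +kernel)

def r5_15_17 : List (ℕ × ℤ) := [(271, 12), (276, 24)]

theorem h5_15_17 (E : Env κ ι) : inn E 1 3 c5_15 c5_17 = dotS (ek E keys) r5_15_17 :=
  innS_eqZ E _ _ _ _ _ _ _ (chkF_sound E keys 1 3 _ _ _ _ t5_15_17_0) (by decide +kernel)

def r5_15_18 : List (ℕ × ℤ) := [(58, 12), (86, 12), (126, 12)]

theorem h5_15_18 (E : Env κ ι) : inn E 1 3 c5_15 c5_18 = dotS (ek E keys) r5_15_18 :=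
  innS_eqZ E _ _ _ _ _ _ _ (chkF_sound E keys 1 3 _ _ _ _ t5_15_18_0) (by decide +kernel)

def r5_15_19 : List (ℕ × ℤ) := [(57, 12), (58, 12), (108, 12)]

theorem h5_15_19 (E : Env κ ι) : inn E 1 3 c5_15 c5_19 = dotS (ek E keys) r5_15_19 :=
  innS_eqZ E _ _ _ _ _ _ _ (chkF_sound E keys 1 3 _ _ _ _ t5_15_19_0) (by decide +kernel)

def r5_15_20 : List (ℕ × ℤ) := [(237, 12), (332, 12), (350, 12)]

theorem h5_15_20 (E : Env κ ι) : inn E 1 3 c5_15 c5_20 = dotS (ek E keys) r5_15_20 :=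
  innS_eqZ E _ _ _ _ _ _ _ (chkF_sound E keys 1 3 _ _ _ _ t5_15_20_0) (by decide +kernel)

def r5_15_21 : List (ℕ × ℤ) := [(240, 12), (257, 12), (349, 12)]

theorem h5_15_21 (E : Env κ ι) : inn E 1 3 c5_15 c5_21 = dotS (ek E keys) r5_15_21 :=
  innS_eqZ E _ _ _ _ _ _ _ (chkF_sound E keys 1 3 _ _ _ _ t5_15_21_0) (by decide +kernel)

def r5_15_22 : List (ℕ × ℤ) := [(241, 12), (258, 12), (351, 12)]

theorem h5_15_22 (E : Env κ ι) : inn E 1 3 c5_15 c5_22 = dotS (ek E keys) r5_15_22 :=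
  innS_eqZ E _ _ _ _ _ _ _ (chkF_sound E keys 1 3 _ _ _ _ t5_15_22_0) (by decide +kernel)

def r5_16_16 : List (ℕ × ℤ) := [(38, 24), (65, 12)]

theorem h5_16_16 (E : Env κ ι) : inn E 1 3 c5_16 c5_16 = dotS (ek E keys) r5_16_16 :=
  innS_eqZ E _ _ _ _ _ _ _ (chkF_sound E keys 1 3 _ _ _ _ t5_16_16_0) (by decide +kernel)

def r5_16_17 : List (ℕ × ℤ) := [(2, 12), (277, 24)]

theorem h5_16_17 (E : Env κ ι) : inn E 1 3 c5_16 c5_17 = dotS (ek E keys) r5_16_17 :=
  innS_eqZ E _ _ _ _ _ _ _ (chkF_sound E keys 1 3 _ _ _ _ t5_16_17_0) (by decide +kernel)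

def r5_16_18 : List (ℕ × ℤ) := [(34, 12), (56, 12), (132, 12)]

theorem h5_16_18 (E : Env κ ι) : inn E 1 3 c5_16 c5_18 = dotS (ek E keys) r5_16_18 :=
  innS_eqZ E _ _ _ _ _ _ _ (chkF_sound E keys 1 3 _ _ _ _ t5_16_18_0) (by decide +kernel)

def r5_16_19 : List (ℕ × ℤ) := [(35, 12), (56, 12), (133, 12)]

theorem h5_16_19 (E : Env κ ι) : inn E 1 3 c5_16 c5_19 = dotS (ek E keys) r5_16_19 :=
  innS_eqZ E _ _ _ _ _ _ _ (chkF_sound E keys 1 3 _ _ _ _ t5_16_19_0) (by decide +kernel)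

def r5_16_20 : List (ℕ × ℤ) := [(247, 12), (258, 12), (352, 12)]

theorem h5_16_20 (E : Env κ ι) : inn E 1 3 c5_16 c5_20 = dotS (ek E keys) r5_16_20 :=
  innS_eqZ E _ _ _ _ _ _ _ (chkF_sound E keys 1 3 _ _ _ _ t5_16_20_0) (by decide +kernel)

def r5_16_21 : List (ℕ × ℤ) := [(241, 12), (264, 12), (351, 12)]

theorem h5_16_21 (E : Env κ ι) : inn E 1 3 c5_16 c5_21 = dotS (ek E keys) r5_16_21 :=
  innS_eqZ E _ _ _ _ _ _ _ (chkF_sound E keys 1 3 _ _ _ _ t5_16_21_0) (by decide +kernel)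

def r5_16_22 : List (ℕ × ℤ) := [(39, 12), (43, 12), (353, 12)]

theorem h5_16_22 (E : Env κ ι) : inn E 1 3 c5_16 c5_22 = dotS (ek E keys) r5_16_22 :=
  innS_eqZ E _ _ _ _ _ _ _ (chkF_sound E keys 1 3 _ _ _ _ t5_16_22_0) (by decide +kernel)

def r5_17_17 : List (ℕ × ℤ) := [(354, 12), (355, 24)]

theorem h5_17_17 (E : Env κ ι) : inn E 1 3 c5_17 c5_17 = dotS (ek E keys) r5_17_17 :=
  innS_eqZ E _ _ _ _ _ _ _ (chkF_sound E keys 1 3 _ _ _ _ t5_17_17_0) (by decide +kernel)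

def r5_17_18 : List (ℕ × ℤ) := [(157, 12), (356, 12), (357, 12)]

theorem h5_17_18 (E : Env κ ι) : inn E 1 3 c5_17 c5_18 = dotS (ek E keys) r5_17_18 :=
  innS_eqZ E _ _ _ _ _ _ _ (chkF_sound E keys 1 3 _ _ _ _ t5_17_18_0) (by decide +kernel)

def r5_17_19 : List (ℕ × ℤ) := [(162, 12), (358, 12), (359, 12)]

theorem h5_17_19 (E : Env κ ι) : inn E 1 3 c5_17 c5_19 = dotS (ek E keys) r5_17_19 :=
  innS_eqZ E _ _ _ _ _ _ _ (chkF_sound E keys 1 3 _ _ _ _ t5_17_19_0) (by decide +kernel)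

def r5_17_20 : List (ℕ × ℤ) := [(319, 12), (360, 12), (361, 12)]

theorem h5_17_20 (E : Env κ ι) : inn E 1 3 c5_17 c5_20 = dotS (ek E keys) r5_17_20 :=
  innS_eqZ E _ _ _ _ _ _ _ (chkF_sound E keys 1 3 _ _ _ _ t5_17_20_0) (by decide +kernel)

def r5_17_21 : List (ℕ × ℤ) := [(318, 12), (346, 12), (360, 12)]

theorem h5_17_21 (E : Env κ ι) : inn E 1 3 c5_17 c5_21 = dotS (ek E keys) r5_17_21 :=
  innS_eqZ E _ _ _ _ _ _ _ (chkF_sound E keys 1 3 _ _ _ _ t5_17_21_0) (by decide +kernel)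

def r5_17_22 : List (ℕ × ℤ) := [(268, 12), (275, 12), (276, 12)]

theorem h5_17_22 (E : Env κ ι) : inn E 1 3 c5_17 c5_22 = dotS (ek E keys) r5_17_22 :=
  innS_eqZ E _ _ _ _ _ _ _ (chkF_sound E keys 1 3 _ _ _ _ t5_17_22_0) (by decide +kernel)

def r5_18_18 : List (ℕ × ℤ) := [(210, 6), (211, 12), (213, 6), (362, 6), (363, 6)]

theorem h5_18_18 (E : Env κ ι) : inn E 1 3 c5_18 c5_18 = dotS (ek E keys) r5_18_18 :=
  innS_eqZ E _ _ _ _ _ _ _ (chkF_sound E keys 1 3 _ _ _ _ t5_18_18_0) (by decide +kernel)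

def r5_18_19 : List (ℕ × ℤ) := [(213, 6), (215, 6), (290, 6), (294, 6), (297, 6), (303, 6)]

theorem h5_18_19 (E : Env κ ι) : inn E 1 3 c5_18 c5_19 = dotS (ek E keys) r5_18_19 :=
  innS_eqZ E _ _ _ _ _ _ _ (chkF_sound E keys 1 3 _ _ _ _ t5_18_19_0) (by decide +kernel)

def r5_18_20 : List (ℕ × ℤ) := [(96, 6), (99, 6), (113, 6), (130, 6), (144, 6), (187, 6)]

theorem h5_18_20 (E : Env κ ι) : inn E 1 3 c5_18 c5_20 = dotS (ek E keys) r5_18_20 :=
  innS_eqZ E _ _ _ _ _ _ _ (chkF_sound E keys 1 3 _ _ _ _ t5_18_20_0) (by decide +kernel)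

def r5_18_21 : List (ℕ × ℤ) := [(83, 6), (85, 6), (107, 6), (119, 6), (127, 6), (129, 6)]

theorem h5_18_21 (E : Env κ ι) : inn E 1 3 c5_18 c5_21 = dotS (ek E keys) r5_18_21 :=
  innS_eqZ E _ _ _ _ _ _ _ (chkF_sound E keys 1 3 _ _ _ _ t5_18_21_0) (by decide +kernel)

def r5_18_22 : List (ℕ × ℤ) := [(48, 6), (53, 6), (58, 6), (86, 6), (120, 6), (134, 6)]

theorem h5_18_22 (E : Env κ ι) : inn E 1 3 c5_18 c5_22 = dotS (ek E keys) r5_18_22 :=
  innS_eqZ E _ _ _ _ _ _ _ (chkF_sound E keys 1 3 _ _ _ _ t5_18_22_0) (by decide +kernel)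

def r5_19_19 : List (ℕ × ℤ) := [(287, 6), (288, 6), (290, 6), (291, 12), (293, 6)]

theorem h5_19_19 (E : Env κ ι) : inn E 1 3 c5_19 c5_19 = dotS (ek E keys) r5_19_19 :=
  innS_eqZ E _ _ _ _ _ _ _ (chkF_sound E keys 1 3 _ _ _ _ t5_19_19_0) (by decide +kernel)

def r5_19_20 : List (ℕ × ℤ) := [(113, 6), (115, 6), (147, 6), (149, 6), (191, 6), (194, 6)]

theorem h5_19_20 (E : Env κ ι) : inn E 1 3 c5_19 c5_20 = dotS (ek E keys) r5_19_20 :=
  innS_eqZ E _ _ _ _ _ _ _ (chkF_sound E keys 1 3 _ _ _ _ t5_19_20_0) (by decide +kernel)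

def r5_19_21 : List (ℕ × ℤ) := [(104, 6), (107, 6), (109, 6), (112, 6), (121, 6), (139, 6)]

theorem h5_19_21 (E : Env κ ι) : inn E 1 3 c5_19 c5_21 = dotS (ek E keys) r5_19_21 :=
  innS_eqZ E _ _ _ _ _ _ _ (chkF_sound E keys 1 3 _ _ _ _ t5_19_21_0) (by decide +kernel)

def r5_19_22 : List (ℕ × ℤ) := [(52, 6), (53, 6), (54, 6), (55, 6), (122, 6), (135, 6)]

theorem h5_19_22 (E : Env κ ι) : inn E 1 3 c5_19 c5_22 = dotS (ek E keys) r5_19_22 :=
  innS_eqZ E _ _ _ _ _ _ _ (chkF_sound E keys 1 3 _ _ _ _ t5_19_22_0) (by decide +kernel)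

def r5_20_20 : List (ℕ × ℤ) := [(243, 6), (245, 12), (255, 6), (309, 6), (364, 6)]

theorem h5_20_20 (E : Env κ ι) : inn E 1 3 c5_20 c5_20 = dotS (ek E keys) r5_20_20 :=
  innS_eqZ E _ _ _ _ _ _ _ (chkF_sound E keys 1 3 _ _ _ _ t5_20_20_0) (by decide +kernel)

def r5_20_21 : List (ℕ × ℤ) := [(235, 6), (236, 6), (311, 6), (321, 6), (327, 6), (365, 6)]

theorem h5_20_21 (E : Env κ ι) : inn E 1 3 c5_20 c5_21 = dotS (ek E keys) r5_20_21 :=
  innS_eqZ E _ _ _ _ _ _ _ (chkF_sound E keys 1 3 _ _ _ _ t5_20_21_0) (by decide +kernel)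

def r5_20_22 : List (ℕ × ℤ) := [(237, 6), (244, 6), (252, 6), (257, 6), (322, 6), (366, 6)]

theorem h5_20_22 (E : Env κ ι) : inn E 1 3 c5_20 c5_22 = dotS (ek E keys) r5_20_22 :=
  innS_eqZ E _ _ _ _ _ _ _ (chkF_sound E keys 1 3 _ _ _ _ t5_20_22_0) (by decide +kernel)

def r5_21_21 : List (ℕ × ℤ) := [(235, 6), (238, 12), (255, 6), (315, 6), (347, 6)]

theorem h5_21_21 (E : Env κ ι) : inn E 1 3 c5_21 c5_21 = dotS (ek E keys) r5_21_21 :=
  innS_eqZ E _ _ _ _ _ _ _ (chkF_sound E keys 1 3 _ _ _ _ t5_21_21_0) (by decide +kernel)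

def r5_21_22 : List (ℕ × ℤ) := [(237, 6), (240, 6), (252, 6), (257, 6), (316, 6), (350, 6)]

theorem h5_21_22 (E : Env κ ι) : inn E 1 3 c5_21 c5_22 = dotS (ek E keys) r5_21_22 :=
  innS_eqZ E _ _ _ _ _ _ _ (chkF_sound E keys 1 3 _ _ _ _ t5_21_22_0) (by decide +kernel)

def r5_22_22 : List (ℕ × ℤ) := [(241, 12), (247, 6), (264, 6), (317, 6), (352, 6)]

theorem h5_22_22 (E : Env κ ι) : inn E 1 3 c5_22 c5_22 = dotS (ek E keys) r5_22_22 :=
  innS_eqZ E _ _ _ _ _ _ _ (chkF_sound E keys 1 3 _ _ _ _ t5_22_22_0) (by decide +kernel)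

theorem row5_0 (E : Env κ ι) : RowS E 1 3 (ek E keys) c5_0 [c5_0, c5_1, c5_2, c5_3, c5_4, c5_5, c5_6, c5_7, c5_8, c5_9, c5_10, c5_11, c5_12, c5_13, c5_14, c5_15, c5_16, c5_17, c5_18, c5_19, c5_20, c5_21, c5_22] [r5_0_0, r5_0_1, r5_0_2, r5_0_3, r5_0_4, r5_0_5, r5_0_6, r5_0_7, r5_0_8, r5_0_9, r5_0_10, r5_0_11, r5_0_12, r5_0_13, r5_0_14, r5_0_15, r5_0_16, r5_0_17, r5_0_18, r5_0_19, r5_0_20, r5_0_21, r5_0_22] :=
  rowS_cons E _ _ _ _ _ _ _ _ (h5_0_0 E) (rowS_cons E _ _ _ _ _ _ _ _ (h5_0_1 E) (rowS_cons E _ _ _ _ _ _ _ _ (h5_0_2 E) (rowS_cons E _ _ _ _ _ _ _ _ (h5_0_3 E) (rowS_cons E _ _ _ _ _ _ _ _ (h5_0_4 E) (rowS_cons E _ _ _ _ _ _ _ _ (h5_0_5 E) (rowS_cons E _ _ _ _ _ _ _ _ (h5_0_6 E) (rowS_cons E _ _ _ _ _ _ _ _ (h5_0_7 E) (rowS_cons E _ _ _ _ _ _ _ _ (h5_0_8 E) (rowS_cons E _ _ _ _ _ _ _ _ (h5_0_9 E) (rowS_cons E _ _ _ _ _ _ _ _ (h5_0_10 E) (rowS_cons E _ _ _ _ _ _ _ _ (h5_0_11 E) (rowS_cons E _ _ _ _ _ _ _ _ (h5_0_12 E)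 (rowS_cons E _ _ _ _ _ _ _ _ (h5_0_13 E) (rowS_cons E _ _ _ _ _ _ _ _ (h5_0_14 E) (rowS_cons E _ _ _ _ _ _ _ _ (h5_0_15 E) (rowS_cons E _ _ _ _ _ _ _ _ (h5_0_16 E) (rowS_cons E _ _ _ _ _ _ _ _ (h5_0_17 E) (rowS_cons E _ _ _ _ _ _ _ _ (h5_0_18 E) (rowS_cons E _ _ _ _ _ _ _ _ (h5_0_19 E) (rowS_cons E _ _ _ _ _ _ _ _ (h5_0_20 E) (rowS_cons E _ _ _ _ _ _ _ _ (h5_0_21 E) (rowS_cons E _ _ _ _ _ _ _ _ (h5_0_22 E) (rowS_nil E _ _ _ _)))))))))))))))))))))))

theorem row5_1 (E : Env κ ι) : RowS E 1 3 (ek E keys) c5_1 [c5_1, c5_2, c5_3, c5_4, c5_5, c5_6, c5_7, c5_8, c5_9, c5_10, c5_11, c5_12, c5_13, c5_14, c5_15, c5_16, c5_17, c5_18, c5_19, c5_20, c5_21, c5_22] [r5_1_1, r5_1_2, r5_1_3, r5_1_4, r5_1_5, r5_1_6, r5_1_7, r5_1_8, r5_1_9, r5_1_10, r5_1_11, r5_1_12, r5_1_13, r5_1_14, r5_1_15, r5_1_16, r5_1_17, r5_1_18, r5_1_19, r5_1_20, r5_1_21, r5_1_22] :=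
  rowS_cons E _ _ _ _ _ _ _ _ (h5_1_1 E) (rowS_cons E _ _ _ _ _ _ _ _ (h5_1_2 E) (rowS_cons E _ _ _ _ _ _ _ _ (h5_1_3 E) (rowS_cons E _ _ _ _ _ _ _ _ (h5_1_4 E) (rowS_cons E _ _ _ _ _ _ _ _ (h5_1_5 E) (rowS_cons E _ _ _ _ _ _ _ _ (h5_1_6 E) (rowS_cons E _ _ _ _ _ _ _ _ (h5_1_7 E) (rowS_cons E _ _ _ _ _ _ _ _ (h5_1_8 E) (rowS_cons E _ _ _ _ _ _ _ _ (h5_1_9 E) (rowS_cons E _ _ _ _ _ _ _ _ (h5_1_10 E) (rowS_cons E _ _ _ _ _ _ _ _ (h5_1_11 E) (rowS_cons E _ _ _ _ _ _ _ _ (h5_1_12 E) (rowS_cons E _ _ _ _ _ _ _ _ (h5_1_13 E) (rowS_cons E _ _ _ _ _ _ _ _ (h5_1_14 E) (rowS_cons E _ _ _ _ _ _ _ _ (h5_1_15 E) (rowS_cons E _ _ _ _ _ _ _ _ (h5_1_16 E) (rowS_cons E _ _ _ _ _ _ _ _ (h5_1_17 E) (rowS_cons E _ _ _ _ _ _ _ _ (h5_1_18 E) (rowS_cons E _ _ _ _ _ _ _ _ (h5_1_19 E) (rowS_cons E _ _ _ _ _ _ _ _ (h5_1_20 E) (rowS_cons E _ _ _ _ _ _ _ _ (h5_1_21 E) (rowS_cons E _ _ _ _ _ _ _ _ (h5_1_22 E) (rowS_nil E _ _ _ _))))))))))))))))))))))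

theorem row5_2 (E : Env κ ι) : RowS E 1 3 (ek E keys) c5_2 [c5_2, c5_3, c5_4, c5_5, c5_6, c5_7, c5_8, c5_9, c5_10, c5_11, c5_12, c5_13, c5_14, c5_15, c5_16, c5_17, c5_18, c5_19, c5_20, c5_21, c5_22] [r5_2_2, r5_2_3, r5_2_4, r5_2_5, r5_2_6, r5_2_7, r5_2_8, r5_2_9, r5_2_10, r5_2_11, r5_2_12, r5_2_13, r5_2_14, r5_2_15, r5_2_16, r5_2_17, r5_2_18, r5_2_19, r5_2_20, r5_2_21, r5_2_22] :=
  rowS_cons E _ _ _ _ _ _ _ _ (h5_2_2 E) (rowS_cons E _ _ _ _ _ _ _ _ (h5_2_3 E) (rowS_cons E _ _ _ _ _ _ _ _ (h5_2_4 E) (rowS_cons E _ _ _ _ _ _ _ _ (h5_2_5 E) (rowS_cons E _ _ _ _ _ _ _ _ (h5_2_6 E) (rowS_cons E _ _ _ _ _ _ _ _ (h5_2_7 E) (rowS_cons E _ _ _ _ _ _ _ _ (h5_2_8 E) (rowS_cons E _ _ _ _ _ _ _ _ (h5_2_9 E) (rowS_cons E _ _ _ _ _ _ _ _ (h5_2_10 E) (rowS_cons E _ _ _ _ _ _ _ _ (h5_2_11 E) (rowS_cons E _ _ _ _ _ _ _ _ (h5_2_12 E) (rowS_cons E _ _ _ _ _ _ _ _ (h5_2_13 E) (rowS_cons E _ _ _ _ _ _ _ _ (h5_2_14 E) (rowS_cons E _ _ _ _ _ _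 _ _ (h5_2_15 E) (rowS_cons E _ _ _ _ _ _ _ _ (h5_2_16 E) (rowS_cons E _ _ _ _ _ _ _ _ (h5_2_17 E) (rowS_cons E _ _ _ _ _ _ _ _ (h5_2_18 E) (rowS_cons E _ _ _ _ _ _ _ _ (h5_2_19 E) (rowS_cons E _ _ _ _ _ _ _ _ (h5_2_20 E) (rowS_cons E _ _ _ _ _ _ _ _ (h5_2_21 E) (rowS_cons E _ _ _ _ _ _ _ _ (h5_2_22 E) (rowS_nil E _ _ _ _)))))))))))))))))))))

theorem row5_3 (E : Env κ ι) : RowS E 1 3 (ek E keys) c5_3 [c5_3, c5_4, c5_5, c5_6, c5_7, c5_8, c5_9, c5_10, c5_11, c5_12, c5_13, c5_14, c5_15, c5_16, c5_17, c5_18, c5_19, c5_20, c5_21, c5_22] [r5_3_3, r5_3_4, r5_3_5, r5_3_6, r5_3_7, r5_3_8, r5_3_9, r5_3_10, r5_3_11, r5_3_12, r5_3_13, r5_3_14, r5_3_15, r5_3_16, r5_3_17, r5_3_18, r5_3_19, r5_3_20, r5_3_21, r5_3_22] :=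
  rowS_cons E _ _ _ _ _ _ _ _ (h5_3_3 E) (rowS_cons E _ _ _ _ _ _ _ _ (h5_3_4 E) (rowS_cons E _ _ _ _ _ _ _ _ (h5_3_5 E) (rowS_cons E _ _ _ _ _ _ _ _ (h5_3_6 E) (rowS_cons E _ _ _ _ _ _ _ _ (h5_3_7 E) (rowS_cons E _ _ _ _ _ _ _ _ (h5_3_8 E) (rowS_cons E _ _ _ _ _ _ _ _ (h5_3_9 E) (rowS_cons E _ _ _ _ _ _ _ _ (h5_3_10 E) (rowS_cons E _ _ _ _ _ _ _ _ (h5_3_11 E) (rowS_cons E _ _ _ _ _ _ _ _ (h5_3_12 E) (rowS_cons E _ _ _ _ _ _ _ _ (h5_3_13 E) (rowS_cons E _ _ _ _ _ _ _ _ (h5_3_14 E) (rowS_cons E _ _ _ _ _ _ _ _ (h5_3_15 E) (rowS_cons E _ _ _ _ _ _ _ _ (h5_3_16 E) (rowS_cons E _ _ _ _ _ _ _ _ (h5_3_17 E) (rowS_cons E _ _ _ _ _ _ _ _ (h5_3_18 E) (rowS_cons E _ _ _ _ _ _ _ _ (h5_3_19 E) (rowS_cons E _ _ _ _ _ _ _ _ (h5_3_20 E) (rowS_cons E _ _ _ _ _ _ _ _ (h5_3_21 E) (rowS_cons E _ _ _ _ _ _ _ _ (h5_3_22 E) (rowS_nil E _ _ _ _))))))))))))))))))))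

theorem row5_4 (E : Env κ ι) : RowS E 1 3 (ek E keys) c5_4 [c5_4, c5_5, c5_6, c5_7, c5_8, c5_9, c5_10, c5_11, c5_12, c5_13, c5_14, c5_15, c5_16, c5_17, c5_18, c5_19, c5_20, c5_21, c5_22] [r5_4_4, r5_4_5, r5_4_6, r5_4_7, r5_4_8, r5_4_9, r5_4_10, r5_4_11, r5_4_12, r5_4_13, r5_4_14, r5_4_15, r5_4_16, r5_4_17, r5_4_18, r5_4_19, r5_4_20, r5_4_21, r5_4_22] :=
  rowS_cons E _ _ _ _ _ _ _ _ (h5_4_4 E) (rowS_cons E _ _ _ _ _ _ _ _ (h5_4_5 E) (rowS_cons E _ _ _ _ _ _ _ _ (h5_4_6 E) (rowS_cons E _ _ _ _ _ _ _ _ (h5_4_7 E) (rowS_cons E _ _ _ _ _ _ _ _ (h5_4_8 E) (rowS_cons E _ _ _ _ _ _ _ _ (h5_4_9 E) (rowS_cons E _ _ _ _ _ _ _ _ (h5_4_10 E) (rowS_cons E _ _ _ _ _ _ _ _ (h5_4_11 E) (rowS_cons E _ _ _ _ _ _ _ _ (h5_4_12 E) (rowS_cons E _ _ _ _ _ _ _ _ (h5_4_13 E) (rowS_cons E _ _ _ _ _ _ _ _ (h5_4_14 E) (rowS_cons E _ _ _ _ _ _ _ _ (h5_4_15 E) (rowS_cons E _ _ _ _ _ _ _ _ (h5_4_16 E) (rowS_cons E _ _ _ _ _ _ _ _ (h5_4_17 E) (rowS_cons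 E _ _ _ _ _ _ _ _ (h5_4_18 E) (rowS_cons E _ _ _ _ _ _ _ _ (h5_4_19 E) (rowS_cons E _ _ _ _ _ _ _ _ (h5_4_20 E) (rowS_cons E _ _ _ _ _ _ _ _ (h5_4_21 E) (rowS_cons E _ _ _ _ _ _ _ _ (h5_4_22 E) (rowS_nil E _ _ _ _)))))))))))))))))))

theorem row5_5 (E : Env κ ι) : RowS E 1 3 (ek E keys) c5_5 [c5_5, c5_6, c5_7, c5_8, c5_9, c5_10, c5_11, c5_12, c5_13, c5_14, c5_15, c5_16, c5_17, c5_18, c5_19, c5_20, c5_21, c5_22] [r5_5_5, r5_5_6, r5_5_7, r5_5_8, r5_5_9, r5_5_10, r5_5_11, r5_5_12, r5_5_13, r5_5_14, r5_5_15, r5_5_16, r5_5_17, r5_5_18, r5_5_19, r5_5_20, r5_5_21, r5_5_22] :=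
  rowS_cons E _ _ _ _ _ _ _ _ (h5_5_5 E) (rowS_cons E _ _ _ _ _ _ _ _ (h5_5_6 E) (rowS_cons E _ _ _ _ _ _ _ _ (h5_5_7 E) (rowS_cons E _ _ _ _ _ _ _ _ (h5_5_8 E) (rowS_cons E _ _ _ _ _ _ _ _ (h5_5_9 E) (rowS_cons E _ _ _ _ _ _ _ _ (h5_5_10 E) (rowS_cons E _ _ _ _ _ _ _ _ (h5_5_11 E) (rowS_cons E _ _ _ _ _ _ _ _ (h5_5_12 E) (rowS_cons E _ _ _ _ _ _ _ _ (h5_5_13 E) (rowS_cons E _ _ _ _ _ _ _ _ (h5_5_14 E) (rowS_cons E _ _ _ _ _ _ _ _ (h5_5_15 E) (rowS_cons E _ _ _ _ _ _ _ _ (h5_5_16 E) (rowS_cons E _ _ _ _ _ _ _ _ (h5_5_17 E) (rowS_cons E _ _ _ _ _ _ _ _ (h5_5_18 E) (rowS_cons E _ _ _ _ _ _ _ _ (h5_5_19 E) (rowS_cons E _ _ _ _ _ _ _ _ (h5_5_20 E) (rowS_cons E _ _ _ _ _ _ _ _ (h5_5_21 E) (rowS_cons E _ _ _ _ _ _ _ _ (h5_5_22 E) (rowS_nil E _ _ _ _))))))))))))))))))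

theorem row5_6 (E : Env κ ι) : RowS E 1 3 (ek E keys) c5_6 [c5_6, c5_7, c5_8, c5_9, c5_10, c5_11, c5_12, c5_13, c5_14, c5_15, c5_16, c5_17, c5_18, c5_19, c5_20, c5_21, c5_22] [r5_6_6, r5_6_7, r5_6_8, r5_6_9, r5_6_10, r5_6_11, r5_6_12, r5_6_13, r5_6_14, r5_6_15, r5_6_16, r5_6_17, r5_6_18, r5_6_19, r5_6_20, r5_6_21, r5_6_22] :=
  rowS_cons E _ _ _ _ _ _ _ _ (h5_6_6 E) (rowS_cons E _ _ _ _ _ _ _ _ (h5_6_7 E) (rowS_cons E _ _ _ _ _ _ _ _ (h5_6_8 E) (rowS_cons E _ _ _ _ _ _ _ _ (h5_6_9 E) (rowS_cons E _ _ _ _ _ _ _ _ (h5_6_10 E) (rowS_cons E _ _ _ _ _ _ _ _ (h5_6_11 E) (rowS_cons E _ _ _ _ _ _ _ _ (h5_6_12 E) (rowS_cons E _ _ _ _ _ _ _ _ (h5_6_13 E) (rowS_cons E _ _ _ _ _ _ _ _ (h5_6_14 E) (rowS_cons E _ _ _ _ _ _ _ _ (h5_6_15 E) (rowS_cons E _ _ _ _ _ _ _ _ (h5_6_16 E) (rowS_cons E _ _ _ _ _ _ _ _ (h5_6_17 E) (rowS_cons E _ _ _ _ _ _ _ _ (h5_6_18 E) (rowS_cons E _ _ _ _ _ _ _ _ (h5_6_19 E) (rowS_cons E _ _ _ _ _ _ _ _ (h5_6_20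 E) (rowS_cons E _ _ _ _ _ _ _ _ (h5_6_21 E) (rowS_cons E _ _ _ _ _ _ _ _ (h5_6_22 E) (rowS_nil E _ _ _ _)))))))))))))))))

theorem row5_7 (E : Env κ ι) : RowS E 1 3 (ek E keys) c5_7 [c5_7, c5_8, c5_9, c5_10, c5_11, c5_12, c5_13, c5_14, c5_15, c5_16, c5_17, c5_18, c5_19, c5_20, c5_21, c5_22] [r5_7_7, r5_7_8, r5_7_9, r5_7_10, r5_7_11, r5_7_12, r5_7_13, r5_7_14, r5_7_15, r5_7_16, r5_7_17, r5_7_18, r5_7_19, r5_7_20, r5_7_21, r5_7_22] :=
  rowS_cons E _ _ _ _ _ _ _ _ (h5_7_7 E) (rowS_cons E _ _ _ _ _ _ _ _ (h5_7_8 E) (rowS_cons E _ _ _ _ _ _ _ _ (h5_7_9 E) (rowS_cons E _ _ _ _ _ _ _ _ (h5_7_10 E) (rowS_cons E _ _ _ _ _ _ _ _ (h5_7_11 E) (rowS_cons E _ _ _ _ _ _ _ _ (h5_7_12 E) (rowS_cons E _ _ _ _ _ _ _ _ (h5_7_13 E) (rowS_cons E _ _ _ _ _ _ _ _ (h5_7_14 E) (rowS_cons E _ _ _ _ _ _ _ _ (h5_7_15 E) (rowS_cons E _ _ _ _ _ _ _ _ (h5_7_16 E) (rowS_cons E _ _ _ _ _ _ _ _ (h5_7_17 E) (rowS_cons E _ _ _ _ _ _ _ _ (h5_7_18 E) (rowS_cons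 E _ _ _ _ _ _ _ _ (h5_7_19 E) (rowS_cons E _ _ _ _ _ _ _ _ (h5_7_20 E) (rowS_cons E _ _ _ _ _ _ _ _ (h5_7_21 E) (rowS_cons E _ _ _ _ _ _ _ _ (h5_7_22 E) (rowS_nil E _ _ _ _))))))))))))))))

theorem row5_8 (E : Env κ ι) : RowS E 1 3 (ek E keys) c5_8 [c5_8, c5_9, c5_10, c5_11, c5_12, c5_13, c5_14, c5_15, c5_16, c5_17, c5_18, c5_19, c5_20, c5_21, c5_22] [r5_8_8, r5_8_9, r5_8_10, r5_8_11, r5_8_12, r5_8_13, r5_8_14, r5_8_15, r5_8_16, r5_8_17, r5_8_18, r5_8_19, r5_8_20, r5_8_21, r5_8_22] :=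
  rowS_cons E _ _ _ _ _ _ _ _ (h5_8_8 E) (rowS_cons E _ _ _ _ _ _ _ _ (h5_8_9 E) (rowS_cons E _ _ _ _ _ _ _ _ (h5_8_10 E) (rowS_cons E _ _ _ _ _ _ _ _ (h5_8_11 E) (rowS_cons E _ _ _ _ _ _ _ _ (h5_8_12 E) (rowS_cons E _ _ _ _ _ _ _ _ (h5_8_13 E) (rowS_cons E _ _ _ _ _ _ _ _ (h5_8_14 E) (rowS_cons E _ _ _ _ _ _ _ _ (h5_8_15 E) (rowS_cons E _ _ _ _ _ _ _ _ (h5_8_16 E) (rowS_cons E _ _ _ _ _ _ _ _ (h5_8_17 E) (rowS_cons E _ _ _ _ _ _ _ _ (h5_8_18 E) (rowS_cons E _ _ _ _ _ _ _ _ (h5_8_19 E) (rowS_cons E _ _ _ _ _ _ _ _ (h5_8_20 E) (rowS_cons E _ _ _ _ _ _ _ _ (h5_8_21 E) (rowS_cons E _ _ _ _ _ _ _ _ (h5_8_22 E) (rowS_nil E _ _ _ _)))))))))))))))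

theorem row5_9 (E : Env κ ι) : RowS E 1 3 (ek E keys) c5_9 [c5_9, c5_10, c5_11, c5_12, c5_13, c5_14, c5_15, c5_16, c5_17, c5_18, c5_19, c5_20, c5_21, c5_22] [r5_9_9, r5_9_10, r5_9_11, r5_9_12, r5_9_13, r5_9_14, r5_9_15, r5_9_16, r5_9_17, r5_9_18, r5_9_19, r5_9_20, r5_9_21, r5_9_22] :=
  rowS_cons E _ _ _ _ _ _ _ _ (h5_9_9 E) (rowS_cons E _ _ _ _ _ _ _ _ (h5_9_10 E) (rowS_cons E _ _ _ _ _ _ _ _ (h5_9_11 E) (rowS_cons E _ _ _ _ _ _ _ _ (h5_9_12 E) (rowS_cons E _ _ _ _ _ _ _ _ (h5_9_13 E) (rowS_cons E _ _ _ _ _ _ _ _ (h5_9_14 E) (rowS_cons E _ _ _ _ _ _ _ _ (h5_9_15 E) (rowS_cons E _ _ _ _ _ _ _ _ (h5_9_16 E) (rowS_cons E _ _ _ _ _ _ _ _ (h5_9_17 E) (rowS_cons E _ _ _ _ _ _ _ _ (h5_9_18 E) (rowS_cons E _ _ _ _ _ _ _ _ (h5_9_19 E) (rowS_cons E _ _ _ _ _ _ _ _ (h5_9_20 E) (rowS_cons E _ _ _ _ _ _ _ _ (h5_9_21 E) (rowS_cons E _ _ _ _ _ _ _ _ (h5_9_22 E) (rowS_nil E _ _ _ _))))))))))))))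

theorem row5_10 (E : Env κ ι) : RowS E 1 3 (ek E keys) c5_10 [c5_10, c5_11, c5_12, c5_13, c5_14, c5_15, c5_16, c5_17, c5_18, c5_19, c5_20, c5_21, c5_22] [r5_10_10, r5_10_11, r5_10_12, r5_10_13, r5_10_14, r5_10_15, r5_10_16, r5_10_17, r5_10_18, r5_10_19, r5_10_20, r5_10_21, r5_10_22] :=
  rowS_cons E _ _ _ _ _ _ _ _ (h5_10_10 E) (rowS_cons E _ _ _ _ _ _ _ _ (h5_10_11 E) (rowS_cons E _ _ _ _ _ _ _ _ (h5_10_12 E) (rowS_cons E _ _ _ _ _ _ _ _ (h5_10_13 E) (rowS_cons E _ _ _ _ _ _ _ _ (h5_10_14 E) (rowS_cons E _ _ _ _ _ _ _ _ (h5_10_15 E) (rowS_cons E _ _ _ _ _ _ _ _ (h5_10_16 E) (rowS_cons E _ _ _ _ _ _ _ _ (h5_10_17 E) (rowS_cons E _ _ _ _ _ _ _ _ (h5_10_18 E) (rowS_cons E _ _ _ _ _ _ _ _ (h5_10_19 E) (rowS_cons E _ _ _ _ _ _ _ _ (h5_10_20 E) (rowS_cons E _ _ _ _ _ _ _ _ (h5_10_21 E) (rowS_cons E _ _ _ _ _ _ _ _ (h5_10_22 E) (rowS_nil E _ _ _ _)))))))))))))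

theorem row5_11 (E : Env κ ι) : RowS E 1 3 (ek E keys) c5_11 [c5_11, c5_12, c5_13, c5_14, c5_15, c5_16, c5_17, c5_18, c5_19, c5_20, c5_21, c5_22] [r5_11_11, r5_11_12, r5_11_13, r5_11_14, r5_11_15, r5_11_16, r5_11_17, r5_11_18, r5_11_19, r5_11_20, r5_11_21, r5_11_22] :=
  rowS_cons E _ _ _ _ _ _ _ _ (h5_11_11 E) (rowS_cons E _ _ _ _ _ _ _ _ (h5_11_12 E) (rowS_cons E _ _ _ _ _ _ _ _ (h5_11_13 E) (rowS_cons E _ _ _ _ _ _ _ _ (h5_11_14 E) (rowS_cons E _ _ _ _ _ _ _ _ (h5_11_15 E) (rowS_cons E _ _ _ _ _ _ _ _ (h5_11_16 E) (rowS_cons E _ _ _ _ _ _ _ _ (h5_11_17 E) (rowS_cons E _ _ _ _ _ _ _ _ (h5_11_18 E) (rowS_cons E _ _ _ _ _ _ _ _ (h5_11_19 E) (rowS_cons E _ _ _ _ _ _ _ _ (h5_11_20 E) (rowS_cons E _ _ _ _ _ _ _ _ (h5_11_21 E) (rowS_cons E _ _ _ _ _ _ _ _ (h5_11_22 E) (rowS_nil E _ _ _ _))))))))))))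

theorem row5_12 (E : Env κ ι) : RowS E 1 3 (ek E keys) c5_12 [c5_12, c5_13, c5_14, c5_15, c5_16, c5_17, c5_18, c5_19, c5_20, c5_21, c5_22] [r5_12_12, r5_12_13, r5_12_14, r5_12_15, r5_12_16, r5_12_17, r5_12_18, r5_12_19, r5_12_20, r5_12_21, r5_12_22] :=
  rowS_cons E _ _ _ _ _ _ _ _ (h5_12_12 E) (rowS_cons E _ _ _ _ _ _ _ _ (h5_12_13 E) (rowS_cons E _ _ _ _ _ _ _ _ (h5_12_14 E) (rowS_cons E _ _ _ _ _ _ _ _ (h5_12_15 E) (rowS_cons E _ _ _ _ _ _ _ _ (h5_12_16 E) (rowS_cons E _ _ _ _ _ _ _ _ (h5_12_17 E) (rowS_cons E _ _ _ _ _ _ _ _ (h5_12_18 E) (rowS_cons E _ _ _ _ _ _ _ _ (h5_12_19 E) (rowS_cons E _ _ _ _ _ _ _ _ (h5_12_20 E) (rowS_cons E _ _ _ _ _ _ _ _ (h5_12_21 E) (rowS_cons E _ _ _ _ _ _ _ _ (h5_12_22 E) (rowS_nil E _ _ _ _)))))))))))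

theorem row5_13 (E : Env κ ι) : RowS E 1 3 (ek E keys) c5_13 [c5_13, c5_14, c5_15, c5_16, c5_17, c5_18, c5_19, c5_20, c5_21, c5_22] [r5_13_13, r5_13_14, r5_13_15, r5_13_16, r5_13_17, r5_13_18, r5_13_19, r5_13_20, r5_13_21, r5_13_22] :=
  rowS_cons E _ _ _ _ _ _ _ _ (h5_13_13 E) (rowS_cons E _ _ _ _ _ _ _ _ (h5_13_14 E) (rowS_cons E _ _ _ _ _ _ _ _ (h5_13_15 E) (rowS_cons E _ _ _ _ _ _ _ _ (h5_13_16 E) (rowS_cons E _ _ _ _ _ _ _ _ (h5_13_17 E) (rowS_cons E _ _ _ _ _ _ _ _ (h5_13_18 E) (rowS_cons E _ _ _ _ _ _ _ _ (h5_13_19 E) (rowS_cons E _ _ _ _ _ _ _ _ (h5_13_20 E) (rowS_cons E _ _ _ _ _ _ _ _ (h5_13_21 E) (rowS_cons E _ _ _ _ _ _ _ _ (h5_13_22 E) (rowS_nil E _ _ _ _))))))))))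

theorem row5_14 (E : Env κ ι) : RowS E 1 3 (ek E keys) c5_14 [c5_14, c5_15, c5_16, c5_17, c5_18, c5_19, c5_20, c5_21, c5_22] [r5_14_14, r5_14_15, r5_14_16, r5_14_17, r5_14_18, r5_14_19, r5_14_20, r5_14_21, r5_14_22] :=
  rowS_cons E _ _ _ _ _ _ _ _ (h5_14_14 E) (rowS_cons E _ _ _ _ _ _ _ _ (h5_14_15 E) (rowS_cons E _ _ _ _ _ _ _ _ (h5_14_16 E) (rowS_cons E _ _ _ _ _ _ _ _ (h5_14_17 E) (rowS_cons E _ _ _ _ _ _ _ _ (h5_14_18 E) (rowS_cons E _ _ _ _ _ _ _ _ (h5_14_19 E) (rowS_cons E _ _ _ _ _ _ _ _ (h5_14_20 E) (rowS_cons E _ _ _ _ _ _ _ _ (h5_14_21 E) (rowS_cons E _ _ _ _ _ _ _ _ (h5_14_22 E) (rowS_nil E _ _ _ _)))))))))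

theorem row5_15 (E : Env κ ι) : RowS E 1 3 (ek E keys) c5_15 [c5_15, c5_16, c5_17, c5_18, c5_19, c5_20, c5_21, c5_22] [r5_15_15, r5_15_16, r5_15_17, r5_15_18, r5_15_19, r5_15_20, r5_15_21, r5_15_22] :=
  rowS_cons E _ _ _ _ _ _ _ _ (h5_15_15 E) (rowS_cons E _ _ _ _ _ _ _ _ (h5_15_16 E) (rowS_cons E _ _ _ _ _ _ _ _ (h5_15_17 E) (rowS_cons E _ _ _ _ _ _ _ _ (h5_15_18 E) (rowS_cons E _ _ _ _ _ _ _ _ (h5_15_19 E) (rowS_cons E _ _ _ _ _ _ _ _ (h5_15_20 E) (rowS_cons E _ _ _ _ _ _ _ _ (h5_15_21 E) (rowS_cons E _ _ _ _ _ _ _ _ (h5_15_22 E) (rowS_nil E _ _ _ _))))))))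

theorem row5_16 (E : Env κ ι) : RowS E 1 3 (ek E keys) c5_16 [c5_16, c5_17, c5_18, c5_19, c5_20, c5_21, c5_22] [r5_16_16, r5_16_17, r5_16_18, r5_16_19, r5_16_20, r5_16_21, r5_16_22] :=
  rowS_cons E _ _ _ _ _ _ _ _ (h5_16_16 E) (rowS_cons E _ _ _ _ _ _ _ _ (h5_16_17 E) (rowS_cons E _ _ _ _ _ _ _ _ (h5_16_18 E) (rowS_cons E _ _ _ _ _ _ _ _ (h5_16_19 E) (rowS_cons E _ _ _ _ _ _ _ _ (h5_16_20 E) (rowS_cons E _ _ _ _ _ _ _ _ (h5_16_21 E) (rowS_cons E _ _ _ _ _ _ _ _ (h5_16_22 E) (rowS_nil E _ _ _ _)))))))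

theorem row5_17 (E : Env κ ι) : RowS E 1 3 (ek E keys) c5_17 [c5_17, c5_18, c5_19, c5_20, c5_21, c5_22] [r5_17_17, r5_17_18, r5_17_19, r5_17_20, r5_17_21, r5_17_22] :=
  rowS_cons E _ _ _ _ _ _ _ _ (h5_17_17 E) (rowS_cons E _ _ _ _ _ _ _ _ (h5_17_18 E) (rowS_cons E _ _ _ _ _ _ _ _ (h5_17_19 E) (rowS_cons E _ _ _ _ _ _ _ _ (h5_17_20 E) (rowS_cons E _ _ _ _ _ _ _ _ (h5_17_21 E) (rowS_cons E _ _ _ _ _ _ _ _ (h5_17_22 E) (rowS_nil E _ _ _ _))))))

theorem row5_18 (E : Env κ ι) : RowS E 1 3 (ek E keys) c5_18 [c5_18, c5_19, c5_20, c5_21, c5_22] [r5_18_18, r5_18_19, r5_18_20, r5_18_21, r5_18_22] :=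
  rowS_cons E _ _ _ _ _ _ _ _ (h5_18_18 E) (rowS_cons E _ _ _ _ _ _ _ _ (h5_18_19 E) (rowS_cons E _ _ _ _ _ _ _ _ (h5_18_20 E) (rowS_cons E _ _ _ _ _ _ _ _ (h5_18_21 E) (rowS_cons E _ _ _ _ _ _ _ _ (h5_18_22 E) (rowS_nil E _ _ _ _)))))

theorem row5_19 (E : Env κ ι) : RowS E 1 3 (ek E keys) c5_19 [c5_19, c5_20, c5_21, c5_22] [r5_19_19, r5_19_20, r5_19_21, r5_19_22] :=
  rowS_cons E _ _ _ _ _ _ _ _ (h5_19_19 E) (rowS_cons E _ _ _ _ _ _ _ _ (h5_19_20 E) (rowS_cons E _ _ _ _ _ _ _ _ (h5_19_21 E) (rowS_cons E _ _ _ _ _ _ _ _ (h5_19_22 E) (rowS_nil E _ _ _ _))))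

theorem row5_20 (E : Env κ ι) : RowS E 1 3 (ek E keys) c5_20 [c5_20, c5_21, c5_22] [r5_20_20, r5_20_21, r5_20_22] :=
  rowS_cons E _ _ _ _ _ _ _ _ (h5_20_20 E) (rowS_cons E _ _ _ _ _ _ _ _ (h5_20_21 E) (rowS_cons E _ _ _ _ _ _ _ _ (h5_20_22 E) (rowS_nil E _ _ _ _)))

theorem row5_21 (E : Env κ ι) : RowS E 1 3 (ek E keys) c5_21 [c5_21, c5_22] [r5_21_21, r5_21_22] :=
  rowS_cons E _ _ _ _ _ _ _ _ (h5_21_21 E) (rowS_cons E _ _ _ _ _ _ _ _ (h5_21_22 E) (rowS_nil E _ _ _ _))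

theorem row5_22 (E : Env κ ι) : RowS E 1 3 (ek E keys) c5_22 [c5_22] [r5_22_22] :=
  rowS_cons E _ _ _ _ _ _ _ _ (h5_22_22 E) (rowS_nil E _ _ _ _)

def tab5 : List (List (List (ℕ × ℤ))) := [[r5_0_0, r5_0_1, r5_0_2, r5_0_3, r5_0_4, r5_0_5, r5_0_6, r5_0_7, r5_0_8, r5_0_9, r5_0_10, r5_0_11, r5_0_12, r5_0_13, r5_0_14, r5_0_15, r5_0_16, r5_0_17, r5_0_18, r5_0_19, r5_0_20, r5_0_21, r5_0_22], [r5_1_1, r5_1_2, r5_1_3, r5_1_4, r5_1_5, r5_1_6, r5_1_7, r5_1_8, r5_1_9, r5_1_10, r5_1_11, r5_1_12, r5_1_13, r5_1_14, r5_1_15, r5_1_16, r5_1_17, r5_1_18, r5_1_19, r5_1_20, r5_1_21, r5_1_22], [r5_2_2, r5_2_3, r5_2_4, r5_2_5, r5_2_6, r5_2_7, r5_2_8, r5_2_9, r5_2_10, r5_2_11, r5_2_12, r5_2_13, r5_2_14, r5_2_15, r5_2_16, r5_2_17, r5_2_18, r5_2_19, r5_2_20, r5_2_21, r5_2_22], [r5_3_3, r5_3_4, r5_3_5, r5_3_6, r5_3_7, r5_3_8, r5_3_9, r5_3_10, r5_3_11, r5_3_12, r5_3_13, r5_3_14, r5_3_15, r5_3_16, r5_3_17, r5_3_18, r5_3_19, r5_3_20, r5_3_21, r5_3_22],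 [r5_4_4, r5_4_5, r5_4_6, r5_4_7, r5_4_8, r5_4_9, r5_4_10, r5_4_11, r5_4_12, r5_4_13, r5_4_14, r5_4_15, r5_4_16, r5_4_17, r5_4_18, r5_4_19, r5_4_20, r5_4_21, r5_4_22], [r5_5_5, r5_5_6, r5_5_7, r5_5_8, r5_5_9, r5_5_10, r5_5_11, r5_5_12, r5_5_13, r5_5_14, r5_5_15, r5_5_16, r5_5_17, r5_5_18, r5_5_19, r5_5_20, r5_5_21, r5_5_22], [r5_6_6, r5_6_7, r5_6_8, r5_6_9, r5_6_10, r5_6_11, r5_6_12, r5_6_13, r5_6_14, r5_6_15, r5_6_16, r5_6_17, r5_6_18, r5_6_19, r5_6_20, r5_6_21, r5_6_22], [r5_7_7, r5_7_8, r5_7_9, r5_7_10, r5_7_11, r5_7_12, r5_7_13, r5_7_14, r5_7_15, r5_7_16, r5_7_17, r5_7_18, r5_7_19, r5_7_20, r5_7_21, r5_7_22], [r5_8_8, r5_8_9, r5_8_10, r5_8_11, r5_8_12, r5_8_13, r5_8_14, r5_8_15, r5_8_16, r5_8_17, r5_8_18, r5_8_19, r5_8_20, r5_8_21, r5_8_22], [r5_9_9, r5_9_10, r5_9_11, r5_9_12, r5_9_13, r5_9_14, r5_9_15, r5_9_16, r5_9_17, r5_9_18, r5_9_19, r5_9_20, r5_9_21, r5_9_22], [r5_10_10, r5_10_11, r5_10_12, r5_10_13, r5_10_14, r5_10_15,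 r5_10_16, r5_10_17, r5_10_18, r5_10_19, r5_10_20, r5_10_21, r5_10_22], [r5_11_11, r5_11_12, r5_11_13, r5_11_14, r5_11_15, r5_11_16, r5_11_17, r5_11_18, r5_11_19, r5_11_20, r5_11_21, r5_11_22], [r5_12_12, r5_12_13, r5_12_14, r5_12_15, r5_12_16, r5_12_17, r5_12_18, r5_12_19, r5_12_20, r5_12_21, r5_12_22], [r5_13_13, r5_13_14, r5_13_15, r5_13_16, r5_13_17, r5_13_18, r5_13_19, r5_13_20, r5_13_21, r5_13_22], [r5_14_14, r5_14_15, r5_14_16, r5_14_17, r5_14_18, r5_14_19, r5_14_20, r5_14_21, r5_14_22], [r5_15_15, r5_15_16, r5_15_17, r5_15_18, r5_15_19, r5_15_20, r5_15_21, r5_15_22], [r5_16_16, r5_16_17, r5_16_18, r5_16_19, r5_16_20, r5_16_21, r5_16_22], [r5_17_17, r5_17_18, r5_17_19, r5_17_20, r5_17_21, r5_17_22], [r5_18_18, r5_18_19, r5_18_20, r5_18_21, r5_18_22], [r5_19_19, r5_19_20, r5_19_21, r5_19_22], [r5_20_20, r5_20_21, r5_20_22], [r5_21_21, r5_21_22], [r5_22_22]]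

theorem tri5 (E : Env κ ι) : TriS E 1 3 (ek E keys) [c5_0, c5_1, c5_2, c5_3, c5_4, c5_5, c5_6, c5_7, c5_8, c5_9, c5_10, c5_11, c5_12, c5_13, c5_14, c5_15, c5_16, c5_17, c5_18, c5_19, c5_20, c5_21, c5_22] tab5 := by
  refine triS_cons E _ _ _ _ _ _ _ (row5_0 E) ?_
  refine triS_cons E _ _ _ _ _ _ _ (row5_1 E) ?_
  refine triS_cons E _ _ _ _ _ _ _ (row5_2 E) ?_
  refine triS_cons E _ _ _ _ _ _ _ (row5_3 E) ?_
  refine triS_cons E _ _ _ _ _ _ _ (row5_4 E) ?_
  refine triS_cons E _ _ _ _ _ _ _ (row5_5 E) ?_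
  refine triS_cons E _ _ _ _ _ _ _ (row5_6 E) ?_
  refine triS_cons E _ _ _ _ _ _ _ (row5_7 E) ?_
  refine triS_cons E _ _ _ _ _ _ _ (row5_8 E) ?_
  refine triS_cons E _ _ _ _ _ _ _ (row5_9 E) ?_
  refine triS_cons E _ _ _ _ _ _ _ (row5_10 E) ?_
  refine triS_cons E _ _ _ _ _ _ _ (row5_11 E) ?_
  refine triS_cons E _ _ _ _ _ _ _ (row5_12 E) ?_
  refine triS_cons E _ _ _ _ _ _ _ (row5_13 E) ?_
  refine triS_cons E _ _ _ _ _ _ _ (row5_14 E) ?_
  refine triS_cons E _ _ _ _ _ _ _ (row5_15 E) ?_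
  refine triS_cons E _ _ _ _ _ _ _ (row5_16 E) ?_
  refine triS_cons E _ _ _ _ _ _ _ (row5_17 E) ?_
  refine triS_cons E _ _ _ _ _ _ _ (row5_18 E) ?_
  refine triS_cons E _ _ _ _ _ _ _ (row5_19 E) ?_
  refine triS_cons E _ _ _ _ _ _ _ (row5_20 E) ?_
  refine triS_cons E _ _ _ _ _ _ _ (row5_21 E) ?_
  refine triS_cons E _ _ _ _ _ _ _ (row5_22 E) ?_
  exact triS_nil E _ _ _

def rows5 : List (ℕ × List ℤ) := [(3192005698560000, [4194304, -7828710, 29541060, 27349534, 5067151, 0, -24275249, -3024347, 1527637, -21502, 6043863, -1107121, -2542222, 3194159, -4054570, -10843545, -2981107, 0, -10116213, 0, 2943641, 1562411, -383794]),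
  (13788966804480000, [0, 4194304, -6300093, -4936074, -1278961, 1283287, 5225406, -341757, 952074, 2970736, -1761239, 2916061, 769915, -1324224, 4484215, 387644, 333255, -5869049, -449521, -2168878, 950447, 6985, 164529]),
  (39407101655040000, [0, 0, 4194304, -2008993, 2870708, 2387906, 786691, 874361, 563515, 1060789, -135908, -742363, -672182, 1235408, -779359, -37693, -1105131, -138843, -356931, -6614379, -1149290, 644881, 517245]),
  (23426923161600000, [0, 0, 0, 4194304, -1163013, -1649964, -3117713, -415333, -675189, -2315605, 1362055, -834703, 265309, 1701738, -1549743, -211140, -1464067, 2750325, 397831, 4646838, 497663, -947449, -414574]),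
  (2118798259200000, [0, 0, 0, 0, 4194304, 8398924, 2309320, 1125258, 2292575, 103642, 3278643, 457702, 1282377, -1294604, 1000171, 58487, -215654, -2900317, -574919, -15871941, 515755, -4244335, 743892]),
  (131499002880000, [0, 0, 0, 0, 0, 4194304, 1313011, -593522, 1936611, 3228745, 180838, 2885918, 569516, -3799520, 4078616, -1735866, 2429370, -6901772, -2658209, -6914962, 1610138, -709455, 332139]),
  (25131617280000, [0, 0, 0, 0, 0, 0, 4194304, -623255, 982728, 3198219, -1386192, 2352078, -13876, -3199222, 3368156, -1142369, 2533533, -5291163, -1862991, -1966859, 871757, 1049644, 167870]),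
  (29265546240000, [0, 0, 0, 0, 0, 0, 0, 4194304, -1808115, -6142884, 2374743, -4928311, 138702, 5747963, -6673848, 3459062, -4465806, 10564719, 4696990, 541092, -2469868, -2363414, -65089]),
  (23360762880000, [0, 0, 0, 0, 0, 0, 0, 0, 4194304, 4124782, -1292852, 3307281, 11673, -3927486, 4521874, -2288912, 2939071, -7303330, -3179850, -1964016, 1660881, 1200824, 123773]),
  (71165122560000, [0, 0, 0, 0, 0, 0, 0, 0, 0, 4194304, -1415169, 2448676, -180029, -2854308, 3345005, -1712408, 2266060, -5351247, -2368063, -398563, 1101752, 1449446, 65473]),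
  (20660935680000, [0, 0, 0, 0, 0, 0, 0, 0, 0, 0, 4194304, -488051, 335731, 530385, -683883, 318181, -643523, 998707, 455769, -1488483, 21411, -1200552, 17343]),
  (23839764480000, [0, 0, 0, 0, 0, 0, 0, 0, 0, 0, 0, 4194304, 173822, -1816305, 1988408, -955104, 1324507, -3053872, -1285676, -383148, 906575, 173479, -7132]),
  (16317987840000, [0, 0, 0, 0, 0, 0, 0, 0, 0, 0, 0, 0, 4194304, -319062, 224626, 1685, 151970, -268009, -10762, -490635, 234047, -506739, -10138]),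
  (39626496000000, [0, 0, 0, 0, 0, 0, 0, 0, 0, 0, 0, 0, 0, 4194304, -961736, 368460, -2312222, 1435544, 528095, 291798, -422211, -698, -1198]),
  (23221416960000, [0, 0, 0, 0, 0, 0, 0, 0, 0, 0, 0, 0, 0, 0, 4194304, -677059, 297838, -2185239, -922321, -385185, 609446, 169223, 6903]),
  (17752089600000, [0, 0, 0, 0, 0, 0, 0, 0, 0, 0, 0, 0, 0, 0, 0, 4194304, -56500, 1039597, 654239, 7464, -319142, -234544, 6713]),
  (23659776000000, [0, 0, 0, 0, 0, 0, 0, 0, 0, 0, 0, 0, 0, 0, 0, 0, 4194304, -232373, -62872, 348161, 36472, 163755, -12292]),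
  (27605007360000, [0, 0, 0, 0, 0, 0, 0, 0, 0, 0, 0, 0, 0, 0, 0, 0, 0, 4194304, 807302, 933289, -446305, -126400, -46393]),
  (17426949120000, [0, 0, 0, 0, 0, 0, 0, 0, 0, 0, 0, 0, 0, 0, 0, 0, 0, 0, 4194304, 104870, -188229, -212507, -5562]),
  (49938094080000, [0, 0, 0, 0, 0, 0, 0, 0, 0, 0, 0, 0, 0, 0, 0, 0, 0, 0, 0, 4194304, 66208, 599737, -154093]),
  (16672158720000, [0, 0, 0, 0, 0, 0, 0, 0, 0, 0, 0, 0, 0, 0, 0, 0, 0, 0, 0, 0, 4194304, -325339, -41442]),
  (19508428800000, [0, 0, 0, 0, 0, 0, 0, 0, 0, 0, 0, 0, 0, 0, 0, 0, 0, 0, 0, 0, 0, 4194304, 35307]),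
  (272309611037001756180480000, [0, 0, 0, 0, 0, 0, 0, 0, 0, 0, 0, 0, 0, 0, 0, 0, 0, 0, 0, 0, 0, 0, 1]),
  (145867088233494215884800, [1, 0, 0, -1, 0, 0, 0, 0, 0, 0, 0, 0, 0, 0, 0, 0, 0, 0, 0, 0, 0, 0, 0]),
  (321287028884001976320000, [1, 0, 0, 0, -1, 0, 0, 0, 0, 0, 0, 0, 0, 0, 0, 0, 0, 0, 0, 0, 0, 0, 0]),
  (165602865079779537715200, [1, 0, 0, 0, 0, 0, -1, 0, 0, 0, 0, 0, 0, 0, 0, 0, 0, 0, 0, 0, 0, 0, 0]),
  (2136249721620403200000, [1, 0, 0, 0, 0, 0, 0, 0, 1, 0, 0, 0, 0, 0, 0, 0, 0, 0, 0, 0, 0, 0, 0]),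
  (29321600554269112320000, [1, 0, 0, 0, 0, 0, 0, 0, 0, 0, 0, -1, 0, 0, 0, 0, 0, 0, 0, 0, 0, 0, 0]),
  (83565767341425841920000, [1, 0, 0, 0, 0, 0, 0, 0, 0, 0, 0, 0, 0, -1, 0, 0, 0, 0, 0, 0, 0, 0, 0]),
  (4707700153502572800000, [1, 0, 0, 0, 0, 0, 0, 0, 0, 0, 0, 0, 0, 0, 1, 0, 0, 0, 0, 0, 0, 0, 0]),
  (27728566674091103600640, [1, 0, 0, 0, 0, 0, 0, 0, 0, 0, 0, 0, 0, 0, 0, 1, 0, 0, 0, 0, 0, 0, 0]),
  (38417267549615947776000, [1, 0, 0, 0, 0, 0, 0, 0, 0, 0, 0, 0, 0, 0, 0, 0, 1, 0, 0, 0, 0, 0, 0]),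
  (200808870321263984640000, [1, 0, 0, 0, 0, 0, 0, 0, 0, 0, 0, 0, 0, 0, 0, 0, 0, 0, -1, 0, 0, 0, 0]),
  (114932897506115297280000, [1, 0, 0, 0, 0, 0, 0, 0, 0, 0, 0, 0, 0, 0, 0, 0, 0, 0, 0, 0, 1, 0, 0]),
  (143110503314488120320000, [1, 0, 0, 0, 0, 0, 0, 0, 0, 0, 0, 0, 0, 0, 0, 0, 0, 0, 0, 0, 0, -1, 0]),
  (59156388989188807680000, [1, 0, 0, 0, 0, 0, 0, 0, 0, 0, 0, 0, 0, 0, 0, 0, 0, 0, 0, 0, 0, 0, -1]),
  (1026131543837683807440000, [0, 0, 0, 1, 1, 0, 0, 0, 0, 0, 0, 0, 0, 0, 0, 0, 0, 0, 0, 0, 0, 0, 0]),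
  (1711857053543183976660000, [0, 0, 0, 1, 0, 0, 0, 0, 1, 0, 0, 0, 0, 0, 0, 0, 0, 0, 0, 0, 0, 0, 0]),
  (172246841093190438576000, [0, 0, 0, 1, 0, 0, 0, 0, 0, 0, 0, 0, 0, 0, 0, 0, 0, 1, 0, 0, 0, 0, 0]),
  (41682115644480058675200, [0, 0, 0, 0, 0, 1, 0, 0, 0, 0, 0, 0, 0, 0, 0, 0, 0, 1, 0, 0, 0, 0, 0]),
  (325894345477165583462400, [0, 0, 0, 0, 0, 0, 1, 0, 0, 0, 0, 0, 0, 0, 0, 0, 0, -1, 0, 0, 0, 0, 0]),
  (22593424404574769760000, [0, 0, 0, 0, 0, 0, 0, 0, 1, 0, 0, -1, 0, 0, 0, 0, 0, 0, 0, 0, 0, 0, 0]),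
  (143428962856576481280000, [0, 0, 0, 0, 0, 0, 0, 0, 1, 0, 0, 0, 0, 0, 0, 0, 0, 1, 0, 0, 0, 0, 0]),
  (49519628542246625280000, [0, 0, 0, 0, 0, 0, 0, 0, 0, 0, 0, 0, 0, 0, 1, 0, 0, 1, 0, 0, 0, 0, 0]),
  (942063598695141288816000, [0, 0, 0, 0, 1, 0, 0, 0, 0, 0, 0, 0, 0, 0, 0, 0, 0, -1, 0, 0, 0, 0, 0]),
  (180848587206646641676800, [0, 0, 0, 0, 0, 0, 0, 0, 0, 0, 0, 0, 0, 0, 0, 0, 0, 1, 0, 1, 0, 0, 0]),
  (269907131742265394723727360, [1, 0, 0, 0, 0, 0, 0, 0, 0, 0, 0, 0, 0, 0, 0, 0, 0, 0, 0, 0, 0, 0, 0]),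
  (271324103811667989626880000, [0, 1, 0, 0, 0, 0, 0, 0, 0, 0, 0, 0, 0, 0, 0, 0, 0, 0, 0, 0, 0, 0, 0]),
  (271324103811667989626880000, [0, 0, 1, 0, 0, 0, 0, 0, 0, 0, 0, 0, 0, 0, 0, 0, 0, 0, 0, 0, 0, 0, 0]),
  (268268001284960437188319200, [0, 0, 0, 1, 0, 0, 0, 0, 0, 0, 0, 0, 0, 0, 0, 0, 0, 0, 0, 0, 0, 0, 0]),
  (269034621640251162554304000, [0, 0, 0, 0, 1, 0, 0, 0, 0, 0, 0, 0, 0, 0, 0, 0, 0, 0, 0, 0, 0, 0, 0]),
  (271282421696023509568204800, [0, 0, 0, 0, 0, 1, 0, 0, 0, 0, 0, 0, 0, 0, 0, 0, 0, 0, 0, 0, 0, 0, 0]),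
  (270832606601111044505702400, [0, 0, 0, 0, 0, 0, 1, 0, 0, 0, 0, 0, 0, 0, 0, 0, 0, 0, 0, 0, 0, 0, 0]),
  (271324103811667989626880000, [0, 0, 0, 0, 0, 0, 0, 1, 0, 0, 0, 0, 0, 0, 0, 0, 0, 0, 0, 0, 0, 0, 0]),
  (269444088121142033995980000, [0, 0, 0, 0, 0, 0, 0, 0, 1, 0, 0, 0, 0, 0, 0, 0, 0, 0, 0, 0, 0, 0, 0]),
  (271324103811667989626880000, [0, 0, 0, 0, 0, 0, 0, 0, 0, 1, 0, 0, 0, 0, 0, 0, 0, 0, 0, 0, 0, 0, 0]),
  (271324103811667989626880000, [0, 0, 0, 0, 0, 0, 0, 0, 0, 0, 1, 0, 0, 0, 0, 0, 0, 0, 0, 0, 0, 0, 0]),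
  (271272188786709145744800000, [0, 0, 0, 0, 0, 0, 0, 0, 0, 0, 0, 1, 0, 0, 0, 0, 0, 0, 0, 0, 0, 0, 0]),
  (271324103811667989626880000, [0, 0, 0, 0, 0, 0, 0, 0, 0, 0, 0, 0, 1, 0, 0, 0, 0, 0, 0, 0, 0, 0, 0]),
  (271240538044326563784960000, [0, 0, 0, 0, 0, 0, 0, 0, 0, 0, 0, 0, 0, 1, 0, 0, 0, 0, 0, 0, 0, 0, 0]),
  (271269876482972240428800000, [0, 0, 0, 0, 0, 0, 0, 0, 0, 0, 0, 0, 0, 0, 1, 0, 0, 0, 0, 0, 0, 0, 0]),
  (271296375244993898523279360, [0, 0, 0, 0, 0, 0, 0, 0, 0, 0, 0, 0, 0, 0, 0, 1, 0, 0, 0, 0, 0, 0, 0]),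
  (271285686544118373679104000, [0, 0, 0, 0, 0, 0, 0, 0, 0, 0, 0, 0, 0, 0, 0, 0, 1, 0, 0, 0, 0, 0, 0]),
  (269245450004417317360953600, [0, 0, 0, 0, 0, 0, 0, 0, 0, 0, 0, 0, 0, 0, 0, 0, 0, 1, 0, 0, 0, 0, 0]),
  (271123294941346725642240000, [0, 0, 0, 0, 0, 0, 0, 0, 0, 0, 0, 0, 0, 0, 0, 0, 0, 0, 1, 0, 0, 0, 0]),
  (271143255224461342985203200, [0, 0, 0, 0, 0, 0, 0, 0, 0, 0, 0, 0, 0, 0, 0, 0, 0, 0, 0, 1, 0, 0, 0]),
  (271209170914161874329600000, [0, 0, 0, 0, 0, 0, 0, 0, 0, 0, 0, 0, 0, 0, 0, 0, 0, 0, 0, 0, 1, 0, 0]),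
  (271180993308353501506560000, [0, 0, 0, 0, 0, 0, 0, 0, 0, 0, 0, 0, 0, 0, 0, 0, 0, 0, 0, 0, 0, 1, 0]),
  (271264947422678800819200000, [0, 0, 0, 0, 0, 0, 0, 0, 0, 0, 0, 0, 0, 0, 0, 0, 0, 0, 0, 0, 0, 0, 1])]

def M5 : List (List ℤ) := [[56425601878440165518886144000, -209625332275205123132620800000, 791005736355257897503948800000, 732324082565295588061480550400, 135679847834149703582883840000, 0, -650006160734265625826190950400, -80981380686028705691074560000, 40904752784182406166620160000, -575747970557277068328960000, 161833404175249569994506240000, -29644866982487832804126720000, -68071768077670078281154560000, 85528181947028314232148480000, -108567121501836177179328000000, -290351959583165645766874398720, -79823488660027851625463808000, 0, -270877022605329867866603520000, 0, 78820587590620313444106240000, 41835587764035033269360640000, -10276772419933572981012480000],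
  [438483273988843187847106560000, -2205153301246107160322949120000, -1937847555838092351242280960000, -401186702838005829295165440000, 148438111747011569076142080000, 1817666276967686779543203840000, 111621436661032148323307520000, 33777506814436528882421760000, 344700377215806404764016640000, -505786586353983161500815360000, 392633796374756308826173440000, 216112880718222016693248000000, -312812815766471987457576960000, 721331839154911209252249600000, 586783788185895812020776960000, 187539161312229318550425600000, -678874290248936132349788160000, 453597697934150811992616960000, -250874632821523913134571520000, -37180549168343291487006720000, -77279116963417866872524800000, 38212585241989354507100160000],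
  [4026409740525430555285847040000, 5351358023177658052634357760000, 2126799610809939905725347840000, 566408990756658016437442560000, -5225904019423026013505679360000, -221946777493528777218385920000, 308962620856734785195028480000, -169535488262628472104960000000, 1400891629386488397150504960000, -960842720190901087435069440000, -835410281681388461372835840000, 1240853023299056800830382080000, -1801389925954807914029230080000, -2124800025742683344617390080000, -985433216548220712264222720000, 973811956134467959348008960000, -1947710868618796748552816640000, -1809691527010933199087677440000, 10086956485412086862346240000, 506620998116258398514104320000, 70020315914336427179796480000],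
  [3295027763451299872132577280000, 375731761439067522202200480000, -877033689339768179973304320000, -5687022605427470824912281600000, -701592727777860888672030720000, -84787300384046880837627480000, -1031174152009555766573813760000, 1584197929909545138462597120000, -636748419950017993168588800000, -390107559916444801106350080000, 876774887461390151897026560000, -1499501201625604370461040640000, -1981573685529365241223741440000, -678599464238848019851038720000, 1361410625222691971009224032000, -1570399398361238627071733760000, 2255737622054540822356193280000, 664353422811371881289318400000, -16454927207718231823503360000, -252778022686106551171399680000],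
  [498498559812104139405895680000, 734196667470214421162833920000, -580654335885905345789491200000, 154678967521494157625425920000, 220873008849237796891392000000, 262552742374728816814325760000, 210935957567655902292910080000, -253008777746791099579392000000, -253140803512416226927134720000, 313807644134253848347453440000, -363430611654098879886428160000, -360430994595443459629455360000, -282281660914491910789447680000, -25826905977386344814898912000, -424045233208840926943088640000, -1955339477023362289538273280000, -216281575374945226765516800000, 172391870354181188793384960000, 134622210166544779337594880000],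
  [463236863131340046507064320000, 657646687827707872071536640000, 223963461050751313102632960000, 275677137933058843066552320000, 491040202189942580160061440000, -76315084213280601420748800000, 47489327151433029863884800000, -73498314709072621987153920000, 3815753103203585304821760000, 171924768804177778701957120000, 23114457332796493336780800000, -88005341572603621137377280000, -557297333852224385004477849600, -137232992737619730913167360000, -2253353543205099129999912960000, -201001134056950234214000640000, 43015195490843452171438080000, 162060692676314050449008640000],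
  [2521856485133997694622392320000, 545002762469123766569932800000, 57336043925961852263976960000, 838264019191284131560396800000, -1365979752251599851640350720000, 673669931601792362991667200000, 437236871428416427403857920000, -872480067745469845735987200000, 1464518162903220900488724480000, 1764561241104328753447495680000, 654624627956771903072409600000, -1288013840878545300398295244800, 1415784657884897070635397120000, -1559575890210888041402695680000, -457390080856848119645952000000, -104299744754657585550090240000, 183247378722123927163545600000],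
  [68500038778559004050058240000, 23658997144741742098667520000, 88960784032600783759411200000, -119731269861876323991674880000, -40574070057191760752947200000, -3596437426487427146741760000, -1240343992928575315630080000, 14859269525375068892313600000, 208653944117047611621949440000, 4167272016379596766279680000, -17766780498334796448522240000, 166101481368675893057955840000, -600205928638309521937274880000, -153102278206168831962777600000, 11904367470595784566824960000, 53045505132245120988702720000],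
  [55573217152599661346119680000, 202425835246044905110210560000, -5054980738678523009280000000, 66405335517879951316933440000, -30089248964130395843758080000, -18633182168901052827648000000, 106162174438182376538572800000, -91754649332077486138675200000, -22773218819328452427724800000, -281774822365177256391413760000, -147049926557818090247239680000, -655971832449878258742220800000, -6663624280865165834035200000, 32976766317975639519467520000, 44100024919291877100687360000],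
  [296328143378952163188541440000, -304838151588393732795064320000, 274451920327641560467783680000, -20667534548740434761011200000, -199108087793564784379453440000, 480626632163616808162406400000, 48664151274476774824704000000, 100061260691258999559813120000, -807222296184620767746140160000, -114967629321100335180656640000, -1248814450559852437583185920000, -69017894643750386474649600000, 156715381358944054010542080000, 102477686063143776130529280000],
  [227370729084220493785681920000, -224801194426031523447060480000, -93395828506940032858767360000, 266689242609016020214579200000, -452936667285865256804352000000, -448458640096394293046231040000, -217228883246767593870520320000, 424978871213903584408750080000, -345862582228111520726784000000, 252051190331977839270021120000, 118003130394184426413496320000, -67403424971826210299074560000, -44484569997147947865784320000],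
  [162972116082712905925340160000, 111681293669150610901063680000, -277310746425536155656898560000, 505116093371742330986188800000, 114792735818059428326400000000, 174323289718973653781483520000, -589582877430388383972218880000, 34384143345544790348544000000, -6063748763237587764357120000, 107268476443283791179694080000, -18373686491108682222612480000, 3667791358883487578480640000],
  [52348831092544766134763520000, -131787292800000334275717120000, 188983790066648401928570880000, 183715152675272494851133440000, 94925944496180606381475840000, -99691599410536213677864960000, 175062141894699997514680320000, 274762741113784557862502400000, 42515050089584173085429760000, -94462429757340559998504960000, -18744861879279596695541760000],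
  [193401850507869402339978240000, -460937018627415930033100800000, -251689064438352945571614720000, -302811384271271411365724160000, 451600180010786699579473920000, -183369727199713637828689920000, -99207813893371848178698240000, -53290602922542168274882560000, 41036537332577472841451520000, -1037301374637660636241920000],
  [417937387992788736166671360000, 341546410536245991049236480000, 298510703227925840652779520000, -946638627061390824589056000000, 189707159213320137325332480000, -275275331405595035091763200000, 81940413857111391627601920000, -27019718316539408031989760000, 32232577752096811740241920000],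
  [380237312927654104682833920000, 224464536449467634058762240000, -82160616907869258557675520000, 695869786695420341139179520000, -49734095458683942306846720000, -196846304427171997981931520000, -102439137341116321778995200000, 30873834296221611500789760000],
  [131381734604459037038484480000, -238996236763456780648642560000, 188138134299021701202616320000, 246739197154624454328975360000, 20727273939383956715366400000, -15962488364070266203422720000, -8191394995676020206704640000],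
  [685493418312163093954970880000, 146680599019212262314455040000, 1231972246960505659392462873600, -89913880230734663171389440000, -80208218994846835510517760000, -95645473065402228485314560000],
  [341853038257575738051809280000, 343916710292333316035358720000, -164196375345455751689287680000, -127453516620042575921817600000, -1652675444700183178168320000],
  [2836281316606774572759552000000, 612601611930951964747130880000, -256168744373445041608243200000, -420485620157782042021079040000],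
  [99830686761586906394250240000, -59856608866788277370910720000, -57621623658929036337254400000],
  [84492275688711348425533440000, 27489933049607891344742400000],
  [17146372249025997195939840000]]

def u5 : List ℤ := [2031321667623845958679901184000, -2450583650796122818121564160000, -13320625386155444615391189073920, 898584889830277128875827200000, 8144976193866959344027361280000, 0, 0, -8146491482987233588197457920000, 745879970206650478917795840000, 8655982069858934511026995200000, 0, 0, 0, 0, 0, 0, 0, 27671613907257685613300613120000, 18803917329061971482501529600000, 0, 0, 0, -14598631933389646115469189120000, -12679461806503338436673986560000, 11685743473613615512176107520000, 0, -1986025453778200804037591040000, -6496494668515413064454676480000, 4672329551234205967687311360000, 8156119813164816005044224000000, 0, 0, 16336927502672303652110688384000, -15456166090542543604779542937600, -23504867783311523587207004160000,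 11897101574870213266738790400000, 1505448045055584469544140800000, -68244271265129649898947379200000, 3153161630507016888923627520000, -98296739948112242480455680000, -2873645591761002658516697088000, 1139111333954167276577710080000, 2693574437393611608705146880000, 7567074802747445528085258240000, 28476206508789284310142156800000, -14706214099173999149750231040000, -5769529232309499992186880000000, -17264874657265517341402398720000, 6072208943785019326826680320000, -23400221786433562529742874214400, 26363666972350641170213299814400, 5246842457140997128846295040000, 4588674239082746920237240320000, -7330125598865914892943974400000, -9686526614275880352716328960000, 4937434921102023391509319680000, -11067859164288598610045829120000, 28642404008409587649750712320000, -37713310507795730132274647040000, 0, 0, -7324258727085144901960458240000, -15938241039221049415544832000000, 4398924713536682217418199040000, 30985014185254055848338063360000,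 1576580815253508444461813760000, 2250469935746751822605107200000, 458551022903872254085201920000, -7546511961907384432774348800000, 2593354568618664200318976000000, 7041405458230749744249323520000, 0, -927349403561014402470297600000, 5163670966835733565120266240000, 458551022903872254085201920000, 2687561532609015757231595520000, 5892482426279310961920737280000, -41735985536834337688289280000, 0, -13066227476056610278489866240000, -25351195415440083866661519360000, 40217033428560943739838627840000, 9962502492651963747758899200000, -4915072086457593704252313600000, 21003592935338652378246635520000, 1396463978300396019598725120000, -39999186551424041465957314560000, 0, -1879079583704845465225175040000, -14985773406718229250998231040000, -3753753789197663849490923520000, 7382728701193353910982737920000, -446166590020119497844080640000, 405330081773238346589061120000, -446166590020119497844080640000, 4711605556497075705914081280000,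 -3348913368090043331527864320000, 4314852858701283699202375680000, 3707551450280817422340341760000, -37403246392981478625903759360000, 690915403642141400714772480000, -19171093681691028967243898880000, 0, -14985773406718229250998231040000, 4144851933067946379637370880000, 10211779261975154912439814080000, -1240206751217007076677672960000, -5512907138932864161446215680000, -319435657510649387640791040000, 9857570078986729690655232000000, 0, 0, -6550792658941091094481489920000, 11802416344883832570552115200000, 11784964852558621923841474560000, -4481215188354659421627125760000, -14985773406718229250998231040000, -31243776583404793048342732800000, 0, -764721099720255455530905600000, -9916052668201099069009920000, -34517985646771685470899916800000, -5560603363095686975252090880000, -1764599118693817082966876160000, -7871661989398539104906649600000, 2276485910559841647903989760000, 8350437440345044093670154240000, -4915072086457593704252313600000,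 0, -764721099720255455530905600000, -37587415437248000690215342080000, -1962058245186435864848916480000, 2257657611588260414431395840000, 1904806266984249998299176960000, -9916052668201099069009920000, 1522560293905476323437793280000, 0, 7131165425873915920550461440000, -2604149333100437853314949120000, 35232140914532522046851788800000, 1575558220435224262757130240000, 4049355275325816098792325120000, -287698035384913401343549440000, 2462785165797623206255779840000, -985178252072734510135726080000, 0, 3308125655196706116798627840000, 1676205783048846462097305600000, 2410795118295434086548111360000, -17095033377496897483314769920000, -329415077497020342883806240000, 0, 0, -309922871728636137778786944000, 0, 4884474522029389328983818240000, 0, 1760167188230547147773460480000, 0, 0, -6687568006226692620053734195200, 0, 14783666963526067912709554483200, -619845743457272275557573888000, 0, 0, 0, -30912332181085087209559085875200,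 0, -4361167339849186558637137920000, 0, -4325171935145321515553464320000, 0, 14455207682689458962262343680000, -419796464668601639667793920000, 0, 2068702444250174265520619520000, 0, 0, -3387379930973902929473372160000, 0, 0, 1615466521998537352051138560000, 0, -2200436726396563653944279040000, 17651666805956337813439979520000, -1144704729482019154486517760000, -985178252072734510135726080000, 1993217776424110716695470080000, 0, 51537836591043673932472320000, 27815929103765191075754618880000, -13981528380032966012651274240000, 8084039179221508355900006400000, 639504338624218593530081280000, -7202471143659714263247298560000, 0, 0, 0, -2595378904499342721186201600000, 2650476106190853562696704000000, 0, 0, 0, -1229238252894148128701153280000, -25443794707128520351482470400000, 0, 7891760253932494464858439680000, -44075664558762693643518197760000, -1442175346444866860388925440000, 87259441444038582396077998080000, 58758961836485316417203404800000,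 -83562626910066209991189135360000, -3612489573883248084168253440000, 39540333161415598465590927360000, 13992982304059973928795217920000, 0, -6750945247040157151090851840000, 0, 142852409647149414801899520000, -808841099661914523588894720000, 7941977696768236619960770560000, 636546061586941451864432640000, 939881065520576359111680000000, -3327728957106433867882782720000, 1866941134076328685031301120000, 0, 1822312164989916923909160960000, -9435349481468489615835832320000, 5591048261155343334768107520000, 2503847329404571339463393280000, 8409701518253888000308715520000, 411959772003822539659223040000, -4744957619569790064690339840000, -213201365980017557382266880000, 8354506275345435266452930560000, -13978662184642322441740677120000, -2515332548084313718548910080000, 75267755521189893136097280000, -8391409850168975212413788160000, -1068944590730021362460651520000, 2014667280549106080743301120000, 5099746454566843012905000960000,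 18209036435512880548325468160000, 1838600476936270009337733120000, 10603000742771899115423723520000, 2916450485476919938963906560000, 1607977466987837850994360320000, -9686667554215449212953681920000, 50007264196555161195356160000, -1624604762717853137069506560000, -2915329704697033404878684160000, -1410116567176071256331612160000, -260458031080537144767037440000, -1217026119866496538594222080000, 11136435086528719196918814720000, -18357433596341356075858575360000, -4509768141158657353620295680000, 16151454451208039401096888320000, 0, 4641644412188865656159477760000, -10336630132299411038276075520000, -6639287249399976679160217600000, 0, 3823530685466589048230092800000, 5826002550308984519802224640000, 0, 0, 324825423445739880174551040000, -3459813597222431109217320960000, 3079014550093019312357345280000, -4894343776960533481147914240000, 0, -9751572813791875243197726720000, 0, 1689795476477504542164049920000, -1613519323068427749511004160000,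 -6105873489440571362883870720000, 5261799287866118254165278720000, -4814240434056069951541985280000, 1339457239932385779879690240000, -16292982965974467176394915840000, 5443172375209809743911403520000, 25521595329719278868704174080000, -2663361329922345326620631040000, 23371486947227231024352215040000, -17813688065849480424549027840000, 77383443539941187870906818560000, 14558617006278593553509823360000, 46078044193473217729330947840000, 15021795511858975861034926080000, -112784093051865590829912883200000, 32673855005344607304221376768000, -11877931504536640800677683200000, -997772010715874698931773440000, 8353940782123833371441971200000, 5981982717745249672870748160000, 10873860271396572950166159360000, 1856147610257929891505111040000, 3765691729611046180169441280000, -5088542798506091123317063680000, -23464073724280347474459279360000, -13375136012453385240107468390400, 416704348902563125254144000000, 30262277821607972335468707840000,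 807116337427565144813137920000, -1553319372737125078369320960000, -486888840686301129035366400000, -426402731960035114764533760000, 1265862726400717374518937600000, 2735788845200300877805977600000, 16149405360360589423963799040000, 2084085743533964909959530240000, 193123109812047177841827840000, -223598186026812633931776000000, 1780899747390456609016074240000, -936116193687282485595648000000, -170400392337785445957058560000, -4343796496320289102823178240000, -7841562299533070111450603520000, -79963491370381990008422400000, 36581542614978010008145920000, 183470557077928307184721920000, 3293423043931698725613404160000, -26448329637595559033573990400000, 9621429019617960084675502080000, -2697614333112378281364725760000, -10946659822791670130540728320000, 10199492909133686025810001920000, 1955665392992554871104081920000, 1340175524029807330812764160000, 14172808686633253950684733440000, 4735916841425610899203891200000, -14149989058329321215333253120000,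 2320822206094432828079738880000, -5531244223528991160397209600000, -3020268773260235346859376640000, -3633736611255256936388689920000, 5419202160129440394953687040000, 10838404320258880789907374080000, -639487235070506019298590720000, 492438447990929674097418240000, -12447616495651927634903040000, 5015248655913464834000056320000, 4098556926434951892590837760000, -11359663524736689895068672000000, -23681825677411541816263557120000, 1490238620417604790084423680000, -324236619798472896383877120000, -842478715068234120465039360000, -2197216054828416627714723840000, 178936151185816143568404480000, 351605520766763463760035840000, -98296739948112242480455680000, 8225921019745957127459650560000, 16451842039491914254919301120000, 1760167188230547147773460480000, 1760167188230547147773460480000, 14783666963526067912709554483200, 14783666963526067912709554483200, -2041465190706977984182886400000, -1078966562768815958056673280000, 2051118229545454428310855680000,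 2051118229545454428310855680000, 598984120569521438365501440000, -359139653200729664225464320000, -345729741953574218023526400000]

theorem gr5 : eqM (gramT rows5) M5 = true := by
  decide +kernel

theorem mv5 : eqZ (mval M5 tab5) u5 = true := by
  decide +kernel

theorem nn5 (E : Env κ ι) : 0 ≤ dot (ek E keys) u5 0 :=
  block_nonneg E _ _ _ _ _ (tri5 E) rows5 M5 gr5 u5 mv5

end

end YMA
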