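import Pool.Agent.YM.EngF

set_option linter.unusedVariables false
set_option maxRecDepth 100000

open YMEng

namespace YMA

def keys : List Key := [
  (1, 3, [(2, [0], [0, 1, 2]), (2, [0], [0, 1, 2])]),
  (1, 4, [(2, [0], [0, 1, 2]), (1, [], [1, 2]), (0, [0], [0, 3]), (3, [], [3])]),
  (1, 4, [(2, [0], [0, 1, 2]), (1, [], [0, 3]), (3, [], [3]), (0, [0], [1, 2])]),
  (1, 5, [(1, [], [0, 1]), (0, [0], [2, 3]), (3, [], [3]), (1, [], [2, 4]), (3, [], [4]), (0, [0], [0, 1])]),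
  (1, 5, [(1, [], [0, 1]), (3, [], [1]), (0, [0], [2, 3]), (1, [], [0, 4]), (3, [], [4]), (0, [0], [2, 3])]),
  (2, 5, [(0, [0], [0, 1]), (2, [0], [2, 0, 1]), (0, [1], [3, 4]), (2, [1], [2, 3, 4])]),
  (2, 6, [(0, [0], [0, 1]), (2, [0], [2, 0, 1]), (0, [1], [3, 4]), (1, [], [3, 4]), (0, [1], [2, 5]), (3, [], [5])]),
  (2, 6, [(0, [0], [0, 1]), (2, [0], [2, 0, 1]), (0, [1], [3, 4]), (1, [], [2, 5]), (3, [], [5]), (0, [1], [3, 4])]),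
  (2, 7, [(0, [0], [0, 1]), (1, [], [0, 1]), (0, [0], [2, 3]), (3, [], [3]), (0, [1], [4, 5]), (1, [], [2, 6]), (3, [], [6]), (0, [1], [4, 5])]),
  (2, 7, [(0, [0], [0, 1]), (1, [], [2, 3]), (3, [], [3]), (0, [0], [0, 1]), (0, [1], [4, 5]), (1, [], [2, 6]), (3, [], [6]), (0, [1], [4, 5])]),
  (2, 5, [(0, [0], [0, 1]), (2, [1], [2, 0, 1]), (0, [0], [3, 4]), (2, [1], [2, 3, 4])]),
  (2, 6, [(0, [0], [0, 1]), (2, [1], [2, 0, 1]), (0, [0], [3, 4]), (1, [], [3, 4]), (0, [1], [2, 5]), (3, [], [5])]),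
  (2, 5, [(0, [0], [0, 1]), (2, [1], [2, 0, 1]), (0, [1], [3, 4]), (2, [0], [2, 3, 4])]),
  (2, 6, [(0, [0], [0, 1]), (2, [1], [2, 0, 1]), (0, [1], [3, 4]), (1, [], [3, 4]), (0, [0], [2, 5]), (3, [], [5])]),
  (2, 5, [(0, [0], [0, 1]), (0, [1], [1, 2]), (2, [0], [0, 3, 4]), (2, [1], [2, 3, 4])]),
  (2, 6, [(0, [0], [0, 1]), (0, [1], [1, 2]), (2, [0], [0, 3, 4]), (1, [], [3, 4]), (0, [1], [2, 5]), (3, [], [5])]),
  (2, 6, [(0, [0], [0, 1]), (0, [1], [1, 2]), (2, [0], [0, 3, 4]), (1, [], [2, 5]), (3, [], [5]), (0, [1], [3, 4])]),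
  (2, 7, [(0, [0], [0, 1]), (0, [1], [1, 2]), (1, [], [3, 4]), (0, [0], [0, 5]), (3, [], [5]), (1, [], [3, 4]), (0, [1], [2, 6]), (3, [], [6])]),
  (2, 7, [(0, [0], [0, 1]), (0, [1], [1, 2]), (1, [], [3, 4]), (0, [0], [0, 5]), (3, [], [5]), (1, [], [2, 6]), (3, [], [6]), (0, [1], [3, 4])]),
  (2, 5, [(0, [0], [0, 1]), (0, [1], [1, 2]), (2, [1], [0, 3, 4]), (2, [0], [2, 3, 4])]),
  (2, 6, [(0, [0], [0, 1]), (0, [1], [1, 2]), (2, [1], [0, 3, 4]), (1, [], [3, 4]), (0, [0], [2, 5]), (3, [], [5])]),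
  (2, 6, [(0, [0], [0, 1]), (0, [1], [1, 2]), (2, [1], [0, 3, 4]), (1, [], [2, 5]), (3, [], [5]), (0, [0], [3, 4])]),
  (2, 7, [(0, [0], [0, 1]), (0, [1], [1, 2]), (1, [], [3, 4]), (0, [1], [0, 5]), (3, [], [5]), (1, [], [3, 4]), (0, [0], [2, 6]), (3, [], [6])]),
  (2, 7, [(0, [0], [0, 1]), (0, [1], [1, 2]), (1, [], [3, 4]), (0, [1], [0, 5]), (3, [], [5]), (1, [], [2, 6]), (3, [], [6]), (0, [0], [3, 4])]),
  (2, 6, [(0, [0], [0, 1]), (2, [0], [2, 0, 1]), (1, [], [2, 3]), (0, [1], [3, 4]), (0, [1], [4, 5]), (3, [], [5])]),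
  (2, 6, [(0, [0], [0, 1]), (2, [0], [2, 0, 1]), (0, [1], [2, 3]), (1, [], [3, 4]), (0, [1], [4, 5]), (3, [], [5])]),
  (2, 7, [(0, [0], [0, 1]), (1, [], [0, 1]), (0, [0], [2, 3]), (3, [], [3]), (1, [], [2, 4]), (0, [1], [4, 5]), (0, [1], [5, 6]), (3, [], [6])]),
  (2, 7, [(0, [0], [0, 1]), (1, [], [0, 1]), (0, [0], [2, 3]), (3, [], [3]), (0, [1], [2, 4]), (1, [], [4, 5]), (0, [1], [5, 6]), (3, [], [6])]),
  (2, 7, [(0, [0], [0, 1]), (1, [], [2, 3]), (3, [], [3]), (0, [0], [0, 1]), (1, [], [2, 4]), (0, [1], [4, 5]), (0, [1], [5, 6]), (3, [], [6])]),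
  (2, 7, [(0, [0], [0, 1]), (1, [], [2, 3]), (3, [], [3]), (0, [0], [0, 1]), (0, [1], [2, 4]), (1, [], [4, 5]), (0, [1], [5, 6]), (3, [], [6])]),
  (2, 6, [(0, [0], [0, 1]), (3, [], [1]), (1, [], [0, 2]), (0, [1], [2, 3]), (0, [0], [4, 5]), (2, [1], [3, 4, 5])]),
  (2, 6, [(0, [0], [0, 1]), (3, [], [1]), (1, [], [0, 2]), (0, [1], [2, 3]), (0, [1], [4, 5]), (2, [0], [3, 4, 5])]),
  (2, 6, [(0, [0], [0, 1]), (3, [], [1]), (0, [1], [0, 2]), (1, [], [2, 3]), (0, [0], [4, 5]), (2, [1], [3, 4, 5])]),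
  (2, 6, [(0, [0], [0, 1]), (3, [], [1]), (0, [1], [0, 2]), (1, [], [2, 3]), (0, [1], [4, 5]), (2, [0], [3, 4, 5])]),
  (2, 5, [(0, [0], [0, 1]), (0, [1], [1, 2]), (0, [0], [0, 3]), (3, [], [3]), (0, [1], [2, 4]), (3, [], [4])]),
  (2, 5, [(0, [0], [0, 1]), (0, [1], [1, 2]), (0, [1], [0, 3]), (3, [], [3]), (0, [0], [2, 4]), (3, [], [4])]),
  (3, 7, [(0, [0], [0, 1]), (0, [1], [1, 2]), (0, [0], [0, 3]), (3, [], [3]), (0, [1], [4, 5]), (0, [2], [4, 5]), (0, [2], [2, 6]), (3, [], [6])]),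
  (3, 7, [(0, [0], [0, 1]), (0, [1], [1, 2]), (0, [1], [0, 3]), (3, [], [3]), (0, [0], [4, 5]), (0, [2], [4, 5]), (0, [2], [2, 6]), (3, [], [6])]),
  (1, 3, [(0, [0], [0, 1]), (3, [], [1]), (0, [0], [0, 2]), (3, [], [2])]),
  (1, 4, [(1, [], [0, 1]), (0, [0], [1, 2]), (3, [], [2]), (0, [0], [0, 3]), (3, [], [3])]),
  (1, 3, [(3, [], [0]), (0, [0], [1, 2]), (2, [0], [0, 1, 2])]),
  (1, 4, [(3, [], [0]), (0, [0], [1, 2]), (1, [], [1, 2]), (0, [0], [0, 3]), (3, [], [3])]),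
  (1, 4, [(3, [], [0]), (0, [0], [1, 2]), (1, [], [0, 3]), (3, [], [3]), (0, [0], [1, 2])]),
  (1, 4, [(1, [], [0, 1]), (3, [], [1]), (0, [0], [0, 2]), (0, [0], [2, 3]), (3, [], [3])]),
  (2, 5, [(0, [0], [0, 1]), (0, [0], [1, 2]), (3, [], [2]), (0, [1], [3, 4]), (2, [1], [0, 3, 4])]),
  (2, 6, [(0, [0], [0, 1]), (0, [0], [1, 2]), (3, [], [2]), (0, [1], [3, 4]), (1, [], [3, 4]), (0, [1], [0, 5]), (3, [], [5])]),
  (2, 6, [(0, [0], [0, 1]), (0, [0], [1, 2]), (3, [], [2]), (0, [1], [3, 4]), (1, [], [0, 5]), (3, [], [5]), (0, [1], [3, 4])]),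
  (2, 6, [(0, [0], [0, 1]), (0, [0], [1, 2]), (3, [], [2]), (1, [], [0, 3]), (0, [1], [3, 4]), (0, [1], [4, 5]), (3, [], [5])]),
  (2, 6, [(0, [0], [0, 1]), (0, [0], [1, 2]), (3, [], [2]), (0, [1], [0, 3]), (1, [], [3, 4]), (0, [1], [4, 5]), (3, [], [5])]),
  (2, 5, [(0, [0], [0, 1]), (2, [1], [2, 0, 1]), (0, [0], [2, 3]), (0, [1], [3, 4]), (3, [], [4])]),
  (2, 5, [(0, [0], [0, 1]), (2, [1], [2, 0, 1]), (0, [1], [2, 3]), (0, [0], [3, 4]), (3, [], [4])]),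
  (2, 6, [(0, [0], [0, 1]), (1, [], [0, 1]), (0, [1], [2, 3]), (3, [], [3]), (0, [0], [2, 4]), (0, [1], [4, 5]), (3, [], [5])]),
  (2, 6, [(0, [0], [0, 1]), (3, [], [1]), (1, [], [0, 2]), (0, [1], [2, 3]), (0, [0], [3, 4]), (0, [1], [4, 5]), (3, [], [5])]),
  (2, 6, [(0, [0], [0, 1]), (3, [], [1]), (1, [], [0, 2]), (0, [1], [2, 3]), (0, [1], [3, 4]), (0, [0], [4, 5]), (3, [], [5])]),
  (2, 6, [(0, [0], [0, 1]), (3, [], [1]), (0, [1], [0, 2]), (1, [], [2, 3]), (0, [0], [3, 4]), (0, [1], [4, 5]), (3, [], [5])]),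
  (2, 6, [(0, [0], [0, 1]), (3, [], [1]), (0, [1], [0, 2]), (1, [], [2, 3]), (0, [1], [3, 4]), (0, [0], [4, 5]), (3, [], [5])]),
  (2, 5, [(0, [0], [0, 1]), (0, [1], [1, 2]), (3, [], [2]), (0, [0], [0, 3]), (0, [1], [3, 4]), (3, [], [4])]),
  (2, 6, [(0, [0], [0, 1]), (0, [1], [1, 2]), (1, [], [0, 3]), (3, [], [3]), (0, [0], [2, 4]), (0, [1], [4, 5]), (3, [], [5])]),
  (2, 6, [(0, [0], [0, 1]), (0, [1], [1, 2]), (1, [], [0, 3]), (3, [], [3]), (0, [1], [2, 4]), (0, [0], [4, 5]), (3, [], [5])]),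
  (2, 5, [(0, [0], [0, 1]), (0, [0], [0, 1]), (2, [1], [2, 3, 4]), (2, [1], [2, 3, 4])]),
  (2, 6, [(0, [0], [0, 1]), (0, [0], [0, 1]), (2, [1], [2, 3, 4]), (1, [], [3, 4]), (0, [1], [2, 5]), (3, [], [5])]),
  (2, 5, [(0, [0], [0, 1]), (0, [0], [0, 1]), (0, [1], [2, 3]), (3, [], [3]), (0, [1], [2, 4]), (3, [], [4])]),
  (3, 7, [(0, [0], [0, 1]), (0, [0], [0, 1]), (0, [1], [2, 3]), (0, [1], [2, 3]), (0, [2], [4, 5]), (3, [], [5]), (0, [2], [4, 6]), (3, [], [6])]),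
  (3, 7, [(0, [0], [0, 1]), (0, [0], [0, 1]), (0, [1], [2, 3]), (0, [2], [3, 4]), (0, [1], [2, 5]), (3, [], [5]), (0, [2], [4, 6]), (3, [], [6])]),
  (3, 7, [(0, [0], [0, 1]), (0, [0], [0, 1]), (0, [1], [2, 3]), (0, [2], [3, 4]), (0, [2], [2, 5]), (3, [], [5]), (0, [1], [4, 6]), (3, [], [6])]),
  (1, 3, [(0, [0], [0, 1]), (0, [0], [0, 1]), (3, [], [2]), (3, [], [2])]),
  (2, 5, [(0, [0], [0, 1]), (0, [0], [0, 1]), (0, [1], [2, 3]), (0, [1], [2, 3]), (3, [], [4]), (3, [], [4])]),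
  (2, 6, [(0, [0], [0, 1]), (0, [0], [0, 1]), (1, [], [2, 3]), (0, [1], [3, 4]), (3, [], [4]), (0, [1], [2, 5]), (3, [], [5])]),
  (2, 5, [(0, [0], [0, 1]), (0, [0], [0, 1]), (3, [], [2]), (0, [1], [3, 4]), (2, [1], [2, 3, 4])]),
  (2, 6, [(0, [0], [0, 1]), (0, [0], [0, 1]), (3, [], [2]), (0, [1], [3, 4]), (1, [], [3, 4]), (0, [1], [2, 5]), (3, [], [5])]),
  (2, 6, [(0, [0], [0, 1]), (0, [0], [0, 1]), (3, [], [2]), (0, [1], [3, 4]), (1, [], [2, 5]), (3, [], [5]), (0, [1], [3, 4])]),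
  (2, 7, [(0, [0], [0, 1]), (0, [0], [0, 2]), (1, [], [1, 2]), (3, [], [3]), (0, [1], [4, 5]), (0, [1], [4, 6]), (1, [], [5, 6]), (3, [], [3])]),
  (2, 7, [(0, [0], [0, 1]), (0, [0], [0, 2]), (1, [], [1, 2]), (3, [], [3]), (0, [1], [4, 5]), (0, [1], [4, 5]), (1, [], [3, 6]), (3, [], [6])]),
  (2, 7, [(0, [0], [0, 1]), (0, [0], [0, 2]), (1, [], [1, 2]), (3, [], [3]), (0, [1], [4, 5]), (0, [1], [4, 6]), (1, [], [3, 5]), (3, [], [6])]),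
  (2, 6, [(0, [0], [0, 1]), (0, [0], [0, 2]), (1, [], [1, 2]), (3, [], [3]), (0, [1], [4, 5]), (0, [1], [4, 5]), (3, [], [3])]),
  (2, 7, [(0, [0], [0, 1]), (0, [0], [0, 2]), (1, [], [1, 2]), (3, [], [3]), (0, [1], [4, 5]), (0, [1], [3, 6]), (1, [], [4, 5]), (3, [], [6])]),
  (2, 7, [(0, [0], [0, 1]), (0, [0], [0, 2]), (1, [], [1, 2]), (3, [], [3]), (0, [1], [4, 5]), (0, [1], [3, 6]), (1, [], [4, 6]), (3, [], [5])]),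
  (2, 6, [(0, [0], [0, 1]), (0, [0], [0, 2]), (1, [], [1, 2]), (3, [], [3]), (0, [1], [4, 5]), (0, [1], [3, 4]), (3, [], [5])]),
  (2, 6, [(0, [0], [0, 1]), (0, [0], [0, 2]), (1, [], [1, 2]), (3, [], [3]), (0, [1], [4, 5]), (2, [1], [3, 4, 5])]),
  (2, 7, [(0, [0], [0, 1]), (0, [0], [0, 1]), (1, [], [2, 3]), (3, [], [3]), (0, [1], [4, 5]), (0, [1], [2, 4]), (1, [], [5, 6]), (3, [], [6])]),
  (2, 7, [(0, [0], [0, 1]), (0, [0], [0, 2]), (1, [], [3, 1]), (3, [], [2]), (0, [1], [4, 5]), (0, [1], [4, 6]), (1, [], [3, 5]), (3, [], [6])]),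
  (2, 7, [(0, [0], [0, 1]), (0, [0], [0, 2]), (1, [], [3, 1]), (3, [], [2]), (0, [1], [4, 5]), (0, [1], [3, 4]), (1, [], [5, 6]), (3, [], [6])]),
  (2, 7, [(0, [0], [0, 1]), (0, [0], [0, 2]), (1, [], [3, 1]), (3, [], [2]), (0, [1], [4, 5]), (0, [1], [3, 6]), (1, [], [4, 6]), (3, [], [5])]),
  (2, 7, [(0, [0], [0, 1]), (0, [0], [2, 0]), (1, [], [1, 3]), (3, [], [3]), (0, [1], [4, 5]), (0, [1], [2, 4]), (1, [], [5, 6]), (3, [], [6])]),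
  (2, 7, [(0, [0], [0, 1]), (0, [0], [2, 0]), (1, [], [1, 3]), (3, [], [3]), (0, [1], [4, 5]), (0, [1], [2, 6]), (1, [], [4, 5]), (3, [], [6])]),
  (2, 7, [(0, [0], [0, 1]), (0, [0], [2, 0]), (1, [], [1, 3]), (3, [], [3]), (0, [1], [4, 5]), (0, [1], [2, 6]), (1, [], [4, 6]), (3, [], [5])]),
  (2, 6, [(0, [0], [0, 1]), (0, [0], [2, 0]), (1, [], [1, 3]), (3, [], [3]), (0, [1], [4, 5]), (0, [1], [2, 4]), (3, [], [5])]),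
  (2, 6, [(0, [0], [0, 1]), (0, [0], [2, 0]), (1, [], [1, 3]), (3, [], [3]), (0, [1], [4, 5]), (2, [1], [2, 4, 5])]),
  (2, 7, [(0, [0], [0, 1]), (0, [0], [2, 3]), (1, [], [0, 1]), (3, [], [3]), (0, [1], [4, 5]), (0, [1], [2, 6]), (1, [], [4, 5]), (3, [], [6])]),
  (2, 7, [(0, [0], [0, 1]), (0, [0], [2, 3]), (1, [], [0, 3]), (3, [], [1]), (0, [1], [4, 5]), (0, [1], [2, 6]), (1, [], [4, 6]), (3, [], [5])]),
  (2, 7, [(0, [0], [0, 1]), (0, [0], [0, 1]), (1, [], [2, 3]), (3, [], [4]), (0, [1], [5, 6]), (0, [1], [5, 6]), (1, [], [2, 3]), (3, [], [4])]),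
  (2, 7, [(0, [0], [0, 1]), (0, [0], [0, 1]), (1, [], [2, 3]), (3, [], [4]), (0, [1], [5, 6]), (0, [1], [4, 5]), (1, [], [2, 3]), (3, [], [6])]),
  (2, 7, [(0, [0], [0, 1]), (0, [0], [0, 1]), (1, [], [2, 3]), (3, [], [4]), (0, [1], [5, 6]), (0, [1], [3, 4]), (1, [], [2, 5]), (3, [], [6])]),
  (2, 7, [(0, [0], [0, 1]), (0, [0], [0, 1]), (1, [], [2, 3]), (3, [], [4]), (0, [1], [2, 5]), (0, [1], [3, 6]), (1, [], [5, 6]), (3, [], [4])]),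
  (2, 7, [(0, [0], [0, 1]), (0, [0], [0, 1]), (1, [], [2, 3]), (3, [], [4]), (0, [1], [5, 6]), (0, [1], [2, 5]), (1, [], [3, 6]), (3, [], [4])]),
  (2, 7, [(0, [0], [0, 1]), (0, [0], [0, 1]), (1, [], [2, 3]), (3, [], [4]), (0, [1], [3, 5]), (0, [1], [4, 6]), (1, [], [2, 5]), (3, [], [6])]),
  (2, 7, [(0, [0], [0, 1]), (0, [0], [2, 0]), (1, [], [3, 4]), (3, [], [1]), (0, [1], [5, 6]), (0, [1], [2, 3]), (1, [], [4, 5]), (3, [], [6])]),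
  (2, 7, [(0, [0], [0, 1]), (0, [0], [2, 0]), (1, [], [3, 4]), (3, [], [1]), (0, [1], [2, 5]), (0, [1], [3, 6]), (1, [], [5, 6]), (3, [], [4])]),
  (2, 7, [(0, [0], [0, 1]), (0, [0], [2, 0]), (1, [], [3, 4]), (3, [], [1]), (0, [1], [3, 5]), (0, [1], [4, 6]), (1, [], [5, 6]), (3, [], [2])]),
  (2, 7, [(0, [0], [0, 1]), (0, [0], [2, 0]), (1, [], [3, 4]), (3, [], [1]), (0, [1], [2, 5]), (0, [1], [3, 5]), (1, [], [4, 6]), (3, [], [6])]),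
  (2, 7, [(0, [0], [0, 1]), (0, [0], [2, 0]), (1, [], [3, 4]), (3, [], [1]), (0, [1], [5, 6]), (0, [1], [3, 5]), (1, [], [4, 6]), (3, [], [2])]),
  (2, 7, [(0, [0], [0, 1]), (0, [0], [2, 0]), (1, [], [3, 4]), (3, [], [1]), (0, [1], [2, 5]), (0, [1], [3, 6]), (1, [], [4, 6]), (3, [], [5])]),
  (2, 7, [(0, [0], [0, 1]), (0, [0], [2, 3]), (1, [], [4, 0]), (3, [], [1]), (0, [1], [5, 6]), (0, [1], [2, 3]), (1, [], [4, 5]), (3, [], [6])]),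
  (2, 7, [(0, [0], [0, 1]), (0, [0], [2, 3]), (1, [], [4, 0]), (3, [], [1]), (0, [1], [5, 6]), (0, [1], [3, 4]), (1, [], [2, 5]), (3, [], [6])]),
  (2, 7, [(0, [0], [0, 1]), (0, [0], [2, 3]), (1, [], [4, 0]), (3, [], [1]), (0, [1], [2, 5]), (0, [1], [3, 6]), (1, [], [5, 6]), (3, [], [4])]),
  (2, 7, [(0, [0], [0, 1]), (0, [0], [2, 3]), (1, [], [4, 0]), (3, [], [1]), (0, [1], [3, 5]), (0, [1], [4, 6]), (1, [], [5, 6]), (3, [], [2])]),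
  (2, 7, [(0, [0], [0, 1]), (0, [0], [2, 3]), (1, [], [4, 0]), (3, [], [1]), (0, [1], [2, 5]), (0, [1], [3, 5]), (1, [], [4, 6]), (3, [], [6])]),
  (2, 7, [(0, [0], [0, 1]), (0, [0], [2, 3]), (1, [], [4, 0]), (3, [], [1]), (0, [1], [3, 5]), (0, [1], [4, 5]), (1, [], [2, 6]), (3, [], [6])]),
  (2, 6, [(0, [0], [0, 1]), (0, [0], [2, 3]), (1, [], [4, 0]), (3, [], [1]), (0, [1], [2, 5]), (0, [1], [3, 5]), (3, [], [4])]),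
  (2, 7, [(0, [0], [0, 1]), (0, [0], [2, 3]), (1, [], [4, 0]), (3, [], [1]), (0, [1], [2, 5]), (0, [1], [3, 4]), (1, [], [5, 6]), (3, [], [6])]),
  (2, 7, [(0, [0], [0, 1]), (0, [0], [2, 3]), (1, [], [4, 0]), (3, [], [1]), (0, [1], [2, 3]), (0, [1], [4, 5]), (1, [], [5, 6]), (3, [], [6])]),
  (2, 6, [(0, [0], [0, 1]), (0, [0], [2, 3]), (1, [], [4, 0]), (3, [], [1]), (0, [1], [2, 3]), (0, [1], [4, 5]), (3, [], [5])]),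
  (2, 7, [(0, [0], [0, 1]), (0, [0], [2, 3]), (1, [], [4, 0]), (3, [], [1]), (0, [1], [5, 6]), (0, [1], [2, 5]), (1, [], [3, 6]), (3, [], [4])]),
  (2, 7, [(0, [0], [0, 1]), (0, [0], [2, 3]), (1, [], [4, 0]), (3, [], [1]), (0, [1], [5, 6]), (0, [1], [3, 5]), (1, [], [4, 6]), (3, [], [2])]),
  (2, 7, [(0, [0], [0, 1]), (0, [0], [2, 3]), (1, [], [4, 0]), (3, [], [1]), (0, [1], [5, 6]), (0, [1], [4, 5]), (1, [], [3, 6]), (3, [], [2])]),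
  (2, 7, [(0, [0], [0, 1]), (0, [0], [2, 3]), (1, [], [4, 0]), (3, [], [1]), (0, [1], [2, 5]), (0, [1], [3, 6]), (1, [], [4, 5]), (3, [], [6])]),
  (2, 7, [(0, [0], [0, 1]), (0, [0], [2, 3]), (1, [], [4, 0]), (3, [], [1]), (0, [1], [3, 5]), (0, [1], [4, 6]), (1, [], [2, 5]), (3, [], [6])]),
  (2, 7, [(0, [0], [0, 1]), (0, [0], [2, 3]), (1, [], [4, 0]), (3, [], [1]), (0, [1], [3, 5]), (0, [1], [4, 6]), (1, [], [2, 6]), (3, [], [5])]),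
  (2, 7, [(0, [0], [0, 1]), (0, [0], [2, 3]), (1, [], [1, 3]), (3, [], [4]), (0, [1], [0, 5]), (0, [1], [2, 6]), (1, [], [5, 6]), (3, [], [4])]),
  (2, 7, [(0, [0], [0, 1]), (0, [0], [2, 3]), (1, [], [1, 3]), (3, [], [4]), (0, [1], [0, 5]), (0, [1], [2, 5]), (1, [], [4, 6]), (3, [], [6])]),
  (2, 6, [(0, [0], [0, 1]), (0, [0], [2, 3]), (1, [], [1, 3]), (3, [], [4]), (0, [1], [0, 5]), (0, [1], [2, 5]), (3, [], [4])]),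
  (2, 7, [(0, [0], [0, 1]), (0, [0], [2, 3]), (1, [], [1, 3]), (3, [], [4]), (0, [1], [0, 5]), (0, [1], [2, 4]), (1, [], [5, 6]), (3, [], [6])]),
  (2, 6, [(0, [0], [0, 1]), (0, [0], [2, 3]), (1, [], [1, 3]), (3, [], [4]), (0, [1], [0, 2]), (0, [1], [4, 5]), (3, [], [5])]),
  (2, 7, [(0, [0], [0, 1]), (0, [0], [2, 3]), (1, [], [1, 3]), (3, [], [4]), (0, [1], [5, 6]), (0, [1], [0, 5]), (1, [], [2, 6]), (3, [], [4])]),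
  (2, 7, [(0, [0], [0, 1]), (0, [0], [2, 3]), (1, [], [1, 3]), (3, [], [4]), (0, [1], [2, 5]), (0, [1], [4, 6]), (1, [], [0, 5]), (3, [], [6])]),
  (2, 7, [(0, [0], [0, 1]), (0, [0], [2, 1]), (1, [], [3, 4]), (3, [], [4]), (0, [1], [0, 5]), (0, [1], [2, 5]), (1, [], [3, 6]), (3, [], [6])]),
  (2, 6, [(0, [0], [0, 1]), (0, [0], [2, 1]), (1, [], [3, 4]), (3, [], [4]), (0, [1], [0, 5]), (0, [1], [2, 5]), (3, [], [3])]),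
  (2, 7, [(0, [0], [0, 1]), (0, [0], [2, 1]), (1, [], [3, 4]), (3, [], [4]), (0, [1], [0, 5]), (0, [1], [2, 3]), (1, [], [5, 6]), (3, [], [6])]),
  (2, 7, [(0, [0], [0, 1]), (0, [0], [2, 1]), (1, [], [3, 4]), (3, [], [4]), (0, [1], [0, 2]), (0, [1], [3, 5]), (1, [], [5, 6]), (3, [], [6])]),
  (2, 7, [(0, [0], [0, 1]), (0, [0], [2, 1]), (1, [], [3, 4]), (3, [], [4]), (0, [1], [5, 6]), (0, [1], [0, 5]), (1, [], [2, 6]), (3, [], [3])]),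
  (2, 7, [(0, [0], [0, 1]), (0, [0], [2, 1]), (1, [], [3, 4]), (3, [], [4]), (0, [1], [0, 5]), (0, [1], [2, 6]), (1, [], [3, 5]), (3, [], [6])]),
  (2, 7, [(0, [0], [0, 1]), (0, [0], [2, 1]), (1, [], [3, 4]), (3, [], [4]), (0, [1], [2, 5]), (0, [1], [3, 6]), (1, [], [0, 6]), (3, [], [5])]),
  (2, 5, [(0, [0], [0, 1]), (0, [0], [2, 1]), (3, [], [3]), (0, [1], [0, 4]), (0, [1], [2, 4]), (3, [], [3])]),
  (2, 5, [(0, [0], [0, 1]), (0, [0], [2, 1]), (3, [], [3]), (0, [1], [0, 2]), (0, [1], [3, 4]), (3, [], [4])]),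
  (2, 6, [(0, [0], [0, 1]), (0, [0], [2, 1]), (3, [], [3]), (0, [1], [4, 5]), (0, [1], [0, 4]), (1, [], [2, 5]), (3, [], [3])]),
  (2, 6, [(0, [0], [0, 1]), (0, [0], [2, 1]), (3, [], [3]), (0, [1], [2, 4]), (0, [1], [3, 5]), (1, [], [0, 4]), (3, [], [5])]),
  (2, 7, [(0, [0], [0, 1]), (0, [0], [2, 3]), (1, [], [1, 4]), (3, [], [4]), (0, [1], [0, 5]), (0, [1], [2, 3]), (1, [], [5, 6]), (3, [], [6])]),
  (2, 7, [(0, [0], [0, 1]), (0, [0], [2, 3]), (1, [], [1, 4]), (3, [], [4]), (0, [1], [0, 2]), (0, [1], [3, 5]), (1, [], [5, 6]), (3, [], [6])]),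
  (2, 6, [(0, [0], [0, 1]), (0, [0], [2, 3]), (1, [], [1, 4]), (3, [], [4]), (0, [1], [0, 5]), (0, [1], [2, 3]), (3, [], [5])]),
  (2, 7, [(0, [0], [0, 1]), (0, [0], [2, 3]), (1, [], [1, 4]), (3, [], [4]), (0, [1], [0, 5]), (0, [1], [2, 6]), (1, [], [3, 5]), (3, [], [6])]),
  (2, 7, [(0, [0], [0, 1]), (0, [0], [2, 3]), (1, [], [1, 4]), (3, [], [4]), (0, [1], [0, 5]), (0, [1], [2, 6]), (1, [], [3, 6]), (3, [], [5])]),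
  (2, 7, [(0, [0], [0, 1]), (0, [0], [2, 3]), (1, [], [1, 4]), (3, [], [4]), (0, [1], [2, 5]), (0, [1], [3, 6]), (1, [], [0, 5]), (3, [], [6])]),
  (2, 5, [(0, [0], [0, 1]), (0, [0], [2, 3]), (3, [], [1]), (0, [1], [0, 4]), (0, [1], [2, 3]), (3, [], [4])]),
  (2, 6, [(0, [0], [0, 1]), (0, [0], [2, 3]), (3, [], [1]), (0, [1], [0, 4]), (0, [1], [2, 5]), (1, [], [3, 5]), (3, [], [4])]),
  (2, 7, [(0, [0], [0, 1]), (0, [0], [2, 0]), (1, [], [3, 1]), (3, [], [4]), (0, [1], [5, 6]), (0, [1], [2, 5]), (1, [], [3, 6]), (3, [], [4])]),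
  (2, 7, [(0, [0], [0, 1]), (0, [0], [2, 0]), (1, [], [3, 1]), (3, [], [4]), (0, [1], [5, 6]), (0, [1], [3, 5]), (1, [], [2, 6]), (3, [], [4])]),
  (2, 7, [(0, [0], [0, 1]), (0, [0], [2, 0]), (1, [], [3, 1]), (3, [], [4]), (0, [1], [3, 5]), (0, [1], [4, 6]), (1, [], [2, 5]), (3, [], [6])]),
  (2, 7, [(0, [0], [0, 1]), (0, [0], [2, 0]), (1, [], [3, 1]), (3, [], [4]), (0, [1], [2, 5]), (0, [1], [4, 6]), (1, [], [3, 5]), (3, [], [6])]),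
  (2, 7, [(0, [0], [0, 1]), (0, [0], [2, 3]), (1, [], [4, 1]), (3, [], [3]), (0, [1], [0, 5]), (0, [1], [2, 6]), (1, [], [4, 5]), (3, [], [6])]),
  (2, 7, [(0, [0], [0, 1]), (0, [0], [2, 3]), (1, [], [4, 1]), (3, [], [3]), (0, [1], [0, 5]), (0, [1], [2, 6]), (1, [], [4, 6]), (3, [], [5])]),
  (2, 7, [(0, [0], [0, 1]), (0, [0], [2, 3]), (1, [], [4, 1]), (3, [], [3]), (0, [1], [2, 5]), (0, [1], [4, 6]), (1, [], [0, 6]), (3, [], [5])]),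
  (2, 5, [(0, [0], [0, 1]), (2, [0], [2, 3, 4]), (0, [1], [0, 1]), (2, [1], [2, 3, 4])]),
  (2, 6, [(0, [0], [0, 1]), (2, [0], [2, 3, 4]), (0, [1], [0, 1]), (0, [1], [2, 3]), (1, [], [4, 5]), (3, [], [5])]),
  (2, 6, [(0, [0], [0, 1]), (2, [0], [2, 3, 4]), (0, [1], [0, 2]), (0, [1], [1, 3]), (1, [], [4, 5]), (3, [], [5])]),
  (2, 5, [(0, [0], [0, 1]), (2, [0], [2, 3, 4]), (0, [1], [0, 1]), (0, [1], [2, 3]), (3, [], [4])]),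
  (2, 5, [(0, [0], [0, 1]), (2, [0], [2, 3, 4]), (0, [1], [0, 2]), (0, [1], [1, 3]), (3, [], [4])]),
  (2, 6, [(0, [0], [0, 1]), (2, [0], [2, 3, 4]), (0, [1], [0, 5]), (0, [1], [1, 5]), (1, [], [2, 3]), (3, [], [4])]),
  (2, 6, [(0, [0], [0, 1]), (2, [0], [2, 3, 4]), (0, [1], [0, 5]), (0, [1], [2, 5]), (1, [], [1, 3]), (3, [], [4])]),
  (2, 6, [(0, [0], [0, 1]), (2, [0], [2, 3, 4]), (0, [1], [0, 5]), (0, [1], [2, 5]), (1, [], [3, 4]), (3, [], [1])]),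
  (2, 6, [(0, [0], [0, 1]), (2, [0], [2, 3, 4]), (0, [1], [2, 5]), (0, [1], [3, 5]), (1, [], [0, 1]), (3, [], [4])]),
  (2, 6, [(0, [0], [0, 1]), (2, [0], [2, 3, 4]), (0, [1], [2, 5]), (0, [1], [3, 5]), (1, [], [0, 4]), (3, [], [1])]),
  (2, 6, [(0, [0], [0, 1]), (2, [0], [2, 3, 4]), (0, [1], [0, 1]), (0, [1], [2, 5]), (1, [], [3, 4]), (3, [], [5])]),
  (2, 6, [(0, [0], [0, 1]), (2, [0], [2, 3, 4]), (0, [1], [0, 2]), (0, [1], [3, 5]), (1, [], [1, 4]), (3, [], [5])]),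
  (2, 6, [(0, [0], [0, 1]), (2, [0], [2, 3, 4]), (0, [1], [0, 5]), (0, [1], [1, 2]), (1, [], [3, 5]), (3, [], [4])]),
  (2, 6, [(0, [0], [0, 1]), (2, [0], [2, 3, 4]), (0, [1], [0, 5]), (0, [1], [2, 3]), (1, [], [1, 5]), (3, [], [4])]),
  (2, 6, [(0, [0], [0, 1]), (2, [0], [2, 3, 4]), (0, [1], [0, 1]), (0, [1], [2, 5]), (1, [], [3, 5]), (3, [], [4])]),
  (2, 6, [(0, [0], [0, 1]), (2, [0], [2, 3, 4]), (0, [1], [0, 2]), (0, [1], [3, 5]), (1, [], [1, 5]), (3, [], [4])]),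
  (2, 6, [(0, [0], [0, 1]), (2, [0], [2, 3, 4]), (0, [1], [0, 2]), (0, [1], [3, 5]), (1, [], [4, 5]), (3, [], [1])]),
  (2, 7, [(0, [0], [0, 1]), (0, [0], [2, 3]), (1, [], [4, 5]), (3, [], [5]), (0, [1], [0, 1]), (0, [1], [2, 3]), (1, [], [4, 6]), (3, [], [6])]),
  (2, 7, [(0, [0], [0, 1]), (0, [0], [2, 3]), (1, [], [4, 5]), (3, [], [5]), (0, [1], [0, 2]), (0, [1], [1, 3]), (1, [], [4, 6]), (3, [], [6])]),
  (2, 6, [(0, [0], [0, 1]), (0, [0], [2, 3]), (1, [], [4, 5]), (3, [], [5]), (0, [1], [0, 1]), (0, [1], [2, 3]), (3, [], [4])]),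
  (2, 6, [(0, [0], [0, 1]), (0, [0], [2, 3]), (1, [], [4, 5]), (3, [], [5]), (0, [1], [0, 2]), (0, [1], [1, 3]), (3, [], [4])]),
  (2, 7, [(0, [0], [0, 1]), (0, [0], [2, 3]), (1, [], [4, 5]), (3, [], [5]), (0, [1], [0, 6]), (0, [1], [1, 6]), (1, [], [2, 3]), (3, [], [4])]),
  (2, 7, [(0, [0], [0, 1]), (0, [0], [2, 3]), (1, [], [4, 5]), (3, [], [5]), (0, [1], [0, 6]), (0, [1], [1, 2]), (1, [], [3, 4]), (3, [], [6])]),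
  (2, 7, [(0, [0], [0, 1]), (0, [0], [2, 3]), (1, [], [4, 5]), (3, [], [5]), (0, [1], [0, 6]), (0, [1], [2, 3]), (1, [], [1, 4]), (3, [], [6])]),
  (2, 7, [(0, [0], [0, 1]), (0, [0], [2, 3]), (1, [], [4, 5]), (3, [], [5]), (0, [1], [0, 1]), (0, [1], [4, 6]), (1, [], [2, 3]), (3, [], [6])]),
  (2, 7, [(0, [0], [0, 1]), (0, [0], [2, 3]), (1, [], [4, 5]), (3, [], [5]), (0, [1], [0, 6]), (0, [1], [1, 2]), (1, [], [3, 6]), (3, [], [4])]),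
  (2, 7, [(0, [0], [0, 1]), (0, [0], [2, 3]), (1, [], [4, 5]), (3, [], [5]), (0, [1], [0, 6]), (0, [1], [2, 3]), (1, [], [1, 6]), (3, [], [4])]),
  (2, 5, [(0, [0], [0, 1]), (0, [0], [2, 3]), (3, [], [4]), (0, [1], [0, 1]), (0, [1], [2, 3]), (3, [], [4])]),
  (2, 5, [(0, [0], [0, 1]), (0, [0], [2, 3]), (3, [], [4]), (0, [1], [0, 2]), (0, [1], [1, 3]), (3, [], [4])]),
  (2, 6, [(0, [0], [0, 1]), (0, [0], [2, 3]), (3, [], [4]), (0, [1], [0, 5]), (0, [1], [1, 5]), (1, [], [2, 3]), (3, [], [4])]),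
  (2, 6, [(0, [0], [0, 1]), (0, [0], [2, 3]), (3, [], [4]), (0, [1], [0, 1]), (0, [1], [4, 5]), (1, [], [2, 3]), (3, [], [5])]),
  (2, 6, [(0, [0], [0, 1]), (0, [0], [2, 3]), (3, [], [4]), (0, [1], [0, 5]), (0, [1], [1, 2]), (1, [], [3, 5]), (3, [], [4])]),
  (2, 6, [(0, [0], [0, 1]), (0, [0], [2, 3]), (3, [], [4]), (0, [1], [0, 5]), (0, [1], [2, 3]), (1, [], [1, 5]), (3, [], [4])]),
  (2, 7, [(0, [0], [0, 1]), (0, [0], [2, 1]), (1, [], [3, 4]), (3, [], [5]), (0, [1], [0, 6]), (0, [1], [2, 6]), (1, [], [3, 4]), (3, [], [5])]),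
  (2, 7, [(0, [0], [0, 1]), (0, [0], [2, 1]), (1, [], [3, 4]), (3, [], [5]), (0, [1], [0, 6]), (0, [1], [2, 5]), (1, [], [3, 4]), (3, [], [6])]),
  (2, 7, [(0, [0], [0, 1]), (0, [0], [2, 1]), (1, [], [3, 4]), (3, [], [5]), (0, [1], [0, 2]), (0, [1], [5, 6]), (1, [], [3, 4]), (3, [], [6])]),
  (2, 7, [(0, [0], [0, 1]), (0, [0], [2, 1]), (1, [], [3, 4]), (3, [], [5]), (0, [1], [0, 6]), (0, [1], [2, 3]), (1, [], [4, 6]), (3, [], [5])]),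
  (2, 7, [(0, [0], [0, 1]), (0, [0], [2, 1]), (1, [], [3, 4]), (3, [], [5]), (0, [1], [0, 6]), (0, [1], [3, 4]), (1, [], [2, 6]), (3, [], [5])]),
  (2, 7, [(0, [0], [0, 1]), (0, [0], [2, 1]), (1, [], [3, 4]), (3, [], [5]), (0, [1], [0, 2]), (0, [1], [3, 6]), (1, [], [4, 6]), (3, [], [5])]),
  (2, 7, [(0, [0], [0, 1]), (0, [0], [2, 3]), (1, [], [4, 5]), (3, [], [1]), (0, [1], [0, 6]), (0, [1], [2, 3]), (1, [], [4, 5]), (3, [], [6])]),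
  (2, 7, [(0, [0], [0, 1]), (0, [0], [2, 3]), (1, [], [4, 5]), (3, [], [1]), (0, [1], [0, 6]), (0, [1], [2, 4]), (1, [], [5, 6]), (3, [], [3])]),
  (2, 7, [(0, [0], [0, 1]), (0, [0], [2, 3]), (1, [], [4, 5]), (3, [], [1]), (0, [1], [0, 6]), (0, [1], [4, 5]), (1, [], [2, 6]), (3, [], [3])]),
  (2, 7, [(0, [0], [0, 1]), (0, [0], [2, 3]), (1, [], [4, 5]), (3, [], [1]), (0, [1], [0, 2]), (0, [1], [4, 6]), (1, [], [5, 6]), (3, [], [3])]),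
  (2, 7, [(0, [0], [0, 1]), (0, [0], [2, 3]), (1, [], [4, 5]), (3, [], [1]), (0, [1], [2, 6]), (0, [1], [3, 4]), (1, [], [5, 6]), (3, [], [0])]),
  (2, 7, [(0, [0], [0, 1]), (0, [0], [2, 3]), (1, [], [4, 5]), (3, [], [1]), (0, [1], [2, 6]), (0, [1], [4, 5]), (1, [], [3, 6]), (3, [], [0])]),
  (2, 7, [(0, [0], [0, 1]), (0, [0], [2, 3]), (1, [], [4, 5]), (3, [], [1]), (0, [1], [2, 3]), (0, [1], [4, 6]), (1, [], [5, 6]), (3, [], [0])]),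
  (2, 7, [(0, [0], [0, 1]), (0, [0], [2, 3]), (1, [], [4, 1]), (3, [], [5]), (0, [1], [0, 6]), (0, [1], [2, 3]), (1, [], [4, 6]), (3, [], [5])]),
  (2, 7, [(0, [0], [0, 1]), (0, [0], [2, 3]), (1, [], [4, 1]), (3, [], [5]), (0, [1], [0, 6]), (0, [1], [2, 4]), (1, [], [3, 6]), (3, [], [5])]),
  (2, 7, [(0, [0], [0, 1]), (0, [0], [2, 3]), (1, [], [4, 1]), (3, [], [5]), (0, [1], [0, 2]), (0, [1], [3, 6]), (1, [], [4, 6]), (3, [], [5])]),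
  (2, 7, [(0, [0], [0, 1]), (0, [0], [2, 3]), (1, [], [4, 1]), (3, [], [5]), (0, [1], [0, 2]), (0, [1], [4, 6]), (1, [], [3, 6]), (3, [], [5])]),
  (2, 7, [(0, [0], [0, 1]), (0, [0], [2, 3]), (1, [], [4, 1]), (3, [], [5]), (0, [1], [0, 4]), (0, [1], [2, 6]), (1, [], [3, 6]), (3, [], [5])]),
  (2, 7, [(0, [0], [0, 1]), (0, [0], [2, 3]), (1, [], [4, 1]), (3, [], [5]), (0, [1], [2, 3]), (0, [1], [4, 6]), (1, [], [0, 6]), (3, [], [5])]),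
  (3, 7, [(0, [0], [0, 1]), (0, [0], [0, 2]), (0, [1], [1, 2]), (3, [], [3]), (0, [2], [4, 5]), (0, [2], [4, 6]), (0, [1], [5, 6]), (3, [], [3])]),
  (3, 7, [(0, [0], [0, 1]), (0, [0], [0, 2]), (0, [1], [1, 2]), (3, [], [3]), (0, [2], [4, 5]), (0, [2], [4, 5]), (0, [1], [3, 6]), (3, [], [6])]),
  (3, 7, [(0, [0], [0, 1]), (0, [0], [0, 2]), (0, [1], [1, 2]), (3, [], [3]), (0, [2], [4, 5]), (0, [2], [4, 6]), (0, [1], [3, 5]), (3, [], [6])]),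
  (3, 7, [(0, [0], [0, 1]), (0, [0], [0, 2]), (0, [1], [1, 2]), (3, [], [3]), (0, [2], [4, 5]), (0, [2], [3, 6]), (0, [1], [4, 5]), (3, [], [6])]),
  (3, 7, [(0, [0], [0, 1]), (0, [0], [0, 2]), (0, [1], [1, 2]), (3, [], [3]), (0, [2], [4, 5]), (0, [2], [3, 6]), (0, [1], [4, 6]), (3, [], [5])]),
  (3, 7, [(0, [0], [0, 1]), (0, [0], [0, 1]), (0, [1], [2, 3]), (3, [], [3]), (0, [2], [4, 5]), (0, [2], [2, 4]), (0, [1], [5, 6]), (3, [], [6])]),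
  (3, 7, [(0, [0], [0, 1]), (0, [0], [0, 1]), (0, [1], [2, 3]), (3, [], [3]), (0, [2], [4, 5]), (0, [2], [2, 6]), (0, [1], [4, 5]), (3, [], [6])]),
  (3, 7, [(0, [0], [0, 1]), (0, [0], [0, 2]), (0, [1], [3, 1]), (3, [], [2]), (0, [2], [4, 5]), (0, [2], [4, 6]), (0, [1], [3, 5]), (3, [], [6])]),
  (3, 7, [(0, [0], [0, 1]), (0, [0], [0, 2]), (0, [1], [3, 1]), (3, [], [2]), (0, [2], [4, 5]), (0, [2], [3, 4]), (0, [1], [5, 6]), (3, [], [6])]),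
  (3, 7, [(0, [0], [0, 1]), (0, [0], [0, 2]), (0, [1], [3, 1]), (3, [], [2]), (0, [2], [4, 5]), (0, [2], [3, 6]), (0, [1], [4, 6]), (3, [], [5])]),
  (3, 7, [(0, [0], [0, 1]), (0, [0], [2, 0]), (0, [1], [1, 3]), (3, [], [3]), (0, [2], [4, 5]), (0, [2], [2, 4]), (0, [1], [5, 6]), (3, [], [6])]),
  (3, 7, [(0, [0], [0, 1]), (0, [0], [2, 0]), (0, [1], [1, 3]), (3, [], [3]), (0, [2], [4, 5]), (0, [2], [2, 6]), (0, [1], [4, 5]), (3, [], [6])]),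
  (3, 7, [(0, [0], [0, 1]), (0, [0], [2, 0]), (0, [1], [1, 3]), (3, [], [3]), (0, [2], [4, 5]), (0, [2], [2, 6]), (0, [1], [4, 6]), (3, [], [5])]),
  (3, 7, [(0, [0], [0, 1]), (0, [0], [2, 3]), (0, [1], [0, 1]), (3, [], [3]), (0, [2], [4, 5]), (0, [2], [2, 6]), (0, [1], [4, 5]), (3, [], [6])]),
  (3, 7, [(0, [0], [0, 1]), (0, [0], [2, 3]), (0, [1], [0, 3]), (3, [], [1]), (0, [2], [4, 5]), (0, [2], [2, 6]), (0, [1], [4, 6]), (3, [], [5])]),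
  (1, 7, [(0, [0], [0, 1]), (1, [], [0, 2]), (1, [], [1, 2]), (3, [], [3]), (0, [0], [4, 5]), (1, [], [4, 6]), (1, [], [5, 6]), (3, [], [3])]),
  (1, 7, [(0, [0], [0, 1]), (1, [], [0, 2]), (1, [], [1, 2]), (3, [], [3]), (0, [0], [4, 5]), (1, [], [4, 5]), (1, [], [3, 6]), (3, [], [6])]),
  (1, 7, [(0, [0], [0, 1]), (1, [], [0, 2]), (1, [], [1, 2]), (3, [], [3]), (0, [0], [4, 5]), (1, [], [4, 6]), (1, [], [3, 5]), (3, [], [6])]),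
  (1, 7, [(0, [0], [0, 1]), (1, [], [0, 2]), (1, [], [1, 2]), (3, [], [3]), (0, [0], [4, 5]), (1, [], [4, 6]), (1, [], [3, 6]), (3, [], [5])]),
  (1, 6, [(0, [0], [0, 1]), (1, [], [0, 2]), (1, [], [1, 2]), (3, [], [3]), (0, [0], [4, 5]), (1, [], [4, 5]), (3, [], [3])]),
  (1, 6, [(0, [0], [0, 1]), (1, [], [0, 2]), (1, [], [1, 2]), (3, [], [3]), (0, [0], [4, 5]), (1, [], [3, 4]), (3, [], [5])]),
  (1, 7, [(0, [0], [0, 1]), (1, [], [0, 2]), (1, [], [1, 2]), (3, [], [3]), (0, [0], [3, 4]), (1, [], [5, 6]), (1, [], [5, 6]), (3, [], [4])]),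
  (1, 5, [(0, [0], [0, 1]), (1, [], [0, 2]), (1, [], [1, 2]), (3, [], [3]), (0, [0], [3, 4]), (3, [], [4])]),
  (1, 6, [(0, [0], [0, 1]), (1, [], [0, 2]), (1, [], [1, 2]), (3, [], [3]), (2, [0], [3, 4, 5]), (1, [], [4, 5])]),
  (1, 7, [(0, [0], [0, 1]), (1, [], [0, 1]), (1, [], [2, 3]), (3, [], [3]), (0, [0], [4, 5]), (1, [], [4, 5]), (1, [], [2, 6]), (3, [], [6])]),
  (1, 7, [(0, [0], [0, 1]), (1, [], [0, 1]), (1, [], [2, 3]), (3, [], [3]), (0, [0], [4, 5]), (1, [], [4, 6]), (1, [], [2, 5]), (3, [], [6])]),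
  (1, 7, [(0, [0], [0, 1]), (1, [], [0, 1]), (1, [], [2, 3]), (3, [], [3]), (0, [0], [4, 5]), (1, [], [4, 6]), (1, [], [2, 6]), (3, [], [5])]),
  (1, 6, [(0, [0], [0, 1]), (1, [], [0, 1]), (1, [], [2, 3]), (3, [], [3]), (0, [0], [4, 5]), (1, [], [4, 5]), (3, [], [2])]),
  (1, 6, [(0, [0], [0, 1]), (1, [], [0, 1]), (1, [], [2, 3]), (3, [], [3]), (0, [0], [4, 5]), (1, [], [2, 4]), (3, [], [5])]),
  (1, 7, [(0, [0], [0, 1]), (1, [], [0, 1]), (1, [], [2, 3]), (3, [], [3]), (0, [0], [2, 4]), (1, [], [5, 6]), (1, [], [5, 6]), (3, [], [4])]),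
  (1, 6, [(0, [0], [0, 1]), (1, [], [0, 1]), (1, [], [2, 3]), (3, [], [3]), (0, [0], [2, 4]), (1, [], [4, 5]), (3, [], [5])]),
  (1, 6, [(0, [0], [0, 1]), (1, [], [0, 1]), (1, [], [2, 3]), (3, [], [3]), (2, [0], [2, 4, 5]), (1, [], [4, 5])]),
  (1, 7, [(0, [0], [0, 1]), (1, [], [0, 2]), (1, [], [3, 1]), (3, [], [2]), (0, [0], [4, 5]), (1, [], [4, 6]), (1, [], [3, 5]), (3, [], [6])]),
  (1, 7, [(0, [0], [0, 1]), (1, [], [0, 2]), (1, [], [3, 1]), (3, [], [2]), (0, [0], [4, 5]), (1, [], [4, 6]), (1, [], [3, 6]), (3, [], [5])]),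
  (1, 6, [(0, [0], [0, 1]), (1, [], [0, 2]), (1, [], [3, 1]), (3, [], [2]), (0, [0], [4, 5]), (1, [], [3, 4]), (3, [], [5])]),
  (1, 7, [(0, [0], [0, 1]), (1, [], [0, 2]), (1, [], [3, 1]), (3, [], [2]), (0, [0], [3, 4]), (1, [], [4, 5]), (1, [], [5, 6]), (3, [], [6])]),
  (1, 7, [(0, [0], [0, 1]), (1, [], [0, 2]), (1, [], [3, 1]), (3, [], [2]), (0, [0], [3, 4]), (1, [], [5, 6]), (1, [], [5, 6]), (3, [], [4])]),
  (1, 6, [(0, [0], [0, 1]), (1, [], [0, 2]), (1, [], [3, 1]), (3, [], [2]), (0, [0], [3, 4]), (1, [], [4, 5]), (3, [], [5])]),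
  (1, 5, [(0, [0], [0, 1]), (1, [], [0, 2]), (1, [], [3, 1]), (3, [], [2]), (0, [0], [3, 4]), (3, [], [4])]),
  (1, 6, [(0, [0], [0, 1]), (1, [], [0, 2]), (1, [], [3, 1]), (3, [], [2]), (2, [0], [3, 4, 5]), (1, [], [4, 5])]),
  (1, 7, [(0, [0], [0, 1]), (1, [], [0, 2]), (1, [], [3, 2]), (3, [], [1]), (0, [0], [4, 5]), (1, [], [4, 6]), (1, [], [3, 6]), (3, [], [5])]),
  (1, 6, [(0, [0], [0, 1]), (1, [], [0, 2]), (1, [], [3, 2]), (3, [], [1]), (0, [0], [4, 5]), (1, [], [3, 4]), (3, [], [5])]),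
  (1, 7, [(0, [0], [0, 1]), (1, [], [0, 2]), (1, [], [3, 2]), (3, [], [1]), (0, [0], [3, 4]), (1, [], [4, 5]), (1, [], [5, 6]), (3, [], [6])]),
  (1, 7, [(0, [0], [0, 1]), (1, [], [0, 2]), (1, [], [3, 2]), (3, [], [1]), (0, [0], [3, 4]), (1, [], [5, 6]), (1, [], [5, 6]), (3, [], [4])]),
  (1, 5, [(0, [0], [0, 1]), (1, [], [0, 2]), (1, [], [3, 2]), (3, [], [1]), (0, [0], [3, 4]), (3, [], [4])]),
  (1, 6, [(0, [0], [0, 1]), (1, [], [0, 2]), (1, [], [3, 2]), (3, [], [1]), (2, [0], [3, 4, 5]), (1, [], [4, 5])]),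
  (1, 5, [(0, [0], [0, 1]), (1, [], [0, 1]), (3, [], [2]), (0, [0], [3, 4]), (1, [], [3, 4]), (3, [], [2])]),
  (1, 6, [(0, [0], [0, 1]), (1, [], [0, 1]), (3, [], [2]), (0, [0], [2, 3]), (1, [], [4, 5]), (1, [], [4, 5]), (3, [], [3])]),
  (1, 5, [(0, [0], [0, 1]), (1, [], [0, 1]), (3, [], [2]), (2, [0], [2, 3, 4]), (1, [], [3, 4])]),
  (1, 6, [(0, [0], [0, 1]), (1, [], [2, 0]), (3, [], [1]), (0, [0], [2, 3]), (1, [], [3, 4]), (1, [], [4, 5]), (3, [], [5])]),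
  (1, 6, [(0, [0], [0, 1]), (1, [], [2, 0]), (3, [], [1]), (0, [0], [2, 3]), (1, [], [4, 5]), (1, [], [4, 5]), (3, [], [3])]),
  (1, 5, [(0, [0], [0, 1]), (1, [], [2, 0]), (3, [], [1]), (2, [0], [2, 3, 4]), (1, [], [3, 4])]),
  (1, 7, [(0, [0], [0, 1]), (1, [], [1, 2]), (1, [], [2, 3]), (3, [], [3]), (0, [0], [0, 4]), (1, [], [4, 5]), (1, [], [5, 6]), (3, [], [6])]),
  (1, 7, [(0, [0], [0, 1]), (1, [], [1, 2]), (1, [], [2, 3]), (3, [], [3]), (0, [0], [0, 4]), (1, [], [5, 6]), (1, [], [5, 6]), (3, [], [4])]),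
  (1, 6, [(0, [0], [0, 1]), (1, [], [1, 2]), (1, [], [2, 3]), (3, [], [3]), (0, [0], [0, 4]), (1, [], [4, 5]), (3, [], [5])]),
  (1, 5, [(0, [0], [0, 1]), (1, [], [1, 2]), (1, [], [2, 3]), (3, [], [3]), (0, [0], [0, 4]), (3, [], [4])]),
  (1, 6, [(0, [0], [0, 1]), (1, [], [1, 2]), (1, [], [2, 3]), (3, [], [3]), (2, [0], [0, 4, 5]), (1, [], [4, 5])]),
  (1, 7, [(0, [0], [0, 1]), (1, [], [2, 3]), (1, [], [2, 3]), (3, [], [1]), (0, [0], [0, 4]), (1, [], [5, 6]), (1, [], [5, 6]), (3, [], [4])]),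
  (1, 6, [(0, [0], [0, 1]), (1, [], [2, 3]), (1, [], [2, 3]), (3, [], [1]), (0, [0], [0, 4]), (1, [], [4, 5]), (3, [], [5])]),
  (1, 5, [(0, [0], [0, 1]), (1, [], [2, 3]), (1, [], [2, 3]), (3, [], [1]), (0, [0], [0, 4]), (3, [], [4])]),
  (1, 6, [(0, [0], [0, 1]), (1, [], [2, 3]), (1, [], [2, 3]), (3, [], [1]), (2, [0], [0, 4, 5]), (1, [], [4, 5])]),
  (1, 5, [(0, [0], [0, 1]), (1, [], [1, 2]), (3, [], [2]), (0, [0], [0, 3]), (1, [], [3, 4]), (3, [], [4])]),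
  (1, 5, [(0, [0], [0, 1]), (1, [], [1, 2]), (3, [], [2]), (2, [0], [0, 3, 4]), (1, [], [3, 4])]),
  (1, 5, [(2, [0], [0, 1, 2]), (1, [], [1, 2]), (2, [0], [0, 3, 4]), (1, [], [3, 4])]),
  (2, 5, [(2, [0], [0, 1, 2]), (0, [1], [0, 3]), (0, [1], [1, 3]), (0, [0], [2, 4]), (3, [], [4])]),
  (1, 5, [(2, [0], [0, 1, 2]), (0, [0], [3, 4]), (1, [], [0, 3]), (1, [], [1, 4]), (3, [], [2])]),
  (1, 5, [(2, [0], [0, 1, 2]), (0, [0], [0, 3]), (1, [], [1, 4]), (1, [], [2, 4]), (3, [], [3])]),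
  (1, 5, [(2, [0], [0, 1, 2]), (0, [0], [0, 1]), (1, [], [3, 4]), (1, [], [3, 4]), (3, [], [2])]),
  (1, 5, [(2, [0], [0, 1, 2]), (0, [0], [0, 1]), (1, [], [3, 4]), (1, [], [2, 3]), (3, [], [4])]),
  (1, 4, [(2, [0], [0, 1, 2]), (2, [0], [0, 1, 3]), (1, [], [2, 3])]),
  (2, 5, [(2, [0], [0, 1, 2]), (0, [1], [3, 4]), (0, [1], [0, 3]), (0, [0], [1, 4]), (3, [], [2])]),
  (2, 5, [(2, [0], [0, 1, 2]), (0, [1], [0, 3]), (0, [1], [1, 4]), (0, [0], [2, 3]), (3, [], [4])]),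
  (1, 5, [(2, [0], [0, 1, 2]), (0, [0], [0, 3]), (1, [], [3, 4]), (1, [], [1, 4]), (3, [], [2])]),
  (1, 5, [(2, [0], [0, 1, 2]), (0, [0], [0, 3]), (1, [], [1, 3]), (1, [], [2, 4]), (3, [], [4])]),
  (1, 4, [(2, [0], [0, 1, 2]), (0, [0], [0, 3]), (1, [], [1, 3]), (3, [], [2])]),
  (3, 7, [(0, [0], [0, 1]), (0, [0], [0, 1]), (0, [1], [2, 3]), (3, [], [4]), (0, [2], [5, 6]), (0, [2], [5, 6]), (0, [1], [2, 3]), (3, [], [4])]),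
  (3, 7, [(0, [0], [0, 1]), (0, [0], [0, 1]), (0, [1], [2, 3]), (3, [], [4]), (0, [2], [2, 5]), (0, [2], [3, 6]), (0, [1], [5, 6]), (3, [], [4])]),
  (2, 7, [(0, [0], [0, 1]), (0, [0], [0, 1]), (0, [1], [2, 3]), (3, [], [4]), (0, [1], [5, 6]), (1, [], [5, 6]), (1, [], [2, 3]), (3, [], [4])]),
  (2, 6, [(0, [0], [0, 1]), (0, [0], [0, 1]), (0, [1], [2, 3]), (3, [], [4]), (2, [1], [2, 4, 5]), (1, [], [3, 5])]),
  (3, 7, [(0, [0], [0, 1]), (0, [0], [0, 1]), (0, [1], [2, 3]), (3, [], [4]), (0, [2], [5, 6]), (0, [2], [2, 5]), (0, [1], [3, 6]), (3, [], [4])]),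
  (3, 7, [(0, [0], [0, 1]), (0, [0], [2, 0]), (0, [1], [3, 4]), (3, [], [1]), (0, [2], [3, 5]), (0, [2], [4, 6]), (0, [1], [5, 6]), (3, [], [2])]),
  (2, 7, [(0, [0], [0, 1]), (0, [0], [2, 0]), (0, [1], [3, 4]), (3, [], [1]), (0, [1], [5, 6]), (1, [], [5, 6]), (1, [], [3, 4]), (3, [], [2])]),
  (2, 6, [(0, [0], [0, 1]), (0, [0], [2, 0]), (0, [1], [3, 4]), (3, [], [1]), (2, [1], [2, 3, 5]), (1, [], [4, 5])]),
  (3, 7, [(0, [0], [0, 1]), (0, [0], [2, 0]), (0, [1], [3, 4]), (3, [], [1]), (0, [2], [5, 6]), (0, [2], [3, 5]), (0, [1], [4, 6]), (3, [], [2])]),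
  (3, 7, [(0, [0], [0, 1]), (0, [0], [2, 3]), (0, [1], [4, 0]), (3, [], [1]), (0, [2], [5, 6]), (0, [2], [2, 4]), (0, [1], [3, 5]), (3, [], [6])]),
  (3, 7, [(0, [0], [0, 1]), (0, [0], [2, 3]), (0, [1], [4, 0]), (3, [], [1]), (0, [2], [2, 5]), (0, [2], [3, 6]), (0, [1], [5, 6]), (3, [], [4])]),
  (3, 7, [(0, [0], [0, 1]), (0, [0], [2, 3]), (0, [1], [4, 0]), (3, [], [1]), (0, [2], [2, 5]), (0, [2], [4, 6]), (0, [1], [5, 6]), (3, [], [3])]),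
  (3, 7, [(0, [0], [0, 1]), (0, [0], [2, 3]), (0, [1], [4, 0]), (3, [], [1]), (0, [2], [2, 5]), (0, [2], [4, 5]), (0, [1], [3, 6]), (3, [], [6])]),
  (3, 7, [(0, [0], [0, 1]), (0, [0], [2, 3]), (0, [1], [4, 0]), (3, [], [1]), (0, [2], [2, 5]), (0, [2], [3, 4]), (0, [1], [5, 6]), (3, [], [6])]),
  (2, 6, [(0, [0], [0, 1]), (0, [0], [2, 3]), (0, [1], [4, 0]), (3, [], [1]), (2, [1], [2, 4, 5]), (1, [], [3, 5])]),
  (3, 7, [(0, [0], [0, 1]), (0, [0], [2, 3]), (0, [1], [4, 0]), (3, [], [1]), (0, [2], [5, 6]), (0, [2], [2, 5]), (0, [1], [3, 6]), (3, [], [4])]),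
  (3, 7, [(0, [0], [0, 1]), (0, [0], [2, 3]), (0, [1], [4, 0]), (3, [], [1]), (0, [2], [5, 6]), (0, [2], [4, 5]), (0, [1], [2, 6]), (3, [], [3])]),
  (3, 7, [(0, [0], [0, 1]), (0, [0], [2, 3]), (0, [1], [4, 0]), (3, [], [1]), (0, [2], [2, 5]), (0, [2], [4, 6]), (0, [1], [3, 5]), (3, [], [6])]),
  (3, 7, [(0, [0], [0, 1]), (0, [0], [2, 3]), (0, [1], [1, 3]), (3, [], [4]), (0, [2], [0, 5]), (0, [2], [2, 6]), (0, [1], [5, 6]), (3, [], [4])]),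
  (3, 7, [(0, [0], [0, 1]), (0, [0], [2, 3]), (0, [1], [1, 3]), (3, [], [4]), (0, [2], [0, 5]), (0, [2], [2, 5]), (0, [1], [4, 6]), (3, [], [6])]),
  (2, 7, [(0, [0], [0, 1]), (0, [0], [2, 3]), (0, [1], [1, 3]), (3, [], [4]), (0, [1], [5, 6]), (1, [], [5, 6]), (1, [], [0, 2]), (3, [], [4])]),
  (2, 7, [(0, [0], [0, 1]), (0, [0], [2, 3]), (0, [1], [1, 3]), (3, [], [4]), (0, [1], [0, 2]), (1, [], [5, 6]), (1, [], [5, 6]), (3, [], [4])]),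
  (3, 7, [(0, [0], [0, 1]), (0, [0], [2, 3]), (0, [1], [1, 3]), (3, [], [4]), (0, [2], [5, 6]), (0, [2], [0, 5]), (0, [1], [2, 6]), (3, [], [4])]),
  (3, 7, [(0, [0], [0, 1]), (0, [0], [2, 3]), (0, [1], [1, 3]), (3, [], [4]), (0, [2], [0, 5]), (0, [2], [4, 6]), (0, [1], [2, 5]), (3, [], [6])]),
  (2, 6, [(0, [0], [0, 1]), (0, [0], [2, 1]), (0, [1], [3, 4]), (3, [], [4]), (2, [1], [0, 3, 5]), (1, [], [2, 5])]),
  (3, 7, [(0, [0], [0, 1]), (0, [0], [2, 1]), (0, [1], [3, 4]), (3, [], [4]), (0, [2], [5, 6]), (0, [2], [0, 5]), (0, [1], [2, 6]), (3, [], [3])]),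
  (3, 7, [(0, [0], [0, 1]), (0, [0], [2, 3]), (0, [1], [1, 4]), (3, [], [4]), (0, [2], [0, 5]), (0, [2], [2, 3]), (0, [1], [5, 6]), (3, [], [6])]),
  (1, 7, [(0, [0], [0, 1]), (1, [], [0, 1]), (1, [], [2, 3]), (3, [], [4]), (0, [0], [5, 6]), (1, [], [5, 6]), (1, [], [2, 3]), (3, [], [4])]),
  (1, 7, [(0, [0], [0, 1]), (1, [], [0, 1]), (1, [], [2, 3]), (3, [], [4]), (0, [0], [5, 6]), (1, [], [2, 5]), (1, [], [3, 6]), (3, [], [4])]),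
  (1, 7, [(0, [0], [0, 1]), (1, [], [0, 1]), (1, [], [2, 3]), (3, [], [4]), (0, [0], [4, 5]), (1, [], [2, 6]), (1, [], [3, 6]), (3, [], [5])]),
  (1, 6, [(0, [0], [0, 1]), (1, [], [0, 1]), (1, [], [2, 3]), (3, [], [4]), (2, [0], [2, 4, 5]), (1, [], [3, 5])]),
  (1, 7, [(0, [0], [0, 1]), (1, [], [2, 0]), (1, [], [3, 1]), (3, [], [4]), (0, [0], [5, 6]), (1, [], [2, 5]), (1, [], [3, 6]), (3, [], [4])]),
  (1, 7, [(0, [0], [0, 1]), (1, [], [2, 0]), (1, [], [3, 1]), (3, [], [4]), (0, [0], [5, 6]), (1, [], [2, 3]), (1, [], [4, 5]), (3, [], [6])]),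
  (1, 7, [(0, [0], [0, 1]), (1, [], [2, 0]), (1, [], [3, 1]), (3, [], [4]), (0, [0], [2, 5]), (1, [], [3, 6]), (1, [], [4, 6]), (3, [], [5])]),
  (1, 7, [(0, [0], [0, 1]), (1, [], [2, 0]), (1, [], [3, 1]), (3, [], [4]), (0, [0], [4, 5]), (1, [], [2, 6]), (1, [], [3, 6]), (3, [], [5])]),
  (1, 6, [(0, [0], [0, 1]), (1, [], [2, 0]), (1, [], [3, 1]), (3, [], [4]), (0, [0], [4, 5]), (1, [], [2, 3]), (3, [], [5])]),
  (1, 7, [(0, [0], [0, 1]), (1, [], [2, 0]), (1, [], [3, 1]), (3, [], [4]), (0, [0], [2, 3]), (1, [], [5, 6]), (1, [], [5, 6]), (3, [], [4])]),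
  (1, 7, [(0, [0], [0, 1]), (1, [], [2, 0]), (1, [], [3, 1]), (3, [], [4]), (0, [0], [2, 3]), (1, [], [5, 6]), (1, [], [4, 5]), (3, [], [6])]),
  (1, 6, [(0, [0], [0, 1]), (1, [], [2, 0]), (1, [], [3, 1]), (3, [], [4]), (0, [0], [2, 3]), (1, [], [4, 5]), (3, [], [5])]),
  (1, 5, [(0, [0], [0, 1]), (1, [], [2, 0]), (1, [], [3, 1]), (3, [], [4]), (0, [0], [2, 3]), (3, [], [4])]),
  (1, 6, [(0, [0], [0, 1]), (1, [], [2, 0]), (1, [], [3, 1]), (3, [], [4]), (2, [0], [2, 3, 5]), (1, [], [4, 5])]),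
  (1, 6, [(0, [0], [0, 1]), (1, [], [2, 0]), (1, [], [3, 1]), (3, [], [4]), (2, [0], [2, 4, 5]), (1, [], [3, 5])]),
  (1, 7, [(0, [0], [0, 1]), (1, [], [2, 0]), (1, [], [3, 1]), (3, [], [4]), (0, [0], [2, 5]), (1, [], [5, 6]), (1, [], [3, 6]), (3, [], [4])]),
  (1, 7, [(0, [0], [0, 1]), (1, [], [2, 0]), (1, [], [3, 1]), (3, [], [4]), (0, [0], [2, 5]), (1, [], [3, 5]), (1, [], [4, 6]), (3, [], [6])]),
  (1, 6, [(0, [0], [0, 1]), (1, [], [2, 0]), (1, [], [3, 1]), (3, [], [4]), (0, [0], [2, 5]), (1, [], [3, 5]), (3, [], [4])]),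
  (1, 7, [(0, [0], [0, 1]), (1, [], [2, 0]), (1, [], [3, 4]), (3, [], [1]), (0, [0], [2, 5]), (1, [], [3, 6]), (1, [], [4, 6]), (3, [], [5])]),
  (1, 6, [(0, [0], [0, 1]), (1, [], [2, 0]), (1, [], [3, 4]), (3, [], [1]), (2, [0], [2, 3, 5]), (1, [], [4, 5])]),
  (1, 7, [(0, [0], [0, 1]), (1, [], [1, 2]), (1, [], [3, 4]), (3, [], [2]), (0, [0], [0, 5]), (1, [], [5, 6]), (1, [], [3, 4]), (3, [], [6])]),
  (1, 7, [(0, [0], [0, 1]), (1, [], [1, 2]), (1, [], [3, 4]), (3, [], [2]), (0, [0], [0, 5]), (1, [], [3, 6]), (1, [], [4, 6]), (3, [], [5])]),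
  (1, 7, [(0, [0], [0, 1]), (1, [], [1, 2]), (1, [], [3, 4]), (3, [], [2]), (0, [0], [0, 3]), (1, [], [5, 6]), (1, [], [4, 5]), (3, [], [6])]),
  (1, 6, [(0, [0], [0, 1]), (1, [], [1, 2]), (1, [], [3, 4]), (3, [], [2]), (2, [0], [0, 3, 5]), (1, [], [4, 5])]),
  (1, 7, [(0, [0], [0, 1]), (1, [], [2, 3]), (1, [], [4, 3]), (3, [], [1]), (0, [0], [0, 5]), (1, [], [2, 6]), (1, [], [4, 6]), (3, [], [5])]),
  (1, 6, [(0, [0], [0, 1]), (1, [], [2, 3]), (1, [], [4, 3]), (3, [], [1]), (0, [0], [0, 5]), (1, [], [2, 4]), (3, [], [5])]),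
  (1, 7, [(0, [0], [0, 1]), (1, [], [2, 3]), (1, [], [4, 3]), (3, [], [1]), (0, [0], [0, 2]), (1, [], [5, 6]), (1, [], [4, 5]), (3, [], [6])]),
  (1, 6, [(0, [0], [0, 1]), (1, [], [2, 3]), (1, [], [4, 3]), (3, [], [1]), (0, [0], [0, 2]), (1, [], [4, 5]), (3, [], [5])]),
  (1, 6, [(0, [0], [0, 1]), (1, [], [2, 3]), (1, [], [4, 3]), (3, [], [1]), (2, [0], [0, 2, 5]), (1, [], [4, 5])]),
  (1, 7, [(0, [0], [0, 1]), (1, [], [2, 3]), (1, [], [2, 3]), (3, [], [4]), (0, [0], [0, 1]), (1, [], [5, 6]), (1, [], [5, 6]), (3, [], [4])]),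
  (1, 7, [(0, [0], [0, 1]), (1, [], [2, 3]), (1, [], [2, 3]), (3, [], [4]), (0, [0], [0, 1]), (1, [], [5, 6]), (1, [], [4, 5]), (3, [], [6])]),
  (1, 6, [(0, [0], [0, 1]), (1, [], [2, 3]), (1, [], [2, 3]), (3, [], [4]), (0, [0], [0, 1]), (1, [], [4, 5]), (3, [], [5])]),
  (1, 5, [(0, [0], [0, 1]), (1, [], [2, 3]), (1, [], [2, 3]), (3, [], [4]), (0, [0], [0, 1]), (3, [], [4])]),
  (1, 6, [(0, [0], [0, 1]), (1, [], [2, 3]), (1, [], [2, 3]), (3, [], [4]), (2, [0], [0, 1, 5]), (1, [], [4, 5])]),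
  (1, 6, [(0, [0], [0, 1]), (1, [], [2, 3]), (1, [], [2, 3]), (3, [], [4]), (2, [0], [0, 4, 5]), (1, [], [1, 5])]),
  (1, 7, [(0, [0], [0, 1]), (1, [], [2, 3]), (1, [], [2, 3]), (3, [], [4]), (0, [0], [0, 5]), (1, [], [5, 6]), (1, [], [1, 6]), (3, [], [4])]),
  (1, 7, [(0, [0], [0, 1]), (1, [], [2, 3]), (1, [], [2, 3]), (3, [], [4]), (0, [0], [0, 5]), (1, [], [1, 5]), (1, [], [4, 6]), (3, [], [6])]),
  (1, 6, [(0, [0], [0, 1]), (1, [], [2, 3]), (1, [], [2, 3]), (3, [], [4]), (0, [0], [0, 5]), (1, [], [1, 5]), (3, [], [4])]),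
  (1, 7, [(0, [0], [0, 1]), (1, [], [2, 3]), (1, [], [4, 2]), (3, [], [3]), (0, [0], [0, 1]), (1, [], [5, 6]), (1, [], [4, 5]), (3, [], [6])]),
  (1, 6, [(0, [0], [0, 1]), (1, [], [2, 3]), (1, [], [4, 2]), (3, [], [3]), (0, [0], [0, 1]), (1, [], [4, 5]), (3, [], [5])]),
  (1, 6, [(0, [0], [0, 1]), (1, [], [2, 3]), (1, [], [4, 2]), (3, [], [3]), (2, [0], [0, 1, 5]), (1, [], [4, 5])]),
  (1, 6, [(0, [0], [0, 1]), (1, [], [2, 3]), (1, [], [4, 2]), (3, [], [3]), (2, [0], [0, 4, 5]), (1, [], [1, 5])]),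
  (1, 7, [(0, [0], [0, 1]), (1, [], [2, 3]), (1, [], [4, 2]), (3, [], [3]), (0, [0], [0, 5]), (1, [], [5, 6]), (1, [], [1, 6]), (3, [], [4])]),
  (1, 7, [(0, [0], [0, 1]), (1, [], [2, 3]), (1, [], [4, 2]), (3, [], [3]), (0, [0], [0, 5]), (1, [], [1, 5]), (1, [], [4, 6]), (3, [], [6])]),
  (1, 6, [(0, [0], [0, 1]), (1, [], [2, 3]), (1, [], [4, 2]), (3, [], [3]), (0, [0], [0, 5]), (1, [], [1, 5]), (3, [], [4])]),
  (1, 6, [(0, [0], [0, 1]), (1, [], [2, 3]), (3, [], [3]), (0, [0], [0, 4]), (1, [], [4, 5]), (1, [], [1, 5]), (3, [], [2])]),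
  (1, 5, [(0, [0], [0, 1]), (1, [], [2, 3]), (3, [], [3]), (0, [0], [0, 4]), (1, [], [1, 4]), (3, [], [2])]),
  (1, 5, [(0, [0], [0, 1]), (3, [], [2]), (0, [0], [0, 3]), (1, [], [3, 4]), (1, [], [1, 4]), (3, [], [2])]),
  (1, 4, [(0, [0], [0, 1]), (3, [], [2]), (0, [0], [0, 3]), (1, [], [1, 3]), (3, [], [2])]),
  (1, 5, [(2, [0], [0, 1, 2]), (1, [], [3, 2]), (2, [0], [0, 1, 4]), (1, [], [3, 4])]),
  (1, 5, [(2, [0], [0, 1, 2]), (1, [], [3, 2]), (2, [0], [0, 3, 4]), (1, [], [1, 4])]),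
  (2, 6, [(2, [0], [0, 1, 2]), (1, [], [3, 2]), (0, [1], [4, 5]), (0, [1], [0, 4]), (0, [0], [1, 5]), (3, [], [3])]),
  (2, 6, [(2, [0], [0, 1, 2]), (1, [], [3, 2]), (0, [1], [4, 5]), (0, [1], [3, 4]), (0, [0], [0, 5]), (3, [], [1])]),
  (2, 6, [(2, [0], [0, 1, 2]), (1, [], [3, 2]), (0, [1], [0, 4]), (0, [1], [3, 5]), (0, [0], [1, 4]), (3, [], [5])]),
  (2, 6, [(2, [0], [0, 1, 2]), (1, [], [3, 2]), (0, [1], [0, 4]), (0, [1], [3, 5]), (0, [0], [1, 5]), (3, [], [4])]),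
  (1, 6, [(2, [0], [0, 1, 2]), (1, [], [3, 2]), (0, [0], [0, 4]), (1, [], [4, 5]), (1, [], [1, 5]), (3, [], [3])]),
  (1, 6, [(2, [0], [0, 1, 2]), (1, [], [3, 2]), (0, [0], [0, 4]), (1, [], [4, 5]), (1, [], [3, 5]), (3, [], [1])]),
  (3, 7, [(0, [0], [0, 1]), (0, [0], [2, 0]), (0, [1], [3, 1]), (3, [], [4]), (0, [2], [5, 6]), (0, [2], [2, 5]), (0, [1], [3, 6]), (3, [], [4])]),
  (3, 7, [(0, [0], [0, 1]), (0, [0], [2, 0]), (0, [1], [3, 1]), (3, [], [4]), (0, [2], [5, 6]), (0, [2], [3, 5]), (0, [1], [2, 6]), (3, [], [4])]),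
  (1, 7, [(0, [0], [0, 1]), (1, [], [1, 2]), (1, [], [3, 2]), (3, [], [4]), (0, [0], [0, 5]), (1, [], [5, 6]), (1, [], [3, 6]), (3, [], [4])]),
  (1, 7, [(0, [0], [0, 1]), (1, [], [1, 2]), (1, [], [3, 2]), (3, [], [4]), (0, [0], [0, 5]), (1, [], [3, 5]), (1, [], [4, 6]), (3, [], [6])]),
  (1, 6, [(0, [0], [0, 1]), (1, [], [1, 2]), (1, [], [3, 2]), (3, [], [4]), (0, [0], [0, 5]), (1, [], [3, 5]), (3, [], [4])]),
  (1, 5, [(2, [0], [0, 1, 2]), (1, [], [3, 4]), (2, [0], [0, 1, 2]), (1, [], [3, 4])]),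
  (2, 6, [(2, [0], [0, 1, 2]), (1, [], [3, 4]), (0, [1], [0, 5]), (0, [1], [1, 5]), (0, [0], [2, 3]), (3, [], [4])]),
  (2, 6, [(2, [0], [0, 1, 2]), (1, [], [3, 4]), (0, [1], [1, 5]), (0, [1], [3, 5]), (0, [0], [2, 4]), (3, [], [0])]),
  (2, 6, [(2, [0], [0, 1, 2]), (1, [], [3, 4]), (0, [1], [0, 5]), (0, [1], [1, 3]), (0, [0], [2, 4]), (3, [], [5])]),
  (2, 6, [(2, [0], [0, 1, 2]), (1, [], [3, 4]), (0, [1], [0, 5]), (0, [1], [1, 3]), (0, [0], [2, 5]), (3, [], [4])]),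
  (2, 6, [(2, [0], [0, 1, 2]), (1, [], [3, 4]), (0, [1], [1, 5]), (0, [1], [3, 4]), (0, [0], [2, 5]), (3, [], [0])]),
  (2, 6, [(2, [0], [0, 1, 2]), (1, [], [3, 4]), (0, [1], [1, 3]), (0, [1], [4, 5]), (0, [0], [2, 5]), (3, [], [0])]),
  (3, 7, [(0, [0], [0, 1]), (0, [0], [2, 1]), (0, [1], [3, 4]), (3, [], [5]), (0, [2], [0, 6]), (0, [2], [3, 4]), (0, [1], [2, 6]), (3, [], [5])]),
  (3, 7, [(0, [0], [0, 1]), (0, [0], [2, 3]), (0, [1], [4, 5]), (3, [], [1]), (0, [2], [2, 6]), (0, [2], [4, 5]), (0, [1], [3, 6]), (3, [], [0])]),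
  (3, 7, [(0, [0], [0, 1]), (0, [0], [2, 3]), (0, [1], [4, 1]), (3, [], [5]), (0, [2], [0, 6]), (0, [2], [2, 4]), (0, [1], [3, 6]), (3, [], [5])]),
  (3, 7, [(0, [0], [0, 1]), (0, [0], [2, 3]), (0, [1], [4, 1]), (3, [], [5]), (0, [2], [0, 4]), (0, [2], [2, 6]), (0, [1], [3, 6]), (3, [], [5])]),
  (3, 7, [(0, [0], [0, 1]), (0, [0], [2, 3]), (0, [1], [4, 1]), (3, [], [5]), (0, [2], [2, 3]), (0, [2], [4, 6]), (0, [1], [0, 6]), (3, [], [5])]),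
  (2, 5, [(0, [0], [0, 1]), (2, [1], [2, 3, 4]), (0, [0], [0, 2]), (2, [1], [1, 3, 4])])]

def target : List ℤ := [41600, -83200, -57408, 57408, 28704, 128000, -128000, -304640, 176640, 132480, -92160, 92160, 92160, -92160, -92160, 184320, 184320, -92160, -184320, 92160, -184320, -184320, 92160, 184320, -128000, 128000, 35840, -35840, 128000, -128000, 92160, -92160, -92160, 92160, -40880, 43760, 92160, -92160, 39975, -10400, -5200, 5200, 3588, -7176, 32000, -39040, -30080, -16000, 39040, -34560, 34560, 23040, -11520, -11520, -11520, 11520, -2880, 23040, -23040, 64000, -128000, 32796, -44160, -64000, 64000, 12896, 19840, -24000, -24000, 16000, 19040, 0, 0, 0, 0, 0, 0, 0, 0, 0, 0, 0, 0, 0, 0, 0, 0, 0, 0, 0, 0, 0, 0, 0, 0, 0, 0, 0, 0, 0, 0, 0, 0, 0, 0, 0, 0, 0, 0, 0, 0, 0, 0, 0, 0, 0, 0, 0, 0, 0, 0, 0, 0, 0, 0, 0, 0, 0, 0, 0, 0,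 0, 0, 0, 0, 0, 0, 0, 0, 0, 0, 0, 0, 0, 0, 0, 0, 0, 0, 0, 0, 0, 0, 0, 0, 0, 0, 0, 0, 0, 0, 0, 0, 0, 0, 0, 0, 0, 0, 0, 0, 0, 0, 0, 0, 0, 0, 0, 0, 0, 0, 0, 0, 0, 0, 0, 0, 0, 0, 0, 0, 0, 0, 0, 0, 0, 0, 0, 0, 0, 0, 0, 0, 0, 0, 0, 0, 0, 0, 0, 0, 0, 0, 0, 0, 0, 0, 0, 0, 0, 0, 0, 0, 0, 0, 0, 0, 0, 0, 0, 0, 0, 0, 0, 0, 0, 0, 0, 0, 0, 0, 0, 0, 0, 0, 0, 0, 0, 0, 0, 0, 0, 0, 0, 0, 0, 0, 0, 0, 0, 0, 0, 0, 0, 0, 0, 0, 0, 0, 0, 0, 0, 0, 0, 0, 0, 0, 0, 0, 0, 0, 0, 0, 0, 0, 0, 0, 0, 0, 0, 0, 0, 0, 0, 0, 0, 0, 0, 0, 0, 0, 0, 0, 0, 0, 0, 0, 0, 0, 0, 0, 0, 0, 0, 0, 0, 0, 0, 0, 0, 0, 0, 0, 0, 0, 0, 0, 0, 0, 0, 0, 0, 0, 0, 0, 0, 0, 0, 0, 0, 0, 0, 0, 0, 0, 0, 0, 0, 0, 0, 0, 0, 0, 0, 0, 0, 0, 0, 0, 0, 0, 0, 0, 0, 0, 0, 0, 0, 0, 0, 0, 0, 0, 0, 0, 0, 0, 0, 0, 0]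

end YMA
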